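import Pool.Agent.AcyG.Defs
import Pool.Agent.AcyK.OAux

/-! # Auxiliary processes with explicit exponents (project MP_af9dfb_G, row GAX) -/

set_option autoImplicit false
set_option linter.unusedSectionVars false

namespace Pool.Agent.AcyG

open Finset
open Pool.Agent.Acy (IsPM wt Ex Pr mean)
open Pool.Agent.AcyK (Big StepOK LocOK prodLaw Un Sel updCol prodLaw_isPM Pr_prod_left
  Pr_prod_right)
open scoped Classical

universe u v w

section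

variable {Q ι : Type u} [Fintype Q] [DecidableEq Q] [Fintype ι] [DecidableEq ι]

namespace NibData

variable {D : NibData Q ι}

/-- `AuxOK` with an explicit exponent. -/
def AuxLoc {σ : Type v} (e : ℕ) (D : NibData Q ι)
    (X : ℕ → (Q → Option (Fin D.k × ℕ)) → (Q → Prop) → (ι → ℝ) → σ → Prop) : Prop :=
  ∀ m < D.M, ∀ (col : Q → Option (Fin D.k × ℕ)) (ok : Q → Prop) (Y : ι → ℝ) (s : σ),
    X m col ok Y s →
    (∀ i, (∑ z ∈ Un col, D.g i z) ≤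
      ((D.q : ℝ) - m) / D.q * (∑ z, D.g i z) + m * D.dv i) →
    ∃ XA : (Q → Option Bool) → Prop, LocOK e D.T (D.lawA m) XA ∧
    ∀ lam, XA lam →
    (∀ b i, |∑ z ∈ Sel col lam b, D.g i z - D.t m * ∑ z ∈ Un col, D.g i z| ≤ D.dv i) →
    ∀ (p : Q → Fin D.k → ℝ) (bad : Q → Fin D.k → Prop), IsPM p →
    (∀ u c, p u c ≤ 2 * D.T / D.k) →
    (∀ u, (∑ c, if bad u c then p u c else 0) ≤ 1 / 20) →
    (∀ z c, ¬ bad z c → ∀ u r, col u = some (c, r) → D.K u z ≠ -1 ∧ ¬ D.sp u z) →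
    ∃ (β : Type u) (_ : Fintype β) (ν : Q → β → ℝ) (upd : (Q → Fin D.k × β) → σ), IsPM ν ∧
      LocOK e D.T (prodLaw p ν) (fun ω => ∀ Y' : ι → ℝ,
        (∀ i, |Y' i - (Y i - D.k * D.Rt lam p col i)| ≤ D.t m * D.gs i / D.T ^ 10 + D.er i) →
        X (m + 1) (updCol m col lam fun u => (ω u).1)
          (updOk col ok lam bad fun u => (ω u).1) Y' (upd ω))

theorem AuxLoc.mono {σ : Type v} {e e' : ℕ} (hT : Big D.T) (he : e ≤ e')
    {X : ℕ → (Q → Option (Fin D.k × ℕ)) → (Q → Prop) → (ι → ℝ) → σ → Prop}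
    (h : AuxLoc e D X) : AuxLoc e' D X := by
  intro m hm col ok Y s hX hU
  obtain ⟨XA, hXA, h1⟩ := h m hm col ok Y s hX hU
  refine ⟨XA, LocOK.mono hT hXA he, ?_⟩
  intro lam hlam h2 p bad hp hp' hb hp0
  obtain ⟨β, hβ, ν, upd, hν, hG⟩ := h1 lam hlam h2 p bad hp hp' hb hp0
  exact ⟨β, hβ, ν, upd, hν, LocOK.mono hT hG he⟩

theorem AuxLoc.auxOK {σ : Type v} {e : ℕ} (hT : Big D.T) (he : e ≤ 60000)
    {X : ℕ → (Q → Option (Fin D.k × ℕ)) → (Q → Prop) → (ι → ℝ) → σ → Prop}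
    (h : AuxLoc e D X) : AuxOK D X := by
  intro m hm col ok Y s hX hU
  obtain ⟨XA, hXA, h1⟩ := h m hm col ok Y s hX hU
  refine ⟨XA, LocOK.stepOK hT hXA he, ?_⟩
  intro lam hlam h2 p bad hp hp' hb hp0
  obtain ⟨β, hβ, ν, upd, hν, hG⟩ := h1 lam hlam h2 p bad hp hp' hb hp0
  exact ⟨β, hβ, ν, upd, hν, LocOK.stepOK hT hG he⟩

/-- Two auxiliary processes can be run together (with explicit exponent, for iteration). -/
theorem AuxLoc.andLoc {σ : Type v} {τ : Type w} {e : ℕ} (hT : Big D.T)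
    {X : ℕ → (Q → Option (Fin D.k × ℕ)) → (Q → Prop) → (ι → ℝ) → σ → Prop}
    {X' : ℕ → (Q → Option (Fin D.k × ℕ)) → (Q → Prop) → (ι → ℝ) → τ → Prop}
    (h : AuxLoc e D X) (h' : AuxLoc e D X') :
    AuxLoc (e + 1) D (fun m col ok Y (s : σ × τ) => X m col ok Y s.1 ∧ X' m col ok Y s.2) := by
  rintro m hm col ok Y ⟨s, s'⟩ ⟨hX, hX'⟩ hU
  obtain ⟨XA, hXA, h1⟩ := h m hm col ok Y s hX hU
  obtain ⟨XA', hXA', h1'⟩ := h' m hm col ok Y s' hX' hU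
  refine ⟨fun lam => XA lam ∧ XA' lam, LocOK.and hT hXA hXA', ?_⟩
  rintro lam ⟨hlam, hlam'⟩ h2 p bad hp hp' hb hp0
  obtain ⟨β, hβ, ν, upd, hν, hG⟩ := h1 lam hlam h2 p bad hp hp' hb hp0
  obtain ⟨β', hβ', ν', upd', hν', hG'⟩ := h1' lam hlam' h2 p bad hp hp' hb hp0
  refine ⟨β × β', inferInstance, prodLaw ν ν',
    fun ω => (upd fun y => ((ω y).1, (ω y).2.1), upd' fun y => ((ω y).1, (ω y).2.2)),
    prodLaw_isPM hν hν', ?_⟩
  have k1 := LocOK.map (fun a : Fin D.k × β × β' => (a.1, a.2.1))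
    (fun E => Pr_prod_left (p := p) (ν := ν) hν' E) hG
  have k2 := LocOK.map (fun a : Fin D.k × β × β' => (a.1, a.2.2))
    (fun E => Pr_prod_right (p := p) (ν' := ν') hν E) hG'
  have k3 := LocOK.and hT k1 k2
  obtain ⟨κ, hκ, E, S, hd, hpr, hs, hi, hg⟩ := k3
  refine ⟨κ, hκ, E, S, hd, hpr, hs, hi, ?_⟩
  intro ω hω Y' hY
  obtain ⟨g1, g2⟩ := hg ω hω
  exact ⟨g1 Y' hY, g2 Y' hY⟩

/-- Two auxiliary processes can be run together. -/
theorem AuxLoc.and {σ : Type v} {τ : Type w} {e : ℕ} (hT : Big D.T) (he : e < 60000)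
    {X : ℕ → (Q → Option (Fin D.k × ℕ)) → (Q → Prop) → (ι → ℝ) → σ → Prop}
    {X' : ℕ → (Q → Option (Fin D.k × ℕ)) → (Q → Prop) → (ι → ℝ) → τ → Prop}
    (h : AuxLoc e D X) (h' : AuxLoc e D X') :
    AuxOK D (fun m col ok Y (s : σ × τ) => X m col ok Y s.1 ∧ X' m col ok Y s.2) :=
  AuxLoc.auxOK hT he (AuxLoc.andLoc hT h h')

end NibData

end

end Pool.Agent.AcyG
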