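import Pool.Agent.AcyG.Defs

/-! # Consequences of `Ok` and `Inv` (row GA) -/

set_option autoImplicit false
set_option linter.unusedSectionVars false

namespace Pool.Agent.AcyG

open Finset
open Pool.Agent.Acy (IsPM wt Ex Pr mean)
open Pool.Agent.AcyK (Big StepOK prodLaw Un Sel updCol)
open scoped Classical

universe u v

variable {Q ι : Type u} [Fintype Q] [DecidableEq Q] [Fintype ι] [DecidableEq ι]

namespace NibData

variable {D : NibData Q ι}

section ok

variable (hD : D.Ok)

include hD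

theorem k_pos : 0 < D.k := by
  have h1 := hD.k_lo
  have h2 : (0 : ℝ) < D.T ^ 3999 := pow_pos hD.big.pos _
  have h3 : (0 : ℝ) < D.k := lt_of_lt_of_le h2 h1
  exact_mod_cast h3

theorem k_pos' : (0 : ℝ) < D.k := by
  exact_mod_cast k_pos hD

theorem k_inv_le : 1 / (D.k : ℝ) ≤ 1 / D.T ^ 3999 :=
  one_div_le_one_div_of_le (pow_pos hD.big.pos _) hD.k_lo

theorem exp_h_le (x y : Q) : Real.exp (Real.log D.T / 10 * D.h x y) ≤ D.T / 10000 := by
  have h1 : Real.log D.T / 10 * D.h x y ≤ Real.log D.T / 5 := by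
    have h2 := hD.h_le x y
    have h3 := hD.big.log_pos
    nlinarith
  exact (Real.exp_le_exp.mpr h1).trans hD.big.exp_fifth

theorem inv_T_pos : 0 < 1 / D.T := one_div_pos.mpr hD.big.pos

theorem K_ge (x y : Q) : -1 ≤ D.K x y := by
  have h1 := inv_T_pos hD
  rcases hD.K_cases x y with h | h
  · rw [h]
  · linarith

theorem one_add_K_le (x y : Q) : 1 + D.K x y ≤ D.T / 10000 := by
  have hT := hD.big.big
  have h1 := inv_T_pos hD
  rcases hD.K_cases x y with h | h
  · rw [h]
    norm_num at hT ⊢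
    linarith
  · exact (hD.K_exp x y (by intro h2; rw [h2] at h; linarith)).trans (exp_h_le hD x y)

theorem K_le (x y : Q) : D.K x y ≤ D.T := by
  have h1 := one_add_K_le hD x y
  have h2 := hD.big.pos
  linarith

theorem K_abs (x y : Q) : |D.K x y| ≤ D.T := by
  have h1 := K_ge hD x y
  have h2 := hD.big.one_le
  exact abs_le.mpr ⟨by linarith, K_le hD x y⟩

theorem K_off' (x y : Q) (h : y ∉ D.R x) : D.K y x = 0 := by
  apply hD.K_off
  intro hc
  exact h (Finset.mem_filter.mpr ⟨mem_univ _, hc⟩)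

theorem h_off' (x y : Q) (h : y ∉ D.R x) : D.h y x = 0 := by
  apply hD.h_off
  intro hc
  exact h (Finset.mem_filter.mpr ⟨mem_univ _, hc⟩)

theorem sp_off' (x y : Q) (h : y ∉ D.R x) : ¬ D.sp y x := by
  intro hc
  exact h (Finset.mem_filter.mpr ⟨mem_univ _, hD.sp_rp _ _ hc⟩)

theorem a_off' (b : Fin 3) (x y : Q) (h : y ∉ D.R x) : D.a b x y = 0 := by
  apply hD.a_off
  intro hc
  exact h (Finset.mem_filter.mpr ⟨mem_univ _, hc⟩)

theorem mem_R_symm (x y : Q) : x ∈ D.R y ↔ y ∈ D.R x := by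
  simp only [R, Finset.mem_filter, Finset.mem_univ, true_and]
  exact ⟨fun h => hD.rp_symm _ _ h, fun h => hD.rp_symm _ _ h⟩

/-- `K^- ≤ a 0`, `K^+ ≤ (l/10) h (1+K) ≤ a 1`. -/
theorem K_abs_le (x y : Q) : |D.K y x| ≤ D.a 0 x y + D.a 1 x y := by
  have hl := hD.big.log_pos
  have hh := hD.h_nonneg y x
  have ha0 := hD.a_nonneg 0 x y
  have ha1 := hD.a_nonneg 1 x y
  rcases le_or_gt (D.K y x) 0 with h | h
  · rw [abs_of_nonpos h]
    have := hD.a_neg x y
    linarith
  · have h0 : D.K y x ≠ -1 := by linarith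
    have h1 := hD.K_exp y x h0
    rw [abs_of_pos h]
    have h4 : Real.log (1 + D.K y x) ≤ Real.log D.T / 10 * D.h y x := by
      rw [Real.log_le_iff_le_exp (by linarith)]
      exact h1
    have h5 : 1 - (1 + D.K y x)⁻¹ ≤ Real.log (1 + D.K y x) :=
      Real.one_sub_inv_le_log_of_pos (by linarith)
    have h6 : D.K y x = (1 + D.K y x) * (1 - (1 + D.K y x)⁻¹) := by
      have : (1 + D.K y x) ≠ 0 := by linarith
      field_simp
      ring
    have h7 : D.K y x ≤ (1 + D.K y x) * (Real.log D.T / 10 * D.h y x) := by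
      calc D.K y x = (1 + D.K y x) * (1 - (1 + D.K y x)⁻¹) := h6
        _ ≤ (1 + D.K y x) * (Real.log D.T / 10 * D.h y x) :=
            mul_le_mul_of_nonneg_left (h5.trans h4) (by linarith)
    have h8 := hD.a_ex x y h0
    have h9 : 20 * Real.log D.T * D.h y x ≤ Real.exp (20 * Real.log D.T * D.h y x) - 1 := by
      have := Real.add_one_le_exp (20 * Real.log D.T * D.h y x)
      linarith
    have h10 : Real.log D.T / 10 * D.h y x ≤ Real.exp (20 * Real.log D.T * D.h y x) - 1 := by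
      have : 0 ≤ Real.log D.T * D.h y x := by positivity
      linarith
    have h11 : (1 + D.K y x) * (Real.log D.T / 10 * D.h y x) ≤
        (1 + D.K y x) * (Real.exp (20 * Real.log D.T * D.h y x) - 1) :=
      mul_le_mul_of_nonneg_left h10 (by linarith)
    have h12 : 0 ≤ (1 + D.K y x) * (Real.exp (20 * Real.log D.T * D.h y x) - 1) :=
      mul_nonneg (by linarith) (le_trans (by positivity) h10)
    linarith

theorem q_sub {m : ℕ} (hm : m ≤ D.M) : D.T ^ 133 ≤ (D.q : ℝ) - m := by
  have h1 := hD.M_le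
  have h2 : (m : ℝ) ≤ D.M := by exact_mod_cast hm
  linarith

theorem t_pos {m : ℕ} (hm : m ≤ D.M) : 0 < D.t m := by
  have h1 := q_sub hD hm
  have h2 : 0 < D.T ^ 133 := pow_pos hD.big.pos _
  unfold t
  exact one_div_pos.mpr (by linarith)

theorem t_le {m : ℕ} (hm : m ≤ D.M) : D.t m ≤ 1 / D.T ^ 133 := by
  have h1 := q_sub hD hm
  have h2 : 0 < D.T ^ 133 := pow_pos hD.big.pos _
  unfold t
  exact one_div_le_one_div_of_le h2 h1

theorem M_le_T : (D.M : ℝ) ≤ D.T ^ 150 := by
  have h1 := hD.M_le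
  have h2 := hD.q_hi
  have h3 : 0 < D.T ^ 133 := pow_pos hD.big.pos _
  linarith

theorem m_le_T {m : ℕ} (hm : m ≤ D.M) : (m : ℝ) ≤ D.T ^ 150 := by
  have h1 := M_le_T hD
  have h2 : (m : ℝ) ≤ D.M := by exact_mod_cast hm
  linarith

theorem sg_nonneg {m : ℕ} (hm : m ≤ D.M) : 0 ≤ D.sg m := by
  unfold sg
  refine Finset.sum_nonneg fun i hi => ?_
  have : i < m := Finset.mem_range.mp hi
  exact (t_pos hD (by omega)).le

theorem sg_succ (m : ℕ) : D.sg (m + 1) = D.sg m + D.t m := by
  have := hD.big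
  unfold sg
  rw [Finset.sum_range_succ]

/-- `1/n ≤ log (n/(n-1))`, telescoping: `sg m ≤ log q ≤ 150 log T`. -/
theorem sg_le {m : ℕ} (hm : m ≤ D.M) : D.sg m ≤ D.T / 100 := by
  have hT0 := hD.big.pos
  have hT1 := hD.big.one_le
  have h133 : (1 : ℝ) ≤ D.T ^ 133 := one_le_pow₀ hT1
  have key : ∀ n, n ≤ m → D.sg n ≤ Real.log D.q - Real.log ((D.q : ℝ) - n) := by
    intro n
    induction n with
    | zero =>
      intro _
      simp [sg]
    | succ n ih =>
      intro hn
      have h1 := ih (by omega)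
      have h2 := q_sub hD (m := n) (by omega)
      have h3 := q_sub hD (m := n + 1) (by omega)
      push_cast at h3
      have h4 : D.sg (n + 1) = D.sg n + D.t n := by
        unfold sg
        rw [Finset.sum_range_succ]
      rw [h4]
      have h5 : (0 : ℝ) < (D.q : ℝ) - n := by linarith
      have h6 : (0 : ℝ) < (D.q : ℝ) - (n + 1) := by linarith
      have h7 : D.t n ≤ Real.log ((D.q : ℝ) - n) - Real.log ((D.q : ℝ) - (n + 1)) := by
        rw [← Real.log_div h5.ne' h6.ne']
        have h8 := Real.one_sub_inv_le_log_of_pos (div_pos h5 h6)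
        refine le_trans (le_of_eq ?_) h8
        unfold t
        rw [inv_div]
        field_simp
        ring
      push_cast
      linarith
  have h1 := key m le_rfl
  have h2 := q_sub hD hm
  have h3 : 0 ≤ Real.log ((D.q : ℝ) - m) := Real.log_nonneg (by linarith)
  have hq : (0 : ℝ) < D.q := by
    have := hD.M_le
    have h4 : (0 : ℝ) ≤ D.M := Nat.cast_nonneg _
    linarith
  have h4 : Real.log D.q ≤ 150 * Real.log D.T := by
    have h5 := Real.log_le_log hq hD.q_hi
    rw [Real.log_pow] at h5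
    push_cast at h5
    exact h5
  have h5 := hD.big.log_le
  linarith

theorem two_t_le {m : ℕ} (hm : m ≤ D.M) : 2 * D.t m ≤ 1 := by
  have h1 := t_le hD hm
  have h2 := hD.big.small (n := 133) (by norm_num)
  linarith

theorem lawA_isPM {m : ℕ} (hm : m ≤ D.M) : IsPM (D.lawA m : Q → Option Bool → ℝ) := by
  have h1 := t_pos hD hm
  have h2 := two_t_le hD hm
  refine ⟨fun i e => ?_, fun i => ?_⟩
  · unfold lawA
    split_ifs
    · linarith
    · exact h1.le
  · rw [Fintype.sum_option, Fintype.sum_bool]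
    unfold lawA
    simp
    ring

theorem gs_nonneg (i : ι) : 0 ≤ D.gs i :=
  (Finset.sum_nonneg fun z _ => hD.g_nonneg i z).trans (hD.g_sum i)

theorem g_sum_nonneg (i : ι) (s : Finset Q) : 0 ≤ ∑ z ∈ s, D.g i z :=
  Finset.sum_nonneg fun z _ => hD.g_nonneg i z

theorem g_sum_le (i : ι) (s : Finset Q) : ∑ z ∈ s, D.g i z ≤ D.gs i :=
  (Finset.sum_le_sum_of_subset_of_nonneg (Finset.subset_univ s)
    fun z _ _ => hD.g_nonneg i z).trans (hD.g_sum i)

theorem dv_nonneg (i : ι) : 0 ≤ D.dv i :=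
  mul_nonneg (pow_nonneg hD.big.pos.le _) (Real.sqrt_nonneg _)

theorem dv_le (i : ι) : D.dv i ≤ D.T ^ 2 * Real.sqrt (D.gm i * D.gs i) + D.T ^ 2 * D.gm i := by
  have h1 := hD.gm_nonneg i
  have h2 := gs_nonneg hD i
  have h3 : Real.sqrt (D.gm i * (D.gs i + D.gm i)) ≤
      Real.sqrt (D.gm i * D.gs i) + D.gm i := by
    have h4 := Real.sqrt_nonneg (D.gm i * D.gs i)
    have h5 := Real.sq_sqrt (mul_nonneg h1 h2)
    rw [Real.sqrt_le_iff]
    refine ⟨by positivity, ?_⟩
    have h6 : 0 ≤ Real.sqrt (D.gm i * D.gs i) * D.gm i := mul_nonneg h4 h1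
    nlinarith
  unfold dv
  rw [← mul_add]
  exact mul_le_mul_of_nonneg_left h3 (pow_nonneg hD.big.pos.le _)

theorem er_nonneg (i : ι) : 0 ≤ D.er i := by
  have h0 := hD.big.pos
  have h1 := hD.gm_nonneg i
  have h2 := gs_nonneg hD i
  unfold er
  positivity

theorem w_le (i : ι) (z z' : Q) : |D.w i z z'| ≤ D.g i z :=
  (Finset.single_le_sum (f := fun z' => |D.w i z z'|) (fun _ _ => abs_nonneg _)
    (Finset.mem_univ z')).trans (hD.w_row i z)

theorem w_le' (i : ι) (z z' : Q) : |D.w i z z'| ≤ D.g i z' := by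
  rw [hD.w_symm]
  exact w_le hD i z' z

theorem w_col (i : ι) (z' : Q) : ∑ z, |D.w i z z'| ≤ D.g i z' := by
  refine le_trans (le_of_eq ?_) (hD.w_row i z')
  exact Finset.sum_congr rfl fun z _ => by rw [hD.w_symm]

end ok

/-- Selected vertices. -/
theorem LL_eq (S : NState Q D.k) (lam : Q → Option Bool) :
    D.LL S lam = Sel S.col lam true ∪ Sel S.col lam false := by
  ext u
  simp only [LL, Sel, mem_filter, mem_univ, true_and, mem_union]
  rcases hl : lam u with _ | b
  · simp
  · cases b <;> simp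

theorem Sel_disj (S : NState Q D.k) (lam : Q → Option Bool) :
    Disjoint (Sel S.col lam true) (Sel S.col lam false) := by
  rw [Finset.disjoint_left]
  intro u h1 h2
  simp only [Sel, mem_filter, mem_univ, true_and] at h1 h2
  rw [h1.2] at h2
  simpa using h2.2

theorem U1_eq (S : NState Q D.k) (lam : Q → Option Bool) :
    D.U1 S lam = Un S.col \ Sel S.col lam true := by
  ext u
  simp only [U1, Un, Sel, mem_filter, mem_univ, true_and, mem_sdiff, not_and]
  tauto

theorem Sel_sub (S : NState Q D.k) (lam : Q → Option Bool) (b : Bool) :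
    Sel S.col lam b ⊆ Un S.col := by
  intro u hu
  simp only [Sel, Un, mem_filter, mem_univ, true_and] at hu ⊢
  exact hu.1

theorem U1_sub (S : NState Q D.k) (lam : Q → Option Bool) : D.U1 S lam ⊆ Un S.col := by
  rw [U1_eq]
  exact sdiff_subset

theorem LL_sub (S : NState Q D.k) (lam : Q → Option Bool) : D.LL S lam ⊆ Un S.col := by
  rw [LL_eq]
  exact union_subset (Sel_sub S lam true) (Sel_sub S lam false)

theorem U1_union (S : NState Q D.k) (lam : Q → Option Bool) :
    D.U1 S lam ∪ Sel S.col lam true = Un S.col := by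
  rw [U1_eq]
  exact sdiff_union_of_subset (Sel_sub S lam true)

theorem U1_disj (S : NState Q D.k) (lam : Q → Option Bool) :
    Disjoint (D.U1 S lam) (Sel S.col lam true) := by
  rw [U1_eq]
  exact sdiff_disjoint

/-- The uncoloured vertices after the round. -/
theorem Un_step (S : NState Q D.k) (m : ℕ) (lam : Q → Option Bool) (ω : Q → Fin D.k) :
    Un (D.step S m lam ω).col = D.U1 S lam := by
  ext u
  simp only [Un, U1, step, updCol, mem_filter, mem_univ, true_and]
  by_cases h : S.col u = none ∧ lam u = some true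
  · rw [if_pos h]
    simp [h.1, h.2]
  · rw [if_neg h]
    constructor
    · intro h1
      exact ⟨h1, fun h2 => h ⟨h1, h2⟩⟩
    · intro h1
      exact h1.1

/-- The exponential factor is positive. -/
theorem ee_pos' (S : NState Q D.k) (x : Q) (c : Fin D.k) : 0 < D.ee S x c := Real.exp_pos _

section inv

variable (hD : D.Ok) {S : NState Q D.k} {m : ℕ} (hI : D.Inv S m) (hm : m ≤ D.M)

include hD hI hm

theorem v_le' (x : Q) (c : Fin D.k) : S.v x c ≤ D.T / 1000 := by
  have h1 := hI.v_hi x c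
  have h2 := hI.bz_le x c
  have h3 := hI.ac_le 0 x c
  have h4 := hD.big.log_pos
  have h5 : Real.log D.T / 10 * S.bz x c + 2 * S.ac 0 x c ≤ 2 * Real.log D.T / 5 := by
    nlinarith
  exact (h1.trans (Real.exp_le_exp.mpr h5)).trans hD.big.exp_two_fifth

theorem v_le (x : Q) (c : Fin D.k) : S.v x c ≤ D.T := by
  have h1 := v_le' hD hI hm x c
  have h2 := hD.big.pos
  linarith

theorem v_lo' (x : Q) (c : Fin D.k) : -(1 / 1000000) ≤ S.v x c := by
  have h1 := hI.v_lo x c
  have h2 := hD.big.small (n := 100) (by norm_num)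
  linarith

theorem v_abs (x : Q) (c : Fin D.k) : |S.v x c| ≤ D.T := by
  have h1 := v_lo' hD hI hm x c
  have h2 := hD.big.one_le
  exact abs_le.mpr ⟨by linarith, v_le hD hI hm x c⟩

theorem mP_bd (x : Q) : |D.mP S x - D.k| ≤ D.k / D.T ^ 29 := by
  have hT := hD.big
  have hT0 := hT.pos
  have hk := k_pos' hD
  have hTb := hT.big
  norm_num at hTb
  have hjq : (m : ℝ) ≤ D.T ^ 150 := m_le_T hD hm
  have h1 := abs_le.mp (hI.mass x)
  have h2 : (m : ℝ) * D.k / D.T ^ 180 ≤ D.k / D.T ^ 30 := by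
    rw [div_le_div_iff₀ (by positivity) (by positivity)]
    have h3 : D.T ^ 180 = D.T ^ 150 * D.T ^ 30 := by ring
    rw [h3]
    have h4 : (m : ℝ) * D.T ^ 30 ≤ D.T ^ 150 * D.T ^ 30 :=
      mul_le_mul_of_nonneg_right hjq (by positivity)
    nlinarith
  have h3 : ∑ c, S.v x c ≤ D.mP S x := Finset.sum_le_sum fun c _ => le_max_left _ _
  have h4 : D.mP S x ≤ ∑ c, S.v x c + D.k * (1 / D.T ^ 100) := by
    have h5 : D.mP S x ≤ ∑ c, (S.v x c + 1 / D.T ^ 100) := by
      refine Finset.sum_le_sum fun c _ => ?_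
      have h6 := hI.v_lo x c
      have h7 : 0 < 1 / D.T ^ 100 := by positivity
      exact max_le (by linarith) (by linarith)
    rw [Finset.sum_add_distrib, Finset.sum_const, Finset.card_univ, Fintype.card_fin,
      nsmul_eq_mul] at h5
    exact h5
  have h5 : D.k * (1 / D.T ^ 100) ≤ D.k / D.T ^ 30 := by
    rw [mul_one_div]
    exact div_le_div_of_nonneg_left hk.le (by positivity) (hT.pw (by norm_num))
  have h6 : 2 * (D.k / D.T ^ 30) ≤ D.k / D.T ^ 29 := by
    rw [mul_div_assoc', div_le_div_iff₀ (by positivity) (by positivity)]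
    have h7 : D.T ^ 30 = D.T * D.T ^ 29 := by ring
    rw [h7]
    have h8 : 0 < D.k * D.T ^ 29 := by positivity
    nlinarith
  have h7 : 0 ≤ D.k / D.T ^ 30 := by positivity
  rw [abs_le]
  constructor <;> linarith

theorem mP_bd' (x : Q) : |D.mP S x - D.k| ≤ D.k / 1000000 := by
  have h1 := mP_bd hD hI hm x
  have hk := k_pos' hD
  have h2 := hD.big.small (n := 29) (by norm_num)
  have h3 : (D.k : ℝ) / D.T ^ 29 = D.k * (1 / D.T ^ 29) := by ring
  rw [h3] at h1
  nlinarith

theorem mP_pos (x : Q) : 0 < D.mP S x := by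
  have h1 := abs_le.mp (mP_bd' hD hI hm x)
  have hk := k_pos' hD
  linarith

theorem p_nonneg (x : Q) (c : Fin D.k) : 0 ≤ D.p S x c :=
  div_nonneg (le_max_right _ _) (mP_pos hD hI hm x).le

theorem mP_ge (x : Q) : (D.k : ℝ) / 2 ≤ D.mP S x := by
  have h1 := abs_le.mp (mP_bd' hD hI hm x)
  have hk := k_pos' hD
  linarith

/-- `p ≤ 2 v⁺ / k`. -/
theorem p_le_max (x : Q) (c : Fin D.k) : D.p S x c ≤ 2 / D.k * max (S.v x c) 0 := by
  have hk := k_pos' hD
  have h1 := mP_ge hD hI hm x
  have h2 : 0 ≤ max (S.v x c) 0 := le_max_right _ _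
  unfold p
  calc max (S.v x c) 0 / D.mP S x ≤ max (S.v x c) 0 / (D.k / 2) :=
        div_le_div_of_nonneg_left h2 (by positivity) h1
    _ = 2 / D.k * max (S.v x c) 0 := by field_simp

theorem p_le_abs (x : Q) (c : Fin D.k) : D.p S x c ≤ 2 / D.k * |S.v x c| := by
  have hk := k_pos' hD
  refine (p_le_max hD hI hm x c).trans (mul_le_mul_of_nonneg_left ?_ (by positivity))
  exact max_le (le_abs_self _) (abs_nonneg _)

theorem p_le (x : Q) (c : Fin D.k) : D.p S x c ≤ 2 * D.T / D.k := by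
  have hk := k_pos' hD
  have hT := hD.big.pos
  refine (p_le_max hD hI hm x c).trans ?_
  have h1 : max (S.v x c) 0 ≤ D.T := max_le (v_le hD hI hm x c) hT.le
  calc 2 / D.k * max (S.v x c) 0 ≤ 2 / D.k * D.T :=
        mul_le_mul_of_nonneg_left h1 (by positivity)
    _ = 2 * D.T / D.k := by ring

theorem p_isPM : IsPM (D.p S) := by
  refine ⟨fun x c => p_nonneg hD hI hm x c, fun x => ?_⟩
  unfold p
  rw [← Finset.sum_div]
  exact div_self (mP_pos hD hI hm x).ne'

/-- `p = v / k` up to a tiny error. -/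
theorem p_sub (x : Q) (c : Fin D.k) :
    |D.p S x c - S.v x c / D.k| ≤ 1 / (D.T ^ 27 * D.k) := by
  have hT := hD.big
  have hT0 := hT.pos
  have hTb := hT.big
  norm_num at hTb
  have hk := k_pos' hD
  have hP := mP_pos hD hI hm x
  have hPk := mP_ge hD hI hm x
  have h1 := mP_bd hD hI hm x
  have h2 := hI.v_lo x c
  have h3 := v_le' hD hI hm x c
  have h4 : 0 ≤ max (S.v x c) 0 := le_max_right _ _
  have h5 : max (S.v x c) 0 ≤ D.T / 1000 := max_le h3 (by positivity)
  have h6 : |max (S.v x c) 0 - S.v x c| ≤ 1 / D.T ^ 100 := by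
    rcases le_total (S.v x c) 0 with h | h
    · rw [max_eq_right h, zero_sub, abs_neg, abs_of_nonpos h]
      linarith
    · rw [max_eq_left h, sub_self, abs_zero]
      positivity
  have h7 : D.p S x c - S.v x c / D.k =
      max (S.v x c) 0 * (D.k - D.mP S x) / (D.k * D.mP S x) +
        (max (S.v x c) 0 - S.v x c) / D.k := by
    unfold p
    field_simp
    ring
  rw [h7]
  have h8 : |max (S.v x c) 0 * (D.k - D.mP S x) / (D.k * D.mP S x)| ≤
      1 / (500 * D.T ^ 28 * D.k) := by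
    rw [abs_div, abs_mul, abs_of_nonneg h4, abs_of_pos (mul_pos hk hP), abs_sub_comm,
      div_le_div_iff₀ (mul_pos hk hP) (by positivity)]
    have e1 : max (S.v x c) 0 * |D.mP S x - D.k| ≤ D.T / 1000 * (D.k / D.T ^ 29) :=
      mul_le_mul h5 h1 (abs_nonneg _) (by positivity)
    have e2 : D.T / 1000 * (D.k / D.T ^ 29) * (500 * D.T ^ 28 * D.k) = D.k * (D.k / 2) := by
      field_simp
      norm_num
    calc max (S.v x c) 0 * |D.mP S x - D.k| * (500 * D.T ^ 28 * D.k)
        ≤ D.T / 1000 * (D.k / D.T ^ 29) * (500 * D.T ^ 28 * D.k) :=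
          mul_le_mul_of_nonneg_right e1 (by positivity)
      _ = D.k * (D.k / 2) := e2
      _ ≤ 1 * (D.k * D.mP S x) := by
          rw [one_mul]
          exact mul_le_mul_of_nonneg_left hPk hk.le
  have h9 : |(max (S.v x c) 0 - S.v x c) / D.k| ≤ 1 / (D.T ^ 100 * D.k) := by
    rw [abs_div, abs_of_pos hk, ← div_div]
    exact div_le_div_of_nonneg_right h6 hk.le
  refine (abs_add_le _ _).trans ((add_le_add h8 h9).trans ?_)
  have e3 : 1 / (500 * D.T ^ 28 * D.k) + 1 / (D.T ^ 100 * D.k) =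
      (1 / (500 * D.T) + 1 / D.T ^ 73) * (1 / (D.T ^ 27 * D.k)) := by
    field_simp
  rw [e3]
  have e4 : 1 / (500 * D.T) ≤ 1 / 1000 :=
    one_div_le_one_div_of_le (by norm_num) (by linarith)
  have e5 := hT.small (n := 73) (by norm_num)
  have e6 : 1 / (500 * D.T) + 1 / D.T ^ 73 ≤ 1 := by linarith
  calc (1 / (500 * D.T) + 1 / D.T ^ 73) * (1 / (D.T ^ 27 * D.k))
      ≤ 1 * (1 / (D.T ^ 27 * D.k)) := mul_le_mul_of_nonneg_right e6 (by positivity)
    _ = _ := one_mul _

theorem p_le_v (x : Q) (c : Fin D.k) (h : S.al x c) : D.p S x c ≤ 2 / D.k * S.v x c := by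
  have h1 := p_le_max hD hI hm x c
  rwa [max_eq_left (hI.al_pos x c h).le] at h1

theorem ee_pos (x : Q) (c : Fin D.k) : 0 < D.ee S x c := Real.exp_pos _

/-- `ee ≤ T^20` while alive. -/
theorem ee_le_al (x : Q) (c : Fin D.k) (h : S.al x c) : D.ee S x c ≤ D.T ^ 20 := by
  have hT := hD.big
  have hl := hT.log_pos
  have h1 := hI.bz_al x c h
  have h2 := hI.ac_nonneg 1 x c
  unfold ee
  rw [← Real.exp_log (pow_pos hT.pos 20), Real.log_pow]
  apply Real.exp_le_exp.mpr
  push_cast
  nlinarith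

theorem ee_le (x : Q) (c : Fin D.k) : D.ee S x c ≤ D.T ^ 40 := by
  have hT := hD.big
  have hl := hT.log_pos
  have h1 := hI.bz_le x c
  have h2 := hI.ac_nonneg 1 x c
  unfold ee
  rw [← Real.exp_log (pow_pos hT.pos 40), Real.log_pow]
  apply Real.exp_le_exp.mpr
  push_cast
  nlinarith

/-- `T^19 ≤ ee` when the size budget is exceeded. -/
theorem ee_ge (x : Q) (c : Fin D.k) (h : 1 < S.bz x c) : D.T ^ 19 ≤ D.ee S x c := by
  have hT := hD.big
  have hl := hT.log_pos
  have h2 := hI.ac_le 1 x c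
  unfold ee
  rw [← Real.exp_log (pow_pos hT.pos 19), Real.log_pow]
  apply Real.exp_le_exp.mpr
  push_cast
  nlinarith

/-- Stopped mass. -/
theorem st_le (x : Q) : ∑ c, (if S.al x c then 0 else |S.v x c|) ≤ D.k / D.T ^ 13 := by
  have hT := hD.big
  have hT0 := hT.pos
  have hk := k_pos' hD
  have hTb := hT.big
  norm_num at hTb
  have hjq : (m : ℝ) ≤ D.T ^ 150 := m_le_T hD hm
  have hj0 : (0 : ℝ) ≤ m := Nat.cast_nonneg m
  set ε : ℝ := 1 / D.T ^ 100 with hε
  have hε0 : 0 < ε := by positivity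
  obtain ⟨O, hO, hdead⟩ := hI.dead x
  -- the exceptional colours
  have e3 : D.T * (O.card : ℝ) ≤ D.k / D.T ^ 14 := by
    have h1 : (m : ℝ) * D.k / D.T ^ 165 ≤ D.k / D.T ^ 15 := by
      rw [div_le_div_iff₀ (by positivity) (by positivity)]
      have h2 : D.T ^ 165 = D.T ^ 150 * D.T ^ 15 := by ring
      rw [h2]
      have h3 : (m : ℝ) * D.T ^ 15 ≤ D.T ^ 150 * D.T ^ 15 :=
        mul_le_mul_of_nonneg_right hjq (by positivity)
      nlinarith
    calc D.T * (O.card : ℝ) ≤ D.T * (D.k / D.T ^ 15) :=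
          mul_le_mul_of_nonneg_left (hO.trans h1) hT0.le
      _ = D.k / D.T ^ 14 := by
          rw [mul_div_assoc', div_eq_div_iff (by positivity) (by positivity)]
          ring
  -- number of colours with large double count
  set N : Finset (Fin D.k) := univ.filter fun c => D.k / D.T ^ 20 < S.pd x c with hN
  have e4 : D.T * (N.card : ℝ) ≤ D.k / D.T ^ 17 := by
    have h1 : (N.card : ℝ) * (D.k / D.T ^ 20) ≤ ∑ c, S.pd x c := by
      calc (N.card : ℝ) * (D.k / D.T ^ 20) = ∑ c ∈ N, (D.k / D.T ^ 20 : ℝ) := by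
            rw [Finset.sum_const, nsmul_eq_mul]
        _ ≤ ∑ c ∈ N, S.pd x c := by
            refine Finset.sum_le_sum fun c hc => ?_
            exact (Finset.mem_filter.mp hc).2.le
        _ ≤ ∑ c, S.pd x c :=
            Finset.sum_le_sum_of_subset_of_nonneg (Finset.subset_univ _)
              fun c _ _ => hI.pd_nonneg x c
    have h2 : (N.card : ℝ) * (D.k / D.T ^ 20) ≤ D.T ^ 150 * D.T ^ 7810 :=
      h1.trans ((hI.pds x).trans (mul_le_mul_of_nonneg_right hjq (by positivity)))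
    have h3 : (N.card : ℝ) * D.k ≤ D.T ^ 7980 := by
      have h4 : (N.card : ℝ) * (D.k / D.T ^ 20) = (N.card : ℝ) * D.k / D.T ^ 20 := by ring
      rw [h4, div_le_iff₀ (by positivity)] at h2
      calc (N.card : ℝ) * D.k ≤ D.T ^ 150 * D.T ^ 7810 * D.T ^ 20 := h2
        _ = D.T ^ 7980 := by ring
    have h5 := hD.k_lo
    have h6 : (N.card : ℝ) * D.T ^ 3999 ≤ D.T ^ 3981 * D.T ^ 3999 := by
      calc (N.card : ℝ) * D.T ^ 3999 ≤ (N.card : ℝ) * D.k :=
            mul_le_mul_of_nonneg_left h5 (Nat.cast_nonneg _)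
        _ ≤ D.T ^ 7980 := h3
        _ = D.T ^ 3981 * D.T ^ 3999 := by rw [← pow_add]
    have h7 : (N.card : ℝ) ≤ D.T ^ 3981 := le_of_mul_le_mul_right h6 (by positivity)
    rw [le_div_iff₀ (by positivity)]
    calc D.T * (N.card : ℝ) * D.T ^ 17 ≤ D.T * D.T ^ 3981 * D.T ^ 17 := by gcongr
      _ = D.T ^ 3999 := by rw [← pow_succ', ← pow_add]
      _ ≤ D.k := h5
  -- the colours whose size budget is exceeded
  have hsumε : ∑ _c : Fin D.k, ε = ε * D.k := by
    rw [Finset.sum_const, Finset.card_univ, Fintype.card_fin, nsmul_eq_mul, mul_comm]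
  have e5 : ∑ c, (S.v x c + ε) * D.ee S x c ≤ 3 * D.k := by
    have h1 := hI.ebud x
    have h2 : (m : ℝ) * D.k / D.T ^ 180 ≤ D.k := by
      rw [div_le_iff₀ (by positivity), mul_comm]
      refine mul_le_mul_of_nonneg_left ?_ hk.le
      exact hjq.trans (hT.pw (by norm_num))
    have h3 : ∑ c, ε * D.ee S x c ≤ D.k := by
      calc ∑ c, ε * D.ee S x c ≤ ∑ _c : Fin D.k, (1 : ℝ) := by
            refine Finset.sum_le_sum fun c _ => ?_
            have h4 := ee_le hD hI hm x c
            calc ε * D.ee S x c ≤ ε * D.T ^ 40 := mul_le_mul_of_nonneg_left h4 hε0.le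
              _ ≤ ε * D.T ^ 100 := mul_le_mul_of_nonneg_left (hT.pw (by norm_num)) hε0.le
              _ = 1 := by rw [hε]; field_simp
        _ = D.k := by simp
    calc ∑ c, (S.v x c + ε) * D.ee S x c = ∑ c, S.v x c * D.ee S x c + ∑ c, ε * D.ee S x c := by
          rw [← Finset.sum_add_distrib]
          exact Finset.sum_congr rfl fun c _ => by ring
      _ ≤ 3 * D.k := by linarith
  -- pointwise bound
  have key : ∀ c, (if S.al x c then 0 else |S.v x c|) ≤
      3 * ε + (S.v x c + ε) * D.ee S x c / D.T ^ 19 + (if c ∈ N then D.T else 0) +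
        (if c ∈ O then D.T else 0) := by
    intro c
    have h2 := hI.v_lo x c
    have h5 := v_abs hD hI hm x c
    have h6 : 0 ≤ S.v x c + ε := by linarith
    have h7 : 0 ≤ (if c ∈ N then D.T else 0) := by split_ifs <;> linarith
    have h8 : 0 ≤ (if c ∈ O then D.T else 0) := by split_ifs <;> linarith
    have h9 : 0 ≤ (S.v x c + ε) * D.ee S x c / D.T ^ 19 :=
      div_nonneg (mul_nonneg h6 (ee_pos hD hI hm x c).le) (by positivity)
    by_cases hal : S.al x c
    · rw [if_pos hal]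
      linarith
    · rw [if_neg hal]
      rcases hdead c hal with h | h | h | h
      · have : |S.v x c| ≤ ε := abs_le.mpr ⟨by linarith, h⟩
        linarith
      · have h10 := ee_ge hD hI hm x c h
        have h11 : S.v x c + ε ≤ (S.v x c + ε) * D.ee S x c / D.T ^ 19 := by
          rw [le_div_iff₀ (by positivity)]
          exact mul_le_mul_of_nonneg_left h10 h6
        have h12 : |S.v x c| ≤ S.v x c + 2 * ε := abs_le.mpr ⟨by linarith, by linarith⟩
        linarith
      · rw [if_pos (show c ∈ N by rw [hN]; exact Finset.mem_filter.mpr ⟨mem_univ c, h⟩)]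
        linarith
      · rw [if_pos h]
        linarith
  have h1 : ∑ c, (if S.al x c then 0 else |S.v x c|) ≤
      3 * (ε * D.k) + (3 * D.k) / D.T ^ 19 + D.T * N.card + D.T * O.card := by
    calc ∑ c, (if S.al x c then 0 else |S.v x c|)
        ≤ ∑ c, (3 * ε + (S.v x c + ε) * D.ee S x c / D.T ^ 19 + (if c ∈ N then D.T else 0) +
          (if c ∈ O then D.T else 0)) := Finset.sum_le_sum fun c _ => key c
      _ = 3 * (ε * D.k) + (∑ c, (S.v x c + ε) * D.ee S x c) / D.T ^ 19 +
          D.T * N.card + D.T * O.card := by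
          rw [Finset.sum_add_distrib, Finset.sum_add_distrib, Finset.sum_add_distrib,
            ← Finset.sum_filter, ← Finset.sum_filter, ← Finset.mul_sum, hsumε, Finset.sum_div]
          simp only [Finset.sum_const, nsmul_eq_mul,
            Finset.filter_mem_eq_inter, Finset.univ_inter]
          ring
      _ ≤ _ := by
          have := div_le_div_of_nonneg_right e5 (show (0 : ℝ) ≤ D.T ^ 19 by positivity)
          linarith
  refine h1.trans ?_
  have f1 : 3 * (ε * D.k) = D.k / D.T ^ 13 * (3 * (1 / D.T ^ 87)) := by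
    rw [hε]
    field_simp
  have f2 : 3 * D.k / D.T ^ 19 = D.k / D.T ^ 13 * (3 * (1 / D.T ^ 6)) := by
    field_simp
  have f3 : D.k / D.T ^ 17 = D.k / D.T ^ 13 * (1 / D.T ^ 4) := by
    field_simp
  have f4 : D.k / D.T ^ 14 = D.k / D.T ^ 13 * (1 / D.T ^ 1) := by
    field_simp
  rw [f3] at e4
  rw [f4] at e3
  have g1 := hT.small (n := 87) (by norm_num)
  have g2 := hT.small (n := 6) (by norm_num)
  have g3 := hT.small (n := 4) (by norm_num)
  have g4 := hT.small (n := 1) (by norm_num)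
  have g5 : 0 ≤ D.k / D.T ^ 13 := by positivity
  have g6 : 3 * (1 / D.T ^ 87) + 3 * (1 / D.T ^ 6) + 1 / D.T ^ 4 + 1 / D.T ^ 1 ≤ 1 := by linarith
  have g7 := mul_le_mul_of_nonneg_left g6 g5
  rw [f1, f2]
  linarith

/-- Mass of the colours that are not allowed. -/
theorem bad_sum (x : Q) : ∑ c, (if D.bad S x c then D.p S x c else 0) ≤ 1 / 20 := by
  have hT := hD.big
  have hT0 := hT.pos
  have hk := k_pos' hD
  have hTb := hT.big
  norm_num at hTb
  have hjq : (m : ℝ) ≤ D.T ^ 150 := m_le_T hD hm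
  have hP := mP_pos hD hI hm x
  set ε : ℝ := 1 / D.T ^ 100 with hε
  have hε0 : 0 < ε := by positivity
  have e2 : ε ≤ 1 / 1000000 := hT.small (by norm_num)
  have e1 : (m : ℝ) * D.k / D.T ^ 180 ≤ D.k / 1000000 := by
    rw [div_le_div_iff₀ (by positivity) (by norm_num)]
    have h1 : D.T ^ 180 = D.T ^ 150 * (D.T ^ 29 * D.T) := by ring
    have h2 : (1 : ℝ) ≤ D.T ^ 29 := one_le_pow₀ hT.one_le
    have h3 : (1000000 : ℝ) ≤ D.T ^ 29 * D.T := by nlinarith
    have h4 : (m : ℝ) * 1000000 ≤ D.T ^ 180 := by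
      rw [h1]
      exact mul_le_mul hjq h3 (by norm_num) (by positivity)
    nlinarith
  have hsumv : ∑ c, S.v x c ≤ D.k + D.k / 1000000 := by
    have := (abs_le.mp (hI.mass x)).2
    linarith
  have hsumε : ∑ _c : Fin D.k, ε = ε * D.k := by
    rw [Finset.sum_const, Finset.card_univ, Fintype.card_fin, nsmul_eq_mul, mul_comm]
  have hεk : ε * D.k ≤ D.k / 1000000 := by nlinarith
  -- the forbidden mass
  have f1 : ∑ c, (if S.fb x c then max (S.v x c) 0 else 0) ≤ 1 / 25 * (D.k + D.k / 500000) +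
      3 * (D.k / 1000000) := by
    have h1 := hI.bud x
    have h2 : ∑ c, (if S.fb x c then max (S.v x c) 0 else 0) ≤
        ∑ c, (S.v x c * ((if S.fb x c then 1 else 0) - 2 * S.ac 2 x c) +
          (1 / 25 * (S.v x c + ε) + ε)) := by
      refine Finset.sum_le_sum fun c _ => ?_
      have h3 := hI.v_lo x c
      have h4 := hI.ac_two x c
      have h5 := hI.ac_nonneg 2 x c
      have h6 : 0 ≤ S.v x c + ε := by linarith
      have h7 : (S.v x c + ε) * (2 * S.ac 2 x c) ≤ (S.v x c + ε) * (1 / 25) :=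
        mul_le_mul_of_nonneg_left (by linarith) h6
      have h8 : 0 ≤ ε * (2 * S.ac 2 x c) := by positivity
      split_ifs with h
      · have h9 : max (S.v x c) 0 ≤ S.v x c + ε := max_le (by linarith) h6
        linarith
      · linarith
    rw [Finset.sum_add_distrib, Finset.sum_add_distrib, ← Finset.mul_sum,
      Finset.sum_add_distrib, hsumε] at h2
    linarith
  have f2 : ∑ c, (if D.bad S x c then D.p S x c else 0) ≤
      (∑ c, (if S.al x c then 0 else |S.v x c|) +
        ∑ c, (if S.fb x c then max (S.v x c) 0 else 0)) / D.mP S x := by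
    rw [← Finset.sum_add_distrib, Finset.sum_div]
    refine Finset.sum_le_sum fun c _ => ?_
    have h0 : 0 ≤ max (S.v x c) 0 := le_max_right _ _
    have h0' : max (S.v x c) 0 ≤ |S.v x c| := max_le (le_abs_self _) (abs_nonneg _)
    have h1 : 0 ≤ (if S.al x c then 0 else |S.v x c|) := by
      split_ifs
      · exact le_rfl
      · exact abs_nonneg _
    have h2 : 0 ≤ (if S.fb x c then max (S.v x c) 0 else 0) := by
      split_ifs
      · exact h0
      · exact le_rfl
    by_cases hb : D.bad S x c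
    · rw [if_pos hb]
      refine div_le_div_of_nonneg_right ?_ hP.le
      rcases hb with hb | hb
      · rw [if_neg hb]
        linarith
      · rw [if_pos hb]
        linarith
    · rw [if_neg hb]
      exact div_nonneg (by linarith) hP.le
  refine f2.trans ?_
  rw [div_le_iff₀ hP]
  have f3 := st_le hD hI hm x
  have f4 : (D.k : ℝ) / D.T ^ 13 ≤ D.k / 1000000 := by
    have h1 := hT.small (n := 13) (by norm_num)
    have h2 : (D.k : ℝ) / D.T ^ 13 = D.k * (1 / D.T ^ 13) := by ring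
    rw [h2]
    nlinarith
  have f5 := (abs_le.mp (mP_bd' hD hI hm x)).1
  linarith

/-- Absolute sums seen from an alive pair, one kind. -/
theorem sum_abs_a' (b : Fin 3) (x : Q) (c : Fin D.k) (h : S.al x c) :
    1 / (D.k : ℝ) * ∑ y ∈ Un S.col, D.a b x y * |S.v y c| ≤
      1 / D.k * (∑ y, D.a b x y) + 1 / 1000 := by
  have hT := hD.big
  have hT0 := hT.pos
  have hk := k_pos' hD
  have h6 : (0 : ℝ) < 1 / D.T ^ 100 := by positivity
  have h1 : ∑ y ∈ Un S.col, D.a b x y * |S.v y c| ≤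
      ∑ y ∈ Un S.col, D.a b x y * S.v y c +
        ∑ y, (if y ∈ D.R x then D.T * (2 * (1 / D.T ^ 100)) else 0) := by
    have h2 : ∑ y ∈ Un S.col, D.a b x y * |S.v y c| ≤
        ∑ y ∈ Un S.col, (D.a b x y * S.v y c +
          (if y ∈ D.R x then D.T * (2 * (1 / D.T ^ 100)) else 0)) := by
      refine Finset.sum_le_sum fun y _ => ?_
      have h3 := hD.a_nonneg b x y
      have h4 := hD.a_le b x y
      have h5 := hI.v_lo y c
      by_cases hy : y ∈ D.R x
      · rw [if_pos hy]
        have h7 : |S.v y c| ≤ S.v y c + 2 * (1 / D.T ^ 100) := by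
          rw [abs_le]
          constructor <;> linarith
        calc D.a b x y * |S.v y c| ≤ D.a b x y * (S.v y c + 2 * (1 / D.T ^ 100)) :=
              mul_le_mul_of_nonneg_left h7 h3
          _ = D.a b x y * S.v y c + D.a b x y * (2 * (1 / D.T ^ 100)) := by ring
          _ ≤ _ := by
              have := mul_le_mul_of_nonneg_right h4
                (show (0 : ℝ) ≤ 2 * (1 / D.T ^ 100) by positivity)
              linarith
      · rw [if_neg hy, a_off' hD b x y hy]
        simp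
    rw [Finset.sum_add_distrib] at h2
    refine h2.trans ?_
    have h8 : ∑ y ∈ Un S.col, (if y ∈ D.R x then D.T * (2 * (1 / D.T ^ 100)) else 0) ≤
        ∑ y, (if y ∈ D.R x then D.T * (2 * (1 / D.T ^ 100)) else 0) := by
      refine Finset.sum_le_sum_of_subset_of_nonneg (Finset.subset_univ _) fun y _ _ => ?_
      split_ifs <;> positivity
    linarith
  have h2 : (∑ y, if y ∈ D.R x then D.T * (2 * (1 / D.T ^ 100)) else 0) ≤
      D.T ^ 4017 * (D.T * (2 * (1 / D.T ^ 100))) := by
    rw [← Finset.sum_filter, Finset.sum_const, nsmul_eq_mul]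
    have : (univ.filter fun y => y ∈ D.R x) = D.R x := by
      ext y
      simp
    rw [this]
    exact mul_le_mul_of_nonneg_right (hD.R_card x) (by positivity)
  have h3 : D.T ^ 4017 * (D.T * (2 * (1 / D.T ^ 100))) = 2 * D.T ^ 3918 := by
    field_simp
  have h4 : 1 / (D.k : ℝ) * (2 * D.T ^ 3918) ≤ 1 / 1000000 := by
    have h5 : 1 / (D.k : ℝ) * (2 * D.T ^ 3918) = 2 * D.T ^ 3918 / D.k := by ring
    rw [h5, div_le_div_iff₀ hk (by norm_num), one_mul]
    refine le_trans ?_ hD.k_lo
    have h7 : D.T ^ 3999 = D.T ^ 3918 * (D.T ^ 79 * D.T * D.T) := by ring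
    rw [h7]
    have h8 : (1 : ℝ) ≤ D.T ^ 79 := one_le_pow₀ hT.one_le
    have h9 := hT.big
    norm_num at h9
    have h10 : (2000000 : ℝ) ≤ D.T ^ 79 * D.T * D.T := by
      have : (1000000 : ℝ) ≤ D.T ^ 79 * D.T := by nlinarith
      nlinarith
    have h11 : 0 < D.T ^ 3918 := by positivity
    nlinarith
  -- the prediction
  have hp := hI.pred b x c h
  have hac := hI.ac_nonneg b x c
  have hm0 : (m : ℝ) / D.T ^ 180 ≤ 1 / 1000000 := by
    have h5 := m_le_T hD hm
    calc (m : ℝ) / D.T ^ 180 ≤ D.T ^ 150 / D.T ^ 180 :=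
          div_le_div_of_nonneg_right h5 (by positivity)
      _ = 1 / D.T ^ 30 := by
          rw [div_eq_div_iff (by positivity) (by positivity)]
          ring
      _ ≤ _ := hT.small (by norm_num)
  have hsg : D.sg m / D.T ^ 20 ≤ 1 / 1000000 := by
    have h5 := sg_le hD hm
    calc D.sg m / D.T ^ 20 ≤ D.T / D.T ^ 20 :=
          div_le_div_of_nonneg_right (by linarith) (by positivity)
      _ = 1 / D.T ^ 19 := by
          rw [div_eq_div_iff (by positivity) (by positivity)]
          ring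
      _ ≤ _ := hT.small (by norm_num)
  have hpd : 6 * D.T ^ 3 / D.k * S.pd x c ≤ 6 * (1 / 1000000) := by
    calc 6 * D.T ^ 3 / D.k * S.pd x c ≤ 6 * D.T ^ 3 / D.k * (D.k / D.T ^ 20) :=
          mul_le_mul_of_nonneg_left (hI.pd_al x c h) (by positivity)
      _ = 6 * (1 / D.T ^ 17) := by
          field_simp
      _ ≤ _ := by
          have := hT.small (n := 17) (by norm_num)
          linarith
  unfold Nf at hp
  have h5 := mul_le_mul_of_nonneg_left (h1.trans (add_le_add le_rfl (h2.trans h3.le)))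
    (show (0 : ℝ) ≤ 1 / D.k by positivity)
  rw [mul_add] at h5
  have h7 : 2 / (D.k : ℝ) * ∑ y ∈ Un S.col, D.a b x y * S.v y c =
      2 * (1 / D.k * ∑ y ∈ Un S.col, D.a b x y * S.v y c) := by ring
  have h8 : 2 / (D.k : ℝ) * (∑ y, D.a b x y) = 2 * (1 / D.k * ∑ y, D.a b x y) := by ring
  rw [h7, h8] at hp
  linarith

theorem a_sum' (b : Fin 3) (x : Q) : 1 / (D.k : ℝ) * (∑ y, D.a b x y) ≤ Real.log D.T / 80 := by
  have hk := k_pos' hD
  calc 1 / (D.k : ℝ) * (∑ y, D.a b x y) ≤ 1 / D.k * (Real.log D.T / 80 * D.k) :=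
        mul_le_mul_of_nonneg_left (hD.a_sum b x) (by positivity)
    _ = Real.log D.T / 80 := by field_simp

theorem sum_abs_a (b : Fin 3) (x : Q) (c : Fin D.k) (h : S.al x c) :
    1 / (D.k : ℝ) * ∑ y ∈ Un S.col, D.a b x y * |S.v y c| ≤ D.T / 100 := by
  have h1 := sum_abs_a' hD hI hm b x c h
  have h2 := a_sum' hD hI hm b x
  have hT := hD.big
  have hTb := hT.big
  norm_num at hTb
  have hl := hT.log_le
  linarith

/-- Absolute sums seen from an alive pair. -/
theorem sum_abs_K (z : Q) (c : Fin D.k) (h : S.al z c) :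
    1 / (D.k : ℝ) * ∑ y ∈ Un S.col, |D.K y z| * |S.v y c| ≤ D.T / 100 := by
  have hk := k_pos' hD
  have hT := hD.big
  have hTb := hT.big
  norm_num at hTb
  have hl := hT.log_le
  have hl0 := hT.log_pos
  have h1 := sum_abs_a' hD hI hm 0 z c h
  have h2 := sum_abs_a' hD hI hm 1 z c h
  have h3 := a_sum' hD hI hm 0 z
  have h4 := a_sum' hD hI hm 1 z
  have h5 : 1 / (D.k : ℝ) * ∑ y ∈ Un S.col, |D.K y z| * |S.v y c| ≤
      1 / D.k * ∑ y ∈ Un S.col, D.a 0 z y * |S.v y c| +
        1 / D.k * ∑ y ∈ Un S.col, D.a 1 z y * |S.v y c| := by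
    rw [← mul_add, ← Finset.sum_add_distrib]
    refine mul_le_mul_of_nonneg_left (Finset.sum_le_sum fun y _ => ?_) (by positivity)
    rw [← add_mul]
    exact mul_le_mul_of_nonneg_right (K_abs_le hD z y) (abs_nonneg (S.v y c))
  linarith

theorem pd_avg (z : Q) : 1 / (D.k : ℝ) * ∑ c, S.pd z c ≤ D.T ^ 7960 / D.k := by
  have hk := k_pos' hD
  have hT0 := hD.big.pos
  have h1 := hI.pds z
  have h2 := m_le_T hD hm
  have h3 : ∑ c, S.pd z c ≤ D.T ^ 7960 := by
    calc ∑ c, S.pd z c ≤ m * D.T ^ 7810 := h1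
      _ ≤ D.T ^ 150 * D.T ^ 7810 := mul_le_mul_of_nonneg_right h2 (by positivity)
      _ = D.T ^ 7960 := by rw [← pow_add]
  calc 1 / (D.k : ℝ) * ∑ c, S.pd z c ≤ 1 / D.k * D.T ^ 7960 :=
        mul_le_mul_of_nonneg_left h3 (by positivity)
    _ = _ := by ring

/-- Weight of the coloured vertices of one colour. -/
theorem nw_abs (i : ι) (z : Q) (c : Fin D.k) : |D.nw S i z c| ≤ D.g i z := by
  refine le_trans ?_ (hD.w_row i z)
  unfold nw
  refine (Finset.abs_sum_le_sum_abs _ _).trans (Finset.sum_le_sum fun z' _ => ?_)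
  split_ifs
  · exact le_rfl
  · rw [abs_zero]
    exact abs_nonneg _

theorem nw_abs' (i : ι) (z : Q) (c : Fin D.k) : |D.nw S i z c| ≤
    ∑ z', if ∃ r, S.col z' = some (c, r) then |D.w i z z'| else 0 := by
  have := hD.big
  unfold nw
  refine (Finset.abs_sum_le_sum_abs _ _).trans (Finset.sum_le_sum fun z' _ => ?_)
  split_ifs
  · exact le_rfl
  · rw [abs_zero]

theorem nw_sum (i : ι) (z : Q) : ∑ c, |D.nw S i z c| ≤ D.g i z := by
  refine le_trans ?_ (hD.w_row i z)
  refine (Finset.sum_le_sum fun c _ => nw_abs' hD hI hm i z c).trans ?_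
  rw [Finset.sum_comm]
  refine Finset.sum_le_sum fun z' _ => ?_
  rcases hc : S.col z' with _ | ⟨c₀, r₀⟩
  · have : ∀ c : Fin D.k, (if ∃ r, (none : Option (Fin D.k × ℕ)) = some (c, r)
        then |D.w i z z'| else 0) = 0 := fun c => if_neg (by simp)
    rw [Finset.sum_congr rfl fun c _ => this c, Finset.sum_const_zero]
    exact abs_nonneg _
  · rw [Finset.sum_eq_single c₀]
    · rw [if_pos ⟨r₀, rfl⟩]
    · intro c _ hne
      refine if_neg ?_
      rintro ⟨r, hr⟩
      rw [Option.some.injEq, Prod.mk.injEq] at hr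
      exact hne hr.1.symm
    · intro h
      exact absurd (mem_univ _) h

theorem nw_col (i : ι) (c : Fin D.k) : ∑ z, |D.nw S i z c| ≤ D.ng S i c := by
  refine (Finset.sum_le_sum fun z _ => nw_abs' hD hI hm i z c).trans ?_
  rw [Finset.sum_comm]
  unfold ng
  refine Finset.sum_le_sum fun z' _ => ?_
  split_ifs
  · exact w_col hD i z'
  · rw [Finset.sum_const_zero]

theorem ng_nonneg (i : ι) (c : Fin D.k) : 0 ≤ D.ng S i c := by
  unfold ng
  refine Finset.sum_nonneg fun z _ => ?_
  split_ifs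
  · exact hD.g_nonneg i z
  · exact le_rfl

theorem ng_le (i : ι) (c : Fin D.k) :
    D.ng S i c ≤ D.T ^ 154 * (D.gm i + D.gs i / D.T ^ 3990) := by
  have hT0 := hD.big.pos
  have h1 := hI.ncol i c
  have h2 := m_le_T hD hm
  have h3 := hD.gm_nonneg i
  have h4 := gs_nonneg hD i
  calc D.ng S i c ≤ m * (D.T ^ 4 * (D.gm i + D.gs i / D.T ^ 3990)) := h1
    _ ≤ D.T ^ 150 * (D.T ^ 4 * (D.gm i + D.gs i / D.T ^ 3990)) :=
        mul_le_mul_of_nonneg_right h2 (by positivity)
    _ = D.T ^ 154 * (D.gm i + D.gs i / D.T ^ 3990) := by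
        rw [← mul_assoc, ← pow_add]

end inv

end NibData

end Pool.Agent.AcyG
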