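import Pool.Agent.AcyK.Tools

/-! # The exact semi-random colouring (project MP_af9dfb_G): definitions

As `AcyK.Defs`, with the following changes. Every pick has the full law `v^+ / mP` (also on
stopped and on forbidden colours); `ok z` says that the pick of `z` was allowed. Three kinds of
test weights `a 0` (conflicts and negative parts of the kernel), `a 1` (sizes), `a 2` (forbidden
pairs). Quadratic tests `w i` with two-sided predictions, linear tests `g i`. -/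

set_option autoImplicit false
set_option linter.unusedSectionVars false

namespace Pool.Agent.AcyG

open Finset
open Pool.Agent.Acy (IsPM wt Ex Pr mean)
open Pool.Agent.AcyK (Big StepOK prodLaw Un Sel updCol)
open scoped Classical

universe u v

section

variable {Q ι : Type u} [Fintype Q] [DecidableEq Q] [Fintype ι] [DecidableEq ι]

/-- Static data of the semi-random colouring of `Q`. -/
structure NibData (Q ι : Type u) where
  /-- large parameter -/
  T : ℝ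
  /-- number of colours -/
  k : ℕ
  /-- length of the time scale -/
  q : ℕ
  /-- number of rounds -/
  M : ℕ
  /-- related pairs -/
  rp : Q → Q → Prop
  /-- compensation kernel, `-1` = conflict -/
  K : Q → Q → ℝ
  /-- normalised size hazard -/
  h : Q → Q → ℝ
  /-- forbidden pairs -/
  sp : Q → Q → Prop
  /-- twins -/
  tw : Q → Q → Prop
  /-- tracked pairs -/
  pr : Q → Q → Prop
  /-- test weights -/
  a : Fin 3 → Q → Q → ℝ
  /-- linear tests -/
  g : ι → Q → ℝ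
  /-- maximum of a linear test -/
  gm : ι → ℝ
  /-- total weight of a linear test -/
  gs : ι → ℝ
  /-- quadratic tests -/
  w : ι → Q → Q → ℝ

namespace NibData

variable (D : NibData Q ι)

/-- Related vertices. -/
noncomputable def R (x : Q) : Finset Q := univ.filter fun u => D.rp u x

/-- Deviation of a linear test. -/
noncomputable def dv (i : ι) : ℝ := D.T ^ 2 * Real.sqrt (D.gm i * (D.gs i + D.gm i))

/-- Error of a quadratic test in one round. -/
noncomputable def er (i : ι) : ℝ :=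
  D.gs i / D.T ^ 190 + D.T ^ 170 * D.gm i + D.T ^ 30 * Real.sqrt (D.gm i * D.gs i)

/-- The hypotheses of the nibble. -/
structure Ok : Prop where
  big : Big D.T
  k_lo : D.T ^ 3999 ≤ D.k
  k_hi : (D.k : ℝ) ≤ D.T ^ 4000
  q_hi : (D.q : ℝ) ≤ D.T ^ 150
  M_le : (D.M : ℝ) + D.T ^ 133 ≤ D.q
  rp_symm : ∀ x y, D.rp x y → D.rp y x
  rp_irrefl : ∀ x, ¬ D.rp x x
  K_symm : ∀ x y, D.K x y = D.K y x
  h_symm : ∀ x y, D.h x y = D.h y x
  sp_symm : ∀ x y, D.sp x y → D.sp y x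
  K_off : ∀ x y, ¬ D.rp x y → D.K x y = 0
  h_off : ∀ x y, ¬ D.rp x y → D.h x y = 0
  sp_rp : ∀ x y, D.sp x y → D.rp x y
  sp_K : ∀ x y, D.sp x y → D.K x y ≠ -1
  K_cases : ∀ x y, D.K x y = -1 ∨ 1 / D.T ≤ 1 + D.K x y
  K_exp : ∀ x y, D.K x y ≠ -1 → 1 + D.K x y ≤ Real.exp (Real.log D.T / 10 * D.h x y)
  h_nonneg : ∀ x y, 0 ≤ D.h x y
  h_le : ∀ x y, D.h x y ≤ 1
  h_dead : ∀ x y, D.K x y = -1 → D.h x y = 0
  a_nonneg : ∀ b x y, 0 ≤ D.a b x y
  a_le : ∀ b x y, D.a b x y ≤ D.T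
  a_off : ∀ b x y, ¬ D.rp y x → D.a b x y = 0
  a_sum : ∀ b x, ∑ y, D.a b x y ≤ Real.log D.T / 80 * D.k
  a_sum2 : ∀ x, ∑ y, D.a 2 x y ≤ (D.k : ℝ) / 200
  a_neg : ∀ x y, -D.K y x ≤ D.a 0 x y
  a_ex : ∀ x y, D.K y x ≠ -1 →
    2 * (1 + D.K y x) * (Real.exp (20 * Real.log D.T * D.h y x) - 1) ≤ D.a 1 x y
  a_sp : ∀ x y, D.sp y x → 2 * (1 + D.K y x) ≤ D.a 2 x y
  R_card : ∀ x, ((D.R x).card : ℝ) ≤ D.T ^ 4017
  tw_card : ∀ x, ((univ.filter fun y => D.tw x y).card : ℝ) ≤ D.T ^ 3405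
  gram : ∀ y y', ¬ D.tw y y' → |∑ u, D.K u y * D.K u y'| ≤ D.T ^ 3430
  pr_symm : ∀ y y', D.pr y y' → D.pr y' y
  pr_tw : ∀ y y', D.pr y y' → ¬ D.tw y y'
  pr_card : ∀ y, ((univ.filter fun y' => D.pr y y').card : ℝ) ≤ D.T ^ 7300
  gm_nonneg : ∀ i, 0 ≤ D.gm i
  g_nonneg : ∀ i z, 0 ≤ D.g i z
  g_le : ∀ i z, D.g i z ≤ D.gm i
  g_sum : ∀ i, ∑ z, D.g i z ≤ D.gs i
  w_symm : ∀ i z z', D.w i z z' = D.w i z' z
  w_diag : ∀ i z, D.w i z z = 0
  w_row : ∀ i z, ∑ z', |D.w i z z'| ≤ D.g i z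
  w_pr : ∀ i z z', D.w i z z' ≠ 0 → D.pr z z'
  w_K : ∀ i z z', D.w i z z' ≠ 0 → D.K z z' ≠ -1
  g_supp : ∀ i, ((univ.filter fun z => D.g i z ≠ 0).card : ℝ) ≤ D.T ^ 25000
  g_deg : ∀ z, ((univ.filter fun i => D.g i z ≠ 0).card : ℝ) ≤ D.T ^ 30000

/-- Selection probability of round `m` (for each of the two kinds). -/
noncomputable def t (m : ℕ) : ℝ := 1 / ((D.q : ℝ) - m)

/-- The sum of the selection probabilities of the rounds before `m`. -/
noncomputable def sg (m : ℕ) : ℝ := ∑ i ∈ range m, D.t i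

/-- The law of the selection: `some true` = real pick, `some false` = phantom pick. -/
noncomputable def lawA (m : ℕ) : Q → Option Bool → ℝ :=
  fun _ e => if e = none then 1 - 2 * D.t m else D.t m

end NibData

/-- State of the process: formal weights, alive pairs, size budgets, forbidden colours, accumulated
hazards, accumulated double counts, colours with the round in which they were assigned, allowed
picks. -/
structure NState (Q : Type u) (k : ℕ) where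
  v : Q → Fin k → ℝ
  al : Q → Fin k → Prop
  bz : Q → Fin k → ℝ
  fb : Q → Fin k → Prop
  ac : Fin 3 → Q → Fin k → ℝ
  pd : Q → Fin k → ℝ
  col : Q → Option (Fin k × ℕ)
  ok : Q → Prop

/-- Initial state. -/
def NState.init (Q : Type u) (k : ℕ) : NState Q k where
  v := fun _ _ => 1
  al := fun _ _ => True
  bz := fun _ _ => 0
  fb := fun _ _ => False
  ac := fun _ _ _ => 0
  pd := fun _ _ => 0
  col := fun _ => none
  ok := fun _ => False

/-- Allowed picks after the picks `ω` of a round. -/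
def updOk {k : ℕ} (col : Q → Option (Fin k × ℕ)) (ok : Q → Prop) (lam : Q → Option Bool)
    (bad : Q → Fin k → Prop) (ω : Q → Fin k) (u : Q) : Prop :=
  if col u = none ∧ lam u = some true then ¬ bad u (ω u) else ok u

namespace NibData

variable (D : NibData Q ι) (S : NState Q D.k) (m : ℕ) (lam : Q → Option Bool)

/-- All selected vertices. -/
noncomputable def LL : Finset Q := univ.filter fun u => S.col u = none ∧ lam u ≠ none

/-- The uncoloured vertices that are not selected for a real pick. -/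
noncomputable def U1 : Finset Q := univ.filter fun u => S.col u = none ∧ lam u ≠ some true

/-- Positive mass. -/
noncomputable def mP (x : Q) : ℝ := ∑ c, max (S.v x c) 0

/-- Law of the picks. -/
noncomputable def p (x : Q) (c : Fin D.k) : ℝ := max (S.v x c) 0 / D.mP S x

/-- Colours that are not allowed. -/
def bad (x : Q) (c : Fin D.k) : Prop := ¬ S.al x c ∨ S.fb x c

/-- Number of related selected vertices that pick `c`. -/
noncomputable def J (ω : Q → Fin D.k) (x : Q) (c : Fin D.k) : ℕ :=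
  ((D.R x ∩ D.LL S lam).filter fun u => ω u = c).card

/-- The compensator. -/
noncomputable def cmp (x : Q) (c : Fin D.k) : ℝ := ∑ u ∈ D.LL S lam, D.p S u c * D.K u x

/-- Sum of the kernel over the selected vertices that pick `c`. -/
noncomputable def pk (ω : Q → Fin D.k) (x : Q) (c : Fin D.k) : ℝ :=
  ∑ u ∈ (D.LL S lam).filter fun u => ω u = c, D.K u x

/-- Sum of the size hazards over the selected vertices that pick `c`. -/
noncomputable def hk (ω : Q → Fin D.k) (x : Q) (c : Fin D.k) : ℝ :=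
  ∑ u ∈ (D.LL S lam).filter fun u => ω u = c, D.h u x

/-- Effect of the pick of `u` on the prediction for `(x, c)`. -/
noncomputable def G (b : Fin 3) (u x : Q) (c : Fin D.k) : ℝ :=
  2 / D.k * ∑ y ∈ D.U1 S lam, if S.al y c then D.a b x y * S.v y c * D.K u y else 0

/-- Threshold for bad picks. -/
noncomputable def d3 : ℝ := 1 / D.T ^ 190

/-- Increment of the accumulated hazard. -/
noncomputable def dac (b : Fin 3) (x : Q) (c : Fin D.k) : ℝ :=
  ∑ u ∈ D.LL S lam, D.p S u c * D.a b x u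

/-- Double count. -/
noncomputable def dbl (ω : Q → Fin D.k) (x : Q) (c : Fin D.k) : ℝ :=
  ∑ y ∈ D.R x, (D.J S lam ω y c : ℝ) * ((D.J S lam ω y c : ℝ) - 1)

/-- One round. -/
noncomputable def step (ω : Q → Fin D.k) : NState Q D.k where
  v := fun x c => if S.al x c then
    (if D.J S lam ω x c ≤ 1 then S.v x c * (1 + D.pk S lam ω x c - D.cmp S lam x c) else 0)
    else S.v x c
  bz := fun x c =>
    if S.al x c ∧ D.J S lam ω x c ≤ 1 then S.bz x c + D.hk S lam ω x c else S.bz x c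
  fb := fun x c => S.fb x c ∨ (S.al x c ∧ ∃ u ∈ D.LL S lam, ω u = c ∧ D.sp u x)
  ac := fun b x c => if S.al x c then S.ac b x c + D.dac S lam b x c else S.ac b x c
  pd := fun x c => if S.al x c then S.pd x c + D.dbl S lam ω x c else S.pd x c
  al := fun x c => S.al x c ∧ D.J S lam ω x c ≤ 1 ∧
    (∀ u ∈ D.LL S lam, ω u = c → D.K u x ≠ -1) ∧
    (S.bz x c + D.hk S lam ω x c ≤ 1) ∧
    (S.pd x c + D.dbl S lam ω x c ≤ D.k / D.T ^ 20) ∧
    (∀ b, ∀ u ∈ D.LL S lam, ω u = c → |D.G S lam b u x c| ≤ D.d3)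
  col := updCol m S.col lam ω
  ok := updOk S.col S.ok lam (D.bad S) ω

/-- Prediction of the future hazard. -/
noncomputable def Nf (b : Fin 3) (x : Q) (c : Fin D.k) : ℝ :=
  2 / D.k * ∑ y ∈ Un S.col, D.a b x y * S.v y c

/-- Prediction after the selection. -/
noncomputable def Nf1 (b : Fin 3) (x : Q) (c : Fin D.k) : ℝ :=
  2 / D.k * ∑ y ∈ D.U1 S lam, D.a b x y * S.v y c

/-- The drift of the product of the weights of `z` and `z'`. -/
noncomputable def kap (z z' : Q) (c : Fin D.k) : ℝ :=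
  1 / D.k * ∑ y ∈ Un S.col, D.K y z * D.K y z' * S.v y c

/-- `kap` after the selection. -/
noncomputable def kap1 (z z' : Q) (c : Fin D.k) : ℝ :=
  1 / D.k * ∑ y ∈ D.U1 S lam, D.K y z * D.K y z' * S.v y c

/-- The actual drift of the product of the weights of `z` and `z'` in the round. -/
noncomputable def delta (z z' : Q) (c : Fin D.k) : ℝ :=
  ∑ u ∈ D.LL S lam, D.p S u c * (D.K u z * D.K u z')

/-- Effect of the pick of `u` on `kap`. -/
noncomputable def GK (u z z' : Q) (c : Fin D.k) : ℝ :=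
  1 / D.k * ∑ y ∈ D.U1 S lam, if S.al y c then D.K y z * D.K y z' * S.v y c * D.K u y else 0

/-- Normalised inner product of the weights. -/
noncomputable def II (z z' : Q) : ℝ := 1 / D.k * ∑ c, S.v z c * S.v z' c

/-- The exponential factor of the size budget. -/
noncomputable def ee (x : Q) (c : Fin D.k) : ℝ :=
  Real.exp (20 * Real.log D.T * S.bz x c - 2 * S.ac 1 x c)

/-- Weight of the coloured vertices of colour `c`. -/
noncomputable def nw (i : ι) (z : Q) (c : Fin D.k) : ℝ :=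
  ∑ z', if ∃ r, S.col z' = some (c, r) then D.w i z z' else 0

/-- Total weight of the vertices of colour `c`. -/
noncomputable def ng (i : ι) (c : Fin D.k) : ℝ :=
  ∑ z, if ∃ r, S.col z = some (c, r) then D.g i z else 0

/-- Prediction (times `k`) of a quadratic test. -/
noncomputable def Yb (i : ι) : ℝ :=
  1 / 2 * (∑ z ∈ Un S.col, ∑ z' ∈ Un S.col, D.w i z z' * (1 + D.K z z')) +
    ∑ z ∈ Un S.col, ∑ c, D.nw S i z c * S.v z c

/-- Realised rate of a quadratic test in one round, for the colouring `col` and the law `p`. -/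
noncomputable def Rt (p : Q → Fin D.k → ℝ) (col : Q → Option (Fin D.k × ℕ)) (i : ι) : ℝ :=
  ∑ z ∈ Sel col lam true, ∑ z', ∑ c, if ∃ r, col z' = some (c, r) then D.w i z z' * p z c else 0

/-- The invariants at the beginning of round `m`. -/
structure Inv : Prop where
  al_pos : ∀ x c, S.al x c → 0 < S.v x c
  v_lo : ∀ x c, -(1 / D.T ^ 100) ≤ S.v x c
  v_hi : ∀ x c, S.v x c ≤ Real.exp (Real.log D.T / 10 * S.bz x c + 2 * S.ac 0 x c)
  bz_nonneg : ∀ x c, 0 ≤ S.bz x c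
  bz_le : ∀ x c, S.bz x c ≤ 2
  bz_al : ∀ x c, S.al x c → S.bz x c ≤ 1
  ac_nonneg : ∀ b x c, 0 ≤ S.ac b x c
  ac_le : ∀ b x c, S.ac b x c ≤ Real.log D.T / 20
  ac_two : ∀ x c, S.ac 2 x c ≤ 1 / 50
  pd_nonneg : ∀ x c, 0 ≤ S.pd x c
  pd_al : ∀ x c, S.al x c → S.pd x c ≤ D.k / D.T ^ 20
  pred : ∀ b x c, S.al x c → S.ac b x c + D.Nf S b x c ≤
    2 / D.k * (∑ y, D.a b x y) + m / D.T ^ 180 + D.sg m / D.T ^ 20 + 6 * D.T ^ 3 / D.k * S.pd x c
  mass : ∀ x, |∑ c, S.v x c - D.k| ≤ m * D.k / D.T ^ 180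
  bud : ∀ x, ∑ c, S.v x c * ((if S.fb x c then 1 else 0) - 2 * S.ac 2 x c) ≤
    m * D.k / D.T ^ 180
  ebud : ∀ x, ∑ c, S.v x c * D.ee S x c ≤ D.k + m * D.k / D.T ^ 180
  dead : ∀ x, ∃ O : Finset (Fin D.k), (O.card : ℝ) ≤ m * D.k / D.T ^ 165 ∧
    ∀ c, ¬ S.al x c → S.v x c ≤ 1 / D.T ^ 100 ∨ 1 < S.bz x c ∨ D.k / D.T ^ 20 < S.pd x c ∨ c ∈ O
  pds : ∀ x, ∑ c, S.pd x c ≤ m * D.T ^ 7810
  sep : ∀ x c, S.al x c → ∀ u r, S.col u = some (c, r) →
    D.K u x ≠ -1 ∧ (¬ S.fb x c → ¬ D.sp u x)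
  col_lt : ∀ u c r, S.col u = some (c, r) → r < m
  col_ok : ∀ u y c r r', S.col u = some (c, r) → S.col y = some (c, r') → r < r' → S.ok y →
    D.K u y ≠ -1 ∧ ¬ D.sp u y
  gramU : ∀ y y', ¬ D.tw y y' → (∃ x, y ∈ D.R x ∧ y' ∈ D.R x) →
    |∑ u ∈ Un S.col, D.K u y * D.K u y'| ≤ D.T ^ 3430 + m * D.T ^ 2000
  kapB : ∀ z z', D.pr z z' → ∃ O : Finset (Fin D.k), (O.card : ℝ) ≤ m * D.T ^ 3831 ∧
    ∀ c ∉ O, S.al z c → |D.kap S z z' c| ≤
      1 / D.T ^ 460 + m / D.T ^ 180 + 6 * D.T ^ 4 / D.k * S.pd z c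
  iiB : ∀ z z', D.pr z z' → |D.II S z z' - 1| ≤ m / D.T ^ 200 + D.sg m / D.T ^ 12
  cardU : ∀ i, (∑ z ∈ Un S.col, D.g i z) ≤
    ((D.q : ℝ) - m) / D.q * (∑ z, D.g i z) + m * D.dv i
  ncol : ∀ i c, D.ng S i c ≤ m * (D.T ^ 4 * (D.gm i + D.gs i / D.T ^ 3990))

/-- Deviation of a weighted count of the selected vertices from its mean. -/
noncomputable def dev (b : Bool) (w : Q → ℝ) : ℝ :=
  ∑ y ∈ Sel S.col lam b, w y - D.t m * ∑ y ∈ Un S.col, w y

/-- The selection of round `m` is typical. -/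
structure GoodA : Prop where
  a1 : ∀ b x c, |D.dev S m lam true fun y => D.a b x y * S.v y c| ≤ D.T ^ 2000
  a2 : ∀ b b' x c, |D.dev S m lam b' fun y => D.k * (D.a b x y * D.p S y c)| ≤ D.T ^ 2000
  a4 : ∀ z z' c, D.pr z z' →
    |D.dev S m lam true fun y => D.K y z * D.K y z' * S.v y c| ≤ D.T ^ 2000
  a5 : ∀ b z z' c, D.pr z z' →
    |D.dev S m lam b fun y => D.k * (D.K y z * D.K y z' * D.p S y c)| ≤ D.T ^ 2000
  a7 : ∀ b y y', (∃ x, y ∈ D.R x ∧ y' ∈ D.R x) →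
    |D.dev S m lam b fun u => D.K u y * D.K u y'| ≤ D.T ^ 1999
  a8 : ∀ b x, |D.dev S m lam b fun u => if u ∈ D.R x then 1 else 0| ≤ D.T ^ 1999
  a9 : ∀ b i, |D.dev S m lam b fun u => D.g i u| ≤ D.dv i
  a10 : ∀ i, ∑ z ∈ Sel S.col lam true, ∑ z' ∈ Sel S.col lam true, |D.w i z z'| ≤
    D.gs i / D.T ^ 200 + D.T ^ 4 * D.gm i

/-- The centred sum attached to a test function `Y`. -/
noncomputable def cen (Y : Q → Fin D.k → ℝ) (ω : Q → Fin D.k) : ℝ :=
  ∑ u, (Y u (ω u) - mean (D.p S) Y u)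

/-- Test function for the mass. -/
noncomputable def Y1 (x : Q) (u : Q) (c : Fin D.k) : ℝ :=
  if u ∈ D.LL S lam ∧ S.al x c then S.v x c * D.K u x else 0

/-- Test function for the forbidden mass. -/
noncomputable def Y2 (x : Q) (u : Q) (c : Fin D.k) : ℝ :=
  if u ∈ D.LL S lam ∧ S.al x c then
    S.v x c * D.K u x * ((if S.fb x c then 1 else 0) - 2 * S.ac 2 x c -
      2 * D.dac S lam 2 x c) else 0

/-- Second test function for the forbidden mass. -/
noncomputable def Y3 (x : Q) (u : Q) (c : Fin D.k) : ℝ :=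
  if u ∈ D.LL S lam ∧ S.al x c then S.v x c * D.a 2 x u else 0

/-- Test function for the predictions. -/
noncomputable def Y4 (b : Fin 3) (x : Q) (c₀ : Fin D.k) (u : Q) (c : Fin D.k) : ℝ :=
  if u ∈ D.LL S lam ∧ c = c₀ ∧ |D.G S lam b u x c₀| ≤ D.d3 then D.G S lam b u x c₀ else 0

/-- Test function for the size budget. -/
noncomputable def Y5 (x : Q) (u : Q) (c : Fin D.k) : ℝ :=
  if u ∈ D.LL S lam ∧ S.al x c then S.v x c * D.ee S x c * D.K u x else 0

/-- Second test function for the size budget. -/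
noncomputable def Y6 (x : Q) (u : Q) (c : Fin D.k) : ℝ :=
  if u ∈ D.LL S lam ∧ S.al x c then S.v x c * D.ee S x c * D.a 1 x u else 0

/-- Test function for `kap`. -/
noncomputable def Y7 (z z' : Q) (c₀ : Fin D.k) (u : Q) (c : Fin D.k) : ℝ :=
  if u ∈ D.LL S lam ∧ c = c₀ ∧ |D.GK S lam u z z' c₀| ≤ D.d3 then D.GK S lam u z z' c₀ else 0

/-- First test function for `II`. -/
noncomputable def Y9 (z z' : Q) (u : Q) (c : Fin D.k) : ℝ :=
  if u ∈ D.LL S lam ∧ S.al z c then S.v z c * S.v z' c * D.K u z else 0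

/-- Second test function for `II`. -/
noncomputable def Y10 (z z' : Q) (u : Q) (c : Fin D.k) : ℝ :=
  if u ∈ D.LL S lam ∧ S.al z c ∧ S.al z' c then
    S.v z c * S.v z' c * (D.K u z * D.K u z') else 0

/-- Test function for the influence of the picks on the coloured part of `Yb`. -/
noncomputable def Y12 (i : ι) (u : Q) (c : Fin D.k) : ℝ :=
  if u ∈ D.LL S lam then
    ∑ z ∈ D.U1 S lam, (if S.al z c then D.nw S i z c * S.v z c * D.K u z else 0) else 0

/-- Test function for the newly coloured vertices. -/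
noncomputable def Y13 (i : ι) (u : Q) (c : Fin D.k) : ℝ :=
  if u ∈ Sel S.col lam true then
    ∑ z ∈ D.U1 S lam, D.w i z u * S.v z c * (if S.al z c then 1 + D.K z u else 1) else 0

/-- The picks of round `m` are typical. -/
structure GoodB (ω : Q → Fin D.k) : Prop where
  e1 : ∀ x, |D.cen S (D.Y1 S lam x) ω| ≤ D.T ^ 2000
  e2 : ∀ x, |D.cen S (D.Y2 S lam x) ω| ≤ D.T ^ 2000
  e3 : ∀ x, |D.cen S (D.Y3 S lam x) ω| ≤ D.T ^ 2000
  e4 : ∀ b x c, |D.cen S (D.Y4 S lam b x c) ω| ≤ 1 / D.T ^ 187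
  e5 : ∀ b x, (((D.LL S lam).filter fun u => D.d3 < |D.G S lam b u x (ω u)|).card : ℝ) ≤
    D.T ^ 3830
  e5e : ∀ x, |D.cen S (D.Y5 S lam x) ω| ≤ D.T ^ 2030
  e6e : ∀ x, |D.cen S (D.Y6 S lam x) ω| ≤ D.T ^ 2030
  e6 : ∀ x, ∑ c, (D.J S lam ω x c : ℝ) * ((D.J S lam ω x c : ℝ) - 1) ≤ D.T ^ 3778
  e7 : ∀ z z' c, D.pr z z' → |D.cen S (D.Y7 S lam z z' c) ω| ≤ 1 / D.T ^ 187
  e8 : ∀ z z', D.pr z z' →
    (((D.LL S lam).filter fun u => D.d3 < |D.GK S lam u z z' (ω u)|).card : ℝ) ≤ D.T ^ 3830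
  e9 : ∀ z z', D.pr z z' → |D.cen S (D.Y9 S lam z z') ω| ≤ D.T ^ 2000
  e10 : ∀ z z', D.pr z z' → |D.cen S (D.Y10 S lam z z') ω| ≤ D.T ^ 2000
  e11 : ∀ z z', D.pr z z' → ((((D.R z ∩ D.LL S lam) ×ˢ (D.R z' ∩ D.LL S lam)).filter
    fun e => e.1 ≠ e.2 ∧ ω e.1 = ω e.2).card : ℝ) ≤ D.T ^ 3778
  e12 : ∀ i, |D.cen S (D.Y12 S lam i) ω| ≤ D.er i / 10
  e13 : ∀ i, |D.cen S (D.Y13 S lam i) ω| ≤ D.er i / 10
  e14 : ∀ i, ∑ z ∈ D.U1 S lam, ∑ z' ∈ Sel S.col lam true, |D.w i z z'| *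
    (((D.R z ∩ D.LL S lam).filter fun u => u ≠ z' ∧ ω u = ω z').card : ℝ) ≤
      (∑ z ∈ Sel S.col lam true, D.g i z) / D.T ^ 100 + D.T ^ 4 * D.gm i
  e16 : ∀ i, ∀ c : Fin D.k,
    (∑ z ∈ Sel S.col lam true, if ω z = c then D.g i z else 0) ≤
      D.T ^ 4 * (D.gm i + D.gs i / D.T ^ 3990)
  e17 : ∀ i, ∑ z ∈ D.U1 S lam, ∑ c, |D.nw S i z c| *
      ((D.J S lam ω z c : ℝ) * ((D.J S lam ω z c : ℝ) - 1)) ≤ D.er i / (10 * D.T ^ 3)

end NibData

/-- An auxiliary process with states in `σ` can be run along the semi-random colouring. -/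
def AuxOK {σ : Type v} (D : NibData Q ι)
    (X : ℕ → (Q → Option (Fin D.k × ℕ)) → (Q → Prop) → (ι → ℝ) → σ → Prop) : Prop :=
  ∀ m < D.M, ∀ (col : Q → Option (Fin D.k × ℕ)) (ok : Q → Prop) (Y : ι → ℝ) (s : σ),
    X m col ok Y s →
    (∀ i, (∑ z ∈ Un col, D.g i z) ≤
      ((D.q : ℝ) - m) / D.q * (∑ z, D.g i z) + m * D.dv i) →
    ∃ XA : (Q → Option Bool) → Prop, StepOK D.T (D.lawA m) XA ∧
    ∀ lam, XA lam →
    (∀ b i, |∑ z ∈ Sel col lam b, D.g i z - D.t m * ∑ z ∈ Un col, D.g i z| ≤ D.dv i) →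
    ∀ (p : Q → Fin D.k → ℝ) (bad : Q → Fin D.k → Prop), IsPM p →
    (∀ u c, p u c ≤ 2 * D.T / D.k) →
    (∀ u, (∑ c, if bad u c then p u c else 0) ≤ 1 / 20) →
    (∀ z c, ¬ bad z c → ∀ u r, col u = some (c, r) → D.K u z ≠ -1 ∧ ¬ D.sp u z) →
    ∃ (β : Type u) (_ : Fintype β) (ν : Q → β → ℝ) (upd : (Q → Fin D.k × β) → σ), IsPM ν ∧
      StepOK D.T (prodLaw p ν) (fun ω => ∀ Y' : ι → ℝ,
        (∀ i, |Y' i - (Y i - D.k * D.Rt lam p col i)| ≤ D.t m * D.gs i / D.T ^ 10 + D.er i) →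
        X (m + 1) (updCol m col lam fun u => (ω u).1)
          (updOk col ok lam bad fun u => (ω u).1) Y' (upd ω))

end

end Pool.Agent.AcyG
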