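import Pool.Agent.AcyG.BasicA

/-! # Consequences of a typical selection, part 2: drifts and quadratic variation (row GB2) -/

set_option autoImplicit false
set_option linter.unusedSectionVars false

namespace Pool.Agent.AcyG

open Finset
open Pool.Agent.Acy (IsPM wt Ex Pr mean)
open Pool.Agent.AcyK (Big StepOK prodLaw Un Sel updCol)
open scoped Classical

universe u v

section

variable {Q ι : Type u} [Fintype Q] [DecidableEq Q] [Fintype ι] [DecidableEq ι]

namespace NibData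

variable {D : NibData Q ι}

/-- A sum over the selected vertices. -/
theorem sum_LL (S : NState Q D.k) (lam : Q → Option Bool) (f : Q → ℝ) :
    ∑ u ∈ D.LL S lam, f u = ∑ u ∈ Sel S.col lam true, f u + ∑ u ∈ Sel S.col lam false, f u := by
  rw [LL_eq, Finset.sum_union (Sel_disj S lam)]

/-- A sum over the vertices that are not selected for a real pick. -/
theorem sum_U1 (S : NState Q D.k) (lam : Q → Option Bool) (f : Q → ℝ) :
    ∑ u ∈ D.U1 S lam, f u = ∑ u ∈ Un S.col, f u - ∑ u ∈ Sel S.col lam true, f u := by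
  rw [U1_eq, Finset.sum_sdiff_eq_sub (Sel_sub S lam true)]

/-- A sum over the selected vertices with a given label. -/
theorem sum_Sel (S : NState Q D.k) (m : ℕ) (lam : Q → Option Bool) (b : Bool) (f : Q → ℝ) :
    ∑ u ∈ Sel S.col lam b, f u = D.t m * ∑ u ∈ Un S.col, f u + D.dev S m lam b f := by
  unfold dev
  ring

section lam

variable (hD : D.Ok) {S : NState Q D.k} {m : ℕ} (hI : D.Inv S m) (hm : m < D.M)
  {lam : Q → Option Bool} (hA : D.GoodA S m lam)

include hD hm in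
theorem t_le_one : D.t m ≤ 1 := by
  have h1 := t_le hD hm.le
  have h2 := hD.big.small (n := 133) (by norm_num)
  linarith

include hD in
theorem pow_div_k {a b : ℕ} (h : a + b ≤ 3999) : D.T ^ a / (D.k : ℝ) ≤ 1 / D.T ^ b := by
  have hT0 := hD.big.pos
  have hk := k_pos' hD
  rw [div_le_div_iff₀ hk (by positivity), one_mul, ← pow_add]
  exact (hD.big.pw h).trans hD.k_lo

include hD hI hm hA

theorem kap1_le (z z' : Q) (hp : D.pr z z') (c : Fin D.k) :
    |D.kap1 S lam z z' c| ≤ |D.kap S z z' c| + 1 / D.T ^ 1900 := by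
  have hT0 := hD.big.pos
  have hk := k_pos' hD
  have ht0 := t_pos hD hm.le
  have ht1 := t_le_one hD hm
  have hdev := hA.a4 z z' c hp
  have e1 : D.kap1 S lam z z' c = (1 - D.t m) * D.kap S z z' c -
      1 / D.k * D.dev S m lam true (fun y => D.K y z * D.K y z' * S.v y c) := by
    unfold kap1 kap
    rw [sum_U1, sum_Sel S m]
    ring
  rw [e1]
  have h1 : |1 / (D.k : ℝ) * D.dev S m lam true (fun y => D.K y z * D.K y z' * S.v y c)| ≤
      1 / D.T ^ 1900 := by
    rw [abs_mul, abs_of_nonneg (by positivity : (0 : ℝ) ≤ 1 / D.k)]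
    calc 1 / (D.k : ℝ) * |D.dev S m lam true (fun y => D.K y z * D.K y z' * S.v y c)|
        ≤ 1 / (D.k : ℝ) * D.T ^ 2000 := mul_le_mul_of_nonneg_left hdev (by positivity)
      _ = D.T ^ 2000 / D.k := by ring
      _ ≤ 1 / D.T ^ 1900 := pow_div_k hD (by norm_num)
  have h2 : |(1 - D.t m) * D.kap S z z' c| ≤ |D.kap S z z' c| := by
    rw [abs_mul, abs_of_nonneg (by linarith : (0 : ℝ) ≤ 1 - D.t m)]
    have := abs_nonneg (D.kap S z z' c)
    nlinarith
  calc |(1 - D.t m) * D.kap S z z' c -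
        1 / D.k * D.dev S m lam true (fun y => D.K y z * D.K y z' * S.v y c)|
      ≤ |(1 - D.t m) * D.kap S z z' c| +
        |1 / (D.k : ℝ) * D.dev S m lam true (fun y => D.K y z * D.K y z' * S.v y c)| :=
        abs_sub _ _
    _ ≤ _ := add_le_add h2 h1

omit hA in
/-- The law of the picks is close to `v / k`, relatively. -/
theorem law_close (z z' : Q) (c : Fin D.k) (h : S.al z c) :
    |∑ y ∈ Un S.col, D.K y z * D.K y z' * (2 * D.p S y c) - 2 * D.kap S z z' c| ≤
      1 / D.T ^ 20 := by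
  have hT := hD.big
  have hT0 := hT.pos
  have hT1 := hT.one_le
  have hTb := hT.big
  norm_num at hTb
  have hk := k_pos' hD
  have e1 : ∑ y ∈ Un S.col, D.K y z * D.K y z' * (2 * D.p S y c) -
      2 * D.kap S z z' c = ∑ y ∈ Un S.col, D.K y z * D.K y z' *
        (2 * max (S.v y c) 0 / D.mP S y - 2 / D.k * S.v y c) := by
    unfold kap p
    rw [← mul_assoc, Finset.mul_sum, ← Finset.sum_sub_distrib]
    refine Finset.sum_congr rfl fun y _ => ?_
    ring
  rw [e1]
  have h1 : ∀ y, |2 * max (S.v y c) 0 / D.mP S y - 2 / D.k * S.v y c| ≤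
      2 / D.k * (1 / D.T ^ 100) + 4 / D.T ^ 29 * (1 / D.k * |S.v y c|) := by
    intro y
    have hm1 := mP_bd hD hI hm.le y
    have hm0 := mP_pos hD hI hm.le y
    have hv := hI.v_lo y c
    have hsm := hT.small (n := 29) (by norm_num)
    have hmk : (D.k : ℝ) / 2 ≤ D.mP S y := by
      have h2 := (abs_le.mp hm1).1
      have h3 : (D.k : ℝ) / D.T ^ 29 = D.k * (1 / D.T ^ 29) := by ring
      rw [h3] at h2
      nlinarith
    have e2 : 2 * max (S.v y c) 0 / D.mP S y - 2 / D.k * S.v y c =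
        2 / D.k * (max (S.v y c) 0 - S.v y c) +
          2 * max (S.v y c) 0 * ((D.k - D.mP S y) / (D.mP S y * D.k)) := by
      field_simp
      ring
    rw [e2]
    have h2 : |2 / (D.k : ℝ) * (max (S.v y c) 0 - S.v y c)| ≤ 2 / D.k * (1 / D.T ^ 100) := by
      rw [abs_mul, abs_of_nonneg (by positivity : (0 : ℝ) ≤ 2 / D.k)]
      refine mul_le_mul_of_nonneg_left ?_ (by positivity)
      rcases le_total (S.v y c) 0 with h0 | h0
      · rw [max_eq_right h0, abs_of_nonneg (by linarith)]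
        linarith
      · rw [max_eq_left h0, sub_self, abs_zero]
        positivity
    have h3 : |2 * max (S.v y c) 0 * ((D.k - D.mP S y) / (D.mP S y * D.k))| ≤
        4 / D.T ^ 29 * (1 / D.k * |S.v y c|) := by
      rw [abs_mul, abs_div, abs_of_pos (mul_pos hm0 hk), abs_sub_comm]
      have h4 : |2 * max (S.v y c) 0| ≤ 2 * |S.v y c| := by
        rw [abs_mul, abs_of_nonneg (by norm_num : (0 : ℝ) ≤ 2)]
        refine mul_le_mul_of_nonneg_left ?_ (by norm_num)
        rcases le_total (S.v y c) 0 with h0 | h0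
        · rw [max_eq_right h0, abs_zero]
          positivity
        · rw [max_eq_left h0]
      have h5 : |D.mP S y - D.k| / (D.mP S y * D.k) ≤ 2 / D.T ^ 29 * (1 / D.k) := by
        rw [div_le_iff₀ (mul_pos hm0 hk)]
        calc |D.mP S y - D.k| ≤ D.k / D.T ^ 29 := hm1
          _ = 2 / D.T ^ 29 * (1 / D.k) * (D.k / 2 * D.k) := by
              field_simp
          _ ≤ 2 / D.T ^ 29 * (1 / D.k) * (D.mP S y * D.k) := by
              refine mul_le_mul_of_nonneg_left ?_ (by positivity)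
              exact mul_le_mul_of_nonneg_right hmk hk.le
      calc |2 * max (S.v y c) 0| * (|D.mP S y - D.k| / (D.mP S y * D.k))
          ≤ 2 * |S.v y c| * (2 / D.T ^ 29 * (1 / D.k)) :=
            mul_le_mul h4 h5 (by positivity) (by positivity)
        _ = 4 / D.T ^ 29 * (1 / D.k * |S.v y c|) := by ring
    exact (abs_add_le _ _).trans (add_le_add h2 h3)
  have h2 : ∀ y, |D.K y z * D.K y z' * (2 * max (S.v y c) 0 / D.mP S y - 2 / D.k * S.v y c)| ≤
      (if y ∈ D.R z then D.T ^ 2 * (2 / D.k * (1 / D.T ^ 100)) else 0) +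
        D.T * (4 / D.T ^ 29) * (1 / D.k * (|D.K y z| * |S.v y c|)) := by
    intro y
    rw [abs_mul, abs_mul]
    have hK' := K_abs hD y z'
    have hK := K_abs hD y z
    by_cases hy : y ∈ D.R z
    · rw [if_pos hy]
      calc |D.K y z| * |D.K y z'| * |2 * max (S.v y c) 0 / D.mP S y - 2 / D.k * S.v y c|
          ≤ |D.K y z| * |D.K y z'| *
            (2 / D.k * (1 / D.T ^ 100) + 4 / D.T ^ 29 * (1 / D.k * |S.v y c|)) :=
            mul_le_mul_of_nonneg_left (h1 y) (by positivity)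
        _ = |D.K y z| * |D.K y z'| * (2 / D.k * (1 / D.T ^ 100)) +
            |D.K y z'| * (4 / D.T ^ 29 * (1 / D.k * (|D.K y z| * |S.v y c|))) := by ring
        _ ≤ D.T ^ 2 * (2 / D.k * (1 / D.T ^ 100)) +
            D.T * (4 / D.T ^ 29 * (1 / D.k * (|D.K y z| * |S.v y c|))) := by
            refine add_le_add ?_ ?_
            · refine mul_le_mul_of_nonneg_right ?_ (by positivity)
              rw [pow_two]
              exact mul_le_mul hK hK' (abs_nonneg _) hT0.le
            · exact mul_le_mul_of_nonneg_right hK' (by positivity)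
        _ = _ := by ring
    · rw [if_neg hy, K_off' hD z y hy, abs_zero]
      simp
  have h3 : ∑ y ∈ Un S.col, (if y ∈ D.R z then D.T ^ 2 * (2 / D.k * (1 / D.T ^ 100)) else 0) ≤
      1 / D.T ^ 21 := by
    calc ∑ y ∈ Un S.col, (if y ∈ D.R z then D.T ^ 2 * (2 / D.k * (1 / D.T ^ 100)) else 0)
        ≤ ∑ y, (if y ∈ D.R z then D.T ^ 2 * (2 / D.k * (1 / D.T ^ 100)) else 0) := by
          refine Finset.sum_le_sum_of_subset_of_nonneg (Finset.subset_univ _) fun y _ _ => ?_
          split_ifs <;> positivity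
      _ = ((D.R z).card : ℝ) * (D.T ^ 2 * (2 / D.k * (1 / D.T ^ 100))) := by
          rw [← Finset.sum_filter, Finset.sum_const, nsmul_eq_mul, Finset.filter_mem_eq_inter,
            Finset.univ_inter]
      _ ≤ D.T ^ 4017 * (D.T ^ 2 * (2 / D.k * (1 / D.T ^ 100))) :=
          mul_le_mul_of_nonneg_right (hD.R_card z) (by positivity)
      _ = 2 * (D.T ^ 3919 / D.k) := by
          field_simp
      _ ≤ D.T * (D.T ^ 3919 / D.k) := mul_le_mul_of_nonneg_right (by linarith) (by positivity)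
      _ = D.T ^ 3920 / D.k := by
          rw [pow_succ D.T 3919]
          ring
      _ ≤ 1 / D.T ^ 21 := pow_div_k hD (by norm_num)
  have h4 : ∑ y ∈ Un S.col, D.T * (4 / D.T ^ 29) * (1 / D.k * (|D.K y z| * |S.v y c|)) ≤
      1 / D.T ^ 27 := by
    rw [← Finset.mul_sum, ← Finset.mul_sum]
    calc D.T * (4 / D.T ^ 29) * (1 / D.k * ∑ y ∈ Un S.col, |D.K y z| * |S.v y c|)
        ≤ D.T * (4 / D.T ^ 29) * (D.T / 100) :=
          mul_le_mul_of_nonneg_left (sum_abs_K hD hI hm.le z c h) (by positivity)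
      _ = 1 / 25 * (1 / D.T ^ 27) := by
          field_simp
          ring
      _ ≤ 1 / D.T ^ 27 := by
          have : (0 : ℝ) < 1 / D.T ^ 27 := by positivity
          linarith
  calc |∑ y ∈ Un S.col, D.K y z * D.K y z' *
        (2 * max (S.v y c) 0 / D.mP S y - 2 / D.k * S.v y c)|
      ≤ ∑ y ∈ Un S.col, |D.K y z * D.K y z' *
        (2 * max (S.v y c) 0 / D.mP S y - 2 / D.k * S.v y c)| := Finset.abs_sum_le_sum_abs _ _
    _ ≤ ∑ y ∈ Un S.col, ((if y ∈ D.R z then D.T ^ 2 * (2 / D.k * (1 / D.T ^ 100)) else 0) +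
        D.T * (4 / D.T ^ 29) * (1 / D.k * (|D.K y z| * |S.v y c|))) :=
        Finset.sum_le_sum fun y _ => h2 y
    _ ≤ 1 / D.T ^ 21 + 1 / D.T ^ 27 := by
        rw [Finset.sum_add_distrib]
        exact add_le_add h3 h4
    _ ≤ 1 / D.T ^ 21 + 1 / D.T ^ 21 := by
        have := hT.ipw (a := 21) (b := 27) (by norm_num)
        linarith
    _ = 2 / D.T ^ 21 := by ring
    _ ≤ 1 / D.T ^ 20 := by
        rw [div_le_div_iff₀ (by positivity) (by positivity), one_mul,
          show D.T ^ 21 = D.T * D.T ^ 20 by ring]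
        exact mul_le_mul_of_nonneg_right (by linarith) (by positivity)

omit hI in
/-- The actual drift is close to the drift of the mean. -/
theorem delta_eq (z z' : Q) (hp : D.pr z z') (c : Fin D.k) :
    |D.delta S lam z z' c -
      D.t m * ∑ y ∈ Un S.col, D.K y z * D.K y z' * (2 * D.p S y c)| ≤
      1 / D.T ^ 1900 := by
  have hT := hD.big
  have hT0 := hT.pos
  have hTb := hT.big
  norm_num at hTb
  have hk := k_pos' hD
  have h5 := hA.a5 true z z' c hp
  have h6 := hA.a5 false z z' c hp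
  have e1 : D.delta S lam z z' c -
      D.t m * ∑ y ∈ Un S.col, D.K y z * D.K y z' * (2 * D.p S y c) =
      1 / D.k * (D.dev S m lam true (fun y => D.k * (D.K y z * D.K y z' * D.p S y c)) +
        D.dev S m lam false (fun y => D.k * (D.K y z * D.K y z' * D.p S y c))) := by
    have e2 : ∀ b : Bool, ∑ u ∈ Sel S.col lam b, D.p S u c * (D.K u z * D.K u z') =
        1 / D.k * ∑ u ∈ Sel S.col lam b, D.k * (D.K u z * D.K u z' * D.p S u c) := by
      intro b
      rw [Finset.mul_sum]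
      refine Finset.sum_congr rfl fun u hu => ?_
      field_simp
    unfold delta
    rw [sum_LL, e2, e2, sum_Sel S m lam true, sum_Sel S m lam false]
    have e5 : ∑ y ∈ Un S.col, D.K y z * D.K y z' * (2 * D.p S y c) =
        2 * (1 / D.k * (∑ y ∈ Un S.col, D.k * (D.K y z * D.K y z' * D.p S y c))) := by
      rw [Finset.mul_sum, Finset.mul_sum]
      refine Finset.sum_congr rfl fun y _ => ?_
      field_simp
    rw [e5]
    ring
  rw [e1, abs_mul, abs_of_nonneg (by positivity : (0 : ℝ) ≤ 1 / D.k)]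
  calc 1 / (D.k : ℝ) * |D.dev S m lam true (fun y => D.k * (D.K y z * D.K y z' * D.p S y c)) +
        D.dev S m lam false (fun y => D.k * (D.K y z * D.K y z' * D.p S y c))|
      ≤ 1 / (D.k : ℝ) * (D.T ^ 2000 + D.T ^ 2000) :=
        mul_le_mul_of_nonneg_left ((abs_add_le _ _).trans (add_le_add h5 h6)) (by positivity)
    _ = 2 * (D.T ^ 2000 / D.k) := by ring
    _ ≤ D.T * (D.T ^ 2000 / D.k) := mul_le_mul_of_nonneg_right (by linarith) (by positivity)
    _ = D.T ^ 2001 / D.k := by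
        rw [pow_succ D.T 2000]
        ring
    _ ≤ 1 / D.T ^ 1900 := pow_div_k hD (by norm_num)

theorem delta_le (z z' : Q) (hp : D.pr z z') (c : Fin D.k) (h : S.al z c) :
    |D.delta S lam z z' c| ≤ 2 * D.t m * |D.kap S z z' c| + D.t m / D.T ^ 20 +
      1 / D.T ^ 1900 := by
  have ht0 := t_pos hD hm.le
  have h1 := law_close hD hI hm z z' c h
  have h2 := delta_eq hD hm hA z z' hp c
  set X := ∑ y ∈ Un S.col, D.K y z * D.K y z' * (2 * D.p S y c) with hX
  have h3 : |X| ≤ 2 * |D.kap S z z' c| + 1 / D.T ^ 20 := by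
    calc |X| = |2 * D.kap S z z' c + (X - 2 * D.kap S z z' c)| := by congr 1; ring
      _ ≤ |2 * D.kap S z z' c| + |X - 2 * D.kap S z z' c| := abs_add_le _ _
      _ ≤ 2 * |D.kap S z z' c| + 1 / D.T ^ 20 := by
          rw [abs_mul, abs_of_nonneg (by norm_num : (0 : ℝ) ≤ 2)]
          exact add_le_add le_rfl h1
  calc |D.delta S lam z z' c| = |D.t m * X + (D.delta S lam z z' c - D.t m * X)| := by
        congr 1; ring
    _ ≤ |D.t m * X| + |D.delta S lam z z' c - D.t m * X| := abs_add_le _ _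
    _ ≤ D.t m * (2 * |D.kap S z z' c| + 1 / D.T ^ 20) + 1 / D.T ^ 1900 := by
        rw [abs_mul, abs_of_pos ht0]
        exact add_le_add (mul_le_mul_of_nonneg_left h3 ht0.le) h2
    _ = _ := by ring

omit hA in
theorem kap_le (z z' : Q) (c : Fin D.k) (h : S.al z c) :
    |D.kap S z z' c| ≤ D.T ^ 2 / 100 := by
  have hT0 := hD.big.pos
  have hk := k_pos' hD
  unfold kap
  rw [abs_mul, abs_of_nonneg (by positivity : (0 : ℝ) ≤ 1 / D.k)]
  calc 1 / (D.k : ℝ) * |∑ y ∈ Un S.col, D.K y z * D.K y z' * S.v y c|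
      ≤ 1 / (D.k : ℝ) * ∑ y ∈ Un S.col, D.T * (|D.K y z| * |S.v y c|) := by
        refine mul_le_mul_of_nonneg_left ?_ (by positivity)
        refine (Finset.abs_sum_le_sum_abs _ _).trans (Finset.sum_le_sum fun y _ => ?_)
        rw [abs_mul, abs_mul]
        have := K_abs hD y z'
        calc |D.K y z| * |D.K y z'| * |S.v y c| = |D.K y z'| * (|D.K y z| * |S.v y c|) := by ring
          _ ≤ D.T * (|D.K y z| * |S.v y c|) := mul_le_mul_of_nonneg_right this (by positivity)
    _ = D.T * (1 / (D.k : ℝ) * ∑ y ∈ Un S.col, |D.K y z| * |S.v y c|) := by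
        rw [← Finset.mul_sum]
        ring
    _ ≤ D.T * (D.T / 100) := mul_le_mul_of_nonneg_left (sum_abs_K hD hI hm.le z c h) hT0.le
    _ = D.T ^ 2 / 100 := by ring

theorem delta_le' (z z' : Q) (hp : D.pr z z') (c : Fin D.k) (h : S.al z c) :
    |D.delta S lam z z' c| ≤ 2 * D.t m * D.T ^ 2 + 1 / D.T ^ 1900 := by
  have hT := hD.big
  have hT0 := hT.pos
  have hT1 := hT.one_le
  have ht0 := t_pos hD hm.le
  have h1 := delta_le hD hI hm hA z z' hp c h
  have h2 := kap_le hD hI hm z z' c h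
  have h3 : 1 / D.T ^ 20 ≤ D.T ^ 2 := by
    have h4 := hT.small (n := 20) (by norm_num)
    have h5 : (1 : ℝ) ≤ D.T ^ 2 := one_le_pow₀ hT1
    linarith
  have h6 : D.t m / D.T ^ 20 = D.t m * (1 / D.T ^ 20) := by ring
  rw [h6] at h1
  nlinarith

theorem gramU_step (y y' : Q) (h1 : ¬ D.tw y y') (h2 : ∃ x, y ∈ D.R x ∧ y' ∈ D.R x) :
    |∑ u ∈ D.U1 S lam, D.K u y * D.K u y'| ≤ D.T ^ 3430 + (m + 1 : ℕ) * D.T ^ 2000 := by
  have hT0 := hD.big.pos
  have ht0 := t_pos hD hm.le
  have ht1 := t_le_one hD hm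
  have h3 := hI.gramU y y' h1 h2
  have h4 := hA.a7 true y y' h2
  have e1 : ∑ u ∈ D.U1 S lam, D.K u y * D.K u y' =
      (1 - D.t m) * ∑ u ∈ Un S.col, D.K u y * D.K u y' -
        D.dev S m lam true (fun u => D.K u y * D.K u y') := by
    rw [sum_U1, sum_Sel S m]
    ring
  rw [e1]
  have h5 : |(1 - D.t m) * ∑ u ∈ Un S.col, D.K u y * D.K u y'| ≤
      |∑ u ∈ Un S.col, D.K u y * D.K u y'| := by
    rw [abs_mul, abs_of_nonneg (by linarith : (0 : ℝ) ≤ 1 - D.t m)]
    have := abs_nonneg (∑ u ∈ Un S.col, D.K u y * D.K u y')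
    nlinarith
  have h6 : D.T ^ 1999 ≤ D.T ^ 2000 := hD.big.pw (by norm_num)
  have h7 := abs_sub ((1 - D.t m) * ∑ u ∈ Un S.col, D.K u y * D.K u y')
    (D.dev S m lam true (fun u => D.K u y * D.K u y'))
  push_cast
  linarith

theorem gramLL (y y' : Q) (h1 : ¬ D.tw y y') (h2 : ∃ x, y ∈ D.R x ∧ y' ∈ D.R x) :
    |∑ u ∈ D.LL S lam, D.K u y * D.K u y'| ≤ D.T ^ 3299 := by
  have hT := hD.big
  have hT0 := hT.pos
  have hTb := hT.big
  norm_num at hTb
  have ht0 := t_pos hD hm.le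
  have ht1 := t_le hD hm.le
  have h3 := hI.gramU y y' h1 h2
  have h4 := hA.a7 true y y' h2
  have h5 := hA.a7 false y y' h2
  have hmT : (m : ℝ) ≤ D.T ^ 150 :=
    (show (m : ℝ) ≤ D.M by exact_mod_cast hm.le).trans (M_le_T hD)
  have h6 : |∑ u ∈ Un S.col, D.K u y * D.K u y'| ≤ 2 * D.T ^ 3430 := by
    refine h3.trans ?_
    have h7 : (m : ℝ) * D.T ^ 2000 ≤ D.T ^ 3430 := by
      calc (m : ℝ) * D.T ^ 2000 ≤ D.T ^ 150 * D.T ^ 2000 :=
            mul_le_mul_of_nonneg_right hmT (by positivity)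
        _ = D.T ^ 2150 := by rw [← pow_add]
        _ ≤ D.T ^ 3430 := hT.pw (by norm_num)
    linarith
  have h8 : D.t m * |∑ u ∈ Un S.col, D.K u y * D.K u y'| ≤ 2 * D.T ^ 3297 := by
    calc D.t m * |∑ u ∈ Un S.col, D.K u y * D.K u y'| ≤ 1 / D.T ^ 133 * (2 * D.T ^ 3430) :=
          mul_le_mul ht1 h6 (abs_nonneg _) (by positivity)
      _ = 2 * D.T ^ 3297 := by
          field_simp
  have e1 : ∑ u ∈ D.LL S lam, D.K u y * D.K u y' =
      2 * (D.t m * ∑ u ∈ Un S.col, D.K u y * D.K u y') +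
        (D.dev S m lam true (fun u => D.K u y * D.K u y') +
          D.dev S m lam false (fun u => D.K u y * D.K u y')) := by
    rw [sum_LL, sum_Sel S m lam true, sum_Sel S m lam false]
    ring
  rw [e1]
  have h9 : D.T ^ 1999 ≤ D.T ^ 3297 := hT.pw (by norm_num)
  have h10 : 6 * D.T ^ 3297 ≤ D.T ^ 3299 := by
    have : D.T ^ 3299 = D.T * (D.T * D.T ^ 3297) := by ring
    rw [this]
    have h11 : (0 : ℝ) < D.T ^ 3297 := by positivity
    have h12 : 6 * D.T ^ 3297 ≤ D.T * D.T ^ 3297 := mul_le_mul_of_nonneg_right (by linarith) h11.le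
    have h13 : D.T * D.T ^ 3297 ≤ D.T * (D.T * D.T ^ 3297) := by
      have : (0 : ℝ) < D.T * D.T ^ 3297 := by positivity
      nlinarith
    linarith
  calc |2 * (D.t m * ∑ u ∈ Un S.col, D.K u y * D.K u y') +
        (D.dev S m lam true (fun u => D.K u y * D.K u y') +
          D.dev S m lam false (fun u => D.K u y * D.K u y'))|
      ≤ |2 * (D.t m * ∑ u ∈ Un S.col, D.K u y * D.K u y')| +
        |D.dev S m lam true (fun u => D.K u y * D.K u y') +
          D.dev S m lam false (fun u => D.K u y * D.K u y')| := abs_add_le _ _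
    _ ≤ 2 * (D.t m * |∑ u ∈ Un S.col, D.K u y * D.K u y'|) + (D.T ^ 1999 + D.T ^ 1999) := by
        rw [abs_mul, abs_mul, abs_of_nonneg (by norm_num : (0 : ℝ) ≤ 2), abs_of_pos ht0]
        exact add_le_add le_rfl ((abs_add_le _ _).trans (add_le_add h4 h5))
    _ ≤ D.T ^ 3299 := by linarith

omit hI in
/-- Number of related selected vertices. -/
theorem RV_card_aux (x : Q) : ((D.R x ∩ D.LL S lam).card : ℝ) ≤ D.T ^ 3885 := by
  have hT := hD.big
  have hT0 := hT.pos
  have hTb := hT.big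
  norm_num at hTb
  have ht0 := t_pos hD hm.le
  have ht1 := t_le hD hm.le
  have e1 : ((D.R x ∩ D.LL S lam).card : ℝ) =
      ∑ u ∈ D.LL S lam, (if u ∈ D.R x then (1 : ℝ) else 0) := by
    rw [← Finset.sum_filter, Finset.sum_const, nsmul_eq_mul, mul_one,
      Finset.filter_mem_eq_inter, Finset.inter_comm]
  have h1 : ∑ u ∈ Un S.col, (if u ∈ D.R x then (1 : ℝ) else 0) ≤ D.T ^ 4017 := by
    rw [← Finset.sum_filter, Finset.sum_const, nsmul_eq_mul, mul_one,
      Finset.filter_mem_eq_inter]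
    refine le_trans ?_ (hD.R_card x)
    exact_mod_cast Finset.card_le_card Finset.inter_subset_right
  have h0 : (0 : ℝ) ≤ ∑ u ∈ Un S.col, (if u ∈ D.R x then (1 : ℝ) else 0) :=
    Finset.sum_nonneg fun u _ => by split_ifs <;> norm_num
  have h2 := (abs_le.mp (hA.a8 true x)).2
  have h3 := (abs_le.mp (hA.a8 false x)).2
  have h4 : D.t m * ∑ u ∈ Un S.col, (if u ∈ D.R x then (1 : ℝ) else 0) ≤ D.T ^ 3884 := by
    calc D.t m * ∑ u ∈ Un S.col, (if u ∈ D.R x then (1 : ℝ) else 0)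
        ≤ 1 / D.T ^ 133 * D.T ^ 4017 := mul_le_mul ht1 h1 h0 (by positivity)
      _ = D.T ^ 3884 := by
          field_simp
  have h5 : D.T ^ 1999 ≤ D.T ^ 3884 := hT.pw (by norm_num)
  rw [e1, sum_LL, sum_Sel S m lam true, sum_Sel S m lam false]
  have h6 : D.T ^ 3885 = D.T * D.T ^ 3884 := by ring
  have h7 : (0 : ℝ) < D.T ^ 3884 := by positivity
  rw [h6]
  nlinarith

/-- Quadratic variation. -/
theorem qv (x : Q) : ∑ y ∈ D.R x, ∑ y' ∈ D.R x, |∑ u ∈ D.LL S lam, D.K u y * D.K u y'| ≤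
    D.T ^ 11435 := by
  have hT := hD.big
  have hT0 := hT.pos
  have hTb := hT.big
  norm_num at hTb
  have h1 : ∀ y ∈ D.R x, ∀ y' ∈ D.R x, |∑ u ∈ D.LL S lam, D.K u y * D.K u y'| ≤
      D.T ^ 3299 + (if D.tw y y' then D.T ^ 3887 else 0) := by
    intro y hy y' hy'
    by_cases ht : D.tw y y'
    · rw [if_pos ht]
      have h2 : |∑ u ∈ D.LL S lam, D.K u y * D.K u y'| ≤
          ∑ u ∈ D.LL S lam, |D.K u y * D.K u y'| := Finset.abs_sum_le_sum_abs _ _
      have h3 : ∑ u ∈ D.LL S lam, |D.K u y * D.K u y'| ≤ D.T ^ 3885 * D.T ^ 2 := by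
        calc ∑ u ∈ D.LL S lam, |D.K u y * D.K u y'|
            ≤ ∑ u ∈ D.LL S lam, (if u ∈ D.R y then D.T ^ 2 else 0) := by
              refine Finset.sum_le_sum fun u _ => ?_
              split_ifs with hu
              · rw [abs_mul, pow_two]
                exact mul_le_mul (K_abs hD u y) (K_abs hD u y') (abs_nonneg _) hT0.le
              · rw [K_off' hD y u hu, zero_mul, abs_zero]
          _ = ((D.R y ∩ D.LL S lam).card : ℝ) * D.T ^ 2 := by
              rw [← Finset.sum_filter, Finset.sum_const, nsmul_eq_mul,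
                Finset.filter_mem_eq_inter, Finset.inter_comm]
          _ ≤ D.T ^ 3885 * D.T ^ 2 :=
              mul_le_mul_of_nonneg_right (RV_card_aux hD hm hA y) (by positivity)
      have h4 : D.T ^ 3885 * D.T ^ 2 = D.T ^ 3887 := by rw [← pow_add]
      have h5 : (0 : ℝ) < D.T ^ 3299 := by positivity
      linarith
    · rw [if_neg ht, add_zero]
      exact gramLL hD hI hm hA y y' ht ⟨x, hy, hy'⟩
  have h2 : ∀ y ∈ D.R x, ∑ y' ∈ D.R x, |∑ u ∈ D.LL S lam, D.K u y * D.K u y'| ≤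
      D.T ^ 4017 * D.T ^ 3299 + D.T ^ 3405 * D.T ^ 3887 := by
    intro y hy
    calc ∑ y' ∈ D.R x, |∑ u ∈ D.LL S lam, D.K u y * D.K u y'|
        ≤ ∑ y' ∈ D.R x, (D.T ^ 3299 + (if D.tw y y' then D.T ^ 3887 else 0)) :=
          Finset.sum_le_sum fun y' hy' => h1 y hy y' hy'
      _ = ((D.R x).card : ℝ) * D.T ^ 3299 +
          ∑ y' ∈ D.R x, (if D.tw y y' then D.T ^ 3887 else 0) := by
          rw [Finset.sum_add_distrib, Finset.sum_const, nsmul_eq_mul]
      _ ≤ D.T ^ 4017 * D.T ^ 3299 + D.T ^ 3405 * D.T ^ 3887 := by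
          refine add_le_add ?_ ?_
          · exact mul_le_mul_of_nonneg_right (hD.R_card x) (by positivity)
          · calc ∑ y' ∈ D.R x, (if D.tw y y' then D.T ^ 3887 else 0)
                ≤ ∑ y', (if D.tw y y' then D.T ^ 3887 else 0) := by
                  refine Finset.sum_le_sum_of_subset_of_nonneg (Finset.subset_univ _)
                    fun y' _ _ => ?_
                  split_ifs <;> positivity
              _ = ((univ.filter fun y' => D.tw y y').card : ℝ) * D.T ^ 3887 := by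
                  rw [← Finset.sum_filter, Finset.sum_const, nsmul_eq_mul]
              _ ≤ D.T ^ 3405 * D.T ^ 3887 :=
                  mul_le_mul_of_nonneg_right (hD.tw_card y) (by positivity)
  calc ∑ y ∈ D.R x, ∑ y' ∈ D.R x, |∑ u ∈ D.LL S lam, D.K u y * D.K u y'|
      ≤ ∑ y ∈ D.R x, (D.T ^ 4017 * D.T ^ 3299 + D.T ^ 3405 * D.T ^ 3887) :=
        Finset.sum_le_sum h2
    _ = ((D.R x).card : ℝ) * (D.T ^ 4017 * D.T ^ 3299 + D.T ^ 3405 * D.T ^ 3887) := by
        rw [Finset.sum_const, nsmul_eq_mul]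
    _ ≤ D.T ^ 4017 * (D.T ^ 4017 * D.T ^ 3299 + D.T ^ 3405 * D.T ^ 3887) :=
        mul_le_mul_of_nonneg_right (hD.R_card x) (by positivity)
    _ = D.T ^ 11333 + D.T ^ 11309 := by
        rw [mul_add, ← pow_add, ← pow_add, ← pow_add, ← pow_add]
    _ ≤ D.T ^ 11434 + D.T ^ 11434 :=
        add_le_add (hT.pw (by norm_num)) (hT.pw (by norm_num))
    _ = 2 * D.T ^ 11434 := by ring
    _ ≤ D.T * D.T ^ 11434 := mul_le_mul_of_nonneg_right (by linarith) (by positivity)
    _ = D.T ^ 11435 := by rw [← pow_succ']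

theorem qv_gen (x : Q) (c : Fin D.k) (w : Q → ℝ) (hw : ∀ y, |w y| ≤ D.T ^ 3)
    (h0 : ∀ y, y ∉ D.R x → w y = 0) :
    ∑ u ∈ D.LL S lam, D.p S u c * (1 / D.k * ∑ y, w y * D.K u y) ^ 2 ≤
      1 / D.T ^ 554 := by
  have hT := hD.big
  have hT0 := hT.pos
  have hTb := hT.big
  norm_num at hTb
  have hk0 := k_pos' hD
  have hkT : D.T ^ 3999 ≤ D.k := hD.k_lo
  have hG : ∀ u, 1 / (D.k : ℝ) * ∑ y, w y * D.K u y = 1 / D.k * ∑ y ∈ D.R x, w y * D.K u y := by
    intro u
    congr 1
    symm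
    refine Finset.sum_subset (Finset.subset_univ _) fun y _ hy => ?_
    rw [h0 y hy, zero_mul]
  have hsq : ∀ u, (1 / (D.k : ℝ) * ∑ y, w y * D.K u y) ^ 2 =
      1 / (D.k : ℝ) ^ 2 * ∑ y ∈ D.R x, ∑ y' ∈ D.R x, w y * w y' * (D.K u y * D.K u y') := by
    intro u
    rw [hG u, mul_pow, pow_two (∑ y ∈ D.R x, w y * D.K u y), Finset.sum_mul_sum, one_div_pow]
    congr 1
    refine Finset.sum_congr rfl fun y _ => Finset.sum_congr rfl fun y' _ => ?_
    ring
  have hsum : ∑ u ∈ D.LL S lam, (1 / (D.k : ℝ) * ∑ y, w y * D.K u y) ^ 2 ≤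
      1 / (D.k : ℝ) ^ 2 * (D.T ^ 6 * D.T ^ 11435) := by
    rw [Finset.sum_congr rfl fun u _ => hsq u, ← Finset.mul_sum]
    refine mul_le_mul_of_nonneg_left ?_ (by positivity)
    rw [Finset.sum_comm]
    have h1 : ∀ y ∈ D.R x, ∑ u ∈ D.LL S lam, ∑ y' ∈ D.R x, w y * w y' * (D.K u y * D.K u y') =
        ∑ y' ∈ D.R x, w y * w y' * ∑ u ∈ D.LL S lam, D.K u y * D.K u y' := by
      intro y _
      rw [Finset.sum_comm]
      refine Finset.sum_congr rfl fun y' _ => ?_
      rw [Finset.mul_sum]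
    rw [Finset.sum_congr rfl h1]
    calc ∑ y ∈ D.R x, ∑ y' ∈ D.R x, w y * w y' * ∑ u ∈ D.LL S lam, D.K u y * D.K u y'
        ≤ ∑ y ∈ D.R x, ∑ y' ∈ D.R x, D.T ^ 6 * |∑ u ∈ D.LL S lam, D.K u y * D.K u y'| := by
          refine Finset.sum_le_sum fun y _ => Finset.sum_le_sum fun y' _ => ?_
          refine le_trans (le_abs_self _) ?_
          rw [abs_mul]
          refine mul_le_mul_of_nonneg_right ?_ (abs_nonneg _)
          rw [abs_mul]
          calc |w y| * |w y'| ≤ D.T ^ 3 * D.T ^ 3 :=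
                mul_le_mul (hw y) (hw y') (abs_nonneg _) (by positivity)
            _ = D.T ^ 6 := by ring
      _ = D.T ^ 6 * ∑ y ∈ D.R x, ∑ y' ∈ D.R x, |∑ u ∈ D.LL S lam, D.K u y * D.K u y'| := by
          rw [Finset.mul_sum]
          refine Finset.sum_congr rfl fun y _ => ?_
          rw [Finset.mul_sum]
      _ ≤ D.T ^ 6 * D.T ^ 11435 :=
          mul_le_mul_of_nonneg_left (qv hD hI hm hA x) (by positivity)
  have hp : ∑ u ∈ D.LL S lam, D.p S u c * (1 / (D.k : ℝ) * ∑ y, w y * D.K u y) ^ 2 ≤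
      2 * D.T / D.k * ∑ u ∈ D.LL S lam, (1 / (D.k : ℝ) * ∑ y, w y * D.K u y) ^ 2 := by
    rw [Finset.mul_sum]
    exact Finset.sum_le_sum fun u _ =>
      mul_le_mul_of_nonneg_right (p_le hD hI hm.le u c) (sq_nonneg _)
  refine hp.trans ?_
  have hk3 : D.T ^ 11997 ≤ (D.k : ℝ) ^ 3 := by
    calc D.T ^ 11997 = (D.T ^ 3999) ^ 3 := by rw [← pow_mul]
      _ ≤ (D.k : ℝ) ^ 3 := pow_le_pow_left₀ (by positivity) hkT 3
  calc 2 * D.T / D.k * ∑ u ∈ D.LL S lam, (1 / (D.k : ℝ) * ∑ y, w y * D.K u y) ^ 2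
      ≤ 2 * D.T / D.k * (1 / (D.k : ℝ) ^ 2 * (D.T ^ 6 * D.T ^ 11435)) :=
        mul_le_mul_of_nonneg_left hsum (by positivity)
    _ = 2 * D.T ^ 11442 / (D.k : ℝ) ^ 3 := by
        rw [← pow_add]
        field_simp
    _ ≤ D.T * D.T ^ 11442 / D.T ^ 11997 := by
        refine div_le_div₀ (by positivity) ?_ (by positivity) hk3
        refine mul_le_mul_of_nonneg_right ?_ (by positivity)
        linarith
    _ = 1 / D.T ^ 554 := by
        rw [← pow_succ', div_eq_div_iff (by positivity) (by positivity), one_mul, ← pow_add]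

theorem qv_le (b : Fin 3) (x : Q) (c : Fin D.k) :
    ∑ u ∈ D.LL S lam, D.p S u c * D.G S lam b u x c ^ 2 ≤ 1 / D.T ^ 554 := by
  have hT := hD.big
  have hT0 := hT.pos
  have hTb := hT.big
  norm_num at hTb
  let w : Q → ℝ := fun y => if y ∈ D.U1 S lam ∧ S.al y c then 2 * (D.a b x y * S.v y c) else 0
  have hw : ∀ y, |w y| ≤ D.T ^ 3 := by
    intro y
    by_cases h : y ∈ D.U1 S lam ∧ S.al y c
    · have h1 : w y = 2 * (D.a b x y * S.v y c) := if_pos h
      rw [h1, abs_mul, abs_mul, abs_of_nonneg (hD.a_nonneg b x y),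
        abs_of_nonneg (by norm_num : (0 : ℝ) ≤ 2)]
      calc 2 * (D.a b x y * |S.v y c|) ≤ D.T * (D.T * D.T) :=
            mul_le_mul (by linarith)
              (mul_le_mul (hD.a_le b x y) (v_abs hD hI hm.le y c) (abs_nonneg _) hT0.le)
              (mul_nonneg (hD.a_nonneg b x y) (abs_nonneg _)) hT0.le
        _ = D.T ^ 3 := by ring
    · have h1 : w y = 0 := if_neg h
      rw [h1, abs_zero]
      positivity
  have h0 : ∀ y, y ∉ D.R x → w y = 0 := by
    intro y hy
    by_cases h : y ∈ D.U1 S lam ∧ S.al y c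
    · have h1 : w y = 2 * (D.a b x y * S.v y c) := if_pos h
      rw [h1, a_off' hD b x y hy, zero_mul, mul_zero]
    · exact if_neg h
  have hG : ∀ u, D.G S lam b u x c = 1 / D.k * ∑ y, w y * D.K u y := by
    intro u
    unfold NibData.G
    rw [← Finset.sum_subset (Finset.subset_univ (D.U1 S lam)) (fun y _ hy => by
      have h1 : w y = 0 := if_neg fun h => hy h.1
      rw [h1, zero_mul]), Finset.mul_sum, Finset.mul_sum]
    refine Finset.sum_congr rfl fun y hy => ?_
    by_cases h : S.al y c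
    · have h1 : w y = 2 * (D.a b x y * S.v y c) := if_pos ⟨hy, h⟩
      rw [if_pos h, h1]
      ring
    · have h1 : w y = 0 := if_neg fun h' => h h'.2
      rw [if_neg h, h1]
      ring
  have h1 := qv_gen hD hI hm hA x c w hw h0
  rw [Finset.sum_congr rfl fun u _ => by rw [← hG u]] at h1
  exact h1

theorem qvK_le (z z' : Q) (c : Fin D.k) :
    ∑ u ∈ D.LL S lam, D.p S u c * D.GK S lam u z z' c ^ 2 ≤ 1 / D.T ^ 554 := by
  have hT := hD.big
  have hT0 := hT.pos
  let w : Q → ℝ := fun y => if y ∈ D.U1 S lam ∧ S.al y c then D.K y z * D.K y z' * S.v y c else 0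
  have hw : ∀ y, |w y| ≤ D.T ^ 3 := by
    intro y
    by_cases h : y ∈ D.U1 S lam ∧ S.al y c
    · have h1 : w y = D.K y z * D.K y z' * S.v y c := if_pos h
      rw [h1, abs_mul, abs_mul]
      calc |D.K y z| * |D.K y z'| * |S.v y c| ≤ D.T * D.T * D.T :=
            mul_le_mul (mul_le_mul (K_abs hD y z) (K_abs hD y z') (abs_nonneg _) hT0.le)
              (v_abs hD hI hm.le y c) (abs_nonneg _) (by positivity)
        _ = D.T ^ 3 := by ring
    · have h1 : w y = 0 := if_neg h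
      rw [h1, abs_zero]
      positivity
  have h0 : ∀ y, y ∉ D.R z → w y = 0 := by
    intro y hy
    by_cases h : y ∈ D.U1 S lam ∧ S.al y c
    · have h1 : w y = D.K y z * D.K y z' * S.v y c := if_pos h
      rw [h1, K_off' hD z y hy, zero_mul, zero_mul]
    · exact if_neg h
  have hG : ∀ u, D.GK S lam u z z' c = 1 / D.k * ∑ y, w y * D.K u y := by
    intro u
    unfold NibData.GK
    rw [← Finset.sum_subset (Finset.subset_univ (D.U1 S lam)) (fun y _ hy => by
      have h1 : w y = 0 := if_neg fun h => hy h.1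
      rw [h1, zero_mul])]
    congr 1
    refine Finset.sum_congr rfl fun y hy => ?_
    by_cases h : S.al y c
    · have h1 : w y = D.K y z * D.K y z' * S.v y c := if_pos ⟨hy, h⟩
      rw [if_pos h, h1]
    · have h1 : w y = 0 := if_neg fun h' => h h'.2
      rw [if_neg h, h1, zero_mul]
  have h1 := qv_gen hD hI hm hA z c w hw h0
  rw [Finset.sum_congr rfl fun u _ => by rw [← hG u]] at h1
  exact h1

end lam

end NibData

end

end Pool.Agent.AcyG
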