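import Pool.Agent.AcyG.BasicA

/-! # Consequences of a typical selection, part 1 (module LB1) -/

set_option autoImplicit false
set_option linter.unusedSectionVars false

namespace Pool.Agent.AcyG

open Finset
open Pool.Agent.Acy (IsPM wt Ex Pr mean)
open Pool.Agent.AcyK (Big StepOK prodLaw Un Sel updCol)
open scoped Classical

universe u v

section

variable {Q ι : Type u} [Fintype Q] [DecidableEq Q] [Fintype ι] [DecidableEq ι]

namespace NibData

variable {D : NibData Q ι}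

/-- Sums over the selected vertices, by kind. -/
theorem sum_LL_kinds (S : NState Q D.k) (lam : Q → Option Bool) (f : Q → ℝ) :
    ∑ u ∈ D.LL S lam, f u = ∑ u ∈ Sel S.col lam true, f u + ∑ u ∈ Sel S.col lam false, f u := by
  rw [LL_eq, Finset.sum_union (Sel_disj S lam)]

/-- Sums over the vertices not selected for a real pick. -/
theorem sum_U1_eq_sub (S : NState Q D.k) (lam : Q → Option Bool) (f : Q → ℝ) :
    ∑ u ∈ D.U1 S lam, f u = ∑ u ∈ Un S.col, f u - ∑ u ∈ Sel S.col lam true, f u := by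
  rw [U1_eq]
  have h := Finset.sum_sdiff (f := f) (Sel_sub S lam true)
  linarith

theorem sum_ite_mem_card (s B : Finset Q) : (∑ u ∈ s, if u ∈ B then (1 : ℝ) else 0) =
    ((B ∩ s).card : ℝ) := by
  rw [← Finset.sum_filter, Finset.sum_const, nsmul_eq_mul, mul_one,
    Finset.filter_mem_eq_inter, Finset.inter_comm]

/-- The total weights of the tests are at most `T k`. -/
theorem sum_a_le (hD : D.Ok) (b : Fin 3) (x : Q) (s : Finset Q) :
    ∑ y ∈ s, D.a b x y ≤ D.T * D.k := by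
  have hT := hD.big
  have hk := k_pos' hD
  have h1 : ∑ y ∈ s, D.a b x y ≤ ∑ y, D.a b x y :=
    Finset.sum_le_sum_of_subset_of_nonneg (Finset.subset_univ _) fun y _ _ => hD.a_nonneg b x y
  refine h1.trans ((hD.a_sum b x).trans ?_)
  have h2 := hT.log_le
  have h3 := hT.pos
  have h4 : Real.log D.T / 80 ≤ D.T := by linarith
  exact mul_le_mul_of_nonneg_right h4 hk.le

section lam

variable (hD : D.Ok) {S : NState Q D.k} {m : ℕ} (hI : D.Inv S m) (hm : m < D.M)
  {lam : Q → Option Bool} (hA : D.GoodA S m lam)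

include hD hI hm hA

theorem RV_card_one (b : Bool) (x : Q) :
    ((D.R x ∩ Sel S.col lam b).card : ℝ) ≤ D.T ^ 3884 + D.T ^ 1999 := by
  have hT0 := hD.big.pos
  have h1 := (abs_le.mp (hA.a8 b x)).2
  unfold dev at h1
  rw [sum_ite_mem_card, sum_ite_mem_card] at h1
  have h2 := t_le hD hm.le
  have h3 := t_pos hD hm.le
  have h4 : ((D.R x ∩ Un S.col).card : ℝ) ≤ D.T ^ 4017 := by
    refine le_trans ?_ (hD.R_card x)
    exact_mod_cast Finset.card_le_card Finset.inter_subset_left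
  have h5 : D.t m * ((D.R x ∩ Un S.col).card : ℝ) ≤ 1 / D.T ^ 133 * D.T ^ 4017 :=
    mul_le_mul h2 h4 (Nat.cast_nonneg _) (by positivity)
  have h6 : 1 / D.T ^ 133 * D.T ^ 4017 = D.T ^ 3884 := by
    rw [show (4017 : ℕ) = 133 + 3884 from rfl, pow_add]
    field_simp
  linarith

theorem RV_card (x : Q) : ((D.R x ∩ D.LL S lam).card : ℝ) ≤ D.T ^ 3885 := by
  have hT := hD.big
  have hT0 := hT.pos
  have hTb := hT.big
  norm_num at hTb
  have h1 := RV_card_one hD hI hm hA true x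
  have h2 := RV_card_one hD hI hm hA false x
  have h3 : ((D.R x ∩ D.LL S lam).card : ℝ) ≤
      (D.R x ∩ Sel S.col lam true).card + (D.R x ∩ Sel S.col lam false).card := by
    rw [LL_eq, Finset.inter_union_distrib_left]
    exact_mod_cast Finset.card_union_le _ _
  have h4 : D.T ^ 1999 ≤ D.T ^ 3884 := hT.pw (by norm_num)
  have h5 : D.T ^ 3885 = D.T * D.T ^ 3884 := by ring
  have h6 : 0 < D.T ^ 3884 := by positivity
  rw [h5]
  nlinarith

/-- A sum over the selected vertices of terms supported on the related vertices. -/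
theorem sum_V_le (x : Q) (f : Q → ℝ) (C : ℝ) (hC : 0 ≤ C)
    (h0 : ∀ y, y ∉ D.R x → f y ≤ 0) (h1 : ∀ y ∈ D.R x, f y ≤ C) :
    ∑ y ∈ D.LL S lam, f y ≤ D.T ^ 3885 * C := by
  calc ∑ y ∈ D.LL S lam, f y ≤ ∑ y ∈ D.LL S lam, (if y ∈ D.R x then C else 0) := by
        refine Finset.sum_le_sum fun y _ => ?_
        split_ifs with hy
        · exact h1 y hy
        · exact h0 y hy
    _ = ((D.R x ∩ D.LL S lam).card : ℝ) * C := by
        rw [← Finset.sum_filter, Finset.sum_const, nsmul_eq_mul, Finset.filter_mem_eq_inter,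
          Finset.inter_comm]
    _ ≤ D.T ^ 3885 * C := mul_le_mul_of_nonneg_right (RV_card hD hI hm hA x) hC

theorem small_VT {C : ℝ} {n : ℕ} (hn : n + 110 ≤ 3999) (hC : C ≤ D.T ^ n / D.k) :
    C ≤ 1 / D.T ^ 110 := by
  have hT0 := hD.big.pos
  have hk := k_pos' hD
  refine hC.trans ?_
  rw [div_le_div_iff₀ hk (by positivity), one_mul, ← pow_add]
  exact (hD.big.pw hn).trans hD.k_lo

theorem cmp_abs (x : Q) (c : Fin D.k) : |D.cmp S lam x c| ≤ 1 / D.T ^ 110 := by
  have hT := hD.big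
  have hT0 := hT.pos
  have hk := k_pos' hD
  have hTb := hT.big
  norm_num at hTb
  have h1 : |D.cmp S lam x c| ≤ ∑ u ∈ D.LL S lam, |D.p S u c * D.K u x| :=
    Finset.abs_sum_le_sum_abs _ _
  have h2 : ∑ u ∈ D.LL S lam, |D.p S u c * D.K u x| ≤
      D.T ^ 3885 * (2 * D.T / D.k * D.T) := by
    apply sum_V_le hD hI hm hA x _ _ (by positivity)
    · intro y hy
      rw [K_off' hD x y hy]
      simp
    · intro y _
      rw [abs_mul, abs_of_nonneg (p_nonneg hD hI hm.le y c)]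
      exact mul_le_mul (p_le hD hI hm.le y c) (K_abs hD y x) (abs_nonneg _) (by positivity)
  apply small_VT hD hI hm hA (n := 3888) (by norm_num)
  refine h1.trans (h2.trans ?_)
  have h3 : D.T ^ 3885 * (2 * D.T / D.k * D.T) = 2 * D.T ^ 3887 / D.k := by ring
  rw [h3]
  apply div_le_div_of_nonneg_right _ hk.le
  have h4 : D.T ^ 3888 = D.T * D.T ^ 3887 := by ring
  rw [h4]
  exact mul_le_mul_of_nonneg_right (by linarith) (by positivity)

/-- The growth per round is at most the increment of the accumulated conflict hazard. -/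
theorem cmp_lo (x : Q) (c : Fin D.k) : -D.cmp S lam x c ≤ D.dac S lam 0 x c := by
  unfold cmp dac
  rw [← Finset.sum_neg_distrib]
  refine Finset.sum_le_sum fun u _ => ?_
  rw [← mul_neg]
  exact mul_le_mul_of_nonneg_left (hD.a_neg x u) (p_nonneg hD hI hm.le u c)

theorem dac_nonneg (b : Fin 3) (x : Q) (c : Fin D.k) : 0 ≤ D.dac S lam b x c := by
  unfold dac
  exact Finset.sum_nonneg fun y _ =>
    mul_nonneg (p_nonneg hD hI hm.le y c) (hD.a_nonneg b x y)

theorem dac_le (b : Fin 3) (x : Q) (c : Fin D.k) : D.dac S lam b x c ≤ 1 / D.T ^ 110 := by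
  have hT := hD.big
  have hT0 := hT.pos
  have hk := k_pos' hD
  have hTb := hT.big
  norm_num at hTb
  have h2 : ∑ u ∈ D.LL S lam, D.p S u c * D.a b x u ≤
      D.T ^ 3885 * (2 * D.T / D.k * D.T) := by
    apply sum_V_le hD hI hm hA x _ _ (by positivity)
    · intro y hy
      rw [a_off' hD b x y hy]
      simp
    · intro y _
      exact mul_le_mul (p_le hD hI hm.le y c) (hD.a_le b x y) (hD.a_nonneg b x y)
        (by positivity)
  apply small_VT hD hI hm hA (n := 3888) (by norm_num)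
  refine h2.trans ?_
  have h3 : D.T ^ 3885 * (2 * D.T / D.k * D.T) = 2 * D.T ^ 3887 / D.k := by ring
  rw [h3]
  apply div_le_div_of_nonneg_right _ hk.le
  have h4 : D.T ^ 3888 = D.T * D.T ^ 3887 := by ring
  rw [h4]
  exact mul_le_mul_of_nonneg_right (by linarith) (by positivity)

/-- The mass of a round is part of the prediction. -/
theorem dac_add_le (b : Fin 3) (x : Q) (c : Fin D.k) (_h : S.al x c) :
    D.dac S lam b x c + D.Nf1 S lam b x c ≤
      D.Nf S b x c + D.t m / D.T ^ 20 + 1 / D.T ^ 200 := by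
  have hT := hD.big
  have hT0 := hT.pos
  have hk := k_pos' hD
  have hTb := hT.big
  norm_num at hTb
  have ht0 := t_pos hD hm.le
  -- the two kinds of selected vertices
  set Ua : ℝ := ∑ y ∈ Un S.col, D.a b x y * D.p S y c with hUa
  set Uv : ℝ := ∑ y ∈ Un S.col, D.a b x y * S.v y c with hUv
  have e1 : D.dac S lam b x c ≤ D.t m * Ua + D.t m * Ua + 2 * D.T ^ 2000 / D.k := by
    unfold dac
    rw [sum_LL_kinds]
    have h1 := (abs_le.mp (hA.a2 b true x c)).2
    have h2 := (abs_le.mp (hA.a2 b false x c)).2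
    unfold dev at h1 h2
    simp only [← Finset.mul_sum] at h1 h2
    have h3 : ∀ b' : Bool, ∑ u ∈ Sel S.col lam b', D.p S u c * D.a b x u =
        ∑ u ∈ Sel S.col lam b', D.a b x u * D.p S u c := fun b' =>
      Finset.sum_congr rfl fun u _ => mul_comm _ _
    rw [h3 true, h3 false]
    rw [← hUa] at h1 h2
    set Va := ∑ u ∈ Sel S.col lam true, D.a b x u * D.p S u c
    set Vf := ∑ u ∈ Sel S.col lam false, D.a b x u * D.p S u c
    have h5 : (D.k : ℝ) * (Va + Vf) ≤
        D.k * (D.t m * Ua + D.t m * Ua + 2 * D.T ^ 2000 / D.k) := by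
      have h6 : (D.k : ℝ) * (D.t m * Ua + D.t m * Ua + 2 * D.T ^ 2000 / D.k) =
          D.t m * (D.k * Ua) + D.t m * (D.k * Ua) + 2 * D.T ^ 2000 := by
        field_simp
      rw [h6]
      linarith
    exact le_of_mul_le_mul_left h5 hk
  have e2 : D.Nf1 S lam b x c ≤ D.Nf S b x c - D.t m * (2 / D.k * Uv) +
      2 * D.T ^ 2000 / D.k := by
    unfold Nf1 Nf
    rw [sum_U1_eq_sub, ← hUv]
    have h1 := (abs_le.mp (hA.a1 b x c)).1
    unfold dev at h1
    rw [← hUv] at h1
    set Va := ∑ u ∈ Sel S.col lam true, D.a b x u * S.v u c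
    have h2 : (2 : ℝ) / D.k * (D.t m * Uv - Va) ≤ 2 / D.k * D.T ^ 2000 :=
      mul_le_mul_of_nonneg_left (by linarith) (by positivity)
    have h3 : 2 * D.T ^ 2000 / (D.k : ℝ) = 2 / D.k * D.T ^ 2000 := by ring
    rw [h3]
    linarith
  have e3 : Ua + Ua - 2 / D.k * Uv ≤ 1 / D.T ^ 20 := by
    have h1 : Ua + Ua - 2 / D.k * Uv = ∑ y ∈ Un S.col,
        D.a b x y * (2 * (D.p S y c - S.v y c / D.k)) := by
      rw [hUa, hUv, Finset.mul_sum, ← Finset.sum_add_distrib, ← Finset.sum_sub_distrib]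
      refine Finset.sum_congr rfl fun y _ => ?_
      ring
    have h2 : ∀ y, 2 * (D.p S y c - S.v y c / D.k) ≤ 2 * (1 / (D.T ^ 27 * D.k)) := by
      intro y
      have := (abs_le.mp (p_sub hD hI hm.le y c)).2
      linarith
    have h3 : ∑ y ∈ Un S.col, D.a b x y * (2 * (D.p S y c - S.v y c / D.k)) ≤
        ∑ y ∈ Un S.col, D.a b x y * (2 * (1 / (D.T ^ 27 * D.k))) :=
      Finset.sum_le_sum fun y _ => mul_le_mul_of_nonneg_left (h2 y) (hD.a_nonneg b x y)
    rw [h1]
    refine h3.trans ?_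
    rw [← Finset.sum_mul]
    have h4 := mul_le_mul_of_nonneg_right (sum_a_le hD b x (Un S.col))
      (show (0 : ℝ) ≤ 2 * (1 / (D.T ^ 27 * D.k)) by positivity)
    refine h4.trans ?_
    have h5 : D.T * D.k * (2 * (1 / (D.T ^ 27 * D.k))) = 1 / D.T ^ 20 * (2 * (1 / D.T ^ 6)) := by
      field_simp
    have h6 := hT.small (n := 6) (by norm_num)
    have h7 : (0 : ℝ) < 1 / D.T ^ 20 := by positivity
    rw [h5]
    nlinarith
  have e4 : D.t m * Ua + D.t m * Ua - D.t m * (2 / D.k * Uv) ≤ D.t m / D.T ^ 20 := by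
    have h1 := mul_le_mul_of_nonneg_left e3 ht0.le
    have h2 : D.t m / D.T ^ 20 = D.t m * (1 / D.T ^ 20) := by ring
    rw [h2]
    linarith
  have e5 : 2 * D.T ^ 2000 / (D.k : ℝ) + 2 * D.T ^ 2000 / D.k ≤ 1 / D.T ^ 200 := by
    have h1 : 2 * D.T ^ 2000 / (D.k : ℝ) + 2 * D.T ^ 2000 / D.k = 4 * D.T ^ 2000 / D.k := by
      ring
    rw [h1, div_le_div_iff₀ hk (by positivity), one_mul]
    calc 4 * D.T ^ 2000 * D.T ^ 200 ≤ D.T * D.T ^ 2000 * D.T ^ 200 := by
          apply mul_le_mul_of_nonneg_right _ (by positivity)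
          exact mul_le_mul_of_nonneg_right (by linarith) (by positivity)
      _ = D.T ^ 2201 := by ring
      _ ≤ D.T ^ 3999 := hT.pw (by norm_num)
      _ ≤ D.k := hD.k_lo
  linarith

theorem Nf1_lo (b : Fin 3) (x : Q) (c : Fin D.k) : -(1 / D.T ^ 60) ≤ D.Nf1 S lam b x c := by
  have hT := hD.big
  have hT0 := hT.pos
  have hk := k_pos' hD
  have h6 : (0 : ℝ) < 1 / D.T ^ 100 := by positivity
  have h1 : -(∑ y ∈ D.U1 S lam, D.a b x y * S.v y c) ≤
      (∑ y ∈ D.U1 S lam, D.a b x y) * (1 / D.T ^ 100) := by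
    rw [← Finset.sum_neg_distrib, Finset.sum_mul]
    refine Finset.sum_le_sum fun y _ => ?_
    have h3 := hD.a_nonneg b x y
    have h5 := hI.v_lo y c
    calc -(D.a b x y * S.v y c) = D.a b x y * (-S.v y c) := by ring
      _ ≤ D.a b x y * (1 / D.T ^ 100) := mul_le_mul_of_nonneg_left (by linarith) h3
  have h2 : (∑ y ∈ D.U1 S lam, D.a b x y) * (1 / D.T ^ 100) ≤ D.T * D.k * (1 / D.T ^ 100) :=
    mul_le_mul_of_nonneg_right (sum_a_le hD b x _) h6.le
  have h3 : 2 / (D.k : ℝ) * (D.T * D.k * (1 / D.T ^ 100)) = 2 / D.T ^ 99 := by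
    field_simp
  have h4 : 2 / D.T ^ 99 ≤ 1 / D.T ^ 60 := by
    have h5 : 2 / D.T ^ 99 = 1 / D.T ^ 60 * (2 * (1 / D.T ^ 39)) := by
      field_simp
    have h7 := hT.small (n := 39) (by norm_num)
    have h8 : (0 : ℝ) < 1 / D.T ^ 60 := by positivity
    rw [h5]
    nlinarith
  have h5 := mul_le_mul_of_nonneg_left (h1.trans h2) (show (0 : ℝ) ≤ 2 / D.k by positivity)
  rw [h3] at h5
  unfold Nf1
  linarith

theorem Sel_g (b : Bool) (i : ι) : ∑ z ∈ Sel S.col lam b, D.g i z ≤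
    D.t m * (∑ z ∈ Un S.col, D.g i z) + D.dv i := by
  have h1 := (abs_le.mp (hA.a9 b i)).2
  unfold dev at h1
  linarith

theorem Sel_g' (b : Bool) (i : ι) : ∑ z ∈ Sel S.col lam b, D.g i z ≤
    D.t m * D.gs i + D.dv i := by
  have h1 := Sel_g hD hI hm hA b i
  have h2 : ∑ z ∈ Un S.col, D.g i z ≤ D.gs i :=
    (Finset.sum_le_sum_of_subset_of_nonneg (Finset.subset_univ _)
      fun z _ _ => hD.g_nonneg i z).trans (hD.g_sum i)
  have h3 := mul_le_mul_of_nonneg_left h2 (t_pos hD hm.le).le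
  linarith

theorem cardU_step (i : ι) : ∑ z ∈ D.U1 S lam, D.g i z ≤
    ((D.q : ℝ) - (m + 1 : ℕ)) / D.q * (∑ z, D.g i z) + (m + 1 : ℕ) * D.dv i := by
  have hT := hD.big
  have hT0 := hT.pos
  have h1 := (abs_le.mp (hA.a9 true i)).1
  unfold dev at h1
  have h2 : ∑ z ∈ D.U1 S lam, D.g i z = ∑ z ∈ Un S.col, D.g i z -
      ∑ z ∈ Sel S.col lam true, D.g i z := sum_U1_eq_sub S lam _
  have h3 := hI.cardU i
  have ht0 := t_pos hD hm.le
  have ht1 := t_le hD hm.le
  have h4 : 1 / D.T ^ 133 ≤ 1 / 1000000 := hT.small (by norm_num)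
  have h5 : 0 < (D.q : ℝ) - m := by
    unfold t at ht0
    exact one_div_pos.mp ht0
  have h6 : (0 : ℝ) < D.q := by
    have : (0 : ℝ) ≤ m := Nat.cast_nonneg m
    linarith
  have h7 : 0 ≤ 1 - D.t m := by linarith
  have h8 : (1 - D.t m) * (∑ z ∈ Un S.col, D.g i z) ≤
      (1 - D.t m) * (((D.q : ℝ) - m) / D.q * (∑ z, D.g i z) + m * D.dv i) :=
    mul_le_mul_of_nonneg_left h3 h7
  have h9 : (1 - D.t m) * (((D.q : ℝ) - m) / D.q * (∑ z, D.g i z)) =
      ((D.q : ℝ) - (m + 1 : ℕ)) / D.q * (∑ z, D.g i z) := by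
    unfold t
    push_cast
    field_simp
    ring
  have hdv := dv_nonneg hD i
  have h10 : (1 - D.t m) * (m * D.dv i) ≤ m * D.dv i := by
    have h11 : 0 ≤ (m : ℝ) * D.dv i := by positivity
    nlinarith
  rw [mul_add, h9] at h8
  rw [h2]
  push_cast at h8 ⊢
  linarith

end lam

end NibData

end

end Pool.Agent.AcyG
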