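import Pool.Agent.Acy.Mgf

/-! # Two-sided tails for quadratic forms in independent variables

`X z = Y z (ω z)` with values in `[0,1]` and mean at most `p`; `g` a kernel.  The form
`∑ z ≠ z', g z z' X z X z'` is four times the average over all bipartitions of the bilinear forms
between the two sides, and for a fixed bipartition the form is linear in the variables of one side
when the other side is fixed. -/

set_option autoImplicit false
set_option linter.unusedSectionVars false

namespace Pool.Agent.AcyG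

open Finset
open Pool.Agent.Acy
open scoped Classical

section

variable {ι α : Type*} [Fintype ι] [DecidableEq ι] [Fintype α]

/-- Bernstein's inequality, explicit deviation. -/
theorem bern {μ : ι → α → ℝ} (h : IsPM μ) (Y : ι → α → ℝ) {b V t : ℝ} (hb0 : 0 < b)
    (hb : ∀ i a, |Y i a| ≤ b) (hV : ∑ i, ∑ a, μ i a * Y i a ^ 2 ≤ V) (ht : 0 < t) :
    Pr μ (fun ω => 4 * t * b + 2 * Real.sqrt (t * V) ≤ |∑ i, (Y i (ω i) - mean μ Y i)|) ≤
      2 * Real.exp (-t) := by
  have hV0 : 0 ≤ V := (Finset.sum_nonneg fun i _ => Finset.sum_nonneg fun a _ =>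
    mul_nonneg (h.nonneg i a) (sq_nonneg _)).trans hV
  have hs0 : 0 ≤ Real.sqrt (t * V) := Real.sqrt_nonneg _
  by_cases hc : 4 * t * b ^ 2 ≤ V
  · have hVpos : 0 < V := lt_of_lt_of_le (by positivity) hc
    have hl0 : 0 ≤ Real.sqrt (t / V) := Real.sqrt_nonneg _
    have hl2 : Real.sqrt (t / V) ^ 2 = t / V := Real.sq_sqrt (by positivity)
    have hlb : 2 * (Real.sqrt (t / V) * b) ≤ 1 := by
      have h1 : (2 * (Real.sqrt (t / V) * b)) ^ 2 ≤ 1 ^ 2 := by
        have h2 : (2 * (Real.sqrt (t / V) * b)) ^ 2 = 4 * t * b ^ 2 / V := by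
          rw [mul_pow, mul_pow, hl2]
          ring
        rw [h2, one_pow]
        exact (div_le_one hVpos).2 hc
      exact le_of_sq_le_sq h1 (by norm_num)
    have key := indep_tail h Y b hb V hV (Real.sqrt (t / V)) hl0 hlb
      (4 * t * b + 2 * Real.sqrt (t * V))
    refine key.trans (mul_le_mul_of_nonneg_left (Real.exp_le_exp.2 ?_) (by norm_num))
    have h3 : Real.sqrt (t / V) * Real.sqrt (t * V) = t := by
      rw [← Real.sqrt_mul (by positivity)]
      have : t / V * (t * V) = t ^ 2 := by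
        field_simp
      rw [this, Real.sqrt_sq ht.le]
    have h4 : Real.sqrt (t / V) ^ 2 * V = t := by
      rw [hl2]
      field_simp
    have h5 : 0 ≤ Real.sqrt (t / V) * (4 * t * b) := mul_nonneg hl0 (by positivity)
    rw [h4, mul_add]
    have h6 : Real.sqrt (t / V) * (2 * Real.sqrt (t * V)) = 2 * t := by
      rw [mul_left_comm, h3]
    rw [h6]
    linarith
  · push Not at hc
    have hl0 : 0 ≤ 1 / (2 * b) := by positivity
    have hlb : 2 * (1 / (2 * b) * b) ≤ 1 := by
      have : 2 * (1 / (2 * b) * b) = 1 := by field_simp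
      rw [this]
    have key := indep_tail h Y b hb V hV (1 / (2 * b)) hl0 hlb
      (4 * t * b + 2 * Real.sqrt (t * V))
    refine key.trans (mul_le_mul_of_nonneg_left (Real.exp_le_exp.2 ?_) (by norm_num))
    have h1 : (1 / (2 * b)) ^ 2 * V ≤ t := by
      have h2 : (1 / (2 * b)) ^ 2 * V = V / (4 * b ^ 2) := by
        field_simp
        ring
      rw [h2, div_le_iff₀ (by positivity)]
      linarith
    have h3 : 1 / (2 * b) * (4 * t * b + 2 * Real.sqrt (t * V)) = 2 * t +
        1 / (2 * b) * (2 * Real.sqrt (t * V)) := by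
      field_simp
      ring
    have h4 : 0 ≤ 1 / (2 * b) * (2 * Real.sqrt (t * V)) := by positivity
    rw [h3]
    linarith

/-- Mixture of two configurations. -/
def mix (A : ι → Bool) (ω ω' : ι → α) : ι → α := fun i => if A i = true then ω i else ω' i

theorem wt_mix (μ : ι → α → ℝ) (A : ι → Bool) (ω ω' : ι → α) :
    wt μ (mix A ω ω') * wt μ (mix A ω' ω) = wt μ ω * wt μ ω' := by
  unfold wt mix
  rw [← Finset.prod_mul_distrib, ← Finset.prod_mul_distrib]
  refine Finset.prod_congr rfl fun i _ => ?_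
  by_cases hi : A i = true
  · simp [hi]
  · simp only [if_neg hi]
    ring

/-- Fubini for the two sides of a bipartition. -/
theorem Ex_mix {μ : ι → α → ℝ} (h : IsPM μ) (A : ι → Bool) (f : (ι → α) → ℝ) :
    Ex μ f = Ex μ (fun ω' => Ex μ (fun ω => f (mix A ω ω'))) := by
  have hinv : Function.Involutive (fun e : (ι → α) × (ι → α) => (mix A e.1 e.2, mix A e.2 e.1)) := by
    intro e
    ext i
    · simp only [mix]
      split_ifs <;> rfl
    · simp only [mix]
      split_ifs <;> rfl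
  have h1 : Ex μ (fun ω' => Ex μ (fun ω => f (mix A ω ω'))) =
      ∑ e : (ι → α) × (ι → α), wt μ (mix A e.1 e.2) * wt μ (mix A e.2 e.1) * f (mix A e.1 e.2) := by
    rw [Fintype.sum_prod_type, Finset.sum_comm]
    unfold Ex
    refine Finset.sum_congr rfl fun ω' _ => ?_
    rw [Finset.mul_sum]
    refine Finset.sum_congr rfl fun ω _ => ?_
    rw [wt_mix]
    ring
  have h2 : ∑ e : (ι → α) × (ι → α), wt μ (mix A e.1 e.2) * wt μ (mix A e.2 e.1) *
      f (mix A e.1 e.2) = ∑ e : (ι → α) × (ι → α), wt μ e.1 * wt μ e.2 * f e.1 :=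
    Equiv.sum_comp hinv.toPerm (fun e : (ι → α) × (ι → α) => wt μ e.1 * wt μ e.2 * f e.1)
  rw [h1, h2, Fintype.sum_prod_type]
  unfold Ex
  refine Finset.sum_congr rfl fun ω _ => ?_
  have h3 := sum_wt h
  calc wt μ ω * f ω = wt μ ω * f ω * ∑ ω', wt μ ω' := by rw [h3, mul_one]
    _ = _ := by
      rw [Finset.mul_sum]
      exact Finset.sum_congr rfl fun ω' _ => by ring

/-- Conditioning on the coordinates outside `A`. -/
theorem Pr_split {μ : ι → α → ℝ} (h : IsPM μ) (A : ι → Bool) (P G : (ι → α) → Prop) {δ : ℝ}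
    (hδ0 : 0 ≤ δ) (hδ : ∀ ω', G ω' → Pr μ (fun ω => P (mix A ω ω')) ≤ δ) :
    Pr μ P ≤ Pr μ (fun ω => ¬ G ω) + δ := by
  have h0 : Pr μ P = Ex μ (fun ω' => Pr μ (fun ω => P (mix A ω ω'))) :=
    Ex_mix h A (fun ω => if P ω then (1:ℝ) else 0)
  have h1 : Ex μ (fun ω' => (@ite ℝ (¬ G ω') (Classical.propDecidable _) 1 0) + δ) =
      Pr μ (fun ω => ¬ G ω) + δ := by
    rw [Ex_add, Ex_const h]
    rfl
  rw [h0, ← h1]
  refine Ex_mono h fun ω' => ?_
  by_cases hG : G ω'
  · rw [if_neg (not_not.2 hG), zero_add]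
    exact hδ ω' hG
  · rw [if_pos hG]
    have := Pr_le_one h (fun ω => P (mix A ω ω'))
    linarith

/-! ## One bipartition -/

section bip

variable {μ : ι → α → ℝ} (Y : ι → α → ℝ) (g : ι → ι → ℝ)

/-- the kernel between the two sides -/
noncomputable def gA (A : ι → Bool) (z z' : ι) : ℝ := if A z = true ∧ A z' = false then g z z' else 0

/-- the bilinear form -/
noncomputable def QA (A : ι → Bool) (ω : ι → α) : ℝ :=
  ∑ z, ∑ z', gA g A z z' * (Y z (ω z) * Y z' (ω z'))

/-- its mean -/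
noncomputable def EA (μ : ι → α → ℝ) (A : ι → Bool) : ℝ :=
  ∑ z, ∑ z', gA g A z z' * (mean μ Y z * mean μ Y z')

theorem abs_gA_le (A : ι → Bool) (z z' : ι) : |gA g A z z'| ≤ |g z z'| := by
  unfold gA
  split_ifs
  · exact le_rfl
  · rw [abs_zero]
    exact abs_nonneg _

/-- the deviation for one bipartition -/
noncomputable def lam (p b D Tot t : ℝ) : ℝ :=
  (4 * t * (p * D + (4 * t * b + 2 * Real.sqrt (t * (p * b * D)))) +
    2 * Real.sqrt (t * (p * (p * D + (4 * t * b + 2 * Real.sqrt (t * (p * b * D)))) *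
      (p * Tot + (4 * t * D + 2 * Real.sqrt (t * (p * D * Tot))))))) +
  (4 * t * (p * D) + 2 * Real.sqrt (t * (p * (p * D) * (p * Tot))))

theorem sum_sq_le {c : ι → ℝ} {B Sm : ℝ} (hB : ∀ i, |c i| ≤ B) (hS : ∑ i, |c i| ≤ Sm)
    (hB0 : 0 ≤ B) : ∑ i, c i ^ 2 ≤ B * Sm := by
  calc ∑ i, c i ^ 2 ≤ ∑ i, B * |c i| := by
        refine Finset.sum_le_sum fun i _ => ?_
        rw [← sq_abs, sq]
        exact mul_le_mul_of_nonneg_right (hB i) (abs_nonneg _)
    _ = B * ∑ i, |c i| := by rw [Finset.mul_sum]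
    _ ≤ B * Sm := mul_le_mul_of_nonneg_left hS hB0

/-- Bernstein for a linear form with coefficients `c`. -/
theorem bern_lin {μ : ι → α → ℝ} (h : IsPM μ) {Y : ι → α → ℝ} (hY0 : ∀ i a, 0 ≤ Y i a)
    (hY1 : ∀ i a, Y i a ≤ 1) {p : ℝ} (hp0 : 0 ≤ p) (hp : ∀ i, mean μ Y i ≤ p) (c : ι → ℝ)
    {B Sm t : ℝ} (hB0 : 0 < B) (hB : ∀ i, |c i| ≤ B) (hS : ∑ i, |c i| ≤ Sm) (ht : 0 < t) :
    Pr μ (fun ω => 4 * t * B + 2 * Real.sqrt (t * (p * B * Sm)) ≤
      |∑ i, (Y i (ω i) - mean μ Y i) * c i|) ≤ 2 * Real.exp (-t) := by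
  have hV : ∑ i, ∑ a, μ i a * (Y i a * c i) ^ 2 ≤ p * B * Sm := by
    calc ∑ i, ∑ a, μ i a * (Y i a * c i) ^ 2 ≤ ∑ i, p * c i ^ 2 := by
          refine Finset.sum_le_sum fun i _ => ?_
          have h1 : ∑ a, μ i a * (Y i a * c i) ^ 2 ≤ mean μ Y i * c i ^ 2 := by
            unfold mean
            rw [Finset.sum_mul]
            refine Finset.sum_le_sum fun a _ => ?_
            have h2 : Y i a ^ 2 ≤ Y i a := by nlinarith [hY0 i a, hY1 i a]
            have h3 : μ i a * (Y i a ^ 2 * c i ^ 2) ≤ μ i a * (Y i a * c i ^ 2) :=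
              mul_le_mul_of_nonneg_left (mul_le_mul_of_nonneg_right h2 (sq_nonneg _))
                (h.nonneg i a)
            calc _ = μ i a * (Y i a ^ 2 * c i ^ 2) := by ring
              _ ≤ _ := h3
              _ = _ := by ring
          exact h1.trans (mul_le_mul_of_nonneg_right (hp i) (sq_nonneg _))
      _ = p * ∑ i, c i ^ 2 := by rw [Finset.mul_sum]
      _ ≤ p * (B * Sm) := mul_le_mul_of_nonneg_left (sum_sq_le hB hS hB0.le) hp0
      _ = p * B * Sm := by ring
  have hb : ∀ i a, |Y i a * c i| ≤ B := by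
    intro i a
    rw [abs_mul, abs_of_nonneg (hY0 i a)]
    calc Y i a * |c i| ≤ 1 * |c i| := mul_le_mul_of_nonneg_right (hY1 i a) (abs_nonneg _)
      _ ≤ B := by rw [one_mul]; exact hB i
  have key := bern h (fun i a => Y i a * c i) hB0 hb hV ht
  have e : ∀ ω : ι → α, ∑ i, (Y i (ω i) * c i - mean μ (fun i a => Y i a * c i) i) =
      ∑ i, (Y i (ω i) - mean μ Y i) * c i := by
    intro ω
    refine Finset.sum_congr rfl fun i _ => ?_
    have : mean μ (fun i a => Y i a * c i) i = mean μ Y i * c i := by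
      unfold mean
      rw [Finset.sum_mul]
      exact Finset.sum_congr rfl fun a _ => by ring
    rw [this]
    ring
  simp only [e] at key
  exact key

theorem mean_nonneg {μ : ι → α → ℝ} (h : IsPM μ) {Y : ι → α → ℝ} (hY0 : ∀ i a, 0 ≤ Y i a)
    (i : ι) : 0 ≤ mean μ Y i := Finset.sum_nonneg fun a _ => mul_nonneg (h.nonneg i a) (hY0 i a)

/-- **Tail for one bipartition.** -/
theorem bip_tail (h : IsPM μ) {Y : ι → α → ℝ} (hY0 : ∀ i a, 0 ≤ Y i a)
    (hY1 : ∀ i a, Y i a ≤ 1) {p : ℝ} (hp0 : 0 < p) (hp : ∀ i, mean μ Y i ≤ p)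
    {g : ι → ι → ℝ} {b D Tot t : ℝ} (hb0 : 0 < b) (hb : ∀ z z', |g z z'| ≤ b) (hD0 : 0 < D)
    (hD : ∀ z, ∑ z', |g z z'| ≤ D) (hD' : ∀ z', ∑ z, |g z z'| ≤ D)
    (hTot : ∑ z, ∑ z', |g z z'| ≤ Tot) (Su : Finset ι) (hSu : ∀ z z', z ∉ Su → g z z' = 0)
    (ht : 0 < t) (A : ι → Bool) :
    Pr μ (fun ω => lam p b D Tot t ≤ |QA Y g A ω - EA Y g μ A|) ≤
      (2 * Su.card + 6) * Real.exp (-t) := by
  have hTot0 : 0 ≤ Tot := (Finset.sum_nonneg fun z _ => Finset.sum_nonneg fun z' _ =>
    abs_nonneg (g z z')).trans hTot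
  set hs : ℝ := 4 * t * b + 2 * Real.sqrt (t * (p * b * D)) with hhs
  have hs0 : 0 < hs := by positivity
  set ss : ℝ := 4 * t * D + 2 * Real.sqrt (t * (p * D * Tot)) with hss
  have ss0 : 0 < ss := by positivity
  -- the linear coefficients
  set c1 : ι → ℝ := fun z' => ∑ z, |gA g A z z'| with hc1
  set c : ι → ℝ := fun z' => ∑ z, mean μ Y z * gA g A z z' with hc
  set hh : ι → (ι → α) → ℝ := fun z ω => ∑ z', gA g A z z' * Y z' (ω z') with hhh
  have gle : ∀ z z', |gA g A z z'| ≤ |g z z'| := abs_gA_le g A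
  have c1B : ∀ z', |c1 z'| ≤ D := by
    intro z'
    rw [abs_of_nonneg (Finset.sum_nonneg fun z _ => abs_nonneg _)]
    exact (Finset.sum_le_sum fun z _ => gle z z').trans (hD' z')
  have c1S : ∑ z', |c1 z'| ≤ Tot := by
    calc ∑ z', |c1 z'| = ∑ z', ∑ z, |gA g A z z'| := Finset.sum_congr rfl fun z' _ =>
          abs_of_nonneg (Finset.sum_nonneg fun z _ => abs_nonneg _)
      _ = ∑ z, ∑ z', |gA g A z z'| := Finset.sum_comm
      _ ≤ ∑ z, ∑ z', |g z z'| := Finset.sum_le_sum fun z _ => Finset.sum_le_sum fun z' _ => gle z z'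
      _ ≤ Tot := hTot
  have cle : ∀ z', |c z'| ≤ p * |c1 z'| := by
    intro z'
    rw [abs_of_nonneg (show 0 ≤ c1 z' from Finset.sum_nonneg fun z _ => abs_nonneg _)]
    refine (Finset.abs_sum_le_sum_abs _ _).trans ?_
    rw [hc1]
    simp only
    rw [Finset.mul_sum]
    refine Finset.sum_le_sum fun z _ => ?_
    rw [abs_mul, abs_of_nonneg (mean_nonneg h hY0 z)]
    exact mul_le_mul_of_nonneg_right (hp z) (abs_nonneg _)
  have cB : ∀ z', |c z'| ≤ p * D := fun z' =>
    (cle z').trans (mul_le_mul_of_nonneg_left (c1B z') hp0.le)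
  have cS : ∑ z', |c z'| ≤ p * Tot := by
    calc ∑ z', |c z'| ≤ ∑ z', p * |c1 z'| := Finset.sum_le_sum fun z' _ => cle z'
      _ = p * ∑ z', |c1 z'| := by rw [Finset.mul_sum]
      _ ≤ _ := mul_le_mul_of_nonneg_left c1S hp0.le
  -- the three unconditional events
  have t1 : ∀ z, Pr μ (fun ω => hs ≤ |∑ z', (Y z' (ω z') - mean μ Y z') * gA g A z z'|) ≤
      2 * Real.exp (-t) := fun z =>
    bern_lin h hY0 hY1 hp0.le hp (fun z' => gA g A z z') hb0
      (fun z' => (gle z z').trans (hb z z'))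
      ((Finset.sum_le_sum fun z' _ => gle z z').trans (hD z)) ht
  have t2 := bern_lin h hY0 hY1 hp0.le hp c1 hD0 c1B c1S ht
  have t3 := bern_lin h hY0 hY1 hp0.le hp c (mul_pos hp0 hD0) cB cS ht
  -- the good event for the outer coordinates
  set G : (ι → α) → Prop := fun ω =>
    (∀ z ∈ Su, |∑ z', (Y z' (ω z') - mean μ Y z') * gA g A z z'| < hs) ∧
    |∑ z', (Y z' (ω z') - mean μ Y z') * c1 z'| < ss with hG
  have hGbad : Pr μ (fun ω => ¬ G ω) ≤ (2 * Su.card + 2) * Real.exp (-t) := by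
    have h1 : Pr μ (fun ω => ¬ G ω) ≤
        Pr μ (fun ω => (∃ z ∈ Su, hs ≤ |∑ z', (Y z' (ω z') - mean μ Y z') * gA g A z z'|) ∨
          ss ≤ |∑ z', (Y z' (ω z') - mean μ Y z') * c1 z'|) := by
      refine Pr_mono h fun ω hω => ?_
      by_contra hcon
      push Not at hcon
      exact hω ⟨hcon.1, hcon.2⟩
    refine h1.trans ((Pr_or_le h _ _).trans ?_)
    have h2 := Pr_exists_le h Su
      (fun z ω => hs ≤ |∑ z', (Y z' (ω z') - mean μ Y z') * gA g A z z'|)
    have h3 : ∑ z ∈ Su, Pr μ (fun ω => hs ≤ |∑ z', (Y z' (ω z') - mean μ Y z') * gA g A z z'|) ≤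
        Su.card * (2 * Real.exp (-t)) := by
      rw [← nsmul_eq_mul]
      exact Finset.sum_le_card_nsmul _ _ _ fun z _ => t1 z
    have h4 : (2 * (Su.card : ℝ) + 2) * Real.exp (-t) =
        Su.card * (2 * Real.exp (-t)) + 2 * Real.exp (-t) := by ring
    rw [h4]
    exact add_le_add (h2.trans h3) t2
  -- bounds on the good event
  have hhz : ∀ ω, G ω → ∀ z, |hh z ω| ≤ p * D + hs := by
    intro ω hω z
    by_cases hz : z ∈ Su
    · have h1 : hh z ω = ∑ z', (Y z' (ω z') - mean μ Y z') * gA g A z z' +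
          ∑ z', mean μ Y z' * gA g A z z' := by
        rw [hhh, ← Finset.sum_add_distrib]
        exact Finset.sum_congr rfl fun z' _ => by ring
      have h2 : |∑ z', mean μ Y z' * gA g A z z'| ≤ p * D := by
        refine (Finset.abs_sum_le_sum_abs _ _).trans ?_
        calc ∑ z', |mean μ Y z' * gA g A z z'| ≤ ∑ z', p * |g z z'| := by
              refine Finset.sum_le_sum fun z' _ => ?_
              rw [abs_mul, abs_of_nonneg (mean_nonneg h hY0 z')]
              exact mul_le_mul (hp z') (gle z z') (abs_nonneg _) hp0.le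
          _ = p * ∑ z', |g z z'| := by rw [Finset.mul_sum]
          _ ≤ _ := mul_le_mul_of_nonneg_left (hD z) hp0.le
      rw [h1]
      refine (abs_add_le _ _).trans ?_
      have h3 := (hω.1 z hz).le
      linarith
    · have h1 : hh z ω = 0 := by
        rw [hhh]
        refine Finset.sum_eq_zero fun z' _ => ?_
        have : gA g A z z' = 0 := by
          unfold gA
          rw [hSu z z' hz]
          simp
        rw [this, zero_mul]
      rw [h1, abs_zero]
      positivity
  have hhS : ∀ ω, G ω → ∑ z, |hh z ω| ≤ p * Tot + ss := by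
    intro ω hω
    have h1 : ∑ z, |hh z ω| ≤ ∑ z', Y z' (ω z') * c1 z' := by
      calc ∑ z, |hh z ω| ≤ ∑ z, ∑ z', |gA g A z z'| * Y z' (ω z') := by
            refine Finset.sum_le_sum fun z _ => ?_
            refine (Finset.abs_sum_le_sum_abs _ _).trans (le_of_eq ?_)
            exact Finset.sum_congr rfl fun z' _ => by rw [abs_mul, abs_of_nonneg (hY0 z' _)]
        _ = ∑ z', ∑ z, |gA g A z z'| * Y z' (ω z') := Finset.sum_comm
        _ = _ := by
            refine Finset.sum_congr rfl fun z' _ => ?_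
            rw [← Finset.sum_mul, mul_comm]
    have h2 : ∑ z', Y z' (ω z') * c1 z' = ∑ z', (Y z' (ω z') - mean μ Y z') * c1 z' +
        ∑ z', mean μ Y z' * c1 z' := by
      rw [← Finset.sum_add_distrib]
      exact Finset.sum_congr rfl fun z' _ => by ring
    have h3 : ∑ z', mean μ Y z' * c1 z' ≤ p * Tot := by
      calc ∑ z', mean μ Y z' * c1 z' ≤ ∑ z', p * |c1 z'| := by
            refine Finset.sum_le_sum fun z' _ => ?_
            have : 0 ≤ c1 z' := Finset.sum_nonneg fun z _ => abs_nonneg _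
            rw [abs_of_nonneg this]
            exact mul_le_mul_of_nonneg_right (hp z') this
        _ = p * ∑ z', |c1 z'| := by rw [Finset.mul_sum]
        _ ≤ _ := mul_le_mul_of_nonneg_left c1S hp0.le
    have h4 := (le_abs_self _).trans hω.2.le
    rw [h2] at h1
    linarith
  -- the conditional event
  set P : (ι → α) → Prop := fun ω => 4 * t * (p * D + hs) +
    2 * Real.sqrt (t * (p * (p * D + hs) * (p * Tot + ss))) ≤
      |∑ z, (Y z (ω z) - mean μ Y z) * hh z ω| with hP
  have hPbad : Pr μ P ≤ (2 * Su.card + 2) * Real.exp (-t) + 2 * Real.exp (-t) := by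
    refine (Pr_split h A P G (by positivity) fun ω' hω' => ?_).trans
      (add_le_add hGbad le_rfl)
    have key := bern_lin h hY0 hY1 hp0.le hp (fun z => hh z ω')
      (show 0 < p * D + hs by positivity) (hhz ω' hω') (hhS ω' hω') ht
    refine (Pr_mono h fun ω hω => ?_).trans key
    have e1 : ∀ z, (Y z (mix A ω ω' z) - mean μ Y z) * hh z (mix A ω ω') =
        (Y z (ω z) - mean μ Y z) * hh z ω' := by
      intro z
      have e2 : hh z (mix A ω ω') = hh z ω' := by
        rw [hhh]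
        refine Finset.sum_congr rfl fun z' _ => ?_
        by_cases hz' : A z' = true
        · have : gA g A z z' = 0 := by
            unfold gA
            rw [if_neg]
            rintro ⟨-, h2⟩
            rw [hz'] at h2
            cases h2
          rw [this, zero_mul, zero_mul]
        · unfold mix
          rw [if_neg hz']
      by_cases hz : A z = true
      · rw [e2]
        unfold mix
        rw [if_pos hz]
      · have : hh z ω' = 0 := by
          rw [hhh]
          refine Finset.sum_eq_zero fun z' _ => ?_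
          have : gA g A z z' = 0 := by
            unfold gA
            rw [if_neg]
            rintro ⟨h1, -⟩
            exact hz h1
          rw [this, zero_mul]
        rw [e2, this, mul_zero, mul_zero]
    have hω2 := hω
    rw [hP] at hω2
    simp only [e1] at hω2
    exact hω2
  -- assembly
  have hdec : ∀ ω, QA Y g A ω - EA Y g μ A = ∑ z, (Y z (ω z) - mean μ Y z) * hh z ω +
      ∑ z', (Y z' (ω z') - mean μ Y z') * c z' := by
    intro ω
    have e1 : ∑ z', (Y z' (ω z') - mean μ Y z') * c z' =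
        ∑ z, ∑ z', (Y z' (ω z') - mean μ Y z') * (mean μ Y z * gA g A z z') := by
      rw [Finset.sum_comm]
      refine Finset.sum_congr rfl fun z' _ => ?_
      rw [hc, Finset.mul_sum]
    rw [e1]
    unfold QA EA
    rw [← Finset.sum_sub_distrib, ← Finset.sum_add_distrib]
    refine Finset.sum_congr rfl fun z _ => ?_
    rw [hhh]
    simp only
    rw [Finset.mul_sum, ← Finset.sum_sub_distrib, ← Finset.sum_add_distrib]
    exact Finset.sum_congr rfl fun z' _ => by ring
  have hfin : Pr μ (fun ω => lam p b D Tot t ≤ |QA Y g A ω - EA Y g μ A|) ≤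
      Pr μ (fun ω => P ω ∨ 4 * t * (p * D) + 2 * Real.sqrt (t * (p * (p * D) * (p * Tot))) ≤
        |∑ z', (Y z' (ω z') - mean μ Y z') * c z'|) := by
    refine Pr_mono h fun ω hω => ?_
    by_contra hcon
    push Not at hcon
    have h1 := hcon.1
    rw [hP] at h1
    simp only [not_le] at h1
    have h2 := hcon.2
    have h3 : |QA Y g A ω - EA Y g μ A| < lam p b D Tot t := by
      rw [hdec]
      refine lt_of_le_of_lt (abs_add_le _ _) ?_
      unfold lam
      exact add_lt_add h1 h2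
    linarith
  refine hfin.trans ((Pr_or_le h _ _).trans ?_)
  calc _ ≤ ((2 * Su.card + 2) * Real.exp (-t) + 2 * Real.exp (-t)) + 2 * Real.exp (-t) :=
        add_le_add hPbad t3
    _ = _ := by ring

/-! ## All bipartitions -/

/-- the fair coin law for the bipartition -/
noncomputable def fair : ι → Bool → ℝ := fun _ _ => 1 / 2

theorem fair_isPM : IsPM (fair (ι := ι)) :=
  ⟨fun _ _ => by unfold fair; norm_num, fun _ => by
    unfold fair
    rw [Fintype.sum_bool]
    norm_num⟩

theorem Ex_fair {z z' : ι} (hne : z ≠ z') :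
    Ex (fair (ι := ι)) (fun A => if A z = true ∧ A z' = false then (1:ℝ) else 0) = 1 / 4 := by
  set K : ι → Bool → ℝ := fun i a => if i = z then (if a = true then (1:ℝ) else 0) else
        if i = z' then (if a = false then 1 else 0) else 1 with hK
  have h1 : (fun A : ι → Bool => if A z = true ∧ A z' = false then (1:ℝ) else 0) =
      fun A => ∏ i, K i (A i) := by
    funext A
    have h2 : ∀ i ∈ (univ : Finset ι), i ∉ ({z, z'} : Finset ι) → K i (A i) = 1 := by
      intro i _ hi
      simp only [mem_insert, mem_singleton, not_or] at hi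
      simp only [hK, if_neg hi.1, if_neg hi.2]
    rw [← Finset.prod_subset (subset_univ ({z, z'} : Finset ι)) h2, Finset.prod_pair hne]
    simp only [hK, if_true, if_neg hne.symm]
    by_cases h3 : A z = true <;> by_cases h4 : A z' = false <;> simp [h3, h4]
  rw [h1, Ex_prod K]
  have h5 : ∀ i ∈ (univ : Finset ι), i ∉ ({z, z'} : Finset ι) →
      ∑ a, fair i a * K i a = 1 := by
    intro i _ hi
    simp only [mem_insert, mem_singleton, not_or] at hi
    simp only [hK, if_neg hi.1, if_neg hi.2, fair, Fintype.sum_bool]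
    norm_num
  rw [← Finset.prod_subset (subset_univ ({z, z'} : Finset ι)) h5, Finset.prod_pair hne]
  simp only [hK, if_true, if_neg hne.symm, fair, Fintype.sum_bool]
  norm_num

/-- the quadratic form -/
noncomputable def QF (Y : ι → α → ℝ) (g : ι → ι → ℝ) (ω : ι → α) : ℝ :=
  ∑ z, ∑ z', g z z' * (Y z (ω z) * Y z' (ω z'))

/-- its mean -/
noncomputable def EF (Y : ι → α → ℝ) (g : ι → ι → ℝ) (μ : ι → α → ℝ) : ℝ :=
  ∑ z, ∑ z', g z z' * (mean μ Y z * mean μ Y z')

theorem avg_bip {g : ι → ι → ℝ} (hdiag : ∀ z, g z z = 0) (F : ι → ι → ℝ) :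
    ∑ z, ∑ z', g z z' * F z z' =
      4 * Ex (fair (ι := ι)) (fun A => ∑ z, ∑ z', gA g A z z' * F z z') := by
  rw [Ex_sum, Finset.mul_sum]
  refine Finset.sum_congr rfl fun z _ => ?_
  rw [Ex_sum, Finset.mul_sum]
  refine Finset.sum_congr rfl fun z' _ => ?_
  have h1 : (fun A : ι → Bool => gA g A z z' * F z z') = fun A =>
      (if A z = true ∧ A z' = false then (1:ℝ) else 0) * (g z z' * F z z') := by
    funext A
    unfold gA
    split_ifs <;> ring
  rw [h1, Ex_mul_right]
  by_cases hne : z = z'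
  · subst hne
    rw [hdiag]
    ring
  · rw [Ex_fair hne]
    ring

/-- **Two-sided tail of a quadratic form.** -/
theorem quad_tail (h : IsPM μ) {Y : ι → α → ℝ} (hY0 : ∀ i a, 0 ≤ Y i a)
    (hY1 : ∀ i a, Y i a ≤ 1) {p : ℝ} (hp0 : 0 < p) (hp : ∀ i, mean μ Y i ≤ p)
    {g : ι → ι → ℝ} (hdiag : ∀ z, g z z = 0) {b D Tot t : ℝ} (hb0 : 0 < b)
    (hb : ∀ z z', |g z z'| ≤ b) (hD0 : 0 < D)
    (hD : ∀ z, ∑ z', |g z z'| ≤ D) (hD' : ∀ z', ∑ z, |g z z'| ≤ D)
    (hTot : ∑ z, ∑ z', |g z z'| ≤ Tot) (Su : Finset ι) (hSu : ∀ z z', z ∉ Su → g z z' = 0)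
    (ht : 0 < t) :
    Pr μ (fun ω => 4 * lam p b D Tot t + 4 * Tot * Real.exp (-(t / 2)) <
      |QF Y g ω - EF Y g μ|) ≤ (2 * Su.card + 6) * Real.exp (-(t / 2)) := by
  have hTot0 : 0 ≤ Tot := (Finset.sum_nonneg fun z _ => Finset.sum_nonneg fun z' _ =>
    abs_nonneg (g z z')).trans hTot
  have hf := fair_isPM (ι := ι)
  have hlam : 0 ≤ lam p b D Tot t := by
    unfold lam
    positivity
  set bad : (ι → Bool) → (ι → α) → Prop := fun A ω =>
    lam p b D Tot t ≤ |QA Y g A ω - EA Y g μ A| with hbad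
  set β : (ι → α) → ℝ := fun ω => Pr (fair (ι := ι)) (fun A => bad A ω) with hβ
  -- mean of the bad fraction
  have h1 : Ex μ β ≤ (2 * Su.card + 6) * Real.exp (-t) := by
    have e1 : Ex μ β = Ex (fair (ι := ι)) (fun A => Pr μ (fun ω => bad A ω)) := by
      rw [hβ]
      unfold Pr Ex
      simp only [Finset.mul_sum]
      rw [Finset.sum_comm]
      exact Finset.sum_congr rfl fun A _ => Finset.sum_congr rfl fun ω _ => by ring
    rw [e1]
    calc _ ≤ Ex (fair (ι := ι)) (fun _ => (2 * Su.card + 6) * Real.exp (-t)) :=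
          Ex_mono hf fun A => bip_tail h hY0 hY1 hp0 hp hb0 hb hD0 hD hD' hTot Su hSu ht A
      _ = _ := Ex_const hf _
  -- pointwise bound
  have h2 : ∀ ω, |QF Y g ω - EF Y g μ| ≤ 4 * lam p b D Tot t + 4 * Tot * β ω := by
    intro ω
    have e1 : QF Y g ω - EF Y g μ =
        4 * Ex (fair (ι := ι)) (fun A => QA Y g A ω - EA Y g μ A) := by
      unfold QF EF
      rw [avg_bip hdiag (fun z z' => Y z (ω z) * Y z' (ω z')),
        avg_bip hdiag (fun z z' => mean μ Y z * mean μ Y z'), ← mul_sub, ← Ex_sub]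
      rfl
    have e2 : |Ex (fair (ι := ι)) (fun A => QA Y g A ω - EA Y g μ A)| ≤
        Ex (fair (ι := ι)) (fun A => |QA Y g A ω - EA Y g μ A|) := by
      unfold Ex
      refine (Finset.abs_sum_le_sum_abs _ _).trans (le_of_eq ?_)
      exact Finset.sum_congr rfl fun A _ => by rw [abs_mul, abs_of_nonneg (wt_nonneg hf A)]
    have e3 : ∀ A, |QA Y g A ω - EA Y g μ A| ≤ Tot := by
      intro A
      unfold QA EA
      rw [← Finset.sum_sub_distrib]
      refine (Finset.abs_sum_le_sum_abs _ _).trans (le_trans (Finset.sum_le_sum fun z _ => ?_) hTot)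
      rw [← Finset.sum_sub_distrib]
      refine (Finset.abs_sum_le_sum_abs _ _).trans (Finset.sum_le_sum fun z' _ => ?_)
      rw [← mul_sub, abs_mul]
      have x0 := mul_nonneg (hY0 z (ω z)) (hY0 z' (ω z'))
      have x1 : Y z (ω z) * Y z' (ω z') ≤ 1 := by
        calc _ ≤ 1 * 1 := mul_le_mul (hY1 _ _) (hY1 _ _) (hY0 _ _) (by norm_num)
          _ = 1 := by norm_num
      have m1 : ∀ i, mean μ Y i ≤ 1 := by
        intro i
        unfold mean
        rw [← h.sum_one i]
        exact Finset.sum_le_sum fun a _ => mul_le_of_le_one_right (h.nonneg i a) (hY1 i a)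
      have y0 := mul_nonneg (mean_nonneg h hY0 z) (mean_nonneg h hY0 z')
      have y1 : mean μ Y z * mean μ Y z' ≤ 1 := by
        calc _ ≤ 1 * 1 := mul_le_mul (m1 _) (m1 _) (mean_nonneg h hY0 _) (by norm_num)
          _ = 1 := by norm_num
      have x2 : |Y z (ω z) * Y z' (ω z') - mean μ Y z * mean μ Y z'| ≤ 1 := by
        rw [abs_le]
        constructor <;> linarith
      calc _ ≤ |g z z'| * 1 := mul_le_mul (abs_gA_le g A z z') x2 (abs_nonneg _) (abs_nonneg _)
        _ = _ := mul_one _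
    have e4 : Ex (fair (ι := ι)) (fun A => |QA Y g A ω - EA Y g μ A|) ≤
        lam p b D Tot t + Tot * β ω := by
      have e5 : Ex (fair (ι := ι)) (fun A => lam p b D Tot t +
          Tot * (@ite ℝ (bad A ω) (Classical.propDecidable _) 1 0)) =
          lam p b D Tot t + Tot * β ω := by
        rw [Ex_add, Ex_const hf, Ex_mul_left]
        rfl
      rw [← e5]
      refine Ex_mono hf fun A => ?_
      by_cases hA : bad A ω
      · rw [if_pos hA, mul_one]
        linarith [e3 A]
      · rw [if_neg hA, mul_zero, add_zero]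
        exact (not_le.1 hA).le
    rw [e1, abs_mul, abs_of_nonneg (show (0:ℝ) ≤ 4 by norm_num)]
    linarith
  -- Markov
  have hβ0 : ∀ ω, 0 ≤ β ω := fun ω => Pr_nonneg hf _
  have h3 := Pr_markov h hβ0 (Real.exp_pos (-(t / 2)))
  have h4 : Pr μ (fun ω => 4 * lam p b D Tot t + 4 * Tot * Real.exp (-(t / 2)) <
      |QF Y g ω - EF Y g μ|) ≤ Pr μ (fun ω => Real.exp (-(t / 2)) ≤ β ω) := by
    refine Pr_mono h fun ω hω => ?_
    by_contra hcon
    push Not at hcon
    have h5 := h2 ω
    have h6 : 4 * Tot * β ω ≤ 4 * Tot * Real.exp (-(t / 2)) :=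
      mul_le_mul_of_nonneg_left hcon.le (by positivity)
    linarith
  refine h4.trans (h3.trans ?_)
  rw [div_le_iff₀ (Real.exp_pos _)]
  refine h1.trans (le_of_eq ?_)
  rw [mul_assoc, ← Real.exp_add]
  congr 2
  ring

/-- Explicit form of the deviation. -/
theorem lam_le {p b D Tot t : ℝ} (hp0 : 0 < p) (hb0 : 0 < b) (hD0 : 0 < D) (hT0 : 0 ≤ Tot)
    (ht : 1 ≤ t) : lam p b D Tot t ≤
      24 * t ^ 2 * ((p * D + b) + Real.sqrt (p * (p * D + b) * (p * Tot + D))) := by
  have t0 : 0 < t := by linarith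
  have amgm : ∀ x y : ℝ, 0 ≤ x → 0 ≤ y → 2 * Real.sqrt (x * y) ≤ x + y := by
    intro x y hx hy
    rw [Real.sqrt_mul hx]
    have := sq_nonneg (Real.sqrt x - Real.sqrt y)
    have h1 := Real.sq_sqrt hx
    have h2 := Real.sq_sqrt hy
    nlinarith
  have tt : t ≤ t ^ 2 := by nlinarith
  set R1 := Real.sqrt (p * (p * D + b) * (p * Tot + D)) with hR1
  have hR10 : 0 ≤ R1 := Real.sqrt_nonneg _
  have a1 : 2 * Real.sqrt (t * (p * b * D)) ≤ t * b + p * D := by
    have : t * (p * b * D) = (t * b) * (p * D) := by ring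
    rw [this]
    exact amgm _ _ (by positivity) (by positivity)
  have a2 : 2 * Real.sqrt (t * (p * D * Tot)) ≤ t * D + p * Tot := by
    have : t * (p * D * Tot) = (t * D) * (p * Tot) := by ring
    rw [this]
    exact amgm _ _ (by positivity) (by positivity)
  have hpD : 0 < p * D := mul_pos hp0 hD0
  have hpT : 0 ≤ p * Tot := mul_nonneg hp0.le hT0
  have b1 : p * D + (4 * t * b + 2 * Real.sqrt (t * (p * b * D))) ≤ 5 * t * (p * D + b) := by
    nlinarith
  have b2 : p * Tot + (4 * t * D + 2 * Real.sqrt (t * (p * D * Tot))) ≤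
      5 * t * (p * Tot + D) := by
    nlinarith
  have c1 : 0 ≤ p * D + (4 * t * b + 2 * Real.sqrt (t * (p * b * D))) := by positivity
  have c2 : 0 ≤ p * Tot + (4 * t * D + 2 * Real.sqrt (t * (p * D * Tot))) := by positivity
  have d1 : Real.sqrt (t * (p * (p * D + (4 * t * b + 2 * Real.sqrt (t * (p * b * D)))) *
      (p * Tot + (4 * t * D + 2 * Real.sqrt (t * (p * D * Tot)))))) ≤ 5 * t ^ 2 * R1 := by
    have e1 : t * (p * (p * D + (4 * t * b + 2 * Real.sqrt (t * (p * b * D)))) *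
      (p * Tot + (4 * t * D + 2 * Real.sqrt (t * (p * D * Tot))))) ≤
        (5 * t ^ 2) ^ 2 * (p * (p * D + b) * (p * Tot + D)) := by
      have e2 : (p * D + (4 * t * b + 2 * Real.sqrt (t * (p * b * D)))) *
          (p * Tot + (4 * t * D + 2 * Real.sqrt (t * (p * D * Tot)))) ≤
          5 * t * (p * D + b) * (5 * t * (p * Tot + D)) :=
        mul_le_mul b1 b2 c2 (by positivity)
      have e3 : t ^ 3 ≤ t ^ 4 := pow_le_pow_right₀ ht (by norm_num)
      have e4 : 0 ≤ p * (p * D + b) * (p * Tot + D) := by positivity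
      calc _ = t * p * ((p * D + (4 * t * b + 2 * Real.sqrt (t * (p * b * D)))) *
          (p * Tot + (4 * t * D + 2 * Real.sqrt (t * (p * D * Tot))))) := by ring
        _ ≤ t * p * (5 * t * (p * D + b) * (5 * t * (p * Tot + D))) :=
          mul_le_mul_of_nonneg_left e2 (by positivity)
        _ = 25 * t ^ 3 * (p * (p * D + b) * (p * Tot + D)) := by ring
        _ ≤ 25 * t ^ 4 * (p * (p * D + b) * (p * Tot + D)) :=
          mul_le_mul_of_nonneg_right (by linarith) e4
        _ = _ := by ring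
    refine (Real.sqrt_le_sqrt e1).trans (le_of_eq ?_)
    rw [Real.sqrt_mul (by positivity), Real.sqrt_sq (by positivity)]
  have d2 : Real.sqrt (t * (p * (p * D) * (p * Tot))) ≤ t * R1 := by
    have e1 : t * (p * (p * D) * (p * Tot)) ≤ t ^ 2 * (p * (p * D + b) * (p * Tot + D)) := by
      have e2 : p * (p * D) * (p * Tot) ≤ p * (p * D + b) * (p * Tot + D) :=
        mul_le_mul (mul_le_mul_of_nonneg_left (by linarith) hp0.le) (by linarith) hpT
          (by positivity)
      calc _ ≤ t * (p * (p * D + b) * (p * Tot + D)) := mul_le_mul_of_nonneg_left e2 t0.le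
        _ ≤ _ := mul_le_mul_of_nonneg_right tt (by positivity)
    refine (Real.sqrt_le_sqrt e1).trans (le_of_eq ?_)
    rw [Real.sqrt_mul (by positivity), Real.sqrt_sq t0.le]
  have f1 : 4 * t * (p * D + (4 * t * b + 2 * Real.sqrt (t * (p * b * D)))) ≤
      20 * t ^ 2 * (p * D + b) := by
    calc _ ≤ 4 * t * (5 * t * (p * D + b)) := mul_le_mul_of_nonneg_left b1 (by positivity)
      _ = _ := by ring
  have f2 : 4 * t * (p * D) ≤ 4 * t ^ 2 * (p * D + b) := by
    calc 4 * t * (p * D) ≤ 4 * t ^ 2 * (p * D) :=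
          mul_le_mul_of_nonneg_right (by linarith) hpD.le
      _ ≤ _ := mul_le_mul_of_nonneg_left (by linarith) (by positivity)
  have f3 : t * R1 ≤ t ^ 2 * R1 := mul_le_mul_of_nonneg_right tt hR10
  have f4 : 0 ≤ t ^ 2 * R1 := by positivity
  unfold lam
  linarith

/-- **Usable form**: failure probability `exp (-T)`. -/
theorem quad_tail' (h : IsPM μ) {Y : ι → α → ℝ} (hY0 : ∀ i a, 0 ≤ Y i a)
    (hY1 : ∀ i a, Y i a ≤ 1) {p : ℝ} (hp0 : 0 < p) (hp : ∀ i, mean μ Y i ≤ p)
    {g : ι → ι → ℝ} (hdiag : ∀ z, g z z = 0) {b D T : ℝ} (hb0 : 0 < b)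
    (hb : ∀ z z', |g z z'| ≤ b) (hD0 : 0 < D)
    (hD : ∀ z, ∑ z', |g z z'| ≤ D) (hD' : ∀ z', ∑ z, |g z z'| ≤ D)
    {Tot : ℝ} (hTot : ∑ z, ∑ z', |g z z'| ≤ Tot) (Su : Finset ι)
    (hSu : ∀ z z', z ∉ Su → g z z' = 0) (hT : 1000000 ≤ T)
    (hcard : (2 * (Su.card : ℝ) + 6) ≤ Real.exp T) (hTotb : Tot ≤ b * Real.exp T) :
    Pr μ (fun ω => T ^ 3 * ((p * D + b) + Real.sqrt (p * (p * D + b) * (p * Tot + D))) <
      |QF Y g ω - EF Y g μ|) ≤ Real.exp (-T) := by
  have hTot0 : 0 ≤ Tot := (Finset.sum_nonneg fun z _ => Finset.sum_nonneg fun z' _ =>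
    abs_nonneg (g z z')).trans hTot
  have ht : (0:ℝ) < 4 * T := by linarith
  have key := quad_tail h hY0 hY1 hp0 hp hdiag hb0 hb hD0 hD hD' hTot Su hSu ht
  have e1 : -(4 * T / 2) = -T + -T := by ring
  have h1 : 4 * lam p b D Tot (4 * T) + 4 * Tot * Real.exp (-(4 * T / 2)) ≤
      T ^ 3 * ((p * D + b) + Real.sqrt (p * (p * D + b) * (p * Tot + D))) := by
    have h2 := lam_le hp0 hb0 hD0 hTot0 (show 1 ≤ 4 * T by linarith)
    set R1 := Real.sqrt (p * (p * D + b) * (p * Tot + D)) with hR1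
    have hR10 : 0 ≤ R1 := Real.sqrt_nonneg _
    have h3 : 4 * Tot * Real.exp (-(4 * T / 2)) ≤ 4 * b := by
      rw [e1, Real.exp_add]
      have h4 : Real.exp T * Real.exp (-T) = 1 := by rw [← Real.exp_add]; simp
      have h5 : Real.exp (-T) ≤ 1 := Real.exp_le_one_iff.2 (by linarith)
      have h6 : 0 < Real.exp (-T) := Real.exp_pos _
      calc 4 * Tot * (Real.exp (-T) * Real.exp (-T)) ≤
            4 * (b * Real.exp T) * (Real.exp (-T) * 1) :=
            mul_le_mul (by linarith) (mul_le_mul_of_nonneg_left h5 h6.le) (by positivity)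
              (by positivity)
        _ = 4 * b * (Real.exp T * Real.exp (-T)) := by ring
        _ = 4 * b := by rw [h4, mul_one]
    have h7 : 0 < p * D := mul_pos hp0 hD0
    have h8 : 96 * (4 * T) ^ 2 + 4 ≤ T ^ 3 := by
      have : T ^ 3 = T * T ^ 2 := by ring
      rw [this]
      nlinarith [sq_nonneg T]
    have h9 : (96 * (4 * T) ^ 2 + 4) * ((p * D + b) + R1) ≤ T ^ 3 * ((p * D + b) + R1) :=
      mul_le_mul_of_nonneg_right h8 (by positivity)
    nlinarith
  refine (Pr_mono h fun ω hω => lt_of_le_of_lt h1 hω).trans (key.trans ?_)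
  rw [e1, Real.exp_add]
  have h4 : Real.exp T * Real.exp (-T) = 1 := by rw [← Real.exp_add]; simp
  calc (2 * (Su.card : ℝ) + 6) * (Real.exp (-T) * Real.exp (-T)) ≤
        Real.exp T * (Real.exp (-T) * Real.exp (-T)) :=
        mul_le_mul_of_nonneg_right hcard (by positivity)
    _ = Real.exp T * Real.exp (-T) * Real.exp (-T) := by ring
    _ = Real.exp (-T) := by rw [h4, one_mul]

end bip

end

end Pool.Agent.AcyG
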