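import Pool.Agent.AcyG.BasicA
import Pool.Agent.AcyG.LamB
import Pool.Agent.AcyG.Quad
import Pool.Agent.Acy.CountT

/-! # Probability estimates for the quadratic tests (row GEY) -/

set_option autoImplicit false
set_option linter.unusedSectionVars false

namespace Pool.Agent.AcyG

open Finset
open Pool.Agent.Acy (IsPM wt Ex Pr mean cnt Holds count_tail indep_tail Pr_mono)
open Pool.Agent.AcyK (Big StepOK prodLaw Un Sel updCol)
open scoped Classical

universe u v

section generic

variable {Q : Type*} [Fintype Q] [DecidableEq Q] {α : Type*} [Fintype α] [DecidableEq α]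

/-- Counting lemma with at most three conditions per configuration, with the sharper factor. -/
theorem count_T3 {T : ℝ} (hT : Pool.Agent.Acy.Big T) {μ : Q → α → ℝ} (h : IsPM μ) {κ : Type*}
    [Fintype κ] (π : Q → α → ℝ) (hπ : ∀ i a, μ i a ≤ π i a) (w : κ → ℝ) (hw : ∀ U, 0 ≤ w U)
    (cd : κ → Finset (Q × α)) (hr : ∀ U, (cd U).card ≤ 3) (M : ℝ) (hM : 0 < M)
    (hext : ∀ W : Finset (Q × α), W.card ≤ 3 → Pool.Agent.Acy.ext π w cd W ≤ M) :
    Pr μ (fun ω => 1029 * T ^ 3 * M ≤ cnt w cd ω) ≤ Real.exp (-(2 * T)) := by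
  have hTb := hT.big
  have hT0 : (0 : ℝ) < T := by linarith
  have hm1 : 2 * T ≤ (⌈2 * T⌉₊ : ℝ) := Nat.le_ceil _
  have hm2 : (⌈2 * T⌉₊ : ℝ) < 2 * T + 1 := Nat.ceil_lt_add_one (by linarith)
  have key := count_tail h π hπ w hw cd 3 hr M hM hext ⌈2 * T⌉₊
  refine le_trans (Pr_mono h fun ω hω => ?_) (key.trans (Real.exp_le_exp.mpr (by linarith)))
  refine le_trans (mul_le_mul_of_nonneg_right ?_ hM.le) hω
  have h1 : ((3 * ⌈2 * T⌉₊ + 1 : ℕ) : ℝ) ≤ 7 * T := by
    push_cast
    linarith
  have h2 : ((3 * ⌈2 * T⌉₊ + 1 : ℕ) : ℝ) ^ 3 ≤ (7 * T) ^ 3 :=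
    pow_le_pow_left₀ (Nat.cast_nonneg _) h1 3
  have he : Real.exp 1 ≤ 3 := by
    have := Real.exp_one_lt_d9
    linarith
  calc Real.exp 1 * ((3 * ⌈2 * T⌉₊ + 1 : ℕ) : ℝ) ^ 3 ≤ 3 * (7 * T) ^ 3 :=
        mul_le_mul he h2 (by positivity) (by norm_num)
    _ = 1029 * T ^ 3 := by ring

/-- Weighted counts of single picks. -/
theorem single_tail {T : ℝ} (hT : Big T) {μ : Q → α → ℝ} (h : IsPM μ) (g : Q → α → ℝ)
    (hg : ∀ u c, 0 ≤ g u c) (M : ℝ) (hM : 0 < M) (h0 : ∑ u, ∑ c, g u c * μ u c ≤ M)
    (h1 : ∀ u c, g u c ≤ M) :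
    Pr μ (fun ω => T ^ 4 * M ≤ ∑ u, g u (ω u)) ≤ Real.exp (-(2 * T)) := by
  let w : Q × α → ℝ := fun U => g U.1 U.2
  let cd : Q × α → Finset (Q × α) := fun U => {U}
  have hcnt : ∀ ω : Q → α, ∑ u, g u (ω u) = cnt w cd ω := by
    intro ω
    unfold cnt
    rw [Fintype.sum_prod_type]
    refine Finset.sum_congr rfl fun u _ => ?_
    rw [Finset.sum_eq_single (ω u)]
    · have hh : Holds (cd (u, ω u)) ω := by
        intro q hq
        rw [mem_singleton] at hq
        rw [hq]
      rw [if_pos hh]
    · intro c _ hc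
      rw [if_neg]
      intro hh
      exact hc (hh (u, c) (mem_singleton_self _)).symm
    · intro h
      exact absurd (mem_univ _) h
  have ht := Pool.Agent.Acy.count_T hT.old h μ (fun i a => le_rfl) w (fun U => hg _ _) cd
    (fun U => by simp only [cd, card_singleton]; norm_num) M hM (by
      intro W _
      unfold Pool.Agent.Acy.ext
      by_cases hW : W = ∅
      · subst hW
        calc _ = ∑ U : Q × α, w U * μ U.1 U.2 := by
              refine Finset.sum_congr rfl fun U _ => ?_
              rw [if_pos (empty_subset _), sdiff_empty]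
              simp only [cd, prod_singleton]
          _ = ∑ u, ∑ c, g u c * μ u c := by rw [Fintype.sum_prod_type]
          _ ≤ _ := h0
      · obtain ⟨q, hq⟩ := nonempty_iff_ne_empty.2 hW
        calc _ ≤ ∑ U : Q × α, (if U = q then w q else 0) := by
              refine Finset.sum_le_sum fun U _ => ?_
              by_cases hU : U = q
              · subst hU
                rw [if_pos rfl]
                split_ifs with h
                · have : cd U \ W = ∅ := by
                    rw [sdiff_eq_empty_iff_subset]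
                    intro z hz
                    simp only [cd, mem_singleton] at hz
                    rw [hz]; exact hq
                  rw [this, prod_empty, mul_one]
                · exact hg _ _
              · rw [if_neg hU, if_neg]
                intro h
                have := h hq
                simp only [cd, mem_singleton] at this
                exact hU this.symm
          _ = w q := by simp
          _ ≤ _ := h1 _ _)
  simpa only [hcnt] using ht

/-- Weighted counts of pairs of equal picks. -/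
theorem pair_tail3 {T : ℝ} (hT : Big T) {μ : Q → α → ℝ} (h : IsPM μ) (π : ℝ) (hπ0 : 0 ≤ π)
    (hπ : ∀ i a, μ i a ≤ π) (g : Q → Q → α → ℝ) (hg : ∀ u u' c, 0 ≤ g u u' c)
    (hgd : ∀ u c, g u u c = 0) (M : ℝ) (hM : 0 < M)
    (h0 : ∑ u, ∑ u', ∑ c, g u u' c * π ^ 2 ≤ M)
    (h1 : ∀ u c, ∑ u', g u u' c * π ≤ M / 2) (h1' : ∀ u c, ∑ u', g u' u c * π ≤ M / 2)
    (h2 : ∀ u u' c, g u u' c ≤ M / 2) :
    Pr μ (fun ω => 1029 * T ^ 3 * M ≤ ∑ u, ∑ u', if ω u = ω u' then g u u' (ω u) else 0) ≤
      Real.exp (-(2 * T)) := by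
  let w : Q × Q × α → ℝ := fun U => g U.1 U.2.1 U.2.2
  let cd : Q × Q × α → Finset (Q × α) := fun U => {(U.1, U.2.2), (U.2.1, U.2.2)}
  have hw : ∀ U, 0 ≤ w U := fun U => hg _ _ _
  have hHolds : ∀ (ω : Q → α) (u u' : Q) (c : α),
      Holds (cd (u, u', c)) ω ↔ ω u = c ∧ ω u' = c := by
    intro ω u u' c
    constructor
    · intro hh
      exact ⟨hh (u, c) (by simp [cd]), hh (u', c) (by simp [cd])⟩
    · rintro ⟨ha, hb⟩ z hz
      simp only [cd, mem_insert, mem_singleton] at hz
      rcases hz with rfl | rfl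
      · exact ha
      · exact hb
  have hcnt : ∀ ω : Q → α, (∑ u, ∑ u', if ω u = ω u' then g u u' (ω u) else 0) =
      cnt w cd ω := by
    intro ω
    unfold cnt
    rw [Fintype.sum_prod_type]
    refine Finset.sum_congr rfl fun u _ => ?_
    rw [Fintype.sum_prod_type]
    refine Finset.sum_congr rfl fun u' _ => ?_
    simp only [hHolds]
    rw [Finset.sum_eq_single (ω u)]
    · by_cases hu : ω u = ω u'
      · rw [if_pos hu, if_pos ⟨rfl, hu.symm⟩]
      · rw [if_neg hu, if_neg]
        rintro ⟨-, h⟩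
        exact hu h.symm
    · intro c _ hc
      rw [if_neg]
      rintro ⟨h, -⟩
      exact hc h.symm
    · intro h
      exact absurd (mem_univ _) h
  have hne : ∀ U, U.1 = U.2.1 → w U = 0 := by
    rintro ⟨u, u', c⟩ hU
    simp only at hU
    subst hU
    exact hgd u c
  have hcard : ∀ U : Q × Q × α, U.1 ≠ U.2.1 → (cd U).card = 2 := by
    intro U hU
    simp only [cd]
    rw [card_pair]
    intro h
    exact hU (Prod.ext_iff.1 h).1
  have ht := count_T3 hT.old h (fun _ _ => π) hπ w hw cd
    (fun U => by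
      refine (card_insert_le _ _).trans ?_
      rw [card_singleton]
      norm_num) M hM (by
      intro W _
      unfold Pool.Agent.Acy.ext
      simp only [prod_const]
      rcases lt_trichotomy W.card 1 with hc | hc | hc
      · -- no condition
        have hW : W = ∅ := card_eq_zero.1 (by omega)
        subst hW
        calc _ ≤ ∑ U : Q × Q × α, w U * π ^ 2 := by
              refine Finset.sum_le_sum fun U _ => ?_
              rw [if_pos (empty_subset _), sdiff_empty]
              by_cases hU : U.1 = U.2.1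
              · rw [hne U hU, zero_mul, zero_mul]
              · rw [hcard U hU]
          _ = ∑ u, ∑ u', ∑ c, g u u' c * π ^ 2 := by
              simp only [Fintype.sum_prod_type, w]
          _ ≤ M := h0
      · -- one condition
        obtain ⟨q, hq⟩ := card_eq_one.1 hc
        subst hq
        calc _ ≤ ∑ U : Q × Q × α,
              ((if U.1 = q.1 ∧ U.2.2 = q.2 then w U * π else 0) +
               (if U.2.1 = q.1 ∧ U.2.2 = q.2 then w U * π else 0)) := by
              refine Finset.sum_le_sum fun U _ => ?_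
              have hn : 0 ≤ w U * π := mul_nonneg (hw U) hπ0
              have hn1 : (0 : ℝ) ≤ if U.1 = q.1 ∧ U.2.2 = q.2 then w U * π else 0 := by
                split_ifs
                · exact hn
                · exact le_rfl
              have hn2 : (0 : ℝ) ≤ if U.2.1 = q.1 ∧ U.2.2 = q.2 then w U * π else 0 := by
                split_ifs
                · exact hn
                · exact le_rfl
              by_cases h : {q} ⊆ cd U
              · rw [if_pos h]
                by_cases hU : U.1 = U.2.1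
                · rw [hne U hU, zero_mul, zero_mul]
                  simp
                · have h2 : (cd U \ {q}).card = 1 := by
                    rw [card_sdiff_of_subset h, card_singleton, hcard U hU]
                  rw [h2, pow_one]
                  have h3 : q ∈ cd U := h (mem_singleton_self q)
                  simp only [cd, mem_insert, mem_singleton] at h3
                  rcases h3 with h3 | h3
                  · rw [if_pos (by rw [h3]; exact ⟨rfl, rfl⟩)]
                    linarith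
                  · rw [if_pos (c := U.2.1 = q.1 ∧ U.2.2 = q.2) (by rw [h3]; exact ⟨rfl, rfl⟩)]
                    linarith
              · rw [if_neg h]
                linarith
          _ = ∑ u', g q.1 u' q.2 * π + ∑ u, g u q.1 q.2 * π := by
              rw [Finset.sum_add_distrib]
              congr 1
              · simp only [Fintype.sum_prod_type, w]
                rw [Finset.sum_eq_single q.1]
                · refine Finset.sum_congr rfl fun u' _ => ?_
                  rw [Finset.sum_eq_single q.2]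
                  · simp
                  · intro c _ hc
                    simp [hc]
                  · intro h; exact absurd (mem_univ _) h
                · intro u _ hu
                  simp [hu]
                · intro h; exact absurd (mem_univ _) h
              · simp only [Fintype.sum_prod_type, w]
                refine Finset.sum_congr rfl fun u _ => ?_
                rw [Finset.sum_eq_single q.1]
                · rw [Finset.sum_eq_single q.2]
                  · simp
                  · intro c _ hc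
                    simp [hc]
                  · intro h; exact absurd (mem_univ _) h
                · intro u' _ hu'
                  simp [hu']
                · intro h; exact absurd (mem_univ _) h
          _ ≤ M := by
              have := h1 q.1 q.2
              have := h1' q.1 q.2
              linarith
      · -- both conditions
        obtain ⟨q, hq, q', hq', hne'⟩ := one_lt_card.1 hc
        calc _ ≤ ∑ U : Q × Q × α,
              ((if U = (q.1, q'.1, q.2) then w U else 0) +
               (if U = (q'.1, q.1, q.2) then w U else 0)) := by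
              refine Finset.sum_le_sum fun U _ => ?_
              have hn1 : (0 : ℝ) ≤ if U = (q.1, q'.1, q.2) then w U else 0 := by
                split_ifs
                · exact hw U
                · exact le_rfl
              have hn2 : (0 : ℝ) ≤ if U = (q'.1, q.1, q.2) then w U else 0 := by
                split_ifs
                · exact hw U
                · exact le_rfl
              by_cases h : W ⊆ cd U
              · rw [if_pos h]
                have h1 : cd U \ W = ∅ := by
                  rw [← card_eq_zero]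
                  rw [card_sdiff_of_subset h]
                  have : (cd U).card ≤ 2 := by
                    refine (card_insert_le _ _).trans ?_
                    rw [card_singleton]
                  omega
                rw [h1, card_empty, pow_zero, mul_one]
                have h3 := h hq
                have h4 := h hq'
                simp only [cd, mem_insert, mem_singleton] at h3 h4
                rcases h3 with h3 | h3 <;> rcases h4 with h4 | h4
                · exact absurd (h3.trans h4.symm) hne'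
                · have : U = (q.1, q'.1, q.2) := by rw [h3, h4]
                  rw [if_pos this]
                  linarith
                · have : U = (q'.1, q.1, q.2) := by rw [h3, h4]
                  rw [if_pos (c := U = (q'.1, q.1, q.2)) this]
                  linarith
                · exact absurd (h3.trans h4.symm) hne'
              · rw [if_neg h]
                linarith
          _ = w (q.1, q'.1, q.2) + w (q'.1, q.1, q.2) := by
              rw [Finset.sum_add_distrib]
              simp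
          _ ≤ M := by
              have := h2 q.1 q'.1 q.2
              have := h2 q'.1 q.1 q.2
              simp only [w]
              linarith)
  simpa only [hcnt] using ht

/-- Bernstein's inequality with the large parameter. -/
theorem ey_bern_T {T : ℝ} (hT : Big T) {μ : Q → α → ℝ} (h : IsPM μ) (Y : Q → α → ℝ) {b V δ : ℝ}
    (hb : ∀ i a, |Y i a| ≤ b) (hV : ∑ i, ∑ a, μ i a * Y i a ^ 2 ≤ V)
    (hδ : 8 * T * b + 2 * Real.sqrt (2 * T * V) ≤ δ) (hb0 : 0 ≤ b) :
    Pr μ (fun ω => ¬ |∑ i, (Y i (ω i) - mean μ Y i)| ≤ δ) ≤ Real.exp (-T) := by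
  have hT0 := hT.pos
  have hTb := hT.big
  rcases hb0.eq_or_lt with hb0 | hb0
  · have hY : ∀ i a, Y i a = 0 := by
      intro i a
      have := hb i a
      rw [← hb0] at this
      exact abs_eq_zero.1 (le_antisymm this (abs_nonneg _))
    have hδ0 : 0 ≤ δ := by
      have := Real.sqrt_nonneg (2 * T * V)
      rw [← hb0] at hδ
      linarith
    have h0 : ∀ ω : Q → α, ∑ i, (Y i (ω i) - mean μ Y i) = 0 := by
      intro ω
      refine Finset.sum_eq_zero fun i _ => ?_
      unfold mean
      simp [hY]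
    have h1 : Pr μ (fun ω => ¬ |∑ i, (Y i (ω i) - mean μ Y i)| ≤ δ) =
        Pr μ (fun _ => False) := by
      congr 1
      funext ω
      rw [h0 ω, abs_zero]
      simp [hδ0]
    rw [h1]
    unfold Pr Ex
    simp [(Real.exp_pos _).le]
  · refine (Pr_mono h fun ω hω => ?_).trans ((bern h Y hb0 hb hV
      (show (0:ℝ) < 2 * T by linarith)).trans ?_)
    · refine le_trans ?_ (not_le.1 hω).le
      refine le_trans (le_of_eq ?_) hδ
      ring
    · have h2 : (2 : ℝ) ≤ Real.exp T := by
        have := Real.add_one_le_exp T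
        linarith
      have h3 : Real.exp (-T) = Real.exp T * Real.exp (-(2 * T)) := by
        rw [← Real.exp_add]
        congr 1
        ring
      rw [h3]
      exact mul_le_mul_of_nonneg_right h2 (Real.exp_pos _).le

theorem ey_sqrt_bd {V a b : ℝ} (ha : 0 ≤ a) (hb : 0 ≤ b) (h : V ≤ a ^ 2 + b ^ 2) :
    Real.sqrt V ≤ a + b := by
  refine Real.sqrt_le_iff.2 ⟨by linarith, h.trans ?_⟩
  nlinarith [mul_nonneg ha hb]

theorem ey_pwc {T : ℝ} (hT : Big T) {c : ℝ} (hc : c ≤ 10 ^ 6) {a b : ℕ} (h : a + 1 ≤ b) :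
    c * T ^ a ≤ T ^ b := by
  have hT0 := hT.pos
  calc c * T ^ a ≤ T * T ^ a := mul_le_mul_of_nonneg_right (hc.trans hT.big) (by positivity)
    _ = T ^ (a + 1) := by rw [← pow_succ']
    _ ≤ T ^ b := hT.pw h

theorem ey_ipwc {T : ℝ} (hT : Big T) {c x : ℝ} (hc : c ≤ 10 ^ 6) (hx : 0 ≤ x) {a b : ℕ}
    (h : a + 1 ≤ b) : c * (x / T ^ b) ≤ x / T ^ a := by
  have hT0 := hT.pos
  rw [mul_div_assoc', div_le_div_iff₀ (by positivity) (by positivity)]
  calc c * x * T ^ a = x * (c * T ^ a) := by ring
    _ ≤ x * T ^ b := mul_le_mul_of_nonneg_left (ey_pwc hT hc h) hx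

theorem ey_sum3_swap (g : Q → Q → α → ℝ) (κ : ℝ) :
    ∑ u, ∑ u', ∑ c, g u u' c * κ = ∑ c, ∑ u, (∑ u', g u u' c) * κ := by
  calc ∑ u, ∑ u', ∑ c, g u u' c * κ = ∑ u, ∑ c, ∑ u', g u u' c * κ :=
        Finset.sum_congr rfl fun u _ => Finset.sum_comm
    _ = ∑ c, ∑ u, ∑ u', g u u' c * κ := Finset.sum_comm
    _ = ∑ c, ∑ u, (∑ u', g u u' c) * κ := by simp only [Finset.sum_mul]

theorem ey_algW {A B x : ℝ} (hA : 0 < A) (hB : 0 < B) :
    A * (A * x) * (1 / (A * (A * B))) = x / B := by
  field_simp

theorem ey_algX {A B C x : ℝ} (hA : 0 < A) (hB : 0 < B) (hC : 0 < C) :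
    A * (B * x * (1 / (A * (B * C)))) = x / C := by
  field_simp

theorem ey_algV {A B x y : ℝ} (hA : 0 < A) (hB : 0 < B) :
    1 / (A * B) * x * (A * y) = x * y / B := by
  field_simp

theorem ey_alg12 {T A B C E x y : ℝ} (hB : 0 < B) (hC : 0 < C) (hE : 0 < E) (h : C = T * A) :
    2 * T * (A * B * (x + y / (C * E)) * y / B) = 2 * C * (x * y) + 2 * (y ^ 2 / E) := by
  have h1 : A * B * (x + y / (C * E)) * y / B = A * (x + y / (C * E)) * y := by
    field_simp
  have h2 : C * (y / (C * E)) = y / E := by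
    field_simp
  rw [h1]
  calc 2 * T * (A * (x + y / (C * E)) * y) = 2 * (T * A) * (x * y) +
        2 * (T * A * (y / (C * E)) * y) := by ring
    _ = 2 * C * (x * y) + 2 * (y ^ 2 / E) := by
        rw [← h, h2]
        ring

theorem ey_Pr_zero_of {μ : Q → α → ℝ} {P : (Q → α) → Prop} (hP : ∀ ω, ¬ P ω) {x : ℝ} (hx : 0 ≤ x) :
    Pr μ P ≤ x := by
  have : Pr μ P = 0 := by
    unfold Pr Ex
    refine Finset.sum_eq_zero fun ω _ => ?_
    simp only [if_neg (hP ω), mul_zero]
  rw [this]
  exact hx

end generic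

namespace NibData

variable {Q ι : Type u} [Fintype Q] [DecidableEq Q] [Fintype ι] [DecidableEq ι]
  {D : NibData Q ι}

/-- Weight of the coloured vertices seen from the uncoloured vertices related to `u`. -/
noncomputable def nN (D : NibData Q ι) (S : NState Q D.k) (lam : Q → Option Bool) (i : ι)
    (u : Q) (c : Fin D.k) : ℝ :=
  ∑ z ∈ D.U1 S lam, if u ∈ D.R z then |D.nw S i z c| else 0

theorem nN_nonneg (S : NState Q D.k) (lam : Q → Option Bool) (i : ι) (u : Q) (c : Fin D.k) :
    0 ≤ D.nN S lam i u c := by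
  unfold nN
  refine Finset.sum_nonneg fun z _ => ?_
  split_ifs
  · exact abs_nonneg _
  · exact le_rfl

theorem er_split (D : NibData Q ι) (i : ι) : D.er i =
    D.gs i / D.T ^ 190 + D.T ^ 170 * D.gm i + D.T ^ 30 * Real.sqrt (D.gm i * D.gs i) := rfl

variable (hD : D.Ok) {S : NState Q D.k} {m : ℕ} (hI : D.Inv S m) (hm : m < D.M)
  {lam : Q → Option Bool} (hA : D.GoodA S m lam)

include hD in
theorem two_T_div_k : 2 * D.T / D.k ≤ 1 / D.T ^ 3997 := by
  have hT := hD.big
  have hT0 := hT.pos
  rw [div_le_div_iff₀ (k_pos' hD) (by positivity), one_mul]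
  refine le_trans ?_ hD.k_lo
  have h1 := hT.big
  calc 2 * D.T * D.T ^ 3997 ≤ D.T ^ 2 * D.T ^ 3997 := by
        have : 2 * D.T ≤ D.T ^ 2 := by nlinarith
        gcongr
    _ = D.T ^ 3999 := by rw [← pow_add]

include hD in
theorem ey_g_zero {i : ι} (h : D.gm i = 0) (z : Q) : D.g i z = 0 :=
  le_antisymm ((hD.g_le i z).trans h.le) (hD.g_nonneg i z)

include hD in
theorem ey_w_zero {i : ι} (h : D.gm i = 0) (z z' : Q) : D.w i z z' = 0 :=
  abs_eq_zero.1 (le_antisymm ((w_le hD i z z').trans (ey_g_zero hD h z).le) (abs_nonneg _))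

include hD in
theorem ey_nw_zero {i : ι} (h : D.gm i = 0) (z : Q) (c : Fin D.k) : D.nw S i z c = 0 := by
  unfold nw
  exact Finset.sum_eq_zero fun z' _ => by simp [ey_w_zero hD h]

include hD in
theorem ey_sum_g_le (i : ι) (A : Finset Q) : ∑ z ∈ A, D.g i z ≤ D.gs i :=
  (Finset.sum_le_sum_of_subset_of_nonneg (Finset.subset_univ A)
    fun z _ _ => hD.g_nonneg i z).trans (hD.g_sum i)

include hD hI hm

theorem nN_le (i : ι) (u : Q) (c : Fin D.k) :
    D.nN S lam i u c ≤ D.T ^ 154 * (D.gm i + D.gs i / D.T ^ 3990) := by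
  refine le_trans ?_ (ng_le hD hI hm.le i c)
  refine le_trans ?_ (nw_col hD hI hm.le i c)
  unfold nN
  calc ∑ z ∈ D.U1 S lam, (if u ∈ D.R z then |D.nw S i z c| else 0)
      ≤ ∑ z ∈ D.U1 S lam, |D.nw S i z c| := by
        refine Finset.sum_le_sum fun z _ => ?_
        split_ifs
        · exact le_rfl
        · exact abs_nonneg _
    _ ≤ ∑ z, |D.nw S i z c| :=
        Finset.sum_le_sum_of_subset_of_nonneg (Finset.subset_univ _) fun z _ _ => abs_nonneg _

include hA

theorem ey_RL_sum (z : Q) (x : ℝ) : ∑ u ∈ D.LL S lam, (if u ∈ D.R z then x else 0) =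
    ((D.R z ∩ D.LL S lam).card : ℝ) * x := by
  rw [← Finset.sum_filter, Finset.sum_const, nsmul_eq_mul]
  congr 3
  ext u
  simp only [mem_filter, mem_inter]
  tauto

theorem sum_nN (i : ι) : ∑ u ∈ D.LL S lam, ∑ c, D.nN S lam i u c ≤ D.T ^ 3885 * D.gs i := by
  have hT0 := hD.big.pos
  unfold nN
  have h1 : (∑ u ∈ D.LL S lam, ∑ c, ∑ z ∈ D.U1 S lam,
      if u ∈ D.R z then |D.nw S i z c| else 0) =
      ∑ z ∈ D.U1 S lam, ∑ c, ((D.R z ∩ D.LL S lam).card : ℝ) * |D.nw S i z c| := by
    rw [Finset.sum_comm]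
    have h2 : ∀ c, (∑ u ∈ D.LL S lam, ∑ z ∈ D.U1 S lam,
        if u ∈ D.R z then |D.nw S i z c| else 0) =
        ∑ z ∈ D.U1 S lam, ((D.R z ∩ D.LL S lam).card : ℝ) * |D.nw S i z c| := by
      intro c
      rw [Finset.sum_comm]
      exact Finset.sum_congr rfl fun z _ => ey_RL_sum hD hI hm hA z _
    simp only [h2]
    rw [Finset.sum_comm]
  rw [h1]
  calc ∑ z ∈ D.U1 S lam, ∑ c, ((D.R z ∩ D.LL S lam).card : ℝ) * |D.nw S i z c|
      ≤ ∑ z ∈ D.U1 S lam, D.T ^ 3885 * D.g i z := by
        refine Finset.sum_le_sum fun z _ => ?_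
        rw [← Finset.mul_sum]
        have h3 := RV_card hD hI hm hA z
        have h4 := nw_sum hD hI hm.le i z
        exact mul_le_mul h3 h4 (Finset.sum_nonneg fun c _ => abs_nonneg _) (by positivity)
    _ ≤ D.T ^ 3885 * D.gs i := by
        rw [← Finset.mul_sum]
        exact mul_le_mul_of_nonneg_left (ey_sum_g_le hD i _) (by positivity)

theorem e12_tail (i : ι) : Pr (D.p S)
    (fun ω => ¬ |D.cen S (D.Y12 S lam i) ω| ≤ D.er i / 10) ≤ Real.exp (-D.T) := by
  have hT := hD.big.big
  have hT0 := hD.big.pos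
  have hT1 := hD.big.one_le
  have hp := p_isPM hD hI hm.le
  have hgm := hD.gm_nonneg i
  have hgs := gs_nonneg hD i
  set β : ℝ := D.T ^ 154 * (D.gm i + D.gs i / D.T ^ 3990) with hβ
  have hβ0 : 0 ≤ β := by positivity
  have hY : ∀ u c, |D.Y12 S lam i u c| ≤ if u ∈ D.LL S lam then
      D.T ^ 2 * D.nN S lam i u c else 0 := by
    intro u c
    unfold Y12
    split_ifs with hu
    · refine (Finset.abs_sum_le_sum_abs _ _).trans ?_
      unfold nN
      rw [Finset.mul_sum]
      refine Finset.sum_le_sum fun z _ => ?_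
      split_ifs with h2 h3 h3
      · rw [abs_mul, abs_mul, mul_assoc, sq, mul_comm]
        refine mul_le_mul_of_nonneg_right ?_ (abs_nonneg _)
        exact mul_le_mul (v_abs hD hI hm.le z c) (K_abs hD u z) (abs_nonneg _) hT0.le
      · rw [hD.K_off u z (fun h => h3 (Finset.mem_filter.2 ⟨mem_univ _, h⟩)),
          mul_zero, abs_zero, mul_zero]
      · rw [abs_zero]; positivity
      · rw [abs_zero]; simp
    · rw [abs_zero]
  refine ey_bern_T hD.big hp (D.Y12 S lam i) (b := D.T ^ 2 * β)
    (V := β * D.gs i / D.T ^ 108) (fun u c => (hY u c).trans ?_) ?_ ?_ (by positivity)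
  · split_ifs
    · exact mul_le_mul_of_nonneg_left (nN_le hD hI hm i u c) (by positivity)
    · positivity
  · have h1 : ∀ u, ∑ c, D.p S u c * D.Y12 S lam i u c ^ 2 ≤
        if u ∈ D.LL S lam then (1 / D.T ^ 3993 * β) * ∑ c, D.nN S lam i u c else 0 := by
      intro u
      by_cases hu : u ∈ D.LL S lam
      · rw [if_pos hu, Finset.mul_sum]
        refine Finset.sum_le_sum fun c _ => ?_
        have h3 := hY u c
        rw [if_pos hu] at h3
        have hn := nN_nonneg (D := D) S lam i u c
        have h4 : D.Y12 S lam i u c ^ 2 ≤ (D.T ^ 2 * D.nN S lam i u c) ^ 2 := by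
          rw [← sq_abs]
          exact pow_le_pow_left₀ (abs_nonneg _) h3 2
        have h10 : D.p S u c ≤ 1 / D.T ^ 3997 :=
          (p_le hD hI hm.le u c).trans (two_T_div_k hD)
        calc D.p S u c * D.Y12 S lam i u c ^ 2 ≤
            1 / D.T ^ 3997 * (D.T ^ 2 * D.nN S lam i u c) ^ 2 :=
              mul_le_mul h10 h4 (sq_nonneg _) (by positivity)
          _ = 1 / D.T ^ 3993 * D.nN S lam i u c * D.nN S lam i u c := by
              have : D.T ^ 3997 = D.T ^ 3993 * D.T ^ 4 := by rw [← pow_add]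
              rw [this]
              field_simp
          _ ≤ 1 / D.T ^ 3993 * β * D.nN S lam i u c := by
              have := nN_le hD hI hm (lam := lam) i u c
              gcongr
      · rw [if_neg hu]
        refine le_of_eq (Finset.sum_eq_zero fun c _ => ?_)
        unfold Y12
        rw [if_neg hu]
        ring
    calc _ ≤ ∑ u, (if u ∈ D.LL S lam then (1 / D.T ^ 3993 * β) * ∑ c, D.nN S lam i u c
          else 0) := Finset.sum_le_sum fun u _ => h1 u
      _ = (1 / D.T ^ 3993 * β) * ∑ u ∈ D.LL S lam, ∑ c, D.nN S lam i u c := by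
          rw [← Finset.sum_filter, Finset.filter_mem_eq_inter, Finset.univ_inter, Finset.mul_sum]
      _ ≤ (1 / D.T ^ 3993 * β) * (D.T ^ 3885 * D.gs i) :=
          mul_le_mul_of_nonneg_left (sum_nN hD hI hm hA i) (by positivity)
      _ = β * D.gs i / D.T ^ 108 := by
          have e : D.T ^ 3993 = D.T ^ 3885 * D.T ^ 108 := by rw [← pow_add]
          rw [e]
          exact ey_algV (by positivity) (by positivity)
  · set s : ℝ := Real.sqrt (D.gm i * D.gs i) with hs
    have hs0 : 0 ≤ s := Real.sqrt_nonneg _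
    have hs2 : s ^ 2 = D.gm i * D.gs i := Real.sq_sqrt (mul_nonneg hgm hgs)
    have h1 : Real.sqrt (2 * D.T * (β * D.gs i / D.T ^ 108)) ≤
        D.T ^ 24 * s + D.gs i / D.T ^ 1970 := by
      refine ey_sqrt_bd (by positivity) (by positivity) ?_
      rw [mul_pow, div_pow, hs2, ← pow_mul, ← pow_mul, hβ]
      have e1 : 2 * D.T * (D.T ^ 154 * (D.gm i + D.gs i / D.T ^ 3990) * D.gs i / D.T ^ 108) =
          2 * D.T ^ 47 * (D.gm i * D.gs i) + 2 * (D.gs i ^ 2 / D.T ^ 3943) := by
        have a1 : D.T ^ 154 = D.T ^ 46 * D.T ^ 108 := by rw [← pow_add]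
        have a2 : D.T ^ 3990 = D.T ^ 47 * D.T ^ 3943 := by rw [← pow_add]
        have a3 : D.T ^ 47 = D.T * D.T ^ 46 := by rw [← pow_succ']
        rw [a1, a2]
        exact ey_alg12 (by positivity) (by positivity) (by positivity) a3
      rw [e1]
      have b1 : 2 * D.T ^ 47 ≤ D.T ^ (24 * 2) := by
        calc 2 * D.T ^ 47 ≤ D.T * D.T ^ 47 := by gcongr; linarith
          _ = D.T ^ (24 * 2) := by rw [← pow_succ']
      have b2 : 2 * (D.gs i ^ 2 / D.T ^ 3943) ≤ D.gs i ^ 2 / D.T ^ (1970 * 2) := by
        rw [mul_div_assoc', div_le_div_iff₀ (by positivity) (by positivity)]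
        calc 2 * D.gs i ^ 2 * D.T ^ (1970 * 2) = D.gs i ^ 2 * (2 * D.T ^ (1970 * 2)) := by ring
          _ ≤ D.gs i ^ 2 * (D.T ^ 3 * D.T ^ (1970 * 2)) := by
              have : (2 : ℝ) ≤ D.T ^ 3 := by
                have := pow_le_pow_right₀ hT1 (show 1 ≤ 3 by norm_num)
                rw [pow_one] at this
                linarith
              exact mul_le_mul_of_nonneg_left (mul_le_mul_of_nonneg_right this (by positivity))
                (sq_nonneg _)
          _ = D.gs i ^ 2 * D.T ^ 3943 := by rw [← pow_add]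
      exact add_le_add (mul_le_mul_of_nonneg_right b1 (mul_nonneg hgm hgs)) b2
    have h2 : 8 * D.T * (D.T ^ 2 * β) = 8 * (D.T ^ 157 * D.gm i) +
        8 * (D.gs i / D.T ^ 3833) := by
      have a1 : D.T ^ 3990 = D.T ^ 157 * D.T ^ 3833 := by rw [← pow_add]
      have a2 : D.T * (D.T ^ 2 * D.T ^ 154) = D.T ^ 157 := by rw [← pow_add, ← pow_succ']
      have a3 : D.T ^ 157 * (D.gs i / (D.T ^ 157 * D.T ^ 3833)) = D.gs i / D.T ^ 3833 := by
        have : (0 : ℝ) < D.T ^ 157 := by positivity
        rw [← div_div, mul_div_assoc', mul_div_cancel₀ _ this.ne']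
      calc 8 * D.T * (D.T ^ 2 * β) = 8 * ((D.T * (D.T ^ 2 * D.T ^ 154)) *
            (D.gm i + D.gs i / D.T ^ 3990)) := by rw [hβ]; ring
        _ = 8 * (D.T ^ 157 * D.gm i) + 8 * (D.T ^ 157 * (D.gs i / (D.T ^ 157 * D.T ^ 3833))) := by
            rw [a2, a1]; ring
        _ = _ := by rw [a3]
    rw [h2, er_split, ← hs]
    have c1 := ey_ipwc hD.big (c := 160) (x := D.gs i) (by norm_num) hgs
      (show 190 + 1 ≤ 3833 by norm_num)
    have c2 := ey_ipwc hD.big (c := 40) (x := D.gs i) (by norm_num) hgs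
      (show 190 + 1 ≤ 1970 by norm_num)
    have c3 := mul_le_mul_of_nonneg_right (ey_pwc hD.big (c := 80) (by norm_num)
      (show 157 + 1 ≤ 170 by norm_num)) hgm
    have c4 := mul_le_mul_of_nonneg_right (ey_pwc hD.big (c := 20) (by norm_num)
      (show 24 + 1 ≤ 30 by norm_num)) hs0
    linarith

theorem e13_tail (i : ι) : Pr (D.p S)
    (fun ω => ¬ |D.cen S (D.Y13 S lam i) ω| ≤ D.er i / 10) ≤ Real.exp (-D.T) := by
  have hT := hD.big.big
  have hT0 := hD.big.pos
  have hT1 := hD.big.one_le
  have hp := p_isPM hD hI hm.le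
  have hgm := hD.gm_nonneg i
  have hgs := gs_nonneg hD i
  have hY : ∀ u c, |D.Y13 S lam i u c| ≤ if u ∈ Sel S.col lam true then
      D.T ^ 2 * D.g i u else 0 := by
    intro u c
    unfold Y13
    split_ifs with hu
    · refine (Finset.abs_sum_le_sum_abs _ _).trans ?_
      calc ∑ z ∈ D.U1 S lam, |D.w i z u * S.v z c * (if S.al z c then 1 + D.K z u else 1)|
          ≤ ∑ z ∈ D.U1 S lam, D.T ^ 2 * |D.w i z u| := by
            refine Finset.sum_le_sum fun z _ => ?_
            rw [abs_mul, abs_mul, mul_assoc, sq, mul_comm]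
            refine mul_le_mul_of_nonneg_right ?_ (abs_nonneg _)
            refine mul_le_mul (v_abs hD hI hm.le z c) ?_ (abs_nonneg _) hT0.le
            split_ifs
            · have h1 := K_ge hD z u
              have h2 := one_add_K_le hD z u
              rw [abs_of_nonneg (by linarith)]
              linarith
            · rw [abs_one]
              exact hT1
        _ ≤ ∑ z, D.T ^ 2 * |D.w i z u| :=
            Finset.sum_le_sum_of_subset_of_nonneg (Finset.subset_univ _)
              fun z _ _ => by positivity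
        _ ≤ D.T ^ 2 * D.g i u := by
            rw [← Finset.mul_sum]
            exact mul_le_mul_of_nonneg_left (w_col hD i u) (by positivity)
    · rw [abs_zero]
  refine ey_bern_T hD.big hp (D.Y13 S lam i) (b := D.T ^ 2 * D.gm i)
    (V := D.T ^ 4 * (D.gm i * D.gs i)) (fun u c => (hY u c).trans ?_) ?_ ?_ (by positivity)
  · split_ifs
    · exact mul_le_mul_of_nonneg_left (hD.g_le i u) (by positivity)
    · positivity
  · have h1 : ∀ u, ∑ c, D.p S u c * D.Y13 S lam i u c ^ 2 ≤
        D.T ^ 4 * (D.gm i * D.g i u) := by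
      intro u
      have hg0 := hD.g_nonneg i u
      have h0 : ∀ c, D.Y13 S lam i u c ^ 2 ≤ D.T ^ 4 * (D.gm i * D.g i u) := by
        intro c
        have h3 : |D.Y13 S lam i u c| ≤ D.T ^ 2 * D.g i u := by
          refine (hY u c).trans ?_
          split_ifs
          · exact le_rfl
          · positivity
        calc D.Y13 S lam i u c ^ 2 = |D.Y13 S lam i u c| ^ 2 := (sq_abs _).symm
          _ ≤ (D.T ^ 2 * D.g i u) ^ 2 := pow_le_pow_left₀ (abs_nonneg _) h3 2
          _ = D.T ^ 4 * (D.g i u * D.g i u) := by ring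
          _ ≤ D.T ^ 4 * (D.gm i * D.g i u) := by
              have := hD.g_le i u
              gcongr
      calc ∑ c, D.p S u c * D.Y13 S lam i u c ^ 2
          ≤ ∑ c, D.p S u c * (D.T ^ 4 * (D.gm i * D.g i u)) :=
            Finset.sum_le_sum fun c _ => mul_le_mul_of_nonneg_left (h0 c) (hp.nonneg u c)
        _ = D.T ^ 4 * (D.gm i * D.g i u) := by rw [← Finset.sum_mul, hp.sum_one, one_mul]
    calc _ ≤ ∑ u, D.T ^ 4 * (D.gm i * D.g i u) := Finset.sum_le_sum fun u _ => h1 u
      _ = D.T ^ 4 * (D.gm i * ∑ u, D.g i u) := by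
          rw [← Finset.mul_sum, ← Finset.mul_sum]
      _ ≤ D.T ^ 4 * (D.gm i * D.gs i) := by
          have := hD.g_sum i
          gcongr
  · set s : ℝ := Real.sqrt (D.gm i * D.gs i) with hs
    have hs0 : 0 ≤ s := Real.sqrt_nonneg _
    have hs2 : s ^ 2 = D.gm i * D.gs i := Real.sq_sqrt (mul_nonneg hgm hgs)
    have h1 : Real.sqrt (2 * D.T * (D.T ^ 4 * (D.gm i * D.gs i))) ≤ D.T ^ 3 * s + 0 := by
      refine ey_sqrt_bd (by positivity) le_rfl ?_
      rw [mul_pow, hs2, ← pow_mul]
      have b1 : 2 * D.T * D.T ^ 4 ≤ D.T ^ (3 * 2) := by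
        calc 2 * D.T * D.T ^ 4 = 2 * D.T ^ 5 := by ring
          _ ≤ D.T ^ (3 * 2) := ey_pwc hD.big (by norm_num) (by norm_num)
      have b2 := mul_le_mul_of_nonneg_right b1 (mul_nonneg hgm hgs)
      calc 2 * D.T * (D.T ^ 4 * (D.gm i * D.gs i)) =
            2 * D.T * D.T ^ 4 * (D.gm i * D.gs i) := by ring
        _ ≤ _ := b2.trans (by simp)
    rw [add_zero] at h1
    have h2 : 8 * D.T * (D.T ^ 2 * D.gm i) = 8 * D.T ^ 3 * D.gm i := by ring
    rw [h2, er_split, ← hs]
    have c1 : 0 ≤ D.gs i / D.T ^ 190 := by positivity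
    have c3 := mul_le_mul_of_nonneg_right (ey_pwc hD.big (c := 80) (by norm_num)
      (show 3 + 1 ≤ 170 by norm_num)) hgm
    have c4 := mul_le_mul_of_nonneg_right (ey_pwc hD.big (c := 20) (by norm_num)
      (show 3 + 1 ≤ 30 by norm_num)) hs0
    linarith

theorem evY_exp {T : ℝ} (hT : 0 ≤ T) : Real.exp (-(2 * T)) ≤ Real.exp (-T) :=
  Real.exp_le_exp.mpr (by linarith)

theorem e16_tail (i : ι) (c : Fin D.k) : Pr (D.p S) (fun ω =>
    ¬ (∑ z ∈ Sel S.col lam true, if ω z = c then D.g i z else 0) ≤
      D.T ^ 4 * (D.gm i + D.gs i / D.T ^ 3990)) ≤ Real.exp (-D.T) := by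
  have hT0 := hD.big.pos
  have hT1 := hD.big.one_le
  have hp := p_isPM hD hI hm.le
  have hgs := gs_nonneg hD i
  rcases (hD.gm_nonneg i).eq_or_lt with h0 | hgm
  · refine ey_Pr_zero_of (fun ω hω => hω ?_) (Real.exp_pos _).le
    rw [Finset.sum_eq_zero (fun z _ => by rw [ey_g_zero hD h0.symm, ite_self]), ← h0]
    positivity
  have hk : 1 / D.T ^ 3997 ≤ 1 / D.T ^ 3990 := hD.big.ipw (by norm_num)
  have ht := single_tail hD.big hp (fun u c' => if u ∈ Sel S.col lam true ∧ c' = c then
    D.g i u else 0) (fun u c' => by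
      split_ifs
      · exact hD.g_nonneg i u
      · exact le_rfl) (D.gm i + D.gs i / D.T ^ 3990) (by positivity)
    (by
      calc ∑ u, ∑ c', (if u ∈ Sel S.col lam true ∧ c' = c then D.g i u else 0) *
            D.p S u c' ≤ ∑ u, D.g i u * (1 / D.T ^ 3990) := by
            refine Finset.sum_le_sum fun u _ => ?_
            have hg0 := hD.g_nonneg i u
            rw [Finset.sum_eq_single c]
            · by_cases hu : u ∈ Sel S.col lam true
              · rw [if_pos ⟨hu, rfl⟩]
                exact mul_le_mul_of_nonneg_left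
                  (((p_le hD hI hm.le u c).trans (two_T_div_k hD)).trans hk) hg0
              · rw [if_neg (fun h => hu h.1), zero_mul]
                positivity
            · intro c' _ hc'
              rw [if_neg (fun h => hc' h.2), zero_mul]
            · intro h; exact absurd (mem_univ _) h
        _ ≤ D.gs i * (1 / D.T ^ 3990) := by
            rw [← Finset.sum_mul]
            exact mul_le_mul_of_nonneg_right (hD.g_sum i) (by positivity)
        _ ≤ D.gm i + D.gs i / D.T ^ 3990 := by
            rw [mul_one_div]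
            linarith)
    (fun u c' => by
      have h1 : 0 ≤ D.gs i / D.T ^ 3990 := by positivity
      split_ifs
      · have := hD.g_le i u
        linarith
      · linarith)
  refine (Pr_mono hp fun ω hω => ?_).trans (ht.trans (evY_exp hD hI hm hA hT0.le))
  refine (not_le.1 hω).le.trans (le_of_eq ?_)
  rw [← Finset.sum_subset (Finset.subset_univ (Sel S.col lam true))]
  · refine Finset.sum_congr rfl fun u hu => ?_
    by_cases h : ω u = c
    · rw [if_pos h, if_pos ⟨hu, h⟩]
    · rw [if_neg h, if_neg (fun h' => h h'.2)]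
  · intro u _ hu
    rw [if_neg (fun h => hu h.1)]

omit hD hI hm hA in
/-- Weight of the uncoloured vertices related to `u'` seen from `u`. -/
noncomputable def wR (D : NibData Q ι) (S : NState Q D.k) (lam : Q → Option Bool) (i : ι)
    (u u' : Q) : ℝ :=
  ∑ z ∈ D.U1 S lam, if u' ∈ D.R z then |D.w i z u| else 0

omit hD hI hm hA in
theorem wR_nonneg (S : NState Q D.k) (lam : Q → Option Bool) (i : ι) (u u' : Q) :
    0 ≤ D.wR S lam i u u' := by
  unfold wR
  refine Finset.sum_nonneg fun z _ => ?_
  split_ifs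
  · exact abs_nonneg _
  · exact le_rfl

omit hI hm hA in
theorem wR_le (S : NState Q D.k) (lam : Q → Option Bool) (i : ι) (u u' : Q) :
    D.wR S lam i u u' ≤ D.g i u := by
  refine le_trans ?_ (w_col hD i u)
  unfold wR
  calc ∑ z ∈ D.U1 S lam, (if u' ∈ D.R z then |D.w i z u| else 0)
      ≤ ∑ z ∈ D.U1 S lam, |D.w i z u| := by
        refine Finset.sum_le_sum fun z _ => ?_
        split_ifs
        · exact le_rfl
        · exact abs_nonneg _
    _ ≤ ∑ z, |D.w i z u| :=
        Finset.sum_le_sum_of_subset_of_nonneg (Finset.subset_univ _) fun z _ _ => abs_nonneg _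

theorem sum_wR (i : ι) (u : Q) :
    ∑ u' ∈ D.LL S lam, D.wR S lam i u u' ≤ D.T ^ 3885 * D.g i u := by
  have hT0 := hD.big.pos
  unfold wR
  rw [Finset.sum_comm]
  calc ∑ z ∈ D.U1 S lam, ∑ u' ∈ D.LL S lam, (if u' ∈ D.R z then |D.w i z u| else 0)
      = ∑ z ∈ D.U1 S lam, ((D.R z ∩ D.LL S lam).card : ℝ) * |D.w i z u| :=
        Finset.sum_congr rfl fun z _ => ey_RL_sum hD hI hm hA z _
    _ ≤ ∑ z ∈ D.U1 S lam, D.T ^ 3885 * |D.w i z u| :=
        Finset.sum_le_sum fun z _ =>
          mul_le_mul_of_nonneg_right (RV_card hD hI hm hA z) (abs_nonneg _)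
    _ ≤ ∑ z, D.T ^ 3885 * |D.w i z u| :=
        Finset.sum_le_sum_of_subset_of_nonneg (Finset.subset_univ _) fun z _ _ => by positivity
    _ ≤ D.T ^ 3885 * D.g i u := by
        rw [← Finset.mul_sum]
        exact mul_le_mul_of_nonneg_left (w_col hD i u) (by positivity)

theorem e14_tail (i : ι) : Pr (D.p S)
    (fun ω => ¬ ∑ z ∈ D.U1 S lam, ∑ z' ∈ Sel S.col lam true, |D.w i z z'| *
      (((D.R z ∩ D.LL S lam).filter fun u => u ≠ z' ∧ ω u = ω z').card : ℝ) ≤
      (∑ z ∈ Sel S.col lam true, D.g i z) / D.T ^ 100 + D.T ^ 4 * D.gm i) ≤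
      Real.exp (-D.T) := by
  have hT0 := hD.big.pos
  have hT1 := hD.big.one_le
  have hp := p_isPM hD hI hm.le
  set G : ℝ := ∑ z ∈ Sel S.col lam true, D.g i z with hG
  have hG0 : 0 ≤ G := Finset.sum_nonneg fun z _ => hD.g_nonneg i z
  rcases (hD.gm_nonneg i).eq_or_lt with h0 | hgm
  · refine ey_Pr_zero_of (fun ω hω => hω ?_) (Real.exp_pos _).le
    have hgm := hD.gm_nonneg i
    rw [Finset.sum_eq_zero (fun z _ => Finset.sum_eq_zero fun z' _ => by
      rw [ey_w_zero hD h0.symm, abs_zero, zero_mul])]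
    positivity
  let g : Q → Q → Fin D.k → ℝ := fun u u' _ => if u ∈ Sel S.col lam true ∧ u' ∈ D.LL S lam ∧
    u' ≠ u then D.wR S lam i u u' else 0
  have hg0 : ∀ u u' c, 0 ≤ g u u' c := by
    intro u u' c
    simp only [g]
    split_ifs
    · exact wR_nonneg S lam i u u'
    · exact le_rfl
  have hgle : ∀ u u' c, g u u' c ≤ if u' ∈ D.LL S lam then D.wR S lam i u u' else 0 := by
    intro u u' c
    have := wR_nonneg (D := D) S lam i u u'
    simp only [g]
    by_cases h2 : u' ∈ D.LL S lam
    · rw [if_pos h2]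
      split_ifs
      · exact le_rfl
      · exact this
    · rw [if_neg h2, if_neg (fun h => h2 h.2.1)]
  have hgs1 : ∀ u c, ∑ u', g u u' c ≤ if u ∈ Sel S.col lam true then
      D.T ^ 3885 * D.g i u else 0 := by
    intro u c
    by_cases hu : u ∈ Sel S.col lam true
    · rw [if_pos hu]
      calc ∑ u', g u u' c ≤ ∑ u', (if u' ∈ D.LL S lam then D.wR S lam i u u' else 0) :=
            Finset.sum_le_sum fun u' _ => hgle u u' c
        _ = ∑ u' ∈ D.LL S lam, D.wR S lam i u u' := by
            rw [← Finset.sum_filter, Finset.filter_mem_eq_inter, Finset.univ_inter]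
        _ ≤ _ := sum_wR hD hI hm hA i u
    · rw [if_neg hu]
      refine le_of_eq (Finset.sum_eq_zero fun u' _ => ?_)
      simp only [g]
      rw [if_neg (fun h => hu h.1)]
  have hgs2 : ∀ u c, ∑ u', g u' u c ≤ G := by
    intro u c
    calc ∑ u', g u' u c ≤ ∑ u', (if u' ∈ Sel S.col lam true then D.g i u' else 0) := by
          refine Finset.sum_le_sum fun u' _ => ?_
          have h1 := hD.g_nonneg i u'
          have h2 := wR_le hD S lam i u' u
          simp only [g]
          by_cases h3 : u' ∈ Sel S.col lam true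
          · rw [if_pos h3]
            split_ifs
            · exact h2
            · exact h1
          · rw [if_neg h3, if_neg (fun h => h3 h.1)]
      _ = G := by rw [← Finset.sum_filter, Finset.filter_mem_eq_inter, Finset.univ_inter]
  have hk := hD.k_hi
  have ht := pair_tail3 hD.big hp (1 / D.T ^ 3997) (by positivity)
    (fun u c => (p_le hD hI hm.le u c).trans (two_T_div_k hD)) g hg0
    (fun u c => by simp [g]) (2 * D.gm i + G / D.T ^ 105) (by positivity)
    (by
      calc ∑ u, ∑ u', ∑ c, g u u' c * (1 / D.T ^ 3997) ^ 2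
          = ∑ c : Fin D.k, ∑ u, (∑ u', g u u' c) * (1 / D.T ^ 3997) ^ 2 :=
            ey_sum3_swap g _
        _ ≤ ∑ c : Fin D.k, ∑ u, (if u ∈ Sel S.col lam true then D.T ^ 3885 * D.g i u else 0) *
              (1 / D.T ^ 3997) ^ 2 :=
            Finset.sum_le_sum fun c _ => Finset.sum_le_sum fun u _ =>
              mul_le_mul_of_nonneg_right (hgs1 u c) (by positivity)
        _ = (D.k : ℝ) * (D.T ^ 3885 * G * (1 / D.T ^ 3997) ^ 2) := by
            rw [Finset.sum_const, Finset.card_univ, Fintype.card_fin, nsmul_eq_mul,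
              ← Finset.sum_mul, ← Finset.sum_filter, Finset.filter_mem_eq_inter,
              Finset.univ_inter, ← Finset.mul_sum]
        _ ≤ D.T ^ 4000 * (D.T ^ 3885 * G * (1 / D.T ^ 3997) ^ 2) :=
            mul_le_mul_of_nonneg_right hk (mul_nonneg (mul_nonneg (pow_nonneg hT0.le _) hG0)
              (sq_nonneg _))
        _ = G / D.T ^ 109 := by
            have e1 : (1 / D.T ^ 3997) ^ 2 = 1 / (D.T ^ 4000 * (D.T ^ 3885 * D.T ^ 109)) := by
              rw [div_pow, one_pow, ← pow_mul, ← pow_add, ← pow_add]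
            rw [e1]
            exact ey_algX (by positivity) (by positivity) (by positivity)
        _ ≤ 2 * D.gm i + G / D.T ^ 105 := by
            have h1 := ey_ipwc hD.big (c := 1) (x := G) (by norm_num) hG0
              (show 105 + 1 ≤ 109 by norm_num)
            linarith)
    (fun u c => by
      rw [← Finset.sum_mul]
      have h1 : ∑ u', g u u' c ≤ D.T ^ 3885 * D.gm i := by
        refine (hgs1 u c).trans ?_
        split_ifs
        · exact mul_le_mul_of_nonneg_left (hD.g_le i u) (by positivity)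
        · positivity
      calc (∑ u', g u u' c) * (1 / D.T ^ 3997) ≤ D.T ^ 3885 * D.gm i * (1 / D.T ^ 3997) :=
            mul_le_mul_of_nonneg_right h1 (by positivity)
        _ ≤ D.T ^ 3997 * D.gm i * (1 / D.T ^ 3997) :=
            mul_le_mul_of_nonneg_right (mul_le_mul_of_nonneg_right
              (hD.big.pw (by norm_num)) hgm.le) (by positivity)
        _ = D.gm i := by
            have h9 : (0 : ℝ) < D.T ^ 3997 := by positivity
            rw [mul_one_div, mul_div_cancel_left₀ _ h9.ne']
        _ ≤ (2 * D.gm i + G / D.T ^ 105) / 2 := by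
            have : 0 ≤ G / D.T ^ 105 := by positivity
            linarith)
    (fun u c => by
      rw [← Finset.sum_mul]
      calc (∑ u', g u' u c) * (1 / D.T ^ 3997) ≤ G * (1 / D.T ^ 3997) :=
            mul_le_mul_of_nonneg_right (hgs2 u c) (by positivity)
        _ = G / D.T ^ 3997 := by rw [mul_one_div]
        _ ≤ (2 * D.gm i + G / D.T ^ 105) / 2 := by
            have h1 := ey_ipwc hD.big (c := 2) (x := G) (by norm_num) hG0
              (show 105 + 1 ≤ 3997 by norm_num)
            linarith)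
    (fun u u' c => by
      have h1 := wR_le hD S lam i u u'
      have h2 := hD.g_le i u
      have h3 : 0 ≤ G / D.T ^ 105 := by positivity
      simp only [g]
      split_ifs
      · linarith
      · linarith)
  refine (Pr_mono hp fun ω hω => ?_).trans (ht.trans (evY_exp hD hI hm hA hT0.le))
  have h1 : 1029 * D.T ^ 3 * (2 * D.gm i + G / D.T ^ 105) ≤
      G / D.T ^ 100 + D.T ^ 4 * D.gm i := by
    have c1 := mul_le_mul_of_nonneg_right (ey_pwc hD.big (c := 2058) (by norm_num)
      (show 3 + 1 ≤ 4 by norm_num)) hgm.le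
    have e1 : D.T ^ 3 * (G / D.T ^ 105) = G / D.T ^ 102 := by
      have e0 : D.T ^ 105 = D.T ^ 3 * D.T ^ 102 := by rw [← pow_add]
      have h9 : (0 : ℝ) < D.T ^ 3 := by positivity
      rw [e0, ← div_div, mul_div_assoc', mul_div_cancel₀ _ h9.ne']
    have c2 := ey_ipwc hD.big (c := 1029) (x := G) (by norm_num) hG0
      (show 100 + 1 ≤ 102 by norm_num)
    calc 1029 * D.T ^ 3 * (2 * D.gm i + G / D.T ^ 105) =
          2058 * D.T ^ 3 * D.gm i + 1029 * (D.T ^ 3 * (G / D.T ^ 105)) := by ring
      _ ≤ _ := by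
          rw [e1]
          linarith
  refine (h1.trans (not_le.1 hω).le).trans (le_of_eq ?_)
  rw [Finset.sum_comm, ← Finset.sum_subset (Finset.subset_univ (Sel S.col lam true))]
  · refine Finset.sum_congr rfl fun u hu => ?_
    have e2 : ∀ z, |D.w i z u| * (((D.R z ∩ D.LL S lam).filter
        fun u' => u' ≠ u ∧ ω u' = ω u).card : ℝ) =
        ∑ u' ∈ D.LL S lam, if u' ∈ D.R z ∧ u' ≠ u ∧ ω u' = ω u then |D.w i z u| else 0 := by
      intro z
      rw [← Finset.sum_filter, Finset.sum_const, nsmul_eq_mul, mul_comm]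
      congr 3
      ext u'
      simp only [mem_filter, mem_inter]
      tauto
    simp only [e2]
    rw [Finset.sum_comm, ← Finset.sum_subset (Finset.subset_univ (D.LL S lam))]
    · refine Finset.sum_congr rfl fun u' hu' => ?_
      by_cases h3 : ω u = ω u'
      · by_cases h4 : u' ≠ u
        · simp only [g]
          rw [if_pos h3, if_pos ⟨hu, hu', h4⟩]
          unfold wR
          refine Finset.sum_congr rfl fun z _ => ?_
          by_cases h5 : u' ∈ D.R z
          · rw [if_pos h5, if_pos ⟨h5, h4, h3.symm⟩]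
          · rw [if_neg h5, if_neg (fun h => h5 h.1)]
        · simp only [g]
          rw [if_pos h3, if_neg (fun h => h4 h.2.2)]
          refine Finset.sum_eq_zero fun z _ => ?_
          rw [if_neg (fun h => h4 h.2.1)]
      · rw [if_neg h3]
        refine Finset.sum_eq_zero fun z _ => ?_
        rw [if_neg (fun h => h3 h.2.2.symm)]
    · intro u' _ hu'
      simp only [g]
      rw [if_neg (fun h : _ ∧ _ ∧ _ => hu' h.2.1), ite_self]
  · intro u _ hu
    refine Finset.sum_eq_zero fun u' _ => ?_
    simp only [g]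
    rw [if_neg (fun h : _ ∧ _ ∧ _ => hu h.1), ite_self]

omit hD hI hm hA in
/-- Weight of the coloured vertices seen from the vertices related to `u` and `u'`. -/
noncomputable def nN2 (D : NibData Q ι) (S : NState Q D.k) (lam : Q → Option Bool) (i : ι)
    (u u' : Q) (c : Fin D.k) : ℝ :=
  ∑ z ∈ D.U1 S lam, if u ∈ D.R z ∧ u' ∈ D.R z then |D.nw S i z c| else 0

omit hD hI hm hA in
theorem nN2_nonneg (S : NState Q D.k) (lam : Q → Option Bool) (i : ι) (u u' : Q)
    (c : Fin D.k) : 0 ≤ D.nN2 S lam i u u' c := by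
  unfold nN2
  refine Finset.sum_nonneg fun z _ => ?_
  split_ifs
  · exact abs_nonneg _
  · exact le_rfl

omit hD hI hm hA in
theorem nN2_symm (S : NState Q D.k) (lam : Q → Option Bool) (i : ι) (u u' : Q)
    (c : Fin D.k) : D.nN2 S lam i u u' c = D.nN2 S lam i u' u c := by
  unfold nN2
  refine Finset.sum_congr rfl fun z _ => ?_
  by_cases h : u ∈ D.R z ∧ u' ∈ D.R z
  · rw [if_pos h, if_pos ⟨h.2, h.1⟩]
  · rw [if_neg h, if_neg (fun h' => h ⟨h'.2, h'.1⟩)]

omit hD hI hm hA in
theorem nN2_le_nN (S : NState Q D.k) (lam : Q → Option Bool) (i : ι) (u u' : Q)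
    (c : Fin D.k) : D.nN2 S lam i u u' c ≤ D.nN S lam i u c := by
  unfold nN2 nN
  refine Finset.sum_le_sum fun z _ => ?_
  by_cases h : u ∈ D.R z ∧ u' ∈ D.R z
  · rw [if_pos h, if_pos h.1]
  · rw [if_neg h]
    split_ifs
    · exact abs_nonneg _
    · exact le_rfl

theorem sum_nN2 (i : ι) (u : Q) (c : Fin D.k) :
    ∑ u' ∈ D.LL S lam, D.nN2 S lam i u u' c ≤ D.T ^ 3885 * D.nN S lam i u c := by
  have hT0 := hD.big.pos
  unfold nN2 nN
  rw [Finset.sum_comm, Finset.mul_sum]
  refine Finset.sum_le_sum fun z _ => ?_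
  by_cases hu : u ∈ D.R z
  · have e : ∀ u', (if u ∈ D.R z ∧ u' ∈ D.R z then |D.nw S i z c| else 0) =
        if u' ∈ D.R z then |D.nw S i z c| else 0 := by
      intro u'
      by_cases h : u' ∈ D.R z
      · rw [if_pos ⟨hu, h⟩, if_pos h]
      · rw [if_neg (fun h' => h h'.2), if_neg h]
    simp only [e]
    rw [ey_RL_sum hD hI hm hA, if_pos hu]
    exact mul_le_mul_of_nonneg_right (RV_card hD hI hm hA z) (abs_nonneg _)
  · rw [if_neg hu, mul_zero]
    exact le_of_eq (Finset.sum_eq_zero fun u' _ => if_neg (fun h => hu h.1))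

theorem e17_tail (i : ι) : Pr (D.p S)
    (fun ω => ¬ ∑ z ∈ D.U1 S lam, ∑ c, |D.nw S i z c| *
      ((D.J S lam ω z c : ℝ) * ((D.J S lam ω z c : ℝ) - 1)) ≤ D.er i / (10 * D.T ^ 3)) ≤
      Real.exp (-D.T) := by
  have hT0 := hD.big.pos
  have hT1 := hD.big.one_le
  have hp := p_isPM hD hI hm.le
  have hgs := gs_nonneg hD i
  rcases (hD.gm_nonneg i).eq_or_lt with h0 | hgm
  · refine ey_Pr_zero_of (fun ω hω => hω ?_) (Real.exp_pos _).le
    have hgm := hD.gm_nonneg i
    rw [Finset.sum_eq_zero (fun z _ => Finset.sum_eq_zero fun c _ => by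
      rw [ey_nw_zero hD h0.symm, abs_zero, zero_mul]), er_split]
    positivity
  set β : ℝ := D.T ^ 154 * (D.gm i + D.gs i / D.T ^ 3990) with hβ
  have hβ0 : 0 ≤ β := by positivity
  have hβ1 : β ≤ (D.T ^ 156 * D.gm i + D.gs i / D.T ^ 210) / 2 := by
    have c1 := mul_le_mul_of_nonneg_right (ey_pwc hD.big (c := 2) (by norm_num)
      (show 154 + 1 ≤ 156 by norm_num)) hgm.le
    have e1 : D.T ^ 154 * (D.gs i / D.T ^ 3990) = D.gs i / D.T ^ 3836 := by
      have e0 : D.T ^ 3990 = D.T ^ 154 * D.T ^ 3836 := by rw [← pow_add]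
      have h9 : (0 : ℝ) < D.T ^ 154 := by positivity
      rw [e0, ← div_div, mul_div_assoc', mul_div_cancel₀ _ h9.ne']
    have c2 := ey_ipwc hD.big (c := 2) (x := D.gs i) (by norm_num) hgs
      (show 210 + 1 ≤ 3836 by norm_num)
    rw [hβ, mul_add, e1]
    linarith
  let g : Q → Q → Fin D.k → ℝ := fun u u' c => if u ≠ u' ∧ u ∈ D.LL S lam ∧ u' ∈ D.LL S lam then
    D.nN2 S lam i u u' c else 0
  have hg0 : ∀ u u' c, 0 ≤ g u u' c := by
    intro u u' c
    simp only [g]
    split_ifs
    · exact nN2_nonneg S lam i u u' c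
    · exact le_rfl
  have hgs' : ∀ u u' c, g u u' c = g u' u c := by
    intro u u' c
    simp only [g]
    rw [nN2_symm]
    by_cases h : u ≠ u' ∧ u ∈ D.LL S lam ∧ u' ∈ D.LL S lam
    · rw [if_pos h, if_pos ⟨h.1.symm, h.2.2, h.2.1⟩]
    · rw [if_neg h, if_neg]
      rintro ⟨h1, h2, h3⟩
      exact h ⟨h1.symm, h3, h2⟩
  have hg1 : ∀ u c, ∑ u', g u u' c ≤ if u ∈ D.LL S lam then
      D.T ^ 3885 * D.nN S lam i u c else 0 := by
    intro u c
    by_cases hu : u ∈ D.LL S lam
    · rw [if_pos hu]
      refine le_trans ?_ (sum_nN2 hD hI hm hA i u c)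
      calc ∑ u', g u u' c ≤ ∑ u', (if u' ∈ D.LL S lam then D.nN2 S lam i u u' c else 0) := by
            refine Finset.sum_le_sum fun u' _ => ?_
            have h3 := nN2_nonneg (D := D) S lam i u u' c
            simp only [g]
            by_cases h2 : u' ∈ D.LL S lam
            · rw [if_pos h2]
              split_ifs
              · exact le_rfl
              · exact h3
            · rw [if_neg h2, if_neg (fun h => h2 h.2.2)]
        _ = ∑ u' ∈ D.LL S lam, D.nN2 S lam i u u' c := by
            rw [← Finset.sum_filter, Finset.filter_mem_eq_inter, Finset.univ_inter]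
    · rw [if_neg hu]
      refine le_of_eq (Finset.sum_eq_zero fun u' _ => ?_)
      simp only [g]
      rw [if_neg (fun h => hu h.2.1)]
  have hg2 : ∀ u c, ∑ u', g u u' c * (1 / D.T ^ 3997) ≤
      (D.T ^ 156 * D.gm i + D.gs i / D.T ^ 210) / 2 := by
    intro u c
    rw [← Finset.sum_mul]
    refine le_trans ?_ hβ1
    have h1 : ∑ u', g u u' c ≤ D.T ^ 3885 * β := by
      refine (hg1 u c).trans ?_
      split_ifs
      · exact mul_le_mul_of_nonneg_left (nN_le hD hI hm i u c) (by positivity)
      · positivity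
    have h9 : (0 : ℝ) < D.T ^ 3997 := by positivity
    rw [mul_one_div, div_le_iff₀ h9, mul_comm β]
    exact h1.trans (mul_le_mul_of_nonneg_right (hD.big.pw (by norm_num)) hβ0)
  have ht := pair_tail3 hD.big hp (1 / D.T ^ 3997) (by positivity)
    (fun u c => (p_le hD hI hm.le u c).trans (two_T_div_k hD)) g hg0
    (fun u c => by simp [g]) (D.T ^ 156 * D.gm i + D.gs i / D.T ^ 210) (by positivity)
    (by
      calc ∑ u, ∑ u', ∑ c, g u u' c * (1 / D.T ^ 3997) ^ 2
          = ∑ c : Fin D.k, ∑ u, (∑ u', g u u' c) * (1 / D.T ^ 3997) ^ 2 :=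
            ey_sum3_swap g _
        _ ≤ ∑ c : Fin D.k, ∑ u, (if u ∈ D.LL S lam then D.T ^ 3885 * D.nN S lam i u c else 0) *
              (1 / D.T ^ 3997) ^ 2 :=
            Finset.sum_le_sum fun c _ => Finset.sum_le_sum fun u _ =>
              mul_le_mul_of_nonneg_right (hg1 u c) (by positivity)
        _ = D.T ^ 3885 * (∑ u ∈ D.LL S lam, ∑ c, D.nN S lam i u c) * (1 / D.T ^ 3997) ^ 2 := by
            rw [Finset.sum_comm, Finset.mul_sum, Finset.sum_mul,
              ← Finset.sum_subset (Finset.subset_univ (D.LL S lam))]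
            · refine Finset.sum_congr rfl fun u hu => ?_
              rw [Finset.mul_sum, Finset.sum_mul]
              exact Finset.sum_congr rfl fun c _ => by rw [if_pos hu]
            · intro u _ hu
              refine Finset.sum_eq_zero fun c _ => ?_
              rw [if_neg hu, zero_mul]
        _ ≤ D.T ^ 3885 * (D.T ^ 3885 * D.gs i) * (1 / D.T ^ 3997) ^ 2 :=
            mul_le_mul_of_nonneg_right (mul_le_mul_of_nonneg_left
              (sum_nN hD hI hm hA i) (by positivity)) (sq_nonneg _)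
        _ = D.gs i / D.T ^ 224 := by
            have e1 : (1 / D.T ^ 3997) ^ 2 = 1 / (D.T ^ 3885 * (D.T ^ 3885 * D.T ^ 224)) := by
              rw [div_pow, one_pow, ← pow_mul, ← pow_add, ← pow_add]
            rw [e1]
            exact ey_algW (by positivity) (by positivity)
        _ ≤ D.T ^ 156 * D.gm i + D.gs i / D.T ^ 210 := by
            have h1 := ey_ipwc hD.big (c := 1) (x := D.gs i) (by norm_num) hgs
              (show 210 + 1 ≤ 224 by norm_num)
            have h2 : 0 ≤ D.T ^ 156 * D.gm i := by positivity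
            linarith)
    hg2 (fun u c => by
      refine le_trans (le_of_eq ?_) (hg2 u c)
      exact Finset.sum_congr rfl fun u' _ => by rw [hgs'])
    (fun u u' c => by
      refine le_trans ?_ hβ1
      simp only [g]
      split_ifs
      · exact (nN2_le_nN S lam i u u' c).trans (nN_le hD hI hm i u c)
      · exact hβ0)
  refine (Pr_mono hp fun ω hω => ?_).trans (ht.trans (evY_exp hD hI hm hA hT0.le))
  have h1 : 1029 * D.T ^ 3 * (D.T ^ 156 * D.gm i + D.gs i / D.T ^ 210) ≤
      D.er i / (10 * D.T ^ 3) := by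
    have hs0 : 0 ≤ Real.sqrt (D.gm i * D.gs i) := Real.sqrt_nonneg _
    rw [le_div_iff₀ (by positivity), er_split]
    have e1 : D.T ^ 6 * (D.gs i / D.T ^ 210) = D.gs i / D.T ^ 204 := by
      have e0 : D.T ^ 210 = D.T ^ 6 * D.T ^ 204 := by rw [← pow_add]
      have h9 : (0 : ℝ) < D.T ^ 6 := by positivity
      rw [e0, ← div_div, mul_div_assoc', mul_div_cancel₀ _ h9.ne']
    have e2 : D.T ^ 6 * D.T ^ 156 = D.T ^ 162 := by rw [← pow_add]
    have c1 := mul_le_mul_of_nonneg_right (ey_pwc hD.big (c := 10290) (by norm_num)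
      (show 162 + 1 ≤ 170 by norm_num)) hgm.le
    have c2 := ey_ipwc hD.big (c := 10290) (x := D.gs i) (by norm_num) hgs
      (show 190 + 1 ≤ 204 by norm_num)
    have c3 : 0 ≤ D.T ^ 30 * Real.sqrt (D.gm i * D.gs i) := by positivity
    calc 1029 * D.T ^ 3 * (D.T ^ 156 * D.gm i + D.gs i / D.T ^ 210) * (10 * D.T ^ 3) =
          10290 * (D.T ^ 6 * D.T ^ 156) * D.gm i + 10290 * (D.T ^ 6 * (D.gs i / D.T ^ 210)) := by
          ring
      _ ≤ _ := by
          rw [e1, e2]
          linarith
  refine (h1.trans (not_le.1 hω).le).trans (le_of_eq ?_)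
  have hJ : ∀ z c, (D.J S lam ω z c : ℝ) * ((D.J S lam ω z c : ℝ) - 1) =
      ∑ u, ∑ u', if ω u = c ∧ ω u' = c then (if (u ≠ u' ∧ u ∈ D.LL S lam ∧ u' ∈ D.LL S lam) ∧
        u ∈ D.R z ∧ u' ∈ D.R z then (1 : ℝ) else 0) else 0 := by
    intro z c
    have h2 : (D.J S lam ω z c : ℝ) * ((D.J S lam ω z c : ℝ) - 1) =
        ((((D.R z ∩ D.LL S lam).filter fun u => ω u = c).offDiag).card : ℝ) := by
      rw [offDiag_card]
      have : ((D.R z ∩ D.LL S lam).filter fun u => ω u = c).card ≤
          ((D.R z ∩ D.LL S lam).filter fun u => ω u = c).card *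
            ((D.R z ∩ D.LL S lam).filter fun u => ω u = c).card :=
        Nat.le_mul_self _
      rw [Nat.cast_sub this]
      unfold J
      push_cast
      ring
    rw [h2, ← Fintype.sum_prod_type' (f := fun u u' =>
      if ω u = c ∧ ω u' = c then (if (u ≠ u' ∧ u ∈ D.LL S lam ∧ u' ∈ D.LL S lam) ∧
        u ∈ D.R z ∧ u' ∈ D.R z then (1 : ℝ) else 0) else 0)]
    have h3 : (((((D.R z ∩ D.LL S lam).filter fun u => ω u = c).offDiag).card : ℕ) : ℝ) =
        ∑ q : Q × Q, if q ∈ ((D.R z ∩ D.LL S lam).filter fun u => ω u = c).offDiag then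
          (1 : ℝ) else 0 := by
      rw [← Finset.sum_filter, Finset.sum_const, nsmul_eq_mul, mul_one]
      congr 2
      ext q
      simp
    rw [h3]
    refine Finset.sum_congr rfl fun q _ => ?_
    rw [← ite_and]
    refine if_congr ?_ rfl rfl
    rw [mem_offDiag, mem_filter, mem_filter, mem_inter, mem_inter]
    tauto
  simp only [hJ, Finset.mul_sum]
  have hswap : (∑ z ∈ D.U1 S lam, ∑ c, ∑ u, ∑ u', |D.nw S i z c| *
      (if ω u = c ∧ ω u' = c then (if (u ≠ u' ∧ u ∈ D.LL S lam ∧ u' ∈ D.LL S lam) ∧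
        u ∈ D.R z ∧ u' ∈ D.R z then (1 : ℝ) else 0) else 0)) =
      ∑ u, ∑ u', ∑ z ∈ D.U1 S lam, ∑ c, |D.nw S i z c| *
      (if ω u = c ∧ ω u' = c then (if (u ≠ u' ∧ u ∈ D.LL S lam ∧ u' ∈ D.LL S lam) ∧
        u ∈ D.R z ∧ u' ∈ D.R z then (1 : ℝ) else 0) else 0) := by
    have h5 : ∀ z, (∑ c, ∑ u, ∑ u', |D.nw S i z c| *
      (if ω u = c ∧ ω u' = c then (if (u ≠ u' ∧ u ∈ D.LL S lam ∧ u' ∈ D.LL S lam) ∧
        u ∈ D.R z ∧ u' ∈ D.R z then (1 : ℝ) else 0) else 0)) = ∑ u, ∑ u', ∑ c, |D.nw S i z c| *
      (if ω u = c ∧ ω u' = c then (if (u ≠ u' ∧ u ∈ D.LL S lam ∧ u' ∈ D.LL S lam) ∧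
        u ∈ D.R z ∧ u' ∈ D.R z then (1 : ℝ) else 0) else 0) := by
      intro z
      rw [Finset.sum_comm]
      refine Finset.sum_congr rfl fun u _ => ?_
      rw [Finset.sum_comm]
    simp only [h5]
    rw [Finset.sum_comm]
    refine Finset.sum_congr rfl fun u _ => ?_
    rw [Finset.sum_comm]
  rw [hswap]
  refine Finset.sum_congr rfl fun u _ => Finset.sum_congr rfl fun u' _ => ?_
  by_cases hu : ω u = ω u'
  · rw [if_pos hu]
    have h6 : ∀ z, (∑ c, |D.nw S i z c| *
      (if ω u = c ∧ ω u' = c then (if (u ≠ u' ∧ u ∈ D.LL S lam ∧ u' ∈ D.LL S lam) ∧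
        u ∈ D.R z ∧ u' ∈ D.R z then (1 : ℝ) else 0) else 0)) = |D.nw S i z (ω u)| *
        (if (u ≠ u' ∧ u ∈ D.LL S lam ∧ u' ∈ D.LL S lam) ∧
        u ∈ D.R z ∧ u' ∈ D.R z then (1 : ℝ) else 0) := by
      intro z
      rw [Finset.sum_eq_single (ω u)]
      · rw [if_pos ⟨rfl, hu.symm⟩]
      · intro c _ hc
        rw [if_neg (fun h => hc h.1.symm), mul_zero]
      · intro h; exact absurd (mem_univ _) h
    simp only [h6, g]
    by_cases hP : u ≠ u' ∧ u ∈ D.LL S lam ∧ u' ∈ D.LL S lam
    · rw [if_pos hP]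
      unfold nN2
      refine Finset.sum_congr rfl fun z _ => ?_
      by_cases h7 : u ∈ D.R z ∧ u' ∈ D.R z
      · rw [if_pos h7, if_pos ⟨hP, h7⟩, mul_one]
      · rw [if_neg h7, if_neg (fun h => h7 h.2), mul_zero]
    · rw [if_neg hP]
      refine Finset.sum_eq_zero fun z _ => ?_
      rw [if_neg (fun h => hP h.1), mul_zero]
  · rw [if_neg hu]
    refine Finset.sum_eq_zero fun z _ => Finset.sum_eq_zero fun c _ => ?_
    rw [if_neg (fun h => hu (h.1.trans h.2.symm)), mul_zero]

end NibData

end Pool.Agent.AcyG
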