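import Pool.Agent.AcyG.FDefs
import Pool.Agent.AcyG.Quad
import Pool.Agent.AcyG.BasicA

/-! # The firing process: basic lemmas (row FB) -/

set_option autoImplicit false
set_option linter.unusedSectionVars false

namespace Pool.Agent.AcyG

open Finset
open Pool.Agent.Acy (IsPM wt Ex Pr mean)
open Pool.Agent.AcyK (Big StepOK LocOK prodLaw Un Sel updCol HasC SameC L1 C1 S2 C2)
open scoped Classical

universe u v

/-- Local family of deviations of sums of functions of single coordinates (Bernstein). -/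
theorem loc_bern {Q : Type u} [Fintype Q] [DecidableEq Q] {α : Type*} [Fintype α] {T : ℝ}
    (hT : Big T) {μ : Q → α → ℝ} (hμ : IsPM μ) {κ : Type u} [Fintype κ] (P : κ → Prop)
    (g : κ → Q → α → ℝ) (b r : κ → ℝ) (hb : ∀ a, P a → 0 < b a) (hr : ∀ a, P a → 0 ≤ r a)
    (hgb : ∀ a, P a → ∀ u c, |g a u c| ≤ b a)
    (hgr : ∀ a, P a → ∑ u, ∑ c, μ u c * |g a u c| ≤ r a)
    (S : κ → Finset Q) (hS : ∀ a, P a → ∀ u c, g a u c ≠ 0 → u ∈ S a) (e : ℕ)
    (hcard : ∀ a, P a → ((S a).card : ℝ) ≤ T ^ e)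
    (hdeg : ∀ y, ∃ F : Finset κ, (∀ a, P a → y ∈ S a → a ∈ F) ∧ (F.card : ℝ) ≤ T ^ e) :
    LocOK e T μ (fun ω => ∀ a, P a → |∑ u, (g a u (ω u) - mean μ (g a) u)| ≤
      5 * T * (Real.sqrt (b a * r a) + b a)) := by
  have hT0 := hT.pos
  have hTb : (1000000 : ℝ) ≤ T := by
    have := hT.big
    norm_num at this
    exact this
  refine ⟨κ, inferInstance, fun a ω => P a ∧ ¬ (|∑ u, (g a u (ω u) - mean μ (g a) u)| ≤
      5 * T * (Real.sqrt (b a * r a) + b a)), fun a => if P a then S a else ∅, ?_, ?_, ?_, ?_, ?_⟩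
  · intro a ω ω' hω
    by_cases ha : P a
    · have hω' : ∀ u ∈ S a, ω u = ω' u := by
        intro u hu
        refine hω u ?_
        show u ∈ ((if P a then S a else ∅ : Finset Q) : Set Q)
        rw [if_pos ha]
        exact_mod_cast hu
      have e1 : ∑ u, (g a u (ω u) - mean μ (g a) u) = ∑ u, (g a u (ω' u) - mean μ (g a) u) := by
        refine Finset.sum_congr rfl fun u _ => ?_
        by_cases hu : u ∈ S a
        · rw [hω' u hu]
        · have h1 : ∀ c, g a u c = 0 := fun c => by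
            by_contra h
            exact hu (hS a ha u c h)
          rw [h1, h1]
      simp only [e1]
    · simp only [ha, false_and]
  · intro a
    by_cases ha : P a
    · have hV : ∑ u, ∑ c, μ u c * g a u c ^ 2 ≤ b a * r a := by
        calc ∑ u, ∑ c, μ u c * g a u c ^ 2 ≤ ∑ u, ∑ c, b a * (μ u c * |g a u c|) := by
              refine Finset.sum_le_sum fun u _ => Finset.sum_le_sum fun c _ => ?_
              have h1 : g a u c ^ 2 ≤ b a * |g a u c| := by
                rw [← sq_abs, sq]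
                exact mul_le_mul_of_nonneg_right (hgb a ha u c) (abs_nonneg _)
              calc μ u c * g a u c ^ 2 ≤ μ u c * (b a * |g a u c|) :=
                    mul_le_mul_of_nonneg_left h1 (hμ.nonneg u c)
                _ = _ := by ring
          _ = b a * ∑ u, ∑ c, μ u c * |g a u c| := by
              rw [Finset.mul_sum]
              exact Finset.sum_congr rfl fun u _ => by rw [Finset.mul_sum]
          _ ≤ b a * r a := mul_le_mul_of_nonneg_left (hgr a ha) (hb a ha).le
      have key := bern hμ (g a) (hb a ha) (hgb a ha) hV (show 0 < T + 1 by linarith)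
      have hs0 : 0 ≤ Real.sqrt (b a * r a) := Real.sqrt_nonneg _
      have h1 : Real.sqrt ((T + 1) * (b a * r a)) ≤ T * Real.sqrt (b a * r a) := by
        have e1 : T * Real.sqrt (b a * r a) = Real.sqrt (T ^ 2 * (b a * r a)) := by
          rw [Real.sqrt_mul (sq_nonneg T), Real.sqrt_sq hT0.le]
        rw [e1]
        refine Real.sqrt_le_sqrt (mul_le_mul_of_nonneg_right (by nlinarith) ?_)
        exact mul_nonneg (hb a ha).le (hr a ha)
      refine (Pool.Agent.Acy.Pr_mono hμ (F := fun ω => 4 * (T + 1) * b a +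
        2 * Real.sqrt ((T + 1) * (b a * r a)) ≤ |∑ u, (g a u (ω u) - mean μ (g a) u)|)
        fun ω hω => ?_).trans (key.trans ?_)
      · have h2 := not_le.1 hω.2
        have h3 : 4 * (T + 1) * b a ≤ 5 * T * b a :=
          mul_le_mul_of_nonneg_right (by linarith) (hb a ha).le
        have h4 : 0 ≤ T * Real.sqrt (b a * r a) := mul_nonneg hT0.le hs0
        linarith
      · have e1 : -(T + 1) = -T + -1 := by ring
        rw [e1, Real.exp_add]
        have h2 : Real.exp (-1) ≤ 1 / 2 := by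
          have h3 : Real.exp 1 * Real.exp (-1) = 1 := by rw [← Real.exp_add]; simp
          have h4 : 2 ≤ Real.exp 1 := by
            have := Real.add_one_le_exp (1 : ℝ)
            linarith
          have h5 := Real.exp_pos (-1)
          nlinarith
        have h5 := Real.exp_pos (-T)
        nlinarith
    · have h0 : Pr μ (fun ω => P a ∧ ¬ (|∑ u, (g a u (ω u) - mean μ (g a) u)| ≤
          5 * T * (Real.sqrt (b a * r a) + b a))) = 0 := by
        unfold Pr Ex
        refine Finset.sum_eq_zero fun ω _ => ?_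
        simp only [ha, false_and, if_false, mul_zero]
      rw [h0]
      exact (Real.exp_pos _).le
  · intro a
    by_cases ha : P a
    · simp only [if_pos ha]
      exact hcard a ha
    · simp only [if_neg ha, card_empty, Nat.cast_zero]
      positivity
  · intro y
    obtain ⟨F, hF, hc⟩ := hdeg y
    refine le_trans ?_ hc
    have : (univ.filter fun a => y ∈ if P a then S a else ∅) ⊆ F := by
      intro a ha
      have ha := (mem_filter.1 ha).2
      by_cases hP : P a
      · rw [if_pos hP] at ha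
        exact hF a hP ha
      · rw [if_neg hP] at ha
        simp at ha
    exact_mod_cast card_le_card this
  · intro ω hω a ha
    exact not_not.1 fun h => hω a ⟨ha, h⟩

section lot

variable {Q : Type u} [Fintype Q] [DecidableEq Q] {β : Type*} [Fintype β] {μ : Q → β → ℝ}

/-- a function of one coordinate -/
theorem Ex_one' (h : IsPM μ) (z : Q) (f : β → ℝ) :
    Ex μ (fun l => f (l z)) = ∑ b, μ z b * f b := by
  have h1 := Pool.Agent.Acy.Ex_resample h z (fun l => f (l z))
  simp only [Function.update_self] at h1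
  rw [h1, Pool.Agent.Acy.Ex_const h]

/-- a function of two different coordinates -/
theorem Ex_two' (h : IsPM μ) {z z' : Q} (hz : z ≠ z') (f : β → β → ℝ) :
    Ex μ (fun l => f (l z) (l z')) = ∑ b, ∑ b', μ z b * (μ z' b' * f b b') := by
  have h1 := Pool.Agent.Acy.Ex_resample h z (fun l => f (l z) (l z'))
  rw [h1]
  have h2 : ∀ l : Q → β, ∑ a, μ z a * f (Function.update l z a z) (Function.update l z a z') =
      ∑ a, μ z a * f a (l z') := by
    intro l
    refine Finset.sum_congr rfl fun a _ => ?_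
    rw [Function.update_self, Function.update_of_ne (Ne.symm hz)]
  simp only [h2]
  rw [Pool.Agent.Acy.Ex_sum]
  refine Finset.sum_congr rfl fun a _ => ?_
  rw [Pool.Agent.Acy.Ex_mul_left, Ex_one' h z' (f a), Finset.mul_sum]

end lot

/-- Expansion of a quadratic sum over different indices. -/
theorem quad_expand {κ κ' : Type*} [Fintype κ] [DecidableEq κ] [Fintype κ'] (om : κ' → κ' → ℝ)
    (hom : ∀ P S, om P S = om S P) (X0 X1 : κ → κ' → ℝ)
    (hex : ∀ e P S, X0 e P * X1 e S = 0) :
    ∑ e, ∑ e', (if e ≠ e' then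
      ∑ P, ∑ S, om P S * ((X0 e P + X1 e P) * (X0 e' S + X1 e' S)) else 0) =
    ∑ e, ∑ e', (if e ≠ e' then ∑ P, ∑ S, om P S * (X0 e P * X0 e' S) else 0) +
    2 * (∑ P, ∑ S, om P S * ((∑ e, X0 e P) * ∑ e', X1 e' S)) +
    ∑ e, ∑ e', (if e ≠ e' then ∑ P, ∑ S, om P S * (X1 e P * X1 e' S) else 0) := by
  have h1 : ∑ P, ∑ S, om P S * ((∑ e, X0 e P) * ∑ e', X1 e' S) =
      ∑ e, ∑ e', (if e ≠ e' then ∑ P, ∑ S, om P S * (X0 e P * X1 e' S) else 0) := by
    have h2 : ∀ e e', (if e ≠ e' then ∑ P, ∑ S, om P S * (X0 e P * X1 e' S) else 0) =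
        ∑ P, ∑ S, om P S * (X0 e P * X1 e' S) := by
      intro e e'
      by_cases h : e = e'
      · subst h
        rw [if_neg (by simp)]
        symm
        exact Finset.sum_eq_zero fun P _ => Finset.sum_eq_zero fun S _ => by
          rw [hex, mul_zero]
      · rw [if_pos h]
    simp only [h2]
    have h3 : ∀ P S, om P S * ((∑ e, X0 e P) * ∑ e', X1 e' S) =
        ∑ e, ∑ e', om P S * (X0 e P * X1 e' S) := by
      intro P S
      rw [Finset.sum_mul_sum, Finset.mul_sum]
      exact Finset.sum_congr rfl fun e _ => by rw [Finset.mul_sum]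
    simp only [h3]
    have h4 : ∑ P, ∑ S, ∑ e, ∑ e', om P S * (X0 e P * X1 e' S) =
        ∑ P, ∑ e, ∑ S, ∑ e', om P S * (X0 e P * X1 e' S) :=
      Finset.sum_congr rfl fun P _ => Finset.sum_comm
    rw [h4, Finset.sum_comm]
    refine Finset.sum_congr rfl fun e _ => ?_
    have h5 : ∑ P, ∑ S, ∑ e', om P S * (X0 e P * X1 e' S) =
        ∑ P, ∑ e', ∑ S, om P S * (X0 e P * X1 e' S) :=
      Finset.sum_congr rfl fun P _ => Finset.sum_comm
    rw [h5, Finset.sum_comm]
  have h6 : ∑ e, ∑ e', (if e ≠ e' then ∑ P, ∑ S, om P S * (X1 e P * X0 e' S) else 0) =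
      ∑ e, ∑ e', (if e ≠ e' then ∑ P, ∑ S, om P S * (X0 e P * X1 e' S) else 0) := by
    rw [Finset.sum_comm]
    refine Finset.sum_congr rfl fun e _ => Finset.sum_congr rfl fun e' _ => ?_
    by_cases h : e = e'
    · rw [if_neg (fun h2 => h2 h.symm), if_neg (fun h2 => h2 h)]
    · rw [if_pos (Ne.symm h), if_pos h, Finset.sum_comm]
      refine Finset.sum_congr rfl fun P _ => Finset.sum_congr rfl fun S _ => ?_
      rw [hom]
      ring
  have h7 : ∑ e, ∑ e', (if e ≠ e' then
      ∑ P, ∑ S, om P S * ((X0 e P + X1 e P) * (X0 e' S + X1 e' S)) else 0) =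
      ∑ e, ∑ e', (if e ≠ e' then ∑ P, ∑ S, om P S * (X0 e P * X0 e' S) else 0) +
      ∑ e, ∑ e', (if e ≠ e' then ∑ P, ∑ S, om P S * (X0 e P * X1 e' S) else 0) +
      ∑ e, ∑ e', (if e ≠ e' then ∑ P, ∑ S, om P S * (X1 e P * X0 e' S) else 0) +
      ∑ e, ∑ e', (if e ≠ e' then ∑ P, ∑ S, om P S * (X1 e P * X1 e' S) else 0) := by
    simp only [← Finset.sum_add_distrib]
    refine Finset.sum_congr rfl fun e _ => Finset.sum_congr rfl fun e' _ => ?_
    by_cases h : e ≠ e'
    · simp only [if_pos h, ← Finset.sum_add_distrib]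
      exact Finset.sum_congr rfl fun P _ => Finset.sum_congr rfl fun S _ => by ring
    · simp only [if_neg h, add_zero]
  rw [h7, h6, h1]
  ring

section

variable {Q ι Lb Pi A B C : Type u} [Fintype Q] [DecidableEq Q] [Fintype ι] [DecidableEq ι]
  [Fintype Lb] [Fintype Pi] [Fintype A] [Fintype B] [Fintype C]

namespace Fire

variable {F : Fire Q ι Lb Pi A B C}

section
variable (hF : F.Ok)
include hF

theorem aa_nonneg (z z' : Q) (P : Pi) : 0 ≤ F.aa z z' P :=
  Finset.sum_nonneg fun l _ => mul_nonneg (hF.mu_nonneg z z' l) (hF.af_nonneg z z' l P)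

theorem ex_label (z z' : Q) : ∃ l : Lb, 0 < F.μ z z' l := by
  by_contra h
  push Not at h
  have h1 := hF.mu_sum z z'
  have h2 : ∑ l, F.μ z z' l ≤ 0 := Finset.sum_nonpos fun l _ => h l
  linarith

theorem af_le (z z' : Q) (l : Lb) (P : Pi) : F.af z z' l P ≤ F.D.T :=
  (hF.af_maj z z' l P).trans (hF.as_le z z' P)

theorem as_nonneg (z z' : Q) (P : Pi) : 0 ≤ F.as z z' P := by
  obtain ⟨l, -⟩ := ex_label hF z z'
  exact (hF.af_nonneg z z' l P).trans (hF.af_maj z z' l P)

theorem ws_nonneg (i : A) (z z' : Q) : 0 ≤ F.ws i z z' := by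
  obtain ⟨l, -⟩ := ex_label hF z z'
  exact (abs_nonneg _).trans (hF.W_maj i z z' l)

theorem W_le (i : A) (z z' : Q) (l : Lb) : |F.W i z z' l| ≤ F.wm i :=
  (hF.W_maj i z z' l).trans (hF.ws_le i z z')

theorem aa_le_as (z z' : Q) (P : Pi) : F.aa z z' P ≤ F.as z z' P := by
  calc F.aa z z' P ≤ ∑ l, F.μ z z' l * F.as z z' P :=
        Finset.sum_le_sum fun l _ => mul_le_mul_of_nonneg_left (hF.af_maj z z' l P)
          (hF.mu_nonneg z z' l)
    _ = F.as z z' P := by rw [← Finset.sum_mul, hF.mu_sum, one_mul]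

theorem aa_le (z z' : Q) (P : Pi) : F.aa z z' P ≤ F.D.T := by
  calc F.aa z z' P ≤ ∑ l, F.μ z z' l * F.D.T :=
        Finset.sum_le_sum fun l _ => mul_le_mul_of_nonneg_left (af_le hF z z' l P)
          (hF.mu_nonneg z z' l)
    _ = F.D.T := by rw [← Finset.sum_mul, hF.mu_sum, one_mul]

theorem aa_symm (z z' : Q) (P : Pi) : F.aa z z' P = F.aa z' z P := by
  unfold aa
  exact Finset.sum_congr rfl fun l _ => by rw [hF.mu_symm, hF.af_symm]

theorem wB_nonneg (b : B) (z z' : Q) (l : Lb) : 0 ≤ F.wB b z z' l :=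
  Finset.sum_nonneg fun P _ => Finset.sum_nonneg fun S _ =>
    mul_nonneg (hF.om_nonneg b P S) (hF.af_nonneg z z' l P)

theorem bs_nonneg (b : B) (z z' : Q) : 0 ≤ F.bs b z z' := by
  obtain ⟨l, -⟩ := ex_label hF z z'
  exact (wB_nonneg hF b z z' l).trans (hF.B_maj b z z' l)

theorem wB_le (b : B) (z z' : Q) (l : Lb) : F.wB b z z' l ≤ F.wb b :=
  (hF.B_maj b z z' l).trans (hF.bs_le b z z')

theorem wB_symm (b : B) (z z' : Q) (l : Lb) : F.wB b z z' l = F.wB b z' z l := by
  unfold wB
  exact Finset.sum_congr rfl fun P _ => Finset.sum_congr rfl fun S _ => by rw [hF.af_symm]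

/-- The other variable of the kernel. -/
theorem wB_right (b : B) (z z' : Q) (l : Lb) :
    ∑ P, ∑ S, F.om b P S * F.af z z' l S = F.wB b z z' l := by
  rw [Finset.sum_comm]
  unfold wB
  exact Finset.sum_congr rfl fun P _ => Finset.sum_congr rfl fun S _ => by rw [hF.om_symm]

theorem mB_eq (b : B) (z : Q) : F.mB b z = ∑ z', ∑ P, ∑ S, F.om b P S * F.aa z z' P := by
  unfold mB wB aa
  refine Finset.sum_congr rfl fun z' _ => ?_
  simp only [Finset.mul_sum]
  rw [Finset.sum_comm]
  refine Finset.sum_congr rfl fun P _ => ?_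
  rw [Finset.sum_comm]
  exact Finset.sum_congr rfl fun S _ => Finset.sum_congr rfl fun l _ => by ring

theorem rho_nonneg : 0 ≤ F.rho := by
  unfold rho
  have := hF.dok.big.pos
  positivity

theorem rho_le : F.rho ≤ 1 / F.D.T ^ 3997 := by
  have hT := hF.dok.big
  have hT0 := hT.pos
  have hTb : (1000000 : ℝ) ≤ F.D.T := by
    have := hT.big
    norm_num at this
    exact this
  have hk := hF.dok.k_lo
  have hk0 : (0:ℝ) < F.D.k := lt_of_lt_of_le (by positivity) hk
  unfold rho
  rw [div_le_div_iff₀ hk0 (by positivity), one_mul]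
  calc 2 * F.D.T * F.D.T ^ 3997 = 2 * F.D.T ^ 3998 := by rw [pow_succ F.D.T 3997]; ring
    _ ≤ F.D.T * F.D.T ^ 3998 := mul_le_mul_of_nonneg_right (by linarith) (by positivity)
    _ = F.D.T ^ 3999 := by rw [pow_succ F.D.T 3998]; ring
    _ ≤ F.D.k := hk

theorem mW_nonneg (i : A) (z : Q) : 0 ≤ F.mW i z :=
  Finset.sum_nonneg fun z' _ => Finset.sum_nonneg fun l _ =>
    mul_nonneg (hF.mu_nonneg z z' l) (abs_nonneg _)

theorem mA_nonneg (z : Q) (P : Pi) : 0 ≤ F.mA z P :=
  Finset.sum_nonneg fun z' _ => aa_nonneg hF z z' P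

theorem mB_nonneg (b : B) (z : Q) : 0 ≤ F.mB b z :=
  Finset.sum_nonneg fun z' _ => Finset.sum_nonneg fun l _ =>
    mul_nonneg (hF.mu_nonneg z z' l) (wB_nonneg hF b z z' l)

theorem tot_nonneg (i : A) : 0 ≤ F.tot i :=
  (Finset.sum_nonneg fun z _ => mW_nonneg hF i z).trans (hF.W_tot i)

theorem tb_nonneg (b : B) : 0 ≤ F.tb b :=
  (Finset.sum_nonneg fun z _ => mB_nonneg hF b z).trans (hF.B_tot b)

theorem cs_nonneg (b : C) : 0 ≤ F.cs b := (Nat.cast_nonneg _).trans (hF.cw_supp b)

theorem eW_nonneg (i : A) : 0 ≤ F.eW i := by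
  unfold eW
  have := hF.dok.big.pos
  have := hF.wm_pos i
  positivity

theorem fB_nonneg (b : B) : 0 ≤ F.fB b := by
  unfold fB
  have := hF.dok.big.pos
  have := hF.wb_pos b
  have := hF.db_nonneg b
  have := tb_nonneg hF b
  positivity

theorem eB_nonneg (b : B) : 0 ≤ F.eB b := by
  unfold eB
  have := hF.dok.big.pos
  have := hF.wb_pos b
  have := hF.db_nonneg b
  have := tb_nonneg hF b
  positivity

theorem eC_nonneg (b : C) : 0 ≤ F.eC b := by
  unfold eC
  have := hF.dok.big.pos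
  have := hF.cm_pos b
  have := hF.cr_nonneg b
  have := cs_nonneg hF b
  positivity

theorem W2_nonneg (b : B) (z z' : Q) : 0 ≤ F.W2 b z z' :=
  Finset.sum_nonneg fun y _ => Finset.sum_nonneg fun P _ => Finset.sum_nonneg fun S _ =>
    mul_nonneg (hF.om_nonneg b P S) (mul_nonneg (aa_nonneg hF y z P) (aa_nonneg hF y z' S))

theorem W2_le (b : B) (z z' : Q) : F.W2 b z z' ≤ F.D.T * F.db b := by
  calc F.W2 b z z' ≤ ∑ y, ∑ P, ∑ S, F.D.T * (F.om b P S * F.aa z y P) := by
        unfold W2
        refine Finset.sum_le_sum fun y _ => Finset.sum_le_sum fun P _ =>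
          Finset.sum_le_sum fun S _ => ?_
        rw [aa_symm hF y z P]
        calc F.om b P S * (F.aa z y P * F.aa y z' S) ≤ F.om b P S * (F.aa z y P * F.D.T) :=
              mul_le_mul_of_nonneg_left (mul_le_mul_of_nonneg_left (aa_le hF y z' S)
                (aa_nonneg hF z y P)) (hF.om_nonneg b P S)
          _ = _ := by ring
    _ = F.D.T * F.mB b z := by
        rw [mB_eq hF]
        simp only [Finset.mul_sum]
    _ ≤ F.D.T * F.db b := mul_le_mul_of_nonneg_left (hF.B_row b z) hF.dok.big.pos.le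

/-- one row of `W2` -/
theorem W2_row1 (b : B) (z : Q) : ∑ z', F.W2 b z z' ≤ F.D.T ^ 1604 * F.mB b z := by
  calc ∑ z', F.W2 b z z' = ∑ y, ∑ P, ∑ S, F.om b P S * F.aa z y P * F.mA y S := by
        unfold W2 mA
        rw [Finset.sum_comm]
        refine Finset.sum_congr rfl fun y _ => ?_
        rw [Finset.sum_comm]
        refine Finset.sum_congr rfl fun P _ => ?_
        rw [Finset.sum_comm]
        refine Finset.sum_congr rfl fun S _ => ?_
        rw [Finset.mul_sum]
        refine Finset.sum_congr rfl fun z' _ => ?_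
        rw [aa_symm hF y z P]
        ring
    _ ≤ ∑ y, ∑ P, ∑ S, F.D.T ^ 1604 * (F.om b P S * F.aa z y P) := by
        refine Finset.sum_le_sum fun y _ => Finset.sum_le_sum fun P _ =>
          Finset.sum_le_sum fun S _ => ?_
        rw [mul_comm (F.D.T ^ 1604)]
        exact mul_le_mul_of_nonneg_left (hF.af_row y S)
          (mul_nonneg (hF.om_nonneg b P S) (aa_nonneg hF z y P))
    _ = F.D.T ^ 1604 * F.mB b z := by
        rw [mB_eq hF]
        simp only [Finset.mul_sum]

theorem W2_symm (b : B) (z z' : Q) : F.W2 b z z' = F.W2 b z' z := by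
  unfold W2
  refine Finset.sum_congr rfl fun y _ => ?_
  rw [Finset.sum_comm]
  refine Finset.sum_congr rfl fun P _ => Finset.sum_congr rfl fun S _ => ?_
  rw [hF.om_symm]
  ring

theorem W2_row (b : B) (z : Q) :
    ∑ z', (F.W2 b z z' + F.W2 b z' z) ≤ 2 * F.D.T ^ 1604 * F.db b := by
  have h1 : ∑ z', (F.W2 b z z' + F.W2 b z' z) = 2 * ∑ z', F.W2 b z z' := by
    rw [Finset.mul_sum]
    refine Finset.sum_congr rfl fun z' _ => ?_
    rw [W2_symm hF b z' z]
    ring
  have h2 := W2_row1 hF b z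
  have h3 := mul_le_mul_of_nonneg_left (hF.B_row b z)
    (pow_nonneg hF.dok.big.pos.le 1604 : 0 ≤ F.D.T ^ 1604)
  rw [h1]
  linarith

theorem W2_tot (b : B) : ∑ z, ∑ z', F.W2 b z z' ≤ F.D.T ^ 1604 * F.tb b := by
  calc ∑ z, ∑ z', F.W2 b z z' ≤ ∑ z, F.D.T ^ 1604 * F.mB b z :=
        Finset.sum_le_sum fun z _ => W2_row1 hF b z
    _ = F.D.T ^ 1604 * ∑ z, F.mB b z := by rw [Finset.mul_sum]
    _ ≤ F.D.T ^ 1604 * F.tb b :=
        mul_le_mul_of_nonneg_left (hF.B_tot b) (pow_nonneg hF.dok.big.pos.le 1604)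

theorem mu_isPM (z : Q) : IsPM (F.μ z) := ⟨fun z' l => hF.mu_nonneg z z' l, fun z' =>
  hF.mu_sum z z'⟩

theorem nu_isPM : IsPM F.nu :=
  ⟨fun z l => Pool.Agent.Acy.wt_nonneg (mu_isPM hF z) l,
    fun z => Pool.Agent.Acy.sum_wt (mu_isPM hF z)⟩

end

end Fire

namespace FRd

variable {E : FRd Q ι Lb Pi A B C}

/-- Rate of a pair in the round. -/
noncomputable def rt (E : FRd Q ι Lb Pi A B C) (z z' : Q) : ℝ :=
  if z ∈ E.L then ∑ c, if HasC E.col z' c then E.p z c else 0 else 0

section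
variable (hE : E.Ok)
include hE

theorem rt_nonneg (z z' : Q) : 0 ≤ E.rt z z' := by
  unfold rt
  split_ifs
  · refine Finset.sum_nonneg fun c _ => ?_
    split_ifs
    · exact hE.p_pm.nonneg z c
    · exact le_rfl
  · exact le_rfl

theorem rt_le (z z' : Q) : E.rt z z' ≤ E.rho := by
  have h0 := Fire.rho_nonneg hE.fok
  unfold rt
  split_ifs
  · by_cases h : ∃ c, HasC E.col z' c
    · obtain ⟨c, hc⟩ := h
      rw [Finset.sum_eq_single c]
      · rw [if_pos hc]
        exact hE.p_le z c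
      · intro c' _ hc'
        rw [if_neg]
        intro h2
        exact hc' (h2.uniq hc)
      · intro h2
        exact absurd (mem_univ _) h2
    · push Not at h
      refine (Finset.sum_eq_zero fun c _ => ?_).le.trans h0
      rw [if_neg (h c)]
  · exact h0

theorem law_isPM : IsPM E.law :=
  Pool.Agent.AcyK.prodLaw_isPM hE.p_pm (Fire.nu_isPM hE.fok)

/-- the mean as an iterated sum -/
theorem mean_law (G : Q → E.Pick → ℝ) (z : Q) : mean E.law G z =
    ∑ c, E.p z c * Ex (E.μ z) fun l => G z (c, l) := by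
  unfold mean
  rw [Fintype.sum_prod_type]
  refine Finset.sum_congr rfl fun c _ => ?_
  unfold Ex
  rw [Finset.mul_sum]
  refine Finset.sum_congr rfl fun l _ => ?_
  show E.p z c * wt (E.μ z) l * G z (c, l) = _
  ring

/-- Weight of a colour class, from the row invariants. -/
theorem cls_gen {w : Q → ℝ} (hw : ∀ z, 0 ≤ w z) {b : ℝ} (hb : 0 ≤ b)
    (hr : ∑ z, w z ≤ E.D.T ^ 4100 * b) {c : Fin E.D.k}
    (h1 : L1 E.col w c ≤ 4 * E.D.T * (E.rho * C1 E.col w + E.m * b)) :
    L1 E.col w c ≤ 5 * E.D.T ^ 151 * b := by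
  have hT := hE.fok.dok.big
  have hT0 := hT.pos
  have hTb : (1000000 : ℝ) ≤ E.D.T := by
    have := hT.big
    norm_num at this
    exact this
  have e2 : C1 E.col w ≤ E.D.T ^ 4100 * b := by
    refine le_trans ?_ hr
    unfold C1
    refine Finset.sum_le_sum fun y _ => ?_
    by_cases hy : E.col y ≠ none
    · rw [if_pos hy]
    · rw [if_neg hy]
      exact hw y
  have hC0 : 0 ≤ C1 E.col w := Pool.Agent.AcyK.C1_nonneg E.col hw
  have hρ := Fire.rho_le hE.fok
  have h2 : E.rho * C1 E.col w ≤ E.D.T ^ 103 * b := by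
    calc E.rho * C1 E.col w ≤ 1 / E.D.T ^ 3997 * (E.D.T ^ 4100 * b) :=
          mul_le_mul hρ e2 hC0 (by positivity)
      _ = E.D.T ^ 103 * b := by
          rw [show (4100 : ℕ) = 3997 + 103 from rfl, pow_add]
          field_simp
  have hm : (E.m : ℝ) ≤ E.D.T ^ 150 := NibData.m_le_T hE.fok.dok hE.m_lt.le
  have h5 : E.D.T ^ 103 ≤ E.D.T ^ 150 / 4 := by
    rw [le_div_iff₀ (by norm_num)]
    calc E.D.T ^ 103 * 4 ≤ E.D.T ^ 103 * E.D.T :=
          mul_le_mul_of_nonneg_left (by linarith) (by positivity)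
      _ = E.D.T ^ 104 := by rw [pow_succ E.D.T 103]
      _ ≤ E.D.T ^ 150 := hT.pw (by norm_num)
  have h6 := mul_le_mul_of_nonneg_right h5 hb
  have h7 := mul_le_mul_of_nonneg_right hm hb
  calc _ ≤ _ := h1
    _ ≤ 4 * E.D.T * (E.D.T ^ 150 / 4 * b + E.D.T ^ 150 * b) :=
        mul_le_mul_of_nonneg_left (by linarith) (by positivity)
    _ = 5 * E.D.T ^ 151 * b := by rw [pow_succ E.D.T 150]; ring

/-- Sums over a colour class, uniformly in the labels. -/
theorem cls_W (i : A) (z : Q) (c : Fin E.D.k) (l : Q → Lb) :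
    ∑ z', (if HasC E.col z' c then |E.W i z z' (l z')| else 0) ≤ 5 * E.D.T ^ 151 * E.wm i := by
  refine le_trans ?_ (cls_gen hE (fun z' => Fire.ws_nonneg hE.fok i z z') (hE.fok.wm_pos i).le
    (hE.fok.ws_row i z) (hE.inv.rowW i z c))
  unfold L1
  refine Finset.sum_le_sum fun z' _ => ?_
  split_ifs
  · exact hE.fok.W_maj i z z' (l z')
  · exact le_rfl

theorem cls_as (P : Pi) (z : Q) (c : Fin E.D.k) :
    L1 E.col (fun z' => E.as z z' P) c ≤ 5 * E.D.T ^ 152 := by
  have h := cls_gen hE (fun z' => Fire.as_nonneg hE.fok z z' P) hE.fok.dok.big.pos.le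
    (hE.fok.as_row z P) (hE.inv.rowA P z c)
  have e : 5 * E.D.T ^ 151 * E.D.T = 5 * E.D.T ^ 152 := by rw [pow_succ E.D.T 151]; ring
  rw [e] at h
  exact h

theorem cls_A (P : Pi) (z : Q) (c : Fin E.D.k) (l : Q → Lb) :
    ∑ z', (if HasC E.col z' c then E.af z z' (l z') P else 0) ≤ 5 * E.D.T ^ 152 := by
  refine le_trans ?_ (cls_as hE P z c)
  unfold L1
  refine Finset.sum_le_sum fun z' _ => ?_
  split_ifs
  · exact hE.fok.af_maj z z' (l z') P
  · exact le_rfl

theorem cls_aa (P : Pi) (z : Q) (c : Fin E.D.k) :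
    ∑ z', (if HasC E.col z' c then E.aa z z' P else 0) ≤ 5 * E.D.T ^ 152 := by
  refine le_trans ?_ (cls_as hE P z c)
  unfold L1
  refine Finset.sum_le_sum fun z' _ => ?_
  split_ifs
  · exact Fire.aa_le_as hE.fok z z' P
  · exact le_rfl

theorem cls_B (b : B) (z : Q) (c : Fin E.D.k) (l : Q → Lb) :
    ∑ z', (if HasC E.col z' c then E.wB b z z' (l z') else 0) ≤
      5 * E.D.T ^ 151 * E.wb b := by
  refine le_trans ?_ (cls_gen hE (fun z' => Fire.bs_nonneg hE.fok b z z') (hE.fok.wb_pos b).le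
    (hE.fok.bs_row b z) (hE.inv.rowB b z c))
  unfold L1
  refine Finset.sum_le_sum fun z' _ => ?_
  split_ifs
  · exact hE.fok.B_maj b z z' (l z')
  · exact le_rfl

/-- Mean of a function of the pick and of one label. -/
theorem mean_Fw (w : Q → Q → Lb → ℝ) (z : Q) : mean E.law (E.Fw w) z =
    ∑ z', E.rt z z' * ∑ l, E.μ z z' l * w z z' l := by
  have hμ := Fire.mu_isPM hE.fok z
  rw [mean_law hE]
  unfold Fw rt
  by_cases hz : z ∈ E.L
  · simp only [if_pos hz]
    have h1 : ∀ c, Ex (E.μ z) (fun l => ∑ z', if HasC E.col z' c then w z z' (l z') else 0) =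
        ∑ z', if HasC E.col z' c then ∑ l, E.μ z z' l * w z z' l else 0 := by
      intro c
      rw [Pool.Agent.Acy.Ex_sum]
      refine Finset.sum_congr rfl fun z' _ => ?_
      by_cases hc : HasC E.col z' c
      · simp only [if_pos hc]
        exact Ex_one' hμ z' (w z z')
      · simp only [if_neg hc]
        exact Pool.Agent.Acy.Ex_const hμ 0
    simp only [h1]
    have h2 : ∀ c, E.p z c * (∑ z', if HasC E.col z' c then ∑ l, E.μ z z' l * w z z' l else 0) =
        ∑ z', (if HasC E.col z' c then E.p z c else 0) * ∑ l, E.μ z z' l * w z z' l := by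
      intro c
      rw [Finset.mul_sum]
      refine Finset.sum_congr rfl fun z' _ => ?_
      split_ifs
      · rfl
      · rw [mul_zero, zero_mul]
    rw [Finset.sum_congr rfl fun c _ => h2 c, Finset.sum_comm]
    refine Finset.sum_congr rfl fun z' _ => ?_
    rw [Finset.sum_mul]
  · simp only [if_neg hz]
    have h1 := Pool.Agent.Acy.Ex_const hμ 0
    simp only [h1, mul_zero, zero_mul, Finset.sum_const_zero]

/-- Mean of a function of the pick and of two labels. -/
theorem mean_two (w : Q → Q → Q → Lb → Lb → ℝ) (z : Q) : mean E.law (fun z e =>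
    if z ∈ E.L then ∑ z', ∑ z'', (if z' ≠ z'' ∧ HasC E.col z' e.1 ∧ HasC E.col z'' e.1 then
      w z z' z'' (e.2 z') (e.2 z'') else 0) else 0) z =
    if z ∈ E.L then ∑ c, E.p z c * ∑ z', ∑ z'',
      (if z' ≠ z'' ∧ HasC E.col z' c ∧ HasC E.col z'' c then
        ∑ l, ∑ l', E.μ z z' l * (E.μ z z'' l' * w z z' z'' l l') else 0) else 0 := by
  have hμ := Fire.mu_isPM hE.fok z
  rw [mean_law hE]
  by_cases hz : z ∈ E.L
  · simp only [if_pos hz]
    refine Finset.sum_congr rfl fun c _ => ?_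
    congr 1
    rw [Pool.Agent.Acy.Ex_sum]
    refine Finset.sum_congr rfl fun z' _ => ?_
    rw [Pool.Agent.Acy.Ex_sum]
    refine Finset.sum_congr rfl fun z'' _ => ?_
    by_cases hc : z' ≠ z'' ∧ HasC E.col z' c ∧ HasC E.col z'' c
    · simp only [if_pos hc]
      exact Ex_two' hμ hc.1 (w z z' z'')
    · simp only [if_neg hc]
      exact Pool.Agent.Acy.Ex_const hμ 0
  · simp only [if_neg hz]
    have h1 := Pool.Agent.Acy.Ex_const hμ 0
    simp only [h1, mul_zero, Finset.sum_const_zero]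

omit hE in
theorem mem_L (z : Q) : z ∈ E.L ↔ E.col z = none ∧ E.lam z = some true := by
  unfold L
  exact Pool.Agent.AcyK.mem_Sel

omit hE in
theorem nCol_new {ω : Q → E.Pick} {z : Q} (hz : z ∈ E.L) :
    E.nCol ω z = some ((ω z).1, E.m) := by
  unfold nCol updCol
  rw [if_pos ((mem_L z).1 hz)]

omit hE in
theorem nCol_old {ω : Q → E.Pick} {z : Q} (hz : z ∉ E.L) : E.nCol ω z = E.col z := by
  unfold nCol updCol
  rw [if_neg fun h => hz ((mem_L z).2 h)]

omit hE in
theorem not_L_of_hasC {z : Q} {c : Fin E.D.k} (h : HasC E.col z c) : z ∉ E.L := by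
  intro hz
  obtain ⟨r, hr⟩ := h
  rw [((mem_L z).1 hz).1] at hr
  cases hr

omit hE in
theorem not_L_of_fired {z z' : Q} (h : Fire.fired E.col z z') : z ∉ E.L ∧ z' ∉ E.L := by
  obtain ⟨c, r, r', h1, h2, -⟩ := h
  exact ⟨not_L_of_hasC ⟨r, h1⟩, not_L_of_hasC ⟨r', h2⟩⟩

/-- The fired pairs after the round. -/
theorem fired_next (ω : Q → E.Pick) (z z' : Q) : Fire.fired (E.nCol ω) z z' ↔
    Fire.fired E.col z z' ∨ (z ∈ E.L ∧ HasC E.col z' (ω z).1) := by
  constructor
  · rintro ⟨c, r, r', h1, h2, h3⟩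
    by_cases hz' : z' ∈ E.L
    · exfalso
      rw [nCol_new hz'] at h2
      simp only [Option.some.injEq, Prod.mk.injEq] at h2
      by_cases hz : z ∈ E.L
      · rw [nCol_new hz] at h1
        simp only [Option.some.injEq, Prod.mk.injEq] at h1
        omega
      · rw [nCol_old hz] at h1
        have := hE.inv.col_lt z c r h1
        omega
    · rw [nCol_old hz'] at h2
      by_cases hz : z ∈ E.L
      · rw [nCol_new hz] at h1
        simp only [Option.some.injEq, Prod.mk.injEq] at h1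
        right
        refine ⟨hz, r', ?_⟩
        rw [h1.1]
        exact h2
      · rw [nCol_old hz] at h1
        exact Or.inl ⟨c, r, r', h1, h2, h3⟩
  · rintro (h | ⟨hz, r', hr'⟩)
    · obtain ⟨hz, hz'⟩ := not_L_of_fired h
      obtain ⟨c, r, r', h1, h2, h3⟩ := h
      exact ⟨c, r, r', (nCol_old hz).trans h1, (nCol_old hz').trans h2, h3⟩
    · have hz' : z' ∉ E.L := not_L_of_hasC ⟨r', hr'⟩
      exact ⟨(ω z).1, E.m, r', nCol_new hz, (nCol_old hz').trans hr', hE.inv.col_lt _ _ _ hr'⟩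

/-- One pair after the round. -/
theorem term_next (ω : Q → E.Pick) (w : Q → Q → Lb → ℝ) (z z' : Q) :
    (if Fire.fired (E.nCol ω) z z' then w z z' (E.nLab ω z z') else 0) =
      (if Fire.fired E.col z z' then w z z' (E.lab z z') else 0) +
      (if z ∈ E.L ∧ HasC E.col z' (ω z).1 then w z z' ((ω z).2 z') else 0) := by
  rw [fired_next hE ω z z']
  by_cases h : Fire.fired E.col z z'
  · have hz := (not_L_of_fired h).1
    have h2 : ¬ (z ∈ E.L ∧ HasC E.col z' (ω z).1) := fun h3 => hz h3.1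
    rw [if_pos (Or.inl h), if_pos h, if_neg h2, add_zero]
    unfold nLab
    rw [if_neg hz]
  · by_cases h2 : z ∈ E.L ∧ HasC E.col z' (ω z).1
    · rw [if_pos (Or.inr h2), if_neg h, if_pos h2, zero_add]
      unfold nLab
      rw [if_pos h2.1]
    · rw [if_neg (by tauto), if_neg h, if_neg h2, add_zero]

omit hE in
theorem Fw_eq (w : Q → Q → Lb → ℝ) (z : Q) (e : E.Pick) : E.Fw w z e =
    ∑ z', if z ∈ E.L ∧ HasC E.col z' e.1 then w z z' (e.2 z') else 0 := by
  unfold Fw
  by_cases hz : z ∈ E.L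
  · simp only [hz, true_and, if_true]
  · simp only [hz, false_and, if_false, Finset.sum_const_zero]

theorem S1_next (ω : Q → E.Pick) (w : Q → Q → Lb → ℝ) :
    Fire.S1 (E.nCol ω) (E.nLab ω) w = Fire.S1 E.col E.lab w + ∑ z, E.Fw w z (ω z) := by
  unfold Fire.S1
  rw [← Finset.sum_add_distrib]
  refine Finset.sum_congr rfl fun z _ => ?_
  rw [Fw_eq, ← Finset.sum_add_distrib]
  exact Finset.sum_congr rfl fun z' _ => term_next hE ω w z z'

theorem nRa_eq (z z' : Q) : E.nRa z z' = E.ra z z' + E.rt z z' := by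
  unfold nRa rt
  by_cases hz : z ∈ E.L
  · have h1 : E.ra z z' = 0 := by
      by_contra h
      obtain ⟨c, r, -, -, h2, -, -⟩ := hE.inv.ra_col z z' h
      exact not_L_of_hasC ⟨r, h2⟩ hz
    rw [if_pos hz, if_pos hz, h1, zero_add]
  · rw [if_neg hz, if_neg hz, add_zero]

theorem C1r_next (w : Q → Q → Lb → ℝ) :
    E.toFire.C1r E.nRa w = E.toFire.C1r E.ra w + ∑ z, mean E.law (E.Fw w) z := by
  unfold Fire.C1r
  rw [← Finset.sum_add_distrib]
  refine Finset.sum_congr rfl fun z _ => ?_
  rw [mean_Fw hE, ← Finset.sum_add_distrib]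
  refine Finset.sum_congr rfl fun z' _ => ?_
  rw [nRa_eq hE]
  ring

theorem D2_next (ω : Q → E.Pick) (b : B) : E.toFire.D2 (E.nCol ω) (E.nLab ω) b =
    E.toFire.D2 E.col E.lab b + 2 * (∑ z, E.Fal b z (ω z)) + (∑ z, E.Fbe b z (ω z)) +
      E.Fga b ω := by
  set X0 : Q × Q → Pi → ℝ := fun e P =>
    if Fire.fired E.col e.1 e.2 then E.af e.1 e.2 (E.lab e.1 e.2) P else 0 with hX0
  set X1 : Q × Q → Pi → ℝ := fun e P =>
    if e.1 ∈ E.L ∧ HasC E.col e.2 (ω e.1).1 then E.af e.1 e.2 ((ω e.1).2 e.2) P else 0 with hX1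
  have hex : ∀ e P S, X0 e P * X1 e S = 0 := by
    intro e P S
    simp only [hX0, hX1]
    by_cases h : Fire.fired E.col e.1 e.2
    · rw [if_neg (c := e.1 ∈ E.L ∧ HasC E.col e.2 (ω e.1).1)
        fun h3 => (not_L_of_fired h).1 h3.1, mul_zero]
    · rw [if_neg h, zero_mul]
  -- general form of `D2`
  have hD : ∀ (f : Q → Q → Prop) (lb : Q → Q → Lb),
      (∑ z, ∑ z', ∑ y, ∑ y', if f z z' ∧ f y y' ∧ (z, z') ≠ (y, y') then
        ∑ P, ∑ S, E.om b P S * (E.af z z' (lb z z') P * E.af y y' (lb y y') S) else 0) =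
      ∑ e : Q × Q, ∑ e' : Q × Q, (if e ≠ e' then ∑ P, ∑ S, E.om b P S *
        ((if f e.1 e.2 then E.af e.1 e.2 (lb e.1 e.2) P else 0) *
        (if f e'.1 e'.2 then E.af e'.1 e'.2 (lb e'.1 e'.2) S else 0)) else 0) := by
    intro f lb
    simp only [Fintype.sum_prod_type]
    refine Finset.sum_congr rfl fun z _ => Finset.sum_congr rfl fun z' _ =>
      Finset.sum_congr rfl fun y _ => Finset.sum_congr rfl fun y' _ => ?_
    by_cases h1 : f z z' <;> by_cases h2 : f y y' <;> by_cases h3 : (z, z') ≠ (y, y')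
    · simp only [h1, h2, h3, true_and, if_true, ne_eq, not_false_eq_true]
    · simp only [h3, and_false, if_false]
    all_goals simp [h1, h2, h3]
  have hL : E.toFire.D2 (E.nCol ω) (E.nLab ω) b = ∑ e : Q × Q, ∑ e' : Q × Q, (if e ≠ e' then
      ∑ P, ∑ S, E.om b P S * ((X0 e P + X1 e P) * (X0 e' S + X1 e' S)) else 0) := by
    unfold Fire.D2
    rw [hD]
    refine Finset.sum_congr rfl fun e _ => Finset.sum_congr rfl fun e' _ => ?_
    by_cases h : e ≠ e'
    · simp only [if_pos h]
      refine Finset.sum_congr rfl fun P _ => Finset.sum_congr rfl fun S _ => ?_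
      have h1 := term_next hE ω (fun z z' l => E.af z z' l P) e.1 e.2
      have h2 := term_next hE ω (fun z z' l => E.af z z' l S) e'.1 e'.2
      rw [h1, h2]
    · simp only [if_neg h]
  have h00 : ∑ e : Q × Q, ∑ e' : Q × Q, (if e ≠ e' then
      ∑ P, ∑ S, E.om b P S * (X0 e P * X0 e' S) else 0) = E.toFire.D2 E.col E.lab b := by
    unfold Fire.D2
    rw [hD]
  have h01 : ∑ P, ∑ S, E.om b P S * ((∑ e, X0 e P) * ∑ e', X1 e' S) =
      ∑ z, E.Fal b z (ω z) := by
    have e1 : ∀ P, ∑ e, X0 e P = E.toFire.np E.col E.lab P := by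
      intro P
      rw [Fintype.sum_prod_type]
      rfl
    have e2 : ∀ z, E.Fal b z (ω z) = ∑ z', ∑ P, ∑ S, E.om b P S *
        (E.toFire.np E.col E.lab P * X1 (z, z') S) := by
      intro z
      unfold Fal
      rw [Fw_eq]
      refine Finset.sum_congr rfl fun z' _ => ?_
      simp only [hX1]
      by_cases h : z ∈ E.L ∧ HasC E.col z' (ω z).1
      · simp only [if_pos h]
      · simp only [if_neg h, mul_zero, Finset.sum_const_zero]
    have e3 : ∀ P S, E.om b P S * ((∑ e, X0 e P) * ∑ e', X1 e' S) =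
        ∑ e, E.om b P S * (E.toFire.np E.col E.lab P * X1 e S) := by
      intro P S
      rw [e1, Finset.mul_sum, Finset.mul_sum]
    simp only [e3, e2]
    have h4 : ∑ P, ∑ S, ∑ e, E.om b P S * (E.toFire.np E.col E.lab P * X1 e S) =
        ∑ P, ∑ e, ∑ S, E.om b P S * (E.toFire.np E.col E.lab P * X1 e S) :=
      Finset.sum_congr rfl fun P _ => Finset.sum_comm
    rw [h4, Finset.sum_comm, Fintype.sum_prod_type]
  have h11 : ∑ e : Q × Q, ∑ e' : Q × Q, (if e ≠ e' then
      ∑ P, ∑ S, E.om b P S * (X1 e P * X1 e' S) else 0) =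
      (∑ z, E.Fbe b z (ω z)) + E.Fga b ω := by
    have e1 : ∑ e : Q × Q, ∑ e' : Q × Q, (if e ≠ e' then
        ∑ P, ∑ S, E.om b P S * (X1 e P * X1 e' S) else 0) =
        ∑ z, ∑ z', ∑ y, ∑ y', ((if z = y then (if z' ≠ y' then
          ∑ P, ∑ S, E.om b P S * (X1 (z, z') P * X1 (z, y') S) else 0) else 0) +
        (if z ≠ y then ∑ P, ∑ S, E.om b P S * (X1 (z, z') P * X1 (y, y') S) else 0)) := by
      simp only [Fintype.sum_prod_type]
      refine Finset.sum_congr rfl fun z _ => Finset.sum_congr rfl fun z' _ =>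
        Finset.sum_congr rfl fun y _ => Finset.sum_congr rfl fun y' _ => ?_
      by_cases h1 : z = y
      · subst h1
        by_cases h2 : z' = y'
        · subst h2
          simp
        · have h3 : (z, z') ≠ (z, y') := fun h => h2 (Prod.mk.inj h).2
          rw [if_pos h3, if_pos rfl, if_pos h2, if_neg (by simp), add_zero]
      · have h3 : (z, z') ≠ (y, y') := fun h => h1 (Prod.mk.inj h).1
        rw [if_pos h3, if_neg h1, if_pos h1, zero_add]
    rw [e1]
    simp only [Finset.sum_add_distrib]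
    congr 1
    · refine Finset.sum_congr rfl fun z _ => ?_
      have e2 : ∀ z', ∑ y, ∑ y', (if z = y then (if z' ≠ y' then
          ∑ P, ∑ S, E.om b P S * (X1 (z, z') P * X1 (z, y') S) else 0) else 0) =
          ∑ y', (if z' ≠ y' then
          ∑ P, ∑ S, E.om b P S * (X1 (z, z') P * X1 (z, y') S) else 0) := by
        intro z'
        rw [Finset.sum_eq_single z]
        · simp only [if_true]
        · intro y _ hy
          simp only [if_neg (Ne.symm hy), Finset.sum_const_zero]
        · intro h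
          exact absurd (mem_univ _) h
      rw [Finset.sum_congr rfl fun z' _ => e2 z']
      unfold Fbe
      by_cases hz : z ∈ E.L
      · rw [if_pos hz]
        refine Finset.sum_congr rfl fun z' _ => Finset.sum_congr rfl fun y' _ => ?_
        simp only [hX1, hz, true_and]
        by_cases h1 : z' ≠ y'
        · by_cases h2 : HasC E.col z' (ω z).1
          · by_cases h3 : HasC E.col y' (ω z).1
            · simp only [h1, h2, h3, if_true, ne_eq, not_false_eq_true, and_self]
            · simp only [h3, if_false, mul_zero, Finset.sum_const_zero, and_false, ite_self]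
          · simp only [h2, if_false, zero_mul, mul_zero, Finset.sum_const_zero, and_false,
              false_and, ite_self]
        · simp only [h1, if_false, false_and]
      · rw [if_neg hz]
        refine Finset.sum_eq_zero fun z' _ => Finset.sum_eq_zero fun y' _ => ?_
        simp only [hX1, hz, false_and, if_false, mul_zero, Finset.sum_const_zero, ite_self]
    · unfold Fga
      refine Finset.sum_congr rfl fun z _ => ?_
      rw [Finset.sum_comm]
      refine Finset.sum_congr rfl fun y _ => ?_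
      by_cases h1 : z ≠ y
      · simp only [if_pos h1]
        have e3 : ∀ P S, E.om b P S * (E.Fw (fun z z' l => E.af z z' l P) z (ω z) *
            E.Fw (fun y y' l => E.af y y' l S) y (ω y)) =
            ∑ z', ∑ y', E.om b P S * (X1 (z, z') P * X1 (y, y') S) := by
          intro P S
          rw [Fw_eq, Fw_eq, Finset.sum_mul_sum, Finset.mul_sum]
          exact Finset.sum_congr rfl fun z' _ => by rw [Finset.mul_sum]
        simp only [e3]
        have h4 : ∑ P, ∑ S, ∑ z', ∑ y', E.om b P S * (X1 (z, z') P * X1 (y, y') S) =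
            ∑ P, ∑ z', ∑ S, ∑ y', E.om b P S * (X1 (z, z') P * X1 (y, y') S) :=
          Finset.sum_congr rfl fun P _ => Finset.sum_comm
        refine Eq.trans ?_ (h4.trans Finset.sum_comm).symm
        refine Finset.sum_congr rfl fun z' _ => ?_
        have h5 : ∑ P, ∑ S, ∑ y', E.om b P S * (X1 (z, z') P * X1 (y, y') S) =
            ∑ P, ∑ y', ∑ S, E.om b P S * (X1 (z, z') P * X1 (y, y') S) :=
          Finset.sum_congr rfl fun P _ => Finset.sum_comm
        exact (h5.trans Finset.sum_comm).symm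
      · simp only [if_neg h1, Finset.sum_const_zero]
  rw [hL, quad_expand (E.om b) (hE.fok.om_symm b) X0 X1 hex, h00, h01, h11]
  ring

theorem Rt_eq (i : ι) : E.D.Rt E.lam E.p E.col i = ∑ z, ∑ z', E.rt z z' * E.D.w i z z' := by
  unfold NibData.Rt
  have h1 : ∑ z, ∑ z', E.rt z z' * E.D.w i z z' =
      ∑ z ∈ E.L, ∑ z', E.rt z z' * E.D.w i z z' := by
    symm
    refine Finset.sum_subset (Finset.subset_univ _) fun z _ hz => ?_
    refine Finset.sum_eq_zero fun z' _ => ?_
    unfold rt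
    rw [if_neg hz, zero_mul]
  rw [h1]
  unfold L
  refine Finset.sum_congr rfl fun z hz => Finset.sum_congr rfl fun z' _ => ?_
  have hz' : z ∈ E.L := hz
  unfold rt
  rw [if_pos hz', Finset.sum_mul]
  refine Finset.sum_congr rfl fun c _ => ?_
  show (if HasC E.col z' c then _ else _) = _
  split_ifs
  · ring
  · rw [zero_mul]

end

end FRd

end

end Pool.Agent.AcyG
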