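import Pool.Agent.AcyG.FBas

/-! # Double events, part A: one old and one new firing; one vertex (row FD1) -/

set_option autoImplicit false
set_option linter.unusedSectionVars false

namespace Pool.Agent.AcyG

open Finset
open Pool.Agent.Acy (IsPM wt Ex Pr mean)
open Pool.Agent.AcyK (Big StepOK LocOK prodLaw Un Sel updCol HasC SameC L1 C1 S2 C2)
open scoped Classical

universe u v

section

variable {Q ι Lb Pi A B C : Type u} [Fintype Q] [DecidableEq Q] [Fintype ι] [DecidableEq ι]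
  [Fintype Lb] [Fintype Pi] [Fintype A] [Fintype B] [Fintype C]

namespace FRd

variable {E : FRd Q ι Lb Pi A B C}

section
variable (hE : E.Ok)
include hE

theorem fd_m_le : (E.m : ℝ) ≤ E.D.T ^ 150 := by
  have h1 : (E.m : ℝ) ≤ E.D.M := by exact_mod_cast hE.m_lt.le
  have h2 := hE.fok.dok.M_le
  have h3 := hE.fok.dok.q_hi
  have h4 : (0 : ℝ) ≤ E.D.T ^ 133 := pow_nonneg hE.fok.dok.big.pos.le _
  linarith

theorem fd_np_nonneg (P : Pi) : 0 ≤ E.toFire.np E.col E.lab P := by
  unfold Fire.np Fire.S1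
  refine Finset.sum_nonneg fun z _ => Finset.sum_nonneg fun z' _ => ?_
  split_ifs
  · exact hE.fok.af_nonneg _ _ _ _
  · exact le_rfl

theorem fd_np_le (P : Pi) : E.toFire.np E.col E.lab P ≤ E.D.T ^ 308 := by
  have h1 := hE.inv.npP P
  have h2 := fd_m_le hE
  have hT0 := hE.fok.dok.big.pos
  calc E.toFire.np E.col E.lab P ≤ E.m * E.D.T ^ 158 := h1
    _ ≤ E.D.T ^ 150 * E.D.T ^ 158 := mul_le_mul_of_nonneg_right h2 (by positivity)
    _ = E.D.T ^ 308 := by rw [← pow_add]

/-- The sum of the kernel against the number of old events. -/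
theorem fd_sum_np (b : B) : ∑ P, ∑ S, E.om b P S * E.toFire.np E.col E.lab P =
    Fire.S1 E.col E.lab (E.wB b) := by
  have h1 : ∀ P, ∑ S, E.om b P S * E.toFire.np E.col E.lab P =
      ∑ z, ∑ z', if Fire.fired E.col z z' then
        ∑ S, E.om b P S * E.af z z' (E.lab z z') P else 0 := by
    intro P
    rw [← Finset.sum_mul]
    unfold Fire.np Fire.S1
    rw [Finset.mul_sum]
    refine Finset.sum_congr rfl fun z _ => ?_
    rw [Finset.mul_sum]
    refine Finset.sum_congr rfl fun z' _ => ?_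
    rw [mul_ite, mul_zero, Finset.sum_mul]
  rw [Finset.sum_congr rfl fun P _ => h1 P, Finset.sum_comm]
  unfold Fire.S1
  refine Finset.sum_congr rfl fun z _ => ?_
  rw [Finset.sum_comm]
  refine Finset.sum_congr rfl fun z' _ => ?_
  by_cases h : Fire.fired E.col z z'
  · simp only [if_pos h]
    rfl
  · simp only [if_neg h, Finset.sum_const_zero]

/-- The weight of the test (al). -/
noncomputable def wal (E : FRd Q ι Lb Pi A B C) (b : B) (z z' : Q) (l : Lb) : ℝ :=
  ∑ P, ∑ S, E.om b P S * (E.toFire.np E.col E.lab P * E.af z z' l S)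

theorem wal_nonneg (b : B) (z z' : Q) (l : Lb) : 0 ≤ wal E b z z' l :=
  Finset.sum_nonneg fun P _ => Finset.sum_nonneg fun S _ =>
    mul_nonneg (hE.fok.om_nonneg _ _ _) (mul_nonneg (fd_np_nonneg hE P)
      (hE.fok.af_nonneg _ _ _ _))

theorem wal_le (b : B) (z z' : Q) (l : Lb) :
    wal E b z z' l ≤ E.D.T ^ 308 * E.wB b z z' l := by
  rw [← Fire.wB_right hE.fok b z z' l, Finset.mul_sum]
  refine Finset.sum_le_sum fun P _ => ?_
  rw [Finset.mul_sum]
  refine Finset.sum_le_sum fun S _ => ?_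
  have h1 := fd_np_le hE P
  have h2 := hE.fok.om_nonneg b P S
  have h3 := hE.fok.af_nonneg z z' l S
  calc E.om b P S * (E.toFire.np E.col E.lab P * E.af z z' l S)
      = E.toFire.np E.col E.lab P * (E.om b P S * E.af z z' l S) := by ring
    _ ≤ E.D.T ^ 308 * (E.om b P S * E.af z z' l S) :=
        mul_le_mul_of_nonneg_right h1 (mul_nonneg h2 h3)

theorem Fal_eq (b : B) (z : Q) (e : E.Pick) : E.Fal b z e = E.Fw (wal E b) z e := rfl

theorem Fal_nonneg (b : B) (z : Q) (e : E.Pick) : 0 ≤ E.Fal b z e := by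
  rw [Fal_eq hE]
  unfold Fw
  split_ifs
  · refine Finset.sum_nonneg fun z' _ => ?_
    split_ifs
    · exact wal_nonneg hE _ _ _ _
    · exact le_rfl
  · exact le_rfl

theorem Fal_le (b : B) (z : Q) (e : E.Pick) : E.Fal b z e ≤ 5 * E.D.T ^ 459 * E.wb b := by
  have hT0 := hE.fok.dok.big.pos
  have hwb := hE.fok.wb_pos b
  rw [Fal_eq hE]
  unfold Fw
  split_ifs
  · have h1 := cls_B hE b z e.1 e.2
    calc ∑ z', (if HasC E.col z' e.1 then wal E b z z' (e.2 z') else 0)
        ≤ ∑ z', E.D.T ^ 308 * (if HasC E.col z' e.1 then E.wB b z z' (e.2 z') else 0) := by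
          refine Finset.sum_le_sum fun z' _ => ?_
          split_ifs
          · exact wal_le hE b z z' _
          · rw [mul_zero]
      _ = E.D.T ^ 308 * ∑ z', (if HasC E.col z' e.1 then E.wB b z z' (e.2 z') else 0) := by
          rw [Finset.mul_sum]
      _ ≤ E.D.T ^ 308 * (5 * E.D.T ^ 151 * E.wb b) :=
          mul_le_mul_of_nonneg_left h1 (by positivity)
      _ = 5 * E.D.T ^ 459 * E.wb b := by
          rw [show (459 : ℕ) = 151 + 308 by norm_num, pow_add]
          ring
  · positivity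

/-- Mean of the test (al). -/
theorem Fal_mean (b : B) : ∑ z, mean E.law (E.Fal b) z ≤ E.toFire.fB b / E.D.T ^ 769 := by
  have hT := hE.fok.dok.big
  have hT0 := hT.pos
  have hrho := Fire.rho_nonneg hE.fok
  have hfB := Fire.fB_nonneg hE.fok b
  have h1 : ∀ z, mean E.law (E.Fal b) z = ∑ z', E.rt z z' * ∑ l, E.μ z z' l * wal E b z z' l :=
    fun z => mean_Fw hE (wal E b) z
  -- exchange of the sums
  have h2 : ∀ z z', ∑ l, E.μ z z' l * wal E b z z' l =
      ∑ P, ∑ S, E.om b P S * E.toFire.np E.col E.lab P * E.toFire.aa z z' S := by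
    intro z z'
    unfold wal Fire.aa
    simp only [Finset.mul_sum]
    rw [Finset.sum_comm]
    refine Finset.sum_congr rfl fun P _ => ?_
    rw [Finset.sum_comm]
    refine Finset.sum_congr rfl fun S _ => ?_
    refine Finset.sum_congr rfl fun l _ => ?_
    ring
  have h3 : ∑ z, mean E.law (E.Fal b) z = ∑ P, ∑ S, E.om b P S *
      E.toFire.np E.col E.lab P * (∑ z, ∑ z', E.rt z z' * E.toFire.aa z z' S) := by
    simp only [h1, h2, Finset.mul_sum]
    have e1 : ∀ z : Q, ∑ z', ∑ P, ∑ S, E.rt z z' *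
        (E.om b P S * E.toFire.np E.col E.lab P * E.toFire.aa z z' S) =
        ∑ P, ∑ S, ∑ z', E.om b P S * E.toFire.np E.col E.lab P *
          (E.rt z z' * E.toFire.aa z z' S) := by
      intro z
      rw [Finset.sum_comm]
      refine Finset.sum_congr rfl fun P _ => ?_
      rw [Finset.sum_comm]
      refine Finset.sum_congr rfl fun S _ => ?_
      refine Finset.sum_congr rfl fun z' _ => ?_
      ring
    simp only [e1]
    rw [Finset.sum_comm]
    refine Finset.sum_congr rfl fun P _ => ?_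
    rw [Finset.sum_comm]
  have h4 : ∀ S, ∑ z, ∑ z', E.rt z z' * E.toFire.aa z z' S ≤ E.rho * E.D.T ^ 3078 := by
    intro S
    have h5 : ∀ z, ∑ z', E.rt z z' * E.toFire.aa z z' S ≤
        if z ∈ E.L then E.rho * E.toFire.mA z S else 0 := by
      intro z
      by_cases hz : z ∈ E.L
      · rw [if_pos hz]
        unfold Fire.mA
        rw [Finset.mul_sum]
        exact Finset.sum_le_sum fun z' _ =>
          mul_le_mul_of_nonneg_right (rt_le hE z z') (Fire.aa_nonneg hE.fok z z' S)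
      · rw [if_neg hz]
        refine le_of_eq (Finset.sum_eq_zero fun z' _ => ?_)
        unfold rt
        rw [if_neg hz, zero_mul]
    calc ∑ z, ∑ z', E.rt z z' * E.toFire.aa z z' S
        ≤ ∑ z, (if z ∈ E.L then E.rho * E.toFire.mA z S else 0) :=
          Finset.sum_le_sum fun z _ => h5 z
      _ = E.rho * ∑ z ∈ E.L, E.toFire.mA z S := by
          rw [Finset.sum_ite_mem, Finset.univ_inter, Finset.mul_sum]
      _ ≤ E.rho * E.D.T ^ 3078 := mul_le_mul_of_nonneg_left (hE.good.l3 S) hrho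
  have h6 : ∑ z, mean E.law (E.Fal b) z ≤ E.rho * E.D.T ^ 3078 *
      Fire.S1 E.col E.lab (E.wB b) := by
    rw [h3, ← fd_sum_np hE b, Finset.mul_sum]
    refine Finset.sum_le_sum fun P _ => ?_
    rw [Finset.mul_sum]
    refine Finset.sum_le_sum fun S _ => ?_
    calc E.om b P S * E.toFire.np E.col E.lab P * (∑ z, ∑ z', E.rt z z' * E.toFire.aa z z' S)
        ≤ E.om b P S * E.toFire.np E.col E.lab P * (E.rho * E.D.T ^ 3078) :=
          mul_le_mul_of_nonneg_left (h4 S)
            (mul_nonneg (hE.fok.om_nonneg _ _ _) (fd_np_nonneg hE P))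
      _ = E.rho * E.D.T ^ 3078 * (E.om b P S * E.toFire.np E.col E.lab P) := by ring
  have h7 : Fire.S1 E.col E.lab (E.wB b) ≤ E.D.T ^ 150 * E.toFire.fB b :=
    (hE.inv.linB b).trans (mul_le_mul_of_nonneg_right (fd_m_le hE) hfB)
  have h8 : E.rho ≤ 1 / E.D.T ^ 3997 := Fire.rho_le hE.fok
  calc ∑ z, mean E.law (E.Fal b) z
      ≤ E.rho * E.D.T ^ 3078 * Fire.S1 E.col E.lab (E.wB b) := h6
    _ ≤ E.rho * E.D.T ^ 3078 * (E.D.T ^ 150 * E.toFire.fB b) :=
        mul_le_mul_of_nonneg_left h7 (by positivity)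
    _ ≤ 1 / E.D.T ^ 3997 * E.D.T ^ 3078 * (E.D.T ^ 150 * E.toFire.fB b) := by
        refine mul_le_mul_of_nonneg_right ?_ (by positivity)
        exact mul_le_mul_of_nonneg_right h8 (by positivity)
    _ = E.toFire.fB b / E.D.T ^ 769 := by
        field_simp

theorem fd_mB_nonneg (b : B) (z : Q) : 0 ≤ E.mB b z :=
  Finset.sum_nonneg fun z' _ => Finset.sum_nonneg fun l _ =>
    mul_nonneg (hE.fok.mu_nonneg _ _ _) (Fire.wB_nonneg hE.fok _ _ _ _)

theorem fd_tb_nonneg (b : B) : 0 ≤ E.tb b :=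
  (Finset.sum_nonneg fun z _ => fd_mB_nonneg hE b z).trans (hE.fok.B_tot b)

theorem fd_db_nonneg (b : B) (z : Q) : 0 ≤ E.db b :=
  (fd_mB_nonneg hE b z).trans (hE.fok.B_row b z)

/-- Local family for a test whose functions live on the support of the kernel. -/
theorem fd_loc (g : B → Q → E.Pick → ℝ) (hg : ∀ b z e, 0 ≤ g b z e) (M : B → ℝ)
    (hM : ∀ b, 0 < M b) (h0 : ∀ b, ∑ z, mean E.law (g b) z ≤ M b)
    (h1 : ∀ b z e, g b z e ≤ M b)
    (hs : ∀ b z e, (∀ z' l, E.wB b z z' l = 0) → g b z e = 0)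
    (hfin : ∀ b, Nonempty Q → 4 * E.D.T * M b ≤ E.eB b / 4) :
    LocOK 30000 E.D.T E.law (fun ω => ∀ b, ∑ z, g b z (ω z) ≤ E.eB b / 4) := by
  have hT := hE.fok.dok.big
  have h := Pool.Agent.AcyK.loc_single hT (law_isPM hE) (κ := B) (fun _ => True)
    g hg M (fun b _ => hM b)
    (fun b _ => by
      have h3 : ∑ u, ∑ c, g b u c * E.law u c = ∑ z, mean E.law (g b) z := by
        refine Finset.sum_congr rfl fun z _ => ?_
        unfold mean
        exact Finset.sum_congr rfl fun c _ => mul_comm _ _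
      rw [h3]
      exact h0 b)
    (fun b _ z e => h1 b z e)
    (fun b => univ.filter fun z => ∃ z', E.bs b z z' ≠ 0 ∨ E.bs b z' z ≠ 0)
    (fun b _ z e h => by
      rw [mem_filter]
      refine ⟨mem_univ _, ?_⟩
      by_contra hc
      push Not at hc
      refine h (hs b z e fun z' l => le_antisymm ?_ (Fire.wB_nonneg hE.fok _ _ _ _))
      have h1 := hE.fok.B_maj b z z' l
      rwa [(hc z').1] at h1) 30000
    (fun b _ => (hE.fok.bs_supp b).trans (hT.pw (by norm_num)))
    (fun y => ⟨univ.filter fun b => ∃ z', E.bs b y z' ≠ 0 ∨ E.bs b z' y ≠ 0, fun a _ h => by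
        rw [mem_filter] at h ⊢
        exact ⟨mem_univ _, h.2⟩, (hE.fok.bs_deg y).trans (hT.pw (by norm_num))⟩)
  obtain ⟨κ', hκ', EE, S', hd, hp, hs, hi, hgood⟩ := h
  refine ⟨κ', hκ', EE, S', hd, hp, hs, hi, fun ω hEE b => ?_⟩
  rcases isEmpty_or_nonempty Q with hq | hq
  · rw [Finset.univ_eq_empty, Finset.sum_empty]
    exact div_nonneg (Fire.eB_nonneg hE.fok b) (by norm_num)
  · exact (hgood ω hEE b trivial).trans (hfin b hq)

/-- (al): `np ≤ T^308` pathwise, `sum om np S = S1 (wB)`. -/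
theorem loc_g4 : LocOK 30000 E.D.T E.law (fun ω => ∀ b,
    ∑ z, E.Fal b z (ω z) ≤ E.eB b / 4) := by
  have hT := hE.fok.dok.big
  have hT0 := hT.pos
  have hTb := hT.big
  norm_num at hTb
  let M : B → ℝ := fun b => E.toFire.fB b / E.D.T ^ 769 + 5 * E.D.T ^ 459 * E.wb b
  have hM : ∀ b, 0 < M b := fun b => by
    have h1 := Fire.fB_nonneg hE.fok b
    have h2 := hE.fok.wb_pos b
    have h3 : 0 ≤ E.toFire.fB b / E.D.T ^ 769 := div_nonneg h1 (by positivity)
    have h4 : 0 < 5 * E.D.T ^ 459 * E.wb b := by positivity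
    exact add_pos_of_nonneg_of_pos h3 h4
  refine fd_loc hE (fun b z e => E.Fal b z e) (fun b z e => Fal_nonneg hE b z e) M hM
    (fun b => ?_) (fun b z e => ?_) (fun b z e hc => ?_) (fun b hq => ?_)
  · have h1 := Fal_mean hE b
    have h2 := hE.fok.wb_pos b
    have h4 : 0 ≤ 5 * E.D.T ^ 459 * E.wb b := by positivity
    exact h1.trans (le_add_of_nonneg_right h4)
  · have h1 := Fal_le hE b z e
    have h2 := Fire.fB_nonneg hE.fok b
    have h3 : 0 ≤ E.toFire.fB b / E.D.T ^ 769 := div_nonneg h2 (by positivity)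
    exact h1.trans (le_add_of_nonneg_left h3)
  · show E.Fal b z e = 0
    rw [Fal_eq hE]
    unfold Fw
    split_ifs
    · refine Finset.sum_eq_zero fun z' _ => ?_
      split_ifs
      · have h1 := wal_le hE b z z' (e.2 z')
        rw [hc z' (e.2 z'), mul_zero] at h1
        exact le_antisymm h1 (wal_nonneg hE _ _ _ _)
      · rfl
    · rfl
  -- numbers
  have hwb := (hE.fok.wb_pos b).le
  have htb := fd_tb_nonneg hE b
  obtain ⟨q⟩ := hq
  have hdb := fd_db_nonneg hE b q
  show 4 * E.D.T * (E.toFire.fB b / E.D.T ^ 769 + 5 * E.D.T ^ 459 * E.wb b) ≤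
    E.toFire.eB b / 4
  unfold Fire.fB Fire.eB
  have e1 : 16 * E.D.T * (E.tb b / E.D.T ^ 4122 / E.D.T ^ 769) ≤ E.tb b / E.D.T ^ 4888 := by
    have h1 : 16 * E.D.T * (E.tb b / E.D.T ^ 4122 / E.D.T ^ 769) =
        16 / E.D.T ^ 2 * (E.tb b / E.D.T ^ 4888) := by
      field_simp
    rw [h1]
    have h2 : 16 / E.D.T ^ 2 ≤ 1 := by
      rw [div_le_one (by positivity)]
      nlinarith
    have h3 : 0 ≤ E.tb b / E.D.T ^ 4888 := by positivity
    nlinarith
  have e2 : 16 * E.D.T * (E.db b / E.D.T ^ 3860 / E.D.T ^ 769) ≤ E.db b / E.D.T ^ 3680 := by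
    have h1 : 16 * E.D.T * (E.db b / E.D.T ^ 3860 / E.D.T ^ 769) =
        16 / E.D.T ^ 948 * (E.db b / E.D.T ^ 3680) := by
      field_simp
    rw [h1]
    have h2 : 16 / E.D.T ^ 948 ≤ 1 := by
      rw [div_le_one (by positivity)]
      have := hT.pw (show 1 ≤ 948 by norm_num)
      rw [pow_one] at this
      linarith
    have h3 : 0 ≤ E.db b / E.D.T ^ 3680 := by positivity
    nlinarith
  have e3 : 16 * E.D.T * (E.D.T ^ 160 * E.wb b / E.D.T ^ 769) ≤ E.wb b := by
    have h1 : 16 * E.D.T * (E.D.T ^ 160 * E.wb b / E.D.T ^ 769) =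
        16 / E.D.T ^ 608 * E.wb b := by
      field_simp
    rw [h1]
    have h2 : 16 / E.D.T ^ 608 ≤ 1 := by
      rw [div_le_one (by positivity)]
      have := hT.pw (show 1 ≤ 608 by norm_num)
      rw [pow_one] at this
      linarith
    nlinarith
  have e4 : 16 * E.D.T * (5 * E.D.T ^ 459 * E.wb b) ≤ 80 * E.D.T ^ 460 * E.wb b := by
    refine le_of_eq ?_
    ring
  have e5 : E.wb b + 80 * E.D.T ^ 460 * E.wb b ≤ E.D.T ^ 470 * E.wb b := by
    have h1 : (1 : ℝ) ≤ E.D.T ^ 460 := one_le_pow₀ hT.one_le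
    have h2 : 81 * E.D.T ^ 460 ≤ E.D.T ^ 470 := by
      have h3 : E.D.T ^ 470 = E.D.T ^ 10 * E.D.T ^ 460 := by rw [← pow_add]
      have h4 := hT.pw (show 1 ≤ 10 by norm_num)
      rw [pow_one] at h4
      rw [h3]
      exact mul_le_mul_of_nonneg_right (by linarith) (by positivity)
    nlinarith
  have e6 : E.toFire.fB b = E.tb b / E.D.T ^ 4122 + E.db b / E.D.T ^ 3860 +
    E.D.T ^ 160 * E.wb b := rfl
  have e7 : (E.tb b / E.D.T ^ 4122 + E.db b / E.D.T ^ 3860 + E.D.T ^ 160 * E.wb b) /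
      E.D.T ^ 769 = E.tb b / E.D.T ^ 4122 / E.D.T ^ 769 + E.db b / E.D.T ^ 3860 / E.D.T ^ 769 +
        E.D.T ^ 160 * E.wb b / E.D.T ^ 769 := by
    rw [add_div, add_div]
  rw [e7]
  linarith

/-! ### One vertex -/

/-- The weight of the test (be). -/
noncomputable def wbe (E : FRd Q ι Lb Pi A B C) (b : B) (z z' z'' : Q) (l l' : Lb) : ℝ :=
  ∑ P, ∑ S, E.om b P S * (E.af z z' l P * E.af z z'' l' S)

theorem wbe_nonneg (b : B) (z z' z'' : Q) (l l' : Lb) : 0 ≤ wbe E b z z' z'' l l' :=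
  Finset.sum_nonneg fun _ _ => Finset.sum_nonneg fun _ _ =>
    mul_nonneg (hE.fok.om_nonneg _ _ _) (mul_nonneg (hE.fok.af_nonneg _ _ _ _)
      (hE.fok.af_nonneg _ _ _ _))

theorem wbe_zero (b : B) (z z' z'' : Q) (l l' : Lb) (h : E.wB b z z' l = 0) :
    wbe E b z z' z'' l l' = 0 := by
  have h1 : ∀ P ∈ (univ : Finset Pi), ∑ S, E.om b P S * E.af z z' l P = 0 := by
    refine (Finset.sum_eq_zero_iff_of_nonneg fun P _ => Finset.sum_nonneg fun S _ =>
      mul_nonneg (hE.fok.om_nonneg _ _ _) (hE.fok.af_nonneg _ _ _ _)).1 h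
  unfold wbe
  refine Finset.sum_eq_zero fun P hP => Finset.sum_eq_zero fun S hS => ?_
  have h2 := (Finset.sum_eq_zero_iff_of_nonneg fun S _ =>
    mul_nonneg (hE.fok.om_nonneg b P S) (hE.fok.af_nonneg z z' l P)).1 (h1 P hP) S hS
  rw [← mul_assoc, h2, zero_mul]

theorem Fbe_eq (b : B) (z : Q) (e : E.Pick) : E.Fbe b z e =
    if z ∈ E.L then ∑ z', ∑ z'', (if z' ≠ z'' ∧ HasC E.col z' e.1 ∧ HasC E.col z'' e.1 then
      wbe E b z z' z'' (e.2 z') (e.2 z'') else 0) else 0 := rfl

theorem Fbe_nonneg (b : B) (z : Q) (e : E.Pick) : 0 ≤ E.Fbe b z e := by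
  rw [Fbe_eq hE]
  by_cases h : z ∈ E.L
  · rw [if_pos h]
    refine Finset.sum_nonneg fun z' _ => Finset.sum_nonneg fun z'' _ => ?_
    split_ifs
    · exact wbe_nonneg hE _ _ _ _ _ _
    · exact le_rfl
  · rw [if_neg h]

theorem Fbe_le (b : B) (z : Q) (e : E.Pick) : E.Fbe b z e ≤ 25 * E.D.T ^ 303 * E.wb b := by
  have hT0 := hE.fok.dok.big.pos
  have hwb := hE.fok.wb_pos b
  rw [Fbe_eq hE]
  by_cases h : z ∈ E.L
  · rw [if_pos h]
    -- the inner sum
    have h1 : ∀ z', ∑ z'', (if z' ≠ z'' ∧ HasC E.col z' e.1 ∧ HasC E.col z'' e.1 then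
        wbe E b z z' z'' (e.2 z') (e.2 z'') else 0) ≤
        if HasC E.col z' e.1 then 5 * E.D.T ^ 152 * E.wB b z z' (e.2 z') else 0 := by
      intro z'
      by_cases hc : HasC E.col z' e.1
      · rw [if_pos hc]
        have h2 : ∑ z'', (if z' ≠ z'' ∧ HasC E.col z' e.1 ∧ HasC E.col z'' e.1 then
            wbe E b z z' z'' (e.2 z') (e.2 z'') else 0) ≤
            ∑ z'', (if HasC E.col z'' e.1 then wbe E b z z' z'' (e.2 z') (e.2 z'') else 0) := by
          refine Finset.sum_le_sum fun z'' _ => ?_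
          by_cases hc2 : HasC E.col z'' e.1
          · rw [if_pos hc2]
            split_ifs
            · exact le_rfl
            · exact wbe_nonneg hE _ _ _ _ _ _
          · rw [if_neg hc2, if_neg (fun h => hc2 h.2.2)]
        refine h2.trans ?_
        have h3 : ∑ z'', (if HasC E.col z'' e.1 then wbe E b z z' z'' (e.2 z') (e.2 z'') else 0) =
            ∑ P, ∑ S, E.om b P S * E.af z z' (e.2 z') P *
              ∑ z'', (if HasC E.col z'' e.1 then E.af z z'' (e.2 z'') S else 0) := by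
          unfold wbe
          have e1 : ∀ z'' : Q, (if HasC E.col z'' e.1 then
              ∑ P, ∑ S, E.om b P S * (E.af z z' (e.2 z') P * E.af z z'' (e.2 z'') S) else 0) =
              ∑ P, ∑ S, E.om b P S * E.af z z' (e.2 z') P *
                (if HasC E.col z'' e.1 then E.af z z'' (e.2 z'') S else 0) := by
            intro z''
            split_ifs
            · refine Finset.sum_congr rfl fun P _ => Finset.sum_congr rfl fun S _ => ?_
              ring
            · simp only [mul_zero, Finset.sum_const_zero]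
          rw [Finset.sum_congr rfl fun z'' _ => e1 z'', Finset.sum_comm]
          refine Finset.sum_congr rfl fun P _ => ?_
          rw [Finset.sum_comm]
          refine Finset.sum_congr rfl fun S _ => ?_
          rw [Finset.mul_sum]
        rw [h3]
        unfold Fire.wB
        rw [Finset.mul_sum]
        refine Finset.sum_le_sum fun P _ => ?_
        rw [Finset.mul_sum]
        refine Finset.sum_le_sum fun S _ => ?_
        have h4 := cls_A hE S z e.1 e.2
        calc E.om b P S * E.af z z' (e.2 z') P *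
              ∑ z'', (if HasC E.col z'' e.1 then E.af z z'' (e.2 z'') S else 0)
            ≤ E.om b P S * E.af z z' (e.2 z') P * (5 * E.D.T ^ 152) :=
              mul_le_mul_of_nonneg_left h4
                (mul_nonneg (hE.fok.om_nonneg _ _ _) (hE.fok.af_nonneg _ _ _ _))
          _ = 5 * E.D.T ^ 152 * (E.om b P S * E.af z z' (e.2 z') P) := by ring
      · rw [if_neg hc]
        refine le_of_eq (Finset.sum_eq_zero fun z'' _ => ?_)
        rw [if_neg (fun h => hc h.2.1)]
    refine (Finset.sum_le_sum fun z' _ => h1 z').trans ?_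
    have h5 := cls_B hE b z e.1 e.2
    calc ∑ z', (if HasC E.col z' e.1 then 5 * E.D.T ^ 152 * E.wB b z z' (e.2 z') else 0)
        = 5 * E.D.T ^ 152 * ∑ z', (if HasC E.col z' e.1 then E.wB b z z' (e.2 z') else 0) := by
          rw [Finset.mul_sum]
          refine Finset.sum_congr rfl fun z' _ => ?_
          rw [mul_ite, mul_zero]
      _ ≤ 5 * E.D.T ^ 152 * (5 * E.D.T ^ 151 * E.wb b) :=
          mul_le_mul_of_nonneg_left h5 (by positivity)
      _ = 25 * E.D.T ^ 303 * E.wb b := by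
          rw [show (303 : ℕ) = 151 + 152 by norm_num, pow_add]
          ring
  · rw [if_neg h]
    positivity

/-- Mean of the test (be). -/
theorem Fbe_mean (b : B) : ∑ z, mean E.law (E.Fbe b) z ≤
    E.rho * S2 E.col (E.toFire.W2 b) := by
  have hrho := Fire.rho_nonneg hE.fok
  -- the mean over the labels
  have h1 : ∀ z z' z'' : Q, ∑ l, ∑ l', E.μ z z' l * (E.μ z z'' l' * wbe E b z z' z'' l l') =
      ∑ P, ∑ S, E.om b P S * (E.toFire.aa z z' P * E.toFire.aa z z'' S) := by
    intro z z' z''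
    have e1 : ∀ l l', E.μ z z' l * (E.μ z z'' l' * wbe E b z z' z'' l l') =
        ∑ P, ∑ S, E.om b P S * ((E.μ z z' l * E.af z z' l P) *
          (E.μ z z'' l' * E.af z z'' l' S)) := by
      intro l l'
      unfold wbe
      simp only [Finset.mul_sum]
      refine Finset.sum_congr rfl fun P _ => Finset.sum_congr rfl fun S _ => ?_
      ring
    simp only [e1]
    have e2 : ∀ l : Lb, ∑ l', ∑ P, ∑ S, E.om b P S * ((E.μ z z' l * E.af z z' l P) *
          (E.μ z z'' l' * E.af z z'' l' S)) =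
        ∑ P, ∑ S, E.om b P S * ((E.μ z z' l * E.af z z' l P) * E.toFire.aa z z'' S) := by
      intro l
      rw [Finset.sum_comm]
      refine Finset.sum_congr rfl fun P _ => ?_
      rw [Finset.sum_comm]
      refine Finset.sum_congr rfl fun S _ => ?_
      unfold Fire.aa
      rw [Finset.mul_sum, Finset.mul_sum]
    simp only [e2]
    rw [Finset.sum_comm]
    refine Finset.sum_congr rfl fun P _ => ?_
    rw [Finset.sum_comm]
    refine Finset.sum_congr rfl fun S _ => ?_
    rw [← Finset.mul_sum]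
    congr 1
    unfold Fire.aa
    rw [Finset.sum_mul]
  have hX : ∀ z z' z'' : Q, 0 ≤ ∑ P, ∑ S, E.om b P S *
      (E.toFire.aa z z' P * E.toFire.aa z z'' S) := fun z z' z'' =>
    Finset.sum_nonneg fun P _ => Finset.sum_nonneg fun S _ =>
      mul_nonneg (hE.fok.om_nonneg _ _ _) (mul_nonneg (Fire.aa_nonneg hE.fok _ _ _)
        (Fire.aa_nonneg hE.fok _ _ _))
  have h2 : ∀ z, mean E.law (E.Fbe b) z ≤ ∑ c, E.rho * ∑ z', ∑ z'',
      (if z' ≠ z'' ∧ HasC E.col z' c ∧ HasC E.col z'' c then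
        ∑ P, ∑ S, E.om b P S * (E.toFire.aa z z' P * E.toFire.aa z z'' S) else 0) := by
    intro z
    have h3 := mean_two hE (wbe E b) z
    have h4 : mean E.law (E.Fbe b) z = mean E.law (fun z e =>
      if z ∈ E.L then ∑ z', ∑ z'', (if z' ≠ z'' ∧ HasC E.col z' e.1 ∧ HasC E.col z'' e.1 then
        wbe E b z z' z'' (e.2 z') (e.2 z'') else 0) else 0) z := rfl
    rw [h4, h3]
    simp only [h1]
    have hin : ∀ c, 0 ≤ ∑ z', ∑ z'',
        (if z' ≠ z'' ∧ HasC E.col z' c ∧ HasC E.col z'' c then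
          ∑ P, ∑ S, E.om b P S * (E.toFire.aa z z' P * E.toFire.aa z z'' S) else 0) := by
      intro c
      refine Finset.sum_nonneg fun z' _ => Finset.sum_nonneg fun z'' _ => ?_
      split_ifs
      · exact hX z z' z''
      · exact le_rfl
    by_cases hz : z ∈ E.L
    · rw [if_pos hz]
      exact Finset.sum_le_sum fun c _ => mul_le_mul_of_nonneg_right (hE.p_le z c) (hin c)
    · rw [if_neg hz]
      exact Finset.sum_nonneg fun c _ => mul_nonneg hrho (hin c)
  refine (Finset.sum_le_sum fun z _ => h2 z).trans (le_of_eq ?_)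
  -- exchange
  have h5 : ∀ z, ∑ c, E.rho * ∑ z', ∑ z'',
      (if z' ≠ z'' ∧ HasC E.col z' c ∧ HasC E.col z'' c then
        ∑ P, ∑ S, E.om b P S * (E.toFire.aa z z' P * E.toFire.aa z z'' S) else 0) =
      E.rho * ∑ z', ∑ z'', (if z' ≠ z'' ∧ SameC E.col z' z'' then
        ∑ P, ∑ S, E.om b P S * (E.toFire.aa z z' P * E.toFire.aa z z'' S) else 0) := by
    intro z
    rw [← Finset.mul_sum]
    congr 1
    rw [Finset.sum_comm]
    refine Finset.sum_congr rfl fun z' _ => ?_
    rw [Finset.sum_comm]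
    refine Finset.sum_congr rfl fun z'' _ => ?_
    by_cases h : z' ≠ z'' ∧ SameC E.col z' z''
    · rw [if_pos h]
      obtain ⟨hne, c, hc, hc'⟩ := h
      rw [Finset.sum_eq_single c]
      · rw [if_pos ⟨hne, hc, hc'⟩]
      · intro c' _ hcc
        rw [if_neg]
        rintro ⟨_, h1, _⟩
        exact hcc (h1.uniq hc)
      · intro h
        exact absurd (mem_univ _) h
    · rw [if_neg h]
      refine Finset.sum_eq_zero fun c _ => ?_
      rw [if_neg]
      rintro ⟨h1, h2, h3⟩
      exact h ⟨h1, c, h2, h3⟩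
  rw [Finset.sum_congr rfl fun z _ => h5 z, ← Finset.mul_sum]
  congr 1
  unfold S2 Fire.W2
  rw [Finset.sum_comm]
  refine Finset.sum_congr rfl fun z' _ => ?_
  rw [Finset.sum_comm]
  refine Finset.sum_congr rfl fun z'' _ => ?_
  by_cases h : z' ≠ z'' ∧ SameC E.col z' z''
  · simp only [if_pos h]
  · simp only [if_neg h, Finset.sum_const_zero]

/-- (be): mean `≤ rho * S2`. -/
theorem loc_g5 : LocOK 30000 E.D.T E.law (fun ω => ∀ b,
    ∑ z, E.Fbe b z (ω z) ≤ E.eB b / 4) := by
  have hT := hE.fok.dok.big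
  have hT0 := hT.pos
  have hTb := hT.big
  norm_num at hTb
  have htb := fd_tb_nonneg hE
  let M : B → ℝ := fun b => 13 * E.tb b / E.D.T ^ 6388 +
    13 * (|E.db b| + E.wb b) / E.D.T ^ 3688 + 25 * E.D.T ^ 303 * E.wb b
  have hwb := hE.fok.wb_pos
  have hA : ∀ b, 0 ≤ 13 * E.tb b / E.D.T ^ 6388 + 13 * (|E.db b| + E.wb b) / E.D.T ^ 3688 := by
    intro b
    have h1 := hwb b
    have h2 := htb b
    positivity
  have hM : ∀ b, 0 < M b := fun b => by
    have h1 := hwb b
    have h4 : 0 < 25 * E.D.T ^ 303 * E.wb b := by positivity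
    exact add_pos_of_nonneg_of_pos (hA b) h4
  refine fd_loc hE (fun b z e => E.Fbe b z e) (fun b z e => Fbe_nonneg hE b z e) M hM
    (fun b => ?_) (fun b z e => ?_) (fun b z e hc => ?_) (fun b hq => ?_)
  · -- the mean
    have h1 := Fbe_mean hE b
    have h2 := hE.inv.s2 b
    have hrho := Fire.rho_nonneg hE.fok
    have hrho2 : E.rho ≤ 1 / E.D.T ^ 3997 := Fire.rho_le hE.fok
    have h3 : C2 E.col (E.toFire.W2 b) ≤ E.D.T ^ 1604 * E.tb b := by
      refine le_trans ?_ (Fire.W2_tot hE.fok b)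
      unfold C2
      refine Finset.sum_le_sum fun z _ => Finset.sum_le_sum fun z' _ => ?_
      split_ifs
      · exact le_rfl
      · exact Fire.W2_nonneg hE.fok _ _ _
    have h4 : (E.m : ℝ) * (E.D.T ^ 157 * (E.db b + E.wb b)) ≤
        E.D.T ^ 307 * (|E.db b| + E.wb b) := by
      have h5 := fd_m_le hE
      have h6 : E.db b + E.wb b ≤ |E.db b| + E.wb b := by linarith [le_abs_self (E.db b)]
      have h7 : 0 ≤ |E.db b| + E.wb b := by have := hwb b; positivity
      calc (E.m : ℝ) * (E.D.T ^ 157 * (E.db b + E.wb b))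
          ≤ (E.m : ℝ) * (E.D.T ^ 157 * (|E.db b| + E.wb b)) := by
            refine mul_le_mul_of_nonneg_left ?_ (Nat.cast_nonneg _)
            exact mul_le_mul_of_nonneg_left h6 (by positivity)
        _ ≤ E.D.T ^ 150 * (E.D.T ^ 157 * (|E.db b| + E.wb b)) :=
            mul_le_mul_of_nonneg_right h5 (mul_nonneg (pow_nonneg hT0.le _) h7)
        _ = E.D.T ^ 307 * (|E.db b| + E.wb b) := by
            rw [← mul_assoc, ← pow_add]
    have htb' := htb b
    have h7 : 0 ≤ |E.db b| + E.wb b := by have := hwb b; positivity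
    have h5 : S2 E.col (E.toFire.W2 b) ≤ 13 * E.D.T ^ 2 *
        (E.rho * (E.D.T ^ 1604 * E.tb b) + E.D.T ^ 307 * (|E.db b| + E.wb b)) := by
      refine h2.trans (mul_le_mul_of_nonneg_left ?_ (by positivity))
      exact add_le_add (mul_le_mul_of_nonneg_left h3 hrho) h4
    have hY : 0 ≤ 13 * E.D.T ^ 2 *
        (E.rho * (E.D.T ^ 1604 * E.tb b) + E.D.T ^ 307 * (|E.db b| + E.wb b)) := by
      refine mul_nonneg (by positivity) (add_nonneg ?_ ?_)
      · exact mul_nonneg hrho (mul_nonneg (pow_nonneg hT0.le _) htb')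
      · exact mul_nonneg (pow_nonneg hT0.le _) h7
    have h6 : E.rho * S2 E.col (E.toFire.W2 b) ≤ 1 / E.D.T ^ 3997 * (13 * E.D.T ^ 2 *
        (1 / E.D.T ^ 3997 * (E.D.T ^ 1604 * E.tb b) + E.D.T ^ 307 * (|E.db b| + E.wb b))) := by
      calc E.rho * S2 E.col (E.toFire.W2 b) ≤ E.rho * (13 * E.D.T ^ 2 *
          (E.rho * (E.D.T ^ 1604 * E.tb b) + E.D.T ^ 307 * (|E.db b| + E.wb b))) :=
            mul_le_mul_of_nonneg_left h5 hrho
        _ ≤ 1 / E.D.T ^ 3997 * (13 * E.D.T ^ 2 *
          (1 / E.D.T ^ 3997 * (E.D.T ^ 1604 * E.tb b) +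
            E.D.T ^ 307 * (|E.db b| + E.wb b))) := by
            refine mul_le_mul hrho2 ?_ hY (by positivity)
            refine mul_le_mul_of_nonneg_left ?_ (by positivity)
            refine add_le_add ?_ le_rfl
            exact mul_le_mul_of_nonneg_right hrho2 (mul_nonneg (pow_nonneg hT0.le _) htb')
    have h8 : 1 / E.D.T ^ 3997 * (13 * E.D.T ^ 2 *
        (1 / E.D.T ^ 3997 * (E.D.T ^ 1604 * E.tb b) + E.D.T ^ 307 * (|E.db b| + E.wb b))) =
        13 * E.tb b / E.D.T ^ 6388 + 13 * (|E.db b| + E.wb b) / E.D.T ^ 3688 := by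
      field_simp
    rw [h8] at h6
    have h9 : 0 ≤ 25 * E.D.T ^ 303 * E.wb b := by have := hwb b; positivity
    exact (h1.trans h6).trans (le_add_of_nonneg_right h9)
  · exact (Fbe_le hE b z e).trans (le_add_of_nonneg_left (hA b))
  · show E.Fbe b z e = 0
    rw [Fbe_eq hE]
    by_cases h : z ∈ E.L
    · rw [if_pos h]
      refine Finset.sum_eq_zero fun z' _ => Finset.sum_eq_zero fun z'' _ => ?_
      split_ifs
      · exact wbe_zero hE b z z' z'' _ _ (hc z' _)
      · rfl
    · rw [if_neg h]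
  · obtain ⟨q⟩ := hq
    have hdb := fd_db_nonneg hE b q
    have htb' := htb b
    have hwb' := (hwb b).le
    show 4 * E.D.T * (13 * E.tb b / E.D.T ^ 6388 +
      13 * (|E.db b| + E.wb b) / E.D.T ^ 3688 + 25 * E.D.T ^ 303 * E.wb b) ≤ E.toFire.eB b / 4
    rw [abs_of_nonneg hdb]
    unfold Fire.eB
    have e1 : 16 * E.D.T * (13 * E.tb b / E.D.T ^ 6388) ≤ E.tb b / E.D.T ^ 4888 := by
      have h1 : 16 * E.D.T * (13 * E.tb b / E.D.T ^ 6388) =
          208 / E.D.T ^ 1499 * (E.tb b / E.D.T ^ 4888) := by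
        field_simp
        ring
      rw [h1]
      have h2 : 208 / E.D.T ^ 1499 ≤ 1 := by
        rw [div_le_one (by positivity)]
        have := hT.pw (show 1 ≤ 1499 by norm_num)
        rw [pow_one] at this
        linarith
      have h3 : 0 ≤ E.tb b / E.D.T ^ 4888 := by positivity
      nlinarith
    have e2 : 16 * E.D.T * (13 * (E.db b + E.wb b) / E.D.T ^ 3688) ≤
        E.db b / E.D.T ^ 3680 + E.wb b := by
      have h1 : 16 * E.D.T * (13 * (E.db b + E.wb b) / E.D.T ^ 3688) =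
          208 / E.D.T ^ 7 * (E.db b / E.D.T ^ 3680) + 208 / E.D.T ^ 3687 * E.wb b := by
        field_simp
        ring
      rw [h1]
      have h2 : 208 / E.D.T ^ 7 ≤ 1 := by
        rw [div_le_one (by positivity)]
        have := hT.pw (show 1 ≤ 7 by norm_num)
        rw [pow_one] at this
        linarith
      have h2' : 208 / E.D.T ^ 3687 ≤ 1 := by
        rw [div_le_one (by positivity)]
        have := hT.pw (show 1 ≤ 3687 by norm_num)
        rw [pow_one] at this
        linarith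
      have h3 : 0 ≤ E.db b / E.D.T ^ 3680 := by positivity
      have h4 : 208 / E.D.T ^ 7 * (E.db b / E.D.T ^ 3680) ≤ 1 * (E.db b / E.D.T ^ 3680) :=
        mul_le_mul_of_nonneg_right h2 h3
      have h5 : 208 / E.D.T ^ 3687 * E.wb b ≤ 1 * E.wb b := mul_le_mul_of_nonneg_right h2' hwb'
      linarith
    have e3 : 16 * E.D.T * (25 * E.D.T ^ 303 * E.wb b) = 400 * E.D.T ^ 304 * E.wb b := by
      ring
    have e5 : E.wb b + 400 * E.D.T ^ 304 * E.wb b ≤ E.D.T ^ 470 * E.wb b := by
      have h1 : (1 : ℝ) ≤ E.D.T ^ 304 := one_le_pow₀ hT.one_le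
      have h2 : 401 * E.D.T ^ 304 ≤ E.D.T ^ 470 := by
        have h3 : E.D.T ^ 470 = E.D.T ^ 166 * E.D.T ^ 304 := by rw [← pow_add]
        have h4 := hT.pw (show 1 ≤ 166 by norm_num)
        rw [pow_one] at h4
        rw [h3]
        exact mul_le_mul_of_nonneg_right (by linarith) (by positivity)
      nlinarith
    linarith

end

end FRd

end

end Pool.Agent.AcyG
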