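import Pool.Agent.AcyG.FDefs
import Pool.Agent.AcyG.FBas

/-! # Double events of two vertices in one round (project MP_af9dfb_G, row FD2) -/

set_option autoImplicit false
set_option linter.unusedSectionVars false

namespace Pool.Agent.AcyG

open Finset
open Pool.Agent.Acy (IsPM wt Ex Pr mean cnt ext Holds)
open Pool.Agent.AcyK (Big StepOK LocOK prodLaw Un Sel updCol HasC SameC L1 C1 S2 C2 loc_count cr cr2)
open scoped Classical

universe u v

section two

variable {Q : Type u} [Fintype Q] [DecidableEq Q]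

/-- Extension sums of a system of pairs of full coordinates. -/
theorem ext_two {α : Type*} [Fintype α] [DecidableEq α] {μ : Q → α → ℝ} (hμ : IsPM μ)
    (G : Q × α → Q × α → ℝ) (hG : ∀ q q', 0 ≤ G q q') (hGd : ∀ q q', q.1 = q'.1 → G q q' = 0)
    (M : ℝ)
    (h0 : ∑ q : Q × α, ∑ q' : Q × α, G q q' * (μ q.1 q.2 * μ q'.1 q'.2) ≤ M)
    (h1 : ∀ q : Q × α, ∑ q' : Q × α, (G q q' + G q' q) * μ q'.1 q'.2 ≤ M)
    (h2 : ∀ q q', G q q' + G q' q ≤ M) (W : Finset (Q × α)) :
    ext μ (fun U : (Q × α) × (Q × α) => G U.1 U.2) (fun U => {U.1, U.2}) W ≤ M := by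
  have hμ0 : ∀ u c, 0 ≤ μ u c := hμ.nonneg
  have hcard : ∀ U : (Q × α) × (Q × α), ({U.1, U.2} : Finset (Q × α)).card ≤ 2 := fun U => by
    refine (card_insert_le _ _).trans ?_
    rw [card_singleton]
  have hne : ∀ U : (Q × α) × (Q × α), U.1 = U.2 → G U.1 U.2 = 0 := fun U hU =>
    hGd _ _ (by rw [hU])
  unfold Pool.Agent.Acy.ext
  rcases lt_trichotomy W.card 1 with hc | hc | hc
  · have hW : W = ∅ := card_eq_zero.1 (by omega)
    subst hW
    calc _ ≤ ∑ U : (Q × α) × (Q × α), G U.1 U.2 * (μ U.1.1 U.1.2 * μ U.2.1 U.2.2) := by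
          refine Finset.sum_le_sum fun U _ => ?_
          beta_reduce
          rw [if_pos (empty_subset _), sdiff_empty]
          by_cases hU : U.1 = U.2
          · rw [hne U hU, zero_mul, zero_mul]
          · rw [prod_pair hU]
      _ = ∑ q : Q × α, ∑ q' : Q × α, G q q' * (μ q.1 q.2 * μ q'.1 q'.2) := by
          rw [Fintype.sum_prod_type]
      _ ≤ M := h0
  · obtain ⟨q, hq⟩ := card_eq_one.1 hc
    subst hq
    calc _ ≤ ∑ U : (Q × α) × (Q × α),
          ((if U.1 = q then G U.1 U.2 * μ U.2.1 U.2.2 else 0) +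
           (if U.2 = q then G U.1 U.2 * μ U.1.1 U.1.2 else 0)) := by
          refine Finset.sum_le_sum fun U _ => ?_
          beta_reduce
          have hn1 : (0 : ℝ) ≤ if U.1 = q then G U.1 U.2 * μ U.2.1 U.2.2 else 0 := by
            split_ifs
            · exact mul_nonneg (hG _ _) (hμ0 _ _)
            · exact le_rfl
          have hn2 : (0 : ℝ) ≤ if U.2 = q then G U.1 U.2 * μ U.1.1 U.1.2 else 0 := by
            split_ifs
            · exact mul_nonneg (hG _ _) (hμ0 _ _)
            · exact le_rfl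
          by_cases h : {q} ⊆ ({U.1, U.2} : Finset (Q × α))
          · rw [if_pos h]
            by_cases hU : U.1 = U.2
            · rw [hne U hU, zero_mul, zero_mul, zero_mul, ite_self, ite_self, add_zero]
            · have h3 : q ∈ ({U.1, U.2} : Finset (Q × α)) := h (mem_singleton_self q)
              simp only [mem_insert, mem_singleton] at h3
              rcases h3 with h3 | h3
              · have h4 : ({U.1, U.2} : Finset (Q × α)) \ {q} = {U.2} := by
                  rw [h3]
                  ext z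
                  simp only [mem_sdiff, mem_insert, mem_singleton]
                  constructor
                  · rintro ⟨rfl | rfl, hh⟩
                    · exact absurd rfl hh
                    · rfl
                  · rintro rfl
                    exact ⟨Or.inr rfl, fun hh => hU hh.symm⟩
                rw [h4, prod_singleton, if_pos h3.symm]
                linarith
              · have h4 : ({U.1, U.2} : Finset (Q × α)) \ {q} = {U.1} := by
                  rw [h3]
                  ext z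
                  simp only [mem_sdiff, mem_insert, mem_singleton]
                  constructor
                  · rintro ⟨rfl | rfl, hh⟩
                    · rfl
                    · exact absurd rfl hh
                  · rintro rfl
                    exact ⟨Or.inl rfl, fun hh => hU hh⟩
                rw [h4, prod_singleton, if_pos (c := U.2 = q) h3.symm]
                linarith
          · rw [if_neg h]
            linarith
      _ = ∑ q' : Q × α, (G q q' + G q' q) * μ q'.1 q'.2 := by
          simp only [add_mul]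
          rw [Finset.sum_add_distrib, Finset.sum_add_distrib]
          congr 1
          · rw [Fintype.sum_prod_type, Finset.sum_eq_single q]
            · simp
            · intro u _ hu
              simp [hu]
            · intro h; exact absurd (mem_univ _) h
          · rw [Fintype.sum_prod_type]
            refine Finset.sum_congr rfl fun u _ => ?_
            rw [Finset.sum_eq_single q]
            · simp
            · intro u' _ hu'
              simp [hu']
            · intro h; exact absurd (mem_univ _) h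
      _ ≤ M := h1 q
  · obtain ⟨q, hq, q', hq', hne'⟩ := one_lt_card.1 hc
    calc _ ≤ ∑ U : (Q × α) × (Q × α),
          ((if U = (q, q') then G U.1 U.2 else 0) +
           (if U = (q', q) then G U.1 U.2 else 0)) := by
          refine Finset.sum_le_sum fun U _ => ?_
          beta_reduce
          have hn1 : (0 : ℝ) ≤ if U = (q, q') then G U.1 U.2 else 0 := by
            split_ifs
            · exact hG _ _
            · exact le_rfl
          have hn2 : (0 : ℝ) ≤ if U = (q', q) then G U.1 U.2 else 0 := by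
            split_ifs
            · exact hG _ _
            · exact le_rfl
          by_cases h : W ⊆ ({U.1, U.2} : Finset (Q × α))
          · rw [if_pos h]
            have h1 : ({U.1, U.2} : Finset (Q × α)) \ W = ∅ := by
              rw [← card_eq_zero, card_sdiff_of_subset h]
              have := hcard U
              omega
            rw [h1, prod_empty, mul_one]
            have h3 := h hq
            have h4 := h hq'
            simp only [mem_insert, mem_singleton] at h3 h4
            rcases h3 with h3 | h3 <;> rcases h4 with h4 | h4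
            · exact absurd (h3.trans h4.symm) hne'
            · have : U = (q, q') := by rw [h3, h4]
              rw [if_pos this]
              linarith
            · have : U = (q', q) := by rw [h3, h4]
              rw [if_pos (c := U = (q', q)) this]
              linarith
            · exact absurd (h3.trans h4.symm) hne'
          · rw [if_neg h]
            linarith
      _ = G q q' + G q' q := by
          rw [Finset.sum_add_distrib]
          simp
      _ ≤ M := h2 q q'

theorem cnt_two {α : Type*} [Fintype α] [DecidableEq α] (G : Q × α → Q × α → ℝ) (ω : Q → α) :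
    cnt (fun U : (Q × α) × (Q × α) => G U.1 U.2) (fun U => {U.1, U.2}) ω =
      ∑ u, ∑ u', G (u, ω u) (u', ω u') := by
  unfold cnt
  rw [Fintype.sum_prod_type, Fintype.sum_prod_type]
  refine Finset.sum_congr rfl fun u _ => ?_
  rw [Finset.sum_eq_single (ω u)]
  · rw [Fintype.sum_prod_type]
    refine Finset.sum_congr rfl fun u' _ => ?_
    rw [Finset.sum_eq_single (ω u')]
    · have hh : Holds ({(u, ω u), (u', ω u')} : Finset (Q × α)) ω := by
        intro q hq
        rw [mem_insert, mem_singleton] at hq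
        rcases hq with rfl | rfl <;> rfl
      rw [if_pos hh]
    · intro c _ hc
      rw [if_neg]
      intro hh
      exact hc (hh (u', c) (mem_insert_of_mem (mem_singleton_self _))).symm
    · intro h
      exact absurd (mem_univ _) h
  · intro c _ hc
    refine sum_eq_zero fun q' _ => ?_
    rw [if_neg]
    intro hh
    exact hc (hh (u, c) (mem_insert_self _ _)).symm
  · intro h
    exact absurd (mem_univ _) h

/-- Local family of sums of functions of pairs of coordinates. -/
theorem loc_two {α : Type*} [Fintype α] [DecidableEq α] {T : ℝ} (hT : Big T)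
    {μ : Q → α → ℝ} (hμ : IsPM μ) {κ : Type u} [Fintype κ] (P : κ → Prop)
    (G : κ → Q × α → Q × α → ℝ) (hG : ∀ a q q', 0 ≤ G a q q')
    (hGd : ∀ a q q', q.1 = q'.1 → G a q q' = 0) (M : κ → ℝ) (hM : ∀ a, P a → 0 < M a)
    (h0 : ∀ a, P a → ∑ q : Q × α, ∑ q' : Q × α, G a q q' * (μ q.1 q.2 * μ q'.1 q'.2) ≤ M a)
    (h1 : ∀ a, P a → ∀ q : Q × α, ∑ q' : Q × α, (G a q q' + G a q' q) * μ q'.1 q'.2 ≤ M a)
    (h2 : ∀ a, P a → ∀ q q', G a q q' + G a q' q ≤ M a)
    (S : κ → Finset Q) (hS : ∀ a, P a → ∀ q q', G a q q' ≠ 0 → q.1 ∈ S a ∧ q'.1 ∈ S a) (e : ℕ)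
    (hcard : ∀ a, P a → ((S a).card : ℝ) ≤ T ^ e)
    (hdeg : ∀ y, ∃ F : Finset κ, (∀ a, P a → y ∈ S a → a ∈ F) ∧ (F.card : ℝ) ≤ T ^ e) :
    LocOK e T μ (fun ω => ∀ a, P a → ∑ u, ∑ u', G a (u, ω u) (u', ω u') ≤ 12 * T ^ 2 * M a) := by
  have h := loc_count hT hμ P (fun a (U : (Q × α) × (Q × α)) => G a U.1 U.2)
    (fun a x => hG a _ _) (fun _ U => {U.1, U.2}) 2
    (fun a x => (card_insert_le _ _).trans (by rw [card_singleton])) M hM
    (fun a ha W _ => ext_two hμ (G a) (hG a) (hGd a) (M a) (h0 a ha) (h1 a ha) (h2 a ha) W) S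
    (fun a ha x hx q hq => by
      rw [mem_insert, mem_singleton] at hq
      rcases hq with rfl | rfl
      · exact (hS a ha _ _ hx).1
      · exact (hS a ha _ _ hx).2) e hcard hdeg
  obtain ⟨κ', hκ', E, S', hd, hp, hs, hi, hgood⟩ := h
  refine ⟨κ', hκ', E, S', hd, hp, hs, hi, fun ω hE a ha => ?_⟩
  have h2 := hgood ω hE a ha
  rw [cnt_two] at h2
  exact h2.trans (mul_le_mul_of_nonneg_right (cr2 hT) (hM a ha).le)

/-- Comparison of powers. -/
theorem pow48 {T : ℝ} (hT : Big T) {a b : ℕ} (h : a + 1 ≤ b) : 48 * T ^ a ≤ T ^ b := by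
  have hTb := hT.big
  norm_num at hTb
  have hT0 : 0 < T := by linarith
  calc 48 * T ^ a ≤ T * T ^ a := by
        have := pow_pos hT0 a
        nlinarith
    _ = T ^ (a + 1) := by rw [pow_succ]; ring
    _ ≤ T ^ b := pow_le_pow_right₀ (by linarith) h

end two

section

variable {Q ι Lb Pi A B C : Type u} [Fintype Q] [DecidableEq Q] [Fintype ι] [DecidableEq ι]
  [Fintype Lb] [Fintype Pi] [Fintype A] [Fintype B] [Fintype C]

namespace FRd

/-- Effect of the new firings of `z` on a site. -/
noncomputable def ef (E : FRd Q ι Lb Pi A B C) (P : Pi) (z : Q) (e : E.Pick) : ℝ :=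
  E.Fw (fun z z' l => E.af z z' l P) z e

/-- The configurations of `Fga`. -/
noncomputable def Gga (E : FRd Q ι Lb Pi A B C) (b : B) (q q' : Q × E.Pick) : ℝ :=
  if q.1 ≠ q'.1 then ∑ P, ∑ S, E.om b P S * (E.ef P q.1 q.2 * E.ef S q'.1 q'.2) else 0

variable {E : FRd Q ι Lb Pi A B C}

section
variable (hE : E.Ok)
include hE

theorem ef_nonneg (P : Pi) (z : Q) (e : E.Pick) : 0 ≤ E.ef P z e := by
  unfold ef Fw
  split_ifs
  · refine sum_nonneg fun z' _ => ?_
    split_ifs
    · exact hE.fok.af_nonneg _ _ _ _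
    · exact le_rfl
  · exact le_rfl

theorem ef_le (P : Pi) (z : Q) (e : E.Pick) : E.ef P z e ≤ 5 * E.D.T ^ 152 := by
  have hT0 := hE.fok.dok.big.pos
  unfold ef Fw
  split_ifs
  · exact cls_A hE P z e.1 e.2
  · positivity

theorem FwB_nonneg (b : B) (z : Q) (e : E.Pick) : 0 ≤ E.Fw (E.wB b) z e := by
  unfold Fw
  split_ifs
  · refine sum_nonneg fun z' _ => ?_
    split_ifs
    · exact Fire.wB_nonneg hE.fok _ _ _ _
    · exact le_rfl
  · exact le_rfl

theorem FwB_le (b : B) (z : Q) (e : E.Pick) : E.Fw (E.wB b) z e ≤ 5 * E.D.T ^ 151 * E.wb b := by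
  have hT0 := hE.fok.dok.big.pos
  unfold Fw
  split_ifs
  · exact cls_B hE b z e.1 e.2
  · have := hE.fok.wb_pos b
    positivity

omit hE in
theorem FwB_eq (b : B) (z : Q) (e : E.Pick) :
    ∑ P, ∑ S, E.om b P S * E.ef P z e = E.Fw (E.wB b) z e := by
  unfold ef Fw Fire.wB
  by_cases hz : z ∈ E.L
  · simp only [if_pos hz, mul_sum]
    have h1 : ∀ P : Pi, ∑ S, ∑ z' : Q, E.om b P S *
        (if HasC E.col z' e.1 then E.af z z' (e.2 z') P else 0) =
        ∑ z' : Q, ∑ S, E.om b P S *
          (if HasC E.col z' e.1 then E.af z z' (e.2 z') P else 0) := fun P => sum_comm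
    simp only [h1]
    rw [sum_comm]
    refine sum_congr rfl fun z' _ => ?_
    by_cases hc : HasC E.col z' e.1
    · simp only [if_pos hc]
    · simp only [if_neg hc, mul_zero, sum_const_zero]
  · simp only [if_neg hz, mul_zero, sum_const_zero]

theorem Gga_nonneg (b : B) (q q' : Q × E.Pick) : 0 ≤ E.Gga b q q' := by
  unfold Gga
  split_ifs
  · exact sum_nonneg fun P _ => sum_nonneg fun S _ => mul_nonneg (hE.fok.om_nonneg _ _ _)
      (mul_nonneg (ef_nonneg hE _ _ _) (ef_nonneg hE _ _ _))
  · exact le_rfl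

theorem Gga_symm (b : B) (q q' : Q × E.Pick) : E.Gga b q q' = E.Gga b q' q := by
  unfold Gga
  by_cases h : q.1 = q'.1
  · rw [if_neg (not_not.2 h), if_neg (not_not.2 h.symm)]
  · rw [if_pos h, if_pos (Ne.symm h), sum_comm]
    refine sum_congr rfl fun S _ => sum_congr rfl fun P _ => ?_
    rw [hE.fok.om_symm b P S]
    ring

theorem Gga_le (b : B) (q q' : Q × E.Pick) :
    E.Gga b q q' ≤ ∑ P, ∑ S, E.om b P S * (E.ef P q.1 q.2 * E.ef S q'.1 q'.2) := by
  unfold Gga
  split_ifs
  · exact le_rfl
  · exact sum_nonneg fun P _ => sum_nonneg fun S _ => mul_nonneg (hE.fok.om_nonneg _ _ _)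
      (mul_nonneg (ef_nonneg hE _ _ _) (ef_nonneg hE _ _ _))

/-- Both coordinates fixed. -/
theorem Gga_two (b : B) (q q' : Q × E.Pick) :
    E.Gga b q q' ≤ 5 * E.D.T ^ 152 * E.Fw (E.wB b) q.1 q.2 := by
  refine (Gga_le hE b q q').trans ?_
  rw [← FwB_eq, mul_sum]
  refine sum_le_sum fun P _ => ?_
  rw [mul_sum]
  refine sum_le_sum fun S _ => ?_
  have h1 := ef_le hE S q'.1 q'.2
  have h2 := ef_nonneg hE P q.1 q.2
  have h3 := hE.fok.om_nonneg b P S
  calc E.om b P S * (E.ef P q.1 q.2 * E.ef S q'.1 q'.2)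
      ≤ E.om b P S * (E.ef P q.1 q.2 * (5 * E.D.T ^ 152)) := by gcongr
    _ = _ := by ring

theorem L_eq : E.L = Sel E.col E.lam true := rfl

/-- Mean effect of the round on a site. -/
theorem ef_mean (P : Pi) : ∑ q : Q × E.Pick, E.ef P q.1 q.2 * E.law q.1 q.2 ≤
    E.rho * E.D.T ^ 3078 := by
  have hr := Fire.rho_nonneg hE.fok
  have h1 : ∑ q : Q × E.Pick, E.ef P q.1 q.2 * E.law q.1 q.2 =
      ∑ z, mean E.law (E.Fw (fun z z' l => E.af z z' l P)) z := by
    rw [Fintype.sum_prod_type]
    refine sum_congr rfl fun z _ => ?_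
    unfold mean
    refine sum_congr rfl fun e _ => ?_
    rw [mul_comm]
    rfl
  rw [h1]
  calc ∑ z, mean E.law (E.Fw (fun z z' l => E.af z z' l P)) z
      ≤ ∑ z, if z ∈ E.L then E.rho * E.mA z P else 0 := by
        refine sum_le_sum fun z _ => ?_
        rw [mean_Fw hE]
        by_cases hz : z ∈ E.L
        · rw [if_pos hz]
          unfold Fire.mA
          rw [mul_sum]
          refine sum_le_sum fun z' _ => ?_
          exact mul_le_mul_of_nonneg_right (rt_le hE z z') (Fire.aa_nonneg hE.fok z z' P)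
        · rw [if_neg hz]
          refine le_of_eq (sum_eq_zero fun z' _ => ?_)
          unfold rt
          rw [if_neg hz, zero_mul]
    _ = E.rho * ∑ z ∈ E.L, E.mA z P := by
        rw [mul_sum, ← sum_filter]
        refine sum_congr ?_ fun _ _ => rfl
        ext z
        simp
    _ ≤ E.rho * E.D.T ^ 3078 := mul_le_mul_of_nonneg_left (hE.good.l3 P) hr

/-- Mean weight of the round in a kernel. -/
theorem FwB_mean (b : B) : ∑ q : Q × E.Pick, E.Fw (E.wB b) q.1 q.2 * E.law q.1 q.2 ≤
    E.rho * (E.tb b / E.D.T ^ 130 + E.D.T ^ 136 * E.db b) := by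
  have hr := Fire.rho_nonneg hE.fok
  have h1 : ∑ q : Q × E.Pick, E.Fw (E.wB b) q.1 q.2 * E.law q.1 q.2 =
      ∑ z, mean E.law (E.Fw (E.wB b)) z := by
    rw [Fintype.sum_prod_type]
    refine sum_congr rfl fun z _ => ?_
    unfold mean
    refine sum_congr rfl fun e _ => ?_
    rw [mul_comm]
  rw [h1]
  calc ∑ z, mean E.law (E.Fw (E.wB b)) z
      ≤ ∑ z, if z ∈ E.L then E.rho * E.mB b z else 0 := by
        refine sum_le_sum fun z _ => ?_
        rw [mean_Fw hE]
        by_cases hz : z ∈ E.L
        · rw [if_pos hz]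
          unfold Fire.mB
          rw [mul_sum]
          refine sum_le_sum fun z' _ => ?_
          refine mul_le_mul_of_nonneg_right (rt_le hE z z') (sum_nonneg fun l _ => ?_)
          exact mul_nonneg (hE.fok.mu_nonneg _ _ _) (Fire.wB_nonneg hE.fok _ _ _ _)
        · rw [if_neg hz]
          refine le_of_eq (sum_eq_zero fun z' _ => ?_)
          unfold rt
          rw [if_neg hz, zero_mul]
    _ = E.rho * ∑ z ∈ E.L, E.mB b z := by
        rw [mul_sum, ← sum_filter]
        refine sum_congr ?_ fun _ _ => rfl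
        ext z
        simp
    _ ≤ _ := mul_le_mul_of_nonneg_left (hE.good.l4 b) hr

/-- One coordinate fixed. -/
theorem Gga_one (b : B) (q : Q × E.Pick) :
    ∑ q' : Q × E.Pick, E.Gga b q q' * E.law q'.1 q'.2 ≤
      E.rho * E.D.T ^ 3078 * E.Fw (E.wB b) q.1 q.2 := by
  have hl := (law_isPM hE).nonneg
  calc ∑ q' : Q × E.Pick, E.Gga b q q' * E.law q'.1 q'.2
      ≤ ∑ q' : Q × E.Pick, (∑ P, ∑ S, E.om b P S * (E.ef P q.1 q.2 * E.ef S q'.1 q'.2)) *
          E.law q'.1 q'.2 :=
        sum_le_sum fun q' _ => mul_le_mul_of_nonneg_right (Gga_le hE b q q') (hl _ _)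
    _ = ∑ P, ∑ S, E.om b P S * E.ef P q.1 q.2 *
          ∑ q' : Q × E.Pick, E.ef S q'.1 q'.2 * E.law q'.1 q'.2 := by
        simp only [sum_mul, mul_sum]
        rw [sum_comm]
        refine sum_congr rfl fun P _ => ?_
        rw [sum_comm]
        refine sum_congr rfl fun S _ => sum_congr rfl fun q' _ => ?_
        ring
    _ ≤ ∑ P, ∑ S, E.om b P S * E.ef P q.1 q.2 * (E.rho * E.D.T ^ 3078) :=
        sum_le_sum fun P _ => sum_le_sum fun S _ => mul_le_mul_of_nonneg_left (ef_mean hE S)
          (mul_nonneg (hE.fok.om_nonneg _ _ _) (ef_nonneg hE _ _ _))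
    _ = _ := by
        rw [← FwB_eq]
        simp only [mul_sum]
        refine sum_congr rfl fun P _ => sum_congr rfl fun S _ => ?_
        ring

/-- The support. -/
theorem Gga_supp (b : B) (q q' : Q × E.Pick) (h : E.Gga b q q' ≠ 0) :
    ∃ z', E.bs b q.1 z' ≠ 0 ∨ E.bs b z' q.1 ≠ 0 := by
  have h1 : 0 < E.Gga b q q' := lt_of_le_of_ne (Gga_nonneg hE b q q') (Ne.symm h)
  have hT0 := hE.fok.dok.big.pos
  have h2 : 0 < E.Fw (E.wB b) q.1 q.2 := by
    by_contra hc
    have h3 := Gga_two hE b q q'
    have h4 : E.Fw (E.wB b) q.1 q.2 = 0 := le_antisymm (not_lt.1 hc) (FwB_nonneg hE b _ _)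
    rw [h4, mul_zero] at h3
    linarith
  by_contra hcon
  push Not at hcon
  have h3 : E.Fw (E.wB b) q.1 q.2 ≤ 0 := by
    unfold Fw
    split_ifs
    · refine sum_nonpos fun z' _ => ?_
      split_ifs
      · exact (hE.fok.B_maj b q.1 z' _).trans (le_of_eq (hcon z').1)
      · exact le_rfl
    · exact le_rfl
  linarith

theorem loc_g6 : LocOK 30000 E.D.T E.law (fun ω => ∀ b, E.Fga b ω ≤ E.eB b / 4) := by
  have hT := hE.fok.dok.big
  set T : ℝ := E.D.T with hTdef
  have hT0 : 0 < T := hT.pos
  have hT1 : 1 ≤ T := by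
    have := hT.big
    norm_num at this
    linarith
  have hr0 := Fire.rho_nonneg hE.fok
  have hr1 := Fire.rho_le hE.fok
  rw [← hTdef] at hr1
  have hwb := hE.fok.wb_pos
  have hdb := hE.fok.db_nonneg
  have htb : ∀ b, 0 ≤ E.tb b := fun b => le_trans (sum_nonneg fun z _ => sum_nonneg fun z' _ =>
    sum_nonneg fun l _ => mul_nonneg (hE.fok.mu_nonneg _ _ _) (Fire.wB_nonneg hE.fok _ _ _ _))
    (hE.fok.B_tot b)
  set M : B → ℝ := fun b => E.eB b / (48 * T ^ 2) with hM
  have hMb : ∀ b, E.eB b = 48 * T ^ 2 * M b := fun b => by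
    rw [hM]; field_simp
  have hMpos : ∀ b, 0 < M b := by
    intro b
    have h1 := hwb b
    have h2 := hdb b
    have h3 := htb b
    rw [hM]
    unfold Fire.eB
    positivity
  have hone : ∀ b (q : Q × E.Pick), E.rho * T ^ 3078 * E.Fw (E.wB b) q.1 q.2 ≤ M b / 2 := by
    intro b q
    have h1 := FwB_le hE b q.1 q.2
    have h2 := FwB_nonneg hE b q.1 q.2
    rw [← hTdef] at h1
    have h3 : E.rho * T ^ 3078 * E.Fw (E.wB b) q.1 q.2 ≤ 1 * (5 * T ^ 151 * E.wb b) := by
      refine mul_le_mul ?_ h1 h2 (by norm_num)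
      calc E.rho * T ^ 3078 ≤ 1 / T ^ 3997 * T ^ 3078 := by gcongr
        _ ≤ 1 := by
          rw [one_div, inv_mul_le_iff₀ (by positivity), mul_one]
          exact pow_le_pow_right₀ hT1 (by norm_num)
    refine h3.trans ?_
    rw [one_mul, le_div_iff₀ (by norm_num : (0 : ℝ) < 2), hM, le_div_iff₀ (by positivity)]
    have h4 : 5 * T ^ 151 * E.wb b * 2 * (48 * T ^ 2) ≤ T ^ 470 * E.wb b := by
      have h5 := pow48 hT (show 153 + 1 ≤ 200 by norm_num)
      have h6 := pow48 hT (show 200 + 1 ≤ 470 by norm_num)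
      have h7 := hwb b
      have h8 : 0 < T ^ 200 := by positivity
      calc 5 * T ^ 151 * E.wb b * 2 * (48 * T ^ 2) = 10 * (48 * T ^ 153) * E.wb b := by ring
        _ ≤ 10 * T ^ 200 * E.wb b := by gcongr
        _ ≤ T ^ 470 * E.wb b := by
          refine mul_le_mul_of_nonneg_right ?_ h7.le
          linarith
    refine h4.trans ?_
    unfold Fire.eB
    have h5 := hdb b
    have h6 := htb b
    have h7 : 0 ≤ E.tb b / T ^ 4888 := by positivity
    have h8 : 0 ≤ E.db b / T ^ 3680 := by positivity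
    linarith
  have htwo : ∀ b (q : Q × E.Pick), 5 * T ^ 152 * E.Fw (E.wB b) q.1 q.2 ≤ M b / 2 := by
    intro b q
    have h1 := FwB_le hE b q.1 q.2
    rw [← hTdef] at h1
    have h3 : 5 * T ^ 152 * E.Fw (E.wB b) q.1 q.2 ≤ 5 * T ^ 152 * (5 * T ^ 151 * E.wb b) := by
      gcongr
    refine h3.trans ?_
    rw [le_div_iff₀ (by norm_num : (0 : ℝ) < 2), hM, le_div_iff₀ (by positivity)]
    have h4 : 5 * T ^ 152 * (5 * T ^ 151 * E.wb b) * 2 * (48 * T ^ 2) ≤ T ^ 470 * E.wb b := by
      have h5 := pow48 hT (show 305 + 1 ≤ 400 by norm_num)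
      have h6 := pow48 hT (show 400 + 1 ≤ 450 by norm_num)
      have h9 := pow48 hT (show 450 + 1 ≤ 470 by norm_num)
      have h7 := hwb b
      have h8 : 0 < T ^ 400 := by positivity
      calc 5 * T ^ 152 * (5 * T ^ 151 * E.wb b) * 2 * (48 * T ^ 2)
          = 50 * (48 * T ^ 305) * E.wb b := by ring
        _ ≤ 50 * T ^ 400 * E.wb b := by gcongr
        _ ≤ T ^ 470 * E.wb b := by
          refine mul_le_mul_of_nonneg_right ?_ h7.le
          linarith
    refine h4.trans ?_
    unfold Fire.eB
    have h5 := hdb b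
    have h6 := htb b
    have h7 : 0 ≤ E.tb b / T ^ 4888 := by positivity
    have h8 : 0 ≤ E.db b / T ^ 3680 := by positivity
    linarith
  have hzero : ∀ b, E.rho * T ^ 3078 * (E.rho * (E.tb b / T ^ 130 + T ^ 136 * E.db b)) ≤ M b := by
    intro b
    have h5 := hdb b
    have h6 := htb b
    have h7 := hwb b
    rw [hM, le_div_iff₀ (by positivity)]
    calc E.rho * T ^ 3078 * (E.rho * (E.tb b / T ^ 130 + T ^ 136 * E.db b)) * (48 * T ^ 2)
        ≤ 1 / T ^ 3997 * T ^ 3078 * (1 / T ^ 3997 * (E.tb b / T ^ 130 + T ^ 136 * E.db b)) *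
          (48 * T ^ 2) := by gcongr
      _ = (1 / T ^ 3997 * T ^ 3078 * (1 / T ^ 3997 * (1 / T ^ 130)) * (48 * T ^ 2)) * E.tb b +
          (1 / T ^ 3997 * T ^ 3078 * (1 / T ^ 3997 * T ^ 136) * (48 * T ^ 2)) * E.db b := by ring
      _ ≤ (1 / T ^ 4888) * E.tb b + (1 / T ^ 3680) * E.db b := by
          refine add_le_add (mul_le_mul_of_nonneg_right ?_ h6) (mul_le_mul_of_nonneg_right ?_ h5)
          · rw [show (1 / T ^ 3997 * T ^ 3078 * (1 / T ^ 3997 * (1 / T ^ 130)) * (48 * T ^ 2)) =
              (48 * T ^ 3080) / (T ^ 3997 * T ^ 3997 * T ^ 130) by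
                rw [show T ^ 3080 = T ^ 3078 * T ^ 2 by rw [← pow_add]]
                field_simp,
              div_le_div_iff₀ (by positivity) (by positivity), one_mul]
            calc 48 * T ^ 3080 * T ^ 4888 = 48 * T ^ 7968 := by
                  rw [mul_assoc, ← pow_add]
              _ ≤ T ^ (3997 + 3997 + 130) := pow48 hT (by norm_num)
              _ = _ := by rw [pow_add, pow_add]
          · rw [show (1 / T ^ 3997 * T ^ 3078 * (1 / T ^ 3997 * T ^ 136) * (48 * T ^ 2)) =
              (48 * T ^ 3216) / (T ^ 3997 * T ^ 3997) by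
                rw [show T ^ 3216 = T ^ 3078 * T ^ 136 * T ^ 2 by rw [← pow_add, ← pow_add]]
                field_simp,
              div_le_div_iff₀ (by positivity) (by positivity), one_mul]
            calc 48 * T ^ 3216 * T ^ 3680 = 48 * T ^ 6896 := by
                  rw [mul_assoc, ← pow_add]
              _ ≤ T ^ (3997 + 3997) := pow48 hT (by norm_num)
              _ = _ := by rw [pow_add]
      _ ≤ E.eB b := by
          unfold Fire.eB
          rw [← hTdef]
          have h8 : 0 ≤ T ^ 470 * E.wb b := by positivity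
          have h9 : 1 / T ^ 4888 * E.tb b = E.tb b / T ^ 4888 := by ring
          have h10 : 1 / T ^ 3680 * E.db b = E.db b / T ^ 3680 := by ring
          linarith
  have h := loc_two (α := E.Pick) hT (law_isPM hE) (fun _ : B => True) (fun b => E.Gga b)
    (fun b => Gga_nonneg hE b)
    (fun b q q' hq => by unfold Gga; rw [if_neg (not_not.2 hq)]) M (fun b _ => hMpos b)
    (fun b _ => by
      calc ∑ q : Q × E.Pick, ∑ q' : Q × E.Pick, E.Gga b q q' * (E.law q.1 q.2 * E.law q'.1 q'.2)
          = ∑ q : Q × E.Pick, (∑ q' : Q × E.Pick, E.Gga b q q' * E.law q'.1 q'.2) *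
              E.law q.1 q.2 := by
            refine sum_congr rfl fun q _ => ?_
            rw [sum_mul]
            refine sum_congr rfl fun q' _ => ?_
            ring
        _ ≤ ∑ q : Q × E.Pick, (E.rho * T ^ 3078 * E.Fw (E.wB b) q.1 q.2) * E.law q.1 q.2 :=
            sum_le_sum fun q _ => mul_le_mul_of_nonneg_right (Gga_one hE b q)
              ((law_isPM hE).nonneg _ _)
        _ = E.rho * T ^ 3078 * ∑ q : Q × E.Pick, E.Fw (E.wB b) q.1 q.2 * E.law q.1 q.2 := by
            rw [mul_sum]
            refine sum_congr rfl fun q _ => ?_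
            ring
        _ ≤ E.rho * T ^ 3078 * (E.rho * (E.tb b / T ^ 130 + T ^ 136 * E.db b)) :=
            mul_le_mul_of_nonneg_left (FwB_mean hE b) (by positivity)
        _ ≤ M b := hzero b)
    (fun b _ q => by
      have h1 : ∑ q' : Q × E.Pick, (E.Gga b q q' + E.Gga b q' q) * E.law q'.1 q'.2 =
          2 * ∑ q' : Q × E.Pick, E.Gga b q q' * E.law q'.1 q'.2 := by
        rw [mul_sum]
        refine sum_congr rfl fun q' _ => ?_
        rw [Gga_symm hE b q' q]
        ring
      rw [h1]
      have h2 := (Gga_one hE b q).trans (hone b q)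
      linarith)
    (fun b _ q q' => by
      rw [Gga_symm hE b q' q]
      have h2 := (Gga_two hE b q q').trans (htwo b q)
      linarith)
    (fun b => univ.filter fun z => ∃ z', E.bs b z z' ≠ 0 ∨ E.bs b z' z ≠ 0)
    (fun b _ q q' hq => ⟨mem_filter.2 ⟨mem_univ _, Gga_supp hE b q q' hq⟩,
      mem_filter.2 ⟨mem_univ _, Gga_supp hE b q' q (by rwa [Gga_symm hE b q' q])⟩⟩) 30000
    (fun b _ => (hE.fok.bs_supp b).trans (pow_le_pow_right₀ hT1 (by norm_num)))
    (fun y => ⟨univ.filter fun b => ∃ z', E.bs b y z' ≠ 0 ∨ E.bs b z' y ≠ 0,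
      fun b _ hb => mem_filter.2 ⟨mem_univ _, (mem_filter.1 hb).2⟩,
      (hE.fok.bs_deg y).trans (pow_le_pow_right₀ hT1 (by norm_num))⟩)
  obtain ⟨κ', hκ', EE, S', hd, hp, hs, hi, hgood⟩ := h
  refine ⟨κ', hκ', EE, S', hd, hp, hs, hi, fun ω hEE b => ?_⟩
  have h2 := hgood ω hEE b trivial
  have h3 : E.Fga b ω = ∑ u, ∑ u', E.Gga b (u, ω u) (u', ω u') := rfl
  rw [h3]
  refine h2.trans (le_of_eq ?_)
  rw [hMb]
  ring

end

end FRd

end

end Pool.Agent.AcyG
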