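import Pool.Agent.AcyG.Defs
import Pool.Agent.AcyK.DKind

/-! # The firing process of one stage (project MP_af9dfb_G, part F): definitions

Along the semi-random colouring `D`: when `z` picks (real pick) the colour of an earlier vertex `z'`,
the pair `z z'` fires and draws a label. Tests: linear (weights `W`), double events (kernels `om` on
pairs of sites, effects `af`), failures, pairs of equal picks in one round. All bounds are explicit
functions of the data. -/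

set_option autoImplicit false
set_option linter.unusedSectionVars false

namespace Pool.Agent.AcyG

open Finset
open Pool.Agent.Acy (IsPM wt Ex Pr mean)
open Pool.Agent.AcyK (Big StepOK LocOK prodLaw Un Sel updCol HasC SameC L1 C1 S2 C2)
open scoped Classical

universe u v

/-- Static data of the firing process: `Lb` = labels, `Pi` = sites, `A` = linear tests, `B` =
kernels, `C` = tests for equal picks in one round. -/
structure Fire (Q ι Lb Pi A B C : Type u) where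
  /-- the semi-random colouring -/
  D : NibData Q ι
  /-- law of the label of a pair -/
  μ : Q → Q → Lb → ℝ
  /-- linear tests -/
  W : A → Q → Q → Lb → ℝ
  /-- majorant of a linear test that does not depend on the label -/
  ws : A → Q → Q → ℝ
  /-- maximum of a linear test -/
  wm : A → ℝ
  /-- row sums of a linear test -/
  d1 : A → ℝ
  /-- total of a linear test -/
  tot : A → ℝ
  /-- effect of the firing of a pair on a site -/
  af : Q → Q → Lb → Pi → ℝ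
  /-- majorant of the effects that does not depend on the label -/
  as : Q → Q → Pi → ℝ
  /-- kernels -/
  om : B → Pi → Pi → ℝ
  /-- majorant of the weights of a kernel that does not depend on the label -/
  bs : B → Q → Q → ℝ
  /-- maximum of a kernel -/
  wb : B → ℝ
  /-- row sums of a kernel -/
  db : B → ℝ
  /-- total of a kernel -/
  tb : B → ℝ
  /-- tests for equal picks in one round -/
  cw : C → Q → Q → ℝ
  /-- maximum -/
  cm : C → ℝ
  /-- row sums -/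
  cr : C → ℝ
  /-- size of the support -/
  cs : C → ℝ

section

variable {Q ι Lb Pi A B C Γ : Type u} [Fintype Q] [DecidableEq Q] [Fintype ι] [DecidableEq ι]
  [Fintype Lb] [Fintype Pi] [Fintype A] [Fintype B] [Fintype C]

namespace Fire

variable (F : Fire Q ι Lb Pi A B C)

/-- Mean size of the row of `z` of a linear test. -/
noncomputable def mW (i : A) (z : Q) : ℝ := ∑ z', ∑ l, F.μ z z' l * |F.W i z z' l|

/-- Mean effect on a site. -/
noncomputable def aa (z z' : Q) (P : Pi) : ℝ := ∑ l, F.μ z z' l * F.af z z' l P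

/-- Mean effect of the row of `z` on a site. -/
noncomputable def mA (z : Q) (P : Pi) : ℝ := ∑ z', F.aa z z' P

/-- Weight of a pair in a kernel. -/
noncomputable def wB (b : B) (z z' : Q) (l : Lb) : ℝ := ∑ P, ∑ S, F.om b P S * F.af z z' l P

/-- Mean weight of the row of `z` in a kernel. -/
noncomputable def mB (b : B) (z : Q) : ℝ := ∑ z', ∑ l, F.μ z z' l * F.wB b z z' l

/-- Weight of a pair of equal colours. -/
noncomputable def W2 (b : B) (z' z'' : Q) : ℝ :=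
  ∑ z, ∑ P, ∑ S, F.om b P S * (F.aa z z' P * F.aa z z'' S)

/-- Bound for the probability of a colour. -/
noncomputable def rho : ℝ := 2 * F.D.T / F.D.k

/-- Error of a linear test in one round. -/
noncomputable def eW (i : A) : ℝ := F.D.T ^ 160 * F.wm i +
  F.D.T ^ 80 * Real.sqrt (F.wm i * (F.tot i / F.D.T ^ 4126 + F.d1 i / F.D.T ^ 3860))

/-- Weight of the firings of one round in a kernel. -/
noncomputable def fB (b : B) : ℝ :=
  F.tb b / F.D.T ^ 4122 + F.db b / F.D.T ^ 3860 + F.D.T ^ 160 * F.wb b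

/-- Weight of the double events of one round in a kernel. -/
noncomputable def eB (b : B) : ℝ :=
  F.tb b / F.D.T ^ 4888 + F.db b / F.D.T ^ 3680 + F.D.T ^ 470 * F.wb b

/-- Weight of the equal picks of one round. -/
noncomputable def eC (b : C) : ℝ := F.D.T ^ 4 *
  ((F.cs b / F.D.T ^ 129 + F.D.T ^ 135) * (F.cr b / F.D.T ^ 129 + F.D.T ^ 135 * F.cm b) /
    F.D.T ^ 3997 + F.cm b)

/-- The hypotheses. -/
structure Ok : Prop where
  dok : F.D.Ok
  mu_nonneg : ∀ z z' l, 0 ≤ F.μ z z' l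
  mu_sum : ∀ z z', ∑ l, F.μ z z' l = 1
  mu_symm : ∀ z z' l, F.μ z z' l = F.μ z' z l
  wm_pos : ∀ i, 0 < F.wm i
  W_row : ∀ i z, F.mW i z ≤ F.d1 i
  W_tot : ∀ i, ∑ z, F.mW i z ≤ F.tot i
  W_maj : ∀ i z z' l, |F.W i z z' l| ≤ F.ws i z z'
  ws_le : ∀ i z z', F.ws i z z' ≤ F.wm i
  ws_row : ∀ i z, ∑ z', F.ws i z z' ≤ F.D.T ^ 4100 * F.wm i
  ws_supp : ∀ i, ((univ.filter fun z => ∃ z', F.ws i z z' ≠ 0 ∨ F.ws i z' z ≠ 0).card : ℝ) ≤
    F.D.T ^ 15000
  ws_deg : ∀ z, ((univ.filter fun i => ∃ z', F.ws i z z' ≠ 0 ∨ F.ws i z' z ≠ 0).card : ℝ) ≤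
    F.D.T ^ 22000
  af_nonneg : ∀ z z' l P, 0 ≤ F.af z z' l P
  af_symm : ∀ z z' l P, F.af z z' l P = F.af z' z l P
  af_maj : ∀ z z' l P, F.af z z' l P ≤ F.as z z' P
  as_le : ∀ z z' P, F.as z z' P ≤ F.D.T
  as_row : ∀ z P, ∑ z', F.as z z' P ≤ F.D.T ^ 4100 * F.D.T
  af_row : ∀ z P, F.mA z P ≤ F.D.T ^ 1604
  af_tot : ∀ P, ∑ z, F.mA z P ≤ F.D.T ^ 3210
  as_supp : ∀ P, ((univ.filter fun z => ∃ z', F.as z z' P ≠ 0 ∨ F.as z' z P ≠ 0).card : ℝ) ≤
    F.D.T ^ 15000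
  as_deg : ∀ z, ((univ.filter fun P => ∃ z', F.as z z' P ≠ 0 ∨ F.as z' z P ≠ 0).card : ℝ) ≤
    F.D.T ^ 22000
  om_nonneg : ∀ b P S, 0 ≤ F.om b P S
  om_symm : ∀ b P S, F.om b P S = F.om b S P
  wb_pos : ∀ b, 0 < F.wb b
  B_maj : ∀ b z z' l, F.wB b z z' l ≤ F.bs b z z'
  bs_le : ∀ b z z', F.bs b z z' ≤ F.wb b
  bs_row : ∀ b z, ∑ z', F.bs b z z' ≤ F.D.T ^ 4100 * F.wb b
  B_row : ∀ b z, F.mB b z ≤ F.db b
  B_tot : ∀ b, ∑ z, F.mB b z ≤ F.tb b
  bs_supp : ∀ b, ((univ.filter fun z => ∃ z', F.bs b z z' ≠ 0 ∨ F.bs b z' z ≠ 0).card : ℝ) ≤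
    F.D.T ^ 15000
  bs_deg : ∀ z, ((univ.filter fun b => ∃ z', F.bs b z z' ≠ 0 ∨ F.bs b z' z ≠ 0).card : ℝ) ≤
    F.D.T ^ 22000
  cm_pos : ∀ b, 0 < F.cm b
  cr_nonneg : ∀ b, 0 ≤ F.cr b
  d1_nonneg : ∀ i, 0 ≤ F.d1 i
  db_nonneg : ∀ b, 0 ≤ F.db b
  cw_nonneg : ∀ b z z', 0 ≤ F.cw b z z'
  cw_le : ∀ b z z', F.cw b z z' + F.cw b z' z ≤ F.cm b
  cw_row : ∀ b z, ∑ z', (F.cw b z z' + F.cw b z' z) ≤ F.cr b
  cw_supp : ∀ b, ((univ.filter fun z => ∃ z', F.cw b z z' ≠ 0 ∨ F.cw b z' z ≠ 0).card : ℝ) ≤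
    F.cs b
  cs_le : ∀ b, F.cs b ≤ F.D.T ^ 15000
  cw_deg : ∀ z, ((univ.filter fun b => ∃ z', F.cw b z z' ≠ 0 ∨ F.cw b z' z ≠ 0).card : ℝ) ≤
    F.D.T ^ 22000

/-- The pair `z z'` has fired (`z` is the later vertex). -/
def fired {k : ℕ} (col : Q → Option (Fin k × ℕ)) (z z' : Q) : Prop :=
  ∃ c r r', col z = some (c, r) ∧ col z' = some (c, r') ∧ r' < r

/-- Equal picks in one round. -/
def clash {k : ℕ} (col : Q → Option (Fin k × ℕ)) (z z' : Q) : Prop :=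
  z ≠ z' ∧ ∃ e, col z = some e ∧ col z' = some e

/-- Sum over the fired pairs. -/
noncomputable def S1 {k : ℕ} (col : Q → Option (Fin k × ℕ)) (lab : Q → Q → Lb)
    (w : Q → Q → Lb → ℝ) : ℝ := ∑ z, ∑ z', if fired col z z' then w z z' (lab z z') else 0

/-- Number of firings that affect the site `P`. -/
noncomputable def np {k : ℕ} (col : Q → Option (Fin k × ℕ)) (lab : Q → Q → Lb) (P : Pi) : ℝ :=
  S1 col lab fun z z' l => F.af z z' l P

/-- Weight of the double events. -/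
noncomputable def D2 {k : ℕ} (col : Q → Option (Fin k × ℕ)) (lab : Q → Q → Lb) (b : B) : ℝ :=
  ∑ z, ∑ z', ∑ y, ∑ y', if fired col z z' ∧ fired col y y' ∧ (z, z') ≠ (y, y') then
    ∑ P, ∑ S, F.om b P S * (F.af z z' (lab z z') P * F.af y y' (lab y y') S) else 0

/-- Sum with the realised rates. -/
noncomputable def C1r (ra : Q → Q → ℝ) (w : Q → Q → Lb → ℝ) : ℝ :=
  ∑ z, ∑ z', ra z z' * ∑ l, F.μ z z' l * w z z' l

/-- The state predicate before round `m`. -/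
structure FInv (m : ℕ) (col : Q → Option (Fin F.D.k × ℕ)) (ok : Q → Prop) (Y : ι → ℝ)
    (lab : Q → Q → Lb) (ra : Q → Q → ℝ) : Prop where
  col_lt : ∀ z c r, col z = some (c, r) → r < m
  ra_nonneg : ∀ z z', 0 ≤ ra z z'
  ra_le : ∀ z z', ra z z' ≤ F.rho
  ra_col : ∀ z z', ra z z' ≠ 0 → ∃ c r c' r', col z = some (c, r) ∧ col z' = some (c', r') ∧
    r' < r
  rowW : ∀ i z c, L1 col (F.ws i z) c ≤ 4 * F.D.T * (F.rho * C1 col (F.ws i z) + m * F.wm i)
  rowA : ∀ P z c, L1 col (fun z' => F.as z z' P) c ≤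
    4 * F.D.T * (F.rho * C1 col (fun z' => F.as z z' P) + m * F.D.T)
  rowB : ∀ b z c, L1 col (F.bs b z) c ≤ 4 * F.D.T * (F.rho * C1 col (F.bs b z) + m * F.wb b)
  lin : ∀ i, |S1 col lab (F.W i) - F.C1r ra (F.W i)| ≤ m * F.eW i
  linB : ∀ b, S1 col lab (F.wB b) ≤ m * F.fB b
  raP : ∀ P, F.C1r ra (fun z z' l => F.af z z' l P) ≤ m / F.D.T ^ 919
  npP : ∀ P, F.np col lab P ≤ m * F.D.T ^ 158
  quad : ∀ i, |Y i - (1 / 2 * (∑ z, ∑ z', F.D.w i z z' * (1 + F.D.K z z')) -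
    F.D.k * ∑ z, ∑ z', ra z z' * F.D.w i z z')| ≤ F.D.sg m * F.D.gs i / F.D.T ^ 10 + m * F.D.er i
  s2 : ∀ b, S2 col (F.W2 b) ≤ 13 * F.D.T ^ 2 *
    (F.rho * C2 col (F.W2 b) + m * (F.D.T ^ 157 * (F.db b + F.wb b)))
  dbl : ∀ b, F.D2 col lab b ≤ m * F.eB b
  fail : ∀ i, (∑ z, if col z ≠ none ∧ ¬ ok z then F.D.g i z else 0) ≤
    1 / 20 * (∑ z, if col z ≠ none then F.D.g i z else 0) + m * F.D.dv i
  eq : ∀ b, (∑ z, ∑ z', if clash col z z' then F.cw b z z' else 0) ≤ m * F.eC b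

/-! ## One round -/

/-- The coordinate of a vertex: its pick and the labels of its pairs. -/
abbrev Pick (_F : Fire Q ι Lb Pi A B C) : Type u := Fin _F.D.k × (Q → Lb)

/-- Law of the labels. -/
noncomputable def nu (z : Q) (l : Q → Lb) : ℝ := ∏ z', F.μ z z' (l z')

/-- The typical selections. -/
structure GoodL (col : Q → Option (Fin F.D.k × ℕ)) (lam : Q → Option Bool) : Prop where
  l2 : ∀ i, ∑ z ∈ Sel col lam true, F.mW i z ≤ F.tot i / F.D.T ^ 130 + F.D.T ^ 136 * F.d1 i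
  l3 : ∀ P, ∑ z ∈ Sel col lam true, F.mA z P ≤ F.D.T ^ 3078
  l4 : ∀ b, ∑ z ∈ Sel col lam true, F.mB b z ≤ F.tb b / F.D.T ^ 130 + F.D.T ^ 136 * F.db b
  l5 : ∀ b z, ∑ z' ∈ Sel col lam true, (F.cw b z z' + F.cw b z' z) ≤
    F.cr b / F.D.T ^ 129 + F.D.T ^ 135 * F.cm b
  l6 : ∀ b, (((Sel col lam true).filter fun z =>
    ∃ z', F.cw b z z' ≠ 0 ∨ F.cw b z' z ≠ 0).card : ℝ) ≤ F.cs b / F.D.T ^ 129 + F.D.T ^ 135

end Fire

/-- Data of one round. -/
structure FRd (Q ι Lb Pi A B C : Type u) extends Fire Q ι Lb Pi A B C where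
  m : ℕ
  col : Q → Option (Fin D.k × ℕ)
  ok : Q → Prop
  Y : ι → ℝ
  lab : Q → Q → Lb
  ra : Q → Q → ℝ
  lam : Q → Option Bool
  p : Q → Fin D.k → ℝ
  bad : Q → Fin D.k → Prop

namespace FRd

variable (E : FRd Q ι Lb Pi A B C)

/-- Vertices that pick in this round. -/
noncomputable def L : Finset Q := Sel E.col E.lam true

/-- Hypotheses on a round. -/
structure Ok : Prop where
  fok : E.toFire.Ok
  m_lt : E.m < E.D.M
  inv : E.toFire.FInv E.m E.col E.ok E.Y E.lab E.ra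
  good : E.toFire.GoodL E.col E.lam
  dev : ∀ b i, |∑ z ∈ Sel E.col E.lam b, E.D.g i z - E.D.t E.m * ∑ z ∈ Un E.col, E.D.g i z| ≤
    E.D.dv i
  p_pm : IsPM E.p
  p_le : ∀ z c, E.p z c ≤ E.rho
  bad_le : ∀ z, (∑ c, if E.bad z c then E.p z c else 0) ≤ 1 / 20

/-- Law of the coordinates. -/
noncomputable def law : Q → E.Pick → ℝ := prodLaw E.p E.nu

/-- New firings of `z`, with weights `w`. -/
noncomputable def Fw (w : Q → Q → Lb → ℝ) (z : Q) (e : E.Pick) : ℝ :=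
  if z ∈ E.L then ∑ z', if HasC E.col z' e.1 then w z z' (e.2 z') else 0 else 0

/-- Double events: one old, one new firing. -/
noncomputable def Fal (b : B) (z : Q) (e : E.Pick) : ℝ :=
  E.Fw (fun z z' l => ∑ P, ∑ S, E.om b P S * (E.toFire.np E.col E.lab P * E.af z z' l S)) z e

/-- Double events of one vertex. -/
noncomputable def Fbe (b : B) (z : Q) (e : E.Pick) : ℝ :=
  if z ∈ E.L then ∑ z', ∑ z'', if z' ≠ z'' ∧ HasC E.col z' e.1 ∧ HasC E.col z'' e.1 then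
    ∑ P, ∑ S, E.om b P S * (E.af z z' (e.2 z') P * E.af z z'' (e.2 z'') S) else 0 else 0

/-- Double events of two vertices. -/
noncomputable def Fga (b : B) (ω : Q → E.Pick) : ℝ :=
  ∑ z, ∑ y, if z ≠ y then ∑ P, ∑ S, E.om b P S *
    (E.Fw (fun z z' l => E.af z z' l P) z (ω z) * E.Fw (fun y y' l => E.af y y' l S) y (ω y))
    else 0

variable (ω : Q → E.Pick)

/-- Colouring after the round. -/
noncomputable def nCol : Q → Option (Fin E.D.k × ℕ) :=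
  updCol E.m E.col E.lam fun z => (ω z).1

/-- Allowed picks after the round. -/
def nOk : Q → Prop := updOk E.col E.ok E.lam E.bad fun z => (ω z).1

/-- Labels after the round. -/
noncomputable def nLab (z z' : Q) : Lb := if z ∈ E.L then (ω z).2 z' else E.lab z z'

/-- Realised rates after the round. -/
noncomputable def nRa (z z' : Q) : ℝ :=
  if z ∈ E.L then ∑ c, if HasC E.col z' c then E.p z c else 0 else E.ra z z'

/-- Typical picks. -/
structure Good : Prop where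
  g0W : ∀ i z c, L1 (E.nCol ω) (E.ws i z) c ≤
    4 * E.D.T * (E.rho * C1 (E.nCol ω) (E.ws i z) + ((E.m + 1 : ℕ) : ℝ) * E.wm i)
  g0A : ∀ P z c, L1 (E.nCol ω) (fun z' => E.as z z' P) c ≤
    4 * E.D.T * (E.rho * C1 (E.nCol ω) (fun z' => E.as z z' P) + ((E.m + 1 : ℕ) : ℝ) * E.D.T)
  g0B : ∀ b z c, L1 (E.nCol ω) (E.bs b z) c ≤
    4 * E.D.T * (E.rho * C1 (E.nCol ω) (E.bs b z) + ((E.m + 1 : ℕ) : ℝ) * E.wb b)
  g1 : ∀ i, |∑ z, (E.Fw (E.W i) z (ω z) - mean E.law (E.Fw (E.W i)) z)| ≤ E.eW i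
  g2 : ∀ b, ∑ z, E.Fw (E.wB b) z (ω z) ≤ E.fB b
  g3 : ∀ P, ∑ z, E.Fw (fun z z' l => E.af z z' l P) z (ω z) ≤ E.D.T ^ 158
  g4 : ∀ b, ∑ z, E.Fal b z (ω z) ≤ E.eB b / 4
  g5 : ∀ b, ∑ z, E.Fbe b z (ω z) ≤ E.eB b / 4
  g6 : ∀ b, E.Fga b ω ≤ E.eB b / 4
  g7 : ∀ b, S2 (E.nCol ω) (E.W2 b) ≤ 13 * E.D.T ^ 2 *
    (E.rho * C2 (E.nCol ω) (E.W2 b) + ((E.m + 1 : ℕ) : ℝ) *
      (E.D.T ^ 157 * (E.db b + E.wb b)))
  g8 : ∀ i, (∑ z ∈ E.L, if E.bad z (ω z).1 then E.D.g i z else 0) ≤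
    1 / 20 * (∑ z ∈ E.L, E.D.g i z) + E.D.dv i
  g9 : ∀ b, (∑ z ∈ E.L, ∑ z' ∈ E.L, if z ≠ z' ∧ (ω z).1 = (ω z').1 then E.cw b z z' else 0) ≤
    E.eC b

end FRd

end

end Pool.Agent.AcyG
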