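import Pool.Agent.AcyG.FDefs
import Pool.Agent.AcyG.FBas

/-! # Linear tests of the firing process (row FL) -/

set_option autoImplicit false
set_option linter.unusedSectionVars false

namespace Pool.Agent.AcyG

open Finset
open Pool.Agent.Acy (IsPM wt Ex Pr mean)
open Pool.Agent.AcyK (Big StepOK LocOK prodLaw Un Sel updCol HasC SameC L1 C1 S2 C2)
open scoped Classical

universe u v

/-- Local families in the first coordinates. -/
theorem fl_fst {Q : Type u} [Fintype Q] [DecidableEq Q] {α β : Type*} [Fintype α] [Fintype β]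
    {e : ℕ} {T : ℝ} {μ : Q → α → ℝ} {ν : Q → β → ℝ} (hμ : IsPM μ) (hν : IsPM ν)
    {G : (Q → α) → Prop} (h : LocOK e T μ G) :
    LocOK e T (prodLaw μ ν) (fun ω => G fun y => (ω y).1) := by
  obtain ⟨κ, hκ, E, S, hd, hp, hs, hi, hg⟩ := h
  refine ⟨κ, hκ, fun b ω => E b fun y => (ω y).1, S, ?_, ?_, hs, hi, ?_⟩
  · intro b ω ω' hω
    exact hd b fun i hi => by rw [hω i hi]
  · intro b
    rw [Pool.Agent.AcyK.Pr_prodLaw_fst hμ hν]
    exact hp b
  · intro ω hω
    exact hg _ hω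

section

variable {Q ι Lb Pi A B C : Type u} [Fintype Q] [DecidableEq Q] [Fintype ι] [DecidableEq ι]
  [Fintype Lb] [Fintype Pi] [Fintype A] [Fintype B] [Fintype C]

namespace FRd

variable {E : FRd Q ι Lb Pi A B C}

theorem fl_pow {T : ℝ} (hT : 0 < T) (x y : ℝ) :
    (x / T ^ 130 + T ^ 136 * y) / T ^ 3996 = x / T ^ 4126 + y / T ^ 3860 := by
  have e2 : T ^ 3996 = T ^ 136 * T ^ 3860 := by rw [← pow_add]
  have e1 : T ^ 4126 = T ^ 130 * T ^ 3996 := by rw [← pow_add]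
  have e3 : T ^ 136 * y / T ^ 3996 = y / T ^ 3860 := by
    rw [e2, mul_div_mul_left _ _ (by positivity)]
  rw [add_div, div_div, ← e1, e3]

section
variable (hE : E.Ok)
include hE

omit hE in
theorem fl_supp_le (w : Q → Q → Lb → ℝ) {s : Q → Q → ℝ} (hs : ∀ z z' l, |w z z' l| ≤ s z z')
    {X : ℝ} (hX : ((univ.filter fun z => ∃ z', s z z' ≠ 0 ∨ s z' z ≠ 0).card : ℝ) ≤ X) :
    ((univ.filter fun z => ∃ z' l, w z z' l ≠ 0).card : ℝ) ≤ X := by
  refine le_trans ?_ hX
  have h1 : (univ.filter fun z => ∃ z' l, w z z' l ≠ 0) ⊆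
      (univ.filter fun z => ∃ z', s z z' ≠ 0 ∨ s z' z ≠ 0) := by
    intro z hz
    obtain ⟨z', l, hne⟩ := (mem_filter.1 hz).2
    refine mem_filter.2 ⟨mem_univ _, z', Or.inl fun h0 => hne ?_⟩
    have := hs z z' l
    rw [h0] at this
    exact abs_eq_zero.1 (le_antisymm this (abs_nonneg _))
  exact_mod_cast Finset.card_le_card h1

omit hE in
theorem fl_deg_le {κ : Type u} [Fintype κ] (w : κ → Q → Lb → ℝ) {s : κ → Q → ℝ}
    {s' : κ → Q → ℝ} (hs : ∀ i z' l, |w i z' l| ≤ s i z') {X : ℝ}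
    (hX : ((univ.filter fun i => ∃ z', s i z' ≠ 0 ∨ s' i z' ≠ 0).card : ℝ) ≤ X) :
    ((univ.filter fun i => ∃ z' l, w i z' l ≠ 0).card : ℝ) ≤ X := by
  refine le_trans ?_ hX
  have h1 : (univ.filter fun i => ∃ z' l, w i z' l ≠ 0) ⊆
      (univ.filter fun i => ∃ z', s i z' ≠ 0 ∨ s' i z' ≠ 0) := by
    intro i hi
    obtain ⟨z', l, hne⟩ := (mem_filter.1 hi).2
    refine mem_filter.2 ⟨mem_univ _, z', Or.inl fun h0 => hne ?_⟩
    have := hs i z' l
    rw [h0] at this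
    exact abs_eq_zero.1 (le_antisymm this (abs_nonneg _))
  exact_mod_cast Finset.card_le_card h1

theorem fl_T_ge : (1000000 : ℝ) ≤ E.D.T := by
  have := hE.fok.dok.big.big
  norm_num at this
  exact this

theorem fl_rho : E.rho ≤ 2 / E.D.T ^ 3998 := by
  have hT := fl_T_ge hE
  have hk := hE.fok.dok.k_lo
  have hk0 : (0 : ℝ) < E.D.k := lt_of_lt_of_le (by positivity) hk
  show 2 * E.D.T / E.D.k ≤ 2 / E.D.T ^ 3998
  rw [div_le_div_iff₀ hk0 (by positivity)]
  have e1 : E.D.T * E.D.T ^ 3998 = E.D.T ^ 3999 := by rw [← pow_succ']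
  rw [mul_assoc, e1]
  exact mul_le_mul_of_nonneg_left hk (by norm_num)

theorem fl_rt_zero (z z' : Q) (hz : z ∉ E.L) : E.rt z z' = 0 := by
  unfold rt
  rw [if_neg hz]

/-- Mean of a nonnegative function. -/
theorem fl_mean (w : Q → Q → Lb → ℝ) (hw : ∀ z z' l, 0 ≤ w z z' l) :
    ∑ z, mean E.law (E.Fw w) z ≤
      E.rho * ∑ z ∈ E.L, ∑ z', ∑ l, E.μ z z' l * w z z' l := by
  rw [Finset.mul_sum, ← Finset.sum_subset (Finset.subset_univ E.L)]
  · refine Finset.sum_le_sum fun z _ => ?_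
    rw [mean_Fw hE, Finset.mul_sum]
    refine Finset.sum_le_sum fun z' _ => ?_
    exact mul_le_mul_of_nonneg_right (rt_le hE z z')
      (Finset.sum_nonneg fun l _ => mul_nonneg (hE.fok.mu_nonneg _ _ _) (hw _ _ _))
  · intro z _ hz
    rw [mean_Fw hE]
    refine Finset.sum_eq_zero fun z' _ => ?_
    rw [fl_rt_zero hE z z' hz, zero_mul]

omit hE in
theorem fl_Fw_nonneg (w : Q → Q → Lb → ℝ) (hw : ∀ z z' l, 0 ≤ w z z' l) (z : Q) (e : E.Pick) :
    0 ≤ E.Fw w z e := by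
  unfold Fw
  split_ifs
  · refine Finset.sum_nonneg fun z' _ => ?_
    split_ifs
    · exact hw _ _ _
    · exact le_rfl
  · exact le_rfl

omit hE in
theorem fl_Fw_abs (w : Q → Q → Lb → ℝ) (z : Q) (e : E.Pick) :
    |E.Fw w z e| ≤ E.Fw (fun z z' l => |w z z' l|) z e := by
  unfold Fw
  split_ifs
  · refine (Finset.abs_sum_le_sum_abs _ _).trans (Finset.sum_le_sum fun z' _ => ?_)
    split_ifs
    · exact le_rfl
    · rw [abs_zero]
  · rw [abs_zero]

omit hE in
/-- Pathwise bound. -/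
theorem fl_Fw_le (w : Q → Q → Lb → ℝ) {b : ℝ} (hb : 0 ≤ b) (z : Q)
    (hcls : ∀ (c : Fin E.D.k) (l : Q → Lb),
      ∑ z', (if HasC E.col z' c then w z z' (l z') else 0) ≤ b) (e : E.Pick) :
    E.Fw w z e ≤ b := by
  unfold Fw
  split_ifs
  · exact hcls e.1 e.2
  · exact hb

omit hE in
theorem fl_Fw_supp (w : Q → Q → Lb → ℝ) (z : Q) (e : E.Pick) (h : E.Fw w z e ≠ 0) :
    ∃ z' l, w z z' l ≠ 0 := by
  by_contra hn
  push Not at hn
  apply h
  unfold Fw
  split_ifs
  · refine Finset.sum_eq_zero fun z' _ => ?_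
    rw [hn]
    simp
  · rfl

omit hE in
theorem fl_sum_law (g : Q → E.Pick → ℝ) :
    ∑ u, ∑ c, g u c * E.law u c = ∑ u, mean E.law g u := by
  refine Finset.sum_congr rfl fun u _ => Finset.sum_congr rfl fun c _ => mul_comm _ _

/-- Lists of rows. -/
theorem fl_rows {κ : Type u} [Fintype κ] (g : κ → Q → Q → ℝ) (hg : ∀ a z z', 0 ≤ g a z z')
    (b : κ → ℝ) (hb : ∀ a, 0 < b a) (hgb : ∀ a z z', g a z z' ≤ b a)
    (hsupp : ∀ a, ((univ.filter fun z => ∃ z', g a z z' ≠ 0 ∨ g a z' z ≠ 0).card : ℝ) ≤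
      E.D.T ^ 15000)
    (hdeg : ∀ z, ((univ.filter fun a => ∃ z', g a z z' ≠ 0 ∨ g a z' z ≠ 0).card : ℝ) ≤
      E.D.T ^ 22000)
    (hinv : ∀ a z c, L1 E.col (g a z) c ≤
      4 * E.D.T * (E.rho * C1 E.col (g a z) + E.m * b a)) :
    LocOK 42000 E.D.T E.law (fun ω => ∀ a z c, L1 (E.nCol ω) (g a z) c ≤
      4 * E.D.T * (E.rho * C1 (E.nCol ω) (g a z) + ((E.m + 1 : ℕ) : ℝ) * b a)) := by
  have hT := hE.fok.dok.big
  have hTg := fl_T_ge hE
  have hT0 : 0 < E.D.T := by linarith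
  have hcount : ∀ y : Q, ((univ.filter fun x : κ × Q => g x.1 x.2 y ≠ 0).card : ℝ) ≤
      E.D.T ^ 37000 := by
    intro y
    have h1 : ((univ.filter fun x : κ × Q => g x.1 x.2 y ≠ 0).card : ℝ) =
        ∑ a, ((univ.filter fun z => g a z y ≠ 0).card : ℝ) := by
      rw [Finset.card_filter, Fintype.sum_prod_type]
      push_cast
      refine Finset.sum_congr rfl fun a _ => ?_
      rw [Finset.card_filter]
      push_cast
      rfl
    have h2 : ∀ a, ((univ.filter fun z => g a z y ≠ 0).card : ℝ) ≤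
        if a ∈ (univ.filter fun a => ∃ z', g a y z' ≠ 0 ∨ g a z' y ≠ 0) then
          E.D.T ^ 15000 else 0 := by
      intro a
      split_ifs with ha
      · refine le_trans ?_ (hsupp a)
        have hsub : (univ.filter fun z => g a z y ≠ 0) ⊆
            (univ.filter fun z => ∃ z', g a z z' ≠ 0 ∨ g a z' z ≠ 0) := fun z hz =>
          mem_filter.2 ⟨mem_univ _, y, Or.inl (mem_filter.1 hz).2⟩
        exact_mod_cast Finset.card_le_card hsub
      · have : (univ.filter fun z => g a z y ≠ 0) = ∅ := by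
          apply Finset.filter_eq_empty_iff.2
          intro z _ hz
          exact ha (mem_filter.2 ⟨mem_univ _, z, Or.inr hz⟩)
        rw [this]
        simp
    rw [h1]
    refine (Finset.sum_le_sum fun a _ => h2 a).trans ?_
    rw [Finset.sum_ite_mem, Finset.univ_inter, Finset.sum_const, nsmul_eq_mul]
    calc _ ≤ E.D.T ^ 22000 * E.D.T ^ 15000 :=
          mul_le_mul_of_nonneg_right (hdeg y) (by positivity)
      _ = E.D.T ^ 37000 := by rw [← pow_add]
  have h := Pool.Agent.AcyK.kind1_loc hT hE.p_pm hE.p_le (Fire.rho_nonneg hE.fok) E.m E.col E.lam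
    (κ := κ × Q) (fun _ => True) (fun a z' => g a.1 a.2 z')
    (fun a y => hg _ _ _) (fun a => b a.1) (fun a _ => hb a.1)
    (fun a _ y => hgb _ _ _) (fun a => univ.filter fun z' => g a.1 a.2 z' ≠ 0)
    (fun a _ y hy => mem_filter.2 ⟨mem_univ _, hy⟩) 42000
    (fun a _ => by
      refine le_trans ?_ ((hsupp a.1).trans (hT.pw (by norm_num)))
      have hsub : (univ.filter fun z' => g a.1 a.2 z' ≠ 0) ⊆
          (univ.filter fun z => ∃ z', g a.1 z z' ≠ 0 ∨ g a.1 z' z ≠ 0) := fun z' hz =>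
        mem_filter.2 ⟨mem_univ _, a.2, Or.inr (mem_filter.1 hz).2⟩
      exact_mod_cast Finset.card_le_card hsub)
    (fun y => ⟨univ.filter fun x : κ × Q => g x.1 x.2 y ≠ 0,
      fun a _ ha => mem_filter.2 ⟨mem_univ _, (mem_filter.1 ha).2⟩, by
      have h2 := hE.fok.dok.k_hi
      calc (((univ.filter fun x : κ × Q => g x.1 x.2 y ≠ 0).card : ℝ)) * E.D.k ≤
          E.D.T ^ 37000 * E.D.T ^ 4000 := by
            apply mul_le_mul (hcount y) h2 (Nat.cast_nonneg _) (by positivity)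
        _ = E.D.T ^ 41000 := by rw [← pow_add]
        _ ≤ E.D.T ^ 42000 := hT.pw (by norm_num)⟩)
    (fun a _ c => hinv a.1 a.2 c)
  have h2 := fl_fst hE.p_pm (Fire.nu_isPM hE.fok) h
  obtain ⟨κ', hκ', E', S', hd, hp, hs, hi, hg⟩ := h2
  exact ⟨κ', hκ', E', S', hd, hp, hs, hi, fun ω hω a z c => hg ω hω (a, z) trivial c⟩

omit hE in
theorem fl_lb (hF : E.toFire.Ok) (z z' : Q) : Nonempty Lb := by
  by_contra h
  rw [not_nonempty_iff] at h
  have h1 := hF.mu_sum z z'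
  rw [Finset.univ_eq_empty, Finset.sum_empty] at h1
  exact zero_ne_one h1

theorem loc_g0W : LocOK 42000 E.D.T E.law (fun ω => ∀ i z c, L1 (E.nCol ω) (E.ws i z) c ≤
    4 * E.D.T * (E.rho * C1 (E.nCol ω) (E.ws i z) + ((E.m + 1 : ℕ) : ℝ) * E.wm i)) :=
  fl_rows hE E.ws (fun i z z' => by
      obtain ⟨l⟩ := fl_lb hE.fok z z'
      exact (abs_nonneg _).trans (hE.fok.W_maj i z z' l)) E.wm hE.fok.wm_pos hE.fok.ws_le
    hE.fok.ws_supp hE.fok.ws_deg hE.inv.rowW

theorem loc_g0A : LocOK 42000 E.D.T E.law (fun ω => ∀ P z c,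
    L1 (E.nCol ω) (fun z' => E.as z z' P) c ≤ 4 * E.D.T *
      (E.rho * C1 (E.nCol ω) (fun z' => E.as z z' P) + ((E.m + 1 : ℕ) : ℝ) * E.D.T)) :=
  fl_rows hE (fun P z z' => E.as z z' P) (fun P z z' => by
      obtain ⟨l⟩ := fl_lb hE.fok z z'
      exact (hE.fok.af_nonneg z z' l P).trans (hE.fok.af_maj z z' l P)) (fun _ => E.D.T)
    (fun _ => hE.fok.dok.big.pos) (fun P z z' => hE.fok.as_le z z' P)
    hE.fok.as_supp hE.fok.as_deg hE.inv.rowA

theorem loc_g0B : LocOK 42000 E.D.T E.law (fun ω => ∀ b z c, L1 (E.nCol ω) (E.bs b z) c ≤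
    4 * E.D.T * (E.rho * C1 (E.nCol ω) (E.bs b z) + ((E.m + 1 : ℕ) : ℝ) * E.wb b)) :=
  fl_rows hE E.bs (fun b z z' => by
      obtain ⟨l⟩ := fl_lb hE.fok z z'
      exact (Fire.wB_nonneg hE.fok b z z' l).trans (hE.fok.B_maj b z z' l)) E.wb hE.fok.wb_pos
    hE.fok.bs_le hE.fok.bs_supp hE.fok.bs_deg hE.inv.rowB

theorem loc_g1 : LocOK 30000 E.D.T E.law (fun ω => ∀ i,
    |∑ z, (E.Fw (E.W i) z (ω z) - mean E.law (E.Fw (E.W i)) z)| ≤ E.eW i) := by
  have hT := hE.fok.dok.big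
  have hTg := fl_T_ge hE
  have h5T : (5 : ℝ) ≤ E.D.T := by linarith
  have h25T : (25 : ℝ) ≤ E.D.T := by linarith
  have hT0 : 0 < E.D.T := by linarith
  have hlaw := law_isPM hE
  set r : A → ℝ := fun i => ∑ u, ∑ c, E.law u c * |E.Fw (E.W i) u c| with hr
  have hr0 : ∀ i, 0 ≤ r i := fun i => Finset.sum_nonneg fun u _ => Finset.sum_nonneg fun c _ =>
    mul_nonneg (hlaw.nonneg u c) (abs_nonneg _)
  have h := loc_bern hT hlaw (κ := A) (fun _ => True) (fun i u c => E.Fw (E.W i) u c)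
    (fun i => 5 * E.D.T ^ 151 * E.wm i) r
    (fun i _ => by have := hE.fok.wm_pos i; positivity) (fun i _ => hr0 i)
    (fun i _ u c => by
      refine (fl_Fw_abs _ _ _).trans ?_
      have := hE.fok.wm_pos i
      exact fl_Fw_le _ (by positivity) u (fun c l => cls_W hE i u c l) c)
    (fun i _ => le_rfl)
    (fun i => univ.filter fun z => ∃ z' l, E.W i z z' l ≠ 0)
    (fun i _ u c hne => mem_filter.2 ⟨mem_univ _, fl_Fw_supp _ _ _ hne⟩) 30000
    (fun i _ => (fl_supp_le _ (fun z z' l => hE.fok.W_maj i z z' l) (hE.fok.ws_supp i)).trans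
      (hT.pw (by norm_num)))
    (fun y => ⟨univ.filter fun i => ∃ z' l, E.W i y z' l ≠ 0,
      fun i _ hi => mem_filter.2 ⟨mem_univ _, (mem_filter.1 hi).2⟩,
      (fl_deg_le (fun i z' l => E.W i y z' l) (fun i z' l => hE.fok.W_maj i y z' l)
        (hE.fok.ws_deg y)).trans (hT.pw (by norm_num))⟩)
  obtain ⟨κ', hκ', E', S', hd, hp, hs, hi, hg⟩ := h
  refine ⟨κ', hκ', E', S', hd, hp, hs, hi, fun ω hω i => ?_⟩
  refine (hg ω hω i trivial).trans ?_
  -- the size of `r`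
  have hwm := hE.fok.wm_pos i
  have h1 : r i ≤ E.rho * ∑ z ∈ E.L, E.mW i z := by
    rw [hr]
    refine le_trans ?_ (fl_mean hE (fun z z' l => |E.W i z z' l|) fun _ _ _ => abs_nonneg _)
    refine Finset.sum_le_sum fun u _ => Finset.sum_le_sum fun c _ => ?_
    exact mul_le_mul_of_nonneg_left (fl_Fw_abs _ _ _) (hlaw.nonneg u c)
  have h2 := hE.good.l2 i
  have hmW : 0 ≤ ∑ z ∈ E.L, E.mW i z := Finset.sum_nonneg fun z _ =>
    Finset.sum_nonneg fun z' _ => Finset.sum_nonneg fun l _ =>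
      mul_nonneg (hE.fok.mu_nonneg _ _ _) (abs_nonneg _)
  set X := E.tot i / E.D.T ^ 130 + E.D.T ^ 136 * E.d1 i with hX
  have hX0 : 0 ≤ X := hmW.trans h2
  have h3 : r i ≤ 2 / E.D.T ^ 3998 * X := by
    refine h1.trans ?_
    exact mul_le_mul (fl_rho hE) h2 hmW (by positivity)
  set Z := E.tot i / E.D.T ^ 4126 + E.d1 i / E.D.T ^ 3860 with hZ
  have hZX : Z = X / E.D.T ^ 3996 := (fl_pow hT0 _ _).symm
  have h6 : E.eW i = E.D.T ^ 160 * E.wm i + E.D.T ^ 80 * Real.sqrt (E.wm i * Z) := rfl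
  rw [h6]
  clear h6
  clear_value Z X
  have h4 : r i ≤ Z := by
    refine h3.trans ?_
    rw [hZX]
    have e3 : E.D.T ^ 3998 = E.D.T ^ 2 * E.D.T ^ 3996 := by rw [← pow_add]
    have e4 : (2 : ℝ) / E.D.T ^ 2 ≤ 1 := by
      rw [div_le_one (by positivity)]
      exact le_trans (by linarith) (le_self_pow₀ (by linarith : 1 ≤ E.D.T) two_ne_zero)
    have e5 : 0 ≤ X / E.D.T ^ 3996 := by positivity
    rw [e3, ← div_div, div_mul_eq_mul_div, mul_div_assoc]
    exact mul_le_of_le_one_left e5 e4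
  have hZ0 : 0 ≤ Z := (hr0 i).trans h4
  have h5 : Real.sqrt (5 * E.D.T ^ 151 * E.wm i * r i) ≤
      E.D.T ^ 76 * Real.sqrt (E.wm i * Z) := by
    rw [← Real.sqrt_sq (show 0 ≤ E.D.T ^ 76 by positivity), ← Real.sqrt_mul (by positivity)]
    apply Real.sqrt_le_sqrt
    have e1 : (E.D.T ^ 76) ^ 2 = E.D.T * E.D.T ^ 151 := by rw [← pow_mul, ← pow_succ']
    rw [e1]
    calc 5 * E.D.T ^ 151 * E.wm i * r i ≤ E.D.T * E.D.T ^ 151 * E.wm i * Z := by
          apply mul_le_mul _ h4 (hr0 i) (by positivity)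
          apply mul_le_mul_of_nonneg_right _ hwm.le
          exact mul_le_mul_of_nonneg_right h5T (pow_nonneg hT0.le _)
      _ = _ := by ring
  have h7 : 0 ≤ Real.sqrt (E.wm i * Z) := Real.sqrt_nonneg _
  generalize Real.sqrt (E.wm i * Z) = q at h5 h7 ⊢
  have h8 : 5 * E.D.T * Real.sqrt (5 * E.D.T ^ 151 * E.wm i * r i) ≤
      E.D.T ^ 80 * q := by
    calc _ ≤ 5 * E.D.T * (E.D.T ^ 76 * q) := by gcongr
      _ = 5 * (E.D.T ^ 77 * q) := by ring
      _ ≤ E.D.T * (E.D.T ^ 77 * q) :=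
          mul_le_mul_of_nonneg_right h5T (mul_nonneg (pow_nonneg hT0.le _) h7)
      _ = E.D.T ^ 78 * q := by ring
      _ ≤ _ := by
          apply mul_le_mul_of_nonneg_right (hT.pw (by norm_num)) h7
  have h9 : 5 * E.D.T * (5 * E.D.T ^ 151 * E.wm i) ≤ E.D.T ^ 160 * E.wm i := by
    have e1 : 25 * E.D.T ^ 152 ≤ E.D.T ^ 160 := by
      calc 25 * E.D.T ^ 152 ≤ E.D.T * E.D.T ^ 152 :=
            mul_le_mul_of_nonneg_right h25T (pow_nonneg hT0.le _)
        _ = E.D.T ^ 153 := by ring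
        _ ≤ _ := hT.pw (by norm_num)
    calc _ = 25 * E.D.T ^ 152 * E.wm i := by ring
      _ ≤ _ := mul_le_mul_of_nonneg_right e1 hwm.le
  rw [mul_add]
  linarith

/-- Bound for nonnegative linear tests. -/
theorem fl_single {κ : Type u} [Fintype κ] (w : κ → Q → Q → Lb → ℝ)
    (hw : ∀ i z z' l, 0 ≤ w i z z' l) (b X : κ → ℝ) (hb : ∀ i, 0 < b i)
    (hcls : ∀ i z (c : Fin E.D.k) (l : Q → Lb),
      ∑ z', (if HasC E.col z' c then w i z z' (l z') else 0) ≤ 5 * E.D.T ^ 151 * b i)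
    (hX : ∀ i, ∑ z ∈ E.L, ∑ z', ∑ l, E.μ z z' l * w i z z' l ≤ X i)
    (hsupp : ∀ i, ((univ.filter fun z => ∃ z' l, w i z z' l ≠ 0).card : ℝ) ≤ E.D.T ^ 15000)
    (hdeg : ∀ z, ((univ.filter fun i => ∃ z' l, w i z z' l ≠ 0).card : ℝ) ≤ E.D.T ^ 22000) :
    LocOK 30000 E.D.T E.law (fun ω => ∀ i, ∑ z, E.Fw (w i) z (ω z) ≤
      8 / E.D.T ^ 3997 * X i + 20 * E.D.T ^ 152 * b i) := by
  have hT := hE.fok.dok.big
  have hTg := fl_T_ge hE
  have hT0 : 0 < E.D.T := by linarith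
  have hlaw := law_isPM hE
  have hX0 : ∀ i, 0 ≤ ∑ z ∈ E.L, ∑ z', ∑ l, E.μ z z' l * w i z z' l := fun i =>
    Finset.sum_nonneg fun z _ => Finset.sum_nonneg fun z' _ => Finset.sum_nonneg fun l _ =>
      mul_nonneg (hE.fok.mu_nonneg _ _ _) (hw _ _ _ _)
  have hX1 : ∀ i, 0 ≤ X i := fun i => (hX0 i).trans (hX i)
  have h := Pool.Agent.AcyK.loc_single hT hlaw (κ := κ) (fun _ => True)
    (fun i u c => E.Fw (w i) u c) (fun i u c => fl_Fw_nonneg _ (hw i) u c)
    (fun i => 2 / E.D.T ^ 3998 * X i + 5 * E.D.T ^ 151 * b i)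
    (fun i _ => by
      have h1 := hb i
      have h2 := hX1 i
      positivity)
    (fun i _ => by
      rw [fl_sum_law]
      have h1 := fl_mean hE (w i) (hw i)
      have h2 : E.rho * ∑ z ∈ E.L, ∑ z', ∑ l, E.μ z z' l * w i z z' l ≤
          2 / E.D.T ^ 3998 * X i :=
        mul_le_mul (fl_rho hE) (hX i) (hX0 i) (by positivity)
      have h3 : 0 ≤ 5 * E.D.T ^ 151 * b i := by
        have := hb i
        positivity
      linarith)
    (fun i _ u c => by
      have h0 := hb i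
      have h1 := fl_Fw_le (w i) (show 0 ≤ 5 * E.D.T ^ 151 * b i by positivity) u
        (hcls i u) c
      have h2 : 0 ≤ 2 / E.D.T ^ 3998 * X i := by
        have := hX1 i
        positivity
      linarith)
    (fun i => univ.filter fun z => ∃ z' l, w i z z' l ≠ 0)
    (fun i _ u c hne => mem_filter.2 ⟨mem_univ _, fl_Fw_supp _ _ _ hne⟩) 30000
    (fun i _ => (hsupp i).trans (hT.pw (by norm_num)))
    (fun y => ⟨univ.filter fun i => ∃ z' l, w i y z' l ≠ 0,
      fun i _ hi => mem_filter.2 ⟨mem_univ _, (mem_filter.1 hi).2⟩,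
      (hdeg y).trans (hT.pw (by norm_num))⟩)
  obtain ⟨κ', hκ', E', S', hd, hp, hs, hi, hg⟩ := h
  refine ⟨κ', hκ', E', S', hd, hp, hs, hi, fun ω hω i => ?_⟩
  refine (hg ω hω i trivial).trans (le_of_eq ?_)
  have e1 : E.D.T ^ 3998 = E.D.T * E.D.T ^ 3997 := by rw [← pow_succ']
  rw [e1]
  field_simp
  ring

theorem loc_g2 : LocOK 30000 E.D.T E.law (fun ω => ∀ b,
    ∑ z, E.Fw (E.wB b) z (ω z) ≤ E.fB b) := by
  have hT := hE.fok.dok.big
  have hTg := fl_T_ge hE
  have hT0 : 0 < E.D.T := by linarith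
  have h := fl_single hE (κ := B) (fun b => E.wB b) (fun b => Fire.wB_nonneg hE.fok b)
    E.wb (fun b => E.tb b / E.D.T ^ 130 + E.D.T ^ 136 * E.db b) hE.fok.wb_pos
    (fun b z c l => cls_B hE b z c l) (fun b => hE.good.l4 b)
    (fun b => fl_supp_le _ (fun z z' l => by
      rw [abs_of_nonneg (Fire.wB_nonneg hE.fok b z z' l)]
      exact hE.fok.B_maj b z z' l) (hE.fok.bs_supp b))
    (fun z => fl_deg_le _ (fun b z' l => by
      rw [abs_of_nonneg (Fire.wB_nonneg hE.fok b z z' l)]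
      exact hE.fok.B_maj b z z' l) (hE.fok.bs_deg z))
  obtain ⟨κ', hκ', E', S', hd, hp, hs, hi, hg⟩ := h
  refine ⟨κ', hκ', E', S', hd, hp, hs, hi, fun ω hω b => ?_⟩
  refine (hg ω hω b).trans ?_
  have htb : 0 ≤ E.tb b := le_trans (Finset.sum_nonneg fun z _ =>
    Finset.sum_nonneg fun z' _ => Finset.sum_nonneg fun l _ =>
      mul_nonneg (hE.fok.mu_nonneg _ _ _) (Fire.wB_nonneg hE.fok b _ _ _)) (hE.fok.B_tot b)
  have hl4 : 0 ≤ E.tb b / E.D.T ^ 130 + E.D.T ^ 136 * E.db b := le_trans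
    (Finset.sum_nonneg fun z _ => Finset.sum_nonneg fun z' _ => Finset.sum_nonneg fun l _ =>
      mul_nonneg (hE.fok.mu_nonneg _ _ _) (Fire.wB_nonneg hE.fok b _ _ _)) (hE.good.l4 b)
  have hwb := hE.fok.wb_pos b
  show _ ≤ E.tb b / E.D.T ^ 4122 + E.db b / E.D.T ^ 3860 + E.D.T ^ 160 * E.wb b
  have e1 : 20 * E.D.T ^ 152 * E.wb b ≤ E.D.T ^ 160 * E.wb b := by
    apply mul_le_mul_of_nonneg_right _ hwb.le
    calc 20 * E.D.T ^ 152 ≤ E.D.T * E.D.T ^ 152 := by
          apply mul_le_mul_of_nonneg_right _ (by positivity)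
          linarith
      _ = E.D.T ^ 153 := by ring
      _ ≤ _ := hT.pw (by norm_num)
  -- normal form in terms of `x = tb / T^4126` and `y = db / T^3860`
  have e2 : 8 / E.D.T ^ 3997 * (E.tb b / E.D.T ^ 130 + E.D.T ^ 136 * E.db b) =
      8 / E.D.T * ((E.tb b / E.D.T ^ 130 + E.D.T ^ 136 * E.db b) / E.D.T ^ 3996) := by
    have : E.D.T ^ 3997 = E.D.T * E.D.T ^ 3996 := by rw [← pow_succ']
    rw [this, ← div_div, div_mul_eq_mul_div, mul_div_assoc]
  have e3 : (E.tb b / E.D.T ^ 130 + E.D.T ^ 136 * E.db b) / E.D.T ^ 3996 =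
      E.tb b / E.D.T ^ 4126 + E.db b / E.D.T ^ 3860 := fl_pow hT0 _ _
  have e4 : 0 ≤ E.tb b / E.D.T ^ 4126 + E.db b / E.D.T ^ 3860 := by
    rw [← e3]
    exact div_nonneg hl4 (by positivity)
  have e5 : 8 / E.D.T ≤ 1 := by
    rw [div_le_one hT0]
    linarith
  have e6 : 8 / E.D.T * (E.tb b / E.D.T ^ 4126 + E.db b / E.D.T ^ 3860) ≤
      E.tb b / E.D.T ^ 4126 + E.db b / E.D.T ^ 3860 := mul_le_of_le_one_left e4 e5
  have e7 : E.tb b / E.D.T ^ 4126 ≤ E.tb b / E.D.T ^ 4122 :=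
    div_le_div_of_nonneg_left htb (by positivity) (hT.pw (by norm_num))
  rw [e2, e3]
  linarith

theorem loc_g3 : LocOK 30000 E.D.T E.law (fun ω => ∀ P,
    ∑ z, E.Fw (fun z z' l => E.af z z' l P) z (ω z) ≤ E.D.T ^ 158) := by
  have hT := hE.fok.dok.big
  have hTg := fl_T_ge hE
  have hT0 : 0 < E.D.T := by linarith
  have h := fl_single hE (κ := Pi) (fun P z z' l => E.af z z' l P)
    (fun P z z' l => hE.fok.af_nonneg z z' l P)
    (fun _ => E.D.T) (fun _ => E.D.T ^ 3078) (fun _ => hT0)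
    (fun P z c l => (cls_A hE P z c l).trans (le_of_eq (by rw [mul_assoc, ← pow_succ])))
    (fun P => hE.good.l3 P)
    (fun P => fl_supp_le _ (fun z z' l => by
      rw [abs_of_nonneg (hE.fok.af_nonneg z z' l P)]
      exact hE.fok.af_maj z z' l P) (hE.fok.as_supp P))
    (fun z => fl_deg_le _ (fun P z' l => by
      rw [abs_of_nonneg (hE.fok.af_nonneg z z' l P)]
      exact hE.fok.af_maj z z' l P) (hE.fok.as_deg z))
  obtain ⟨κ', hκ', E', S', hd, hp, hs, hi, hg⟩ := h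
  refine ⟨κ', hκ', E', S', hd, hp, hs, hi, fun ω hω P => ?_⟩
  refine (hg ω hω P).trans ?_
  have e1 : 8 / E.D.T ^ 3997 * E.D.T ^ 3078 ≤ 8 := by
    rw [div_mul_eq_mul_div, div_le_iff₀ (by positivity)]
    have := hT.pw (show 3078 ≤ 3997 by norm_num)
    linarith
  have e2 : 8 + 20 * E.D.T ^ 152 * E.D.T ≤ E.D.T ^ 158 := by
    have e3 : (1 : ℝ) ≤ E.D.T ^ 153 := one_le_pow₀ (by linarith)
    calc 8 + 20 * E.D.T ^ 152 * E.D.T = 8 + 20 * E.D.T ^ 153 := by ring
      _ ≤ 28 * E.D.T ^ 153 := by linarith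
      _ ≤ E.D.T * E.D.T ^ 153 := by
          apply mul_le_mul_of_nonneg_right _ (by positivity)
          linarith
      _ = E.D.T ^ 154 := by ring
      _ ≤ _ := hT.pw (by norm_num)
  linarith

theorem loc_g8 : LocOK 30000 E.D.T E.law (fun ω => ∀ i,
    (∑ z ∈ E.L, if E.bad z (ω z).1 then E.D.g i z else 0) ≤
      1 / 20 * (∑ z ∈ E.L, E.D.g i z) + E.D.dv i) := by
  have hT := hE.fok.dok.big
  have hTg := fl_T_ge hE
  have hT0 : 0 < E.D.T := by linarith
  have hlaw := law_isPM hE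
  have hg0 := hE.fok.dok.g_nonneg
  set f : ι → Q → E.Pick → ℝ := fun i z e =>
    if z ∈ E.L ∧ E.bad z e.1 then E.D.g i z else 0 with hf
  have hf0 : ∀ i z e, 0 ≤ f i z e := by
    intro i z e
    rw [hf]
    simp only
    split_ifs
    · exact hg0 i z
    · exact le_rfl
  -- mean
  have hmean : ∀ i z, mean E.law (f i) z ≤ if z ∈ E.L then 1 / 20 * E.D.g i z else 0 := by
    intro i z
    have h1 : mean E.law (f i) z =
        if z ∈ E.L then E.D.g i z * ∑ c, (if E.bad z c then E.p z c else 0) else 0 := by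
      unfold mean
      show ∑ a : Fin E.D.k × (Q → Lb), E.p z a.1 * E.nu z a.2 * f i z a = _
      rw [Fintype.sum_prod_type]
      have hn : ∑ l, E.nu z l = 1 := (Fire.nu_isPM hE.fok).sum_one z
      by_cases hz : z ∈ E.L
      · rw [if_pos hz, Finset.mul_sum]
        refine Finset.sum_congr rfl fun c _ => ?_
        by_cases hb : E.bad z c
        · rw [if_pos hb]
          calc ∑ l, E.p z c * E.nu z l * f i z (c, l) =
              ∑ l, E.p z c * E.D.g i z * E.nu z l := by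
                refine Finset.sum_congr rfl fun l _ => ?_
                have : f i z (c, l) = E.D.g i z := by
                  rw [hf]
                  simp only
                  rw [if_pos ⟨hz, hb⟩]
                rw [this]
                ring
            _ = E.D.g i z * E.p z c := by
                rw [← Finset.mul_sum, hn]
                ring
        · rw [if_neg hb, mul_zero]
          refine Finset.sum_eq_zero fun l _ => ?_
          have : f i z (c, l) = 0 := by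
            rw [hf]
            simp only
            rw [if_neg fun h => hb h.2]
          rw [this, mul_zero]
      · rw [if_neg hz]
        refine Finset.sum_eq_zero fun c _ => Finset.sum_eq_zero fun l _ => ?_
        have : f i z (c, l) = 0 := by
          rw [hf]
          simp only
          rw [if_neg fun h => hz h.1]
        rw [this, mul_zero]
    rw [h1]
    split_ifs
    · have h2 := hE.bad_le z
      have h3 := mul_le_mul_of_nonneg_left h2 (hg0 i z)
      linarith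
    · exact le_rfl
  have hgs : ∀ i, ∑ z ∈ E.L, E.D.g i z ≤ E.D.gs i := fun i =>
    (Finset.sum_le_sum_of_subset_of_nonneg (Finset.subset_univ _)
      fun z _ _ => hg0 i z).trans (hE.fok.dok.g_sum i)
  have hgs0 : ∀ i, 0 ≤ E.D.gs i := fun i => (Finset.sum_nonneg fun z _ => hg0 i z).trans (hgs i)
  have hsum : ∀ i, ∑ z, mean E.law (f i) z ≤ 1 / 20 * ∑ z ∈ E.L, E.D.g i z := by
    intro i
    refine (Finset.sum_le_sum fun z _ => hmean i z).trans (le_of_eq ?_)
    rw [Finset.mul_sum, Finset.sum_ite_mem_eq]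
  have hmass : ∀ i, ∑ u, ∑ c, E.law u c * |f i u c| ≤ E.D.gs i := by
    intro i
    have h1 : ∑ u, ∑ c, E.law u c * |f i u c| = ∑ z, mean E.law (f i) z := by
      refine Finset.sum_congr rfl fun u _ => Finset.sum_congr rfl fun c _ => ?_
      rw [abs_of_nonneg (hf0 i u c)]
    rw [h1]
    have h2 := hsum i
    have h3 := hgs i
    have h4 : 0 ≤ ∑ z ∈ E.L, E.D.g i z := Finset.sum_nonneg fun z _ => hg0 i z
    linarith
  have h := loc_bern hT hlaw (κ := ι) (fun i => 0 < E.D.gm i) f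
    (fun i => E.D.gm i) (fun i => E.D.gs i) (fun i hi => hi) (fun i _ => hgs0 i)
    (fun i hi u c => by
      rw [abs_of_nonneg (hf0 i u c)]
      rw [hf]
      simp only
      split_ifs
      · exact hE.fok.dok.g_le i u
      · exact hi.le)
    (fun i _ => hmass i)
    (fun i => univ.filter fun z => E.D.g i z ≠ 0)
    (fun i _ u c hne => mem_filter.2 ⟨mem_univ _, fun h0 => hne (by
      rw [hf]
      simp only
      rw [h0]
      simp)⟩) 30000
    (fun i _ => (hE.fok.dok.g_supp i).trans (hT.pw (by norm_num)))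
    (fun y => ⟨univ.filter fun i => E.D.g i y ≠ 0,
      fun i _ hi => mem_filter.2 ⟨mem_univ _, (mem_filter.1 hi).2⟩,
      hE.fok.dok.g_deg y⟩)
  obtain ⟨κ', hκ', E', S', hd, hp, hs, hi, hg⟩ := h
  refine ⟨κ', hκ', E', S', hd, hp, hs, hi, fun ω hω i => ?_⟩
  have hdv : 0 ≤ E.D.dv i := by
    unfold NibData.dv
    positivity
  by_cases hgm : 0 < E.D.gm i
  · have h1 := (abs_le.1 (hg ω hω i hgm)).2
    rw [Finset.sum_sub_distrib] at h1
    have h2 : (∑ z ∈ E.L, if E.bad z (ω z).1 then E.D.g i z else 0) = ∑ z, f i z (ω z) := by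
      rw [← Finset.sum_ite_mem_eq E.L]
      refine Finset.sum_congr rfl fun z _ => ?_
      rw [hf]
      simp only
      by_cases hz : z ∈ E.L
      · by_cases hb : E.bad z (ω z).1
        · rw [if_pos hz, if_pos hb, if_pos ⟨hz, hb⟩]
        · rw [if_pos hz, if_neg hb, if_neg fun h => hb h.2]
      · rw [if_neg hz, if_neg fun h => hz h.1]
    rw [h2]
    have h3 := hsum i
    have h4 : 5 * E.D.T * (Real.sqrt (E.D.gm i * E.D.gs i) + E.D.gm i) ≤ E.D.dv i := by
      unfold NibData.dv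
      have e1 : Real.sqrt (E.D.gm i * E.D.gs i) ≤
          Real.sqrt (E.D.gm i * (E.D.gs i + E.D.gm i)) := by
        apply Real.sqrt_le_sqrt
        nlinarith
      have e2 : E.D.gm i ≤ Real.sqrt (E.D.gm i * (E.D.gs i + E.D.gm i)) := by
        apply Real.le_sqrt_of_sq_le
        have := hgs0 i
        nlinarith
      have e3 := Real.sqrt_nonneg (E.D.gm i * (E.D.gs i + E.D.gm i))
      calc _ ≤ 5 * E.D.T * (Real.sqrt (E.D.gm i * (E.D.gs i + E.D.gm i)) +
            Real.sqrt (E.D.gm i * (E.D.gs i + E.D.gm i))) := by gcongr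
        _ = 10 * (E.D.T * Real.sqrt (E.D.gm i * (E.D.gs i + E.D.gm i))) := by ring
        _ ≤ E.D.T * (E.D.T * Real.sqrt (E.D.gm i * (E.D.gs i + E.D.gm i))) := by
            apply mul_le_mul_of_nonneg_right _ (by positivity)
            linarith
        _ = _ := by ring
    linarith
  · have h0 : ∀ z, E.D.g i z = 0 := fun z =>
      le_antisymm ((hE.fok.dok.g_le i z).trans (not_lt.1 hgm)) (hg0 i z)
    have h1 : (∑ z ∈ E.L, if E.bad z (ω z).1 then E.D.g i z else 0) = 0 := by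
      refine Finset.sum_eq_zero fun z _ => ?_
      rw [h0 z]
      simp
    have h2 : ∑ z ∈ E.L, E.D.g i z = 0 := Finset.sum_eq_zero fun z _ => h0 z
    rw [h1, h2, mul_zero, zero_add]
    exact hdv

end

end FRd

end

end Pool.Agent.AcyG
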