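import Pool.Agent.AcyG.FBas

/-! # Pairs of equal colours in the firing process (project MP_af9dfb_G, row FS) -/

set_option autoImplicit false
set_option linter.unusedSectionVars false

namespace Pool.Agent.AcyG

open Finset
open Pool.Agent.Acy (IsPM wt Ex Pr mean)
open Pool.Agent.AcyK (Big StepOK LocOK prodLaw Un Sel updCol HasC SameC L1 C1 S2 C2)
open scoped Classical

universe u v

/-- A local goal for `μ` is a local goal for a product law. -/
theorem fs_fst {Q : Type u} [Fintype Q] [DecidableEq Q] {α β : Type*} [Fintype α] [Fintype β]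
    {e : ℕ} {T : ℝ} {μ : Q → α → ℝ}
    {ν : Q → β → ℝ} (hμ : IsPM μ) (hν : IsPM ν) {G : (Q → α) → Prop} (h : LocOK e T μ G) :
    LocOK e T (prodLaw μ ν) (fun ω => G fun y => (ω y).1) := by
  obtain ⟨κ, hκ, E, S, hd, hp, hs, hi, hg⟩ := h
  refine ⟨κ, hκ, fun b ω => E b fun y => (ω y).1, S, ?_, ?_, hs, hi, ?_⟩
  · intro b ω ω' hω
    exact hd b fun i hi => by rw [hω i hi]
  · intro b
    rw [Pool.Agent.AcyK.Pr_prodLaw_fst hμ hν]
    exact hp b
  · intro ω hω
    exact hg _ hω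

section

variable {Q ι Lb Pi A B C : Type u} [Fintype Q] [DecidableEq Q] [Fintype ι] [DecidableEq ι]
  [Fintype Lb] [Fintype Pi] [Fintype A] [Fintype B] [Fintype C]

namespace Fire

variable {F : Fire Q ι Lb Pi A B C}

section
variable (hF : F.Ok)
include hF

theorem fs_W2_symm (b : B) (z z' : Q) : F.W2 b z z' = F.W2 b z' z := by
  unfold Fire.W2
  refine sum_congr rfl fun y _ => ?_
  rw [sum_comm]
  refine sum_congr rfl fun P _ => sum_congr rfl fun S _ => ?_
  rw [hF.om_symm b S P, mul_comm (F.aa y z S)]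

/-- A label of positive effect. -/
theorem fs_exists_label {z z' : Q} {P : Pi} (h : F.aa z z' P ≠ 0) : ∃ l, F.af z z' l P ≠ 0 := by
  by_contra h1
  push Not at h1
  apply h
  unfold Fire.aa
  exact sum_eq_zero fun l _ => by rw [h1 l, mul_zero]

/-- The weight of a pair in a kernel does not vanish if its effect on a site of positive kernel
does not vanish. -/
theorem fs_wB_ne {b : B} {z z' : Q} {l : Lb} {P S : Pi} (ho : F.om b P S ≠ 0)
    (ha : F.af z z' l P ≠ 0) : F.wB b z z' l ≠ 0 := by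
  have h1 : 0 < F.om b P S * F.af z z' l P :=
    mul_pos (lt_of_le_of_ne (hF.om_nonneg _ _ _) (Ne.symm ho))
      (lt_of_le_of_ne (hF.af_nonneg _ _ _ _) (Ne.symm ha))
  have h2 : F.om b P S * F.af z z' l P ≤ F.wB b z z' l := by
    unfold Fire.wB
    have h3 : F.om b P S * F.af z z' l P ≤ ∑ S, F.om b P S * F.af z z' l P :=
      single_le_sum (f := fun S => F.om b P S * F.af z z' l P)
        (fun S _ => mul_nonneg (hF.om_nonneg _ _ _) (hF.af_nonneg _ _ _ _)) (mem_univ S)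
    refine h3.trans (single_le_sum (f := fun P => ∑ S, F.om b P S * F.af z z' l P)
      (fun P _ => sum_nonneg fun S _ => mul_nonneg (hF.om_nonneg _ _ _) (hF.af_nonneg _ _ _ _))
      (mem_univ P))
  exact (h1.trans_le h2).ne'

theorem fs_W2_supp {b : B} {z z' : Q} (h : F.W2 b z z' ≠ 0) :
    ∃ y, F.bs b z y ≠ 0 ∨ F.bs b y z ≠ 0 := by
  unfold Fire.W2 at h
  obtain ⟨y, _, h1⟩ := exists_ne_zero_of_sum_ne_zero h
  obtain ⟨P, _, h2⟩ := exists_ne_zero_of_sum_ne_zero h1
  obtain ⟨S, _, h3⟩ := exists_ne_zero_of_sum_ne_zero h2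
  have h4 := left_ne_zero_of_mul h3
  have h5 := left_ne_zero_of_mul (right_ne_zero_of_mul h3)
  obtain ⟨l, hl⟩ := fs_exists_label hF h5
  rw [hF.af_symm] at hl
  have h6 := fs_wB_ne hF h4 hl
  have h7 : 0 ≤ F.wB b z y l := wB_nonneg hF b z y l
  have h8 := hF.B_maj b z y l
  exact ⟨y, Or.inl ((lt_of_lt_of_le (lt_of_le_of_ne h7 (Ne.symm h6)) h8).ne')⟩

/-- The size of a row. -/
theorem fs_L1_eq {k : ℕ} (col : Q → Option (Fin k × ℕ)) (b : B) (y' : Q) (c : Fin k) :
    L1 col (fun y => F.W2 b y y' + F.W2 b y' y) c =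
      2 * ∑ z, ∑ P, ∑ S, F.om b P S *
        ((∑ y, if HasC col y c then F.aa z y P else 0) * F.aa z y' S) := by
  have h1 : ∀ y, (if HasC col y c then F.W2 b y y' + F.W2 b y' y else 0) =
      2 * ∑ z, ∑ P, ∑ S, F.om b P S *
        ((if HasC col y c then F.aa z y P else 0) * F.aa z y' S) := by
    intro y
    rw [fs_W2_symm hF b y' y]
    by_cases h : HasC col y c
    · simp only [h, if_true]
      unfold Fire.W2
      ring
    · simp only [h, if_false, zero_mul, mul_zero, sum_const_zero]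
  unfold Pool.Agent.AcyK.L1
  rw [sum_congr rfl fun y _ => h1 y, ← mul_sum]
  congr 1
  rw [sum_comm]
  refine sum_congr rfl fun z _ => ?_
  rw [sum_comm]
  refine sum_congr rfl fun P _ => ?_
  rw [sum_comm]
  refine sum_congr rfl fun S _ => ?_
  rw [← mul_sum, ← sum_mul]

theorem fs_db_le (b : B) : F.db b ≤ F.db b + F.wb b := by
  have := hF.wb_pos b
  linarith

end

end Fire

namespace FRd

variable {E : FRd Q ι Lb Pi A B C}

section
variable (hE : E.Ok)
include hE

theorem fs_L1_le (b : B) (y' : Q) (c : Fin E.D.k) :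
    L1 E.col (fun y => E.W2 b y y' + E.W2 b y' y) c ≤ E.D.T ^ 157 * (E.db b + E.wb b) := by
  have hT := hE.fok.dok.big
  have hT0 := hT.pos
  have hTb := hT.big
  have hF := hE.fok
  have hcls : ∀ z P, (∑ y, if HasC E.col y c then E.aa z y P else 0) ≤
      5 * E.D.T ^ 151 * E.D.T := fun z P =>
    (cls_aa hE P z c).trans (le_of_eq (by ring))
  rw [Fire.fs_L1_eq hF]
  have h1 : ∑ z, ∑ P, ∑ S, E.om b P S *
      ((∑ y, if HasC E.col y c then E.aa z y P else 0) * E.aa z y' S) ≤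
      5 * E.D.T ^ 151 * E.D.T * E.mB b y' := by
    have h2 : E.mB b y' = ∑ z, ∑ P, ∑ S, E.om b P S * E.aa z y' S := by
      rw [Fire.mB_eq hF]
      refine sum_congr rfl fun z _ => ?_
      rw [sum_comm]
      refine sum_congr rfl fun P _ => sum_congr rfl fun S _ => ?_
      rw [hF.om_symm b S P, Fire.aa_symm hF y' z]
    rw [h2, mul_sum]
    refine sum_le_sum fun z _ => ?_
    rw [mul_sum]
    refine sum_le_sum fun P _ => ?_
    rw [mul_sum]
    refine sum_le_sum fun S _ => ?_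
    calc _ ≤ E.om b P S * (5 * E.D.T ^ 151 * E.D.T * E.aa z y' S) :=
          mul_le_mul_of_nonneg_left (mul_le_mul_of_nonneg_right (hcls z P)
            (Fire.aa_nonneg hF _ _ _)) (hF.om_nonneg _ _ _)
      _ = _ := by ring
  have h3 : E.mB b y' ≤ E.db b := hF.B_row b y'
  have h4 := hF.db_nonneg b
  have h5 : E.db b ≤ E.db b + E.wb b := Fire.fs_db_le hF b
  have h6 : 2 * (5 * E.D.T ^ 151 * E.D.T) ≤ E.D.T ^ 157 := by
    have h7 : (10 : ℝ) ≤ E.D.T ^ 5 := by
      calc (10 : ℝ) ≤ E.D.T := by linarith [show (10 : ℝ) ≤ 10 ^ 6 by norm_num]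
        _ = E.D.T ^ 1 := (pow_one _).symm
        _ ≤ E.D.T ^ 5 := hT.pw (by norm_num)
    calc 2 * (5 * E.D.T ^ 151 * E.D.T) = 10 * E.D.T ^ 152 := by ring
      _ ≤ E.D.T ^ 5 * E.D.T ^ 152 := mul_le_mul_of_nonneg_right h7 (by positivity)
      _ = E.D.T ^ 157 := by rw [← pow_add]
  calc 2 * ∑ z, ∑ P, ∑ S, E.om b P S *
        ((∑ y, if HasC E.col y c then E.aa z y P else 0) * E.aa z y' S)
      ≤ 2 * (5 * E.D.T ^ 151 * E.D.T * E.mB b y') := by linarith
    _ ≤ 2 * (5 * E.D.T ^ 151 * E.D.T * E.db b) := by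
        have : 5 * E.D.T ^ 151 * E.D.T * E.mB b y' ≤ 5 * E.D.T ^ 151 * E.D.T * E.db b :=
          mul_le_mul_of_nonneg_left h3 (by positivity)
        linarith
    _ = 2 * (5 * E.D.T ^ 151 * E.D.T) * E.db b := by ring
    _ ≤ E.D.T ^ 157 * E.db b := mul_le_mul_of_nonneg_right h6 h4
    _ ≤ _ := mul_le_mul_of_nonneg_left h5 (by positivity)

theorem fs_small (b : B) {a : ℝ} (ha : a ≤ 2 * E.D.T * E.db b) :
    a ≤ E.D.T ^ 157 * (E.db b + E.wb b) := by
  have hT := hE.fok.dok.big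
  have hT0 := hT.pos
  have hTb := hT.big
  have hF := hE.fok
  have h4 := hF.db_nonneg b
  have h5 : E.db b ≤ E.db b + E.wb b := Fire.fs_db_le hF b
  have h6 : 2 * E.D.T ≤ E.D.T ^ 157 := by
    calc 2 * E.D.T ≤ E.D.T * E.D.T :=
          mul_le_mul_of_nonneg_right (by linarith [show (2 : ℝ) ≤ 10 ^ 6 by norm_num]) hT0.le
      _ = E.D.T ^ 2 := by ring
      _ ≤ _ := hT.pw (by norm_num)
  calc a ≤ 2 * E.D.T * E.db b := ha
    _ ≤ E.D.T ^ 157 * E.db b := mul_le_mul_of_nonneg_right h6 h4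
    _ ≤ _ := mul_le_mul_of_nonneg_left h5 (by positivity)

theorem loc_g7 : LocOK 30001 E.D.T E.law (fun ω => ∀ b,
    S2 (E.nCol ω) (E.W2 b) ≤ 13 * E.D.T ^ 2 * (E.rho * C2 (E.nCol ω) (E.W2 b) +
      ((E.m + 1 : ℕ) : ℝ) * (E.D.T ^ 157 * (E.db b + E.wb b)))) := by
  have hT := hE.fok.dok.big
  have hT0 := hT.pos
  have hF := hE.fok
  have hρ := Fire.rho_nonneg hF
  have key := Pool.Agent.AcyK.kind2_loc hT hE.p_pm hE.p_le hρ E.m E.col E.lam (κ := B)
    (fun _ => True) (fun b => E.W2 b) (fun b y y' => Fire.W2_nonneg hF b y y')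
    (fun b => E.D.T ^ 157 * (E.db b + E.wb b))
    (fun b _ => mul_pos (pow_pos hT0 _) (by
      have h1 := hF.db_nonneg b
      have h2 := hF.wb_pos b
      linarith))
    (fun b _ y' _ c => fs_L1_le hE b y' c)
    (fun b _ y' _ => by
      refine fs_small hE b ?_
      have h1 : ∑ y ∈ Sel E.col E.lam true, (E.W2 b y y' + E.W2 b y' y) ≤
          2 * E.D.T ^ 1604 * E.db b := by
        refine le_trans ?_ (Fire.W2_row hF b y')
        refine (sum_le_univ_sum_of_nonneg fun y => add_nonneg (Fire.W2_nonneg hF b y y')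
          (Fire.W2_nonneg hF b y' y)).trans (le_of_eq ?_)
        exact sum_congr rfl fun y _ => add_comm _ _
      have h2 : 0 ≤ 2 * E.D.T ^ 1604 * E.db b :=
        mul_nonneg (by positivity) (hF.db_nonneg b)
      calc E.rho * ∑ y ∈ Sel E.col E.lam true, (E.W2 b y y' + E.W2 b y' y)
          ≤ E.rho * (2 * E.D.T ^ 1604 * E.db b) := mul_le_mul_of_nonneg_left h1 hρ
        _ ≤ 1 / E.D.T ^ 3997 * (2 * E.D.T ^ 1604 * E.db b) :=
            mul_le_mul_of_nonneg_right (Fire.rho_le hF) h2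
        _ = (E.D.T ^ 1604 / E.D.T ^ 3997) * (2 * E.db b) := by ring
        _ ≤ E.D.T * (2 * E.db b) := by
            refine mul_le_mul_of_nonneg_right ?_ (by have := hF.db_nonneg b; linarith)
            rw [div_le_iff₀ (by positivity), ← pow_succ']
            exact hT.pw (by norm_num)
        _ = 2 * E.D.T * E.db b := by ring)
    (fun b _ y y' => by
      refine fs_small hE b ?_
      have h1 := Fire.W2_le hF b y y'
      have h2 := Fire.W2_le hF b y' y
      linarith)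
    (fun b => univ.filter fun z => ∃ z', E.bs b z z' ≠ 0 ∨ E.bs b z' z ≠ 0)
    (fun b _ y y' h => by
      refine ⟨mem_filter.2 ⟨mem_univ _, Fire.fs_W2_supp hF h⟩,
        mem_filter.2 ⟨mem_univ _, Fire.fs_W2_supp hF (b := b) (z := y') (z' := y) ?_⟩⟩
      rw [Fire.fs_W2_symm hF]
      exact h)
    30000
    (fun b _ => (hF.bs_supp b).trans (hT.pw (by norm_num)))
    (fun y => ⟨univ.filter fun b => ∃ z', E.bs b y z' ≠ 0 ∨ E.bs b z' y ≠ 0, fun b _ hy =>
      mem_filter.2 ⟨mem_univ _, (mem_filter.1 hy).2⟩, (hF.bs_deg y).trans (hT.pw (by norm_num))⟩)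
    (fun b _ => hE.inv.s2 b)
  obtain ⟨κ, hκ, EE, S', hd, hp', hs', hi, hg⟩ := fs_fst hE.p_pm (Fire.nu_isPM hF) key
  exact ⟨κ, hκ, EE, S', hd, hp', hs', hi, fun ω hEE b => hg ω hEE b trivial⟩

/-- Size of the selected part of the support of a test for equal picks. -/
noncomputable def fsS (E : FRd Q ι Lb Pi A B C) (b : C) : ℝ := E.cs b / E.D.T ^ 129 + E.D.T ^ 135

/-- Size of a row of the selected part. -/
noncomputable def fsR (E : FRd Q ι Lb Pi A B C) (b : C) : ℝ :=
  E.cr b / E.D.T ^ 129 + E.D.T ^ 135 * E.cm b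

theorem fs_cs_nonneg (b : C) : 0 ≤ E.cs b :=
  (Nat.cast_nonneg _).trans (hE.fok.cw_supp b)

theorem fsS_ge (b : C) : 1 ≤ fsS E b := by
  have hT := hE.fok.dok.big
  have h1 : 1 ≤ E.D.T ^ 135 := one_le_pow₀ hT.one_le
  have h2 : 0 ≤ E.cs b / E.D.T ^ 129 := div_nonneg (fs_cs_nonneg hE b) (pow_nonneg hT.pos.le _)
  unfold fsS
  linarith

theorem fsR_nonneg (b : C) : 0 ≤ fsR E b := by
  have hT := hE.fok.dok.big
  exact add_nonneg (div_nonneg (hE.fok.cr_nonneg b) (pow_nonneg hT.pos.le _))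
    (mul_nonneg (pow_nonneg hT.pos.le _) (hE.fok.cm_pos b).le)

/-- The weight of the selected pairs. -/
theorem fs_tot (b : C) : ∑ z, ∑ z', (if z ∈ E.L ∧ z' ∈ E.L ∧ z ≠ z' then E.cw b z z' else 0) ≤
    fsS E b * fsR E b := by
  have hF := hE.fok
  have hR := fsR_nonneg hE b
  have h1 : ∀ z, ∑ z', (if z ∈ E.L ∧ z' ∈ E.L ∧ z ≠ z' then E.cw b z z' else 0) ≤
      if z ∈ (Sel E.col E.lam true).filter (fun z => ∃ z', E.cw b z z' ≠ 0 ∨ E.cw b z' z ≠ 0)
      then fsR E b else 0 := by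
    intro z
    by_cases hz : z ∈ (Sel E.col E.lam true).filter
        (fun z => ∃ z', E.cw b z z' ≠ 0 ∨ E.cw b z' z ≠ 0)
    · rw [if_pos hz]
      refine le_trans ?_ (hE.good.l5 b z)
      rw [← sum_ite_mem_eq (Sel E.col E.lam true)]
      refine sum_le_sum fun z' _ => ?_
      have h2 := hF.cw_nonneg b z z'
      have h3 := hF.cw_nonneg b z' z
      by_cases hz' : z' ∈ Sel E.col E.lam true
      · rw [if_pos hz']
        split_ifs <;> linarith
      · rw [if_neg hz', if_neg]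
        exact fun h => hz' h.2.1
    · rw [if_neg hz]
      refine le_of_eq (sum_eq_zero fun z' _ => ?_)
      split_ifs with h
      · by_contra h2
        exact hz (mem_filter.2 ⟨h.1, z', Or.inl h2⟩)
      · rfl
  refine (sum_le_sum fun z _ => h1 z).trans ?_
  rw [sum_ite_mem_eq, sum_const, nsmul_eq_mul]
  exact mul_le_mul_of_nonneg_right (hE.good.l6 b) hR

theorem loc_g9 : LocOK 30000 E.D.T E.law (fun ω => ∀ b,
    (∑ z ∈ E.L, ∑ z' ∈ E.L, if z ≠ z' ∧ (ω z).1 = (ω z').1 then E.cw b z z' else 0) ≤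
      E.eC b) := by
  have hT := hE.fok.dok.big
  have hT0 := hT.pos
  have hTb := hT.big
  have hF := hE.fok
  have hρ := Fire.rho_nonneg hF
  have key := Pool.Agent.AcyK.loc_pair hT hE.p_pm (κ := C) (fun _ => True)
    (fun b u u' (_ : Fin E.D.k) => if u ∈ E.L ∧ u' ∈ E.L ∧ u ≠ u' then E.cw b u u' else 0)
    (fun b u u' c => by
      split_ifs
      · exact hF.cw_nonneg _ _ _
      · exact le_rfl)
    (fun b u c => by simp)
    (fun b => E.rho * (fsS E b * fsR E b) + E.cm b)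
    (fun b _ => by
      have h1 := hF.cm_pos b
      have h2 : 0 ≤ E.rho * (fsS E b * fsR E b) :=
        mul_nonneg hρ (mul_nonneg (zero_le_one.trans (fsS_ge hE b)) (fsR_nonneg hE b))
      linarith)
    (fun b _ => by
      have h1 := hF.cm_pos b
      refine le_trans (b := E.rho * (fsS E b * fsR E b)) ?_ (by linarith)
      refine le_trans ?_ (mul_le_mul_of_nonneg_left (fs_tot hE b) hρ)
      rw [mul_sum]
      refine sum_le_sum fun u _ => ?_
      rw [mul_sum]
      refine sum_le_sum fun u' _ => ?_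
      rw [← mul_sum, mul_comm E.rho]
      refine mul_le_mul_of_nonneg_left ?_ (by
        split_ifs
        · exact hF.cw_nonneg _ _ _
        · exact le_rfl)
      calc ∑ c, E.p u c * E.p u' c ≤ ∑ c, E.p u c * E.rho :=
            sum_le_sum fun c _ => mul_le_mul_of_nonneg_left (hE.p_le _ _) (hE.p_pm.nonneg _ _)
        _ = E.rho := by rw [← sum_mul, hE.p_pm.sum_one, one_mul])
    (fun b _ u c => by
      have h1 := hF.cm_pos b
      refine le_trans (b := E.rho * (fsS E b * fsR E b)) ?_ (by linarith)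
      refine le_trans (b := E.rho * fsR E b) ?_ (mul_le_mul_of_nonneg_left (by
        have h2 := fsS_ge hE b
        have h3 := fsR_nonneg hE b
        nlinarith) hρ)
      refine le_trans ?_ (mul_le_mul_of_nonneg_left (hE.good.l5 b u) hρ)
      rw [mul_sum, ← sum_ite_mem_eq (Sel E.col E.lam true)]
      refine sum_le_sum fun u' _ => ?_
      have h4 := hF.cw_nonneg b u u'
      have h5 := hF.cw_nonneg b u' u
      by_cases hu' : u' ∈ Sel E.col E.lam true
      · rw [if_pos hu', mul_comm E.rho]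
        refine mul_le_mul ?_ (hE.p_le _ _) (hE.p_pm.nonneg _ _) (by linarith)
        split_ifs <;> linarith
      · rw [if_neg hu']
        have h6 : u' ∉ E.L := hu'
        simp [h6])
    (fun b _ u u' c => by
      have h1 := hF.cw_le b u u'
      have h2 := hF.cw_nonneg b u u'
      have h3 := hF.cw_nonneg b u' u
      have h4 : 0 ≤ E.rho * (fsS E b * fsR E b) :=
        mul_nonneg hρ (mul_nonneg (zero_le_one.trans (fsS_ge hE b)) (fsR_nonneg hE b))
      split_ifs <;> linarith)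
    (fun b => univ.filter fun z => ∃ z', E.cw b z z' ≠ 0 ∨ E.cw b z' z ≠ 0)
    (fun b _ u u' c h => by
      have h1 : E.cw b u u' ≠ 0 := fun h0 => h (by simp [h0])
      exact ⟨mem_filter.2 ⟨mem_univ _, u', Or.inl h1⟩, mem_filter.2 ⟨mem_univ _, u, Or.inr h1⟩⟩)
    30000
    (fun b _ => ((hF.cw_supp b).trans (hF.cs_le b)).trans (hT.pw (by norm_num)))
    (fun y => ⟨univ.filter fun b => ∃ z', E.cw b y z' ≠ 0 ∨ E.cw b z' y ≠ 0, fun b _ hy =>
      mem_filter.2 ⟨mem_univ _, (mem_filter.1 hy).2⟩, (hF.cw_deg y).trans (hT.pw (by norm_num))⟩)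
  obtain ⟨κ, hκ, EE, S', hd, hp', hs', hi, hg⟩ := fs_fst hE.p_pm (Fire.nu_isPM hF) key
  refine ⟨κ, hκ, EE, S', hd, hp', hs', hi, fun ω hEE b => ?_⟩
  have h1 := hg ω hEE b trivial
  simp only at h1
  have h2 : (∑ z ∈ E.L, ∑ z' ∈ E.L, if z ≠ z' ∧ (ω z).1 = (ω z').1 then E.cw b z z' else 0) =
      ∑ u, ∑ u', if (ω u).1 = (ω u').1 then
        (if u ∈ E.L ∧ u' ∈ E.L ∧ u ≠ u' then E.cw b u u' else 0) else 0 := by
    rw [← sum_ite_mem_eq E.L]
    refine sum_congr rfl fun u _ => ?_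
    by_cases hu : u ∈ E.L
    · rw [if_pos hu, ← sum_ite_mem_eq E.L]
      refine sum_congr rfl fun u' _ => ?_
      by_cases hu' : u' ∈ E.L <;> by_cases hne : u = u' <;> by_cases he : (ω u).1 = (ω u').1 <;>
        simp [hu, hu', hne, he]
    · rw [if_neg hu]
      simp [hu]
  rw [h2]
  refine h1.trans ?_
  have h3 : 0 ≤ fsS E b * fsR E b :=
    mul_nonneg (zero_le_one.trans (fsS_ge hE b)) (fsR_nonneg hE b)
  have h4 := hF.cm_pos b
  have h5 : E.rho * (fsS E b * fsR E b) ≤ fsS E b * fsR E b / E.D.T ^ 3997 := by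
    calc E.rho * (fsS E b * fsR E b) ≤ 1 / E.D.T ^ 3997 * (fsS E b * fsR E b) :=
          mul_le_mul_of_nonneg_right (Fire.rho_le hF) h3
      _ = _ := by ring
  have h6 : 0 ≤ fsS E b * fsR E b / E.D.T ^ 3997 := div_nonneg h3 (by positivity)
  have h7 : 12 * E.D.T ^ 2 ≤ E.D.T ^ 4 := by
    calc 12 * E.D.T ^ 2 ≤ E.D.T ^ 2 * E.D.T ^ 2 := by
          refine mul_le_mul_of_nonneg_right ?_ (by positivity)
          have : (10 : ℝ) ^ 6 ≤ E.D.T := hTb
          nlinarith
      _ = _ := by ring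
  show _ ≤ E.D.T ^ 4 * (fsS E b * fsR E b / E.D.T ^ 3997 + E.cm b)
  calc 12 * E.D.T ^ 2 * (E.rho * (fsS E b * fsR E b) + E.cm b)
      ≤ 12 * E.D.T ^ 2 * (fsS E b * fsR E b / E.D.T ^ 3997 + E.cm b) :=
        mul_le_mul_of_nonneg_left (by linarith) (by positivity)
    _ ≤ _ := mul_le_mul_of_nonneg_right h7 (by linarith)

end

end FRd

end

end Pool.Agent.AcyG
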