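import Pool.Agent.AcyG.FDefs
import Pool.Agent.AcyG.BasicA

/-! # The selection tests of the firing process (row FX) -/

set_option autoImplicit false
set_option linter.unusedSectionVars false

namespace Pool.Agent.AcyG

open Finset
open Pool.Agent.Acy (IsPM wt Ex Pr mean)
open Pool.Agent.AcyK (Big StepOK LocOK prodLaw Un Sel updCol HasC SameC L1 C1 S2 C2)
open scoped Classical

universe u v

section sel

variable {Q ι : Type u} [Fintype Q] [DecidableEq Q] [Fintype ι] [DecidableEq ι]

/-- The test function of a selection sum. -/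
noncomputable def YS {k : ℕ} (col : Q → Option (Fin k × ℕ)) (w : Q → ℝ) (y : Q)
    (e : Option Bool) : ℝ := if col y = none ∧ e = some true then w y else 0

theorem sum_YS {k : ℕ} (col : Q → Option (Fin k × ℕ)) (lam : Q → Option Bool) (w : Q → ℝ) :
    ∑ z ∈ Sel col lam true, w z = ∑ y, YS col w y (lam y) := by
  unfold Sel YS
  rw [sum_filter]

variable {D : NibData Q ι}

theorem mean_YS (D : NibData Q ι) (m : ℕ) {k : ℕ} (col : Q → Option (Fin k × ℕ)) (w : Q → ℝ)
    (y : Q) : mean (D.lawA m) (YS col w) y = if col y = none then D.t m * w y else 0 := by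
  unfold mean YS NibData.lawA
  rw [Fintype.sum_eq_single (some true)]
  · simp only [reduceCtorEq, if_false, and_true]
    split_ifs <;> simp
  · intro e he
    have h5 : ¬ (col y = none ∧ e = some true) := fun h => he h.2
    rw [if_neg h5, mul_zero]

/-- Upper tail of a nonnegative selection sum. -/
theorem sel_tail (hD : D.Ok) {m : ℕ} (hm : m ≤ D.M) {k : ℕ} (col : Q → Option (Fin k × ℕ))
    (w : Q → ℝ) {b r : ℝ} (hb : 0 ≤ b) (hw0 : ∀ z, 0 ≤ w z) (hwb : ∀ z, w z ≤ b)
    (hr : ∑ z, w z ≤ r) :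
    Pr (D.lawA m) (fun lam => ¬ ∑ z ∈ Sel col lam true, w z ≤
      2 * (r / D.T ^ 133) + D.T ^ 2 * b) ≤ Real.exp (-(3 * D.T)) := by
  have hT : (1000000 : ℝ) ≤ D.T := by
    have := hD.big.big
    norm_num at this
    exact this
  have hT0 : 0 < D.T := by linarith
  have hp := NibData.lawA_isPM hD hm
  have ht0 := NibData.t_pos hD hm
  have ht1 := NibData.t_le hD hm
  have hr0 : 0 ≤ r := (sum_nonneg fun z _ => hw0 z).trans hr
  have hrT : 0 ≤ r / D.T ^ 133 := by positivity
  rcases hb.eq_or_lt with hb1 | hb1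
  · have h1 : ∀ z, w z = 0 := fun z => le_antisymm ((hwb z).trans hb1.symm.le) (hw0 z)
    have h2 : Pr (D.lawA m) (fun lam => ¬ ∑ z ∈ Sel col lam true, w z ≤
        2 * (r / D.T ^ 133) + D.T ^ 2 * b) = 0 := by
      unfold Pr Ex
      refine sum_eq_zero fun lam _ => ?_
      have h3 : ∑ z ∈ Sel col lam true, w z ≤ 2 * (r / D.T ^ 133) + D.T ^ 2 * b := by
        rw [sum_eq_zero fun z _ => h1 z]
        positivity
      simp only [h3, not_true_eq_false, if_false, mul_zero]
    rw [h2]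
    exact (Real.exp_pos _).le
  have hY : ∀ y e, |YS col w y e| ≤ b := by
    intro y e
    unfold YS
    split_ifs
    · rw [abs_of_nonneg (hw0 y)]
      exact hwb y
    · rw [abs_zero]
      exact hb
  have hV : ∑ y, ∑ e, D.lawA m y e * YS col w y e ^ 2 ≤ b * (r / D.T ^ 133) := by
    have h1 : ∀ y, ∑ e, D.lawA m y e * YS col w y e ^ 2 ≤ b * (1 / D.T ^ 133) * w y := by
      intro y
      have h2 : ∑ e, D.lawA m y e * YS col w y e ^ 2 =
          if col y = none then D.t m * w y ^ 2 else 0 := by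
        unfold YS NibData.lawA
        rw [Fintype.sum_eq_single (some true)]
        · simp only [reduceCtorEq, if_false, and_true]
          split_ifs <;> simp
        · intro e he
          have h5 : ¬ (col y = none ∧ e = some true) := fun h => he h.2
          rw [if_neg h5, zero_pow (by norm_num), mul_zero]
      rw [h2]
      have h3 : D.t m * w y ^ 2 ≤ b * (1 / D.T ^ 133) * w y := by
        calc D.t m * w y ^ 2 = D.t m * w y * w y := by ring
          _ ≤ 1 / D.T ^ 133 * b * w y := by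
              refine mul_le_mul_of_nonneg_right ?_ (hw0 y)
              exact mul_le_mul ht1 (hwb y) (hw0 y) (by positivity)
          _ = _ := by ring
      split_ifs
      · exact h3
      · exact le_trans (mul_nonneg ht0.le (sq_nonneg _)) h3
    calc _ ≤ ∑ y, b * (1 / D.T ^ 133) * w y := sum_le_sum fun y _ => h1 y
      _ = b * (1 / D.T ^ 133) * ∑ y, w y := by rw [mul_sum]
      _ ≤ b * (1 / D.T ^ 133) * r := mul_le_mul_of_nonneg_left hr (by positivity)
      _ = _ := by ring
  have ht := Pool.Agent.Acy.indep_tail hp (YS col w) b hY (b * (r / D.T ^ 133)) hV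
    (1 / (2 * b)) (by positivity) (by
      have e : 2 * (1 / (2 * b) * b) = 1 := by field_simp
      rw [e]) (r / D.T ^ 133 + D.T ^ 2 * b)
  refine (Pool.Agent.Acy.Pr_mono hp fun lam hlam => ?_).trans (ht.trans ?_)
  · have hlam' := not_le.1 hlam
    rw [sum_YS] at hlam'
    have h1 : ∑ y, mean (D.lawA m) (YS col w) y ≤ r / D.T ^ 133 := by
      calc ∑ y, mean (D.lawA m) (YS col w) y ≤ ∑ y, 1 / D.T ^ 133 * w y := by
            refine sum_le_sum fun y _ => ?_
            rw [mean_YS]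
            have h3 := mul_le_mul_of_nonneg_right ht1 (hw0 y)
            split_ifs
            · exact h3
            · exact (mul_nonneg ht0.le (hw0 y)).trans h3
        _ = 1 / D.T ^ 133 * ∑ y, w y := by rw [mul_sum]
        _ ≤ 1 / D.T ^ 133 * r := mul_le_mul_of_nonneg_left hr (by positivity)
        _ = _ := by ring
    have h2 : r / D.T ^ 133 + D.T ^ 2 * b ≤
        ∑ y, (YS col w y (lam y) - mean (D.lawA m) (YS col w) y) := by
      rw [sum_sub_distrib]
      linarith
    exact h2.trans (le_abs_self _)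
  · have e1 : (1 / (2 * b)) ^ 2 * (b * (r / D.T ^ 133)) - 1 / (2 * b) *
        (r / D.T ^ 133 + D.T ^ 2 * b) = -(r / D.T ^ 133 / (4 * b)) - D.T ^ 2 / 2 := by
      field_simp
      ring
    rw [e1]
    have e2 : 0 ≤ r / D.T ^ 133 / (4 * b) := by positivity
    have e3 : -(r / D.T ^ 133 / (4 * b)) - D.T ^ 2 / 2 ≤ -(4 * D.T) := by nlinarith
    have e4 : (2 : ℝ) ≤ Real.exp D.T := by
      have := Real.add_one_le_exp D.T
      linarith
    calc 2 * Real.exp (-(r / D.T ^ 133 / (4 * b)) - D.T ^ 2 / 2) ≤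
          Real.exp D.T * Real.exp (-(4 * D.T)) :=
          mul_le_mul e4 (Real.exp_le_exp.mpr e3) (Real.exp_pos _).le (Real.exp_pos _).le
      _ = Real.exp (-(3 * D.T)) := by
          rw [← Real.exp_add]
          congr 1
          ring

/-- Local family of nonnegative selection sums; several tests with one support form one event. -/
theorem sel_loc (hD : D.Ok) {m : ℕ} (hm : m ≤ D.M) {k : ℕ} (col : Q → Option (Fin k × ℕ))
    {κ : Type u} [Fintype κ] {ζ : Type*} (Z : κ → Finset ζ) (w : κ → ζ → Q → ℝ) (b r : κ → ℝ)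
    (S : κ → Finset Q) (hb : ∀ a, 0 ≤ b a) (hw0 : ∀ a y z, 0 ≤ w a y z)
    (hwb : ∀ a y z, w a y z ≤ b a) (hr : ∀ a y, ∑ z, w a y z ≤ r a)
    (hS : ∀ a y z, w a y z ≠ 0 → z ∈ S a) (hZ : ∀ a, ((Z a).card : ℝ) ≤ D.T ^ 25000)
    (hcard : ∀ a, ((S a).card : ℝ) ≤ D.T ^ 25000)
    (hdeg : ∀ y, ((univ.filter fun a => y ∈ S a).card : ℝ) ≤ D.T ^ 25000) :
    LocOK 25000 D.T (D.lawA m) (fun lam => ∀ a, ∀ y ∈ Z a, ∑ z ∈ Sel col lam true, w a y z ≤
      2 * (r a / D.T ^ 133) + D.T ^ 2 * b a) := by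
  have hT : (1000000 : ℝ) ≤ D.T := by
    have := hD.big.big
    norm_num at this
    exact this
  have hT0 : 0 < D.T := by linarith
  have hp := NibData.lawA_isPM hD hm
  refine ⟨κ, inferInstance, fun a lam => ∃ y ∈ Z a, ¬ ∑ z ∈ Sel col lam true, w a y z ≤
      2 * (r a / D.T ^ 133) + D.T ^ 2 * b a, S, ?_, ?_, hcard, hdeg, ?_⟩
  · intro a lam lam' h
    have h1 : ∀ y, ∑ z ∈ Sel col lam true, w a y z = ∑ z ∈ Sel col lam' true, w a y z := by
      intro y
      rw [sum_YS, sum_YS]
      refine sum_congr rfl fun z _ => ?_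
      by_cases hz : z ∈ S a
      · rw [h z (by exact_mod_cast hz)]
      · have h2 : w a y z = 0 := by
          by_contra h3
          exact hz (hS a y z h3)
        unfold YS
        rw [h2]
        simp
    simp only [h1]
  · intro a
    refine (Pool.Agent.Acy.Pr_exists_le hp (Z a) _).trans ?_
    refine (sum_le_sum fun y _ => sel_tail hD hm col (w a y) (hb a) (hw0 a y) (hwb a y)
      (hr a y)).trans ?_
    rw [sum_const, nsmul_eq_mul]
    have h1 : D.T ^ 25000 ≤ Real.exp D.T := (hD.big.pw (by norm_num)).trans hD.big.exp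
    calc ((Z a).card : ℝ) * Real.exp (-(3 * D.T)) ≤ Real.exp D.T * Real.exp (-(3 * D.T)) :=
          mul_le_mul_of_nonneg_right ((hZ a).trans h1) (Real.exp_pos _).le
      _ = Real.exp (-(2 * D.T)) := by
          rw [← Real.exp_add]
          congr 1
          ring
      _ ≤ Real.exp (-D.T) := Real.exp_le_exp.mpr (by linarith)
  · intro lam h a y hy
    by_contra h1
    exact h a ⟨y, hy, h1⟩

end sel

section

variable {Q ι Lb Pi A B C : Type u} [Fintype Q] [DecidableEq Q] [Fintype ι] [DecidableEq ι]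
  [Fintype Lb] [Fintype Pi] [Fintype A] [Fintype B] [Fintype C]

namespace Fire

variable {F : Fire Q ι Lb Pi A B C}

/-- The selection tests. -/
theorem loc_sel (hF : F.Ok) {m : ℕ} (hm : m < F.D.M) (col : Q → Option (Fin F.D.k × ℕ)) :
    LocOK 30000 F.D.T (F.D.lawA m) (F.GoodL col) := by
  have hD := hF.dok
  have hT := hD.big
  have hT6 : (1000000 : ℝ) ≤ F.D.T := by
    have := hT.big
    norm_num at this
    exact this
  have hT0 : 0 < F.D.T := by linarith
  have hm' := hm.le
  have p15 : F.D.T ^ 15000 ≤ F.D.T ^ 25000 := hT.pw (by norm_num)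
  have p22 : F.D.T ^ 22000 ≤ F.D.T ^ 25000 := hT.pw (by norm_num)
  have hmW : ∀ i z, 0 ≤ F.mW i z := fun i z => sum_nonneg fun z' _ => sum_nonneg fun l _ =>
    mul_nonneg (hF.mu_nonneg z z' l) (abs_nonneg _)
  have hmA : ∀ z P, 0 ≤ F.mA z P := fun z P => sum_nonneg fun z' _ => sum_nonneg fun l _ =>
    mul_nonneg (hF.mu_nonneg z z' l) (hF.af_nonneg z z' l P)
  have hwB : ∀ b z z' l, 0 ≤ F.wB b z z' l := fun b z z' l => sum_nonneg fun P _ =>
    sum_nonneg fun S _ => mul_nonneg (hF.om_nonneg b P S) (hF.af_nonneg z z' l P)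
  have hmB : ∀ b z, 0 ≤ F.mB b z := fun b z => sum_nonneg fun z' _ => sum_nonneg fun l _ =>
    mul_nonneg (hF.mu_nonneg z z' l) (hwB b z z' l)
  have one1 : ∀ κ : Type u, ∀ _a : κ, ((({()} : Finset Unit)).card : ℝ) ≤ F.D.T ^ 25000 := by
    intro κ _
    rw [card_singleton, Nat.cast_one]
    exact one_le_pow₀ hT.one_le
  have f2 := sel_loc hD hm' col (κ := A) (ζ := Unit) (fun _ => {()})
    (fun i _ z => F.mW i z) F.d1 F.tot
    (fun i => univ.filter fun z => ∃ z', F.ws i z z' ≠ 0 ∨ F.ws i z' z ≠ 0)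
    hF.d1_nonneg (fun i _ z => hmW i z) (fun i _ z => hF.W_row i z) (fun i _ => hF.W_tot i)
    (fun i _ z hz => by
      rw [mem_filter]
      refine ⟨mem_univ _, ?_⟩
      by_contra h
      push Not at h
      refine hz (sum_eq_zero fun z' _ => sum_eq_zero fun l _ => ?_)
      have h1 := hF.W_maj i z z' l
      rw [(h z').1] at h1
      rw [le_antisymm h1 (abs_nonneg _), mul_zero])
    (one1 A) (fun i => (hF.ws_supp i).trans p15) (fun y => by
      have := (hF.ws_deg y).trans p22
      simpa only [mem_filter, mem_univ, true_and] using this)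
  have f3 := sel_loc hD hm' col (κ := Pi) (ζ := Unit) (fun _ => {()})
    (fun P _ z => F.mA z P) (fun _ => F.D.T ^ 1604) (fun _ => F.D.T ^ 3210)
    (fun P => univ.filter fun z => ∃ z', F.as z z' P ≠ 0 ∨ F.as z' z P ≠ 0)
    (fun _ => pow_nonneg hT0.le _) (fun P _ z => hmA z P) (fun P _ z => hF.af_row z P)
    (fun P _ => hF.af_tot P)
    (fun P _ z hz => by
      rw [mem_filter]
      refine ⟨mem_univ _, ?_⟩
      by_contra h
      push Not at h
      refine hz (sum_eq_zero fun z' _ => sum_eq_zero fun l _ => ?_)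
      have h1 := hF.af_maj z z' l P
      rw [(h z').1] at h1
      rw [le_antisymm h1 (hF.af_nonneg z z' l P), mul_zero])
    (one1 Pi) (fun P => (hF.as_supp P).trans p15) (fun y => by
      have := (hF.as_deg y).trans p22
      simpa only [mem_filter, mem_univ, true_and] using this)
  have f4 := sel_loc hD hm' col (κ := B) (ζ := Unit) (fun _ => {()})
    (fun b _ z => F.mB b z) F.db F.tb
    (fun b => univ.filter fun z => ∃ z', F.bs b z z' ≠ 0 ∨ F.bs b z' z ≠ 0)
    hF.db_nonneg (fun b _ z => hmB b z) (fun b _ z => hF.B_row b z) (fun b _ => hF.B_tot b)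
    (fun b _ z hz => by
      rw [mem_filter]
      refine ⟨mem_univ _, ?_⟩
      by_contra h
      push Not at h
      refine hz (sum_eq_zero fun z' _ => sum_eq_zero fun l _ => ?_)
      have h1 := hF.B_maj b z z' l
      rw [(h z').1] at h1
      rw [le_antisymm h1 (hwB b z z' l), mul_zero])
    (one1 B) (fun b => (hF.bs_supp b).trans p15) (fun y => by
      have := (hF.bs_deg y).trans p22
      simpa only [mem_filter, mem_univ, true_and] using this)
  have hcw : ∀ b z z', 0 ≤ F.cw b z z' + F.cw b z' z := fun b z z' =>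
    add_nonneg (hF.cw_nonneg b z z') (hF.cw_nonneg b z' z)
  have f5 := sel_loc hD hm' col (κ := C) (ζ := Q)
    (fun b => univ.filter fun z => ∃ z', F.cw b z z' ≠ 0 ∨ F.cw b z' z ≠ 0)
    (fun b z z' => F.cw b z z' + F.cw b z' z) F.cm F.cr
    (fun b => univ.filter fun z => ∃ z', F.cw b z z' ≠ 0 ∨ F.cw b z' z ≠ 0)
    (fun b => (hF.cm_pos b).le) hcw hF.cw_le hF.cw_row
    (fun b z z' hz => by
      rw [mem_filter]
      refine ⟨mem_univ _, z, ?_⟩
      by_contra h
      push Not at h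
      exact hz (by rw [h.1, h.2, add_zero]))
    (fun b => (hF.cw_supp b).trans ((hF.cs_le b).trans p15))
    (fun b => (hF.cw_supp b).trans ((hF.cs_le b).trans p15))
    (fun y => by
      have := (hF.cw_deg y).trans p22
      simpa only [mem_filter, mem_univ, true_and] using this)
  have f6 := sel_loc hD hm' col (κ := C) (ζ := Unit) (fun _ => {()})
    (fun b _ z => if ∃ z', F.cw b z z' ≠ 0 ∨ F.cw b z' z ≠ 0 then 1 else 0)
    (fun _ => 1) F.cs
    (fun b => univ.filter fun z => ∃ z', F.cw b z z' ≠ 0 ∨ F.cw b z' z ≠ 0)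
    (fun _ => zero_le_one) (fun _ _ _ => by split_ifs <;> norm_num)
    (fun _ _ _ => by split_ifs <;> norm_num)
    (fun b _ => by
      rw [← sum_filter, sum_const, nsmul_eq_mul, mul_one]
      exact hF.cw_supp b)
    (fun b _ z hz => by
      rw [mem_filter]
      refine ⟨mem_univ _, ?_⟩
      by_contra h
      exact hz (if_neg h))
    (one1 C) (fun b => (hF.cw_supp b).trans ((hF.cs_le b).trans p15))
    (fun y => by
      have := (hF.cw_deg y).trans p22
      simpa only [mem_filter, mem_univ, true_and] using this)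
  have g1 := LocOK.and hT (LocOK.and hT f3 f4) (LocOK.and hT f5 f6)
  have g2 := LocOK.and hT (LocOK.mono hT f2 (Nat.le_add_right _ 2)) g1
  clear f2 f3 f4 f5 f6 g1
  have g3 := LocOK.mono hT g2 (show 25000 + 2 + 1 ≤ 30000 by norm_num)
  clear g2
  obtain ⟨κ, hκ, E, S', hd, hp, hs, hi, hg⟩ := g3
  refine ⟨κ, hκ, E, S', hd, hp, hs, hi, fun lam hE => ?_⟩
  obtain ⟨h2, ⟨h3, h4⟩, h5, h6⟩ := hg lam hE
  have q1 : ∀ {x y : ℝ}, 0 ≤ x → 0 ≤ y → 2 * (x / F.D.T ^ 133) + F.D.T ^ 2 * y ≤
      x / F.D.T ^ 130 + F.D.T ^ 135 * y := by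
    intro x y hx hy
    have e1 : x / F.D.T ^ 130 = F.D.T ^ 3 * (x / F.D.T ^ 133) := by
      field_simp
    have e2 : (2 : ℝ) ≤ F.D.T ^ 3 := by
      have : F.D.T ^ 1 ≤ F.D.T ^ 3 := hT.pw (by norm_num)
      rw [pow_one] at this
      linarith
    have e3 : F.D.T ^ 2 ≤ F.D.T ^ 135 := hT.pw (by norm_num)
    have e4 : 0 ≤ x / F.D.T ^ 133 := div_nonneg hx (pow_nonneg hT0.le _)
    rw [e1]
    exact add_le_add (mul_le_mul_of_nonneg_right e2 e4) (mul_le_mul_of_nonneg_right e3 hy)
  have q2 : ∀ {x y : ℝ}, 0 ≤ x → 0 ≤ y → x / F.D.T ^ 130 + F.D.T ^ 135 * y ≤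
      x / F.D.T ^ 130 + F.D.T ^ 136 * y := by
    intro x y _ hy
    have e3 : F.D.T ^ 135 ≤ F.D.T ^ 136 := hT.pw (by norm_num)
    exact add_le_add le_rfl (mul_le_mul_of_nonneg_right e3 hy)
  have q3 : ∀ {x y : ℝ}, 0 ≤ x → 0 ≤ y → x / F.D.T ^ 130 + F.D.T ^ 135 * y ≤
      x / F.D.T ^ 129 + F.D.T ^ 135 * y := by
    intro x y hx _
    refine add_le_add ?_ le_rfl
    exact div_le_div_of_nonneg_left hx (by positivity) (hT.pw (by norm_num))
  have nn : ∀ {f : Q → ℝ} {x : ℝ}, (∀ z, 0 ≤ f z) → ∑ z, f z ≤ x → 0 ≤ x :=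
    fun hf hx => (sum_nonneg fun z _ => hf z).trans hx
  refine ⟨fun i => ?_, fun P => ?_, fun b => ?_, fun b z => ?_, fun b => ?_⟩
  · have h := h2 i () (mem_singleton_self _)
    have hx : 0 ≤ F.tot i := nn (hmW i) (hF.W_tot i)
    exact h.trans ((q1 hx (hF.d1_nonneg i)).trans (q2 hx (hF.d1_nonneg i)))
  · have h := h3 P () (mem_singleton_self _)
    refine h.trans ?_
    have e2 : F.D.T ^ 3210 / F.D.T ^ 133 = F.D.T ^ 3077 := by
      rw [div_eq_iff (by positivity), ← pow_add]
    have e3 : F.D.T ^ 2 * F.D.T ^ 1604 ≤ F.D.T ^ 3077 := by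
      rw [← pow_add]
      exact hT.pw (by norm_num)
    have e4 : F.D.T ^ 3078 = F.D.T ^ 3077 * F.D.T := by rw [← pow_succ]
    have e6 : 0 ≤ F.D.T ^ 3077 := pow_nonneg hT0.le _
    have e7 := mul_le_mul_of_nonneg_left (show (3 : ℝ) ≤ F.D.T by linarith) e6
    rw [e2, e4]
    linarith
  · have h := h4 b () (mem_singleton_self _)
    have hx : 0 ≤ F.tb b := nn (hmB b) (hF.B_tot b)
    exact h.trans ((q1 hx (hF.db_nonneg b)).trans (q2 hx (hF.db_nonneg b)))
  · have hb := (hF.cm_pos b).le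
    have hx := hF.cr_nonneg b
    by_cases hz : z ∈ univ.filter fun z => ∃ z', F.cw b z z' ≠ 0 ∨ F.cw b z' z ≠ 0
    · have h := h5 b z hz
      exact h.trans ((q1 hx hb).trans (q3 hx hb))
    · have e1 : ∀ z', F.cw b z z' + F.cw b z' z = 0 := by
        intro z'
        by_contra h
        refine hz (mem_filter.2 ⟨mem_univ _, z', ?_⟩)
        by_contra h'
        push Not at h'
        exact h (by rw [h'.1, h'.2, add_zero])
      rw [sum_eq_zero fun z' _ => e1 z']
      exact add_nonneg (div_nonneg hx (pow_nonneg hT0.le _)) (mul_nonneg (pow_nonneg hT0.le _) hb)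
  · have h := h6 b () (mem_singleton_self _)
    have e1 : ((((Sel col lam true).filter fun z =>
        ∃ z', F.cw b z z' ≠ 0 ∨ F.cw b z' z ≠ 0).card : ℕ) : ℝ) =
        ∑ z ∈ Sel col lam true, if ∃ z', F.cw b z z' ≠ 0 ∨ F.cw b z' z ≠ 0 then (1 : ℝ)
          else 0 := by
      rw [← sum_filter, sum_const, nsmul_eq_mul, mul_one]
    rw [e1]
    have hx : 0 ≤ F.cs b := le_trans (Nat.cast_nonneg _) (hF.cw_supp b)
    have h' := h.trans ((q1 hx zero_le_one).trans (q3 hx zero_le_one))
    rwa [mul_one] at h'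

end Fire

end

end Pool.Agent.AcyG
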