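import Pool.Agent.AcyG.LamB
import Pool.Agent.AcyG.BasicC

/-! # The quadratic tests (module GSY) -/

set_option autoImplicit false
set_option linter.unusedSectionVars false

namespace Pool.Agent.AcyG

open Finset
open Pool.Agent.Acy (IsPM wt Ex Pr mean)
open Pool.Agent.AcyK (Big StepOK prodLaw Un Sel updCol)
open scoped Classical

universe u v

section

variable {Q ι : Type u} [Fintype Q] [DecidableEq Q] [Fintype ι] [DecidableEq ι]

namespace NibData

variable {D : NibData Q ι}

/-! ## Arithmetic -/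

theorem arith_Yb {T gs gm sq tt sB er : ℝ} (hB : Big T) (hgs : 0 ≤ gs) (hgm : 0 ≤ gm)
    (hsq : 0 ≤ sq) (ht : 0 ≤ tt) (hsB0 : 0 ≤ sB)
    (her : er = gs / T ^ 190 + T ^ 170 * gm + T ^ 30 * sq)
    (hsB : sB ≤ tt * gs + (T ^ 2 * sq + T ^ 2 * gm)) :
    (er / 10 + T ^ 2 * (er / (10 * T ^ 3))) +
      (1 / T ^ 109 * sB + T ^ 2 * (sB / T ^ 100 + T ^ 4 * gm)) +
      1 / (100 * T ^ 10) * sB + er / 10 + 1 / T ^ 27 * sB +
      T / 10000 * (gs / T ^ 200 + T ^ 4 * gm) ≤ tt * gs / T ^ 10 + er := by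
  have hT := hB.pos
  have hT1 := hB.one_le
  have hTb := hB.big
  have her0 : 0 ≤ er := by
    rw [her]
    positivity
  have q1 : T ^ 2 * (er / (10 * T ^ 3)) ≤ er / 10 := by
    have : T ^ 2 * (er / (10 * T ^ 3)) = er / 10 * (1 / T) := by
      field_simp
    rw [this]
    have hT' : 1 / T ≤ 1 := by
      rw [div_le_one hT]
      exact hT1
    calc er / 10 * (1 / T) ≤ er / 10 * 1 :=
          mul_le_mul_of_nonneg_left hT' (by positivity)
      _ = er / 10 := mul_one _
  obtain ⟨P, hP⟩ : ∃ P : ℝ, P = 1 / T ^ 10 := ⟨_, rfl⟩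
  have hP0 : 0 ≤ P := by
    rw [hP]
    positivity
  have hs : ∀ a : ℕ, 1 ≤ a → 1 / T ^ (a + 10) ≤ 1 / 1000000 * P := by
    intro a ha
    have h := hB.small ha
    have h5 : 1 / T ^ (a + 10) = 1 / T ^ a * (1 / T ^ 10) := by
      rw [pow_add]
      field_simp
    rw [h5, hP]
    exact mul_le_mul_of_nonneg_right h (by positivity)
  have q2 : 1 / T ^ 109 * sB + T ^ 2 * (sB / T ^ 100) + 1 / (100 * T ^ 10) * sB +
      1 / T ^ 27 * sB ≤ 1 / 50 * P * sB := by
    have q21 : T ^ 2 * (sB / T ^ 100) = 1 / T ^ (88 + 10) * sB := by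
      rw [show (100 : ℕ) = (88 + 10) + 2 by norm_num, pow_add T (88 + 10) 2]
      field_simp
    have q22 : 1 / (100 * T ^ 10) * sB = 1 / 100 * P * sB := by
      rw [hP]
      field_simp
    rw [q21, q22, ← add_mul, ← add_mul, ← add_mul]
    refine mul_le_mul_of_nonneg_right ?_ hsB0
    have r1 : 1 / T ^ 109 ≤ 1 / 1000000 * P := hs 99 (by norm_num)
    have r2 := hs 88 (by norm_num)
    have r3 : 1 / T ^ 27 ≤ 1 / 1000000 * P := hs 17 (by norm_num)
    linarith
  have q3 : 1 / 50 * P * sB ≤ tt * gs / T ^ 10 +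
      1 / 50 * P * (T ^ 2 * sq + T ^ 2 * gm) := by
    have q32 := mul_le_mul_of_nonneg_left hsB (by positivity : (0 : ℝ) ≤ 1 / 50 * P)
    have q33 : 1 / 50 * P * (tt * gs) ≤ tt * gs / T ^ 10 := by
      have h1 : 1 / 50 * P * (tt * gs) = 1 / 50 * (tt * gs / T ^ 10) := by
        rw [hP]
        ring
      rw [h1]
      have h0 : 0 ≤ tt * gs / T ^ 10 := by positivity
      linarith
    linarith
  have q4 : 1 / 50 * P * (T ^ 2 * sq + T ^ 2 * gm) ≤
      1 / 50 * (T ^ 30 * sq) + 1 / 50 * (T ^ 170 * gm) := by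
    have r1 : P * T ^ 2 ≤ 1 := by
      rw [hP, one_div, inv_mul_le_iff₀ (by positivity), mul_one]
      exact hB.pw (by norm_num)
    have r2 : (1 : ℝ) ≤ T ^ 30 := one_le_pow₀ hT1
    have r3 : (1 : ℝ) ≤ T ^ 170 := one_le_pow₀ hT1
    have r4 : P * T ^ 2 * sq ≤ T ^ 30 * sq :=
      mul_le_mul_of_nonneg_right (r1.trans r2) hsq
    have r5 : P * T ^ 2 * gm ≤ T ^ 170 * gm :=
      mul_le_mul_of_nonneg_right (r1.trans r3) hgm
    linarith
  have q5 : T ^ 2 * (T ^ 4 * gm) ≤ 1 / 50 * (T ^ 170 * gm) := by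
    have r1 : T ^ 2 * T ^ 4 ≤ 1 / 50 * T ^ 170 := by
      have r2 : T ^ 7 ≤ T ^ 170 := hB.pw (by norm_num)
      have r3 : T ^ 7 = T * (T ^ 2 * T ^ 4) := by ring
      have r4 : 0 ≤ T ^ 2 * T ^ 4 := by positivity
      have r5 : 50 * (T ^ 2 * T ^ 4) ≤ T * (T ^ 2 * T ^ 4) :=
        mul_le_mul_of_nonneg_right (by linarith) r4
      linarith
    calc T ^ 2 * (T ^ 4 * gm) = T ^ 2 * T ^ 4 * gm := by ring
      _ ≤ 1 / 50 * T ^ 170 * gm := mul_le_mul_of_nonneg_right r1 hgm
      _ = 1 / 50 * (T ^ 170 * gm) := by ring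
  have q6 : T / 10000 * (gs / T ^ 200 + T ^ 4 * gm) ≤
      1 / 50 * (gs / T ^ 190) + 1 / 50 * (T ^ 170 * gm) := by
    have r1 : T / 10000 * (gs / T ^ 200) ≤ 1 / 50 * (gs / T ^ 190) := by
      have r2 : T / 10000 * (gs / T ^ 200) =
          1 / 10000 * (1 / T ^ 9) * (gs / T ^ 190) := by
        rw [show (200 : ℕ) = 190 + 10 by norm_num, pow_add T 190 10]
        field_simp
      have r3 : 1 / T ^ 9 ≤ 1 := by
        rw [div_le_one (by positivity)]
        exact one_le_pow₀ hT1
      have r4 : 0 ≤ gs / T ^ 190 := by positivity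
      rw [r2]
      refine mul_le_mul_of_nonneg_right ?_ r4
      linarith
    have r5 : T / 10000 * (T ^ 4 * gm) ≤ 1 / 50 * (T ^ 170 * gm) := by
      have r6 : T * T ^ 4 ≤ T ^ 170 := by
        rw [← pow_succ']
        exact hB.pw (by norm_num)
      have r7 := mul_le_mul_of_nonneg_right r6 hgm
      have r8 : 0 ≤ T ^ 170 * gm := mul_nonneg (pow_nonneg hT.le _) hgm
      have r9 : T / 10000 * (T ^ 4 * gm) = 1 / 10000 * (T * T ^ 4 * gm) := by ring
      rw [r9]
      linarith
    linarith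
  have q7 : 0 ≤ gs / T ^ 190 := by positivity
  have q8 : 0 ≤ T ^ 170 * gm := mul_nonneg (pow_nonneg hT.le _) hgm
  have q9 : 0 ≤ T ^ 30 * sq := by positivity
  rw [mul_add (T ^ 2)]
  linarith

/-! ## The coloured vertices after the round -/

/-- A sum over the vertices of a given colour after the round. -/
theorem sum_col_step (S : NState Q D.k) (m : ℕ) (lam : Q → Option Bool) (ω : Q → Fin D.k)
    (f : Q → ℝ) (c : Fin D.k) :
    (∑ z, if ∃ r, (D.step S m lam ω).col z = some (c, r) then f z else 0) =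
      (∑ z, if ∃ r, S.col z = some (c, r) then f z else 0) +
        ∑ z ∈ Sel S.col lam true, if ω z = c then f z else 0 := by
  have h1 : (∑ z ∈ Sel S.col lam true, if ω z = c then f z else 0) =
      ∑ z, if z ∈ Sel S.col lam true then (if ω z = c then f z else 0) else 0 := by
    rw [← Finset.sum_filter (s := (univ : Finset Q)), Finset.filter_mem_eq_inter,
      Finset.univ_inter]
  rw [h1, ← Finset.sum_add_distrib]
  refine Finset.sum_congr rfl fun z _ => ?_
  have hcol : (D.step S m lam ω).col z = updCol m S.col lam ω z := rfl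
  rw [hcol]
  unfold updCol
  by_cases h : S.col z = none ∧ lam z = some true
  · have hz : z ∈ Sel S.col lam true := by
      simp only [Sel, Finset.mem_filter, Finset.mem_univ, true_and]
      exact h
    rw [if_pos h, if_pos hz]
    have h2 : ¬ ∃ r, S.col z = some (c, r) := by
      rintro ⟨r, hr⟩
      rw [h.1] at hr
      exact absurd hr (by simp)
    rw [if_neg h2, zero_add]
    by_cases h3 : ω z = c
    · rw [if_pos h3, if_pos ⟨m, by rw [h3]⟩]
    · rw [if_neg h3, if_neg]
      rintro ⟨r, hr⟩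
      simp only [Option.some.injEq, Prod.mk.injEq] at hr
      exact h3 hr.1
  · have hz : z ∉ Sel S.col lam true := by
      intro hz
      simp only [Sel, Finset.mem_filter, Finset.mem_univ, true_and] at hz
      exact h hz
    rw [if_neg h, if_neg hz, add_zero]

theorem nw_step (S : NState Q D.k) (m : ℕ) (lam : Q → Option Bool) (ω : Q → Fin D.k)
    (i : ι) (z : Q) (c : Fin D.k) : D.nw (D.step S m lam ω) i z c = D.nw S i z c +
      ∑ z' ∈ Sel S.col lam true, if ω z' = c then D.w i z z' else 0 :=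
  sum_col_step S m lam ω (fun z' => D.w i z z') c

theorem ng_step (S : NState Q D.k) (m : ℕ) (lam : Q → Option Bool) (ω : Q → Fin D.k)
    (i : ι) (c : Fin D.k) : D.ng (D.step S m lam ω) i c = D.ng S i c +
      ∑ z ∈ Sel S.col lam true, if ω z = c then D.g i z else 0 :=
  sum_col_step S m lam ω (fun z => D.g i z) c

theorem Un_eq (S : NState Q D.k) (lam : Q → Option Bool) :
    Un S.col = D.U1 S lam ∪ Sel S.col lam true := by
  ext z
  simp only [Finset.mem_union, Un, U1, Sel, Finset.mem_filter, Finset.mem_univ, true_and]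
  tauto

theorem Un_disj (S : NState Q D.k) (lam : Q → Option Bool) :
    Disjoint (D.U1 S lam) (Sel S.col lam true) := by
  rw [Finset.disjoint_left]
  intro z h1 h2
  simp only [U1, Sel, Finset.mem_filter, Finset.mem_univ, true_and] at h1 h2
  exact h1.2 h2.2

/-! ## Change of the weights -/

section lam
variable (hD : D.Ok) {S : NState Q D.k} {m : ℕ} (hI : D.Inv S m) (hm : m < D.M)
  {lam : Q → Option Bool} (hA : D.GoodA S m lam) (ω : Q → Fin D.k)
include hD hI hm hA

/-- The change of a weight is the ideal one, except for double picks. -/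
theorem v_step_sub (z : Q) (c : Fin D.k) :
    |(D.step S m lam ω).v z c - S.v z c -
      (if S.al z c then S.v z c * (D.pk S lam ω z c - D.cmp S lam z c) else 0)| ≤
      D.T ^ 2 * ((D.J S lam ω z c : ℝ) * ((D.J S lam ω z c : ℝ) - 1)) := by
  have hT := hD.big.pos
  have hJJ := J_mul_nonneg (D := D) S lam ω z c
  have he2 : 0 ≤ D.T ^ 2 * ((D.J S lam ω z c : ℝ) * ((D.J S lam ω z c : ℝ) - 1)) :=
    mul_nonneg (by positivity) hJJ
  have hv' : (D.step S m lam ω).v z c = if S.al z c then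
    (if D.J S lam ω z c ≤ 1 then S.v z c * (1 + D.pk S lam ω z c - D.cmp S lam z c) else 0)
    else S.v z c := rfl
  rw [hv']
  by_cases hal : S.al z c
  · rw [if_pos hal, if_pos hal]
    by_cases hJ : D.J S lam ω z c ≤ 1
    · rw [if_pos hJ]
      have : S.v z c * (1 + D.pk S lam ω z c - D.cmp S lam z c) - S.v z c -
          S.v z c * (D.pk S lam ω z c - D.cmp S lam z c) = 0 := by ring
      rw [this, abs_zero]
      exact he2
    · rw [if_neg hJ]
      have hJ2 : (2 : ℝ) ≤ (D.J S lam ω z c : ℝ) := by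
        have : 2 ≤ D.J S lam ω z c := by omega
        exact_mod_cast this
      have hpk := pk_abs S lam ω hD z c
      have hcmp := cmp_abs hD hI hm hA z c
      have hsm : 1 / D.T ^ 110 ≤ 1 / 1000000 := hD.big.small (by norm_num)
      have hv := v_abs hD hI hm.le z c
      have hvT := v_le' hD hI hm.le z c
      have hvp := hI.al_pos z c hal
      have hTb := hD.big.big
      have h1 : |1 + D.pk S lam ω z c - D.cmp S lam z c| ≤ 2 * D.T * D.J S lam ω z c := by
        have h11 : |1 + D.pk S lam ω z c - D.cmp S lam z c| ≤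
            1 + D.T * D.J S lam ω z c + 1 / D.T ^ 110 := by
          rw [abs_le] at hpk hcmp ⊢
          constructor <;> linarith [hpk.1, hpk.2, hcmp.1, hcmp.2]
        nlinarith
      have h2 : 0 - S.v z c - S.v z c * (D.pk S lam ω z c - D.cmp S lam z c) =
          -(S.v z c * (1 + D.pk S lam ω z c - D.cmp S lam z c)) := by ring
      rw [h2, abs_neg, abs_mul, abs_of_pos hvp]
      calc S.v z c * |1 + D.pk S lam ω z c - D.cmp S lam z c| ≤
          D.T / 1000 * (2 * D.T * D.J S lam ω z c) :=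
            mul_le_mul hvT h1 (abs_nonneg _) (by positivity)
        _ = D.T ^ 2 * ((D.J S lam ω z c : ℝ) * (1 / 500)) := by ring
        _ ≤ D.T ^ 2 * ((D.J S lam ω z c : ℝ) * ((D.J S lam ω z c : ℝ) - 1)) := by
            refine mul_le_mul_of_nonneg_left ?_ (by positivity)
            refine mul_le_mul_of_nonneg_left ?_ (by positivity)
            linarith
  · rw [if_neg hal, if_neg hal]
    have : S.v z c - S.v z c - 0 = 0 := by ring
    rw [this, abs_zero]
    exact he2

/-- The new weight of `z` at the colour picked by `z'`. -/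
theorem v_pick_sub (z z' : Q) (hz' : z' ∈ D.LL S lam) :
    |(D.step S m lam ω).v z (ω z') -
      S.v z (ω z') * (if S.al z (ω z') then 1 + D.K z z' else 1)| ≤
      1 / D.T ^ 109 +
      D.T ^ 2 * (((D.R z ∩ D.LL S lam).filter fun u => u ≠ z' ∧ ω u = ω z').card : ℝ) := by
  have hT := hD.big.pos
  have hTb := hD.big.big
  set N := (D.R z ∩ D.LL S lam).filter fun u => u ≠ z' ∧ ω u = ω z' with hN
  have he : 0 ≤ D.T ^ 2 * (N.card : ℝ) := by positivity
  have he1 : 0 ≤ 1 / D.T ^ 109 := by positivity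
  have hv' : (D.step S m lam ω).v z (ω z') = if S.al z (ω z') then
    (if D.J S lam ω z (ω z') ≤ 1 then
      S.v z (ω z') * (1 + D.pk S lam ω z (ω z') - D.cmp S lam z (ω z')) else 0)
    else S.v z (ω z') := rfl
  rw [hv']
  by_cases hal : S.al z (ω z')
  · rw [if_pos hal, if_pos hal]
    have hv := hI.al_pos z _ hal
    have hvT := v_le' hD hI hm.le z (ω z')
    have hcmp := cmp_abs hD hI hm hA z (ω z')
    have hT110 : D.T * (1 / D.T ^ 110) = 1 / D.T ^ 109 := by
      rw [pow_succ D.T 109]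
      field_simp
    have hsm : 1 / D.T ^ 110 ≤ 1 / 1000000 := hD.big.small (by norm_num)
    have hcv : |S.v z (ω z') * D.cmp S lam z (ω z')| ≤ 1 / D.T ^ 109 := by
      rw [abs_mul, abs_of_pos hv]
      calc S.v z (ω z') * |D.cmp S lam z (ω z')| ≤ D.T * (1 / D.T ^ 110) :=
            mul_le_mul (by linarith) hcmp (abs_nonneg _) hT.le
        _ = 1 / D.T ^ 109 := hT110
    have hK0 := K_ge hD z z'
    have hK1 := one_add_K_le hD z z'
    have hN1 : ∀ u ∈ D.LL S lam, u ∈ D.R z → u ≠ z' → ω u = ω z' → (1 : ℝ) ≤ (N.card : ℝ) := by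
      intro u h1 h2 h3 h4
      have : 0 < N.card := Finset.card_pos.2
        ⟨u, Finset.mem_filter.2 ⟨Finset.mem_inter.2 ⟨h2, h1⟩, h3, h4⟩⟩
      exact_mod_cast this
    by_cases hJ : D.J S lam ω z (ω z') ≤ 1
    · rw [if_pos hJ]
      rcases Nat.lt_or_ge (D.J S lam ω z (ω z')) 1 with h | h
      · have h0 : D.J S lam ω z (ω z') = 0 := by omega
        have hpk := (pk_zero S lam ω hD z _ h0).1
        have hR : z' ∉ D.R z := by
          intro hR
          have : z' ∈ (D.R z ∩ D.LL S lam).filter fun u => ω u = ω z' :=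
            Finset.mem_filter.2 ⟨Finset.mem_inter.2 ⟨hR, hz'⟩, rfl⟩
          have h2 : 0 < D.J S lam ω z (ω z') := Finset.card_pos.2 ⟨z', this⟩
          omega
        have hK : D.K z z' = 0 := by
          rw [hD.K_symm]
          exact K_off' hD z z' hR
        rw [hpk, hK]
        have : S.v z (ω z') * (1 + 0 - D.cmp S lam z (ω z')) - S.v z (ω z') * (1 + 0) =
            -(S.v z (ω z') * D.cmp S lam z (ω z')) := by ring
        rw [this, abs_neg]
        linarith
      · have h1 : D.J S lam ω z (ω z') = 1 := by omega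
        obtain ⟨u, huL, huc, huR, hpk, -⟩ := pk_one S lam ω hD z _ h1
        rw [hpk]
        by_cases hu : u = z'
        · subst hu
          rw [hD.K_symm z u]
          have : S.v z (ω u) * (1 + D.K u z - D.cmp S lam z (ω u)) -
              S.v z (ω u) * (1 + D.K u z) = -(S.v z (ω u) * D.cmp S lam z (ω u)) := by ring
          rw [this, abs_neg]
          linarith
        · have hN2 := hN1 u huL huR hu huc
          have hKu := one_add_K_le hD u z
          have hKu0 := K_ge hD u z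
          have h3 : S.v z (ω z') * (1 + D.K u z - D.cmp S lam z (ω z')) -
              S.v z (ω z') * (1 + D.K z z') = S.v z (ω z') * (D.K u z - D.K z z') -
              S.v z (ω z') * D.cmp S lam z (ω z') := by ring
          rw [h3]
          have h4 : |S.v z (ω z') * (D.K u z - D.K z z')| ≤ D.T ^ 2 := by
            rw [abs_mul, abs_of_pos hv]
            have h41 : |D.K u z - D.K z z'| ≤ D.T := by
              rw [abs_le]
              constructor <;> linarith
            calc S.v z (ω z') * |D.K u z - D.K z z'| ≤ D.T * D.T :=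
                  mul_le_mul (by linarith) h41 (abs_nonneg _) hT.le
              _ = D.T ^ 2 := by ring
          have h5 : D.T ^ 2 ≤ D.T ^ 2 * (N.card : ℝ) := by
            nlinarith [sq_nonneg D.T]
          calc |S.v z (ω z') * (D.K u z - D.K z z') - S.v z (ω z') * D.cmp S lam z (ω z')| ≤
              |S.v z (ω z') * (D.K u z - D.K z z')| + |S.v z (ω z') * D.cmp S lam z (ω z')| :=
                abs_sub _ _
            _ ≤ 1 / D.T ^ 109 + D.T ^ 2 * (N.card : ℝ) := by linarith
    · rw [if_neg hJ]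
      have hJ2 : 1 < ((D.R z ∩ D.LL S lam).filter fun u => ω u = ω z').card := by
        have : ¬ D.J S lam ω z (ω z') ≤ 1 := hJ
        unfold J at this
        omega
      obtain ⟨a, ha, b, hb, hab⟩ := Finset.one_lt_card.1 hJ2
      have hex : ∃ u ∈ D.LL S lam, u ∈ D.R z ∧ u ≠ z' ∧ ω u = ω z' := by
        rw [Finset.mem_filter, Finset.mem_inter] at ha hb
        by_cases h : a = z'
        · refine ⟨b, hb.1.2, hb.1.1, ?_, hb.2⟩
          rintro rfl
          exact hab h
        · exact ⟨a, ha.1.2, ha.1.1, h, ha.2⟩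
      obtain ⟨u, h1, h2, h3, h4⟩ := hex
      have hN2 := hN1 u h1 h2 h3 h4
      have h5 : D.T ^ 2 ≤ D.T ^ 2 * (N.card : ℝ) := by
        nlinarith [sq_nonneg D.T]
      have h6 : |0 - S.v z (ω z') * (1 + D.K z z')| ≤ D.T ^ 2 := by
        rw [zero_sub, abs_neg, abs_mul, abs_of_pos hv, abs_of_nonneg (by linarith)]
        calc S.v z (ω z') * (1 + D.K z z') ≤ D.T * D.T :=
              mul_le_mul (by linarith) (by linarith) (by linarith) hT.le
          _ = D.T ^ 2 := by ring
      linarith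
  · rw [if_neg hal, if_neg hal]
    have : S.v z (ω z') - S.v z (ω z') * 1 = 0 := by ring
    rw [this, abs_zero]
    linarith

/-- The old coloured vertices. -/
theorem old_part (hG : D.GoodB S lam ω) (i : ι) :
    |∑ z ∈ D.U1 S lam, ∑ c, D.nw S i z c * ((D.step S m lam ω).v z c - S.v z c)| ≤
      D.er i / 10 + D.T ^ 2 * (D.er i / (10 * D.T ^ 3)) := by
  have hT := hD.big.pos
  have h12 := hG.e12 i
  have h17 := hG.e17 i
  rw [cen_Y12] at h12
  have h1 : ∑ z ∈ D.U1 S lam, ∑ c, D.nw S i z c * ((D.step S m lam ω).v z c - S.v z c) =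
      (∑ z ∈ D.U1 S lam, ∑ c, if S.al z c then
        D.nw S i z c * S.v z c * (D.pk S lam ω z c - D.cmp S lam z c) else 0) +
      ∑ z ∈ D.U1 S lam, ∑ c, D.nw S i z c * ((D.step S m lam ω).v z c - S.v z c -
        (if S.al z c then S.v z c * (D.pk S lam ω z c - D.cmp S lam z c) else 0)) := by
    rw [← Finset.sum_add_distrib]
    refine Finset.sum_congr rfl fun z _ => ?_
    rw [← Finset.sum_add_distrib]
    refine Finset.sum_congr rfl fun c _ => ?_
    split_ifs <;> ring
  have h2 : |∑ z ∈ D.U1 S lam, ∑ c, D.nw S i z c * ((D.step S m lam ω).v z c - S.v z c -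
        (if S.al z c then S.v z c * (D.pk S lam ω z c - D.cmp S lam z c) else 0))| ≤
      D.T ^ 2 * ∑ z ∈ D.U1 S lam, ∑ c, |D.nw S i z c| *
        ((D.J S lam ω z c : ℝ) * ((D.J S lam ω z c : ℝ) - 1)) := by
    rw [Finset.mul_sum]
    refine (Finset.abs_sum_le_sum_abs _ _).trans (Finset.sum_le_sum fun z _ => ?_)
    rw [Finset.mul_sum]
    refine (Finset.abs_sum_le_sum_abs _ _).trans (Finset.sum_le_sum fun c _ => ?_)
    rw [abs_mul]
    have h3 := mul_le_mul_of_nonneg_left (v_step_sub hD hI hm hA ω z c)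
      (abs_nonneg (D.nw S i z c))
    refine h3.trans (le_of_eq ?_)
    ring
  have h4 : D.T ^ 2 * (∑ z ∈ D.U1 S lam, ∑ c, |D.nw S i z c| *
        ((D.J S lam ω z c : ℝ) * ((D.J S lam ω z c : ℝ) - 1))) ≤
        D.T ^ 2 * (D.er i / (10 * D.T ^ 3)) :=
    mul_le_mul_of_nonneg_left h17 (by positivity)
  rw [h1]
  refine (abs_add_le _ _).trans ?_
  linarith

/-- The new coloured vertices. -/
theorem new_part (hG : D.GoodB S lam ω) (i : ι) :
    |(∑ z ∈ D.U1 S lam, ∑ z' ∈ Sel S.col lam true, D.w i z z' * (D.step S m lam ω).v z (ω z')) -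
      ∑ z' ∈ Sel S.col lam true, D.Y13 S lam i z' (ω z')| ≤
      1 / D.T ^ 109 * (∑ z ∈ Sel S.col lam true, D.g i z) +
      D.T ^ 2 * ((∑ z ∈ Sel S.col lam true, D.g i z) / D.T ^ 100 + D.T ^ 4 * D.gm i) := by
  have hT := hD.big.pos
  have h14 := hG.e14 i
  have hBL : ∀ z' ∈ Sel S.col lam true, z' ∈ D.LL S lam := by
    intro z' hz'
    rw [LL_eq]
    exact Finset.mem_union_left _ hz'
  have h1 : ∑ z' ∈ Sel S.col lam true, D.Y13 S lam i z' (ω z') =
      ∑ z ∈ D.U1 S lam, ∑ z' ∈ Sel S.col lam true, D.w i z z' *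
        (S.v z (ω z') * (if S.al z (ω z') then 1 + D.K z z' else 1)) := by
    rw [Finset.sum_comm]
    refine Finset.sum_congr rfl fun z' hz' => ?_
    unfold Y13
    rw [if_pos hz']
    refine Finset.sum_congr rfl fun z _ => ?_
    ring
  have h2 : (∑ z ∈ D.U1 S lam, ∑ z' ∈ Sel S.col lam true,
      D.w i z z' * (D.step S m lam ω).v z (ω z')) -
      ∑ z' ∈ Sel S.col lam true, D.Y13 S lam i z' (ω z') =
      ∑ z ∈ D.U1 S lam, ∑ z' ∈ Sel S.col lam true, D.w i z z' *
        ((D.step S m lam ω).v z (ω z') -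
          S.v z (ω z') * (if S.al z (ω z') then 1 + D.K z z' else 1)) := by
    rw [h1, ← Finset.sum_sub_distrib]
    refine Finset.sum_congr rfl fun z _ => ?_
    rw [← Finset.sum_sub_distrib]
    refine Finset.sum_congr rfl fun z' _ => ?_
    ring
  rw [h2]
  have h3 : |∑ z ∈ D.U1 S lam, ∑ z' ∈ Sel S.col lam true, D.w i z z' *
        ((D.step S m lam ω).v z (ω z') -
          S.v z (ω z') * (if S.al z (ω z') then 1 + D.K z z' else 1))| ≤
      ∑ z ∈ D.U1 S lam, ∑ z' ∈ Sel S.col lam true, (1 / D.T ^ 109 * |D.w i z z'| +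
        D.T ^ 2 * (|D.w i z z'| *
        (((D.R z ∩ D.LL S lam).filter fun u => u ≠ z' ∧ ω u = ω z').card : ℝ))) := by
    refine (Finset.abs_sum_le_sum_abs _ _).trans (Finset.sum_le_sum fun z _ => ?_)
    refine (Finset.abs_sum_le_sum_abs _ _).trans (Finset.sum_le_sum fun z' hz' => ?_)
    rw [abs_mul]
    have h4 := mul_le_mul_of_nonneg_left (v_pick_sub hD hI hm hA ω z z' (hBL z' hz'))
      (abs_nonneg (D.w i z z'))
    refine h4.trans (le_of_eq ?_)
    ring
  refine h3.trans ?_
  simp only [Finset.sum_add_distrib, ← Finset.mul_sum]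
  have h5 : ∑ z ∈ D.U1 S lam, ∑ z' ∈ Sel S.col lam true, |D.w i z z'| ≤
      ∑ z' ∈ Sel S.col lam true, D.g i z' := by
    rw [Finset.sum_comm]
    refine Finset.sum_le_sum fun z' _ => ?_
    refine le_trans ?_ (w_col hD i z')
    exact Finset.sum_le_sum_of_subset_of_nonneg (Finset.subset_univ _)
      fun z _ _ => abs_nonneg _
  have h6 : 1 / D.T ^ 109 * (∑ z ∈ D.U1 S lam, ∑ z' ∈ Sel S.col lam true, |D.w i z z'|) ≤
      1 / D.T ^ 109 * ∑ z' ∈ Sel S.col lam true, D.g i z' :=
    mul_le_mul_of_nonneg_left h5 (by positivity)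
  have h7 := mul_le_mul_of_nonneg_left h14 (by positivity : (0 : ℝ) ≤ D.T ^ 2)
  linarith

end lam

/-! ## The mean of the new part, the rate, and the pairs of selected vertices -/

section inv
variable (hD : D.Ok) {S : NState Q D.k} {m : ℕ} (hI : D.Inv S m) (hm : m ≤ D.M)
include hD hI hm

/-- The correlation of the pick of `z'` with the weight of `z`. -/
theorem corr_sub (z z' : Q) (hp : D.pr z z') :
    |(∑ c, D.p S z' c * (S.v z c * (if S.al z c then 1 + D.K z z' else 1))) -
      (1 + D.K z z')| ≤ 1 / (100 * D.T ^ 10) := by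
  have hT := hD.big.pos
  have hTb := hD.big.big
  have hk := k_pos' hD
  have hK0 := K_ge hD z z'
  have hK1 := one_add_K_le hD z z'
  have hKa := K_abs hD z z'
  -- decomposition
  have h1 : (∑ c, D.p S z' c * (S.v z c * (if S.al z c then 1 + D.K z z' else 1))) -
      (1 + D.K z z') = (1 + D.K z z') * (D.II S z z' - 1) +
      (1 + D.K z z') * (∑ c, (D.p S z' c - S.v z' c / D.k) * S.v z c) -
      D.K z z' * ∑ c, D.p S z' c * (if S.al z c then 0 else S.v z c) := by
    have h11 : D.II S z z' = ∑ c, S.v z' c / D.k * S.v z c := by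
      unfold II
      rw [Finset.mul_sum]
      refine Finset.sum_congr rfl fun c _ => ?_
      ring
    have h12 : (∑ c, D.p S z' c * (S.v z c * (if S.al z c then 1 + D.K z z' else 1))) =
        (1 + D.K z z') * D.II S z z' +
        (1 + D.K z z') * (∑ c, (D.p S z' c - S.v z' c / D.k) * S.v z c) -
        D.K z z' * ∑ c, D.p S z' c * (if S.al z c then 0 else S.v z c) := by
      rw [h11, Finset.mul_sum, Finset.mul_sum, Finset.mul_sum, ← Finset.sum_add_distrib,
        ← Finset.sum_sub_distrib]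
      refine Finset.sum_congr rfl fun c _ => ?_
      split_ifs <;> ring
    rw [h12]
    ring
  have hII := hI.iiB z z' hp
  have hmq : (m : ℝ) ≤ D.T ^ 150 := by
    have h2 : (m : ℝ) ≤ D.M := by exact_mod_cast hm
    exact h2.trans (M_le_T hD)
  have h2 : (m : ℝ) / D.T ^ 200 ≤ 1 / D.T ^ 50 := by
    rw [div_le_div_iff₀ (by positivity) (by positivity), one_mul,
      show (200 : ℕ) = 150 + 50 by norm_num, pow_add]
    exact mul_le_mul_of_nonneg_right hmq (by positivity)
  have h3 : D.sg m / D.T ^ 12 ≤ 1 / (100 * D.T ^ 11) := by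
    have h31 := sg_le hD hm
    rw [div_le_div_iff₀ (by positivity) (by positivity), one_mul]
    calc D.sg m * (100 * D.T ^ 11) ≤ D.T / 100 * (100 * D.T ^ 11) :=
          mul_le_mul_of_nonneg_right h31 (by positivity)
      _ = D.T ^ 12 := by ring
  have e1 : |(1 + D.K z z') * (D.II S z z' - 1)| ≤
      D.T / 10000 * (1 / D.T ^ 50 + 1 / (100 * D.T ^ 11)) := by
    rw [abs_mul, abs_of_nonneg (by linarith : (0 : ℝ) ≤ 1 + D.K z z')]
    exact mul_le_mul hK1 (by linarith) (abs_nonneg _) (by positivity)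
  have e2 : |(1 + D.K z z') * (∑ c, (D.p S z' c - S.v z' c / D.k) * S.v z c)| ≤
      D.T / 10000 * (D.T * (1 / D.T ^ 27)) := by
    rw [abs_mul, abs_of_nonneg (by linarith : (0 : ℝ) ≤ 1 + D.K z z')]
    refine mul_le_mul hK1 ?_ (abs_nonneg _) (by positivity)
    calc |∑ c, (D.p S z' c - S.v z' c / D.k) * S.v z c| ≤
        ∑ c, |(D.p S z' c - S.v z' c / D.k) * S.v z c| := Finset.abs_sum_le_sum_abs _ _
      _ ≤ ∑ _c : Fin D.k, 1 / (D.T ^ 27 * D.k) * D.T := by
          refine Finset.sum_le_sum fun c _ => ?_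
          rw [abs_mul]
          exact mul_le_mul (p_sub hD hI hm z' c) (v_abs hD hI hm z c) (abs_nonneg _)
            (by positivity)
      _ = D.T * (1 / D.T ^ 27) := by
          rw [Finset.sum_const, Finset.card_univ, Fintype.card_fin, nsmul_eq_mul]
          field_simp
  have e3 : |D.K z z' * ∑ c, D.p S z' c * (if S.al z c then 0 else S.v z c)| ≤
      D.T * (2 * D.T / D.k * (D.k / D.T ^ 13)) := by
    rw [abs_mul]
    refine mul_le_mul hKa ?_ (abs_nonneg _) hT.le
    calc |∑ c, D.p S z' c * (if S.al z c then 0 else S.v z c)| ≤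
        ∑ c, |D.p S z' c * (if S.al z c then 0 else S.v z c)| :=
          Finset.abs_sum_le_sum_abs _ _
      _ ≤ ∑ c, 2 * D.T / D.k * (if S.al z c then 0 else |S.v z c|) := by
          refine Finset.sum_le_sum fun c _ => ?_
          rw [abs_mul, abs_of_nonneg (p_nonneg hD hI hm z' c)]
          have h31 : |(if S.al z c then 0 else S.v z c)| =
              (if S.al z c then 0 else |S.v z c|) := by
            split_ifs <;> simp
          rw [h31]
          refine mul_le_mul_of_nonneg_right (p_le hD hI hm z' c) ?_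
          split_ifs
          · exact le_rfl
          · exact abs_nonneg _
      _ ≤ 2 * D.T / D.k * (D.k / D.T ^ 13) := by
          rw [← Finset.mul_sum]
          exact mul_le_mul_of_nonneg_left (st_le hD hI hm z) (by positivity)
  rw [h1]
  have e4 : |(1 + D.K z z') * (D.II S z z' - 1) +
      (1 + D.K z z') * (∑ c, (D.p S z' c - S.v z' c / D.k) * S.v z c) -
      D.K z z' * ∑ c, D.p S z' c * (if S.al z c then 0 else S.v z c)| ≤
      D.T / 10000 * (1 / D.T ^ 50 + 1 / (100 * D.T ^ 11)) + D.T / 10000 * (D.T * (1 / D.T ^ 27)) +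
      D.T * (2 * D.T / D.k * (D.k / D.T ^ 13)) := by
    rw [abs_le] at e1 e2 e3 ⊢
    constructor <;> linarith [e1.1, e1.2, e2.1, e2.2, e3.1, e3.2]
  refine e4.trans ?_
  have hs : ∀ a : ℕ, 1 ≤ a → 1 / D.T ^ (a + 10) ≤ 1 / 1000000 * (1 / D.T ^ 10) := by
    intro a ha
    have h := hD.big.small ha
    have h5 : 1 / D.T ^ (a + 10) = 1 / D.T ^ a * (1 / D.T ^ 10) := by
      rw [pow_add]
      field_simp
    rw [h5]
    exact mul_le_mul_of_nonneg_right h (by positivity)
  have g1 : D.T / 10000 * (1 / D.T ^ 50 + 1 / (100 * D.T ^ 11)) =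
      1 / 10000 * (1 / D.T ^ (39 + 10)) + 1 / 1000000 * (1 / D.T ^ 10) := by
    rw [show (50 : ℕ) = (39 + 10) + 1 by norm_num, pow_succ D.T (39 + 10),
      show (11 : ℕ) = 10 + 1 by norm_num, pow_succ D.T 10]
    field_simp
    ring
  have g2 : D.T / 10000 * (D.T * (1 / D.T ^ 27)) = 1 / 10000 * (1 / D.T ^ (15 + 10)) := by
    rw [show (27 : ℕ) = (15 + 10) + 2 by norm_num, pow_add D.T (15 + 10) 2]
    field_simp
  have g3 : D.T * (2 * D.T / D.k * (D.k / D.T ^ 13)) = 2 * (1 / D.T ^ (1 + 10)) := by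
    rw [show (13 : ℕ) = (1 + 10) + 2 by norm_num, pow_add D.T (1 + 10) 2]
    field_simp
  have g4 : 1 / (100 * D.T ^ 10) = 1 / 100 * (1 / D.T ^ 10) := by
    field_simp
  rw [g1, g2, g3, g4]
  have h39 := hs 39 (by norm_num)
  have h15 := hs 15 (by norm_num)
  have h11 := hs 1 (by norm_num)
  have h10 : (0 : ℝ) < 1 / D.T ^ 10 := by positivity
  linarith

/-- The mean of the new part is compensated by the pairs that disappear. -/
theorem mean_Y13 (lam : Q → Option Bool) (i : ι) :
    |∑ u, mean (D.p S) (D.Y13 S lam i) u -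
      ∑ z ∈ D.U1 S lam, ∑ z' ∈ Sel S.col lam true, D.w i z z' * (1 + D.K z z')| ≤
      1 / (100 * D.T ^ 10) * ∑ z ∈ Sel S.col lam true, D.g i z := by
  have hT := hD.big.pos
  have h1 : ∑ u, mean (D.p S) (D.Y13 S lam i) u =
      ∑ z ∈ D.U1 S lam, ∑ z' ∈ Sel S.col lam true, D.w i z z' *
        ∑ c, D.p S z' c * (S.v z c * (if S.al z c then 1 + D.K z z' else 1)) := by
    have h11 : ∀ u, mean (D.p S) (D.Y13 S lam i) u = if u ∈ Sel S.col lam true then
        ∑ z ∈ D.U1 S lam, D.w i z u *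
          ∑ c, D.p S u c * (S.v z c * (if S.al z c then 1 + D.K z u else 1)) else 0 := by
      intro u
      unfold mean Y13
      by_cases hu : u ∈ Sel S.col lam true
      · simp only [if_pos hu]
        simp only [Finset.mul_sum]
        rw [Finset.sum_comm]
        refine Finset.sum_congr rfl fun z _ => Finset.sum_congr rfl fun c _ => ?_
        ring
      · simp only [if_neg hu, mul_zero, Finset.sum_const_zero]
    simp only [h11]
    rw [← Finset.sum_filter, Finset.filter_mem_eq_inter, Finset.univ_inter, Finset.sum_comm]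
  rw [h1, ← Finset.sum_sub_distrib]
  have h2 : ∑ z ∈ D.U1 S lam, ∑ z' ∈ Sel S.col lam true, |D.w i z z'| ≤
      ∑ z' ∈ Sel S.col lam true, D.g i z' := by
    rw [Finset.sum_comm]
    refine Finset.sum_le_sum fun z' _ => ?_
    refine le_trans ?_ (w_col hD i z')
    exact Finset.sum_le_sum_of_subset_of_nonneg (Finset.subset_univ _)
      fun z _ _ => abs_nonneg _
  refine le_trans ?_ (mul_le_mul_of_nonneg_left h2 (by positivity))
  rw [Finset.mul_sum]
  refine (Finset.abs_sum_le_sum_abs _ _).trans (Finset.sum_le_sum fun z _ => ?_)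
  rw [← Finset.sum_sub_distrib, Finset.mul_sum]
  refine (Finset.abs_sum_le_sum_abs _ _).trans (Finset.sum_le_sum fun z' _ => ?_)
  by_cases hw : D.w i z z' = 0
  · simp [hw]
  · rw [← mul_sub, abs_mul, mul_comm]
    exact mul_le_mul_of_nonneg_right (corr_sub hD hI hm z z' (hD.w_pr i z z' hw))
      (abs_nonneg _)

/-- The rate. -/
theorem rate_sub (lam : Q → Option Bool) (i : ι) :
    |(∑ z ∈ Sel S.col lam true, ∑ c, D.nw S i z c * S.v z c) -
      D.k * D.Rt lam (D.p S) S.col i| ≤
      1 / D.T ^ 27 * ∑ z ∈ Sel S.col lam true, D.g i z := by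
  have hT := hD.big.pos
  have hk := k_pos' hD
  have h1 : D.Rt lam (D.p S) S.col i =
      ∑ z ∈ Sel S.col lam true, ∑ c, D.nw S i z c * D.p S z c := by
    unfold Rt nw
    refine Finset.sum_congr rfl fun z _ => ?_
    rw [Finset.sum_comm]
    refine Finset.sum_congr rfl fun c _ => ?_
    rw [Finset.sum_mul]
    refine Finset.sum_congr rfl fun z' _ => ?_
    split_ifs <;> ring
  rw [h1, Finset.mul_sum, ← Finset.sum_sub_distrib, Finset.mul_sum]
  refine (Finset.abs_sum_le_sum_abs _ _).trans (Finset.sum_le_sum fun z _ => ?_)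
  rw [Finset.mul_sum, ← Finset.sum_sub_distrib]
  refine le_trans ?_ (mul_le_mul_of_nonneg_left (nw_sum hD hI hm i z)
    (by positivity : (0 : ℝ) ≤ 1 / D.T ^ 27))
  rw [Finset.mul_sum]
  refine (Finset.abs_sum_le_sum_abs _ _).trans (Finset.sum_le_sum fun c _ => ?_)
  have h2 : D.nw S i z c * S.v z c - D.k * (D.nw S i z c * D.p S z c) =
      -(D.nw S i z c * (D.k * (D.p S z c - S.v z c / D.k))) := by
    field_simp
    ring
  rw [h2, abs_neg, abs_mul, abs_mul, abs_of_pos hk, mul_comm]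
  refine mul_le_mul_of_nonneg_right ?_ (abs_nonneg _)
  calc (D.k : ℝ) * |D.p S z c - S.v z c / D.k| ≤ D.k * (1 / (D.T ^ 27 * D.k)) :=
        mul_le_mul_of_nonneg_left (p_sub hD hI hm z c) hk.le
    _ = 1 / D.T ^ 27 := by field_simp

end inv

/-! ## The results -/

section lam
variable (hD : D.Ok) {S : NState Q D.k} {m : ℕ} (hI : D.Inv S m) (hm : m < D.M)
  {lam : Q → Option Bool} (hA : D.GoodA S m lam) (ω : Q → Fin D.k)
include hD hI hm hA

theorem step_ncol (hG : D.GoodB S lam ω) (i : ι) (c : Fin D.k) :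
    D.ng (D.step S m lam ω) i c ≤
      (m + 1 : ℕ) * (D.T ^ 4 * (D.gm i + D.gs i / D.T ^ 3990)) := by
  rw [ng_step]
  have h1 := hI.ncol i c
  have h2 := hG.e16 i c
  push_cast
  linarith

/-- The quadratic tests follow their predictions. -/
theorem step_Yb (hG : D.GoodB S lam ω) (i : ι) :
    |D.Yb (D.step S m lam ω) i - (D.Yb S i - D.k * D.Rt lam (D.p S) S.col i)| ≤
      D.t m * D.gs i / D.T ^ 10 + D.er i := by
  have hT := hD.big.pos
  have hTb := hD.big.big
  have hT1 := hD.big.one_le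
  have hk := k_pos' hD
  have h1 := old_part hD hI hm hA ω hG i
  have h2 := new_part hD hI hm hA ω hG i
  have h3 := mean_Y13 hD hI hm.le lam i
  have h4 := hG.e13 i
  have h5 := rate_sub hD hI hm.le lam i
  have h6 := hA.a10 i
  have h7 := Sel_g' hD hI hm hA true i
  have h8 := dv_le hD i
  set U := D.U1 S lam with hU
  set B := Sel S.col lam true with hB
  obtain ⟨sB, hsB⟩ : ∃ sB : ℝ, sB = ∑ z ∈ B, D.g i z := ⟨_, rfl⟩
  have hsB0 : 0 ≤ sB := by
    rw [hsB]
    exact Finset.sum_nonneg fun z _ => hD.g_nonneg i z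
  -- the test function on the picks
  have hY : ∑ z' ∈ B, D.Y13 S lam i z' (ω z') = ∑ u, D.Y13 S lam i u (ω u) := by
    refine Finset.sum_subset (Finset.subset_univ _) fun u _ hu => ?_
    unfold Y13
    rw [if_neg hu]
  unfold cen at h4
  rw [Finset.sum_sub_distrib, ← hY] at h4
  -- the old prediction
  have hold : D.Yb S i = 1 / 2 * (∑ z ∈ U, ∑ z' ∈ U, D.w i z z' * (1 + D.K z z')) +
      (∑ z ∈ U, ∑ z' ∈ B, D.w i z z' * (1 + D.K z z')) +
      1 / 2 * (∑ z ∈ B, ∑ z' ∈ B, D.w i z z' * (1 + D.K z z')) +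
      (∑ z ∈ U, ∑ c, D.nw S i z c * S.v z c) +
      ∑ z ∈ B, ∑ c, D.nw S i z c * S.v z c := by
    have hdis : Disjoint U B := Un_disj S lam
    have hUn : Un S.col = U ∪ B := Un_eq S lam
    unfold Yb
    rw [hUn, Finset.sum_union hdis, Finset.sum_union hdis]
    have a1 : ∀ z, ∑ z' ∈ U ∪ B, D.w i z z' * (1 + D.K z z') =
        ∑ z' ∈ U, D.w i z z' * (1 + D.K z z') + ∑ z' ∈ B, D.w i z z' * (1 + D.K z z') :=
      fun z => Finset.sum_union hdis
    simp only [a1, Finset.sum_add_distrib]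
    have a2 : ∑ z ∈ B, ∑ z' ∈ U, D.w i z z' * (1 + D.K z z') =
        ∑ z ∈ U, ∑ z' ∈ B, D.w i z z' * (1 + D.K z z') := by
      rw [Finset.sum_comm]
      refine Finset.sum_congr rfl fun z _ => Finset.sum_congr rfl fun z' _ => ?_
      rw [hD.w_symm, hD.K_symm]
    rw [a2]
    ring
  -- the new prediction
  have hnew : D.Yb (D.step S m lam ω) i =
      1 / 2 * (∑ z ∈ U, ∑ z' ∈ U, D.w i z z' * (1 + D.K z z')) +
      (∑ z ∈ U, ∑ c, D.nw S i z c * (D.step S m lam ω).v z c) +
      ∑ z ∈ U, ∑ z' ∈ B, D.w i z z' * (D.step S m lam ω).v z (ω z') := by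
    unfold Yb
    rw [Un_step, add_assoc]
    congr 1
    rw [← Finset.sum_add_distrib]
    refine Finset.sum_congr rfl fun z _ => ?_
    have b1 : ∑ z' ∈ B, D.w i z z' * (D.step S m lam ω).v z (ω z') =
        ∑ c, (∑ z' ∈ B, if ω z' = c then D.w i z z' else 0) * (D.step S m lam ω).v z c := by
      simp only [Finset.sum_mul]
      rw [Finset.sum_comm]
      refine Finset.sum_congr rfl fun z' _ => ?_
      have b2 : ∀ c, (if ω z' = c then D.w i z z' else 0) * (D.step S m lam ω).v z c =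
          if ω z' = c then D.w i z z' * (D.step S m lam ω).v z c else 0 := by
        intro c
        split_ifs <;> ring
      simp only [b2]
      rw [Finset.sum_ite_eq]
      simp
    rw [b1, ← Finset.sum_add_distrib]
    refine Finset.sum_congr rfl fun c _ => ?_
    rw [nw_step]
    ring
  have hoc : ∑ z ∈ U, ∑ c, D.nw S i z c * ((D.step S m lam ω).v z c - S.v z c) =
      (∑ z ∈ U, ∑ c, D.nw S i z c * (D.step S m lam ω).v z c) -
      ∑ z ∈ U, ∑ c, D.nw S i z c * S.v z c := by
    rw [← Finset.sum_sub_distrib]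
    refine Finset.sum_congr rfl fun z _ => ?_
    rw [← Finset.sum_sub_distrib]
    refine Finset.sum_congr rfl fun c _ => ?_
    ring
  rw [hoc] at h1
  -- pairs of selected vertices
  have hBB : |1 / 2 * (∑ z ∈ B, ∑ z' ∈ B, D.w i z z' * (1 + D.K z z'))| ≤
      D.T / 10000 * (D.gs i / D.T ^ 200 + D.T ^ 4 * D.gm i) := by
    rw [abs_mul, abs_of_pos (by norm_num : (0 : ℝ) < 1 / 2)]
    have c1 : |∑ z ∈ B, ∑ z' ∈ B, D.w i z z' * (1 + D.K z z')| ≤
        D.T / 10000 * ∑ z ∈ B, ∑ z' ∈ B, |D.w i z z'| := by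
      rw [Finset.mul_sum]
      refine (Finset.abs_sum_le_sum_abs _ _).trans (Finset.sum_le_sum fun z _ => ?_)
      rw [Finset.mul_sum]
      refine (Finset.abs_sum_le_sum_abs _ _).trans (Finset.sum_le_sum fun z' _ => ?_)
      have hK0 := K_ge hD z z'
      rw [abs_mul, abs_of_nonneg (by linarith : (0 : ℝ) ≤ 1 + D.K z z'), mul_comm]
      exact mul_le_mul_of_nonneg_right (one_add_K_le hD z z') (abs_nonneg _)
    have c2 := mul_le_mul_of_nonneg_left h6 (by positivity : (0 : ℝ) ≤ D.T / 10000)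
    have c3 : 0 ≤ |∑ z ∈ B, ∑ z' ∈ B, D.w i z z' * (1 + D.K z z')| := abs_nonneg _
    linarith
  -- collect
  rw [← hsB] at h2 h3 h5 h7
  have hmain : |D.Yb (D.step S m lam ω) i - (D.Yb S i - D.k * D.Rt lam (D.p S) S.col i)| ≤
      (D.er i / 10 + D.T ^ 2 * (D.er i / (10 * D.T ^ 3))) +
      (1 / D.T ^ 109 * sB + D.T ^ 2 * (sB / D.T ^ 100 + D.T ^ 4 * D.gm i)) +
      1 / (100 * D.T ^ 10) * sB + D.er i / 10 + 1 / D.T ^ 27 * sB +
      D.T / 10000 * (D.gs i / D.T ^ 200 + D.T ^ 4 * D.gm i) := by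
    rw [hold, hnew]
    rw [abs_le] at h1 h2 h3 h4 h5 hBB ⊢
    constructor
    · linarith [h1.1, h2.1, h3.1, h4.1, h5.1, hBB.1, h1.2, h2.2, h3.2, h4.2, h5.2, hBB.2]
    · linarith [h1.1, h2.1, h3.1, h4.1, h5.1, hBB.1, h1.2, h2.2, h3.2, h4.2, h5.2, hBB.2]
  refine hmain.trans ?_
  have her : D.er i = D.gs i / D.T ^ 190 + D.T ^ 170 * D.gm i +
    D.T ^ 30 * Real.sqrt (D.gm i * D.gs i) := rfl
  exact arith_Yb hD.big (gs_nonneg hD i) (hD.gm_nonneg i) (Real.sqrt_nonneg _)
    (t_pos hD hm.le).le hsB0 her (by linarith)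

end lam

/-! ## The initial value and the size of a quadratic test -/

theorem Yb_init (hD : D.Ok) (i : ι) : D.Yb (NState.init Q D.k) i =
    1 / 2 * ∑ z, ∑ z', D.w i z z' * (1 + D.K z z') := by
  have h1 : Un (NState.init Q D.k).col = (univ : Finset Q) := by
    ext z
    simp [Un, NState.init]
  have h2 : ∀ z c, D.nw (NState.init Q D.k) i z c = 0 := by
    intro z c
    unfold nw
    refine Finset.sum_eq_zero fun z' _ => ?_
    rw [if_neg]
    rintro ⟨r, hr⟩
    simp [NState.init] at hr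
  unfold Yb
  rw [h1]
  simp [h2]

theorem Yb_abs (hD : D.Ok) {S : NState Q D.k} {m : ℕ} (hI : D.Inv S m) (hm : m ≤ D.M) (i : ι) :
    |D.Yb S i| ≤ D.T * ∑ z ∈ Un S.col, D.g i z := by
  have hT := hD.big.pos
  have hg : 0 ≤ ∑ z ∈ Un S.col, D.g i z := Finset.sum_nonneg fun z _ => hD.g_nonneg i z
  have h1 : |∑ z ∈ Un S.col, ∑ z' ∈ Un S.col, D.w i z z' * (1 + D.K z z')| ≤
      D.T / 10000 * ∑ z ∈ Un S.col, D.g i z := by
    rw [Finset.mul_sum]
    refine (Finset.abs_sum_le_sum_abs _ _).trans (Finset.sum_le_sum fun z _ => ?_)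
    refine le_trans ?_ (mul_le_mul_of_nonneg_left (hD.w_row i z)
      (by positivity : (0 : ℝ) ≤ D.T / 10000))
    rw [Finset.mul_sum]
    refine (Finset.abs_sum_le_sum_abs _ _).trans ?_
    refine le_trans (Finset.sum_le_sum (g := fun z' => D.T / 10000 * |D.w i z z'|) fun z' _ => ?_)
      (Finset.sum_le_sum_of_subset_of_nonneg (Finset.subset_univ _)
        fun z' _ _ => by positivity)
    have hK0 := K_ge hD z z'
    rw [abs_mul, abs_of_nonneg (by linarith : (0 : ℝ) ≤ 1 + D.K z z'), mul_comm]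
    exact mul_le_mul_of_nonneg_right (one_add_K_le hD z z') (abs_nonneg _)
  have h2 : |∑ z ∈ Un S.col, ∑ c, D.nw S i z c * S.v z c| ≤
      D.T / 2 * ∑ z ∈ Un S.col, D.g i z := by
    rw [Finset.mul_sum]
    refine (Finset.abs_sum_le_sum_abs _ _).trans (Finset.sum_le_sum fun z _ => ?_)
    refine le_trans ?_ (mul_le_mul_of_nonneg_left (nw_sum hD hI hm i z)
      (by positivity : (0 : ℝ) ≤ D.T / 2))
    rw [Finset.mul_sum]
    refine (Finset.abs_sum_le_sum_abs _ _).trans (Finset.sum_le_sum fun c _ => ?_)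
    rw [abs_mul, mul_comm]
    refine mul_le_mul_of_nonneg_right ?_ (abs_nonneg _)
    have h3 := v_le' hD hI hm z c
    have h4 := v_lo' hD hI hm z c
    have h5 := hD.big.big
    rw [abs_le]
    constructor <;> linarith
  unfold Yb
  rw [abs_le] at h1 h2 ⊢
  constructor
  · nlinarith [h1.1, h2.1, h1.2, h2.2]
  · nlinarith [h1.1, h2.1, h1.2, h2.2]


end NibData

end

end Pool.Agent.AcyG
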