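import Pool.Agent.AcyG.AuxG
import Pool.Agent.AcyG.StepY
import Pool.Agent.AcyG.FBas
import Pool.Agent.AcyG.FLin
import Pool.Agent.AcyG.FDblA
import Pool.Agent.AcyG.FDblB
import Pool.Agent.AcyG.FSame
import Pool.Agent.AcyG.FSel

/-! # The firing process is an auxiliary process (row FT) -/

set_option autoImplicit false
set_option linter.unusedSectionVars false

namespace Pool.Agent.AcyG

open Finset
open Pool.Agent.Acy (IsPM wt Ex Pr mean)
open Pool.Agent.AcyK (Big StepOK LocOK prodLaw Un Sel updCol HasC SameC L1 C1 S2 C2)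
open scoped Classical

universe u v

section

variable {Q ι Lb Pi A B C : Type u} [Fintype Q] [DecidableEq Q] [Fintype ι] [DecidableEq ι]
  [Fintype Lb] [Fintype Pi] [Fintype A] [Fintype B] [Fintype C]

namespace Fire

variable {F : Fire Q ι Lb Pi A B C}

theorem not_fired_none {k : ℕ} (z z' : Q) : ¬ fired (fun _ : Q => (none : Option (Fin k × ℕ))) z z' := by
  rintro ⟨c, r, r', h, -⟩
  exact absurd h (by simp)

theorem inv_zero (hF : F.Ok) (lab : Q → Q → Lb) : F.FInv 0 (fun _ => none) (fun _ => False)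
    (F.D.Yb (NState.init Q F.D.k)) lab (fun _ _ => 0) := by
  have hL1 : ∀ (g : Q → ℝ) (c : Fin F.D.k), L1 (fun _ => none) g c = 0 := by
    intro g c
    unfold L1
    refine Finset.sum_eq_zero fun y _ => if_neg ?_
    rintro ⟨r, hr⟩
    exact absurd hr (by simp)
  have hC1 : ∀ (g : Q → ℝ), C1 (fun _ => (none : Option (Fin F.D.k × ℕ))) g = 0 := by
    intro g
    unfold C1
    simp
  have hS1 : ∀ w : Q → Q → Lb → ℝ,
      S1 (fun _ => (none : Option (Fin F.D.k × ℕ))) lab w = 0 := by
    intro w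
    unfold S1
    exact Finset.sum_eq_zero fun z _ => Finset.sum_eq_zero fun z' _ =>
      if_neg (not_fired_none z z')
  have hC1r : ∀ w : Q → Q → Lb → ℝ, F.C1r (fun _ _ => 0) w = 0 := by
    intro w
    unfold C1r
    simp
  refine ⟨?_, ?_, ?_, ?_, ?_, ?_, ?_, ?_, ?_, ?_, ?_, ?_, ?_, ?_, ?_, ?_⟩
  · intro z c r h
    exact absurd h (by simp)
  · intro z z'
    exact le_rfl
  · intro z z'
    exact rho_nonneg hF
  · intro z z' h
    exact absurd rfl h
  · intro i z c
    rw [hL1, hC1]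
    simp
  · intro P z c
    rw [hL1, hC1]
    simp
  · intro b z c
    rw [hL1, hC1]
    simp
  · intro i
    rw [hS1, hC1r]
    simp
  · intro b
    rw [hS1]
    simp
  · intro P
    rw [hC1r]
    simp
  · intro P
    unfold np
    rw [hS1]
    simp
  · intro i
    rw [NibData.Yb_init hF.dok i]
    have : F.D.sg 0 = 0 := by
      unfold NibData.sg
      simp
    rw [this]
    simp
  · intro b
    unfold S2 C2
    simp [SameC, HasC]
  · intro b
    unfold D2
    simp [not_fired_none]
  · intro i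
    simp
  · intro b
    simp [clash]

end Fire

namespace FRd

variable {E : FRd Q ι Lb Pi A B C}

theorem mem_L' {z : Q} : z ∈ E.L ↔ E.col z = none ∧ E.lam z = some true := by
  unfold L Sel
  simp

theorem nCol_L (ω : Q → E.Pick) {z : Q} (hz : z ∈ E.L) :
    E.nCol ω z = some ((ω z).1, E.m) := by
  unfold nCol updCol
  exact if_pos (mem_L'.1 hz)

theorem nCol_not (ω : Q → E.Pick) {z : Q} (hz : z ∉ E.L) : E.nCol ω z = E.col z := by
  unfold nCol updCol
  exact if_neg (fun h => hz (mem_L'.2 h))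

theorem nOk_L (ω : Q → E.Pick) {z : Q} (hz : z ∈ E.L) :
    E.nOk ω z ↔ ¬ E.bad z (ω z).1 := by
  unfold nOk updOk
  rw [if_pos (mem_L'.1 hz)]

theorem nOk_not (ω : Q → E.Pick) {z : Q} (hz : z ∉ E.L) : E.nOk ω z ↔ E.ok z := by
  unfold nOk updOk
  rw [if_neg (fun h => hz (mem_L'.2 h))]

theorem sumL (f : Q → ℝ) : ∑ z ∈ E.L, f z = ∑ z, if z ∈ E.L then f z else 0 := by
  rw [← Finset.sum_filter, Finset.filter_mem_eq_inter, Finset.univ_inter]

theorem not_L_of {z : Q} {e : Fin E.D.k × ℕ} (h : E.col z = some e) : z ∉ E.L := by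
  intro hz
  rw [(mem_L'.1 hz).1] at h
  exact absurd h (by simp)

section
variable (hE : E.Ok)
include hE

theorem ra_zero_L {z : Q} (hz : z ∈ E.L) (z' : Q) : E.ra z z' = 0 := by
  by_contra h
  obtain ⟨c, r, c', r', h1, -⟩ := hE.inv.ra_col z z' h
  exact not_L_of h1 hz

theorem rt_zero {z : Q} (hz : z ∉ E.L) (z' : Q) : E.rt z z' = 0 := if_neg hz

theorem clash_next (ω : Q → E.Pick) (z z' : Q) : Fire.clash (E.nCol ω) z z' ↔
    Fire.clash E.col z z' ∨ (z ∈ E.L ∧ z' ∈ E.L ∧ z ≠ z' ∧ (ω z).1 = (ω z').1) := by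
  unfold Fire.clash
  by_cases hz : z ∈ E.L
  · by_cases hz' : z' ∈ E.L
    · rw [nCol_L ω hz, nCol_L ω hz']
      constructor
      · rintro ⟨h, e, h1, h2⟩
        right
        refine ⟨hz, hz', h, ?_⟩
        rw [← h2] at h1
        simpa using h1
      · rintro (⟨h, e, h1, h2⟩ | ⟨-, -, h, h1⟩)
        · exact absurd hz (not_L_of h1)
        · exact ⟨h, _, rfl, by rw [h1]⟩
    · rw [nCol_L ω hz, nCol_not ω hz']
      constructor
      · rintro ⟨h, e, h1, h2⟩
        rw [← h1] at h2
        exact absurd (hE.inv.col_lt z' _ _ h2) (lt_irrefl _)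
      · rintro (⟨h, e, h1, h2⟩ | ⟨-, h, -⟩)
        · exact absurd hz (not_L_of h1)
        · exact absurd h hz'
  · by_cases hz' : z' ∈ E.L
    · rw [nCol_not ω hz, nCol_L ω hz']
      constructor
      · rintro ⟨h, e, h1, h2⟩
        rw [← h2] at h1
        exact absurd (hE.inv.col_lt z _ _ h1) (lt_irrefl _)
      · rintro (⟨h, e, h1, h2⟩ | ⟨h, -⟩)
        · exact absurd hz' (not_L_of h2)
        · exact absurd h hz
    · rw [nCol_not ω hz, nCol_not ω hz']
      constructor
      · exact fun h => Or.inl h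
      · rintro (h | ⟨h, -⟩)
        · exact h
        · exact absurd h hz

theorem raP_step (P : Pi) : ∑ z, mean E.law (E.Fw fun z z' l => E.af z z' l P) z ≤
    1 / E.D.T ^ 919 := by
  have hT := hE.fok.dok.big
  have hT0 := hT.pos
  have h1 : ∀ z, mean E.law (E.Fw fun z z' l => E.af z z' l P) z ≤
      if z ∈ E.L then E.rho * E.mA z P else 0 := by
    intro z
    rw [mean_Fw hE]
    by_cases hz : z ∈ E.L
    · rw [if_pos hz]
      unfold Fire.mA
      rw [Finset.mul_sum]
      refine Finset.sum_le_sum fun z' _ => ?_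
      exact mul_le_mul_of_nonneg_right (rt_le hE z z') (Fire.aa_nonneg hE.fok z z' P)
    · rw [if_neg hz]
      refine le_of_eq (Finset.sum_eq_zero fun z' _ => ?_)
      rw [rt_zero hE hz, zero_mul]
  calc ∑ z, mean E.law (E.Fw fun z z' l => E.af z z' l P) z
      ≤ ∑ z, (if z ∈ E.L then E.rho * E.mA z P else 0) := Finset.sum_le_sum fun z _ => h1 z
    _ = E.rho * ∑ z ∈ E.L, E.mA z P := by
        rw [← Finset.sum_filter, Finset.filter_mem_eq_inter, Finset.univ_inter, Finset.mul_sum]
    _ ≤ 1 / E.D.T ^ 3997 * E.D.T ^ 3078 := by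
        refine mul_le_mul (Fire.rho_le hE.fok) (hE.good.l3 P) ?_ (by positivity)
        refine Finset.sum_nonneg fun z _ => ?_
        unfold Fire.mA
        exact Finset.sum_nonneg fun z' _ => Fire.aa_nonneg hE.fok z z' P
    _ = 1 / E.D.T ^ 919 := by
        have h9 : (0 : ℝ) < E.D.T ^ 3078 := by positivity
        have e0 : E.D.T ^ 3997 = E.D.T ^ 919 * E.D.T ^ 3078 := by rw [← pow_add]
        rw [e0, ← div_div, div_mul_cancel₀ _ h9.ne']

theorem good_loc : LocOK 42010 E.D.T E.law E.Good := by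
  have hT := hE.fok.dok.big
  have h0 := LocOK.and hT (LocOK.and hT (loc_g0W hE) (loc_g0A hE))
    (LocOK.mono hT (loc_g0B hE) (by norm_num))
  have h1 := LocOK.and hT (LocOK.and hT (loc_g1 hE) (loc_g2 hE))
    (LocOK.and hT (loc_g3 hE) (loc_g4 hE))
  have h2 := LocOK.and hT (LocOK.and hT (loc_g5 hE) (loc_g6 hE))
    (LocOK.and hT (loc_g8 hE) (loc_g9 hE))
  have h5 := LocOK.mono hT (LocOK.and hT
    (LocOK.mono hT (LocOK.and hT (LocOK.mono hT h1 (show _ ≤ 30002 by norm_num)) h2)
      (show _ ≤ 42004 by norm_num))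
    (LocOK.mono hT (LocOK.and hT (LocOK.mono hT h0 (show _ ≤ 42003 by norm_num))
      (LocOK.mono hT (loc_g7 hE) (by norm_num)))
      (show _ ≤ 42004 by norm_num))) (show 42004 + 1 ≤ 42010 by norm_num)
  obtain ⟨κ, hκ, EE, S', hd, hp, hs, hi, hg⟩ := h5
  refine ⟨κ, hκ, EE, S', hd, hp, hs, hi, fun ω hEE => ?_⟩
  obtain ⟨⟨⟨⟨a1, a2⟩, a3, a4⟩, ⟨a5, a6⟩, a8, a9⟩, ⟨⟨a0, a0'⟩, a0''⟩, a7⟩ := hg ω hEE
  exact ⟨a0, a0', a0'', a1, a2, a3, a4, a5, a6, a7, a8, a9⟩

theorem finv_next (ω : Q → E.Pick) (hG : E.Good ω) {Y' : ι → ℝ}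
    (hY : ∀ i, |Y' i - (E.Y i - E.D.k * E.D.Rt E.lam E.p E.col i)| ≤
      E.D.t E.m * E.D.gs i / E.D.T ^ 10 + E.D.er i) :
    E.toFire.FInv (E.m + 1) (E.nCol ω) (E.nOk ω) Y' (E.nLab ω) E.nRa := by
  have hT := hE.fok.dok.big
  have hT0 := hT.pos
  have hI := hE.inv
  refine ⟨?_, ?_, ?_, ?_, ?_, ?_, ?_, ?_, ?_, ?_, ?_, ?_, ?_, ?_, ?_, ?_⟩
  · intro z c r h
    by_cases hz : z ∈ E.L
    · rw [nCol_L ω hz] at h
      have := (Prod.mk.inj (Option.some.inj h)).2
      omega
    · rw [nCol_not ω hz] at h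
      exact (hI.col_lt z c r h).trans (Nat.lt_succ_self _)
  · intro z z'
    rw [nRa_eq hE]
    exact add_nonneg (hI.ra_nonneg z z') (rt_nonneg hE z z')
  · intro z z'
    rw [nRa_eq hE]
    by_cases hz : z ∈ E.L
    · rw [ra_zero_L hE hz, zero_add]
      exact rt_le hE z z'
    · rw [rt_zero hE hz, add_zero]
      exact hI.ra_le z z'
  · intro z z' h
    by_cases hz : z ∈ E.L
    · have h1 : E.rt z z' ≠ 0 := by
        rw [nRa_eq hE, ra_zero_L hE hz, zero_add] at h
        exact h
      unfold rt at h1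
      rw [if_pos hz] at h1
      obtain ⟨c, -, hc⟩ := Finset.exists_ne_zero_of_sum_ne_zero h1
      have hc' : HasC E.col z' c := by
        by_contra hn
        exact hc (if_neg hn)
      obtain ⟨r', hr'⟩ := hc'
      refine ⟨(ω z).1, E.m, c, r', nCol_L ω hz, ?_, hI.col_lt z' c r' hr'⟩
      rw [nCol_not ω (not_L_of hr')]
      exact hr'
    · have h1 : E.ra z z' ≠ 0 := by
        rw [nRa_eq hE, rt_zero hE hz, add_zero] at h
        exact h
      obtain ⟨c, r, c', r', h2, h3, h4⟩ := hI.ra_col z z' h1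
      exact ⟨c, r, c', r', by rw [nCol_not ω (not_L_of h2)]; exact h2,
        by rw [nCol_not ω (not_L_of h3)]; exact h3, h4⟩
  · exact fun i z c => by
      have := hG.g0W i z c
      exact_mod_cast this
  · exact fun P z c => by
      have := hG.g0A P z c
      exact_mod_cast this
  · exact fun b z c => by
      have := hG.g0B b z c
      exact_mod_cast this
  · intro i
    rw [S1_next hE, C1r_next hE]
    have h1 := hI.lin i
    have h2 := hG.g1 i
    have e : Fire.S1 E.col E.lab (E.W i) + ∑ z, E.Fw (E.W i) z (ω z) -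
        (E.toFire.C1r E.ra (E.W i) + ∑ z, mean E.law (E.Fw (E.W i)) z) =
        (Fire.S1 E.col E.lab (E.W i) - E.toFire.C1r E.ra (E.W i)) +
          ∑ z, (E.Fw (E.W i) z (ω z) - mean E.law (E.Fw (E.W i)) z) := by
      rw [Finset.sum_sub_distrib]
      ring
    rw [e]
    refine (abs_add_le _ _).trans ?_
    push_cast
    linarith
  · intro b
    rw [S1_next hE]
    have h1 := hI.linB b
    have h2 := hG.g2 b
    push_cast
    linarith
  · intro P
    rw [C1r_next hE]
    have h1 := hI.raP P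
    have h2 := raP_step hE P
    push_cast
    rw [add_div]
    linarith
  · intro P
    unfold Fire.np
    rw [S1_next hE]
    have h1 := hI.npP P
    unfold Fire.np at h1
    have h2 := hG.g3 P
    push_cast
    linarith
  · intro i
    have h1 := hI.quad i
    have h2 := hY i
    have h3 : ∑ z, ∑ z', E.nRa z z' * E.D.w i z z' =
        ∑ z, ∑ z', E.ra z z' * E.D.w i z z' + E.D.Rt E.lam E.p E.col i := by
      rw [Rt_eq hE, ← Finset.sum_add_distrib]
      refine Finset.sum_congr rfl fun z _ => ?_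
      rw [← Finset.sum_add_distrib]
      refine Finset.sum_congr rfl fun z' _ => ?_
      rw [nRa_eq hE, add_mul]
    have h4 : E.D.sg (E.m + 1) = E.D.sg E.m + E.D.t E.m := NibData.sg_succ hE.fok.dok E.m
    rw [h3, h4]
    have e : Y' i - (1 / 2 * (∑ z, ∑ z', E.D.w i z z' * (1 + E.D.K z z')) -
        E.D.k * (∑ z, ∑ z', E.ra z z' * E.D.w i z z' + E.D.Rt E.lam E.p E.col i)) =
        (Y' i - (E.Y i - E.D.k * E.D.Rt E.lam E.p E.col i)) +
        (E.Y i - (1 / 2 * (∑ z, ∑ z', E.D.w i z z' * (1 + E.D.K z z')) -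
          E.D.k * ∑ z, ∑ z', E.ra z z' * E.D.w i z z')) := by ring
    rw [e]
    refine (abs_add_le _ _).trans ?_
    push_cast
    have e2 : (E.D.sg E.m + E.D.t E.m) * E.D.gs i / E.D.T ^ 10 =
        E.D.sg E.m * E.D.gs i / E.D.T ^ 10 + E.D.t E.m * E.D.gs i / E.D.T ^ 10 := by ring
    rw [e2]
    linarith
  · exact fun b => by
      have := hG.g7 b
      exact_mod_cast this
  · intro b
    rw [D2_next hE]
    have h0 := hI.dbl b
    have h1 := hG.g4 b
    have h2 := hG.g5 b
    have h3 := hG.g6 b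
    push_cast
    linarith
  · intro i
    have h0 := hI.fail i
    have h1 := hG.g8 i
    have e1 : (∑ z, if E.nCol ω z ≠ none ∧ ¬ E.nOk ω z then E.D.g i z else 0) =
        (∑ z, if E.col z ≠ none ∧ ¬ E.ok z then E.D.g i z else 0) +
          ∑ z ∈ E.L, if E.bad z (ω z).1 then E.D.g i z else 0 := by
      rw [sumL, ← Finset.sum_add_distrib]
      refine Finset.sum_congr rfl fun z _ => ?_
      by_cases hz : z ∈ E.L
      · rw [nCol_L ω hz, (mem_L'.1 hz).1, if_pos hz, nOk_L ω hz]
        simp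
      · rw [nCol_not ω hz, if_neg hz, add_zero, nOk_not ω hz]
    have e2 : (∑ z, if E.nCol ω z ≠ none then E.D.g i z else 0) =
        (∑ z, if E.col z ≠ none then E.D.g i z else 0) + ∑ z ∈ E.L, E.D.g i z := by
      rw [sumL, ← Finset.sum_add_distrib]
      refine Finset.sum_congr rfl fun z _ => ?_
      by_cases hz : z ∈ E.L
      · rw [nCol_L ω hz, (mem_L'.1 hz).1, if_pos hz]
        simp
      · rw [nCol_not ω hz, if_neg hz, add_zero]
    rw [e1, e2]
    push_cast
    linarith
  · intro b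
    have h0 := hI.eq b
    have h1 := hG.g9 b
    have e1 : (∑ z, ∑ z', if Fire.clash (E.nCol ω) z z' then E.cw b z z' else 0) =
        (∑ z, ∑ z', if Fire.clash E.col z z' then E.cw b z z' else 0) +
          ∑ z ∈ E.L, ∑ z' ∈ E.L, if z ≠ z' ∧ (ω z).1 = (ω z').1 then E.cw b z z' else 0 := by
      rw [sumL, ← Finset.sum_add_distrib]
      refine Finset.sum_congr rfl fun z _ => ?_
      by_cases hz : z ∈ E.L
      · rw [if_pos hz, sumL, ← Finset.sum_add_distrib]
        refine Finset.sum_congr rfl fun z' _ => ?_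
        have hc : ¬ Fire.clash E.col z z' := by
          rintro ⟨-, e, h2, -⟩
          exact not_L_of h2 hz
        rw [if_neg hc, zero_add]
        by_cases hz' : z' ∈ E.L
        · rw [if_pos hz']
          refine if_congr ?_ rfl rfl
          rw [clash_next hE]
          constructor
          · rintro (h | ⟨-, -, h⟩)
            · exact absurd h hc
            · exact h
          · exact fun h => Or.inr ⟨hz, hz', h⟩
        · rw [if_neg hz', if_neg]
          rw [clash_next hE]
          rintro (h | ⟨-, h, -⟩)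
          · exact hc h
          · exact hz' h
      · rw [if_neg hz, add_zero]
        refine Finset.sum_congr rfl fun z' _ => if_congr ?_ rfl rfl
        rw [clash_next hE]
        constructor
        · rintro (h | ⟨h, -⟩)
          · exact h
          · exact absurd h hz
        · exact fun h => Or.inl h
    rw [e1]
    push_cast
    linarith

end

end FRd

namespace Fire

variable {F : Fire Q ι Lb Pi A B C}

/-- The firing process is an auxiliary process. -/
theorem fire_aux (hF : F.Ok) : NibData.AuxLoc 42010 F.D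
    (fun m col ok Y (s : (Q → Q → Lb) × (Q → Q → ℝ)) => F.FInv m col ok Y s.1 s.2) := by
  intro m hm col ok Y s hs hcard
  refine ⟨F.GoodL col, LocOK.mono hF.dok.big (loc_sel hF hm col) (by norm_num), ?_⟩
  intro lam hlam hdev p bad hp hple hbad _
  let E : FRd Q ι Lb Pi A B C := { F with
    m := m, col := col, ok := ok, Y := Y, lab := s.1, ra := s.2, lam := lam, p := p, bad := bad }
  have hE : E.Ok := ⟨hF, hm, hs, hlam, hdev, hp, hple, hbad⟩
  refine ⟨Q → Lb, inferInstance, F.nu, fun ω => (E.nLab ω, E.nRa), nu_isPM hF, ?_⟩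
  obtain ⟨κ, hκ, EE, S', hd, hp', hs', hi, hg⟩ := FRd.good_loc hE
  refine ⟨κ, hκ, EE, S', hd, hp', hs', hi, fun ω hEE => ?_⟩
  intro Y' hY'
  exact FRd.finv_next hE ω (hg ω hEE) hY'

end Fire

end

end Pool.Agent.AcyG
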