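import Pool.Agent.AcyG.LamB
import Pool.Agent.AcyG.BasicC

/-! # One round: the pointwise invariants (module SA) -/

set_option autoImplicit false
set_option linter.unusedSectionVars false

namespace Pool.Agent.AcyG

open Finset
open Pool.Agent.Acy (IsPM wt Ex Pr mean)
open Pool.Agent.AcyK (Big StepOK prodLaw Un Sel updCol)
open scoped Classical

universe u v

section

variable {Q ι : Type u} [Fintype Q] [DecidableEq Q] [Fintype ι] [DecidableEq ι]

namespace NibData

variable {D : NibData Q ι}

/-- The case distinction for the picks of a colour. -/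
theorem stepA_pk_cases (hD : D.Ok) (S : NState Q D.k) (lam : Q → Option Bool) (ω : Q → Fin D.k)
    (x : Q) (c : Fin D.k) (hJ : D.J S lam ω x c ≤ 1) :
    (D.pk S lam ω x c = 0 ∧ D.hk S lam ω x c = 0) ∨
      ∃ u ∈ D.LL S lam, ω u = c ∧ D.pk S lam ω x c = D.K u x ∧
        D.hk S lam ω x c = D.h u x := by
  rcases Nat.le_one_iff_eq_zero_or_eq_one.mp hJ with h | h
  · exact Or.inl (pk_zero S lam ω hD x c h)
  · obtain ⟨u, h1, h2, -, h3, h4⟩ := pk_one S lam ω hD x c h
    exact Or.inr ⟨u, h1, h2, h3, h4⟩

section step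

variable (hD : D.Ok) {S : NState Q D.k} {m : ℕ} (hI : D.Inv S m) (hm : m < D.M)
  {lam : Q → Option Bool} (hA : D.GoodA S m lam) (ω : Q → Fin D.k)
include hD hI hm hA

theorem step_al_pos (x : Q) (c : Fin D.k) (h : (D.step S m lam ω).al x c) :
    0 < (D.step S m lam ω).v x c := by
  obtain ⟨hal, hJ, hK, -, -, -⟩ := h
  have hv := hI.al_pos x c hal
  have h1 := (abs_le.mp (cmp_abs hD hI hm hA x c)).2
  have h2 := hD.big.small (n := 110) (by norm_num)
  have h3 : (D.step S m lam ω).v x c =
      S.v x c * (1 + D.pk S lam ω x c - D.cmp S lam x c) := by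
    simp only [step, if_pos hal, if_pos hJ]
  rw [h3]
  apply mul_pos hv
  rcases stepA_pk_cases hD S lam ω x c hJ with ⟨h4, -⟩ | ⟨u, hu, hc, h4, -⟩
  · rw [h4]; linarith
  · rw [h4]
    rcases hD.K_cases u x with h5 | h5
    · exact absurd h5 (hK u hu hc)
    · have hT0 : (0 : ℝ) < D.T := hD.big.pos
      have e1 : 1 / D.T ^ 110 ≤ 1 / D.T ^ 2 := hD.big.ipw (by norm_num)
      have e2 := hD.big.small (n := 1) (by norm_num)
      have e3 : 1 / D.T ^ 2 = 1 / D.T * (1 / D.T ^ 1) := by
        rw [pow_one, div_mul_div_comm, one_mul, pow_two]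
      have e4 : 0 < 1 / D.T := by positivity
      have e5 : 1 / D.T * (1 / D.T ^ 1) ≤ 1 / D.T * (1 / 1000000) :=
        mul_le_mul_of_nonneg_left e2 e4.le
      linarith

theorem step_v_lo (x : Q) (c : Fin D.k) : -(1 / D.T ^ 100) ≤ (D.step S m lam ω).v x c := by
  have hT1 : (1 : ℝ) ≤ D.T := hD.big.one_le
  have hT0 : (0 : ℝ) < D.T := hD.big.pos
  by_cases hal : S.al x c
  · by_cases hJ : D.J S lam ω x c ≤ 1
    · have h3 : (D.step S m lam ω).v x c =
          S.v x c * (1 + D.pk S lam ω x c - D.cmp S lam x c) := by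
        simp only [step, if_pos hal, if_pos hJ]
      rw [h3]
      have hv := hI.al_pos x c hal
      have hvT := v_le hD hI hm.le x c
      have h1 := (abs_le.mp (cmp_abs hD hI hm hA x c)).2
      have h4 : -1 ≤ D.pk S lam ω x c := by
        rcases stepA_pk_cases hD S lam ω x c hJ with ⟨h4, -⟩ | ⟨u, hu, hc, h4, -⟩
        · rw [h4]; norm_num
        · rw [h4]
          exact K_ge hD u x
      have h5 : S.v x c * (-(1 / D.T ^ 110)) ≤
          S.v x c * (1 + D.pk S lam ω x c - D.cmp S lam x c) :=
        mul_le_mul_of_nonneg_left (by linarith) hv.le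
      have h6 : S.v x c * (1 / D.T ^ 110) ≤ 1 / D.T ^ 100 := by
        calc S.v x c * (1 / D.T ^ 110) ≤ D.T * (1 / D.T ^ 110) :=
              mul_le_mul_of_nonneg_right hvT (by positivity)
          _ = 1 / D.T ^ 109 := by field_simp
          _ ≤ 1 / D.T ^ 100 := hD.big.ipw (by norm_num)
      linarith
    · have h3 : (D.step S m lam ω).v x c = 0 := by
        simp only [step, if_pos hal, if_neg hJ]
      rw [h3]
      have : 0 < 1 / D.T ^ 100 := by positivity
      linarith
  · have h3 : (D.step S m lam ω).v x c = S.v x c := by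
      simp only [step, if_neg hal]
    rw [h3]
    exact hI.v_lo x c

theorem step_v_hi (x : Q) (c : Fin D.k) : (D.step S m lam ω).v x c ≤
    Real.exp (Real.log D.T / 10 * (D.step S m lam ω).bz x c +
      2 * (D.step S m lam ω).ac 0 x c) := by
  by_cases hal : S.al x c
  · by_cases hJ : D.J S lam ω x c ≤ 1
    · have h3 : (D.step S m lam ω).v x c =
          S.v x c * (1 + D.pk S lam ω x c - D.cmp S lam x c) := by
        simp only [step, if_pos hal, if_pos hJ]
      have h4 : (D.step S m lam ω).bz x c = S.bz x c + D.hk S lam ω x c := by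
        simp only [step, if_pos (And.intro hal hJ)]
      have h5 : (D.step S m lam ω).ac 0 x c = S.ac 0 x c + D.dac S lam 0 x c := by
        simp only [step, if_pos hal]
      rw [h3, h4, h5]
      have hv := hI.al_pos x c hal
      have h6 : Real.exp (Real.log D.T / 10 * (S.bz x c + D.hk S lam ω x c) +
          2 * (S.ac 0 x c + D.dac S lam 0 x c)) =
          Real.exp (Real.log D.T / 10 * S.bz x c + 2 * S.ac 0 x c) *
            (Real.exp (Real.log D.T / 10 * D.hk S lam ω x c) *
              Real.exp (2 * D.dac S lam 0 x c)) := by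
        rw [← Real.exp_add, ← Real.exp_add]
        congr 1
        ring
      rw [h6]
      have hcmp := cmp_lo hD hI hm hA x c
      have hdac := dac_nonneg hD hI hm hA 0 x c
      have hlog : 0 < Real.log D.T := hD.big.log_pos
      have h7 : 1 + D.pk S lam ω x c - D.cmp S lam x c ≤
          Real.exp (Real.log D.T / 10 * D.hk S lam ω x c) *
            Real.exp (2 * D.dac S lam 0 x c) := by
        have h8 : 1 + 2 * D.dac S lam 0 x c ≤ Real.exp (2 * D.dac S lam 0 x c) := by
          have := Real.add_one_le_exp (2 * D.dac S lam 0 x c)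
          linarith
        have key : ∀ P H : ℝ, (P ≤ 0 ∧ 0 ≤ H ∨ 0 ≤ P ∧ 1 + P ≤ Real.exp (Real.log D.T / 10 * H)) →
            1 + P - D.cmp S lam x c ≤
              Real.exp (Real.log D.T / 10 * H) * Real.exp (2 * D.dac S lam 0 x c) := by
          intro P H hPH
          have h9 : 1 ≤ Real.exp (Real.log D.T / 10 * H) := by
            rcases hPH with ⟨-, hH⟩ | ⟨hP, hPe⟩
            · exact Real.one_le_exp (by positivity)
            · linarith
          have h10 : 1 + P ≤ Real.exp (Real.log D.T / 10 * H) := by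
            rcases hPH with ⟨hP, -⟩ | ⟨-, hPe⟩
            · linarith
            · exact hPe
          calc 1 + P - D.cmp S lam x c ≤ Real.exp (Real.log D.T / 10 * H) +
                2 * D.dac S lam 0 x c := by linarith
            _ ≤ Real.exp (Real.log D.T / 10 * H) * (1 + 2 * D.dac S lam 0 x c) := by
                nlinarith
            _ ≤ _ := mul_le_mul_of_nonneg_left h8 (by linarith)
        apply key
        rcases stepA_pk_cases hD S lam ω x c hJ with ⟨h9, h10⟩ | ⟨u, hu, hc, h9, h10⟩
        · left; rw [h9, h10]; exact ⟨le_rfl, le_rfl⟩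
        · rw [h9, h10]
          by_cases hK : D.K u x ≤ 0
          · left; exact ⟨hK, hD.h_nonneg u x⟩
          · right
            push Not at hK
            exact ⟨hK.le, hD.K_exp u x (by linarith)⟩
      exact (mul_le_mul_of_nonneg_left h7 hv.le).trans
        (mul_le_mul_of_nonneg_right (hI.v_hi x c) (by positivity))
    · have h3 : (D.step S m lam ω).v x c = 0 := by
        simp only [step, if_pos hal, if_neg hJ]
      rw [h3]
      positivity
  · have h3 : (D.step S m lam ω).v x c = S.v x c := by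
      simp only [step, if_neg hal]
    have h4 : (D.step S m lam ω).bz x c = S.bz x c := by
      simp only [step, if_neg (fun h : S.al x c ∧ D.J S lam ω x c ≤ 1 => hal h.1)]
    have h5 : (D.step S m lam ω).ac 0 x c = S.ac 0 x c := by
      simp only [step, if_neg hal]
    rw [h3, h4, h5]
    exact hI.v_hi x c

theorem step_bz_nonneg (x : Q) (c : Fin D.k) : 0 ≤ (D.step S m lam ω).bz x c := by
  have h1 := hI.bz_nonneg x c
  have h2 := hk_nonneg S lam ω hD x c
  simp only [step]
  split_ifs
  · linarith
  · exact h1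

theorem step_bz_le (x : Q) (c : Fin D.k) : (D.step S m lam ω).bz x c ≤ 2 := by
  by_cases h : S.al x c ∧ D.J S lam ω x c ≤ 1
  · have h4 : (D.step S m lam ω).bz x c = S.bz x c + D.hk S lam ω x c := by
      simp only [step, if_pos h]
    rw [h4]
    have h1 := hI.bz_al x c h.1
    have h2 := hk_le S lam ω hD x c
    have h3 : (D.J S lam ω x c : ℝ) ≤ 1 := by exact_mod_cast h.2
    linarith
  · have h4 : (D.step S m lam ω).bz x c = S.bz x c := by
      simp only [step, if_neg h]
    rw [h4]
    exact hI.bz_le x c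

theorem step_bz_al (x : Q) (c : Fin D.k) (h : (D.step S m lam ω).al x c) :
    (D.step S m lam ω).bz x c ≤ 1 := by
  obtain ⟨hal, hJ, -, hb, -, -⟩ := h
  have h4 : (D.step S m lam ω).bz x c = S.bz x c + D.hk S lam ω x c := by
    simp only [step, if_pos (And.intro hal hJ)]
  rw [h4]
  exact hb

theorem step_ac_nonneg (b : Fin 3) (x : Q) (c : Fin D.k) :
    0 ≤ (D.step S m lam ω).ac b x c := by
  have h1 := hI.ac_nonneg b x c
  have h2 := dac_nonneg hD hI hm hA b x c
  simp only [step]
  split_ifs
  · linarith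
  · exact h1

omit ω in
/-- The accumulated hazard of an alive pair after the round. -/
theorem stepA_ac_add_dac_le (b : Fin 3) (x : Q) (c : Fin D.k) (hal : S.al x c) :
    S.ac b x c + D.dac S lam b x c ≤ 2 / D.k * (∑ y, D.a b x y) + 1 / 1000 := by
  have hT1 : (1 : ℝ) ≤ D.T := hD.big.one_le
  have hT0 : (0 : ℝ) < D.T := hD.big.pos
  have hk : (0 : ℝ) < D.k := k_pos' hD
  have h1 := hI.pred b x c hal
  have h2 := dac_add_le hD hI hm hA b x c hal
  have h3 := Nf1_lo hD hI hm hA b x c
  have h4 : (m : ℝ) / D.T ^ 180 ≤ 1 / D.T ^ 30 := by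
    have h5 : (m : ℝ) ≤ D.T ^ 150 := by
      have : (m : ℝ) ≤ D.M := by exact_mod_cast hm.le
      exact this.trans (M_le_T hD)
    calc (m : ℝ) / D.T ^ 180 ≤ D.T ^ 150 / D.T ^ 180 :=
          div_le_div_of_nonneg_right h5 (by positivity)
      _ = 1 / D.T ^ 30 := by
          rw [div_eq_div_iff (by positivity) (by positivity)]
          ring
  have h6 : 6 * D.T ^ 3 / D.k * S.pd x c ≤ 6 * (1 / D.T ^ 17) := by
    calc 6 * D.T ^ 3 / D.k * S.pd x c ≤ 6 * D.T ^ 3 / D.k * (D.k / D.T ^ 20) :=
          mul_le_mul_of_nonneg_left (hI.pd_al x c hal) (by positivity)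
      _ = 6 * (1 / D.T ^ 17) := by
          field_simp
  have h7 : D.sg m / D.T ^ 20 ≤ 1 / D.T ^ 19 := by
    have h8 : D.sg m ≤ D.T := by
      have := sg_le hD hm.le
      linarith
    calc D.sg m / D.T ^ 20 ≤ D.T / D.T ^ 20 :=
          div_le_div_of_nonneg_right h8 (by positivity)
      _ = 1 / D.T ^ 19 := by field_simp
  have h9 : D.t m / D.T ^ 20 ≤ 1 / D.T ^ 133 := by
    have h10 := t_le hD hm.le
    have h11 := (t_pos hD hm.le).le
    calc D.t m / D.T ^ 20 ≤ D.t m / 1 :=
          div_le_div_of_nonneg_left h11 one_pos (one_le_pow₀ hT1)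
      _ = D.t m := div_one _
      _ ≤ _ := h10
  have e1 := hD.big.small (n := 30) (by norm_num)
  have e2 := hD.big.small (n := 17) (by norm_num)
  have e3 := hD.big.small (n := 60) (by norm_num)
  have e4 := hD.big.small (n := 200) (by norm_num)
  have e5 := hD.big.small (n := 19) (by norm_num)
  have e6 := hD.big.small (n := 133) (by norm_num)
  linarith

theorem step_ac_le (b : Fin 3) (x : Q) (c : Fin D.k) :
    (D.step S m lam ω).ac b x c ≤ Real.log D.T / 20 := by
  by_cases hal : S.al x c
  · have h5 : (D.step S m lam ω).ac b x c = S.ac b x c + D.dac S lam b x c := by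
      simp only [step, if_pos hal]
    rw [h5]
    have h1 := stepA_ac_add_dac_le hD hI hm hA b x c hal
    have hk : (0 : ℝ) < D.k := k_pos' hD
    have h2 : 2 / D.k * (∑ y, D.a b x y) ≤ Real.log D.T / 40 := by
      calc 2 / D.k * (∑ y, D.a b x y) ≤ 2 / D.k * (Real.log D.T / 80 * D.k) :=
            mul_le_mul_of_nonneg_left (hD.a_sum b x) (by positivity)
        _ = Real.log D.T / 40 := by field_simp; ring
    have h3 : 1 ≤ Real.log D.T := by
      rw [Real.le_log_iff_exp_le hD.big.pos]
      exact (Real.exp_one_lt_d9.le.trans (by norm_num)).trans hD.big.big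
    linarith
  · have h5 : (D.step S m lam ω).ac b x c = S.ac b x c := by
      simp only [step, if_neg hal]
    rw [h5]
    exact hI.ac_le b x c

theorem step_ac_two (x : Q) (c : Fin D.k) :
    (D.step S m lam ω).ac 2 x c ≤ 1 / 50 := by
  by_cases hal : S.al x c
  · have h5 : (D.step S m lam ω).ac 2 x c = S.ac 2 x c + D.dac S lam 2 x c := by
      simp only [step, if_pos hal]
    rw [h5]
    have h1 := stepA_ac_add_dac_le hD hI hm hA 2 x c hal
    have hk : (0 : ℝ) < D.k := k_pos' hD
    have h2 : 2 / D.k * (∑ y, D.a 2 x y) ≤ 1 / 100 := by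
      calc 2 / D.k * (∑ y, D.a 2 x y) ≤ 2 / D.k * (D.k / 200) :=
            mul_le_mul_of_nonneg_left (hD.a_sum2 x) (by positivity)
        _ = 1 / 100 := by field_simp; norm_num
    linarith
  · have h5 : (D.step S m lam ω).ac 2 x c = S.ac 2 x c := by
      simp only [step, if_neg hal]
    rw [h5]
    exact hI.ac_two x c

theorem step_pd_nonneg (x : Q) (c : Fin D.k) : 0 ≤ (D.step S m lam ω).pd x c := by
  have h1 := hI.pd_nonneg x c
  have h2 := dbl_nonneg (D := D) S lam ω x c
  simp only [step]
  split_ifs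
  · linarith
  · exact h1

theorem step_pd_al (x : Q) (c : Fin D.k) (h : (D.step S m lam ω).al x c) :
    (D.step S m lam ω).pd x c ≤ D.k / D.T ^ 20 := by
  obtain ⟨hal, -, -, -, hp, -⟩ := h
  have h4 : (D.step S m lam ω).pd x c = S.pd x c + D.dbl S lam ω x c := by
    simp only [step, if_pos hal]
  rw [h4]
  exact hp

theorem step_sep (x : Q) (c : Fin D.k) (h : (D.step S m lam ω).al x c) (u : Q) (r : ℕ)
    (hc : (D.step S m lam ω).col u = some (c, r)) :
    D.K u x ≠ -1 ∧ (¬ (D.step S m lam ω).fb x c → ¬ D.sp u x) := by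
  obtain ⟨hal, hJ, hK, hb, -, -⟩ := h
  have hc' : updCol m S.col lam ω u = some (c, r) := hc
  by_cases h1 : S.col u = none ∧ lam u = some true
  · rw [updCol, if_pos h1] at hc'
    have hω : ω u = c := by
      have := Option.some.inj hc'
      exact (Prod.mk.inj this).1
    have hu : u ∈ D.LL S lam := by
      simp only [LL, Finset.mem_filter, Finset.mem_univ, true_and]
      exact ⟨h1.1, by rw [h1.2]; exact Option.some_ne_none _⟩
    refine ⟨hK u hu hω, ?_⟩
    intro hfb hsp
    apply hfb
    exact Or.inr ⟨hal, u, hu, hω, hsp⟩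
  · rw [updCol, if_neg h1] at hc'
    have h2 := hI.sep x c hal u r hc'
    refine ⟨h2.1, ?_⟩
    intro hfb
    exact h2.2 fun h3 => hfb (Or.inl h3)

theorem step_col_lt (u : Q) (c : Fin D.k) (r : ℕ)
    (hc : (D.step S m lam ω).col u = some (c, r)) : r < m + 1 := by
  have hc' : updCol m S.col lam ω u = some (c, r) := hc
  by_cases h1 : S.col u = none ∧ lam u = some true
  · rw [updCol, if_pos h1] at hc'
    have : m = r := (Prod.mk.inj (Option.some.inj hc')).2
    omega
  · rw [updCol, if_neg h1] at hc'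
    have := hI.col_lt u c r hc'
    omega

theorem step_col_ok (u y : Q) (c : Fin D.k) (r r' : ℕ)
    (hu : (D.step S m lam ω).col u = some (c, r)) (hy : (D.step S m lam ω).col y = some (c, r'))
    (hr : r < r') (hok : (D.step S m lam ω).ok y) : D.K u y ≠ -1 ∧ ¬ D.sp u y := by
  have hr' := step_col_lt hD hI hm hA ω y c r' hy
  have hu' : updCol m S.col lam ω u = some (c, r) := hu
  have hy' : updCol m S.col lam ω y = some (c, r') := hy
  have hok' : updOk S.col S.ok lam (D.bad S) ω y := hok
  have hu1 : ¬ (S.col u = none ∧ lam u = some true) := by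
    intro h1
    rw [updCol, if_pos h1] at hu'
    have : m = r := (Prod.mk.inj (Option.some.inj hu')).2
    omega
  rw [updCol, if_neg hu1] at hu'
  by_cases h1 : S.col y = none ∧ lam y = some true
  · rw [updCol, if_pos h1] at hy'
    have hω : ω y = c := (Prod.mk.inj (Option.some.inj hy')).1
    rw [updOk, if_pos h1, hω] at hok'
    have h2 : S.al y c ∧ ¬ S.fb y c := by
      unfold bad at hok'
      tauto
    have h3 := hI.sep y c h2.1 u r hu'
    exact ⟨h3.1, h3.2 h2.2⟩
  · rw [updCol, if_neg h1] at hy'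
    rw [updOk, if_neg h1] at hok'
    exact hI.col_ok u y c r r' hu' hy' hr hok'

end step

end NibData

end

end Pool.Agent.AcyG
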