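import Pool.Agent.AcyG.Defs
import Pool.Agent.AcyG.BasicA
import Pool.Agent.AcyG.BasicC
import Pool.Agent.AcyG.LamB

/-! # One round: the forbidden budget and the size budget (row GSD) -/

set_option autoImplicit false
set_option linter.unusedSectionVars false

namespace Pool.Agent.AcyG

open Finset
open Pool.Agent.Acy (IsPM wt Ex Pr mean)
open Pool.Agent.AcyK (Big StepOK prodLaw Un Sel updCol)
open scoped Classical

universe u

namespace NibData

variable {Q ι : Type u} [Fintype Q] [DecidableEq Q] [Fintype ι] [DecidableEq ι] {D : NibData Q ι}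

theorem stD_k_div (hD : D.Ok) (m n : ℕ) (h : m + n ≤ 3999) : D.T ^ m ≤ D.k / D.T ^ n := by
  have h1 := hD.big.one_le
  have h0 := hD.big.pos
  rw [le_div_iff₀ (by positivity), ← pow_add]
  exact (pow_le_pow_right₀ h1 h).trans hD.k_lo

theorem stD_T_ge (hD : D.Ok) : (1000000 : ℝ) ≤ D.T := by
  have := hD.big.big
  norm_num at this
  exact this

/-- At least two picks. -/
theorem stD_J_two (S : NState Q D.k) (lam : Q → Option Bool) (ω : Q → Fin D.k) (x : Q)
    (c : Fin D.k) (h : ¬ D.J S lam ω x c ≤ 1) :
    (2 : ℝ) ≤ D.J S lam ω x c ∧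
      (D.J S lam ω x c : ℝ) ≤ (D.J S lam ω x c : ℝ) * ((D.J S lam ω x c : ℝ) - 1) := by
  have h2 : 2 ≤ D.J S lam ω x c := by omega
  have h3 : (2 : ℝ) ≤ D.J S lam ω x c := by exact_mod_cast h2
  refine ⟨h3, ?_⟩
  nlinarith

/-- The hazard picked by the related vertices. -/
noncomputable def stD_pick (D : NibData Q ι) (S : NState Q D.k) (lam : Q → Option Bool)
    (ω : Q → Fin D.k) (b : Fin 3) (x : Q) (c : Fin D.k) : ℝ :=
  ∑ u ∈ D.LL S lam, if ω u = c then D.a b x u else 0

theorem stD_pick_nonneg (hD : D.Ok) (S : NState Q D.k) (lam : Q → Option Bool)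
    (ω : Q → Fin D.k) (b : Fin 3) (x : Q) (c : Fin D.k) :
    0 ≤ stD_pick D S lam ω b x c := by
  unfold stD_pick
  refine Finset.sum_nonneg fun u _ => ?_
  split_ifs
  · exact hD.a_nonneg b x u
  · exact le_rfl

theorem stD_pick_ge (hD : D.Ok) (S : NState Q D.k) (lam : Q → Option Bool)
    (ω : Q → Fin D.k) (b : Fin 3) (x : Q) (c : Fin D.k) (u : Q) (hu : u ∈ D.LL S lam)
    (hc : ω u = c) : D.a b x u ≤ stD_pick D S lam ω b x c := by
  unfold stD_pick
  calc D.a b x u = (if ω u = c then D.a b x u else 0) := by rw [if_pos hc]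
    _ ≤ _ := Finset.single_le_sum (f := fun u => if ω u = c then D.a b x u else 0)
        (fun v _ => by
          show (0 : ℝ) ≤ if ω v = c then D.a b x v else 0
          split_ifs
          · exact hD.a_nonneg b x v
          · exact le_rfl) hu

theorem stD_pick_sub (S : NState Q D.k) (lam : Q → Option Bool)
    (ω : Q → Fin D.k) (b : Fin 3) (x : Q) (c : Fin D.k) :
    ∑ u ∈ D.LL S lam, ((if ω u = c then (1 : ℝ) else 0) - D.p S u c) * D.a b x u =
      stD_pick D S lam ω b x c - D.dac S lam b x c := by
  unfold stD_pick dac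
  rw [← Finset.sum_sub_distrib]
  refine Finset.sum_congr rfl fun u _ => ?_
  split_ifs <;> ring

variable (hD : D.Ok) {S : NState Q D.k} {m : ℕ} (hI : D.Inv S m) (hm : m < D.M)
  {lam : Q → Option Bool} (hA : D.GoodA S m lam) (ω : Q → Fin D.k)

include hD hI hm hA

theorem stD_cmp (x : Q) (c : Fin D.k) : |D.cmp S lam x c| ≤ 1 / 1000000 := by
  have hT := stD_T_ge hD
  refine (cmp_abs hD hI hm hA x c).trans ?_
  rw [div_le_div_iff₀ (by positivity) (by norm_num)]
  have : D.T ≤ D.T ^ 110 := le_self_pow₀ (by linarith) (by norm_num)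
  linarith

theorem stD_dac (b : Fin 3) (x : Q) (c : Fin D.k) : D.dac S lam b x c ≤ 1 / 1000000 := by
  have hT := stD_T_ge hD
  refine (dac_le hD hI hm hA b x c).trans ?_
  rw [div_le_div_iff₀ (by positivity) (by norm_num)]
  have : D.T ≤ D.T ^ 110 := le_self_pow₀ (by linarith) (by norm_num)
  linarith

/-- The compensated growth. -/
theorem stD_grow (x : Q) (c : Fin D.k) (h : ¬ D.J S lam ω x c ≤ 1) :
    |D.pk S lam ω x c - D.cmp S lam x c| ≤ 2 * D.T * D.J S lam ω x c := by
  have hT := stD_T_ge hD
  obtain ⟨h2, -⟩ := stD_J_two S lam ω x c h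
  have hpk := pk_abs S lam ω hD x c
  have hc := stD_cmp hD hI hm hA x c
  have := abs_sub (D.pk S lam ω x c) (D.cmp S lam x c)
  have h4 : 1 ≤ D.T * D.J S lam ω x c := by nlinarith
  linarith

/-- The forbidden budget of one colour. -/
theorem stD_bud (x : Q) (c : Fin D.k) :
    (D.step S m lam ω).v x c * ((if (D.step S m lam ω).fb x c then 1 else 0) -
        2 * (D.step S m lam ω).ac 2 x c) -
      S.v x c * ((if S.fb x c then 1 else 0) - 2 * S.ac 2 x c) ≤
    (if S.al x c then S.v x c * (D.pk S lam ω x c - D.cmp S lam x c) *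
        ((if S.fb x c then 1 else 0) - 2 * S.ac 2 x c - 2 * D.dac S lam 2 x c) else 0) +
      (if S.al x c then S.v x c * (∑ u ∈ D.LL S lam, ((if ω u = c then 1 else 0) - D.p S u c) *
        D.a 2 x u) else 0) +
      9 * D.T ^ 2 * ((D.J S lam ω x c : ℝ) * ((D.J S lam ω x c : ℝ) - 1)) := by
  have hT := stD_T_ge hD
  have hJ := J_mul_nonneg S lam ω x c
  by_cases ha : S.al x c
  · have hvp := hI.al_pos x c ha
    have hpick := stD_pick_nonneg hD S lam ω 2 x c
    have hdac0 := dac_nonneg hD hI hm hA 2 x c
    have hdac1 := stD_dac hD hI hm hA 2 x c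
    have hcmp := abs_le.1 (stD_cmp hD hI hm hA x c)
    simp only [ha, if_true]
    rw [stD_pick_sub]
    set Bf : ℝ := if S.fb x c then 1 else 0 with hBf
    have hBf0 : 0 ≤ Bf := by rw [hBf]; split_ifs <;> norm_num
    have hBf1 : Bf ≤ 1 := by rw [hBf]; split_ifs <;> norm_num
    have hac0 := hI.ac_nonneg 2 x c
    have hac1 := hI.ac_two x c
    by_cases h : D.J S lam ω x c ≤ 1
    · have hv' : (D.step S m lam ω).v x c =
          S.v x c * (1 + D.pk S lam ω x c - D.cmp S lam x c) := by
        simp only [step, ha, h, if_true]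
      have hc' : (D.step S m lam ω).ac 2 x c = S.ac 2 x c + D.dac S lam 2 x c := by
        simp only [step, ha, if_true]
      rw [hv', hc']
      have hJ' : 0 ≤ 9 * D.T ^ 2 * ((D.J S lam ω x c : ℝ) * ((D.J S lam ω x c : ℝ) - 1)) := by
        positivity
      -- the newly forbidden colours
      have key : (1 + D.pk S lam ω x c - D.cmp S lam x c) *
          ((if (D.step S m lam ω).fb x c then (1 : ℝ) else 0) - Bf) ≤
          stD_pick D S lam ω 2 x c := by
        by_cases hfb : S.fb x c
        · have h1 : (D.step S m lam ω).fb x c := Or.inl hfb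
          have : Bf = 1 := by rw [hBf, if_pos hfb]
          rw [if_pos h1, this, sub_self, mul_zero]
          exact hpick
        · have hB0 : Bf = 0 := by rw [hBf, if_neg hfb]
          by_cases h1 : (D.step S m lam ω).fb x c
          · rw [if_pos h1, hB0, sub_zero, mul_one]
            obtain ⟨-, u, hu1, hu2, hu3⟩ : S.al x c ∧ ∃ u ∈ D.LL S lam, ω u = c ∧ D.sp u x := by
              rcases h1 with h1 | h1
              · exact absurd h1 hfb
              · exact h1
            have huR : u ∈ D.R x := by
              unfold R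
              simp only [mem_filter, mem_univ, true_and]
              exact hD.sp_rp u x hu3
            have hJ1 : D.J S lam ω x c = 1 := by
              have : 1 ≤ D.J S lam ω x c := by
                unfold J
                apply Finset.card_pos.2
                exact ⟨u, mem_filter.2 ⟨mem_inter.2 ⟨huR, hu1⟩, hu2⟩⟩
              omega
            obtain ⟨u', hu1', hu2', hu4', e1, -⟩ := pk_one S lam ω hD x c hJ1
            have huu : u' = u := by
              unfold J at hJ1
              obtain ⟨w, hw⟩ := Finset.card_eq_one.1 hJ1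
              have m1 : u ∈ (D.R x ∩ D.LL S lam).filter fun u => ω u = c :=
                mem_filter.2 ⟨mem_inter.2 ⟨huR, hu1⟩, hu2⟩
              have m2 : u' ∈ (D.R x ∩ D.LL S lam).filter fun u => ω u = c :=
                mem_filter.2 ⟨mem_inter.2 ⟨hu4', hu1'⟩, hu2'⟩
              rw [hw, mem_singleton] at m1 m2
              rw [m1, m2]
            rw [huu] at e1
            rw [e1]
            have hsp := hD.a_sp x u hu3
            have hK : 1 / D.T ≤ 1 + D.K u x := by
              rcases hD.K_cases u x with h2 | h2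
              · exact absurd h2 (hD.sp_K u x hu3)
              · exact h2
            have hcm := abs_le.1 (cmp_abs hD hI hm hA x c)
            have hT110 : 1 / D.T ^ 110 ≤ 1 / D.T := by
              apply one_div_le_one_div_of_le (by positivity)
              exact le_self_pow₀ (by linarith) (by norm_num)
            have := stD_pick_ge hD S lam ω 2 x c u hu1 hu2
            linarith [hcm.1]
          · rw [if_neg h1, hB0, sub_self, mul_zero]
            exact hpick
      have key2 := mul_le_mul_of_nonneg_left key hvp.le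
      have key3 : 0 ≤ S.v x c * D.dac S lam 2 x c := mul_nonneg hvp.le hdac0
      nlinarith
    · have hv' : (D.step S m lam ω).v x c = 0 := by
        simp only [step, ha, h, if_true, if_false]
      rw [hv', zero_mul]
      obtain ⟨h2, h3⟩ := stD_J_two S lam ω x c h
      have hg := stD_grow hD hI hm hA ω x c h
      have hv := (abs_le.1 (v_abs hD hI hm.le x c)).2
      have e1 : |S.v x c * (D.pk S lam ω x c - D.cmp S lam x c) *
          (Bf - 2 * S.ac 2 x c - 2 * D.dac S lam 2 x c)| ≤
          2 * D.T ^ 2 * D.J S lam ω x c := by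
        rw [abs_mul, abs_mul, abs_of_pos hvp]
        have e2 : |Bf - 2 * S.ac 2 x c - 2 * D.dac S lam 2 x c| ≤ 1 := by
          rw [abs_le]; constructor <;> linarith
        calc _ ≤ D.T * (2 * D.T * D.J S lam ω x c) * 1 := by gcongr
          _ = _ := by ring
      have e3 := (abs_le.1 e1).1
      have e5 : S.v x c * D.dac S lam 2 x c ≤ D.T := by
        calc _ ≤ S.v x c * 1 := by
              apply mul_le_mul_of_nonneg_left _ hvp.le
              linarith
          _ ≤ _ := by linarith
      have e4 : 0 ≤ S.v x c * stD_pick D S lam ω 2 x c := mul_nonneg hvp.le hpick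
      have e6 : -(S.v x c * (Bf - 2 * S.ac 2 x c)) ≤ D.T := by
        have : S.v x c * (2 * S.ac 2 x c - Bf) ≤ S.v x c * 1 := by
          apply mul_le_mul_of_nonneg_left _ hvp.le
          linarith
        nlinarith
      have h5 : D.T ≤ D.T ^ 2 * D.J S lam ω x c := by nlinarith
      have e7 : 9 * D.T ^ 2 * (D.J S lam ω x c : ℝ) ≤
          9 * D.T ^ 2 * ((D.J S lam ω x c : ℝ) * ((D.J S lam ω x c : ℝ) - 1)) :=
        mul_le_mul_of_nonneg_left h3 (by positivity)
      rw [mul_sub]
      linarith
  · have hv' : (D.step S m lam ω).v x c = S.v x c := by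
      simp only [step, ha, if_false]
    have hb' : (D.step S m lam ω).fb x c ↔ S.fb x c := by
      simp only [step, ha, false_and, or_false]
    have hc' : (D.step S m lam ω).ac 2 x c = S.ac 2 x c := by
      simp only [step, ha, if_false]
    rw [hv', if_congr hb' rfl rfl, hc']
    simp only [ha, if_false]
    rw [sub_self]
    positivity

/-- The size budget of one colour. -/
theorem stD_ebud (x : Q) (c : Fin D.k) :
    (D.step S m lam ω).v x c * D.ee (D.step S m lam ω) x c - S.v x c * D.ee S x c ≤
    (if S.al x c then S.v x c * D.ee S x c * (D.pk S lam ω x c - D.cmp S lam x c) else 0) +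
      (if S.al x c then S.v x c * D.ee S x c * (∑ u ∈ D.LL S lam,
        ((if ω u = c then 1 else 0) - D.p S u c) * D.a 1 x u) else 0) +
      (2 * (D.T ^ 21 / D.T ^ 90) * D.J S lam ω x c +
        4 * D.T ^ 22 * ((D.J S lam ω x c : ℝ) * ((D.J S lam ω x c : ℝ) - 1))) := by
  have hT := stD_T_ge hD
  have hT0 : 0 < D.T := by linarith
  have hl0 : 0 ≤ Real.log D.T := Real.log_nonneg (by linarith)
  have hJ := J_mul_nonneg S lam ω x c
  have hee := ee_pos hD hI hm.le x c
  by_cases ha : S.al x c
  · have hvp := hI.al_pos x c ha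
    have hpick := stD_pick_nonneg hD S lam ω 1 x c
    have hdac0 := dac_nonneg hD hI hm hA 1 x c
    have hdac1 := stD_dac hD hI hm hA 1 x c
    have hdac2 := dac_le hD hI hm hA 1 x c
    have hcmp := abs_le.1 (stD_cmp hD hI hm hA x c)
    have hcm := abs_le.1 (cmp_abs hD hI hm hA x c)
    have hel := ee_le_al hD hI hm.le x c ha
    have hv := (abs_le.1 (v_abs hD hI hm.le x c)).2
    have hve : 0 < S.v x c * D.ee S x c := mul_pos hvp hee
    have hve1 : S.v x c * D.ee S x c ≤ D.T ^ 21 := by
      calc _ ≤ D.T * D.T ^ 20 := by gcongr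
        _ = _ := by rw [← pow_succ']
    simp only [ha, if_true]
    rw [stD_pick_sub]
    by_cases h : D.J S lam ω x c ≤ 1
    · have hv' : (D.step S m lam ω).v x c =
          S.v x c * (1 + D.pk S lam ω x c - D.cmp S lam x c) := by
        simp only [step, ha, h, if_true]
      have hb' : (D.step S m lam ω).bz x c = S.bz x c + D.hk S lam ω x c := by
        simp only [step, ha, h, and_self, if_true]
      have hc' : (D.step S m lam ω).ac 1 x c = S.ac 1 x c + D.dac S lam 1 x c := by
        simp only [step, ha, if_true]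
      have he' : D.ee (D.step S m lam ω) x c = D.ee S x c *
          (Real.exp (20 * Real.log D.T * D.hk S lam ω x c) *
            Real.exp (-(2 * D.dac S lam 1 x c))) := by
        unfold ee
        rw [hb', hc', ← Real.exp_add, ← Real.exp_add]
        congr 1
        ring
      rw [hv', he']
      have hd1 : Real.exp (-(2 * D.dac S lam 1 x c)) ≤ 1 := by
        rw [Real.exp_le_one_iff]
        linarith
      have hd0 : 0 < Real.exp (-(2 * D.dac S lam 1 x c)) := Real.exp_pos _
      have hcoef : 0 ≤ 4 * D.T ^ 22 *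
          ((D.J S lam ω x c : ℝ) * ((D.J S lam ω x c : ℝ) - 1)) := by positivity
      have hcoef2 : 0 ≤ 2 * (D.T ^ 21 / D.T ^ 90) * (D.J S lam ω x c : ℝ) := by positivity
      rcases Nat.le_one_iff_eq_zero_or_eq_one.1 h with h0 | h1
      · obtain ⟨e1, e2⟩ := pk_zero S lam ω hD x c h0
        rw [e1, e2, mul_zero, Real.exp_zero, one_mul, add_zero, zero_sub]
        have hexp : Real.exp (-(2 * D.dac S lam 1 x c)) ≤
            1 - 2 * D.dac S lam 1 x c + (2 * D.dac S lam 1 x c) ^ 2 := by
          have hab := Real.abs_exp_sub_one_sub_id_le (x := -(2 * D.dac S lam 1 x c)) (by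
            rw [abs_neg, abs_of_nonneg (by linarith)]
            linarith)
          have := (abs_le.1 hab).2
          nlinarith
        set d := D.dac S lam 1 x c
        set q := D.cmp S lam x c
        have hq : 0 < 1 - q := by linarith [hcmp.2]
        have key : (1 - q) * Real.exp (-(2 * d)) ≤ 1 - q - d := by
          have h1 : (1 - q) * Real.exp (-(2 * d)) ≤ (1 - q) * (1 - 2 * d + (2 * d) ^ 2) :=
            mul_le_mul_of_nonneg_left hexp hq.le
          have h2 : (1 - q) * (1 - 2 * d + (2 * d) ^ 2) =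
              1 - q - d - d * (1 - 2 * q - 4 * d * (1 - q)) := by ring
          have h3 : 0 ≤ 1 - 2 * q - 4 * d * (1 - q) := by
            have : 4 * d * (1 - q) ≤ 4 * (1 / 1000000) * 2 := by
              apply mul_le_mul (by linarith) (by linarith [hcmp.1]) hq.le (by norm_num)
            linarith [hcmp.2]
          have h4 := mul_nonneg hdac0 h3
          linarith
        have key2 := mul_le_mul_of_nonneg_left key hve.le
        have key3 : 0 ≤ S.v x c * D.ee S x c * stD_pick D S lam ω 1 x c :=
          mul_nonneg hve.le hpick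
        have e3 : S.v x c * (1 - q) * (D.ee S x c * Real.exp (-(2 * d))) =
            S.v x c * D.ee S x c * ((1 - q) * Real.exp (-(2 * d))) := by ring
        rw [e3]
        nlinarith
      · obtain ⟨u, hu1, hu2, -, e1, e2⟩ := pk_one S lam ω hD x c h1
        rw [e1, e2]
        have hpu := stD_pick_ge hD S lam ω 1 x c u hu1 hu2
        have hau := hD.a_nonneg 1 x u
        have hK1 := K_ge hD u x
        set E := Real.exp (20 * Real.log D.T * D.h u x) with hE
        set dd := Real.exp (-(2 * D.dac S lam 1 x c)) with hdd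
        have hE1 : 1 ≤ E := by
          rw [hE]
          apply Real.one_le_exp
          have := hD.h_nonneg u x
          positivity
        have hE2 : E ≤ D.T ^ 20 := by
          rw [hE]
          have h3 : 20 * Real.log D.T * D.h u x ≤ 20 * Real.log D.T := by
            have := hD.h_le u x
            nlinarith
          calc Real.exp (20 * Real.log D.T * D.h u x) ≤ Real.exp (20 * Real.log D.T) :=
                Real.exp_le_exp.2 h3
            _ = D.T ^ 20 := by
                rw [mul_comm, Real.exp_mul, Real.exp_log hT0]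
                norm_cast
        have hEa : (1 + D.K u x) * E ≤ (1 + D.K u x) + D.a 1 x u / 2 := by
          by_cases hk : D.K u x = -1
          · rw [hk]
            norm_num
            linarith
          · have := hD.a_ex x u hk
            rw [← hE] at this
            linarith
        have hcE : |D.cmp S lam x c| * E ≤ 1 / D.T ^ 90 := by
          calc |D.cmp S lam x c| * E ≤ 1 / D.T ^ 110 * D.T ^ 20 := by
                apply mul_le_mul (cmp_abs hD hI hm hA x c) hE2 (by linarith) (by positivity)
            _ = 1 / D.T ^ 90 := by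
                rw [one_div_mul_eq_div, div_eq_div_iff (by positivity) (by positivity), one_mul,
                  ← pow_add]
        have key : (1 + D.K u x - D.cmp S lam x c) * (E * dd) ≤
            (1 + D.K u x) + D.a 1 x u / 2 + 1 / D.T ^ 90 := by
          have h3 : (1 + D.K u x) * (E * dd) ≤ (1 + D.K u x) * E := by
            apply mul_le_mul_of_nonneg_left _ (by linarith)
            exact mul_le_of_le_one_right (by linarith) hd1
          have h4 : -D.cmp S lam x c * (E * dd) ≤ |D.cmp S lam x c| * E := by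
            calc -D.cmp S lam x c * (E * dd) ≤ |D.cmp S lam x c| * (E * dd) := by
                  apply mul_le_mul_of_nonneg_right (neg_le_abs _) (by positivity)
              _ ≤ |D.cmp S lam x c| * E := by
                  apply mul_le_mul_of_nonneg_left _ (abs_nonneg _)
                  exact mul_le_of_le_one_right (by linarith) hd1
          linarith
        have h110 : 1 / D.T ^ 110 ≤ 1 / D.T ^ 91 := hD.big.ipw (by norm_num)
        have h91 : 2 * (1 / D.T ^ 91) ≤ 1 / D.T ^ 90 := by
          rw [mul_one_div, div_le_div_iff₀ (by positivity) (by positivity), one_mul,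
            show D.T ^ 91 = D.T * D.T ^ 90 by rw [pow_succ']]
          have : 0 < D.T ^ 90 := by positivity
          nlinarith
        have key1 : (1 + D.K u x - D.cmp S lam x c) * (E * dd) ≤
            1 + (D.K u x - D.cmp S lam x c) + (stD_pick D S lam ω 1 x c -
              D.dac S lam 1 x c) + 2 * (1 / D.T ^ 90) := by
          linarith [hcm.2]
        have key2 := mul_le_mul_of_nonneg_left key1 hve.le
        have key3 : S.v x c * D.ee S x c * (2 * (1 / D.T ^ 90)) ≤
            2 * (D.T ^ 21 / D.T ^ 90) := by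
          calc _ ≤ D.T ^ 21 * (2 * (1 / D.T ^ 90)) :=
                mul_le_mul_of_nonneg_right hve1 (by positivity)
            _ = _ := by ring
        have e3 : S.v x c * (1 + D.K u x - D.cmp S lam x c) * (D.ee S x c * (E * dd)) =
            S.v x c * D.ee S x c * ((1 + D.K u x - D.cmp S lam x c) * (E * dd)) := by ring
        rw [e3, h1]
        push_cast
        have e4 : S.v x c * D.ee S x c * (1 + (D.K u x - D.cmp S lam x c) +
            (stD_pick D S lam ω 1 x c - D.dac S lam 1 x c) + 2 * (1 / D.T ^ 90)) =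
            S.v x c * D.ee S x c + S.v x c * D.ee S x c * (D.K u x - D.cmp S lam x c) +
            S.v x c * D.ee S x c * (stD_pick D S lam ω 1 x c - D.dac S lam 1 x c) +
            S.v x c * D.ee S x c * (2 * (1 / D.T ^ 90)) := by ring
        rw [e4] at key2
        linarith
    · have hv' : (D.step S m lam ω).v x c = 0 := by
        simp only [step, ha, h, if_true, if_false]
      rw [hv', zero_mul]
      obtain ⟨h2, h3⟩ := stD_J_two S lam ω x c h
      have hg := stD_grow hD hI hm hA ω x c h
      have e1 : |S.v x c * D.ee S x c * (D.pk S lam ω x c - D.cmp S lam x c)| ≤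
          2 * D.T ^ 22 * D.J S lam ω x c := by
        rw [abs_mul, abs_of_pos hve]
        calc _ ≤ D.T ^ 21 * (2 * D.T * D.J S lam ω x c) := by gcongr
          _ = _ := by ring
      have e3 := (abs_le.1 e1).1
      have e5 : S.v x c * D.ee S x c * D.dac S lam 1 x c ≤ D.T ^ 22 * D.J S lam ω x c := by
        calc _ ≤ D.T ^ 21 * 1 := by
              apply mul_le_mul hve1 (by linarith) hdac0 (by positivity)
          _ ≤ D.T ^ 21 * (D.T * D.J S lam ω x c) := by
              apply mul_le_mul_of_nonneg_left _ (by positivity)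
              nlinarith
          _ = _ := by ring
      have e4 : 0 ≤ S.v x c * D.ee S x c * stD_pick D S lam ω 1 x c :=
        mul_nonneg hve.le hpick
      have e7 : 4 * D.T ^ 22 * (D.J S lam ω x c : ℝ) ≤
          4 * D.T ^ 22 * ((D.J S lam ω x c : ℝ) * ((D.J S lam ω x c : ℝ) - 1)) :=
        mul_le_mul_of_nonneg_left h3 (by positivity)
      have hcoef2 : 0 ≤ 2 * (D.T ^ 21 / D.T ^ 90) * (D.J S lam ω x c : ℝ) := by positivity
      have hcoef3 : 0 ≤ D.T ^ 22 * (D.J S lam ω x c : ℝ) := by positivity
      rw [mul_sub]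
      linarith
  · have hv' : (D.step S m lam ω).v x c = S.v x c := by
      simp only [step, ha, if_false]
    have hb' : (D.step S m lam ω).bz x c = S.bz x c := by
      simp only [step, ha, false_and, if_false]
    have hc' : (D.step S m lam ω).ac 1 x c = S.ac 1 x c := by
      simp only [step, ha, if_false]
    have he' : D.ee (D.step S m lam ω) x c = D.ee S x c := by
      unfold ee
      rw [hb', hc']
    rw [hv', he']
    simp only [ha, if_false]
    rw [sub_self]
    positivity

variable (hG : D.GoodB S lam ω)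
include hG

theorem step_bud (x : Q) :
    ∑ c, (D.step S m lam ω).v x c * ((if (D.step S m lam ω).fb x c then 1 else 0) -
      2 * (D.step S m lam ω).ac 2 x c) ≤ (m + 1 : ℕ) * D.k / D.T ^ 180 := by
  have hT := stD_T_ge hD
  have h1 := Finset.sum_le_sum fun (c : Fin D.k) (_ : c ∈ univ) => stD_bud hD hI hm hA ω x c
  rw [Finset.sum_add_distrib, Finset.sum_add_distrib, Finset.sum_sub_distrib, ← cen_Y2, ← cen_Y3,
    ← Finset.mul_sum] at h1
  have h2 := (abs_le.1 (hG.e2 x)).2
  have h3 := (abs_le.1 (hG.e3 x)).2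
  have h4 := hI.bud x
  have h5 : 9 * D.T ^ 2 * ∑ c, ((D.J S lam ω x c : ℝ) * ((D.J S lam ω x c : ℝ) - 1)) ≤
      9 * D.T ^ 2 * D.T ^ 3778 := mul_le_mul_of_nonneg_left (hG.e6 x) (by positivity)
  have h6 : D.T ^ 3790 ≤ D.k / D.T ^ 180 := stD_k_div hD 3790 180 (by norm_num)
  have h7 : 2 * D.T ^ 2000 + 9 * D.T ^ 2 * D.T ^ 3778 ≤ D.T ^ 3790 := by
    have e1 : D.T ^ 2000 ≤ D.T ^ 3780 := pow_le_pow_right₀ (by linarith) (by norm_num)
    have e2 : D.T ^ 2 * D.T ^ 3778 = D.T ^ 3780 := by rw [← pow_add]
    have e3 : D.T ^ 3790 = D.T ^ 10 * D.T ^ 3780 := by rw [← pow_add]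
    have e4 : (11 : ℝ) ≤ D.T ^ 10 := by
      have : D.T ≤ D.T ^ 10 := le_self_pow₀ (by linarith) (by norm_num)
      linarith
    have e5 : 0 ≤ D.T ^ 3780 := by positivity
    rw [e3, mul_assoc 9, e2]
    nlinarith
  have h8 : ((m + 1 : ℕ) : ℝ) * D.k / D.T ^ 180 = m * D.k / D.T ^ 180 + D.k / D.T ^ 180 := by
    push_cast; ring
  rw [h8]
  linarith

theorem step_ebud (x : Q) :
    ∑ c, (D.step S m lam ω).v x c * D.ee (D.step S m lam ω) x c ≤
      D.k + (m + 1 : ℕ) * D.k / D.T ^ 180 := by
  have hT := stD_T_ge hD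
  have hT0 : 0 < D.T := by linarith
  have h1 := Finset.sum_le_sum fun (c : Fin D.k) (_ : c ∈ univ) => stD_ebud hD hI hm hA ω x c
  rw [Finset.sum_add_distrib, Finset.sum_add_distrib, Finset.sum_sub_distrib, ← cen_Y5, ← cen_Y6,
    Finset.sum_add_distrib, ← Finset.mul_sum, ← Finset.mul_sum, sum_J] at h1
  have h2 := (abs_le.1 (hG.e5e x)).2
  have h3 := (abs_le.1 (hG.e6e x)).2
  have h4 := hI.ebud x
  have h5 : 4 * D.T ^ 22 * ∑ c, ((D.J S lam ω x c : ℝ) * ((D.J S lam ω x c : ℝ) - 1)) ≤
      4 * D.T ^ 22 * D.T ^ 3778 := mul_le_mul_of_nonneg_left (hG.e6 x) (by positivity)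
  have h9 : 2 * (D.T ^ 21 / D.T ^ 90) * ((D.R x ∩ D.LL S lam).card : ℝ) ≤
      2 * (D.T ^ 21 / D.T ^ 90) * D.T ^ 3885 :=
    mul_le_mul_of_nonneg_left (RV_card hD hI hm hA x) (by positivity)
  have h10 : 2 * (D.T ^ 21 / D.T ^ 90) * D.T ^ 3885 = 2 * D.T ^ 3816 := by
    have : D.T ^ 3885 = D.T ^ 69 * D.T ^ 3816 := by rw [← pow_add]
    rw [this]
    have h90 : D.T ^ 90 = D.T ^ 21 * D.T ^ 69 := by rw [← pow_add]
    rw [h90]
    field_simp
  have h6 : D.T ^ 3819 ≤ D.k / D.T ^ 180 := stD_k_div hD 3819 180 (by norm_num)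
  have h7 : 2 * D.T ^ 2030 + 4 * D.T ^ 22 * D.T ^ 3778 + 2 * D.T ^ 3816 ≤ D.T ^ 3819 := by
    have e1 : D.T ^ 2030 ≤ D.T ^ 3816 := pow_le_pow_right₀ (by linarith) (by norm_num)
    have e2 : D.T ^ 22 * D.T ^ 3778 ≤ D.T ^ 3816 := by
      rw [← pow_add]
      exact pow_le_pow_right₀ (by linarith) (by norm_num)
    have e3 : D.T ^ 3819 = D.T ^ 3 * D.T ^ 3816 := by rw [← pow_add]
    have e4 : (11 : ℝ) ≤ D.T ^ 3 := by
      have : D.T ≤ D.T ^ 3 := le_self_pow₀ (by linarith) (by norm_num)
      linarith
    have e5 : 0 ≤ D.T ^ 3816 := by positivity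
    rw [e3, mul_assoc 4]
    nlinarith
  have h8 : ((m + 1 : ℕ) : ℝ) * D.k / D.T ^ 180 = m * D.k / D.T ^ 180 + D.k / D.T ^ 180 := by
    push_cast; ring
  rw [h8]
  linarith

end NibData

end Pool.Agent.AcyG
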