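import Pool.Agent.AcyG.BasicA
import Pool.Agent.AcyK.LamA
import Pool.Agent.AcyK.DKind

/-! # The selection of a round is typical (row GLA) -/

set_option autoImplicit false
set_option linter.unusedSectionVars false

namespace Pool.Agent.AcyG

open Finset
open Pool.Agent.Acy (IsPM wt Ex Pr mean)
open Pool.Agent.AcyK (Big StepOK prodLaw Un Sel updCol LocOK)
open scoped Classical

universe u v

section

variable {Q ι : Type u} [Fintype Q] [DecidableEq Q] [Fintype ι] [DecidableEq ι]

namespace NibData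

variable {D : NibData Q ι}

/-- The test function of a deviation. -/
noncomputable def YA (D : NibData Q ι) (S : NState Q D.k) (b : Bool) (w : Q → ℝ) (y : Q)
    (e : Option Bool) : ℝ :=
  if S.col y = none ∧ e = some b then w y else 0

theorem mean_YA (D : NibData Q ι) (S : NState Q D.k) (m : ℕ) (b : Bool) (w : Q → ℝ) (y : Q) :
    mean (D.lawA m) (D.YA S b w) y = if S.col y = none then D.t m * w y else 0 := by
  unfold mean YA lawA
  rw [Fintype.sum_eq_single (some b)]
  · simp only [reduceCtorEq, if_false, and_true]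
    split_ifs <;> simp
  · intro e he
    have h5 : ¬ (S.col y = none ∧ e = some b) := fun h => he h.2
    rw [if_neg h5, mul_zero]

theorem dev_eq (D : NibData Q ι) (S : NState Q D.k) (m : ℕ) (lam : Q → Option Bool) (b : Bool)
    (w : Q → ℝ) : D.dev S m lam b w =
      ∑ y, (D.YA S b w y (lam y) - mean (D.lawA m) (D.YA S b w) y) := by
  unfold dev
  rw [sum_sub_distrib]
  congr 1
  · unfold Sel YA
    rw [sum_filter]
  · unfold Un
    rw [sum_filter, mul_sum]
    refine sum_congr rfl fun y _ => ?_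
    rw [mean_YA]
    split_ifs <;> simp

theorem dev_congr (D : NibData Q ι) (S : NState Q D.k) (m : ℕ) {lam lam' : Q → Option Bool}
    (b : Bool) (w : Q → ℝ) (A : Finset Q) (h0 : ∀ y, y ∉ A → w y = 0)
    (h : ∀ y ∈ A, lam y = lam' y) : D.dev S m lam b w = D.dev S m lam' b w := by
  rw [dev_eq, dev_eq]
  refine sum_congr rfl fun y _ => ?_
  by_cases hy : y ∈ A
  · rw [h y hy]
  · unfold YA
    simp [h0 y hy]

theorem exp_bd {T : ℝ} (hT : (1000000 : ℝ) ≤ T) {z : ℝ} (hz : z ≤ -(2 * T)) :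
    2 * Real.exp z ≤ Real.exp (-T) := by
  have h1 : (2 : ℝ) ≤ Real.exp T := by
    have := Real.add_one_le_exp T
    linarith
  have h2 : Real.exp z ≤ Real.exp (-T) * Real.exp (-T) := by
    rw [← Real.exp_add]
    exact Real.exp_le_exp.mpr (by linarith)
  have h3 : Real.exp T * Real.exp (-T) = 1 := by rw [← Real.exp_add]; simp
  have h4 : 0 < Real.exp (-T) := Real.exp_pos _
  calc 2 * Real.exp z ≤ Real.exp T * (Real.exp (-T) * Real.exp (-T)) := by
        apply mul_le_mul h1 h2 (Real.exp_pos _).le (Real.exp_pos _).le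
    _ = Real.exp (-T) := by rw [← mul_assoc, h3, one_mul]

/-- Bernstein bound for a deviation. -/
theorem dev_tail (hD : D.Ok) {m : ℕ} (hm : m ≤ D.M) (S : NState Q D.k) (b : Bool) (w : Q → ℝ)
    (A : Finset Q) (n N : ℕ) (hA : (A.card : ℝ) ≤ D.T ^ N) (hw : ∀ y, |w y| ≤ D.T ^ 4)
    (h0 : ∀ y, y ∉ A → w y = 0) (hn : N + 8 ≤ 133 + 2 * n) (h4 : 5 ≤ n) :
    Pr (D.lawA m) (fun lam => ¬ |D.dev S m lam b w| ≤ D.T ^ (n + 2)) ≤ Real.exp (-D.T) := by
  have hT : (1000000 : ℝ) ≤ D.T := by
    have := hD.big.big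
    norm_num at this
    exact this
  have hT0 : 0 < D.T := by linarith
  have hp := lawA_isPM hD hm
  have ht0 := t_pos hD hm
  have ht1 := t_le hD hm
  have hY : ∀ y e, |D.YA S b w y e| ≤ D.T ^ 4 := by
    intro y e
    unfold YA
    split_ifs
    · exact hw y
    · rw [abs_zero]; positivity
  have hV : ∑ y, ∑ e, D.lawA m y e * D.YA S b w y e ^ 2 ≤ D.T ^ (2 * n) := by
    have h1 : ∀ y, ∑ e, D.lawA m y e * D.YA S b w y e ^ 2 ≤
        if y ∈ A then 1 / D.T ^ 133 * D.T ^ 8 else 0 := by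
      intro y
      have h2 : ∑ e, D.lawA m y e * D.YA S b w y e ^ 2 =
          if S.col y = none then D.t m * w y ^ 2 else 0 := by
        unfold YA lawA
        rw [Fintype.sum_eq_single (some b)]
        · simp only [reduceCtorEq, if_false, and_true]
          split_ifs <;> simp
        · intro e he
          have h5 : ¬ (S.col y = none ∧ e = some b) := fun h => he h.2
          rw [if_neg h5, zero_pow (by norm_num), mul_zero]
      rw [h2]
      by_cases hy : y ∈ A
      · rw [if_pos hy]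
        have h3 : w y ^ 2 ≤ D.T ^ 8 := by
          calc w y ^ 2 = |w y| ^ 2 := (sq_abs _).symm
            _ ≤ (D.T ^ 4) ^ 2 := pow_le_pow_left₀ (abs_nonneg _) (hw y) 2
            _ = _ := by rw [← pow_mul]
        split_ifs
        · exact mul_le_mul ht1 h3 (sq_nonneg _) (by positivity)
        · positivity
      · rw [if_neg hy, h0 y hy]
        simp
    calc _ ≤ ∑ y, (if y ∈ A then 1 / D.T ^ 133 * D.T ^ 8 else 0) :=
          Finset.sum_le_sum fun y _ => h1 y
      _ = A.card * (1 / D.T ^ 133 * D.T ^ 8) := by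
          rw [← Finset.sum_filter, Finset.sum_const, nsmul_eq_mul]
          congr 3
          ext u
          simp
      _ ≤ D.T ^ N * (1 / D.T ^ 133 * D.T ^ 8) := by gcongr
      _ = D.T ^ (N + 8) / D.T ^ 133 := by rw [pow_add]; ring
      _ ≤ D.T ^ (2 * n) := by
          rw [div_le_iff₀ (by positivity), ← pow_add]
          exact hD.big.pw (by omega)
  have ht := Pool.Agent.Acy.indep_tail hp (D.YA S b w) (D.T ^ 4) hY (D.T ^ (2 * n)) hV
    (1 / (2 * D.T ^ n)) (by positivity)
    (by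
      have e : 2 * (1 / (2 * D.T ^ n) * D.T ^ 4) = D.T ^ 4 / D.T ^ n := by
        field_simp
      rw [e, div_le_one (by positivity)]
      exact hD.big.pw (by omega)) (D.T ^ (n + 2))
  refine (Pool.Agent.Acy.Pr_mono hp fun lam hlam => ?_).trans (ht.trans (exp_bd hT ?_))
  · rw [dev_eq] at hlam
    exact (not_le.1 hlam).le
  · have e1 : (1 / (2 * D.T ^ n)) ^ 2 * D.T ^ (2 * n) = 1 / 4 := by
      have : D.T ^ (2 * n) = (D.T ^ n) ^ 2 := by rw [← pow_mul, mul_comm]
      rw [this]
      field_simp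
      norm_num
    have e2 : 1 / (2 * D.T ^ n) * D.T ^ (n + 2) = D.T ^ 2 / 2 := by
      rw [pow_add]
      field_simp
    rw [e1, e2]
    nlinarith

/-- A local family of deviations. -/
theorem loc_dev (hD : D.Ok) {m : ℕ} (hm : m ≤ D.M) (S : NState Q D.k) {κ : Type u} [Fintype κ]
    (b : κ → Bool) (P : κ → Prop) (w : κ → Q → ℝ) (A : κ → Finset Q) (n N e : ℕ)
    (hA : ∀ i, P i → ((A i).card : ℝ) ≤ D.T ^ N) (hw : ∀ i, P i → ∀ y, |w i y| ≤ D.T ^ 4)
    (h0 : ∀ i, P i → ∀ y, y ∉ A i → w i y = 0) (hn : N + 8 ≤ 133 + 2 * n) (h4 : 5 ≤ n)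
    (he : N ≤ e)
    (hdeg : ∀ y, ∃ F : Finset κ, (∀ i, P i → y ∈ A i → i ∈ F) ∧ (F.card : ℝ) ≤ D.T ^ e) :
    LocOK e D.T (D.lawA m)
      (fun lam => ∀ i, P i → |D.dev S m lam (b i) (w i)| ≤ D.T ^ (n + 2)) := by
  have hT := hD.big
  refine ⟨κ, inferInstance, fun i lam => P i ∧ ¬ |D.dev S m lam (b i) (w i)| ≤ D.T ^ (n + 2),
    fun i => if P i then A i else ∅, ?_, ?_, ?_, ?_, ?_⟩
  · intro i lam lam' h
    by_cases hP : P i
    · have h1 := dev_congr D S m (lam := lam) (lam' := lam') (b i) (w i) (A i) (h0 i hP)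
        (fun y hy => h y (by simp only [hP, if_true]; exact_mod_cast hy))
      simp only [h1]
    · simp only [hP, false_and]
  · intro i
    by_cases hP : P i
    · have h1 := dev_tail hD hm S (b i) (w i) (A i) n N (hA i hP) (hw i hP) (h0 i hP) hn h4
      refine le_trans (Pool.Agent.Acy.Pr_mono (lawA_isPM hD hm) fun lam hlam => ?_) h1
      exact hlam.2
    · have h1 : Pr (D.lawA m) (fun lam => P i ∧
          ¬ |D.dev S m lam (b i) (w i)| ≤ D.T ^ (n + 2)) = 0 := by
        unfold Pr Ex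
        refine sum_eq_zero fun lam _ => ?_
        simp only [hP, false_and, if_false, mul_zero]
      rw [h1]
      exact (Real.exp_pos _).le
  · intro i
    by_cases hP : P i
    · simp only [hP, if_true]
      exact (hA i hP).trans (hT.pw he)
    · simp only [hP, if_false, card_empty, Nat.cast_zero]
      exact pow_nonneg hT.pos.le _
  · intro y
    obtain ⟨F, hF1, hF2⟩ := hdeg y
    have h1 : (univ.filter fun i => y ∈ if P i then A i else ∅) ⊆ F := by
      intro i hi
      have h2 := (mem_filter.1 hi).2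
      by_cases hP : P i
      · rw [if_pos hP] at h2
        exact hF1 i hP h2
      · rw [if_neg hP] at h2
        exact absurd h2 (notMem_empty _)
    exact le_trans (by exact_mod_cast card_le_card h1) hF2
  · intro lam h i hP
    exact not_not.1 fun h1 => h i ⟨hP, h1⟩

/-! ### Degrees -/

theorem two_pow_le (hD : D.Ok) (n : ℕ) : 2 * D.T ^ n ≤ D.T ^ (n + 1) := by
  have h5 : (2 : ℝ) ≤ D.T := by linarith [hD.big.big]
  have h6 : 0 ≤ D.T ^ n := pow_nonneg hD.big.pos.le _
  rw [pow_succ]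
  nlinarith

/-- Degree of the family indexed by a kind, a vertex and a colour. -/
theorem deg1 (hD : D.Ok) (y : Q) : ∃ F : Finset (Fin 3 × Q × Fin D.k),
    (∀ i : Fin 3 × Q × Fin D.k, True → y ∈ D.R i.2.1 → i ∈ F) ∧ (F.card : ℝ) ≤ D.T ^ 16000 := by
  refine ⟨(univ : Finset (Fin 3)) ×ˢ (D.R y) ×ˢ (univ : Finset (Fin D.k)), ?_, ?_⟩
  · intro i _ hi
    simp only [mem_product, mem_univ, true_and, and_true]
    exact (mem_R_symm hD i.2.1 y).2 hi
  rw [card_product, card_product, card_univ, card_univ, Fintype.card_fin, Fintype.card_fin]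
  push_cast
  have h3 : ((D.R y).card : ℝ) * D.k ≤ D.T ^ 4017 * D.T ^ 4000 :=
    mul_le_mul (hD.R_card y) hD.k_hi (Nat.cast_nonneg _) (pow_nonneg hD.big.pos.le _)
  rw [← pow_add] at h3
  have h4 := two_pow_le hD (4017 + 4000)
  have h4' := two_pow_le hD (4017 + 4000 + 1)
  have h5 : D.T ^ (4017 + 4000 + 1 + 1) ≤ D.T ^ 16000 := hD.big.pw (by norm_num)
  have h6 : 0 ≤ D.T ^ (4017 + 4000) := pow_nonneg hD.big.pos.le _
  linarith

/-- Degree of the family indexed by a kind, a sign, a vertex and a colour. -/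
theorem deg1' (hD : D.Ok) (y : Q) : ∃ F : Finset (Fin 3 × Bool × Q × Fin D.k),
    (∀ i : Fin 3 × Bool × Q × Fin D.k, True → y ∈ D.R i.2.2.1 → i ∈ F) ∧
      (F.card : ℝ) ≤ D.T ^ 16000 := by
  refine ⟨(univ : Finset (Fin 3)) ×ˢ (univ : Finset Bool) ×ˢ (D.R y) ×ˢ
    (univ : Finset (Fin D.k)), ?_, ?_⟩
  · intro i _ hi
    simp only [mem_product, mem_univ, true_and, and_true]
    exact (mem_R_symm hD i.2.2.1 y).2 hi
  rw [card_product, card_product, card_product, card_univ, card_univ, card_univ,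
    Fintype.card_fin, Fintype.card_fin, Fintype.card_bool]
  push_cast
  have h3 : ((D.R y).card : ℝ) * D.k ≤ D.T ^ 4017 * D.T ^ 4000 :=
    mul_le_mul (hD.R_card y) hD.k_hi (Nat.cast_nonneg _) (pow_nonneg hD.big.pos.le _)
  rw [← pow_add] at h3
  have h4 := two_pow_le hD (4017 + 4000)
  have h4' := two_pow_le hD (4017 + 4000 + 1)
  have h4'' := two_pow_le hD (4017 + 4000 + 1 + 1)
  have h5 : D.T ^ (4017 + 4000 + 1 + 1 + 1) ≤ D.T ^ 16000 := hD.big.pw (by norm_num)
  have h6 : 0 ≤ D.T ^ (4017 + 4000) := pow_nonneg hD.big.pos.le _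
  linarith

/-- The set of the pairs indexed by a tracked pair and a colour. -/
theorem deg2_aux (hD : D.Ok) (y : Q) : (((D.R y).biUnion fun z =>
    ({z} : Finset Q) ×ˢ (univ.filter fun z' => D.pr z z') ×ˢ
      (univ : Finset (Fin D.k))).card : ℝ) ≤ D.T ^ (4017 + (7300 + 4000)) := by
  have h1 : ((D.R y).biUnion fun z => ({z} : Finset Q) ×ˢ (univ.filter fun z' => D.pr z z') ×ˢ
      (univ : Finset (Fin D.k))).card ≤
      ∑ z ∈ D.R y, (({z} : Finset Q) ×ˢ (univ.filter fun z' => D.pr z z') ×ˢ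
        (univ : Finset (Fin D.k))).card := card_biUnion_le
  have h3 : ∑ z ∈ D.R y, (({z} : Finset Q) ×ˢ (univ.filter fun z' => D.pr z z') ×ˢ
      (univ : Finset (Fin D.k))).card =
      ∑ z ∈ D.R y, (univ.filter fun z' => D.pr z z').card * D.k := by
    refine sum_congr rfl fun z _ => ?_
    rw [card_product, card_product, card_singleton, card_univ, Fintype.card_fin, one_mul]
  rw [h3] at h1
  have h2 : (((D.R y).biUnion fun z => ({z} : Finset Q) ×ˢ (univ.filter fun z' => D.pr z z') ×ˢ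
      (univ : Finset (Fin D.k))).card : ℝ) ≤
      ∑ z ∈ D.R y, ((univ.filter fun z' => D.pr z z').card : ℝ) * D.k := by
    exact_mod_cast h1
  have h4 : ∑ z ∈ D.R y, ((univ.filter fun z' => D.pr z z').card : ℝ) * D.k ≤
      D.T ^ 4017 * (D.T ^ 7300 * D.T ^ 4000) := by
    calc ∑ z ∈ D.R y, ((univ.filter fun z' => D.pr z z').card : ℝ) * D.k
        ≤ ∑ _z ∈ D.R y, D.T ^ 7300 * D.T ^ 4000 := sum_le_sum fun z _ =>
          mul_le_mul (hD.pr_card z) hD.k_hi (Nat.cast_nonneg _) (pow_nonneg hD.big.pos.le _)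
      _ = (D.R y).card * (D.T ^ 7300 * D.T ^ 4000) := by rw [sum_const, nsmul_eq_mul]
      _ ≤ _ := mul_le_mul_of_nonneg_right (hD.R_card y)
          (mul_nonneg (pow_nonneg hD.big.pos.le _) (pow_nonneg hD.big.pos.le _))
  rw [← pow_add, ← pow_add] at h4
  exact h2.trans h4

/-- Degree of the family indexed by a tracked pair and a colour. -/
theorem deg2 (hD : D.Ok) (y : Q) : ∃ F : Finset (Q × Q × Fin D.k),
    (∀ i : Q × Q × Fin D.k, D.pr i.1 i.2.1 → y ∈ D.R i.1 → i ∈ F) ∧
      (F.card : ℝ) ≤ D.T ^ 16000 := by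
  refine ⟨(D.R y).biUnion fun z =>
    ({z} : Finset Q) ×ˢ (univ.filter fun z' => D.pr z z') ×ˢ (univ : Finset (Fin D.k)), ?_, ?_⟩
  · intro i hi hy
    simp only [mem_biUnion, mem_product, mem_univ, and_true, mem_singleton, mem_filter,
      true_and]
    exact ⟨i.1, (mem_R_symm hD i.1 y).2 hy, rfl, hi⟩
  exact (deg2_aux hD y).trans (hD.big.pw (by norm_num))

/-- Degree of the family indexed by a sign, a tracked pair and a colour. -/
theorem deg2' (hD : D.Ok) (y : Q) : ∃ F : Finset (Bool × Q × Q × Fin D.k),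
    (∀ i : Bool × Q × Q × Fin D.k, D.pr i.2.1 i.2.2.1 → y ∈ D.R i.2.1 → i ∈ F) ∧
      (F.card : ℝ) ≤ D.T ^ 16000 := by
  refine ⟨(univ : Finset Bool) ×ˢ ((D.R y).biUnion fun z =>
    ({z} : Finset Q) ×ˢ (univ.filter fun z' => D.pr z z') ×ˢ (univ : Finset (Fin D.k))), ?_, ?_⟩
  · intro i hi hy
    simp only [mem_biUnion, mem_product, mem_univ, and_true, mem_singleton, mem_filter,
      true_and]
    exact ⟨i.2.1, (mem_R_symm hD i.2.1 y).2 hy, rfl, hi⟩
  rw [card_product, card_univ, Fintype.card_bool]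
  push_cast
  have h1 := deg2_aux hD y
  have h4 := two_pow_le hD (4017 + (7300 + 4000))
  have h5 : D.T ^ (4017 + (7300 + 4000) + 1) ≤ D.T ^ 16000 := hD.big.pw (by norm_num)
  linarith

/-- Degree of the family indexed by a sign and a pair with a common related vertex. -/
theorem deg3 (hD : D.Ok) (u : Q) : ∃ F : Finset (Bool × Q × Q),
    (∀ i : Bool × Q × Q, (∃ x, i.2.1 ∈ D.R x ∧ i.2.2 ∈ D.R x) → u ∈ D.R i.2.1 → i ∈ F) ∧
      (F.card : ℝ) ≤ D.T ^ 16000 := by
  refine ⟨(univ : Finset Bool) ×ˢ ((D.R u).biUnion fun y =>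
        ({y} : Finset Q) ×ˢ ((D.R y).biUnion D.R)), ?_, ?_⟩
  · rintro i ⟨x, hx, hx'⟩ hu
    simp only [mem_biUnion, mem_product, mem_univ, true_and, mem_singleton]
    exact ⟨i.2.1, (mem_R_symm hD i.2.1 u).2 hu, rfl, x, (mem_R_symm hD x i.2.1).2 hx, hx'⟩
  rw [card_product, card_univ, Fintype.card_bool]
  push_cast
  have h2 : ((D.R u).biUnion fun y => ({y} : Finset Q) ×ˢ ((D.R y).biUnion D.R)).card ≤
      ∑ y ∈ D.R u, ∑ x ∈ D.R y, (D.R x).card := by
    refine card_biUnion_le.trans (sum_le_sum fun y _ => ?_)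
    rw [card_product, card_singleton, one_mul]
    exact card_biUnion_le
  have h3 : (((D.R u).biUnion fun y => ({y} : Finset Q) ×ˢ ((D.R y).biUnion D.R)).card : ℝ) ≤
      ∑ y ∈ D.R u, ∑ x ∈ D.R y, ((D.R x).card : ℝ) := by exact_mod_cast h2
  have hT0 := hD.big.pos
  have h4 : ∑ y ∈ D.R u, ∑ x ∈ D.R y, ((D.R x).card : ℝ) ≤
      D.T ^ 4017 * (D.T ^ 4017 * D.T ^ 4017) := by
    calc ∑ y ∈ D.R u, ∑ x ∈ D.R y, ((D.R x).card : ℝ)
        ≤ ∑ y ∈ D.R u, ∑ _x ∈ D.R y, D.T ^ 4017 :=
          sum_le_sum fun y _ => sum_le_sum fun x _ => hD.R_card x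
      _ = ∑ y ∈ D.R u, (D.R y).card * D.T ^ 4017 := by
          refine sum_congr rfl fun y _ => ?_
          rw [sum_const, nsmul_eq_mul]
      _ ≤ ∑ _y ∈ D.R u, D.T ^ 4017 * D.T ^ 4017 := sum_le_sum fun y _ =>
          mul_le_mul_of_nonneg_right (hD.R_card y) (by positivity)
      _ = (D.R u).card * (D.T ^ 4017 * D.T ^ 4017) := by rw [sum_const, nsmul_eq_mul]
      _ ≤ _ := mul_le_mul_of_nonneg_right (hD.R_card u) (by positivity)
  rw [← pow_add, ← pow_add] at h4
  have h6 := two_pow_le hD (4017 + (4017 + 4017))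
  have h7 : D.T ^ (4017 + (4017 + 4017) + 1) ≤ D.T ^ 16000 := hD.big.pw (by norm_num)
  linarith

/-- Degree of the family indexed by a sign and a vertex. -/
theorem deg4 (hD : D.Ok) (y : Q) : ∃ F : Finset (Bool × Q),
    (∀ i : Bool × Q, True → y ∈ D.R i.2 → i ∈ F) ∧ (F.card : ℝ) ≤ D.T ^ 16000 := by
  refine ⟨(univ : Finset Bool) ×ˢ (D.R y), ?_, ?_⟩
  · intro i _ hi
    simp only [mem_product, mem_univ, true_and]
    exact (mem_R_symm hD i.2 y).2 hi
  rw [card_product, card_univ, Fintype.card_bool]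
  push_cast
  have h3 := hD.R_card y
  have h4 := two_pow_le hD 4017
  have h5 : D.T ^ (4017 + 1) ≤ D.T ^ 16000 := hD.big.pw (by norm_num)
  linarith

/-! ### The linear tests -/

/-- Bernstein bound for the deviation of a linear test. -/
theorem g_tail (hD : D.Ok) {m : ℕ} (hm : m ≤ D.M) (S : NState Q D.k) (b : Bool) (i : ι)
    (hg : 0 < D.gm i) :
    Pr (D.lawA m) (fun lam => ¬ |D.dev S m lam b fun u => D.g i u| ≤ D.dv i) ≤
      Real.exp (-D.T) := by
  have hT : (1000000 : ℝ) ≤ D.T := by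
    have := hD.big.big
    norm_num at this
    exact this
  have hT0 : 0 < D.T := by linarith
  have hp := lawA_isPM hD hm
  have ht0 := t_pos hD hm
  have ht1 := t_le hD hm
  have hgs := gs_nonneg hD i
  have hY : ∀ y e, |D.YA S b (fun u => D.g i u) y e| ≤ D.gm i := by
    intro y e
    unfold YA
    split_ifs
    · rw [abs_of_nonneg (hD.g_nonneg i y)]
      exact hD.g_le i y
    · rw [abs_zero]; exact hg.le
  have ht2 : D.t m ≤ 1 := by
    have := two_t_le hD hm
    linarith
  have hV : ∑ y, ∑ e, D.lawA m y e * D.YA S b (fun u => D.g i u) y e ^ 2 ≤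
      D.gm i * (D.gs i + D.gm i) := by
    have h1 : ∀ y, ∑ e, D.lawA m y e * D.YA S b (fun u => D.g i u) y e ^ 2 ≤
        D.gm i * D.g i y := by
      intro y
      have h2 : ∑ e, D.lawA m y e * D.YA S b (fun u => D.g i u) y e ^ 2 =
          if S.col y = none then D.t m * D.g i y ^ 2 else 0 := by
        unfold YA lawA
        rw [Fintype.sum_eq_single (some b)]
        · simp only [reduceCtorEq, if_false, and_true]
          split_ifs <;> simp
        · intro e he
          have h5 : ¬ (S.col y = none ∧ e = some b) := fun h => he h.2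
          rw [if_neg h5, zero_pow (by norm_num), mul_zero]
      rw [h2]
      have h3 := hD.g_nonneg i y
      have h4 := hD.g_le i y
      have h5 : D.t m * D.g i y ^ 2 ≤ D.gm i * D.g i y := by
        have h6 : D.t m * D.g i y ^ 2 ≤ 1 * D.g i y ^ 2 :=
          mul_le_mul_of_nonneg_right ht2 (sq_nonneg _)
        nlinarith
      split_ifs
      · exact h5
      · exact mul_nonneg hg.le h3
    calc _ ≤ ∑ y, D.gm i * D.g i y := Finset.sum_le_sum fun y _ => h1 y
      _ = D.gm i * ∑ y, D.g i y := by rw [mul_sum]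
      _ ≤ D.gm i * (D.gs i + D.gm i) :=
          mul_le_mul_of_nonneg_left ((hD.g_sum i).trans (by linarith)) hg.le
  set V : ℝ := D.gm i * (D.gs i + D.gm i) with hVd
  have hV0 : 0 < V := mul_pos hg (by linarith)
  have hs0 : 0 < Real.sqrt V := Real.sqrt_pos.2 hV0
  have hs2 : Real.sqrt V ^ 2 = V := Real.sq_sqrt hV0.le
  have hs3 : D.gm i ≤ Real.sqrt V := by
    apply Real.le_sqrt_of_sq_le
    rw [hVd]
    nlinarith
  have ht := Pool.Agent.Acy.indep_tail hp (D.YA S b fun u => D.g i u) (D.gm i) hY V hV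
    (1 / (2 * Real.sqrt V)) (by positivity)
    (by
      have e : 2 * (1 / (2 * Real.sqrt V) * D.gm i) = D.gm i / Real.sqrt V := by
        field_simp
      rw [e, div_le_one hs0]
      exact hs3) (D.dv i)
  refine (Pool.Agent.Acy.Pr_mono hp fun lam hlam => ?_).trans (ht.trans (exp_bd hT ?_))
  · rw [dev_eq] at hlam
    exact (not_le.1 hlam).le
  · have e1 : (1 / (2 * Real.sqrt V)) ^ 2 * V = 1 / 4 := by
      have e3 : (1 / (2 * Real.sqrt V)) ^ 2 * Real.sqrt V ^ 2 = 1 / 4 := by
        field_simp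
        norm_num
      rwa [hs2] at e3
    have e2 : 1 / (2 * Real.sqrt V) * D.dv i = D.T ^ 2 / 2 := by
      unfold dv
      rw [← hVd]
      field_simp
    rw [e1, e2]
    nlinarith

/-- The family of the deviations of the linear tests. -/
theorem loc_g (hD : D.Ok) {m : ℕ} (hm : m ≤ D.M) (S : NState Q D.k) :
    LocOK 30001 D.T (D.lawA m) (fun lam => ∀ j : Bool × ι, 0 < D.gm j.2 →
      |D.dev S m lam j.1 fun u => D.g j.2 u| ≤ D.dv j.2) := by
  have hT := hD.big
  refine ⟨Bool × ι, inferInstance, fun j lam => 0 < D.gm j.2 ∧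
    ¬ |D.dev S m lam j.1 fun u => D.g j.2 u| ≤ D.dv j.2,
    fun j => univ.filter fun z => D.g j.2 z ≠ 0, ?_, ?_, ?_, ?_, ?_⟩
  · intro j lam lam' h
    have h1 := dev_congr D S m (lam := lam) (lam' := lam') j.1 (fun u => D.g j.2 u)
      (univ.filter fun z => D.g j.2 z ≠ 0)
      (fun y hy => by
        by_contra h2
        exact hy (mem_filter.2 ⟨mem_univ _, h2⟩))
      (fun y hy => h y (by exact_mod_cast hy))
    simp only [h1]
  · intro j
    by_cases hP : 0 < D.gm j.2
    · refine le_trans (Pool.Agent.Acy.Pr_mono (lawA_isPM hD hm) fun lam hlam => ?_)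
        (g_tail hD hm S j.1 j.2 hP)
      exact hlam.2
    · have h1 : Pr (D.lawA m) (fun lam => 0 < D.gm j.2 ∧
          ¬ |D.dev S m lam j.1 fun u => D.g j.2 u| ≤ D.dv j.2) = 0 := by
        unfold Pr Ex
        refine sum_eq_zero fun lam _ => ?_
        simp only [hP, false_and, if_false, mul_zero]
      rw [h1]
      exact (Real.exp_pos _).le
  · exact fun j => (hD.g_supp j.2).trans (hT.pw (by norm_num))
  · intro y
    have h1 : (univ.filter fun j : Bool × ι => y ∈ univ.filter fun z => D.g j.2 z ≠ 0) ⊆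
        (univ : Finset Bool) ×ˢ (univ.filter fun i => D.g i y ≠ 0) := by
      intro j hj
      simp only [mem_filter, mem_univ, true_and, mem_product] at hj ⊢
      exact hj
    have h2 := card_le_card h1
    rw [card_product, card_univ, Fintype.card_bool] at h2
    have h3 : ((univ.filter fun j : Bool × ι => y ∈ univ.filter fun z =>
        D.g j.2 z ≠ 0).card : ℝ) ≤ 2 * ((univ.filter fun i => D.g i y ≠ 0).card : ℝ) := by
      exact_mod_cast h2
    have h4 : 2 * D.T ^ 30000 ≤ D.T ^ 30001 := two_pow_le hD 30000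
    have h5 := hD.g_deg y
    refine h3.trans (le_trans ?_ h4)
    linarith
  · intro lam h j hP
    exact not_not.1 fun h1 => h j ⟨hP, h1⟩

/-! ### The quadratic tests -/

/-- Weight of a pair of vertices that are both selected. -/
noncomputable def gA (D : NibData Q ι) (S : NState Q D.k) (i : ι) (z z' : Q)
    (e : Option Bool) : ℝ :=
  if e = some true ∧ S.col z = none ∧ S.col z' = none then |D.w i z z'| else 0

theorem gA_nonneg (D : NibData Q ι) (S : NState Q D.k) (i : ι) (z z' : Q) (e : Option Bool) :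
    0 ≤ D.gA S i z z' e := by
  unfold gA
  split_ifs
  · exact abs_nonneg _
  · exact le_rfl

theorem gA_le (D : NibData Q ι) (S : NState Q D.k) (i : ι) (z z' : Q) (e : Option Bool) :
    D.gA S i z z' e ≤ if e = some true then |D.w i z z'| else 0 := by
  unfold gA
  by_cases h : e = some true
  · rw [if_pos h]
    split_ifs
    · exact le_rfl
    · exact abs_nonneg _
  · rw [if_neg h, if_neg (fun h' => h h'.1)]

/-- The family of the sums over the pairs of selected vertices. -/
theorem loc_w (hD : D.Ok) {m : ℕ} (hm : m ≤ D.M) (S : NState Q D.k) :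
    LocOK 30001 D.T (D.lawA m) (fun lam => ∀ i : ι, 0 < D.gm i →
      ∑ u, ∑ u', (if lam u = lam u' then D.gA S i u u' (lam u) else 0) ≤
        12 * D.T ^ 2 * (D.gs i / D.T ^ 266 + 2 * D.gm i)) := by
  have hT := hD.big
  have hT0 := hT.pos
  have hT1 := hT.one_le
  have ht0 := (t_pos hD hm).le
  have ht1 := t_le hD hm
  have htt : D.t m * D.t m ≤ 1 / D.T ^ 266 := by
    calc D.t m * D.t m ≤ 1 / D.T ^ 133 * (1 / D.T ^ 133) :=
          mul_le_mul ht1 ht1 ht0 (by positivity)
      _ = 1 / D.T ^ 266 := by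
          rw [one_div_mul_one_div, ← pow_add]
  have ht2 : D.t m ≤ 1 := by
    have := two_t_le hD hm
    linarith
  have hl : ∀ y, D.lawA m y (some true) = D.t m := fun y => by
    unfold lawA
    rw [if_neg (by simp)]
  refine Pool.Agent.AcyK.loc_pair hT (lawA_isPM hD hm) (fun i => 0 < D.gm i)
    (fun i u u' e => D.gA S i u u' e) (fun i u u' e => gA_nonneg D S i u u' e) ?_
    (fun i => D.gs i / D.T ^ 266 + 2 * D.gm i) ?_ ?_ ?_ ?_
    (fun i => univ.filter fun z => D.g i z ≠ 0) ?_ 30001 ?_ ?_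
  · intro i u e
    unfold gA
    rw [hD.w_diag i u]
    simp
  · intro i hi
    have := gs_nonneg hD i
    positivity
  · intro i hi
    have h1 : ∑ u, ∑ u', ∑ c, D.gA S i u u' c * (D.lawA m u c * D.lawA m u' c) ≤
        ∑ u, ∑ u', |D.w i u u'| * (D.t m * D.t m) := by
      refine sum_le_sum fun u _ => sum_le_sum fun u' _ => ?_
      rw [Fintype.sum_eq_single (some true)]
      · rw [hl, hl]
        refine mul_le_mul_of_nonneg_right ?_ (mul_nonneg ht0 ht0)
        refine (gA_le D S i u u' _).trans ?_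
        rw [if_pos rfl]
      · intro e he
        have : D.gA S i u u' e = 0 := by
          unfold gA
          rw [if_neg (fun h => he h.1)]
        rw [this, zero_mul]
    have h2 : ∑ u, ∑ u', |D.w i u u'| * (D.t m * D.t m) ≤ D.gs i * (1 / D.T ^ 266) := by
      simp only [← sum_mul]
      refine mul_le_mul ?_ htt (mul_nonneg ht0 ht0) (gs_nonneg hD i)
      exact (sum_le_sum fun u _ => hD.w_row i u).trans (hD.g_sum i)
    have h3 : D.gs i * (1 / D.T ^ 266) = D.gs i / D.T ^ 266 := by ring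
    linarith
  · intro i hi u e
    have h1 : ∑ u', (D.gA S i u u' e + D.gA S i u' u e) * D.lawA m u' e ≤
        ∑ u', (|D.w i u u'| + |D.w i u' u|) := by
      refine sum_le_sum fun u' _ => ?_
      have a1 := gA_nonneg D S i u u' e
      have a2 := gA_nonneg D S i u' u e
      have a3 : D.gA S i u u' e ≤ |D.w i u u'| := by
        refine (gA_le D S i u u' e).trans ?_
        split_ifs
        · exact le_rfl
        · exact abs_nonneg _
      have a4 : D.gA S i u' u e ≤ |D.w i u' u| := by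
        refine (gA_le D S i u' u e).trans ?_
        split_ifs
        · exact le_rfl
        · exact abs_nonneg _
      have a5 : D.lawA m u' e ≤ 1 := by
        rw [← (lawA_isPM hD hm).sum_one u']
        exact single_le_sum (fun e' _ => (lawA_isPM hD hm).nonneg u' e') (mem_univ e)
      have a6 : 0 ≤ D.lawA m u' e := (lawA_isPM hD hm).nonneg u' e
      nlinarith
    rw [sum_add_distrib] at h1
    have h2 := hD.w_row i u
    have h3 := w_col hD i u
    have h4 := hD.g_le i u
    have h5 : 0 ≤ D.gs i / D.T ^ 266 := div_nonneg (gs_nonneg hD i) (by positivity)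
    linarith
  · intro i hi u u' e
    have a3 : D.gA S i u u' e ≤ |D.w i u u'| := by
      refine (gA_le D S i u u' e).trans ?_
      split_ifs
      · exact le_rfl
      · exact abs_nonneg _
    have a4 : D.gA S i u' u e ≤ |D.w i u' u| := by
      refine (gA_le D S i u' u e).trans ?_
      split_ifs
      · exact le_rfl
      · exact abs_nonneg _
    have h2 := w_le hD i u u'
    have h3 := w_le' hD i u' u
    have h4 := hD.g_le i u
    have h5 : 0 ≤ D.gs i / D.T ^ 266 := div_nonneg (gs_nonneg hD i) (by positivity)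
    linarith
  · intro i hi u u' e h
    have h1 : D.w i u u' ≠ 0 := by
      intro h2
      apply h
      unfold gA
      rw [h2]
      simp
    have h2 := w_le hD i u u'
    have h3 := w_le' hD i u u'
    have h4 : 0 < |D.w i u u'| := abs_pos.2 h1
    simp only [mem_filter, mem_univ, true_and]
    exact ⟨by linarith, by linarith⟩
  · exact fun i _ => (hD.g_supp i).trans (hT.pw (by norm_num))
  · intro y
    refine ⟨univ.filter fun i => D.g i y ≠ 0, fun i _ hy => ?_, ?_⟩
    · simp only [mem_filter, mem_univ, true_and] at hy ⊢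
      exact hy
    · exact (hD.g_deg y).trans (hT.pw (by norm_num))

theorem sum_gA (D : NibData Q ι) (S : NState Q D.k) (lam : Q → Option Bool) (i : ι) :
    ∑ u, ∑ u', (if lam u = lam u' then D.gA S i u u' (lam u) else 0) =
      ∑ z ∈ Sel S.col lam true, ∑ z' ∈ Sel S.col lam true, |D.w i z z'| := by
  unfold Sel
  rw [sum_filter]
  refine sum_congr rfl fun u _ => ?_
  by_cases h : S.col u = none ∧ lam u = some true
  · rw [if_pos h, sum_filter]
    refine sum_congr rfl fun u' _ => ?_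
    unfold gA
    by_cases h' : S.col u' = none ∧ lam u' = some true
    · rw [if_pos h', if_pos (by rw [h.2, h'.2]), if_pos ⟨h.2, h.1, h'.1⟩]
    · rw [if_neg h']
      split_ifs with h1 h2
      · exact absurd ⟨h2.2.2, by rw [← h1, h2.1]⟩ h'
      · rfl
      · rfl
  · rw [if_neg h]
    refine sum_eq_zero fun u' _ => ?_
    unfold gA
    split_ifs with h1 h2
    · exact absurd ⟨h2.2.1, h2.1⟩ h
    · rfl
    · rfl

/-! ### The families -/

/-- The selection of a round is typical outside a local family of unlikely events. -/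
theorem goodA_stepOK (hD : D.Ok) {S : NState Q D.k} {m : ℕ} (hI : D.Inv S m) (hm : m < D.M) :
    StepOK D.T (D.lawA m) (D.GoodA S m) := by
  have hT := hD.big
  have hT6 : (1000000 : ℝ) ≤ D.T := by
    have := hD.big.big
    norm_num at this
    exact this
  have hT0 : 0 < D.T := by linarith
  have hT1 := hT.one_le
  have hk := k_pos' hD
  have hm' := hm.le
  have p24 : D.T ^ 2 ≤ D.T ^ 4 := hT.pw (by norm_num)
  have p34 : D.T ^ 3 ≤ D.T ^ 4 := hT.pw (by norm_num)
  -- bounds for the weights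
  have b1 : ∀ (b : Fin 3) (x y : Q) (c : Fin D.k), |D.a b x y * S.v y c| ≤ D.T ^ 4 := by
    intro b x y c
    rw [abs_mul, abs_of_nonneg (hD.a_nonneg b x y)]
    calc D.a b x y * |S.v y c| ≤ D.T * D.T :=
          mul_le_mul (hD.a_le b x y) (v_abs hD hI hm' y c) (abs_nonneg _) hT0.le
      _ = D.T ^ 2 := by ring
      _ ≤ _ := p24
  have b2 : ∀ (b : Fin 3) (x y : Q) (p : ℝ), 0 ≤ p → p ≤ 2 * D.T / D.k →
      |D.k * (D.a b x y * p)| ≤ D.T ^ 4 := by
    intro b x y p h0 h1
    have h2 := hD.a_nonneg b x y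
    rw [abs_of_nonneg (by positivity)]
    calc D.k * (D.a b x y * p) ≤ D.k * (D.T * (2 * D.T / D.k)) := by
          refine mul_le_mul_of_nonneg_left ?_ hk.le
          exact mul_le_mul (hD.a_le b x y) h1 h0 hT0.le
      _ = 2 * D.T ^ 2 := by
          field_simp
      _ ≤ D.T * D.T ^ 2 := mul_le_mul_of_nonneg_right (by linarith) (by positivity)
      _ = D.T ^ 3 := by ring
      _ ≤ _ := p34
  have b4 : ∀ (z z' y : Q) (c : Fin D.k), |D.K y z * D.K y z' * S.v y c| ≤ D.T ^ 4 := by
    intro z z' y c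
    rw [abs_mul, abs_mul]
    calc |D.K y z| * |D.K y z'| * |S.v y c| ≤ D.T * D.T * D.T := by
          refine mul_le_mul (mul_le_mul (K_abs hD y z) (K_abs hD y z') (abs_nonneg _) hT0.le)
            (v_abs hD hI hm' y c) (abs_nonneg _) (by positivity)
      _ = D.T ^ 3 := by ring
      _ ≤ _ := p34
  have b5 : ∀ (z z' y : Q) (p : ℝ), 0 ≤ p → p ≤ 2 * D.T / D.k →
      |D.k * (D.K y z * D.K y z' * p)| ≤ D.T ^ 4 := by
    intro z z' y p h0 h1
    rw [abs_mul, abs_mul, abs_mul, abs_of_nonneg hk.le, abs_of_nonneg h0]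
    calc D.k * (|D.K y z| * |D.K y z'| * p) ≤ D.k * (D.T * D.T * (2 * D.T / D.k)) := by
          refine mul_le_mul_of_nonneg_left ?_ hk.le
          exact mul_le_mul (mul_le_mul (K_abs hD y z) (K_abs hD y z') (abs_nonneg _) hT0.le)
            h1 h0 (by positivity)
      _ = 2 * D.T ^ 3 := by
          field_simp
      _ ≤ D.T * D.T ^ 3 := mul_le_mul_of_nonneg_right (by linarith) (by positivity)
      _ = _ := by ring
  have b7 : ∀ (y y' u : Q), |D.K u y * D.K u y'| ≤ D.T ^ 4 := by
    intro y y' u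
    rw [abs_mul]
    calc |D.K u y| * |D.K u y'| ≤ D.T * D.T :=
          mul_le_mul (K_abs hD u y) (K_abs hD u y') (abs_nonneg _) hT0.le
      _ = D.T ^ 2 := by ring
      _ ≤ _ := p24
  have b8 : ∀ (P : Prop) [Decidable P], |(if P then (1 : ℝ) else 0)| ≤ D.T ^ 4 := by
    intro P _
    have h1 : (1 : ℝ) ≤ D.T ^ 4 := one_le_pow₀ hT1
    split_ifs
    · rwa [abs_one]
    · rw [abs_zero]; positivity
  have f1 := loc_dev hD hm' S (κ := Fin 3 × Q × Fin D.k) (fun _ => true) (fun _ => True)
    (fun i y => D.a i.1 i.2.1 y * S.v y i.2.2) (fun i => D.R i.2.1) 1998 4017 16000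
    (fun i _ => hD.R_card _) (fun i _ y => b1 _ _ _ _)
    (fun i _ y hy => by rw [a_off' hD _ _ _ hy, zero_mul]) (by norm_num) (by norm_num)
    (by norm_num) (deg1 hD)
  have f2 := loc_dev hD hm' S (κ := Fin 3 × Bool × Q × Fin D.k) (fun i => i.2.1)
    (fun _ => True)
    (fun i y => D.k * (D.a i.1 i.2.2.1 y * D.p S y i.2.2.2)) (fun i => D.R i.2.2.1)
    1998 4017 16000
    (fun i _ => hD.R_card _)
    (fun i _ y => b2 _ _ _ _ (p_nonneg hD hI hm' _ _) (p_le hD hI hm' _ _))
    (fun i _ y hy => by rw [a_off' hD _ _ _ hy, zero_mul, mul_zero]) (by norm_num) (by norm_num)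
    (by norm_num) (deg1' hD)
  have f4 := loc_dev hD hm' S (κ := Q × Q × Fin D.k) (fun _ => true) (fun i => D.pr i.1 i.2.1)
    (fun i y => D.K y i.1 * D.K y i.2.1 * S.v y i.2.2) (fun i => D.R i.1) 1998 4017 16000
    (fun i _ => hD.R_card _) (fun i _ y => b4 _ _ _ _)
    (fun i _ y hy => by rw [K_off' hD _ _ hy, zero_mul, zero_mul]) (by norm_num) (by norm_num)
    (by norm_num) (deg2 hD)
  have f5 := loc_dev hD hm' S (κ := Bool × Q × Q × Fin D.k) (fun i => i.1)
    (fun i => D.pr i.2.1 i.2.2.1)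
    (fun i y => D.k * (D.K y i.2.1 * D.K y i.2.2.1 * D.p S y i.2.2.2)) (fun i => D.R i.2.1)
    1998 4017 16000 (fun i _ => hD.R_card _)
    (fun i _ y => b5 _ _ _ _ (p_nonneg hD hI hm' _ _) (p_le hD hI hm' _ _))
    (fun i _ y hy => by rw [K_off' hD _ _ hy, zero_mul, zero_mul, mul_zero]) (by norm_num)
    (by norm_num) (by norm_num) (deg2' hD)
  have f7 := loc_dev hD hm' S (κ := Bool × Q × Q) (fun i => i.1)
    (fun i => ∃ x, i.2.1 ∈ D.R x ∧ i.2.2 ∈ D.R x)
    (fun i u => D.K u i.2.1 * D.K u i.2.2) (fun i => D.R i.2.1)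
    1997 4017 16000 (fun i _ => hD.R_card _) (fun i _ y => b7 _ _ _)
    (fun i _ y hy => by rw [K_off' hD _ _ hy, zero_mul]) (by norm_num)
    (by norm_num) (by norm_num) (deg3 hD)
  have f8 := loc_dev hD hm' S (κ := Bool × Q) (fun i => i.1) (fun _ => True)
    (fun i u => if u ∈ D.R i.2 then 1 else 0) (fun i => D.R i.2)
    1997 4017 16000 (fun i _ => hD.R_card _) (fun i _ y => b8 _)
    (fun i _ y hy => if_neg hy) (by norm_num) (by norm_num) (by norm_num) (deg4 hD)
  have f9 := loc_g hD hm' S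
  have f10 := loc_w hD hm' S
  have g1 := LocOK.and hT (LocOK.and hT f1 f2) (LocOK.and hT f4 f5)
  have g2 := LocOK.and hT g1 (LocOK.mono hT (LocOK.and hT f7 f8) (Nat.le_add_right _ 1))
  have g4 := LocOK.and hT (LocOK.mono hT g2 (e' := 30002) (by norm_num))
    (LocOK.and hT f9 f10)
  clear f1 f2 f4 f5 f7 f8 f9 f10 g1 g2
  have g3 := LocOK.stepOK hT g4 (by norm_num)
  clear g4
  obtain ⟨κ, hκ, E, S', hd, hp, hs, hi, hg⟩ := g3
  refine ⟨κ, hκ, E, S', hd, hp, hs, hi, fun lam hE => ?_⟩
  obtain ⟨⟨⟨⟨h1, h2⟩, h4, h5⟩, h7, h8⟩, h9, h10⟩ := hg lam hE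
  exact
    { a1 := fun b x c => h1 (b, x, c) trivial
      a2 := fun b b' x c => h2 (b, b', x, c) trivial
      a4 := fun z z' c h => h4 (z, z', c) h
      a5 := fun b z z' c h => h5 (b, z, z', c) h
      a7 := fun b y y' h => h7 (b, y, y') h
      a8 := fun b x => h8 (b, x) trivial
      a9 := fun b i => by
        by_cases hg : 0 < D.gm i
        · exact h9 (b, i) hg
        · have h0 : ∀ u, D.g i u = 0 := fun u =>
            le_antisymm ((hD.g_le i u).trans (not_lt.1 hg)) (hD.g_nonneg i u)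
          have h11 : (D.dev S m lam b fun u => D.g i u) = 0 := by
            unfold dev
            simp only [h0, sum_const_zero, mul_zero, sub_zero]
          rw [h11, abs_zero]
          exact dv_nonneg hD i
      a10 := fun i => by
        have hgs := gs_nonneg hD i
        by_cases hg : 0 < D.gm i
        · have h11 := h10 i hg
          rw [sum_gA] at h11
          refine h11.trans ?_
          have e1 : 12 * D.T ^ 2 * (D.gs i / D.T ^ 266 + 2 * D.gm i) =
              12 * D.T ^ 2 / D.T ^ 266 * D.gs i + 24 * D.T ^ 2 * D.gm i := by ring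
          have e2 : 12 * D.T ^ 2 / D.T ^ 266 ≤ 1 / D.T ^ 200 := by
            rw [div_le_div_iff₀ (by positivity) (by positivity)]
            have e3 : (12 : ℝ) ≤ D.T ^ 64 := by
              have e4 : D.T ^ 1 ≤ D.T ^ 64 := hT.pw (by norm_num)
              rw [pow_one] at e4
              linarith
            calc 12 * D.T ^ 2 * D.T ^ 200 ≤ D.T ^ 64 * D.T ^ 2 * D.T ^ 200 := by gcongr
              _ = 1 * D.T ^ 266 := by ring
          have e5 : 24 * D.T ^ 2 ≤ D.T ^ 4 := by nlinarith [sq_nonneg (D.T ^ 2)]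
          have e6 := mul_le_mul_of_nonneg_right e2 hgs
          have e7 := mul_le_mul_of_nonneg_right e5 hg.le
          have e8 : D.gs i / D.T ^ 200 = 1 / D.T ^ 200 * D.gs i := by ring
          rw [e1, e8]
          linarith
        · have h0 : ∀ z z', |D.w i z z'| = 0 := fun z z' =>
            le_antisymm ((w_le hD i z z').trans ((hD.g_le i z).trans (not_lt.1 hg)))
              (abs_nonneg _)
          simp only [h0, sum_const_zero]
          have h12 := hD.gm_nonneg i
          positivity }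

end NibData

end

end Pool.Agent.AcyG
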