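import Pool.Agent.AcyG.ODefs
import Pool.Agent.AcyGD.Samp
import Pool.Agent.AcyGD.RKinds

/-! # The accurate linear statistics of the D-part (project MP_af9dfb_G, row OAL) -/

set_option autoImplicit false
set_option linter.unusedSectionVars false

namespace Pool.Agent.AcyG

open Finset
open Pool.Agent.AcyK (Big cN sameCol)
open Pool.Agent.AcyGD (DD)
open scoped Classical

universe u v

section

variable {V : Type u} [Fintype V] [DecidableEq V]

/-- Accurate linear statistics of the D-part. -/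
noncomputable def oaW (D : DD V) (b : ℝ) (i : ULift.{u} (Fin 3) × V) (z z' : V) : ℝ :=
  if i.1.down = 0 then D.wM i.2 i.2 z z' else
  if i.1.down = 1 then D.wP i.2 z z' + D.wP i.2 z' z else D.wF b i.2 z z'

/-- Maxima. -/
noncomputable def oaS (T : ℝ) (i : ULift.{u} (Fin 3) × V) : ℝ :=
  if i.1.down = 0 then 1 else T ^ 2402

/-- Totals. -/
noncomputable def oaL (T b : ℝ) (i : ULift.{u} (Fin 3) × V) : ℝ :=
  if i.1.down = 0 then T ^ 7200 / 2 else if i.1.down = 1 then T ^ 10800 else b * T ^ 7200 / 2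

/-- Row sums. -/
noncomputable def oaR (T : ℝ) (i : ULift.{u} (Fin 3) × V) : ℝ :=
  if i.1.down = 0 then T ^ 3600 else T ^ 7201

section basic

variable {D : DD V} {b : ℝ}

theorem oaW_cases (i : ULift.{u} (Fin 3) × V) :
    i.1.down = 0 ∨ i.1.down = 1 ∨ i.1.down = 2 := by
  obtain ⟨⟨e⟩, v⟩ := i
  fin_cases e <;> simp

theorem oaW_nonneg (i : ULift.{u} (Fin 3) × V) (z z' : V) : 0 ≤ oaW D b i z z' := by
  unfold oaW
  split_ifs
  · exact DD.wM_nonneg _ _ _ _
  · exact add_nonneg (DD.wP_nonneg _ _ _) (DD.wP_nonneg _ _ _)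
  · exact DD.wF_nonneg' _ _ _ _

theorem oaW_ctr {i : ULift.{u} (Fin 3) × V} {z z' : V} (h : oaW D b i z z' ≠ 0) :
    z ∈ D.N i.2 ∨ z' ∈ D.N i.2 := by
  by_contra h1
  push Not at h1
  apply h
  unfold oaW DD.wM DD.wP DD.wF
  simp [h1.1, h1.2]

theorem oaS_pos {T : ℝ} (hT : 0 < T) (i : ULift.{u} (Fin 3) × V) : 0 < oaS T i := by
  unfold oaS
  split_ifs
  · exact one_pos
  · exact pow_pos hT _

variable (hD : D.Ok)
include hD

theorem oaW_symm (i : ULift.{u} (Fin 3) × V) (z z' : V) : oaW D b i z z' = oaW D b i z' z := by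
  unfold oaW
  split_ifs
  · unfold DD.wM
    refine if_congr ?_ rfl rfl
    exact and_comm
  · ring
  · exact DD.wF_symm' hD _ _ _ _

theorem oa_cN_of_cod {z z' : V} (h : D.cod z z' ≠ 0) : (cN D.N z z').Nonempty := by
  rw [nonempty_iff_ne_empty]
  intro h1
  apply h
  unfold DD.cod
  rw [h1]
  simp

theorem oaW_cod {i : ULift.{u} (Fin 3) × V} {z z' : V} (h : oaW D b i z z' ≠ 0) :
    (cN D.N z z').Nonempty := by
  unfold oaW at h
  split_ifs at h with h1 h2
  · unfold DD.wM at h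
    split_ifs at h with h3
    · exact ⟨i.2, DD.mem_cN.2 ⟨hD.N_symm _ _ h3.1, hD.N_symm _ _ h3.2⟩⟩
    · exact absurd rfl h
  · by_contra h3
    apply h
    have h4 : D.cod z z' = 0 := by
      by_contra h5
      exact h3 (oa_cN_of_cod hD h5)
    have h5 : D.cod z' z = 0 := by rw [DD.cod_symm]; exact h4
    unfold DD.wP
    rw [h4, h5]
    split_ifs <;> norm_num
  · by_contra h3
    apply h
    have h4 : cN D.N z z' = ∅ := not_nonempty_iff_eq_empty.1 h3
    unfold DD.wF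
    rw [h4]
    split_ifs <;> simp

theorem oa_wF_le (v z z' : V) : D.wF b v z z' ≤ D.T ^ 2401 := by
  unfold DD.wF
  split_ifs with h1
  · refine le_trans ?_ (DD.cod_le' hD h1.2)
    unfold DD.cod
    exact_mod_cast card_filter_le _ _
  · exact (DD.Tp hD _).le

theorem oa_wF_le_cod (v z z' : V) : D.wF b v z z' ≤ D.cod z z' := by
  unfold DD.wF
  split_ifs with h1
  · unfold DD.cod
    exact_mod_cast card_filter_le _ _
  · exact DD.cod_nonneg _ _

theorem oa_two (a : ℕ) : 2 * D.T ^ a ≤ D.T ^ (a + 1) := by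
  have h1 := DD.Tb hD
  have h2 := DD.Tp hD a
  rw [pow_succ]
  nlinarith

theorem oaW_le (i : ULift.{u} (Fin 3) × V) (z z' : V) : oaW D b i z z' ≤ oaS D.T i := by
  have h2 : 2 * D.T ^ 2401 ≤ D.T ^ 2402 := oa_two hD 2401
  have h0 := DD.Tp hD 2401
  unfold oaW oaS
  split_ifs with h1 h1'
  · unfold DD.wM
    split_ifs <;> norm_num
  · have h3 := DD.wP_le hD i.2 z z'
    have h4 := DD.wP_le hD i.2 z' z
    linarith
  · have h3 := oa_wF_le hD (b := b) i.2 z z'
    linarith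

theorem oa_sum_cod (x : V) : ∑ z, D.cod x z ≤ D.T ^ 7200 := by
  refine le_trans (le_of_eq ?_) (DD.sum_cod_le hD x)
  exact sum_congr rfl fun z _ => DD.cod_symm _ _

theorem oa_wP_le_cod (v z z' : V) : D.wP v z z' ≤ D.cod z z' := by
  unfold DD.wP
  split_ifs
  · exact le_rfl
  · exact DD.cod_nonneg _ _

theorem oaW_row (i : ULift.{u} (Fin 3) × V) (z : V) : ∑ z', oaW D b i z z' ≤ oaR D.T i := by
  have h2 : 2 * D.T ^ 7200 ≤ D.T ^ 7201 := oa_two hD 7200
  have h0 := DD.Tp hD 7200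
  unfold oaW oaR
  split_ifs with h1 h1'
  · refine le_trans ?_ (DD.Nc hD i.2)
    calc ∑ z', D.wM i.2 i.2 z z' ≤ ∑ z', if z' ∈ D.N i.2 then (1 : ℝ) else 0 := by
          refine sum_le_sum fun z' _ => ?_
          unfold DD.wM
          split_ifs with h3 h4 h4
          · exact le_rfl
          · exact absurd h3.2 h4
          · exact zero_le_one
          · exact le_rfl
      _ = ((D.N i.2).card : ℝ) := by
          rw [sum_boole, filter_mem_eq_inter, univ_inter]
  · calc ∑ z', (D.wP i.2 z z' + D.wP i.2 z' z) ≤ ∑ z', (D.cod z z' + D.cod z' z) :=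
          sum_le_sum fun z' _ => add_le_add (oa_wP_le_cod hD _ _ _) (oa_wP_le_cod hD _ _ _)
      _ = ∑ z', D.cod z z' + ∑ z', D.cod z' z := sum_add_distrib
      _ ≤ D.T ^ 7200 + D.T ^ 7200 := add_le_add (oa_sum_cod hD z) (DD.sum_cod_le hD z)
      _ ≤ D.T ^ 7201 := by linarith
  · calc ∑ z', D.wF b i.2 z z' ≤ ∑ z', D.cod z z' :=
          sum_le_sum fun z' _ => oa_wF_le_cod hD _ _ _
      _ ≤ D.T ^ 7200 := oa_sum_cod hD z
      _ ≤ D.T ^ 7201 := by linarith

/-- Total of the first family. -/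
theorem oa_totM (v : V) : ∑ z, ∑ z', D.wM v v z z' ≤ D.T ^ 7200 := by
  have h1 : ∀ z z', D.wM v v z z' = (if z ∈ D.N v then (1 : ℝ) else 0) *
      (if z' ∈ D.N v then 1 else 0) := by
    intro z z'
    unfold DD.wM
    by_cases a1 : z ∈ D.N v <;> by_cases a2 : z' ∈ D.N v <;> simp [a1, a2]
  have h2 : ∑ z, (if z ∈ D.N v then (1 : ℝ) else 0) = ((D.N v).card : ℝ) := by
    rw [sum_boole, filter_mem_eq_inter, univ_inter]
  calc ∑ z, ∑ z', D.wM v v z z' = ∑ z, ∑ z', (if z ∈ D.N v then (1 : ℝ) else 0) *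
      (if z' ∈ D.N v then 1 else 0) := sum_congr rfl fun z _ => sum_congr rfl fun z' _ => h1 z z'
    _ = (∑ z, if z ∈ D.N v then (1 : ℝ) else 0) * ∑ z', if z' ∈ D.N v then (1 : ℝ) else 0 := by
        rw [sum_mul_sum]
    _ = ((D.N v).card : ℝ) * (D.N v).card := by rw [h2]
    _ ≤ D.T ^ 3600 * D.T ^ 3600 := mul_le_mul (DD.Nc hD v) (DD.Nc hD v) (Nat.cast_nonneg _)
        (DD.Tp hD _).le
    _ = D.T ^ 7200 := by rw [← pow_add]

/-- Total of the second family. -/
theorem oa_totP (v : V) : ∑ z, ∑ z', D.wP v z z' ≤ D.T ^ 10800 := by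
  have h1 : ∀ z, ∑ z', D.wP v z z' ≤ if z ∈ D.N v then D.T ^ 7200 else 0 := by
    intro z
    split_ifs with h2
    · exact (sum_le_sum fun z' _ => oa_wP_le_cod hD v z z').trans (oa_sum_cod hD z)
    · refine le_of_eq (sum_eq_zero fun z' _ => ?_)
      unfold DD.wP
      rw [if_neg (fun h3 => h2 h3.1)]
  calc ∑ z, ∑ z', D.wP v z z' ≤ ∑ z, if z ∈ D.N v then D.T ^ 7200 else 0 :=
        sum_le_sum fun z _ => h1 z
    _ = ((D.N v).card : ℝ) * D.T ^ 7200 := by
        rw [← sum_filter, filter_mem_eq_inter, univ_inter, sum_const, nsmul_eq_mul]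
    _ ≤ D.T ^ 3600 * D.T ^ 7200 := mul_le_mul_of_nonneg_right (DD.Nc hD v) (DD.Tp hD _).le
    _ = D.T ^ 10800 := by rw [← pow_add]

/-- Total of the third family. -/
theorem oa_totF (v : V) (hb : 0 ≤ b) : ∑ z, ∑ z', D.wF b v z z' ≤ b * D.T ^ 7200 := by
  have h1 : ∀ z z', D.wF b v z z' ≤ ∑ x, (if D.cod x v < b then (1 : ℝ) else 0) *
      ((if z ∈ cN D.N x v then (1 : ℝ) else 0) * (if z' ∈ cN D.N x v then 1 else 0)) := by
    intro z z'
    have h0 : (0 : ℝ) ≤ ∑ x, (if D.cod x v < b then (1 : ℝ) else 0) *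
      ((if z ∈ cN D.N x v then (1 : ℝ) else 0) * (if z' ∈ cN D.N x v then 1 else 0)) := by
      refine sum_nonneg fun x _ => ?_
      split_ifs <;> norm_num
    unfold DD.wF
    split_ifs with h2
    · rw [natCast_card_filter]
      have h3 : (∑ a ∈ cN D.N z z', if a ≠ v ∧ D.T ^ 2385 ≤ D.cod a v ∧ D.cod a v < b then
          (1 : ℝ) else 0) ≤ ∑ a ∈ cN D.N z z', (if D.cod a v < b then (1 : ℝ) else 0) *
          ((if z ∈ cN D.N a v then (1 : ℝ) else 0) * (if z' ∈ cN D.N a v then 1 else 0)) := by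
        refine sum_le_sum fun a ha => ?_
        rw [DD.mem_cN] at ha
        have a1 : z ∈ cN D.N a v := DD.mem_cN.2 ⟨hD.N_symm _ _ ha.1, h2.1.1⟩
        have a2 : z' ∈ cN D.N a v := DD.mem_cN.2 ⟨hD.N_symm _ _ ha.2, h2.1.2⟩
        rw [if_pos a1, if_pos a2, mul_one, mul_one]
        split_ifs with b1 b2 b2
        · exact le_rfl
        · exact absurd b1.2.2 b2
        · exact zero_le_one
        · exact le_rfl
      refine h3.trans (sum_le_sum_of_subset_of_nonneg (subset_univ _) fun x _ _ => ?_)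
      split_ifs <;> norm_num
    · exact h0
  have h2 : ∀ x, ∑ z, (if z ∈ cN D.N x v then (1 : ℝ) else 0) = D.cod x v := by
    intro x
    rw [sum_boole, filter_mem_eq_inter, univ_inter]
    rfl
  calc ∑ z, ∑ z', D.wF b v z z' ≤ ∑ z, ∑ z', ∑ x, (if D.cod x v < b then (1 : ℝ) else 0) *
      ((if z ∈ cN D.N x v then (1 : ℝ) else 0) * (if z' ∈ cN D.N x v then 1 else 0)) :=
        sum_le_sum fun z _ => sum_le_sum fun z' _ => h1 z z'
    _ = ∑ z, ∑ x, ∑ z', (if D.cod x v < b then (1 : ℝ) else 0) *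
      ((if z ∈ cN D.N x v then (1 : ℝ) else 0) * (if z' ∈ cN D.N x v then 1 else 0)) :=
        sum_congr rfl fun z _ => sum_comm
    _ = ∑ x, ∑ z, ∑ z', (if D.cod x v < b then (1 : ℝ) else 0) *
      ((if z ∈ cN D.N x v then (1 : ℝ) else 0) * (if z' ∈ cN D.N x v then 1 else 0)) := sum_comm
    _ = ∑ x, (if D.cod x v < b then (1 : ℝ) else 0) * (D.cod x v * D.cod x v) := by
        refine sum_congr rfl fun x _ => ?_
        rw [← h2 x, sum_mul_sum, mul_sum]
        refine sum_congr rfl fun z _ => ?_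
        rw [mul_sum]
    _ ≤ ∑ x, b * D.cod x v := by
        refine sum_le_sum fun x _ => ?_
        have h3 := DD.cod_nonneg (D := D) x v
        split_ifs with h4
        · rw [one_mul]
          exact mul_le_mul_of_nonneg_right h4.le h3
        · rw [zero_mul]
          exact mul_nonneg hb h3
    _ = b * ∑ x, D.cod x v := by rw [mul_sum]
    _ ≤ b * D.T ^ 7200 := mul_le_mul_of_nonneg_left (DD.sum_cod_le hD v) hb

theorem oaW_tot (hb : 0 ≤ b) (i : ULift.{u} (Fin 3) × V) :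
    1 / 2 * (∑ z, ∑ z', oaW D b i z z') ≤ oaL D.T b i := by
  unfold oaW oaL
  split_ifs with h1 h1'
  · have := oa_totM hD i.2
    linarith
  · have h3 := oa_totP hD i.2
    have h4 : ∑ z, ∑ z', (D.wP i.2 z z' + D.wP i.2 z' z) =
        2 * ∑ z, ∑ z', D.wP i.2 z z' := by
      rw [sum_congr rfl fun z _ => sum_add_distrib, sum_add_distrib,
        sum_comm (f := fun z z' => D.wP i.2 z' z), two_mul]
    linarith
  · have := oa_totF hD i.2 hb
    linarith

theorem oaW_ext (i : ULift.{u} (Fin 3) × V) {v w : V} (h : D.cod v w ≤ D.am) :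
    1 / 2 * (∑ z ∈ cN D.N v w, ∑ z' ∈ cN D.N v w, oaW D b i z z') ≤
      D.T ^ 4803 * oaS D.T i := by
  have hs := oaS_pos (DD.T0 hD) i
  have h1 : ∑ z ∈ cN D.N v w, ∑ z' ∈ cN D.N v w, oaW D b i z z' ≤
      D.cod v w ^ 2 * oaS D.T i := by
    calc ∑ z ∈ cN D.N v w, ∑ z' ∈ cN D.N v w, oaW D b i z z' ≤
        ∑ z ∈ cN D.N v w, ∑ z' ∈ cN D.N v w, oaS D.T i :=
          sum_le_sum fun z _ => sum_le_sum fun z' _ => oaW_le hD i z z'
      _ = D.cod v w ^ 2 * oaS D.T i := by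
          rw [sum_const, sum_const, nsmul_eq_mul, nsmul_eq_mul]
          unfold DD.cod
          ring
  have h2 : D.cod v w ^ 2 ≤ D.T ^ 4802 := by
    calc D.cod v w ^ 2 ≤ (D.T ^ 2401) ^ 2 :=
          pow_le_pow_left₀ (DD.cod_nonneg _ _) (h.trans hD.am_hi) 2
      _ = D.T ^ 4802 := by rw [← pow_mul]
  have h3 : D.T ^ 4802 ≤ D.T ^ 4803 := hD.big.pw (by norm_num)
  have h4 : D.cod v w ^ 2 * oaS D.T i ≤ D.T ^ 4803 * oaS D.T i :=
    mul_le_mul_of_nonneg_right (h2.trans h3) hs.le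
  have h5 : 0 ≤ D.cod v w ^ 2 * oaS D.T i := by positivity
  linarith

end basic

end

end Pool.Agent.AcyG
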