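import Pool.Agent.AcyG.OCol

/-! # Outer process: counting (project MP_af9dfb_G, row OC3, helper30) -/

set_option autoImplicit false
set_option linter.unusedSectionVars false

namespace Pool.Agent.AcyG

open Finset
open Pool.Agent.Acy (IsPM wt Ex Pr mean)
open Pool.Agent.AcyK (Big StepOK LocOK prodLaw Un Sel updCol HasC cN)
open scoped Classical

universe u v

section

variable {V AL : Type u} [Fintype V] [DecidableEq V] [Fintype AL]

namespace GData

variable {D : GData V AL}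

theorem oc3_dec (hD : D.Ok) {j : ℕ} (hj : j ≤ D.NS) : 1 / D.Kc ≤ D.dec j := by
  have h1 := os_jR hD hj
  have h2 : 0 ≤ 4 * D.C0 * D.H := by
    have a1 := hD.C0_one
    have a2 := hD.H_one
    positivity
  have h3 : 4 * D.C0 * D.H * (j / D.R) ≤ 10 * D.C0 * D.H * D.kap := by
    have a1 := hD.C0_one
    have a2 := hD.H_one
    have a3 := hD.kap_one
    have a4 := mul_le_mul_of_nonneg_left h1 h2
    have a5 : 0 ≤ D.C0 * D.H * D.kap := by positivity
    nlinarith
  have h4 : Real.exp (4 * D.C0 * D.H * (j / D.R)) ≤ D.Kc :=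
    (Real.exp_le_exp.2 h3).trans hD.Kc_exp
  unfold dec
  rw [Real.exp_neg, one_div]
  exact inv_anti₀ (Real.exp_pos _) h4

/-- A weight of a pair is `0` or at least `1 / Kc`. -/
theorem oc3_chi_ge (hD : D.Ok) {W0 W1 : ℝ} {j : ℕ} (hj : j ≤ D.NS) {s : GState V}
    {C : V → Option (ℕ × Fin D.k × ℕ)} (h : D.SInv W0 W1 j s C) {z z' : V}
    (h0 : D.chi s z z' ≠ 0) : 1 ≤ D.Kc * D.chi s z z' := by
  have hK := os_Kc_one hD
  have hK0 : 0 < D.Kc := by linarith
  rcases os_chi_cases h0 with h1 | h1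
  · rw [os_chi_nf h1]
    rcases h.X_lo z z' with h2 | h2
    · exact absurd h2 h1.2.2
    · have h3 := (oc3_dec hD hj).trans h2
      rw [div_le_iff₀ hK0] at h3
      linarith
  · have h2 : ¬ D.nf s z z' := fun h2 =>
      absurd h1.1.2.2 (not_lt.2 h2.1.2.2.1)
    have h3 : D.chi s z z' = 1 := by
      unfold chi
      rw [if_neg h2, if_pos h1]
    rw [h3]
    linarith

end GData

namespace GSt

variable {Lb : Type u} [Fintype Lb] {E : GSt V Lb AL} (hE : E.Ok)

section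
include hE

theorem oc3_gu_le (l : Lb) (z z' x y : V) :
    |E.gu l z z' x y| ≤ E.Bx * (if E.u l z z' x y ≠ 0 then 1 else 0) := by
  by_cases h : E.u l z z' x y ≠ 0
  · rw [if_pos h, mul_one]
    exact gu_abs hE l z z' x y
  · rw [if_neg h, mul_zero]
    have h1 : E.gu l z z' x y = 0 := by
      unfold gu
      rw [not_not.1 h, ite_self]
    rw [h1, abs_zero]

theorem oc3_ratio_nonneg : 0 ≤ E.H / E.tau :=
  div_nonneg (by linarith [hE.dat.H_one]) hE.tau_pos.le

theorem oc3_Bx1 : E.Bx * (1 + E.B0 * (1 + E.H / E.tau)) ≤ E.Kc := by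
  have h1 := hE.Bx_le
  have h2 := hE.Bx_one
  have h3 := oc3_ratio_nonneg hE
  have h4 := hE.q0_pos
  have h5 := hE.dat.H_one
  have h6 : 0 ≤ 1 + E.q0 * (E.H * (1 + E.H / E.tau)) := by positivity
  unfold Cx at h1
  have h7 : E.Bx * (1 + E.B0 * (1 + E.H / E.tau)) ≤
      E.Bx * ((1 + E.B0 * (1 + E.H / E.tau)) + (1 + E.q0 * (E.H * (1 + E.H / E.tau)))) :=
    mul_le_mul_of_nonneg_left (by linarith) (by linarith)
  exact h7.trans h1

theorem oc3_Bx2 : E.Bx * (1 + E.q0 * (E.H * (1 + E.H / E.tau))) ≤ E.Kc := by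
  have h1 := hE.Bx_le
  have h2 := hE.Bx_one
  have h3 := oc3_ratio_nonneg hE
  have h6 : (0 : ℝ) ≤ 1 + E.B0 * (1 + E.H / E.tau) := by positivity
  unfold Cx at h1
  have h7 : E.Bx * (1 + E.q0 * (E.H * (1 + E.H / E.tau))) ≤
      E.Bx * ((1 + E.B0 * (1 + E.H / E.tau)) + (1 + E.q0 * (E.H * (1 + E.H / E.tau)))) :=
    mul_le_mul_of_nonneg_left (by linarith) (by linarith)
  exact h7.trans h1

theorem oc3_cod (v w : V) (h : (E.sd E.s).chi v w ≠ 0) :
    ((cN (E.sd E.s).N v w).card : ℝ) ≤ E.am := GData.os_chi_cod hE.dat h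

/-- Number of pairs that influence `x y`. -/
theorem cnt_abs (x y : V) : ∑ z, ∑ z', ∑ l, E.μ z z' l * |E.gu l z z' x y| ≤
    E.Kc ^ 2 * E.n1 * E.Y E.s x y := by
  have hn := GData.os_n1_pos hE.dat
  have hK := GData.os_Kc_one hE.dat
  have hY := GData.os_Y_nonneg hE.dat hE.inv.toSInv x y
  have h1 : ∀ z z', ∑ l, E.μ z z' l * |E.gu l z z' x y| ≤
      E.Kc * (E.chi E.s z z' * ∑ l, E.μ z z' l * |E.gu l z z' x y|) := by
    intro z z'
    have h2 : 0 ≤ ∑ l, E.μ z z' l * |E.gu l z z' x y| :=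
      sum_nonneg fun l _ => mul_nonneg (hE.cols.mu_nonneg z z' l) (abs_nonneg _)
    by_cases h3 : E.chi E.s z z' = 0
    · have h4 : ∑ l, E.μ z z' l * |E.gu l z z' x y| = 0 := by
        refine sum_eq_zero fun l _ => ?_
        have h5 : E.gu l z z' x y = 0 := by
          by_contra h6
          exact (gu_chi hE h6).1 h3
        rw [h5, abs_zero, mul_zero]
      rw [h4, mul_zero, mul_zero]
    · have h4 := GData.oc3_chi_ge hE.dat hE.j_lt.le hE.inv.toSInv h3
      calc ∑ l, E.μ z z' l * |E.gu l z z' x y| = 1 * ∑ l, E.μ z z' l * |E.gu l z z' x y| := by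
            rw [one_mul]
        _ ≤ (E.Kc * E.chi E.s z z') * ∑ l, E.μ z z' l * |E.gu l z z' x y| :=
            mul_le_mul_of_nonneg_right h4 h2
        _ = _ := by ring
  have h2 : ∑ z, ∑ z', ∑ l, E.μ z z' l * |E.gu l z z' x y| ≤
      E.Kc * (2 * E.n1 * E.prd (fun z z' l => |E.gu l z z' x y|)) := by
    refine (sum_le_sum fun z _ => sum_le_sum fun z' _ => h1 z z').trans (le_of_eq ?_)
    simp only [← mul_sum]
    congr 1
    unfold prd mn
    rw [← mul_assoc, mul_one_div_cancel (by positivity : (2 * E.n1 : ℝ) ≠ 0), one_mul]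
  refine h2.trans ?_
  have h3 := prd_abs hE x y
  have h4 : 4 * E.C0 ≤ E.Kc := by
    have a1 := hE.dat.kap_one
    have a2 := hE.dat.H_one
    have a3 := hE.dat.C0_one
    have a4 : E.C0 ≤ E.kap * E.H * E.C0 := by
      have : (1 : ℝ) ≤ E.kap * E.H := one_le_mul_of_one_le_of_one_le a1 a2
      exact le_mul_of_one_le_left (by linarith) this
    have a5 : (1 : ℝ) ≤ E.kap * E.H * E.C0 := a3.trans a4
    have a6 : E.kap * E.H * E.C0 ≤ (E.kap * E.H * E.C0) ^ 10 := by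
      have := pow_le_pow_right₀ a5 (show 1 ≤ 10 by norm_num)
      rwa [pow_one] at this
    have a7 := hE.dat.Kc_ge
    nlinarith
  calc E.Kc * (2 * E.n1 * E.prd (fun z z' l => |E.gu l z z' x y|))
      ≤ E.Kc * (2 * E.n1 * (2 * E.C0 * E.Y E.s x y)) := by
        refine mul_le_mul_of_nonneg_left ?_ (by linarith)
        exact mul_le_mul_of_nonneg_left h3 (by positivity)
    _ = (4 * E.C0) * (E.Kc * E.n1 * E.Y E.s x y) := by ring
    _ ≤ E.Kc * (E.Kc * E.n1 * E.Y E.s x y) :=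
        mul_le_mul_of_nonneg_right h4 (by positivity)
    _ = E.Kc ^ 2 * E.n1 * E.Y E.s x y := by ring

/-- Number of partners of `z` with which it influences `x y`. -/
theorem cnt_row (x y z : V) : ∑ z', ∑ l, E.μ z z' l * |E.gu l z z' x y| ≤ E.Kc * E.am := by
  have ham := (GData.os_am_pos hE.dat).le
  have h1 := hE.cols.col_card x y z ham (oc3_cod hE)
  have h2 : ∑ z', ∑ l, E.μ z z' l * |E.gu l z z' x y| ≤
      E.Bx * ∑ z', ∑ l, E.μ z z' l * (if E.u l z z' x y ≠ 0 then 1 else 0) := by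
    rw [mul_sum]
    refine sum_le_sum fun z' _ => ?_
    rw [mul_sum]
    refine sum_le_sum fun l _ => ?_
    calc E.μ z z' l * |E.gu l z z' x y|
        ≤ E.μ z z' l * (E.Bx * (if E.u l z z' x y ≠ 0 then 1 else 0)) :=
          mul_le_mul_of_nonneg_left (oc3_gu_le hE l z z' x y) (hE.cols.mu_nonneg z z' l)
      _ = _ := by ring
  have hB := hE.Bx_one
  calc ∑ z', ∑ l, E.μ z z' l * |E.gu l z z' x y|
      ≤ E.Bx * ((1 + E.q0 * (E.H * (1 + E.H / E.tau))) * E.am) :=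
        h2.trans (mul_le_mul_of_nonneg_left h1 (by linarith))
    _ = (E.Bx * (1 + E.q0 * (E.H * (1 + E.H / E.tau)))) * E.am := by ring
    _ ≤ E.Kc * E.am := mul_le_mul_of_nonneg_right (oc3_Bx2 hE) ham

/-- Pairs at `x` influenced by one firing. -/
theorem ext_row (l : Lb) (z z' x : V) : ∑ y, |E.gu l z z' x y| ≤ E.Kc * E.am := by
  have ham := (GData.os_am_pos hE.dat).le
  have h1 := hE.cols.row_card l z z' x E.am ham (oc3_cod hE)
  have hB := hE.Bx_one
  have h2 : ∑ y, |E.gu l z z' x y| ≤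
      E.Bx * ((univ.filter fun y => E.u l z z' x y ≠ 0).card : ℝ) := by
    rw [← sum_boole, mul_sum]
    exact sum_le_sum fun y _ => oc3_gu_le hE l z z' x y
  calc ∑ y, |E.gu l z z' x y|
      ≤ E.Bx * ((1 + E.B0 * (1 + E.H / E.tau)) * E.am) :=
        h2.trans (mul_le_mul_of_nonneg_left h1 (by linarith))
    _ = (E.Bx * (1 + E.B0 * (1 + E.H / E.tau))) * E.am := by ring
    _ ≤ E.Kc * E.am := mul_le_mul_of_nonneg_right (oc3_Bx1 hE) ham

/-- Pairs influenced by one firing, with weights. -/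
theorem ext_all (l : Lb) (z z' : V) (ψ : V → V → ℝ) (a : ℝ) (h1 : ∀ x y, ψ x y = ψ y x)
    (h2 : ∀ x y, 0 ≤ ψ x y) (ha : 0 ≤ a) (h3 : ∀ v w, E.cod v w ≤ E.am →
      1 / 2 * ∑ x ∈ cN E.N v w, ∑ y ∈ cN E.N v w, ψ x y ≤ a) :
    1 / 2 * ∑ x, ∑ y, ψ x y * |E.gu l z z' x y| ≤ E.Kc * a := by
  have hB := hE.Bx_one
  have h4 := hE.cols.row_ext l z z' ψ a h1 h2 ha fun v w hvw => h3 v w (oc3_cod hE v w hvw)
  have h5 : ∑ x, ∑ y, ψ x y * |E.gu l z z' x y| ≤
      E.Bx * ∑ x, ∑ y, (if E.u l z z' x y ≠ 0 then ψ x y else 0) := by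
    rw [mul_sum]
    refine sum_le_sum fun x _ => ?_
    rw [mul_sum]
    refine sum_le_sum fun y _ => ?_
    calc ψ x y * |E.gu l z z' x y|
        ≤ ψ x y * (E.Bx * (if E.u l z z' x y ≠ 0 then 1 else 0)) :=
          mul_le_mul_of_nonneg_left (oc3_gu_le hE l z z' x y) (h2 x y)
      _ = _ := by
          split_ifs
          · ring
          · ring
  calc 1 / 2 * ∑ x, ∑ y, ψ x y * |E.gu l z z' x y|
      ≤ 1 / 2 * (E.Bx * ∑ x, ∑ y, (if E.u l z z' x y ≠ 0 then ψ x y else 0)) :=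
        mul_le_mul_of_nonneg_left h5 (by norm_num)
    _ = E.Bx * (1 / 2 * ∑ x, ∑ y, (if E.u l z z' x y ≠ 0 then ψ x y else 0)) := by ring
    _ ≤ E.Bx * ((1 + E.B0 * (1 + E.H / E.tau)) * a) :=
        mul_le_mul_of_nonneg_left h4 (by linarith)
    _ = (E.Bx * (1 + E.B0 * (1 + E.H / E.tau))) * a := by ring
    _ ≤ E.Kc * a := mul_le_mul_of_nonneg_right (oc3_Bx1 hE) ha

end

end GSt

end

end Pool.Agent.AcyG
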