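import Pool.Agent.AcyG.OSite

/-! # Outer process: consequences of the columns for the effects `gu`, `ga`
(project MP_af9dfb_G, row OC1) -/

set_option autoImplicit false
set_option linter.unusedSectionVars false

namespace Pool.Agent.AcyG

open Finset
open Pool.Agent.Acy (IsPM wt Ex Pr mean)
open Pool.Agent.AcyK (Big StepOK LocOK prodLaw Un Sel updCol HasC cN)
open scoped Classical

universe u v

section

variable {V AL : Type u} [Fintype V] [DecidableEq V] [Fintype AL]

namespace GSt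

variable {Lb : Type u} [Fintype Lb] {E : GSt V Lb AL} (hE : E.Ok)

section
include hE

theorem gu_symm1 (l : Lb) (z z' x y : V) : E.gu l z z' x y = E.gu l z' z x y := by
  unfold gu
  rw [hE.cols.symm1 l z z' x y]

theorem gu_symm2 (l : Lb) (z z' x y : V) : E.gu l z z' x y = E.gu l z z' y x := by
  unfold gu
  rw [hE.cols.symm2 l z z' x y]
  exact if_congr (GData.os_nf_comm hE.dat hE.inv.toSInv x y) rfl rfl

theorem ga_symm1 (l : Lb) (z z' x y : V) : E.ga l z z' x y = E.ga l z' z x y := by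
  unfold ga
  rw [hE.cols.symm1 l z z' x y]

theorem ga_symm2 (l : Lb) (z z' x y : V) : E.ga l z z' x y = E.ga l z z' y x := by
  unfold ga
  rw [hE.cols.symm2 l z z' x y]
  exact if_congr (GData.os_aw_comm hE.dat hE.inv.toSInv x y) rfl rfl

theorem gu_cases (l : Lb) (z z' x y : V) : E.gu l z z' x y = 0 ∨
    (E.gu l z z' x y = -1 ∧ E.nf E.s x y ∧ E.chi E.s z z' ≠ 0 ∧ z ∈ cN E.N x y ∧
      z' ∈ cN E.N x y) ∨
    (1 ≤ E.gu l z z' x y ∧ E.gu l z z' x y ≤ E.Bx ∧ E.aw E.s x y ∧ E.aw E.s z z') := by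
  by_cases h : E.nf E.s x y
  · have e1 : E.gu l z z' x y = E.u l z z' x y := if_pos h
    rw [e1]
    by_cases h1 : (E.toGData.sd E.s).lnk z z' x y
    · exact Or.inr (Or.inl ⟨hE.cols.kill l z z' x y h1, h, h1.1, h1.2.2.1, h1.2.2.2⟩)
    · rcases hE.cols.vals l z z' x y h1 with h2 | h2
      · exact Or.inl h2
      · have h3 : E.u l z z' x y ≠ 0 := by
          intro h4
          rw [h4] at h2
          linarith [h2.1]
        obtain ⟨-, h4, -, h5⟩ := hE.cols.supp l z z' x y h1 h3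
        exact Or.inr (Or.inr ⟨h2.1, h2.2, h4, h5⟩)
  · exact Or.inl (if_neg h)

theorem gu_chi {l : Lb} {z z' x y : V} (h : E.gu l z z' x y ≠ 0) :
    E.chi E.s z z' ≠ 0 ∧ E.nf E.s x y := by
  rcases gu_cases hE l z z' x y with h1 | ⟨-, h1, h2, -⟩ | ⟨-, -, h1, h2⟩
  · exact absurd h1 h
  · exact ⟨h2, h1⟩
  · refine ⟨?_, GData.os_nf_of_aw h1⟩
    rw [GData.os_chi_nf (GData.os_nf_of_aw h2)]
    exact h2.2.2

theorem gu_kill {z z' x y : V} (h : E.chi E.s z z' ≠ 0) (h1 : E.nf E.s x y)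
    (hz : z ∈ cN E.N x y) (hz' : z' ∈ cN E.N x y) (l : Lb) : E.gu l z z' x y = -1 := by
  have e1 : E.gu l z z' x y = E.u l z z' x y := if_pos h1
  rw [e1]
  refine hE.cols.kill l z z' x y ⟨h, ?_, hz, hz'⟩
  show E.chi E.s x y ≠ 0
  rw [GData.os_chi_nf h1]
  exact h1.2.2

theorem ga_eq {x y : V} (h : E.aw E.s x y) (l : Lb) (z z' : V) :
    E.ga l z z' x y = E.gu l z z' x y := by
  have e1 : E.ga l z z' x y = E.u l z z' x y := if_pos h
  have e2 : E.gu l z z' x y = E.u l z z' x y := if_pos (GData.os_nf_of_aw h)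
  rw [e1, e2]

theorem gu_abs (l : Lb) (z z' x y : V) : |E.gu l z z' x y| ≤ E.Bx := by
  have hB := hE.Bx_one
  rcases gu_cases hE l z z' x y with h1 | ⟨h1, -⟩ | ⟨h1, h2, -⟩
  · rw [h1, abs_zero]
    linarith
  · rw [h1, abs_neg, abs_one]
    exact hB
  · rw [abs_of_nonneg (by linarith)]
    exact h2

theorem gu_one {l : Lb} {z z' x y : V} (h : E.gu l z z' x y ≠ 0) :
    1 ≤ |E.gu l z z' x y| := by
  rcases gu_cases hE l z z' x y with h1 | ⟨h1, -⟩ | ⟨h1, h2, -⟩
  · exact absurd h1 h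
  · rw [h1, abs_neg, abs_one]
  · rw [abs_of_nonneg (by linarith)]
    exact h1

theorem ga_abs_le (l : Lb) (z z' x y : V) : |E.ga l z z' x y| ≤ |E.gu l z z' x y| := by
  by_cases h : E.aw E.s x y
  · rw [ga_eq hE h]
  · have e1 : E.ga l z z' x y = 0 := if_neg h
    rw [e1, abs_zero]
    exact abs_nonneg _

/-- Everything that interacts is near. -/
theorem gu_near {l : Lb} {z z' x y : V} (h : E.gu l z z' x y ≠ 0) :
    (z ∈ cN E.N x y ∧ z' ∈ cN E.N x y) ∨ ∃ a b, z ∈ cN E.N a b ∧ z' ∈ cN E.N a b ∧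
      (x ∈ cN E.N a b ∧ y ∈ cN E.N a b ∨
        ∃ q q', q ∈ cN E.N a b ∧ q' ∈ cN E.N a b ∧ q ∈ cN E.N x y ∧ q' ∈ cN E.N x y) := by
  have h1 : E.u l z z' x y ≠ 0 := by
    intro h2
    apply h
    unfold gu
    rw [h2, ite_self]
  rcases hE.cols.near l z z' x y h1 with h2 | ⟨a, b, -, h2, h3, h4⟩
  · exact Or.inl h2.2.2
  · exact Or.inr ⟨a, b, h2, h3, h4⟩

/-! ### Rates -/

/-- Comparison of the predicted values. -/
theorem oc_prd_mono {w w' : V → V → Lb → ℝ} (h : ∀ z z' l, w z z' l ≤ w' z z' l) :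
    E.prd w ≤ E.prd w' := by
  unfold prd mn
  have hn := GData.os_n1_pos hE.dat
  refine mul_le_mul_of_nonneg_left (sum_le_sum fun z _ => sum_le_sum fun z' _ => ?_)
    (by positivity)
  exact mul_le_mul_of_nonneg_left (sum_le_sum fun l _ =>
    mul_le_mul_of_nonneg_left (h z z' l) (hE.cols.mu_nonneg z z' l))
      (GData.os_chi_nonneg hE.inv.toSInv z z')

omit hE in
theorem oc_prd_add (w w' : V → V → Lb → ℝ) :
    E.prd (fun z z' l => w z z' l + w' z z' l) = E.prd w + E.prd w' := by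
  unfold prd mn
  simp only [mul_add, sum_add_distrib]

omit hE in
theorem oc_prd_mul (c : ℝ) (w : V → V → Lb → ℝ) :
    E.prd (fun z z' l => c * w z z' l) = c * E.prd w := by
  unfold prd mn
  simp only [mul_sum]
  refine sum_congr rfl fun z _ => sum_congr rfl fun z' _ => sum_congr rfl fun l _ => ?_
  ring

/-- Predicted values of nonnegative tests. -/
theorem oc_prd_nonneg {w : V → V → Lb → ℝ} (h : ∀ z z' l, 0 ≤ w z z' l) : 0 ≤ E.prd w := by
  unfold prd mn
  have hn := GData.os_n1_pos hE.dat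
  refine mul_nonneg (by positivity) (sum_nonneg fun z _ => sum_nonneg fun z' _ => ?_)
  exact mul_nonneg (GData.os_chi_nonneg hE.inv.toSInv z z') (sum_nonneg fun l _ =>
    mul_nonneg (hE.cols.mu_nonneg z z' l) (h z z' l))

/-- Rate of the killings. -/
theorem prd_kill (x y : V) :
    E.prd (fun z z' l => max (-E.gu l z z' x y) 0) ≤ E.Y E.s x y := by
  have hn := GData.os_n1_pos hE.dat
  rw [GData.os_Y_eq]
  unfold prd mn
  refine mul_le_mul_of_nonneg_left ?_ (by positivity)
  have e1 : ∀ z z', E.chi E.s z z' * ∑ l, E.μ z z' l * max (-E.gu l z z' x y) 0 ≤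
      if z ∈ cN E.N x y then (if z' ∈ cN E.N x y then E.chi E.s z z' else 0) else 0 := by
    intro z z'
    have h0 := GData.os_chi_nonneg hE.inv.toSInv z z'
    by_cases h1 : z ∈ cN E.N x y ∧ z' ∈ cN E.N x y
    · rw [if_pos h1.1, if_pos h1.2]
      have h2 : ∑ l, E.μ z z' l * max (-E.gu l z z' x y) 0 ≤ 1 := by
        rw [← hE.cols.mu_sum z z']
        refine sum_le_sum fun l _ => ?_
        have h3 : max (-E.gu l z z' x y) 0 ≤ 1 := by
          refine max_le ?_ zero_le_one
          rcases gu_cases hE l z z' x y with h4 | ⟨h4, -⟩ | ⟨h4, -⟩ <;> linarith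
        exact mul_le_of_le_one_right (hE.cols.mu_nonneg z z' l) h3
      exact mul_le_of_le_one_right h0 h2
    · have h2 : ∀ l, max (-E.gu l z z' x y) 0 = 0 := by
        intro l
        refine max_eq_right ?_
        rcases gu_cases hE l z z' x y with h4 | ⟨-, -, -, h4⟩ | ⟨h4, -⟩
        · linarith
        · exact absurd h4 h1
        · linarith
      simp only [h2, mul_zero, sum_const_zero]
      split_ifs
      exacts [h0, le_rfl, le_rfl]
  refine (sum_le_sum fun z _ => sum_le_sum fun z' _ => e1 z z').trans (le_of_eq ?_)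
  have e2 : ∀ z, ∑ z', (if z ∈ cN E.N x y then (if z' ∈ cN E.N x y then E.chi E.s z z' else 0)
      else 0) = if z ∈ cN E.N x y then ∑ z' ∈ cN E.N x y, E.chi E.s z z' else 0 := by
    intro z
    split_ifs
    · rw [sum_ite_mem, univ_inter]
    · exact sum_const_zero
  simp only [e2]
  rw [sum_ite_mem, univ_inter]

theorem prd_pos (x y : V) :
    E.prd (fun z z' l => max (E.gu l z z' x y) 0) ≤ E.C0 * E.Y E.s x y := by
  refine le_trans ?_ (hE.cols.rate x y)
  have h1 : ∀ z z' l, max (E.gu l z z' x y) 0 ≤ max (E.u l z z' x y) 0 := by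
    intro z z' l
    unfold gu
    split_ifs
    · exact le_rfl
    · rw [max_self]
      exact le_max_right _ _
  exact oc_prd_mono hE h1

theorem prd_abs (x y : V) :
    E.prd (fun z z' l => |E.gu l z z' x y|) ≤ 2 * E.C0 * E.Y E.s x y := by
  have h1 : E.prd (fun z z' l => |E.gu l z z' x y|) =
      E.prd (fun z z' l => max (-E.gu l z z' x y) 0) +
        E.prd (fun z z' l => max (E.gu l z z' x y) 0) := by
    rw [← oc_prd_add]
    congr 1
    funext z z' l
    rcases le_total 0 (E.gu l z z' x y) with h | h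
    · rw [abs_of_nonneg h, max_eq_right (by linarith), max_eq_left h, zero_add]
    · rw [abs_of_nonpos h, max_eq_left (by linarith), max_eq_right h, add_zero]
  have h2 := prd_kill hE x y
  have h3 := prd_pos hE x y
  have h4 := GData.os_Y_nonneg hE.dat hE.inv.toSInv x y
  have h5 := hE.dat.C0_one
  rw [h1]
  nlinarith

end

end GSt

end

end Pool.Agent.AcyG
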