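import Pool.Agent.AcyS.Cols
import Pool.Agent.AcyS.Kernel
import Pool.Agent.AcyK.Part

/-! # Sites as pairs of vertices: the static theorem for the outer process
(project MP_af9dfb_G)

The sites are the unordered pairs of vertices. All statements are in terms of symmetric functions
of ordered pairs. -/

set_option autoImplicit false
set_option linter.unusedSectionVars false

namespace Pool.Agent.AcyG

open Finset
open Pool.Agent.AcyS (Sys ColOK)
open Pool.Agent.AcyK (cN)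
open scoped Classical

universe u

section

variable {S : Type u} [Fintype S]

theorem tri_sum (X : Sys S) (A : Finset S) (P : S) : X.tri A P =
    ∑ f, if X.lk f P ∧ f ∈ A then
      X.m f * ∑ g, (if X.lk g P ∧ X.lk g f then X.m g else 0) else 0 := by
  have h1 : X.nb P ∩ A = univ.filter fun f => X.lk f P ∧ f ∈ A := by
    ext f
    simp [AcyS.mem_nb]
  have h2 : ∀ f, X.ms (X.nb P ∩ X.nb f) = ∑ g, (if X.lk g P ∧ X.lk g f then X.m g else 0) := by
    intro f
    have h3 : X.nb P ∩ X.nb f = univ.filter fun g => X.lk g P ∧ X.lk g f := by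
      ext g
      simp [AcyS.mem_nb]
    rw [h3]
    unfold Sys.ms
    rw [sum_filter]
  unfold Sys.tri Sys.I
  rw [h1, sum_filter]
  refine sum_congr rfl fun f _ => ?_
  simp only [h2]

end

section

variable {V : Type u}

/-- A representative of an unordered pair. -/
noncomputable def pr (e : Sym2 V) : V × V := Quot.out e

theorem pr_eq (e : Sym2 V) : s((pr e).1, (pr e).2) = e := Quot.out_eq e

theorem pr_sym {α : Type*} {F : V → V → α} (hF : ∀ x y, F x y = F y x) (x y : V) :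
    F (pr s(x, y)).1 (pr s(x, y)).2 = F x y := by
  have h := pr_eq s(x, y)
  rw [Sym2.eq_iff] at h
  rcases h with ⟨h1, h2⟩ | ⟨h1, h2⟩
  · rw [h1, h2]
  · rw [h1, h2, hF]

variable [Fintype V] [DecidableEq V]

/-- Sums over unordered pairs. -/
theorem sum_sym2 {F : V → V → ℝ} (hF : ∀ x y, F x y = F y x) (h0 : ∀ x, F x x = 0) :
    ∑ e : Sym2 V, F (pr e).1 (pr e).2 = 1 / 2 * ∑ x, ∑ y, F x y := by
  have h1 : ∑ p : V × V, F p.1 p.2 = ∑ e : Sym2 V, 2 * F (pr e).1 (pr e).2 := by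
    rw [← sum_fiberwise univ (fun p : V × V => s(p.1, p.2)) fun p => F p.1 p.2]
    refine sum_congr rfl fun e _ => ?_
    induction e with
    | _ a b =>
      rw [pr_sym hF]
      have h2 : (univ.filter fun p : V × V => s(p.1, p.2) = s(a, b)) = {(a, b), (b, a)} := by
        ext p
        simp only [mem_filter, mem_univ, true_and, mem_insert, mem_singleton, Sym2.eq_iff,
          Prod.ext_iff]
      rw [h2]
      by_cases h3 : a = b
      · subst h3
        simp [h0]
      · rw [sum_pair (by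
          intro h4
          exact h3 (Prod.ext_iff.1 h4).1), hF b a]
        ring
  rw [← mul_sum, Fintype.sum_prod_type] at h1
  linarith

/-- Sums over unordered pairs, second form. -/
theorem sum_pairs (F : Sym2 V → ℝ) (h0 : ∀ x, F s(x, x) = 0) :
    ∑ e, F e = 1 / 2 * ∑ x, ∑ y, F s(x, y) := by
  rw [← sum_sym2 (F := fun x y => F s(x, y)) (fun x y => by rw [Sym2.eq_swap]) h0]
  exact sum_congr rfl fun e _ => by rw [pr_eq]

/-- Data of the sites: neighbourhoods, scale of the masses, weights, awake pairs. -/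
structure SData (V : Type u) where
  N : V → Finset V
  n1 : ℝ
  chi : V → V → ℝ
  aw : V → V → Prop

namespace SData

variable (D : SData V)

/-- Half the sum over the ordered pairs of common neighbours, divided by `n1`. -/
noncomputable def Y (x y : V) : ℝ :=
  1 / (2 * D.n1) * ∑ z ∈ cN D.N x y, ∑ z' ∈ cN D.N x y, D.chi z z'

/-- `z z'` and `x y` are linked. -/
def lnk (z z' x y : V) : Prop :=
  D.chi z z' ≠ 0 ∧ D.chi x y ≠ 0 ∧ z ∈ cN D.N x y ∧ z' ∈ cN D.N x y

/-- Hypotheses. -/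
structure Ok (H Kn am : ℝ) : Prop where
  N_symm : ∀ u v, u ∈ D.N v → v ∈ D.N u
  n1_pos : 0 < D.n1
  H_one : 1 ≤ H
  chi_symm : ∀ x y, D.chi x y = D.chi y x
  chi_nonneg : ∀ x y, 0 ≤ D.chi x y
  chi_diag : ∀ x, D.chi x x = 0
  chi_adj : ∀ x y, x ∈ D.N y → D.chi x y = 0
  chi_le : ∀ x y, D.aw x y → D.chi x y ≤ Kn
  cod_le : ∀ x y, D.chi x y ≠ 0 → ((cN D.N x y).card : ℝ) ≤ am
  Y_le : ∀ x y, D.chi x y ≠ 0 → D.Y x y ≤ H
  aw_symm : ∀ x y, D.aw x y → D.aw y x

/-- Weight of a site. -/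
noncomputable def chiE (e : Sym2 V) : ℝ := D.chi (pr e).1 (pr e).2

/-- The system of sites. -/
noncomputable def sys : Sys (Sym2 V) where
  m := fun e => D.chiE e / D.n1
  lk := fun e f => D.chiE e ≠ 0 ∧ D.chiE f ≠ 0 ∧ ∀ z ∈ e, ∀ x ∈ f, z ∈ D.N x

/-- Awake sites. -/
noncomputable def awE : Finset (Sym2 V) :=
  univ.filter fun e => D.chiE e ≠ 0 ∧ D.aw (pr e).1 (pr e).2

variable {D} {H Kn am : ℝ}

namespace Ok

theorem cN_symm (x y : V) : cN D.N x y = cN D.N y x := inter_comm _ _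

theorem chiE_mk (hD : D.Ok H Kn am) (x y : V) : D.chiE s(x, y) = D.chi x y :=
  pr_sym hD.chi_symm x y

theorem lk_mk (hD : D.Ok H Kn am) (z z' x y : V) :
    D.sys.lk s(z, z') s(x, y) ↔ D.lnk z z' x y := by
  unfold sys lnk
  simp only [hD.chiE_mk, Sym2.mem_iff, cN, mem_inter]
  constructor
  · rintro ⟨h1, h2, h3⟩
    exact ⟨h1, h2, ⟨h3 z (Or.inl rfl) x (Or.inl rfl), h3 z (Or.inl rfl) y (Or.inr rfl)⟩,
      ⟨h3 z' (Or.inr rfl) x (Or.inl rfl), h3 z' (Or.inr rfl) y (Or.inr rfl)⟩⟩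
  · rintro ⟨h1, h2, h3, h4⟩
    refine ⟨h1, h2, ?_⟩
    rintro w (rfl | rfl) v (rfl | rfl)
    exacts [h3.1, h3.2, h4.1, h4.2]

theorem Y_symm (_hD : D.Ok H Kn am) (x y : V) : D.Y x y = D.Y y x := by
  unfold Y
  rw [cN_symm]

theorem mem_awE (hD : D.Ok H Kn am) (x y : V) :
    s(x, y) ∈ D.awE ↔ D.chi x y ≠ 0 ∧ D.aw x y := by
  unfold awE
  rw [mem_filter, hD.chiE_mk]
  have h : D.aw (pr s(x, y)).1 (pr s(x, y)).2 ↔ D.aw x y := by
    rw [← eq_iff_iff]
    exact pr_sym (F := D.aw) (fun a b => propext ⟨hD.aw_symm a b, hD.aw_symm b a⟩) x y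
  rw [h]
  simp

theorem aw_of_mem (_hD : D.Ok H Kn am) {e : Sym2 V} (h : e ∈ D.awE) :
    D.aw (pr e).1 (pr e).2 := (mem_filter.1 h).2.2

theorem lnk_symm (hD : D.Ok H Kn am) {z z' x y : V} (h : D.lnk z z' x y) : D.lnk z' z x y :=
  ⟨by rw [hD.chi_symm]; exact h.1, h.2.1, h.2.2.2, h.2.2.1⟩

theorem lnk_symm' (hD : D.Ok H Kn am) {z z' x y : V} (h : D.lnk z z' x y) : D.lnk z z' y x :=
  ⟨h.1, by rw [hD.chi_symm]; exact h.2.1, by rw [cN_symm]; exact h.2.2.1,
    by rw [cN_symm]; exact h.2.2.2⟩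

theorem lnk_iff (hD : D.Ok H Kn am) (z z' x y : V) : D.lnk z z' x y ↔ D.lnk z' z x y :=
  ⟨hD.lnk_symm, hD.lnk_symm⟩

/-- Integrals over a neighbourhood as sums over ordered pairs. -/
theorem I_nb (hD : D.Ok H Kn am) {F : V → V → ℝ} (hF : ∀ x y, F x y = F y x) (x y : V) :
    (D.sys.I (D.sys.nb s(x, y)) fun e => F (pr e).1 (pr e).2) =
      if D.chi x y = 0 then 0 else
        1 / (2 * D.n1) * ∑ z ∈ cN D.N x y, ∑ z' ∈ cN D.N x y, D.chi z z' * F z z' := by
  have h1 : (D.sys.I (D.sys.nb s(x, y)) fun e => F (pr e).1 (pr e).2) =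
      ∑ e : Sym2 V, (fun z z' => if D.lnk z z' x y then D.chi z z' / D.n1 * F z z' else 0)
        (pr e).1 (pr e).2 := by
    unfold Sys.I Sys.nb
    rw [sum_filter]
    refine sum_congr rfl fun e _ => ?_
    have h2 : D.sys.lk e s(x, y) ↔ D.lnk (pr e).1 (pr e).2 x y := by
      rw [← hD.lk_mk, pr_eq]
    simp only
    rw [if_congr h2 rfl rfl]
    rfl
  rw [h1]
  refine (sum_sym2 (F := fun z z' => if D.lnk z z' x y then D.chi z z' / D.n1 * F z z' else 0)
    ?_ ?_).trans ?_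
  · intro a b
    rw [if_congr (hD.lnk_iff a b x y) rfl rfl, hD.chi_symm a b, hF a b]
  · intro a
    rw [hD.chi_diag]
    simp
  · split_ifs with h2
    · simp [lnk, h2]
    · have h3 : ∀ z z', (if D.lnk z z' x y then D.chi z z' / D.n1 * F z z' else 0) =
          if z ∈ cN D.N x y then (if z' ∈ cN D.N x y then D.chi z z' / D.n1 * F z z' else 0)
            else 0 := by
        intro z z'
        unfold lnk
        by_cases h4 : D.chi z z' = 0
        · simp [h4]
        · by_cases h5 : z ∈ cN D.N x y <;> by_cases h6 : z' ∈ cN D.N x y <;>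
            simp [h2, h4, h5, h6]
      simp only [h3]
      have h4 : ∀ z, ∑ z', (if z ∈ cN D.N x y then
          (if z' ∈ cN D.N x y then D.chi z z' / D.n1 * F z z' else 0) else 0) =
          if z ∈ cN D.N x y then ∑ z' ∈ cN D.N x y, D.chi z z' / D.n1 * F z z' else 0 := by
        intro z
        split_ifs
        · rw [sum_ite_mem, univ_inter]
        · exact sum_const_zero
      simp only [h4]
      rw [sum_ite_mem, univ_inter, mul_sum, mul_sum]
      refine sum_congr rfl fun z _ => ?_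
      rw [mul_sum, mul_sum]
      refine sum_congr rfl fun z' _ => ?_
      have := hD.n1_pos
      field_simp

theorem ms_nb (hD : D.Ok H Kn am) (x y : V) :
    D.sys.ms (D.sys.nb s(x, y)) = if D.chi x y = 0 then 0 else D.Y x y := by
  have h := hD.I_nb (F := fun _ _ => 1) (fun _ _ => rfl) x y
  rw [AcyS.I_one] at h
  rw [h]
  unfold Y
  simp

/-- Integrals over all sites. -/
theorem I_univ (hD : D.Ok H Kn am) {F : V → V → ℝ} (hF : ∀ x y, F x y = F y x) :
    (D.sys.I univ fun e => F (pr e).1 (pr e).2) =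
      1 / (2 * D.n1) * ∑ z, ∑ z', D.chi z z' * F z z' := by
  have h1 : (D.sys.I univ fun e => F (pr e).1 (pr e).2) =
      ∑ e : Sym2 V, (fun z z' => D.chi z z' / D.n1 * F z z') (pr e).1 (pr e).2 := rfl
  rw [h1]
  refine (sum_sym2 (F := fun z z' => D.chi z z' / D.n1 * F z z') ?_ ?_).trans ?_
  · intro a b
    rw [hD.chi_symm a b, hF a b]
  · intro a
    rw [hD.chi_diag]
    simp
  · rw [mul_sum, mul_sum]
    refine sum_congr rfl fun z _ => ?_
    rw [mul_sum, mul_sum]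
    refine sum_congr rfl fun z' _ => ?_
    have := hD.n1_pos
    field_simp

theorem sys_ok (hD : D.Ok H Kn am) : D.sys.Ok H where
  m_nonneg e := div_nonneg (hD.chi_nonneg _ _) hD.n1_pos.le
  symm e f h := ⟨h.2.1, h.1, fun z hz x hx => hD.N_symm _ _ (h.2.2 x hx z hz)⟩
  irrefl e h := by
    induction e with
    | _ a b =>
      have h1 := (hD.lk_mk a b a b).1 h
      have h2 : a ∈ D.N b := (mem_inter.1 h1.2.2.1).2
      exact h1.1 (hD.chi_adj a b h2)
  one_le := hD.H_one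
  deg e := by
    induction e with
    | _ a b =>
      rw [hD.ms_nb]
      split_ifs with h
      · linarith [hD.H_one]
      · exact hD.Y_le a b h

theorem mem_pr (e : Sym2 V) {z : V} : z ∈ e ↔ z = (pr e).1 ∨ z = (pr e).2 := by
  conv_lhs => rw [← pr_eq e]
  exact Sym2.mem_iff

theorem chiE_ne (hD : D.Ok H Kn am) {e : Sym2 V} (h : D.chiE e ≠ 0) : (pr e).1 ≠ (pr e).2 := by
  intro h1
  apply h
  unfold chiE
  rw [h1]
  exact hD.chi_diag _

end Ok

/-- The bound for the kernels. -/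
noncomputable def TT (Q μ e : ℝ) : ℝ :=
  AcyK.Tup.bd (⌈2 / e⌉₊ + 2) (e / 2) (Q / (2 * μ)) / μ

theorem Ok.sys_ker (hD : D.Ok H Kn am) {Q : ℝ}
    (hQ : Kn * am ^ 2 ≤ Q * D.n1) : (D.sys.restr D.awE).Ker (TT Q) := by
  refine Sys.restr_ker' hD.sys_ok ?_
  intro μ e hμ he c o ho hoA hm
  have hn := hD.n1_pos
  induction c with
  | _ x y =>
    obtain ⟨A, hA⟩ : ∃ A, A = cN D.N x y := ⟨_, rfl⟩
    have hne : o.Nonempty := by
      by_contra h
      rw [not_nonempty_iff_eq_empty] at h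
      rw [h, AcyS.ms_empty] at hm
      linarith
    have hlk : ∀ f ∈ o, D.chiE f ≠ 0 ∧ D.chi x y ≠ 0 ∧ (pr f).1 ∈ A ∧ (pr f).2 ∈ A := by
      intro f hf
      have h1 := AcyS.mem_nb.1 (ho hf)
      rw [← pr_eq f, hD.lk_mk] at h1
      rw [hA]
      exact ⟨h1.1, h1.2.1, h1.2.2.1, h1.2.2.2⟩
    obtain ⟨f0, hf0⟩ := hne
    have h0 := hlk f0 hf0
    let p : Sym2 V → {v // v ∈ A} × {v // v ∈ A} := fun f =>
      if h : (pr f).1 ∈ A ∧ (pr f).2 ∈ A then (⟨(pr f).1, h.1⟩, ⟨(pr f).2, h.2⟩)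
      else (⟨(pr f0).1, h0.2.2.1⟩, ⟨(pr f0).1, h0.2.2.1⟩)
    have hp : ∀ f ∈ o, ((p f).1 : V) = (pr f).1 ∧ ((p f).2 : V) = (pr f).2 := by
      intro f hf
      have h1 := hlk f hf
      simp only [p]
      rw [dif_pos ⟨h1.2.2.1, h1.2.2.2⟩]
      exact ⟨rfl, rfl⟩
    have hori : ∀ f ∈ o, ∀ b, ((_root_.AcyS.ori b (p f)).1 : V) ∈ f ∧
        ((_root_.AcyS.ori b (p f)).2 : V) ∈ f ∧
        s(((_root_.AcyS.ori b (p f)).1 : V), ((_root_.AcyS.ori b (p f)).2 : V)) = f := by
      intro f hf b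
      obtain ⟨h1, h2⟩ := hp f hf
      have h3 := pr_eq f
      cases b
      · simp only [_root_.AcyS.ori, if_false, Bool.false_eq_true]
        rw [h1, h2]
        exact ⟨Ok.mem_pr f |>.2 (Or.inl rfl), Ok.mem_pr f |>.2 (Or.inr rfl), h3⟩
      · simp only [_root_.AcyS.ori, if_true, Prod.fst_swap, Prod.snd_swap]
        rw [h1, h2]
        exact ⟨Ok.mem_pr f |>.2 (Or.inr rfl), Ok.mem_pr f |>.2 (Or.inl rfl), by
          rw [Sym2.eq_swap]; exact h3⟩
    obtain ⟨t, t0, tle, tsymm, tsupp, trow, tpsd⟩ := _root_.AcyS.kernel_sites (o := o) (p := p)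
      (j := ⌈2 / e⌉₊ + 2) (by omega) (ε := e / 2) (Q := Q) (by linarith) hμ
      (m := D.sys.m) (fun f _ => hD.sys_ok.m_nonneg f) hm
      (by
        intro f hf
        have h1 := hlk f hf
        have h2 : (Fintype.card {v // v ∈ A} : ℝ) ≤ am := by
          rw [Fintype.card_coe, hA]
          exact hD.cod_le x y h1.2.1
        have h3 : D.sys.m f ≤ Kn / D.n1 := by
          show D.chiE f / D.n1 ≤ Kn / D.n1
          exact div_le_div_of_nonneg_right (hD.chi_le _ _ (hD.aw_of_mem (hoA hf))) hn.le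
        have h4 : 0 ≤ Kn := (hD.chi_nonneg _ _).trans (hD.chi_le _ _ (hD.aw_of_mem (hoA hf)))
        calc D.sys.m f * (Fintype.card {v // v ∈ A} : ℝ) ^ 2
            ≤ Kn / D.n1 * am ^ 2 := by gcongr
          _ = Kn * am ^ 2 / D.n1 := by ring
          _ ≤ Q := by rwa [div_le_iff₀ hn])
      (by
        intro f hf h1
        obtain ⟨h2, h3⟩ := hp f hf
        have h4 : ((p f).1 : V) = ((p f).2 : V) := by rw [h1]
        rw [h2, h3] at h4
        exact hD.chiE_ne (hlk f hf).1 h4)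
      (by
        intro f hf g hg b h1
        rw [← (hori g hg b).2.2, h1]
        exact (hori f hf false).2.2)
      (L := D.sys.lk)
      (by
        intro f hf g hg h hh b b' d h1 h2
        have h3 := (hori h hh d).2.2
        rw [h1] at h3
        have h4 : ((_root_.AcyS.ori b (p f)).1 : V) ∈ D.N ((_root_.AcyS.ori b' (p g)).2 : V) :=
          h2.2.2 _ (hori f hf b).1 _ (hori g hg b').2.1
        apply (hlk h hh).1
        rw [← h3, hD.chiE_mk]
        exact hD.chi_adj _ _ h4)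
    refine ⟨t, ⟨tsymm, t0, ?_, tsupp, ?_, ?_⟩⟩
    · intro f g
      exact tle f g
    · intro f
      refine le_trans (le_of_eq ?_) (trow f)
      symm
      refine sum_subset (subset_univ o) fun g _ hg => ?_
      have : t f g = 0 := by
        by_contra h
        exact hg (tsupp f g h).2.1
      rw [this, mul_zero]
    · intro a a0 a1 aoff
      have h1 := tpsd a a0 a1
      have h2 : ∑ f ∈ o, ∑ g ∈ o, D.sys.m f * a f * t f g * (D.sys.m g * a g) =
          ∑ f, ∑ g, D.sys.m f * D.sys.m g * (a f * t f g * a g) := by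
        rw [sum_subset (subset_univ o) fun f _ hf => ?_]
        · refine sum_congr rfl fun f _ => ?_
          rw [sum_subset (subset_univ o) fun g _ hg => ?_]
          · exact sum_congr rfl fun g _ => by ring
          · rw [aoff g hg]
            ring
        · refine sum_eq_zero fun g _ => ?_
          rw [aoff f hf]
          ring
      rw [h2] at h1
      refine le_trans ?_ h1
      have h3 : 0 ≤ ∑ f ∈ o, D.sys.m f * a f :=
        sum_nonneg fun f _ => mul_nonneg (hD.sys_ok.m_nonneg f) (a0 f)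
      have h4 : 1 / (((⌈2 / e⌉₊ + 2 : ℕ) : ℝ) - 1) + e / 2 ≤ e := by
        have h5 : 2 / e ≤ ((⌈2 / e⌉₊ + 2 : ℕ) : ℝ) - 1 := by
          push_cast
          linarith [Nat.le_ceil (2 / e)]
        have h6 : 0 < 2 / e := by positivity
        have h7 : 1 / (((⌈2 / e⌉₊ + 2 : ℕ) : ℝ) - 1) ≤ 1 / (2 / e) :=
          one_div_le_one_div_of_le h6 h5
        rw [one_div_div] at h7
        linarith
      have h5 := mul_le_mul_of_nonneg_right h4 h3
      unfold Sys.I Sys.ms
      linarith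

variable (D)

/-- Common part of the neighbourhoods of two sites. -/
noncomputable def YY (x y a b : V) : ℝ :=
  1 / (2 * D.n1) * ∑ z ∈ cN D.N x y ∩ cN D.N a b, ∑ z' ∈ cN D.N x y ∩ cN D.N a b, D.chi z z'

/-- Triangles at `x y` with a corner that is not awake. -/
noncomputable def tr (x y : V) : ℝ :=
  1 / (2 * D.n1) * ∑ a ∈ cN D.N x y, ∑ b ∈ cN D.N x y,
    D.chi a b * (if D.aw a b then 0 else D.YY x y a b)

/-- Random columns for pairs of vertices: `u l z z' x y` is the relative change of the pair `x y`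
when the pair `z z'` fires with label `l`. -/
structure Cols (H η C q0 B τ u0 : ℝ) (B0 : ℕ) {L : Type*} [Fintype L]
    (μ : V → V → L → ℝ) (u : L → V → V → V → V → ℝ) : Prop where
  mu_symm : ∀ z z' l, μ z z' l = μ z' z l
  mu_nonneg : ∀ z z' l, 0 ≤ μ z z' l
  mu_sum : ∀ z z', ∑ l, μ z z' l = 1
  symm1 : ∀ l z z' x y, u l z z' x y = u l z' z x y
  symm2 : ∀ l z z' x y, u l z z' x y = u l z z' y x
  kill : ∀ l z z' x y, D.lnk z z' x y → u l z z' x y = -1
  vals : ∀ l z z' x y, ¬ D.lnk z z' x y →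
    u l z z' x y = 0 ∨ u0 ≤ u l z z' x y ∧ u l z z' x y ≤ B
  supp : ∀ l z z' x y, ¬ D.lnk z z' x y → u l z z' x y ≠ 0 →
    D.chi x y ≠ 0 ∧ D.aw x y ∧ D.chi z z' ≠ 0 ∧ D.aw z z'
  rate : ∀ x y, 1 / (2 * D.n1) * ∑ z, ∑ z', D.chi z z' *
    ∑ l, μ z z' l * max (u l z z' x y) 0 ≤ C * D.Y x y
  drift : ∀ x y, D.chi x y ≠ 0 → D.aw x y → 1 / (2 * D.n1) * ∑ z, ∑ z', D.chi z z' *
    ∑ l, μ z z' l * (u l z z' x y *
      (1 / (2 * D.n1) * ∑ a ∈ cN D.N x y, ∑ b ∈ cN D.N x y, D.chi a b * u l z z' a b)) ≤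
    η * D.Y x y + 2 * D.tr x y
  drift_aw : ∀ x y, D.chi x y ≠ 0 → D.aw x y → 1 / (2 * D.n1) * ∑ z, ∑ z', D.chi z z' *
    ∑ l, μ z z' l * (u l z z' x y *
      (1 / (2 * D.n1) * ∑ a ∈ cN D.N x y, ∑ b ∈ cN D.N x y,
        if D.aw a b then D.chi a b * u l z z' a b else 0)) ≤
    η * D.Y x y + D.tr x y
  row_ext : ∀ l z z' (ψ : V → V → ℝ) (a : ℝ), (∀ x y, ψ x y = ψ y x) → (∀ x y, 0 ≤ ψ x y) →
    0 ≤ a → (∀ v w, D.chi v w ≠ 0 →
      1 / 2 * ∑ x ∈ cN D.N v w, ∑ y ∈ cN D.N v w, ψ x y ≤ a) →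
    1 / 2 * ∑ x, ∑ y, (if u l z z' x y ≠ 0 then ψ x y else 0) ≤ (1 + B0 * (1 + H / τ)) * a
  row_card : ∀ l z z' x (am : ℝ), 0 ≤ am →
    (∀ v w, D.chi v w ≠ 0 → ((cN D.N v w).card : ℝ) ≤ am) →
    ((univ.filter fun y => u l z z' x y ≠ 0).card : ℝ) ≤ (1 + B0 * (1 + H / τ)) * am
  row_abs : ∀ l z z', 1 / (2 * D.n1) * ∑ x, ∑ y, D.chi x y * |u l z z' x y| ≤
    B * ((1 + B0 * (1 + H / τ)) * H)
  col_ext : ∀ x y (φ : V → V → ℝ) (a : ℝ), (∀ z z', φ z z' = φ z' z) → (∀ z z', 0 ≤ φ z z') →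
    0 ≤ a → (∀ v w, D.chi v w ≠ 0 →
      1 / 2 * ∑ z ∈ cN D.N v w, ∑ z' ∈ cN D.N v w, φ z z' ≤ a) →
    1 / 2 * ∑ z, ∑ z', φ z z' * ∑ l, μ z z' l * (if u l z z' x y ≠ 0 then 1 else 0) ≤
      (1 + q0 * (H * (1 + H / τ))) * a
  near : ∀ l z z' x y, u l z z' x y ≠ 0 → D.lnk z z' x y ∨
    ∃ a b, D.chi a b ≠ 0 ∧ z ∈ cN D.N a b ∧ z' ∈ cN D.N a b ∧
      (x ∈ cN D.N a b ∧ y ∈ cN D.N a b ∨
        ∃ q q', q ∈ cN D.N a b ∧ q' ∈ cN D.N a b ∧ q ∈ cN D.N x y ∧ q' ∈ cN D.N x y)

variable {D}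

namespace Ok

theorem YY_eq (hD : D.Ok H Kn am) {x y a b : V} (h1 : D.chi x y ≠ 0) (h2 : D.chi a b ≠ 0) :
    ∑ e, (if D.sys.lk e s(x, y) ∧ D.sys.lk e s(a, b) then D.sys.m e else 0) = D.YY x y a b := by
  have e1 : ∑ e, (if D.sys.lk e s(x, y) ∧ D.sys.lk e s(a, b) then D.sys.m e else 0) =
      D.sys.I (D.sys.nb s(x, y)) fun e =>
        (fun z z' => if z ∈ cN D.N a b ∧ z' ∈ cN D.N a b then (1 : ℝ) else 0)
          (pr e).1 (pr e).2 := by
    unfold Sys.I Sys.nb
    rw [sum_filter]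
    refine sum_congr rfl fun e _ => ?_
    by_cases h3 : D.sys.lk e s(x, y)
    · have h4 : D.sys.lk e s(a, b) ↔ ((pr e).1 ∈ cN D.N a b ∧ (pr e).2 ∈ cN D.N a b) := by
        conv_lhs => rw [← pr_eq e]
        rw [hD.lk_mk]
        exact ⟨fun h => h.2.2, fun h => ⟨h3.1, h2, h⟩⟩
      rw [if_pos h3]
      by_cases h5 : D.sys.lk e s(a, b)
      · have h6 := h4.1 h5
        rw [if_pos ⟨h3, h5⟩]
        show _ = _ * (if _ then _ else _)
        rw [if_pos h6, mul_one]
      · have h6 : ¬ ((pr e).1 ∈ cN D.N a b ∧ (pr e).2 ∈ cN D.N a b) := fun h => h5 (h4.2 h)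
        rw [if_neg fun h => h5 h.2]
        show _ = _ * (if _ then _ else _)
        rw [if_neg h6, mul_zero]
    · rw [if_neg fun h => h3 h.1, if_neg h3]
  rw [e1, hD.I_nb (F := fun z z' => if z ∈ cN D.N a b ∧ z' ∈ cN D.N a b then (1 : ℝ) else 0)
    (fun z z' => if_congr and_comm rfl rfl), if_neg h1]
  unfold YY
  congr 1
  rw [← filter_mem_eq_inter, sum_filter]
  refine sum_congr rfl fun z _ => ?_
  rw [sum_filter]
  by_cases h5 : z ∈ cN D.N a b
  · rw [if_pos h5]
    exact sum_congr rfl fun z' _ => by by_cases h6 : z' ∈ cN D.N a b <;> simp [h5, h6]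
  · rw [if_neg h5]
    exact sum_eq_zero fun z' _ => by simp [h5]

theorem tri_eq (hD : D.Ok H Kn am) {x y : V} (h1 : D.chi x y ≠ 0) {A : Finset (Sym2 V)}
    (hA : ∀ e, e ∈ A ↔ ¬ (D.chiE e ≠ 0 ∧ D.aw (pr e).1 (pr e).2)) :
    D.sys.tri A s(x, y) = D.tr x y := by
  have hYs : ∀ a b, D.YY x y a b = D.YY x y b a := by
    intro a b
    unfold YY
    rw [cN_symm a b]
  have haw : ∀ a b, D.aw a b ↔ D.aw b a := fun a b => ⟨hD.aw_symm a b, hD.aw_symm b a⟩
  have e1 : D.sys.tri A s(x, y) = D.sys.I (D.sys.nb s(x, y)) fun e =>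
      (fun a b => if D.aw a b then 0 else D.YY x y a b) (pr e).1 (pr e).2 := by
    rw [tri_sum]
    unfold Sys.I Sys.nb
    rw [sum_filter]
    refine sum_congr rfl fun e _ => ?_
    by_cases h3 : D.sys.lk e s(x, y)
    · have h4 : e ∈ A ↔ ¬ D.aw (pr e).1 (pr e).2 := by
        rw [hA]
        exact ⟨fun h h' => h ⟨h3.1, h'⟩, fun h h' => h h'.2⟩
      have h5 : ∑ g, (if D.sys.lk g s(x, y) ∧ D.sys.lk g e then D.sys.m g else 0) =
          D.YY x y (pr e).1 (pr e).2 := by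
        have h6 := hD.YY_eq (a := (pr e).1) (b := (pr e).2) h1 h3.1
        rw [← h6]
        refine sum_congr rfl fun g _ => ?_
        rw [pr_eq]
      rw [h5, if_pos h3]
      show _ = _ * (if _ then _ else _)
      by_cases h6 : D.aw (pr e).1 (pr e).2
      · rw [if_neg fun h => (h4.1 h.2) h6, if_pos h6, mul_zero]
      · rw [if_pos ⟨h3, h4.2 h6⟩, if_neg h6]
    · rw [if_neg fun h => h3 h.1, if_neg h3]
  rw [e1, hD.I_nb (F := fun a b => if D.aw a b then 0 else D.YY x y a b)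
    (fun a b => by rw [hYs a b]; exact if_congr (haw a b) rfl rfl), if_neg h1]
  rfl

end Ok

namespace Ok

theorem m_mk (hD : D.Ok H Kn am) (x y : V) : D.sys.m s(x, y) = D.chi x y / D.n1 := by
  show D.chiE s(x, y) / D.n1 = _
  rw [hD.chiE_mk]

theorem m_diag (hD : D.Ok H Kn am) (x : V) : D.sys.m s(x, x) = 0 := by
  rw [hD.m_mk, hD.chi_diag, zero_div]

theorem Y_nonneg (hD : D.Ok H Kn am) (x y : V) : 0 ≤ D.Y x y :=
  mul_nonneg (by have := hD.n1_pos; positivity)
    (sum_nonneg fun z _ => sum_nonneg fun z' _ => hD.chi_nonneg z z')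

/-- Sums over the neighbourhood of a site. -/
theorem nb_le (hD : D.Ok H Kn am) {ψ : V → V → ℝ} (h1 : ∀ x y, ψ x y = ψ y x)
    (h2 : ∀ x y, 0 ≤ ψ x y) {a : ℝ} (ha : 0 ≤ a)
    (h3 : ∀ v w, D.chi v w ≠ 0 → 1 / 2 * ∑ x ∈ cN D.N v w, ∑ y ∈ cN D.N v w, ψ x y ≤ a)
    (c : Sym2 V) :
    ∑ e ∈ D.sys.nb c, (if D.chiE e = 0 then 0 else ψ (pr e).1 (pr e).2) ≤ a := by
  induction c with
  | _ v w =>
    unfold Sys.nb
    rw [sum_filter]
    have e1 : ∀ x y, (if D.sys.lk s(x, y) s(v, w) then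
        (if D.chiE s(x, y) = 0 then 0 else ψ (pr s(x, y)).1 (pr s(x, y)).2) else 0) =
        if D.lnk x y v w then ψ x y else 0 := by
      intro x y
      by_cases h4 : D.lnk x y v w
      · rw [if_pos ((hD.lk_mk x y v w).2 h4), if_pos h4, hD.chiE_mk, if_neg h4.1, pr_sym h1]
      · rw [if_neg fun h => h4 ((hD.lk_mk x y v w).1 h), if_neg h4]
    rw [sum_pairs]
    · simp only [e1]
      by_cases h5 : D.chi v w = 0
      · refine le_trans (le_of_eq ?_) ha
        rw [sum_eq_zero, mul_zero]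
        intro x _
        exact sum_eq_zero fun y _ => if_neg fun h => h.2.1 h5
      · refine le_trans (mul_le_mul_of_nonneg_left ?_ (by norm_num)) (h3 v w h5)
        rw [← sum_subset (subset_univ (cN D.N v w)) fun x _ hx => ?_]
        · refine sum_le_sum fun x _ => ?_
          rw [← sum_subset (subset_univ (cN D.N v w)) fun y _ hy => ?_]
          · refine sum_le_sum fun y _ => ?_
            split_ifs
            exacts [le_rfl, h2 x y]
          · exact if_neg fun h => hy h.2.2.2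
        · exact sum_eq_zero fun y _ => if_neg fun h => hx h.2.2.1
    · intro x
      rw [e1, if_neg fun h => h.1 (hD.chi_diag x)]

/-- From the interface of the static theorem to columns for pairs. -/
theorem cols (hD : D.Ok H Kn am) {η C q0 B τ u0 : ℝ} {B0 : ℕ} {L : Type*} [Fintype L]
    {μ : Sym2 V → L → ℝ} {CC : L → Finset (Sym2 V)} {u : L → Sym2 V → Sym2 V → ℝ}
    (hC0 : 0 ≤ C) (hq0 : 0 ≤ q0) (hτ : 0 < τ) (hB : 1 ≤ B) (hu0 : 0 ≤ u0)
    (h : ColOK D.sys D.awE (fun P => η * D.sys.ms (D.sys.nb P)) C q0 B τ u0 B0 μ CC u) :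
    D.Cols H η C q0 B τ u0 B0 (fun z z' => μ s(z, z'))
      (fun l z z' x y => u l s(x, y) s(z, z')) := by
  have hX := hD.sys_ok
  have hn := hD.n1_pos
  have hH := hD.H_one
  have htri : ∀ x y, D.chi x y ≠ 0 → D.sys.tri (@compl _ (@Finset.booleanAlgebra _ _
      fun a b => Classical.propDecidable (a = b)).toCompl D.awE) s(x, y) = D.tr x y := by
    intro x y h1
    refine hD.tri_eq h1 fun e => ?_
    refine (@Finset.mem_compl (Sym2 V) _ _ (fun a b => Classical.propDecidable (a = b)) e).trans ?_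
    unfold SData.awE
    simp
  have hdiv : ∀ F : V → V → ℝ, 1 / 2 * ∑ z, ∑ z', D.chi z z' / D.n1 * F z z' =
      1 / (2 * D.n1) * ∑ z, ∑ z', D.chi z z' * F z z' := by
    intro F
    rw [mul_sum, mul_sum]
    refine sum_congr rfl fun z _ => ?_
    rw [mul_sum, mul_sum]
    refine sum_congr rfl fun z' _ => ?_
    field_simp
  have hch : ∀ l z z' x y, u l s(x, y) s(z, z') ≠ 0 → D.chi x y ≠ 0 ∧ D.chi z z' ≠ 0 := by
    intro l z z' x y h1
    by_cases h2 : D.lnk z z' x y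
    · exact ⟨h2.2.1, h2.1⟩
    · obtain ⟨h3, h4, -⟩ := h.supp l _ _ (fun h5 => h2 ((hD.lk_mk _ _ _ _).1 h5)) h1
      exact ⟨((hD.mem_awE x y).1 h3).1, ((hD.mem_awE z z').1 h4).1⟩
  have hrow : ∀ l z z' (ψ : V → V → ℝ) (a : ℝ), (∀ x y, ψ x y = ψ y x) → (∀ x y, 0 ≤ ψ x y) →
      0 ≤ a → (∀ v w, D.chi v w ≠ 0 →
        1 / 2 * ∑ x ∈ cN D.N v w, ∑ y ∈ cN D.N v w, ψ x y ≤ a) →
      1 / 2 * ∑ x, ∑ y, (if u l s(x, y) s(z, z') ≠ 0 then ψ x y else 0) ≤
        (1 + B0 * (1 + H / τ)) * a := by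
    intro l z z' ψ a h1 h2 ha h3
    have h4 := h.row_ext hX hτ l s(z, z')
      (ψ := fun e => if D.chiE e = 0 then 0 else ψ (pr e).1 (pr e).2)
      (fun e => by
        split_ifs
        exacts [le_rfl, h2 _ _]) (hD.nb_le h1 h2 ha h3)
    have e1 : ∀ x y, (if u l s(x, y) s(z, z') ≠ 0 then
        (if D.chiE s(x, y) = 0 then 0 else ψ (pr s(x, y)).1 (pr s(x, y)).2) else 0) =
        if u l s(x, y) s(z, z') ≠ 0 then ψ x y else 0 := by
      intro x y
      by_cases h5 : u l s(x, y) s(z, z') ≠ 0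
      · rw [if_pos h5, if_pos h5, hD.chiE_mk, if_neg (hch l z z' x y h5).1, pr_sym h1]
      · rw [if_neg h5, if_neg h5]
    rw [sum_pairs] at h4
    · simp only [e1] at h4
      exact h4
    · intro x
      rw [e1, if_neg fun h5 => (hch l z z' x x h5).1 (hD.chi_diag x)]
  constructor
  case mu_symm =>
    intro z z' l
    rw [Sym2.eq_swap]
  case mu_nonneg => exact fun z z' l => h.nonneg _ l
  case mu_sum => exact fun z z' => h.sum_one _
  case symm1 =>
    intro l z z' x y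
    show u l s(x, y) s(z, z') = u l s(x, y) s(z', z)
    rw [Sym2.eq_swap (a := z)]
  case symm2 =>
    intro l z z' x y
    show u l s(x, y) s(z, z') = u l s(y, x) s(z, z')
    rw [Sym2.eq_swap (a := x)]
  case kill => exact fun l z z' x y h1 => h.kill l _ _ ((hD.lk_mk _ _ _ _).2 h1)
  case vals =>
    exact fun l z z' x y h1 => h.vals l _ _ fun h2 => h1 ((hD.lk_mk _ _ _ _).1 h2)
  case supp =>
    intro l z z' x y h1 h2
    obtain ⟨h3, h4, -⟩ := h.supp l _ _ (fun h5 => h1 ((hD.lk_mk _ _ _ _).1 h5)) h2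
    have h5 := (hD.mem_awE x y).1 h3
    have h6 := (hD.mem_awE z z').1 h4
    exact ⟨h5.1, h5.2, h6.1, h6.2⟩
  case rate =>
    intro x y
    have h1 := h.rate s(x, y)
    rw [sum_pairs _ fun z => by rw [hD.m_diag, zero_mul], hD.ms_nb] at h1
    simp only [hD.m_mk] at h1
    rw [hdiv fun z z' => ∑ l, μ s(z, z') l * max (u l s(x, y) s(z, z')) 0] at h1
    refine h1.trans (mul_le_mul_of_nonneg_left ?_ hC0)
    split_ifs
    exacts [hD.Y_nonneg x y, le_rfl]
  case drift =>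
    intro x y h1 h2
    have h3 := h.drift ((hD.mem_awE x y).2 ⟨h1, h2⟩)
    rw [sum_pairs _ fun z => by rw [hD.m_diag, zero_mul]] at h3
    simp only [hD.m_mk] at h3
    rw [hdiv fun z z' => ∑ l, μ s(z, z') l * (u l s(x, y) s(z, z') *
      D.sys.I (D.sys.nb s(x, y)) fun Z => u l Z s(z, z')), hD.ms_nb, if_neg h1,
      htri x y h1] at h3
    refine le_trans (le_of_eq ?_) h3
    congr 1
    refine sum_congr rfl fun z _ => sum_congr rfl fun z' _ => ?_
    congr 1
    refine sum_congr rfl fun l _ => ?_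
    congr 2
    have h4 := hD.I_nb (F := fun a b => u l s(a, b) s(z, z'))
      (fun a b => by rw [Sym2.eq_swap]) x y
    rw [if_neg h1] at h4
    rw [← h4]
    refine AcyS.I_congr fun e _ => ?_
    rw [pr_eq]
  case drift_aw =>
    intro x y h1 h2
    have h3 := h.drift_aw ((hD.mem_awE x y).2 ⟨h1, h2⟩)
    rw [sum_pairs _ fun z => by rw [hD.m_diag, zero_mul]] at h3
    have h6 : ∀ l z z', D.sys.I (@Inter.inter _ (@Finset.instInter _
        fun a b => Classical.propDecidable (a = b)) (D.sys.nb s(x, y)) D.awE)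
          (fun Z => u l Z s(z, z')) =
        1 / (2 * D.n1) * ∑ a ∈ cN D.N x y, ∑ b ∈ cN D.N x y,
          if D.aw a b then D.chi a b * u l s(a, b) s(z, z') else 0 := by
      intro l z z'
      have h4 := hD.I_nb (F := fun a b => if D.aw a b then u l s(a, b) s(z, z') else 0)
        (fun a b => if_congr ⟨hD.aw_symm a b, hD.aw_symm b a⟩ (by rw [Sym2.eq_swap]) rfl) x y
      rw [if_neg h1] at h4
      have h5 : ∀ a b, D.chi a b * (if D.aw a b then u l s(a, b) s(z, z') else 0) =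
          if D.aw a b then D.chi a b * u l s(a, b) s(z, z') else 0 := fun a b => by
        rw [mul_ite, mul_zero]
      simp only [h5] at h4
      rw [← h4]
      have h7 : (@Inter.inter _ (@Finset.instInter _
          fun a b => Classical.propDecidable (a = b)) (D.sys.nb s(x, y)) D.awE) =
          (D.sys.nb s(x, y)).filter fun e => D.aw (pr e).1 (pr e).2 := by
        ext e
        refine (@Finset.mem_inter _ (fun a b => Classical.propDecidable (a = b)) e _ _).trans ?_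
        rw [mem_filter]
        constructor
        · rintro ⟨h8, h9⟩
          exact ⟨h8, hD.aw_of_mem h9⟩
        · rintro ⟨h8, h9⟩
          exact ⟨h8, mem_filter.2 ⟨mem_univ _, (AcyS.mem_nb.1 h8).1, h9⟩⟩
      rw [h7]
      unfold Sys.I
      rw [sum_filter]
      refine sum_congr rfl fun e _ => ?_
      beta_reduce
      by_cases h8 : D.aw (pr e).1 (pr e).2
      · rw [if_pos h8, if_pos h8, pr_eq]
      · rw [if_neg h8, if_neg h8, mul_zero]
    simp only [hD.m_mk, h6] at h3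
    rw [hdiv fun z z' => ∑ l, μ s(z, z') l * (u l s(x, y) s(z, z') *
      (1 / (2 * D.n1) * ∑ a ∈ cN D.N x y, ∑ b ∈ cN D.N x y,
          if D.aw a b then D.chi a b * u l s(a, b) s(z, z') else 0)), hD.ms_nb, if_neg h1,
      htri x y h1] at h3
    exact h3
  case row_ext => exact hrow
  case row_card =>
    intro l z z' x am' ham hcod
    have h1 := hrow l z z' (fun x' y' => (if x' = x then 1 else 0) + (if y' = x then 1 else 0)) am'
      (fun a b => add_comm _ _) (fun a b => by split_ifs <;> norm_num) ham (by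
        intro v w hvw
        refine le_trans ?_ (hcod v w hvw)
        simp only [sum_add_distrib, sum_const, nsmul_eq_mul, ← mul_sum, sum_ite_eq']
        by_cases h2 : x ∈ cN D.N v w
        · simp only [h2, if_true, mul_one]
          linarith
        · simp [h2])
    refine le_trans (le_of_eq ?_) h1
    have e1 : ∑ x', ∑ y', (if u l s(x', y') s(z, z') ≠ 0 then
        ((if x' = x then (1 : ℝ) else 0) + (if y' = x then 1 else 0)) else 0) =
        ∑ x', ∑ y', ((if x' = x then (if u l s(x', y') s(z, z') ≠ 0 then (1 : ℝ) else 0) else 0) +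
          (if y' = x then (if u l s(x', y') s(z, z') ≠ 0 then (1 : ℝ) else 0) else 0)) := by
      refine sum_congr rfl fun x' _ => sum_congr rfl fun y' _ => ?_
      split_ifs <;> simp
    rw [e1]
    simp only [sum_add_distrib, sum_ite_eq', mem_univ, if_true]
    have e2 : ∑ x', ∑ y', (if x' = x then (if u l s(x', y') s(z, z') ≠ 0 then (1 : ℝ) else 0)
        else 0) = ∑ y', (if u l s(x, y') s(z, z') ≠ 0 then (1 : ℝ) else 0) := by
      rw [sum_comm]
      refine sum_congr rfl fun y' _ => ?_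
      rw [sum_ite_eq' univ x fun x' => (if u l s(x', y') s(z, z') ≠ 0 then (1 : ℝ) else 0),
        if_pos (mem_univ _)]
    have e3 : ∑ x', (if u l s(x', x) s(z, z') ≠ 0 then (1 : ℝ) else 0) =
        ∑ y', (if u l s(x, y') s(z, z') ≠ 0 then (1 : ℝ) else 0) := by
      refine sum_congr rfl fun y' _ => ?_
      rw [Sym2.eq_swap]
    rw [e2, e3, card_filter]
    push_cast
    ring
  case row_abs =>
    intro l z z'
    have h1 := h.row_abs hX hτ hB hu0 l s(z, z')
    rw [sum_pairs _ fun x => by rw [hD.m_diag, zero_mul]] at h1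
    simp only [hD.m_mk] at h1
    rw [hdiv fun x y => |u l s(x, y) s(z, z')|] at h1
    exact h1
  case col_ext =>
    intro x y φ a h1 h2 ha h3
    have h4 := h.col_ext hX hτ hq0 s(x, y)
      (φ := fun e => if D.chiE e = 0 then 0 else φ (pr e).1 (pr e).2)
      (fun e => by
        split_ifs
        exacts [le_rfl, h2 _ _]) (hD.nb_le h1 h2 ha h3)
    have e1 : ∀ z z', (if D.chiE s(z, z') = 0 then 0 else
        φ (pr s(z, z')).1 (pr s(z, z')).2) *
        ∑ l, μ s(z, z') l * (if u l s(x, y) s(z, z') ≠ 0 then (1 : ℝ) else 0) =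
        φ z z' * ∑ l, μ s(z, z') l * (if u l s(x, y) s(z, z') ≠ 0 then (1 : ℝ) else 0) := by
      intro z z'
      rw [hD.chiE_mk, pr_sym h1]
      by_cases h5 : D.chi z z' = 0
      · rw [if_pos h5, zero_mul, sum_eq_zero, mul_zero]
        intro l _
        rw [if_neg fun h6 => (hch l z z' x y h6).2 h5, mul_zero]
      · rw [if_neg h5]
    rw [sum_pairs] at h4
    · simp only [e1] at h4
      exact h4
    · intro z
      rw [hD.chiE_mk, hD.chi_diag, if_pos rfl, zero_mul]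
  case near =>
    intro l z z' x y h1
    rcases h.near hτ h1 with h2 | ⟨c, hc, h2⟩
    · exact Or.inl ((hD.lk_mk _ _ _ _).1 h2)
    · right
      induction c with
      | _ a b =>
        have h3 := (hD.lk_mk _ _ _ _).1 hc
        refine ⟨a, b, h3.2.1, h3.2.2.1, h3.2.2.2, ?_⟩
        rcases h2 with h2 | ⟨q, h4, h5⟩
        · exact Or.inl ((hD.lk_mk _ _ _ _).1 h2).2.2
        · right
          induction q with
          | _ q q' =>
            have h6 := (hD.lk_mk _ _ _ _).1 h4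
            have h7 := (hD.lk_mk _ _ _ _).1 h5
            exact ⟨q, q', h6.2.2.1, h6.2.2.2, h7.2.2.1, h7.2.2.2⟩

end Ok

namespace Cols

variable {η C q0 B τ u0 : ℝ} {B0 : ℕ} {L : Type*} [Fintype L] {μ : V → V → L → ℝ}
  {u : L → V → V → V → V → ℝ}

/-- Expected number of the partners of `z` that influence `x y`. -/
theorem col_card (h : D.Cols H η C q0 B τ u0 B0 μ u) (x y z : V) {am' : ℝ} (ham : 0 ≤ am')
    (hcod : ∀ v w, D.chi v w ≠ 0 → ((cN D.N v w).card : ℝ) ≤ am') :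
    ∑ z', ∑ l, μ z z' l * (if u l z z' x y ≠ 0 then 1 else 0) ≤
      (1 + q0 * (H * (1 + H / τ))) * am' := by
  have h1 := h.col_ext x y (fun a b => (if a = z then 1 else 0) + (if b = z then 1 else 0)) am'
    (fun a b => add_comm _ _) (fun a b => by split_ifs <;> norm_num) ham (by
      intro v w hvw
      refine le_trans ?_ (hcod v w hvw)
      simp only [sum_add_distrib, sum_const, nsmul_eq_mul, ← mul_sum, sum_ite_eq']
      by_cases h2 : z ∈ cN D.N v w
      · simp only [h2, if_true, mul_one]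
        linarith
      · simp [h2])
  refine le_trans (le_of_eq ?_) h1
  have hs : ∀ a b, ∑ l, μ a b l * (if u l a b x y ≠ 0 then (1 : ℝ) else 0) =
      ∑ l, μ b a l * (if u l b a x y ≠ 0 then (1 : ℝ) else 0) := by
    intro a b
    refine sum_congr rfl fun l _ => ?_
    rw [h.mu_symm a b l, h.symm1 l a b x y]
  have e1 : ∀ a b, ((if a = z then (1 : ℝ) else 0) + (if b = z then 1 else 0)) *
      ∑ l, μ a b l * (if u l a b x y ≠ 0 then (1 : ℝ) else 0) =
      (if a = z then ∑ l, μ a b l * (if u l a b x y ≠ 0 then (1 : ℝ) else 0) else 0) +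
        (if b = z then ∑ l, μ b a l * (if u l b a x y ≠ 0 then (1 : ℝ) else 0) else 0) := by
    intro a b
    rw [← hs a b]
    split_ifs <;> ring
  simp only [e1, sum_add_distrib, sum_ite_eq', mem_univ, if_true]
  have e2 : ∑ a, ∑ b, (if a = z then ∑ l, μ a b l * (if u l a b x y ≠ 0 then (1 : ℝ) else 0)
      else 0) = ∑ b, ∑ l, μ z b l * (if u l z b x y ≠ 0 then (1 : ℝ) else 0) := by
    rw [sum_comm]
    refine sum_congr rfl fun b _ => ?_
    rw [sum_ite_eq' univ z fun a => ∑ l, μ a b l * (if u l a b x y ≠ 0 then (1 : ℝ) else 0),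
      if_pos (mem_univ _)]
  rw [e2]
  ring

/-- The values are at least `-1`. -/
theorem ge_neg_one (h : D.Cols H η C q0 B τ u0 B0 μ u) (hu0 : 0 ≤ u0) (l : L) (z z' x y : V) :
    -1 ≤ u l z z' x y := by
  by_cases h1 : D.lnk z z' x y
  · rw [h.kill l z z' x y h1]
  · rcases h.vals l z z' x y h1 with h2 | h2
    · rw [h2]
      norm_num
    · linarith

/-- The values are at most `B`. -/
theorem le_B (h : D.Cols H η C q0 B τ u0 B0 μ u) (hB : 0 ≤ B) (l : L) (z z' x y : V) :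
    u l z z' x y ≤ B := by
  by_cases h1 : D.lnk z z' x y
  · rw [h.kill l z z' x y h1]
    linarith
  · rcases h.vals l z z' x y h1 with h2 | h2
    · rw [h2]
      exact hB
    · exact h2.2

/-- No change on pairs of weight `0` and by pairs of weight `0`. -/
theorem eq_zero (h : D.Cols H η C q0 B τ u0 B0 μ u) (l : L) {z z' x y : V}
    (h0 : D.chi z z' = 0 ∨ D.chi x y = 0) : u l z z' x y = 0 := by
  by_contra h1
  by_cases h2 : D.lnk z z' x y
  · rcases h0 with h0 | h0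
    · exact h2.1 h0
    · exact h2.2.1 h0
  · obtain ⟨h3, -, h4, -⟩ := h.supp l z z' x y h2 h1
    rcases h0 with h0 | h0
    · exact h4 h0
    · exact h3 h0

end Cols

end SData

end

/-- **Random columns for pairs of vertices.** The weights need only be bounded on the awake
pairs. -/
theorem exists_cols : ∀ (H η : ℝ), 1 ≤ H → 0 < η → η ≤ 1 →
    ∃ (C q0 : ℝ), 0 < C ∧ 0 < q0 ∧
    ∀ Q : ℝ, ∃ (B τ : ℝ) (B0 : ℕ), 0 < B ∧ 0 < τ ∧
    ∀ (V : Type u) [Fintype V] [DecidableEq V] (D : SData V) (Kn am u0 : ℝ), D.Ok H Kn am →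
      Kn * am ^ 2 ≤ Q * D.n1 → q0 * Kn ≤ D.n1 → 0 < u0 →
    ∃ (L : Type u) (_ : Fintype L) (μ : V → V → L → ℝ) (u : L → V → V → V → V → ℝ),
      D.Cols H η C q0 (max (max B u0) 1) τ u0 B0 μ u := by
  intro H η hH hη hη1
  obtain ⟨C, q0, hC, hq0, h1⟩ := AcyS.static_rel'.{u} H η hH hη hη1
  refine ⟨C, q0, hC, hq0, fun Q => ?_⟩
  obtain ⟨B, τ, B0, hB, hτ, h2⟩ := h1 (SData.TT Q)
  refine ⟨B, τ, B0, hB, hτ, ?_⟩
  intro V _ _ D Kn am u0 hD hQ hK hu0
  obtain ⟨L, hL, μ, CC, u, h⟩ := h2 (Sym2 V) D.sys hD.sys_ok D.awE (fun f hf => by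
    show q0 * (D.chiE f / D.n1) ≤ 1
    have h3 : D.chiE f ≤ Kn := hD.chi_le _ _ (hD.aw_of_mem hf)
    rw [mul_div_assoc', div_le_one hD.n1_pos]
    exact (mul_le_mul_of_nonneg_left h3 hq0.le).trans hK) (hD.sys_ker hQ) u0 hu0
  refine ⟨L, hL, fun z z' => μ s(z, z'), fun l z z' x y => u l s(x, y) s(z, z'), ?_⟩
  refine hD.cols (CC := CC) hC.le hq0.le hτ (le_max_right _ _) hu0.le ?_
  exact ⟨h.nonneg, h.sum_one, h.kill, fun l P f hf => (h.vals l P f hf).imp_right fun h3 =>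
      ⟨h3.1, h3.2.trans (le_max_left _ _)⟩, h.supp, h.cc, h.rate, h.driftS, h.driftS'⟩

end Pool.Agent.AcyG
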