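import Pool.Agent.AcyG.FDefs
import Pool.Agent.AcyG.Site

/-! # The outer process for all graphs (project MP_af9dfb_G, part O): definitions

Stationary process on the pairs of vertices of the whole graph; stage `j` colours a fresh random
set `U` of density `1 / R` with `k` new colours. -/

set_option autoImplicit false
set_option linter.unusedSectionVars false

namespace Pool.Agent.AcyG

open Finset
open Pool.Agent.Acy (IsPM wt Ex Pr mean)
open Pool.Agent.AcyK (Big StepOK LocOK prodLaw Un Sel updCol HasC cN)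
open scoped Classical

universe u v

/-! ## Static data -/

/-- Static data. `AL` is the index set of the accurate linear statistics. -/
structure GData (V AL : Type u) where
  /-- large parameter -/
  T : ℝ
  /-- colours per stage -/
  k : ℕ
  /-- time scale of the rounds -/
  q : ℕ
  /-- rounds per stage -/
  M : ℕ
  /-- number of stages -/
  NS : ℕ
  /-- number of stages between two wakings -/
  LI : ℕ
  /-- inverse density -/
  R : ℝ
  /-- bound for `NS / R` -/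
  kap : ℝ
  /-- largest codegree of a far pair -/
  am : ℝ
  /-- freezing threshold -/
  H : ℝ
  /-- relative drift -/
  e1 : ℝ
  /-- rate constant -/
  C0 : ℝ
  /-- bound for all constants -/
  Kc : ℝ
  /-- neighbourhoods -/
  N : V → Finset V
  /-- accurate statistics: weights, centre, total, maximum, extent, row sums -/
  a : AL → V → V → ℝ
  ctr : AL → V
  La : AL → ℝ
  s0 : AL → ℝ
  s1 : AL → ℝ
  ar : AL → ℝ

/-- Status of a far pair: active, asleep (until the next waking), frozen because of its rate,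
frozen for another reason. A pair of weight `0` is dead, whatever its status. -/
inductive GStat
  | act | asl | frY | frO

/-- State: weights, statuses, predicted Gram matrix, accumulated changes. -/
structure GState (V : Type u) where
  X : V → V → ℝ
  st : V → V → GStat
  GB : V → V → ℝ
  ch : V → V → ℝ

section

variable {V AL : Type u} [Fintype V] [DecidableEq V] [Fintype AL]

namespace GData

variable (D : GData V AL)

/-- Total number of colours (up to the factor `kap`). -/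
noncomputable def n1 : ℝ := D.R * D.k

/-- Codegree. -/
noncomputable def cod (u x : V) : ℝ := ((cN D.N u x).card : ℝ)

/-- Far pairs. -/
def far (u x : V) : Prop := u ≠ x ∧ u ∉ D.N x ∧ D.T ^ 2385 ≤ D.cod u x ∧ D.cod u x ≤ D.am

/-- Special pairs. -/
def spe (u x : V) : Prop := u ≠ x ∧ (u ∈ D.N x ∨ D.am < D.cod u x)

/-- Light pairs. -/
def lig (u x : V) : Prop := u ≠ x ∧ u ∉ D.N x ∧ D.cod u x < D.T ^ 2385

/-- The hypotheses on the static data. -/
structure Ok : Prop where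
  big : Big D.T
  k_lo : D.T ^ 3999 ≤ D.k
  k_hi : (D.k : ℝ) ≤ D.T ^ 4000
  q_hi : (D.q : ℝ) ≤ D.T ^ 150
  M_le : (D.M : ℝ) + D.T ^ 133 ≤ D.q
  M_ge : (D.q : ℝ) - D.M ≤ D.q / D.T ^ 16
  R_lo : D.T ^ 799 ≤ D.R
  R_hi : D.R ≤ D.T ^ 801
  NS_le : (D.NS : ℝ) ≤ D.kap * D.R
  LI_pos : 0 < D.LI
  am_hi : D.am ≤ D.T ^ 2401
  par1 : 2000 * D.T ^ 7200 ≤ D.n1 * D.am
  par2 : D.am ^ 2 ≤ D.H * D.n1
  par3 : D.n1 ≤ D.am ^ 2
  kap_one : 1 ≤ D.kap
  H_one : 1 ≤ D.H
  e1_pos : 0 < D.e1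
  e1_le : D.e1 ≤ 1
  e1_lo : 1 ≤ D.e1 * D.Kc
  C0_one : 1 ≤ D.C0
  Kc_ge : 10 ^ 6 * (D.kap * D.H * D.C0) ^ 10 ≤ D.Kc
  Kc_le : D.Kc ^ 1000 ≤ Real.log D.T
  Kc_exp : Real.exp (10 * D.C0 * D.H * D.kap) ≤ D.Kc
  /-- the drift over all stages is small -/
  drift : 16 * D.kap * (D.e1 + D.H * (40 * D.C0 * D.H) * (D.LI / D.R)) ≤ 1
  /-- the mass of the pairs that fire while asleep is small -/
  frz : 10 ^ 5 * D.kap * D.C0 * D.H ^ 3 * (D.LI / D.R) ≤ 1
  N_symm : ∀ u v, u ∈ D.N v → v ∈ D.N u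
  N_irrefl : ∀ v, v ∉ D.N v
  deg : ∀ v, ((D.N v).card : ℝ) ≤ D.T ^ 3600
  a_symm : ∀ i z z', D.a i z z' = D.a i z' z
  a_nonneg : ∀ i z z', 0 ≤ D.a i z z'
  a_cod : ∀ i z z', D.a i z z' ≠ 0 → (cN D.N z z').Nonempty
  a_le : ∀ i z z', D.a i z z' ≤ D.s0 i
  a_row : ∀ i z, ∑ z', D.a i z z' ≤ D.ar i
  a_tot : ∀ i, 1 / 2 * (∑ z, ∑ z', D.a i z z') ≤ D.La i
  a_ext : ∀ i v w, D.cod v w ≤ D.am →
    1 / 2 * (∑ z ∈ cN D.N v w, ∑ z' ∈ cN D.N v w, D.a i z z') ≤ D.s1 i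
  a_ctr : ∀ i z z', D.a i z z' ≠ 0 → z ∈ D.N (D.ctr i) ∨ z' ∈ D.N (D.ctr i)
  ctr_card : ∀ v, ((univ.filter fun i => D.ctr i = v).card : ℝ) ≤ D.T ^ 100
  s0_pos : ∀ i, 0 < D.s0 i
  s1_pos : ∀ i, 0 < D.s1 i
  num0 : ∀ i, D.T ^ 5970 * D.s0 i ≤ D.La i
  num1 : ∀ i, D.T ^ 1500 * D.s1 i ≤ D.La i
  num2 : ∀ i, D.T ^ 470 * (D.ar i * D.R) ≤ D.La i
  num3 : ∀ i, D.ar i ≤ D.T ^ 4800 * D.s0 i
  num4 : ∀ i, D.La i ≤ D.T ^ 15000
  num5 : ∀ i, D.T ^ 4780 * D.s0 i ≤ D.s1 i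

variable (s : GState V)

/-- Twins. -/
def twn (u x : V) : Prop := D.T ^ 4225 < s.GB u x

/-- Alive far pairs that are not frozen. -/
def nf (u x : V) : Prop := D.far u x ∧ (s.st u x = .act ∨ s.st u x = .asl) ∧ s.X u x ≠ 0

/-- Awake pairs. -/
def aw (u x : V) : Prop := D.far u x ∧ s.st u x = .act ∧ s.X u x ≠ 0

/-- Pairs asleep. -/
def as (u x : V) : Prop := D.far u x ∧ s.st u x = .asl ∧ s.X u x ≠ 0

/-- Weight of a pair that may become monochromatic. -/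
noncomputable def chi (u x : V) : ℝ :=
  if D.nf s u x then s.X u x else if D.lig u x ∧ ¬ D.twn s u x then 1 else 0

/-- The site data of the state. -/
noncomputable def sd : SData V where
  N := D.N
  n1 := D.n1
  chi := D.chi s
  aw := D.aw s

/-- Rate of a pair (per unit of time). -/
noncomputable def Y (u x : V) : ℝ := (D.sd s).Y u x

/-- Compensation kernel. -/
noncomputable def K (u x : V) : ℝ := if D.far u x then s.X u x - 1 else 0

/-- Main statistic. -/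
noncomputable def om (x : V) : ℝ := (∑ u, if D.nf s u x then s.X u x * D.Y s u x else 0) +
  D.H * ∑ u, if D.far u x ∧ s.st u x = .frY then s.X u x else 0

/-- Weight of the pairs asleep. -/
noncomputable def AS (x : V) : ℝ := ∑ u, if D.as s u x then s.X u x else 0

/-- Rates caused by pairs asleep. -/
noncomputable def AY (x : V) : ℝ := ∑ u, if D.nf s u x then s.X u x *
  (1 / (2 * D.n1) * ∑ a ∈ cN D.N u x, ∑ b ∈ cN D.N u x, if D.as s a b then s.X a b else 0) else 0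

/-- Weight of the pairs frozen for other reasons (without the twins). -/
noncomputable def FO (x : V) : ℝ :=
  ∑ u, if D.far u x ∧ s.st u x = .frO ∧ ¬ D.twn s u x then s.X u x else 0

/-- Accumulated changes. -/
noncomputable def CH (x : V) : ℝ := ∑ u, if D.far u x then s.ch u x else 0

/-- Gram matrix. -/
noncomputable def Gr (y y' : V) : ℝ := ∑ u, D.K s u y * D.K s u y'

/-- Accurate linear statistics. -/
noncomputable def Lin (i : AL) : ℝ := 1 / 2 * ∑ z, ∑ z', D.a i z z' * D.chi s z z'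

/-- The same stage, colour and round `r' < r`. -/
def monoR (C : V → Option (ℕ × Fin D.k × ℕ)) (z z' : V) : Prop :=
  ∃ j c r r', C z = some (j, c, r) ∧ C z' = some (j, c, r') ∧ r' < r

/-- The same stage and colour. -/
def mono (C : V → Option (ℕ × Fin D.k × ℕ)) (z z' : V) : Prop :=
  ∃ j c r r', C z = some (j, c, r) ∧ C z' = some (j, c, r')

/-- Weight of the monochromatic pairs (different rounds). -/
noncomputable def Mon (C : V → Option (ℕ × Fin D.k × ℕ)) (i : AL) : ℝ :=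
  ∑ z, ∑ z', if D.monoR C z z' then D.a i z z' else 0

/-- Number of uncoloured neighbours. -/
noncomputable def un (C : V → Option (ℕ × Fin D.k × ℕ)) (v : V) : ℝ :=
  (((D.N v).filter fun z => C z = none).card : ℝ)

/-- Bound for `om`. -/
noncomputable def OB : ℝ := D.am ^ 2 / 2000

/-- Growth of the weights without boosts, until stage `j`. -/
noncomputable def gr (j : ℕ) : ℝ := Real.exp (2 * D.H * (j / D.R))

/-- Decay of the weights until stage `j`. -/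
noncomputable def dec (j : ℕ) : ℝ := Real.exp (-(4 * D.C0 * D.H * (j / D.R)))

/-- Invariants before stage `j` (before the freezing). `W0`, `W1`: bounds for the weights of the
active pairs and of the pairs asleep (without the factor `gr`). -/
structure SInv (W0 W1 : ℝ) (j : ℕ) (s : GState V) (C : V → Option (ℕ × Fin D.k × ℕ)) :
    Prop where
  X_symm : ∀ u x, s.X u x = s.X x u
  st_symm : ∀ u x, s.st u x = s.st x u
  GB_symm : ∀ u x, s.GB u x = s.GB x u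
  ch_symm : ∀ u x, s.ch u x = s.ch x u
  X_lo : ∀ u x, s.X u x = 0 ∨ D.dec j ≤ s.X u x
  X_hi : ∀ u x, s.X u x ≤ D.Kc
  X_act : ∀ u x, D.aw s u x → s.X u x ≤ W0 * D.gr j
  X_asl : ∀ u x, D.as s u x → s.X u x ≤ W1 * D.gr j
  GB_nonneg : ∀ u x, 0 ≤ s.GB u x
  ch_nonneg : ∀ u x, 0 ≤ s.ch u x
  ch_dead : ∀ u x, s.X u x = 0 → 1 ≤ s.ch u x
  ch_log : ∀ u x, s.X u x ≠ 0 → |Real.log (s.X u x)| ≤ D.Kc * s.ch u x
  fr_ne : ∀ u x, s.st u x = .frY ∨ s.st u x = .frO → s.X u x ≠ 0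
  inj : ∀ u x, D.nf s u x → ∀ z ∈ cN D.N u x, ∀ z' ∈ cN D.N u x, z ≠ z' → ¬ D.mono C z z'
  C_lt : ∀ v i c r, C v = some (i, c, r) → i < j ∧ r < D.M
  om : ∀ x, D.om s x ≤ D.OB / 2 +
    (j / D.R) * ((2 * D.e1 + 2 * D.H * (40 * D.C0 * D.H) * (D.LI / D.R)) * D.OB) +
      j * (D.k / D.T ^ 2)
  AS : ∀ x, D.AS s x ≤ ((j % D.LI : ℕ) / D.R) * (6 * D.C0 * D.OB) +
    (j % D.LI : ℕ) * (D.k / D.T ^ 2) ∨ (j % D.LI = 0 ∧ D.AS s x ≤
      (D.LI / D.R) * (6 * D.C0 * D.OB) + D.LI * (D.k / D.T ^ 2))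
  AY : ∀ x, D.AY s x ≤ ((j % D.LI : ℕ) / D.R) * (30 * D.C0 * D.H * D.OB) +
    (j % D.LI : ℕ) * (D.k / D.T ^ 2) ∨ (j % D.LI = 0 ∧ D.AY s x ≤
      (D.LI / D.R) * (30 * D.C0 * D.H * D.OB) + D.LI * (D.k / D.T ^ 2))
  FO : ∀ x, D.FO s x ≤ (j / D.R) * (2 * D.H *
    ((D.LI / D.R) * (6 * D.C0 * D.OB) + D.LI * (D.k / D.T ^ 2))) + j * (D.k / D.T ^ 2)
  CH : ∀ x, D.CH s x ≤ (j / D.R) * (6 * D.C0 * D.Kc * D.OB) + j * (D.k / D.T ^ 2)
  gram : ∀ y y', y ≠ y' → |D.Gr s y y'| ≤ 2 * s.GB y y' + j * D.T ^ 3420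
  gbrow : ∀ y, ∑ y', s.GB y y' ≤ (j / D.R) * (D.T ^ 2404 * D.OB)
  lin : ∀ i, D.Lin s i ≤ D.La i * (1 + j / D.T ^ 860)
  mon : ∀ i, D.Mon C i ≤ (j / D.R) * (101 / 100 * D.La i / D.n1)
  un : ∀ v, D.un C v ≤ D.T ^ 3600 * (1 - 94 / 100 / D.R) ^ j + j * D.T ^ 1600

/-- Waking. -/
noncomputable def wake (j : ℕ) (s : GState V) : GState V where
  X := s.X
  st := fun u x => if D.LI ∣ j ∧ s.st u x = .asl then .act else s.st u x
  GB := s.GB
  ch := s.ch

/-- Freezing of the twins. -/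
noncomputable def frzT (s : GState V) : GState V where
  X := s.X
  st := fun u x => if D.nf s u x ∧ D.twn s u x then .frO else s.st u x
  GB := s.GB
  ch := s.ch

/-- Freezing of the pairs of large rate. -/
noncomputable def frzY (s : GState V) : GState V where
  X := s.X
  st := fun u x => if D.nf s u x ∧ D.H < D.Y s u x then .frY else s.st u x
  GB := s.GB
  ch := s.ch

/-- The state at the start of stage `j`. -/
noncomputable def start (j : ℕ) (s : GState V) : GState V := D.frzY (D.frzT (D.wake j s))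

/-- Invariants at the start of stage `j` (after the freezing). -/
structure SInvF (W0 W1 : ℝ) (j : ℕ) (s : GState V) (C : V → Option (ℕ × Fin D.k × ℕ)) : Prop
    extends D.SInv W0 W1 j s C where
  nf_Y : ∀ u x, D.nf s u x → D.Y s u x ≤ D.H
  nf_tw : ∀ u x, D.nf s u x → ¬ D.twn s u x
  AS' : ∀ x, D.AS s x ≤ ((j % D.LI : ℕ) / D.R) * (6 * D.C0 * D.OB) +
    (j % D.LI : ℕ) * (D.k / D.T ^ 2)
  AY' : ∀ x, D.AY s x ≤ ((j % D.LI : ℕ) / D.R) * (30 * D.C0 * D.H * D.OB) +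
    (j % D.LI : ℕ) * (D.k / D.T ^ 2)

end GData

/-! ## One stage -/

/-- Data of one stage: index, state at its start, history, columns. -/
structure GSt (V Lb AL : Type u) extends GData V AL where
  j : ℕ
  /-- bounds for the weights of the active pairs and of the pairs asleep at the start -/
  W0 : ℝ
  W1 : ℝ
  /-- constants of the columns -/
  q0 : ℝ
  Bx : ℝ
  tau : ℝ
  B0 : ℕ
  s : GState V
  C : V → Option (ℕ × Fin k × ℕ)
  μ : V → V → Lb → ℝ
  u : Lb → V → V → V → V → ℝ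

namespace GSt

variable {Lb : Type u} [Fintype Lb] (E : GSt V Lb AL)

/-- Bound for the extents. -/
noncomputable def Cx : ℝ := (1 + E.B0 * (1 + E.H / E.tau)) + (1 + E.q0 * (E.H * (1 + E.H / E.tau)))

/-- Hypotheses on the stage. -/
structure Ok : Prop where
  dat : E.toGData.Ok
  j_lt : E.j < E.NS
  inv : E.toGData.SInvF E.W0 E.W1 E.j E.s E.C
  W0_one : 1 ≤ E.W0
  W1_one : 1 ≤ E.W1
  tau_pos : 0 < E.tau
  q0_pos : 0 < E.q0
  Bx_one : 1 ≤ E.Bx
  Bx_le : E.Bx * E.Cx ≤ E.Kc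
  W01 : E.W0 * (1 + E.Bx) ≤ E.W1
  W_le : (E.W0 + E.W1) * (2 + E.Bx) * E.gr E.NS ≤ E.Kc
  cols : (E.toGData.sd E.s).Cols E.H E.e1 E.C0 E.q0 E.Bx E.tau 1 E.B0 E.μ E.u

/-- Effect of a firing on the alive, unfrozen far pairs. -/
noncomputable def gu (l : Lb) (z z' x y : V) : ℝ := if E.nf E.s x y then E.u l z z' x y else 0

/-- Effect of a firing on the awake pairs. -/
noncomputable def ga (l : Lb) (z z' x y : V) : ℝ := if E.aw E.s x y then E.u l z z' x y else 0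

/-! ### The tests (all symmetric in `z, z'`) -/

/-- Sum over the alive unfrozen pairs at `x` and the pairs in their common neighbourhoods. -/
noncomputable def S3 (x : V) (f : V → V → V → ℝ) : ℝ := 1 / (2 * E.n1) *
  ∑ u, if E.nf E.s u x then ∑ a ∈ cN E.N u x, ∑ b ∈ cN E.N u x, E.s.X u x * f u a b else 0

/-- Tests attached to a vertex. -/
noncomputable def Wx (i : Fin 8) (x : V) (z z' : V) (l : Lb) : ℝ :=
  if i = 0 then E.S3 x fun u a b => E.chi E.s a b * (E.ga l z z' u x + E.ga l z z' a b) else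
  if i = 1 then E.S3 x fun u a b => E.chi E.s a b * (E.ga l z z' u x * E.ga l z z' a b) else
  if i = 2 then E.S3 x fun u a b => E.chi E.s a b * (|E.ga l z z' u x| + |E.ga l z z' a b|) else
  if i = 3 then ∑ u, E.s.X u x * max (E.ga l z z' u x) 0 else
  if i = 4 then E.S3 x fun u a b => E.chi E.s a b *
    (max (E.ga l z z' a b) 0 * (1 + max (E.ga l z z' u x) 0)) else
  if i = 5 then E.S3 x fun u a b => if E.as E.s a b then E.s.X a b * E.ga l z z' u x else 0 else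
  if i = 6 then ∑ u, (if E.as E.s u x then E.s.X u x * |E.gu l z z' u x| else 0) else
  ∑ u, |E.ga l z z' u x|

/-- Tests attached to a pair. -/
noncomputable def Wp (i : Fin 2) (x y : V) (z z' : V) (l : Lb) : ℝ :=
  if i = 0 then max (-E.ga l z z' x y) 0 else max (E.ga l z z' x y) 0

/-- Gram tests. -/
noncomputable def Wg (i : Fin 2) (y y' : V) (z z' : V) (l : Lb) : ℝ :=
  if i = 0 then ∑ u, (E.s.X u y * E.ga l z z' u y * E.K E.s u y' +
    E.s.X u y' * E.ga l z z' u y' * E.K E.s u y)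
  else ∑ u, E.s.X u y * E.s.X u y' * |E.ga l z z' u y * E.ga l z z' u y'|

/-- Accurate linear tests. -/
noncomputable def Wl (i : Fin 3) (α : AL) (z z' : V) (l : Lb) : ℝ :=
  if i = 0 then 1 / 2 * ∑ a, ∑ b, E.a α a b * E.chi E.s a b * E.ga l z z' a b else
  if i = 1 then 1 / 2 * ∑ a, ∑ b, E.a α a b * E.chi E.s a b * |E.ga l z z' a b| else
  if E.chi E.s z z' ≠ 0 then E.a α z z' else 0

end GSt

/-- Index set of the tests. -/
abbrev Tst (V AL : Type u) : Type u :=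
  ((ULift.{u} (Fin 8)) × V) ⊕ (((ULift.{u} (Fin 2)) × V × V) ⊕
    (((ULift.{u} (Fin 2)) × V × V) ⊕ ((ULift.{u} (Fin 3)) × AL)))

/-- Index set of the kernels. -/
abbrev Krn (V AL : Type u) : Type u := ((ULift.{u} (Fin 3)) × V) ⊕ ((V × V) ⊕ AL)

namespace GSt

variable {Lb : Type u} [Fintype Lb] (E : GSt V Lb AL)

/-- Mean of a test. -/
noncomputable def mn (w : V → V → Lb → ℝ) (z z' : V) : ℝ := ∑ l, E.μ z z' l * w z z' l

/-- Predicted value of a test in one stage (per unit of time). -/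
noncomputable def prd (w : V → V → Lb → ℝ) : ℝ :=
  1 / (2 * E.n1) * ∑ z, ∑ z', E.chi E.s z z' * E.mn w z z'

/-- Increment of `GB`. -/
noncomputable def gbI (y y' : V) : ℝ := E.prd (E.Wg 1 y y') / E.R

/-- All tests. -/
noncomputable def W : Tst V AL → V → V → Lb → ℝ :=
  Sum.elim (fun e => E.Wx e.1.down e.2) (Sum.elim (fun e => E.Wp e.1.down e.2.1 e.2.2)
    (Sum.elim (fun e => E.Wg e.1.down e.2.1 e.2.2) (fun e => E.Wl e.1.down e.2)))

/-- Maxima of the tests. -/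
noncomputable def wm : Tst V AL → ℝ :=
  Sum.elim (fun _ => E.T ^ 2403) (Sum.elim (fun _ => E.T)
    (Sum.elim (fun _ => E.T ^ 2403) (fun e => if e.1.down = 2 then E.s0 e.2 else
      E.T * E.s1 e.2)))

/-- Row sums of the tests (over all vertices). -/
noncomputable def dV : Tst V AL → ℝ :=
  Sum.elim (fun _ => E.T ^ 7220) (Sum.elim (fun _ => E.T ^ 2403)
    (Sum.elim (fun _ => E.T ^ 7220) (fun e => if e.1.down = 2 then E.ar e.2 else
      E.T ^ 2404 * E.La e.2)))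

/-- Totals of the tests (over all vertices). -/
noncomputable def tV : Tst V AL → ℝ :=
  Sum.elim (fun _ => E.T * E.n1 ^ 2) (Sum.elim (fun _ => E.T * E.n1)
    (Sum.elim (fun e => if e.1.down = 0 then E.T * E.n1 ^ 2 else
      E.T * (E.n1 * E.R) * E.gbI e.2.1 e.2.2)
      (fun e => if e.1.down = 2 then 4 * E.T * E.La e.2 else E.T * E.n1 * E.La e.2)))

/-- Row sums of the tests in the stage. -/
noncomputable def d1 (i : Tst V AL) : ℝ := 2 * E.dV i / E.R + E.T ^ 5 * E.wm i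

/-- Totals of the tests in the stage. -/
noncomputable def tot (i : Tst V AL) : ℝ :=
  2 * E.tV i / E.R ^ 2 + E.T ^ 8 * (E.dV i / E.R + E.wm i)

/-- Label-independent majorant of a test. -/
noncomputable def ws (i : Tst V AL) (z z' : V) : ℝ := ⨆ l, |E.W i z z' l|

/-! ### Kernels -/

/-- Effects on the sites. -/
noncomputable def af (z z' : V) (l : Lb) (P : V × V) : ℝ := |E.gu l z z' P.1 P.2|

/-- Kernels. -/
noncomputable def omk : Krn V AL → V × V → V × V → ℝ :=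
  Sum.elim (fun e P S => if e.1.down = 0 then (if P = S ∧ P.2 = e.2 then 1 else 0) else
      if e.1.down = 1 then (if P = S then 1 / E.n1 *
        ((univ.filter fun u => E.nf E.s u e.2 ∧ P.1 ∈ cN E.N u e.2 ∧
          P.2 ∈ cN E.N u e.2).card : ℝ) else 0) else
      1 / E.n1 * ((if P.2 = e.2 ∧ E.nf E.s P.1 P.2 ∧ S.1 ∈ cN E.N P.1 P.2 ∧
          S.2 ∈ cN E.N P.1 P.2 then 1 else 0) +
        (if S.2 = e.2 ∧ E.nf E.s S.1 S.2 ∧ P.1 ∈ cN E.N S.1 S.2 ∧ P.2 ∈ cN E.N S.1 S.2 then 1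
          else 0)))
    (Sum.elim (fun e P S => if E.far P.1 P.2 ∧ E.far S.1 S.2 then
        (if P.1 = S.1 ∧ P.2 = e.1 ∧ S.2 = e.2 then 1 else 0) +
        (if P.1 = S.1 ∧ S.2 = e.1 ∧ P.2 = e.2 then 1 else 0) else 0)
      (fun α P S => if P = S then E.a α P.1 P.2 else 0))

/-- Maxima of the kernels. -/
noncomputable def wb : Krn V AL → ℝ := Sum.elim (fun _ => E.T ^ 2403)
  (Sum.elim (fun _ => E.T ^ 2403) (fun α => E.T ^ 2 * E.s1 α))

/-- Row sums of the kernels in the stage. -/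
noncomputable def db : Krn V AL → ℝ := Sum.elim (fun _ => E.T ^ 6440)
  (Sum.elim (fun _ => E.T ^ 6440) (fun α => E.T ^ 1610 * E.La α))

/-- Totals of the kernels in the stage. -/
noncomputable def tb : Krn V AL → ℝ := Sum.elim (fun _ => E.T ^ 8031)
  (Sum.elim (fun _ => E.T ^ 8031) (fun α => E.T ^ 3213 * E.La α))

/-- Weight of a pair in a kernel. -/
noncomputable def wK (b : Krn V AL) (z z' : V) (l : Lb) : ℝ :=
  ∑ P, ∑ S, E.omk b P S * E.af z z' l P

/-- Row sums of the kernels (over all vertices). -/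
noncomputable def dB : Krn V AL → ℝ := Sum.elim (fun _ => E.T ^ 7220)
  (Sum.elim (fun _ => E.T ^ 7220) (fun α => E.T ^ 2404 * E.La α))

/-- Totals of the kernels (over all vertices). -/
noncomputable def tB : Krn V AL → ℝ := Sum.elim (fun _ => E.T * E.n1 ^ 2)
  (Sum.elim (fun _ => E.T * E.n1 ^ 2) (fun α => E.T * E.n1 * E.La α))

/-- Weights for the equal picks in one round. -/
noncomputable def cw (x z z' : V) : ℝ := if z = z' then 0 else
  ((univ.filter fun u => E.far u x ∧ z ∈ cN E.N u x ∧ z' ∈ cN E.N u x).card : ℝ)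

end GSt

/-! ## The sample -/

/-- Data of one stage and its vertices. -/
structure GSm (V Lb AL : Type u) extends GSt V Lb AL where
  U : Finset V

namespace GSm

variable {Lb : Type u} [Fintype Lb] (E : GSm V Lb AL)

/-- Restriction to the vertices of the stage. -/
noncomputable def rs {α : Type*} [Zero α] (z z' : V) (x : α) : α :=
  if z ∈ E.U ∧ z' ∈ E.U then x else 0

/-- Forbidden pairs. -/
def sp (x y : V) : Prop := x ∈ E.U ∧ y ∈ E.U ∧ (E.spe x y ∨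
  (E.far x y ∧ E.s.X x y ≠ 0 ∧ ¬ E.nf E.s x y) ∨ (E.lig x y ∧ E.twn E.s x y))

/-- Size hazard. -/
noncomputable def h (x y : V) : ℝ := if x ∈ E.U ∧ y ∈ E.U ∧ E.far x y ∧ 1 ≤ E.s.X x y then
  10 / Real.log E.T * Real.log (E.s.X x y) else 0

/-- The data of the semi-random colouring of the stage. -/
noncomputable def nib : NibData V (Tst V AL ⊕ V) where
  T := E.T
  k := E.k
  q := E.q
  M := E.M
  rp := fun x y => x ∈ E.U ∧ y ∈ E.U ∧
    (E.far x y ∨ E.spe x y ∨ (E.lig x y ∧ E.twn E.s x y))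
  K := fun x y => E.rs x y (E.K E.s x y)
  h := E.h
  sp := E.sp
  tw := fun x y => x = y ∨ E.twn E.s x y
  pr := fun x y => x ∈ E.U ∧ y ∈ E.U ∧ x ≠ y ∧ ¬ E.twn E.s x y ∧ 0 < E.cod x y
  a := fun b x y => if b = 0 then max (-E.rs y x (E.K E.s y x)) 0 else
    if b = 1 then (if E.rs y x (E.K E.s y x) ≠ -1 then 2 * (1 + E.rs y x (E.K E.s y x)) *
      (Real.exp (20 * Real.log E.T * E.h y x) - 1) else 0) else
    if E.sp y x then 2 * (1 + E.rs y x (E.K E.s y x)) else 0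
  g := Sum.elim (fun i z => ∑ z', E.rs z z' (∑ l, E.μ z z' l * |E.W i z z' l|))
    (fun v z => if z ∈ E.U ∧ z ∈ E.N v ∧ E.C z = none then 1 else 0)
  gm := Sum.elim E.d1 (fun _ => 1)
  gs := Sum.elim E.tot (fun _ => E.T ^ 2802)
  w := Sum.elim (fun i z z' => E.rs z z' (∑ l, E.μ z z' l * E.W i z z' l)) (fun _ _ _ => 0)

/-- The data of the firing process of the stage. -/
noncomputable def fire : Fire V (Tst V AL ⊕ V) Lb (V × V) (Tst V AL) (Krn V AL) V where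
  D := E.nib
  μ := E.μ
  W := fun i z z' l => E.rs z z' (E.W i z z' l)
  ws := fun i z z' => E.rs z z' (E.ws i z z')
  wm := E.wm
  d1 := E.d1
  tot := E.tot
  af := fun z z' l P => E.rs z z' (E.af z z' l P)
  as := fun z z' P => E.rs z z' (⨆ l, E.af z z' l P)
  om := E.omk
  bs := fun b z z' => E.rs z z' (⨆ l, E.wK b z z' l)
  wb := E.wb
  db := E.db
  tb := E.tb
  cw := fun x z z' => E.rs z z' (E.cw x z z')
  cm := fun _ => E.T ^ 3601
  cr := fun _ => E.T ^ 5206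
  cs := fun _ => E.T ^ 2802

/-- The sample is typical. -/
structure Good : Prop where
  /-- neighbourhoods -/
  nbr : ∀ v, ((E.U ∩ E.N v).card : ℝ) ≤ E.T ^ 2802
  cod : ∀ u x, E.toGSt.toGData.cod u x ≤ E.am → ((E.U ∩ cN E.N u x).card : ℝ) ≤ E.T ^ 1603
  far : ∀ x, ((E.U.filter fun u => E.far u x).card : ℝ) ≤ 2 * E.T ^ 4016
  spe : ∀ x, ((E.U.filter fun u => E.spe u x).card : ℝ) ≤ E.k / 1950
  /-- weighted sums over `U` -/
  neg : ∀ x, ∑ u ∈ E.U, (if E.far u x then max (-E.K E.s u x) 0 else 0) ≤ E.Kc ^ 10 * E.k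
  ex : ∀ x, ∑ u ∈ E.U, (if E.far u x ∧ 1 ≤ E.s.X u x then
    2 * E.s.X u x * (E.s.X u x ^ 200 - 1) else 0) ≤ E.Kc ^ 300 * E.k
  frz : ∀ x, ∑ u ∈ E.U, (if E.far u x ∧ E.s.X u x ≠ 0 ∧ ¬ E.nf E.s u x then E.s.X u x else 0) ≤
    (E.k : ℝ) / 1000
  gram : ∀ y y', ¬ E.twn E.s y y' → y ≠ y' → |∑ u ∈ E.U, E.K E.s u y * E.K E.s u y'| ≤ E.T ^ 3430
  unc : ∀ v, |((E.U.filter fun z => z ∈ E.N v ∧ E.C z = none).card : ℝ) -
    E.un E.C v / E.R| ≤ E.T ^ 1500
  /-- rows of the tests -/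
  row : ∀ i z, ∑ z' ∈ E.U, (∑ l, E.μ z z' l * |E.W i z z' l|) ≤ E.d1 i
  rowS : ∀ i z, ∑ z' ∈ E.U, E.ws i z z' ≤ E.T ^ 4100 * E.wm i
  tot : ∀ i, ∑ z ∈ E.U, ∑ z' ∈ E.U, (∑ l, E.μ z z' l * |E.W i z z' l|) ≤ E.tot i
  quad : ∀ i, |∑ z ∈ E.U, ∑ z' ∈ E.U, E.chi E.s z z' * E.mn (E.W i) z z' -
    (1 / E.R) ^ 2 * ∑ z, ∑ z', E.chi E.s z z' * E.mn (E.W i) z z'| ≤
    E.T ^ 4 * ((E.dV i / E.R + E.wm i) +
      Real.sqrt ((E.dV i / E.R + E.wm i) * (E.tV i / E.R + E.dV i) / E.R))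
  /-- effects -/
  afrow : ∀ z P, ∑ z' ∈ E.U, (∑ l, E.μ z z' l * E.af z z' l P) ≤ E.T ^ 1604
  aftot : ∀ P, ∑ z ∈ E.U, ∑ z' ∈ E.U, (∑ l, E.μ z z' l * E.af z z' l P) ≤ E.T ^ 3210
  asrow : ∀ z P, ∑ z' ∈ E.U, (⨆ l, E.af z z' l P) ≤ E.T ^ 4100 * E.T
  bsrow : ∀ b z, ∑ z' ∈ E.U, (⨆ l, E.wK b z z' l) ≤ E.T ^ 4100 * E.wb b
  brow : ∀ b z, ∑ z' ∈ E.U, (∑ l, E.μ z z' l * E.wK b z z' l) ≤ E.db b
  btot : ∀ b, ∑ z ∈ E.U, ∑ z' ∈ E.U, (∑ l, E.μ z z' l * E.wK b z z' l) ≤ E.tb b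
  cwrow : ∀ x z, ∑ z' ∈ E.U, (E.cw x z z' + E.cw x z' z) ≤ E.T ^ 5206

end GSm

/-! ## The outcome of a stage -/

/-- Data of a stage with its outcome. -/
structure GRn (V Lb AL : Type u) extends GSm V Lb AL where
  col : V → Option (Fin k × ℕ)
  ok : V → Prop
  lab : V → V → Lb
  ra : V → V → ℝ

namespace GRn

variable {Lb : Type u} [Fintype Lb] (E : GRn V Lb AL)

/-- The pair `z z'` has fired in the stage (`z` is the later vertex). -/
def fr (z z' : V) : Prop := z ∈ E.U ∧ z' ∈ E.U ∧ Fire.fired E.col z z'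

/-- Sum over the firings of the stage. -/
noncomputable def G1 (w : V → V → Lb → ℝ) : ℝ :=
  ∑ z, ∑ z', if E.fr z z' then w z z' (E.lab z z') else 0

/-- Sum with the realised rates. -/
noncomputable def Cr (w : V → V → Lb → ℝ) : ℝ :=
  ∑ z, ∑ z', E.rs z z' (E.ra z z' * E.mn w z z')

/-- Number of couples of different firings that affect `x y` and `a b`. -/
noncomputable def NN (x y a b : V) : ℝ := ∑ z, ∑ z', ∑ w, ∑ w',
  if E.fr z z' ∧ E.fr w w' ∧ (z, z') ≠ (w, w') then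
    |E.gu (E.lab z z') z z' x y| * |E.gu (E.lab w w') w w' a b| else 0

/-- What is known at the end of the stage. -/
structure Ok : Prop where
  sm : E.toGSm.toGSt.Ok
  good : E.toGSm.Good
  ra_nonneg : ∀ z z', 0 ≤ E.ra z z'
  rx : ∀ i x, |E.G1 (E.Wx i x) - E.Cr (E.Wx i x)| ≤ E.k / E.T ^ 4
  rxp : ∀ i x, |E.Cr (E.Wx i x) - E.prd (E.Wx i x) / E.R| ≤ E.k / E.T ^ 4
  rpp : ∀ i x y, |E.Cr (E.Wp i x y) - E.prd (E.Wp i x y) / E.R| ≤ 1 / (E.T ^ 5 * E.R)
  rg : ∀ i y y', |E.G1 (E.Wg i y y') - E.Cr (E.Wg i y y')| ≤ E.T ^ 3400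
  rgp : ∀ y y', |E.Cr (E.Wg 1 y y') - E.gbI y y'| ≤ E.T ^ 3410 + E.gbI y y' / E.T ^ 6
  rl : ∀ i α, i ≠ 2 → |E.G1 (E.Wl i α) - E.Cr (E.Wl i α)| ≤ E.La α / E.T ^ 930
  rl1 : ∀ α, E.Cr (E.Wl 1 α) ≤ E.La α * E.T ^ 4 / E.R
  rl2 : ∀ α, |E.G1 (E.Wl 2 α) - E.Cr (E.Wl 2 α)| ≤ E.La α / (E.n1 * E.R * E.T ^ 5)
  rlp : ∀ α, |E.Cr (E.Wl 2 α) - E.prd (E.Wl 2 α) / E.R| ≤ E.La α / (E.n1 * E.R * E.T ^ 5)
  rP : ∀ x y, E.Cr (fun z z' l => |E.gu l z z' x y|) ≤ 1 / E.T ^ 769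
  d0 : ∀ x, ∑ u, E.NN u x u x ≤ E.T ^ 3300
  d1 : ∀ x, 1 / E.n1 * ∑ u, (if E.nf E.s u x then ∑ a ∈ cN E.N u x, ∑ b ∈ cN E.N u x,
    E.NN a b a b else 0) ≤ E.T ^ 3300
  d2 : ∀ x, 1 / E.n1 * ∑ u, (if E.nf E.s u x then ∑ a ∈ cN E.N u x, ∑ b ∈ cN E.N u x,
    E.NN u x a b else 0) ≤ E.T ^ 3300
  dg : ∀ y y', ∑ u, E.NN u y u y' ≤ E.T ^ 3300
  dl : ∀ α, ∑ a, ∑ b, E.a α a b * E.NN a b a b ≤ E.La α / E.T ^ 870
  cl : ∀ x, (∑ z, ∑ z', E.rs z z' (if Fire.clash E.col z z' then E.cw x z z' else 0)) ≤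
    E.T ^ 3910
  sep : ∀ z z' c r r', z ∈ E.U → z' ∈ E.U → E.col z' = some (c, r') → E.col z = some (c, r) →
    r' < r → E.ok z → E.K E.s z z' ≠ -1 ∧ ¬ E.sp z z'
  col_lt : ∀ z c r, E.col z = some (c, r) → r < E.M
  unc : ∀ v, ((E.U.filter fun z => z ∈ E.N v ∧ E.C z = none ∧ (E.col z = none ∨ ¬ E.ok z)).card : ℝ)
    ≤ (1 / 20 + 1 / E.T) * ((E.U.filter fun z => z ∈ E.N v ∧ E.C z = none).card : ℝ) +
      E.T ^ 1600 / 4

/-- Number of firings that affect the pair. -/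
noncomputable def nev (x y : V) : ℕ := ((univ : Finset (V × V)).filter fun e =>
  E.fr e.1 e.2 ∧ E.gu (E.lab e.1 e.2) e.1 e.2 x y ≠ 0).card

/-- The compensator. -/
noncomputable def cc (x y : V) : ℝ := -E.Cr (fun z z' l => E.ga l z z' x y)

/-- Sum of the effects. -/
noncomputable def gg (x y : V) : ℝ := E.G1 (fun z z' l => E.ga l z z' x y)

/-- Two common neighbours have made the same pick in the same round. -/
def cls (x y : V) : Prop := ∃ z ∈ cN E.N x y, ∃ z' ∈ cN E.N x y, z ∈ E.U ∧ z' ∈ E.U ∧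
  Fire.clash E.col z z'

/-- New weights. -/
noncomputable def nX (x y : V) : ℝ :=
  if E.aw E.s x y then
    (if E.nev x y = 0 then E.s.X x y * (1 + E.cc x y) else
      if E.nev x y = 1 then (if E.gg x y < 0 then 0 else
        E.s.X x y * (1 + E.cc x y + E.gg x y)) else E.s.X x y)
  else E.s.X x y

/-- The state after the stage. -/
noncomputable def next : GState V where
  X := E.nX
  st := fun x y =>
    if E.aw E.s x y then
      (if E.nX x y = 0 then .act else if 2 ≤ E.nev x y ∨ E.cls x y then .frO else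
        if E.nev x y = 0 then .act else .asl)
    else if E.as E.s x y then (if E.nev x y = 0 ∧ ¬ E.cls x y then .asl else .frO)
    else E.s.st x y
  GB := fun y y' => E.s.GB y y' + E.gbI y y'
  ch := fun x y => if E.aw E.s x y then E.s.ch x y + |E.cc x y| + E.nev x y else E.s.ch x y

/-- The real colours after the stage. -/
noncomputable def nC (v : V) : Option (ℕ × Fin E.k × ℕ) :=
  if E.C v = none ∧ v ∈ E.U ∧ E.ok v then (E.col v).map fun e => (E.j, e.1, e.2) else E.C v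

end GRn

end

end Pool.Agent.AcyG
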