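import Pool.Agent.AcyG.OCol

/-! # Outer process: rate of the triangles, drift, common boosts (project MP_af9dfb_G, row OC2) -/

set_option autoImplicit false
set_option linter.unusedSectionVars false

namespace Pool.Agent.AcyG

open Finset
open Pool.Agent.Acy (IsPM wt Ex Pr mean)
open Pool.Agent.AcyK (Big StepOK LocOK prodLaw Un Sel updCol HasC cN)
open scoped Classical

universe u v

section

variable {V AL : Type u} [Fintype V] [DecidableEq V] [Fintype AL]

namespace GSt

variable {Lb : Type u} [Fintype Lb] {E : GSt V Lb AL} (hE : E.Ok)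

section
include hE

/-- The rates of the pairs that may become monochromatic. -/
theorem od_Y_le {a b : V} (h : E.chi E.s a b ≠ 0) : E.Y E.s a b ≤ E.H := by
  rcases GData.os_chi_cases h with h1 | h1
  · exact hE.inv.nf_Y a b h1
  · exact (GData.os_Y_lig hE.dat hE.inv.toSInv h1.1).trans hE.dat.H_one

theorem od_YY_le (x y a b : V) : (E.sd E.s).YY x y a b ≤ E.Y E.s a b := by
  have hn := GData.os_n1_pos hE.dat
  rw [GData.os_Y_eq]
  unfold SData.YY
  show 1 / (2 * E.n1) * ∑ z ∈ cN E.N x y ∩ cN E.N a b, ∑ z' ∈ cN E.N x y ∩ cN E.N a b,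
    E.chi E.s z z' ≤ _
  refine mul_le_mul_of_nonneg_left ?_ (by positivity)
  refine (sum_le_sum fun z _ => sum_le_sum_of_subset_of_nonneg inter_subset_right
    fun z' _ _ => GData.os_chi_nonneg hE.inv.toSInv z z').trans ?_
  exact sum_le_sum_of_subset_of_nonneg inter_subset_right fun z _ _ =>
    sum_nonneg fun z' _ => GData.os_chi_nonneg hE.inv.toSInv z z'

theorem od_Y_lig {a b : V} (h : E.lig a b) : E.Y E.s a b ≤ 1 / E.T ^ 20 := by
  refine (GData.os_Y_le hE.dat hE.inv.toSInv a b).trans ?_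
  have hn := GData.os_n1_pos hE.dat
  have h0 := GData.os_T_pos hE.dat
  rw [div_le_div_iff₀ (by positivity) (by positivity), one_mul]
  have h1 : E.cod a b ^ 2 ≤ (E.T ^ 2385) ^ 2 :=
    pow_le_pow_left₀ (GData.os_cod_nonneg a b) h.2.2.le 2
  have h2 := GData.os_Kc_T hE.dat
  have h3 := GData.os_Kc_one hE.dat
  calc E.Kc * E.cod a b ^ 2 * E.T ^ 20 ≤ E.T * (E.T ^ 2385) ^ 2 * E.T ^ 20 :=
        mul_le_mul_of_nonneg_right (mul_le_mul h2 h1 (sq_nonneg _) h0.le) (by positivity)
    _ = E.T ^ 4791 := by rw [← pow_mul, ← pow_succ', ← pow_add]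
    _ ≤ E.T ^ 4798 := hE.dat.big.pw (by norm_num)
    _ ≤ E.n1 := GData.os_n1_lo hE.dat
    _ ≤ 2 * E.n1 := by linarith

/-- Rate of the triangles. -/
theorem tr_le (x y : V) : (E.sd E.s).tr x y ≤ E.H * (1 / (2 * E.n1) * ∑ a ∈ cN E.N x y,
    ∑ b ∈ cN E.N x y, if E.as E.s a b then E.s.X a b else 0) +
      1 / E.T ^ 20 * E.Y E.s x y := by
  have hn := GData.os_n1_pos hE.dat
  have h0 := GData.os_T_pos hE.dat
  rw [GData.os_Y_eq]
  unfold SData.tr
  show 1 / (2 * E.n1) * ∑ a ∈ cN E.N x y, ∑ b ∈ cN E.N x y,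
    E.chi E.s a b * (if E.aw E.s a b then 0 else (E.sd E.s).YY x y a b) ≤ _
  have key : ∀ a b, E.chi E.s a b * (if E.aw E.s a b then 0 else (E.sd E.s).YY x y a b) ≤
      E.H * (if E.as E.s a b then E.s.X a b else 0) + 1 / E.T ^ 20 * E.chi E.s a b := by
    intro a b
    have hc := GData.os_chi_nonneg hE.inv.toSInv a b
    have hX := GData.os_X_nonneg hE.inv.toSInv a b
    have hH := hE.dat.H_one
    have hr : 0 ≤ E.H * (if E.as E.s a b then E.s.X a b else 0) := by
      split_ifs
      · positivity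
      · simp
    have hr' : 0 ≤ 1 / E.T ^ 20 * E.chi E.s a b := by positivity
    by_cases h1 : E.aw E.s a b
    · rw [if_pos h1, mul_zero]
      linarith
    · rw [if_neg h1]
      by_cases h2 : E.chi E.s a b = 0
      · rw [h2, zero_mul]
        rw [h2] at hr'
        linarith
      · by_cases h3 : E.nf E.s a b
        · have h4 : E.as E.s a b := ((GData.os_nf_iff a b).1 h3).resolve_left h1
          have h5 : E.chi E.s a b * (E.sd E.s).YY x y a b ≤ E.H * E.s.X a b := by
            rw [GData.os_chi_nf h3, mul_comm E.H]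
            exact mul_le_mul_of_nonneg_left ((od_YY_le hE x y a b).trans (od_Y_le hE h2)) hX
          rw [if_pos h4]
          linarith
        · have h4 := (GData.os_chi_cases h2).resolve_left h3
          have h5 : E.chi E.s a b * (E.sd E.s).YY x y a b ≤ 1 / E.T ^ 20 * E.chi E.s a b := by
            rw [mul_comm (1 / E.T ^ 20)]
            exact mul_le_mul_of_nonneg_left ((od_YY_le hE x y a b).trans (od_Y_lig hE h4.1)) hc
          linarith
  refine (mul_le_mul_of_nonneg_left (sum_le_sum fun a _ => sum_le_sum fun b _ => key a b)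
    (by positivity)).trans (le_of_eq ?_)
  simp only [sum_add_distrib, ← mul_sum]
  ring

theorem tr_le' (x y : V) : (E.sd E.s).tr x y ≤ E.H * E.Y E.s x y := by
  have hn := GData.os_n1_pos hE.dat
  rw [GData.os_Y_eq]
  unfold SData.tr
  show 1 / (2 * E.n1) * ∑ a ∈ cN E.N x y, ∑ b ∈ cN E.N x y,
    E.chi E.s a b * (if E.aw E.s a b then 0 else (E.sd E.s).YY x y a b) ≤ _
  have key : ∀ a b, E.chi E.s a b * (if E.aw E.s a b then 0 else (E.sd E.s).YY x y a b) ≤
      E.H * E.chi E.s a b := by
    intro a b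
    have hc := GData.os_chi_nonneg hE.inv.toSInv a b
    have hH := hE.dat.H_one
    by_cases h1 : E.aw E.s a b
    · rw [if_pos h1, mul_zero]
      positivity
    · rw [if_neg h1, mul_comm E.H]
      by_cases h2 : E.chi E.s a b = 0
      · rw [h2, zero_mul, zero_mul]
      · exact mul_le_mul_of_nonneg_left ((od_YY_le hE x y a b).trans (od_Y_le hE h2)) hc
  refine (mul_le_mul_of_nonneg_left (sum_le_sum fun a _ => sum_le_sum fun b _ => key a b)
    (by positivity)).trans (le_of_eq ?_)
  simp only [← mul_sum]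
  ring

/-- The drift on the awake pairs. -/
theorem drift_ga {x y : V} (h : E.aw E.s x y) :
    E.prd (fun z z' l => E.ga l z z' x y * (1 / (2 * E.n1) * ∑ a ∈ cN E.N x y,
      ∑ b ∈ cN E.N x y, E.chi E.s a b * E.ga l z z' a b)) ≤
    E.e1 * E.Y E.s x y + (E.sd E.s).tr x y := by
  have h1 : (E.sd E.s).chi x y ≠ 0 := by
    show E.chi E.s x y ≠ 0
    rw [GData.os_chi_nf (GData.os_nf_of_aw h)]
    exact h.2.2
  refine le_trans (le_of_eq ?_) (hE.cols.drift_aw x y h1 h)
  have e1 : ∀ l z z', E.ga l z z' x y = E.u l z z' x y := fun l z z' => if_pos h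
  have e2 : ∀ l z z' a b, E.chi E.s a b * E.ga l z z' a b =
      if E.aw E.s a b then E.chi E.s a b * E.u l z z' a b else 0 := by
    intro l z z' a b
    unfold ga
    split_ifs
    · rfl
    · rw [mul_zero]
  unfold prd mn
  simp only [e1, e2]
  rfl

/-- Comparison of the predicted values, for the pairs that may fire. -/
theorem od_prd_mono {w w' : V → V → Lb → ℝ}
    (h : ∀ z z' l, E.chi E.s z z' ≠ 0 → w z z' l ≤ w' z z' l) : E.prd w ≤ E.prd w' := by
  unfold prd mn
  have hn := GData.os_n1_pos hE.dat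
  refine mul_le_mul_of_nonneg_left (sum_le_sum fun z _ => sum_le_sum fun z' _ => ?_)
    (by positivity)
  by_cases h1 : E.chi E.s z z' = 0
  · rw [h1, zero_mul, zero_mul]
  · exact mul_le_mul_of_nonneg_left (sum_le_sum fun l _ =>
      mul_le_mul_of_nonneg_left (h z z' l h1) (hE.cols.mu_nonneg z z' l))
        (GData.os_chi_nonneg hE.inv.toSInv z z')

omit hE in
theorem od_prd_sum {ι : Type*} (A : Finset ι) (w : ι → V → V → Lb → ℝ) :
    E.prd (fun z z' l => ∑ a ∈ A, w a z z' l) = ∑ a ∈ A, E.prd (w a) := by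
  induction A using Finset.induction_on with
  | empty =>
    simp only [sum_empty]
    unfold prd mn
    simp
  | insert a A ha ih =>
    simp only [sum_insert ha]
    rw [oc_prd_add, ih]

/-- Common boosts. -/
theorem pp_ga {x y : V} (h : E.aw E.s x y) :
    E.prd (fun z z' l => max (E.ga l z z' x y) 0 * (1 / (2 * E.n1) * ∑ a ∈ cN E.N x y,
      ∑ b ∈ cN E.N x y, E.chi E.s a b * max (E.ga l z z' a b) 0)) ≤
    (E.e1 + 2 * E.H + 2 * E.C0 * E.H) * E.Y E.s x y := by
  have hn := GData.os_n1_pos hE.dat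
  have hY := GData.os_Y_nonneg hE.dat hE.inv.toSInv x y
  have hH := hE.dat.H_one
  have hC := hE.dat.C0_one
  have hc := fun a b => GData.os_chi_nonneg hE.inv.toSInv a b
  -- the positive part of `ga` and its rate
  have hpos : ∀ a b, E.prd (fun z z' l => max (E.ga l z z' a b) 0) ≤ E.C0 * E.Y E.s a b := by
    intro a b
    refine (oc_prd_mono hE fun z z' l => ?_).trans (prd_pos hE a b)
    by_cases h1 : E.aw E.s a b
    · rw [ga_eq hE h1]
    · have h2 : E.ga l z z' a b = 0 := if_neg h1
      rw [h2, max_self]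
      exact le_max_right _ _
  -- the negative part of `ga`
  have hneg : ∀ l z z' a b, 0 ≤ max (-E.ga l z z' a b) 0 ∧ max (-E.ga l z z' a b) 0 ≤ 1 ∧
      (max (-E.ga l z z' a b) 0 ≠ 0 → z ∈ cN E.N a b ∧ z' ∈ cN E.N a b) := by
    intro l z z' a b
    refine ⟨le_max_right _ _, ?_⟩
    by_cases h1 : E.aw E.s a b
    · rw [ga_eq hE h1]
      rcases gu_cases hE l z z' a b with h2 | ⟨h2, -, -, h3⟩ | ⟨h2, -⟩
      · rw [h2]
        simp
      · rw [h2]
        simp [h3]
      · rw [max_eq_right (by linarith)]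
        simp
    · have h2 : E.ga l z z' a b = 0 := if_neg h1
      rw [h2]
      simp
  set P : V → V → Lb → V → V → ℝ := fun z z' l a b => max (E.ga l z z' a b) 0 with hP
  set Q : V → V → Lb → V → V → ℝ := fun z z' l a b => max (-E.ga l z z' a b) 0 with hQ
  set c : ℝ := 1 / (2 * E.n1) with hcdef
  have hc0 : 0 ≤ c := by rw [hcdef]; positivity
  have hPn : ∀ z z' l a b, 0 ≤ P z z' l a b := fun z z' l a b => le_max_right _ _
  -- pointwise decomposition
  have hdec : ∀ z z' l a b, P z z' l x y * P z z' l a b ≤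
      E.ga l z z' x y * E.ga l z z' a b + P z z' l x y * Q z z' l a b + P z z' l a b := by
    intro z z' l a b
    have q1 := hneg l z z' x y
    have q2 := hneg l z z' a b
    have r1 : E.ga l z z' x y = P z z' l x y - Q z z' l x y := by
      simp only [hP, hQ]
      rcases le_total 0 (E.ga l z z' x y) with h1 | h1
      · rw [max_eq_left h1, max_eq_right (by linarith), sub_zero]
      · rw [max_eq_right h1, max_eq_left (by linarith), zero_sub, neg_neg]
    have r2 : E.ga l z z' a b = P z z' l a b - Q z z' l a b := by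
      simp only [hP, hQ]
      rcases le_total 0 (E.ga l z z' a b) with h1 | h1
      · rw [max_eq_left h1, max_eq_right (by linarith), sub_zero]
      · rw [max_eq_right h1, max_eq_left (by linarith), zero_sub, neg_neg]
    rw [r1, r2]
    have q1' : 0 ≤ Q z z' l x y := q1.1
    have q1'' : Q z z' l x y ≤ 1 := q1.2.1
    have q2' : 0 ≤ Q z z' l a b := q2.1
    have p2 := hPn z z' l a b
    nlinarith [mul_nonneg q1' q2', mul_nonneg p2 (sub_nonneg.2 q1'')]
  -- the three sums
  have hsum : ∀ z z' l, P z z' l x y * (c * ∑ a ∈ cN E.N x y, ∑ b ∈ cN E.N x y,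
      E.chi E.s a b * P z z' l a b) ≤
      (E.ga l z z' x y * (c * ∑ a ∈ cN E.N x y, ∑ b ∈ cN E.N x y,
        E.chi E.s a b * E.ga l z z' a b) +
      P z z' l x y * (c * ∑ a ∈ cN E.N x y, ∑ b ∈ cN E.N x y,
        E.chi E.s a b * Q z z' l a b)) +
      c * ∑ a ∈ cN E.N x y, ∑ b ∈ cN E.N x y, E.chi E.s a b * P z z' l a b := by
    intro z z' l
    have e1 : P z z' l x y * (c * ∑ a ∈ cN E.N x y, ∑ b ∈ cN E.N x y,
        E.chi E.s a b * P z z' l a b) = c * ∑ a ∈ cN E.N x y, ∑ b ∈ cN E.N x y,
          E.chi E.s a b * (P z z' l x y * P z z' l a b) := by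
      simp only [mul_sum]
      exact sum_congr rfl fun a _ => sum_congr rfl fun b _ => by ring
    have e2 : (E.ga l z z' x y * (c * ∑ a ∈ cN E.N x y, ∑ b ∈ cN E.N x y,
        E.chi E.s a b * E.ga l z z' a b) +
        P z z' l x y * (c * ∑ a ∈ cN E.N x y, ∑ b ∈ cN E.N x y,
          E.chi E.s a b * Q z z' l a b)) +
        c * ∑ a ∈ cN E.N x y, ∑ b ∈ cN E.N x y, E.chi E.s a b * P z z' l a b =
        c * ∑ a ∈ cN E.N x y, ∑ b ∈ cN E.N x y, E.chi E.s a b *
          (E.ga l z z' x y * E.ga l z z' a b + P z z' l x y * Q z z' l a b + P z z' l a b) := by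
      simp only [mul_sum, ← sum_add_distrib]
      exact sum_congr rfl fun a _ => sum_congr rfl fun b _ => by ring
    rw [e1, e2]
    exact mul_le_mul_of_nonneg_left (sum_le_sum fun a _ => sum_le_sum fun b _ =>
      mul_le_mul_of_nonneg_left (hdec z z' l a b) (hc a b)) hc0
  refine (oc_prd_mono hE hsum).trans ?_
  rw [oc_prd_add, oc_prd_add]
  -- (1) drift
  have s1 := (drift_ga hE h).trans (add_le_add_right (tr_le' hE x y) (E.e1 * E.Y E.s x y))
  -- (2) one firing kills pairs of total rate at most `H`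
  have s2 : E.prd (fun z z' l => P z z' l x y * (c * ∑ a ∈ cN E.N x y, ∑ b ∈ cN E.N x y,
      E.chi E.s a b * Q z z' l a b)) ≤ E.H * (E.C0 * E.Y E.s x y) := by
    have t1 : ∀ z z' l, E.chi E.s z z' ≠ 0 → P z z' l x y * (c * ∑ a ∈ cN E.N x y,
        ∑ b ∈ cN E.N x y, E.chi E.s a b * Q z z' l a b) ≤ E.H * P z z' l x y := by
      intro z z' l hzz
      rw [mul_comm E.H]
      refine mul_le_mul_of_nonneg_left ?_ (hPn z z' l x y)
      refine le_trans ?_ (od_Y_le hE hzz)
      rw [GData.os_Y_eq]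
      refine mul_le_mul_of_nonneg_left ?_ hc0
      have t2 : ∀ a b, E.chi E.s a b * Q z z' l a b ≤
          if a ∈ cN E.N z z' then (if b ∈ cN E.N z z' then E.chi E.s a b else 0) else 0 := by
        intro a b
        obtain ⟨q0, q1, q2⟩ := hneg l z z' a b
        by_cases hq : Q z z' l a b = 0
        · rw [hq, mul_zero]
          split_ifs
          exacts [hc a b, le_rfl, le_rfl]
        · obtain ⟨m1, m2⟩ := q2 hq
          have m3 : a ∈ cN E.N z z' := mem_inter.2
            ⟨hE.dat.N_symm _ _ (mem_inter.1 m1).1, hE.dat.N_symm _ _ (mem_inter.1 m2).1⟩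
          have m4 : b ∈ cN E.N z z' := mem_inter.2
            ⟨hE.dat.N_symm _ _ (mem_inter.1 m1).2, hE.dat.N_symm _ _ (mem_inter.1 m2).2⟩
          rw [if_pos m3, if_pos m4]
          exact mul_le_of_le_one_right (hc a b) q1
      have t3 : ∀ a b, 0 ≤ (if a ∈ cN E.N z z' then
          (if b ∈ cN E.N z z' then E.chi E.s a b else 0) else 0) := by
        intro a b
        split_ifs
        exacts [hc a b, le_rfl, le_rfl]
      calc ∑ a ∈ cN E.N x y, ∑ b ∈ cN E.N x y, E.chi E.s a b * Q z z' l a b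
          ≤ ∑ a ∈ cN E.N x y, ∑ b ∈ cN E.N x y, (if a ∈ cN E.N z z' then
            (if b ∈ cN E.N z z' then E.chi E.s a b else 0) else 0) :=
            sum_le_sum fun a _ => sum_le_sum fun b _ => t2 a b
        _ ≤ ∑ a ∈ cN E.N x y, ∑ b, (if a ∈ cN E.N z z' then
            (if b ∈ cN E.N z z' then E.chi E.s a b else 0) else 0) :=
            sum_le_sum fun a _ => sum_le_sum_of_subset_of_nonneg (subset_univ _)
              fun b _ _ => t3 a b
        _ ≤ ∑ a, ∑ b, (if a ∈ cN E.N z z' then
            (if b ∈ cN E.N z z' then E.chi E.s a b else 0) else 0) :=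
            sum_le_sum_of_subset_of_nonneg (subset_univ _)
              fun a _ _ => sum_nonneg fun b _ => t3 a b
        _ = ∑ a ∈ cN E.N z z', ∑ b ∈ cN E.N z z', E.chi E.s a b := by
            have e3 : ∀ a, ∑ b, (if a ∈ cN E.N z z' then
                (if b ∈ cN E.N z z' then E.chi E.s a b else 0) else 0) =
                if a ∈ cN E.N z z' then ∑ b ∈ cN E.N z z', E.chi E.s a b else 0 := by
              intro a
              split_ifs
              · rw [sum_ite_mem, univ_inter]
              · exact sum_const_zero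
            simp only [e3]
            rw [sum_ite_mem, univ_inter]
    refine (od_prd_mono hE t1).trans ?_
    rw [oc_prd_mul]
    exact mul_le_mul_of_nonneg_left (hpos x y) (by linarith)
  -- (3) boosts of the neighbours
  have s3 : E.prd (fun z z' l => c * ∑ a ∈ cN E.N x y, ∑ b ∈ cN E.N x y,
      E.chi E.s a b * P z z' l a b) ≤ E.C0 * E.H * E.Y E.s x y := by
    rw [oc_prd_mul]
    have e4 : E.prd (fun z z' l => ∑ a ∈ cN E.N x y, ∑ b ∈ cN E.N x y,
        E.chi E.s a b * P z z' l a b) = ∑ a ∈ cN E.N x y, ∑ b ∈ cN E.N x y,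
          E.chi E.s a b * E.prd (fun z z' l => P z z' l a b) := by
      rw [od_prd_sum]
      refine sum_congr rfl fun a _ => ?_
      rw [od_prd_sum]
      exact sum_congr rfl fun b _ => oc_prd_mul _ _
    rw [e4, GData.os_Y_eq]
    have e5 : ∀ a b, E.chi E.s a b * E.prd (fun z z' l => P z z' l a b) ≤
        E.C0 * E.H * E.chi E.s a b := by
      intro a b
      by_cases h1 : E.chi E.s a b = 0
      · rw [h1, zero_mul, mul_zero]
      · rw [mul_comm (E.C0 * E.H)]
        refine mul_le_mul_of_nonneg_left ?_ (hc a b)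
        exact (hpos a b).trans (mul_le_mul_of_nonneg_left (od_Y_le hE h1) (by linarith))
    refine (mul_le_mul_of_nonneg_left (sum_le_sum fun a _ => sum_le_sum fun b _ => e5 a b)
      hc0).trans (le_of_eq ?_)
    simp only [← mul_sum]
    ring
  have s4 : 0 ≤ E.H * E.Y E.s x y := by positivity
  nlinarith

end

end GSt

end

end Pool.Agent.AcyG
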