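import Pool.Agent.AcyG.ONib

/-! # The firing process of a stage satisfies its hypotheses (project MP_af9dfb_G, part O, row OF) -/

set_option autoImplicit false
set_option linter.unusedSectionVars false

namespace Pool.Agent.AcyG

open Finset
open Pool.Agent.Acy (IsPM wt Ex Pr mean)
open Pool.Agent.AcyK (Big StepOK LocOK prodLaw Un Sel updCol HasC cN)
open scoped Classical

universe u v

section

variable {V AL : Type u} [Fintype V] [DecidableEq V] [Fintype AL]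

namespace GSt

variable {Lb : Type u} [Fintype Lb] {E : GSt V Lb AL}

/-- The facts of the table of the tests and kernels that the firing process needs. -/
structure FTab (E : GSt V Lb AL) : Prop where
  W_le : ∀ (i : Tst V AL) z z' l, |E.W i z z' l| ≤ E.wm i
  ws_supp : ∀ i : Tst V AL, ((univ.filter fun z => ∃ z', E.ws i z z' ≠ 0 ∨
    E.ws i z' z ≠ 0).card : ℝ) ≤ E.T ^ 15000
  ws_deg : ∀ z, ((univ.filter fun i : Tst V AL => ∃ z', E.ws i z z' ≠ 0 ∨
    E.ws i z' z ≠ 0).card : ℝ) ≤ E.T ^ 21000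
  wK_le : ∀ (b : Krn V AL) z z' l, E.wK b z z' l ≤ E.wb b
  wKs_supp : ∀ b : Krn V AL, ((univ.filter fun z => ∃ z', (⨆ l, E.wK b z z' l) ≠ 0 ∨
    (⨆ l, E.wK b z' z l) ≠ 0).card : ℝ) ≤ E.T ^ 15000
  wKs_deg : ∀ z, ((univ.filter fun b : Krn V AL => ∃ z', (⨆ l, E.wK b z z' l) ≠ 0 ∨
    (⨆ l, E.wK b z' z l) ≠ 0).card : ℝ) ≤ E.T ^ 21000
  afs_supp : ∀ P : V × V, ((univ.filter fun z => ∃ z', (⨆ l, E.af z z' l P) ≠ 0 ∨
    (⨆ l, E.af z' z l P) ≠ 0).card : ℝ) ≤ E.T ^ 15000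
  afs_deg : ∀ z, ((univ.filter fun P : V × V => ∃ z', (⨆ l, E.af z z' l P) ≠ 0 ∨
    (⨆ l, E.af z' z l P) ≠ 0).card : ℝ) ≤ E.T ^ 21000

theorem of_af_nonneg (z z' : V) (l : Lb) (P : V × V) : 0 ≤ E.af z z' l P := abs_nonneg _

theorem of_af_symm (hE : E.Ok) (z z' : V) (l : Lb) (P : V × V) :
    E.af z z' l P = E.af z' z l P := by
  unfold af
  rw [op_gu_swap hE]

theorem of_af_le (hE : E.Ok) (z z' : V) (l : Lb) (P : V × V) : E.af z z' l P ≤ E.T := by
  have hT := GData.os_T_ge hE.dat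
  have hK := GData.os_Kc_T hE.dat
  have hCx : 1 ≤ E.Cx := by
    have h1 := hE.tau_pos
    have h2 := hE.q0_pos
    have h3 := hE.dat.H_one
    have h4 : 0 ≤ E.H / E.tau := by positivity
    have h5 : (0 : ℝ) ≤ E.B0 * (1 + E.H / E.tau) := by positivity
    have h6 : 0 ≤ E.q0 * (E.H * (1 + E.H / E.tau)) := by positivity
    unfold GSt.Cx
    linarith
  have hB : E.Bx ≤ E.Kc := by
    have h1 := hE.Bx_le
    have h2 := hE.Bx_one
    nlinarith
  unfold af gu
  split_ifs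
  · refine abs_le.2 ⟨?_, ?_⟩
    · linarith [op_u_ge hE l z z' P.1 P.2]
    · linarith [op_u_le hE l z z' P.1 P.2]
  · rw [abs_zero]
    linarith

/-- Weights of the kernels are symmetric. -/
theorem of_omk_symm (b : Krn V AL) (P S : V × V) : E.omk b P S = E.omk b S P := by
  rcases b with ⟨i, x⟩ | e | α
  · show (if i.down = 0 then (if P = S ∧ P.2 = x then (1 : ℝ) else 0) else
      if i.down = 1 then (if P = S then 1 / E.n1 *
        ((univ.filter fun u => E.nf E.s u x ∧ P.1 ∈ cN E.N u x ∧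
          P.2 ∈ cN E.N u x).card : ℝ) else 0) else
      1 / E.n1 * ((if P.2 = x ∧ E.nf E.s P.1 P.2 ∧ S.1 ∈ cN E.N P.1 P.2 ∧
          S.2 ∈ cN E.N P.1 P.2 then 1 else 0) +
        (if S.2 = x ∧ E.nf E.s S.1 S.2 ∧ P.1 ∈ cN E.N S.1 S.2 ∧ P.2 ∈ cN E.N S.1 S.2 then 1
          else 0))) = (if i.down = 0 then (if S = P ∧ S.2 = x then (1 : ℝ) else 0) else
      if i.down = 1 then (if S = P then 1 / E.n1 *
        ((univ.filter fun u => E.nf E.s u x ∧ S.1 ∈ cN E.N u x ∧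
          S.2 ∈ cN E.N u x).card : ℝ) else 0) else
      1 / E.n1 * ((if S.2 = x ∧ E.nf E.s S.1 S.2 ∧ P.1 ∈ cN E.N S.1 S.2 ∧
          P.2 ∈ cN E.N S.1 S.2 then 1 else 0) +
        (if P.2 = x ∧ E.nf E.s P.1 P.2 ∧ S.1 ∈ cN E.N P.1 P.2 ∧ S.2 ∈ cN E.N P.1 P.2 then 1
          else 0)))
    by_cases h0 : i.down = 0
    · rw [if_pos h0, if_pos h0]
      by_cases hPS : P = S
      · rw [hPS]
      · rw [if_neg (fun h => hPS h.1), if_neg (fun h => hPS h.1.symm)]
    · rw [if_neg h0, if_neg h0]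
      by_cases h1 : i.down = 1
      · rw [if_pos h1, if_pos h1]
        by_cases hPS : P = S
        · rw [hPS]
        · rw [if_neg hPS, if_neg (fun h => hPS h.symm)]
      · rw [if_neg h1, if_neg h1, add_comm]
  · show (if E.far P.1 P.2 ∧ E.far S.1 S.2 then
        (if P.1 = S.1 ∧ P.2 = e.1 ∧ S.2 = e.2 then (1 : ℝ) else 0) +
        (if P.1 = S.1 ∧ S.2 = e.1 ∧ P.2 = e.2 then 1 else 0) else 0) =
      (if E.far S.1 S.2 ∧ E.far P.1 P.2 then
        (if S.1 = P.1 ∧ S.2 = e.1 ∧ P.2 = e.2 then (1 : ℝ) else 0) +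
        (if S.1 = P.1 ∧ P.2 = e.1 ∧ S.2 = e.2 then 1 else 0) else 0)
    refine if_congr and_comm ?_ rfl
    rw [add_comm]
    have h1 : (P.1 = S.1) ↔ (S.1 = P.1) := eq_comm
    rw [if_congr (and_congr h1 Iff.rfl) rfl rfl, if_congr (and_congr h1 Iff.rfl) rfl rfl]
  · show (if P = S then E.a α P.1 P.2 else 0) = (if S = P then E.a α S.1 S.2 else 0)
    by_cases hPS : P = S
    · rw [hPS]
    · rw [if_neg hPS, if_neg (fun h => hPS h.symm)]

theorem of_omk_nonneg (hE : E.Ok) (b : Krn V AL) (P S : V × V) : 0 ≤ E.omk b P S := by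
  have hn := GData.os_n1_pos hE.dat
  have hn' : 0 ≤ 1 / E.n1 := by positivity
  rcases b with ⟨i, x⟩ | e | α
  · show 0 ≤ (if i.down = 0 then (if P = S ∧ P.2 = x then (1 : ℝ) else 0) else
      if i.down = 1 then (if P = S then 1 / E.n1 *
        ((univ.filter fun u => E.nf E.s u x ∧ P.1 ∈ cN E.N u x ∧
          P.2 ∈ cN E.N u x).card : ℝ) else 0) else
      1 / E.n1 * ((if P.2 = x ∧ E.nf E.s P.1 P.2 ∧ S.1 ∈ cN E.N P.1 P.2 ∧
          S.2 ∈ cN E.N P.1 P.2 then 1 else 0) +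
        (if S.2 = x ∧ E.nf E.s S.1 S.2 ∧ P.1 ∈ cN E.N S.1 S.2 ∧ P.2 ∈ cN E.N S.1 S.2 then 1
          else 0)))
    by_cases h0 : i.down = 0
    · rw [if_pos h0]
      split_ifs <;> norm_num
    · rw [if_neg h0]
      by_cases h1 : i.down = 1
      · rw [if_pos h1]
        split_ifs
        · exact mul_nonneg hn' (Nat.cast_nonneg _)
        · exact le_rfl
      · rw [if_neg h1]
        refine mul_nonneg hn' (add_nonneg ?_ ?_) <;> split_ifs <;> norm_num
  · show 0 ≤ (if E.far P.1 P.2 ∧ E.far S.1 S.2 then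
        (if P.1 = S.1 ∧ P.2 = e.1 ∧ S.2 = e.2 then (1 : ℝ) else 0) +
        (if P.1 = S.1 ∧ S.2 = e.1 ∧ P.2 = e.2 then 1 else 0) else 0)
    by_cases h : E.far P.1 P.2 ∧ E.far S.1 S.2
    · rw [if_pos h]
      refine add_nonneg ?_ ?_ <;> split_ifs <;> norm_num
    · rw [if_neg h]
  · show 0 ≤ (if P = S then E.a α P.1 P.2 else 0)
    split_ifs
    · exact hE.dat.a_nonneg _ _ _
    · exact le_rfl

theorem of_wK_nonneg (hE : E.Ok) (b : Krn V AL) (z z' : V) (l : Lb) : 0 ≤ E.wK b z z' l :=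
  sum_nonneg fun P _ => sum_nonneg fun S _ => mul_nonneg (of_omk_nonneg hE b P S) (abs_nonneg _)

theorem of_wb_pos (hE : E.Ok) (b : Krn V AL) : 0 < E.wb b := by
  have h0 := GData.os_T_pos hE.dat
  rcases b with e | e | α
  · show 0 < E.T ^ 2403
    exact pow_pos h0 _
  · show 0 < E.T ^ 2403
    exact pow_pos h0 _
  · show 0 < E.T ^ 2 * E.s1 α
    exact mul_pos (pow_pos h0 _) (hE.dat.s1_pos α)

theorem of_db_nonneg (hE : E.Ok) (b : Krn V AL) : 0 ≤ E.db b := by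
  have h0 := GData.os_T_pos hE.dat
  rcases b with e | e | α
  · show 0 ≤ E.T ^ 6440
    exact (pow_pos h0 _).le
  · show 0 ≤ E.T ^ 6440
    exact (pow_pos h0 _).le
  · show 0 ≤ E.T ^ 1610 * E.La α
    exact mul_nonneg (pow_pos h0 _).le (on_La_nonneg hE α)

theorem of_cw_nonneg (x z z' : V) : 0 ≤ E.cw x z z' := by
  unfold cw
  split_ifs
  · exact le_rfl
  · exact Nat.cast_nonneg _

theorem of_cw_le (hE : E.Ok) (x z z' : V) : E.cw x z z' ≤ E.T ^ 3600 := by
  unfold cw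
  split_ifs
  · exact (pow_pos (GData.os_T_pos hE.dat) _).le
  · refine le_trans ?_ (hE.dat.deg z)
    have h1 : (univ.filter fun u => E.far u x ∧ z ∈ cN E.N u x ∧ z' ∈ cN E.N u x) ⊆ E.N z := by
      intro u hu
      have h2 := (mem_filter.1 hu).2.2.1
      exact hE.dat.N_symm _ _ (mem_inter.1 h2).1
    exact_mod_cast card_le_card h1

theorem of_cw_mem {x z z' : V} (h : E.cw x z z' ≠ 0) : z ∈ E.N x ∧ z' ∈ E.N x := by
  unfold cw at h
  split_ifs at h with h1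
  · exact absurd rfl h
  · have h2 : (univ.filter fun u => E.far u x ∧ z ∈ cN E.N u x ∧ z' ∈ cN E.N u x).Nonempty := by
      rw [← card_pos]
      by_contra h3
      apply h
      have h4 : (univ.filter fun u => E.far u x ∧ z ∈ cN E.N u x ∧ z' ∈ cN E.N u x).card = 0 := by
        omega
      rw [h4, Nat.cast_zero]
    obtain ⟨u, hu⟩ := h2
    have h5 := (mem_filter.1 hu).2.2
    exact ⟨(mem_inter.1 h5.1).2, (mem_inter.1 h5.2).2⟩

end GSt

namespace GSm

variable {Lb : Type u} [Fintype Lb] {E : GSm V Lb AL}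

theorem of_rs_abs (z z' : V) (a : ℝ) : |E.rs z z' a| = E.rs z z' |a| := by
  unfold rs
  split_ifs
  · rfl
  · exact abs_zero

theorem of_rs_mul (z z' : V) (a b : ℝ) : a * E.rs z z' b = E.rs z z' (a * b) := by
  unfold rs
  split_ifs
  · rfl
  · exact mul_zero _

theorem of_rs_sum {α : Type*} (s : Finset α) (z z' : V) (f : α → ℝ) :
    ∑ l ∈ s, E.rs z z' (f l) = E.rs z z' (∑ l ∈ s, f l) := by
  unfold rs
  split_ifs
  · rfl
  · exact sum_const_zero

theorem of_rs_nonneg {z z' : V} {a : ℝ} (h : 0 ≤ a) : 0 ≤ E.rs z z' a := by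
  unfold rs
  split_ifs
  · exact h
  · exact le_rfl

theorem of_rs_mono {z z' : V} {a b : ℝ} (h : a ≤ b) : E.rs z z' a ≤ E.rs z z' b := by
  unfold rs
  split_ifs
  · exact h
  · exact le_rfl

theorem of_rs_le {z z' : V} {a b : ℝ} (h : a ≤ b) (hb : 0 ≤ b) : E.rs z z' a ≤ b := by
  unfold rs
  split_ifs
  · exact h
  · exact hb

theorem of_rs_ne {z z' : V} {a : ℝ} (h : E.rs z z' a ≠ 0) : a ≠ 0 := by
  intro h1
  apply h
  unfold rs
  rw [h1, ite_self]

theorem of_rs_mem {z z' : V} {a : ℝ} (h : E.rs z z' a ≠ 0) : z ∈ E.U ∧ z' ∈ E.U := by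
  by_contra h1
  apply h
  unfold rs
  rw [if_neg h1]

/-- Row sums. -/
theorem of_rs_row (z : V) (f : V → ℝ) : ∑ z', E.rs z z' (f z') =
    if z ∈ E.U then ∑ z' ∈ E.U, f z' else 0 := by
  unfold rs
  by_cases hz : z ∈ E.U
  · rw [if_pos hz]
    have h : ∀ z', (if z ∈ E.U ∧ z' ∈ E.U then f z' else 0) = if z' ∈ E.U then f z' else 0 :=
      fun z' => if_congr (and_iff_right hz) rfl rfl
    rw [sum_congr rfl fun z' _ => h z', sum_ite_mem, univ_inter]
  · rw [if_neg hz]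
    exact sum_eq_zero fun z' _ => if_neg fun h => hz h.1

theorem of_rs_row_le {z : V} {f : V → ℝ} {a : ℝ} (h : ∑ z' ∈ E.U, f z' ≤ a) (ha : 0 ≤ a) :
    ∑ z', E.rs z z' (f z') ≤ a := by
  rw [of_rs_row]
  split_ifs
  · exact h
  · exact ha

/-- Totals. -/
theorem of_rs_tot (f : V → V → ℝ) : ∑ z, ∑ z', E.rs z z' (f z z') =
    ∑ z ∈ E.U, ∑ z' ∈ E.U, f z z' := by
  rw [sum_congr rfl fun z _ => of_rs_row z (f z), sum_ite_mem, univ_inter]

/-- Supports pass to the restriction. -/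
theorem of_supp (f : V → V → ℝ) {a : ℝ} (h : ((univ.filter fun z => ∃ z', f z z' ≠ 0 ∨
    f z' z ≠ 0).card : ℝ) ≤ a) : ((univ.filter fun z => ∃ z', E.rs z z' (f z z') ≠ 0 ∨
    E.rs z' z (f z' z) ≠ 0).card : ℝ) ≤ a := by
  refine le_trans ?_ h
  have h1 : (univ.filter fun z => ∃ z', E.rs z z' (f z z') ≠ 0 ∨ E.rs z' z (f z' z) ≠ 0) ⊆
      univ.filter fun z => ∃ z', f z z' ≠ 0 ∨ f z' z ≠ 0 := by
    intro z hz
    rw [mem_filter] at hz ⊢
    obtain ⟨-, z', h | h⟩ := hz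
    · exact ⟨mem_univ _, z', Or.inl (of_rs_ne h)⟩
    · exact ⟨mem_univ _, z', Or.inr (of_rs_ne h)⟩
  exact_mod_cast card_le_card h1

/-- Degrees pass to the restriction. -/
theorem of_deg {α : Type*} [Fintype α] (f : α → V → V → ℝ) (z : V) {a : ℝ}
    (h : ((univ.filter fun i => ∃ z', f i z z' ≠ 0 ∨ f i z' z ≠ 0).card : ℝ) ≤ a) :
    ((univ.filter fun i => ∃ z', E.rs z z' (f i z z') ≠ 0 ∨
      E.rs z' z (f i z' z) ≠ 0).card : ℝ) ≤ a := by
  refine le_trans ?_ h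
  have h1 : (univ.filter fun i => ∃ z', E.rs z z' (f i z z') ≠ 0 ∨
      E.rs z' z (f i z' z) ≠ 0) ⊆ univ.filter fun i => ∃ z', f i z z' ≠ 0 ∨ f i z' z ≠ 0 := by
    intro i hi
    rw [mem_filter] at hi ⊢
    obtain ⟨-, z', h | h⟩ := hi
    · exact ⟨mem_univ _, z', Or.inl (of_rs_ne h)⟩
    · exact ⟨mem_univ _, z', Or.inr (of_rs_ne h)⟩
  exact_mod_cast card_le_card h1

theorem of_22000 (hE : E.toGSt.Ok) : E.T ^ 21000 ≤ E.T ^ 22000 := hE.dat.big.pw (by norm_num)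

theorem of_wB (b : Krn V AL) (z z' : V) (l : Lb) :
    E.fire.wB b z z' l = E.rs z z' (E.wK b z z' l) := by
  show ∑ P, ∑ S, E.omk b P S * E.rs z z' (E.af z z' l P) = _
  unfold GSt.wK
  rw [← of_rs_sum]
  refine sum_congr rfl fun P _ => ?_
  rw [← of_rs_sum]
  exact sum_congr rfl fun S _ => of_rs_mul _ _ _ _

theorem of_mW (i : Tst V AL) (z : V) : E.fire.mW i z =
    ∑ z', E.rs z z' (∑ l, E.μ z z' l * |E.W i z z' l|) := by
  show ∑ z', ∑ l, E.μ z z' l * |E.rs z z' (E.W i z z' l)| = _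
  refine sum_congr rfl fun z' _ => ?_
  rw [← of_rs_sum]
  refine sum_congr rfl fun l _ => ?_
  rw [of_rs_abs, of_rs_mul]

theorem of_mA (z : V) (P : V × V) : E.fire.mA z P =
    ∑ z', E.rs z z' (∑ l, E.μ z z' l * E.af z z' l P) := by
  show ∑ z', ∑ l, E.μ z z' l * E.rs z z' (E.af z z' l P) = _
  refine sum_congr rfl fun z' _ => ?_
  rw [← of_rs_sum]
  exact sum_congr rfl fun l _ => of_rs_mul _ _ _ _

theorem of_mB (b : Krn V AL) (z : V) : E.fire.mB b z =
    ∑ z', E.rs z z' (∑ l, E.μ z z' l * E.wK b z z' l) := by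
  show ∑ z', ∑ l, E.μ z z' l * E.fire.wB b z z' l = _
  refine sum_congr rfl fun z' _ => ?_
  rw [← of_rs_sum]
  refine sum_congr rfl fun l _ => ?_
  rw [of_wB, of_rs_mul]

theorem of_le_sup (f : Lb → ℝ) (l : Lb) : f l ≤ ⨆ l, f l :=
  le_ciSup (f := f) (Set.finite_range _).bddAbove l

theorem of_sup_le {f : Lb → ℝ} {a : ℝ} (h : ∀ l, f l ≤ a) (ha : 0 ≤ a) : (⨆ l, f l) ≤ a :=
  Real.iSup_le h ha

/-- **The hypotheses of the firing process of a stage.** -/
theorem fire_ok_of (hE : E.toGSt.Ok) (hG : E.Good) (hT : E.toGSt.FTab) : E.fire.Ok where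
  dok := nib_ok_of hE hG hT.ws_supp hT.ws_deg
  mu_nonneg := hE.cols.mu_nonneg
  mu_sum := hE.cols.mu_sum
  mu_symm z z' l := hE.cols.mu_symm z z' l
  wm_pos := GSt.on_wm_pos hE
  W_row i z := by
    rw [of_mW]
    exact of_rs_row_le (hG.row i z) (GSt.on_d1_nonneg hE i)
  W_tot i := by
    rw [sum_congr rfl fun z _ => of_mW i z, of_rs_tot]
    exact hG.tot i
  W_maj i z z' l := by
    show |E.rs z z' (E.W i z z' l)| ≤ E.rs z z' (E.ws i z z')
    rw [of_rs_abs]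
    exact of_rs_mono (of_le_sup (fun l => |E.W i z z' l|) l)
  ws_le i z z' := of_rs_le (of_sup_le (fun l => hT.W_le i z z' l) (GSt.on_wm_pos hE i).le)
    (GSt.on_wm_pos hE i).le
  ws_row i z := of_rs_row_le (hG.rowS i z) (mul_nonneg
    (pow_nonneg (GData.os_T_pos hE.dat).le _) (GSt.on_wm_pos hE i).le)
  ws_supp i := of_supp (E.ws i) (hT.ws_supp i)
  ws_deg z := (of_deg E.ws z (hT.ws_deg z)).trans (of_22000 hE)
  af_nonneg z z' l P := of_rs_nonneg (GSt.of_af_nonneg z z' l P)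
  af_symm z z' l P := on_rs_symm hE (f := fun z z' => E.af z z' l P)
    (fun a b => GSt.of_af_symm hE a b l P) z z'
  af_maj z z' l P := of_rs_mono (of_le_sup (fun l => E.af z z' l P) l)
  as_le z z' P := of_rs_le (of_sup_le (fun l => GSt.of_af_le hE z z' l P)
    (GData.os_T_pos hE.dat).le) (GData.os_T_pos hE.dat).le
  as_row z P := of_rs_row_le (hG.asrow z P) (mul_nonneg
    (pow_nonneg (GData.os_T_pos hE.dat).le _) (GData.os_T_pos hE.dat).le)
  af_row z P := by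
    rw [of_mA]
    exact of_rs_row_le (hG.afrow z P) (pow_nonneg (GData.os_T_pos hE.dat).le _)
  af_tot P := by
    rw [sum_congr rfl fun z _ => of_mA z P, of_rs_tot]
    exact hG.aftot P
  as_supp P := of_supp (fun z z' => ⨆ l, E.af z z' l P) (hT.afs_supp P)
  as_deg z := (of_deg (fun P z z' => ⨆ l, E.af z z' l P) z (hT.afs_deg z)).trans
    (of_22000 hE)
  om_nonneg b P S := GSt.of_omk_nonneg hE b P S
  om_symm b P S := GSt.of_omk_symm b P S
  wb_pos b := GSt.of_wb_pos hE b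
  B_maj b z z' l := by
    rw [of_wB]
    exact of_rs_mono (of_le_sup (fun l => E.wK b z z' l) l)
  bs_le b z z' := of_rs_le (of_sup_le (fun l => hT.wK_le b z z' l) (GSt.of_wb_pos hE b).le)
    (GSt.of_wb_pos hE b).le
  bs_row b z := of_rs_row_le (hG.bsrow b z) (mul_nonneg
    (pow_nonneg (GData.os_T_pos hE.dat).le _) (GSt.of_wb_pos hE b).le)
  B_row b z := by
    rw [of_mB]
    exact of_rs_row_le (hG.brow b z) (GSt.of_db_nonneg hE b)
  B_tot b := by
    rw [sum_congr rfl fun z _ => of_mB b z, of_rs_tot]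
    exact hG.btot b
  bs_supp b := of_supp (fun z z' => ⨆ l, E.wK b z z' l) (hT.wKs_supp b)
  bs_deg z := (of_deg (fun b z z' => ⨆ l, E.wK b z z' l) z (hT.wKs_deg z)).trans
    (of_22000 hE)
  cm_pos b := pow_pos (GData.os_T_pos hE.dat) 3601
  cr_nonneg b := (pow_pos (GData.os_T_pos hE.dat) 5206).le
  d1_nonneg := GSt.on_d1_nonneg hE
  db_nonneg := GSt.of_db_nonneg hE
  cw_nonneg b z z' := of_rs_nonneg (GSt.of_cw_nonneg b z z')
  cw_le b z z' := by
    show E.rs z z' (E.cw b z z') + E.rs z' z (E.cw b z' z) ≤ E.T ^ 3601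
    have h0 : 0 ≤ E.T ^ 3600 := pow_nonneg (GData.os_T_pos hE.dat).le _
    have h1 := of_rs_le (E := E) (z := z) (z' := z') (GSt.of_cw_le hE b z z') h0
    have h2 := of_rs_le (E := E) (z := z') (z' := z) (GSt.of_cw_le hE b z' z) h0
    have h3 : E.T ^ 3601 = E.T ^ 3600 * E.T := by rw [← pow_succ]
    have h4 := GData.os_T_ge hE.dat
    nlinarith
  cw_row x z := by
    show ∑ z', (E.rs z z' (E.cw x z z') + E.rs z' z (E.cw x z' z)) ≤ E.T ^ 5206
    have h : ∀ z', E.rs z z' (E.cw x z z') + E.rs z' z (E.cw x z' z) =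
        E.rs z z' (E.cw x z z' + E.cw x z' z) := by
      intro z'
      unfold rs
      by_cases h1 : z ∈ E.U ∧ z' ∈ E.U
      · rw [if_pos h1, if_pos h1.symm, if_pos h1]
      · rw [if_neg h1, if_neg (fun h2 => h1 h2.symm), if_neg h1, add_zero]
    rw [sum_congr rfl fun z' _ => h z']
    exact of_rs_row_le (hG.cwrow x z) (pow_nonneg (GData.os_T_pos hE.dat).le _)
  cw_supp x := by
    refine le_trans ?_ (hG.nbr x)
    have h1 : (univ.filter fun z => ∃ z', E.fire.cw x z z' ≠ 0 ∨ E.fire.cw x z' z ≠ 0) ⊆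
        E.U ∩ E.N x := by
      intro z hz
      obtain ⟨z', h | h⟩ := (mem_filter.1 hz).2
      · exact mem_inter.2 ⟨(of_rs_mem h).1, (GSt.of_cw_mem (of_rs_ne h)).1⟩
      · exact mem_inter.2 ⟨(of_rs_mem h).2, (GSt.of_cw_mem (of_rs_ne h)).2⟩
    exact_mod_cast card_le_card h1
  cs_le b := by
    show E.T ^ 2802 ≤ E.T ^ 15000
    exact hE.dat.big.pw (by norm_num)
  cw_deg z := by
    refine le_trans ?_ ((hE.dat.deg z).trans (hE.dat.big.pw (by norm_num : 3600 ≤ 22000)))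
    have h1 : (univ.filter fun x => ∃ z', E.fire.cw x z z' ≠ 0 ∨ E.fire.cw x z' z ≠ 0) ⊆
        E.N z := by
      intro x hx
      obtain ⟨z', h | h⟩ := (mem_filter.1 hx).2
      · exact hE.dat.N_symm _ _ (GSt.of_cw_mem (of_rs_ne h)).1
      · exact hE.dat.N_symm _ _ (GSt.of_cw_mem (of_rs_ne h)).2
    exact_mod_cast card_le_card h1

end GSm

end

end Pool.Agent.AcyG
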