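import Pool.Agent.AcyG.OSite

/-! # Static facts and statistics of a state (project MP_af9dfb_G, row OA1) -/

set_option autoImplicit false
set_option linter.unusedSectionVars false

namespace Pool.Agent.AcyG

open Finset
open Pool.Agent.Acy (IsPM wt Ex Pr mean)
open Pool.Agent.AcyK (Big StepOK LocOK prodLaw Un Sel updCol HasC cN)
open scoped Classical

universe u v

section

variable {V AL : Type u} [Fintype V] [DecidableEq V] [Fintype AL]

namespace GData

variable {D : GData V AL}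

/-- Double counting of the common neighbours. -/
theorem oa_sum_card (hD : D.Ok) (x : V) :
    ∑ u, D.cod u x = ∑ z ∈ D.N x, ((D.N z).card : ℝ) := by
  have h1 : ∀ u, D.cod u x = ∑ z ∈ D.N x, if z ∈ D.N u then (1 : ℝ) else 0 := by
    intro u
    unfold cod cN
    rw [sum_boole]
    congr 2
    ext z
    rw [mem_inter, mem_filter, and_comm]
  have h2 : ∀ z, ((D.N z).card : ℝ) = ∑ u, if z ∈ D.N u then (1 : ℝ) else 0 := by
    intro z
    rw [sum_boole]
    congr 2
    ext u
    rw [mem_filter]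
    exact ⟨fun h => ⟨mem_univ _, hD.N_symm _ _ h⟩, fun h => hD.N_symm _ _ h.2⟩
  simp only [h1, h2]
  rw [sum_comm]

section
variable (hD : D.Ok)
include hD

theorem sum_cod (x : V) : ∑ u, D.cod u x ≤ D.T ^ 7200 := by
  rw [oa_sum_card hD]
  have h0 := os_T_pos hD
  calc ∑ z ∈ D.N x, ((D.N z).card : ℝ) ≤ ∑ z ∈ D.N x, D.T ^ 3600 :=
        sum_le_sum fun z _ => hD.deg z
    _ = ((D.N x).card : ℝ) * D.T ^ 3600 := by rw [sum_const, nsmul_eq_mul]
    _ ≤ D.T ^ 3600 * D.T ^ 3600 := mul_le_mul_of_nonneg_right (hD.deg x) (by positivity)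
    _ = D.T ^ 7200 := by rw [← pow_add]

/-- Number of vertices of large codegree. -/
theorem oa_card_le (x : V) {t : ℝ} (ht : 0 < t) (S : Finset V) (hS : ∀ u ∈ S, t ≤ D.cod u x) :
    (S.card : ℝ) ≤ D.T ^ 7200 / t := by
  rw [le_div_iff₀ ht]
  calc (S.card : ℝ) * t = ∑ _u ∈ S, t := by rw [sum_const, nsmul_eq_mul]
    _ ≤ ∑ u ∈ S, D.cod u x := sum_le_sum hS
    _ ≤ ∑ u, D.cod u x := sum_le_sum_of_subset_of_nonneg (subset_univ _)
        fun u _ _ => os_cod_nonneg u x
    _ ≤ D.T ^ 7200 := sum_cod hD x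

theorem far_card (x : V) : ((univ.filter fun u => D.far u x).card : ℝ) ≤ D.T ^ 4815 := by
  have h0 := os_T_pos hD
  have h := oa_card_le hD x (t := D.T ^ 2385) (by positivity) (univ.filter fun u => D.far u x)
    (fun u hu => (mem_filter.1 hu).2.2.2.1)
  have e : D.T ^ 7200 / D.T ^ 2385 = D.T ^ 4815 := by
    have e1 : D.T ^ 7200 = D.T ^ 4815 * D.T ^ 2385 := by rw [← pow_add]
    rw [e1, mul_div_cancel_right₀ _ (by positivity)]
  rwa [e] at h

theorem spe_card (x : V) :
    ((univ.filter fun u => D.spe u x).card : ℝ) ≤ D.n1 / 2000 + D.T ^ 3600 := by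
  have h0 := os_T_pos hD
  have ham := os_am_pos hD
  have h1 : (univ.filter fun u => D.spe u x) ⊆ (univ.filter fun u => D.am < D.cod u x) ∪ D.N x := by
    intro u hu
    rw [mem_filter] at hu
    rw [mem_union, mem_filter]
    rcases hu.2.2 with h | h
    · exact Or.inr h
    · exact Or.inl ⟨mem_univ _, h⟩
  have h2 : ((univ.filter fun u => D.spe u x).card : ℝ) ≤
      ((univ.filter fun u => D.am < D.cod u x).card : ℝ) + ((D.N x).card : ℝ) := by
    have h3 := (card_le_card h1).trans (card_union_le _ _)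
    exact_mod_cast h3
  have h3 := oa_card_le hD x ham (univ.filter fun u => D.am < D.cod u x)
    (fun u hu => (mem_filter.1 hu).2.le)
  have h4 : D.T ^ 7200 / D.am ≤ D.n1 / 2000 := by
    rw [div_le_div_iff₀ ham (by norm_num)]
    have := hD.par1
    linarith
  have h5 := hD.deg x
  linarith

/-- Vertices at distance two. -/
theorem two_card (x : V) : ((univ.filter fun u => (cN D.N u x).Nonempty).card : ℝ) ≤
    D.T ^ 7200 := by
  have h := oa_card_le hD x (t := 1) one_pos (univ.filter fun u => (cN D.N u x).Nonempty)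
    (fun u hu => by
      have h1 := (mem_filter.1 hu).2
      unfold cod
      exact_mod_cast Finset.card_pos.2 h1)
  rwa [div_one] at h

theorem oa_CHk : D.H ≤ D.C0 * D.H ∧ 0 ≤ D.C0 * D.H := by
  have h1 := hD.C0_one
  have h2 := hD.H_one
  exact ⟨le_mul_of_one_le_left (by linarith) h1, by positivity⟩

theorem gr_le_Kc {j : ℕ} (hj : j ≤ D.NS) : D.gr j ≤ D.Kc := by
  refine (os_gr_le hD hj).trans (le_trans ?_ hD.Kc_exp)
  apply Real.exp_le_exp.2
  have h1 := hD.C0_one
  have h2 := hD.H_one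
  have h3 := hD.kap_one
  have h4 := (oa_CHk hD).1
  calc 2 * D.H * D.kap ≤ 10 * (D.C0 * D.H) * D.kap := by
        refine mul_le_mul_of_nonneg_right ?_ (by linarith)
        linarith
    _ = 10 * D.C0 * D.H * D.kap := by ring

theorem dec_ge {j : ℕ} (hj : j ≤ D.NS) : 1 / D.Kc ≤ D.dec j := by
  have h1 : Real.exp (4 * D.C0 * D.H * (j / D.R)) ≤ D.Kc := by
    refine le_trans (Real.exp_le_exp.2 ?_) hD.Kc_exp
    have h4 := (oa_CHk hD).2
    have h5 := os_jR hD hj
    have h6 := hD.kap_one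
    have h7 : 4 * D.C0 * D.H * (j / D.R) ≤ 4 * D.C0 * D.H * D.kap :=
      mul_le_mul_of_nonneg_left h5 (by linarith)
    have h8 : 0 ≤ D.C0 * D.H * D.kap := mul_nonneg h4 (by linarith)
    linarith
  unfold dec
  rw [Real.exp_neg, ← one_div]
  exact one_div_le_one_div_of_le (Real.exp_pos _) h1

theorem OB_le : D.OB ≤ D.H * D.n1 / 2000 := by
  unfold OB
  have := hD.par2
  linarith

theorem OB_ge : D.n1 / 2000 ≤ D.OB := by
  unfold OB
  have := hD.par3
  linarith

variable {W0 W1 : ℝ} {j : ℕ} {s : GState V} {C : V → Option (ℕ × Fin D.k × ℕ)}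

theorem om_le (hs : D.SInv W0 W1 j s C) (hj : j ≤ D.NS) (x : V) : D.om s x ≤ D.OB := by
  have h1 := hs.om x
  have hR := os_R_pos hD
  have hk := os_k_pos hD
  have hT := os_T_ge hD
  have hOB := OB_ge hD
  have hn := os_n1_pos hD
  have hO0 : 0 ≤ D.OB := by linarith
  have hjR := os_jR hD hj
  have hj0 : (0 : ℝ) ≤ j / D.R := by positivity
  have hH := hD.H_one
  have hC := hD.C0_one
  have hk1 := hD.kap_one
  have he := hD.e1_pos
  set Z := D.e1 + D.H * (40 * D.C0 * D.H) * (D.LI / D.R) with hZ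
  have hZ0 : 0 ≤ Z := by positivity
  have h2 : (2 * D.e1 + 2 * D.H * (40 * D.C0 * D.H) * (D.LI / D.R)) = 2 * Z := by
    rw [hZ]
    ring
  rw [h2] at h1
  have h3 : 16 * D.kap * Z ≤ 1 := hD.drift
  have h4 : (j / D.R) * (2 * Z * D.OB) ≤ D.kap * (2 * Z * D.OB) :=
    mul_le_mul_of_nonneg_right hjR (by positivity)
  have h5 : D.kap * (2 * Z * D.OB) ≤ D.OB / 8 := by
    have : D.kap * (2 * Z * D.OB) = (16 * D.kap * Z) * (D.OB / 8) := by ring
    rw [this]
    exact mul_le_of_le_one_left (by linarith) h3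
  have h6 : (j : ℝ) * (D.k / D.T ^ 2) ≤ D.OB / 8 := by
    have a1 : (j : ℝ) ≤ D.kap * D.R := by
      rw [div_le_iff₀ hR] at hjR
      exact hjR
    have a2 : (j : ℝ) * (D.k / D.T ^ 2) ≤ D.kap * D.R * (D.k / D.T ^ 2) :=
      mul_le_mul_of_nonneg_right a1 (by positivity)
    have a3 : D.kap * D.R * (D.k / D.T ^ 2) = D.kap / D.T ^ 2 * D.n1 := by
      unfold n1
      ring
    have a4 : D.kap ≤ D.T := by
      have b1 : D.kap ≤ D.kap * D.H * D.C0 := by
        have b2 : D.kap ≤ D.kap * D.H := le_mul_of_one_le_right (by linarith) hH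
        have b3 : D.kap * D.H ≤ D.kap * D.H * D.C0 :=
          le_mul_of_one_le_right (by positivity) hC
        linarith
      have b2 : (1 : ℝ) ≤ D.kap * D.H * D.C0 := hk1.trans b1
      have b3 : D.kap * D.H * D.C0 ≤ (D.kap * D.H * D.C0) ^ 10 := le_self_pow₀ b2 (by norm_num)
      have b4 := hD.Kc_ge
      have b5 := os_Kc_T hD
      nlinarith
    have a5 : D.kap / D.T ^ 2 ≤ 1 / 16000 := by
      rw [div_le_div_iff₀ (by positivity) (by norm_num)]
      nlinarith
    have a6 : D.kap / D.T ^ 2 * D.n1 ≤ 1 / 16000 * D.n1 := mul_le_mul_of_nonneg_right a5 hn.le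
    linarith
  linarith

/-- The pairs at `x` that are not frozen. -/
theorem sum_XY (hs : D.SInv W0 W1 j s C) (hj : j ≤ D.NS) (x : V) :
    ∑ u, (if D.nf s u x then s.X u x * D.Y s u x else 0) ≤ D.OB := by
  have h := om_le hD hs hj x
  unfold om at h
  have h1 : 0 ≤ D.H * ∑ u, if D.far u x ∧ s.st u x = .frY then s.X u x else 0 := by
    refine mul_nonneg (by linarith [hD.H_one]) (sum_nonneg fun u _ => ?_)
    split_ifs
    · exact os_X_nonneg hs u x
    · exact le_rfl
  linarith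

theorem sum_Y (hs : D.SInv W0 W1 j s C) (hj : j ≤ D.NS) (x : V) :
    ∑ u, (if D.nf s u x then D.Y s u x else 0) ≤ D.Kc * D.OB := by
  have hK := os_Kc_one hD
  have hd := dec_ge hD hj
  refine le_trans ?_ (mul_le_mul_of_nonneg_left (sum_XY hD hs hj x) (by linarith))
  rw [mul_sum]
  refine sum_le_sum fun u _ => ?_
  split_ifs with h
  · have h1 : 1 / D.Kc ≤ s.X u x := hd.trans ((hs.X_lo u x).resolve_left h.2.2)
    have h2 : 1 ≤ D.Kc * s.X u x := by
      rw [div_le_iff₀ (by linarith)] at h1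
      linarith
    have h3 := os_Y_nonneg hD hs u x
    calc D.Y s u x = 1 * D.Y s u x := (one_mul _).symm
      _ ≤ D.Kc * s.X u x * D.Y s u x := mul_le_mul_of_nonneg_right h2 h3
      _ = D.Kc * (s.X u x * D.Y s u x) := by ring
  · rw [mul_zero]

end

end GData

end

end Pool.Agent.AcyG
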