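import Pool.Agent.AcyG.OStatA

/-! # Static facts and statistics of a state (project MP_af9dfb_G, row OA2) -/

set_option autoImplicit false
set_option linter.unusedSectionVars false

namespace Pool.Agent.AcyG

open Finset
open Pool.Agent.Acy (IsPM wt Ex Pr mean)
open Pool.Agent.AcyK (Big StepOK LocOK prodLaw Un Sel updCol HasC cN)
open scoped Classical

universe u v

section

variable {V AL : Type u} [Fintype V] [DecidableEq V] [Fintype AL]

namespace GData

variable {D : GData V AL}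

section

variable (hD : D.Ok)
include hD

theorem ob_kHC : 1 ≤ D.kap * D.H * D.C0 ∧ D.kap * D.H * D.C0 ≤ D.Kc / 10 ^ 6 := by
  have a1 := hD.kap_one
  have a2 := hD.H_one
  have a3 := hD.C0_one
  have a4 : (1 : ℝ) ≤ D.kap * D.H * D.C0 :=
    one_le_mul_of_one_le_of_one_le (one_le_mul_of_one_le_of_one_le a1 a2) a3
  refine ⟨a4, ?_⟩
  have a8 : D.kap * D.H * D.C0 ≤ (D.kap * D.H * D.C0) ^ 10 := by
    have := pow_le_pow_right₀ a4 (show 1 ≤ 10 by norm_num)
    rwa [pow_one] at this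
  have a9 := hD.Kc_ge
  rw [le_div_iff₀ (by norm_num)]
  linarith

theorem ob_kap_le : D.kap ≤ D.kap * D.H * D.C0 := by
  have a1 := hD.kap_one
  have a2 := hD.H_one
  have a3 := hD.C0_one
  have b2 : D.kap ≤ D.kap * D.H := le_mul_of_one_le_right (by linarith) a2
  have b3 : D.kap * D.H ≤ D.kap * D.H * D.C0 := le_mul_of_one_le_right (by positivity) a3
  linarith

theorem ob_kH_le : D.kap * D.H ≤ D.kap * D.H * D.C0 := by
  have a1 := hD.kap_one
  have a2 := hD.H_one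
  have a3 := hD.C0_one
  exact le_mul_of_one_le_right (by positivity) a3

theorem ob_kap_T : D.kap ≤ D.T := by
  have h1 := ob_kap_le hD
  have h2 := (ob_kHC hD).2
  have h3 := os_Kc_T hD
  have h4 := os_Kc_one hD
  have h5 : D.Kc / 10 ^ 6 ≤ D.Kc := div_le_self (by linarith) (by norm_num)
  linarith

theorem ob_j_le {j : ℕ} (hj : j ≤ D.NS) : (j : ℝ) ≤ D.T ^ 802 := by
  have h1 : (j : ℝ) ≤ D.NS := by exact_mod_cast hj
  have h2 := hD.NS_le
  have h3 := ob_kap_T hD
  have h4 := hD.R_hi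
  have h0 := os_T_pos hD
  have h5 : D.kap * D.R ≤ D.T * D.T ^ 801 :=
    mul_le_mul h3 h4 (os_R_pos hD).le h0.le
  have h6 : D.T * D.T ^ 801 = D.T ^ 802 := by rw [← pow_succ']
  linarith

theorem ob_jk {j : ℕ} (hj : j ≤ D.NS) : (j : ℝ) * (D.k / D.T ^ 2) ≤ D.n1 / D.T := by
  have hT := os_T_pos hD
  have hR := os_R_pos hD
  have hk := os_k_pos hD
  have hjR := os_jR hD hj
  have hkT := ob_kap_T hD
  have a1 : (j : ℝ) ≤ D.T * D.R := by
    rw [div_le_iff₀ hR] at hjR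
    exact hjR.trans (mul_le_mul_of_nonneg_right hkT hR.le)
  calc (j : ℝ) * (D.k / D.T ^ 2) ≤ D.T * D.R * (D.k / D.T ^ 2) :=
        mul_le_mul_of_nonneg_right a1 (by positivity)
    _ = D.n1 / D.T := by
        unfold n1
        field_simp

variable {W0 W1 : ℝ} {j : ℕ} {s : GState V} {C : V → Option (ℕ × Fin D.k × ℕ)}

theorem CH_le (hs : D.SInv W0 W1 j s C) (hj : j ≤ D.NS) (x : V) :
    D.CH s x ≤ D.Kc ^ 3 * D.n1 := by
  have h1 := hs.CH x
  have h2 := ob_jk hD hj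
  have hT := os_T_ge hD
  have hn := os_n1_pos hD
  have hO := OB_le hD
  have hO' := OB_ge hD
  have hO0 : 0 ≤ D.OB := by linarith
  have hjR := os_jR hD hj
  have hK := os_Kc_ge hD
  have hK1 := os_Kc_one hD
  have hC := hD.C0_one
  have hH := hD.H_one
  have hk := hD.kap_one
  obtain ⟨e1, e2⟩ := ob_kHC hD
  have h3 : (j / D.R) * (6 * D.C0 * D.Kc * D.OB) ≤ D.kap * (6 * D.C0 * D.Kc * D.OB) :=
    mul_le_mul_of_nonneg_right hjR (by positivity)
  have h4 : D.kap * (6 * D.C0 * D.Kc * D.OB) ≤ D.kap * (6 * D.C0 * D.Kc * (D.H * D.n1 / 2000)) :=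
    mul_le_mul_of_nonneg_left (mul_le_mul_of_nonneg_left hO (by positivity)) (by positivity)
  have h5 : D.kap * (6 * D.C0 * D.Kc * (D.H * D.n1 / 2000)) =
      (D.kap * D.H * D.C0) * (6 / 2000 * D.Kc * D.n1) := by ring
  have h6 : (D.kap * D.H * D.C0) * (6 / 2000 * D.Kc * D.n1) ≤
      D.Kc / 10 ^ 6 * (6 / 2000 * D.Kc * D.n1) := mul_le_mul_of_nonneg_right e2 (by positivity)
  have h7 : D.n1 / D.T ≤ D.n1 := div_le_self hn.le (by linarith)
  have h8 : D.Kc / 10 ^ 6 * (6 / 2000 * D.Kc * D.n1) ≤ D.Kc ^ 2 * D.n1 := by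
    have : D.Kc / 10 ^ 6 * (6 / 2000 * D.Kc * D.n1) = (6 / 2000 / 10 ^ 6) * (D.Kc ^ 2 * D.n1) := by
      ring
    rw [this]
    exact mul_le_of_le_one_left (by positivity) (by norm_num)
  have h9 : D.Kc ^ 2 * D.n1 + D.n1 ≤ D.Kc ^ 3 * D.n1 := by
    have : D.Kc ^ 2 + 1 ≤ D.Kc ^ 3 := by nlinarith [pow_pos (show 0 < D.Kc by linarith) 2]
    nlinarith
  linarith

/-- Negative parts of the kernel. -/
theorem ob_neg_pt (hs : D.SInv W0 W1 j s C) (u x : V) (hf : D.far u x) :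
    max (-D.K s u x) 0 ≤ D.Kc * s.ch u x := by
  have hK1 := os_Kc_one hD
  have hc := hs.ch_nonneg u x
  unfold K
  rw [if_pos hf]
  refine max_le ?_ (by positivity)
  by_cases h0 : s.X u x = 0
  · have h1 := hs.ch_dead u x h0
    rw [h0]
    nlinarith
  · have h1 := hs.ch_log u x h0
    have hp : 0 < s.X u x := lt_of_le_of_ne (os_X_nonneg hs u x) (Ne.symm h0)
    have h2 := Real.log_le_sub_one_of_pos hp
    have h3 : 1 - s.X u x ≤ D.Kc * s.ch u x := by
      have h4 : 1 - 1 / s.X u x ≤ Real.log (s.X u x) := by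
        have := Real.one_sub_inv_le_log_of_pos hp
        rwa [← one_div] at this
      have h5 := neg_abs_le (Real.log (s.X u x))
      have h6 : -Real.log (s.X u x) ≤ D.Kc * s.ch u x := by linarith [neg_le_abs (Real.log (s.X u x))]
      linarith
    linarith

theorem neg_le (hs : D.SInv W0 W1 j s C) (hj : j ≤ D.NS) (x : V) :
    ∑ u, (if D.far u x then max (-D.K s u x) 0 else 0) ≤ D.Kc ^ 5 * D.n1 := by
  have hK1 := os_Kc_one hD
  have hn := os_n1_pos hD
  have h1 : ∑ u, (if D.far u x then max (-D.K s u x) 0 else 0) ≤ D.Kc * D.CH s x := by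
    unfold CH
    rw [mul_sum]
    refine sum_le_sum fun u _ => ?_
    split_ifs with hf
    · exact ob_neg_pt hD hs u x hf
    · rw [mul_zero]
  have h2 : D.Kc * D.CH s x ≤ D.Kc * (D.Kc ^ 3 * D.n1) :=
    mul_le_mul_of_nonneg_left (CH_le hD hs hj x) (by linarith)
  have h3 : D.Kc * (D.Kc ^ 3 * D.n1) = D.Kc ^ 4 * D.n1 := by ring
  have h4 : D.Kc ^ 4 * D.n1 ≤ D.Kc ^ 5 * D.n1 :=
    mul_le_mul_of_nonneg_right (pow_le_pow_right₀ hK1 (by norm_num)) hn.le
  linarith

/-- Size hazards. -/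
theorem ob_ex_pt (hs : D.SInv W0 W1 j s C) (u x : V) (hX : 1 ≤ s.X u x) :
    2 * s.X u x * (s.X u x ^ 200 - 1) ≤ 400 * D.Kc ^ 202 * s.ch u x := by
  have hK1 := os_Kc_one hD
  have hc := hs.ch_nonneg u x
  have hp : 0 < s.X u x := by linarith
  have h1 := hs.ch_log u x (by linarith)
  have hX2 := hs.X_hi u x
  set X := s.X u x with hXd
  have hp200 : 0 < X ^ 200 := by positivity
  have h2 : 1 - (X ^ 200)⁻¹ ≤ Real.log (X ^ 200) := Real.one_sub_inv_le_log_of_pos hp200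
  rw [Real.log_pow] at h2
  have h3 : X ^ 200 - 1 ≤ (200 : ℕ) * Real.log X * X ^ 200 := by
    have h4 : (1 - (X ^ 200)⁻¹) * X ^ 200 ≤ (200 : ℕ) * Real.log X * X ^ 200 :=
      mul_le_mul_of_nonneg_right h2 hp200.le
    rw [sub_mul, one_mul, inv_mul_cancel₀ hp200.ne'] at h4
    exact h4
  have h5 : Real.log X ≤ D.Kc * s.ch u x := (le_abs_self _).trans h1
  have h6 : X ^ 200 ≤ D.Kc ^ 200 := pow_le_pow_left₀ hp.le hX2 _
  have h7 : (200 : ℕ) * Real.log X * X ^ 200 ≤ 200 * (D.Kc * s.ch u x) * D.Kc ^ 200 := by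
    push_cast
    refine mul_le_mul (mul_le_mul_of_nonneg_left h5 (by norm_num)) h6 hp200.le (by positivity)
  have h8 : 0 ≤ X ^ 200 - 1 := by
    have := one_le_pow₀ hX (n := 200)
    linarith
  calc 2 * X * (X ^ 200 - 1) ≤ 2 * D.Kc * (200 * (D.Kc * s.ch u x) * D.Kc ^ 200) :=
        mul_le_mul (by linarith) (h3.trans h7) h8 (by positivity)
    _ = 400 * D.Kc ^ 202 * s.ch u x := by ring

theorem ex_le (hs : D.SInv W0 W1 j s C) (hj : j ≤ D.NS) (x : V) :
    ∑ u, (if D.far u x ∧ 1 ≤ s.X u x then 2 * s.X u x * (s.X u x ^ 200 - 1) else 0) ≤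
      D.Kc ^ 220 * D.n1 := by
  have hK1 := os_Kc_one hD
  have hK := os_Kc_ge hD
  have hn := os_n1_pos hD
  have h1 : ∑ u, (if D.far u x ∧ 1 ≤ s.X u x then 2 * s.X u x * (s.X u x ^ 200 - 1) else 0) ≤
      400 * D.Kc ^ 202 * D.CH s x := by
    unfold CH
    rw [mul_sum]
    refine sum_le_sum fun u _ => ?_
    by_cases hf : D.far u x
    · by_cases hX : 1 ≤ s.X u x
      · rw [if_pos ⟨hf, hX⟩, if_pos hf]
        exact ob_ex_pt hD hs u x hX
      · rw [if_neg (fun h => hX h.2), if_pos hf]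
        have := hs.ch_nonneg u x
        positivity
    · rw [if_neg (fun h => hf h.1), if_neg hf, mul_zero]
  have h2 : 400 * D.Kc ^ 202 * D.CH s x ≤ 400 * D.Kc ^ 202 * (D.Kc ^ 3 * D.n1) :=
    mul_le_mul_of_nonneg_left (CH_le hD hs hj x) (by positivity)
  have h3 : 400 * D.Kc ^ 202 * (D.Kc ^ 3 * D.n1) = 400 * (D.Kc ^ 205 * D.n1) := by
    rw [show D.Kc ^ 205 = D.Kc ^ 202 * D.Kc ^ 3 by rw [← pow_add]]
    ring
  have h4 : 400 * (D.Kc ^ 205 * D.n1) ≤ D.Kc * (D.Kc ^ 205 * D.n1) :=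
    mul_le_mul_of_nonneg_right (by norm_num at hK; linarith) (by positivity)
  have h5 : D.Kc * (D.Kc ^ 205 * D.n1) = D.Kc ^ 206 * D.n1 := by
    rw [show D.Kc ^ 206 = D.Kc * D.Kc ^ 205 by rw [← pow_succ']]
    ring
  have h6 : D.Kc ^ 206 * D.n1 ≤ D.Kc ^ 220 * D.n1 :=
    mul_le_mul_of_nonneg_right (pow_le_pow_right₀ hK1 (by norm_num)) hn.le
  linarith

theorem twn_card (hs : D.SInv W0 W1 j s C) (hj : j ≤ D.NS) (y : V) :
    ((univ.filter fun y' => D.twn s y y').card : ℝ) ≤ D.T ^ 3000 := by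
  have h0 := os_T_pos hD
  have hT := os_T_ge hD
  have h1 := hs.gbrow y
  have hjR := os_jR hD hj
  have hO := OB_le hD
  have hO' := OB_ge hD
  have hn := os_n1_pos hD
  have hO0 : 0 ≤ D.OB := by linarith
  have hnh := os_n1_hi hD
  obtain ⟨e1, e2⟩ := ob_kHC hD
  have e3 := ob_kH_le hD
  have hKT := os_Kc_T hD
  have hk := hD.kap_one
  have hH := hD.H_one
  have h2 : ((univ.filter fun y' => D.twn s y y').card : ℝ) * D.T ^ 4225 ≤
      ∑ y', s.GB y y' := by
    calc ((univ.filter fun y' => D.twn s y y').card : ℝ) * D.T ^ 4225 =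
          ∑ y' ∈ univ.filter fun y' => D.twn s y y', D.T ^ 4225 := by
          rw [sum_const, nsmul_eq_mul]
      _ ≤ ∑ y' ∈ univ.filter fun y' => D.twn s y y', s.GB y y' :=
          sum_le_sum fun y' hy' => (mem_filter.1 hy').2.le
      _ ≤ ∑ y', s.GB y y' := sum_le_sum_of_subset_of_nonneg (subset_univ _)
          fun y' _ _ => hs.GB_nonneg y y'
  have h3 : (j / D.R) * (D.T ^ 2404 * D.OB) ≤ D.kap * (D.T ^ 2404 * (D.H * D.n1 / 2000)) :=
    mul_le_mul hjR (mul_le_mul_of_nonneg_left hO (pow_nonneg h0.le _))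
      (mul_nonneg (pow_nonneg h0.le _) hO0) (by linarith)
  have h4 : D.kap * (D.T ^ 2404 * (D.H * D.n1 / 2000)) =
      D.kap * D.H * (D.T ^ 2404 * D.n1 / 2000) := by ring
  have h5 : D.kap * D.H * (D.T ^ 2404 * D.n1 / 2000) ≤ D.T * (D.T ^ 2404 * D.T ^ 4801) := by
    have a1 : D.kap * D.H ≤ D.T := by
      have h5 : D.Kc / 10 ^ 6 ≤ D.Kc := div_le_self (by linarith [os_Kc_one hD]) (by norm_num)
      linarith
    have a2 : D.T ^ 2404 * D.n1 / 2000 ≤ D.T ^ 2404 * D.T ^ 4801 := by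
      have a3 : D.T ^ 2404 * D.n1 ≤ D.T ^ 2404 * D.T ^ 4801 :=
        mul_le_mul_of_nonneg_left hnh (by positivity)
      have a4 : 0 < D.T ^ 2404 * D.n1 := by positivity
      linarith
    exact mul_le_mul a1 a2 (by positivity) h0.le
  have h6 : D.T * (D.T ^ 2404 * D.T ^ 4801) = D.T ^ 2981 * D.T ^ 4225 := by
    have c1 : D.T ^ 2404 * D.T ^ 4801 = D.T ^ 7205 := by rw [← pow_add]
    have c2 : D.T ^ 2981 * D.T ^ 4225 = D.T ^ 7206 := by rw [← pow_add]
    rw [c1, c2, ← pow_succ']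
  have h7 : ((univ.filter fun y' => D.twn s y y').card : ℝ) * D.T ^ 4225 ≤
      D.T ^ 2981 * D.T ^ 4225 := by linarith
  have h8 := le_of_mul_le_mul_right h7 (by positivity)
  exact h8.trans (hD.big.pw (by norm_num))

theorem gram_le (hs : D.SInv W0 W1 j s C) (hj : j ≤ D.NS) {y y' : V} (h : y ≠ y')
    (ht : ¬ D.twn s y y') : |D.Gr s y y'| ≤ 3 * D.T ^ 4225 := by
  have h0 := os_T_pos hD
  have h1 := hs.gram y y' h
  have h2 : s.GB y y' ≤ D.T ^ 4225 := not_lt.1 ht
  have h3 := ob_j_le hD hj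
  have h4 : (j : ℝ) * D.T ^ 3420 ≤ D.T ^ 802 * D.T ^ 3420 :=
    mul_le_mul_of_nonneg_right h3 (by positivity)
  have h5 : D.T ^ 802 * D.T ^ 3420 ≤ D.T ^ 4225 := by
    rw [← pow_add]
    exact hD.big.pw (by norm_num)
  linarith

theorem ob_La_pos (i : AL) : 0 < D.La i :=
  lt_of_lt_of_le (mul_pos (pow_pos (os_T_pos hD) _) (hD.s0_pos i)) (hD.num0 i)

theorem lin_le (hs : D.SInv W0 W1 j s C) (hj : j ≤ D.NS) (i : AL) :
    D.Lin s i ≤ D.La i * (1 + 1 / 1000) := by
  refine (hs.lin i).trans (mul_le_mul_of_nonneg_left ?_ (ob_La_pos hD i).le)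
  have h0 := os_T_pos hD
  have hT := os_T_ge hD
  have h3 := ob_j_le hD hj
  have h4 : (j : ℝ) / D.T ^ 860 ≤ 1 / 1000 := by
    rw [div_le_div_iff₀ (by positivity) (by norm_num)]
    have h5 : D.T ^ 802 * D.T ≤ D.T ^ 860 := by
      rw [← pow_succ]
      exact hD.big.pw (by norm_num)
    nlinarith [pow_pos h0 802]
  linarith

/-- Total weight of the frozen pairs. -/
theorem frozen_le (hs : D.SInvF W0 W1 j s C) (hj : j ≤ D.NS) (x : V) :
    ∑ u, (if D.far u x ∧ s.X u x ≠ 0 ∧ ¬ D.nf s u x then s.X u x else 0) ≤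
      D.n1 * (1 / 2000 + 1 / 10 ^ 5) := by
  have hS := hs.toSInv
  have h0 := os_T_pos hD
  have hT := os_T_ge hD
  have hH := hD.H_one
  have hC := hD.C0_one
  have hk := hD.kap_one
  have hn := os_n1_pos hD
  have hR := os_R_pos hD
  have hkp := os_k_pos hD
  have hX := fun u => os_X_nonneg hS u x
  have hK := os_Kc_one hD
  -- the pairs frozen because of their rate
  have p1 : ∑ u, (if D.far u x ∧ s.st u x = .frY then s.X u x else 0) ≤ D.n1 / 2000 := by
    have h1 := om_le hD hS hj x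
    unfold om at h1
    have h2 : 0 ≤ ∑ u, (if D.nf s u x then s.X u x * D.Y s u x else 0) := by
      refine sum_nonneg fun u _ => ?_
      split_ifs
      · exact mul_nonneg (hX u) (os_Y_nonneg hD hS u x)
      · exact le_rfl
    have h3 := OB_le hD
    have h4 : D.H * ∑ u, (if D.far u x ∧ s.st u x = .frY then s.X u x else 0) ≤
        D.H * (D.n1 / 2000) := by
      have : D.H * (D.n1 / 2000) = D.H * D.n1 / 2000 := by ring
      linarith
    exact le_of_mul_le_mul_left h4 (by linarith)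
  -- the pairs frozen for other reasons
  have p2 : D.FO s x ≤ D.n1 / (4 * 10 ^ 5) := by
    have h1 := hS.FO x
    have h2 := ob_jk hD hj
    have hO := OB_le hD
    have hO' := OB_ge hD
    have hO0 : 0 ≤ D.OB := by linarith
    have hjR := os_jR hD hj
    have hfr := hD.frz
    set L : ℝ := D.LI / D.R with hL
    have hL0 : 0 ≤ L := by positivity
    have hLk : (D.LI : ℝ) * (D.k / D.T ^ 2) = L * D.n1 / D.T ^ 2 := by
      rw [hL]
      unfold n1
      field_simp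
    rw [hLk] at h1
    have h3 : 2 * D.H * (L * (6 * D.C0 * D.OB) + L * D.n1 / D.T ^ 2) ≤
        2 * D.H * (L * (6 * D.C0 * (D.H * D.n1 / 2000)) + L * D.n1 / D.T ^ 2) := by
      refine mul_le_mul_of_nonneg_left (add_le_add ?_ le_rfl) (by positivity)
      exact mul_le_mul_of_nonneg_left (mul_le_mul_of_nonneg_left hO (by positivity)) hL0
    have h4 : (j / D.R) * (2 * D.H * (L * (6 * D.C0 * D.OB) + L * D.n1 / D.T ^ 2)) ≤
        D.kap * (2 * D.H * (L * (6 * D.C0 * (D.H * D.n1 / 2000)) + L * D.n1 / D.T ^ 2)) :=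
      mul_le_mul hjR h3 (by positivity) (by positivity)
    have h5 : D.kap * (2 * D.H * (L * (6 * D.C0 * (D.H * D.n1 / 2000)) + L * D.n1 / D.T ^ 2)) =
        (D.kap * D.C0 * D.H ^ 2 * L) * (12 / 2000 * D.n1) +
          (D.kap * D.H * L) * (2 / D.T ^ 2 * D.n1) := by ring
    have hHH : D.H ^ 2 ≤ D.H ^ 3 := pow_le_pow_right₀ hH (by norm_num)
    have hH3 : D.H ≤ D.H ^ 3 := by
      have := pow_le_pow_right₀ hH (show 1 ≤ 3 by norm_num)
      rwa [pow_one] at this
    have h6 : D.kap * D.C0 * D.H ^ 2 * L ≤ 1 / 10 ^ 5 := by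
      have : D.kap * D.C0 * D.H ^ 2 * L ≤ D.kap * D.C0 * D.H ^ 3 * L :=
        mul_le_mul_of_nonneg_right (mul_le_mul_of_nonneg_left hHH (by positivity)) hL0
      linarith
    have h7 : D.kap * D.H * L ≤ 1 / 10 ^ 5 := by
      have a1 : D.kap * D.H ≤ D.kap * D.C0 * D.H ^ 3 := by
        have : D.kap ≤ D.kap * D.C0 := le_mul_of_one_le_right (by linarith) hC
        exact mul_le_mul this hH3 (by linarith) (by positivity)
      have : D.kap * D.H * L ≤ D.kap * D.C0 * D.H ^ 3 * L := mul_le_mul_of_nonneg_right a1 hL0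
      linarith
    have h8 : (D.kap * D.C0 * D.H ^ 2 * L) * (12 / 2000 * D.n1) ≤ 1 / 10 ^ 5 * (12 / 2000 * D.n1) :=
      mul_le_mul_of_nonneg_right h6 (by positivity)
    have hT2 : 2 / D.T ^ 2 ≤ 1 / 100 := by
      rw [div_le_div_iff₀ (by positivity) (by norm_num)]
      nlinarith
    have h9 : (D.kap * D.H * L) * (2 / D.T ^ 2 * D.n1) ≤ 1 / 10 ^ 5 * (1 / 100 * D.n1) :=
      mul_le_mul h7 (mul_le_mul_of_nonneg_right hT2 hn.le) (by positivity) (by norm_num)
    have h10 : D.n1 / D.T ≤ D.n1 / 10 ^ 6 :=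
      div_le_div_of_nonneg_left hn.le (by norm_num) (by norm_num; linarith)
    have h11 : D.n1 / (4 * 10 ^ 5) = D.n1 * (1 / (4 * 10 ^ 5)) := by ring
    rw [h11]
    norm_num at h8 h9 h10 ⊢
    linarith
  -- the twins
  have p3 : ∑ u, (if D.twn s u x then s.X u x else 0) ≤ D.n1 / (4 * 10 ^ 5) := by
    have h1 : ∑ u, (if D.twn s u x then s.X u x else 0) ≤
        ((univ.filter fun u => D.twn s x u).card : ℝ) * D.Kc := by
      rw [card_eq_sum_ones, Nat.cast_sum, sum_mul, sum_filter]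
      refine sum_le_sum fun u _ => ?_
      rw [if_congr (os_twn_comm hS u x) rfl rfl]
      split_ifs
      · simpa using hS.X_hi u x
      · exact le_rfl
    have h2 := twn_card hD hS hj x
    have h3 : ((univ.filter fun u => D.twn s x u).card : ℝ) * D.Kc ≤ D.T ^ 3000 * D.T :=
      mul_le_mul h2 (os_Kc_T hD) (by linarith) (by positivity)
    have h4 : D.T ^ 3000 * D.T * (4 * 10 ^ 5) ≤ D.T ^ 3002 := by
      have e1 : D.T ^ 3002 = D.T ^ 3000 * D.T * D.T := by rw [← pow_succ, ← pow_succ]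
      rw [e1]
      refine mul_le_mul_of_nonneg_left ?_ (by positivity)
      linarith
    have h5 : D.T ^ 3002 ≤ D.n1 := (hD.big.pw (by norm_num)).trans (os_n1_lo hD)
    rw [le_div_iff₀ (by norm_num)]
    nlinarith
  have p4 : ∑ u, (if D.far u x ∧ s.X u x ≠ 0 ∧ ¬ D.nf s u x then s.X u x else 0) ≤
      ∑ u, (if D.far u x ∧ s.st u x = .frY then s.X u x else 0) + D.FO s x +
        ∑ u, (if D.twn s u x then s.X u x else 0) := by
    unfold FO
    rw [← sum_add_distrib, ← sum_add_distrib]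
    refine sum_le_sum fun u _ => ?_
    have hXu := hX u
    have n1' : 0 ≤ (if D.far u x ∧ s.st u x = .frY then s.X u x else 0) := by
      split_ifs
      exacts [hXu, le_rfl]
    have n2' : 0 ≤ (if D.far u x ∧ s.st u x = .frO ∧ ¬ D.twn s u x then s.X u x else 0) := by
      split_ifs
      exacts [hXu, le_rfl]
    have n3' : 0 ≤ (if D.twn s u x then s.X u x else 0) := by
      split_ifs
      exacts [hXu, le_rfl]
    by_cases h : D.far u x ∧ s.X u x ≠ 0 ∧ ¬ D.nf s u x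
    · rw [if_pos h]
      obtain ⟨hf, hX0, hnf⟩ := h
      have hst : ¬ (s.st u x = .act ∨ s.st u x = .asl) := fun h' => hnf ⟨hf, h', hX0⟩
      rcases hcase : s.st u x with _ | _ | _ | _
      · exact absurd (Or.inl hcase) hst
      · exact absurd (Or.inr hcase) hst
      · rw [if_pos ⟨hf, rfl⟩]
        rw [hcase] at n2'
        linarith
      · by_cases ht : D.twn s u x
        · rw [if_pos ht]
          rw [hcase] at n1' n2'
          linarith
        · rw [if_pos (show D.far u x ∧ GStat.frO = .frO ∧ ¬ D.twn s u x from ⟨hf, rfl, ht⟩)]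
          rw [hcase] at n1'
          linarith
    · rw [if_neg h]
      linarith
  have p5 : D.n1 * (1 / 2000 + 1 / 10 ^ 5) = D.n1 / 2000 + D.n1 / 10 ^ 5 := by ring
  have p6 : D.n1 / (4 * 10 ^ 5) = D.n1 / 10 ^ 5 / 4 := by ring
  have p7 : 0 < D.n1 / 10 ^ 5 := by positivity
  rw [p5]
  rw [p6] at p2 p3
  linarith

end

variable {W0 W1 : ℝ} {j : ℕ} {s : GState V} {C : V → Option (ℕ × Fin D.k × ℕ)}

theorem Lin_nonneg (hD : D.Ok) (hs : D.SInv W0 W1 j s C) (i : AL) : 0 ≤ D.Lin s i := by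
  unfold Lin
  refine mul_nonneg (by norm_num) (sum_nonneg fun z _ => sum_nonneg fun z' _ => ?_)
  exact mul_nonneg (hD.a_nonneg i z z') (os_chi_nonneg hs z z')

end GData

end

end Pool.Agent.AcyG
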