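import Pool.Agent.AcyG.OCol
import Pool.Agent.AcyG.ODrift
import Pool.Agent.AcyG.OCnt
import Pool.Agent.AcyG.OStatA
import Pool.Agent.AcyG.OStatB

/-! # The predicted values of the Gram tests and of the accurate tests (project MP_af9dfb_G,
row OP2) -/

set_option autoImplicit false
set_option linter.unusedSectionVars false

namespace Pool.Agent.AcyG

open Finset
open Pool.Agent.Acy (IsPM wt Ex Pr mean)
open Pool.Agent.AcyK (Big StepOK LocOK prodLaw Un Sel updCol HasC cN)
open scoped Classical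

universe u v

section

variable {V AL : Type u} [Fintype V] [DecidableEq V] [Fintype AL]

namespace GSt

variable {Lb : Type u} [Fintype Lb] {E : GSt V Lb AL}

/-! ### The functional `prd` -/

theorem op2_sum (E : GSt V Lb AL) {ι : Type*} (s : Finset ι) (w : ι → V → V → Lb → ℝ) :
    E.prd (fun z z' l => ∑ i ∈ s, w i z z' l) = ∑ i ∈ s, E.prd (w i) := by
  have h1 : ∀ z z', E.mn (fun z z' l => ∑ i ∈ s, w i z z' l) z z' = ∑ i ∈ s, E.mn (w i) z z' := by
    intro z z'
    unfold mn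
    simp only [mul_sum]
    exact sum_comm
  unfold prd
  simp only [h1]
  rw [← mul_sum]
  congr 1
  simp only [mul_sum]
  calc ∑ z, ∑ z', ∑ i ∈ s, E.chi E.s z z' * E.mn (w i) z z'
      = ∑ z, ∑ i ∈ s, ∑ z', E.chi E.s z z' * E.mn (w i) z z' :=
        sum_congr rfl fun z _ => sum_comm
    _ = _ := sum_comm

theorem op2_mul (E : GSt V Lb AL) (c : ℝ) (w : V → V → Lb → ℝ) :
    E.prd (fun z z' l => c * w z z' l) = c * E.prd w := by
  have h1 : ∀ z z', E.mn (fun z z' l => c * w z z' l) z z' = c * E.mn w z z' := by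
    intro z z'
    unfold mn
    rw [mul_sum]
    exact sum_congr rfl fun l _ => by ring
  unfold prd
  simp only [h1]
  have h2 : ∑ z, ∑ z', E.chi E.s z z' * (c * E.mn w z z') =
      c * ∑ z, ∑ z', E.chi E.s z z' * E.mn w z z' := by
    rw [mul_sum]
    refine sum_congr rfl fun z _ => ?_
    rw [mul_sum]
    exact sum_congr rfl fun z' _ => by ring
  rw [h2]
  ring

theorem op2_zero (E : GSt V Lb AL) : E.prd (fun _ _ _ => (0 : ℝ)) = 0 := by
  have h := op2_mul E 0 fun _ _ _ => (0 : ℝ)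
  simpa using h

section
variable (hE : E.Ok)
include hE

theorem op2_chi (z z' : V) : 0 ≤ E.chi E.s z z' := GData.os_chi_nonneg hE.inv.toSInv z z'

theorem op2_X (x y : V) : 0 ≤ E.s.X x y := GData.os_X_nonneg hE.inv.toSInv x y

theorem op2_n1 : 0 < E.n1 := GData.os_n1_pos hE.dat

theorem op2_mono {w w' : V → V → Lb → ℝ} (h : ∀ z z' l, w z z' l ≤ w' z z' l) :
    E.prd w ≤ E.prd w' := by
  have hn := op2_n1 hE
  unfold prd mn
  refine mul_le_mul_of_nonneg_left ?_ (by positivity)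
  refine sum_le_sum fun z _ => sum_le_sum fun z' _ => ?_
  refine mul_le_mul_of_nonneg_left ?_ (op2_chi hE z z')
  exact sum_le_sum fun l _ => mul_le_mul_of_nonneg_left (h z z' l) (hE.cols.mu_nonneg z z' l)

theorem op2_nonneg {w : V → V → Lb → ℝ} (h : ∀ z z' l, 0 ≤ w z z' l) : 0 ≤ E.prd w := by
  rw [← op2_zero E]
  exact op2_mono hE h

/-! ### Numbers -/

theorem op2_C0_Kc : E.C0 ≤ E.Kc := by
  have hD := hE.dat
  have a1 := hD.kap_one
  have a2 := hD.H_one
  have a3 := hD.C0_one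
  have a4 : (1 : ℝ) ≤ E.kap * E.H := one_le_mul_of_one_le_of_one_le a1 a2
  have a5 : E.C0 ≤ E.kap * E.H * E.C0 := le_mul_of_one_le_left (by linarith) a4
  have a7 : (1 : ℝ) ≤ E.kap * E.H * E.C0 := a3.trans a5
  have a8 : E.kap * E.H * E.C0 ≤ (E.kap * E.H * E.C0) ^ 10 := by
    have := pow_le_pow_right₀ a7 (show 1 ≤ 10 by norm_num)
    rwa [pow_one] at this
  have a9 := hD.Kc_ge
  have a10 : 0 ≤ (E.kap * E.H * E.C0) ^ 10 := by positivity
  nlinarith

theorem op2_Bx_Kc : E.Bx ≤ E.Kc := by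
  have h1 := hE.Bx_le
  have h2 : 1 ≤ E.Cx := by
    have a1 := hE.dat.H_one
    have a2 := hE.tau_pos
    have a3 := hE.q0_pos
    unfold Cx
    have a4 : 0 ≤ E.H / E.tau := div_nonneg (by linarith) a2.le
    have a5 : (0 : ℝ) ≤ E.B0 * (1 + E.H / E.tau) := by positivity
    have a6 : 0 ≤ E.q0 * (E.H * (1 + E.H / E.tau)) := by
      have : 0 ≤ E.H := by linarith
      positivity
    linarith
  have h3 := hE.Bx_one
  nlinarith

theorem op2_Kc_pos : 0 < E.Kc := by linarith [GData.os_Kc_one hE.dat]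

theorem op2_T_pos : 0 < E.T := GData.os_T_pos hE.dat

theorem op2_La (α : AL) : 0 ≤ E.La α := by
  have h1 := hE.dat.num0 α
  have h2 := hE.dat.s0_pos α
  have h3 := pow_pos (op2_T_pos hE) 5970
  exact (mul_pos h3 h2).le.trans h1

/-! ### Rates of the awake pairs -/

theorem op2_Y (x y : V) : 0 ≤ E.Y E.s x y := GData.os_Y_nonneg hE.dat hE.inv.toSInv x y

theorem op2_ga (x y : V) : E.prd (fun z z' l => |E.ga l z z' x y|) ≤
    if E.nf E.s x y then 2 * E.C0 * E.Y E.s x y else 0 := by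
  by_cases h : E.aw E.s x y
  · rw [if_pos (GData.os_nf_of_aw h)]
    simp only [ga_eq hE h]
    exact prd_abs hE x y
  · have h1 : (fun (z z' : V) (l : Lb) => |E.ga l z z' x y|) = fun _ _ _ => (0 : ℝ) := by
      funext z z' l
      unfold ga
      rw [if_neg h, abs_zero]
    rw [h1, op2_zero]
    split_ifs
    · have h2 := op2_Y hE x y
      have h3 := hE.dat.C0_one
      have : 0 ≤ E.C0 := by linarith
      positivity
    · exact le_rfl

theorem op2_sumX (y : V) : ∑ u, E.s.X u y * E.prd (fun z z' l => |E.ga l z z' u y|) ≤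
    2 * E.C0 * E.OB := by
  have h1 := GData.sum_XY hE.dat hE.inv.toSInv hE.j_lt.le y
  have h3 := hE.dat.C0_one
  calc ∑ u, E.s.X u y * E.prd (fun z z' l => |E.ga l z z' u y|)
      ≤ ∑ u, 2 * E.C0 * (if E.nf E.s u y then E.s.X u y * E.Y E.s u y else 0) := by
        refine sum_le_sum fun u _ => ?_
        have h2 := mul_le_mul_of_nonneg_left (op2_ga hE u y) (op2_X hE u y)
        refine h2.trans (le_of_eq ?_)
        split_ifs
        · ring
        · ring
    _ = 2 * E.C0 * ∑ u, (if E.nf E.s u y then E.s.X u y * E.Y E.s u y else 0) := by rw [mul_sum]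
    _ ≤ 2 * E.C0 * E.OB := mul_le_mul_of_nonneg_left h1 (by linarith)

/-! ### The statements -/

theorem prd_p0 (x y : V) : E.prd (E.Wp 0 x y) ≤ E.H := by
  have hH := hE.dat.H_one
  by_cases h : E.aw E.s x y
  · have h1 : E.Wp 0 x y = fun z z' l => max (-E.gu l z z' x y) 0 := by
      funext z z' l
      unfold Wp
      rw [if_pos rfl, ga_eq hE h]
    rw [h1]
    exact (prd_kill hE x y).trans (hE.inv.nf_Y x y (GData.os_nf_of_aw h))
  · have h1 : E.Wp 0 x y = fun _ _ _ => (0 : ℝ) := by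
      funext z z' l
      unfold Wp ga
      rw [if_pos rfl, if_neg h]
      simp
    rw [h1, op2_zero]
    linarith

theorem prd_p1 (x y : V) : E.prd (E.Wp 1 x y) ≤ E.C0 * E.H := by
  have hH := hE.dat.H_one
  have hC := hE.dat.C0_one
  by_cases h : E.aw E.s x y
  · have h1 : E.Wp 1 x y = fun z z' l => max (E.gu l z z' x y) 0 := by
      funext z z' l
      unfold Wp
      rw [if_neg (by decide), ga_eq hE h]
    rw [h1]
    exact (prd_pos hE x y).trans (mul_le_mul_of_nonneg_left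
      (hE.inv.nf_Y x y (GData.os_nf_of_aw h)) (by linarith))
  · have h1 : E.Wp 1 x y = fun _ _ _ => (0 : ℝ) := by
      funext z z' l
      unfold Wp ga
      rw [if_neg (by decide), if_neg h]
      simp
    rw [h1, op2_zero]
    nlinarith

theorem op2_Wg1 (y y' : V) : E.Wg 1 y y' =
    fun z z' l => ∑ u, E.s.X u y * E.s.X u y' * |E.ga l z z' u y * E.ga l z z' u y'| := by
  funext z z' l
  unfold Wg
  rw [if_neg (by decide)]

theorem op2_ga_Kc (l : Lb) (z z' x y : V) : |E.ga l z z' x y| ≤ E.Kc :=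
  ((ga_abs_le hE l z z' x y).trans (gu_abs hE l z z' x y)).trans (op2_Bx_Kc hE)

theorem prd_g1 (y y' : V) : E.prd (E.Wg 1 y y') ≤ E.T * E.n1 := by
  have hK := op2_Kc_pos hE
  have h1 : E.prd (E.Wg 1 y y') ≤ E.prd (fun z z' l => ∑ u, (E.Kc ^ 2 * E.s.X u y) *
      |E.ga l z z' u y|) := by
    rw [op2_Wg1 hE]
    refine op2_mono hE fun z z' l => sum_le_sum fun u _ => ?_
    rw [abs_mul]
    have a1 := hE.inv.X_hi u y'
    have a2 := op2_ga_Kc hE l z z' u y'
    have a3 := op2_X hE u y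
    have a4 := op2_X hE u y'
    calc E.s.X u y * E.s.X u y' * (|E.ga l z z' u y| * |E.ga l z z' u y'|)
        ≤ E.s.X u y * E.Kc * (|E.ga l z z' u y| * E.Kc) := by gcongr
      _ = _ := by ring
  have h2 : E.prd (fun z z' l => ∑ u, (E.Kc ^ 2 * E.s.X u y) * |E.ga l z z' u y|) =
      E.Kc ^ 2 * ∑ u, E.s.X u y * E.prd (fun z z' l => |E.ga l z z' u y|) := by
    rw [op2_sum, mul_sum]
    refine sum_congr rfl fun u _ => ?_
    rw [op2_mul]
    ring
  rw [h2] at h1
  have h3 := mul_le_mul_of_nonneg_left (op2_sumX hE y) (sq_nonneg E.Kc)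
  have h4 : E.OB ≤ E.H * E.n1 / 2 := by
    have a1 := hE.dat.par2
    have a2 : 0 ≤ E.H * E.n1 := mul_nonneg (by linarith [hE.dat.H_one]) (op2_n1 hE).le
    unfold GData.OB
    linarith
  have hC := op2_C0_Kc hE
  have hH := GData.os_H_Kc hE.dat
  have hC1 := hE.dat.C0_one
  have hH1 := hE.dat.H_one
  have h5 : E.Kc ^ 4 ≤ E.T := GData.os_Kc_pow_T hE.dat (by norm_num)
  have hn := op2_n1 hE
  calc E.prd (E.Wg 1 y y') ≤ E.Kc ^ 2 * (2 * E.C0 * E.OB) := h1.trans h3
    _ ≤ E.Kc ^ 2 * (2 * E.Kc * (E.Kc * E.n1 / 2)) := by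
        have a1 : E.OB ≤ E.Kc * E.n1 / 2 := by
          have : E.H * E.n1 ≤ E.Kc * E.n1 := mul_le_mul_of_nonneg_right hH hn.le
          linarith
        have a2 : 0 ≤ E.Kc * E.n1 / 2 := by positivity
        have a3 : 2 * E.C0 * E.OB ≤ 2 * E.Kc * (E.Kc * E.n1 / 2) := by
          calc 2 * E.C0 * E.OB ≤ 2 * E.C0 * (E.Kc * E.n1 / 2) :=
                mul_le_mul_of_nonneg_left a1 (by linarith)
            _ ≤ 2 * E.Kc * (E.Kc * E.n1 / 2) := mul_le_mul_of_nonneg_right (by linarith) a2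
        exact mul_le_mul_of_nonneg_left a3 (sq_nonneg _)
    _ = E.Kc ^ 4 * E.n1 := by ring
    _ ≤ E.T * E.n1 := mul_le_mul_of_nonneg_right h5 hn.le

theorem prd_g1_row (y : V) : ∑ y', E.prd (E.Wg 1 y y') ≤ E.T ^ 2404 * E.OB := by
  have hK := op2_Kc_pos hE
  have ham := GData.os_am_pos hE.dat
  have h1 : ∑ y', E.prd (E.Wg 1 y y') ≤ E.prd (fun z z' l => ∑ u,
      (E.Kc ^ 2 * E.am * E.s.X u y) * |E.ga l z z' u y|) := by
    rw [← op2_sum]
    refine op2_mono hE fun z z' l => ?_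
    calc ∑ y', E.Wg 1 y y' z z' l = ∑ u, E.s.X u y * |E.ga l z z' u y| *
          ∑ y', E.s.X u y' * |E.ga l z z' u y'| := by
          simp only [op2_Wg1 hE, abs_mul]
          rw [sum_comm]
          refine sum_congr rfl fun u _ => ?_
          rw [mul_sum]
          exact sum_congr rfl fun y' _ => by ring
      _ ≤ ∑ u, E.s.X u y * |E.ga l z z' u y| * (E.Kc * (E.Kc * E.am)) := by
          refine sum_le_sum fun u _ => ?_
          refine mul_le_mul_of_nonneg_left ?_ (mul_nonneg (op2_X hE u y) (abs_nonneg _))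
          calc ∑ y', E.s.X u y' * |E.ga l z z' u y'| ≤ ∑ y', E.Kc * |E.gu l z z' u y'| := by
                refine sum_le_sum fun y' _ => ?_
                exact mul_le_mul (hE.inv.X_hi u y') (ga_abs_le hE l z z' u y') (abs_nonneg _) hK.le
            _ = E.Kc * ∑ y', |E.gu l z z' u y'| := by rw [mul_sum]
            _ ≤ E.Kc * (E.Kc * E.am) := mul_le_mul_of_nonneg_left (ext_row hE l z z' u) hK.le
      _ = _ := by
          refine sum_congr rfl fun u _ => ?_
          ring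
  have h2 : E.prd (fun z z' l => ∑ u, (E.Kc ^ 2 * E.am * E.s.X u y) * |E.ga l z z' u y|) =
      E.Kc ^ 2 * E.am * ∑ u, E.s.X u y * E.prd (fun z z' l => |E.ga l z z' u y|) := by
    rw [op2_sum, mul_sum]
    refine sum_congr rfl fun u _ => ?_
    rw [op2_mul]
    ring
  rw [h2] at h1
  have h3 := mul_le_mul_of_nonneg_left (op2_sumX hE y)
    (show 0 ≤ E.Kc ^ 2 * E.am by positivity)
  have hOB : 0 ≤ E.OB := by
    unfold GData.OB
    positivity
  have hC := op2_C0_Kc hE
  have hC1 := hE.dat.C0_one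
  have h6 := GData.os_Kc_ge hE.dat
  have h5 : E.Kc ^ 4 ≤ E.T := GData.os_Kc_pow_T hE.dat (by norm_num)
  have hT := op2_T_pos hE
  have h7 : 2 * E.C0 ≤ E.Kc ^ 2 := by nlinarith
  calc ∑ y', E.prd (E.Wg 1 y y') ≤ E.Kc ^ 2 * E.am * (2 * E.C0 * E.OB) := h1.trans h3
    _ ≤ E.Kc ^ 2 * E.T ^ 2401 * (E.Kc ^ 2 * E.OB) := by
        have := hE.dat.am_hi
        gcongr
    _ = E.Kc ^ 4 * (E.T ^ 2401 * E.OB) := by ring
    _ ≤ E.T * (E.T ^ 2401 * E.OB) := mul_le_mul_of_nonneg_right h5 (by positivity)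
    _ = E.T ^ 2402 * E.OB := by ring
    _ ≤ E.T ^ 2404 * E.OB :=
        mul_le_mul_of_nonneg_right (hE.dat.big.pw (by norm_num)) hOB

theorem prd_l1 (α : AL) : E.prd (E.Wl 1 α) ≤ E.T * E.La α := by
  have hC1 := hE.dat.C0_one
  have hH1 := hE.dat.H_one
  have h1 : E.prd (E.Wl 1 α) = 1 / 2 * ∑ a, ∑ b, E.a α a b * E.chi E.s a b *
      E.prd (fun z z' l => |E.ga l z z' a b|) := by
    have e1 : E.Wl 1 α = fun z z' l => 1 / 2 * ∑ a, ∑ b, E.a α a b * E.chi E.s a b *
        |E.ga l z z' a b| := by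
      funext z z' l
      unfold Wl
      rw [if_neg (by decide), if_pos rfl]
    rw [e1, op2_mul, op2_sum]
    congr 1
    refine sum_congr rfl fun a _ => ?_
    rw [op2_sum]
    refine sum_congr rfl fun b _ => ?_
    rw [op2_mul]
  have h2 : ∀ a b, E.a α a b * E.chi E.s a b * E.prd (fun z z' l => |E.ga l z z' a b|) ≤
      (2 * E.C0 * E.H) * (E.a α a b * E.chi E.s a b) := by
    intro a b
    have a1 : 0 ≤ E.a α a b * E.chi E.s a b :=
      mul_nonneg (hE.dat.a_nonneg α a b) (op2_chi hE a b)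
    have a2 : E.prd (fun z z' l => |E.ga l z z' a b|) ≤ 2 * E.C0 * E.H := by
      refine (op2_ga hE a b).trans ?_
      split_ifs with h
      · exact mul_le_mul_of_nonneg_left (hE.inv.nf_Y a b h) (by linarith)
      · positivity
    have := mul_le_mul_of_nonneg_left a2 a1
    linarith
  have h3 : E.prd (E.Wl 1 α) ≤ 2 * E.C0 * E.H * E.Lin E.s α := by
    rw [h1]
    have h4 : ∑ a, ∑ b, E.a α a b * E.chi E.s a b * E.prd (fun z z' l => |E.ga l z z' a b|) ≤
        (2 * E.C0 * E.H) * ∑ a, ∑ b, E.a α a b * E.chi E.s a b := by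
      rw [mul_sum]
      refine sum_le_sum fun a _ => ?_
      rw [mul_sum]
      exact sum_le_sum fun b _ => h2 a b
    unfold GData.Lin
    linarith
  have hLa := op2_La hE α
  have h5 := GData.lin_le hE.dat hE.inv.toSInv hE.j_lt.le α
  have h6 : E.Lin E.s α ≤ 2 * E.La α := by linarith
  have hK := GData.os_Kc_ge hE.dat
  have hC := op2_C0_Kc hE
  have hH := GData.os_H_Kc hE.dat
  have h7 : E.Kc ^ 3 ≤ E.T := GData.os_Kc_pow_T hE.dat (by norm_num)
  have h8 : 4 * (E.C0 * E.H) ≤ E.Kc ^ 3 := by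
    have a1 : E.C0 * E.H ≤ E.Kc * E.Kc := mul_le_mul hC hH (by linarith) (by linarith)
    have a2 : 4 ≤ E.Kc := by linarith
    calc 4 * (E.C0 * E.H) ≤ E.Kc * (E.Kc * E.Kc) := mul_le_mul a2 a1 (by positivity) (by linarith)
      _ = E.Kc ^ 3 := by ring
  calc E.prd (E.Wl 1 α) ≤ 2 * E.C0 * E.H * (2 * E.La α) :=
        h3.trans (mul_le_mul_of_nonneg_left h6 (by positivity))
    _ = 4 * (E.C0 * E.H) * E.La α := by ring
    _ ≤ E.T * E.La α := mul_le_mul_of_nonneg_right (h8.trans h7) hLa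

theorem prd_l2 (α : AL) : E.prd (E.Wl 2 α) ≤ E.Lin E.s α / E.n1 := by
  have hn := op2_n1 hE
  have h1 : ∀ z z', E.chi E.s z z' * E.mn (E.Wl 2 α) z z' = E.a α z z' * E.chi E.s z z' := by
    intro z z'
    by_cases h : E.chi E.s z z' = 0
    · rw [h]
      ring
    · have e1 : E.mn (E.Wl 2 α) z z' = E.a α z z' := by
        unfold mn Wl
        simp only [if_neg (show ¬ ((2 : Fin 3) = 0) by decide),
          if_neg (show ¬ ((2 : Fin 3) = 1) by decide), if_pos h]
        rw [← sum_mul, hE.cols.mu_sum, one_mul]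
      rw [e1]
      ring
  unfold prd GData.Lin
  simp only [h1]
  refine le_of_eq ?_
  field_simp

theorem gbI_nonneg (y y' : V) : 0 ≤ E.gbI y y' := by
  unfold gbI
  refine div_nonneg ?_ (GData.os_R_pos hE.dat).le
  rw [op2_Wg1 hE]
  refine op2_nonneg hE fun z z' l => sum_nonneg fun u _ => ?_
  exact mul_nonneg (mul_nonneg (op2_X hE u y) (op2_X hE u y')) (abs_nonneg _)

theorem gbI_symm (y y' : V) : E.gbI y y' = E.gbI y' y := by
  have h1 : E.Wg 1 y y' = E.Wg 1 y' y := by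
    rw [op2_Wg1 hE, op2_Wg1 hE]
    funext z z' l
    refine sum_congr rfl fun u _ => ?_
    rw [mul_comm (E.s.X u y), mul_comm (E.ga l z z' u y)]
  unfold gbI
  rw [h1]

end

end GSt

end

end Pool.Agent.AcyG
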