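import Pool.Agent.AcyG.OPtw
import Pool.Agent.AcyG.ODrift

/-! # Predicted values of the tests attached to a vertex (project MP_af9dfb_G, row OP1,
helper14) -/

set_option autoImplicit false
set_option linter.unusedSectionVars false

namespace Pool.Agent.AcyG

open Finset
open Pool.Agent.Acy (IsPM wt Ex Pr mean)
open Pool.Agent.AcyK (Big StepOK LocOK prodLaw Un Sel updCol HasC cN)
open scoped Classical

universe u v

section

variable {V AL : Type u} [Fintype V] [DecidableEq V] [Fintype AL]

namespace GSt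

variable {Lb : Type u} [Fintype Lb] {E : GSt V Lb AL}

/-! ### Linearity -/

theorem ox_mn_sum {ι : Type*} (S : Finset ι) (w : ι → V → V → Lb → ℝ) (z z' : V) :
    E.mn (fun z z' l => ∑ i ∈ S, w i z z' l) z z' = ∑ i ∈ S, E.mn (w i) z z' := by
  unfold mn
  simp only [mul_sum]
  exact sum_comm

theorem ox_mn_mul (c : ℝ) (w : V → V → Lb → ℝ) (z z' : V) :
    E.mn (fun z z' l => c * w z z' l) z z' = c * E.mn w z z' := by
  unfold mn
  rw [mul_sum]
  exact sum_congr rfl fun l _ => by ring

theorem ox_prd_sum {ι : Type*} (S : Finset ι) (w : ι → V → V → Lb → ℝ) :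
    E.prd (fun z z' l => ∑ i ∈ S, w i z z' l) = ∑ i ∈ S, E.prd (w i) := by
  unfold prd
  simp only [ox_mn_sum]
  rw [← mul_sum]
  congr 1
  calc ∑ z, ∑ z', E.chi E.s z z' * ∑ i ∈ S, E.mn (w i) z z'
      = ∑ z, ∑ z', ∑ i ∈ S, E.chi E.s z z' * E.mn (w i) z z' := by simp only [mul_sum]
    _ = ∑ z, ∑ i ∈ S, ∑ z', E.chi E.s z z' * E.mn (w i) z z' :=
        sum_congr rfl fun z _ => sum_comm
    _ = ∑ i ∈ S, ∑ z, ∑ z', E.chi E.s z z' * E.mn (w i) z z' := sum_comm

theorem ox_prd_mul (c : ℝ) (w : V → V → Lb → ℝ) :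
    E.prd (fun z z' l => c * w z z' l) = c * E.prd w := by
  unfold prd
  simp only [ox_mn_mul, mul_sum]
  refine sum_congr rfl fun z _ => sum_congr rfl fun z' _ => ?_
  ring

theorem ox_prd_add (w w' : V → V → Lb → ℝ) :
    E.prd (fun z z' l => w z z' l + w' z z' l) = E.prd w + E.prd w' := by
  have h : ∀ z z', E.mn (fun z z' l => w z z' l + w' z z' l) z z' = E.mn w z z' + E.mn w' z z' := by
    intro z z'
    unfold mn
    rw [← sum_add_distrib]
    exact sum_congr rfl fun l _ => by ring
  unfold prd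
  simp only [h, mul_add, sum_add_distrib]

theorem ox_prd_zero : E.prd (fun _ _ _ => 0) = 0 := by
  unfold prd mn
  simp

theorem ox_prd_eq_zero {w : V → V → Lb → ℝ} (h : ∀ z z' l, w z z' l = 0) : E.prd w = 0 := by
  have : w = fun _ _ _ => 0 := by
    funext z z' l
    exact h z z' l
  rw [this, ox_prd_zero]

/-- A sum over the unfrozen pairs at `x`. -/
theorem ox_S3_eq (x : V) (f : V → V → V → ℝ) : E.S3 x f =
    ∑ u, (if E.nf E.s u x then E.s.X u x *
      (1 / (2 * E.n1) * ∑ a ∈ cN E.N u x, ∑ b ∈ cN E.N u x, f u a b) else 0) := by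
  unfold S3
  rw [mul_sum]
  refine sum_congr rfl fun u _ => ?_
  split_ifs
  · simp only [← mul_sum]
    ring
  · rw [mul_zero]

theorem ox_prd_S3 (x : V) (f : V → V → Lb → V → V → V → ℝ) :
    E.prd (fun z z' l => E.S3 x (f z z' l)) =
    ∑ u, (if E.nf E.s u x then E.s.X u x * E.prd (fun z z' l =>
      1 / (2 * E.n1) * ∑ a ∈ cN E.N u x, ∑ b ∈ cN E.N u x, f z z' l u a b) else 0) := by
  simp only [ox_S3_eq]
  rw [ox_prd_sum]
  refine sum_congr rfl fun u _ => ?_
  split_ifs
  · rw [ox_prd_mul]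
  · exact ox_prd_zero

/-! ### Facts about the state -/

section

variable (hE : E.Ok)
include hE

theorem ox_X0 (u x : V) : 0 ≤ E.s.X u x := GData.os_X_nonneg hE.inv.toSInv u x

theorem ox_Y0 (u x : V) : 0 ≤ E.Y E.s u x := GData.os_Y_nonneg hE.dat hE.inv.toSInv u x

theorem ox_n1 : 0 < E.n1 := GData.os_n1_pos hE.dat

/-- The unfrozen pairs in the main statistic. -/
theorem ox_om (x : V) :
    (∑ u, if E.nf E.s u x then E.s.X u x * E.Y E.s u x else 0) ≤ E.om E.s x := by
  unfold GData.om
  have h1 : 0 ≤ E.H * ∑ u, if E.far u x ∧ E.s.st u x = .frY then E.s.X u x else 0 := by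
    have := hE.dat.H_one
    refine mul_nonneg (by linarith) (sum_nonneg fun u _ => ?_)
    split_ifs
    · exact ox_X0 hE u x
    · exact le_rfl
  linarith

theorem ox_om_mul {c : ℝ} (hc : 0 ≤ c) (x : V) :
    (∑ u, if E.nf E.s u x then E.s.X u x * (c * E.Y E.s u x) else 0) ≤ c * E.om E.s x := by
  have h1 : (∑ u, if E.nf E.s u x then E.s.X u x * (c * E.Y E.s u x) else 0) =
      c * ∑ u, if E.nf E.s u x then E.s.X u x * E.Y E.s u x else 0 := by
    rw [mul_sum]
    refine sum_congr rfl fun u _ => ?_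
    split_ifs
    · ring
    · rw [mul_zero]
  rw [h1]
  exact mul_le_mul_of_nonneg_left (ox_om hE x) hc

theorem ox_dec : 1 ≤ E.Kc * E.dec E.j := by
  have h1 : (E.j : ℝ) / E.R ≤ E.kap := GData.os_jR hE.dat hE.j_lt.le
  have h2 := hE.dat.H_one
  have h3 := hE.dat.C0_one
  have h4 := hE.dat.kap_one
  have h5 : 0 ≤ E.C0 * E.H := by positivity
  have h6 : Real.exp (4 * E.C0 * E.H * (E.j / E.R)) ≤ E.Kc := by
    refine le_trans (Real.exp_le_exp.2 ?_) hE.dat.Kc_exp
    have h7 : 4 * E.C0 * E.H * (E.j / E.R) ≤ 4 * E.C0 * E.H * E.kap :=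
      mul_le_mul_of_nonneg_left h1 (by positivity)
    have h8 : 0 ≤ E.C0 * E.H * E.kap := by positivity
    linarith
  have h7 : Real.exp (4 * E.C0 * E.H * (E.j / E.R)) * E.dec E.j = 1 := by
    unfold GData.dec
    rw [← Real.exp_add]
    simp
  rw [← h7]
  exact mul_le_mul_of_nonneg_right h6 (GData.os_dec_pos _).le

/-- Unfrozen alive pairs have a weight. -/
theorem ox_X1 {u x : V} (h : E.nf E.s u x) : 1 ≤ E.Kc * E.s.X u x := by
  rcases hE.inv.X_lo u x with h1 | h1
  · exact absurd h1 h.2.2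
  · exact (ox_dec hE).trans (mul_le_mul_of_nonneg_left h1
      (by linarith [GData.os_Kc_one hE.dat]))

/-- Rate of the boosts. -/
theorem ox_boost (x y : V) : E.prd (fun z z' l => max (E.ga l z z' x y) 0) ≤
    E.C0 * E.Y E.s x y := by
  have h := op_prd_gain hE x y
  have e : (E.Wp 1 x y) = fun z z' l => max (E.ga l z z' x y) 0 := by
    funext z z' l
    unfold Wp
    rw [if_neg (by decide)]
  rw [e] at h
  exact h

theorem ox_kill (x y : V) : E.prd (fun z z' l => max (-E.ga l z z' x y) 0) ≤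
    E.Y E.s x y := by
  have h := op_prd_kill hE x y
  have e : (E.Wp 0 x y) = fun z z' l => max (-E.ga l z z' x y) 0 := by
    funext z z' l
    unfold Wp
    rw [if_pos rfl]
  rw [e] at h
  exact h

/-- Rate of the kills of the pairs asleep. -/
theorem ox_asleep {x y : V} (h : E.as E.s x y) :
    E.prd (fun z z' l => |E.gu l z z' x y|) ≤ E.Y E.s x y := by
  have hc := GData.os_chi_nonneg hE.inv.toSInv
  have hn := ox_n1 hE
  have hnf := GData.os_nf_of_as h
  have hna : ¬ E.aw E.s x y := by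
    intro h1
    have h2 := h1.2.1
    rw [h.2.1] at h2
    cases h2
  have h1 : ∀ z z', E.chi E.s z z' * E.mn (fun z z' l => |E.gu l z z' x y|) z z' ≤
      if z ∈ cN E.N x y then (if z' ∈ cN E.N x y then E.chi E.s z z' else 0) else 0 := by
    intro z z'
    by_cases h4 : (E.toGData.sd E.s).lnk z z' x y
    · have h5 : z ∈ cN E.N x y := h4.2.2.1
      have h6 : z' ∈ cN E.N x y := h4.2.2.2
      rw [if_pos h5, if_pos h6]
      have h7 : E.mn (fun z z' l => |E.gu l z z' x y|) z z' ≤ 1 := by
        rw [← op_mn_const hE 1 z z']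
        refine op_mn_mono hE fun l => ?_
        unfold gu
        rw [if_pos hnf, hE.cols.kill l z z' x y h4]
        norm_num
      nlinarith [hc z z']
    · have h3 : E.mn (fun z z' l => |E.gu l z z' x y|) z z' = 0 := by
        unfold mn
        refine sum_eq_zero fun l _ => ?_
        have h5 : E.gu l z z' x y = 0 := by
          unfold gu
          rw [if_pos hnf]
          by_contra h6
          exact hna (hE.cols.supp l z z' x y h4 h6).2.1
        show E.μ z z' l * |E.gu l z z' x y| = 0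
        rw [h5, abs_zero, mul_zero]
      rw [h3, mul_zero]
      split_ifs
      exacts [hc z z', le_rfl, le_rfl]
  rw [GData.os_Y_eq]
  unfold prd
  refine mul_le_mul_of_nonneg_left ?_ (by positivity)
  refine (sum_le_sum fun z _ => sum_le_sum fun z' _ => h1 z z').trans (le_of_eq ?_)
  have h2 : ∀ z, ∑ z', (if z ∈ cN E.N x y then
      (if z' ∈ cN E.N x y then E.chi E.s z z' else 0) else 0) =
      if z ∈ cN E.N x y then ∑ z' ∈ cN E.N x y, E.chi E.s z z' else 0 := by
    intro z
    split_ifs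
    · rw [sum_ite_mem, univ_inter]
    · exact sum_const_zero
  simp only [h2]
  rw [sum_ite_mem, univ_inter]

/-! ### The predicted values -/

theorem prd_x3 (x : V) : E.prd (E.Wx 3 x) ≤ E.C0 * E.om E.s x := by
  have e : (E.Wx 3 x) = fun z z' l => ∑ u, E.s.X u x * max (E.ga l z z' u x) 0 := by
    funext z z' l
    unfold Wx
    simp
  rw [e, ox_prd_sum]
  refine le_trans (sum_le_sum fun u _ => ?_)
    (ox_om_mul hE (c := E.C0) (by linarith [hE.dat.C0_one]) x)
  rw [ox_prd_mul]
  split_ifs with h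
  · exact mul_le_mul_of_nonneg_left (ox_boost hE u x) (ox_X0 hE u x)
  · rw [ox_prd_eq_zero, mul_zero]
    intro z z' l
    rw [op_ga_not (fun h1 => h (GData.os_nf_of_aw h1))]
    simp

theorem prd_x7 (x : V) : E.prd (E.Wx 7 x) ≤ 2 * E.C0 * E.Kc * E.om E.s x := by
  have hK := GData.os_Kc_one hE.dat
  have hC := hE.dat.C0_one
  have e : (E.Wx 7 x) = fun z z' l => ∑ u, |E.ga l z z' u x| := by
    funext z z' l
    unfold Wx
    simp
  rw [e, ox_prd_sum]
  refine le_trans (sum_le_sum fun u _ => ?_)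
    (ox_om_mul hE (c := 2 * E.C0 * E.Kc) (by positivity) x)
  split_ifs with h
  · have h1 : E.prd (fun z z' l => |E.ga l z z' u x|) ≤ 2 * E.C0 * E.Y E.s u x := by
      have h2 : (fun z z' l => |E.ga l z z' u x|) =
          fun z z' l => max (E.ga l z z' u x) 0 + max (-E.ga l z z' u x) 0 := by
        funext z z' l
        rcases le_total 0 (E.ga l z z' u x) with h3 | h3
        · rw [abs_of_nonneg h3, max_eq_left h3, max_eq_right (by linarith), add_zero]
        · rw [abs_of_nonpos h3, max_eq_right h3, max_eq_left (by linarith), zero_add]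
      rw [h2, ox_prd_add]
      have h3 := ox_boost hE u x
      have h4 := ox_kill hE u x
      have h5 := ox_Y0 hE u x
      nlinarith
    refine h1.trans ?_
    have h2 := ox_X1 hE h
    have h3 : 0 ≤ 2 * E.C0 * E.Y E.s u x := by
      have := ox_Y0 hE u x
      positivity
    calc 2 * E.C0 * E.Y E.s u x = 1 * (2 * E.C0 * E.Y E.s u x) := by ring
      _ ≤ (E.Kc * E.s.X u x) * (2 * E.C0 * E.Y E.s u x) :=
          mul_le_mul_of_nonneg_right h2 h3
      _ = E.s.X u x * (2 * E.C0 * E.Kc * E.Y E.s u x) := by ring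
  · rw [ox_prd_eq_zero]
    intro z z' l
    rw [op_ga_not (fun h1 => h (GData.os_nf_of_aw h1))]
    simp

theorem prd_x6 (x : V) : E.prd (E.Wx 6 x) ≤ E.H * E.AS E.s x := by
  have e : (E.Wx 6 x) = fun z z' l =>
      ∑ u, (if E.as E.s u x then E.s.X u x * |E.gu l z z' u x| else 0) := by
    funext z z' l
    unfold Wx
    simp
  rw [e, ox_prd_sum]
  unfold GData.AS
  rw [mul_sum]
  refine sum_le_sum fun u _ => ?_
  split_ifs with h
  · rw [ox_prd_mul]
    have h1 := (ox_asleep hE h).trans (hE.inv.nf_Y u x (GData.os_nf_of_as h))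
    calc E.s.X u x * E.prd (fun z z' l => |E.gu l z z' u x|) ≤ E.s.X u x * E.H :=
          mul_le_mul_of_nonneg_left h1 (ox_X0 hE u x)
      _ = E.H * E.s.X u x := by ring
  · rw [ox_prd_zero, mul_zero]

theorem prd_x1 (x : V) : E.prd (E.Wx 1 x) ≤
    (E.e1 + 1 / E.T ^ 20) * E.om E.s x + E.H * E.AY E.s x := by
  have hT := GData.os_T_pos hE.dat
  have he := hE.dat.e1_pos
  have hH := hE.dat.H_one
  have hn := ox_n1 hE
  have e : (E.Wx 1 x) = fun z z' l => E.S3 x fun u a b =>
      E.chi E.s a b * (E.ga l z z' u x * E.ga l z z' a b) := by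
    funext z z' l
    unfold Wx
    simp
  rw [e, ox_prd_S3]
  have h1 : (∑ u, if E.nf E.s u x then E.s.X u x *
      ((E.e1 + 1 / E.T ^ 20) * E.Y E.s u x) else 0) + E.H * E.AY E.s x =
      ∑ u, if E.nf E.s u x then E.s.X u x * ((E.e1 + 1 / E.T ^ 20) * E.Y E.s u x +
        E.H * (1 / (2 * E.n1) * ∑ a ∈ cN E.N u x, ∑ b ∈ cN E.N u x,
          if E.as E.s a b then E.s.X a b else 0)) else 0 := by
    unfold GData.AY
    rw [mul_sum, ← sum_add_distrib]
    refine sum_congr rfl fun u _ => ?_
    split_ifs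
    · ring
    · ring
  have h2 := ox_om_mul hE (c := E.e1 + 1 / E.T ^ 20) (by positivity) x
  have h3 : (∑ u, if E.nf E.s u x then E.s.X u x * E.prd (fun z z' l =>
      1 / (2 * E.n1) * ∑ a ∈ cN E.N u x, ∑ b ∈ cN E.N u x,
        E.chi E.s a b * (E.ga l z z' u x * E.ga l z z' a b)) else 0) ≤
      ∑ u, if E.nf E.s u x then E.s.X u x * ((E.e1 + 1 / E.T ^ 20) * E.Y E.s u x +
        E.H * (1 / (2 * E.n1) * ∑ a ∈ cN E.N u x, ∑ b ∈ cN E.N u x,
          if E.as E.s a b then E.s.X a b else 0)) else 0 := by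
    refine sum_le_sum fun u _ => ?_
    split_ifs with h
    · refine mul_le_mul_of_nonneg_left ?_ (ox_X0 hE u x)
      have h4 : 0 ≤ ∑ a ∈ cN E.N u x, ∑ b ∈ cN E.N u x,
          if E.as E.s a b then E.s.X a b else 0 := by
        refine sum_nonneg fun a _ => sum_nonneg fun b _ => ?_
        split_ifs
        · exact ox_X0 hE a b
        · exact le_rfl
      by_cases ha : E.aw E.s u x
      · have h5 := drift_ga hE ha
        have h6 := tr_le hE u x
        have h7 : (fun z z' l => 1 / (2 * E.n1) * ∑ a ∈ cN E.N u x, ∑ b ∈ cN E.N u x,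
            E.chi E.s a b * (E.ga l z z' u x * E.ga l z z' a b)) =
            fun z z' l => E.ga l z z' u x * (1 / (2 * E.n1) * ∑ a ∈ cN E.N u x,
              ∑ b ∈ cN E.N u x, E.chi E.s a b * E.ga l z z' a b) := by
          funext z z' l
          simp only [mul_sum]
          refine sum_congr rfl fun a _ => sum_congr rfl fun b _ => ?_
          ring
        rw [h7]
        linarith
      · rw [ox_prd_eq_zero]
        · have h5 := ox_Y0 hE u x
          positivity
        · intro z z' l
          simp only [op_ga_not ha, zero_mul, mul_zero, sum_const_zero]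
    · exact le_rfl
  linarith

theorem prd_x4 (x : V) : E.prd (E.Wx 4 x) ≤ 6 * E.C0 * E.H * E.om E.s x := by
  have hC := hE.dat.C0_one
  have hH := hE.dat.H_one
  have hn := ox_n1 hE
  have e : (E.Wx 4 x) = fun z z' l => E.S3 x fun u a b =>
      E.chi E.s a b * (max (E.ga l z z' a b) 0 * (1 + max (E.ga l z z' u x) 0)) := by
    funext z z' l
    unfold Wx
    simp
  rw [e, ox_prd_S3]
  refine le_trans (sum_le_sum fun u _ => ?_)
    (ox_om_mul hE (c := 6 * E.C0 * E.H) (by positivity) x)
  split_ifs with h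
  · refine mul_le_mul_of_nonneg_left ?_ (ox_X0 hE u x)
    have h7 : (fun z z' l => 1 / (2 * E.n1) * ∑ a ∈ cN E.N u x, ∑ b ∈ cN E.N u x,
        E.chi E.s a b * (max (E.ga l z z' a b) 0 * (1 + max (E.ga l z z' u x) 0))) =
        fun z z' l => (1 / (2 * E.n1) * ∑ a ∈ cN E.N u x, ∑ b ∈ cN E.N u x,
          E.chi E.s a b * max (E.ga l z z' a b) 0) +
          max (E.ga l z z' u x) 0 * (1 / (2 * E.n1) * ∑ a ∈ cN E.N u x,
            ∑ b ∈ cN E.N u x, E.chi E.s a b * max (E.ga l z z' a b) 0) := by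
      funext z z' l
      simp only [mul_sum, ← sum_add_distrib]
      refine sum_congr rfl fun a _ => sum_congr rfl fun b _ => ?_
      ring
    rw [h7, ox_prd_add]
    have h8 : E.prd (fun z z' l => 1 / (2 * E.n1) * ∑ a ∈ cN E.N u x, ∑ b ∈ cN E.N u x,
        E.chi E.s a b * max (E.ga l z z' a b) 0) ≤ E.C0 * E.H * E.Y E.s u x := by
      rw [ox_prd_mul, ox_prd_sum, GData.os_Y_eq]
      have h9 : ∀ a, E.prd (fun z z' l => ∑ b ∈ cN E.N u x,
          E.chi E.s a b * max (E.ga l z z' a b) 0) ≤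
          ∑ b ∈ cN E.N u x, E.C0 * E.H * E.chi E.s a b := by
        intro a
        rw [ox_prd_sum]
        refine sum_le_sum fun b _ => ?_
        rw [ox_prd_mul]
        have hc := GData.os_chi_nonneg hE.inv.toSInv a b
        have h10 : E.prd (fun z z' l => max (E.ga l z z' a b) 0) ≤ E.C0 * E.H := by
          by_cases ha : E.aw E.s a b
          · refine (ox_boost hE a b).trans ?_
            exact mul_le_mul_of_nonneg_left (hE.inv.nf_Y a b (GData.os_nf_of_aw ha))
              (by linarith)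
          · rw [ox_prd_eq_zero]
            · positivity
            · intro z z' l
              rw [op_ga_not ha]
              simp
        calc E.chi E.s a b * E.prd (fun z z' l => max (E.ga l z z' a b) 0) ≤
              E.chi E.s a b * (E.C0 * E.H) := mul_le_mul_of_nonneg_left h10 hc
          _ = E.C0 * E.H * E.chi E.s a b := by ring
      calc 1 / (2 * E.n1) * ∑ a ∈ cN E.N u x, E.prd (fun z z' l => ∑ b ∈ cN E.N u x,
            E.chi E.s a b * max (E.ga l z z' a b) 0)
          ≤ 1 / (2 * E.n1) * ∑ a ∈ cN E.N u x, ∑ b ∈ cN E.N u x,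
            E.C0 * E.H * E.chi E.s a b := by
            refine mul_le_mul_of_nonneg_left ?_ (by positivity)
            exact sum_le_sum fun a _ => h9 a
        _ = E.C0 * E.H * (1 / (2 * E.n1) * ∑ a ∈ cN E.N u x, ∑ b ∈ cN E.N u x,
            E.chi E.s a b) := by
            simp only [← mul_sum]
            ring
    have hY := ox_Y0 hE u x
    have h9 : E.prd (fun z z' l => max (E.ga l z z' u x) 0 * (1 / (2 * E.n1) *
        ∑ a ∈ cN E.N u x, ∑ b ∈ cN E.N u x, E.chi E.s a b * max (E.ga l z z' a b) 0)) ≤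
        (E.e1 + 2 * E.H + 2 * E.C0 * E.H) * E.Y E.s u x := by
      by_cases ha : E.aw E.s u x
      · exact pp_ga hE ha
      · rw [ox_prd_eq_zero]
        · have := hE.dat.e1_pos
          positivity
        · intro z z' l
          rw [op_ga_not ha]
          simp
    have h10 : E.e1 + 2 * E.H + 2 * E.C0 * E.H ≤ 5 * (E.C0 * E.H) := by
      have h11 := hE.dat.e1_le
      have h12 : E.H ≤ E.C0 * E.H := le_mul_of_one_le_left (by linarith) hC
      linarith
    have h11 := mul_le_mul_of_nonneg_right h10 hY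
    linarith
  · exact le_rfl

end

end GSt

end

end Pool.Agent.AcyG
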