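import Pool.Agent.AcyG.OStatX
import Pool.Agent.AcyG.OPrdX
import Pool.Agent.AcyG.OPrdG

/-! # The Gram matrix after one stage (project MP_af9dfb_G, row OG) -/

set_option autoImplicit false
set_option linter.unusedSectionVars false

namespace Pool.Agent.AcyG

open Finset
open Pool.Agent.Acy (IsPM wt Ex Pr mean)
open Pool.Agent.AcyK (Big StepOK LocOK prodLaw Un Sel updCol HasC cN)
open scoped Classical

universe u v

section

variable {V AL : Type u} [Fintype V] [DecidableEq V] [Fintype AL]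

namespace GRn

variable {Lb : Type u} [Fintype Lb] {E : GRn V Lb AL}

/-- The change of the kernel. -/
theorem og_K (u y : V) : E.K E.next u y = E.K E.s u y + (E.nX u y - E.s.X u y) := by
  unfold GData.K
  split_ifs with h
  · show E.nX u y - 1 = _
    ring
  · rw [op_nX_not (fun h1 => h h1.1)]
    ring

theorem og_ab_nonneg (u y : V) : 0 ≤ E.ab u y := sum_nonneg fun _ _ => abs_nonneg _

/-- Products of effects: the diagonal and the couples. -/
theorem og_ab_mul (hE : E.toGSt.Ok) (x y a b : V) :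
    E.ab x y * E.ab a b ≤ (E.G1 fun z z' l => |E.ga l z z' x y * E.ga l z z' a b|) +
      E.NN x y a b := by
  have h1 := (abs_le.1 (prod_sub_diag (fun e => |E.pa x y e|) fun e => |E.pa a b e|)).2
  have h2 : offs (fun e => |E.pa x y e|) (fun e => |E.pa a b e|) ≤ E.NN x y a b := by
    rw [NN_eq]
    unfold offs
    refine sum_le_sum fun e _ => sum_le_sum fun e' _ => ?_
    split_ifs
    · rw [abs_abs, abs_abs]
      exact mul_le_mul (pa_le hE _ _ _) (pa_le hE _ _ _) (abs_nonneg _) (abs_nonneg _)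
    · exact le_rfl
  have h3 : ∑ e, |E.pa x y e| * |E.pa a b e| =
      E.G1 fun z z' l => |E.ga l z z' x y * E.ga l z z' a b| := by
    rw [G1_eq]
    unfold pa
    refine sum_congr rfl fun e _ => ?_
    split_ifs
    · exact (abs_mul _ _).symm
    · rw [abs_zero, mul_zero]
  unfold ab
  linarith

section
variable (hE : E.Ok)
include hE

theorem og_eta : 0 ≤ 2 * E.C0 * E.H / E.R := by
  have hR := GData.os_R_pos hE.sm.dat
  have hH := hE.sm.dat.H_one
  have hC := hE.sm.dat.C0_one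
  positivity

/-- The change of a weight, first order. -/
theorem og_err (u y : V) : |E.nX u y - E.s.X u y - E.s.X u y * (E.cc u y + E.gg u y)| ≤
    E.s.X u y * (2 * E.C0 * E.H / E.R * E.ab u y + (1 + E.Bx) * E.NN u y u y) := by
  have h0 := GData.os_X_nonneg hE.sm.inv.toSInv u y
  have hη := og_eta hE
  have hA := og_ab_nonneg (E := E) u y
  have hN := NN_nonneg (E := E) u y u y
  have hB := hE.sm.Bx_one
  have hc := op_cc_abs hE u y
  have h00 : 0 ≤ E.s.X u y * (2 * E.C0 * E.H / E.R * E.ab u y + (1 + E.Bx) * E.NN u y u y) := by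
    positivity
  rcases op_nX_cases hE u y with ⟨h1, h2⟩ | ⟨h1, h2, h3⟩ | ⟨h1, h2, h3, h4⟩ | ⟨h1, h2, h3, h4, h5⟩
  · rw [h1, sub_self, zero_sub, abs_neg]
    by_cases ha : E.aw E.s u y
    · have hn : 2 ≤ E.nev u y := h2.resolve_left (fun h => h ha)
      have a1 := nev_le_NN hE.sm hn
      have a2 := gg_abs hE.sm u y
      have a3 := ab_le hE.sm u y
      have a4 := op_cc_half hE u y
      have a5 : (2 : ℝ) ≤ (E.nev u y : ℝ) := by exact_mod_cast hn
      rw [abs_mul, abs_of_nonneg h0]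
      refine mul_le_mul_of_nonneg_left ?_ h0
      have a6 := abs_add_le (E.cc u y) (E.gg u y)
      have a7 : E.Bx * (E.nev u y : ℝ) ≤ E.Bx * E.NN u y u y :=
        mul_le_mul_of_nonneg_left a1 (by linarith)
      have a8 : 0 ≤ 2 * E.C0 * E.H / E.R * E.ab u y := mul_nonneg hη hA
      have a9 : (1 + E.Bx) * E.NN u y u y = E.NN u y u y + E.Bx * E.NN u y u y := by ring
      linarith
    · obtain ⟨a1, a2, _⟩ := not_aw_zero ha
      rw [a1, a2, add_zero, mul_zero, abs_zero]
      exact h00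
  · obtain ⟨a1, _⟩ := nev_zero hE.sm h2
    rw [h3, a1]
    have e : E.s.X u y * (1 + E.cc u y) - E.s.X u y - E.s.X u y * (E.cc u y + 0) = 0 := by ring
    rw [e, abs_zero]
    exact h00
  · rw [h4, h3]
    have a1 : E.ab u y = 1 := by
      rcases nev_one hE.sm h2 h1 with h | h
      · exact h.2
      · linarith [h.1]
    have e : 0 - E.s.X u y - E.s.X u y * (E.cc u y + -1) = E.s.X u y * (-E.cc u y) := by ring
    rw [e, abs_mul, abs_neg, abs_of_nonneg h0, a1, mul_one]
    refine mul_le_mul_of_nonneg_left ?_ h0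
    have a2 : 0 ≤ (1 + E.Bx) * E.NN u y u y := by positivity
    linarith
  · rw [h5]
    have e : E.s.X u y * (1 + E.cc u y + E.gg u y) - E.s.X u y -
        E.s.X u y * (E.cc u y + E.gg u y) = 0 := by ring
    rw [e, abs_zero]
    exact h00

/-- The change of a weight. -/
theorem og_abs (u y : V) : |E.nX u y - E.s.X u y| ≤
    E.s.X u y * ((if E.far u y then 2 * E.C0 * E.H / E.R else 0) + E.ab u y) := by
  have h0 := GData.os_X_nonneg hE.sm.inv.toSInv u y
  have hη := og_eta hE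
  have hA := og_ab_nonneg (E := E) u y
  have hc := op_cc_abs hE u y
  have h00 : 0 ≤ E.s.X u y * ((if E.far u y then 2 * E.C0 * E.H / E.R else 0) + E.ab u y) := by
    split_ifs <;> positivity
  rcases op_nX_cases hE u y with ⟨h1, h2⟩ | ⟨h1, h2, h3⟩ | ⟨h1, h2, h3, h4⟩ | ⟨h1, h2, h3, h4, h5⟩
  · rw [h1, sub_self, abs_zero]
    exact h00
  · rw [h3, if_pos h1.1]
    have e : E.s.X u y * (1 + E.cc u y) - E.s.X u y = E.s.X u y * E.cc u y := by ring
    rw [e, abs_mul, abs_of_nonneg h0]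
    exact mul_le_mul_of_nonneg_left (by linarith) h0
  · rw [h4, if_pos h1.1]
    have a1 : E.ab u y = 1 := by
      rcases nev_one hE.sm h2 h1 with h | h
      · exact h.2
      · linarith [h.1]
    rw [zero_sub, abs_neg, abs_of_nonneg h0, a1]
    exact le_mul_of_one_le_right h0 (by linarith)
  · rw [h5, if_pos h1.1]
    have e : E.s.X u y * (1 + E.cc u y + E.gg u y) - E.s.X u y =
        E.s.X u y * (E.cc u y + E.gg u y) := by ring
    rw [e, abs_mul, abs_of_nonneg h0]
    refine mul_le_mul_of_nonneg_left ?_ h0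
    have a6 := abs_add_le (E.cc u y) (E.gg u y)
    have a2 := gg_abs hE.sm u y
    linarith

theorem og_Kabs (u y : V) : |E.K E.s u y| ≤ E.Kc := by
  have h0 := GData.os_X_nonneg hE.sm.inv.toSInv u y
  have h1 := hE.sm.inv.X_hi u y
  have h2 := GData.os_Kc_one hE.sm.dat
  unfold GData.K
  split_ifs
  · exact abs_le.2 ⟨by linarith, by linarith⟩
  · rw [abs_zero]
    linarith

/-- Number of the effects at a vertex. -/
theorem og_sum_ab (y : V) : ∑ u, E.ab u y ≤ E.T ^ 4001 := by
  have hD := hE.sm.dat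
  have hR := GData.os_R_pos hD
  have hk := GData.os_k_pos hD
  have hK := GData.os_Kc_one hD
  have hT := GData.os_T_pos hD
  have h1 : E.G1 (E.Wx 7 y) = ∑ u, E.ab u y := by
    have e : E.Wx 7 y = fun z z' l => ∑ u, (1 : ℝ) * |E.ga l z z' u y| := by
      rw [GSt.Wx7_eq]
      simp only [one_mul]
    rw [e, G1_lin (fun _ => (1 : ℝ)) fun u z z' l => |E.ga l z z' u y|]
    exact sum_congr rfl fun u _ => by rw [one_mul, ab_eq]
  have h3 := G1_le_prd hE 7 y
  have h4 := GSt.prd_x7 hE.sm y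
  have h5 : E.om E.s y ≤ E.OB := GData.om_le hD hE.sm.inv.toSInv hE.sm.j_lt.le y
  have h6 := GData.OB_le hD
  have hC := hD.C0_one
  have hH := hD.H_one
  have h7 : E.prd (E.Wx 7 y) ≤ E.Kc ^ 2 * (E.R * E.k) := by
    calc E.prd (E.Wx 7 y) ≤ 2 * E.C0 * E.Kc * (E.H * E.n1 / 2000) :=
          h4.trans (mul_le_mul_of_nonneg_left (h5.trans h6) (by positivity))
      _ = (E.C0 * E.H) * (E.Kc / 1000) * (E.R * E.k) := by
          unfold GData.n1
          ring
      _ ≤ E.Kc * E.Kc * (E.R * E.k) := by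
          have a1 := GData.op_C0H hD
          have a2 : E.Kc / 1000 ≤ E.Kc := by linarith
          have a3 : (E.C0 * E.H) * (E.Kc / 1000) ≤ E.Kc * E.Kc :=
            mul_le_mul a1 a2 (by positivity) (by linarith)
          exact mul_le_mul_of_nonneg_right a3 (by positivity)
      _ = _ := by ring
  have h8 : E.prd (E.Wx 7 y) / E.R ≤ E.Kc ^ 2 * E.k := by
    rw [div_le_iff₀ hR]
    linarith
  have h9 : (E.k : ℝ) / E.T ^ 4 ≤ E.k := div_le_self hk.le (one_le_pow₀ (hD.big.one_le))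
  have h10 : E.Kc ^ 3 ≤ E.T := GData.os_Kc_pow_T hD (by norm_num)
  have hK6 := GData.os_Kc_ge hD
  have h11 : E.Kc ^ 2 * E.k + 2 * E.k ≤ E.Kc ^ 3 * E.k := by
    have : E.Kc ^ 2 + 2 ≤ E.Kc ^ 3 := by nlinarith [sq_nonneg E.Kc]
    nlinarith
  rw [← h1]
  calc E.G1 (E.Wx 7 y) ≤ E.Kc ^ 3 * E.k := by linarith
    _ ≤ E.T * E.T ^ 4000 := mul_le_mul h10 hD.k_hi hk.le hT.le
    _ = E.T ^ 4001 := by ring

theorem og_small : 2 * E.C0 * E.H / E.R ≤ 2 * E.Kc / E.T ^ 799 := by
  have hD := hE.sm.dat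
  have hT := GData.os_T_pos hD
  have hK := GData.os_Kc_one hD
  have h1 := GData.op_C0H hD
  have h2 := hD.R_lo
  have e : 2 * E.C0 * E.H = 2 * (E.C0 * E.H) := by ring
  rw [e]
  exact div_le_div₀ (by linarith) (by linarith) (by positivity) h2

/-- Sum of the second order errors at a vertex. -/
theorem og_sum_err (y : V) : ∑ u, E.s.X u y * (2 * E.C0 * E.H / E.R * E.ab u y +
    (1 + E.Bx) * E.NN u y u y) ≤ E.T ^ 3304 := by
  have hD := hE.sm.dat
  have hT := GData.os_T_pos hD
  have hK := GData.os_Kc_one hD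
  have hK6 := GData.os_Kc_ge hD
  have hη := og_eta hE
  have hB := hE.sm.Bx_one
  have hBK := op_Bx_Kc hE
  have h1 : ∑ u, E.s.X u y * (2 * E.C0 * E.H / E.R * E.ab u y +
      (1 + E.Bx) * E.NN u y u y) ≤ ∑ u, E.Kc * (2 * E.Kc / E.T ^ 799 * E.ab u y +
      E.Kc * E.NN u y u y) := by
    refine sum_le_sum fun u _ => ?_
    have hA := og_ab_nonneg (E := E) u y
    have hN := NN_nonneg (E := E) u y u y
    have h0 := GData.os_X_nonneg hE.sm.inv.toSInv u y
    refine mul_le_mul (hE.sm.inv.X_hi u y) (add_le_add ?_ ?_) (by positivity) (by linarith)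
    · exact mul_le_mul_of_nonneg_right (og_small hE) hA
    · exact mul_le_mul_of_nonneg_right (by linarith) hN
  have h2 : ∑ u, E.Kc * (2 * E.Kc / E.T ^ 799 * E.ab u y + E.Kc * E.NN u y u y) =
      E.Kc * (2 * E.Kc / E.T ^ 799 * ∑ u, E.ab u y + E.Kc * ∑ u, E.NN u y u y) := by
    rw [← mul_sum, sum_add_distrib, ← mul_sum, ← mul_sum]
  rw [h2] at h1
  have h3 := og_sum_ab hE y
  have h4 := hE.d0 y
  have h5 : 2 * E.Kc / E.T ^ 799 * ∑ u, E.ab u y ≤ 2 * E.Kc * E.T ^ 3300 := by
    have a1 : 2 * E.Kc / E.T ^ 799 * ∑ u, E.ab u y ≤ 2 * E.Kc / E.T ^ 799 * E.T ^ 4001 :=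
      mul_le_mul_of_nonneg_left h3 (by positivity)
    have a2 : 2 * E.Kc / E.T ^ 799 * E.T ^ 4001 = 2 * E.Kc * E.T ^ 3202 := by
      have : E.T ^ 4001 = E.T ^ 3202 * E.T ^ 799 := by rw [← pow_add]
      rw [this]
      field_simp
    rw [a2] at a1
    exact a1.trans (mul_le_mul_of_nonneg_left (hD.big.pw (by norm_num)) (by positivity))
  have h6 : E.Kc ^ 3 ≤ E.T := GData.os_Kc_pow_T hD (by norm_num)
  calc _ ≤ E.Kc * (2 * E.Kc * E.T ^ 3300 + E.Kc * E.T ^ 3300) := by
        refine h1.trans (mul_le_mul_of_nonneg_left (add_le_add h5 ?_) (by linarith))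
        exact mul_le_mul_of_nonneg_left h4 (by linarith)
    _ = 3 * E.Kc ^ 2 * E.T ^ 3300 := by ring
    _ ≤ E.Kc ^ 3 * E.T ^ 3300 := by
        refine mul_le_mul_of_nonneg_right ?_ (by positivity)
        nlinarith [sq_nonneg E.Kc]
    _ ≤ E.T * E.T ^ 3300 := mul_le_mul_of_nonneg_right h6 (by positivity)
    _ = E.T ^ 3301 := by ring
    _ ≤ E.T ^ 3304 := hD.big.pw (by norm_num)

/-- The first order part. -/
theorem og_first (y y' : V) : |∑ u, (E.s.X u y * (E.cc u y + E.gg u y) * E.K E.s u y' +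
    E.s.X u y' * (E.cc u y' + E.gg u y') * E.K E.s u y)| ≤ E.T ^ 3400 := by
  have h1 := hE.rg 0 y y'
  have e1 : E.Wg 0 y y' = fun z z' l => ∑ p : V × Bool,
      (if p.2 then E.s.X p.1 y * E.K E.s p.1 y' else E.s.X p.1 y' * E.K E.s p.1 y) *
        (if p.2 then E.ga l z z' p.1 y else E.ga l z z' p.1 y') := by
    funext z z' l
    unfold GSt.Wg
    rw [if_pos rfl, Fintype.sum_prod_type]
    refine sum_congr rfl fun u _ => ?_
    rw [Fintype.sum_bool]
    simp only [if_true, Bool.false_eq_true, if_false]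
    ring
  have e2 : ∀ p : V × Bool, (fun (z z' : V) (l : Lb) => if p.2 then E.ga l z z' p.1 y else
      E.ga l z z' p.1 y') = if p.2 then (fun z z' l => E.ga l z z' p.1 y) else
      (fun z z' l => E.ga l z z' p.1 y') := by
    intro p
    split_ifs <;> rfl
  have e3 : E.G1 (E.Wg 0 y y') = ∑ u, (E.s.X u y * E.K E.s u y' * E.gg u y +
      E.s.X u y' * E.K E.s u y * E.gg u y') := by
    rw [e1, G1_lin (fun p : V × Bool => if p.2 then E.s.X p.1 y * E.K E.s p.1 y' else
      E.s.X p.1 y' * E.K E.s p.1 y) fun p z z' l => if p.2 then E.ga l z z' p.1 y else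
      E.ga l z z' p.1 y', Fintype.sum_prod_type]
    refine sum_congr rfl fun u _ => ?_
    rw [Fintype.sum_bool, e2, e2]
    simp only [if_true, Bool.false_eq_true, if_false]
    rfl
  have e4 : E.Cr (E.Wg 0 y y') = ∑ u, (E.s.X u y * E.K E.s u y' * (-E.cc u y) +
      E.s.X u y' * E.K E.s u y * (-E.cc u y')) := by
    rw [e1, Cr_lin (fun p : V × Bool => if p.2 then E.s.X p.1 y * E.K E.s p.1 y' else
      E.s.X p.1 y' * E.K E.s p.1 y) fun p z z' l => if p.2 then E.ga l z z' p.1 y else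
      E.ga l z z' p.1 y', Fintype.sum_prod_type]
    refine sum_congr rfl fun u _ => ?_
    rw [Fintype.sum_bool, e2, e2]
    simp only [if_true, Bool.false_eq_true, if_false]
    unfold cc
    rw [neg_neg, neg_neg]
  have e5 : ∑ u, (E.s.X u y * (E.cc u y + E.gg u y) * E.K E.s u y' +
      E.s.X u y' * (E.cc u y' + E.gg u y') * E.K E.s u y) =
      E.G1 (E.Wg 0 y y') - E.Cr (E.Wg 0 y y') := by
    rw [e3, e4, ← sum_sub_distrib]
    refine sum_congr rfl fun u _ => ?_
    ring
  rw [e5]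
  exact h1

/-- The second order part. -/
theorem og_second (y y' : V) : ∑ u, |(E.nX u y - E.s.X u y) * (E.nX u y' - E.s.X u y')| ≤
    2 * E.gbI y y' + E.T ^ 3415 := by
  have hD := hE.sm.dat
  have hT := GData.os_T_pos hD
  have hT6 := GData.os_T_ge hD
  have hK := GData.os_Kc_one hD
  have hK6 := GData.os_Kc_ge hD
  have hη := og_eta hE
  have hg := op_gbI_nonneg hE y y'
  set η : ℝ := 2 * E.C0 * E.H / E.R with hηd
  have h1 : ∀ u, |(E.nX u y - E.s.X u y) * (E.nX u y' - E.s.X u y')| ≤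
      (if E.far u y then E.Kc ^ 2 * η ^ 2 else 0) + E.Kc ^ 2 * η * (E.ab u y + E.ab u y') +
      (E.s.X u y * E.s.X u y' * (E.G1 fun z z' l => |E.ga l z z' u y * E.ga l z z' u y'|) +
        E.Kc ^ 2 * E.NN u y u y') := by
    intro u
    have a1 := og_abs hE u y
    have a2 := og_abs hE u y'
    have a3 := og_ab_mul hE.sm u y u y'
    have x0 := GData.os_X_nonneg hE.sm.inv.toSInv u y
    have x0' := GData.os_X_nonneg hE.sm.inv.toSInv u y'
    have x1 := hE.sm.inv.X_hi u y
    have x1' := hE.sm.inv.X_hi u y'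
    have hA := og_ab_nonneg (E := E) u y
    have hA' := og_ab_nonneg (E := E) u y'
    have hN := NN_nonneg (E := E) u y u y'
    have hxx : E.s.X u y * E.s.X u y' ≤ E.Kc ^ 2 := by
      rw [pow_two]
      exact mul_le_mul x1 x1' x0' (by linarith)
    have hxx0 : 0 ≤ E.s.X u y * E.s.X u y' := mul_nonneg x0 x0'
    have a4 : (if E.far u y' then η else 0) ≤ η := by
      split_ifs
      · exact le_rfl
      · exact hη
    have a5 : (if E.far u y then η else 0) ≤ η := by
      split_ifs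
      · exact le_rfl
      · exact hη
    have a6 : 0 ≤ (if E.far u y then η else 0) := by
      split_ifs
      · exact hη
      · exact le_rfl
    have a7 : 0 ≤ (if E.far u y' then η else 0) := by
      split_ifs
      · exact hη
      · exact le_rfl
    rw [abs_mul]
    calc |E.nX u y - E.s.X u y| * |E.nX u y' - E.s.X u y'|
        ≤ (E.s.X u y * ((if E.far u y then η else 0) + E.ab u y)) *
          (E.s.X u y' * ((if E.far u y' then η else 0) + E.ab u y')) :=
          mul_le_mul a1 a2 (abs_nonneg _) (mul_nonneg x0 (add_nonneg a6 hA))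
      _ = E.s.X u y * E.s.X u y' * ((if E.far u y then η else 0) *
            (if E.far u y' then η else 0) + (if E.far u y then η else 0) * E.ab u y' +
            (if E.far u y' then η else 0) * E.ab u y) +
          E.s.X u y * E.s.X u y' * (E.ab u y * E.ab u y') := by ring
      _ ≤ E.Kc ^ 2 * ((if E.far u y then η else 0) * η + η * E.ab u y' + η * E.ab u y) +
          E.s.X u y * E.s.X u y' * ((E.G1 fun z z' l => |E.ga l z z' u y * E.ga l z z' u y'|) +
            E.NN u y u y') := by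
          refine add_le_add ?_ (mul_le_mul_of_nonneg_left a3 hxx0)
          refine mul_le_mul hxx ?_ (by positivity) (by positivity)
          refine add_le_add (add_le_add ?_ ?_) ?_
          · exact mul_le_mul_of_nonneg_left a4 a6
          · exact mul_le_mul_of_nonneg_right a5 hA'
          · exact mul_le_mul_of_nonneg_right a4 hA
      _ ≤ _ := by
          have b1 : E.s.X u y * E.s.X u y' * E.NN u y u y' ≤ E.Kc ^ 2 * E.NN u y u y' :=
            mul_le_mul_of_nonneg_right hxx hN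
          have b2 : E.Kc ^ 2 * ((if E.far u y then η else 0) * η) =
              if E.far u y then E.Kc ^ 2 * η ^ 2 else 0 := by
            split_ifs
            · ring
            · ring
          have b3 : E.Kc ^ 2 * ((if E.far u y then η else 0) * η + η * E.ab u y' +
              η * E.ab u y) = E.Kc ^ 2 * ((if E.far u y then η else 0) * η) +
              E.Kc ^ 2 * η * (E.ab u y + E.ab u y') := by ring
          rw [b3, b2, mul_add]
          linarith
  have h2 := sum_le_sum fun u (_ : u ∈ (univ : Finset V)) => h1 u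
  refine h2.trans ?_
  rw [sum_add_distrib, sum_add_distrib, sum_add_distrib, ← mul_sum, ← mul_sum, sum_add_distrib]
  have h3 : ∑ u, (if E.far u y then E.Kc ^ 2 * η ^ 2 else 0) ≤ E.T ^ 3405 := by
    have e : ∑ u, (if E.far u y then E.Kc ^ 2 * η ^ 2 else 0) =
        ((univ.filter fun u => E.far u y).card : ℝ) * (E.Kc ^ 2 * η ^ 2) := by
      rw [← sum_filter, sum_const, nsmul_eq_mul]
    rw [e]
    have a1 := GData.far_card hD y
    have a2 : η ^ 2 ≤ (2 * E.Kc / E.T ^ 799) ^ 2 := pow_le_pow_left₀ hη (og_small hE) 2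
    have a3 : E.Kc ^ 5 ≤ E.T := GData.os_Kc_pow_T hD (by norm_num)
    calc ((univ.filter fun u => E.far u y).card : ℝ) * (E.Kc ^ 2 * η ^ 2)
        ≤ E.T ^ 4815 * (E.Kc ^ 2 * (2 * E.Kc / E.T ^ 799) ^ 2) := by
          refine mul_le_mul a1 ?_ (by positivity) (by positivity)
          exact mul_le_mul_of_nonneg_left a2 (by positivity)
      _ = 4 * E.Kc ^ 4 * E.T ^ 3217 := by
          have : E.T ^ 4815 = E.T ^ 3217 * (E.T ^ 799) ^ 2 := by rw [← pow_mul, ← pow_add]
          rw [this]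
          field_simp
          ring
      _ ≤ E.Kc ^ 5 * E.T ^ 3217 := by
          refine mul_le_mul_of_nonneg_right ?_ (by positivity)
          have : (0 : ℝ) ≤ E.Kc ^ 4 := by positivity
          calc 4 * E.Kc ^ 4 ≤ E.Kc * E.Kc ^ 4 := mul_le_mul_of_nonneg_right (by linarith) this
            _ = E.Kc ^ 5 := by ring
      _ ≤ E.T * E.T ^ 3217 := mul_le_mul_of_nonneg_right a3 (by positivity)
      _ = E.T ^ 3218 := by ring
      _ ≤ E.T ^ 3405 := hD.big.pw (by norm_num)
  have h4 : E.Kc ^ 2 * η * (∑ u, E.ab u y + ∑ u, E.ab u y') ≤ E.T ^ 3405 := by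
    have a1 := og_sum_ab hE y
    have a2 := og_sum_ab hE y'
    have a3 : E.Kc ^ 4 ≤ E.T := GData.os_Kc_pow_T hD (by norm_num)
    calc E.Kc ^ 2 * η * (∑ u, E.ab u y + ∑ u, E.ab u y')
        ≤ E.Kc ^ 2 * (2 * E.Kc / E.T ^ 799) * (E.T ^ 4001 + E.T ^ 4001) := by
          refine mul_le_mul ?_ (add_le_add a1 a2) (add_nonneg (sum_nonneg fun u _ =>
            og_ab_nonneg u y) (sum_nonneg fun u _ => og_ab_nonneg u y')) (by positivity)
          exact mul_le_mul_of_nonneg_left (og_small hE) (by positivity)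
      _ = 4 * E.Kc ^ 3 * E.T ^ 3202 := by
          have : E.T ^ 4001 = E.T ^ 3202 * E.T ^ 799 := by rw [← pow_add]
          rw [this]
          field_simp
          ring
      _ ≤ E.Kc ^ 4 * E.T ^ 3202 := by
          refine mul_le_mul_of_nonneg_right ?_ (by positivity)
          have : (0 : ℝ) ≤ E.Kc ^ 3 := by positivity
          calc 4 * E.Kc ^ 3 ≤ E.Kc * E.Kc ^ 3 := mul_le_mul_of_nonneg_right (by linarith) this
            _ = E.Kc ^ 4 := by ring
      _ ≤ E.T * E.T ^ 3202 := mul_le_mul_of_nonneg_right a3 (by positivity)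
      _ = E.T ^ 3203 := by ring
      _ ≤ E.T ^ 3405 := hD.big.pw (by norm_num)
  have h5 : ∑ u, E.s.X u y * E.s.X u y' *
      (E.G1 fun z z' l => |E.ga l z z' u y * E.ga l z z' u y'|) = E.G1 (E.Wg 1 y y') := by
    rw [GSt.op2_Wg1 hE.sm, G1_lin (fun u => E.s.X u y * E.s.X u y')
      fun u z z' l => |E.ga l z z' u y * E.ga l z z' u y'|]
  have h6 : E.G1 (E.Wg 1 y y') ≤ 2 * E.gbI y y' + E.T ^ 3400 + E.T ^ 3410 := by
    have a1 := (abs_le.1 (hE.rg 1 y y')).2
    have a2 := (abs_le.1 (hE.rgp y y')).2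
    have a3 : E.gbI y y' / E.T ^ 6 ≤ E.gbI y y' :=
      div_le_self hg (one_le_pow₀ (hD.big.one_le))
    linarith
  have h7 : E.Kc ^ 2 * ∑ u, E.NN u y u y' ≤ E.T ^ 3405 := by
    have a1 := hE.dg y y'
    have a3 : E.Kc ^ 2 ≤ E.T := GData.os_Kc_pow_T hD (by norm_num)
    calc E.Kc ^ 2 * ∑ u, E.NN u y u y' ≤ E.T * E.T ^ 3300 :=
          mul_le_mul a3 a1 (sum_nonneg fun u _ => NN_nonneg _ _ _ _) hT.le
      _ = E.T ^ 3301 := by ring
      _ ≤ E.T ^ 3405 := hD.big.pw (by norm_num)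
  rw [h5]
  have h8 : E.T ^ 3405 ≤ E.T ^ 3410 := hD.big.pw (by norm_num)
  have h9 : E.T ^ 3400 ≤ E.T ^ 3410 := hD.big.pw (by norm_num)
  have h10 : 5 * E.T ^ 3410 ≤ E.T ^ 3415 := by
    have e : E.T ^ 3415 = E.T ^ 5 * E.T ^ 3410 := by rw [← pow_add]
    rw [e]
    refine mul_le_mul_of_nonneg_right ?_ (by positivity)
    have : E.T ^ 1 ≤ E.T ^ 5 := hD.big.pw (by norm_num)
    rw [pow_one] at this
    linarith
  linarith

theorem gram_next {y y' : V} (h : y ≠ y') :
    |E.Gr E.next y y'| ≤ |E.Gr E.s y y'| + 2 * E.gbI y y' + E.T ^ 3420 := by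
  have hD := hE.sm.dat
  have hT := GData.os_T_pos hD
  have hT6 := GData.os_T_ge hD
  have hK := GData.os_Kc_one hD
  have h1 : E.Gr E.next y y' = E.Gr E.s y y' +
      ∑ u, (E.s.X u y * (E.cc u y + E.gg u y) * E.K E.s u y' +
        E.s.X u y' * (E.cc u y' + E.gg u y') * E.K E.s u y) +
      (∑ u, ((E.nX u y - E.s.X u y - E.s.X u y * (E.cc u y + E.gg u y)) * E.K E.s u y' +
        (E.nX u y' - E.s.X u y' - E.s.X u y' * (E.cc u y' + E.gg u y')) * E.K E.s u y) +
      ∑ u, (E.nX u y - E.s.X u y) * (E.nX u y' - E.s.X u y')) := by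
    unfold GData.Gr
    rw [← sum_add_distrib, ← sum_add_distrib, ← sum_add_distrib]
    refine sum_congr rfl fun u _ => ?_
    rw [og_K, og_K]
    ring
  have h2 := og_first hE y y'
  have h3 := (abs_sum_le_sum_abs (fun u => (E.nX u y - E.s.X u y) * (E.nX u y' - E.s.X u y'))
    univ).trans (og_second hE y y')
  have h4 : |∑ u, ((E.nX u y - E.s.X u y - E.s.X u y * (E.cc u y + E.gg u y)) * E.K E.s u y' +
      (E.nX u y' - E.s.X u y' - E.s.X u y' * (E.cc u y' + E.gg u y')) * E.K E.s u y)| ≤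
      2 * E.Kc * E.T ^ 3304 := by
    refine (abs_sum_le_sum_abs _ _).trans ?_
    have a1 : ∀ u, |(E.nX u y - E.s.X u y - E.s.X u y * (E.cc u y + E.gg u y)) * E.K E.s u y' +
        (E.nX u y' - E.s.X u y' - E.s.X u y' * (E.cc u y' + E.gg u y')) * E.K E.s u y| ≤
        E.Kc * (E.s.X u y * (2 * E.C0 * E.H / E.R * E.ab u y + (1 + E.Bx) * E.NN u y u y)) +
        E.Kc * (E.s.X u y' * (2 * E.C0 * E.H / E.R * E.ab u y' +
          (1 + E.Bx) * E.NN u y' u y')) := by
      intro u
      refine (abs_add_le _ _).trans (add_le_add ?_ ?_)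
      · rw [abs_mul, mul_comm]
        exact mul_le_mul (og_Kabs hE u y') (og_err hE u y) (abs_nonneg _) (by linarith)
      · rw [abs_mul, mul_comm]
        exact mul_le_mul (og_Kabs hE u y) (og_err hE u y') (abs_nonneg _) (by linarith)
    refine (sum_le_sum fun u _ => a1 u).trans ?_
    rw [sum_add_distrib, ← mul_sum, ← mul_sum]
    have a2 := mul_le_mul_of_nonneg_left (og_sum_err hE y) (show 0 ≤ E.Kc by linarith)
    have a3 := mul_le_mul_of_nonneg_left (og_sum_err hE y') (show 0 ≤ E.Kc by linarith)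
    linarith
  rw [h1]
  refine (abs_add_three _ _ _).trans ?_
  have h5 := abs_add_le (∑ u, ((E.nX u y - E.s.X u y - E.s.X u y * (E.cc u y + E.gg u y)) *
      E.K E.s u y' + (E.nX u y' - E.s.X u y' - E.s.X u y' * (E.cc u y' + E.gg u y')) *
      E.K E.s u y)) (∑ u, (E.nX u y - E.s.X u y) * (E.nX u y' - E.s.X u y'))
  have h6 : E.Kc ≤ E.T := GData.os_Kc_T hD
  have h7 : 2 * E.Kc * E.T ^ 3304 ≤ 2 * E.T ^ 3415 := by
    have : E.Kc * E.T ^ 3304 ≤ E.T ^ 3415 := by
      calc E.Kc * E.T ^ 3304 ≤ E.T * E.T ^ 3304 := mul_le_mul_of_nonneg_right h6 (by positivity)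
        _ = E.T ^ 3305 := by ring
        _ ≤ E.T ^ 3415 := hD.big.pw (by norm_num)
    linarith
  have h8 : E.T ^ 3400 ≤ E.T ^ 3415 := hD.big.pw (by norm_num)
  have h9 : 4 * E.T ^ 3415 ≤ E.T ^ 3420 := by
    have e : E.T ^ 3420 = E.T ^ 5 * E.T ^ 3415 := by rw [← pow_add]
    rw [e]
    refine mul_le_mul_of_nonneg_right ?_ (by positivity)
    have : E.T ^ 1 ≤ E.T ^ 5 := hD.big.pw (by norm_num)
    rw [pow_one] at this
    linarith
  linarith

theorem gbrow_next (y : V) : ∑ y', E.next.GB y y' ≤ ∑ y', E.s.GB y y' +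
    1 / E.R * (E.T ^ 2404 * E.OB) := by
  have hD := hE.sm.dat
  have hR := GData.os_R_pos hD
  have h1 : ∑ y', E.next.GB y y' = ∑ y', E.s.GB y y' + 1 / E.R * ∑ y', E.prd (E.Wg 1 y y') := by
    rw [mul_sum, ← sum_add_distrib]
    refine sum_congr rfl fun y' _ => ?_
    show E.s.GB y y' + E.gbI y y' = _
    unfold GSt.gbI
    ring
  rw [h1]
  have h2 := mul_le_mul_of_nonneg_left (GSt.prd_g1_row hE.sm y)
    (show 0 ≤ 1 / E.R by positivity)
  linarith

end

end GRn

end

end Pool.Agent.AcyG
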