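import Pool.Agent.AcyG.OPtw
import Pool.Agent.AcyG.OStatA

/-! # Outer process: the invariants after a stage (project MP_af9dfb_G, row OI) -/

set_option autoImplicit false
set_option linter.unusedSectionVars false

namespace Pool.Agent.AcyG

open Finset
open Pool.Agent.Acy (IsPM wt Ex Pr mean)
open Pool.Agent.AcyK (Big StepOK LocOK prodLaw Un Sel updCol HasC cN)
open scoped Classical

universe u v

section

variable {V AL : Type u} [Fintype V] [DecidableEq V] [Fintype AL]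

namespace GRn

variable {Lb : Type u} [Fintype Lb] {E : GRn V Lb AL}

theorem oi_k3 (hD : E.toGSm.toGSt.toGData.Ok) : (E.k : ℝ) / E.T ^ 3 ≤ E.k / E.T ^ 2 := by
  have hT := GData.os_T_ge hD
  have hk := GData.os_k_pos hD
  refine div_le_div_of_nonneg_left hk.le (by positivity) ?_
  exact pow_le_pow_right₀ (by linarith) (by norm_num)

theorem oi_OB (hD : E.toGSm.toGSt.toGData.Ok) : 0 < E.OB := by
  have h1 := GData.OB_ge hD
  have h2 := GData.os_n1_pos hD
  linarith

theorem oi_mod (hD : E.toGSm.toGSt.toGData.Ok) : ((E.j % E.LI : ℕ) : ℝ) ≤ E.LI := by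
  exact_mod_cast (Nat.mod_lt _ hD.LI_pos).le

/-- `LI k / T ^ 2` in terms of `OB`. -/
theorem oi_LIk (hD : E.toGSm.toGSt.toGData.Ok) :
    (E.LI : ℝ) * (E.k / E.T ^ 2) ≤ (E.LI / E.R) * E.OB := by
  have hT := GData.os_T_ge hD
  have hk := GData.os_k_pos hD
  have hR := GData.os_R_pos hD
  have h1 := GData.OB_ge hD
  have hn := GData.os_n1_pos hD
  have h2 : (E.k : ℝ) / E.T ^ 2 * E.R ≤ E.OB := by
    have e1 : (E.k : ℝ) / E.T ^ 2 * E.R = E.n1 / E.T ^ 2 := by
      unfold GData.n1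
      ring
    rw [e1]
    refine le_trans ?_ h1
    exact div_le_div_of_nonneg_left hn.le (by norm_num) (by nlinarith)
  have h3 : (E.k : ℝ) / E.T ^ 2 ≤ E.OB / E.R := by
    rw [le_div_iff₀ hR]
    exact h2
  calc (E.LI : ℝ) * (E.k / E.T ^ 2) ≤ E.LI * (E.OB / E.R) :=
        mul_le_mul_of_nonneg_left h3 (Nat.cast_nonneg _)
    _ = (E.LI / E.R) * E.OB := by ring

/-- The invariants after the stage, from the estimates of the statistics. -/
theorem inv_next_of (hE : E.Ok)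
    (hom : ∀ x, E.om E.next x ≤ E.om E.s x +
      1 / E.R * ((E.e1 + 2 / E.T ^ 20) * E.om E.s x + E.H * E.AY E.s x) + E.k / E.T ^ 3)
    (hAS : ∀ x, E.AS E.next x ≤ E.AS E.s x + 1 / E.R * (5 * E.C0 * E.OB) + E.k / E.T ^ 3)
    (hAY : ∀ x, E.AY E.next x ≤ E.AY E.s x + 1 / E.R * (29 * E.C0 * E.H * E.OB) +
      E.k / E.T ^ 3)
    (hFO : ∀ x, E.FO E.next x ≤ E.FO E.s x + 1 / E.R * (E.H * E.AS E.s x) + E.k / E.T ^ 3)
    (hCH : ∀ x, E.CH E.next x ≤ E.CH E.s x + 1 / E.R * (5 * E.C0 * E.Kc * E.OB) +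
      E.k / E.T ^ 3)
    (hgram : ∀ y y', y ≠ y' →
      |E.Gr E.next y y'| ≤ |E.Gr E.s y y'| + 2 * E.gbI y y' + E.T ^ 3420)
    (hgb : ∀ y, ∑ y', E.next.GB y y' ≤ ∑ y', E.s.GB y y' + 1 / E.R * (E.T ^ 2404 * E.OB))
    (hlin : ∀ α, E.Lin E.next α ≤ E.Lin E.s α + E.La α / E.T ^ 861)
    (hmon : ∀ α, E.Mon E.nC α ≤ E.Mon E.C α + 1 / E.R * (101 / 100 * E.La α / E.n1))
    (hun : ∀ v, E.un E.nC v ≤ E.un E.C v * (1 - 94 / 100 / E.R) + E.T ^ 1600) :
    E.toGData.SInv E.W0 E.W1 (E.j + 1) E.next E.nC := by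
  have hp := op_next hE
  have hD := hE.sm.dat
  have hI := hE.sm.inv
  have hjN : E.j ≤ E.NS := hE.sm.j_lt.le
  have hT := GData.os_T_ge hD
  have hT0 : 0 < E.T := by linarith
  have hk := GData.os_k_pos hD
  have hR := GData.os_R_pos hD
  have hO := oi_OB hD
  have hk3 := oi_k3 hD
  have hm := oi_mod hD
  have hLk := oi_LIk hD
  have hH := hD.H_one
  have hC := hD.C0_one
  have hK1 := GData.os_Kc_one hD
  have hKT := GData.os_Kc_T hD
  have he0 := hD.e1_pos
  have hLI0 : (0 : ℝ) ≤ E.LI := Nat.cast_nonneg _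
  have hkT : (0 : ℝ) ≤ E.k / E.T ^ 2 := by positivity
  have hm0 : (0 : ℝ) ≤ ((E.j % E.LI : ℕ) : ℝ) := Nat.cast_nonneg _
  have hR1 : 0 ≤ 1 / E.R := by positivity
  have hCO : 0 ≤ E.C0 * E.OB := by positivity
  have hCHO : 0 ≤ E.C0 * E.H * E.OB := by positivity
  -- bounds for `AS`, `AY` before the stage
  have hAS1 : ∀ x, E.AS E.s x ≤ (E.LI / E.R) * (6 * E.C0 * E.OB) + E.LI * (E.k / E.T ^ 2) := by
    intro x
    refine (hI.AS' x).trans (add_le_add ?_ ?_)
    · refine mul_le_mul_of_nonneg_right ?_ (by positivity)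
      gcongr
    · exact mul_le_mul_of_nonneg_right hm hkT
  have hAY1 : ∀ x, E.AY E.s x ≤
      (E.LI / E.R) * (30 * E.C0 * E.H * E.OB) + E.LI * (E.k / E.T ^ 2) := by
    intro x
    refine (hI.AY' x).trans (add_le_add ?_ ?_)
    · refine mul_le_mul_of_nonneg_right ?_ (by positivity)
      gcongr
    · exact mul_le_mul_of_nonneg_right hm hkT
  -- the next index
  have hmod : ((E.j + 1) % E.LI = E.j % E.LI + 1) ∨
      ((E.j + 1) % E.LI = 0 ∧ E.LI = E.j % E.LI + 1) := by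
    have h1 := hD.LI_pos
    have h2 := Nat.mod_lt E.j h1
    rcases Nat.lt_or_ge (E.j % E.LI + 1) E.LI with h3 | h3
    · left
      rw [Nat.add_mod, Nat.mod_eq_of_lt (show 1 < E.LI by omega), Nat.mod_eq_of_lt h3]
    · right
      have h4 : E.LI = E.j % E.LI + 1 := by omega
      refine ⟨?_, h4⟩
      have h5 := Nat.div_add_mod E.j E.LI
      have h6 : E.j + 1 = E.LI * (E.j / E.LI + 1) := by
        rw [Nat.mul_add, Nat.mul_one]
        omega
      rw [h6]
      exact Nat.mul_mod_right _ _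
  refine
    { X_symm := hp.X_symm
      st_symm := hp.st_symm
      GB_symm := hp.GB_symm
      ch_symm := hp.ch_symm
      X_lo := hp.X_lo
      X_hi := hp.X_hi
      X_act := hp.X_act
      X_asl := hp.X_asl
      GB_nonneg := hp.GB_nonneg
      ch_nonneg := hp.ch_nonneg
      ch_dead := hp.ch_dead
      ch_log := hp.ch_log
      fr_ne := hp.fr_ne
      inj := hp.inj
      C_lt := hp.C_lt
      om := fun x => ?_
      AS := fun x => ?_
      AY := fun x => ?_
      FO := fun x => ?_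
      CH := fun x => ?_
      gram := fun y y' h => ?_
      gbrow := fun y => ?_
      lin := fun i => ?_
      mon := fun i => ?_
      un := fun v => ?_ }
  · -- om
    have h1 := hom x
    have h2 := hI.om x
    have h3 := GData.om_le hD hI.toSInv hjN x
    have h4 := hAY1 x
    have h5 : 2 / E.T ^ 20 ≤ E.e1 := by
      have a1 : 1 / E.T ≤ E.e1 := by
        rw [div_le_iff₀ hT0]
        have := hD.e1_lo
        nlinarith
      refine le_trans ?_ a1
      rw [div_le_div_iff₀ (by positivity) hT0]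
      have a2 : E.T ^ 2 ≤ E.T ^ 20 := pow_le_pow_right₀ (by linarith) (by norm_num)
      nlinarith
    have h6 : (E.e1 + 2 / E.T ^ 20) * E.om E.s x ≤ 2 * E.e1 * E.OB := by
      have a1 : 0 ≤ E.e1 + 2 / E.T ^ 20 := by positivity
      calc (E.e1 + 2 / E.T ^ 20) * E.om E.s x ≤ (E.e1 + 2 / E.T ^ 20) * E.OB :=
            mul_le_mul_of_nonneg_left h3 a1
        _ ≤ 2 * E.e1 * E.OB := mul_le_mul_of_nonneg_right (by linarith) hO.le
    have h7 : E.H * E.AY E.s x ≤ 2 * E.H * (40 * E.C0 * E.H) * (E.LI / E.R) * E.OB := by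
      have a0 : 0 ≤ (E.LI / E.R) * E.OB := by positivity
      have a1 : 1 ≤ E.C0 * E.H := one_le_mul_of_one_le_of_one_le hC hH
      have a2 : E.AY E.s x ≤ (31 * (E.C0 * E.H)) * ((E.LI / E.R) * E.OB) := by
        have : 1 * ((E.LI / E.R) * E.OB) ≤ (E.C0 * E.H) * ((E.LI / E.R) * E.OB) :=
          mul_le_mul_of_nonneg_right a1 a0
        have e0 : (E.LI / E.R) * (30 * E.C0 * E.H * E.OB) =
          30 * ((E.C0 * E.H) * ((E.LI / E.R) * E.OB)) := by ring
        rw [e0] at h4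
        linarith
      have a3 := mul_le_mul_of_nonneg_left a2 (show 0 ≤ E.H by linarith)
      have a4 : 0 ≤ E.H * ((E.C0 * E.H) * ((E.LI / E.R) * E.OB)) := by positivity
      have e1 : E.H * ((31 * (E.C0 * E.H)) * ((E.LI / E.R) * E.OB)) =
        31 * (E.H * ((E.C0 * E.H) * ((E.LI / E.R) * E.OB))) := by ring
      have e2 : 2 * E.H * (40 * E.C0 * E.H) * (E.LI / E.R) * E.OB =
        80 * (E.H * ((E.C0 * E.H) * ((E.LI / E.R) * E.OB))) := by ring
      rw [e1] at a3
      rw [e2]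
      linarith
    have h8 : 1 / E.R * ((E.e1 + 2 / E.T ^ 20) * E.om E.s x + E.H * E.AY E.s x) ≤
        1 / E.R * ((2 * E.e1 + 2 * E.H * (40 * E.C0 * E.H) * (E.LI / E.R)) * E.OB) := by
      refine mul_le_mul_of_nonneg_left ?_ hR1
      linarith
    have e3 : ((E.j + 1 : ℕ) / E.R) * ((2 * E.e1 + 2 * E.H * (40 * E.C0 * E.H) *
        (E.LI / E.R)) * E.OB) = (E.j / E.R) * ((2 * E.e1 + 2 * E.H * (40 * E.C0 * E.H) *
        (E.LI / E.R)) * E.OB) + 1 / E.R * ((2 * E.e1 + 2 * E.H * (40 * E.C0 * E.H) *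
        (E.LI / E.R)) * E.OB) := by
      push_cast
      ring
    rw [e3]
    push_cast
    linarith
  · -- AS
    have h1 := hAS x
    have h2 := hI.AS' x
    have h3 : 1 / E.R * (5 * E.C0 * E.OB) ≤ 1 / E.R * (6 * E.C0 * E.OB) :=
      mul_le_mul_of_nonneg_left (by linarith) hR1
    have e1 : ((((E.j % E.LI : ℕ) : ℝ) + 1) / E.R) * (6 * E.C0 * E.OB) =
      (((E.j % E.LI : ℕ) : ℝ) / E.R) * (6 * E.C0 * E.OB) + 1 / E.R * (6 * E.C0 * E.OB) := by
      ring
    have h4 : E.AS E.next x ≤ ((((E.j % E.LI : ℕ) : ℝ) + 1) / E.R) * (6 * E.C0 * E.OB) +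
        (((E.j % E.LI : ℕ) : ℝ) + 1) * (E.k / E.T ^ 2) := by
      rw [e1]
      linarith
    rcases hmod with h5 | ⟨h5, h6⟩
    · left
      rw [h5]
      push_cast
      exact h4
    · right
      refine ⟨h5, ?_⟩
      have e2 : (E.LI : ℝ) = ((E.j % E.LI : ℕ) : ℝ) + 1 := by exact_mod_cast h6
      rw [e2]
      exact h4
  · -- AY
    have h1 := hAY x
    have h2 := hI.AY' x
    have h3 : 1 / E.R * (29 * E.C0 * E.H * E.OB) ≤ 1 / E.R * (30 * E.C0 * E.H * E.OB) :=
      mul_le_mul_of_nonneg_left (by linarith) hR1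
    have e1 : ((((E.j % E.LI : ℕ) : ℝ) + 1) / E.R) * (30 * E.C0 * E.H * E.OB) =
      (((E.j % E.LI : ℕ) : ℝ) / E.R) * (30 * E.C0 * E.H * E.OB) +
        1 / E.R * (30 * E.C0 * E.H * E.OB) := by ring
    have h4 : E.AY E.next x ≤ ((((E.j % E.LI : ℕ) : ℝ) + 1) / E.R) *
        (30 * E.C0 * E.H * E.OB) + (((E.j % E.LI : ℕ) : ℝ) + 1) * (E.k / E.T ^ 2) := by
      rw [e1]
      linarith
    rcases hmod with h5 | ⟨h5, h6⟩
    · left
      rw [h5]
      push_cast
      exact h4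
    · right
      refine ⟨h5, ?_⟩
      have e2 : (E.LI : ℝ) = ((E.j % E.LI : ℕ) : ℝ) + 1 := by exact_mod_cast h6
      rw [e2]
      exact h4
  · -- FO
    have h1 := hFO x
    have h2 := hI.FO x
    have h3 := hAS1 x
    set Z : ℝ := (E.LI / E.R) * (6 * E.C0 * E.OB) + E.LI * (E.k / E.T ^ 2) with hZ
    have hZ0 : 0 ≤ Z := by positivity
    have h4 : 1 / E.R * (E.H * E.AS E.s x) ≤ 1 / E.R * (2 * E.H * Z) := by
      refine mul_le_mul_of_nonneg_left ?_ hR1
      have a1 := mul_le_mul_of_nonneg_left h3 (show 0 ≤ E.H by linarith)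
      have a2 : 0 ≤ E.H * Z := by positivity
      linarith
    have e1 : ((E.j + 1 : ℕ) / E.R) * (2 * E.H * Z) =
      (E.j / E.R) * (2 * E.H * Z) + 1 / E.R * (2 * E.H * Z) := by
      push_cast
      ring
    rw [e1]
    push_cast
    linarith
  · -- CH
    have h1 := hCH x
    have h2 := hI.CH x
    have h3 : 1 / E.R * (5 * E.C0 * E.Kc * E.OB) ≤ 1 / E.R * (6 * E.C0 * E.Kc * E.OB) := by
      refine mul_le_mul_of_nonneg_left ?_ hR1
      have : 0 ≤ E.C0 * E.Kc * E.OB := by positivity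
      linarith
    have e1 : ((E.j + 1 : ℕ) / E.R) * (6 * E.C0 * E.Kc * E.OB) =
      (E.j / E.R) * (6 * E.C0 * E.Kc * E.OB) + 1 / E.R * (6 * E.C0 * E.Kc * E.OB) := by
      push_cast
      ring
    rw [e1]
    push_cast
    linarith
  · -- gram
    have h1 := hgram y y' h
    have h2 := hI.gram y y' h
    have e1 : E.next.GB y y' = E.s.GB y y' + E.gbI y y' := rfl
    rw [e1]
    push_cast
    linarith
  · -- gbrow
    have h1 := hgb y
    have h2 := hI.gbrow y
    have e1 : ((E.j + 1 : ℕ) / E.R) * (E.T ^ 2404 * E.OB) =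
      (E.j / E.R) * (E.T ^ 2404 * E.OB) + 1 / E.R * (E.T ^ 2404 * E.OB) := by
      push_cast
      ring
    rw [e1]
    linarith
  · -- lin
    have h1 := hlin i
    have h2 := hI.lin i
    have hLa : 0 ≤ E.La i := by
      have a1 := hD.num0 i
      have a2 := hD.s0_pos i
      have a3 : 0 ≤ E.T ^ 5970 * E.s0 i := by positivity
      linarith
    have h3 : E.La i / E.T ^ 861 ≤ E.La i / E.T ^ 860 :=
      div_le_div_of_nonneg_left hLa (by positivity)
        (pow_le_pow_right₀ (by linarith) (by norm_num))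
    have e1 : E.La i * (1 + ((E.j + 1 : ℕ) : ℝ) / E.T ^ 860) =
      E.La i * (1 + (E.j : ℝ) / E.T ^ 860) + E.La i / E.T ^ 860 := by
      push_cast
      ring
    rw [e1]
    linarith
  · -- mon
    have h1 := hmon i
    have h2 := hI.mon i
    have e1 : ((E.j + 1 : ℕ) / E.R) * (101 / 100 * E.La i / E.n1) =
      (E.j / E.R) * (101 / 100 * E.La i / E.n1) + 1 / E.R * (101 / 100 * E.La i / E.n1) := by
      push_cast
      ring
    rw [e1]
    linarith
  · -- un
    have h1 := hun v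
    have h2 := hI.un v
    have hR2 : 1 ≤ E.R := le_trans (one_le_pow₀ (by linarith)) hD.R_lo
    have a1 : 0 ≤ 1 - 94 / 100 / E.R := by
      have : 94 / 100 / E.R ≤ 1 := by
        rw [div_le_one hR]
        linarith
      linarith
    have a2 : 1 - 94 / 100 / E.R ≤ 1 := by
      have : 0 ≤ 94 / 100 / E.R := by positivity
      linarith
    have a3 := mul_le_mul_of_nonneg_right h2 a1
    have a4 : (E.j : ℝ) * E.T ^ 1600 * (1 - 94 / 100 / E.R) ≤ E.j * E.T ^ 1600 :=
      mul_le_of_le_one_right (by positivity) a2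
    rw [pow_succ (1 - 94 / 100 / E.R) E.j]
    push_cast
    have e1 : (E.T ^ 3600 * (1 - 94 / 100 / E.R) ^ E.j + E.j * E.T ^ 1600) *
        (1 - 94 / 100 / E.R) = E.T ^ 3600 * ((1 - 94 / 100 / E.R) ^ E.j *
        (1 - 94 / 100 / E.R)) + E.j * E.T ^ 1600 * (1 - 94 / 100 / E.R) := by ring
    rw [e1] at a3
    linarith

end GRn

end

end Pool.Agent.AcyG
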