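import Pool.Agent.AcyG.OSite

/-! # The change of a product of two weights in one stage (project MP_af9dfb_G, part O) -/

set_option autoImplicit false
set_option linter.unusedSectionVars false

namespace Pool.Agent.AcyG

open Finset
open Pool.Agent.AcyK (cN)
open scoped Classical

universe u v

/-! ### Vectors of effects -/

section vec

variable {ι : Type*} [Fintype ι]

/-- Sum over the couples of different indices. -/
noncomputable def offs (p q : ι → ℝ) : ℝ := ∑ e, ∑ e', if e ≠ e' then |p e| * |q e'| else 0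

theorem offs_nonneg (p q : ι → ℝ) : 0 ≤ offs p q := by
  unfold offs
  refine sum_nonneg fun e _ => sum_nonneg fun e' _ => ?_
  split_ifs
  · positivity
  · exact le_rfl

theorem offs_comm (p q : ι → ℝ) : offs p q = offs q p := by
  unfold offs
  rw [sum_comm]
  refine sum_congr rfl fun e _ => sum_congr rfl fun e' _ => ?_
  by_cases h : e = e'
  · rw [if_neg (by simp [h]), if_neg (by simp [h])]
  · rw [if_pos h, if_pos (fun h' => h h'.symm), mul_comm]

theorem prod_sub_diag (p q : ι → ℝ) :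
    |(∑ e, p e) * (∑ e, q e) - ∑ e, p e * q e| ≤ offs p q := by
  have h1 : (∑ e, p e) * (∑ e, q e) - ∑ e, p e * q e =
      ∑ e, ∑ e', if e ≠ e' then p e * q e' else 0 := by
    rw [Finset.sum_mul_sum, ← Finset.sum_sub_distrib]
    refine sum_congr rfl fun e _ => ?_
    have h2 : ∑ e', (if e ≠ e' then p e * q e' else 0) =
        ∑ e', (p e * q e' - if e = e' then p e * q e' else 0) := by
      refine sum_congr rfl fun e' _ => ?_
      by_cases h : e = e'
      · rw [if_neg (by simp [h]), if_pos h, sub_self]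
      · rw [if_pos h, if_neg h, sub_zero]
    rw [h2, sum_sub_distrib, sum_ite_eq univ e]
    simp
  rw [h1]
  unfold offs
  refine (abs_sum_le_sum_abs _ _).trans (sum_le_sum fun e _ => ?_)
  refine (abs_sum_le_sum_abs _ _).trans (sum_le_sum fun e' _ => ?_)
  split_ifs
  · exact (abs_mul _ _).le
  · simp

variable {p q : ι → ℝ}

theorem card_le_sum (hp : ∀ e, p e = 0 ∨ 1 ≤ |p e|) :
    ((univ.filter fun e => p e ≠ 0).card : ℝ) ≤ ∑ e, |p e| := by
  have h1 : ((univ.filter fun e => p e ≠ 0).card : ℝ) = ∑ e, if p e ≠ 0 then (1 : ℝ) else 0 := by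
    rw [sum_boole]
  rw [h1]
  refine sum_le_sum fun e _ => ?_
  rcases hp e with h | h
  · rw [if_neg (by simp [h]), h, abs_zero]
  · split_ifs
    · exact h
    · exact abs_nonneg _

theorem sum_le_card {B : ℝ} (hB : ∀ e, |p e| ≤ B) :
    ∑ e, |p e| ≤ B * ((univ.filter fun e => p e ≠ 0).card : ℝ) := by
  have h1 : ((univ.filter fun e => p e ≠ 0).card : ℝ) = ∑ e, if p e ≠ 0 then (1 : ℝ) else 0 := by
    rw [sum_boole]
  rw [h1, mul_sum]
  refine sum_le_sum fun e _ => ?_
  split_ifs with h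
  · rw [mul_one]
    exact hB e
  · push Not at h
    rw [h, abs_zero, mul_zero]

theorem card_sq_le (hp : ∀ e, p e = 0 ∨ 1 ≤ |p e|) (hq : ∀ e, q e = 0 ∨ 1 ≤ |q e|) :
    ((univ.filter fun e => p e ≠ 0).card : ℝ) * ((univ.filter fun e => q e ≠ 0).card : ℝ) -
      ((univ.filter fun e => p e ≠ 0).card : ℝ) ≤ offs p q := by
  have h1 : ∀ r : ι → ℝ, ((univ.filter fun e => r e ≠ 0).card : ℝ) =
      ∑ e, if r e ≠ 0 then (1 : ℝ) else 0 := fun r => by rw [sum_boole]
  rw [h1 p, h1 q, Finset.sum_mul_sum, ← Finset.sum_sub_distrib]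
  unfold offs
  refine sum_le_sum fun e _ => ?_
  by_cases he : p e ≠ 0
  · rw [if_pos he]
    simp only [one_mul]
    have h2 : (∑ e', if q e' ≠ 0 then (1 : ℝ) else 0) - 1 ≤
        ∑ e', ((if q e' ≠ 0 then (1 : ℝ) else 0) - if e = e' then 1 else 0) := by
      rw [sum_sub_distrib, sum_ite_eq univ e]
      simp
    refine h2.trans (sum_le_sum fun e' _ => ?_)
    have h3 := (hp e).resolve_left he
    by_cases hee : e = e'
    · have e1 : (if e = e' then (1 : ℝ) else 0) = 1 := if_pos hee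
      have e2 : (if e ≠ e' then |p e| * |q e'| else 0) = 0 := if_neg (by simp [hee])
      rw [e1, e2]
      split_ifs <;> norm_num
    · have e1 : (if e = e' then (1 : ℝ) else 0) = 0 := if_neg hee
      have e2 : (if e ≠ e' then |p e| * |q e'| else 0) = |p e| * |q e'| := if_pos hee
      rw [e1, e2, sub_zero]
      rcases hq e' with h4 | h4
      · rw [if_neg (by simp [h4]), h4, abs_zero, mul_zero]
      · split_ifs
        · nlinarith
        · positivity
  · rw [if_neg he]
    simp only [zero_mul, sum_const_zero, sub_zero]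
    refine sum_nonneg fun e' _ => ?_
    split_ifs
    · positivity
    · exact le_rfl

/-- Two effects: the number of effects is at most the number of couples. -/
theorem card_le_offs (hp : ∀ e, p e = 0 ∨ 1 ≤ |p e|)
    (h2 : 2 ≤ (univ.filter fun e => p e ≠ 0).card) :
    ((univ.filter fun e => p e ≠ 0).card : ℝ) ≤ offs p p := by
  have h := card_sq_le hp hp
  have h3 : (2 : ℝ) ≤ ((univ.filter fun e => p e ≠ 0).card : ℝ) := by exact_mod_cast h2
  nlinarith

end vec

/-- The good case. -/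
theorem pair_good {c g A c' g' A' d M B η : ℝ}
    (hB : 1 ≤ B) (hη : 0 ≤ η) (hη1 : η ≤ 1 / 4)
    (hc : |c| ≤ η) (hc' : |c'| ≤ η) (hg : |g| ≤ A) (hg' : |g'| ≤ A')
    (hA : A ≤ B) (hA' : A' ≤ B) (hd : |g * g' - d| ≤ M) :
    (1 + c + g + |c| * A) * (1 + c' + g' + |c'| * A') ≤ 1 + c + g + c' + g' + d +
      ((2 * B + 4) * (η * (A + A')) + η ^ 2 + M) := by
  have hA0 : 0 ≤ A := (abs_nonneg _).trans hg
  have hA0' : 0 ≤ A' := (abs_nonneg _).trans hg'
  have hc2 := (abs_le.1 hc).2
  have hc4 := (abs_le.1 hc').2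
  have hg2 := (abs_le.1 hg).2
  have hg4 := (abs_le.1 hg').2
  have hd2 := (abs_le.1 hd).2
  have x0 : 0 ≤ |c| * A := mul_nonneg (abs_nonneg _) hA0
  have x0' : 0 ≤ |c'| * A' := mul_nonneg (abs_nonneg _) hA0'
  have x1 : |c| * A ≤ η * A := mul_le_mul_of_nonneg_right hc hA0
  have x1' : |c'| * A' ≤ η * A' := mul_le_mul_of_nonneg_right hc' hA0'
  have z1 : c * c' ≤ η ^ 2 := by
    have h : |c * c'| ≤ η * η := by
      rw [abs_mul]
      exact mul_le_mul hc hc' (abs_nonneg _) hη
    rw [pow_two]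
    exact (le_abs_self _).trans h
  have z2 : c * g' ≤ η * A' := by
    have h : |c * g'| ≤ η * A' := by
      rw [abs_mul]
      exact mul_le_mul hc hg' (abs_nonneg _) hη
    exact (le_abs_self _).trans h
  have z3 : c' * g ≤ η * A := by
    have h : |c' * g| ≤ η * A := by
      rw [abs_mul]
      exact mul_le_mul hc' hg (abs_nonneg _) hη
    exact (le_abs_self _).trans h
  have z4 : |c| * A * (1 + c' + g') ≤ η * A * (2 + B) := by
    have t1 : 1 + c' + g' ≤ 2 + B := by linarith
    exact (mul_le_mul_of_nonneg_left t1 x0).trans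
      (mul_le_mul_of_nonneg_right x1 (by linarith))
  have z5 : |c'| * A' * (1 + c + g) ≤ η * A' * (2 + B) := by
    have t1 : 1 + c + g ≤ 2 + B := by linarith
    exact (mul_le_mul_of_nonneg_left t1 x0').trans
      (mul_le_mul_of_nonneg_right x1' (by linarith))
  have z6 : |c| * A * (|c'| * A') ≤ η * A * B := by
    refine mul_le_mul x1 ?_ x0' (mul_nonneg hη hA0)
    have h : η * A' ≤ 1 * B := mul_le_mul (by linarith) hA' hA0' zero_le_one
    linarith
  have e : (1 + c + g + |c| * A) * (1 + c' + g' + |c'| * A') =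
      1 + c + g + c' + g' + g * g' + (c * c' + c * g' + c' * g) + |c| * A * (1 + c' + g') +
        |c'| * A' * (1 + c + g) + |c| * A * (|c'| * A') := by ring
  have e2 : (2 * B + 4) * (η * (A + A')) = η * A * (2 + B) + η * A * B + η * A + η * A' * (2 + B) +
      η * A' * (B + 1) + η * A + η * A' := by ring
  have e3 : 0 ≤ η * A' * (B + 1) := by positivity
  have e4 : 0 ≤ η * A := by positivity
  rw [e, e2]
  linarith

/-- The bad case. -/
theorem pair_bad {c g n N c' g' n' N' d B η : ℝ}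
    (hB : 1 ≤ B) (hη1 : η ≤ 1 / 4) (hc : |c| ≤ η) (hc' : |c'| ≤ η)
    (hg : |g| ≤ B * n) (hg' : |g'| ≤ B * n') (hN' : 0 ≤ N')
    (h2 : 1 < n → n ≤ N) (h2' : 1 < n' → n' ≤ N') (hn : 1 < n)
    (hdn : |d| ≤ B ^ 2 * n) :
    0 ≤ 1 + c + g + c' + g' + d + (B + 2) ^ 2 * (N + N') := by
  have hc1 := (abs_le.1 hc).1
  have hc3 := (abs_le.1 hc').1
  have hg1 := (abs_le.1 hg).1
  have hg3 := (abs_le.1 hg').1
  have hd3 := (abs_le.1 hdn).1
  have hN := h2 hn
  have hB0 : 0 ≤ B := by linarith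
  have t1 : B * n ≤ B * N := mul_le_mul_of_nonneg_left hN hB0
  have t3 : B ^ 2 * n ≤ B ^ 2 * N := mul_le_mul_of_nonneg_left hN (by positivity)
  have t2 : B * n' ≤ B * N + B * N' := by
    by_cases hn' : 1 < n'
    · have := mul_le_mul_of_nonneg_left (h2' hn') hB0
      have h3 : 0 ≤ B * N := mul_nonneg hB0 (by linarith)
      linarith
    · push Not at hn'
      have := mul_le_mul_of_nonneg_left (show n' ≤ N by linarith) hB0
      have h3 : 0 ≤ B * N' := mul_nonneg hB0 hN'
      linarith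
  have hN0 : 0 ≤ N := by linarith
  have t4 : (B + 2) ^ 2 * (N + N') = B ^ 2 * N + B ^ 2 * N' + 4 * (B * N) + 4 * (B * N') +
      4 * N + 4 * N' := by ring
  have t5 : 0 ≤ B ^ 2 * N' := by positivity
  have t6 : 0 ≤ B * N := by positivity
  have t7 : 0 ≤ B * N' := by positivity
  rw [t4]
  linarith

/-- The change of the product of two weights. -/
theorem pair_bound {p p' s s' c g A n N c' g' A' n' N' d M B η : ℝ}
    (hp : 0 ≤ p) (hs : 0 ≤ s) (hs' : 0 ≤ s')
    (hB : 1 ≤ B) (hη : 0 ≤ η) (hη1 : η ≤ 1 / 4)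
    (hc : |c| ≤ η) (hc' : |c'| ≤ η) (hg : |g| ≤ A) (hg' : |g'| ≤ A')
    (hA : A ≤ B * n) (hA' : A' ≤ B * n')
    (h1 : n ≤ 1 → p' ≤ p * (1 + c + g + |c| * A) ∧ 0 ≤ 1 + c + g + |c| * A)
    (h2 : 1 < n → p' = 0 ∧ n ≤ N)
    (h1' : n' ≤ 1 → s' ≤ s * (1 + c' + g' + |c'| * A') ∧ 0 ≤ 1 + c' + g' + |c'| * A')
    (h2' : 1 < n' → s' = 0 ∧ n' ≤ N')
    (hN : 0 ≤ N) (hN' : 0 ≤ N')
    (hd : |g * g' - d| ≤ M) (hdn : |d| ≤ B ^ 2 * n) (hdn' : |d| ≤ B ^ 2 * n') :
    p' * s' ≤ p * s * (1 + c + g + c' + g' + d) +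
      p * s * ((B + 2) ^ 2 * (η * (A + A') + η ^ 2 + N + N' + M)) := by
  have hps : 0 ≤ p * s := mul_nonneg hp hs
  have hA0 : 0 ≤ A := (abs_nonneg _).trans hg
  have hA0' : 0 ≤ A' := (abs_nonneg _).trans hg'
  have hM : 0 ≤ M := (abs_nonneg _).trans hd
  have hB0 : 0 ≤ B := by linarith
  rw [← mul_add]
  have bad : p' * s' = 0 → 0 ≤ 1 + c + g + c' + g' + d + (B + 2) ^ 2 * (N + N') →
      p' * s' ≤ p * s *
      (1 + c + g + c' + g' + d + (B + 2) ^ 2 * (η * (A + A') + η ^ 2 + N + N' + M)) := by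
    intro e1 e2
    rw [e1]
    refine mul_nonneg hps ?_
    have e3 : 0 ≤ (B + 2) ^ 2 * (η * (A + A') + η ^ 2 + M) := by positivity
    have e4 : (B + 2) ^ 2 * (η * (A + A') + η ^ 2 + N + N' + M) =
      (B + 2) ^ 2 * (N + N') + (B + 2) ^ 2 * (η * (A + A') + η ^ 2 + M) := by ring
    rw [e4]
    linarith
  by_cases hn : n ≤ 1
  · by_cases hn' : n' ≤ 1
    · obtain ⟨a1, a2⟩ := h1 hn
      obtain ⟨b1, b2⟩ := h1' hn'
      have e1 : p' * s' ≤ (p * (1 + c + g + |c| * A)) * (s * (1 + c' + g' + |c'| * A')) :=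
        mul_le_mul a1 b1 hs' (mul_nonneg hp a2)
      have e2 : (p * (1 + c + g + |c| * A)) * (s * (1 + c' + g' + |c'| * A')) =
          p * s * ((1 + c + g + |c| * A) * (1 + c' + g' + |c'| * A')) := by ring
      rw [e2] at e1
      refine e1.trans (mul_le_mul_of_nonneg_left ?_ hps)
      have hAB : A ≤ B := hA.trans ((mul_le_mul_of_nonneg_left hn hB0).trans (mul_one _).le)
      have hAB' : A' ≤ B := hA'.trans ((mul_le_mul_of_nonneg_left hn' hB0).trans (mul_one _).le)
      refine (pair_good hB hη hη1 hc hc' hg hg' hAB hAB' hd).trans ?_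
      have q1 : 0 ≤ η * (A + A') := by positivity
      have q2 : 0 ≤ η ^ 2 := by positivity
      have q3 : 2 * B + 4 ≤ (B + 2) ^ 2 := by nlinarith
      have q4 : (1 : ℝ) ≤ (B + 2) ^ 2 := by nlinarith
      have r1 := mul_le_mul_of_nonneg_right q3 q1
      have r2 := mul_le_mul_of_nonneg_right q4 q2
      have r3 := mul_le_mul_of_nonneg_right q4 hM
      have r4 : 0 ≤ (B + 2) ^ 2 * N := by positivity
      have r5 : 0 ≤ (B + 2) ^ 2 * N' := by positivity
      have r6 : (B + 2) ^ 2 * (η * (A + A') + η ^ 2 + N + N' + M) = (B + 2) ^ 2 *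
        (η * (A + A')) + (B + 2) ^ 2 * η ^ 2 + (B + 2) ^ 2 * N + (B + 2) ^ 2 * N' +
        (B + 2) ^ 2 * M := by ring
      rw [r6]
      linarith
    · push Not at hn'
      refine bad (by rw [(h2' hn').1, mul_zero]) ?_
      have h := pair_bad (c := c') (g := g') (n := n') (N := N') (c' := c) (g' := g) (n' := n)
        (N' := N) (d := d) hB hη1 hc' hc (hg'.trans hA') (hg.trans hA) hN
        (fun h => (h2' h).2) (fun h => (h2 h).2) hn' hdn'
      rw [add_comm N N']
      linarith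
  · push Not at hn
    exact bad (by rw [(h2 hn).1, zero_mul]) (pair_bad hB hη1 hc hc' (hg.trans hA)
      (hg'.trans hA') hN' (fun h => (h2 h).2) (fun h => (h2' h).2) hn hdn)

/-! ### Effects of the firings of a stage -/

section

variable {V AL Lb : Type u} [Fintype V] [DecidableEq V] [Fintype AL] [Fintype Lb]

namespace GSt

variable {E : GSt V Lb AL}

theorem oq_Bx_one (hE : E.Ok) : 1 ≤ E.Bx := hE.Bx_one

theorem oq_gu_cases (hE : E.Ok) (l : Lb) (z z' x y : V) : E.gu l z z' x y = 0 ∨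
    E.gu l z z' x y = -1 ∨ 1 ≤ E.gu l z z' x y ∧ E.gu l z z' x y ≤ E.Bx := by
  unfold gu
  split_ifs with h
  · by_cases h1 : (E.toGData.sd E.s).lnk z z' x y
    · exact Or.inr (Or.inl (hE.cols.kill l z z' x y h1))
    · rcases hE.cols.vals l z z' x y h1 with h2 | h2
      · exact Or.inl h2
      · exact Or.inr (Or.inr h2)
  · exact Or.inl rfl

theorem oq_gu_abs (hE : E.Ok) (l : Lb) (z z' x y : V) : |E.gu l z z' x y| ≤ E.Bx := by
  have h1 := hE.Bx_one
  rcases oq_gu_cases hE l z z' x y with h | h | h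
  · rw [h, abs_zero]
    linarith
  · rw [h, abs_neg, abs_one]
    exact h1
  · rw [abs_of_nonneg (by linarith)]
    exact h.2

theorem oq_gu_one (hE : E.Ok) (l : Lb) (z z' x y : V) : E.gu l z z' x y = 0 ∨
    1 ≤ |E.gu l z z' x y| := by
  rcases oq_gu_cases hE l z z' x y with h | h | h
  · exact Or.inl h
  · right
    rw [h, abs_neg, abs_one]
  · right
    rw [abs_of_nonneg (by linarith)]
    exact h.1

theorem oq_ga_aw {x y : V} (h : E.aw E.s x y) (l : Lb) (z z' : V) :
    E.ga l z z' x y = E.gu l z z' x y := by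
  unfold ga gu
  rw [if_pos h, if_pos (GData.os_nf_of_aw h)]

theorem oq_ga_not {x y : V} (h : ¬ E.aw E.s x y) (l : Lb) (z z' : V) :
    E.ga l z z' x y = 0 := if_neg h

theorem oq_ga_le (hE : E.Ok) (l : Lb) (z z' x y : V) :
    |E.ga l z z' x y| ≤ |E.gu l z z' x y| := by
  by_cases h : E.aw E.s x y
  · rw [oq_ga_aw h]
  · rw [oq_ga_not h, abs_zero]
    exact abs_nonneg _

end GSt

namespace GRn

variable {E : GRn V Lb AL}

variable (E) in
/-- Effects on the pair `x y`. -/
noncomputable def pg (x y : V) (e : V × V) : ℝ :=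
  if E.fr e.1 e.2 then E.gu (E.lab e.1 e.2) e.1 e.2 x y else 0

variable (E) in
/-- Effects on the pair `x y`, if it is awake. -/
noncomputable def pa (x y : V) (e : V × V) : ℝ :=
  if E.fr e.1 e.2 then E.ga (E.lab e.1 e.2) e.1 e.2 x y else 0

variable (E) in
/-- Sum of the absolute values of the effects. -/
noncomputable def ab (x y : V) : ℝ := ∑ e, |E.pa x y e|

variable (E) in
/-- Sum of the common effects. -/
noncomputable def dg (x y a b : V) : ℝ := ∑ e, E.pa x y e * E.pa a b e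

theorem G1_eq (w : V → V → Lb → ℝ) :
    E.G1 w = ∑ e : V × V, if E.fr e.1 e.2 then w e.1 e.2 (E.lab e.1 e.2) else 0 := by
  unfold G1
  rw [Fintype.sum_prod_type]

theorem gg_eq (x y : V) : E.gg x y = ∑ e, E.pa x y e := G1_eq _

theorem ab_eq (x y : V) : E.ab x y = E.G1 fun z z' l => |E.ga l z z' x y| := by
  rw [G1_eq]
  unfold ab pa
  refine sum_congr rfl fun e _ => ?_
  split_ifs
  · rfl
  · exact abs_zero

theorem dg_eq (x y a b : V) : E.dg x y a b =
    E.G1 fun z z' l => E.ga l z z' x y * E.ga l z z' a b := by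
  rw [G1_eq]
  unfold dg pa
  refine sum_congr rfl fun e _ => ?_
  split_ifs
  · rfl
  · exact mul_zero _

theorem nev_eq (x y : V) : E.nev x y = (univ.filter fun e => E.pg x y e ≠ 0).card := by
  unfold nev
  refine congrArg Finset.card (Finset.filter_congr fun e _ => ?_)
  unfold pg
  by_cases h : E.fr e.1 e.2
  · rw [if_pos h]
    exact ⟨fun h' => h'.2, fun h' => ⟨h, h'⟩⟩
  · rw [if_neg h]
    exact ⟨fun h' => absurd h'.1 h, fun h' => absurd rfl h'⟩

theorem NN_eq (x y a b : V) : E.NN x y a b = offs (E.pg x y) (E.pg a b) := by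
  unfold NN offs
  rw [Fintype.sum_prod_type]
  refine sum_congr rfl fun z _ => sum_congr rfl fun z' _ => ?_
  rw [Fintype.sum_prod_type]
  refine sum_congr rfl fun w _ => sum_congr rfl fun w' _ => ?_
  unfold pg
  by_cases h1 : E.fr z z'
  · by_cases h2 : E.fr w w'
    · by_cases h3 : (z, z') ≠ (w, w')
      · rw [if_pos ⟨h1, h2, h3⟩, if_pos h3, if_pos h1, if_pos h2]
      · rw [if_neg (fun h => h3 h.2.2), if_neg h3]
    · rw [if_neg (fun h => h2 h.2.1)]
      simp [h2]
  · rw [if_neg (fun h => h1 h.1)]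
    simp [h1]

theorem NN_nonneg (x y a b : V) : 0 ≤ E.NN x y a b := by
  rw [NN_eq]
  exact offs_nonneg _ _

theorem pa_aw {x y : V} (h : E.aw E.s x y) : E.pa x y = E.pg x y := by
  funext e
  unfold pa pg
  rw [GSt.oq_ga_aw h]

theorem pa_not {x y : V} (h : ¬ E.aw E.s x y) (e : V × V) : E.pa x y e = 0 := by
  unfold pa
  rw [GSt.oq_ga_not h, ite_self]

section

variable (hE : E.toGSt.Ok)
include hE

theorem pg_abs (x y : V) (e : V × V) : |E.pg x y e| ≤ E.Bx := by
  unfold pg
  split_ifs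
  · exact GSt.oq_gu_abs hE _ _ _ _ _
  · rw [abs_zero]
    linarith [hE.Bx_one]

theorem pg_one (x y : V) (e : V × V) : E.pg x y e = 0 ∨ 1 ≤ |E.pg x y e| := by
  unfold pg
  split_ifs
  · exact GSt.oq_gu_one hE _ _ _ _ _
  · exact Or.inl rfl

theorem pa_le (x y : V) (e : V × V) : |E.pa x y e| ≤ |E.pg x y e| := by
  unfold pa pg
  split_ifs
  · exact GSt.oq_ga_le hE _ _ _ _ _
  · exact le_rfl

theorem ab_le (x y : V) : E.ab x y ≤ E.Bx * (E.nev x y : ℝ) := by
  rw [nev_eq]
  unfold ab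
  exact (sum_le_sum fun e _ => pa_le hE x y e).trans (sum_le_card (pg_abs hE x y))

theorem gg_abs (x y : V) : |E.gg x y| ≤ E.ab x y := by
  rw [gg_eq]
  exact abs_sum_le_sum_abs _ _

theorem nev_le_NN {x y : V} (h : 2 ≤ E.nev x y) : (E.nev x y : ℝ) ≤ E.NN x y x y := by
  rw [nev_eq] at h ⊢
  rw [NN_eq]
  exact card_le_offs (pg_one hE x y) h

theorem dg_abs (x y a b : V) : |E.dg x y a b| ≤ E.Bx ^ 2 * (E.nev x y : ℝ) := by
  have hB := hE.Bx_one
  unfold dg
  have h1 : ∀ e, |E.pa x y e * E.pa a b e| ≤ E.Bx * |E.pg x y e| := by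
    intro e
    rw [abs_mul, mul_comm]
    exact mul_le_mul ((pa_le hE a b e).trans (pg_abs hE a b e)) (pa_le hE x y e) (abs_nonneg _)
      (by linarith)
  have h2 := sum_le_card (p := E.pg x y) (pg_abs hE x y)
  calc |∑ e, E.pa x y e * E.pa a b e| ≤ ∑ e, |E.pa x y e * E.pa a b e| :=
        abs_sum_le_sum_abs _ _
    _ ≤ ∑ e, E.Bx * |E.pg x y e| := sum_le_sum fun e _ => h1 e
    _ = E.Bx * ∑ e, |E.pg x y e| := by rw [mul_sum]
    _ ≤ E.Bx * (E.Bx * (E.nev x y : ℝ)) := by
        rw [nev_eq]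
        exact mul_le_mul_of_nonneg_left h2 (by linarith)
    _ = E.Bx ^ 2 * (E.nev x y : ℝ) := by ring

theorem dg_comm (x y a b : V) : E.dg x y a b = E.dg a b x y := by
  unfold dg
  exact sum_congr rfl fun e _ => mul_comm _ _

theorem off_le (x y a b : V) : |E.gg x y * E.gg a b - E.dg x y a b| ≤ E.NN x y a b := by
  rw [gg_eq, gg_eq, NN_eq]
  refine (prod_sub_diag _ _).trans ?_
  unfold offs
  refine sum_le_sum fun e _ => sum_le_sum fun e' _ => ?_
  split_ifs
  · exact mul_le_mul (pa_le hE _ _ _) (pa_le hE _ _ _) (abs_nonneg _) (abs_nonneg _)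
  · exact le_rfl

/-- A single effect. -/
theorem nev_one {x y : V} (h : E.nev x y = 1) (ha : E.aw E.s x y) :
    (E.gg x y = -1 ∧ E.ab x y = 1) ∨ (1 ≤ E.gg x y ∧ E.gg x y ≤ E.Bx ∧
      E.ab x y = E.gg x y) := by
  rw [nev_eq, Finset.card_eq_one] at h
  obtain ⟨e, he⟩ := h
  have h1 : ∀ e', e' ≠ e → E.pa x y e' = 0 := by
    intro e' hne
    rw [pa_aw ha]
    by_contra hn
    have : e' ∈ (univ.filter fun e => E.pg x y e ≠ 0) := mem_filter.2 ⟨mem_univ _, hn⟩
    rw [he, mem_singleton] at this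
    exact hne this
  have h2 : E.gg x y = E.pa x y e := by
    rw [gg_eq]
    exact sum_eq_single e (fun e' _ hne => h1 e' hne) (fun h => absurd (mem_univ _) h)
  have h3 : E.ab x y = |E.pa x y e| := by
    unfold ab
    exact sum_eq_single e (fun e' _ hne => by rw [h1 e' hne, abs_zero])
      (fun h => absurd (mem_univ _) h)
  have h4 : E.pa x y e ≠ 0 := by
    rw [pa_aw ha]
    have : e ∈ (univ.filter fun e => E.pg x y e ≠ 0) := by
      rw [he]
      exact mem_singleton_self _
    exact (mem_filter.1 this).2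
  have h5 : E.pa x y e = -1 ∨ 1 ≤ E.pa x y e ∧ E.pa x y e ≤ E.Bx := by
    unfold pa at h4 ⊢
    split_ifs with hf
    · rw [if_pos hf] at h4
      rw [GSt.oq_ga_aw ha] at h4 ⊢
      exact (GSt.oq_gu_cases hE _ _ _ _ _).resolve_left h4
    · rw [if_neg hf] at h4
      exact absurd rfl h4
  rcases h5 with h5 | h5
  · left
    rw [h2, h3, h5]
    simp
  · right
    rw [h2, h3, abs_of_nonneg (by linarith)]
    exact ⟨h5.1, h5.2, rfl⟩

theorem nev_zero {x y : V} (h : E.nev x y = 0) : E.gg x y = 0 ∧ E.ab x y = 0 := by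
  have h1 := ab_le hE x y
  rw [h, Nat.cast_zero, mul_zero] at h1
  have h2 := gg_abs hE x y
  have h3 : 0 ≤ E.ab x y := sum_nonneg fun e _ => abs_nonneg _
  have h4 : E.ab x y = 0 := le_antisymm h1 h3
  rw [h4] at h2
  exact ⟨abs_nonpos_iff.1 h2, h4⟩

end

theorem not_aw_zero {x y : V} (h : ¬ E.aw E.s x y) :
    E.cc x y = 0 ∧ E.gg x y = 0 ∧ E.ab x y = 0 := by
  refine ⟨?_, ?_, ?_⟩
  · unfold cc Cr GSt.mn
    simp only [GSt.oq_ga_not h, mul_zero, sum_const_zero, neg_zero]
    unfold GSm.rs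
    simp
  · rw [gg_eq]
    exact sum_eq_zero fun e _ => pa_not h e
  · unfold ab
    exact sum_eq_zero fun e _ => by rw [pa_not h, abs_zero]

/-! ### One site -/

theorem nX_not {x y : V} (h : ¬ E.aw E.s x y) : E.nX x y = E.s.X x y := if_neg h

section

variable (hE : E.toGSt.Ok) (hc : ∀ x y, |E.cc x y| ≤ 1 / 4)
include hE hc

theorem nX_nonneg (x y : V) : 0 ≤ E.nX x y := by
  have h0 := GData.os_X_nonneg hE.inv.toSInv x y
  have hc1 := (abs_le.1 (hc x y)).1
  unfold nX
  split_ifs with h1 h2 h3 h4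
  · exact mul_nonneg h0 (by linarith)
  · exact le_rfl
  · push Not at h4
    exact mul_nonneg h0 (by linarith)
  · exact h0
  · exact h0

theorem nf_next {x y : V} (h : E.nf E.next x y) : E.nf E.s x y := by
  obtain ⟨h1, h2, h3⟩ := h
  by_cases ha : E.aw E.s x y
  · exact GData.os_nf_of_aw ha
  · by_cases hs : E.as E.s x y
    · exact GData.os_nf_of_as hs
    · have e1 : E.next.st x y = E.s.st x y := by
        show (if E.aw E.s x y then _ else if E.as E.s x y then _ else E.s.st x y) = _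
        rw [if_neg ha, if_neg hs]
      have e2 : E.next.X x y = E.s.X x y := nX_not ha
      rw [e1] at h2
      rw [e2] at h3
      exact ⟨h1, h2, h3⟩

/-- Status and weight after the stage, if there was at most one event. -/
theorem step_le {x y : V} (hn : E.nev x y ≤ 1) :
    (if E.nf E.next x y then E.nX x y else 0) ≤
      E.s.X x y * (1 + E.cc x y + E.gg x y + |E.cc x y| * E.ab x y) ∧
    0 ≤ 1 + E.cc x y + E.gg x y + |E.cc x y| * E.ab x y := by
  have h0 := GData.os_X_nonneg hE.inv.toSInv x y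
  have hc0 := hc x y
  have hc1 := (abs_le.1 hc0).1
  have hx := nX_nonneg hE hc x y
  have hif : (if E.nf E.next x y then E.nX x y else 0) ≤ E.nX x y := by
    split_ifs
    · exact le_rfl
    · exact hx
  by_cases ha : E.aw E.s x y
  · rcases Nat.le_one_iff_eq_zero_or_eq_one.1 hn with h1 | h1
    · obtain ⟨h2, h3⟩ := nev_zero hE h1
      have e1 : E.nX x y = E.s.X x y * (1 + E.cc x y) := by
        unfold nX
        rw [if_pos ha, if_pos h1]
      rw [h2, h3, mul_zero, add_zero, add_zero, ← e1]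
      exact ⟨hif, by linarith⟩
    · have hne : ¬ E.nev x y = 0 := by omega
      rcases nev_one hE h1 ha with ⟨h2, h3⟩ | ⟨h2, h4, h3⟩
      · have e1 : E.nX x y = 0 := by
          unfold nX
          rw [if_pos ha, if_neg hne, if_pos h1, if_pos (by linarith)]
        have e2 : 0 ≤ 1 + E.cc x y + E.gg x y + |E.cc x y| * E.ab x y := by
          rw [h2, h3, mul_one]
          linarith [neg_abs_le (E.cc x y)]
        refine ⟨?_, e2⟩
        rw [e1, ite_self]
        exact mul_nonneg h0 e2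
      · have e1 : E.nX x y = E.s.X x y * (1 + E.cc x y + E.gg x y) := by
          unfold nX
          rw [if_pos ha, if_neg hne, if_pos h1, if_neg (by linarith)]
        have e3 : 0 ≤ |E.cc x y| * E.ab x y := by
          rw [h3]
          exact mul_nonneg (abs_nonneg _) (by linarith)
        refine ⟨?_, by linarith⟩
        refine hif.trans ?_
        rw [e1]
        exact mul_le_mul_of_nonneg_left (by linarith) h0
  · obtain ⟨h1, h2, h3⟩ := not_aw_zero ha
    rw [h1, h2, h3, abs_zero, mul_zero, add_zero, add_zero, add_zero, mul_one]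
    rw [nX_not ha] at hif
    rw [nX_not ha]
    exact ⟨hif, zero_le_one⟩

/-- Two events freeze the pair. -/
theorem step_two {x y : V} (hn : 1 < E.nev x y) : ¬ E.nf E.next x y := by
  intro h
  have h1 := nf_next hE hc h
  obtain ⟨h2, h3, h4⟩ := h
  by_cases ha : E.aw E.s x y
  · have e1 : E.nX x y ≠ 0 := h4
    have e2 : E.next.st x y = .frO := by
      show (if E.aw E.s x y then (if E.nX x y = 0 then GStat.act else
        if 2 ≤ E.nev x y ∨ E.cls x y then .frO else if E.nev x y = 0 then .act else .asl)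
        else _) = _
      rw [if_pos ha, if_neg e1, if_pos (Or.inl (by omega))]
    rw [e2] at h3
    rcases h3 with h3 | h3 <;> exact absurd h3 (by simp)
  · have hs : E.as E.s x y := ((GData.os_nf_iff x y).1 h1).resolve_left ha
    have e2 : E.next.st x y = .frO := by
      show (if E.aw E.s x y then _ else if E.as E.s x y then
        (if E.nev x y = 0 ∧ ¬ E.cls x y then GStat.asl else .frO) else _) = _
      rw [if_neg ha, if_pos hs, if_neg (fun h => by omega)]
    rw [e2] at h3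
    rcases h3 with h3 | h3 <;> exact absurd h3 (by simp)

theorem twn_mono (hgb : ∀ x y, 0 ≤ E.gbI x y) {x y : V} (h : E.twn E.s x y) :
    E.twn E.next x y := by
  unfold GData.twn at h ⊢
  have e : E.next.GB x y = E.s.GB x y + E.gbI x y := rfl
  rw [e]
  linarith [hgb x y]

/-- The weights of a site before and after the stage. -/
theorem chi_step (hgb : ∀ x y, 0 ≤ E.gbI x y) (x y : V) :
    0 ≤ E.chi E.next x y ∧ (E.chi E.s x y = 0 → E.chi E.next x y = 0) ∧
    (E.nev x y ≤ 1 → E.chi E.next x y ≤ E.chi E.s x y *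
      (1 + E.cc x y + E.gg x y + |E.cc x y| * E.ab x y) ∧
      0 ≤ 1 + E.cc x y + E.gg x y + |E.cc x y| * E.ab x y) ∧
    (1 < E.nev x y → E.chi E.next x y = 0) := by
  have hx := nX_nonneg hE hc x y
  by_cases hf : E.far x y
  · have hnl : ¬ E.lig x y := fun h => absurd h.2.2 (not_lt.2 hf.2.2.1)
    have e1 : E.chi E.next x y = if E.nf E.next x y then E.nX x y else 0 := by
      unfold GData.chi
      rw [if_neg (fun h : E.lig x y ∧ _ => hnl h.1)]
      rfl
    rw [e1]
    refine ⟨?_, ?_, ?_, ?_⟩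
    · split_ifs
      · exact hx
      · exact le_rfl
    · intro h0
      refine if_neg fun h => ?_
      have h1 := nf_next hE hc h
      rw [GData.os_chi_nf h1] at h0
      exact h1.2.2 h0
    · intro hn
      obtain ⟨h1, h2⟩ := step_le hE hc hn
      refine ⟨?_, h2⟩
      by_cases hnf : E.nf E.s x y
      · rw [GData.os_chi_nf hnf]
        exact h1
      · rw [if_neg (fun h => hnf (nf_next hE hc h))]
        exact mul_nonneg (GData.os_chi_nonneg hE.inv.toSInv x y) h2
    · intro hn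
      exact if_neg (step_two hE hc hn)
  · have hnf : ¬ E.nf E.s x y := fun h => hf h.1
    have hnf' : ¬ E.nf E.next x y := fun h => hf h.1
    have haw : ¬ E.aw E.s x y := fun h => hf h.1
    obtain ⟨z1, z2, z3⟩ := not_aw_zero haw
    have e0 : E.nev x y = 0 := by
      rw [nev_eq, Finset.card_eq_zero, Finset.filter_eq_empty_iff]
      intro e _
      unfold pg GSt.gu
      rw [if_neg hnf, ite_self]
      simp
    have e1 : E.chi E.next x y = if E.lig x y ∧ ¬ E.twn E.next x y then 1 else 0 := by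
      unfold GData.chi
      rw [if_neg hnf']
    have e2 : E.chi E.s x y = if E.lig x y ∧ ¬ E.twn E.s x y then 1 else 0 := by
      unfold GData.chi
      rw [if_neg hnf]
    have e3 : E.chi E.next x y ≤ E.chi E.s x y := by
      rw [e1, e2]
      by_cases h : E.lig x y ∧ ¬ E.twn E.next x y
      · rw [if_pos h, if_pos ⟨h.1, fun h' => h.2 (twn_mono hE hc hgb h')⟩]
      · rw [if_neg h]
        split_ifs
        · exact zero_le_one
        · exact le_rfl
    have e4 : 0 ≤ E.chi E.next x y := by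
      rw [e1]
      split_ifs
      · exact zero_le_one
      · exact le_rfl
    refine ⟨e4, fun h => le_antisymm (h ▸ e3) e4, fun _ => ?_, fun h => by omega⟩
    rw [z1, z2, z3, abs_zero, mul_zero, add_zero, add_zero, add_zero, mul_one]
    exact ⟨e3, zero_le_one⟩

/-- **The change of the product of two weights.** -/
theorem chi_pair (hgb : ∀ x y, 0 ≤ E.gbI x y) {η : ℝ} (hη : 0 ≤ η) (hη1 : η ≤ 1 / 4)
    (hcη : ∀ x y, |E.cc x y| ≤ η) (x y a b : V) :
    E.chi E.next x y * E.chi E.next a b ≤ E.chi E.s x y * E.chi E.s a b *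
      (1 + E.cc x y + E.gg x y + E.cc a b + E.gg a b + E.dg x y a b) +
      E.chi E.s x y * E.chi E.s a b * ((E.Bx + 2) ^ 2 * (η * (E.ab x y + E.ab a b) + η ^ 2 +
        E.NN x y x y + E.NN a b a b + E.NN x y a b)) := by
  obtain ⟨a1, a2, a3, a4⟩ := chi_step hE hc hgb x y
  obtain ⟨b1, b2, b3, b4⟩ := chi_step hE hc hgb a b
  have hcast : ∀ {n : ℕ}, (n : ℝ) ≤ 1 → n ≤ 1 := fun h => by exact_mod_cast h
  have hcast' : ∀ {n : ℕ}, 1 < (n : ℝ) → 1 < n := fun h => by exact_mod_cast h
  exact pair_bound (GData.os_chi_nonneg hE.inv.toSInv x y)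
    (GData.os_chi_nonneg hE.inv.toSInv a b) b1 hE.Bx_one hη hη1 (hcη x y) (hcη a b)
    (gg_abs hE x y) (gg_abs hE a b) (ab_le hE x y) (ab_le hE a b)
    (fun h => a3 (hcast h)) (fun h => ⟨a4 (hcast' h), nev_le_NN hE (hcast' h)⟩)
    (fun h => b3 (hcast h)) (fun h => ⟨b4 (hcast' h), nev_le_NN hE (hcast' h)⟩)
    (NN_nonneg _ _ _ _) (NN_nonneg _ _ _ _) (off_le hE x y a b) (dg_abs hE x y a b)
    (by rw [dg_comm hE]; exact dg_abs hE a b x y)

end

end GRn

end

end Pool.Agent.AcyG
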