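import Pool.Agent.AcyG.OPtw
import Pool.Agent.AcyG.OPair

/-! # Outer process: the accurate linear statistics, the monochromatic pairs and the uncoloured
vertices after a stage (project MP_af9dfb_G, row OL) -/

set_option autoImplicit false
set_option linter.unusedSectionVars false

namespace Pool.Agent.AcyG

open Finset
open Pool.Agent.Acy (IsPM wt Ex Pr mean)
open Pool.Agent.AcyK (Big StepOK LocOK prodLaw Un Sel updCol HasC cN)
open scoped Classical

universe u v

section

variable {V AL : Type u} [Fintype V] [DecidableEq V] [Fintype AL]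

theorem ol_lin_le {D : GData V AL} (hD : D.Ok) {W0 W1 : ℝ} {j : ℕ} {s : GState V}
    {C : V → Option (ℕ × Fin D.k × ℕ)} (hs : D.SInv W0 W1 j s C) (hj : j ≤ D.NS) (i : AL) :
    D.Lin s i ≤ D.La i * (1 + 1 / 1000) := by
  have hT0 := GData.os_T_pos hD
  have hT := GData.os_T_ge hD
  have hR := GData.os_R_pos hD
  have hLa : 0 ≤ D.La i := by
    refine le_trans ?_ (hD.a_tot i)
    exact mul_nonneg (by norm_num) (sum_nonneg fun z _ => sum_nonneg fun z' _ =>
      hD.a_nonneg i z z')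
  refine (hs.lin i).trans (mul_le_mul_of_nonneg_left ?_ hLa)
  have h1 : (j : ℝ) ≤ D.kap * D.R := le_trans (by exact_mod_cast hj) hD.NS_le
  have h2 : D.kap ≤ D.T := by
    have a1 := hD.kap_one
    have a2 := hD.H_one
    have a3 := hD.C0_one
    have a4 : (1 : ℝ) ≤ D.H * D.C0 := one_le_mul_of_one_le_of_one_le a2 a3
    have a5 : D.kap ≤ D.kap * D.H * D.C0 := by
      rw [mul_assoc]
      exact le_mul_of_one_le_right (by linarith) a4
    have a7 : (1 : ℝ) ≤ D.kap * D.H * D.C0 := a1.trans a5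
    have a8 : D.kap * D.H * D.C0 ≤ (D.kap * D.H * D.C0) ^ 10 := by
      have := pow_le_pow_right₀ a7 (show 1 ≤ 10 by norm_num)
      rwa [pow_one] at this
    have a9 := hD.Kc_ge
    have a10 := GData.os_Kc_T hD
    have a11 : 0 ≤ (D.kap * D.H * D.C0) ^ 10 := by positivity
    nlinarith
  have h3 : (j : ℝ) ≤ D.T ^ 802 := by
    calc (j : ℝ) ≤ D.kap * D.R := h1
      _ ≤ D.T * D.T ^ 801 := mul_le_mul h2 hD.R_hi hR.le hT0.le
      _ = D.T ^ 802 := by rw [← pow_succ']
  have h4 : (j : ℝ) / D.T ^ 860 ≤ 1 / 1000 := by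
    rw [div_le_div_iff₀ (pow_pos hT0 _) (by norm_num), one_mul]
    calc (j : ℝ) * 1000 ≤ D.T ^ 802 * D.T := mul_le_mul h3 (by linarith) (by norm_num)
          (pow_pos hT0 _).le
      _ = D.T ^ 803 := by rw [← pow_succ]
      _ ≤ D.T ^ 860 := hD.big.pw (by norm_num)
  linarith

theorem ol_prd_l2 {Lb : Type u} [Fintype Lb] {E : GSt V Lb AL} (hE : E.Ok) (α : AL) :
    E.prd (E.Wl 2 α) ≤ E.Lin E.s α / E.n1 := by
  have hn := GData.os_n1_pos hE.dat
  refine le_of_eq ?_
  have e1 : ∀ z z', E.chi E.s z z' * E.mn (E.Wl 2 α) z z' = E.a α z z' * E.chi E.s z z' := by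
    intro z z'
    have e2 : E.mn (E.Wl 2 α) z z' = if E.chi E.s z z' ≠ 0 then E.a α z z' else 0 := by
      have e3 : ∀ l, E.Wl 2 α z z' l = if E.chi E.s z z' ≠ 0 then E.a α z z' else 0 := by
        intro l
        unfold GSt.Wl
        rw [if_neg (by decide), if_neg (by decide)]
      unfold GSt.mn
      simp only [e3]
      rw [← sum_mul, hE.cols.mu_sum, one_mul]
    rw [e2]
    split_ifs with h
    · ring
    · push Not at h
      rw [h, mul_zero, mul_zero]
  unfold GSt.prd GData.Lin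
  simp only [e1]
  field_simp

namespace GRn

variable {Lb : Type u} [Fintype Lb] {E : GRn V Lb AL}

/-! ### Linearity -/

theorem ol_G1_mul (c : ℝ) (w : V → V → Lb → ℝ) :
    E.G1 (fun z z' l => c * w z z' l) = c * E.G1 w := by
  unfold G1
  simp only [mul_sum, mul_ite, mul_zero]

theorem ol_G1_sum {ι : Type*} (s : Finset ι) (w : ι → V → V → Lb → ℝ) :
    E.G1 (fun z z' l => ∑ i ∈ s, w i z z' l) = ∑ i ∈ s, E.G1 (w i) := by
  unfold G1
  have e : ∀ z z', (if E.fr z z' then ∑ i ∈ s, w i z z' (E.lab z z') else 0) =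
      ∑ i ∈ s, if E.fr z z' then w i z z' (E.lab z z') else 0 := by
    intro z z'
    split_ifs
    · rfl
    · simp
  simp only [e]
  rw [sum_comm (s := s)]
  exact sum_congr rfl fun z _ => sum_comm

theorem ol_G1_nonneg {w : V → V → Lb → ℝ} (h : ∀ z z' l, 0 ≤ w z z' l) : 0 ≤ E.G1 w := by
  unfold G1
  refine sum_nonneg fun z _ => sum_nonneg fun z' _ => ?_
  split_ifs
  exacts [h _ _ _, le_rfl]

theorem ol_Cr_mul (c : ℝ) (w : V → V → Lb → ℝ) :
    E.Cr (fun z z' l => c * w z z' l) = c * E.Cr w := by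
  unfold Cr GSt.mn GSm.rs
  rw [mul_sum]
  refine sum_congr rfl fun z _ => ?_
  rw [mul_sum]
  refine sum_congr rfl fun z' _ => ?_
  split_ifs
  · have e : ∑ l, E.μ z z' l * (c * w z z' l) = c * ∑ l, E.μ z z' l * w z z' l := by
      rw [mul_sum]
      exact sum_congr rfl fun l _ => by ring
    rw [e]
    ring
  · simp

theorem ol_Cr_sum {ι : Type*} (s : Finset ι) (w : ι → V → V → Lb → ℝ) :
    E.Cr (fun z z' l => ∑ i ∈ s, w i z z' l) = ∑ i ∈ s, E.Cr (w i) := by
  unfold Cr GSt.mn GSm.rs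
  have e : ∀ z z', (if z ∈ E.U ∧ z' ∈ E.U then
      E.ra z z' * ∑ l, E.μ z z' l * ∑ i ∈ s, w i z z' l else 0) =
      ∑ i ∈ s, if z ∈ E.U ∧ z' ∈ E.U then E.ra z z' * ∑ l, E.μ z z' l * w i z z' l else 0 := by
    intro z z'
    split_ifs
    · rw [← mul_sum]
      congr 1
      simp only [mul_sum]
      rw [sum_comm]
    · simp
  simp only [e]
  rw [sum_comm (s := s)]
  exact sum_congr rfl fun z _ => sum_comm

/-! ### The weights -/

/-- The weight of one pair after the stage. -/
theorem ol_chi (hE : E.Ok) (x y : V) : E.chi E.next x y ≤ E.chi E.s x y *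
    (1 + E.cc x y + E.gg x y + |E.cc x y| * E.ab x y + E.Bx * E.NN x y x y) := by
  have h0 := GData.os_chi_nonneg hE.sm.inv.toSInv x y
  have hB := hE.sm.Bx_one
  have hN : 0 ≤ E.NN x y x y := NN_nonneg x y x y
  obtain ⟨-, -, h1, h2⟩ := chi_step hE.sm (op_cc_half hE) (op_gbI_nonneg hE) x y
  by_cases h3 : E.nev x y ≤ 1
  · refine (h1 h3).1.trans (mul_le_mul_of_nonneg_left ?_ h0)
    have := mul_nonneg (show 0 ≤ E.Bx by linarith) hN
    linarith
  · push Not at h3
    rw [h2 h3]
    refine mul_nonneg h0 ?_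
    have h4 := (abs_le.1 (op_cc_half hE x y)).1
    have h5 := (abs_le.1 (gg_abs hE.sm x y)).1
    have h6 := ab_le hE.sm x y
    have h7 := nev_le_NN hE.sm (x := x) (y := y) (by omega)
    have h8 : E.Bx * (E.nev x y : ℝ) ≤ E.Bx * E.NN x y x y :=
      mul_le_mul_of_nonneg_left h7 (by linarith)
    have h9 : 0 ≤ |E.cc x y| * E.ab x y :=
      mul_nonneg (abs_nonneg _) (sum_nonneg fun e _ => abs_nonneg _)
    linarith

/-- Sums of the gains. -/
theorem ol_gain (α : AL) : 1 / 2 * ∑ a, ∑ b, E.a α a b * (E.chi E.s a b *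
    (E.gg a b + E.cc a b)) = E.G1 (E.Wl 0 α) - E.Cr (E.Wl 0 α) := by
  have e1 : E.Wl 0 α = fun z z' l => 1 / 2 * ∑ a, ∑ b, E.a α a b * E.chi E.s a b *
      E.ga l z z' a b := by
    funext z z' l
    unfold GSt.Wl
    rw [if_pos rfl]
  have e2 : E.G1 (E.Wl 0 α) = 1 / 2 * ∑ a, ∑ b, E.a α a b * E.chi E.s a b * E.gg a b := by
    rw [e1, ol_G1_mul, ol_G1_sum]
    congr 1
    refine sum_congr rfl fun a _ => ?_
    rw [ol_G1_sum]
    refine sum_congr rfl fun b _ => ?_
    rw [ol_G1_mul]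
    rfl
  have e3 : E.Cr (E.Wl 0 α) = 1 / 2 * ∑ a, ∑ b, E.a α a b * E.chi E.s a b * (-E.cc a b) := by
    rw [e1, ol_Cr_mul, ol_Cr_sum]
    congr 1
    refine sum_congr rfl fun a _ => ?_
    rw [ol_Cr_sum]
    refine sum_congr rfl fun b _ => ?_
    rw [ol_Cr_mul]
    unfold cc
    rw [neg_neg]
  rw [e2, e3, ← mul_sub, ← sum_sub_distrib]
  congr 1
  refine sum_congr rfl fun a _ => ?_
  rw [← sum_sub_distrib]
  refine sum_congr rfl fun b _ => ?_
  ring

theorem ol_ab (α : AL) : 1 / 2 * ∑ a, ∑ b, E.a α a b * (E.chi E.s a b * E.ab a b) =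
    E.G1 (E.Wl 1 α) := by
  have e1 : E.Wl 1 α = fun z z' l => 1 / 2 * ∑ a, ∑ b, E.a α a b * E.chi E.s a b *
      |E.ga l z z' a b| := by
    funext z z' l
    unfold GSt.Wl
    rw [if_neg (by decide), if_pos rfl]
  rw [e1, ol_G1_mul, ol_G1_sum]
  congr 1
  refine sum_congr rfl fun a _ => ?_
  rw [ol_G1_sum]
  refine sum_congr rfl fun b _ => ?_
  rw [ol_G1_mul, ab_eq]
  ring

theorem ol_La (hE : E.Ok) (α : AL) : 0 ≤ E.La α := by
  refine le_trans ?_ (hE.sm.dat.a_tot α)
  have := hE.sm.dat.a_nonneg α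
  exact mul_nonneg (by norm_num) (sum_nonneg fun z _ => sum_nonneg fun z' _ => this z z')

section

variable (hE : E.Ok)
include hE

theorem lin_next (α : AL) : E.Lin E.next α ≤ E.Lin E.s α + E.La α / E.T ^ 861 := by
  have hT0 := GData.os_T_pos hE.sm.dat
  have hT := GData.os_T_ge hE.sm.dat
  have hLa := ol_La hE α
  have ha := hE.sm.dat.a_nonneg α
  have hch := GData.os_chi_nonneg hE.sm.inv.toSInv
  have hB := hE.sm.Bx_one
  have hK := GData.os_Kc_one hE.sm.dat
  have hBK := op_Bx_Kc hE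
  have hR := GData.os_R_pos hE.sm.dat
  have h1 : E.Lin E.next α - E.Lin E.s α ≤ E.La α / E.T ^ 930 +
      E.T ^ 2 / E.T ^ 799 * (E.La α * E.T ^ 4 / E.T ^ 799 + E.La α / E.T ^ 930) +
        E.T * (E.La α / E.T ^ 870) := by
    have hη : 0 ≤ 2 * E.C0 * E.H / E.R := by
      have a1 := hE.sm.dat.H_one
      have a2 := hE.sm.dat.C0_one
      positivity
    have hη' : 2 * E.C0 * E.H / E.R ≤ E.T ^ 2 / E.T ^ 799 := by
      have a1 := GData.op_C0H hE.sm.dat
      have a2 := GData.os_Kc_T hE.sm.dat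
      have a3 := hE.sm.dat.R_lo
      rw [div_le_div_iff₀ hR (by positivity)]
      refine mul_le_mul ?_ a3 (by positivity) (by positivity)
      nlinarith
    have e1 : E.Lin E.next α - E.Lin E.s α ≤ 1 / 2 * ∑ a, ∑ b, (E.a α a b * (E.chi E.s a b *
        (E.gg a b + E.cc a b)) + 2 * E.C0 * E.H / E.R * (E.a α a b * (E.chi E.s a b *
          E.ab a b)) + E.Kc * E.Bx * (E.a α a b * E.NN a b a b)) := by
      unfold GData.Lin
      rw [← mul_sub, ← sum_sub_distrib]
      refine mul_le_mul_of_nonneg_left (sum_le_sum fun a _ => ?_) (by norm_num)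
      rw [← sum_sub_distrib]
      refine sum_le_sum fun b _ => ?_
      have b1 := ol_chi hE a b
      have b2 := hch a b
      have b3 := GData.os_chi_le hE.sm.dat hE.sm.inv.toSInv a b
      have b4 := NN_nonneg (E := E) a b a b
      have b5 : 0 ≤ E.ab a b := sum_nonneg fun e _ => abs_nonneg _
      have b6 := op_cc_abs hE a b
      have b7 : E.chi E.s a b * (|E.cc a b| * E.ab a b) ≤
          2 * E.C0 * E.H / E.R * (E.chi E.s a b * E.ab a b) := by
        have := mul_le_mul_of_nonneg_right b6 (mul_nonneg b2 b5)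
        linarith
      have b8 : E.chi E.s a b * (E.Bx * E.NN a b a b) ≤ E.Kc * E.Bx * E.NN a b a b := by
        have := mul_le_mul_of_nonneg_right b3 (mul_nonneg (show 0 ≤ E.Bx by linarith) b4)
        linarith
      have b9 : E.chi E.next a b - E.chi E.s a b ≤ E.chi E.s a b * (E.gg a b + E.cc a b) +
          2 * E.C0 * E.H / E.R * (E.chi E.s a b * E.ab a b) +
            E.Kc * E.Bx * E.NN a b a b := by
        have e : E.chi E.s a b *
            (1 + E.cc a b + E.gg a b + |E.cc a b| * E.ab a b + E.Bx * E.NN a b a b) =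
            E.chi E.s a b + E.chi E.s a b * (E.gg a b + E.cc a b) +
              E.chi E.s a b * (|E.cc a b| * E.ab a b) +
                E.chi E.s a b * (E.Bx * E.NN a b a b) := by ring
        rw [e] at b1
        linarith
      have b10 := mul_le_mul_of_nonneg_left b9 (ha a b)
      linarith
    have e2 : 1 / 2 * ∑ a, ∑ b, (E.a α a b * (E.chi E.s a b *
        (E.gg a b + E.cc a b)) + 2 * E.C0 * E.H / E.R * (E.a α a b * (E.chi E.s a b *
          E.ab a b)) + E.Kc * E.Bx * (E.a α a b * E.NN a b a b)) =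
        (E.G1 (E.Wl 0 α) - E.Cr (E.Wl 0 α)) + 2 * E.C0 * E.H / E.R * E.G1 (E.Wl 1 α) +
          E.Kc * E.Bx / 2 * ∑ a, ∑ b, E.a α a b * E.NN a b a b := by
      rw [← ol_gain, ← ol_ab]
      simp only [sum_add_distrib, ← mul_sum]
      ring
    rw [e2] at e1
    have c1 := (abs_le.1 (hE.rl 0 α (by decide))).2
    have c2 := (abs_le.1 (hE.rl 1 α (by decide))).2
    have c3 := hE.rl1 α
    have c4 : E.La α * E.T ^ 4 / E.R ≤ E.La α * E.T ^ 4 / E.T ^ 799 :=
      div_le_div_of_nonneg_left (by positivity) (by positivity) hE.sm.dat.R_lo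
    have c5 : 0 ≤ E.G1 (E.Wl 1 α) := by
      refine ol_G1_nonneg fun z z' l => ?_
      unfold GSt.Wl
      rw [if_neg (by decide), if_pos rfl]
      exact mul_nonneg (by norm_num) (sum_nonneg fun a _ => sum_nonneg fun b _ =>
        mul_nonneg (mul_nonneg (ha a b) (hch a b)) (abs_nonneg _))
    have c6 : 2 * E.C0 * E.H / E.R * E.G1 (E.Wl 1 α) ≤ E.T ^ 2 / E.T ^ 799 *
        (E.La α * E.T ^ 4 / E.T ^ 799 + E.La α / E.T ^ 930) :=
      mul_le_mul hη' (by linarith) c5 (by positivity)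
    have c7 : E.Kc * E.Bx / 2 * ∑ a, ∑ b, E.a α a b * E.NN a b a b ≤
        E.T * (E.La α / E.T ^ 870) := by
      have d1 : 0 ≤ ∑ a, ∑ b, E.a α a b * E.NN a b a b :=
        sum_nonneg fun a _ => sum_nonneg fun b _ => mul_nonneg (ha a b) (NN_nonneg _ _ _ _)
      refine mul_le_mul ?_ (hE.dl α) d1 hT0.le
      have d2 := GData.os_Kc_pow_T hE.sm.dat (n := 2) (by norm_num)
      have d3 : E.Kc * E.Bx ≤ E.Kc * E.Kc := mul_le_mul_of_nonneg_left (by linarith) (by linarith)
      have d4 : 0 ≤ E.Kc * E.Kc := by positivity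
      rw [pow_two] at d2
      linarith
    linarith
  have p1 : E.La α / E.T ^ 930 ≤ E.La α / E.T ^ 869 :=
    div_le_div_of_nonneg_left hLa (by positivity) (hE.sm.dat.big.pw (by norm_num))
  have p2 : E.T * (E.La α / E.T ^ 870) = E.La α / E.T ^ 869 := by
    rw [show (870 : ℕ) = 869 + 1 from rfl, pow_succ]
    field_simp
  have p3 : E.T ^ 2 / E.T ^ 799 * (E.La α * E.T ^ 4 / E.T ^ 799 + E.La α / E.T ^ 930) ≤
      E.La α / E.T ^ 869 + E.La α / E.T ^ 869 := by
    have q1 : E.T ^ 2 / E.T ^ 799 * (E.La α * E.T ^ 4 / E.T ^ 799) = E.La α / E.T ^ 1592 := by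
      have e1 : E.T ^ 799 * E.T ^ 799 = E.T ^ 6 * E.T ^ 1592 := by rw [← pow_add, ← pow_add]
      have e2 : E.T ^ 2 * (E.La α * E.T ^ 4) = E.T ^ 6 * E.La α := by ring
      rw [div_mul_div_comm, e1, e2, mul_div_mul_left _ _ (pow_ne_zero 6 hT0.ne')]
    have q2 : E.La α / E.T ^ 1592 ≤ E.La α / E.T ^ 869 :=
      div_le_div_of_nonneg_left hLa (by positivity) (hE.sm.dat.big.pw (by norm_num))
    have q3 : E.T ^ 2 / E.T ^ 799 ≤ 1 := by
      rw [div_le_one (by positivity)]
      exact hE.sm.dat.big.pw (by norm_num)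
    have q4 : E.T ^ 2 / E.T ^ 799 * (E.La α / E.T ^ 930) ≤ E.La α / E.T ^ 869 :=
      (mul_le_of_le_one_left (div_nonneg hLa (pow_nonneg hT0.le _)) q3).trans p1
    rw [mul_add, q1]
    exact add_le_add q2 q4
  have p4 : 4 * (E.La α / E.T ^ 869) ≤ E.La α / E.T ^ 861 := by
    have e : E.La α / E.T ^ 861 = E.T ^ 8 * (E.La α / E.T ^ 869) := by
      rw [show (869 : ℕ) = 8 + 861 from rfl, pow_add]
      field_simp
    rw [e]
    refine mul_le_mul_of_nonneg_right ?_ (div_nonneg hLa (pow_nonneg hT0.le _))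
    have := hE.sm.dat.big.pw (show 1 ≤ 8 by norm_num)
    rw [pow_one] at this
    linarith
  linarith

theorem mon_next (α : AL) : E.Mon E.nC α ≤ E.Mon E.C α +
    1 / E.R * (101 / 100 * E.La α / E.n1) := by
  have hT0 := GData.os_T_pos hE.sm.dat
  have hT := GData.os_T_ge hE.sm.dat
  have hLa := ol_La hE α
  have ha := hE.sm.dat.a_nonneg α
  have hn := GData.os_n1_pos hE.sm.dat
  have hR := GData.os_R_pos hE.sm.dat
  -- new pairs are firings
  have h1 : ∀ z z', E.monoR E.nC z z' → E.monoR E.C z z' ∨ (E.fr z z' ∧ E.chi E.s z z' ≠ 0) := by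
    rintro z z' ⟨i, c, r, r', h1, h2, h3⟩
    rcases op_nC_cases (E := E) z with hc | ⟨hc0, hU, hok, hc⟩
    · rw [hc] at h1
      have hi := (hE.sm.inv.C_lt z i c r h1).1
      rcases op_nC_cases (E := E) z' with hc' | ⟨hc0', hU', hok', hc'⟩
      · rw [hc'] at h2
        exact Or.inl ⟨i, c, r, r', h1, h2, h3⟩
      · rw [hc'] at h2
        rcases hcol : E.col z' with _ | ⟨c', r''⟩
        · rw [hcol] at h2
          simp at h2
        · rw [hcol] at h2
          simp only [Option.map_some, Option.some.injEq, Prod.mk.injEq] at h2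
          omega
    · rw [hc] at h1
      rcases hcol : E.col z with _ | ⟨c1, r1⟩
      · rw [hcol] at h1
        simp at h1
      rw [hcol] at h1
      simp only [Option.map_some, Option.some.injEq, Prod.mk.injEq] at h1
      rcases op_nC_cases (E := E) z' with hc' | ⟨hc0', hU', hok', hc'⟩
      · rw [hc'] at h2
        have hi := (hE.sm.inv.C_lt z' i c r' h2).1
        omega
      · rw [hc'] at h2
        rcases hcol' : E.col z' with _ | ⟨c2, r2⟩
        · rw [hcol'] at h2
          simp at h2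
        rw [hcol'] at h2
        simp only [Option.map_some, Option.some.injEq, Prod.mk.injEq] at h2
        obtain ⟨-, rfl, rfl⟩ := h1
        obtain ⟨-, rfl, rfl⟩ := h2
        right
        have h4 := hE.sep z z' _ _ _ hU hU' hcol' hcol h3 hok
        have hne : z ≠ z' := by
          rintro rfl
          rw [hcol] at hcol'
          simp only [Option.some.injEq, Prod.mk.injEq, true_and] at hcol'
          omega
        exact ⟨⟨hU, hU', _, _, _, hcol, hcol', h3⟩, op_chi_ne hE hne hU hU' h4.1 h4.2⟩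
  have h2 : E.Mon E.nC α ≤ E.Mon E.C α + E.G1 (E.Wl 2 α) := by
    unfold GData.Mon G1
    rw [← sum_add_distrib]
    refine sum_le_sum fun z _ => ?_
    rw [← sum_add_distrib]
    refine sum_le_sum fun z' _ => ?_
    have e1 : E.Wl 2 α z z' (E.lab z z') = if E.chi E.s z z' ≠ 0 then E.a α z z' else 0 := by
      unfold GSt.Wl
      rw [if_neg (by decide), if_neg (by decide)]
    rw [e1]
    have h0 := ha z z'
    by_cases h3 : E.monoR E.nC z z'
    · rw [if_pos h3]
      rcases h1 z z' h3 with h4 | h4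
      · rw [if_pos h4]
        split_ifs <;> linarith
      · rw [if_pos h4.1, if_pos h4.2]
        split_ifs <;> linarith
    · rw [if_neg h3]
      split_ifs <;> linarith
  have h3 := (abs_le.1 (hE.rl2 α)).2
  have h4 := (abs_le.1 (hE.rlp α)).2
  have h5 : E.prd (E.Wl 2 α) ≤ E.La α * (1 + 1 / 1000) / E.n1 :=
    (ol_prd_l2 hE.sm α).trans (div_le_div_of_nonneg_right
      (ol_lin_le hE.sm.dat hE.sm.inv.toSInv hE.sm.j_lt.le α) hn.le)
  have h6 : E.prd (E.Wl 2 α) / E.R ≤ E.La α * (1 + 1 / 1000) / E.n1 / E.R :=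
    div_le_div_of_nonneg_right h5 hR.le
  have h7 : E.La α / (E.n1 * E.R * E.T ^ 5) ≤ 1 / 1000 * (E.La α / (E.n1 * E.R)) := by
    have e : E.La α / (E.n1 * E.R * E.T ^ 5) = 1 / E.T ^ 5 * (E.La α / (E.n1 * E.R)) := by
      field_simp
    rw [e]
    refine mul_le_mul_of_nonneg_right ?_ (by positivity)
    refine one_div_le_one_div_of_le (by norm_num) ?_
    have := hE.sm.dat.big.pw (show 1 ≤ 5 by norm_num)
    rw [pow_one] at this
    linarith
  have h8 : 1 / E.R * (101 / 100 * E.La α / E.n1) = 101 / 100 * (E.La α / (E.n1 * E.R)) := by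
    field_simp
  have h9 : E.La α * (1 + 1 / 1000) / E.n1 / E.R = 1001 / 1000 * (E.La α / (E.n1 * E.R)) := by
    field_simp
    ring
  have h10 : 0 ≤ E.La α / (E.n1 * E.R) := by positivity
  rw [h8]
  rw [h9] at h6
  linarith

theorem un_next (v : V) : E.un E.nC v ≤ E.un E.C v * (1 - 94 / 100 / E.R) + E.T ^ 1600 := by
  have hT0 := GData.os_T_pos hE.sm.dat
  have hT := GData.os_T_ge hE.sm.dat
  have hR := GData.os_R_pos hE.sm.dat
  obtain ⟨A, hA⟩ : ∃ A : ℝ, A = ((E.U.filter fun z => z ∈ E.N v ∧ E.C z = none).card : ℝ) :=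
    ⟨_, rfl⟩
  have h1 := (abs_le.1 (hE.good.unc v)).1
  have h2 := hE.unc v
  rw [← hA] at h1 h2
  -- counting
  have h3 : E.un E.nC v ≤ E.un E.C v - A + ((E.U.filter fun z => z ∈ E.N v ∧ E.C z = none ∧
      (E.col z = none ∨ ¬ E.ok z)).card : ℝ) := by
    have e1 : E.un E.C v = (((E.N v).filter fun z => E.C z = none ∧ z ∉ E.U).card : ℝ) + A := by
      unfold GData.un
      rw [hA, ← Nat.cast_add]
      congr 1
      have e : (E.U.filter fun z => z ∈ E.N v ∧ E.C z = none) =
          (E.N v).filter fun z => E.C z = none ∧ z ∈ E.U := by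
        ext z
        simp only [mem_filter]
        tauto
      rw [e, ← card_union_of_disjoint]
      · congr 1
        ext z
        simp only [mem_filter, mem_union]
        tauto
      · rw [disjoint_left]
        intro z hz hz'
        exact (mem_filter.1 hz).2.2 (mem_filter.1 hz').2.2
    have e2 : E.un E.nC v ≤ (((E.N v).filter fun z => E.C z = none ∧ z ∉ E.U).card : ℝ) +
        ((E.U.filter fun z => z ∈ E.N v ∧ E.C z = none ∧
      (E.col z = none ∨ ¬ E.ok z)).card : ℝ) := by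
      unfold GData.un
      rw [← Nat.cast_add]
      refine Nat.cast_le.2 (le_trans (card_le_card ?_) (card_union_le _ _))
      intro z hz
      obtain ⟨hz1, hz2⟩ := mem_filter.1 hz
      rw [mem_union, mem_filter, mem_filter]
      rcases op_nC_cases (E := E) z with hc | ⟨hc0, hU, hok, hc⟩
      · rw [hc] at hz2
        by_cases hU : z ∈ E.U
        · right
          refine ⟨hU, hz1, hz2, ?_⟩
          by_contra hcon
          push Not at hcon
          have : E.nC z = (E.col z).map fun e => (E.j, e.1, e.2) := by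
            unfold nC
            rw [if_pos ⟨hz2, hU, hcon.2⟩]
          rw [this] at hc
          rw [hz2, Option.map_eq_none_iff] at hc
          exact hcon.1 hc
        · exact Or.inl ⟨hz1, hz2, hU⟩
      · right
        rw [hc, Option.map_eq_none_iff] at hz2
        exact ⟨hU, hz1, hc0, Or.inl hz2⟩
    linarith
  have h4 : 1 / E.T ≤ 1 / 100 := by
    refine one_div_le_one_div_of_le (by norm_num) ?_
    linarith
  have hA0 : 0 ≤ A := by
    rw [hA]
    exact Nat.cast_nonneg _
  have h5 : (1 / 20 + 1 / E.T) * A ≤ 6 / 100 * A := mul_le_mul_of_nonneg_right (by linarith) hA0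
  have h6 : E.T ^ 1500 ≤ E.T ^ 1600 / 4 := by
    have e : E.T ^ 1600 = E.T ^ 100 * E.T ^ 1500 := by rw [← pow_add]
    have e2 := hE.sm.dat.big.pw (show 1 ≤ 100 by norm_num)
    rw [pow_one] at e2
    have e3 : 0 < E.T ^ 1500 := by positivity
    rw [e]
    nlinarith
  have h7 : E.un E.C v * (1 - 94 / 100 / E.R) = E.un E.C v - 94 / 100 * (E.un E.C v / E.R) := by
    ring
  rw [h7]
  have h8 : 0 < E.T ^ 1600 := by positivity
  linarith

end

end GRn

end

end Pool.Agent.AcyG
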