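import Pool.Agent.AcyG.OStatY
import Pool.Agent.AcyG.OPrdX

/-! # The `x`-statistics after one stage (project MP_af9dfb_G, row OM) -/

set_option autoImplicit false
set_option linter.unusedSectionVars false

namespace Pool.Agent.AcyG

open Finset
open Pool.Agent.Acy (IsPM wt Ex Pr mean)
open Pool.Agent.AcyK (Big StepOK LocOK prodLaw Un Sel updCol HasC cN)
open scoped Classical

universe u v

section

variable {V AL : Type u} [Fintype V] [DecidableEq V] [Fintype AL]

namespace GRn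

variable {Lb : Type u} [Fintype Lb] {E : GRn V Lb AL} (hE : E.Ok)
include hE

theorem oq_small (n : ℝ) (hn : n ≤ 1000000) : n * (E.k / E.T ^ 4) ≤ E.k / E.T ^ 3 := by
  have hD := hE.sm.dat
  have hk := GData.os_k_pos hD
  have hT := GData.os_T_pos hD
  have hT6 := GData.os_T_ge hD
  have e : n * ((E.k : ℝ) / E.T ^ 4) = n / E.T * (E.k / E.T ^ 3) := by
    field_simp
  rw [e]
  refine mul_le_of_le_one_left (by positivity) ?_
  rw [div_le_one hT]
  linarith

theorem om_next (x : V) : E.om E.next x ≤ E.om E.s x +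
    1 / E.R * ((E.e1 + 2 / E.T ^ 20) * E.om E.s x + E.H * E.AY E.s x) + E.k / E.T ^ 3 := by
  have hD := hE.sm.dat
  have hR := GData.os_R_pos hD
  have hT := GData.os_T_pos hD
  have h1 := oq_om_next hE x
  have h2 := GSt.prd_x1 hE.sm x
  have h0 : 0 ≤ E.om E.s x := by
    unfold GData.om
    refine add_nonneg (sum_nonneg fun u _ => ?_) (mul_nonneg (by linarith [hD.H_one])
      (sum_nonneg fun u _ => ?_))
    · split_ifs
      · exact mul_nonneg (GData.os_X_nonneg hE.sm.inv.toSInv u x)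
          (GData.os_Y_nonneg hD hE.sm.inv.toSInv u x)
      · exact le_rfl
    · split_ifs
      · exact GData.os_X_nonneg hE.sm.inv.toSInv u x
      · exact le_rfl
  have h3 : E.prd (E.Wx 1 x) ≤ (E.e1 + 2 / E.T ^ 20) * E.om E.s x + E.H * E.AY E.s x := by
    have h4 : (E.e1 + 1 / E.T ^ 20) * E.om E.s x ≤ (E.e1 + 2 / E.T ^ 20) * E.om E.s x := by
      refine mul_le_mul_of_nonneg_right ?_ h0
      have : 1 / E.T ^ 20 ≤ 2 / E.T ^ 20 := div_le_div_of_nonneg_right (by norm_num)
        (by positivity)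
      linarith
    linarith
  have h5 := div_le_div_of_nonneg_right h3 hR.le
  have e : 1 / E.R * ((E.e1 + 2 / E.T ^ 20) * E.om E.s x + E.H * E.AY E.s x) =
    ((E.e1 + 2 / E.T ^ 20) * E.om E.s x + E.H * E.AY E.s x) / E.R := by ring
  rw [e]
  linarith

theorem oq_om_le (x : V) : E.om E.s x ≤ E.OB :=
  GData.om_le hE.sm.dat hE.sm.inv.toSInv hE.sm.j_lt.le x

theorem oq_OB_nonneg : 0 ≤ E.OB := by
  have h1 := GData.OB_ge hE.sm.dat
  have h2 := GData.os_n1_pos hE.sm.dat
  linarith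

theorem AS_next (x : V) : E.AS E.next x ≤ E.AS E.s x + 1 / E.R * (5 * E.C0 * E.OB) +
    E.k / E.T ^ 3 := by
  have hD := hE.sm.dat
  have hR := GData.os_R_pos hD
  have hC := hD.C0_one
  have h0 := oq_OB_nonneg hE
  have h1 := oq_AS_next hE x
  have h2 := GSt.prd_x3 hE.sm x
  have h3 := mul_le_mul_of_nonneg_left (oq_om_le hE x) (show 0 ≤ E.C0 by linarith)
  have h4 := div_le_div_of_nonneg_right (h2.trans h3) hR.le
  have h5 := oq_small hE 5 (by norm_num)
  have e : 1 / E.R * (5 * E.C0 * E.OB) = 5 * (E.C0 * E.OB / E.R) := by ring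
  have h6 : 0 ≤ E.C0 * E.OB / E.R := by positivity
  rw [e]
  linarith

theorem AY_next (x : V) : E.AY E.next x ≤ E.AY E.s x + 1 / E.R * (29 * E.C0 * E.H * E.OB) +
    E.k / E.T ^ 3 := by
  have hD := hE.sm.dat
  have hR := GData.os_R_pos hD
  have hC := hD.C0_one
  have hH := hD.H_one
  have h0 := oq_OB_nonneg hE
  have h1 := oq_AY_next hE x
  have h2 := GSt.prd_x4 hE.sm x
  have h3 := mul_le_mul_of_nonneg_left (oq_om_le hE x) (show 0 ≤ 6 * E.C0 * E.H by positivity)
  have h4 := div_le_div_of_nonneg_right (h2.trans h3) hR.le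
  have h5 := oq_small hE 7 (by norm_num)
  have e : 1 / E.R * (29 * E.C0 * E.H * E.OB) = 29 * (E.C0 * E.H * E.OB / E.R) := by ring
  have e2 : 6 * E.C0 * E.H * E.OB / E.R = 6 * (E.C0 * E.H * E.OB / E.R) := by ring
  have h6 : 0 ≤ E.C0 * E.H * E.OB / E.R := by positivity
  rw [e]
  rw [e2] at h4
  linarith

theorem FO_next (x : V) : E.FO E.next x ≤ E.FO E.s x + 1 / E.R * (E.H * E.AS E.s x) +
    E.k / E.T ^ 3 := by
  have hD := hE.sm.dat
  have hR := GData.os_R_pos hD
  have h1 := oq_FO_next hE x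
  have h4 := div_le_div_of_nonneg_right (GSt.prd_x6 hE.sm x) hR.le
  have h5 := oq_small hE 4 (by norm_num)
  have e : 1 / E.R * (E.H * E.AS E.s x) = E.H * E.AS E.s x / E.R := by ring
  rw [e]
  linarith

theorem CH_next (x : V) : E.CH E.next x ≤ E.CH E.s x + 1 / E.R * (5 * E.C0 * E.Kc * E.OB) +
    E.k / E.T ^ 3 := by
  have hD := hE.sm.dat
  have hR := GData.os_R_pos hD
  have hC := hD.C0_one
  have hK := GData.os_Kc_one hD
  have h0 := oq_OB_nonneg hE
  have h1 := oq_CH_next hE x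
  have h2 := GSt.prd_x7 hE.sm x
  have h3 := mul_le_mul_of_nonneg_left (oq_om_le hE x) (show 0 ≤ 2 * E.C0 * E.Kc by positivity)
  have h4 := div_le_div_of_nonneg_right (h2.trans h3) hR.le
  have h5 := oq_small hE 3 (by norm_num)
  have e : 1 / E.R * (5 * E.C0 * E.Kc * E.OB) = 5 * (E.C0 * E.Kc * E.OB / E.R) := by ring
  have e2 : 2 * E.C0 * E.Kc * E.OB / E.R = 2 * (E.C0 * E.Kc * E.OB / E.R) := by ring
  have h6 : 0 ≤ E.C0 * E.Kc * E.OB / E.R := by positivity
  rw [e]
  rw [e2] at h4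
  linarith

end GRn

end

end Pool.Agent.AcyG
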