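import Pool.Agent.AcyG.OInv
import Pool.Agent.AcyG.OMom
import Pool.Agent.AcyG.OGram
import Pool.Agent.AcyG.OLinN

/-! # The invariants after a stage (project MP_af9dfb_G, row OI) -/

set_option autoImplicit false
set_option linter.unusedSectionVars false

namespace Pool.Agent.AcyG

open Finset
open scoped Classical

universe u v

variable {V AL : Type u} [Fintype V] [DecidableEq V] [Fintype AL]

/-- The invariants after the stage. -/
theorem GRn.inv_next {Lb : Type u} [Fintype Lb] {E : GRn V Lb AL} (hE : E.Ok) :
    E.toGData.SInv E.W0 E.W1 (E.j + 1) E.next E.nC :=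
  GRn.inv_next_of hE (om_next hE) (AS_next hE) (AY_next hE) (FO_next hE) (CH_next hE)
    (fun _ _ h => gram_next hE h) (gbrow_next hE) (lin_next hE) (mon_next hE) (un_next hE)

end Pool.Agent.AcyG
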