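import Pool.Agent.AcyG.OTabK
import Pool.Agent.AcyG.OFire

/-! # The data of a stage are admissible (project MP_af9dfb_G, rows ON and OF) -/

set_option autoImplicit false
set_option linter.unusedSectionVars false

namespace Pool.Agent.AcyG

open Finset
open scoped Classical

universe u v

section

variable {V AL : Type u} [Fintype V] [DecidableEq V] [Fintype AL] {Lb : Type u} [Fintype Lb]

theorem GSt.ftab {E : GSt V Lb AL} (hE : E.Ok) : E.FTab where
  W_le := GSt.W_le hE
  ws_supp := GSt.ws_supp hE
  ws_deg := GSt.ws_deg hE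
  wK_le := GSt.wK_le hE
  wKs_supp := GSt.wKs_supp hE
  wKs_deg := GSt.wKs_deg hE
  afs_supp := GSt.afs_supp hE
  afs_deg := GSt.afs_deg hE

namespace GSm

variable {E : GSm V Lb AL}

/-- The data of the semi-random colouring are admissible. -/
theorem nib_ok (hE : E.toGSt.Ok) (hG : E.Good) : E.nib.Ok :=
  nib_ok_of hE hG (GSt.ws_supp hE) (GSt.ws_deg hE)

/-- The data of the firing process are admissible. -/
theorem fire_ok (hE : E.toGSt.Ok) (hG : E.Good) : E.fire.Ok :=
  fire_ok_of hE hG (GSt.ftab hE)

end GSm

end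

end Pool.Agent.AcyG
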