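import Pool.Agent.AcyG.OPtw

/-! # The semi-random colouring of a stage satisfies its hypotheses (project MP_af9dfb_G, row
ONib) -/

set_option autoImplicit false
set_option linter.unusedSectionVars false

namespace Pool.Agent.AcyG

open Finset
open Pool.Agent.Acy (IsPM wt Ex Pr mean)
open Pool.Agent.AcyK (Big StepOK LocOK prodLaw Un Sel updCol HasC cN)
open scoped Classical

universe u v

section

variable {V AL : Type u} [Fintype V] [DecidableEq V] [Fintype AL]

namespace GData

variable {D : GData V AL}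

/-- Vertices at distance two. -/
theorem on_two_card (hD : D.Ok) (x : V) :
    ((univ.filter fun u => 0 < D.cod x u).card : ℝ) ≤ D.T ^ 7200 := by
  have h1 : (univ.filter fun u => 0 < D.cod x u) ⊆ (D.N x).biUnion D.N := by
    intro u hu
    have h2 := (mem_filter.1 hu).2
    unfold cod at h2
    have h3 : 0 < (cN D.N x u).card := by exact_mod_cast h2
    obtain ⟨z, hz⟩ := card_pos.1 h3
    rw [mem_biUnion]
    exact ⟨z, (mem_inter.1 hz).1, hD.N_symm _ _ (mem_inter.1 hz).2⟩
  have h2 : ((univ.filter fun u => 0 < D.cod x u).card : ℝ) ≤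
      ∑ z ∈ D.N x, ((D.N z).card : ℝ) := by
    have := (card_le_card h1).trans card_biUnion_le
    exact_mod_cast this
  refine h2.trans ?_
  calc ∑ z ∈ D.N x, ((D.N z).card : ℝ) ≤ ∑ _z ∈ D.N x, D.T ^ 3600 :=
        sum_le_sum fun z _ => hD.deg z
    _ = (D.N x).card * D.T ^ 3600 := by rw [sum_const, nsmul_eq_mul]
    _ ≤ D.T ^ 3600 * D.T ^ 3600 :=
        mul_le_mul_of_nonneg_right (hD.deg x) (pow_nonneg (os_T_pos hD).le _)
    _ = D.T ^ 7200 := by rw [← pow_add]

theorem on_OB (hD : D.Ok) : D.OB ≤ D.T ^ 4802 := by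
  unfold OB
  have h1 : D.am ^ 2 ≤ (D.T ^ 2401) ^ 2 :=
    pow_le_pow_left₀ (os_am_pos hD).le hD.am_hi 2
  have h2 : (D.T ^ 2401) ^ 2 = D.T ^ 4802 := by rw [← pow_mul]
  have h3 : 0 ≤ D.am ^ 2 := sq_nonneg _
  linarith

theorem on_OB_nonneg : 0 ≤ D.OB := by
  unfold OB
  positivity

theorem on_kap_T (hD : D.Ok) : D.kap ≤ D.T := by
  have a1 := hD.kap_one
  have a2 := hD.H_one
  have a3 := hD.C0_one
  have b0 : (1 : ℝ) ≤ D.H * D.C0 := one_le_mul_of_one_le_of_one_le a2 a3
  have a4 : D.kap ≤ D.kap * D.H * D.C0 := by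
    have : D.kap * D.H * D.C0 = D.kap * (D.H * D.C0) := by ring
    rw [this]
    exact le_mul_of_one_le_right (by linarith) b0
  have a7 : (1 : ℝ) ≤ D.kap * D.H * D.C0 := a1.trans a4
  have a8 : D.kap * D.H * D.C0 ≤ (D.kap * D.H * D.C0) ^ 10 := by
    have := pow_le_pow_right₀ a7 (show 1 ≤ 10 by norm_num)
    rwa [pow_one] at this
  have a9 := hD.Kc_ge
  have a10 : 0 ≤ (D.kap * D.H * D.C0) ^ 10 := by positivity
  have a11 := os_Kc_T hD
  nlinarith

variable {W0 W1 : ℝ} {j : ℕ} {s : GState V} {C : V → Option (ℕ × Fin D.k × ℕ)}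

theorem on_twn_card (hD : D.Ok) (hs : D.SInv W0 W1 j s C) (hj : j ≤ D.NS) (y : V) :
    ((univ.filter fun y' => D.twn s y y').card : ℝ) ≤ D.T ^ 3000 := by
  have h0 := os_T_pos hD
  have h1 : ((univ.filter fun y' => D.twn s y y').card : ℝ) * D.T ^ 4225 ≤ ∑ y', s.GB y y' := by
    calc ((univ.filter fun y' => D.twn s y y').card : ℝ) * D.T ^ 4225
        = ∑ y' ∈ univ.filter fun y' => D.twn s y y', D.T ^ 4225 := by
          rw [sum_const, nsmul_eq_mul]
      _ ≤ ∑ y' ∈ univ.filter fun y' => D.twn s y y', s.GB y y' :=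
          sum_le_sum fun y' hy' => (show D.T ^ 4225 < s.GB y y' from (mem_filter.1 hy').2).le
      _ ≤ ∑ y', s.GB y y' := sum_le_sum_of_subset_of_nonneg (subset_univ _)
          fun y' _ _ => hs.GB_nonneg y y'
  have h2 := hs.gbrow y
  have h3 : (j / D.R) * (D.T ^ 2404 * D.OB) ≤ D.T * (D.T ^ 2404 * D.T ^ 4802) := by
    have h4 := os_jR hD hj
    have h5 := on_kap_T hD
    have h6 := on_OB hD
    have h7 := on_OB_nonneg (D := D)
    have h8 : (0 : ℝ) ≤ j / D.R := div_nonneg (Nat.cast_nonneg _) (os_R_pos hD).le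
    exact mul_le_mul (h4.trans h5) (mul_le_mul_of_nonneg_left h6 (pow_nonneg h0.le _))
      (mul_nonneg (pow_nonneg h0.le _) h7) h0.le
  have h4 : D.T * (D.T ^ 2404 * D.T ^ 4802) = D.T ^ 7207 := by ring
  have h5 : D.T ^ 7207 ≤ D.T ^ 3000 * D.T ^ 4225 := by
    rw [← pow_add]
    exact hD.big.pw (by norm_num)
  exact le_of_mul_le_mul_right (by linarith) (pow_pos h0 4225)

theorem on_dec_T (hD : D.Ok) {j : ℕ} (hj : j ≤ D.NS) : 1 / D.T ≤ D.dec j := by
  have h0 := os_T_pos hD
  have h1 := os_jR hD hj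
  have h2 := hD.H_one
  have h3 := hD.C0_one
  have h4 : 4 * D.C0 * D.H * (j / D.R) ≤ 10 * D.C0 * D.H * D.kap := by
    have h5 : 0 ≤ D.C0 * D.H := by positivity
    have h6 : (0 : ℝ) ≤ j / D.R := div_nonneg (Nat.cast_nonneg _) (os_R_pos hD).le
    nlinarith [hD.kap_one]
  have h5 : D.T⁻¹ ≤ Real.exp (-(10 * D.C0 * D.H * D.kap)) := by
    rw [Real.exp_neg]
    exact inv_anti₀ (Real.exp_pos _) (hD.Kc_exp.trans (os_Kc_T hD))
  rw [one_div]
  exact h5.trans (Real.exp_le_exp.2 (by linarith))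

end GData

variable {Lb : Type u} [Fintype Lb]

namespace GSt

variable {E : GSt V Lb AL}

theorem on_W_symm (hE : E.Ok) (i : Tst V AL) (z z' : V) (l : Lb) :
    E.W i z z' l = E.W i z' z l := by
  have h1 : E.ga l z z' = E.ga l z' z := by
    funext x y
    exact op_ga_swap hE l z z' x y
  have h2 : E.gu l z z' = E.gu l z' z := by
    funext x y
    exact op_gu_swap hE l z z' x y
  rcases i with ⟨i, x⟩ | ⟨i, x, y⟩ | ⟨i, y, y'⟩ | ⟨i, α⟩
  · show E.Wx i.down x z z' l = E.Wx i.down x z' z l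
    unfold Wx
    rw [h1, h2]
  · show E.Wp i.down x y z z' l = E.Wp i.down x y z' z l
    unfold Wp
    rw [h1]
  · show E.Wg i.down y y' z z' l = E.Wg i.down y y' z' z l
    unfold Wg
    rw [h1]
  · show E.Wl i.down α z z' l = E.Wl i.down α z' z l
    unfold Wl
    rw [h1, GData.os_chi_symm hE.dat hE.inv.toSInv z z', hE.dat.a_symm α z z']

theorem on_W_chi (hE : E.Ok) (i : Tst V AL) {z z' : V} (h : E.chi E.s z z' = 0) (l : Lb) :
    E.W i z z' l = 0 := by
  have h1 : ∀ x y, E.ga l z z' x y = 0 := by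
    intro x y
    unfold ga
    rw [op_u_zero hE l (Or.inl h)]
    simp
  have h2 : ∀ x y, E.gu l z z' x y = 0 := by
    intro x y
    unfold gu
    rw [op_u_zero hE l (Or.inl h)]
    simp
  rcases i with ⟨i, x⟩ | ⟨i, x, y⟩ | ⟨i, y, y'⟩ | ⟨i, α⟩
  · show E.Wx i.down x z z' l = 0
    unfold Wx S3
    simp [h1, h2]
  · show E.Wp i.down x y z z' l = 0
    unfold Wp
    simp [h1]
  · show E.Wg i.down y y' z z' l = 0
    unfold Wg
    simp [h1]
  · show E.Wl i.down α z z' l = 0
    unfold Wl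
    simp [h1, h]

/-- A test that sees a pair: the pair has a common neighbour. -/
theorem on_W_cod (hE : E.Ok) (i : Tst V AL) {z z' : V} {l : Lb} (h : E.W i z z' l ≠ 0) :
    0 < E.toGData.cod z z' := by
  by_contra h0
  have hc : cN E.N z z' = ∅ := by
    rw [← card_eq_zero]
    unfold GData.cod at h0
    have h3 : ¬ 0 < (cN E.N z z').card := fun h4 => h0 (by exact_mod_cast h4)
    omega
  have hu : ∀ x y, E.u l z z' x y = 0 := by
    intro x y
    by_contra h3
    by_cases h4 : (E.toGData.sd E.s).lnk z z' x y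
    · have h5 : x ∈ cN E.N z z' := by
        have a1 : z ∈ cN E.N x y := h4.2.2.1
        have a2 : z' ∈ cN E.N x y := h4.2.2.2
        exact mem_inter.2 ⟨hE.dat.N_symm _ _ (mem_inter.1 a1).1,
          hE.dat.N_symm _ _ (mem_inter.1 a2).1⟩
      rw [hc] at h5
      exact notMem_empty _ h5
    · obtain ⟨-, -, -, h5⟩ := hE.cols.supp l z z' x y h4 h3
      have h6 : E.far z z' := h5.1
      have h7 := h6.2.2.1
      have h8 : 0 < E.T ^ 2385 := pow_pos (GData.os_T_pos hE.dat) _
      exact h0 (lt_of_lt_of_le h8 h7)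
  have h1 : ∀ x y, E.ga l z z' x y = 0 := by
    intro x y
    unfold ga
    rw [hu]
    simp
  have h2 : ∀ x y, E.gu l z z' x y = 0 := by
    intro x y
    unfold gu
    rw [hu]
    simp
  apply h
  rcases i with ⟨i, x⟩ | ⟨i, x, y⟩ | ⟨i, y, y'⟩ | ⟨i, α⟩
  · show E.Wx i.down x z z' l = 0
    unfold Wx S3
    simp [h1, h2]
  · show E.Wp i.down x y z z' l = 0
    unfold Wp
    simp [h1]
  · show E.Wg i.down y y' z z' l = 0
    unfold Wg
    simp [h1]
  · show E.Wl i.down α z z' l = 0
    have ha : E.a α z z' = 0 := by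
      by_contra h3
      have h4 := hE.dat.a_cod α z z' h3
      rw [hc] at h4
      exact Finset.not_nonempty_empty h4
    unfold Wl
    simp [h1, ha]

theorem on_La_nonneg (hE : E.Ok) (α : AL) : 0 ≤ E.La α := by
  have h1 := hE.dat.num1 α
  have h2 := hE.dat.s1_pos α
  have h3 : 0 < E.T ^ 1500 := pow_pos (GData.os_T_pos hE.dat) _
  nlinarith [mul_pos h3 h2]

theorem on_dV_nonneg (hE : E.Ok) (i : Tst V AL) : 0 ≤ E.dV i := by
  have h0 := GData.os_T_pos hE.dat
  rcases i with ⟨i, x⟩ | ⟨i, x, y⟩ | ⟨i, y, y'⟩ | ⟨i, α⟩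
  · show 0 ≤ E.T ^ 7220
    positivity
  · show 0 ≤ E.T ^ 2403
    positivity
  · show 0 ≤ E.T ^ 7220
    positivity
  · show 0 ≤ if i.down = 2 then E.ar α else E.T ^ 2404 * E.La α
    split_ifs
    · by_cases hV : Nonempty V
      · obtain ⟨z⟩ := hV
        exact (sum_nonneg fun z' _ => hE.dat.a_nonneg α z z').trans (hE.dat.a_row α z)
      · exfalso
        exact hV ⟨E.ctr α⟩
    · exact mul_nonneg (by positivity) (on_La_nonneg hE α)

theorem on_wm_pos (hE : E.Ok) (i : Tst V AL) : 0 < E.wm i := by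
  have h0 := GData.os_T_pos hE.dat
  rcases i with ⟨i, x⟩ | ⟨i, x, y⟩ | ⟨i, y, y'⟩ | ⟨i, α⟩
  · show 0 < E.T ^ 2403
    positivity
  · exact h0
  · show 0 < E.T ^ 2403
    positivity
  · show 0 < if i.down = 2 then E.s0 α else E.T * E.s1 α
    split_ifs
    · exact hE.dat.s0_pos α
    · exact mul_pos h0 (hE.dat.s1_pos α)

theorem on_d1_nonneg (hE : E.Ok) (i : Tst V AL) : 0 ≤ E.d1 i := by
  unfold d1
  have h0 := GData.os_T_pos hE.dat
  have h1 := GData.os_R_pos hE.dat
  have h2 := on_dV_nonneg hE i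
  have h3 := (on_wm_pos hE i).le
  exact add_nonneg (div_nonneg (mul_nonneg zero_le_two h2) h1.le)
    (mul_nonneg (pow_nonneg h0.le _) h3)

end GSt

namespace GSm

variable {E : GSm V Lb AL}

theorem on_rs_symm (hE : E.toGSt.Ok) {f : V → V → ℝ} (hf : ∀ x y, f x y = f y x) (x y : V) :
    E.rs x y (f x y) = E.rs y x (f y x) := by
  have _ := hE
  unfold rs
  rw [hf x y]
  exact if_congr and_comm rfl rfl

theorem on_K_symm (hE : E.toGSt.Ok) (x y : V) : E.K E.s x y = E.K E.s y x := by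
  unfold GData.K
  rw [hE.inv.X_symm x y]
  exact if_congr (GData.os_far_comm hE.dat x y) rfl rfl

/-- The kernel of the stage. -/
theorem on_nK (x y : V) : E.nib.K x y = if x ∈ E.U ∧ y ∈ E.U then E.K E.s x y else 0 := rfl

theorem on_K_far {x y : V} (h : E.far x y) : E.K E.s x y = E.s.X x y - 1 := by
  unfold GData.K
  rw [if_pos h]

theorem on_K_not {x y : V} (h : ¬ E.far x y) : E.K E.s x y = 0 := by
  unfold GData.K
  rw [if_neg h]

theorem on_nK_symm (hE : E.toGSt.Ok) (x y : V) : E.nib.K x y = E.nib.K y x :=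
  on_rs_symm hE (on_K_symm hE) x y

theorem on_h_symm (hE : E.toGSt.Ok) (x y : V) : E.h x y = E.h y x := by
  unfold h
  rw [hE.inv.X_symm x y]
  refine if_congr ?_ rfl rfl
  rw [GData.os_far_comm hE.dat x y]
  tauto

theorem on_sp_symm (hE : E.toGSt.Ok) {x y : V} (h : E.sp x y) : E.sp y x := by
  obtain ⟨h1, h2, h3⟩ := h
  refine ⟨h2, h1, ?_⟩
  rcases h3 with h3 | h3 | h3
  · exact Or.inl (GData.os_spe_symm hE.dat h3)
  · refine Or.inr (Or.inl ⟨GData.os_far_symm hE.dat h3.1, ?_, ?_⟩)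
    · rw [hE.inv.X_symm]
      exact h3.2.1
    · exact fun h4 => h3.2.2 ((GData.os_nf_comm hE.dat hE.inv.toSInv x y).2 h4)
  · exact Or.inr (Or.inr ⟨GData.os_lig_symm hE.dat h3.1,
      (GData.os_twn_comm hE.inv.toSInv x y).1 h3.2⟩)

theorem on_spe_far {x y : V} (h : E.spe x y) : ¬ E.far x y := by
  intro h'
  rcases h.2 with h1 | h1
  · exact h'.2.1 h1
  · exact absurd h'.2.2.2 (not_le.2 h1)

theorem on_lig_far {x y : V} (h : E.lig x y) : ¬ E.far x y := fun h' =>
  absurd h'.2.2.1 (not_le.2 h.2.2)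

theorem on_sp_K {x y : V} (h : E.sp x y) : E.nib.K x y ≠ -1 := by
  rw [on_nK, if_pos ⟨h.1, h.2.1⟩]
  rcases h.2.2 with h3 | h3 | h3
  · rw [on_K_not (on_spe_far h3)]
    norm_num
  · rw [on_K_far h3.1]
    intro h4
    exact h3.2.1 (by linarith)
  · rw [on_K_not (on_lig_far h3.1)]
    norm_num

theorem on_X_lo (hE : E.toGSt.Ok) {x y : V} (h : E.s.X x y ≠ 0) : 1 / E.T ≤ E.s.X x y := by
  rcases hE.inv.X_lo x y with h1 | h1
  · exact absurd h1 h
  · exact (GData.on_dec_T hE.dat hE.j_lt.le).trans h1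

theorem on_inv_T (hE : E.toGSt.Ok) : 1 / E.T ≤ 1 := by
  rw [div_le_one (GData.os_T_pos hE.dat)]
  linarith [GData.os_T_ge hE.dat]

theorem on_K_cases (hE : E.toGSt.Ok) (x y : V) :
    E.nib.K x y = -1 ∨ 1 / E.T ≤ 1 + E.nib.K x y := by
  have h1 := on_inv_T hE
  rw [on_nK]
  split_ifs with h
  · by_cases hf : E.far x y
    · rw [on_K_far hf]
      by_cases hX : E.s.X x y = 0
      · left
        rw [hX]
        ring
      · right
        linarith [on_X_lo hE hX]
    · right
      rw [on_K_not hf]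
      linarith
  · right
    linarith

theorem on_log_pos (hE : E.toGSt.Ok) : 0 < Real.log E.T := hE.dat.big.log_pos

theorem on_h_nonneg (hE : E.toGSt.Ok) (x y : V) : 0 ≤ E.h x y := by
  have h1 := on_log_pos hE
  unfold h
  split_ifs with h2
  · exact mul_nonneg (by positivity) (Real.log_nonneg h2.2.2.2)
  · exact le_rfl

theorem on_h_le (hE : E.toGSt.Ok) (x y : V) : E.h x y ≤ 1 := by
  have h1 := on_log_pos hE
  unfold h
  split_ifs with h2
  · have h3 := hE.inv.X_hi x y
    have h4 : Real.log (E.s.X x y) ≤ Real.log E.Kc :=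
      Real.log_le_log (by linarith [h2.2.2.2]) h3
    have h5 : E.Kc ^ 10 ≤ E.T := GData.os_Kc_pow_T hE.dat (by norm_num)
    have h6 : Real.log (E.Kc ^ 10) ≤ Real.log E.T :=
      Real.log_le_log (pow_pos (by linarith [GData.os_Kc_one hE.dat]) _) h5
    rw [Real.log_pow] at h6
    push_cast at h6
    rw [div_mul_eq_mul_div, div_le_one h1]
    linarith
  · exact zero_le_one

theorem on_K_exp (hE : E.toGSt.Ok) (x y : V) (_h : E.nib.K x y ≠ -1) :
    1 + E.nib.K x y ≤ Real.exp (Real.log E.T / 10 * E.h x y) := by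
  have h1 := on_log_pos hE
  have h0 : 0 ≤ Real.log E.T / 10 * E.h x y := mul_nonneg (by positivity) (on_h_nonneg hE x y)
  have h2 : (1 : ℝ) ≤ Real.exp (Real.log E.T / 10 * E.h x y) := Real.one_le_exp h0
  rw [on_nK]
  split_ifs with h
  · by_cases hf : E.far x y
    · rw [on_K_far hf]
      by_cases hX : 1 ≤ E.s.X x y
      · have h3 : Real.log E.T / 10 * E.h x y = Real.log (E.s.X x y) := by
          unfold GSm.h
          rw [if_pos ⟨h.1, h.2, hf, hX⟩]
          field_simp
        rw [h3, Real.exp_log (by linarith)]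
        linarith
      · linarith
    · rw [on_K_not hf]
      linarith
  · linarith

theorem on_h_dead (x y : V) (h : E.nib.K x y = -1) : E.h x y = 0 := by
  unfold GSm.h
  rw [if_neg]
  rintro ⟨h1, h2, h3, h4⟩
  rw [on_nK, if_pos ⟨h1, h2⟩, on_K_far h3] at h
  linarith

theorem on_exp (hE : E.toGSt.Ok) {x y : V} (hx : x ∈ E.U) (hy : y ∈ E.U) (hf : E.far x y)
    (hX : 1 ≤ E.s.X x y) :
    2 * (1 + E.nib.K x y) * (Real.exp (20 * Real.log E.T * E.h x y) - 1) =
      2 * E.s.X x y * (E.s.X x y ^ 200 - 1) := by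
  have h1 := on_log_pos hE
  have h3 : 20 * Real.log E.T * E.h x y = (200 : ℕ) * Real.log (E.s.X x y) := by
    unfold GSm.h
    rw [if_pos ⟨hx, hy, hf, hX⟩]
    push_cast
    field_simp
    ring
  have h4 : Real.exp (20 * Real.log E.T * E.h x y) = E.s.X x y ^ 200 := by
    rw [h3, ← Real.log_pow, Real.exp_log (pow_pos (by linarith) _)]
  rw [h4, on_nK, if_pos ⟨hx, hy⟩, on_K_far hf]
  ring

theorem on_exp0 {x y : V} (h : ¬ (x ∈ E.U ∧ y ∈ E.U ∧ E.far x y ∧ 1 ≤ E.s.X x y)) :
    2 * (1 + E.nib.K x y) * (Real.exp (20 * Real.log E.T * E.h x y) - 1) = 0 := by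
  unfold GSm.h
  rw [if_neg h, mul_zero, Real.exp_zero, sub_self, mul_zero]

theorem on_a (b : Fin 3) (x y : V) : E.nib.a b x y =
    if b = 0 then max (-E.nib.K y x) 0 else
    if b = 1 then (if E.nib.K y x ≠ -1 then 2 * (1 + E.nib.K y x) *
      (Real.exp (20 * Real.log E.T * E.h y x) - 1) else 0) else
    if E.sp y x then 2 * (1 + E.nib.K y x) else 0 := rfl

/-- Second kind of test weights. -/
theorem on_a1 (hE : E.toGSt.Ok) (x y : V) : E.nib.a 1 x y =
    if y ∈ E.U ∧ x ∈ E.U ∧ E.far y x ∧ 1 ≤ E.s.X y x then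
      2 * E.s.X y x * (E.s.X y x ^ 200 - 1) else 0 := by
  have e : E.nib.a 1 x y = if E.nib.K y x ≠ -1 then
      2 * (1 + E.nib.K y x) * (Real.exp (20 * Real.log E.T * E.h y x) - 1) else 0 := by
    rw [on_a, if_neg (by simp), if_pos rfl]
  rw [e]
  by_cases h : y ∈ E.U ∧ x ∈ E.U ∧ E.far y x ∧ 1 ≤ E.s.X y x
  · have h1 : E.nib.K y x ≠ -1 := by
      rw [on_nK, if_pos ⟨h.1, h.2.1⟩, on_K_far h.2.2.1]
      intro h2
      linarith [h.2.2.2]
    rw [if_pos h1, if_pos h, on_exp hE h.1 h.2.1 h.2.2.1 h.2.2.2]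
  · rw [if_neg h, on_exp0 h, ite_self]

theorem on_a0 (x y : V) : E.nib.a 0 x y = max (-E.nib.K y x) 0 := by
  rw [on_a, if_pos rfl]

theorem on_a2 (x y : V) : E.nib.a 2 x y = if E.sp y x then 2 * (1 + E.nib.K y x) else 0 := by
  rw [on_a, if_neg (by simp), if_neg (by simp)]

theorem on_nK_ge (hE : E.toGSt.Ok) (x y : V) : -1 ≤ E.nib.K x y := by
  rcases on_K_cases hE x y with h | h
  · rw [h]
  · have h1 : 0 < 1 / E.T := one_div_pos.2 (GData.os_T_pos hE.dat)
    linarith

theorem on_nK_le (hE : E.toGSt.Ok) (x y : V) : 1 + E.nib.K x y ≤ E.Kc := by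
  have h1 := GData.os_Kc_one hE.dat
  rw [on_nK]
  split_ifs with h
  · by_cases hf : E.far x y
    · rw [on_K_far hf]
      linarith [hE.inv.X_hi x y]
    · rw [on_K_not hf]
      linarith
  · linarith

theorem on_a1_nonneg (hE : E.toGSt.Ok) (x y : V) : 0 ≤ E.nib.a 1 x y := by
  rw [on_a1 hE]
  split_ifs with h
  · have h1 := h.2.2.2
    have h2 : (1 : ℝ) ≤ E.s.X y x ^ 200 := one_le_pow₀ h1
    exact mul_nonneg (by linarith) (by linarith)
  · exact le_rfl

theorem on_a1_le (hE : E.toGSt.Ok) (x y : V) : E.nib.a 1 x y ≤ E.T := by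
  have h0 := GData.os_T_pos hE.dat
  have hK := GData.os_Kc_one hE.dat
  have hK6 := GData.os_Kc_ge hE.dat
  rw [on_a1 hE]
  split_ifs with h
  · have h1 := h.2.2.2
    have h2 := hE.inv.X_hi y x
    have h3 : E.s.X y x ^ 200 ≤ E.Kc ^ 200 := pow_le_pow_left₀ (by linarith) h2 _
    have h4 : 2 * E.s.X y x * (E.s.X y x ^ 200 - 1) ≤ 2 * E.Kc * E.Kc ^ 200 := by
      have h5 : (1 : ℝ) ≤ E.s.X y x ^ 200 := one_le_pow₀ h1
      exact mul_le_mul (by linarith) (by linarith) (by linarith) (by linarith)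
    have h5 : 2 * E.Kc * E.Kc ^ 200 ≤ E.Kc * E.Kc * E.Kc ^ 200 := by
      have h6 : (2 : ℝ) ≤ E.Kc := by norm_num at hK6; linarith
      gcongr
    have h6 : E.Kc * E.Kc * E.Kc ^ 200 = E.Kc ^ 202 := by ring
    have h7 : E.Kc ^ 202 ≤ E.T := GData.os_Kc_pow_T hE.dat (by norm_num)
    linarith
  · exact h0.le

theorem on_two_Kc (hE : E.toGSt.Ok) : 2 * E.Kc ≤ E.T := by
  have hK6 := GData.os_Kc_ge hE.dat
  have hK := GData.os_Kc_one hE.dat
  have h7 : E.Kc ^ 2 ≤ E.T := GData.os_Kc_pow_T hE.dat (by norm_num)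
  norm_num at hK6
  nlinarith

/-- Neighbours in the relation. -/
theorem on_R_card (hE : E.toGSt.Ok) (hG : E.Good) (x : V) :
    ((E.nib.R x).card : ℝ) ≤ E.T ^ 4017 := by
  have h0 := GData.os_T_pos hE.dat
  have h1 : E.nib.R x ⊆ (E.U.filter fun u => E.far u x) ∪ ((E.U.filter fun u => E.spe u x) ∪
      univ.filter fun u => E.twn E.s x u) := by
    intro u hu
    have h2 := (mem_filter.1 hu).2
    obtain ⟨h3, h4, h5⟩ := h2
    simp only [mem_union, mem_filter, mem_univ, true_and]
    rcases h5 with h5 | h5 | h5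
    · exact Or.inl ⟨h3, h5⟩
    · exact Or.inr (Or.inl ⟨h3, h5⟩)
    · exact Or.inr (Or.inr ((GData.os_twn_comm hE.inv.toSInv u x).1 h5.2))
  have h2 : ((E.nib.R x).card : ℝ) ≤ ((E.U.filter fun u => E.far u x).card : ℝ) +
      (((E.U.filter fun u => E.spe u x).card : ℝ) +
        ((univ.filter fun u => E.twn E.s x u).card : ℝ)) := by
    have := (card_le_card h1).trans ((card_union_le _ _).trans
      (Nat.add_le_add_left (card_union_le _ _) _))
    exact_mod_cast this
  have h3 := hG.far x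
  have h4 := hG.spe x
  have h5 := GData.on_twn_card hE.dat hE.inv.toSInv hE.j_lt.le x
  have h6 := hE.dat.k_hi
  have h7 : E.T ^ 4000 ≤ E.T ^ 4016 := hE.dat.big.pw (by norm_num)
  have h8 : E.T ^ 3000 ≤ E.T ^ 4016 := hE.dat.big.pw (by norm_num)
  have h9 : E.T ^ 4017 = E.T * E.T ^ 4016 := by rw [← pow_succ']
  have h10 := GData.os_T_ge hE.dat
  have h11 : 0 ≤ E.T ^ 4016 := pow_nonneg h0.le _
  have h12 : 0 ≤ (E.k : ℝ) := Nat.cast_nonneg _
  rw [h9]
  nlinarith

/-- The sum of the test weights of the third kind. -/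
theorem on_a2_sum (hE : E.toGSt.Ok) (hG : E.Good) (x : V) :
    ∑ y, E.nib.a 2 x y ≤ (E.k : ℝ) / 200 := by
  have h0 := GData.os_T_pos hE.dat
  have h1 : ∀ y, E.nib.a 2 x y ≤ (if y ∈ E.U ∧ E.spe y x then 2 else 0) +
      ((if y ∈ E.U then 2 * (if E.far y x ∧ E.s.X y x ≠ 0 ∧ ¬ E.nf E.s y x then E.s.X y x else 0)
        else 0) + (if E.twn E.s x y then 2 else 0)) := by
    intro y
    have a1 : (0 : ℝ) ≤ if y ∈ E.U ∧ E.spe y x then 2 else 0 := by split_ifs <;> norm_num
    have a2 : (0 : ℝ) ≤ if y ∈ E.U then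
        2 * (if E.far y x ∧ E.s.X y x ≠ 0 ∧ ¬ E.nf E.s y x then E.s.X y x else 0) else 0 := by
      split_ifs
      · exact mul_nonneg zero_le_two (GData.os_X_nonneg hE.inv.toSInv y x)
      · norm_num
      · exact le_rfl
    have a3 : (0 : ℝ) ≤ if E.twn E.s x y then 2 else 0 := by split_ifs <;> norm_num
    rw [on_a2]
    by_cases h : E.sp y x
    · rw [if_pos h]
      rcases h.2.2 with h3 | h3 | h3
      · have h4 : E.nib.K y x = 0 := by
          rw [on_nK, if_pos ⟨h.1, h.2.1⟩, on_K_not (on_spe_far h3)]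
        rw [h4, if_pos ⟨h.1, h3⟩]
        linarith
      · have h4 : E.nib.K y x = E.s.X y x - 1 := by
          rw [on_nK, if_pos ⟨h.1, h.2.1⟩, on_K_far h3.1]
        rw [h4, if_pos h.1, if_pos h3]
        linarith
      · have h4 : E.nib.K y x = 0 := by
          rw [on_nK, if_pos ⟨h.1, h.2.1⟩, on_K_not (on_lig_far h3.1)]
        rw [h4, if_pos ((GData.os_twn_comm hE.inv.toSInv y x).1 h3.2)]
        linarith
    · rw [if_neg h]
      linarith
  refine (sum_le_sum fun y _ => h1 y).trans ?_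
  rw [sum_add_distrib, sum_add_distrib]
  have e1 : ∑ y, (if y ∈ E.U ∧ E.spe y x then (2 : ℝ) else 0) =
      2 * ((E.U.filter fun u => E.spe u x).card : ℝ) := by
    rw [← sum_filter, sum_const, nsmul_eq_mul, mul_comm]
    congr 3
    ext u
    simp
  have e2 : ∑ y, (if y ∈ E.U then
      2 * (if E.far y x ∧ E.s.X y x ≠ 0 ∧ ¬ E.nf E.s y x then E.s.X y x else 0) else 0) =
      2 * ∑ u ∈ E.U, (if E.far u x ∧ E.s.X u x ≠ 0 ∧ ¬ E.nf E.s u x then E.s.X u x else 0) := by
    rw [sum_ite_mem, univ_inter, mul_sum]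
  have e3 : ∑ y, (if E.twn E.s x y then (2 : ℝ) else 0) =
      2 * ((univ.filter fun u => E.twn E.s x u).card : ℝ) := by
    rw [← sum_filter, sum_const, nsmul_eq_mul, mul_comm]
  rw [e1, e2, e3]
  have h4 := hG.spe x
  have h5 := hG.frz x
  have h6 := GData.on_twn_card hE.dat hE.inv.toSInv hE.j_lt.le x
  have h7 : E.T ^ 3000 * 1000000 ≤ E.k := by
    have h8 : E.T ^ 3001 ≤ E.T ^ 3999 := hE.dat.big.pw (by norm_num)
    have h9 : E.T ^ 3001 = E.T ^ 3000 * E.T := by rw [← pow_succ]
    have h10 := GData.os_T_ge hE.dat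
    have h11 : 0 ≤ E.T ^ 3000 := pow_nonneg h0.le _
    have h12 := hE.dat.k_lo
    nlinarith
  linarith

theorem on_big_log (hE : E.toGSt.Ok) {n : ℕ} (hn : n ≤ 999) :
    E.Kc ^ n ≤ Real.log E.T / 80 := by
  have hK6 := GData.os_Kc_ge hE.dat
  have hK := GData.os_Kc_one hE.dat
  have h1 := GData.os_Kc_pow hE.dat (n := n + 1) (by omega)
  rw [le_div_iff₀ (by norm_num)]
  have h2 : (80 : ℝ) ≤ E.Kc := by norm_num at hK6; linarith
  have h3 : 0 ≤ E.Kc ^ n := by positivity
  calc E.Kc ^ n * 80 ≤ E.Kc ^ n * E.Kc := mul_le_mul_of_nonneg_left h2 h3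
    _ = E.Kc ^ (n + 1) := by rw [pow_succ]
    _ ≤ _ := h1

theorem on_a_sum (hE : E.toGSt.Ok) (hG : E.Good) (b : Fin 3) (x : V) :
    ∑ y, E.nib.a b x y ≤ Real.log E.T / 80 * E.k := by
  have hk : 0 ≤ (E.k : ℝ) := Nat.cast_nonneg _
  fin_cases b
  · show ∑ y, E.nib.a 0 x y ≤ _
    have h1 : ∀ y, E.nib.a 0 x y ≤
        if y ∈ E.U then (if E.far y x then max (-E.K E.s y x) 0 else 0) else 0 := by
      intro y
      rw [on_a0, on_nK]
      by_cases hy : y ∈ E.U
      · rw [if_pos hy]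
        by_cases hf : E.far y x
        · rw [if_pos hf]
          split_ifs
          · exact le_rfl
          · rw [neg_zero, max_self]
            exact le_max_right _ _
        · rw [if_neg hf, on_K_not hf, ite_self, neg_zero, max_self]
      · rw [if_neg hy, if_neg fun h => hy h.1, neg_zero, max_self]
    refine (sum_le_sum fun y _ => h1 y).trans ?_
    rw [sum_ite_mem, univ_inter]
    refine (hG.neg x).trans (mul_le_mul_of_nonneg_right (on_big_log hE (by norm_num)) hk)
  · show ∑ y, E.nib.a 1 x y ≤ _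
    have h1 : ∀ y, E.nib.a 1 x y ≤ if y ∈ E.U then (if E.far y x ∧ 1 ≤ E.s.X y x then
        2 * E.s.X y x * (E.s.X y x ^ 200 - 1) else 0) else 0 := by
      intro y
      rw [on_a1 hE]
      have h2 : (0 : ℝ) ≤ if y ∈ E.U then (if E.far y x ∧ 1 ≤ E.s.X y x then
          2 * E.s.X y x * (E.s.X y x ^ 200 - 1) else 0) else 0 := by
        split_ifs with h3 h4
        · have h5 : (1 : ℝ) ≤ E.s.X y x ^ 200 := one_le_pow₀ h4.2
          exact mul_nonneg (by linarith [h4.2]) (by linarith)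
        · exact le_rfl
        · exact le_rfl
      by_cases h3 : y ∈ E.U ∧ x ∈ E.U ∧ E.far y x ∧ 1 ≤ E.s.X y x
      · rw [if_pos h3, if_pos h3.1, if_pos h3.2.2]
      · rw [if_neg h3]
        exact h2
    refine (sum_le_sum fun y _ => h1 y).trans ?_
    rw [sum_ite_mem, univ_inter]
    refine (hG.ex x).trans (mul_le_mul_of_nonneg_right (on_big_log hE (by norm_num)) hk)
  · show ∑ y, E.nib.a 2 x y ≤ _
    refine (on_a2_sum hE hG x).trans ?_
    have h1 := on_big_log hE (n := 1) (by norm_num)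
    have h2 := GData.os_Kc_one hE.dat
    rw [pow_one] at h1
    nlinarith

/-! ### The tests -/

theorem on_g_inl (i : Tst V AL) (z : V) : E.nib.g (Sum.inl i) z =
    ∑ z', E.rs z z' (∑ l, E.μ z z' l * |E.W i z z' l|) := rfl

theorem on_g_inr (v z : V) : E.nib.g (Sum.inr v) z =
    if z ∈ E.U ∧ z ∈ E.N v ∧ E.C z = none then 1 else 0 := rfl

theorem on_w_inl (i : Tst V AL) (z z' : V) : E.nib.w (Sum.inl i) z z' =
    E.rs z z' (∑ l, E.μ z z' l * E.W i z z' l) := rfl

theorem on_abs_nonneg (hE : E.toGSt.Ok) (i : Tst V AL) (z z' : V) :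
    0 ≤ ∑ l, E.μ z z' l * |E.W i z z' l| :=
  sum_nonneg fun l _ => mul_nonneg (hE.cols.mu_nonneg z z' l) (abs_nonneg _)

theorem on_g_eq (i : Tst V AL) (z : V) : E.nib.g (Sum.inl i) z =
    if z ∈ E.U then ∑ z' ∈ E.U, ∑ l, E.μ z z' l * |E.W i z z' l| else 0 := by
  rw [on_g_inl]
  unfold rs
  by_cases hz : z ∈ E.U
  · rw [if_pos hz]
    have h : ∀ z', (if z ∈ E.U ∧ z' ∈ E.U then ∑ l, E.μ z z' l * |E.W i z z' l| else 0) =
        if z' ∈ E.U then ∑ l, E.μ z z' l * |E.W i z z' l| else 0 := fun z' =>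
      if_congr ⟨fun h => h.2, fun h => ⟨hz, h⟩⟩ rfl rfl
    simp only [h]
    rw [sum_ite_mem, univ_inter]
  · rw [if_neg hz]
    exact sum_eq_zero fun z' _ => if_neg fun h => hz h.1

theorem on_g_nonneg (hE : E.toGSt.Ok) (i : Tst V AL ⊕ V) (z : V) : 0 ≤ E.nib.g i z := by
  rcases i with i | v
  · rw [on_g_eq]
    split_ifs
    · exact sum_nonneg fun z' _ => on_abs_nonneg hE i z z'
    · exact le_rfl
  · rw [on_g_inr]
    split_ifs <;> norm_num

theorem on_w_symm (hE : E.toGSt.Ok) (i : Tst V AL) (z z' : V) :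
    E.nib.w (Sum.inl i) z z' = E.nib.w (Sum.inl i) z' z := by
  rw [on_w_inl, on_w_inl]
  refine on_rs_symm hE (f := fun z z' => ∑ l, E.μ z z' l * E.W i z z' l) (fun a b => ?_) z z'
  exact sum_congr rfl fun l _ => by rw [hE.cols.mu_symm a b l, GSt.on_W_symm hE i a b l]

/-- A pair that is seen by a test. -/
theorem on_w_ne {i : Tst V AL} {z z' : V} (h : E.nib.w (Sum.inl i) z z' ≠ 0) :
    z ∈ E.U ∧ z' ∈ E.U ∧ ∃ l, E.W i z z' l ≠ 0 := by
  rw [on_w_inl] at h
  unfold rs at h
  have h1 : z ∈ E.U ∧ z' ∈ E.U := by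
    by_contra h1
    rw [if_neg h1] at h
    exact h rfl
  rw [if_pos h1] at h
  refine ⟨h1.1, h1.2, ?_⟩
  by_contra h2
  push Not at h2
  exact h (sum_eq_zero fun l _ => by rw [h2 l, mul_zero])

theorem on_w_chi (hE : E.toGSt.Ok) {i : Tst V AL} {z z' : V}
    (h : E.nib.w (Sum.inl i) z z' ≠ 0) : E.chi E.s z z' ≠ 0 := by
  obtain ⟨-, -, l, hl⟩ := on_w_ne h
  exact fun h1 => hl (GSt.on_W_chi hE i h1 l)

theorem on_ws_ne {i : Tst V AL} {z z' : V} {l : Lb} (h : E.W i z z' l ≠ 0) :
    E.ws i z z' ≠ 0 := by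
  have h1 : |E.W i z z' l| ≤ E.ws i z z' :=
    le_ciSup (f := fun l => |E.W i z z' l|) (Set.finite_range _).bddAbove l
  have h2 : 0 < |E.W i z z' l| := abs_pos.2 h
  exact ne_of_gt (lt_of_lt_of_le h2 h1)

/-- **The hypotheses of the semi-random colouring of a stage**, given the two counts of the
table of the tests. -/
theorem nib_ok_of (hE : E.toGSt.Ok) (hG : E.Good)
    (hs' : ∀ i : Tst V AL, ((univ.filter fun z => ∃ z', E.ws i z z' ≠ 0 ∨
      E.ws i z' z ≠ 0).card : ℝ) ≤ E.T ^ 15000)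
    (hd' : ∀ z, ((univ.filter fun i : Tst V AL => ∃ z', E.ws i z z' ≠ 0 ∨
      E.ws i z' z ≠ 0).card : ℝ) ≤ E.T ^ 21000) : E.nib.Ok :=
  have hs : ∀ i : Tst V AL, ((univ.filter fun z => ∃ z' l, E.W i z z' l ≠ 0).card : ℝ) ≤
      E.T ^ 15000 := fun i => by
    refine le_trans ?_ (hs' i)
    have h : (univ.filter fun z => ∃ z' l, E.W i z z' l ≠ 0) ⊆
        univ.filter fun z => ∃ z', E.ws i z z' ≠ 0 ∨ E.ws i z' z ≠ 0 := by
      intro z hz
      rw [mem_filter] at hz ⊢
      obtain ⟨-, z', l, h⟩ := hz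
      exact ⟨mem_univ _, z', Or.inl (on_ws_ne h)⟩
    exact_mod_cast card_le_card h
  have hd : ∀ z, ((univ.filter fun i : Tst V AL => ∃ z' l, E.W i z z' l ≠ 0).card : ℝ) ≤
      E.T ^ 21000 := fun z => by
    refine le_trans ?_ (hd' z)
    have h : (univ.filter fun i : Tst V AL => ∃ z' l, E.W i z z' l ≠ 0) ⊆
        univ.filter fun i => ∃ z', E.ws i z z' ≠ 0 ∨ E.ws i z' z ≠ 0 := by
      intro i hi
      rw [mem_filter] at hi ⊢
      obtain ⟨-, z', l, h⟩ := hi
      exact ⟨mem_univ _, z', Or.inl (on_ws_ne h)⟩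
    exact_mod_cast card_le_card h
  { big := hE.dat.big
    k_lo := hE.dat.k_lo
    k_hi := hE.dat.k_hi
    q_hi := hE.dat.q_hi
    M_le := hE.dat.M_le
    rp_symm x y h := by
      refine ⟨h.2.1, h.1, ?_⟩
      rcases h.2.2 with h3 | h3 | h3
      · exact Or.inl (GData.os_far_symm hE.dat h3)
      · exact Or.inr (Or.inl (GData.os_spe_symm hE.dat h3))
      · exact Or.inr (Or.inr ⟨GData.os_lig_symm hE.dat h3.1,
          (GData.os_twn_comm hE.inv.toSInv x y).1 h3.2⟩)
    rp_irrefl x h := by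
      rcases h.2.2 with h3 | h3 | h3
      · exact h3.1 rfl
      · exact h3.1 rfl
      · exact h3.1.1 rfl
    K_symm := on_nK_symm hE
    h_symm := on_h_symm hE
    sp_symm x y h := on_sp_symm hE h
    K_off x y h := by
      rw [on_nK]
      split_ifs with h1
      · exact on_K_not fun h2 => h ⟨h1.1, h1.2, Or.inl h2⟩
      · rfl
    h_off x y h := by
      show E.h x y = 0
      unfold GSm.h
      rw [if_neg]
      rintro ⟨h1, h2, h3, -⟩
      exact h ⟨h1, h2, Or.inl h3⟩
    sp_rp x y h := by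
      refine ⟨h.1, h.2.1, ?_⟩
      rcases h.2.2 with h3 | h3 | h3
      · exact Or.inr (Or.inl h3)
      · exact Or.inl h3.1
      · exact Or.inr (Or.inr h3)
    sp_K x y h := on_sp_K h
    K_cases := on_K_cases hE
    K_exp := on_K_exp hE
    h_nonneg := on_h_nonneg hE
    h_le := on_h_le hE
    h_dead := on_h_dead
    a_nonneg b x y := by
      fin_cases b
      · show 0 ≤ E.nib.a 0 x y
        rw [on_a0]
        exact le_max_right _ _
      · exact on_a1_nonneg hE x y
      · show 0 ≤ E.nib.a 2 x y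
        rw [on_a2]
        split_ifs
        · linarith [on_nK_ge hE y x]
        · exact le_rfl
    a_le b x y := by
      have h1 := GData.os_T_ge hE.dat
      fin_cases b
      · show E.nib.a 0 x y ≤ E.T
        rw [on_a0]
        exact max_le (by linarith [on_nK_ge hE y x]) (by linarith)
      · exact on_a1_le hE x y
      · show E.nib.a 2 x y ≤ E.T
        rw [on_a2]
        split_ifs
        · linarith [on_nK_le hE y x, on_two_Kc hE]
        · linarith
    a_off b x y h := by
      have hK : E.nib.K y x = 0 := by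
        rw [on_nK]
        split_ifs with h1
        · exact on_K_not fun h2 => h ⟨h1.1, h1.2, Or.inl h2⟩
        · rfl
      fin_cases b
      · show E.nib.a 0 x y = 0
        rw [on_a0, hK, neg_zero, max_self]
      · show E.nib.a 1 x y = 0
        rw [on_a1 hE, if_neg]
        rintro ⟨h1, h2, h3, -⟩
        exact h ⟨h1, h2, Or.inl h3⟩
      · show E.nib.a 2 x y = 0
        rw [on_a2, if_neg]
        intro h1
        apply h
        refine ⟨h1.1, h1.2.1, ?_⟩
        rcases h1.2.2 with h3 | h3 | h3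
        · exact Or.inr (Or.inl h3)
        · exact Or.inl h3.1
        · exact Or.inr (Or.inr h3)
    a_sum := on_a_sum hE hG
    a_sum2 := on_a2_sum hE hG
    a_neg x y := by
      rw [on_a0]
      exact le_max_left _ _
    a_ex x y h := by
      rw [on_a, if_neg (by simp), if_pos rfl, if_pos h]
      exact le_rfl
    a_sp x y h := by
      have h' : E.sp y x := h
      rw [on_a2, if_pos h']
    R_card := on_R_card hE hG
    tw_card x := by
      have h0 := GData.os_T_pos hE.dat
      have h1 : (univ.filter fun y => E.nib.tw x y) ⊆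
          insert x (univ.filter fun y => E.twn E.s x y) := by
        intro y hy
        rw [mem_insert, mem_filter]
        rcases (mem_filter.1 hy).2 with h2 | h2
        · exact Or.inl h2.symm
        · exact Or.inr ⟨mem_univ _, h2⟩
      have h2 : ((univ.filter fun y => E.nib.tw x y).card : ℝ) ≤
          ((univ.filter fun y => E.twn E.s x y).card : ℝ) + 1 := by
        have := (card_le_card h1).trans (card_insert_le _ _)
        exact_mod_cast this
      have h3 := GData.on_twn_card hE.dat hE.inv.toSInv hE.j_lt.le x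
      have h4 : E.T ^ 3000 + 1 ≤ E.T ^ 3405 := by
        have h5 : E.T ^ 3001 ≤ E.T ^ 3405 := hE.dat.big.pw (by norm_num)
        have h6 : E.T ^ 3001 = E.T ^ 3000 * E.T := by rw [← pow_succ]
        have h7 := GData.os_T_ge hE.dat
        have h8 : (1 : ℝ) ≤ E.T ^ 3000 := one_le_pow₀ (by linarith)
        nlinarith
      show ((univ.filter fun y => E.nib.tw x y).card : ℝ) ≤ E.T ^ 3405
      linarith
    gram y y' h := by
      have h1 : ¬ E.twn E.s y y' := fun h2 => h (Or.inr h2)
      have h2 : y ≠ y' := fun h2 => h (Or.inl h2)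
      show |∑ u, E.nib.K u y * E.nib.K u y'| ≤ E.T ^ 3430
      by_cases hy : y ∈ E.U ∧ y' ∈ E.U
      · have e : ∑ u, E.nib.K u y * E.nib.K u y' = ∑ u ∈ E.U, E.K E.s u y * E.K E.s u y' := by
          rw [← sum_subset (subset_univ E.U) fun u _ hu => ?_]
          · refine sum_congr rfl fun u hu => ?_
            rw [on_nK, on_nK, if_pos ⟨hu, hy.1⟩, if_pos ⟨hu, hy.2⟩]
          · rw [on_nK, if_neg fun h3 => hu h3.1, zero_mul]
        rw [e]
        exact hG.gram y y' h1 h2
      · have e : ∑ u, E.nib.K u y * E.nib.K u y' = 0 := by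
          refine sum_eq_zero fun u _ => ?_
          rw [on_nK, on_nK]
          by_cases h3 : y ∈ E.U
          · rw [if_neg (fun h4 : u ∈ E.U ∧ y' ∈ E.U => hy ⟨h3, h4.2⟩), mul_zero]
          · rw [if_neg (fun h4 : u ∈ E.U ∧ y ∈ E.U => h3 h4.2), zero_mul]
        rw [e, abs_zero]
        exact pow_nonneg (GData.os_T_pos hE.dat).le _
    pr_symm y y' h := by
      refine ⟨h.2.1, h.1, h.2.2.1.symm, fun h1 => h.2.2.2.1
        ((GData.os_twn_comm hE.inv.toSInv y y').2 h1), ?_⟩
      rw [GData.os_cod_symm]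
      exact h.2.2.2.2
    pr_tw y y' h := by
      rintro (h1 | h1)
      · exact h.2.2.1 h1
      · exact h.2.2.2.1 h1
    pr_card y := by
      have h1 : (univ.filter fun y' => E.nib.pr y y') ⊆
          univ.filter fun u => 0 < E.toGSt.toGData.cod y u := by
        intro y' hy'
        exact mem_filter.2 ⟨mem_univ _, (mem_filter.1 hy').2.2.2.2.2⟩
      have h2 : ((univ.filter fun y' => E.nib.pr y y').card : ℝ) ≤
          ((univ.filter fun u => 0 < E.toGSt.toGData.cod y u).card : ℝ) := by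
        exact_mod_cast card_le_card h1
      exact (h2.trans (GData.on_two_card hE.dat y)).trans (hE.dat.big.pw (by norm_num))
    gm_nonneg i := by
      rcases i with i | v
      · exact GSt.on_d1_nonneg hE i
      · exact zero_le_one
    g_nonneg := on_g_nonneg hE
    g_le i z := by
      rcases i with i | v
      · rw [on_g_eq]
        split_ifs
        · exact hG.row i z
        · exact GSt.on_d1_nonneg hE i
      · rw [on_g_inr]
        show _ ≤ (1 : ℝ)
        split_ifs <;> norm_num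
    g_sum i := by
      rcases i with i | v
      · simp only [on_g_eq]
        rw [sum_ite_mem, univ_inter]
        exact hG.tot i
      · simp only [on_g_inr]
        show _ ≤ E.T ^ 2802
        refine le_trans ?_ (hG.nbr v)
        rw [← sum_filter, sum_const, nsmul_eq_mul, mul_one]
        apply Nat.cast_le.2
        apply card_le_card
        intro z hz
        have h1 := (mem_filter.1 hz).2
        exact mem_inter.2 ⟨h1.1, h1.2.1⟩
    w_symm i z z' := by
      rcases i with i | v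
      · exact on_w_symm hE i z z'
      · rfl
    w_diag i z := by
      rcases i with i | v
      · by_contra h
        exact GData.os_chi_ne (on_w_chi hE h) rfl
      · rfl
    w_row i z := by
      rcases i with i | v
      · rw [on_g_inl]
        refine sum_le_sum fun z' _ => ?_
        rw [on_w_inl]
        unfold rs
        split_ifs
        · refine (abs_sum_le_sum_abs _ _).trans (sum_le_sum fun l _ => ?_)
          rw [abs_mul, abs_of_nonneg (hE.cols.mu_nonneg z z' l)]
        · rw [abs_zero]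
      · refine le_trans (le_of_eq ?_) (on_g_nonneg hE (Sum.inr v) z)
        refine sum_eq_zero fun z' _ => ?_
        show |(0 : ℝ)| = 0
        exact abs_zero
    w_pr i z z' h := by
      rcases i with i | v
      · obtain ⟨h1, h2, l, hl⟩ := on_w_ne h
        have h3 := on_w_chi hE h
        refine ⟨h1, h2, GData.os_chi_ne h3, ?_, GSt.on_W_cod hE i hl⟩
        rcases GData.os_chi_cases h3 with h4 | h4
        · exact hE.inv.nf_tw z z' h4
        · exact h4.2
      · exact absurd rfl h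
    w_K i z z' h := by
      rcases i with i | v
      · obtain ⟨h1, h2, l, hl⟩ := on_w_ne h
        have h3 := on_w_chi hE h
        rw [on_nK, if_pos ⟨h1, h2⟩]
        rcases GData.os_chi_cases h3 with h4 | h4
        · rw [on_K_far h4.1]
          intro h5
          exact h4.2.2 (by linarith)
        · rw [on_K_not (on_lig_far h4.1)]
          norm_num
      · exact absurd rfl h
    g_supp i := by
      rcases i with i | v
      · have h1 : (univ.filter fun z => E.nib.g (Sum.inl i) z ≠ 0) ⊆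
            univ.filter fun z => ∃ z' l, E.W i z z' l ≠ 0 := by
          intro z hz
          rw [mem_filter] at hz ⊢
          refine ⟨mem_univ _, ?_⟩
          by_contra h2
          push Not at h2
          apply hz.2
          rw [on_g_inl]
          refine sum_eq_zero fun z' _ => ?_
          unfold rs
          have h3 : ∑ l, E.μ z z' l * |E.W i z z' l| = 0 :=
            sum_eq_zero fun l _ => by rw [h2 z' l, abs_zero, mul_zero]
          rw [h3, ite_self]
        have h2 : ((univ.filter fun z => E.nib.g (Sum.inl i) z ≠ 0).card : ℝ) ≤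
            ((univ.filter fun z => ∃ z' l, E.W i z z' l ≠ 0).card : ℝ) := by
          exact_mod_cast card_le_card h1
        exact (h2.trans (hs i)).trans (hE.dat.big.pw (by norm_num))
      · have h1 : (univ.filter fun z => E.nib.g (Sum.inr v) z ≠ 0) ⊆ E.U ∩ E.N v := by
          intro z hz
          have h2 := (mem_filter.1 hz).2
          rw [on_g_inr] at h2
          by_contra h3
          apply h2
          rw [if_neg]
          exact fun h4 => h3 (mem_inter.2 ⟨h4.1, h4.2.1⟩)
        have h2 : ((univ.filter fun z => E.nib.g (Sum.inr v) z ≠ 0).card : ℝ) ≤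
            ((E.U ∩ E.N v).card : ℝ) := by
          exact_mod_cast card_le_card h1
        exact (h2.trans (hG.nbr v)).trans (hE.dat.big.pw (by norm_num))
    g_deg z := by
      have h1 : (univ.filter fun i : Tst V AL ⊕ V => E.nib.g i z ≠ 0) ⊆
          (univ.filter fun i : Tst V AL => ∃ z' l, E.W i z z' l ≠ 0).disjSum (E.N z) := by
        intro i hi
        have h2 := (mem_filter.1 hi).2
        rcases i with i | v
        · rw [inl_mem_disjSum, mem_filter]
          refine ⟨mem_univ _, ?_⟩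
          by_contra h3
          push Not at h3
          apply h2
          rw [on_g_inl]
          refine sum_eq_zero fun z' _ => ?_
          unfold rs
          have h4 : ∑ l, E.μ z z' l * |E.W i z z' l| = 0 :=
            sum_eq_zero fun l _ => by rw [h3 z' l, abs_zero, mul_zero]
          rw [h4, ite_self]
        · rw [inr_mem_disjSum]
          rw [on_g_inr] at h2
          by_contra h3
          apply h2
          rw [if_neg]
          exact fun h4 => h3 (hE.dat.N_symm _ _ h4.2.1)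
      have h2 := card_le_card h1
      rw [card_disjSum] at h2
      have h3 : ((univ.filter fun i : Tst V AL ⊕ V => E.nib.g i z ≠ 0).card : ℝ) ≤
          ((univ.filter fun i : Tst V AL => ∃ z' l, E.W i z z' l ≠ 0).card : ℝ) +
            ((E.N z).card : ℝ) := by
        exact_mod_cast h2
      have h4 := hd z
      have h5 := hE.dat.deg z
      have h6 : E.T ^ 3600 ≤ E.T ^ 21000 := hE.dat.big.pw (by norm_num)
      have h7 : E.T ^ 21001 ≤ E.T ^ 30000 := hE.dat.big.pw (by norm_num)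
      have h8 : E.T ^ 21001 = E.T ^ 21000 * E.T := by rw [← pow_succ]
      have h9 := GData.os_T_ge hE.dat
      have h10 : 0 ≤ E.T ^ 21000 := pow_nonneg (by linarith) _
      show ((univ.filter fun i : Tst V AL ⊕ V => E.nib.g i z ≠ 0).card : ℝ) ≤ E.T ^ 30000
      nlinarith }

end GSm

end

end Pool.Agent.AcyG
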