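import Pool.Agent.AcyG.OSite

/-! # The constants of the outer process (project MP_af9dfb_G, row OPar) -/

set_option autoImplicit false
set_option linter.unusedSectionVars false

namespace Pool.Agent.AcyG

open Finset Filter
open Pool.Agent.AcyK (Big cN)
open scoped Classical

universe u v

/-- Constants that do not depend on `T`. `kap`: number of stages divided by `R`; `nu T ^ 4800`:
size of `n1`; `amc T ^ 2400`: largest codegree of a far pair; `al T ^ 2400`: codegree that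
separates the two estimates of the recolouring; `del`: density of the uncoloured vertices; `lam`:
time between two wakings; `W n`: bound for the weights in the interval `n`. -/
structure OCst where
  kap : ℝ
  nu : ℝ
  al : ℝ
  del : ℝ
  amc : ℝ
  H : ℝ
  e1 : ℝ
  C0 : ℝ
  q0 : ℝ
  lam : ℝ
  Kc : ℝ
  Mi : ℕ
  W : ℕ → ℝ
  Bx : ℕ → ℝ
  tau : ℕ → ℝ
  B0 : ℕ → ℕ

/-- Bound for the extents. -/
noncomputable def OCst.Cx (c : OCst) (n : ℕ) : ℝ :=
  (1 + c.B0 n * (1 + c.H / c.tau n)) + (1 + c.q0 * (c.H * (1 + c.H / c.tau n)))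

/-- The inequalities for the constants. -/
structure OCst.Ok (c : OCst) (ε : ℝ) : Prop where
  eps_pos : 0 < ε
  eps_le : ε ≤ 1
  kap_one : 1 ≤ c.kap
  nu_pos : 0 < c.nu
  nu_le : c.nu ≤ 1
  nu_kap : c.kap * c.nu ≤ ε / 4
  al_pos : 0 < c.al
  al_le : c.al ≤ c.amc
  del_pos : 0 < c.del
  del_le : c.del ≤ 1
  exp_kap : 3 * Real.exp (-(94 / 100 * c.kap)) ≤ c.del / 2
  amc_nu : c.amc * c.nu = 4000
  H_one : 1 ≤ c.H
  H_amc : 2 * c.amc ^ 2 ≤ c.H * c.nu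
  e1_pos : 0 < c.e1
  e1_le : c.e1 ≤ 1
  C0_one : 1 ≤ c.C0
  q0_pos : 0 < c.q0
  lam_pos : 0 < c.lam
  lam_le : c.lam ≤ 1
  drift : 16 * c.kap * (c.e1 + c.H * (40 * c.C0 * c.H) * c.lam) ≤ 1
  frz : 10 ^ 5 * c.kap * c.C0 * c.H ^ 3 * c.lam ≤ 1
  Mi_ge : 2 * c.kap / c.lam ≤ c.Mi
  W_zero : c.W 0 = 1
  W_succ : ∀ n, c.W (n + 1) = c.W n * (1 + c.Bx n)
  W_one : ∀ n, 1 ≤ c.W n
  Bx_one : ∀ n, 1 ≤ c.Bx n
  tau_pos : ∀ n, 0 < c.tau n
  e1_Kc : 1 ≤ c.e1 * c.Kc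
  Kc_ge : 10 ^ 6 * (c.kap * c.H * c.C0) ^ 10 ≤ c.Kc
  Kc_exp : Real.exp (10 * c.C0 * c.H * c.kap) ≤ c.Kc
  Bx_le : ∀ n, n ≤ c.Mi → c.Bx n * c.Cx n ≤ c.Kc
  W_le : ∀ n, n ≤ c.Mi →
    (c.W n + c.W (n + 1)) * (2 + c.Bx n) * Real.exp (2 * c.H * c.kap) ≤ c.Kc
  num : ∀ x : ℝ, 0 ≤ x → x ≤ ε / 1000 →
    2 * (2 * c.del * x + (2 * c.del / c.al + 21 / 10 * c.kap * c.al / c.nu + x) +
      (2 * c.del) ^ 2 / 1) +
    2 * (4 * 1 * (2 * c.del) ^ 2 + (21 / 10 * c.kap / c.nu + x) * (2 * c.del) ^ 2 +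
      2 * (21 / 10 * c.kap / c.nu + x) * (2 * c.del)) / (ε / 4) +
    20 * (2 * c.del) ^ 4 / (ε / 4) ^ 2 ≤ (ε / 4) / 2

/-- The columns exist in the interval `n`. -/
def OCst.ColsOK (c : OCst) : Prop := ∀ n : ℕ,
    ∀ (V AL : Type u) [Fintype V] [DecidableEq V] [Fintype AL] (D : GData V AL), D.Ok →
      D.H = c.H → D.e1 = c.e1 → D.kap = c.kap → c.C0 ≤ D.C0 →
      0 ≤ c.W n → c.q0 * (c.W n * Real.exp (2 * c.H * c.kap)) ≤ D.n1 →
    ∀ (W1 : ℝ) (j : ℕ) (s : GState V) (C : V → Option (ℕ × Fin D.k × ℕ)), j ≤ D.NS →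
      D.SInvF (c.W n) W1 j s C →
    ∃ (Lb : Type u) (_ : Fintype Lb) (μ : V → V → Lb → ℝ) (u : Lb → V → V → V → V → ℝ),
      (D.sd s).Cols D.H D.e1 D.C0 c.q0 (c.Bx n) (c.tau n) 1 (c.B0 n) μ u

/-- A large `kap`. -/
theorem exists_kap (δ : ℝ) (hδ : 0 < δ) :
    ∃ kap : ℝ, 1 ≤ kap ∧ 6 * Real.exp (-(94 / 100 * kap)) * kap ^ 2 ≤ δ := by
  have h1 := Real.tendsto_pow_mul_exp_neg_atTop_nhds_zero 2
  have h2 : ∀ᶠ x : ℝ in atTop, x ^ 2 * Real.exp (-x) < δ / 24 :=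
    h1.eventually_lt_const (by positivity)
  obtain ⟨x, hx, hx1⟩ := (h2.and (eventually_ge_atTop 1)).exists
  refine ⟨2 * x, by linarith, ?_⟩
  have h3 : Real.exp (-(94 / 100 * (2 * x))) ≤ Real.exp (-x) :=
    Real.exp_le_exp.2 (by linarith)
  have h4 : 0 ≤ x ^ 2 := sq_nonneg x
  calc 6 * Real.exp (-(94 / 100 * (2 * x))) * (2 * x) ^ 2 ≤
      6 * Real.exp (-x) * (2 * x) ^ 2 := by
        refine mul_le_mul_of_nonneg_right ?_ (sq_nonneg _)
        linarith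
    _ = 24 * (x ^ 2 * Real.exp (-x)) := by ring
    _ ≤ δ := by linarith

/-- The numerical condition of the recolouring. -/
theorem num_cond {ε kap : ℝ} (hε : 0 < ε) (hε1 : ε ≤ 1) (hk : 1 ≤ kap) {nu al del : ℝ}
    (hnu : nu = ε / (4 * kap)) (hal : al = ε ^ 2 / (8000 * kap ^ 2))
    (hdel : del = ε ^ 3 / (10 ^ 8 * kap ^ 2)) (x : ℝ) (hx : 0 ≤ x) (hx1 : x ≤ ε / 1000) :
    2 * (2 * del * x + (2 * del / al + 21 / 10 * kap * al / nu + x) + (2 * del) ^ 2 / 1) +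
    2 * (4 * 1 * (2 * del) ^ 2 + (21 / 10 * kap / nu + x) * (2 * del) ^ 2 +
      2 * (21 / 10 * kap / nu + x) * (2 * del)) / (ε / 4) +
    20 * (2 * del) ^ 4 / (ε / 4) ^ 2 ≤ (ε / 4) / 2 := by
  have hk0 : 0 < kap := by linarith
  have e1 : 2 * del / al = ε * (16000 / 10 ^ 8) := by
    rw [hdel, hal]
    field_simp
    norm_num
  have e2 : 21 / 10 * kap * al / nu = ε * (21 / 20000) := by
    rw [hal, hnu]
    field_simp
    norm_num
  have e3 : 21 / 10 * kap / nu = 42 / 5 * kap ^ 2 / ε := by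
    rw [hnu]
    field_simp
    norm_num
  have hk2 : 1 ≤ kap ^ 2 := one_le_pow₀ hk
  have hε3 : ε ^ 3 ≤ ε ^ 2 := pow_le_pow_of_le_one hε.le hε1 (by norm_num)
  have hε2 : ε ^ 2 ≤ ε := by nlinarith
  -- `del kap ^ 2`
  have e4 : del * kap ^ 2 = ε ^ 3 / 10 ^ 8 := by
    rw [hdel]
    field_simp
  have hdel0 : 0 < del := by rw [hdel]; positivity
  have e5 : del ≤ ε ^ 3 / 10 ^ 8 := by
    rw [← e4]
    exact le_mul_of_one_le_right hdel0.le hk2
  have e6 : del ≤ ε ^ 2 / 10 ^ 8 := e5.trans (by linarith)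
  have e7 : del ≤ ε / 10 ^ 8 := e6.trans (by linarith)
  have e8 : del ≤ 1 := e7.trans (by norm_num; linarith)
  -- the terms
  have t1 : 2 * del * x ≤ ε / 1000 := by
    have : 2 * del * x ≤ 1 * x := mul_le_mul_of_nonneg_right (by norm_num at e7; linarith) hx
    linarith
  have t2 : (2 * del) ^ 2 / 1 ≤ ε / 1000 := by
    rw [div_one]
    have : (2 * del) ^ 2 = 4 * del * del := by ring
    rw [this]
    have h1 : 4 * del * del ≤ 4 * del * 1 := mul_le_mul_of_nonneg_left e8 (by positivity)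
    norm_num at e7
    linarith
  have t3 : 4 * 1 * (2 * del) ^ 2 / (ε / 4) ≤ ε / 1000 := by
    rw [div_le_iff₀ (by positivity)]
    have : 4 * 1 * (2 * del) ^ 2 = 16 * del * del := by ring
    rw [this]
    have h1 : 16 * del * del ≤ 16 * del * 1 := mul_le_mul_of_nonneg_left e8 (by positivity)
    norm_num at e6
    nlinarith
  have hA : (21 / 10 * kap / nu + x) * del ≤ ε ^ 2 / 10 ^ 6 := by
    rw [e3, add_mul]
    have h1 : 42 / 5 * kap ^ 2 / ε * del = 42 / 5 * (ε ^ 2 / 10 ^ 8) := by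
      have : 42 / 5 * kap ^ 2 / ε * del = 42 / 5 * (del * kap ^ 2) / ε := by ring
      rw [this, e4]
      field_simp
    have h2 : x * del ≤ 1 * del := mul_le_mul_of_nonneg_right (by linarith) hdel0.le
    rw [h1]
    norm_num at e6 ⊢
    nlinarith [sq_nonneg ε]
  have hA0 : 0 ≤ (21 / 10 * kap / nu + x) * del := by
    rw [e3]
    positivity
  have t4 : (21 / 10 * kap / nu + x) * (2 * del) ^ 2 / (ε / 4) ≤ ε / 1000 := by
    rw [div_le_iff₀ (by positivity)]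
    have : (21 / 10 * kap / nu + x) * (2 * del) ^ 2 =
        4 * ((21 / 10 * kap / nu + x) * del) * del := by ring
    rw [this]
    have h1 : 4 * ((21 / 10 * kap / nu + x) * del) * del ≤
        4 * ((21 / 10 * kap / nu + x) * del) * 1 :=
      mul_le_mul_of_nonneg_left e8 (by positivity)
    norm_num at hA
    nlinarith [sq_nonneg ε]
  have t5 : 2 * (21 / 10 * kap / nu + x) * (2 * del) / (ε / 4) ≤ ε / 1000 := by
    rw [div_le_iff₀ (by positivity)]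
    have : 2 * (21 / 10 * kap / nu + x) * (2 * del) =
        4 * ((21 / 10 * kap / nu + x) * del) := by ring
    rw [this]
    norm_num at hA
    nlinarith [sq_nonneg ε]
  have t6 : 20 * (2 * del) ^ 4 / (ε / 4) ^ 2 ≤ ε / 1000 := by
    rw [div_le_iff₀ (by positivity)]
    have h1 : del ^ 4 ≤ del ^ 1 := pow_le_pow_of_le_one hdel0.le e8 (by norm_num)
    rw [pow_one] at h1
    have h2 : 20 * (2 * del) ^ 4 = 320 * del ^ 4 := by ring
    have h3 : ε / 1000 * (ε / 4) ^ 2 = ε ^ 3 / 16000 := by ring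
    rw [h2, h3]
    norm_num at e5
    have : 0 < ε ^ 3 := by positivity
    linarith
  have e9 : 2 * (4 * 1 * (2 * del) ^ 2 + (21 / 10 * kap / nu + x) * (2 * del) ^ 2 +
      2 * (21 / 10 * kap / nu + x) * (2 * del)) / (ε / 4) =
      2 * (4 * 1 * (2 * del) ^ 2 / (ε / 4) + (21 / 10 * kap / nu + x) * (2 * del) ^ 2 / (ε / 4) +
        2 * (21 / 10 * kap / nu + x) * (2 * del) / (ε / 4)) := by ring
  rw [e9, e1, e2]
  norm_num at t1 t2 t3 t4 t5 t6 ⊢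
  linarith

/-- **The constants exist.** -/
theorem exists_cst (ε : ℝ) (hε : 0 < ε) (hε1 : ε ≤ 1) :
    ∃ c : OCst, c.Ok ε ∧ c.ColsOK.{u} := by
  obtain ⟨kap, hk, hk1⟩ := exists_kap (ε ^ 3 / 10 ^ 8) (by positivity)
  have hk0 : 0 < kap := by linarith
  obtain ⟨nu, hnu⟩ : ∃ nu : ℝ, nu = ε / (4 * kap) := ⟨_, rfl⟩
  obtain ⟨al, hal⟩ : ∃ al : ℝ, al = ε ^ 2 / (8000 * kap ^ 2) := ⟨_, rfl⟩
  obtain ⟨del, hdel⟩ : ∃ del : ℝ, del = ε ^ 3 / (10 ^ 8 * kap ^ 2) := ⟨_, rfl⟩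
  have hnu0 : 0 < nu := by rw [hnu]; positivity
  have hal0 : 0 < al := by rw [hal]; positivity
  have hdel0 : 0 < del := by rw [hdel]; positivity
  have hnu1 : nu ≤ 1 := by
    rw [hnu, div_le_one (by positivity)]
    linarith
  have hk2 : 1 ≤ kap ^ 2 := one_le_pow₀ hk
  have hεp : ∀ n : ℕ, ε ^ n ≤ 1 := fun n => pow_le_one₀ hε.le hε1
  have hal1 : al ≤ 1 := by
    rw [hal, div_le_one (by positivity)]
    have := hεp 2
    linarith
  have hdel1 : del ≤ 1 := by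
    rw [hdel, div_le_one (by positivity)]
    have := hεp 3
    linarith
  obtain ⟨amc, hamc⟩ : ∃ amc : ℝ, amc = 4000 / nu := ⟨_, rfl⟩
  have hamc0 : 0 < amc := by rw [hamc]; positivity
  have hamc1 : 4000 ≤ amc := by
    rw [hamc, le_div_iff₀ hnu0]
    linarith
  obtain ⟨H, hH⟩ : ∃ H : ℝ, H = 2 * amc ^ 2 / nu := ⟨_, rfl⟩
  have hH1 : 1 ≤ H := by
    rw [hH, le_div_iff₀ hnu0]
    nlinarith
  obtain ⟨e1, he1⟩ : ∃ e1 : ℝ, e1 = 1 / (32 * kap) := ⟨_, rfl⟩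
  have he0 : 0 < e1 := by rw [he1]; positivity
  have he1' : e1 ≤ 1 := by
    rw [he1, div_le_one (by positivity)]
    linarith
  obtain ⟨C0, q0, hC0, hq0, hcols⟩ := exists_cols_stage.{u} H e1 hH1 he0 he1'
  choose Bf tf B0f hBf htf hcf using hcols kap
  obtain ⟨lam, hlam⟩ : ∃ lam : ℝ, lam = 1 / (10 ^ 5 * kap * C0 * H ^ 3) := ⟨_, rfl⟩
  have hH0 : 0 < H := by linarith
  have hC00 : 0 < C0 := by linarith
  have hlam0 : 0 < lam := by rw [hlam]; positivity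
  have hX1 : 1 ≤ kap * C0 * H ^ 3 := by
    have h1 : 1 ≤ kap * C0 := one_le_mul_of_one_le_of_one_le hk hC0
    exact one_le_mul_of_one_le_of_one_le h1 (one_le_pow₀ hH1)
  have hfrz : 10 ^ 5 * kap * C0 * H ^ 3 * lam = 1 := by
    rw [hlam]
    field_simp
  -- the weights
  let W : ℕ → ℝ := fun n => Nat.rec 1 (fun _ w => w * (1 + Bf w)) n
  have hW0 : W 0 = 1 := rfl
  have hWs : ∀ n, W (n + 1) = W n * (1 + Bf (W n)) := fun n => rfl
  have hW1 : ∀ n, 1 ≤ W n := by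
    intro n
    induction n with
    | zero => rw [hW0]
    | succ n ih =>
      rw [hWs]
      have := hBf (W n)
      exact one_le_mul_of_one_le_of_one_le ih (by linarith)
  obtain ⟨Mi, hMi⟩ : ∃ Mi : ℕ, Mi = ⌈2 * kap / lam⌉₊ := ⟨_, rfl⟩
  let Cx : ℕ → ℝ := fun n => (1 + B0f (W n) * (1 + H / tf (W n))) +
    (1 + q0 * (H * (1 + H / tf (W n))))
  have hCx0 : ∀ n, 0 ≤ Cx n := by
    intro n
    have := htf (W n)
    show 0 ≤ (1 + (B0f (W n) : ℝ) * (1 + H / tf (W n))) + (1 + q0 * (H * (1 + H / tf (W n))))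
    positivity
  have hB0 : ∀ n, 0 ≤ Bf (W n) * Cx n := fun n =>
    mul_nonneg (by linarith [hBf (W n)]) (hCx0 n)
  have hB1 : ∀ n, 0 ≤ (W n + W (n + 1)) * (2 + Bf (W n)) * Real.exp (2 * H * kap) := by
    intro n
    have h1 := hW1 n
    have h2 := hW1 (n + 1)
    have h3 := hBf (W n)
    have h4 := Real.exp_pos (2 * H * kap)
    exact mul_nonneg (mul_nonneg (by linarith) (by linarith)) h4.le
  obtain ⟨S1, hS1⟩ : ∃ S1 : ℝ, S1 = ∑ n ∈ range (Mi + 1), Bf (W n) * Cx n := ⟨_, rfl⟩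
  obtain ⟨S2, hS2⟩ : ∃ S2 : ℝ, S2 = ∑ n ∈ range (Mi + 1),
    (W n + W (n + 1)) * (2 + Bf (W n)) * Real.exp (2 * H * kap) := ⟨_, rfl⟩
  have hS1' : ∀ n, n ≤ Mi → Bf (W n) * Cx n ≤ S1 := by
    intro n hn
    rw [hS1]
    exact single_le_sum (f := fun n => Bf (W n) * Cx n) (fun i _ => hB0 i)
      (mem_range.2 (by omega))
  have hS2' : ∀ n, n ≤ Mi →
      (W n + W (n + 1)) * (2 + Bf (W n)) * Real.exp (2 * H * kap) ≤ S2 := by
    intro n hn
    rw [hS2]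
    exact single_le_sum
      (f := fun n => (W n + W (n + 1)) * (2 + Bf (W n)) * Real.exp (2 * H * kap))
      (fun i _ => hB1 i) (mem_range.2 (by omega))
  have hS10 : 0 ≤ S1 := by rw [hS1]; exact sum_nonneg fun i _ => hB0 i
  have hS20 : 0 ≤ S2 := by rw [hS2]; exact sum_nonneg fun i _ => hB1 i
  obtain ⟨Kc, hKc⟩ : ∃ Kc : ℝ, Kc = S1 + S2 + 10 ^ 6 * (kap * H * C0) ^ 10 +
    Real.exp (10 * C0 * H * kap) + 1 / e1 := ⟨_, rfl⟩
  have hE0 := Real.exp_pos (10 * C0 * H * kap)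
  have hP0 : 0 ≤ 10 ^ 6 * (kap * H * C0) ^ 10 := by positivity
  have he2 : 0 < 1 / e1 := by positivity
  refine ⟨⟨kap, nu, al, del, amc, H, e1, C0, q0, lam, Kc, Mi, W, fun n => Bf (W n),
    fun n => tf (W n), fun n => B0f (W n)⟩, ?_, ?_⟩
  · refine ⟨hε, hε1, hk, hnu0, hnu1, ?_, hal0, ?_, hdel0, hdel1, ?_, ?_, hH1, ?_, he0, he1', hC0,
      hq0, hlam0, ?_, ?_, ?_, ?_, hW0, hWs, hW1, fun n => hBf _, fun n => htf _, ?_, ?_, ?_, ?_,
      ?_, ?_⟩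
    · show kap * nu ≤ ε / 4
      rw [hnu]
      refine le_of_eq ?_
      field_simp
    · show al ≤ amc
      linarith
    · show 3 * Real.exp (-(94 / 100 * kap)) ≤ del / 2
      have h1 : 0 < kap ^ 2 := by positivity
      rw [hdel, le_div_iff₀ (by norm_num), le_div_iff₀ (by positivity)]
      have h2 := hk1
      rw [le_div_iff₀ (by positivity)] at h2
      calc _ = 6 * Real.exp (-(94 / 100 * kap)) * kap ^ 2 * 10 ^ 8 := by ring
        _ ≤ _ := h2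
    · show amc * nu = 4000
      rw [hamc]
      field_simp
    · show 2 * amc ^ 2 ≤ H * nu
      rw [hH]
      refine le_of_eq ?_
      field_simp
    · show lam ≤ 1
      rw [hlam, div_le_one (by positivity)]
      have : 10 ^ 5 * kap * C0 * H ^ 3 = 10 ^ 5 * (kap * C0 * H ^ 3) := by ring
      rw [this]
      linarith
    · show 16 * kap * (e1 + H * (40 * C0 * H) * lam) ≤ 1
      have h1 : 16 * kap * e1 = 1 / 2 := by
        rw [he1]
        field_simp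
        norm_num
      have h2 : 16 * kap * (H * (40 * C0 * H) * lam) ≤ 1 / 2 := by
        have h3 : kap * C0 * H ^ 2 * lam ≤ kap * C0 * H ^ 3 * lam := by
          refine mul_le_mul_of_nonneg_right ?_ hlam0.le
          refine mul_le_mul_of_nonneg_left ?_ (by positivity)
          exact pow_le_pow_right₀ hH1 (by norm_num)
        have h4 : 10 ^ 5 * (kap * C0 * H ^ 3 * lam) = 1 := by rw [← hfrz]; ring
        have h5 : 16 * kap * (H * (40 * C0 * H) * lam) = 640 * (kap * C0 * H ^ 2 * lam) := by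
          ring
        rw [h5]
        norm_num at h4
        linarith
      have h3 : 16 * kap * (e1 + H * (40 * C0 * H) * lam) =
        16 * kap * e1 + 16 * kap * (H * (40 * C0 * H) * lam) := by ring
      rw [h3]
      linarith
    · show 10 ^ 5 * kap * C0 * H ^ 3 * lam ≤ 1
      exact hfrz.le
    · show 2 * kap / lam ≤ Mi
      rw [hMi]
      exact Nat.le_ceil _
    · show 1 ≤ e1 * Kc
      have h1 : 1 / e1 ≤ Kc := by rw [hKc]; linarith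
      rw [div_le_iff₀ he0] at h1
      linarith
    · show 10 ^ 6 * (kap * H * C0) ^ 10 ≤ Kc
      rw [hKc]
      linarith
    · show Real.exp (10 * C0 * H * kap) ≤ Kc
      rw [hKc]
      linarith
    · intro n hn
      show Bf (W n) * Cx n ≤ Kc
      have := hS1' n hn
      rw [hKc]
      linarith
    · intro n hn
      show (W n + W (n + 1)) * (2 + Bf (W n)) * Real.exp (2 * H * kap) ≤ Kc
      have := hS2' n hn
      rw [hKc]
      linarith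
    · intro x hx hx1
      exact num_cond hε hε1 hk hnu hal hdel x hx hx1
  · intro n V AL _ _ _ D hD h1 h2 h3 h4 h5 h6 W1 j s C hj hI
    exact hcf (W n) V AL D hD h1 h2 h3 h4 h5 h6 W1 j s C hj hI

/-! ## The parameters that depend on `T` -/

/-- The conditions on the parameters. -/
structure ONum (c : OCst) (ε T : ℝ) (k q M NS LI R : ℕ) : Prop where
  big : Big T
  Kc_log : c.Kc ^ 1000 ≤ Real.log T
  k_lo : T ^ 3999 ≤ k
  k_hi : (k : ℝ) ≤ T ^ 4000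
  q_hi : (q : ℝ) ≤ T ^ 150
  M_le : (M : ℝ) + T ^ 133 ≤ q
  M_ge : (q : ℝ) - M ≤ q / T ^ 16
  R_lo : T ^ 799 ≤ R
  R_hi : (R : ℝ) ≤ T ^ 800
  n1_lo : c.nu / 2 * T ^ 4800 ≤ R * k
  n1_hi : (R : ℝ) * k ≤ c.nu * T ^ 4800
  NS_le : (NS : ℝ) ≤ c.kap * R
  NS_ge : c.kap * R - 1 ≤ NS
  LI_pos : 0 < LI
  LI_le : (LI : ℝ) ≤ c.lam * R
  Mi_ge : NS ≤ c.Mi * LI
  q0 : ∀ n, n ≤ c.Mi → c.q0 * (c.W n * Real.exp (2 * c.H * c.kap)) ≤ R * k
  am : c.amc ≤ T
  kap : c.kap ≤ T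
  al : 1 ≤ c.al * T
  del : 2 * (c.kap + 1) ≤ c.del * T
  x1 : 1 / T ≤ ε / 1000
  fin : ((NS : ℝ) + 1) * (k + 1) + (ε / 4 * T ^ 4800 + 1) ≤ ε * T ^ 4800

theorem big_eventually : ∀ᶠ T : ℝ in atTop, Big T := by
  have h1 : ∀ᶠ T : ℝ in atTop, ‖T ^ 200000‖ ≤ 1 * ‖Real.exp T‖ :=
    (Real.isLittleO_pow_exp_atTop (n := 200000)).bound one_pos
  filter_upwards [h1, eventually_ge_atTop (10 ^ 6 : ℝ)] with T h2 h3
  refine ⟨h3, ?_⟩
  rw [one_mul, Real.norm_of_nonneg (Real.exp_pos T).le,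
    Real.norm_of_nonneg (by positivity)] at h2
  exact h2

theorem exists_num {c : OCst} {ε : ℝ} (hc : c.Ok ε) :
    ∃ T₀ : ℝ, ∀ T : ℝ, T₀ ≤ T → ∃ k q M NS LI R : ℕ, ONum c ε T k q M NS LI R := by
  have hW : ∀ n, 0 ≤ c.W n := fun n => zero_le_one.trans (hc.W_one n)
  obtain ⟨S, hS⟩ : ∃ S : ℝ, S = ∑ n ∈ range (c.Mi + 1),
    c.q0 * (c.W n * Real.exp (2 * c.H * c.kap)) := ⟨_, rfl⟩
  have hS0 : ∀ n, 0 ≤ c.q0 * (c.W n * Real.exp (2 * c.H * c.kap)) := fun n =>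
    mul_nonneg hc.q0_pos.le (mul_nonneg (hW n) (Real.exp_pos _).le)
  have hS1 : ∀ n, n ≤ c.Mi → c.q0 * (c.W n * Real.exp (2 * c.H * c.kap)) ≤ S := by
    intro n hn
    rw [hS]
    exact single_le_sum (f := fun n => c.q0 * (c.W n * Real.exp (2 * c.H * c.kap)))
      (fun i _ => hS0 i) (mem_range.2 (by omega))
  have hlog : ∀ᶠ T : ℝ in atTop, c.Kc ^ 1000 ≤ Real.log T :=
    Real.tendsto_log_atTop.eventually_ge_atTop _
  have hev := big_eventually.and (hlog.and ((eventually_ge_atTop (10 ^ 9 : ℝ)).and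
    ((eventually_ge_atTop (8 / c.nu)).and ((eventually_ge_atTop (8 / c.lam)).and
    ((eventually_ge_atTop S).and ((eventually_ge_atTop c.amc).and
    ((eventually_ge_atTop c.kap).and ((eventually_ge_atTop (1 / c.al)).and
    ((eventually_ge_atTop (2 * (c.kap + 1) / c.del)).and
    ((eventually_ge_atTop (1000 / ε)).and
    (eventually_ge_atTop (8 * (c.kap + 4) / ε))))))))))))
  obtain ⟨T₀, hT₀⟩ := eventually_atTop.1 hev
  refine ⟨T₀, fun T hT => ?_⟩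
  obtain ⟨hbig, hlogT, hT9, hTnu, hTlam, hTS, hTam, hTkap, hTal, hTdel, hTx, hTf⟩ := hT₀ T hT
  have hT0 : 0 < T := hbig.pos
  have hT1 : 1 ≤ T := hbig.one_le
  have hnu := hc.nu_pos
  have hlam := hc.lam_pos
  have hε := hc.eps_pos
  rw [div_le_iff₀ hnu] at hTnu
  rw [div_le_iff₀ hlam] at hTlam
  rw [div_le_iff₀ hc.al_pos] at hTal
  rw [div_le_iff₀ hc.del_pos] at hTdel
  rw [div_le_iff₀ hε] at hTx hTf
  have hpp : ∀ a b : ℕ, a < b → 10 ^ 9 * T ^ a ≤ T ^ b := by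
    intro a b hab
    calc 10 ^ 9 * T ^ a ≤ T * T ^ a := mul_le_mul_of_nonneg_right hT9 (by positivity)
      _ = T ^ (a + 1) := by rw [pow_succ]; ring
      _ ≤ T ^ b := pow_le_pow_right₀ hT1 hab
  have hp : ∀ a : ℕ, 0 < T ^ a := fun a => pow_pos hT0 a
  have hp1 : ∀ a : ℕ, 1 ≤ T ^ a := fun a => one_le_pow₀ hT1
  -- density
  have hR1 : (⌊T ^ 800⌋₊ : ℝ) ≤ T ^ 800 := Nat.floor_le (hp 800).le
  have hR2 : T ^ 800 - 1 < (⌊T ^ 800⌋₊ : ℝ) := by
    have := Nat.lt_floor_add_one (T ^ 800)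
    linarith
  obtain ⟨R, hRdef⟩ : ∃ R : ℕ, R = ⌊T ^ 800⌋₊ := ⟨_, rfl⟩
  rw [← hRdef] at hR1 hR2
  have h799 := hpp 799 800 (by norm_num)
  have h799' := hp1 799
  have hR3 : T ^ 799 ≤ R := by linarith
  have hR0 : (0 : ℝ) < R := lt_of_lt_of_le (hp 799) hR3
  -- rounds
  have hq1 : (⌊T ^ 150⌋₊ : ℝ) ≤ T ^ 150 := Nat.floor_le (hp 150).le
  have hq2 : T ^ 150 - 1 < (⌊T ^ 150⌋₊ : ℝ) := by
    have := Nat.lt_floor_add_one (T ^ 150)
    linarith
  obtain ⟨q, hqdef⟩ : ∃ q : ℕ, q = ⌊T ^ 150⌋₊ := ⟨_, rfl⟩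
  rw [← hqdef] at hq1 hq2
  have hm1 : T ^ 133 ≤ (⌈T ^ 133⌉₊ : ℝ) := Nat.le_ceil _
  have hm2 : (⌈T ^ 133⌉₊ : ℝ) < T ^ 133 + 1 := Nat.ceil_lt_add_one (hp 133).le
  obtain ⟨mc, hmcdef⟩ : ∃ mc : ℕ, mc = ⌈T ^ 133⌉₊ := ⟨_, rfl⟩
  rw [← hmcdef] at hm1 hm2
  have h133 := hpp 133 150 (by norm_num)
  have h133' := hp1 133
  have hmq : mc ≤ q := by
    have h1 : (mc : ℝ) ≤ q := by linarith
    exact_mod_cast h1
  have hMcast : ((q - mc : ℕ) : ℝ) = (q : ℝ) - mc := by push_cast [hmq]; ring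
  -- colours
  have hnuT : 0 < c.nu * T ^ 4000 := mul_pos hnu (hp _)
  have hk1 : (⌊c.nu * T ^ 4000⌋₊ : ℝ) ≤ c.nu * T ^ 4000 := Nat.floor_le hnuT.le
  have hk2 : c.nu * T ^ 4000 - 1 < (⌊c.nu * T ^ 4000⌋₊ : ℝ) := by
    have := Nat.lt_floor_add_one (c.nu * T ^ 4000)
    linarith
  obtain ⟨k, hkdef⟩ : ∃ k : ℕ, k = ⌊c.nu * T ^ 4000⌋₊ := ⟨_, rfl⟩
  rw [← hkdef] at hk1 hk2
  have hnuT2 : ∀ a : ℕ, 8 * T ^ a ≤ c.nu * T ^ (a + 1) := by
    intro a
    calc 8 * T ^ a ≤ T * c.nu * T ^ a := mul_le_mul_of_nonneg_right hTnu (hp a).le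
      _ = _ := by rw [pow_succ]; ring
  have h3999 : 8 * T ^ 3999 ≤ c.nu * T ^ 4000 := hnuT2 3999
  have h3999' := hp1 3999
  have hk3 : T ^ 3999 ≤ k := by linarith
  have hk4 : (k : ℝ) ≤ T ^ 4000 :=
    hk1.trans (mul_le_of_le_one_left (hp _).le hc.nu_le)
  have e4800 : T ^ 4800 = T ^ 800 * T ^ 4000 := by rw [← pow_add]
  have hk0 : (0 : ℝ) < k := lt_of_lt_of_le (hp _) hk3
  have hn1 : (R : ℝ) * k ≤ c.nu * T ^ 4800 := by
    calc (R : ℝ) * k ≤ T ^ 800 * (c.nu * T ^ 4000) := mul_le_mul hR1 hk1 hk0.le (hp _).le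
      _ = _ := by rw [e4800]; ring
  have h4799 : 8 * T ^ 4799 ≤ c.nu * T ^ 4800 := hnuT2 4799
  have h4000 : 10 ^ 9 * T ^ 4000 ≤ T ^ 4799 := hpp 4000 4799 (by norm_num)
  have h800 : 10 ^ 9 * T ^ 800 ≤ T ^ 4799 := hpp 800 4799 (by norm_num)
  have hn2 : c.nu / 2 * T ^ 4800 ≤ R * k := by
    have h1 : (T ^ 800 - 1) * (c.nu * T ^ 4000 - 1) ≤ R * k :=
      mul_le_mul hR2.le hk2.le (by linarith) hR0.le
    have h2 : (T ^ 800 - 1) * (c.nu * T ^ 4000 - 1) =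
        c.nu * T ^ 4800 - T ^ 800 - c.nu * T ^ 4000 + 1 := by
      rw [e4800]
      ring
    rw [h2] at h1
    have h3 : c.nu * T ^ 4000 ≤ 1 * T ^ 4000 :=
      mul_le_mul_of_nonneg_right hc.nu_le (hp _).le
    linarith
  have hn3 : T ^ 4799 ≤ R * k := by linarith
  -- stages
  have hkap := hc.kap_one
  have hkR : 0 < c.kap * R := mul_pos (by linarith) hR0
  have hN1 : (⌊c.kap * R⌋₊ : ℝ) ≤ c.kap * R := Nat.floor_le hkR.le
  have hN2 : c.kap * R - 1 < (⌊c.kap * R⌋₊ : ℝ) := by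
    have := Nat.lt_floor_add_one (c.kap * R)
    linarith
  obtain ⟨NS, hNSdef⟩ : ∃ NS : ℕ, NS = ⌊c.kap * R⌋₊ := ⟨_, rfl⟩
  rw [← hNSdef] at hN1 hN2
  have hlR : 8 ≤ c.lam * R := by
    have h1 : T ≤ R := by
      refine le_trans ?_ hR3
      calc T = T ^ 1 := (pow_one T).symm
        _ ≤ T ^ 799 := pow_le_pow_right₀ hT1 (by norm_num)
    have h2 : c.lam * T ≤ c.lam * R := mul_le_mul_of_nonneg_left h1 hlam.le
    linarith
  have hL1 : (⌊c.lam * R⌋₊ : ℝ) ≤ c.lam * R := Nat.floor_le (by linarith)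
  have hL2 : c.lam * R - 1 < (⌊c.lam * R⌋₊ : ℝ) := by
    have := Nat.lt_floor_add_one (c.lam * R)
    linarith
  obtain ⟨LI, hLIdef⟩ : ∃ LI : ℕ, LI = ⌊c.lam * R⌋₊ := ⟨_, rfl⟩
  rw [← hLIdef] at hL1 hL2
  have hLI0 : 0 < LI := by
    have : (0 : ℝ) < LI := by linarith
    exact_mod_cast this
  have hMi : NS ≤ c.Mi * LI := by
    have h1 : (NS : ℝ) ≤ c.Mi * LI := by
      have h2 := hc.Mi_ge
      rw [div_le_iff₀ hlam] at h2
      have h3 : (c.Mi : ℝ) * (c.lam * R / 2) ≤ c.Mi * LI :=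
        mul_le_mul_of_nonneg_left (by linarith) (Nat.cast_nonneg _)
      have h4 : 2 * c.kap * (R / 2) ≤ c.Mi * c.lam * (R / 2) :=
        mul_le_mul_of_nonneg_right h2 (by positivity)
      linarith
    exact_mod_cast h1
  refine ⟨k, q, q - mc, NS, LI, R, hbig, hlogT, hk3, hk4, hq1, ?_, ?_, hR3, hR1, hn2, hn1, hN1,
    hN2.le, hLI0, hL1, hMi, ?_, hTam, hTkap, by linarith, by linarith, ?_, ?_⟩
  · rw [hMcast]
    linarith
  · rw [hMcast, le_div_iff₀ (hp 16)]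
    have h1 : (q : ℝ) - (q - mc) = mc := by ring
    rw [h1]
    have h2 : (mc : ℝ) ≤ 2 * T ^ 133 := by linarith
    have h3 : (mc : ℝ) * T ^ 16 ≤ 2 * T ^ 133 * T ^ 16 :=
      mul_le_mul_of_nonneg_right h2 (hp _).le
    have h4 : 2 * T ^ 133 * T ^ 16 = 2 * T ^ 149 := by
      rw [mul_assoc, ← pow_add]
    have h5 := hpp 149 150 (by norm_num)
    have h6 := hp1 149
    linarith
  · intro n hn
    refine (hS1 n hn).trans (hTS.trans (le_trans ?_ hn3))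
    calc T = T ^ 1 := (pow_one T).symm
      _ ≤ T ^ 4799 := pow_le_pow_right₀ hT1 (by norm_num)
  · rw [div_le_div_iff₀ hT0 (by norm_num)]
    linarith
  · have h1 : ((NS : ℝ) + 1) * (k + 1) = NS * k + NS + k + 1 := by ring
    rw [h1]
    have h2 : (NS : ℝ) * k ≤ ε / 4 * T ^ 4800 := by
      calc (NS : ℝ) * k ≤ c.kap * R * k := mul_le_mul_of_nonneg_right hN1 hk0.le
        _ = c.kap * (R * k) := by ring
        _ ≤ c.kap * (c.nu * T ^ 4800) := mul_le_mul_of_nonneg_left hn1 (by linarith)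
        _ = c.kap * c.nu * T ^ 4800 := by ring
        _ ≤ ε / 4 * T ^ 4800 := mul_le_mul_of_nonneg_right hc.nu_kap (hp _).le
    have h3 : (NS : ℝ) ≤ c.kap * T ^ 4799 := by
      refine hN1.trans (mul_le_mul_of_nonneg_left ?_ (by linarith))
      have := hp 800
      linarith
    have h4 : (k : ℝ) ≤ T ^ 4799 := by
      have := hp 4000
      linarith
    have h5 := hp1 4799
    have h6 : (c.kap + 4) * T ^ 4799 ≤ ε / 8 * T ^ 4800 := by
      have h7 : 8 * (c.kap + 4) * T ^ 4799 ≤ T * ε * T ^ 4799 :=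
        mul_le_mul_of_nonneg_right hTf (hp _).le
      have h8 : T ^ 4800 = T ^ 4799 * T := pow_succ _ _
      rw [h8]
      linarith
    have h7 : 0 < ε * T ^ 4800 := mul_pos hε (hp _)
    linarith

end Pool.Agent.AcyG
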