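import Pool.Agent.AcyG.OSite

/-! # Pointwise invariants of one stage (project MP_af9dfb_G, row OPtw) -/

set_option autoImplicit false
set_option linter.unusedSectionVars false

namespace Pool.Agent.AcyG

open Finset
open Pool.Agent.Acy (IsPM wt Ex Pr mean)
open Pool.Agent.AcyK (Big StepOK LocOK prodLaw Un Sel updCol HasC cN)
open scoped Classical

universe u v

section

variable {V AL : Type u} [Fintype V] [DecidableEq V] [Fintype AL]

/-- The pointwise part of `GData.SInv`. -/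
structure GData.SPtw (D : GData V AL) (W0 W1 : ℝ) (j : ℕ) (s : GState V)
    (C : V → Option (ℕ × Fin D.k × ℕ)) : Prop where
  X_symm : ∀ u x, s.X u x = s.X x u
  st_symm : ∀ u x, s.st u x = s.st x u
  GB_symm : ∀ u x, s.GB u x = s.GB x u
  ch_symm : ∀ u x, s.ch u x = s.ch x u
  X_lo : ∀ u x, s.X u x = 0 ∨ D.dec j ≤ s.X u x
  X_hi : ∀ u x, s.X u x ≤ D.Kc
  X_act : ∀ u x, D.aw s u x → s.X u x ≤ W0 * D.gr j
  X_asl : ∀ u x, D.as s u x → s.X u x ≤ W1 * D.gr j
  GB_nonneg : ∀ u x, 0 ≤ s.GB u x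
  ch_nonneg : ∀ u x, 0 ≤ s.ch u x
  ch_dead : ∀ u x, s.X u x = 0 → 1 ≤ s.ch u x
  ch_log : ∀ u x, s.X u x ≠ 0 → |Real.log (s.X u x)| ≤ D.Kc * s.ch u x
  fr_ne : ∀ u x, s.st u x = .frY ∨ s.st u x = .frO → s.X u x ≠ 0
  inj : ∀ u x, D.nf s u x → ∀ z ∈ cN D.N u x, ∀ z' ∈ cN D.N u x, z ≠ z' → ¬ D.mono C z z'
  C_lt : ∀ v i c r, C v = some (i, c, r) → i < j ∧ r < D.M

variable {Lb : Type u} [Fintype Lb]

namespace GSt

variable {E : GSt V Lb AL}

theorem op_gu_symm (hE : E.Ok) (l : Lb) (z z' x y : V) : E.gu l z z' x y = E.gu l z z' y x := by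
  unfold gu
  rw [if_congr (GData.os_nf_comm hE.dat hE.inv.toSInv x y) (hE.cols.symm2 l z z' x y) rfl]

theorem op_ga_symm (hE : E.Ok) (l : Lb) (z z' x y : V) : E.ga l z z' x y = E.ga l z z' y x := by
  unfold ga
  rw [if_congr (GData.os_aw_comm hE.dat hE.inv.toSInv x y) (hE.cols.symm2 l z z' x y) rfl]

theorem op_ga_swap (hE : E.Ok) (l : Lb) (z z' x y : V) : E.ga l z z' x y = E.ga l z' z x y := by
  unfold ga
  rw [hE.cols.symm1 l z z' x y]

theorem op_gu_swap (hE : E.Ok) (l : Lb) (z z' x y : V) : E.gu l z z' x y = E.gu l z' z x y := by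
  unfold gu
  rw [hE.cols.symm1 l z z' x y]

theorem op_gu_aw {x y : V} (h : E.aw E.s x y) (l : Lb) (z z' : V) :
    E.gu l z z' x y = E.u l z z' x y := by
  unfold gu
  rw [if_pos (GData.os_nf_of_aw h)]

theorem op_ga_aw {x y : V} (h : E.aw E.s x y) (l : Lb) (z z' : V) :
    E.ga l z z' x y = E.u l z z' x y := by
  unfold ga
  rw [if_pos h]

theorem op_ga_not {x y : V} (h : ¬ E.aw E.s x y) (l : Lb) (z z' : V) :
    E.ga l z z' x y = 0 := by
  unfold ga
  rw [if_neg h]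

theorem op_u_zero (hE : E.Ok) (l : Lb) {z z' x y : V}
    (h0 : E.chi E.s z z' = 0 ∨ E.chi E.s x y = 0) : E.u l z z' x y = 0 :=
  hE.cols.eq_zero l h0

theorem op_u_ge (hE : E.Ok) (l : Lb) (z z' x y : V) : -1 ≤ E.u l z z' x y :=
  hE.cols.ge_neg_one zero_le_one l z z' x y

theorem op_u_le (hE : E.Ok) (l : Lb) (z z' x y : V) : E.u l z z' x y ≤ E.Bx :=
  hE.cols.le_B (by linarith [hE.Bx_one]) l z z' x y

/-- The values are `-1`, `0` or at least `1`. -/
theorem op_u_cases (hE : E.Ok) (l : Lb) (z z' x y : V) :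
    E.u l z z' x y = -1 ∨ E.u l z z' x y = 0 ∨ 1 ≤ E.u l z z' x y := by
  by_cases h : (E.toGData.sd E.s).lnk z z' x y
  · exact Or.inl (hE.cols.kill l z z' x y h)
  · rcases hE.cols.vals l z z' x y h with h1 | h1
    · exact Or.inr (Or.inl h1)
    · exact Or.inr (Or.inr h1.1)

theorem op_mn_mono (hE : E.Ok) {w w' : V → V → Lb → ℝ} {z z' : V}
    (h : ∀ l, w z z' l ≤ w' z z' l) : E.mn w z z' ≤ E.mn w' z z' :=
  sum_le_sum fun l _ => mul_le_mul_of_nonneg_left (h l) (hE.cols.mu_nonneg z z' l)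

theorem op_mn_nonneg (hE : E.Ok) {w : V → V → Lb → ℝ} {z z' : V}
    (h : ∀ l, 0 ≤ w z z' l) : 0 ≤ E.mn w z z' :=
  sum_nonneg fun l _ => mul_nonneg (hE.cols.mu_nonneg z z' l) (h l)

theorem op_mn_const (hE : E.Ok) (a : ℝ) (z z' : V) : E.mn (fun _ _ _ => a) z z' = a := by
  unfold mn
  rw [← sum_mul, hE.cols.mu_sum, one_mul]

theorem op_prd_nonneg (hE : E.Ok) {w : V → V → Lb → ℝ}
    (h : ∀ z z' l, 0 ≤ w z z' l) : 0 ≤ E.prd w := by
  have hn := GData.os_n1_pos hE.dat
  unfold prd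
  exact mul_nonneg (by positivity) (sum_nonneg fun z _ => sum_nonneg fun z' _ =>
    mul_nonneg (GData.os_chi_nonneg hE.inv.toSInv z z') (op_mn_nonneg hE fun l => h z z' l))

theorem op_prd_mono (hE : E.Ok) {w w' : V → V → Lb → ℝ}
    (h : ∀ z z' l, w z z' l ≤ w' z z' l) : E.prd w ≤ E.prd w' := by
  have hn := GData.os_n1_pos hE.dat
  unfold prd
  exact mul_le_mul_of_nonneg_left (sum_le_sum fun z _ => sum_le_sum fun z' _ =>
    mul_le_mul_of_nonneg_left (op_mn_mono hE fun l => h z z' l)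
      (GData.os_chi_nonneg hE.inv.toSInv z z')) (by positivity)

theorem op_Wp_nonneg (i : Fin 2) (x y z z' : V) (l : Lb) : 0 ≤ E.Wp i x y z z' l := by
  unfold Wp
  split_ifs
  · exact le_max_right _ _
  · exact le_max_right _ _

theorem op_Wp_sub (x y z z' : V) (l : Lb) :
    E.ga l z z' x y = E.Wp 1 x y z z' l - E.Wp 0 x y z z' l := by
  unfold Wp
  rw [if_neg (by decide), if_pos rfl]
  rcases le_total 0 (E.ga l z z' x y) with h | h
  · rw [max_eq_left h, max_eq_right (by linarith)]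
    ring
  · rw [max_eq_right h, max_eq_left (by linarith)]
    ring

/-- Predicted number of kills. -/
theorem op_prd_kill (hE : E.Ok) (x y : V) : E.prd (E.Wp 0 x y) ≤ E.Y E.s x y := by
  have hn := GData.os_n1_pos hE.dat
  have hc := GData.os_chi_nonneg hE.inv.toSInv
  have h1 : ∀ z z', E.chi E.s z z' * E.mn (E.Wp 0 x y) z z' ≤
      if z ∈ cN E.N x y then (if z' ∈ cN E.N x y then E.chi E.s z z' else 0) else 0 := by
    intro z z'
    have h0 : (0 : ℝ) ≤
        if z ∈ cN E.N x y then (if z' ∈ cN E.N x y then E.chi E.s z z' else 0) else 0 := by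
      split_ifs
      exacts [hc z z', le_rfl, le_rfl]
    by_cases h2 : E.aw E.s x y ∧ (E.toGData.sd E.s).lnk z z' x y
    · obtain ⟨h3, h4⟩ := h2
      have h5 : z ∈ cN E.N x y := h4.2.2.1
      have h6 : z' ∈ cN E.N x y := h4.2.2.2
      rw [if_pos h5, if_pos h6]
      have h7 : E.mn (E.Wp 0 x y) z z' ≤ 1 := by
        rw [← op_mn_const hE 1 z z']
        refine op_mn_mono hE fun l => ?_
        unfold Wp
        rw [if_pos rfl]
        refine max_le ?_ zero_le_one
        rw [op_ga_aw h3]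
        linarith [op_u_ge hE l z z' x y]
      nlinarith [hc z z']
    · have h3 : E.mn (E.Wp 0 x y) z z' = 0 := by
        unfold mn
        refine sum_eq_zero fun l _ => ?_
        have h4 : E.Wp 0 x y z z' l = 0 := by
          unfold Wp
          rw [if_pos rfl]
          by_cases h5 : E.aw E.s x y
          · rw [op_ga_aw h5]
            have h6 : ¬ (E.toGData.sd E.s).lnk z z' x y := fun h => h2 ⟨h5, h⟩
            rcases hE.cols.vals l z z' x y h6 with h7 | h7
            · rw [h7]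
              simp
            · exact max_eq_right (by linarith [h7.1])
          · rw [op_ga_not h5]
            simp
        rw [h4, mul_zero]
      rw [h3, mul_zero]
      exact h0
  rw [GData.os_Y_eq]
  unfold prd
  refine mul_le_mul_of_nonneg_left ?_ (by positivity)
  refine (sum_le_sum fun z _ => sum_le_sum fun z' _ => h1 z z').trans (le_of_eq ?_)
  have h2 : ∀ z, ∑ z', (if z ∈ cN E.N x y then
      (if z' ∈ cN E.N x y then E.chi E.s z z' else 0) else 0) =
      if z ∈ cN E.N x y then ∑ z' ∈ cN E.N x y, E.chi E.s z z' else 0 := by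
    intro z
    split_ifs
    · rw [sum_ite_mem, univ_inter]
    · exact sum_const_zero
  simp only [h2]
  rw [sum_ite_mem, univ_inter]

/-- Predicted gains. -/
theorem op_prd_gain (hE : E.Ok) (x y : V) : E.prd (E.Wp 1 x y) ≤ E.C0 * E.Y E.s x y := by
  have hn := GData.os_n1_pos hE.dat
  refine le_trans ?_ (hE.cols.rate x y)
  unfold prd
  refine mul_le_mul_of_nonneg_left ?_ (by
    show 0 ≤ 1 / (2 * E.n1)
    positivity)
  refine sum_le_sum fun z _ => sum_le_sum fun z' _ => ?_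
  refine mul_le_mul_of_nonneg_left ?_ (GData.os_chi_nonneg hE.inv.toSInv z z')
  refine sum_le_sum fun l _ => mul_le_mul_of_nonneg_left ?_ (hE.cols.mu_nonneg z z' l)
  unfold Wp ga
  rw [if_neg (by decide)]
  split_ifs
  · exact le_rfl
  · rw [max_self]
    exact le_max_right _ _

end GSt

/-! ### Numbers -/

namespace GData

variable {D : GData V AL}

theorem op_C0H (hD : D.Ok) : D.C0 * D.H ≤ D.Kc := by
  have a1 := hD.kap_one
  have a2 := hD.H_one
  have a3 := hD.C0_one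
  have b0 : (1 : ℝ) ≤ D.C0 * D.H := one_le_mul_of_one_le_of_one_le a3 a2
  have a4 : D.C0 * D.H ≤ D.kap * D.H * D.C0 := by
    have : D.kap * D.H * D.C0 = D.kap * (D.C0 * D.H) := by ring
    rw [this]
    exact le_mul_of_one_le_left (by linarith) a1
  have a7 : (1 : ℝ) ≤ D.kap * D.H * D.C0 := b0.trans a4
  have a8 : D.kap * D.H * D.C0 ≤ (D.kap * D.H * D.C0) ^ 10 := by
    have := pow_le_pow_right₀ a7 (show 1 ≤ 10 by norm_num)
    rwa [pow_one] at this
  have a9 := hD.Kc_ge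
  have a10 : 0 ≤ (D.kap * D.H * D.C0) ^ 10 := by positivity
  nlinarith

theorem op_C0H_R (hD : D.Ok) : 2 * D.C0 * D.H / D.R ≤ 1 / 4 := by
  have h1 := op_C0H hD
  have h2 := os_Kc_T hD
  have h3 := os_R_pos hD
  have h4 := os_T_ge hD
  have h5 := hD.R_lo
  have h6 : D.T ^ 2 ≤ D.T ^ 799 := hD.big.pw (by norm_num)
  rw [div_le_iff₀ h3]
  nlinarith

theorem op_tiny (hD : D.Ok) : 2 / D.T ^ 5 ≤ 1 := by
  have h4 := os_T_ge hD
  have h0 := os_T_pos hD
  rw [div_le_one (by positivity)]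
  have h6 : D.T ^ 1 ≤ D.T ^ 5 := hD.big.pw (by norm_num)
  rw [pow_one] at h6
  linarith

theorem op_gr_succ (j : ℕ) : D.gr (j + 1) = D.gr j * Real.exp (2 * D.H / D.R) := by
  unfold gr
  rw [← Real.exp_add]
  congr 1
  push_cast
  ring

theorem op_dec_succ (j : ℕ) : D.dec (j + 1) = D.dec j * Real.exp (-(4 * D.C0 * D.H / D.R)) := by
  unfold dec
  rw [← Real.exp_add]
  congr 1
  push_cast
  ring

theorem op_gr_mono (hD : D.Ok) {i j : ℕ} (h : i ≤ j) : D.gr i ≤ D.gr j := by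
  unfold gr
  apply Real.exp_le_exp.2
  have h1 := hD.H_one
  have h2 := os_R_pos hD
  have h3 : (i : ℝ) ≤ j := by exact_mod_cast h
  have h4 : (i : ℝ) / D.R ≤ j / D.R := div_le_div_of_nonneg_right h3 h2.le
  nlinarith

theorem op_dec_mono (hD : D.Ok) {i j : ℕ} (h : i ≤ j) : D.dec j ≤ D.dec i := by
  unfold dec
  apply Real.exp_le_exp.2
  have h1 := hD.H_one
  have h1' := hD.C0_one
  have h2 := os_R_pos hD
  have h3 : (i : ℝ) ≤ j := by exact_mod_cast h
  have h4 : (i : ℝ) / D.R ≤ j / D.R := div_le_div_of_nonneg_right h3 h2.le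
  have h5 : 0 ≤ 4 * D.C0 * D.H := by positivity
  nlinarith

/-- `1 + x <= e^x`. -/
theorem op_gr_step (_hD : D.Ok) (j : ℕ) : D.gr j * (1 + 2 * D.H / D.R) ≤ D.gr (j + 1) := by
  rw [op_gr_succ]
  refine mul_le_mul_of_nonneg_left ?_ (os_gr_pos j).le
  have := Real.add_one_le_exp (2 * D.H / D.R)
  linarith

/-- `e^(-2a) <= 1 - a` for small `a`. -/
theorem op_dec_step (hD : D.Ok) (j : ℕ) :
    D.dec (j + 1) ≤ D.dec j * (1 - 2 * D.C0 * D.H / D.R) := by
  rw [op_dec_succ]
  refine mul_le_mul_of_nonneg_left ?_ (os_dec_pos j).le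
  set a : ℝ := 2 * D.C0 * D.H / D.R with ha
  have h1 : a ≤ 1 / 4 := op_C0H_R hD
  have h0 : 0 ≤ a := by
    have h1 := hD.H_one
    have h1' := hD.C0_one
    have h2 := (os_R_pos hD).le
    rw [ha]
    positivity
  have h2 : 4 * D.C0 * D.H / D.R = 2 * a := by rw [ha]; ring
  rw [h2]
  have h3 := Real.add_one_le_exp (2 * a)
  have h4 : Real.exp (-(2 * a)) * Real.exp (2 * a) = 1 := by rw [← Real.exp_add]; simp
  have h5 : 0 < Real.exp (-(2 * a)) := Real.exp_pos _
  have h6 : Real.exp (-(2 * a)) * (1 + 2 * a) ≤ 1 := by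
    rw [← h4]
    exact mul_le_mul_of_nonneg_left (by linarith) h5.le
  have h7 : (1 : ℝ) ≤ (1 - a) * (1 + 2 * a) := by nlinarith
  have h8 : Real.exp (-(2 * a)) * (1 + 2 * a) ≤ (1 - a) * (1 + 2 * a) := h6.trans h7
  exact le_of_mul_le_mul_right h8 (by linarith)

end GData

namespace GRn

variable {E : GRn V Lb AL}

theorem op_rs_sub (z z' : V) (a b : ℝ) : E.rs z z' (a - b) = E.rs z z' a - E.rs z z' b := by
  unfold GSm.rs
  split_ifs <;> simp

theorem op_Cr_sub (w w' : V → V → Lb → ℝ) :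
    E.Cr (fun z z' l => w z z' l - w' z z' l) = E.Cr w - E.Cr w' := by
  unfold Cr
  rw [← sum_sub_distrib]
  refine sum_congr rfl fun z _ => ?_
  rw [← sum_sub_distrib]
  refine sum_congr rfl fun z' _ => ?_
  rw [← op_rs_sub]
  congr 1
  unfold GSt.mn
  rw [← mul_sub, ← sum_sub_distrib]
  congr 1
  exact sum_congr rfl fun l _ => by ring

theorem op_cc_eq (x y : V) : E.cc x y = E.Cr (E.Wp 0 x y) - E.Cr (E.Wp 1 x y) := by
  unfold cc
  have h : (fun (z z' : V) (l : Lb) => E.ga l z z' x y) =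
      fun z z' l => E.Wp 1 x y z z' l - E.Wp 0 x y z z' l := by
    funext z z' l
    exact GSt.op_Wp_sub x y z z' l
  rw [h, op_Cr_sub]
  ring

theorem op_Cr_zero : E.Cr (fun _ _ _ => 0) = 0 := by
  unfold Cr GSt.mn GSm.rs
  simp

theorem op_cc_not {x y : V} (h : ¬ E.aw E.s x y) : E.cc x y = 0 := by
  unfold cc
  have h1 : (fun (z z' : V) (l : Lb) => E.ga l z z' x y) = fun _ _ _ => 0 := by
    funext z z' l
    exact GSt.op_ga_not h l z z'
  rw [h1, op_Cr_zero, neg_zero]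

theorem op_cc_hi (hE : E.Ok) (x y : V) : E.cc x y ≤ (E.Y E.s x y + 2 / E.T ^ 5) / E.R := by
  have hR := GData.os_R_pos hE.sm.dat
  have h1 := abs_le.1 (hE.rpp 0 x y)
  have h2 := abs_le.1 (hE.rpp 1 x y)
  have h3 := GSt.op_prd_kill hE.sm x y
  have h4 : 0 ≤ E.prd (E.Wp 1 x y) :=
    GSt.op_prd_nonneg hE.sm fun z z' l => GSt.op_Wp_nonneg 1 x y z z' l
  rw [op_cc_eq]
  have h5 : E.prd (E.Wp 0 x y) / E.R ≤ E.Y E.s x y / E.R := div_le_div_of_nonneg_right h3 hR.le
  have h6 : 0 ≤ E.prd (E.Wp 1 x y) / E.R := div_nonneg h4 hR.le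
  have h7 : (E.Y E.s x y + 2 / E.T ^ 5) / E.R = E.Y E.s x y / E.R + 2 * (1 / (E.T ^ 5 * E.R)) := by
    have := (GData.os_T_pos hE.sm.dat).ne'
    field_simp
  rw [h7]
  linarith [h1.2, h2.1]

theorem op_cc_lo (hE : E.Ok) (x y : V) :
    -((E.C0 * E.Y E.s x y + 2 / E.T ^ 5) / E.R) ≤ E.cc x y := by
  have hR := GData.os_R_pos hE.sm.dat
  have h1 := abs_le.1 (hE.rpp 0 x y)
  have h2 := abs_le.1 (hE.rpp 1 x y)
  have h3 := GSt.op_prd_gain hE.sm x y
  have h4 : 0 ≤ E.prd (E.Wp 0 x y) :=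
    GSt.op_prd_nonneg hE.sm fun z z' l => GSt.op_Wp_nonneg 0 x y z z' l
  rw [op_cc_eq]
  have h5 : E.prd (E.Wp 1 x y) / E.R ≤ E.C0 * E.Y E.s x y / E.R :=
    div_le_div_of_nonneg_right h3 hR.le
  have h6 : 0 ≤ E.prd (E.Wp 0 x y) / E.R := div_nonneg h4 hR.le
  have h7 : (E.C0 * E.Y E.s x y + 2 / E.T ^ 5) / E.R =
      E.C0 * E.Y E.s x y / E.R + 2 * (1 / (E.T ^ 5 * E.R)) := by
    have := (GData.os_T_pos hE.sm.dat).ne'
    field_simp
  rw [h7]
  linarith [h1.1, h2.2]

theorem op_cc_hi' (hE : E.Ok) (x y : V) : E.cc x y ≤ 2 * E.H / E.R := by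
  have hR := GData.os_R_pos hE.sm.dat
  have hH := hE.sm.dat.H_one
  by_cases h : E.aw E.s x y
  · refine (op_cc_hi hE x y).trans (div_le_div_of_nonneg_right ?_ hR.le)
    have h1 := hE.sm.inv.nf_Y x y (GData.os_nf_of_aw h)
    have h2 := GData.op_tiny hE.sm.dat
    linarith
  · rw [op_cc_not h]
    positivity

theorem op_cc_lo' (hE : E.Ok) (x y : V) : -(2 * E.C0 * E.H / E.R) ≤ E.cc x y := by
  have hR := GData.os_R_pos hE.sm.dat
  have hH := hE.sm.dat.H_one
  have hC := hE.sm.dat.C0_one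
  by_cases h : E.aw E.s x y
  · refine le_trans (neg_le_neg (div_le_div_of_nonneg_right ?_ hR.le)) (op_cc_lo hE x y)
    have h1 := hE.sm.inv.nf_Y x y (GData.os_nf_of_aw h)
    have h2 := GData.op_tiny hE.sm.dat
    have h3 : E.C0 * E.Y E.s x y ≤ E.C0 * E.H := mul_le_mul_of_nonneg_left h1 (by linarith)
    have h4 : (1 : ℝ) ≤ E.C0 * E.H := one_le_mul_of_one_le_of_one_le hC hH
    linarith
  · rw [op_cc_not h, neg_nonpos]
    positivity

theorem op_cc_abs (hE : E.Ok) (x y : V) : |E.cc x y| ≤ 2 * E.C0 * E.H / E.R := by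
  have hR := GData.os_R_pos hE.sm.dat
  have hH := hE.sm.dat.H_one
  have hC := hE.sm.dat.C0_one
  refine abs_le.2 ⟨op_cc_lo' hE x y, (op_cc_hi' hE x y).trans
    (div_le_div_of_nonneg_right ?_ hR.le)⟩
  nlinarith

theorem op_cc_half (hE : E.Ok) (x y : V) : |E.cc x y| ≤ 1 / 4 :=
  (op_cc_abs hE x y).trans (GData.op_C0H_R hE.sm.dat)

/-! ### Events -/

/-- The firings that affect the pair. -/
noncomputable def evs (E : GRn V Lb AL) (x y : V) : Finset (V × V) := univ.filter fun e =>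
  E.fr e.1 e.2 ∧ E.gu (E.lab e.1 e.2) e.1 e.2 x y ≠ 0

theorem op_nev (x y : V) : E.nev x y = (E.evs x y).card := rfl

theorem op_mem_evs {x y z z' : V} :
    (z, z') ∈ E.evs x y ↔ E.fr z z' ∧ E.gu (E.lab z z') z z' x y ≠ 0 := by
  unfold evs
  simp

theorem op_evs_symm (hE : E.Ok) (x y : V) : E.evs x y = E.evs y x := by
  unfold evs
  refine filter_congr fun e _ => ?_
  rw [GSt.op_gu_symm hE.sm]

theorem op_nev_symm (hE : E.Ok) (x y : V) : E.nev x y = E.nev y x := by
  rw [op_nev, op_nev, op_evs_symm hE]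

theorem op_gg_eq {x y : V} (h : E.aw E.s x y) :
    E.gg x y = ∑ e ∈ E.evs x y, E.u (E.lab e.1 e.2) e.1 e.2 x y := by
  unfold gg G1 evs
  rw [sum_filter, Fintype.sum_prod_type]
  refine sum_congr rfl fun z _ => sum_congr rfl fun z' _ => ?_
  simp only
  rw [GSt.op_gu_aw h, GSt.op_ga_aw h]
  by_cases h1 : E.fr z z'
  · by_cases h2 : E.u (E.lab z z') z z' x y = 0
    · rw [if_pos h1, if_neg fun h3 => h3.2 h2, h2]
    · rw [if_pos h1, if_pos ⟨h1, h2⟩]
  · rw [if_neg h1, if_neg fun h3 => h1 h3.1]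

theorem op_gg_not {x y : V} (h : ¬ E.aw E.s x y) : E.gg x y = 0 := by
  unfold gg G1
  refine sum_eq_zero fun z _ => sum_eq_zero fun z' _ => ?_
  beta_reduce
  rw [GSt.op_ga_not h]
  simp

theorem op_gg_symm (hE : E.Ok) (x y : V) : E.gg x y = E.gg y x := by
  unfold gg G1
  refine sum_congr rfl fun z _ => sum_congr rfl fun z' _ => ?_
  beta_reduce
  rw [GSt.op_ga_symm hE.sm]

theorem op_cc_symm (hE : E.Ok) (x y : V) : E.cc x y = E.cc y x := by
  unfold cc
  congr 2
  funext z z' l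
  exact GSt.op_ga_symm hE.sm l z z' x y

theorem op_cls_symm (x y : V) : E.cls x y ↔ E.cls y x := by
  unfold cls cN
  rw [inter_comm]

/-- The case of one firing. -/
theorem op_one {x y : V} (h : E.aw E.s x y) (hn : E.nev x y = 1) {z z' : V}
    (hz : (z, z') ∈ E.evs x y) : E.gg x y = E.u (E.lab z z') z z' x y := by
  rw [op_nev, card_eq_one] at hn
  obtain ⟨e, he⟩ := hn
  rw [he, mem_singleton] at hz
  rw [op_gg_eq h, he, sum_singleton, ← hz]

/-- The gain in the case of one firing. -/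
theorem op_gg_one (hE : E.Ok) {x y : V} (h : E.aw E.s x y) (hn : E.nev x y = 1) :
    E.gg x y = -1 ∨ (1 ≤ E.gg x y ∧ E.gg x y ≤ E.Bx) := by
  have h1 : 0 < (E.evs x y).card := by rw [← op_nev, hn]; exact one_pos
  obtain ⟨e, he⟩ := card_pos.1 h1
  obtain ⟨z, z'⟩ := e
  have h2 := (op_mem_evs.1 he).2
  rw [GSt.op_gu_aw h] at h2
  rw [op_one h hn he]
  rcases GSt.op_u_cases hE.sm (E.lab z z') z z' x y with h3 | h3 | h3
  · exact Or.inl h3
  · exact absurd h3 h2
  · exact Or.inr ⟨h3, GSt.op_u_le hE.sm _ _ _ _ _⟩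

/-! ### New weights -/

theorem op_nX_not {x y : V} (h : ¬ E.aw E.s x y) : E.nX x y = E.s.X x y := by
  unfold nX
  rw [if_neg h]

theorem op_nX0 {x y : V} (h : E.aw E.s x y) (hn : E.nev x y = 0) :
    E.nX x y = E.s.X x y * (1 + E.cc x y) := by
  unfold nX
  rw [if_pos h, if_pos hn]

theorem op_nX1 (hE : E.Ok) {x y : V} (h : E.aw E.s x y) (hn : E.nev x y = 1) :
    (E.gg x y = -1 ∧ E.nX x y = 0) ∨ (1 ≤ E.gg x y ∧ E.gg x y ≤ E.Bx ∧
      E.nX x y = E.s.X x y * (1 + E.cc x y + E.gg x y)) := by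
  rcases op_gg_one hE h hn with h1 | h1
  · left
    refine ⟨h1, ?_⟩
    unfold nX
    rw [if_pos h, if_neg (by omega), if_pos hn, if_pos (by linarith)]
  · right
    refine ⟨h1.1, h1.2, ?_⟩
    unfold nX
    rw [if_pos h, if_neg (by omega), if_pos hn, if_neg (by linarith [h1.1])]

theorem op_nX2 {x y : V} (h : E.aw E.s x y) (hn : 2 ≤ E.nev x y) :
    E.nX x y = E.s.X x y := by
  unfold nX
  rw [if_pos h, if_neg (by omega), if_neg (by omega)]

theorem op_X_pos (hE : E.Ok) {x y : V} (h : E.s.X x y ≠ 0) : 0 < E.s.X x y :=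
  lt_of_le_of_ne (GData.os_X_nonneg hE.sm.inv.toSInv x y) (Ne.symm h)

theorem op_nX_symm (hE : E.Ok) (x y : V) : E.nX x y = E.nX y x := by
  have h1 := GData.os_aw_comm hE.sm.dat hE.sm.inv.toSInv x y
  unfold nX
  rw [op_nev_symm hE x y, op_cc_symm hE x y, op_gg_symm hE x y, hE.sm.inv.X_symm x y]
  exact if_congr h1 rfl rfl

/-- The new weight, all cases. -/
theorem op_nX_cases (hE : E.Ok) (x y : V) :
    (E.nX x y = E.s.X x y ∧ (¬ E.aw E.s x y ∨ 2 ≤ E.nev x y)) ∨
    (E.aw E.s x y ∧ E.nev x y = 0 ∧ E.nX x y = E.s.X x y * (1 + E.cc x y)) ∨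
    (E.aw E.s x y ∧ E.nev x y = 1 ∧ E.gg x y = -1 ∧ E.nX x y = 0) ∨
    (E.aw E.s x y ∧ E.nev x y = 1 ∧ 1 ≤ E.gg x y ∧ E.gg x y ≤ E.Bx ∧
      E.nX x y = E.s.X x y * (1 + E.cc x y + E.gg x y)) := by
  by_cases h : E.aw E.s x y
  · rcases Nat.lt_or_ge (E.nev x y) 2 with h1 | h1
    · rcases Nat.lt_or_ge (E.nev x y) 1 with h2 | h2
      · exact Or.inr (Or.inl ⟨h, by omega, op_nX0 h (by omega)⟩)
      · have h3 : E.nev x y = 1 := by omega
        rcases op_nX1 hE h h3 with h4 | h4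
        · exact Or.inr (Or.inr (Or.inl ⟨h, h3, h4.1, h4.2⟩))
        · exact Or.inr (Or.inr (Or.inr ⟨h, h3, h4.1, h4.2.1, h4.2.2⟩))
    · exact Or.inl ⟨op_nX2 h h1, Or.inr h1⟩
  · exact Or.inl ⟨op_nX_not h, Or.inl h⟩

/-! ### New statuses -/

theorem op_st_aw {x y : V} (h : E.aw E.s x y) : E.next.st x y =
    if E.nX x y = 0 then .act else if 2 ≤ E.nev x y ∨ E.cls x y then .frO else
        if E.nev x y = 0 then .act else .asl := by
  unfold next
  simp only [h, if_true]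

theorem op_st_as {x y : V} (h' : ¬ E.aw E.s x y) (h : E.as E.s x y) : E.next.st x y =
    if E.nev x y = 0 ∧ ¬ E.cls x y then .asl else .frO := by
  unfold next
  simp only [h', h, if_true, if_false]

theorem op_st_not {x y : V} (h' : ¬ E.aw E.s x y) (h : ¬ E.as E.s x y) :
    E.next.st x y = E.s.st x y := by
  unfold next
  simp only [h', h, if_false]

theorem op_as_not_aw {x y : V} (h : E.as E.s x y) : ¬ E.aw E.s x y := by
  intro h'
  have h1 := h.2.1
  rw [h'.2.1] at h1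
  exact nomatch h1

/-- A pair that is awake after the stage. -/
theorem op_aw_next {x y : V} (h : E.aw E.next x y) :
    E.aw E.s x y ∧ E.nev x y = 0 ∧ ¬ E.cls x y := by
  obtain ⟨hf, hs, hX⟩ := h
  have hX' : E.nX x y ≠ 0 := hX
  by_cases h1 : E.aw E.s x y
  · rw [op_st_aw h1, if_neg hX'] at hs
    by_cases h2 : 2 ≤ E.nev x y ∨ E.cls x y
    · rw [if_pos h2] at hs
      exact nomatch hs
    · rw [if_neg h2] at hs
      push Not at h2
      by_cases h3 : E.nev x y = 0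
      · exact ⟨h1, h3, h2.2⟩
      · rw [if_neg h3] at hs
        exact nomatch hs
  · by_cases h2 : E.as E.s x y
    · rw [op_st_as h1 h2] at hs
      split_ifs at hs
    · rw [op_st_not h1 h2] at hs
      rw [op_nX_not h1] at hX'
      exact absurd ⟨hf, hs, hX'⟩ h1

/-- A pair that is asleep after the stage. -/
theorem op_as_next {x y : V} (h : E.as E.next x y) :
    (E.aw E.s x y ∧ E.nev x y = 1 ∧ ¬ E.cls x y ∧ E.nX x y ≠ 0) ∨
      (E.as E.s x y ∧ E.nev x y = 0 ∧ ¬ E.cls x y) := by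
  obtain ⟨hf, hs, hX⟩ := h
  have hX' : E.nX x y ≠ 0 := hX
  by_cases h1 : E.aw E.s x y
  · left
    rw [op_st_aw h1, if_neg hX'] at hs
    by_cases h2 : 2 ≤ E.nev x y ∨ E.cls x y
    · rw [if_pos h2] at hs
      exact nomatch hs
    · rw [if_neg h2] at hs
      push Not at h2
      by_cases h3 : E.nev x y = 0
      · rw [if_pos h3] at hs
        exact nomatch hs
      · exact ⟨h1, by omega, h2.2, hX'⟩
  · by_cases h2 : E.as E.s x y
    · right
      rw [op_st_as h1 h2] at hs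
      split_ifs at hs with h3
      exact ⟨h2, h3.1, h3.2⟩
    · rw [op_st_not h1 h2] at hs
      rw [op_nX_not h1] at hX'
      exact absurd ⟨hf, hs, hX'⟩ h2

/-- A pair that is alive and not frozen after the stage was so before. -/
theorem op_nf_next {x y : V} (h : E.nf E.next x y) : E.nf E.s x y ∧ ¬ E.cls x y := by
  rcases (GData.os_nf_iff x y).1 h with h1 | h1
  · have h2 := op_aw_next h1
    exact ⟨GData.os_nf_of_aw h2.1, h2.2.2⟩
  · rcases op_as_next h1 with h2 | h2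
    · exact ⟨GData.os_nf_of_aw h2.1, h2.2.2.1⟩
    · exact ⟨GData.os_nf_of_as h2.1, h2.2.2⟩

/-- A frozen pair has a positive weight. -/
theorem op_fr_next (hE : E.Ok) {x y : V} (h : E.next.st x y = .frY ∨ E.next.st x y = .frO) :
    E.nX x y ≠ 0 := by
  by_cases h1 : E.aw E.s x y
  · intro h2
    rw [op_st_aw h1, if_pos h2] at h
    rcases h with h | h <;> exact nomatch h
  · rw [op_nX_not h1]
    by_cases h2 : E.as E.s x y
    · exact h2.2.2
    · rw [op_st_not h1 h2] at h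
      exact hE.sm.inv.fr_ne x y h

/-! ### Pairs of equal real colours -/

/-- A pair of vertices of the stage with equal colours, different rounds and an allowed later pick
is a firing. -/
theorem op_chi_ne (_hE : E.Ok) {z z' : V} (hne : z ≠ z') (hz : z ∈ E.U) (hz' : z' ∈ E.U)
    (hK : E.K E.s z z' ≠ -1) (hs : ¬ E.sp z z') : E.chi E.s z z' ≠ 0 := by
  have h1 : ¬ E.spe z z' := fun h => hs ⟨hz, hz', Or.inl h⟩
  unfold GData.spe at h1
  push Not at h1
  obtain ⟨h2, h3⟩ := h1 hne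
  by_cases h4 : E.T ^ 2385 ≤ E.toGSm.toGSt.toGData.cod z z'
  · have hf : E.far z z' := ⟨hne, h2, h4, h3⟩
    have hX : E.s.X z z' ≠ 0 := by
      intro h5
      apply hK
      unfold GData.K
      rw [if_pos hf, h5]
      ring
    have hn : E.nf E.s z z' := by
      by_contra h5
      exact hs ⟨hz, hz', Or.inr (Or.inl ⟨hf, hX, h5⟩)⟩
    rw [GData.os_chi_nf hn]
    exact hX
  · have hl : E.lig z z' := ⟨hne, h2, not_le.1 h4⟩
    have ht : ¬ E.twn E.s z z' := fun h5 => hs ⟨hz, hz', Or.inr (Or.inr ⟨hl, h5⟩)⟩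
    have hn : ¬ E.nf E.s z z' := fun h5 => h4 h5.1.2.2.1
    unfold GData.chi
    rw [if_neg hn, if_pos ⟨hl, ht⟩]
    exact one_ne_zero

/-- The firing of a pair inside the common neighbourhood is an event and a kill. -/
theorem op_kill_mem (hE : E.Ok) {x y z z' : V} (hn : E.nf E.s x y) (hf : E.fr z z')
    (hc : E.chi E.s z z' ≠ 0) (hz : z ∈ cN E.N x y) (hz' : z' ∈ cN E.N x y) :
    (z, z') ∈ E.evs x y ∧ E.u (E.lab z z') z z' x y = -1 := by
  have hx : E.chi E.s x y ≠ 0 := by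
    rw [GData.os_chi_nf hn]
    exact hn.2.2
  have h1 : E.u (E.lab z z') z z' x y = -1 :=
    hE.sm.cols.kill _ z z' x y ⟨hc, hx, hz, hz'⟩
  refine ⟨op_mem_evs.2 ⟨hf, ?_⟩, h1⟩
  unfold GSt.gu
  rw [if_pos hn, h1]
  norm_num

theorem op_inj_aux (hE : E.Ok) {x y : V} (h : E.nf E.next x y) {z z' : V}
    (hz : z ∈ cN E.N x y) (hz' : z' ∈ cN E.N x y) (hne : z ≠ z') {c : Fin E.k} {r r' : ℕ}
    (hU : z ∈ E.U) (hU' : z' ∈ E.U) (hok : E.ok z) (hcol : E.col z = some (c, r))
    (hcol' : E.col z' = some (c, r')) (hr : r' < r) : False := by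
  have h1 := hE.sep z z' c r r' hU hU' hcol' hcol hr hok
  have h2 := op_chi_ne hE hne hU hU' h1.1 h1.2
  have hf : E.fr z z' := ⟨hU, hU', c, r, r', hcol, hcol', hr⟩
  obtain ⟨h3, h4⟩ := op_nf_next h
  obtain ⟨h5, h6⟩ := op_kill_mem hE h3 hf h2 hz hz'
  have h7 : 0 < E.nev x y := by
    rw [op_nev]
    exact card_pos.2 ⟨_, h5⟩
  rcases (GData.os_nf_iff x y).1 h with h8 | h8
  · have := (op_aw_next h8).2.1
    omega
  · rcases op_as_next h8 with h9 | h9
    · have h10 := op_one h9.1 h9.2.1 h5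
      rw [h6] at h10
      rcases op_nX1 hE h9.1 h9.2.1 with h11 | h11
      · exact h9.2.2.2 h11.2
      · linarith [h11.1]
    · omega

theorem op_nC_cases (v : V) : (E.nC v = E.C v) ∨
    (E.C v = none ∧ v ∈ E.U ∧ E.ok v ∧ E.nC v = (E.col v).map fun e => (E.j, e.1, e.2)) := by
  unfold nC
  split_ifs with h
  · exact Or.inr ⟨h.1, h.2.1, h.2.2, rfl⟩
  · exact Or.inl rfl

theorem op_inj (hE : E.Ok) {x y : V} (h : E.nf E.next x y) {z z' : V}
    (hz : z ∈ cN E.N x y) (hz' : z' ∈ cN E.N x y) (hne : z ≠ z') : ¬ E.mono E.nC z z' := by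
  rintro ⟨i, c, r, r', h1, h2⟩
  obtain ⟨h3, h4⟩ := op_nf_next h
  rcases op_nC_cases (E := E) z with hc | ⟨hc0, hU, hok, hc⟩
  · rw [hc] at h1
    have hi := (hE.sm.inv.C_lt z i c r h1).1
    rcases op_nC_cases (E := E) z' with hc' | ⟨hc0', hU', hok', hc'⟩
    · rw [hc'] at h2
      exact hE.sm.inv.inj x y h3 z hz z' hz' hne ⟨i, c, r, r', h1, h2⟩
    · rw [hc'] at h2
      rcases hcol : E.col z' with _ | ⟨c', r''⟩
      · rw [hcol] at h2
        simp at h2
      · rw [hcol] at h2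
        simp only [Option.map_some, Option.some.injEq, Prod.mk.injEq] at h2
        omega
  · rw [hc] at h1
    rcases hcol : E.col z with _ | ⟨c1, r1⟩
    · rw [hcol] at h1
      simp at h1
    rw [hcol] at h1
    simp only [Option.map_some, Option.some.injEq, Prod.mk.injEq] at h1
    rcases op_nC_cases (E := E) z' with hc' | ⟨hc0', hU', hok', hc'⟩
    · rw [hc'] at h2
      have hi := (hE.sm.inv.C_lt z' i c r' h2).1
      omega
    · rw [hc'] at h2
      rcases hcol' : E.col z' with _ | ⟨c2, r2⟩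
      · rw [hcol'] at h2
        simp at h2
      rw [hcol'] at h2
      simp only [Option.map_some, Option.some.injEq, Prod.mk.injEq] at h2
      obtain ⟨-, rfl, rfl⟩ := h1
      obtain ⟨-, rfl, rfl⟩ := h2
      rcases lt_trichotomy r2 r1 with h5 | h5 | h5
      · exact op_inj_aux hE h hz hz' hne hU hU' hok hcol hcol' h5
      · subst h5
        exact h4 ⟨z, hz, z', hz', hU, hU', hne, _, hcol, hcol'⟩
      · exact op_inj_aux hE h hz' hz hne.symm hU' hU hok' hcol' hcol h5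

theorem op_C_lt (hE : E.Ok) {v : V} {i : ℕ} {c : Fin E.k} {r : ℕ}
    (h : E.nC v = some (i, c, r)) : i < E.j + 1 ∧ r < E.M := by
  rcases op_nC_cases (E := E) v with hc | ⟨hc0, hU, hok, hc⟩
  · rw [hc] at h
    have := hE.sm.inv.C_lt v i c r h
    exact ⟨by omega, this.2⟩
  · rw [hc] at h
    rcases hcol : E.col v with _ | ⟨c1, r1⟩
    · rw [hcol] at h
      simp at h
    rw [hcol] at h
    simp only [Option.map_some, Option.some.injEq, Prod.mk.injEq] at h
    have h1 := hE.col_lt v c1 r1 hcol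
    exact ⟨by omega, by omega⟩

/-! ### The invariants -/

theorem op_st_symm (hE : E.Ok) (x y : V) : E.next.st x y = E.next.st y x := by
  have h1 := GData.os_aw_comm hE.sm.dat hE.sm.inv.toSInv x y
  have h2 := GData.os_as_comm hE.sm.dat hE.sm.inv.toSInv x y
  by_cases h3 : E.aw E.s x y
  · rw [op_st_aw h3, op_st_aw (h1.1 h3), op_nX_symm hE x y, op_nev_symm hE x y]
    refine if_congr Iff.rfl rfl (if_congr ?_ rfl rfl)
    rw [op_cls_symm]
  · by_cases h4 : E.as E.s x y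
    · rw [op_st_as h3 h4, op_st_as (fun h => h3 (h1.2 h)) (h2.1 h4), op_nev_symm hE x y]
      refine if_congr ?_ rfl rfl
      rw [op_cls_symm]
    · rw [op_st_not h3 h4, op_st_not (fun h => h3 (h1.2 h)) (fun h => h4 (h2.2 h))]
      exact hE.sm.inv.st_symm x y

theorem op_Wg_symm (i : Fin 2) (y y' z z' : V) (l : Lb) :
    E.Wg i y y' z z' l = E.Wg i y' y z z' l := by
  unfold GSt.Wg
  split_ifs
  · exact sum_congr rfl fun u _ => by ring
  · refine sum_congr rfl fun u _ => ?_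
    rw [mul_comm (E.s.X u y), mul_comm (E.ga l z z' u y)]

theorem op_gbI_symm (y y' : V) : E.gbI y y' = E.gbI y' y := by
  unfold GSt.gbI
  have h : E.Wg 1 y y' = E.Wg 1 y' y := by
    funext z z' l
    exact op_Wg_symm 1 y y' z z' l
  rw [h]

theorem op_Wg1_nonneg (hE : E.Ok) (y y' z z' : V) (l : Lb) : 0 ≤ E.Wg 1 y y' z z' l := by
  unfold GSt.Wg
  rw [if_neg (by simp)]
  exact sum_nonneg fun u _ => mul_nonneg (mul_nonneg (GData.os_X_nonneg hE.sm.inv.toSInv u y)
    (GData.os_X_nonneg hE.sm.inv.toSInv u y')) (abs_nonneg _)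

theorem op_gbI_nonneg (hE : E.Ok) (y y' : V) : 0 ≤ E.gbI y y' :=
  div_nonneg (GSt.op_prd_nonneg hE.sm fun z z' l => op_Wg1_nonneg hE y y' z z' l)
    (GData.os_R_pos hE.sm.dat).le

theorem op_ch (x y : V) : E.next.ch x y =
    if E.aw E.s x y then E.s.ch x y + |E.cc x y| + E.nev x y else E.s.ch x y := rfl

theorem op_ch_ge (x y : V) : E.s.ch x y ≤ E.next.ch x y := by
  rw [op_ch]
  split_ifs
  · have h1 := abs_nonneg (E.cc x y)
    have h2 : (0 : ℝ) ≤ E.nev x y := Nat.cast_nonneg _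
    linarith
  · exact le_rfl

/-- `1 + c` is positive. -/
theorem op_one_cc (hE : E.Ok) (x y : V) : 3 / 4 ≤ 1 + E.cc x y := by
  have := (abs_le.1 (op_cc_half hE x y)).1
  linarith

/-- The new weight of an awake pair without events. -/
theorem op_grow (hE : E.Ok) {x y : V} (h : E.aw E.s x y) :
    E.s.X x y * (1 + E.cc x y) ≤ E.W0 * E.gr (E.j + 1) := by
  have h1 := hE.sm.inv.X_act x y h
  have h2 := op_cc_hi' hE x y
  have h3 := GData.op_gr_step hE.sm.dat E.j
  have h4 := op_one_cc hE x y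
  have h5 := hE.sm.W0_one
  have h6 := GData.os_gr_pos (D := E.toGSm.toGSt.toGData) E.j
  calc E.s.X x y * (1 + E.cc x y) ≤ E.W0 * E.gr E.j * (1 + 2 * E.H / E.R) :=
        mul_le_mul h1 (by linarith) (by linarith) (mul_nonneg (by linarith) h6.le)
    _ = E.W0 * (E.gr E.j * (1 + 2 * E.H / E.R)) := by ring
    _ ≤ E.W0 * E.gr (E.j + 1) := mul_le_mul_of_nonneg_left h3 (by linarith)

/-- The new weight of an awake pair with one boost. -/
theorem op_boost (hE : E.Ok) {x y : V} (h : E.aw E.s x y) (hg : E.gg x y ≤ E.Bx)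
    (hg0 : 0 ≤ E.gg x y) :
    E.s.X x y * (1 + E.cc x y + E.gg x y) ≤ E.W1 * E.gr (E.j + 1) := by
  have h1 := hE.sm.inv.X_act x y h
  have h2 := op_cc_hi' hE x y
  have h3 := GData.op_gr_step hE.sm.dat E.j
  have h4 := op_one_cc hE x y
  have h5 := hE.sm.W0_one
  have h6 := GData.os_gr_pos (D := E.toGSm.toGSt.toGData) E.j
  have h7 := hE.sm.W01
  have h8 := hE.sm.Bx_one
  have h9 : 0 ≤ 2 * E.H / E.R := by
    have a1 := hE.sm.dat.H_one
    have a2 := (GData.os_R_pos hE.sm.dat).le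
    positivity
  have h10 : 1 + E.cc x y + E.gg x y ≤ (1 + E.Bx) * (1 + 2 * E.H / E.R) := by nlinarith
  calc E.s.X x y * (1 + E.cc x y + E.gg x y)
      ≤ E.W0 * E.gr E.j * ((1 + E.Bx) * (1 + 2 * E.H / E.R)) :=
        mul_le_mul h1 h10 (by linarith) (mul_nonneg (by linarith) h6.le)
    _ = E.W0 * (1 + E.Bx) * (E.gr E.j * (1 + 2 * E.H / E.R)) := by ring
    _ ≤ E.W1 * (E.gr E.j * (1 + 2 * E.H / E.R)) :=
        mul_le_mul_of_nonneg_right h7 (mul_nonneg h6.le (by linarith))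
    _ ≤ E.W1 * E.gr (E.j + 1) :=
        mul_le_mul_of_nonneg_left h3 (by linarith [hE.sm.W1_one])

theorem op_W_le (hE : E.Ok) : E.W0 * E.gr (E.j + 1) ≤ E.Kc ∧ E.W1 * E.gr (E.j + 1) ≤ E.Kc := by
  have h1 := hE.sm.W_le
  have h2 : E.gr (E.j + 1) ≤ E.gr E.NS := GData.op_gr_mono hE.sm.dat hE.sm.j_lt
  have h3 := hE.sm.W0_one
  have h4 := hE.sm.W1_one
  have h5 := hE.sm.Bx_one
  have h6 := GData.os_gr_pos (D := E.toGSm.toGSt.toGData) E.NS
  have h7 : (E.W0 + E.W1) * E.gr E.NS ≤ (E.W0 + E.W1) * (2 + E.Bx) * E.gr E.NS :=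
    mul_le_mul_of_nonneg_right (by nlinarith) h6.le
  constructor
  · have h8 : E.W0 * E.gr (E.j + 1) ≤ E.W0 * E.gr E.NS :=
      mul_le_mul_of_nonneg_left h2 (by linarith)
    nlinarith
  · have h8 : E.W1 * E.gr (E.j + 1) ≤ E.W1 * E.gr E.NS :=
      mul_le_mul_of_nonneg_left h2 (by linarith)
    nlinarith

theorem op_Bx_Kc (hE : E.Ok) : 2 + E.Bx ≤ E.Kc := by
  have h1 := hE.sm.W_le
  have h3 := hE.sm.W0_one
  have h4 := hE.sm.W1_one
  have h5 := hE.sm.Bx_one
  have h6 := GData.os_gr_one hE.sm.dat E.NS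
  have h7 : 1 * (2 + E.Bx) * 1 ≤ (E.W0 + E.W1) * (2 + E.Bx) * E.gr E.NS := by
    gcongr
    linarith
  linarith

theorem op_log_one (hE : E.Ok) (x y : V) : |Real.log (1 + E.cc x y)| ≤ 2 * |E.cc x y| := by
  have h1 := op_one_cc hE x y
  have h2 := abs_le.1 (op_cc_half hE x y)
  have h0 : 0 < 1 + E.cc x y := by linarith
  have h3 := Real.log_le_sub_one_of_pos h0
  have h4 := Real.one_sub_inv_le_log_of_pos h0
  have h5 : -(2 * |E.cc x y|) ≤ 1 - (1 + E.cc x y)⁻¹ := by
    have h6 : 1 - (1 + E.cc x y)⁻¹ = E.cc x y / (1 + E.cc x y) := by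
      field_simp
      ring
    rw [h6, le_div_iff₀ h0]
    nlinarith [abs_nonneg (E.cc x y), neg_abs_le (E.cc x y)]
  refine abs_le.2 ⟨by linarith, ?_⟩
  have h6 := le_abs_self (E.cc x y)
  have h7 := abs_nonneg (E.cc x y)
  linarith

/-- The pointwise invariants after the stage. -/
theorem op_next (hE : E.Ok) :
    E.toGSm.toGSt.toGData.SPtw E.W0 E.W1 (E.j + 1) E.next E.nC where
  X_symm := op_nX_symm hE
  st_symm := op_st_symm hE
  GB_symm u x := by
    show E.s.GB u x + E.gbI u x = E.s.GB x u + E.gbI x u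
    rw [hE.sm.inv.GB_symm, op_gbI_symm]
  ch_symm u x := by
    rw [op_ch, op_ch, hE.sm.inv.ch_symm u x, op_cc_symm hE u x, op_nev_symm hE u x]
    exact if_congr (GData.os_aw_comm hE.sm.dat hE.sm.inv.toSInv u x) rfl rfl
  X_lo u x := by
    show E.nX u x = 0 ∨ E.dec (E.j + 1) ≤ E.nX u x
    have hd : E.dec (E.j + 1) ≤ E.dec E.j := GData.op_dec_mono hE.sm.dat (Nat.le_succ _)
    have hs := GData.op_dec_step hE.sm.dat E.j
    have hp := GData.os_dec_pos (D := E.toGSm.toGSt.toGData) E.j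
    have hl := op_cc_lo' hE u x
    have h1 := op_one_cc hE u x
    have hkey : E.aw E.s u x → E.dec (E.j + 1) ≤ E.s.X u x * (1 + E.cc u x) := by
      intro h
      have h2 : E.dec E.j ≤ E.s.X u x := by
        rcases hE.sm.inv.X_lo u x with h3 | h3
        · exact absurd h3 h.2.2
        · exact h3
      refine hs.trans ?_
      calc E.dec E.j * (1 - 2 * E.C0 * E.H / E.R) ≤ E.dec E.j * (1 + E.cc u x) :=
            mul_le_mul_of_nonneg_left (by linarith) hp.le
        _ ≤ _ := mul_le_mul_of_nonneg_right h2 (by linarith)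
    rcases op_nX_cases hE u x with h | h | h | h
    · rw [h.1]
      rcases hE.sm.inv.X_lo u x with h3 | h3
      · exact Or.inl h3
      · exact Or.inr (hd.trans h3)
    · right
      rw [h.2.2]
      exact hkey h.1
    · exact Or.inl h.2.2.2
    · right
      rw [h.2.2.2.2]
      refine (hkey h.1).trans ?_
      have h2 := GData.os_X_nonneg hE.sm.inv.toSInv u x
      have h3 : 0 ≤ E.s.X u x * E.gg u x := mul_nonneg h2 (by linarith [h.2.2.1])
      nlinarith
  X_hi u x := by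
    show E.nX u x ≤ E.Kc
    have hW := op_W_le hE
    rcases op_nX_cases hE u x with h | h | h | h
    · rw [h.1]
      exact hE.sm.inv.X_hi u x
    · rw [h.2.2]
      exact (op_grow hE h.1).trans hW.1
    · rw [h.2.2.2]
      linarith [GData.os_Kc_one hE.sm.dat]
    · rw [h.2.2.2.2]
      exact (op_boost hE h.1 h.2.2.2.1 (by linarith [h.2.2.1])).trans hW.2
  X_act u x h := by
    show E.nX u x ≤ E.W0 * E.gr (E.j + 1)
    obtain ⟨h1, h2, -⟩ := op_aw_next h
    rw [op_nX0 h1 h2]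
    exact op_grow hE h1
  X_asl u x h := by
    show E.nX u x ≤ E.W1 * E.gr (E.j + 1)
    rcases op_as_next h with h1 | h1
    · rcases op_nX1 hE h1.1 h1.2.1 with h2 | h2
      · exact absurd h2.2 h1.2.2.2
      · rw [h2.2.2]
        exact op_boost hE h1.1 h2.2.1 (by linarith [h2.1])
    · rw [op_nX_not (op_as_not_aw h1.1)]
      refine (hE.sm.inv.X_asl u x h1.1).trans (mul_le_mul_of_nonneg_left
        (GData.op_gr_mono hE.sm.dat (Nat.le_succ _)) (by linarith [hE.sm.W1_one]))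
  GB_nonneg u x := by
    show 0 ≤ E.s.GB u x + E.gbI u x
    exact add_nonneg (hE.sm.inv.GB_nonneg u x) (op_gbI_nonneg hE u x)
  ch_nonneg u x := (hE.sm.inv.ch_nonneg u x).trans (op_ch_ge u x)
  ch_dead u x h := by
    have h' : E.nX u x = 0 := h
    by_cases h1 : E.s.X u x = 0
    · exact (hE.sm.inv.ch_dead u x h1).trans (op_ch_ge u x)
    · have hX := op_X_pos hE h1
      have hc := op_one_cc hE u x
      rcases op_nX_cases hE u x with h2 | h2 | h2 | h2
      · rw [h2.1] at h'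
        exact absurd h' h1
      · rw [h2.2.2] at h'
        have : 0 < E.s.X u x * (1 + E.cc u x) := mul_pos hX (by linarith)
        linarith
      · rw [op_ch, if_pos h2.1, h2.2.1]
        have h3 := abs_nonneg (E.cc u x)
        have h4 := hE.sm.inv.ch_nonneg u x
        push_cast
        linarith
      · rw [h2.2.2.2.2] at h'
        have : 0 < E.s.X u x * (1 + E.cc u x + E.gg u x) :=
          mul_pos hX (by linarith [h2.2.2.1])
        linarith
  ch_log u x h := by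
    have h' : E.nX u x ≠ 0 := h
    have hK := GData.os_Kc_one hE.sm.dat
    have hc := op_one_cc hE u x
    have hca := abs_nonneg (E.cc u x)
    show |Real.log (E.nX u x)| ≤ E.Kc * E.next.ch u x
    rcases op_nX_cases hE u x with h2 | h2 | h2 | h2
    · rw [h2.1] at h' ⊢
      exact (hE.sm.inv.ch_log u x h').trans
        (mul_le_mul_of_nonneg_left (op_ch_ge u x) (by linarith))
    · have hX := op_X_pos hE h2.1.2.2
      rw [h2.2.2, Real.log_mul hX.ne' (by linarith), op_ch, if_pos h2.1, h2.2.1]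
      have h3 := hE.sm.inv.ch_log u x h2.1.2.2
      have h4 := op_log_one hE u x
      have h5 := abs_add_le (Real.log (E.s.X u x)) (Real.log (1 + E.cc u x))
      have h6 : 2 * |E.cc u x| ≤ E.Kc * |E.cc u x| :=
        mul_le_mul_of_nonneg_right (by
          have := GData.os_Kc_ge hE.sm.dat
          norm_num at this
          linarith) hca
      push_cast
      nlinarith
    · exact absurd h2.2.2.2 h'
    · have hX := op_X_pos hE h2.1.2.2
      have hg := h2.2.2.1
      have hg2 := h2.2.2.2.1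
      rw [h2.2.2.2.2, Real.log_mul hX.ne' (by linarith), op_ch, if_pos h2.1, h2.2.1]
      have h3 := hE.sm.inv.ch_log u x h2.1.2.2
      have h5 := abs_add_le (Real.log (E.s.X u x)) (Real.log (1 + E.cc u x + E.gg u x))
      have h6 : |Real.log (1 + E.cc u x + E.gg u x)| ≤ E.Kc := by
        have h7 : 1 ≤ 1 + E.cc u x + E.gg u x := by linarith
        rw [abs_of_nonneg (Real.log_nonneg h7)]
        have h8 := Real.log_le_sub_one_of_pos (show 0 < 1 + E.cc u x + E.gg u x by linarith)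
        have h9 := op_Bx_Kc hE
        have h10 := (abs_le.1 (op_cc_half hE u x)).2
        linarith
      have h7 : 0 ≤ E.Kc * |E.cc u x| := mul_nonneg (by linarith) hca
      push_cast
      nlinarith
  fr_ne u x h := op_fr_next hE h
  inj u x h z hz z' hz' hne := op_inj hE h hz hz' hne
  C_lt v i c r h := op_C_lt hE h

end GRn

end

end Pool.Agent.AcyG
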