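import Pool.Agent.AcyG.OSite
import Pool.Agent.AcyG.Iter
import Pool.Agent.AcyG.FStep

/-! # What the semi-random colouring and the firing process give at the end of a stage
(project MP_af9dfb_G, row OR0) -/

set_option autoImplicit false
set_option linter.unusedSectionVars false

namespace Pool.Agent.AcyG

open Finset
open Pool.Agent.Acy (IsPM wt Ex Pr mean)
open Pool.Agent.AcyK (Big StepOK LocOK prodLaw Un Sel updCol HasC cN)
open scoped Classical

universe u v

section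

variable {V AL : Type u} [Fintype V] [DecidableEq V] [Fintype AL]

/-- What the semi-random colouring and the firing process give at the end of the stage. -/
structure GRn.Raw {Lb : Type u} [Fintype Lb] (E : GRn V Lb AL) (Y : Tst V AL ⊕ V → ℝ) :
    Prop where
  sm : E.toGSm.toGSt.Ok
  good : E.toGSm.Good
  nok : E.nib.Ok
  fok : E.fire.Ok
  fin : E.fire.FInv E.M E.col E.ok Y E.lab E.ra
  lt : ∀ u c r, E.col u = some (c, r) → r < E.M
  sep : ∀ u y c r r', E.col u = some (c, r) → E.col y = some (c, r') → r < r' → E.ok y →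
    E.nib.K u y ≠ -1 ∧ ¬ E.nib.sp u y
  card : ∀ i, (∑ z ∈ Un E.col, E.nib.g i z) ≤
    ((E.q : ℝ) - E.M) / E.q * (∑ z, E.nib.g i z) + E.M * E.nib.dv i
  Yle : ∀ i, |Y i| ≤ E.T * ∑ z ∈ Un E.col, E.nib.g i z

theorem raw_run {Lb : Type u} [Fintype Lb] [Nonempty Lb] {E : GSm V Lb AL} (hE : E.toGSt.Ok)
    (hG : E.Good) (hn : E.nib.Ok) (hf : E.fire.Ok) {σ : Type v}
    (X : ℕ → (V → Option (Fin E.k × ℕ)) → (V → Prop) → (Tst V AL ⊕ V → ℝ) → σ → Prop)
    (hX : NibData.AuxLoc 42010 E.nib X) (s₀ : σ)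
    (h0 : X 0 (fun _ => none) (fun _ => False) (E.nib.Yb (NState.init V E.k)) s₀) :
    ∃ (col : V → Option (Fin E.k × ℕ)) (ok : V → Prop) (Y : Tst V AL ⊕ V → ℝ) (s : σ)
      (lab : V → V → Lb) (ra : V → V → ℝ),
      X E.M col ok Y s ∧
      GRn.Raw { E with col := col, ok := ok, lab := lab, ra := ra } Y := by
  obtain ⟨l0⟩ := ‹Nonempty Lb›
  have h1 := NibData.AuxLoc.and hn.big (show 42010 < 60000 by norm_num) hX
    (Fire.fire_aux hf)
  obtain ⟨col, ok, Y, ⟨s, lab, ra⟩, ⟨h2, h3⟩, h4, h5, h6, h7⟩ := NibData.nibble hn _ h1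
    (s₀, (fun _ _ => l0, fun _ _ => 0)) ⟨h0, Fire.inv_zero hf _⟩
  exact ⟨col, ok, Y, s, lab, ra, h2, ⟨hE, hG, hn, hf, h3, h4, h5, h6, h7⟩⟩

end

end Pool.Agent.AcyG
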