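import Pool.Agent.AcyG.OPrdG
import Pool.Agent.AcyG.ORaw
import Pool.Agent.AcyG.ONib

/-! # Realised rates against predictions (project MP_af9dfb_G, row OR2) -/

set_option autoImplicit false
set_option linter.unusedSectionVars false

namespace Pool.Agent.AcyG

open Finset
open Pool.Agent.Acy (IsPM wt Ex Pr mean)
open Pool.Agent.AcyK (Big StepOK LocOK prodLaw Un Sel updCol HasC cN)
open scoped Classical

universe u v

/-! ### Numbers -/

theorem ob_div {T t : ℝ} (hT : (1000000 : ℝ) ≤ T) (ht : 0 ≤ t) {a b : ℕ} (hab : a < b) :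
    t / T ^ b ≤ t / T ^ a / 1000000 := by
  have h0 : 0 < T := by linarith
  have h1 : T ^ a * 1000000 ≤ T ^ b := by
    calc T ^ a * 1000000 ≤ T ^ a * T := mul_le_mul_of_nonneg_left hT (by positivity)
      _ = T ^ (a + 1) := by rw [pow_succ]
      _ ≤ T ^ b := pow_le_pow_right₀ (by linarith) hab
  rw [div_div]
  exact div_le_div_of_nonneg_left ht (by positivity) h1

theorem ob_mul {T x : ℝ} (hT : (1000000 : ℝ) ≤ T) (hx : 0 ≤ x) {a b : ℕ} (hab : a < b) :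
    1000000 * (T ^ a * x) ≤ T ^ b * x := by
  have h0 : 0 < T := by linarith
  have h1 : 1000000 * T ^ a ≤ T ^ b := by
    calc 1000000 * T ^ a ≤ T * T ^ a := mul_le_mul_of_nonneg_right hT (by positivity)
      _ = T ^ (a + 1) := by rw [pow_succ']
      _ ≤ T ^ b := pow_le_pow_right₀ (by linarith) hab
  calc 1000000 * (T ^ a * x) = 1000000 * T ^ a * x := by ring
    _ ≤ T ^ b * x := mul_le_mul_of_nonneg_right h1 hx

theorem ob_sqrt {d t : ℝ} (hd : 0 ≤ d) (ht : 0 ≤ t) :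
    Real.sqrt (d * (t + d)) ≤ Real.sqrt (d * t) + d := by
  have h1 : 0 ≤ Real.sqrt (d * t) := Real.sqrt_nonneg _
  have h2 : Real.sqrt (d * t) ^ 2 = d * t := Real.sq_sqrt (mul_nonneg hd ht)
  rw [Real.sqrt_le_left (by linarith)]
  nlinarith [mul_nonneg h1 hd]

theorem ob_num {T d t M sg : ℝ} (hT : (1000000 : ℝ) ≤ T) (hd : 0 ≤ d) (ht : 0 ≤ t)
    (hM : M ≤ T ^ 150) (hsg : sg ≤ T) :
    T * (t / T ^ 16 + M * (T ^ 2 * Real.sqrt (d * (t + d)))) + (sg * t / T ^ 10 +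
      M * (t / T ^ 190 + T ^ 170 * d + T ^ 30 * Real.sqrt (d * t))) ≤
    2 * t / T ^ 9 + T ^ 321 * d + T ^ 181 * Real.sqrt (d * t) := by
  have h0 : 0 < T := by linarith
  have hp : ∀ n : ℕ, 0 < T ^ n := fun n => pow_pos h0 n
  set S := Real.sqrt (d * t) with hS
  have hS0 : 0 ≤ S := Real.sqrt_nonneg _
  have h1 := ob_sqrt hd ht
  rw [← hS] at h1
  have a1 : T * (t / T ^ 16) = t / T ^ 15 := by
    rw [show T ^ 16 = T ^ 15 * T by rw [← pow_succ]]
    field_simp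
  have a2 := ob_div hT ht (show 9 < 15 by norm_num)
  have a3 : T * (M * (T ^ 2 * Real.sqrt (d * (t + d)))) ≤ T ^ 153 * S + T ^ 153 * d := by
    calc T * (M * (T ^ 2 * Real.sqrt (d * (t + d))))
        ≤ T * (T ^ 150 * (T ^ 2 * (S + d))) := by
          refine mul_le_mul_of_nonneg_left ?_ h0.le
          refine mul_le_mul hM ?_ (by positivity) (by positivity)
          exact mul_le_mul_of_nonneg_left h1 (by positivity)
      _ = T ^ 153 * S + T ^ 153 * d := by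
          rw [show T ^ 153 = T * T ^ 150 * T ^ 2 by rw [← pow_succ', ← pow_add]]
          ring
  have a4 : sg * t / T ^ 10 ≤ t / T ^ 9 := by
    rw [show T ^ 10 = T ^ 9 * T by rw [← pow_succ]]
    rw [div_le_div_iff₀ (by positivity) (by positivity)]
    have : sg * t ≤ T * t := mul_le_mul_of_nonneg_right hsg ht
    have h9 : 0 < T ^ 9 := by positivity
    nlinarith
  have a5 : M * (t / T ^ 190) ≤ t / T ^ 40 := by
    calc M * (t / T ^ 190) ≤ T ^ 150 * (t / T ^ 190) :=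
          mul_le_mul_of_nonneg_right hM (div_nonneg ht (hp 190).le)
      _ = t / T ^ 40 := by
          rw [show T ^ 190 = T ^ 150 * T ^ 40 by rw [← pow_add]]
          field_simp
  have a6 := ob_div hT ht (show 9 < 40 by norm_num)
  have a7 : M * (T ^ 170 * d) ≤ T ^ 320 * d := by
    calc M * (T ^ 170 * d) ≤ T ^ 150 * (T ^ 170 * d) :=
          mul_le_mul_of_nonneg_right hM (mul_nonneg (hp 170).le hd)
      _ = T ^ 320 * d := by rw [← mul_assoc, ← pow_add]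
  have a8 : M * (T ^ 30 * S) ≤ T ^ 180 * S := by
    calc M * (T ^ 30 * S) ≤ T ^ 150 * (T ^ 30 * S) :=
          mul_le_mul_of_nonneg_right hM (mul_nonneg (hp 30).le hS0)
      _ = T ^ 180 * S := by rw [← mul_assoc, ← pow_add]
  have b1 := ob_mul hT hd (show 153 < 321 by norm_num)
  have b2 := ob_mul hT hd (show 320 < 321 by norm_num)
  have b3 := ob_mul hT hS0 (show 153 < 181 by norm_num)
  have b4 := ob_mul hT hS0 (show 180 < 181 by norm_num)
  have c1 : 0 ≤ t / T ^ 9 := div_nonneg ht (hp 9).le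
  have c2 : 0 ≤ T ^ 321 * d := mul_nonneg (hp 321).le hd
  have c3 : 0 ≤ T ^ 181 * S := mul_nonneg (hp 181).le hS0
  have e1 : 2 * t / T ^ 9 = t / T ^ 9 + t / T ^ 9 := by ring
  rw [e1, mul_add T, a1, mul_add M, mul_add M]
  linarith

theorem ob_amgm {T d t : ℝ} (hT : (1000000 : ℝ) ≤ T) (hd : 0 ≤ d) (ht : 0 ≤ t) (n : ℕ) :
    Real.sqrt (d * t) ≤ t / T ^ n + T ^ n * d := by
  have h0 : 0 < T := by linarith
  have h1 : 0 < T ^ n := by positivity
  rw [Real.sqrt_le_left (by positivity)]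
  have h2 : t / T ^ n * (T ^ n * d) = d * t := by
    field_simp
  have h3 : 0 ≤ t / T ^ n := by positivity
  have h4 : 0 ≤ T ^ n * d := by positivity
  nlinarith [mul_nonneg h3 h4]

/-- The final form of the error. -/
theorem ob_num2 {T d t Z Z' : ℝ} (hT : (1000000 : ℝ) ≤ T) (hd : 0 ≤ d) (ht : 0 ≤ t)
    (hZ : 0 ≤ Z) (hZd : Z ≤ d) (hZ' : Z' ≤ t) :
    2 * t / T ^ 9 + T ^ 321 * d + T ^ 181 * Real.sqrt (d * t) +
      T ^ 4 * (Z + Real.sqrt (Z * Z')) ≤ 3 * (t / T ^ 9) + T ^ 375 * d := by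
  have h0 : 0 < T := by linarith
  have h1 : Real.sqrt (Z * Z') ≤ Real.sqrt (d * t) := by
    apply Real.sqrt_le_sqrt
    rcases le_or_gt 0 Z' with h | h
    · exact mul_le_mul hZd hZ' h hd
    · exact (mul_nonpos_of_nonneg_of_nonpos hZ h.le).trans (mul_nonneg hd ht)
  have hp : ∀ n : ℕ, 0 < T ^ n := fun n => pow_pos h0 n
  have h2 := ob_amgm hT hd ht 192
  set S := Real.sqrt (d * t) with hS
  have hS0 : 0 ≤ S := Real.sqrt_nonneg _
  have h3 : T ^ 4 * (Z + Real.sqrt (Z * Z')) ≤ T ^ 4 * d + T ^ 4 * S := by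
    rw [← mul_add]
    exact mul_le_mul_of_nonneg_left (by linarith) (by positivity)
  have b1 := ob_mul hT hd (show 321 < 375 by norm_num)
  have b2 := ob_mul hT hd (show 4 < 375 by norm_num)
  have b3 := ob_mul hT hS0 (show 181 < 182 by norm_num)
  have b4 := ob_mul hT hS0 (show 4 < 182 by norm_num)
  have b5 : T ^ 182 * S ≤ t / T ^ 10 + T ^ 374 * d := by
    have e2 : T ^ 182 * (t / T ^ 192) = t / T ^ 10 := by
      rw [show T ^ 192 = T ^ 182 * T ^ 10 by rw [← pow_add]]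
      field_simp
    have e3 : T ^ 182 * (T ^ 192 * d) = T ^ 374 * d := by
      rw [← mul_assoc, ← pow_add]
    calc T ^ 182 * S ≤ T ^ 182 * (t / T ^ 192 + T ^ 192 * d) :=
          mul_le_mul_of_nonneg_left h2 (hp 182).le
      _ = t / T ^ 10 + T ^ 374 * d := by rw [mul_add, e2, e3]
  have b6 := ob_div hT ht (show 9 < 10 by norm_num)
  have b7 := ob_mul hT hd (show 374 < 375 by norm_num)
  have c1 : 0 ≤ t / T ^ 9 := div_nonneg ht (hp 9).le
  have c2 : 0 ≤ T ^ 375 * d := mul_nonneg (hp 375).le hd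
  have c3 : 0 ≤ T ^ 182 * S := mul_nonneg (hp 182).le hS0
  have e1 : 2 * t / T ^ 9 = t / T ^ 9 + t / T ^ 9 := by ring
  rw [e1]
  linarith

/-- Numbers for the tests of a vertex and the Gram tests. -/
theorem ob_x {T R : ℝ} (t : ℝ) (hT : (1000000 : ℝ) ≤ T) (hR : T ^ 799 ≤ R) :
    3 * ((2 * t + T ^ 8 * (T ^ 7220 / R + T ^ 2403)) / T ^ 9) +
      T ^ 375 * (2 * T ^ 7220 / R + T ^ 5 * T ^ 2403) ≤ 6 * (t / T ^ 9) + T ^ 6799 := by
  have h0 : 0 < T := by linarith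
  have hR0 : 0 < R := lt_of_lt_of_le (pow_pos h0 _) hR
  have a1 : T ^ 7220 / R ≤ T ^ 6421 := by
    rw [div_le_iff₀ hR0, show T ^ 7220 = T ^ 6421 * T ^ 799 by rw [← pow_add]]
    exact mul_le_mul_of_nonneg_left hR (pow_pos h0 _).le
  have a2 : T ^ 2403 ≤ T ^ 6421 := pow_le_pow_right₀ (by linarith) (by norm_num)
  have a3 : T ^ 5 * T ^ 2403 ≤ T ^ 6421 := by
    rw [← pow_add]
    exact pow_le_pow_right₀ (by linarith) (by norm_num)
  have e0 : 2 * T ^ 7220 / R = 2 * (T ^ 7220 / R) := by ring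
  have a4 : T ^ 375 * (2 * T ^ 7220 / R + T ^ 5 * T ^ 2403) ≤ 3 * T ^ 6798 := by
    calc T ^ 375 * (2 * T ^ 7220 / R + T ^ 5 * T ^ 2403) ≤ T ^ 375 * (3 * T ^ 6421) := by
          refine mul_le_mul_of_nonneg_left ?_ (pow_pos h0 _).le
          rw [e0]
          linarith
      _ = 3 * T ^ 6796 := by
          rw [show T ^ 6796 = T ^ 375 * T ^ 6421 by rw [← pow_add]]
          ring
      _ ≤ 3 * T ^ 6798 := mul_le_mul_of_nonneg_left
          (pow_le_pow_right₀ (by linarith) (by norm_num)) (by norm_num)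
  have a5 : (2 * t + T ^ 8 * (T ^ 7220 / R + T ^ 2403)) / T ^ 9 ≤
      2 * (t / T ^ 9) + 2 * T ^ 6420 := by
    have b1 : T ^ 8 * (T ^ 7220 / R + T ^ 2403) ≤ T ^ 8 * (2 * T ^ 6421) :=
      mul_le_mul_of_nonneg_left (by linarith) (pow_pos h0 _).le
    have b2 : T ^ 8 * (2 * T ^ 6421) = 2 * T ^ 6420 * T ^ 9 := by
      rw [show T ^ 6421 = T ^ 6420 * T by rw [← pow_succ]]
      generalize T ^ 6420 = z
      ring
    rw [div_le_iff₀ (pow_pos h0 _), add_mul, ← b2]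
    have b3 : 2 * (t / T ^ 9) * T ^ 9 = 2 * t := by
      rw [mul_assoc, div_mul_cancel₀ _ (pow_pos h0 _).ne']
    rw [b3]
    linarith
  have a6 : T ^ 6420 ≤ T ^ 6798 := pow_le_pow_right₀ (by linarith) (by norm_num)
  have a7 : 1000000 * T ^ 6798 ≤ T ^ 6799 := by
    rw [show T ^ 6799 = T * T ^ 6798 by rw [← pow_succ']]
    exact mul_le_mul_of_nonneg_right hT (pow_pos h0 _).le
  have a8 : 0 < T ^ 6798 := pow_pos h0 _
  linarith

/-- Numbers for the tests of a pair and the first linear tests. -/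
theorem ob_y {T k t s d x : ℝ} (hT : (1000000 : ℝ) ≤ T) (hk : T ^ 3999 ≤ k) (hx : 0 ≤ x)
    (ht : t = T * k * x) (hs0 : 0 ≤ s) (hs : T ^ 5 * s ≤ T ^ 2404 * x) (hd : d ≤ T ^ 2404 * x) :
    3 * ((2 * t + T ^ 8 * (d + s)) / T ^ 9) + T ^ 375 * (2 * d + T ^ 5 * s) ≤
      k * x / T ^ 6 := by
  have h0 : 0 < T := by linarith
  have hp : ∀ n : ℕ, 0 < T ^ n := fun n => pow_pos h0 n
  have a0 : s ≤ T ^ 5 * s := le_mul_of_one_le_left hs0 (one_le_pow₀ (by linarith))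
  have a3 : T ^ 375 * (2 * d + T ^ 5 * s) ≤ 3 * (T ^ 2779 * x) := by
    calc T ^ 375 * (2 * d + T ^ 5 * s) ≤ T ^ 375 * (3 * (T ^ 2404 * x)) :=
          mul_le_mul_of_nonneg_left (by linarith) (hp _).le
      _ = 3 * (T ^ 2779 * x) := by
          rw [show T ^ 2779 = T ^ 375 * T ^ 2404 by rw [← pow_add]]
          ring
  have a4 : (2 * t + T ^ 8 * (d + s)) / T ^ 9 ≤ 2 * (k * x / T ^ 8) +
      2 * (T ^ 2403 * x) := by
    have b1 : T ^ 8 * (d + s) ≤ T ^ 8 * (2 * (T ^ 2404 * x)) :=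
      mul_le_mul_of_nonneg_left (by linarith) (hp 8).le
    have b2 : T ^ 8 * (2 * (T ^ 2404 * x)) = 2 * (T ^ 2403 * x) * T ^ 9 := by
      rw [show T ^ 2404 = T ^ 2403 * T by rw [← pow_succ]]
      generalize T ^ 2403 = z
      ring
    have b3 : 2 * (k * x / T ^ 8) * T ^ 9 = 2 * t := by
      rw [ht]
      field_simp
    rw [div_le_iff₀ (hp 9), add_mul, ← b2, b3]
    linarith
  have a5 : 1000000 * (k * x / T ^ 8) ≤ k * x / T ^ 7 := by
    have hkx : 0 ≤ k * x := mul_nonneg ((hp 3999).le.trans hk) hx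
    have := ob_div hT hkx (show 7 < 8 by norm_num)
    linarith
  have a6 : 1000000 * (k * x / T ^ 7) ≤ k * x / T ^ 6 := by
    have hkx : 0 ≤ k * x := mul_nonneg ((hp 3999).le.trans hk) hx
    have := ob_div hT hkx (show 6 < 7 by norm_num)
    linarith
  have a7 : T ^ 2779 * x ≤ k * x / T ^ 7 := by
    rw [le_div_iff₀ (hp 7)]
    have b1 : T ^ 2779 * x * T ^ 7 = T ^ 2786 * x := by
      rw [show T ^ 2786 = T ^ 2779 * T ^ 7 by rw [← pow_add]]
      ring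
    rw [b1]
    exact mul_le_mul_of_nonneg_right
      ((pow_le_pow_right₀ (by linarith) (by norm_num)).trans hk) hx
  have a8 : T ^ 2403 * x ≤ T ^ 2779 * x :=
    mul_le_mul_of_nonneg_right (pow_le_pow_right₀ (by linarith) (by norm_num)) hx
  have a9 : 0 ≤ k * x / T ^ 7 := div_nonneg (mul_nonneg ((hp 3999).le.trans hk) hx) (hp 7).le
  linarith

/-- Numbers for the last linear tests. -/
theorem ob_z {T a s x : ℝ} (hT : (1000000 : ℝ) ≤ T) (hx : 0 ≤ x)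
    (ha : a ≤ x / T ^ 470) (hs : s ≤ x / T ^ 480) :
    3 * ((8 * (T * x) + T ^ 8 * (a + s)) / T ^ 9) + T ^ 375 * (2 * a + T ^ 5 * s) ≤
      x / T ^ 5 := by
  have h0 : 0 < T := by linarith
  have hp : ∀ n : ℕ, 0 < T ^ n := fun n => pow_pos h0 n
  have a1 : T ^ 5 * s ≤ x / T ^ 470 := by
    calc T ^ 5 * s ≤ T ^ 5 * (x / T ^ 480) := mul_le_mul_of_nonneg_left hs (hp 5).le
      _ = x / T ^ 475 := by
          rw [show T ^ 480 = T ^ 5 * T ^ 475 by rw [← pow_add]]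
          generalize T ^ 475 = z
          field_simp
      _ ≤ x / T ^ 470 := div_le_div_of_nonneg_left hx (hp 470)
          (pow_le_pow_right₀ (by linarith) (by norm_num))
  have a2 : s ≤ x / T ^ 470 := hs.trans (div_le_div_of_nonneg_left hx (hp 470)
          (pow_le_pow_right₀ (by linarith) (by norm_num)))
  have a3 : T ^ 375 * (2 * a + T ^ 5 * s) ≤ 3 * (x / T ^ 95) := by
    calc T ^ 375 * (2 * a + T ^ 5 * s) ≤ T ^ 375 * (3 * (x / T ^ 470)) :=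
          mul_le_mul_of_nonneg_left (by linarith) (hp 375).le
      _ = 3 * (x / T ^ 95) := by
          rw [show T ^ 470 = T ^ 375 * T ^ 95 by rw [← pow_add]]
          have := (hp 375).ne'
          generalize T ^ 375 = z at *
          generalize T ^ 95 = w
          field_simp
  have a4 : 1000000 * (x / T ^ 95) ≤ x / T ^ 6 := by
    have := ob_div hT hx (show 6 < 95 by norm_num)
    linarith
  have a5 : 1000000 * (x / T ^ 6) ≤ x / T ^ 5 := by
    have := ob_div hT hx (show 5 < 6 by norm_num)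
    linarith
  have a6 : 1000000 * (x / T ^ 8) ≤ x / T ^ 6 := by
    have := ob_div hT hx (show 6 < 8 by norm_num)
    linarith
  have a7 : (8 * (T * x) + T ^ 8 * (a + s)) / T ^ 9 ≤ 9 * (x / T ^ 8) := by
    have b1 : T ^ 8 * (a + s) ≤ T ^ 8 * (2 * (x / T ^ 470)) :=
      mul_le_mul_of_nonneg_left (by linarith) (hp 8).le
    have b2 : T ^ 8 * (2 * (x / T ^ 470)) = 2 * (x / T ^ 462) := by
      rw [show T ^ 470 = T ^ 8 * T ^ 462 by rw [← pow_add]]
      generalize T ^ 462 = z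
      field_simp
    have b3 : x / T ^ 462 ≤ x / T ^ 1 :=
      div_le_div_of_nonneg_left hx (hp 1) (pow_le_pow_right₀ (by linarith) (by norm_num))
    have b4 : x / T ^ 1 * 1000000 ≤ T * x := by
      rw [pow_one, div_mul_eq_mul_div, div_le_iff₀ h0]
      nlinarith [mul_nonneg hx h0.le, mul_nonneg hx (sub_nonneg.2 hT)]
    have b5 : 9 * (x / T ^ 8) * T ^ 9 = 9 * (T * x) := by
      field_simp
    rw [div_le_iff₀ (hp 9), b5]
    have b6 : 0 ≤ T * x := mul_nonneg h0.le hx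
    linarith
  have a8 : 0 ≤ x / T ^ 6 := div_nonneg hx (hp 6).le
  linarith

section

variable {V AL : Type u} [Fintype V] [DecidableEq V] [Fintype AL]

namespace GRn

variable {Lb : Type u} [Fintype Lb] {E : GRn V Lb AL} {Y : Tst V AL ⊕ V → ℝ}

theorem ob_Cr (i : Tst V AL) :
    ∑ z, ∑ z', E.ra z z' * E.nib.w (Sum.inl i) z z' = E.Cr (E.W i) := by
  unfold Cr
  refine sum_congr rfl fun z _ => sum_congr rfl fun z' _ => ?_
  rw [GSm.on_w_inl]
  unfold GSm.rs GSt.mn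
  split_ifs
  · rfl
  · rw [mul_zero]

theorem ob_rs_sum (f : V → V → ℝ) :
    ∑ z, ∑ z', E.rs z z' (f z z') = ∑ z ∈ E.U, ∑ z' ∈ E.U, f z z' := by
  have h1 : ∀ z, ∑ z', E.rs z z' (f z z') = if z ∈ E.U then ∑ z' ∈ E.U, f z z' else 0 := by
    intro z
    unfold GSm.rs
    by_cases h : z ∈ E.U
    · rw [if_pos h]
      rw [← sum_subset (subset_univ E.U)]
      · exact sum_congr rfl fun z' hz' => if_pos ⟨h, hz'⟩
      · exact fun z' _ hz' => if_neg fun h1 => hz' h1.2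
    · rw [if_neg h]
      exact sum_eq_zero fun z' _ => if_neg fun h1 => h h1.1
  simp only [h1]
  rw [sum_ite_mem, univ_inter]

theorem ob_wK (hE : E.toGSm.toGSt.Ok) (i : Tst V AL) (z z' : V) :
    E.nib.w (Sum.inl i) z z' * (1 + E.nib.K z z') =
      E.rs z z' (E.chi E.s z z' * E.mn (E.W i) z z') := by
  by_cases h : E.nib.w (Sum.inl i) z z' = 0
  · rw [h, zero_mul]
    unfold GSm.rs
    split_ifs with h1
    · have h2 : E.nib.w (Sum.inl i) z z' = E.mn (E.W i) z z' := by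
        rw [GSm.on_w_inl]
        unfold GSm.rs GSt.mn
        rw [if_pos h1]
      rw [← h2, h, mul_zero]
    · rfl
  · obtain ⟨hz, hz', l, hl⟩ := GSm.on_w_ne h
    have h3 := GSm.on_w_chi hE h
    have h2 : E.nib.w (Sum.inl i) z z' = E.mn (E.W i) z z' := by
      rw [GSm.on_w_inl]
      unfold GSm.rs GSt.mn
      rw [if_pos ⟨hz, hz'⟩]
    unfold GSm.rs
    rw [if_pos ⟨hz, hz'⟩, h2, mul_comm, GSm.on_nK, if_pos ⟨hz, hz'⟩]
    congr 1
    rcases GData.os_chi_cases h3 with h4 | h4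
    · rw [GData.os_chi_nf h4, GSm.on_K_far h4.1]
      ring
    · have h5 : ¬ E.far z z' := GSm.on_lig_far h4.1
      rw [GSm.on_K_not h5]
      unfold GData.chi
      rw [if_neg fun h6 => h5 h6.1, if_pos h4, add_zero]

theorem ob_SS (hE : E.toGSm.toGSt.Ok) (i : Tst V AL) :
    ∑ z, ∑ z', E.nib.w (Sum.inl i) z z' * (1 + E.nib.K z z') =
      ∑ z ∈ E.U, ∑ z' ∈ E.U, E.chi E.s z z' * E.mn (E.W i) z z' := by
  rw [← ob_rs_sum]
  exact sum_congr rfl fun z _ => sum_congr rfl fun z' _ => ob_wK hE i z z'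

theorem ob_gbI_nonneg (hE : E.toGSm.toGSt.Ok) (y y' : V) : 0 ≤ E.gbI y y' := by
  unfold GSt.gbI GSt.prd GSt.mn
  have hn := GData.os_n1_pos hE.dat
  refine div_nonneg (mul_nonneg (by positivity) (sum_nonneg fun z _ => sum_nonneg fun z' _ =>
    mul_nonneg (GData.os_chi_nonneg hE.inv.toSInv z z') (sum_nonneg fun l _ =>
      mul_nonneg (hE.cols.mu_nonneg z z' l) ?_))) (GData.os_R_pos hE.dat).le
  unfold GSt.Wg
  rw [if_neg (by decide)]
  exact sum_nonneg fun u _ => mul_nonneg (mul_nonneg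
    (GData.os_X_nonneg hE.inv.toSInv u y) (GData.os_X_nonneg hE.inv.toSInv u y')) (abs_nonneg _)

theorem ob_tV_nonneg (hE : E.toGSm.toGSt.Ok) (i : Tst V AL) : 0 ≤ E.tV i := by
  have h0 := (GData.os_T_pos hE.dat).le
  have hn := (GData.os_n1_pos hE.dat).le
  have hR := (GData.os_R_pos hE.dat).le
  rcases i with ⟨i, x⟩ | ⟨i, x, y⟩ | ⟨i, y, y'⟩ | ⟨i, α⟩
  · exact mul_nonneg h0 (pow_nonneg hn 2)
  · exact mul_nonneg h0 hn
  · show 0 ≤ if i.down = 0 then E.T * E.n1 ^ 2 else E.T * (E.n1 * E.R) * E.gbI y y'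
    split_ifs
    · exact mul_nonneg h0 (pow_nonneg hn 2)
    · exact mul_nonneg (mul_nonneg h0 (mul_nonneg hn hR)) (ob_gbI_nonneg hE y y')
  · show 0 ≤ if i.down = 2 then 4 * E.T * E.La α else E.T * E.n1 * E.La α
    have hL := GSt.on_La_nonneg hE α
    split_ifs
    · exact mul_nonneg (mul_nonneg (by norm_num) h0) hL
    · exact mul_nonneg (mul_nonneg h0 hn) hL

variable (h : E.Raw Y)
include h

theorem ob_tot_nonneg (i : Tst V AL) : 0 ≤ E.tot i := by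
  refine le_trans ?_ (h.good.tot i)
  exact sum_nonneg fun z _ => sum_nonneg fun z' _ => GSm.on_abs_nonneg h.sm i z z'

theorem ob_sum_g (i : Tst V AL) : 0 ≤ ∑ z, E.nib.g (Sum.inl i) z ∧
    ∑ z, E.nib.g (Sum.inl i) z ≤ E.tot i :=
  ⟨sum_nonneg fun z _ => h.nok.g_nonneg (Sum.inl i) z, h.nok.g_sum (Sum.inl i)⟩

theorem ob_Y (i : Tst V AL) : |Y (Sum.inl i)| ≤
    E.T * (E.tot i / E.T ^ 16 + E.M * (E.T ^ 2 * Real.sqrt (E.d1 i * (E.tot i + E.d1 i)))) := by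
  have hD := h.sm.dat
  have h0 := GData.os_T_pos hD
  have hT := GData.os_T_ge hD
  refine (h.Yle (Sum.inl i)).trans (mul_le_mul_of_nonneg_left ?_ h0.le)
  refine (h.card (Sum.inl i)).trans (add_le_add ?_ le_rfl)
  have h1 := hD.M_ge
  have h2 := hD.M_le
  have h3 : 0 < E.T ^ 133 := by positivity
  have h4 : (0 : ℝ) ≤ E.M := Nat.cast_nonneg _
  have hq : (0 : ℝ) < E.q := by linarith
  obtain ⟨h5, h6⟩ := ob_sum_g h i
  have h7 : ((E.q : ℝ) - E.M) / E.q ≤ 1 / E.T ^ 16 := by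
    rw [div_le_div_iff₀ hq (by positivity)]
    have := mul_le_mul_of_nonneg_right h1 (by positivity : 0 ≤ E.T ^ 16)
    rw [div_mul_cancel₀ _ (by positivity)] at this
    linarith
  calc ((E.q : ℝ) - E.M) / E.q * (∑ z, E.nib.g (Sum.inl i) z)
      ≤ 1 / E.T ^ 16 * (∑ z, E.nib.g (Sum.inl i) z) := mul_le_mul_of_nonneg_right h7 h5
    _ ≤ 1 / E.T ^ 16 * E.tot i := mul_le_mul_of_nonneg_left h6 (by positivity)
    _ = E.tot i / E.T ^ 16 := by ring

theorem ob_M : (E.M : ℝ) ≤ E.T ^ 150 := by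
  have hD := h.sm.dat
  have h1 := hD.M_le
  have h2 := hD.q_hi
  have h3 : 0 < E.T ^ 133 := pow_pos (GData.os_T_pos hD) _
  linarith

theorem ob_P (i : Tst V AL) : |E.k * E.Cr (E.W i) -
    1 / 2 * (∑ z ∈ E.U, ∑ z' ∈ E.U, E.chi E.s z z' * E.mn (E.W i) z z')| ≤
    2 * E.tot i / E.T ^ 9 + E.T ^ 321 * E.d1 i + E.T ^ 181 * Real.sqrt (E.d1 i * E.tot i) := by
  have hD := h.sm.dat
  have hT := GData.os_T_ge hD
  have h1 := h.fin.quad (Sum.inl i)
  change |Y (Sum.inl i) - (1 / 2 * (∑ z, ∑ z', E.nib.w (Sum.inl i) z z' *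
    (1 + E.nib.K z z')) - E.k * ∑ z, ∑ z', E.ra z z' * E.nib.w (Sum.inl i) z z')| ≤
    E.nib.sg E.M * E.tot i / E.T ^ 10 + E.M * (E.tot i / E.T ^ 190 + E.T ^ 170 * E.d1 i +
      E.T ^ 30 * Real.sqrt (E.d1 i * E.tot i)) at h1
  rw [ob_SS h.sm, ob_Cr] at h1
  have h2 := ob_Y h i
  have h3 : E.nib.sg E.M ≤ E.T := by
    have a1 : E.nib.sg E.M ≤ E.T / 100 := NibData.sg_le h.nok le_rfl
    linarith
  have h4 := ob_num hT (GSt.on_d1_nonneg h.sm i) (ob_tot_nonneg h i) (ob_M h) h3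
  refine le_trans ?_ h4
  refine le_trans ?_ (add_le_add h2 h1)
  set A := 1 / 2 * (∑ z ∈ E.U, ∑ z' ∈ E.U, E.chi E.s z z' * E.mn (E.W i) z z') with hA
  have e1 : E.k * E.Cr (E.W i) - A = -Y (Sum.inl i) +
      (Y (Sum.inl i) - (A - E.k * E.Cr (E.W i))) := by ring
  rw [e1]
  refine (abs_add_le _ _).trans (le_of_eq ?_)
  rw [abs_neg]

theorem raw_pred (i : Tst V AL) : |E.Cr (E.W i) - E.prd (E.W i) / E.R| ≤
    (2 * E.tot i / E.T ^ 9 + E.T ^ 321 * E.d1 i + E.T ^ 181 * Real.sqrt (E.d1 i * E.tot i) +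
      E.T ^ 4 * ((E.dV i / E.R + E.wm i) +
        Real.sqrt ((E.dV i / E.R + E.wm i) * (E.tV i / E.R + E.dV i) / E.R))) / E.k := by
  have hD := h.sm.dat
  have hk := GData.os_k_pos hD
  have hR := GData.os_R_pos hD
  have h0 := GData.os_T_pos hD
  have h1 := ob_P h i
  have h2 := h.good.quad i
  set S1 := ∑ z ∈ E.U, ∑ z' ∈ E.U, E.chi E.s z z' * E.mn (E.W i) z z' with hS1
  have e1 : E.prd (E.W i) / E.R * E.k = 1 / 2 * ((1 / E.R) ^ 2 *
      ∑ z, ∑ z', E.chi E.s z z' * E.mn (E.W i) z z') := by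
    unfold GSt.prd GData.n1
    field_simp
  set S2 := (1 / E.R) ^ 2 * ∑ z, ∑ z', E.chi E.s z z' * E.mn (E.W i) z z' with hS2
  rw [le_div_iff₀ hk]
  have e2 : |E.Cr (E.W i) - E.prd (E.W i) / E.R| * E.k =
      |E.k * E.Cr (E.W i) - 1 / 2 * S2| := by
    rw [← abs_of_pos hk, ← abs_mul, abs_of_pos hk, sub_mul, e1, mul_comm]
  rw [e2]
  have e3 : E.k * E.Cr (E.W i) - 1 / 2 * S2 = (E.k * E.Cr (E.W i) - 1 / 2 * S1) +
      1 / 2 * (S1 - S2) := by ring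
  rw [e3]
  refine (abs_add_le _ _).trans (add_le_add h1 ?_)
  rw [abs_mul, abs_of_pos (by norm_num : (0 : ℝ) < 1 / 2)]
  have h3 : 0 ≤ |S1 - S2| := abs_nonneg _
  linarith

theorem ob_pred (i : Tst V AL) : |E.Cr (E.W i) - E.prd (E.W i) / E.R| ≤
    (3 * (E.tot i / E.T ^ 9) + E.T ^ 375 * E.d1 i) / E.k := by
  have hD := h.sm.dat
  have hk := GData.os_k_pos hD
  have hR := GData.os_R_pos hD
  have h0 := GData.os_T_pos hD
  have hT := GData.os_T_ge hD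
  have hd := GSt.on_dV_nonneg h.sm i
  have hw := (GSt.on_wm_pos h.sm i).le
  refine (raw_pred h i).trans (div_le_div_of_nonneg_right ?_ hk.le)
  have hZ0 : 0 ≤ E.dV i / E.R := div_nonneg hd hR.le
  have hT5 : 1 ≤ E.T ^ 5 := one_le_pow₀ (by linarith)
  have hT8 : 1 ≤ E.T ^ 8 := one_le_pow₀ (by linarith)
  rw [mul_div_assoc (E.dV i / E.R + E.wm i)]
  refine ob_num2 hT (GSt.on_d1_nonneg h.sm i) (ob_tot_nonneg h i) (add_nonneg hZ0 hw) ?_ ?_
  · unfold GSt.d1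
    have e1 : 2 * E.dV i / E.R = 2 * (E.dV i / E.R) := by ring
    rw [e1]
    nlinarith
  · unfold GSt.tot
    have e1 : (E.tV i / E.R + E.dV i) / E.R = E.tV i / E.R ^ 2 + E.dV i / E.R := by
      field_simp
    have h1 : 0 ≤ E.tV i / E.R ^ 2 := by
      exact div_nonneg (ob_tV_nonneg h.sm i) (pow_nonneg hR.le 2)
    have e2 : 2 * E.tV i / E.R ^ 2 = 2 * (E.tV i / E.R ^ 2) := by ring
    rw [e1, e2]
    nlinarith

theorem raw_rxp (i : Fin 8) (x : V) :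
    |E.Cr (E.Wx i x) - E.prd (E.Wx i x) / E.R| ≤ E.k / E.T ^ 4 := by
  have hD := h.sm.dat
  have hk := GData.os_k_pos hD
  have hR := GData.os_R_pos hD
  have h0 := GData.os_T_pos hD
  have hT := GData.os_T_ge hD
  have h1 := ob_pred h (Sum.inl (⟨i⟩, x))
  change |E.Cr (E.Wx i x) - E.prd (E.Wx i x) / E.R| ≤ (3 * ((2 * (E.T * E.n1 ^ 2) / E.R ^ 2 +
    E.T ^ 8 * (E.T ^ 7220 / E.R + E.T ^ 2403)) / E.T ^ 9) +
    E.T ^ 375 * (2 * E.T ^ 7220 / E.R + E.T ^ 5 * E.T ^ 2403)) / E.k at h1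
  refine h1.trans ?_
  have e1 : 2 * (E.T * E.n1 ^ 2) / E.R ^ 2 = 2 * (E.T * E.k ^ 2) := by
    unfold GData.n1
    field_simp
  rw [e1, div_le_iff₀ hk]
  have h2 := ob_x (E.T * (E.k : ℝ) ^ 2) hT hD.R_lo
  refine h2.trans ?_
  have hk2 : E.T ^ 7998 ≤ (E.k : ℝ) ^ 2 := by
    rw [show E.T ^ 7998 = (E.T ^ 3999) ^ 2 by rw [← pow_mul]]
    exact pow_le_pow_left₀ (pow_pos h0 _).le hD.k_lo 2
  have hkk : 0 < (E.k : ℝ) ^ 2 := pow_pos hk 2
  have e2 : E.T * (E.k : ℝ) ^ 2 / E.T ^ 9 = (E.k : ℝ) ^ 2 / E.T ^ 8 := by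
    field_simp
  have e3 : (E.k : ℝ) / E.T ^ 4 * E.k = (E.k : ℝ) ^ 2 / E.T ^ 4 := by ring
  rw [e2, e3]
  have a1 := ob_div hT hkk.le (show 4 < 8 by norm_num)
  have a2 : E.T ^ 6799 ≤ (E.k : ℝ) ^ 2 / E.T ^ 5 := by
    rw [le_div_iff₀ (pow_pos h0 _), ← pow_add]
    exact (hD.big.pw (by norm_num)).trans hk2
  have a3 := ob_div hT hkk.le (show 4 < 5 by norm_num)
  have a4 : 0 ≤ (E.k : ℝ) ^ 2 / E.T ^ 4 := div_nonneg hkk.le (pow_pos h0 _).le
  linarith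

theorem raw_rgp (y y' : V) :
    |E.Cr (E.Wg 1 y y') - E.gbI y y'| ≤ E.T ^ 3410 + E.gbI y y' / E.T ^ 6 := by
  have hD := h.sm.dat
  have hk := GData.os_k_pos hD
  have hR := GData.os_R_pos hD
  have h0 := GData.os_T_pos hD
  have hT := GData.os_T_ge hD
  have hg := ob_gbI_nonneg h.sm y y'
  have h1 := ob_pred h (Sum.inr (Sum.inr (Sum.inl (⟨1⟩, y, y'))))
  have e0 : E.tV (Sum.inr (Sum.inr (Sum.inl (⟨1⟩, y, y')))) =
      E.T * (E.n1 * E.R) * E.gbI y y' := by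
    show (if (1 : Fin 2) = 0 then E.T * E.n1 ^ 2 else E.T * (E.n1 * E.R) * E.gbI y y') = _
    rw [if_neg (by decide)]
  have e1 : E.tot (Sum.inr (Sum.inr (Sum.inl (⟨1⟩, y, y')))) =
      2 * (E.T * E.k * E.gbI y y') + E.T ^ 8 * (E.T ^ 7220 / E.R + E.T ^ 2403) := by
    unfold GSt.tot
    rw [e0]
    have e2 : 2 * (E.T * (E.n1 * E.R) * E.gbI y y') / E.R ^ 2 =
        2 * (E.T * E.k * E.gbI y y') := by
      unfold GData.n1
      field_simp
    rw [e2]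
    rfl
  rw [e1] at h1
  change |E.Cr (E.Wg 1 y y') - E.gbI y y'| ≤ (3 * ((2 * (E.T * E.k * E.gbI y y') +
    E.T ^ 8 * (E.T ^ 7220 / E.R + E.T ^ 2403)) / E.T ^ 9) +
    E.T ^ 375 * (2 * E.T ^ 7220 / E.R + E.T ^ 5 * E.T ^ 2403)) / E.k at h1
  refine h1.trans ?_
  rw [div_le_iff₀ hk]
  have h2 := ob_x (E.T * E.k * E.gbI y y') hT hD.R_lo
  refine h2.trans ?_
  have e2 : E.T * (E.k : ℝ) * E.gbI y y' / E.T ^ 9 = (E.k : ℝ) * E.gbI y y' / E.T ^ 8 := by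
    field_simp
  have hkg : 0 ≤ (E.k : ℝ) * E.gbI y y' := mul_nonneg hk.le hg
  have e3 : (E.T ^ 3410 + E.gbI y y' / E.T ^ 6) * E.k =
      E.T ^ 3410 * E.k + (E.k : ℝ) * E.gbI y y' / E.T ^ 6 := by ring
  rw [e2, e3]
  have a1 := ob_div hT hkg (show 6 < 8 by norm_num)
  have a2 : E.T ^ 6799 ≤ E.T ^ 3410 * E.k := by
    calc E.T ^ 6799 ≤ E.T ^ 3410 * E.T ^ 3999 := by
          rw [← pow_add]
          exact hD.big.pw (by norm_num)
      _ ≤ E.T ^ 3410 * E.k := mul_le_mul_of_nonneg_left hD.k_lo (pow_pos h0 _).le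
  have a4 : 0 ≤ (E.k : ℝ) * E.gbI y y' / E.T ^ 6 := div_nonneg hkg (pow_pos h0 _).le
  linarith

omit h in
theorem ob_R (hE : E.toGSm.toGSt.Ok) {n m : ℕ} (hn : n + 801 ≤ m) :
    E.T ^ n ≤ E.T ^ m * (1 / E.R) := by
  have hD := hE.dat
  have hR := GData.os_R_pos hD
  have h0 := GData.os_T_pos hD
  rw [mul_one_div, le_div_iff₀ hR]
  calc E.T ^ n * E.R ≤ E.T ^ n * E.T ^ 801 := mul_le_mul_of_nonneg_left hD.R_hi (pow_pos h0 _).le
    _ = E.T ^ (n + 801) := by rw [← pow_add]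
    _ ≤ E.T ^ m := hD.big.pw hn

theorem raw_rpp (i : Fin 2) (x y : V) :
    |E.Cr (E.Wp i x y) - E.prd (E.Wp i x y) / E.R| ≤ 1 / (E.T ^ 5 * E.R) := by
  have hD := h.sm.dat
  have hk := GData.os_k_pos hD
  have hR := GData.os_R_pos hD
  have h0 := GData.os_T_pos hD
  have hT := GData.os_T_ge hD
  have h1 := ob_pred h (Sum.inr (Sum.inl (⟨i⟩, x, y)))
  change |E.Cr (E.Wp i x y) - E.prd (E.Wp i x y) / E.R| ≤ (3 * ((2 * (E.T * E.n1) / E.R ^ 2 +
    E.T ^ 8 * (E.T ^ 2403 / E.R + E.T)) / E.T ^ 9) +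
    E.T ^ 375 * (2 * E.T ^ 2403 / E.R + E.T ^ 5 * E.T)) / E.k at h1
  refine h1.trans ?_
  have e1 : 2 * (E.T * E.n1) / E.R ^ 2 = 2 * (E.T * E.k * (1 / E.R)) := by
    unfold GData.n1
    field_simp
  have e2 : 2 * E.T ^ 2403 / E.R = 2 * (E.T ^ 2403 / E.R) := by ring
  have hx : 0 ≤ 1 / E.R := one_div_nonneg.2 hR.le
  have h2 : E.T ^ 2403 / E.R ≤ E.T ^ 2404 * (1 / E.R) := by
    rw [← mul_one_div]
    exact mul_le_mul_of_nonneg_right (hD.big.pw (by norm_num)) hx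
  have h3 : E.T ^ 5 * E.T ≤ E.T ^ 2404 * (1 / E.R) := by
    rw [← pow_succ]
    exact ob_R h.sm (by norm_num)
  have h4 := ob_y hT hD.k_lo hx rfl h0.le h3 h2
  rw [e1, e2, div_le_iff₀ hk]
  refine h4.trans ?_
  have e3 : 1 / (E.T ^ 5 * E.R) * E.k = E.k * (1 / E.R) / E.T ^ 5 := by
    field_simp
  rw [e3]
  exact div_le_div_of_nonneg_left (mul_nonneg hk.le hx) (pow_pos h0 _)
    (hD.big.pw (by norm_num))

/-- The first linear tests. -/
theorem ob_l (i : Fin 3) (hi : i ≠ 2) (α : AL) :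
    |E.Cr (E.Wl i α) - E.prd (E.Wl i α) / E.R| ≤ E.La α / E.R / E.T ^ 6 := by
  have hD := h.sm.dat
  have hk := GData.os_k_pos hD
  have hR := GData.os_R_pos hD
  have h0 := GData.os_T_pos hD
  have hT := GData.os_T_ge hD
  have hL := GSt.on_La_nonneg h.sm α
  have h1 := ob_pred h (Sum.inr (Sum.inr (Sum.inr (⟨i⟩, α))))
  have c1 : E.tV (Sum.inr (Sum.inr (Sum.inr (⟨i⟩, α)))) = E.T * E.n1 * E.La α := by
    show (if i = 2 then 4 * E.T * E.La α else E.T * E.n1 * E.La α) = _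
    rw [if_neg hi]
  have c2 : E.dV (Sum.inr (Sum.inr (Sum.inr (⟨i⟩, α)))) = E.T ^ 2404 * E.La α := by
    show (if i = 2 then E.ar α else E.T ^ 2404 * E.La α) = _
    rw [if_neg hi]
  have c3 : E.wm (Sum.inr (Sum.inr (Sum.inr (⟨i⟩, α)))) = E.T * E.s1 α := by
    show (if i = 2 then E.s0 α else E.T * E.s1 α) = _
    rw [if_neg hi]
  unfold GSt.tot GSt.d1 at h1
  rw [c1, c2, c3] at h1
  change |E.Cr (E.Wl i α) - E.prd (E.Wl i α) / E.R| ≤ _ at h1
  refine h1.trans ?_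
  have e1 : 2 * (E.T * E.n1 * E.La α) / E.R ^ 2 = 2 * (E.T * E.k * (E.La α / E.R)) := by
    unfold GData.n1
    field_simp
  have e2 : 2 * (E.T ^ 2404 * E.La α) / E.R = 2 * (E.T ^ 2404 * (E.La α / E.R)) := by ring
  have e3 : E.T ^ 2404 * E.La α / E.R = E.T ^ 2404 * (E.La α / E.R) := by ring
  have hx : 0 ≤ E.La α / E.R := div_nonneg hL hR.le
  have h3 : E.T ^ 5 * (E.T * E.s1 α) ≤ E.T ^ 2404 * (E.La α / E.R) := by
    have b1 := hD.num1 α
    have b2 := (hD.s1_pos α).le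
    have b3 : E.T ^ 5 * (E.T * E.s1 α) ≤ E.T ^ 1500 * E.s1 α := by
      rw [← mul_assoc, ← pow_succ]
      exact mul_le_mul_of_nonneg_right (hD.big.pw (by norm_num)) b2
    have b4 : (1 : ℝ) ≤ E.T ^ 2404 * (1 / E.R) := by
      have := ob_R h.sm (n := 0) (m := 2404) (by norm_num)
      rwa [pow_zero] at this
    have b5 : E.T ^ 2404 * (E.La α / E.R) = E.T ^ 2404 * (1 / E.R) * E.La α := by ring
    rw [b5]
    have b6 : E.La α ≤ E.T ^ 2404 * (1 / E.R) * E.La α := le_mul_of_one_le_left hL b4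
    linarith
  have h4 := ob_y hT hD.k_lo hx rfl (mul_nonneg h0.le (hD.s1_pos α).le) h3
    (le_refl (E.T ^ 2404 * (E.La α / E.R)))
  rw [e1, e2, e3, div_le_iff₀ hk]
  refine h4.trans (le_of_eq ?_)
  ring

theorem ob_rl1_of (α : AL) (hp : E.prd (E.Wl 1 α) ≤ E.T * E.La α) :
    E.Cr (E.Wl 1 α) ≤ E.La α * E.T ^ 4 / E.R := by
  have hD := h.sm.dat
  have hR := GData.os_R_pos hD
  have h0 := GData.os_T_pos hD
  have hT := GData.os_T_ge hD
  have hL := GSt.on_La_nonneg h.sm α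
  have h1 := ob_l h 1 (by decide) α
  have h2 := (abs_le.1 h1).2
  have hx : 0 ≤ E.La α / E.R := div_nonneg hL hR.le
  have h3 : E.prd (E.Wl 1 α) / E.R ≤ E.T * (E.La α / E.R) := by
    rw [← mul_div_assoc]
    exact div_le_div_of_nonneg_right hp hR.le
  have h4 : E.La α / E.R / E.T ^ 6 ≤ E.La α / E.R := div_le_self hx (one_le_pow₀ (by linarith))
  have e1 : E.La α * E.T ^ 4 / E.R = E.T ^ 4 * (E.La α / E.R) := by ring
  rw [e1]
  have h5 : E.T * (E.La α / E.R) + E.La α / E.R ≤ E.T ^ 4 * (E.La α / E.R) := by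
    have b1 : E.T + 1 ≤ E.T ^ 4 := by
      have b2 : E.T ^ 2 ≤ E.T ^ 4 := hD.big.pw (by norm_num)
      nlinarith
    have := mul_le_mul_of_nonneg_right b1 hx
    linarith
  linarith

theorem raw_rl1 (α : AL) : E.Cr (E.Wl 1 α) ≤ E.La α * E.T ^ 4 / E.R :=
  ob_rl1_of h α (GSt.prd_l1 h.sm α)

theorem raw_rlp (α : AL) :
    |E.Cr (E.Wl 2 α) - E.prd (E.Wl 2 α) / E.R| ≤ E.La α / (E.n1 * E.R * E.T ^ 5) := by
  have hD := h.sm.dat
  have hk := GData.os_k_pos hD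
  have hR := GData.os_R_pos hD
  have h0 := GData.os_T_pos hD
  have hT := GData.os_T_ge hD
  have hp : ∀ n : ℕ, 0 < E.T ^ n := fun n => pow_pos h0 n
  have hL := GSt.on_La_nonneg h.sm α
  have h1 := ob_pred h (Sum.inr (Sum.inr (Sum.inr (⟨2⟩, α))))
  have c1 : E.tV (Sum.inr (Sum.inr (Sum.inr (⟨2⟩, α)))) = 4 * E.T * E.La α := by
    show (if (2 : Fin 3) = 2 then 4 * E.T * E.La α else E.T * E.n1 * E.La α) = _
    rw [if_pos rfl]
  have c2 : E.dV (Sum.inr (Sum.inr (Sum.inr (⟨2⟩, α)))) = E.ar α := by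
    show (if (2 : Fin 3) = 2 then E.ar α else E.T ^ 2404 * E.La α) = _
    rw [if_pos rfl]
  have c3 : E.wm (Sum.inr (Sum.inr (Sum.inr (⟨2⟩, α)))) = E.s0 α := by
    show (if (2 : Fin 3) = 2 then E.s0 α else E.T * E.s1 α) = _
    rw [if_pos rfl]
  unfold GSt.tot GSt.d1 at h1
  rw [c1, c2, c3] at h1
  change |E.Cr (E.Wl 2 α) - E.prd (E.Wl 2 α) / E.R| ≤ _ at h1
  refine h1.trans ?_
  have e1 : 2 * (4 * E.T * E.La α) / E.R ^ 2 = 8 * (E.T * (E.La α / E.R ^ 2)) := by ring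
  have e2 : 2 * E.ar α / E.R = 2 * (E.ar α / E.R) := by ring
  have hx : 0 ≤ E.La α / E.R ^ 2 := div_nonneg hL (pow_pos hR 2).le
  have h2 : E.ar α / E.R ≤ E.La α / E.R ^ 2 / E.T ^ 470 := by
    have b1 := hD.num2 α
    rw [div_div, div_le_div_iff₀ hR (mul_pos (pow_pos hR 2) (hp 470))]
    calc E.ar α * (E.R ^ 2 * E.T ^ 470) = E.T ^ 470 * (E.ar α * E.R) * E.R := by ring
      _ ≤ E.La α * E.R := mul_le_mul_of_nonneg_right b1 hR.le
  have h3 : E.s0 α ≤ E.La α / E.R ^ 2 / E.T ^ 480 := by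
    have b1 := hD.num0 α
    rw [div_div, le_div_iff₀ (mul_pos (pow_pos hR 2) (hp 480))]
    have b2 : E.R ^ 2 * E.T ^ 480 ≤ E.T ^ 5970 := by
      have b3 : E.R ^ 2 ≤ (E.T ^ 801) ^ 2 := pow_le_pow_left₀ hR.le hD.R_hi 2
      rw [← pow_mul] at b3
      calc E.R ^ 2 * E.T ^ 480 ≤ E.T ^ (801 * 2) * E.T ^ 480 :=
            mul_le_mul_of_nonneg_right b3 (hp 480).le
        _ = E.T ^ (801 * 2 + 480) := by rw [← pow_add]
        _ ≤ E.T ^ 5970 := hD.big.pw (by norm_num)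
    calc E.s0 α * (E.R ^ 2 * E.T ^ 480) ≤ E.s0 α * E.T ^ 5970 :=
          mul_le_mul_of_nonneg_left b2 (hD.s0_pos α).le
      _ = E.T ^ 5970 * E.s0 α := mul_comm _ _
      _ ≤ E.La α := b1
  have h4 := ob_z hT hx h2 h3
  rw [e1, e2, div_le_iff₀ hk]
  refine h4.trans (le_of_eq ?_)
  unfold GData.n1
  field_simp

end GRn

end

end Pool.Agent.AcyG
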