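import Pool.Agent.AcyG.ORaw
import Pool.Agent.AcyG.OFire
import Pool.Agent.AcyG.OStatB

/-! # Outcome of a stage: double events, equal picks, separation, uncoloured vertices
(project MP_af9dfb_G, row OR3) -/

set_option autoImplicit false
set_option linter.unusedSectionVars false

namespace Pool.Agent.AcyG

open Finset
open Pool.Agent.Acy (IsPM wt Ex Pr mean)
open Pool.Agent.AcyK (Big StepOK LocOK prodLaw Un Sel updCol HasC cN)
open scoped Classical

universe u v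

section

variable {V AL : Type u} [Fintype V] [DecidableEq V] [Fintype AL]

theorem oc_swap {α : Type*} [Fintype α] (f : V → V → V → V → α → ℝ) :
    ∑ z, ∑ z', ∑ y, ∑ y', ∑ P, f z z' y y' P = ∑ P, ∑ z, ∑ z', ∑ y, ∑ y', f z z' y y' P := by
  have e1 : ∀ z z' y, ∑ y', ∑ P, f z z' y y' P = ∑ P, ∑ y', f z z' y y' P :=
    fun z z' y => sum_comm
  have e2 : ∀ z z', ∑ y, ∑ P, ∑ y', f z z' y y' P = ∑ P, ∑ y, ∑ y', f z z' y y' P :=
    fun z z' => sum_comm
  have e3 : ∀ z, ∑ z', ∑ P, ∑ y, ∑ y', f z z' y y' P = ∑ P, ∑ z', ∑ y, ∑ y', f z z' y y' P :=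
    fun z => sum_comm
  simp only [e1, e2, e3]
  exact sum_comm

namespace GRn

variable {Lb : Type u} [Fintype Lb] {E : GRn V Lb AL} {Y : Tst V AL ⊕ V → ℝ}

theorem oc_NN_nonneg (x y a b : V) : 0 ≤ E.NN x y a b := by
  unfold NN
  refine sum_nonneg fun z _ => sum_nonneg fun z' _ => sum_nonneg fun w _ =>
    sum_nonneg fun w' _ => ?_
  split_ifs
  · exact mul_nonneg (abs_nonneg _) (abs_nonneg _)
  · exact le_rfl

theorem oc_term (z z' y y' : V) (o A B : ℝ)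
    [Decidable (Fire.fired E.col z z' ∧ Fire.fired E.col y y' ∧ (z, z') ≠ (y, y'))] :
    (if Fire.fired E.col z z' ∧ Fire.fired E.col y y' ∧ (z, z') ≠ (y, y') then
      o * (E.rs z z' A * E.rs y y' B) else 0) =
    o * (if E.fr z z' ∧ E.fr y y' ∧ (z, z') ≠ (y, y') then A * B else 0) := by
  unfold GSm.rs fr
  by_cases ha : z ∈ E.U ∧ z' ∈ E.U
  · by_cases hb : y ∈ E.U ∧ y' ∈ E.U
    · rw [if_pos ha, if_pos hb]
      by_cases hc : Fire.fired E.col z z' ∧ Fire.fired E.col y y' ∧ (z, z') ≠ (y, y')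
      · rw [if_pos hc, if_pos ⟨⟨ha.1, ha.2, hc.1⟩, ⟨hb.1, hb.2, hc.2.1⟩, hc.2.2⟩]
      · rw [if_neg hc, if_neg (fun h => hc ⟨h.1.2.2, h.2.1.2.2, h.2.2⟩), mul_zero]
    · rw [if_neg hb, mul_zero, mul_zero, ite_self,
        if_neg (fun h => hb ⟨h.2.1.1, h.2.1.2.1⟩), mul_zero]
  · rw [if_neg ha, zero_mul, mul_zero, ite_self,
      if_neg (fun h => ha ⟨h.1.1, h.1.2.1⟩), mul_zero]

theorem oc_D2 (b : Krn V AL) : E.fire.D2 E.col E.lab b =
    ∑ P : V × V, ∑ S : V × V, E.omk b P S * E.NN P.1 P.2 S.1 S.2 := by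
  have h1 : E.fire.D2 E.col E.lab b = ∑ z, ∑ z', ∑ y, ∑ y', ∑ P : V × V, ∑ S : V × V,
      E.omk b P S * (if E.fr z z' ∧ E.fr y y' ∧ (z, z') ≠ (y, y') then
        |E.gu (E.lab z z') z z' P.1 P.2| * |E.gu (E.lab y y') y y' S.1 S.2| else 0) := by
    unfold Fire.D2
    refine sum_congr rfl fun z _ => sum_congr rfl fun z' _ => sum_congr rfl fun y _ =>
      sum_congr rfl fun y' _ => ?_
    have h2 : ∀ (p : Prop) [Decidable p] (f : V × V → V × V → ℝ),
        (if p then ∑ P, ∑ S, f P S else 0) = ∑ P, ∑ S, if p then f P S else 0 := by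
      intro p _ f
      by_cases hp : p
      · simp only [if_pos hp]
      · simp only [if_neg hp, sum_const_zero]
    rw [h2]
    refine sum_congr rfl fun P _ => sum_congr rfl fun S _ => ?_
    exact oc_term z z' y y' (E.omk b P S) _ _
  rw [h1, oc_swap]
  refine sum_congr rfl fun P _ => ?_
  rw [oc_swap]
  refine sum_congr rfl fun S _ => ?_
  unfold NN
  rw [mul_sum]
  refine sum_congr rfl fun z _ => ?_
  rw [mul_sum]
  refine sum_congr rfl fun z' _ => ?_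
  rw [mul_sum]
  refine sum_congr rfl fun y _ => ?_
  rw [mul_sum]

theorem oc_sum_eq (f : V × V → V × V → ℝ) (c : V × V → ℝ) :
    ∑ P : V × V, ∑ S : V × V, (if P = S then c P else 0) * f P S = ∑ P, c P * f P P := by
  refine sum_congr rfl fun P _ => ?_
  rw [Finset.sum_eq_single P]
  · rw [if_pos rfl]
  · intro S _ hS
    rw [if_neg (Ne.symm hS), zero_mul]
  · intro h
    exact absurd (mem_univ _) h

theorem oc_k0 (x : V) : E.fire.D2 E.col E.lab (Sum.inl (⟨0⟩, x)) = ∑ u, E.NN u x u x := by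
  rw [oc_D2]
  have h1 : ∀ P S : V × V, E.omk (Sum.inl (⟨0⟩, x)) P S =
      if P = S then (if P.2 = x then 1 else 0) else 0 := by
    intro P S
    unfold GSt.omk
    rw [Sum.elim_inl]
    dsimp only
    rw [if_pos rfl, ite_and]
  simp only [h1]
  rw [oc_sum_eq, Fintype.sum_prod_type]
  refine sum_congr rfl fun u _ => ?_
  rw [Finset.sum_eq_single x]
  · rw [if_pos rfl, one_mul]
  · intro w _ hw
    rw [if_neg (show ¬ ((u, w) : V × V).2 = x from hw), zero_mul]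
  · intro h
    exact absurd (mem_univ _) h

theorem oc_k1 (x : V) : E.fire.D2 E.col E.lab (Sum.inl (⟨1⟩, x)) =
    1 / E.n1 * ∑ u, (if E.nf E.s u x then ∑ a ∈ cN E.N u x,
      ∑ b ∈ cN E.N u x, E.NN a b a b else 0) := by
  rw [oc_D2]
  have h1 : ∀ P S : V × V, E.omk (Sum.inl (⟨1⟩, x)) P S =
      if P = S then 1 / E.n1 * ((univ.filter fun u => E.nf E.s u x ∧ P.1 ∈ cN E.N u x ∧
          P.2 ∈ cN E.N u x).card : ℝ) else 0 := by
    intro P S
    unfold GSt.omk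
    rw [Sum.elim_inl]
    dsimp only
    rw [if_neg (by decide), if_pos rfl]
  simp only [h1]
  rw [oc_sum_eq]
  have h2 : ∀ P : V × V, 1 / E.n1 * ((univ.filter fun u => E.nf E.s u x ∧ P.1 ∈ cN E.N u x ∧
      P.2 ∈ cN E.N u x).card : ℝ) * E.NN P.1 P.2 P.1 P.2 =
      1 / E.n1 * ∑ u, if E.nf E.s u x ∧ P.1 ∈ cN E.N u x ∧ P.2 ∈ cN E.N u x then
        E.NN P.1 P.2 P.1 P.2 else 0 := by
    intro P
    rw [mul_assoc, card_eq_sum_ones, Nat.cast_sum, sum_mul, sum_filter]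
    congr 1
    refine sum_congr rfl fun u _ => ?_
    split_ifs
    · simp
    · rfl
  simp only [h2]
  rw [← mul_sum, sum_comm]
  congr 1
  refine sum_congr rfl fun u _ => ?_
  by_cases hu : E.nf E.s u x
  · rw [if_pos hu, Fintype.sum_prod_type]
    rw [← Finset.sum_filter_add_sum_filter_not univ (fun a => a ∈ cN E.N u x)]
    have e1 : (univ.filter fun a => a ∈ cN E.N u x) = cN E.N u x := by
      ext a
      simp
    rw [e1, Finset.sum_eq_zero (s := univ.filter fun a => a ∉ cN E.N u x), add_zero]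
    · refine sum_congr rfl fun a ha => ?_
      rw [← Finset.sum_filter_add_sum_filter_not univ (fun b => b ∈ cN E.N u x), e1,
        Finset.sum_eq_zero (s := univ.filter fun a => a ∉ cN E.N u x), add_zero]
      · refine sum_congr rfl fun b hb => ?_
        rw [if_pos ⟨hu, ha, hb⟩]
      · intro b hb
        rw [if_neg (fun h => (mem_filter.1 hb).2 h.2.2)]
    · intro a ha
      refine Finset.sum_eq_zero fun b _ => ?_
      rw [if_neg (fun h => (mem_filter.1 ha).2 h.2.1)]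
  · rw [if_neg hu]
    refine Finset.sum_eq_zero fun P _ => ?_
    rw [if_neg (fun h => hu h.1)]

theorem oc_k2 (hE : E.toGSm.toGSt.Ok) (x : V) :
    1 / E.n1 * ∑ u, (if E.nf E.s u x then ∑ a ∈ cN E.N u x,
      ∑ b ∈ cN E.N u x, E.NN u x a b else 0) ≤ E.fire.D2 E.col E.lab (Sum.inl (⟨2⟩, x)) := by
  have hn := GData.os_n1_pos hE.dat
  rw [oc_D2, Fintype.sum_prod_type, mul_sum]
  refine sum_le_sum fun u _ => ?_
  have h1 : ∀ P S : V × V, E.omk (Sum.inl (⟨2⟩, x)) P S =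
      1 / E.n1 * ((if P.2 = x ∧ E.nf E.s P.1 P.2 ∧ S.1 ∈ cN E.N P.1 P.2 ∧
          S.2 ∈ cN E.N P.1 P.2 then 1 else 0) +
        (if S.2 = x ∧ E.nf E.s S.1 S.2 ∧ P.1 ∈ cN E.N S.1 S.2 ∧ P.2 ∈ cN E.N S.1 S.2 then 1
          else 0)) := by
    intro P S
    unfold GSt.omk
    rw [Sum.elim_inl]
    dsimp only
    rw [if_neg (by decide), if_neg (by decide)]
  have h0 : ∀ P S : V × V, 0 ≤ E.omk (Sum.inl (⟨2⟩, x)) P S * E.NN P.1 P.2 S.1 S.2 :=
    fun P S => mul_nonneg (GSt.of_omk_nonneg hE _ P S) (oc_NN_nonneg _ _ _ _)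
  refine le_trans ?_ (Finset.single_le_sum (f := fun w => ∑ S : V × V,
    E.omk (Sum.inl (⟨2⟩, x)) (u, w) S * E.NN u w S.1 S.2)
    (fun w _ => sum_nonneg fun S _ => h0 (u, w) S) (mem_univ x))
  by_cases hu : E.nf E.s u x
  · rw [if_pos hu, mul_sum, Fintype.sum_prod_type]
    refine le_trans ?_ (sum_le_sum_of_subset_of_nonneg (subset_univ (cN E.N u x))
      fun a _ _ => sum_nonneg fun b _ => h0 (u, x) (a, b))
    refine sum_le_sum fun a ha => ?_
    rw [mul_sum]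
    refine le_trans ?_ (sum_le_sum_of_subset_of_nonneg (subset_univ (cN E.N u x))
      fun b _ _ => h0 (u, x) (a, b))
    refine sum_le_sum fun b hb => ?_
    refine mul_le_mul_of_nonneg_right ?_ (oc_NN_nonneg _ _ _ _)
    rw [h1, if_pos (show ((u, x) : V × V).2 = x ∧ E.nf E.s ((u, x) : V × V).1 ((u, x) : V × V).2 ∧
      ((a, b) : V × V).1 ∈ cN E.N ((u, x) : V × V).1 ((u, x) : V × V).2 ∧
      ((a, b) : V × V).2 ∈ cN E.N ((u, x) : V × V).1 ((u, x) : V × V).2 from ⟨rfl, hu, ha, hb⟩)]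
    have h2 : (0 : ℝ) < 1 / E.n1 := by positivity
    refine le_mul_of_one_le_right h2.le ?_
    have h3 : (0 : ℝ) ≤ (if ((a, b) : V × V).2 = x ∧ E.nf E.s ((a, b) : V × V).1 ((a, b) : V × V).2 ∧
      ((u, x) : V × V).1 ∈ cN E.N ((a, b) : V × V).1 ((a, b) : V × V).2 ∧
      ((u, x) : V × V).2 ∈ cN E.N ((a, b) : V × V).1 ((a, b) : V × V).2 then 1 else 0) := by
      split_ifs <;> norm_num
    linarith
  · rw [if_neg hu, mul_zero]
    exact sum_nonneg fun S _ => h0 (u, x) S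

theorem oc_NN_nf {x y a b : V} (h : E.NN x y a b ≠ 0) : E.nf E.s x y ∧ E.nf E.s a b := by
  unfold NN at h
  obtain ⟨z, -, h⟩ := exists_ne_zero_of_sum_ne_zero h
  obtain ⟨z', -, h⟩ := exists_ne_zero_of_sum_ne_zero h
  obtain ⟨w, -, h⟩ := exists_ne_zero_of_sum_ne_zero h
  obtain ⟨w', -, h⟩ := exists_ne_zero_of_sum_ne_zero h
  split_ifs at h with hc
  · constructor
    · by_contra h1
      apply h
      rw [show E.gu (E.lab z z') z z' x y = 0 from if_neg h1, abs_zero, zero_mul]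
    · by_contra h1
      apply h
      rw [show E.gu (E.lab w w') w w' a b = 0 from if_neg h1, abs_zero, mul_zero]
  · exact absurd rfl h

theorem oc_kg (hE : E.toGSm.toGSt.Ok) (y y' : V) :
    ∑ u, E.NN u y u y' ≤ E.fire.D2 E.col E.lab (Sum.inr (Sum.inl (y, y'))) := by
  rw [oc_D2, Fintype.sum_prod_type]
  have h0 : ∀ P S : V × V, 0 ≤ E.omk (Sum.inr (Sum.inl (y, y'))) P S * E.NN P.1 P.2 S.1 S.2 :=
    fun P S => mul_nonneg (GSt.of_omk_nonneg hE _ P S) (oc_NN_nonneg _ _ _ _)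
  refine sum_le_sum fun u _ => ?_
  refine le_trans ?_ (Finset.single_le_sum (f := fun w => ∑ S : V × V,
    E.omk (Sum.inr (Sum.inl (y, y'))) (u, w) S * E.NN u w S.1 S.2)
    (fun w _ => sum_nonneg fun S _ => h0 (u, w) S) (mem_univ y))
  refine le_trans ?_ (Finset.single_le_sum (f := fun S : V × V =>
    E.omk (Sum.inr (Sum.inl (y, y'))) (u, y) S * E.NN u y S.1 S.2)
    (fun S _ => h0 (u, y) S) (mem_univ (u, y')))
  by_cases hN : E.NN u y u y' = 0
  · rw [hN, mul_zero]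
  · have h1 := oc_NN_nf hN
    have h2 : 1 ≤ E.omk (Sum.inr (Sum.inl (y, y'))) (u, y) (u, y') := by
      change 1 ≤ (if E.far u y ∧ E.far u y' then
        (if u = u ∧ y = y ∧ y' = y' then (1 : ℝ) else 0) +
        (if u = u ∧ y' = y ∧ y = y' then 1 else 0) else 0)
      rw [if_pos ⟨h1.1.1, h1.2.1⟩, if_pos ⟨rfl, rfl, rfl⟩]
      have : (0 : ℝ) ≤ (if u = u ∧ y' = y ∧ y = y' then 1 else 0) := by
        split_ifs <;> norm_num
      linarith
    exact le_mul_of_one_le_left (oc_NN_nonneg _ _ _ _) h2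

theorem oc_kl (α : AL) : E.fire.D2 E.col E.lab (Sum.inr (Sum.inr α)) =
    ∑ a, ∑ b, E.a α a b * E.NN a b a b := by
  rw [oc_D2]
  have h1 : ∀ P S : V × V, E.omk (Sum.inr (Sum.inr α)) P S =
      if P = S then E.a α P.1 P.2 else 0 := fun P S => rfl
  simp only [h1]
  rw [oc_sum_eq, Fintype.sum_prod_type]

section

variable (h : E.Raw Y)
include h

theorem oc_M : (E.M : ℝ) ≤ E.T ^ 150 := by
  have h1 := h.sm.dat.M_le
  have h2 := h.sm.dat.q_hi
  have h3 : 0 ≤ E.T ^ 133 := pow_nonneg (GData.os_T_pos h.sm.dat).le _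
  linarith

theorem oc_dbl (b : Krn V AL) : E.fire.D2 E.col E.lab b ≤ E.M *
    (E.tb b / E.T ^ 4888 + E.db b / E.T ^ 3680 + E.T ^ 470 * E.wb b) := h.fin.dbl b

theorem oc_dbl_x (b : Krn V AL) (h1 : E.tb b = E.T ^ 8031) (h2 : E.db b = E.T ^ 6440)
    (h3 : E.wb b = E.T ^ 2403) : E.fire.D2 E.col E.lab b ≤ E.T ^ 3300 := by
  have hb := h.sm.dat.big
  have h0 := GData.os_T_pos h.sm.dat
  have hT := GData.os_T_ge h.sm.dat
  refine (oc_dbl h b).trans ?_
  rw [h1, h2, h3]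
  have e1 : E.T ^ 8031 / E.T ^ 4888 = E.T ^ 3143 := by
    rw [show E.T ^ 8031 = E.T ^ 3143 * E.T ^ 4888 by rw [← pow_add],
      mul_div_cancel_right₀ _ (by positivity)]
  have e2 : E.T ^ 6440 / E.T ^ 3680 = E.T ^ 2760 := by
    rw [show E.T ^ 6440 = E.T ^ 2760 * E.T ^ 3680 by rw [← pow_add],
      mul_div_cancel_right₀ _ (by positivity)]
  have e3 : E.T ^ 470 * E.T ^ 2403 = E.T ^ 2873 := by rw [← pow_add]
  rw [e1, e2, e3]
  have e4 : E.T ^ 2760 ≤ E.T ^ 3143 := hb.pw (by norm_num)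
  have e5 : E.T ^ 2873 ≤ E.T ^ 3143 := hb.pw (by norm_num)
  have e6 : E.T ^ 3143 + E.T ^ 2760 + E.T ^ 2873 ≤ E.T * E.T ^ 3143 := by
    have : 3 * E.T ^ 3143 ≤ E.T * E.T ^ 3143 :=
      mul_le_mul_of_nonneg_right (by linarith) (by positivity)
    linarith
  calc (E.M : ℝ) * (E.T ^ 3143 + E.T ^ 2760 + E.T ^ 2873) ≤ E.T ^ 150 * (E.T * E.T ^ 3143) :=
        mul_le_mul (oc_M h) e6 (by positivity) (by positivity)
    _ = E.T ^ 3294 := by rw [← pow_succ', ← pow_add]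
    _ ≤ E.T ^ 3300 := hb.pw (by norm_num)

theorem raw_rP (x y : V) : E.Cr (fun z z' l => |E.gu l z z' x y|) ≤ 1 / E.T ^ 769 := by
  have h0 := GData.os_T_pos h.sm.dat
  have h1 := h.fin.raP (x, y)
  have h2 : E.fire.C1r E.ra (fun z z' l => E.fire.af z z' l (x, y)) =
      E.Cr (fun z z' l => |E.gu l z z' x y|) := by
    unfold Fire.C1r Cr
    refine sum_congr rfl fun z _ => sum_congr rfl fun z' _ => ?_
    change E.ra z z' * ∑ l, E.μ z z' l * E.rs z z' |E.gu l z z' x y| =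
      E.rs z z' (E.ra z z' * ∑ l, E.μ z z' l * |E.gu l z z' x y|)
    unfold GSm.rs
    by_cases hz : z ∈ E.U ∧ z' ∈ E.U
    · simp only [if_pos hz]
    · simp only [if_neg hz, mul_zero, sum_const_zero]
  rw [h2] at h1
  refine h1.trans ?_
  change (E.M : ℝ) / E.T ^ 919 ≤ _
  rw [div_le_div_iff₀ (by positivity) (by positivity), one_mul]
  calc (E.M : ℝ) * E.T ^ 769 ≤ E.T ^ 150 * E.T ^ 769 :=
        mul_le_mul_of_nonneg_right (oc_M h) (by positivity)
    _ = E.T ^ 919 := by rw [← pow_add]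

theorem raw_d0 (x : V) : ∑ u, E.NN u x u x ≤ E.T ^ 3300 := by
  rw [← oc_k0 x]
  exact oc_dbl_x h _ rfl rfl rfl

theorem raw_d1 (x : V) : 1 / E.n1 * ∑ u, (if E.nf E.s u x then ∑ a ∈ cN E.N u x,
    ∑ b ∈ cN E.N u x, E.NN a b a b else 0) ≤ E.T ^ 3300 := by
  rw [← oc_k1 x]
  exact oc_dbl_x h _ rfl rfl rfl

theorem raw_d2 (x : V) : 1 / E.n1 * ∑ u, (if E.nf E.s u x then ∑ a ∈ cN E.N u x,
    ∑ b ∈ cN E.N u x, E.NN u x a b else 0) ≤ E.T ^ 3300 :=
  (oc_k2 h.sm x).trans (oc_dbl_x h _ rfl rfl rfl)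

theorem raw_dg (y y' : V) : ∑ u, E.NN u y u y' ≤ E.T ^ 3300 :=
  (oc_kg h.sm y y').trans (oc_dbl_x h _ rfl rfl rfl)

theorem raw_dl (α : AL) : ∑ a, ∑ b, E.a α a b * E.NN a b a b ≤ E.La α / E.T ^ 870 := by
  have hb := h.sm.dat.big
  have h0 := GData.os_T_pos h.sm.dat
  have hT := GData.os_T_ge h.sm.dat
  have hLa := GData.ob_La_pos h.sm.dat α
  have hs1 := h.sm.dat.s1_pos α
  have hn1 := h.sm.dat.num1 α
  rw [← oc_kl α]
  refine (oc_dbl h _).trans ?_
  change (E.M : ℝ) * (E.T ^ 3213 * E.La α / E.T ^ 4888 + E.T ^ 1610 * E.La α / E.T ^ 3680 +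
    E.T ^ 470 * (E.T ^ 2 * E.s1 α)) ≤ _
  have e1 : E.T ^ 3213 * E.La α / E.T ^ 4888 ≤ E.La α / E.T ^ 1028 := by
    rw [div_le_div_iff₀ (by positivity) (by positivity)]
    have : E.T ^ 3213 * E.T ^ 1028 ≤ E.T ^ 4888 := by
      rw [← pow_add]
      exact hb.pw (by norm_num)
    calc E.T ^ 3213 * E.La α * E.T ^ 1028 = E.La α * (E.T ^ 3213 * E.T ^ 1028) := by ring
      _ ≤ E.La α * E.T ^ 4888 := mul_le_mul_of_nonneg_left this hLa.le
  have e2 : E.T ^ 1610 * E.La α / E.T ^ 3680 ≤ E.La α / E.T ^ 1028 := by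
    rw [div_le_div_iff₀ (by positivity) (by positivity)]
    have : E.T ^ 1610 * E.T ^ 1028 ≤ E.T ^ 3680 := by
      rw [← pow_add]
      exact hb.pw (by norm_num)
    calc E.T ^ 1610 * E.La α * E.T ^ 1028 = E.La α * (E.T ^ 1610 * E.T ^ 1028) := by ring
      _ ≤ E.La α * E.T ^ 3680 := mul_le_mul_of_nonneg_left this hLa.le
  have e3 : E.T ^ 470 * (E.T ^ 2 * E.s1 α) ≤ E.La α / E.T ^ 1028 := by
    rw [le_div_iff₀ (by positivity)]
    have : E.T ^ 470 * E.T ^ 2 * E.T ^ 1028 = E.T ^ 1500 := by rw [← pow_add, ← pow_add]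
    calc E.T ^ 470 * (E.T ^ 2 * E.s1 α) * E.T ^ 1028 =
          E.T ^ 470 * E.T ^ 2 * E.T ^ 1028 * E.s1 α := by ring
      _ = E.T ^ 1500 * E.s1 α := by rw [this]
      _ ≤ E.La α := hn1
  have e4 : 0 < E.La α / E.T ^ 1028 := by positivity
  have hM0 : (0 : ℝ) ≤ E.M := Nat.cast_nonneg _
  calc (E.M : ℝ) * (E.T ^ 3213 * E.La α / E.T ^ 4888 + E.T ^ 1610 * E.La α / E.T ^ 3680 +
      E.T ^ 470 * (E.T ^ 2 * E.s1 α)) ≤ E.M * (E.T * (E.La α / E.T ^ 1028)) := by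
        refine mul_le_mul_of_nonneg_left ?_ hM0
        have : 3 * (E.La α / E.T ^ 1028) ≤ E.T * (E.La α / E.T ^ 1028) :=
          mul_le_mul_of_nonneg_right (by linarith) e4.le
        linarith
    _ ≤ E.T ^ 150 * (E.T * (E.La α / E.T ^ 1028)) :=
        mul_le_mul_of_nonneg_right (oc_M h) (by positivity)
    _ = E.La α * E.T ^ 151 / E.T ^ 1028 := by
        rw [show E.T ^ 151 = E.T ^ 150 * E.T by rw [← pow_succ]]
        ring
    _ ≤ E.La α / E.T ^ 870 := by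
        rw [div_le_div_iff₀ (by positivity) (by positivity)]
        have : E.T ^ 151 * E.T ^ 870 ≤ E.T ^ 1028 := by
          rw [← pow_add]
          exact hb.pw (by norm_num)
        calc E.La α * E.T ^ 151 * E.T ^ 870 = E.La α * (E.T ^ 151 * E.T ^ 870) := by ring
          _ ≤ E.La α * E.T ^ 1028 := mul_le_mul_of_nonneg_left this hLa.le

theorem raw_cl (x : V) : (∑ z, ∑ z', E.rs z z' (if Fire.clash E.col z z' then E.cw x z z'
    else 0)) ≤ E.T ^ 3910 := by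
  have hb := h.sm.dat.big
  have h0 := GData.os_T_pos h.sm.dat
  have hT := GData.os_T_ge h.sm.dat
  have h1 := h.fin.eq x
  have h2 : (∑ z, ∑ z', if Fire.clash E.col z z' then E.fire.cw x z z' else 0) =
      ∑ z, ∑ z', E.rs z z' (if Fire.clash E.col z z' then E.cw x z z' else 0) := by
    refine sum_congr rfl fun z _ => sum_congr rfl fun z' _ => ?_
    change (if Fire.clash E.col z z' then E.rs z z' (E.cw x z z') else 0) = _
    unfold GSm.rs
    split_ifs <;> rfl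
  refine (le_of_eq_of_le h2.symm h1).trans ?_
  change (E.M : ℝ) * (E.T ^ 4 * ((E.T ^ 2802 / E.T ^ 129 + E.T ^ 135) *
    (E.T ^ 5206 / E.T ^ 129 + E.T ^ 135 * E.T ^ 3601) / E.T ^ 3997 + E.T ^ 3601)) ≤ _
  have e1 : E.T ^ 2802 / E.T ^ 129 = E.T ^ 2673 := by
    rw [show E.T ^ 2802 = E.T ^ 2673 * E.T ^ 129 by rw [← pow_add],
      mul_div_cancel_right₀ _ (by positivity)]
  have e2 : E.T ^ 5206 / E.T ^ 129 = E.T ^ 5077 := by
    rw [show E.T ^ 5206 = E.T ^ 5077 * E.T ^ 129 by rw [← pow_add],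
      mul_div_cancel_right₀ _ (by positivity)]
  have e3 : E.T ^ 135 * E.T ^ 3601 = E.T ^ 3736 := by rw [← pow_add]
  rw [e1, e2, e3]
  have a1 : E.T ^ 2673 + E.T ^ 135 ≤ 2 * E.T ^ 2673 := by
    have : E.T ^ 135 ≤ E.T ^ 2673 := hb.pw (by norm_num)
    linarith
  have a2 : E.T ^ 5077 + E.T ^ 3736 ≤ 2 * E.T ^ 5077 := by
    have : E.T ^ 3736 ≤ E.T ^ 5077 := hb.pw (by norm_num)
    linarith
  have a3 : (E.T ^ 2673 + E.T ^ 135) * (E.T ^ 5077 + E.T ^ 3736) / E.T ^ 3997 ≤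
      4 * E.T ^ 3753 := by
    rw [div_le_iff₀ (by positivity)]
    calc (E.T ^ 2673 + E.T ^ 135) * (E.T ^ 5077 + E.T ^ 3736) ≤
          (2 * E.T ^ 2673) * (2 * E.T ^ 5077) :=
          mul_le_mul a1 a2 (by positivity) (by positivity)
      _ = 4 * (E.T ^ 2673 * E.T ^ 5077) := by ring
      _ = 4 * (E.T ^ 3753 * E.T ^ 3997) := by
          rw [show E.T ^ 2673 * E.T ^ 5077 = E.T ^ 3753 * E.T ^ 3997 by
            rw [← pow_add, ← pow_add]]
      _ = 4 * E.T ^ 3753 * E.T ^ 3997 := by ring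
  have a4 : E.T ^ 3601 ≤ E.T ^ 3753 := hb.pw (by norm_num)
  have a5 : (E.T ^ 2673 + E.T ^ 135) * (E.T ^ 5077 + E.T ^ 3736) / E.T ^ 3997 + E.T ^ 3601 ≤
      E.T * E.T ^ 3753 := by
    have : 5 * E.T ^ 3753 ≤ E.T * E.T ^ 3753 :=
      mul_le_mul_of_nonneg_right (by linarith) (by positivity)
    linarith
  calc (E.M : ℝ) * (E.T ^ 4 * ((E.T ^ 2673 + E.T ^ 135) *
      (E.T ^ 5077 + E.T ^ 3736) / E.T ^ 3997 + E.T ^ 3601)) ≤
        E.T ^ 150 * (E.T ^ 4 * (E.T * E.T ^ 3753)) :=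
        mul_le_mul (oc_M h) (mul_le_mul_of_nonneg_left a5 (by positivity)) (by positivity)
          (by positivity)
    _ = E.T ^ 3908 := by rw [← pow_succ', ← pow_add, ← pow_add]
    _ ≤ E.T ^ 3910 := hb.pw (by norm_num)

theorem raw_sep (z z' : V) (c : Fin E.k) (r r' : ℕ) (hz : z ∈ E.U) (hz' : z' ∈ E.U)
    (h1 : E.col z' = some (c, r')) (h2 : E.col z = some (c, r)) (hr : r' < r) (ho : E.ok z) :
    E.K E.s z z' ≠ -1 ∧ ¬ E.sp z z' := by
  have hD := h.sm.dat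
  have hI := h.sm.inv.toSInv
  have h3 := h.sep z' z c r' r h1 h2 hr ho
  have hK : E.nib.K z' z = E.K E.s z z' := by
    change E.rs z' z (E.K E.s z' z) = _
    unfold GSm.rs
    rw [if_pos ⟨hz', hz⟩]
    unfold GData.K
    rw [if_congr (GData.os_far_comm hD z' z) (by rw [hI.X_symm z' z]) rfl]
  refine ⟨by rw [← hK]; exact h3.1, fun h4 => h3.2 ?_⟩
  change z' ∈ E.U ∧ z ∈ E.U ∧ (E.spe z' z ∨
    (E.far z' z ∧ E.s.X z' z ≠ 0 ∧ ¬ E.nf E.s z' z) ∨ (E.lig z' z ∧ E.twn E.s z' z))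
  obtain ⟨-, -, h5⟩ := h4
  refine ⟨hz', hz, ?_⟩
  rcases h5 with h5 | h5 | h5
  · exact Or.inl (GData.os_spe_symm hD h5)
  · refine Or.inr (Or.inl ⟨GData.os_far_symm hD h5.1, ?_, ?_⟩)
    · rw [hI.X_symm z' z]
      exact h5.2.1
    · rw [GData.os_nf_comm hD hI z' z]
      exact h5.2.2
  · exact Or.inr (Or.inr ⟨GData.os_lig_symm hD h5.1, (GData.os_twn_comm hI z z').1 h5.2⟩)

theorem raw_unc (v : V) :
    ((E.U.filter fun z => z ∈ E.N v ∧ E.C z = none ∧ (E.col z = none ∨ ¬ E.ok z)).card : ℝ)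
    ≤ (1 / 20 + 1 / E.T) * ((E.U.filter fun z => z ∈ E.N v ∧ E.C z = none).card : ℝ) +
      E.T ^ 1600 / 4 := by
  have hD := h.sm.dat
  have hb := hD.big
  have h0 := GData.os_T_pos hD
  have hT := GData.os_T_ge hD
  set g : V → ℝ := fun z => if z ∈ E.U ∧ z ∈ E.N v ∧ E.C z = none then 1 else 0 with hg
  have hg0 : ∀ z, 0 ≤ g z := by
    intro z
    rw [hg]
    dsimp only
    split_ifs <;> norm_num
  have c1 := h.card (Sum.inr v)
  have c2 := h.fin.fail (Sum.inr v)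
  have hdv : E.nib.dv (Sum.inr v) ≤ E.T ^ 1404 := by
    change E.T ^ 2 * Real.sqrt (1 * (E.T ^ 2802 + 1)) ≤ _
    have a1 : Real.sqrt (1 * (E.T ^ 2802 + 1)) ≤ E.T ^ 1402 := by
      rw [Real.sqrt_le_left (by positivity), ← pow_mul, one_mul]
      have a2 : (1 : ℝ) ≤ E.T ^ 2802 := one_le_pow₀ (by linarith)
      have a3 : 2 * E.T ^ 2802 ≤ E.T ^ (1402 * 2) := by
        have a4 : E.T ^ (1402 * 2) = E.T * E.T * E.T ^ 2802 := by
          rw [show 1402 * 2 = 2802 + 1 + 1 by norm_num, pow_succ', pow_succ']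
          ring
        rw [a4]
        refine mul_le_mul_of_nonneg_right ?_ (by positivity)
        nlinarith
      linarith
    calc E.T ^ 2 * Real.sqrt (1 * (E.T ^ 2802 + 1)) ≤ E.T ^ 2 * E.T ^ 1402 :=
          mul_le_mul_of_nonneg_left a1 (by positivity)
      _ = E.T ^ 1404 := by rw [← pow_add]
  have hdv0 : 0 ≤ E.nib.dv (Sum.inr v) :=
    mul_nonneg (pow_nonneg h0.le 2) (Real.sqrt_nonneg _)
  have hMd : (E.M : ℝ) * E.nib.dv (Sum.inr v) ≤ E.T ^ 1554 := by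
    calc (E.M : ℝ) * E.nib.dv (Sum.inr v) ≤ E.T ^ 150 * E.T ^ 1404 :=
          mul_le_mul (oc_M h) hdv hdv0 (by positivity)
      _ = E.T ^ 1554 := by rw [← pow_add]
  have c1' : (∑ z ∈ Un E.col, g z) ≤ ((E.q : ℝ) - E.M) / E.q * (∑ z, g z) +
    E.M * E.nib.dv (Sum.inr v) := c1
  have c2' : (∑ z, if E.col z ≠ none ∧ ¬ E.ok z then g z else 0) ≤
    1 / 20 * (∑ z, if E.col z ≠ none then g z else 0) + E.M * E.nib.dv (Sum.inr v) := c2
  have hG0 : 0 ≤ ∑ z, g z := sum_nonneg fun z _ => hg0 z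
  have c3 : (∑ z, if E.col z ≠ none then g z else 0) ≤ ∑ z, g z := by
    refine sum_le_sum fun z _ => ?_
    split_ifs
    · exact le_rfl
    · exact hg0 z
  have hq : 0 < (E.q : ℝ) := by
    have h1 := hD.M_le
    have h2 : 0 < E.T ^ 133 := pow_pos h0 _
    have h3 : (0 : ℝ) ≤ E.M := Nat.cast_nonneg _
    linarith
  have c4 : ((E.q : ℝ) - E.M) / E.q ≤ 1 / E.T := by
    have h1 := hD.M_ge
    have h2 : (E.q : ℝ) / E.T ^ 16 ≤ E.q / E.T := by
      refine div_le_div_of_nonneg_left hq.le h0 ?_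
      exact le_self_pow₀ (by linarith) (by norm_num)
    rw [div_le_div_iff₀ hq h0]
    have h3 : (E.q : ℝ) / E.T * E.T = E.q := div_mul_cancel₀ _ h0.ne'
    nlinarith
  have e1 : ((E.U.filter fun z => z ∈ E.N v ∧ E.C z = none).card : ℝ) = ∑ z, g z := by
    rw [hg, sum_boole]
    congr 2
    ext z
    simp
  have e2 : ((E.U.filter fun z => z ∈ E.N v ∧ E.C z = none ∧
      (E.col z = none ∨ ¬ E.ok z)).card : ℝ) ≤ (∑ z ∈ Un E.col, g z) +
        ∑ z, if E.col z ≠ none ∧ ¬ E.ok z then g z else 0 := by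
    have e3 : ((E.U.filter fun z => z ∈ E.N v ∧ E.C z = none ∧
      (E.col z = none ∨ ¬ E.ok z)).card : ℝ) = ∑ z, if z ∈ E.U ∧ z ∈ E.N v ∧ E.C z = none ∧
        (E.col z = none ∨ ¬ E.ok z) then (1 : ℝ) else 0 := by
      rw [sum_boole]
      congr 2
      ext z
      simp
    rw [e3]
    unfold Un
    rw [sum_filter, ← sum_add_distrib]
    refine sum_le_sum fun z _ => ?_
    have hgz : g z = if z ∈ E.U ∧ z ∈ E.N v ∧ E.C z = none then 1 else 0 := rfl
    by_cases hc : z ∈ E.U ∧ z ∈ E.N v ∧ E.C z = none ∧ (E.col z = none ∨ ¬ E.ok z)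
    · rw [if_pos hc]
      have hg1 : g z = 1 := by rw [hgz, if_pos ⟨hc.1, hc.2.1, hc.2.2.1⟩]
      rw [hg1]
      by_cases hn : E.col z = none
      · rw [if_pos hn, if_neg (fun h' => h'.1 hn), add_zero]
      · rw [if_neg hn, if_pos ⟨hn, hc.2.2.2.resolve_left hn⟩, zero_add]
    · rw [if_neg hc]
      refine add_nonneg ?_ ?_
      · split_ifs
        exacts [hg0 z, le_rfl]
      · split_ifs
        exacts [hg0 z, le_rfl]
  have e4 : 2 * E.T ^ 1554 ≤ E.T ^ 1600 / 4 := by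
    have : E.T * E.T ^ 1554 ≤ E.T ^ 1600 := by
      rw [← pow_succ']
      exact hb.pw (by norm_num)
    have h1 : 8 * E.T ^ 1554 ≤ E.T * E.T ^ 1554 :=
      mul_le_mul_of_nonneg_right (by linarith) (by positivity)
    linarith
  rw [e1]
  have c5 : ((E.q : ℝ) - E.M) / E.q * (∑ z, g z) ≤ 1 / E.T * ∑ z, g z :=
    mul_le_mul_of_nonneg_right c4 hG0
  linarith

end

end GRn

end

end Pool.Agent.AcyG
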