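import Pool.Agent.AcyG.ORunA
import Pool.Agent.AcyG.ORunB
import Pool.Agent.AcyG.ORunC
import Pool.Agent.AcyG.ONF

/-! # One stage: what is known at its end (project MP_af9dfb_G, row OR) -/

set_option autoImplicit false
set_option linter.unusedSectionVars false

namespace Pool.Agent.AcyG

open Finset
open Pool.Agent.Acy (IsPM wt Ex Pr mean)
open Pool.Agent.AcyK (Big StepOK LocOK prodLaw Un Sel updCol HasC cN)
open scoped Classical

universe u v

section

variable {V AL : Type u} [Fintype V] [DecidableEq V] [Fintype AL]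

theorem GRn.ok_of_raw {Lb : Type u} [Fintype Lb] {E : GRn V Lb AL} {Y : Tst V AL ⊕ V → ℝ}
    (h : E.Raw Y) : E.Ok where
  sm := h.sm
  good := h.good
  ra_nonneg := h.fin.ra_nonneg
  rx := GRn.raw_rx h
  rxp := GRn.raw_rxp h
  rpp := GRn.raw_rpp h
  rg := GRn.raw_rg h
  rgp := GRn.raw_rgp h
  rl i α hi := GRn.raw_rl h i α hi
  rl1 := GRn.raw_rl1 h
  rl2 := GRn.raw_rl2 h
  rlp := GRn.raw_rlp h
  rP := GRn.raw_rP h
  d0 := GRn.raw_d0 h
  d1 := GRn.raw_d1 h
  d2 := GRn.raw_d2 h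
  dg := GRn.raw_dg h
  dl := GRn.raw_dl h
  cl := GRn.raw_cl h
  sep z z' c r r' hz hz' h1 h2 hr ho := GRn.raw_sep h z z' c r r' hz hz' h1 h2 hr ho
  col_lt := h.lt
  unc := GRn.raw_unc h

/-- One stage. `X` is the auxiliary process of the D-part. -/
theorem run {Lb : Type u} [Fintype Lb] [Nonempty Lb] {E : GSm V Lb AL} (hE : E.toGSt.Ok)
    (hG : E.Good) {σ : Type v}
    (X : ℕ → (V → Option (Fin E.k × ℕ)) → (V → Prop) → (Tst V AL ⊕ V → ℝ) → σ → Prop)
    (hX : NibData.AuxLoc 42010 E.nib X) (s₀ : σ)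
    (h0 : X 0 (fun _ => none) (fun _ => False) (E.nib.Yb (NState.init V E.k)) s₀) :
    ∃ (col : V → Option (Fin E.k × ℕ)) (ok : V → Prop) (Y : Tst V AL ⊕ V → ℝ) (s : σ)
      (lab : V → V → Lb) (ra : V → V → ℝ),
      X E.M col ok Y s ∧
      GRn.Ok { E with col := col, ok := ok, lab := lab, ra := ra } := by
  obtain ⟨col, ok, Y, s, lab, ra, h1, h2⟩ := raw_run hE hG (GSm.nib_ok hE hG)
    (GSm.fire_ok hE hG) X hX s₀ h0
  exact ⟨col, ok, Y, s, lab, ra, h1, GRn.ok_of_raw h2⟩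

end

end Pool.Agent.AcyG
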