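import Pool.Agent.AcyG.ORaw
import Pool.Agent.AcyG.OPtw
import Pool.Agent.AcyG.OPrdG

/-! # Firings against realised rates (project MP_af9dfb_G, row OR1) -/

set_option autoImplicit false
set_option linter.unusedSectionVars false

namespace Pool.Agent.AcyG

open Finset
open Pool.Agent.Acy (IsPM wt Ex Pr mean)
open Pool.Agent.AcyK (Big StepOK LocOK prodLaw Un Sel updCol HasC cN)
open scoped Classical

universe u v

/-! ### Numbers -/

theorem ora_T_one {T : ℝ} (hT : Big T) : 1 ≤ T := by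
  have h := hT.big
  norm_num at h
  linarith

theorem ora_shift {T L : ℝ} (hT : Big T) (hL : 0 ≤ L) {a m n : ℕ} (h : a + m ≤ n) :
    T ^ a * (L / T ^ n) ≤ L / T ^ m := by
  have h0 := hT.pos
  have e : L / T ^ m = T ^ (n - m) * (L / T ^ n) := by
    have e1 : T ^ n = T ^ (n - m) * T ^ m := by
      rw [← pow_add]
      congr 1
      omega
    rw [e1]
    have h1 : T ^ (n - m) ≠ 0 := pow_ne_zero _ h0.ne'
    have h2 : T ^ m ≠ 0 := pow_ne_zero _ h0.ne'
    field_simp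
  rw [e]
  exact mul_le_mul_of_nonneg_right (hT.pw (by omega)) (div_nonneg hL (pow_nonneg h0.le _))

theorem ora_mono {T L : ℝ} (hT : Big T) (hL : 0 ≤ L) {m n : ℕ} (h : m ≤ n) :
    L / T ^ n ≤ L / T ^ m := by
  have := ora_shift (a := 0) hT hL (show 0 + m ≤ n by omega)
  rwa [pow_zero, one_mul] at this

theorem ora_pow {T : ℝ} (hT : Big T) {a b c : ℕ} (h : a + b ≤ c) : T ^ a ≤ T ^ c / T ^ b := by
  rw [le_div_iff₀ (pow_pos hT.pos _), ← pow_add]
  exact hT.pw h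

/-- Ten terms. -/
theorem ora_ten {T L : ℝ} (hT : Big T) (hL : 0 ≤ L) {m n : ℕ} (h : m + 1 ≤ n) :
    10 * (L / T ^ n) ≤ L / T ^ m := by
  have h1 := ora_shift (a := 1) hT hL (show 1 + m ≤ n by omega)
  refine le_trans (mul_le_mul_of_nonneg_right ?_ (div_nonneg hL (pow_nonneg hT.pos.le _))) h1
  rw [pow_one]
  have h := hT.big
  norm_num at h
  linarith

theorem ora_sqrt {T L w S : ℝ} (hT : Big T) (hL : 0 ≤ L) (hw0 : 0 ≤ w) {p a c : ℕ}
    (hw : w ≤ L / T ^ p) (hS : S ≤ L / T ^ a) (hc : 2 * c ≤ p + a) :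
    Real.sqrt (w * S) ≤ L / T ^ c := by
  have h0 := hT.pos
  have n1 : 0 ≤ L / T ^ a := div_nonneg hL (pow_nonneg h0.le _)
  have n2 : 0 ≤ L / T ^ c := div_nonneg hL (pow_nonneg h0.le _)
  rw [Real.sqrt_le_left n2]
  calc w * S ≤ w * (L / T ^ a) := mul_le_mul_of_nonneg_left hS hw0
    _ ≤ L / T ^ p * (L / T ^ a) := mul_le_mul_of_nonneg_right hw n1
    _ = L ^ 2 / T ^ (p + a) := by
        rw [div_mul_div_comm, ← pow_add, pow_two]
    _ ≤ L ^ 2 / T ^ (2 * c) := ora_mono hT (sq_nonneg L) hc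
    _ = (L / T ^ c) ^ 2 := by
        rw [div_pow, ← pow_mul, mul_comm c 2]

/-- The error of a linear test over the whole stage. -/
theorem ora_main {T L w dV tV R M : ℝ} (hT : Big T) (hL : 0 ≤ L) (hw0 : 0 ≤ w)
    {p x y z z' a c e : ℕ} (hw : w ≤ L / T ^ p) (hd : dV / R ≤ L / T ^ x)
    (ht : tV / R ^ 2 ≤ L / T ^ y) (hM0 : 0 ≤ M) (hM : M ≤ T ^ 150)
    (z1 : z + 1 ≤ y) (z2 : z + 9 ≤ x) (z3 : z + 9 ≤ p) (z4 : z' + 1 ≤ x) (z5 : z' + 6 ≤ p)
    (a1 : a + 1 ≤ z + 4126) (a2 : a + 1 ≤ z' + 3860) (hc : 2 * c ≤ p + a) (e1 : e + 311 ≤ p)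
    (e2 : e + 231 ≤ c) :
    M * (T ^ 160 * w + T ^ 80 * Real.sqrt (w * ((2 * tV / R ^ 2 + T ^ 8 * (dV / R + w)) /
      T ^ 4126 + (2 * dV / R + T ^ 5 * w) / T ^ 3860))) ≤ L / T ^ e := by
  have h0 := hT.pos
  have nn : ∀ n : ℕ, 0 ≤ L / T ^ n := fun n => div_nonneg hL (pow_nonneg h0.le _)
  have dd : ∀ m n : ℕ, L / T ^ m / T ^ n = L / T ^ (m + n) := by
    intro m n
    rw [div_div, ← pow_add]
  have t1 : 2 * tV / R ^ 2 + T ^ 8 * (dV / R + w) ≤ L / T ^ z := by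
    have b1 : T ^ 8 * (dV / R) ≤ L / T ^ (z + 1) :=
      (mul_le_mul_of_nonneg_left hd (pow_nonneg h0.le _)).trans
        (ora_shift hT hL (by omega))
    have b2 : T ^ 8 * w ≤ L / T ^ (z + 1) :=
      (mul_le_mul_of_nonneg_left hw (pow_nonneg h0.le _)).trans
        (ora_shift hT hL (by omega))
    have b3 : tV / R ^ 2 ≤ L / T ^ (z + 1) := ht.trans (ora_mono hT hL z1)
    have b4 := ora_ten (m := z) (n := z + 1) hT hL le_rfl
    have b5 := nn (z + 1)
    have b6 : 2 * tV / R ^ 2 = 2 * (tV / R ^ 2) := by ring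
    rw [b6, mul_add]
    linarith
  have t2 : 2 * dV / R + T ^ 5 * w ≤ L / T ^ z' := by
    have b1 : dV / R ≤ L / T ^ (z' + 1) := hd.trans (ora_mono hT hL z4)
    have b2 : T ^ 5 * w ≤ L / T ^ (z' + 1) :=
      (mul_le_mul_of_nonneg_left hw (pow_nonneg h0.le _)).trans
        (ora_shift hT hL (by omega))
    have b4 := ora_ten (m := z') (n := z' + 1) hT hL le_rfl
    have b5 := nn (z' + 1)
    have b6 : 2 * dV / R = 2 * (dV / R) := by ring
    rw [b6]
    linarith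
  have t3 : (2 * tV / R ^ 2 + T ^ 8 * (dV / R + w)) / T ^ 4126 +
      (2 * dV / R + T ^ 5 * w) / T ^ 3860 ≤ L / T ^ a := by
    have b1 := div_le_div_of_nonneg_right t1 (pow_nonneg h0.le 4126)
    have b2 := div_le_div_of_nonneg_right t2 (pow_nonneg h0.le 3860)
    rw [dd] at b1 b2
    have b3 := ora_mono hT hL a1
    have b4 := ora_mono hT hL a2
    have b5 := ora_ten (m := a) (n := a + 1) hT hL le_rfl
    have b6 := nn (a + 1)
    linarith
  have t4 := ora_sqrt hT hL hw0 hw t3 hc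
  have t5 : M * (T ^ 160 * w) ≤ L / T ^ (e + 1) := by
    calc M * (T ^ 160 * w) ≤ T ^ 150 * (T ^ 160 * w) :=
          mul_le_mul_of_nonneg_right hM (mul_nonneg (pow_nonneg h0.le _) hw0)
      _ ≤ T ^ 150 * (T ^ 160 * (L / T ^ p)) :=
          mul_le_mul_of_nonneg_left (mul_le_mul_of_nonneg_left hw (pow_nonneg h0.le _))
            (pow_nonneg h0.le _)
      _ = T ^ 310 * (L / T ^ p) := by rw [← mul_assoc, ← pow_add]
      _ ≤ _ := ora_shift hT hL (by omega)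
  have t6 : M * (T ^ 80 * Real.sqrt (w * ((2 * tV / R ^ 2 + T ^ 8 * (dV / R + w)) /
      T ^ 4126 + (2 * dV / R + T ^ 5 * w) / T ^ 3860))) ≤ L / T ^ (e + 1) := by
    calc _ ≤ T ^ 150 * (T ^ 80 * Real.sqrt (w * ((2 * tV / R ^ 2 + T ^ 8 * (dV / R + w)) /
      T ^ 4126 + (2 * dV / R + T ^ 5 * w) / T ^ 3860))) :=
          mul_le_mul_of_nonneg_right hM (mul_nonneg (pow_nonneg h0.le _) (Real.sqrt_nonneg _))
      _ ≤ T ^ 150 * (T ^ 80 * (L / T ^ c)) :=
          mul_le_mul_of_nonneg_left (mul_le_mul_of_nonneg_left t4 (pow_nonneg h0.le _))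
            (pow_nonneg h0.le _)
      _ = T ^ 230 * (L / T ^ c) := by rw [← mul_assoc, ← pow_add]
      _ ≤ _ := ora_shift hT hL (by omega)
  have t7 := ora_ten (m := e) (n := e + 1) hT hL le_rfl
  have t8 := nn (e + 1)
  rw [mul_add]
  linarith

section

variable {V AL : Type u} [Fintype V] [DecidableEq V] [Fintype AL]

namespace GRn

variable {Lb : Type u} [Fintype Lb] {E : GRn V Lb AL} {Y : Tst V AL ⊕ V → ℝ}
  (h : E.Raw Y)
include h

theorem raw_G1 (i : Tst V AL) : |E.G1 (E.W i) - E.Cr (E.W i)| ≤ E.M * E.fire.eW i := by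
  have h1 := h.fin.lin i
  have e1 : Fire.S1 E.col E.lab (E.fire.W i) = E.G1 (E.W i) := by
    unfold Fire.S1 G1
    refine sum_congr rfl fun z _ => sum_congr rfl fun z' _ => ?_
    show (if Fire.fired E.col z z' then
      (if z ∈ E.U ∧ z' ∈ E.U then E.W i z z' (E.lab z z') else 0) else 0) = _
    unfold fr
    by_cases h2 : Fire.fired E.col z z'
    · by_cases h3 : z ∈ E.U ∧ z' ∈ E.U
      · rw [if_pos h2, if_pos h3, if_pos ⟨h3.1, h3.2, h2⟩]
      · rw [if_pos h2, if_neg h3, if_neg fun h4 => h3 ⟨h4.1, h4.2.1⟩]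
    · rw [if_neg h2, if_neg fun h4 => h2 h4.2.2]
  have e2 : E.fire.C1r E.ra (E.fire.W i) = E.Cr (E.W i) := by
    unfold Fire.C1r Cr GSt.mn
    refine sum_congr rfl fun z _ => sum_congr rfl fun z' _ => ?_
    show E.ra z z' * ∑ l, E.μ z z' l * (if z ∈ E.U ∧ z' ∈ E.U then E.W i z z' l else 0) =
      if z ∈ E.U ∧ z' ∈ E.U then E.ra z z' * ∑ l, E.μ z z' l * E.W i z z' l else 0
    by_cases h3 : z ∈ E.U ∧ z' ∈ E.U
    · simp only [if_pos h3]
    · simp only [if_neg h3, mul_zero, sum_const_zero]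
  have e3 : |Fire.S1 E.col E.lab (E.fire.W i) - E.fire.C1r E.ra (E.fire.W i)| ≤
      E.M * E.fire.eW i := h1
  rw [e1, e2] at e3
  exact e3

/-- The error in terms of the table. -/
theorem ora_test (i : Tst V AL) {L : ℝ} (hL : 0 ≤ L)
    {p x y z z' a c e : ℕ} (hw : E.wm i ≤ L / E.T ^ p) (hd : E.dV i / E.R ≤ L / E.T ^ x)
    (ht : E.tV i / E.R ^ 2 ≤ L / E.T ^ y)
    (z1 : z + 1 ≤ y) (z2 : z + 9 ≤ x) (z3 : z + 9 ≤ p) (z4 : z' + 1 ≤ x) (z5 : z' + 6 ≤ p)
    (a1 : a + 1 ≤ z + 4126) (a2 : a + 1 ≤ z' + 3860) (hc : 2 * c ≤ p + a) (e1 : e + 311 ≤ p)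
    (e2 : e + 231 ≤ c) : |E.G1 (E.W i) - E.Cr (E.W i)| ≤ L / E.T ^ e := by
  refine (raw_G1 h i).trans ?_
  have hM : (E.M : ℝ) ≤ E.T ^ 150 := by
    have h1 := h.sm.dat.M_le
    have h2 := h.sm.dat.q_hi
    have h3 : 0 < E.T ^ 133 := pow_pos (GData.os_T_pos h.sm.dat) _
    linarith
  exact ora_main h.sm.dat.big hL (h.fok.wm_pos i).le hw hd ht (Nat.cast_nonneg _) hM z1 z2 z3 z4
    z5 a1 a2 hc e1 e2

omit h in
theorem ora_R (hD : E.toGSm.toGSt.toGData.Ok) : E.n1 ^ 2 / E.R ^ 2 = (E.k : ℝ) ^ 2 := by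
  have hR := GData.os_R_pos hD
  show (E.R * E.k) ^ 2 / E.R ^ 2 = _
  rw [mul_pow, mul_div_assoc, mul_comm, div_mul_cancel₀ _ (pow_ne_zero 2 hR.ne')]

/-- Tests with `wm = T ^ 2403`, `dV = T ^ 7220`, `tV <= T ^ 2 n1 ^ 2`. -/
theorem ora_xg (i : Tst V AL) (hw : E.wm i = E.T ^ 2403) (hd : E.dV i = E.T ^ 7220)
    (ht : E.tV i ≤ E.T ^ 2 * E.n1 ^ 2) : |E.G1 (E.W i) - E.Cr (E.W i)| ≤ E.T ^ 3400 := by
  have hD := h.sm.dat
  have hT := hD.big
  have h0 := hT.pos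
  have hR := GData.os_R_pos hD
  have hk := GData.os_k_pos hD
  have h1 : |E.G1 (E.W i) - E.Cr (E.W i)| ≤ E.T ^ 10000 / E.T ^ 6600 := by
    refine ora_test h i (L := E.T ^ 10000) (p := 7597) (x := 3579) (y := 1998) (z := 1997)
      (z' := 3578) (a := 6122) (c := 6859) (e := 6600) (pow_nonneg h0.le _) ?_ ?_ ?_
      (by norm_num) (by norm_num) (by norm_num) (by norm_num) (by norm_num) (by norm_num)
      (by norm_num) (by norm_num) (by norm_num) (by norm_num)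
    · rw [hw]
      exact ora_pow hT (by norm_num)
    · rw [hd]
      refine le_trans ?_ (ora_pow hT (show 6421 + 3579 ≤ 10000 by norm_num))
      rw [div_le_iff₀ hR]
      calc E.T ^ 7220 = E.T ^ 6421 * E.T ^ 799 := by rw [← pow_add]
        _ ≤ E.T ^ 6421 * E.R := mul_le_mul_of_nonneg_left hD.R_lo (pow_nonneg h0.le _)
    · refine le_trans ?_ (ora_pow hT (show 8002 + 1998 ≤ 10000 by norm_num))
      calc E.tV i / E.R ^ 2 ≤ E.T ^ 2 * E.n1 ^ 2 / E.R ^ 2 :=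
            div_le_div_of_nonneg_right ht (sq_nonneg _)
        _ = E.T ^ 2 * (E.k : ℝ) ^ 2 := by rw [mul_div_assoc, ora_R hD]
        _ ≤ E.T ^ 2 * (E.T ^ 4000) ^ 2 :=
            mul_le_mul_of_nonneg_left (pow_le_pow_left₀ hk.le hD.k_hi 2) (pow_nonneg h0.le _)
        _ = E.T ^ 8002 := by rw [← pow_mul, ← pow_add]
  refine h1.trans (le_of_eq ?_)
  rw [div_eq_iff (pow_ne_zero _ h0.ne'), ← pow_add]

theorem raw_rx (i : Fin 8) (x : V) : |E.G1 (E.Wx i x) - E.Cr (E.Wx i x)| ≤ E.k / E.T ^ 4 := by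
  have hD := h.sm.dat
  have hT := hD.big
  have h0 := hT.pos
  have hT1 := ora_T_one hT
  have h1 := ora_xg h (Sum.inl (ULift.up i, x)) rfl rfl (by
    show E.T * E.n1 ^ 2 ≤ E.T ^ 2 * E.n1 ^ 2
    refine mul_le_mul_of_nonneg_right ?_ (sq_nonneg _)
    nlinarith)
  have h2 : |E.G1 (E.Wx i x) - E.Cr (E.Wx i x)| ≤ E.T ^ 3400 := h1
  refine h2.trans ?_
  rw [le_div_iff₀ (pow_pos h0 _), ← pow_add]
  exact (hT.pw (by norm_num)).trans hD.k_lo

theorem raw_rg (i : Fin 2) (y y' : V) :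
    |E.G1 (E.Wg i y y') - E.Cr (E.Wg i y y')| ≤ E.T ^ 3400 := by
  have hD := h.sm.dat
  have hT := hD.big
  have h0 := hT.pos
  have hT1 := ora_T_one hT
  have hR := GData.os_R_pos hD
  have hn := GData.os_n1_pos hD
  have h1 := ora_xg h (Sum.inr (Sum.inr (Sum.inl (ULift.up i, y, y')))) rfl rfl (by
    show (if i = 0 then E.T * E.n1 ^ 2 else E.T * (E.n1 * E.R) * E.gbI y y') ≤
      E.T ^ 2 * E.n1 ^ 2
    split_ifs
    · refine mul_le_mul_of_nonneg_right ?_ (sq_nonneg _)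
      nlinarith
    · have h2 : E.gbI y y' ≤ E.T * E.n1 / E.R :=
        div_le_div_of_nonneg_right (GSt.prd_g1 h.sm y y') hR.le
      calc E.T * (E.n1 * E.R) * E.gbI y y' ≤ E.T * (E.n1 * E.R) * (E.T * E.n1 / E.R) :=
            mul_le_mul_of_nonneg_left h2 (by positivity)
        _ = E.T ^ 2 * E.n1 ^ 2 := by
            field_simp)
  exact h1

theorem raw_rl (i : Fin 3) (α : AL) (hi : i ≠ 2) :
    |E.G1 (E.Wl i α) - E.Cr (E.Wl i α)| ≤ E.La α / E.T ^ 930 := by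
  have hD := h.sm.dat
  have hT := hD.big
  have h0 := hT.pos
  have hT1 := ora_T_one hT
  have hR := GData.os_R_pos hD
  have hk := GData.os_k_pos hD
  have hn := GData.os_n1_pos hD
  have hs1 := hD.s1_pos α
  have hLa : 0 ≤ E.La α := le_trans (mul_nonneg (pow_nonneg h0.le _) hs1.le) (hD.num1 α)
  have h1 : |E.G1 (E.W (Sum.inr (Sum.inr (Sum.inr (ULift.up i, α))))) -
      E.Cr (E.W (Sum.inr (Sum.inr (Sum.inr (ULift.up i, α)))))| ≤
      E.La α * E.T ^ 10000 / E.T ^ 10930 := by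
    refine ora_test h _ (L := E.La α * E.T ^ 10000) (p := 11499) (x := 8395) (y := 6798)
      (z := 6797) (z' := 8394) (a := 10922) (c := 11210) (e := 10930)
      (mul_nonneg hLa (pow_nonneg h0.le _)) ?_ ?_ ?_
      (by norm_num) (by norm_num) (by norm_num) (by norm_num) (by norm_num) (by norm_num)
      (by norm_num) (by norm_num) (by norm_num) (by norm_num)
    · show (if i = 2 then E.s0 α else E.T * E.s1 α) ≤ _
      rw [if_neg hi, le_div_iff₀ (pow_pos h0 _)]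
      calc E.T * E.s1 α * E.T ^ 11499 = E.T ^ 1500 * E.s1 α * E.T ^ 10000 := by
            rw [show E.T * E.s1 α * E.T ^ 11499 = E.s1 α * (E.T * E.T ^ 11499) by ring,
              ← pow_succ', mul_comm (E.T ^ 1500), mul_assoc, ← pow_add]
        _ ≤ E.La α * E.T ^ 10000 :=
            mul_le_mul_of_nonneg_right (hD.num1 α) (pow_nonneg h0.le _)
    · show (if i = 2 then E.ar α else E.T ^ 2404 * E.La α) / E.R ≤ _
      rw [if_neg hi, div_le_div_iff₀ hR (pow_pos h0 _)]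
      calc E.T ^ 2404 * E.La α * E.T ^ 8395 = E.La α * E.T ^ 10000 * E.T ^ 799 := by
            rw [mul_comm (E.T ^ 2404), mul_assoc, mul_assoc, ← pow_add, ← pow_add]
        _ ≤ E.La α * E.T ^ 10000 * E.R :=
            mul_le_mul_of_nonneg_left hD.R_lo (mul_nonneg hLa (pow_nonneg h0.le _))
    · show (if i = 2 then 4 * E.T * E.La α else E.T * E.n1 * E.La α) / E.R ^ 2 ≤ _
      rw [if_neg hi, div_le_div_iff₀ (pow_pos hR _) (pow_pos h0 _)]
      calc E.T * E.n1 * E.La α * E.T ^ 6798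
          = E.La α * E.k * E.R * (E.T * E.T ^ 6798) := by
            show E.T * (E.R * E.k) * E.La α * E.T ^ 6798 = _
            ring
        _ ≤ E.La α * E.T ^ 4000 * E.R * (E.T * E.T ^ 6798) := by
            refine mul_le_mul_of_nonneg_right (mul_le_mul_of_nonneg_right
              (mul_le_mul_of_nonneg_left hD.k_hi hLa) hR.le) ?_
            exact mul_nonneg h0.le (pow_nonneg h0.le _)
        _ = E.La α * E.T ^ 10000 * E.R * E.T ^ 799 := by
            have e : E.T ^ 4000 * (E.T * E.T ^ 6798) = E.T ^ 10000 * E.T ^ 799 := by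
              rw [← pow_succ', ← pow_add, ← pow_add]
            calc _ = E.La α * E.R * (E.T ^ 4000 * (E.T * E.T ^ 6798)) := by ring
              _ = _ := by rw [e]; ring
        _ ≤ E.La α * E.T ^ 10000 * E.R * E.R :=
            mul_le_mul_of_nonneg_left hD.R_lo (mul_nonneg (mul_nonneg hLa
              (pow_nonneg h0.le _)) hR.le)
        _ = E.La α * E.T ^ 10000 * E.R ^ 2 := by ring
  refine le_trans (le_of_eq rfl) (h1.trans (le_of_eq ?_))
  rw [div_eq_div_iff (pow_ne_zero _ h0.ne') (pow_ne_zero _ h0.ne'), mul_assoc, ← pow_add]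

theorem raw_rl2 (α : AL) :
    |E.G1 (E.Wl 2 α) - E.Cr (E.Wl 2 α)| ≤ E.La α / (E.n1 * E.R * E.T ^ 5) := by
  have hD := h.sm.dat
  have hT := hD.big
  have h0 := hT.pos
  have hT6 := GData.os_T_ge hD
  have hR := GData.os_R_pos hD
  have hk := GData.os_k_pos hD
  have hn := GData.os_n1_pos hD
  have hs0 := hD.s0_pos α
  have hLa : 0 ≤ E.La α := le_trans (mul_nonneg (pow_nonneg h0.le _) hs0.le) (hD.num0 α)
  have h1 : |E.G1 (E.W (Sum.inr (Sum.inr (Sum.inr (ULift.up 2, α))))) -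
      E.Cr (E.W (Sum.inr (Sum.inr (Sum.inr (ULift.up 2, α)))))| ≤ E.La α / E.T ^ 5610 := by
    refine ora_test h _ (L := E.La α) (p := 5970) (x := 2068) (y := 1596) (z := 1595)
      (z' := 2067) (a := 5720) (c := 5845) (e := 5610) hLa ?_ ?_ ?_
      (by norm_num) (by norm_num) (by norm_num) (by norm_num) (by norm_num) (by norm_num)
      (by norm_num) (by norm_num) (by norm_num) (by norm_num)
    · show (if (2 : Fin 3) = 2 then E.s0 α else E.T * E.s1 α) ≤ _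
      rw [if_pos rfl, le_div_iff₀ (pow_pos h0 _), mul_comm]
      exact hD.num0 α
    · show (if (2 : Fin 3) = 2 then E.ar α else E.T ^ 2404 * E.La α) / E.R ≤ _
      rw [if_pos rfl]
      have h2 := hD.num2 α
      have h3 : 0 ≤ E.ar α * E.R ∨ E.ar α * E.R < 0 := le_or_gt _ _
      have h4 : E.ar α / E.R = E.ar α * E.R / E.R ^ 2 := by
        field_simp
      rw [h4]
      rcases h3 with h3 | h3
      · rw [div_le_div_iff₀ (pow_pos hR _) (pow_pos h0 _)]
        have h5 : (E.T ^ 799) ^ 2 ≤ E.R ^ 2 := pow_le_pow_left₀ (pow_nonneg h0.le _) hD.R_lo 2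
        calc E.ar α * E.R * E.T ^ 2068 = E.T ^ 470 * (E.ar α * E.R) * (E.T ^ 799) ^ 2 := by
              rw [← pow_mul, mul_comm (E.T ^ 470), mul_assoc (E.ar α * E.R), ← pow_add]
          _ ≤ E.La α * E.R ^ 2 := mul_le_mul h2 h5 (sq_nonneg _) hLa
      · refine le_trans (div_nonpos_of_nonpos_of_nonneg h3.le (sq_nonneg _))
          (div_nonneg hLa (pow_nonneg h0.le _))
    · show (if (2 : Fin 3) = 2 then 4 * E.T * E.La α else E.T * E.n1 * E.La α) / E.R ^ 2 ≤ _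
      rw [if_pos rfl, div_le_div_iff₀ (pow_pos hR _) (pow_pos h0 _)]
      have h5 : (E.T ^ 799) ^ 2 ≤ E.R ^ 2 := pow_le_pow_left₀ (pow_nonneg h0.le _) hD.R_lo 2
      have h6 : 4 * E.T ≤ E.T ^ 2 := by nlinarith
      calc 4 * E.T * E.La α * E.T ^ 1596 ≤ E.T ^ 2 * E.La α * E.T ^ 1596 :=
            mul_le_mul_of_nonneg_right (mul_le_mul_of_nonneg_right h6 hLa)
              (pow_nonneg h0.le _)
        _ = E.La α * (E.T ^ 799) ^ 2 := by
            rw [mul_comm (E.T ^ 2), mul_assoc, ← pow_add, ← pow_mul]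
        _ ≤ E.La α * E.R ^ 2 := mul_le_mul_of_nonneg_left h5 hLa
  refine le_trans (le_of_eq rfl) (h1.trans ?_)
  refine div_le_div_of_nonneg_left hLa (mul_pos (mul_pos hn hR) (pow_pos h0 _)) ?_
  calc E.n1 * E.R * E.T ^ 5 ≤ E.T ^ 4801 * E.T ^ 801 * E.T ^ 5 :=
        mul_le_mul_of_nonneg_right (mul_le_mul (GData.os_n1_hi hD) hD.R_hi hR.le
          (pow_nonneg h0.le _)) (pow_nonneg h0.le _)
    _ = E.T ^ 5607 := by rw [← pow_add, ← pow_add]
    _ ≤ E.T ^ 5610 := hT.pw (by norm_num)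

end GRn

end

end Pool.Agent.AcyG
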