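import Pool.Agent.AcyG.Quad
import Pool.Agent.AcyK.Tools

/-! # Linear and quadratic tests of independent variables in one step; sampling

`step_lin` and `step_quad`: all linear and all quadratic tests of one random step are close to
their predictions, as a goal of the local lemma.  `sample`: a subset of density `1 / R` which is
typical for all linear and all (signed) quadratic tests. -/

set_option autoImplicit false
set_option linter.unusedSectionVars false

namespace Pool.Agent.AcyG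

open Finset
open Pool.Agent.Acy (IsPM wt Ex Pr mean Pr_mono)
open Pool.Agent.AcyK (Big StepOK)
open scoped Classical

universe u v

section step

variable {Q : Type u} [Fintype Q] [DecidableEq Q] {α : Type*} [Fintype α]
  {ι : Type u} [Fintype ι]

theorem Pr_false {μ : Q → α → ℝ} {E : (Q → α) → Prop} (hE : ∀ ω, ¬ E ω) : Pr μ E = 0 := by
  unfold Pr Ex
  refine Finset.sum_eq_zero fun ω _ => ?_
  show wt μ ω * (if E ω then (1:ℝ) else 0) = 0
  rw [if_neg (hE ω), mul_zero]

theorem big_six {T : ℝ} (hT : Big T) : (1000000:ℝ) ≤ T := by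
  have := hT.big
  norm_num at this
  exact this

/-- All linear tests of one step are close to their predictions. -/
theorem step_lin {T : ℝ} (hT : Big T) {μ : Q → α → ℝ} (h : IsPM μ) {Y : Q → α → ℝ}
    (hY0 : ∀ z a, 0 ≤ Y z a) (hY1 : ∀ z a, Y z a ≤ 1) {p : ℝ} (hp0 : 0 ≤ p)
    (hp : ∀ z, mean μ Y z ≤ p) (g : ι → Q → ℝ) (gm gs : ι → ℝ) (hgm : ∀ i, 0 ≤ gm i)
    (hg : ∀ i z, |g i z| ≤ gm i) (hgs : ∀ i, ∑ z, |g i z| ≤ gs i)
    (hsupp : ∀ i, ((univ.filter fun z => g i z ≠ 0).card : ℝ) ≤ T ^ 60000)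
    (hdeg : ∀ z, ((univ.filter fun i => g i z ≠ 0).card : ℝ) ≤ T ^ 60000) :
    StepOK T μ (fun ω => ∀ i, |∑ z, (Y z (ω z) - mean μ Y z) * g i z| ≤
      T ^ 2 * gm i + T ^ 2 * Real.sqrt (p * (gm i * gs i))) := by
  have hT0 := hT.pos
  have hT6 := big_six hT
  refine ⟨ι, inferInstance, fun i ω => T ^ 2 * gm i + T ^ 2 * Real.sqrt (p * (gm i * gs i)) <
    |∑ z, (Y z (ω z) - mean μ Y z) * g i z|, fun i => univ.filter fun z => g i z ≠ 0, ?_, ?_,
    hsupp, ?_, ?_⟩
  · intro i ω ω' hω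
    have e : ∑ z, (Y z (ω z) - mean μ Y z) * g i z = ∑ z, (Y z (ω' z) - mean μ Y z) * g i z := by
      refine Finset.sum_congr rfl fun z _ => ?_
      by_cases hz : g i z = 0
      · rw [hz, mul_zero, mul_zero]
      · rw [hω z (by simpa using hz)]
    show (_ < _) = (_ < _)
    rw [e]
  · intro i
    rcases (hgm i).eq_or_lt with h0 | hgm'
    · have h1 : ∀ ω : Q → α, ¬ (T ^ 2 * gm i + T ^ 2 * Real.sqrt (p * (gm i * gs i)) <
          |∑ z, (Y z (ω z) - mean μ Y z) * g i z|) := by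
        intro ω
        have h2 : ∑ z, (Y z (ω z) - mean μ Y z) * g i z = 0 :=
          Finset.sum_eq_zero fun z _ => by
            have h3 := hg i z
            rw [← h0] at h3
            rw [abs_eq_zero.1 (le_antisymm h3 (abs_nonneg _)), mul_zero]
        rw [h2, abs_zero, not_lt]
        have := hgm i
        positivity
      rw [Pr_false h1]
      exact (Real.exp_pos _).le
    · have key := bern_lin h hY0 hY1 hp0 hp (g i) hgm' (hg i) (hgs i)
        (show 0 < 2 * T by linarith)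
      have hgs0 : 0 ≤ gs i := (Finset.sum_nonneg fun z _ => abs_nonneg _).trans (hgs i)
      have h2 : 4 * (2 * T) * gm i + 2 * Real.sqrt (2 * T * (p * gm i * gs i)) ≤
          T ^ 2 * gm i + T ^ 2 * Real.sqrt (p * (gm i * gs i)) := by
        have h3 : 4 * (2 * T) ≤ T ^ 2 := by nlinarith
        have h4 : Real.sqrt (2 * T * (p * gm i * gs i)) ≤ T * Real.sqrt (p * (gm i * gs i)) := by
          have e1 : T * Real.sqrt (p * (gm i * gs i)) =
              Real.sqrt (T ^ 2 * (p * (gm i * gs i))) := by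
            rw [Real.sqrt_mul (sq_nonneg T), Real.sqrt_sq hT0.le]
          rw [e1]
          refine Real.sqrt_le_sqrt ?_
          have h5 : 2 * T ≤ T ^ 2 := by nlinarith
          have h6 : 0 ≤ p * gm i * gs i := by positivity
          calc 2 * T * (p * gm i * gs i) ≤ T ^ 2 * (p * gm i * gs i) :=
                mul_le_mul_of_nonneg_right h5 h6
            _ = _ := by ring
        have h7 : 0 ≤ Real.sqrt (p * (gm i * gs i)) := Real.sqrt_nonneg _
        have h8 : 2 * T ≤ T ^ 2 := by nlinarith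
        have h9 : 2 * (T * Real.sqrt (p * (gm i * gs i))) ≤
            T ^ 2 * Real.sqrt (p * (gm i * gs i)) := by
          rw [← mul_assoc]
          exact mul_le_mul_of_nonneg_right h8 h7
        have h10 := mul_le_mul_of_nonneg_right h3 hgm'.le
        linarith
      have h3 : Pr μ (fun ω => T ^ 2 * gm i + T ^ 2 * Real.sqrt (p * (gm i * gs i)) <
          |∑ z, (Y z (ω z) - mean μ Y z) * g i z|) ≤ 2 * Real.exp (-(2 * T)) :=
        (Pr_mono h fun ω hω => (h2.trans hω.le)).trans key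
      refine h3.trans ?_
      have e1 : -(2 * T) = -T + -T := by ring
      rw [e1, Real.exp_add]
      have h4 : Real.exp (-T) ≤ 1 / 2 := by
        have h5 : Real.exp T * Real.exp (-T) = 1 := by rw [← Real.exp_add]; simp
        have h6 : 2 ≤ Real.exp T := by
          have := Real.add_one_le_exp T
          linarith
        have h7 := Real.exp_pos (-T)
        nlinarith
      have h7 := Real.exp_pos (-T)
      nlinarith
  · intro z
    have : (univ.filter fun i => z ∈ univ.filter fun z => g i z ≠ 0) =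
        univ.filter fun i => g i z ≠ 0 := by
      ext i
      simp
    rw [this]
    exact hdeg z
  · intro ω hω i
    exact not_lt.1 (hω i)

/-- The vertices which occur in a kernel. -/
noncomputable def qsupp (w : Q → Q → ℝ) : Finset Q :=
  univ.filter fun z => ∃ z', w z z' ≠ 0 ∨ w z' z ≠ 0

/-- All quadratic tests of one step are close to their predictions. -/
theorem step_quad {T : ℝ} (hT : Big T) {μ : Q → α → ℝ} (h : IsPM μ) {Y : Q → α → ℝ}
    (hY0 : ∀ z a, 0 ≤ Y z a) (hY1 : ∀ z a, Y z a ≤ 1) {p : ℝ} (hp0 : 0 < p)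
    (hp : ∀ z, mean μ Y z ≤ p) (w : ι → Q → Q → ℝ) (wm dd tot : ι → ℝ) (hwm : ∀ i, 0 ≤ wm i)
    (hdd : ∀ i, 0 ≤ dd i) (hdiag : ∀ i z, w i z z = 0) (hw : ∀ i z z', |w i z z'| ≤ wm i)
    (hd : ∀ i z, ∑ z', |w i z z'| ≤ dd i) (hd' : ∀ i z', ∑ z, |w i z z'| ≤ dd i)
    (htot : ∀ i, ∑ z, ∑ z', |w i z z'| ≤ tot i)
    (hsupp : ∀ i, ((qsupp (w i)).card : ℝ) ≤ T ^ 60000)
    (hdeg : ∀ z, ((univ.filter fun i => z ∈ qsupp (w i)).card : ℝ) ≤ T ^ 60000) :
    StepOK T μ (fun ω => ∀ i, |∑ z, ∑ z', w i z z' * (Y z (ω z) * Y z' (ω z')) -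
        ∑ z, ∑ z', w i z z' * (mean μ Y z * mean μ Y z')| ≤
      T ^ 3 * ((p * dd i + wm i) + Real.sqrt (p * (p * dd i + wm i) * (p * tot i + dd i)))) := by
  have hT0 := hT.pos
  have hT6 := big_six hT
  have hzero : ∀ i z z', z ∉ qsupp (w i) ∨ z' ∉ qsupp (w i) → w i z z' = 0 := by
    intro i z z' hz
    by_contra hne
    rcases hz with hz | hz
    · exact hz (by simp only [qsupp, mem_filter, mem_univ, true_and]; exact ⟨z', .inl hne⟩)
    · exact hz (by simp only [qsupp, mem_filter, mem_univ, true_and]; exact ⟨z, .inr hne⟩)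
  have htot0 : ∀ i, 0 ≤ tot i := fun i =>
    (Finset.sum_nonneg fun z _ => Finset.sum_nonneg fun z' _ => abs_nonneg _).trans (htot i)
  refine ⟨ι, inferInstance, fun i ω =>
    T ^ 3 * ((p * dd i + wm i) + Real.sqrt (p * (p * dd i + wm i) * (p * tot i + dd i))) <
    |QF Y (w i) ω - EF Y (w i) μ|, fun i => qsupp (w i), ?_, ?_, hsupp, hdeg, ?_⟩
  · intro i ω ω' hω
    have e : QF Y (w i) ω = QF Y (w i) ω' := by
      unfold QF
      refine Finset.sum_congr rfl fun z _ => Finset.sum_congr rfl fun z' _ => ?_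
      by_cases hz : z ∈ qsupp (w i)
      · by_cases hz' : z' ∈ qsupp (w i)
        · rw [hω z (by exact_mod_cast hz), hω z' (by exact_mod_cast hz')]
        · rw [hzero i z z' (.inr hz'), zero_mul, zero_mul]
      · rw [hzero i z z' (.inl hz), zero_mul, zero_mul]
    show (_ < _) = (_ < _)
    rw [e]
  · intro i
    by_cases h0 : ∀ z z', w i z z' = 0
    · have h1 : ∀ ω : Q → α, ¬ (T ^ 3 * ((p * dd i + wm i) +
          Real.sqrt (p * (p * dd i + wm i) * (p * tot i + dd i))) <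
          |QF Y (w i) ω - EF Y (w i) μ|) := by
        intro ω
        have h2 : QF Y (w i) ω - EF Y (w i) μ = 0 := by
          unfold QF EF
          rw [Finset.sum_eq_zero fun z _ => Finset.sum_eq_zero fun z' _ => by
              rw [h0 z z', zero_mul],
            Finset.sum_eq_zero fun z _ => Finset.sum_eq_zero fun z' _ => by
              rw [h0 z z', zero_mul], sub_zero]
        rw [h2, abs_zero, not_lt]
        have := hwm i
        have := hdd i
        positivity
      rw [Pr_false h1]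
      exact (Real.exp_pos _).le
    · push Not at h0
      obtain ⟨z0, z1, hz0⟩ := h0
      have hwm' : 0 < wm i := lt_of_lt_of_le (abs_pos.2 hz0) (hw i z0 z1)
      have hdd' : 0 < dd i := by
        refine lt_of_lt_of_le (abs_pos.2 hz0) (le_trans ?_ (hd i z0))
        exact Finset.single_le_sum (f := fun z' => |w i z0 z'|) (fun z' _ => abs_nonneg _)
          (mem_univ z1)
      set S0 := qsupp (w i) with hS0
      have hc : ((S0.card : ℕ) : ℝ) ≤ T ^ 60000 := hsupp i
      have hTT : ∑ z, ∑ z', |w i z z'| ≤ wm i * Real.exp T := by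
        have h1 : ∀ z, ∑ z', |w i z z'| ≤ if z ∈ S0 then (S0.card : ℝ) * wm i else 0 := by
          intro z
          split_ifs with hz
          · have h2 : ∑ z', |w i z z'| = ∑ z' ∈ S0, |w i z z'| := by
              symm
              refine Finset.sum_subset (Finset.subset_univ _) fun z' _ hz' => ?_
              rw [hzero i z z' (.inr hz'), abs_zero]
            rw [h2, ← nsmul_eq_mul]
            exact Finset.sum_le_card_nsmul _ _ _ fun z' _ => hw i z z'
          · refine (Finset.sum_eq_zero fun z' _ => ?_).le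
            rw [hzero i z z' (.inl hz), abs_zero]
        calc ∑ z, ∑ z', |w i z z'| ≤ ∑ z, if z ∈ S0 then (S0.card : ℝ) * wm i else 0 :=
              Finset.sum_le_sum fun z _ => h1 z
          _ = (S0.card : ℝ) * ((S0.card : ℝ) * wm i) := by
              rw [← Finset.sum_filter, Finset.sum_const, nsmul_eq_mul]
              congr 2
              congr 1
              ext z
              simp
          _ ≤ T ^ 60000 * (T ^ 60000 * wm i) :=
              mul_le_mul hc (mul_le_mul_of_nonneg_right hc hwm'.le) (by positivity)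
                (by positivity)
          _ = wm i * T ^ 120000 := by
              rw [show (120000 : ℕ) = 60000 + 60000 from rfl, pow_add]
              ring
          _ ≤ wm i * T ^ 200000 := mul_le_mul_of_nonneg_left (hT.pw (by norm_num)) hwm'.le
          _ ≤ wm i * Real.exp T := mul_le_mul_of_nonneg_left hT.exp hwm'.le
      have hcc : (2 * (S0.card : ℝ) + 6) ≤ Real.exp T := by
        have h1 : (1:ℝ) ≤ T ^ 60000 := one_le_pow₀ hT.one_le
        calc (2 * (S0.card : ℝ) + 6) ≤ 8 * T ^ 60000 := by linarith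
          _ ≤ T * T ^ 60000 := mul_le_mul_of_nonneg_right (by linarith) (by positivity)
          _ = T ^ 60001 := by rw [pow_succ]; ring
          _ ≤ T ^ 200000 := hT.pw (by norm_num)
          _ ≤ Real.exp T := hT.exp
      have key := quad_tail' h hY0 hY1 hp0 hp (hdiag i) hwm' (hw i) hdd' (hd i) (hd' i)
        le_rfl S0 (fun z z' hz => hzero i z z' (.inl hz)) hT6 hcc hTT
      refine (Pr_mono h fun ω hω => lt_of_le_of_lt ?_ hω).trans key
      refine mul_le_mul_of_nonneg_left (add_le_add le_rfl (Real.sqrt_le_sqrt ?_)) (by positivity)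
      refine mul_le_mul_of_nonneg_left ?_ (by positivity)
      have := mul_le_mul_of_nonneg_left (htot i) hp0.le
      linarith
  · intro ω hω i
    exact not_lt.1 (hω i)

end step

section samp

variable {V : Type u} [Fintype V] [DecidableEq V]

/-- The law of a random subset of density `1 / R`. -/
noncomputable def sampLaw (V : Type u) (R : ℝ) : V → Bool → ℝ :=
  fun _ e => if e = true then 1 / R else 1 - 1 / R

/-- The random subset. -/
def sampSet (ω : V → Bool) : Finset V := univ.filter fun z => ω z = true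

/-- The indicator of a pick. -/
def ind01 : V → Bool → ℝ := fun _ e => if e = true then 1 else 0

theorem sampLaw_isPM {R : ℝ} (hR : 1 ≤ R) : IsPM (sampLaw V R) := by
  have h0 : 0 < R := by linarith
  have h1 : 1 / R ≤ 1 := by
    rw [div_le_one h0]
    exact hR
  refine ⟨fun i a => ?_, fun i => ?_⟩
  · unfold sampLaw
    split_ifs
    · positivity
    · linarith
  · unfold sampLaw
    rw [Fintype.sum_bool]
    simp

theorem mean_ind01 (R : ℝ) (z : V) : mean (sampLaw V R) ind01 z = 1 / R := by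
  unfold mean sampLaw ind01
  rw [Fintype.sum_bool]
  simp

theorem ind01_nonneg (z : V) (e : Bool) : 0 ≤ ind01 z e := by
  unfold ind01
  split_ifs <;> norm_num

theorem ind01_le (z : V) (e : Bool) : ind01 z e ≤ 1 := by
  unfold ind01
  split_ifs <;> norm_num

theorem sum_sampSet (ω : V → Bool) (f : V → ℝ) :
    ∑ z ∈ sampSet ω, f z = ∑ z, ind01 z (ω z) * f z := by
  unfold sampSet ind01
  rw [Finset.sum_filter]
  refine Finset.sum_congr rfl fun z _ => ?_
  split_ifs <;> ring

/-- Linear tests of a random subset. -/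
theorem samp_lin {T : ℝ} (hT : Big T) {R : ℝ} (hR : 1 ≤ R) {A : Type u} [Fintype A]
    (g : A → V → ℝ) (gm gs : A → ℝ) (hgm : ∀ a, 0 ≤ gm a)
    (hg : ∀ a z, |g a z| ≤ gm a) (hgs : ∀ a, ∑ z, |g a z| ≤ gs a)
    (hsupp : ∀ a, ((univ.filter fun z => g a z ≠ 0).card : ℝ) ≤ T ^ 60000)
    (hdeg : ∀ z, ((univ.filter fun a => g a z ≠ 0).card : ℝ) ≤ T ^ 60000) :
    StepOK T (sampLaw V R) (fun ω => ∀ a, |∑ z ∈ sampSet ω, g a z - 1 / R * ∑ z, g a z| ≤
      T ^ 2 * gm a + T ^ 2 * Real.sqrt (gm a * gs a / R)) := by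
  have hR0 : 0 < R := by linarith
  obtain ⟨κ, i1, E, S, h1, h2, h3, h4, h5⟩ := step_lin hT (sampLaw_isPM hR) ind01_nonneg
    ind01_le (show 0 ≤ 1 / R by positivity) (fun z => (mean_ind01 R z).le) g gm gs hgm hg hgs
    hsupp hdeg
  refine ⟨κ, i1, E, S, h1, h2, h3, h4, fun ω hω a => ?_⟩
  have h6 := h5 ω hω a
  have e1 : ∑ z, (ind01 z (ω z) - mean (sampLaw V R) ind01 z) * g a z =
      ∑ z ∈ sampSet ω, g a z - 1 / R * ∑ z, g a z := by
    rw [sum_sampSet, Finset.mul_sum, ← Finset.sum_sub_distrib]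
    refine Finset.sum_congr rfl fun z _ => ?_
    rw [mean_ind01]
    ring
  have e2 : 1 / R * (gm a * gs a) = gm a * gs a / R := by ring
  rw [e1, e2] at h6
  exact h6

/-- Quadratic tests of a random subset. -/
theorem samp_quad {T : ℝ} (hT : Big T) {R : ℝ} (hR : 1 ≤ R) {B : Type u} [Fintype B]
    (w : B → V → V → ℝ) (wm dd tot : B → ℝ) (hwm : ∀ b, 0 ≤ wm b) (hdd : ∀ b, 0 ≤ dd b)
    (hdiag : ∀ b z, w b z z = 0) (hw : ∀ b z z', |w b z z'| ≤ wm b)
    (hd : ∀ b z, ∑ z', |w b z z'| ≤ dd b) (hd' : ∀ b z', ∑ z, |w b z z'| ≤ dd b)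
    (htot : ∀ b, ∑ z, ∑ z', |w b z z'| ≤ tot b)
    (hsupp : ∀ b, ((qsupp (w b)).card : ℝ) ≤ T ^ 60000)
    (hdeg : ∀ z, ((univ.filter fun b => z ∈ qsupp (w b)).card : ℝ) ≤ T ^ 60000) :
    StepOK T (sampLaw V R) (fun ω => ∀ b,
      |∑ z ∈ sampSet ω, ∑ z' ∈ sampSet ω, w b z z' - (1 / R) ^ 2 * ∑ z, ∑ z', w b z z'| ≤
      T ^ 3 * ((dd b / R + wm b) +
        Real.sqrt ((dd b / R + wm b) * (tot b / R + dd b) / R))) := by
  have hR0 : 0 < R := by linarith
  obtain ⟨κ, i1, E, S, h1, h2, h3, h4, h5⟩ := step_quad hT (sampLaw_isPM hR) ind01_nonneg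
    ind01_le (show 0 < 1 / R by positivity) (fun z => (mean_ind01 R z).le) w wm dd tot hwm hdd
    hdiag hw hd hd' htot hsupp hdeg
  refine ⟨κ, i1, E, S, h1, h2, h3, h4, fun ω hω b => ?_⟩
  have h6 := h5 ω hω b
  have e1 : ∑ z, ∑ z', w b z z' * (ind01 z (ω z) * ind01 z' (ω z')) =
      ∑ z ∈ sampSet ω, ∑ z' ∈ sampSet ω, w b z z' := by
    rw [sum_sampSet]
    refine Finset.sum_congr rfl fun z _ => ?_
    rw [sum_sampSet, Finset.mul_sum]
    exact Finset.sum_congr rfl fun z' _ => by ring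
  have e2 : ∑ z, ∑ z', w b z z' * (mean (sampLaw V R) ind01 z * mean (sampLaw V R) ind01 z') =
      (1 / R) ^ 2 * ∑ z, ∑ z', w b z z' := by
    rw [Finset.mul_sum]
    refine Finset.sum_congr rfl fun z _ => ?_
    rw [Finset.mul_sum]
    refine Finset.sum_congr rfl fun z' _ => ?_
    rw [mean_ind01, mean_ind01]
    ring
  have e3 : 1 / R * dd b = dd b / R := by ring
  have e4 : 1 / R * tot b = tot b / R := by ring
  have e5 : 1 / R * (dd b / R + wm b) * (tot b / R + dd b) =
      (dd b / R + wm b) * (tot b / R + dd b) / R := by ring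
  rw [e1, e2, e3, e4, e5] at h6
  exact h6

/-- **Sampling.** A subset of density `1 / R` typical for all linear tests `g` and all signed
quadratic tests `w`. -/
theorem sample {T : ℝ} (hT : Big T) {R : ℝ} (hR : 1 ≤ R) {A B : Type u} [Fintype A] [Fintype B]
    (g : A → V → ℝ) (gm gs : A → ℝ) (hgm : ∀ a, 0 ≤ gm a)
    (hg : ∀ a z, |g a z| ≤ gm a) (hgs : ∀ a, ∑ z, |g a z| ≤ gs a)
    (hsupp : ∀ a, ((univ.filter fun z => g a z ≠ 0).card : ℝ) ≤ T ^ 60000)
    (hdeg : ∀ z, ((univ.filter fun a => g a z ≠ 0).card : ℝ) ≤ T ^ 60000)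
    (w : B → V → V → ℝ) (wm dd tot : B → ℝ) (hwm : ∀ b, 0 ≤ wm b) (hdd : ∀ b, 0 ≤ dd b)
    (hdiag : ∀ b z, w b z z = 0) (hw : ∀ b z z', |w b z z'| ≤ wm b)
    (hd : ∀ b z, ∑ z', |w b z z'| ≤ dd b) (hd' : ∀ b z', ∑ z, |w b z z'| ≤ dd b)
    (htot : ∀ b, ∑ z, ∑ z', |w b z z'| ≤ tot b)
    (hsupp' : ∀ b, ((qsupp (w b)).card : ℝ) ≤ T ^ 60000)
    (hdeg' : ∀ z, ((univ.filter fun b => z ∈ qsupp (w b)).card : ℝ) ≤ T ^ 60000) :
    ∃ U : Finset V,
      (∀ a, |∑ z ∈ U, g a z - 1 / R * ∑ z, g a z| ≤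
        T ^ 2 * gm a + T ^ 2 * Real.sqrt (gm a * gs a / R)) ∧
      (∀ b, |∑ z ∈ U, ∑ z' ∈ U, w b z z' - (1 / R) ^ 2 * ∑ z, ∑ z', w b z z'| ≤
        T ^ 3 * ((dd b / R + wm b) +
          Real.sqrt ((dd b / R + wm b) * (tot b / R + dd b) / R))) := by
  obtain ⟨ω, -, h1, h2⟩ := Pool.Agent.AcyK.StepOK.and_exists hT (sampLaw_isPM hR)
    (samp_lin hT hR g gm gs hgm hg hgs hsupp hdeg)
    (samp_quad hT hR w wm dd tot hwm hdd hdiag hw hd hd' htot hsupp' hdeg')
  exact ⟨sampSet ω, h1, h2⟩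

/-- The crude form of the linear tests: counting. -/
theorem samp_count {T R : ℝ} (hT : Big T) (hR : 1 ≤ R) {S U : Finset V} {s : ℝ}
    (hs : (S.card : ℝ) ≤ s)
    (h : |∑ z ∈ U, (if z ∈ S then (1:ℝ) else 0) - 1 / R * ∑ z, (if z ∈ S then (1:ℝ) else 0)| ≤
      T ^ 2 * 1 + T ^ 2 * Real.sqrt (1 * s / R)) :
    ((U ∩ S).card : ℝ) ≤ 2 * s / R + T ^ 4 := by
  have hT6 := big_six hT
  have hR0 : 0 < R := by linarith
  have hs0 : 0 ≤ s := (Nat.cast_nonneg _).trans hs
  have e1 : ∑ z ∈ U, (if z ∈ S then (1:ℝ) else 0) = ((U ∩ S).card : ℝ) := by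
    rw [Finset.sum_ite_mem, Finset.sum_const, nsmul_eq_mul, mul_one]
  have e2 : ∑ z, (if z ∈ S then (1:ℝ) else 0) = (S.card : ℝ) := by
    rw [Finset.sum_ite_mem, Finset.univ_inter, Finset.sum_const, nsmul_eq_mul, mul_one]
  rw [e1, e2, one_mul] at h
  have h1 := (abs_le.1 h).2
  have h2 : 1 / R * (S.card : ℝ) ≤ s / R := by
    rw [one_div, inv_mul_eq_div]
    exact div_le_div_of_nonneg_right hs hR0.le
  have h3 : T ^ 2 * Real.sqrt (s / R) ≤ s / R + T ^ 4 / 4 := by
    have h4 : Real.sqrt (s / R) ^ 2 = s / R := Real.sq_sqrt (by positivity)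
    nlinarith [sq_nonneg (Real.sqrt (s / R) - T ^ 2 / 2)]
  have h5 : T ^ 2 * 1 ≤ T ^ 4 / 4 := by
    have h6 : T ^ 4 = T ^ 2 * T ^ 2 := by ring
    have h7 : 4 ≤ T ^ 2 := by nlinarith
    have h8 : 4 * T ^ 2 ≤ T ^ 2 * T ^ 2 := mul_le_mul_of_nonneg_right h7 (sq_nonneg T)
    rw [h6]
    linarith
  have e3 : 2 * s / R = s / R + s / R := by ring
  have h9 : 0 ≤ T ^ 4 := by positivity
  rw [e3]
  linarith

/-- The numbers of the application: kernels bounded by `T^2403` with row sums `T^7218` and total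
`T^9601`, density at most `T^(-700)`. -/
theorem samp_num {T R : ℝ} (hT : Big T) (hR : T ^ 700 ≤ R) :
    T ^ 3 * ((T ^ 7218 / R + T ^ 2403) +
      Real.sqrt ((T ^ 7218 / R + T ^ 2403) * (T ^ 9601 / R + T ^ 7218) / R)) ≤ T ^ 7370 := by
  have hT6 := big_six hT
  have hT0 := hT.pos
  have hR0 : 0 < R := lt_of_lt_of_le (by positivity) hR
  have h1 : T ^ 7218 / R ≤ T ^ 6518 := by
    rw [div_le_iff₀ hR0]
    calc T ^ 7218 = T ^ 6518 * T ^ 700 := by rw [← pow_add]
      _ ≤ T ^ 6518 * R := mul_le_mul_of_nonneg_left hR (by positivity)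
  have h2 : T ^ 9601 / R ≤ T ^ 8901 := by
    rw [div_le_iff₀ hR0]
    calc T ^ 9601 = T ^ 8901 * T ^ 700 := by rw [← pow_add]
      _ ≤ T ^ 8901 * R := mul_le_mul_of_nonneg_left hR (by positivity)
  have h3 : T ^ 2403 ≤ T ^ 6518 := hT.pw (by norm_num)
  have h4 : T ^ 7218 ≤ T ^ 8901 := hT.pw (by norm_num)
  have h5 : (T ^ 7218 / R + T ^ 2403) * (T ^ 9601 / R + T ^ 7218) / R ≤
      (2 * T ^ 7360) ^ 2 := by
    rw [div_le_iff₀ hR0]
    calc (T ^ 7218 / R + T ^ 2403) * (T ^ 9601 / R + T ^ 7218) ≤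
          (2 * T ^ 6518) * (2 * T ^ 8901) :=
          mul_le_mul (by linarith) (by linarith) (by positivity) (by positivity)
      _ = 4 * T ^ 14719 * T ^ 700 := by
          have e0 : T ^ 14719 * T ^ 700 = T ^ 6518 * T ^ 8901 := by
            rw [← pow_add, ← pow_add]
          rw [mul_assoc 4, e0]
          ring
      _ ≤ (2 * T ^ 7360) ^ 2 * R := by
          have h6 : T ^ 14719 ≤ T ^ 14720 := hT.pw (by norm_num)
          have e1 : (2 * T ^ 7360) ^ 2 = 4 * T ^ 14720 := by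
            rw [mul_pow, ← pow_mul]
            norm_num
          rw [e1]
          exact mul_le_mul (by linarith) hR (by positivity) (by positivity)
  have h6 : Real.sqrt ((T ^ 7218 / R + T ^ 2403) * (T ^ 9601 / R + T ^ 7218) / R) ≤
      2 * T ^ 7360 := by
    rw [← Real.sqrt_sq (show 0 ≤ 2 * T ^ 7360 by positivity)]
    exact Real.sqrt_le_sqrt h5
  have h7 : T ^ 6518 ≤ T ^ 7360 := hT.pw (by norm_num)
  calc _ ≤ T ^ 3 * (4 * T ^ 7360) :=
        mul_le_mul_of_nonneg_left (by linarith) (by positivity)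
    _ = 4 * T ^ 7363 := by rw [show (7363 : ℕ) = 3 + 7360 from rfl, pow_add]; ring
    _ ≤ T * T ^ 7363 := mul_le_mul_of_nonneg_right (by linarith) (by positivity)
    _ = T ^ 7364 := by rw [show (7364 : ℕ) = 7363 + 1 from rfl, pow_succ]; ring
    _ ≤ T ^ 7370 := hT.pw (by norm_num)

end samp

end Pool.Agent.AcyG
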