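import Pool.Agent.AcyG.OStatB
import Pool.Agent.AcyG.OSampL
import Pool.Agent.AcyG.SampA

/-! # The outer part, row OS1: the statistics of the sample -/

set_option autoImplicit false
set_option linter.unusedSectionVars false

namespace Pool.Agent.AcyG

open Finset
open Pool.Agent.Acy (IsPM wt Ex Pr mean)
open Pool.Agent.AcyK (Big StepOK LocOK prodLaw Un Sel updCol HasC cN)
open scoped Classical

universe u v

section

variable {V AL : Type u} [Fintype V] [DecidableEq V] [Fintype AL]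

/-- The sample. -/
noncomputable def GSt.smp {Lb : Type u} (E : GSt V Lb AL) (U : Finset V) : GSm V Lb AL :=
  { E with U := U }

/-- Fields `nbr` .. `unc` of `Good`. -/
structure GSm.GoodS {Lb : Type u} [Fintype Lb] (E : GSm V Lb AL) : Prop where
  nbr : ∀ v, ((E.U ∩ E.N v).card : ℝ) ≤ E.T ^ 2802
  cod : ∀ u x, E.toGSt.toGData.cod u x ≤ E.am → ((E.U ∩ cN E.N u x).card : ℝ) ≤ E.T ^ 1603
  far : ∀ x, ((E.U.filter fun u => E.far u x).card : ℝ) ≤ 2 * E.T ^ 4016
  spe : ∀ x, ((E.U.filter fun u => E.spe u x).card : ℝ) ≤ E.k / 1950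
  neg : ∀ x, ∑ u ∈ E.U, (if E.far u x then max (-E.K E.s u x) 0 else 0) ≤ E.Kc ^ 10 * E.k
  ex : ∀ x, ∑ u ∈ E.U, (if E.far u x ∧ 1 ≤ E.s.X u x then
    2 * E.s.X u x * (E.s.X u x ^ 200 - 1) else 0) ≤ E.Kc ^ 300 * E.k
  frz : ∀ x, ∑ u ∈ E.U, (if E.far u x ∧ E.s.X u x ≠ 0 ∧ ¬ E.nf E.s u x then E.s.X u x else 0) ≤
    (E.k : ℝ) / 1000
  gram : ∀ y y', ¬ E.twn E.s y y' → y ≠ y' → |∑ u ∈ E.U, E.K E.s u y * E.K E.s u y'| ≤ E.T ^ 3430
  unc : ∀ v, |((E.U.filter fun z => z ∈ E.N v ∧ E.C z = none).card : ℝ) -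
    E.un E.C v / E.R| ≤ E.T ^ 1500

/-- A linear test: the numbers. -/
theorem sms_num {T R x : ℝ} (hT : Big T) (hR : T ^ 799 ≤ R) (m : ℕ) (hx : x ≤ T ^ (2 * m + 799)) :
    Real.sqrt (x / R) ≤ T ^ m := by
  have hT0 := hT.pos
  have hR0 : 0 < R := lt_of_lt_of_le (by positivity) hR
  rw [← Real.sqrt_sq (show 0 ≤ T ^ m by positivity)]
  refine Real.sqrt_le_sqrt ?_
  rw [div_le_iff₀ hR0]
  calc x ≤ T ^ (2 * m + 799) := hx
    _ = (T ^ m) ^ 2 * T ^ 799 := by rw [← pow_mul, ← pow_add, mul_comm m 2]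
    _ ≤ (T ^ m) ^ 2 * R := mul_le_mul_of_nonneg_left hR (by positivity)

theorem sms_imp {α : Type*} [Fintype α] {e : ℕ} {T : ℝ} {μ : V → α → ℝ}
    {G G' : (V → α) → Prop} (h : LocOK e T μ G) (hi : ∀ ω, G ω → G' ω) : LocOK e T μ G' := by
  obtain ⟨κ, hκ, E, S, hd, hp, hs, hi', hg⟩ := h
  exact ⟨κ, hκ, E, S, hd, hp, hs, hi', fun ω hω => hi ω (hg ω hω)⟩

/-- Linear tests with an explicit error: maximum at most `T`, sum at most `T ^ (2 m + 797)`. -/
theorem sms_lin {T : ℝ} (hT : Big T) {R : ℝ} (hR : T ^ 799 ≤ R) (m : ℕ) (hm : 1 ≤ m)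
    {A : Type u} [Fintype A] (g : A → V → ℝ) (hg : ∀ a z, |g a z| ≤ T)
    (hgs : ∀ a, ∑ z, |g a z| ≤ T ^ (2 * m + 798))
    (hsupp : ∀ a, ((univ.filter fun z => g a z ≠ 0).card : ℝ) ≤ T ^ 30000)
    (hdeg : ∀ z, ((univ.filter fun a => g a z ≠ 0).card : ℝ) ≤ T ^ 30000) :
    LocOK 30000 T (sampLaw V R) (fun ω => ∀ a, |∑ z ∈ sampSet ω, g a z - 1 / R * ∑ z, g a z| ≤
      T ^ (m + 3)) := by
  have hT0 := hT.pos
  have hT6 := big_six hT
  have hR1 : 1 ≤ R := (one_le_pow₀ hT.one_le).trans hR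
  refine sms_imp (samp_lin_loc hT hR1 30000 g (fun _ => T) (fun _ => T ^ (2 * m + 798))
    (fun _ => hT0.le) hg hgs hsupp hdeg) fun ω hω a => (hω a).trans ?_
  have h1 : Real.sqrt (T * T ^ (2 * m + 798) / R) ≤ T ^ m := by
    refine sms_num hT hR m (le_of_eq ?_)
    rw [← pow_succ']
  have h2 : T ^ 2 * T ≤ T ^ (m + 2) := by
    rw [← pow_succ]
    exact hT.pw (by omega)
  have h3 : T ^ 2 * Real.sqrt (T * T ^ (2 * m + 798) / R) ≤ T ^ (m + 2) := by
    calc T ^ 2 * Real.sqrt (T * T ^ (2 * m + 798) / R) ≤ T ^ 2 * T ^ m :=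
          mul_le_mul_of_nonneg_left h1 (by positivity)
      _ = T ^ (m + 2) := by rw [← pow_add, add_comm 2 m]
  have h4 : 0 < T ^ (m + 2) := by positivity
  have h5 : T ^ (m + 3) = T * T ^ (m + 2) := by rw [← pow_succ']
  rw [h5]
  nlinarith

/-- The form used for upper bounds. -/
theorem sms_up {R a b e t : ℝ} (hR : 0 < R) {x y : ℝ} (h : |x - 1 / R * y| ≤ e)
    (hy : y ≤ a * R) (ht : a + e ≤ b) (hb : b ≤ t) : x ≤ t := by
  have h1 := (abs_le.1 h).2
  have h2 : 1 / R * y ≤ a := by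
    rw [one_div, inv_mul_eq_div, div_le_iff₀ hR]
    exact hy
  linarith

section

variable {Lb : Type u} [Fintype Lb] {E : GSt V Lb AL}

theorem sms_X (hE : E.Ok) (u x : V) : 0 ≤ E.s.X u x := GData.os_X_nonneg hE.inv.toSInv u x

theorem sms_K_abs (hE : E.Ok) (u x : V) : |E.K E.s u x| ≤ E.Kc := by
  have h1 := sms_X hE u x
  have h2 := hE.inv.X_hi u x
  have h3 := GData.os_Kc_one hE.dat
  unfold GData.K
  split_ifs
  · rw [abs_le]
    constructor <;> linarith
  · rw [abs_zero]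
    linarith

/-- Sums over the far vertices. -/
theorem sms_sum_far (hE : E.Ok) (x : V) {f : V → ℝ} {c : ℝ} (hc : 0 ≤ c)
    (hf : ∀ u, |f u| ≤ c) (h0 : ∀ u, ¬ E.far u x → f u = 0) :
    ∑ u, |f u| ≤ c * E.T ^ 4815 := by
  have h1 : ∀ u, |f u| ≤ if E.far u x then c else 0 := by
    intro u
    split_ifs with h
    · exact hf u
    · rw [h0 u h, abs_zero]
  calc ∑ u, |f u| ≤ ∑ u, if E.far u x then c else 0 := sum_le_sum fun u _ => h1 u
    _ = ((univ.filter fun u => E.far u x).card : ℝ) * c := by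
        rw [← sum_filter, sum_const, nsmul_eq_mul]
    _ ≤ E.T ^ 4815 * c := mul_le_mul_of_nonneg_right (GData.far_card hE.dat x) hc
    _ = c * E.T ^ 4815 := mul_comm _ _

theorem sms_supp_far (hE : E.Ok) (x : V) {f : V → ℝ} (h0 : ∀ u, ¬ E.far u x → f u = 0) :
    ((univ.filter fun u => f u ≠ 0).card : ℝ) ≤ E.T ^ 30000 := by
  refine le_trans ?_ ((GData.far_card hE.dat x).trans (hE.dat.big.pw (by norm_num)))
  have : (univ.filter fun u => f u ≠ 0) ⊆ univ.filter fun u => E.far u x := by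
    intro u hu
    rw [mem_filter] at hu ⊢
    exact ⟨mem_univ _, by_contra fun h => hu.2 (h0 u h)⟩
  exact_mod_cast card_le_card this

theorem sms_deg_far (hE : E.Ok) (u : V) {f : V → V → ℝ} (h0 : ∀ x u, ¬ E.far u x → f x u = 0) :
    ((univ.filter fun x => f x u ≠ 0).card : ℝ) ≤ E.T ^ 30000 :=
  sms_supp_far hE u fun x h => h0 x u fun h' => h (GData.os_far_symm hE.dat h')

/-- One test for each vertex, which vanishes at the vertices that are not far. -/
theorem sms_far (hE : E.Ok) (f : V → V → ℝ) (hf : ∀ x u, |f x u| ≤ E.T)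
    (h0 : ∀ x u, ¬ E.far u x → f x u = 0) :
    LocOK 30000 E.T (sampLaw V E.R) (fun ω => ∀ x, |∑ u ∈ sampSet ω, f x u -
      1 / E.R * ∑ u, f x u| ≤ E.T ^ 2012) := by
  have hT := hE.dat.big
  have hT0 := hT.pos
  refine sms_lin hT hE.dat.R_lo 2009 (by norm_num) f hf (fun x => ?_)
    (fun x => sms_supp_far hE x (h0 x)) (fun u => sms_deg_far hE u h0)
  calc ∑ u, |f x u| ≤ E.T * E.T ^ 4815 := sms_sum_far hE x hT0.le (hf x) (h0 x)
    _ = E.T ^ 4816 := by rw [← pow_succ']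
    _ ≤ E.T ^ (2 * 2009 + 798) := hT.pw (by norm_num)

/-- The test of a pair for the Gram matrix. -/
theorem sms_gram (hE : E.Ok) :
    LocOK 30000 E.T (sampLaw V E.R) (fun ω => ∀ y : V × V, |∑ u ∈ sampSet ω,
      E.K E.s u y.1 * E.K E.s u y.2 - 1 / E.R * ∑ u, E.K E.s u y.1 * E.K E.s u y.2| ≤
        E.T ^ 2012) := by
  have hT := hE.dat.big
  have hT0 := hT.pos
  have hK0 : ∀ u x, ¬ E.far u x → E.K E.s u x = 0 := by
    intro u x h
    unfold GData.K
    rw [if_neg h]
  have hb : ∀ (y : V × V) (u : V), |E.K E.s u y.1 * E.K E.s u y.2| ≤ E.T := by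
    intro y u
    rw [abs_mul]
    calc |E.K E.s u y.1| * |E.K E.s u y.2| ≤ E.Kc * E.Kc :=
          mul_le_mul (sms_K_abs hE _ _) (sms_K_abs hE _ _) (abs_nonneg _)
            ((abs_nonneg _).trans (sms_K_abs hE u y.1))
      _ = E.Kc ^ 2 := by ring
      _ ≤ E.T := GData.os_Kc_pow_T hE.dat (by norm_num)
  have h0 : ∀ (y : V × V) (u : V), ¬ E.far u y.1 → E.K E.s u y.1 * E.K E.s u y.2 = 0 := by
    intro y u h
    rw [hK0 u y.1 h, zero_mul]
  refine sms_lin hT hE.dat.R_lo 2009 (by norm_num) (fun (y : V × V) u =>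
    E.K E.s u y.1 * E.K E.s u y.2) hb (fun y => ?_) (fun y => sms_supp_far hE y.1 (h0 y))
    (fun u => ?_)
  · calc ∑ u, |E.K E.s u y.1 * E.K E.s u y.2| ≤ E.T * E.T ^ 4815 :=
          sms_sum_far hE y.1 hT0.le (hb y) (h0 y)
      _ = E.T ^ 4816 := by rw [← pow_succ']
      _ ≤ E.T ^ (2 * 2009 + 798) := hT.pw (by norm_num)
  · have h1 : (univ.filter fun y : V × V => E.K E.s u y.1 * E.K E.s u y.2 ≠ 0) ⊆
        (univ.filter fun x => E.far x u) ×ˢ (univ.filter fun x => E.far x u) := by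
      intro y hy
      rw [mem_filter] at hy
      rw [mem_product, mem_filter, mem_filter]
      refine ⟨⟨mem_univ _, ?_⟩, mem_univ _, ?_⟩
      · by_contra h
        exact hy.2 (by rw [hK0 u y.1 fun h' => h (GData.os_far_symm hE.dat h'), zero_mul])
      · by_contra h
        exact hy.2 (by rw [hK0 u y.2 fun h' => h (GData.os_far_symm hE.dat h'), mul_zero])
    have h2 : ((univ.filter fun y : V × V => E.K E.s u y.1 * E.K E.s u y.2 ≠ 0).card : ℝ) ≤
        ((univ.filter fun x => E.far x u).card : ℝ) * ((univ.filter fun x => E.far x u).card : ℝ) := by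
      have := card_le_card h1
      rw [card_product] at this
      exact_mod_cast this
    refine h2.trans ?_
    calc ((univ.filter fun x => E.far x u).card : ℝ) * ((univ.filter fun x => E.far x u).card : ℝ) ≤
          E.T ^ 4815 * E.T ^ 4815 := mul_le_mul (GData.far_card hE.dat u) (GData.far_card hE.dat u)
            (Nat.cast_nonneg _) (by positivity)
      _ = E.T ^ 9630 := by rw [← pow_add]
      _ ≤ E.T ^ 30000 := hT.pw (by norm_num)

/-- The special vertices. -/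
theorem sms_spe (hE : E.Ok) :
    LocOK 30000 E.T (sampLaw V E.R) (fun ω => ∀ x : V, |∑ u ∈ sampSet ω,
      (if E.spe u x then (1:ℝ) else 0) - 1 / E.R * ∑ u, (if E.spe u x then (1:ℝ) else 0)| ≤
        E.T ^ 2012) := by
  have hT := hE.dat.big
  have hT0 := hT.pos
  have hT6 := big_six hT
  have hcard : ∀ x, ((univ.filter fun u => E.spe u x).card : ℝ) ≤ E.T ^ 4815 := by
    intro x
    have h1 := GData.spe_card hE.dat x
    have h2 := GData.os_n1_hi hE.dat
    have h3 : E.T ^ 3600 ≤ E.T ^ 4801 := hT.pw (by norm_num)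
    have h4 : E.T * E.T ^ 4801 ≤ E.T ^ 4815 := by
      rw [← pow_succ']
      exact hT.pw (by norm_num)
    have h5 : 0 < E.T ^ 4801 := by positivity
    nlinarith
  refine sms_lin hT hE.dat.R_lo 2009 (by norm_num) (fun (x : V) u =>
    if E.spe u x then (1:ℝ) else 0) (fun x u => ?_) (fun x => ?_) (fun x => ?_) (fun u => ?_)
  · split_ifs
    · rw [abs_one]
      linarith
    · rw [abs_zero]
      linarith
  · calc ∑ u, |(if E.spe u x then (1:ℝ) else 0)| = ((univ.filter fun u => E.spe u x).card : ℝ) := by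
          rw [← sum_boole]
          refine sum_congr rfl fun u _ => ?_
          split_ifs <;> simp
      _ ≤ E.T ^ 4815 := hcard x
      _ ≤ E.T ^ (2 * 2009 + 798) := hT.pw (by norm_num)
  · have : (univ.filter fun u => (if E.spe u x then (1:ℝ) else 0) ≠ 0) =
        univ.filter fun u => E.spe u x := by
      ext u
      simp
    rw [this]
    exact (hcard x).trans (hT.pw (by norm_num))
  · have : (univ.filter fun x => (if E.spe u x then (1:ℝ) else 0) ≠ 0) ⊆
        univ.filter fun x => E.spe x u := by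
      intro x hx
      rw [mem_filter] at hx ⊢
      refine ⟨mem_univ _, ?_⟩
      by_contra h
      exact hx.2 (if_neg fun h' => h (GData.os_spe_symm hE.dat h'))
    refine le_trans ?_ ((hcard u).trans (hT.pw (by norm_num)))
    exact_mod_cast card_le_card this

/-- Subsets of the neighbourhoods. -/
theorem sms_nbr (hE : E.Ok) (f : V → V → ℝ) (hf : ∀ v z, |f v z| ≤ if z ∈ E.N v then 1 else 0) :
    LocOK 30000 E.T (sampLaw V E.R) (fun ω => ∀ v : V, |∑ z ∈ sampSet ω, f v z -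
        1 / E.R * ∑ z, f v z| ≤ E.T ^ 1404) := by
  have hT := hE.dat.big
  have hT0 := hT.pos
  have hT6 := big_six hT
  have hz : ∀ v z, z ∉ E.N v → f v z = 0 := by
    intro v z h
    have h1 := hf v z
    rw [if_neg h] at h1
    exact abs_eq_zero.1 (le_antisymm h1 (abs_nonneg _))
  refine sms_lin hT hE.dat.R_lo 1401 (by norm_num) f (fun v z => ?_) (fun v => ?_) (fun v => ?_)
    (fun z => ?_)
  · refine (hf v z).trans ?_
    split_ifs <;> linarith
  · calc ∑ z, |f v z| ≤ ∑ z, (if z ∈ E.N v then (1:ℝ) else 0) := sum_le_sum fun z _ => hf v z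
      _ = ((E.N v).card : ℝ) := by
          rw [sum_ite_mem, univ_inter, sum_const, nsmul_eq_mul, mul_one]
      _ ≤ E.T ^ 3600 := hE.dat.deg v
      _ ≤ E.T ^ (2 * 1401 + 798) := hT.pw (by norm_num)
  · have : (univ.filter fun z => f v z ≠ 0) ⊆ E.N v := by
      intro z h
      by_contra h'
      exact (mem_filter.1 h).2 (hz v z h')
    refine le_trans ?_ ((hE.dat.deg v).trans (hT.pw (by norm_num)))
    exact_mod_cast card_le_card this
  · have : (univ.filter fun v => f v z ≠ 0) ⊆ E.N z := by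
      intro v h
      by_contra h'
      exact (mem_filter.1 h).2 (hz v z fun h'' => h' (hE.dat.N_symm _ _ h''))
    refine le_trans ?_ ((hE.dat.deg z).trans (hT.pw (by norm_num)))
    exact_mod_cast card_le_card this

/-- The common neighbourhoods. -/
theorem sms_cod (hE : E.Ok) :
    LocOK 30000 E.T (sampLaw V E.R) (fun ω => ∀ p : V × V, |∑ z ∈ sampSet ω,
      (if E.cod p.1 p.2 ≤ E.am ∧ z ∈ cN E.N p.1 p.2 then (1:ℝ) else 0) -
        1 / E.R * ∑ z, (if E.cod p.1 p.2 ≤ E.am ∧ z ∈ cN E.N p.1 p.2 then (1:ℝ) else 0)| ≤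
        E.T ^ 806) := by
  have hT := hE.dat.big
  have hT0 := hT.pos
  have hT6 := big_six hT
  have hcard : ∀ p : V × V, ((univ.filter fun z => E.cod p.1 p.2 ≤ E.am ∧
      z ∈ cN E.N p.1 p.2).card : ℝ) ≤ E.T ^ 2401 := by
    intro p
    by_cases hp : E.cod p.1 p.2 ≤ E.am
    · refine le_trans ?_ (hp.trans hE.dat.am_hi)
      unfold GData.cod
      have : (univ.filter fun z => E.cod p.1 p.2 ≤ E.am ∧ z ∈ cN E.N p.1 p.2) ⊆
          cN E.N p.1 p.2 := fun z hz => (mem_filter.1 hz).2.2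
      exact_mod_cast card_le_card this
    · have : (univ.filter fun z => E.cod p.1 p.2 ≤ E.am ∧ z ∈ cN E.N p.1 p.2) = ∅ := by
        rw [filter_eq_empty_iff]
        intro z _ hz
        exact hp hz.1
      rw [this, card_empty, Nat.cast_zero]
      positivity
  refine sms_lin hT hE.dat.R_lo 803 (by norm_num) (fun (p : V × V) z =>
    if E.cod p.1 p.2 ≤ E.am ∧ z ∈ cN E.N p.1 p.2 then (1:ℝ) else 0)
    (fun x u => ?_) (fun p => ?_) (fun p => ?_) (fun z => ?_)
  · split_ifs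
    · rw [abs_one]
      linarith
    · rw [abs_zero]
      linarith
  · calc ∑ z, |(if E.cod p.1 p.2 ≤ E.am ∧ z ∈ cN E.N p.1 p.2 then (1:ℝ) else 0)| =
          ((univ.filter fun z => E.cod p.1 p.2 ≤ E.am ∧ z ∈ cN E.N p.1 p.2).card : ℝ) := by
          rw [← sum_boole]
          refine sum_congr rfl fun u _ => ?_
          split_ifs <;> simp
      _ ≤ E.T ^ 2401 := hcard p
      _ ≤ E.T ^ (2 * 803 + 798) := hT.pw (by norm_num)
  · have : (univ.filter fun z => (if E.cod p.1 p.2 ≤ E.am ∧ z ∈ cN E.N p.1 p.2 then (1:ℝ)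
        else 0) ≠ 0) = univ.filter fun z => E.cod p.1 p.2 ≤ E.am ∧ z ∈ cN E.N p.1 p.2 := by
      ext z
      simp
    rw [this]
    exact (hcard p).trans (hT.pw (by norm_num))
  · have h1 : (univ.filter fun p : V × V => (if E.cod p.1 p.2 ≤ E.am ∧ z ∈ cN E.N p.1 p.2 then
        (1:ℝ) else 0) ≠ 0) ⊆ E.N z ×ˢ E.N z := by
      intro p hp
      rw [mem_filter] at hp
      have h2 : z ∈ cN E.N p.1 p.2 := by
        by_contra h
        exact hp.2 (if_neg fun h' => h h'.2)
      unfold cN at h2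
      rw [mem_inter] at h2
      rw [mem_product]
      exact ⟨hE.dat.N_symm _ _ h2.1, hE.dat.N_symm _ _ h2.2⟩
    have h2 : ((univ.filter fun p : V × V => (if E.cod p.1 p.2 ≤ E.am ∧ z ∈ cN E.N p.1 p.2 then
        (1:ℝ) else 0) ≠ 0).card : ℝ) ≤ ((E.N z).card : ℝ) * ((E.N z).card : ℝ) := by
      have := card_le_card h1
      rw [card_product] at this
      exact_mod_cast this
    refine h2.trans ?_
    calc ((E.N z).card : ℝ) * ((E.N z).card : ℝ) ≤ E.T ^ 3600 * E.T ^ 3600 :=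
          mul_le_mul (hE.dat.deg z) (hE.dat.deg z) (Nat.cast_nonneg _) (by positivity)
      _ = E.T ^ 7200 := by rw [← pow_add]
      _ ≤ E.T ^ 30000 := hT.pw (by norm_num)

theorem goodS_loc (hE : E.Ok) :
    LocOK 30010 E.T (sampLaw V E.R) (fun ω => (E.smp (sampSet ω)).GoodS) := by
  have hD := hE.dat
  have hT := hD.big
  have hT0 := hT.pos
  have hT6 := big_six hT
  have hR0 := GData.os_R_pos hD
  have hk0 := GData.os_k_pos hD
  have hKc1 := GData.os_Kc_one hD
  have hKc6 := GData.os_Kc_ge hD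
  have hj : E.j ≤ E.NS := hE.j_lt.le
  have hs := hE.inv.toSInv
  have hk1 : E.T ^ 2014 ≤ (E.k : ℝ) := (hT.pw (by norm_num)).trans hD.k_lo
  have hTk : E.T * E.T ^ 2012 ≤ E.T ^ 2014 := by
    rw [← pow_succ']
    exact hT.pw (by norm_num)
  have hT2012 : 0 < E.T ^ 2012 := by positivity
  -- the families
  have f1 := sms_nbr hE (fun v z => if z ∈ E.N v then 1 else 0) (fun v z => by
    split_ifs <;> simp)
  have f2 := sms_cod hE
  have f3 := sms_far hE (fun x u => if E.far u x then 1 else 0) (fun x u => by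
    split_ifs
    · rw [abs_one]
      linarith
    · rw [abs_zero]
      linarith) (fun x u h => if_neg h)
  have f4 := sms_spe hE
  have f5 := sms_far hE (fun x u => if E.far u x then max (-E.K E.s u x) 0 else 0) (fun x u => by
    split_ifs with h
    · have h1 := sms_X hE u x
      unfold GData.K
      rw [if_pos h, abs_of_nonneg (le_max_right _ _)]
      exact max_le (by linarith) hT0.le
    · rw [abs_zero]
      linarith) (fun x u h => if_neg h)
  have f6 := sms_far hE (fun x u => if E.far u x ∧ 1 ≤ E.s.X u x then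
      2 * E.s.X u x * (E.s.X u x ^ 200 - 1) else 0) (fun x u => by
    split_ifs with h
    · have h1 := sms_X hE u x
      have h2 := hs.X_hi u x
      have h3 : E.s.X u x ^ 200 ≤ E.Kc ^ 200 := pow_le_pow_left₀ h1 h2 200
      have h4 : 1 ≤ E.s.X u x ^ 200 := one_le_pow₀ h.2
      rw [abs_of_nonneg (mul_nonneg (by positivity) (by linarith))]
      calc 2 * E.s.X u x * (E.s.X u x ^ 200 - 1) ≤ (E.Kc * E.Kc) * E.Kc ^ 200 := by
            refine mul_le_mul (mul_le_mul (by linarith) h2 h1 (by linarith)) (by linarith)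
              (by linarith) (by positivity)
        _ = E.Kc ^ 202 := by ring
        _ ≤ E.T := GData.os_Kc_pow_T hD (by norm_num)
    · rw [abs_zero]
      linarith) (fun x u h => if_neg fun h' => h h'.1)
  have f7 := sms_far hE (fun x u => if E.far u x ∧ E.s.X u x ≠ 0 ∧ ¬ E.nf E.s u x then
      E.s.X u x else 0) (fun x u => by
    split_ifs with h
    · have h1 := sms_X hE u x
      have h2 := hs.X_hi u x
      have h3 := GData.os_Kc_T hD
      rw [abs_of_nonneg h1]
      linarith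
    · rw [abs_zero]
      linarith) (fun x u h => if_neg fun h' => h h'.1)
  have f8 := sms_gram hE
  have f9 := sms_nbr hE (fun v z => if z ∈ E.N v ∧ E.C z = none then 1 else 0) (fun v z => by
    by_cases h : z ∈ E.N v
    · rw [if_pos h]
      split_ifs <;> simp
    · rw [if_neg h, if_neg fun h' => h h'.1, abs_zero])
  have g1 := f1.and hT f2
  have g2 := (g1.and hT (f3.mono hT (Nat.le_succ _)))
  have g3 := (g2.and hT (f4.mono hT (show 30000 ≤ 30002 by norm_num)))
  have g4 := (g3.and hT (f5.mono hT (show 30000 ≤ 30003 by norm_num)))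
  have g5 := (g4.and hT (f6.mono hT (show 30000 ≤ 30004 by norm_num)))
  have g6 := (g5.and hT (f7.mono hT (show 30000 ≤ 30005 by norm_num)))
  have g7 := (g6.and hT (f8.mono hT (show 30000 ≤ 30006 by norm_num)))
  have g8 := (g7.and hT (f9.mono hT (show 30000 ≤ 30007 by norm_num)))
  refine sms_imp (g8.mono hT (by norm_num)) ?_
  rintro ω ⟨⟨⟨⟨⟨⟨⟨⟨a1, a2⟩, a3⟩, a4⟩, a5⟩, a6⟩, a7⟩, a8⟩, a9⟩
  set U := sampSet ω with hU
  have hn1 : E.n1 = E.k * E.R := by
    unfold GData.n1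
    ring
  constructor
  · -- nbr
    intro v
    show ((U ∩ E.N v).card : ℝ) ≤ E.T ^ 2802
    have h1 := a1 v
    rw [sum_ite_mem, sum_ite_mem, univ_inter, sum_const, sum_const, nsmul_eq_mul, nsmul_eq_mul,
      mul_one, mul_one] at h1
    refine sms_up hR0 (a := E.T ^ 2801) h1 ?_ le_rfl ?_
    · calc ((E.N v).card : ℝ) ≤ E.T ^ 3600 := hD.deg v
        _ = E.T ^ 2801 * E.T ^ 799 := by rw [← pow_add]
        _ ≤ E.T ^ 2801 * E.R := mul_le_mul_of_nonneg_left hD.R_lo (by positivity)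
    · have h2 : E.T ^ 1404 ≤ E.T ^ 2801 := hT.pw (by norm_num)
      have h3 : E.T ^ 2802 = E.T * E.T ^ 2801 := by rw [← pow_succ']
      have h4 : 0 < E.T ^ 2801 := by positivity
      rw [h3]
      nlinarith
  · -- cod
    intro u x hux
    show ((U ∩ cN E.N u x).card : ℝ) ≤ E.T ^ 1603
    have hux' : E.cod u x ≤ E.am := hux
    have h1 := a2 (u, x)
    have e1 : ∑ z ∈ U, (if E.cod u x ≤ E.am ∧ z ∈ cN E.N u x then (1:ℝ) else 0) =
        ((U ∩ cN E.N u x).card : ℝ) := by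
      simp only [hux', true_and]
      rw [sum_ite_mem, sum_const, nsmul_eq_mul, mul_one]
    have e2 : ∑ z, (if E.cod u x ≤ E.am ∧ z ∈ cN E.N u x then (1:ℝ) else 0) = E.cod u x := by
      simp only [hux', true_and]
      rw [sum_ite_mem, univ_inter, sum_const, nsmul_eq_mul, mul_one]
      rfl
    simp only at h1
    rw [e1, e2] at h1
    refine sms_up hR0 (a := E.T ^ 1602) h1 ?_ le_rfl ?_
    · calc E.cod u x ≤ E.T ^ 2401 := hux'.trans hD.am_hi
        _ = E.T ^ 1602 * E.T ^ 799 := by rw [← pow_add]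
        _ ≤ E.T ^ 1602 * E.R := mul_le_mul_of_nonneg_left hD.R_lo (by positivity)
    · have h2 : E.T ^ 806 ≤ E.T ^ 1602 := hT.pw (by norm_num)
      have h3 : E.T ^ 1603 = E.T * E.T ^ 1602 := by rw [← pow_succ']
      have h4 : 0 < E.T ^ 1602 := by positivity
      rw [h3]
      nlinarith
  · -- far
    intro x
    show ((U.filter fun u => E.far u x).card : ℝ) ≤ 2 * E.T ^ 4016
    have h1 := a3 x
    rw [sum_boole, sum_boole] at h1
    refine sms_up hR0 (a := E.T ^ 4016) h1 ?_ le_rfl ?_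
    · calc ((univ.filter fun u => E.far u x).card : ℝ) ≤ E.T ^ 4815 := GData.far_card hD x
        _ = E.T ^ 4016 * E.T ^ 799 := by rw [← pow_add]
        _ ≤ E.T ^ 4016 * E.R := mul_le_mul_of_nonneg_left hD.R_lo (by positivity)
    · have h2 : E.T ^ 2012 ≤ E.T ^ 4016 := hT.pw (by norm_num)
      linarith
  · -- spe
    intro x
    show ((U.filter fun u => E.spe u x).card : ℝ) ≤ E.k / 1950
    have h1 := a4 x
    rw [sum_boole, sum_boole] at h1
    refine sms_up hR0 (a := E.k / 2000 + E.T ^ 2801) h1 ?_ le_rfl ?_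
    · calc ((univ.filter fun u => E.spe u x).card : ℝ) ≤ E.n1 / 2000 + E.T ^ 3600 :=
            GData.spe_card hD x
        _ = E.k / 2000 * E.R + E.T ^ 2801 * E.T ^ 799 := by
            rw [hn1, ← pow_add]
            ring
        _ ≤ E.k / 2000 * E.R + E.T ^ 2801 * E.R :=
            add_le_add le_rfl (mul_le_mul_of_nonneg_left hD.R_lo (by positivity))
        _ = _ := by ring
    · have h2 : E.T ^ 2012 ≤ E.T ^ 2801 := hT.pw (by norm_num)
      have h3 : E.T * E.T ^ 2801 ≤ E.k := by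
        rw [← pow_succ']
        exact (hT.pw (by norm_num)).trans hD.k_lo
      have h4 : 0 < E.T ^ 2801 := by positivity
      have h5 : 1000000 * E.T ^ 2801 ≤ E.k := (mul_le_mul_of_nonneg_right hT6 h4.le).trans h3
      linarith
  · -- neg
    intro x
    show ∑ u ∈ U, (if E.far u x then max (-E.K E.s u x) 0 else 0) ≤ E.Kc ^ 10 * E.k
    have h1 := a5 x
    refine sms_up hR0 (a := E.Kc ^ 5 * E.k) h1 ?_ le_rfl ?_
    · refine (GData.neg_le hD hs hj x).trans (le_of_eq ?_)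
      rw [hn1]
      ring
    · have h2 : E.T ^ 2012 ≤ E.k := by nlinarith
      have h3 : E.Kc ^ 5 + 1 ≤ E.Kc ^ 10 := by
        have h4 : 1 ≤ E.Kc ^ 5 := one_le_pow₀ hKc1
        have h5 : E.Kc ≤ E.Kc ^ 5 := le_self_pow₀ hKc1 (by norm_num)
        have h6 : E.Kc ^ 10 = E.Kc ^ 5 * E.Kc ^ 5 := by ring
        rw [h6]
        nlinarith
      calc E.Kc ^ 5 * E.k + E.T ^ 2012 ≤ E.Kc ^ 5 * E.k + E.k := by linarith
        _ = (E.Kc ^ 5 + 1) * E.k := by ring
        _ ≤ E.Kc ^ 10 * E.k := mul_le_mul_of_nonneg_right h3 hk0.le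
  · -- ex
    intro x
    show ∑ u ∈ U, (if E.far u x ∧ 1 ≤ E.s.X u x then
      2 * E.s.X u x * (E.s.X u x ^ 200 - 1) else 0) ≤ E.Kc ^ 300 * E.k
    have h1 := a6 x
    refine sms_up hR0 (a := E.Kc ^ 220 * E.k) h1 ?_ le_rfl ?_
    · refine (GData.ex_le hD hs hj x).trans (le_of_eq ?_)
      rw [hn1]
      ring
    · have h2 : E.T ^ 2012 ≤ E.k := by nlinarith
      have h3 : E.Kc ^ 220 + 1 ≤ E.Kc ^ 300 := by
        have h4 : 1 ≤ E.Kc ^ 220 := one_le_pow₀ hKc1
        have h5 : E.Kc ≤ E.Kc ^ 80 := le_self_pow₀ hKc1 (by norm_num)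
        have h6 : E.Kc ^ 300 = E.Kc ^ 220 * E.Kc ^ 80 := by rw [← pow_add]
        rw [h6]
        nlinarith
      calc E.Kc ^ 220 * E.k + E.T ^ 2012 ≤ E.Kc ^ 220 * E.k + E.k := by linarith
        _ = (E.Kc ^ 220 + 1) * E.k := by ring
        _ ≤ E.Kc ^ 300 * E.k := mul_le_mul_of_nonneg_right h3 hk0.le
  · -- frz
    intro x
    show ∑ u ∈ U, (if E.far u x ∧ E.s.X u x ≠ 0 ∧ ¬ E.nf E.s u x then E.s.X u x else 0) ≤
      (E.k : ℝ) / 1000
    have h1 := a7 x
    refine sms_up hR0 (a := E.k * (1 / 2000 + 1 / 10 ^ 5)) h1 ?_ le_rfl ?_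
    · refine (GData.frozen_le hD hE.inv hj x).trans (le_of_eq ?_)
      rw [hn1]
      ring
    · have h2 : 1000000 * E.T ^ 2012 ≤ E.k := by nlinarith
      norm_num
      linarith
  · -- gram
    intro y y' hty hyy
    show |∑ u ∈ U, E.K E.s u y * E.K E.s u y'| ≤ E.T ^ 3430
    have hty' : ¬ E.twn E.s y y' := hty
    have h1 := a8 (y, y')
    simp only at h1
    have h2 := GData.gram_le hD hs hj hyy hty'
    unfold GData.Gr at h2
    have h3 : |1 / E.R * ∑ u, E.K E.s u y * E.K E.s u y'| ≤ 3 * E.T ^ 3426 := by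
      rw [abs_mul, abs_of_pos (by positivity), one_div, inv_mul_eq_div, div_le_iff₀ hR0]
      calc |∑ u, E.K E.s u y * E.K E.s u y'| ≤ 3 * E.T ^ 4225 := h2
        _ = 3 * E.T ^ 3426 * E.T ^ 799 := by rw [mul_assoc, ← pow_add]
        _ ≤ 3 * E.T ^ 3426 * E.R := mul_le_mul_of_nonneg_left hD.R_lo (by positivity)
    have h4 : |∑ u ∈ U, E.K E.s u y * E.K E.s u y'| ≤ E.T ^ 2012 + 3 * E.T ^ 3426 := by
      have h5 := abs_add_le (∑ u ∈ U, E.K E.s u y * E.K E.s u y' -
        1 / E.R * ∑ u, E.K E.s u y * E.K E.s u y') (1 / E.R * ∑ u, E.K E.s u y * E.K E.s u y')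
      rw [sub_add_cancel] at h5
      linarith
    have h5 : E.T ^ 2012 ≤ E.T ^ 3426 := hT.pw (by norm_num)
    have h6 : E.T * E.T ^ 3426 ≤ E.T ^ 3430 := by
      rw [← pow_succ']
      exact hT.pw (by norm_num)
    have h7 : 0 < E.T ^ 3426 := by positivity
    nlinarith
  · -- unc
    intro v
    show |((U.filter fun z => z ∈ E.N v ∧ E.C z = none).card : ℝ) -
      E.un E.C v / E.R| ≤ E.T ^ 1500
    have h1 := a9 v
    rw [sum_boole, sum_boole] at h1
    have e1 : 1 / E.R * ((univ.filter fun z => z ∈ E.N v ∧ E.C z = none).card : ℝ) =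
        E.un E.C v / E.R := by
      unfold GData.un
      rw [one_div, inv_mul_eq_div]
      congr 3
      ext z
      simp
    rw [e1] at h1
    exact h1.trans (hT.pw (by norm_num))

end

end

end Pool.Agent.AcyG
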