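import Pool.Agent.AcyG.OSampR
import Pool.Agent.AcyG.OSampS

/-! # The sample: quadratic tests (project MP_af9dfb_G, row OS3) -/

set_option autoImplicit false
set_option linter.unusedSectionVars false

namespace Pool.Agent.AcyG

open Finset
open Pool.Agent.Acy (IsPM wt Ex Pr mean)
open Pool.Agent.AcyK (Big StepOK LocOK prodLaw Un Sel updCol HasC cN)
open scoped Classical

universe u v

section

variable {V AL : Type u} [Fintype V] [DecidableEq V] [Fintype AL]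

/-! ### Numbers and generalities -/

theorem q3_num {T R : ℝ} (hT : Big T) (hR : 1 ≤ R) {t d w : ℝ} (ht : 0 ≤ t) (hd : 0 ≤ d)
    (hw : 0 ≤ w) :
    (1 / R) ^ 2 * t + T ^ 3 * ((d / R + w) + Real.sqrt ((d / R + w) * (t / R + d) / R)) ≤
      2 * t / R ^ 2 + T ^ 8 * (d / R + w) := by
  have hT6 := big_six hT
  have hT0 := hT.pos
  have hR0 : 0 < R := by linarith
  set a := d / R + w with ha
  set b := t / R ^ 2 with hb
  have ha0 : 0 ≤ a := by positivity
  have hb0 : 0 ≤ b := by positivity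
  have e1 : (1 / R) ^ 2 * t = b := by rw [hb]; field_simp
  have e2 : 2 * t / R ^ 2 = 2 * b := by rw [hb]; ring
  have e3 : a * (t / R + d) / R = a * (b + d / R) := by rw [hb]; field_simp
  have h1 : a * (b + d / R) ≤ a * (b + a) :=
    mul_le_mul_of_nonneg_left (by rw [ha]; linarith) ha0
  have h2 : T ^ 3 * Real.sqrt (a * (b + d / R)) ≤ (T ^ 6 * a + (b + a)) / 2 := by
    have e4 : T ^ 3 * Real.sqrt (a * (b + d / R)) = Real.sqrt ((T ^ 3) ^ 2 * (a * (b + d / R))) := by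
      rw [Real.sqrt_mul (show 0 ≤ (T ^ 3) ^ 2 by positivity), Real.sqrt_sq (by positivity)]
    rw [e4]
    refine Real.sqrt_le_iff.2 ⟨by positivity, ?_⟩
    have h3 : (T ^ 3) ^ 2 * (a * (b + d / R)) ≤ (T ^ 6 * a) * (b + a) := by
      calc (T ^ 3) ^ 2 * (a * (b + d / R)) ≤ (T ^ 3) ^ 2 * (a * (b + a)) :=
            mul_le_mul_of_nonneg_left h1 (by positivity)
        _ = _ := by ring
    nlinarith [sq_nonneg (T ^ 6 * a - (b + a))]
  have h3 : T ^ 3 ≤ T ^ 6 := hT.pw (by norm_num)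
  have h4 : (1 : ℝ) ≤ T ^ 6 := one_le_pow₀ hT.one_le
  have h5 : 2 * T ^ 6 ≤ T ^ 8 := by
    have h6 : T ^ 8 = T ^ 2 * T ^ 6 := by ring
    have h7 : 2 ≤ T ^ 2 := by nlinarith
    rw [h6]
    exact mul_le_mul_of_nonneg_right h7 (by positivity)
  have h6 : T ^ 3 * a + (T ^ 6 * a + a) / 2 ≤ T ^ 8 * a := by
    have h7 := mul_le_mul_of_nonneg_right h3 ha0
    have h8 := mul_le_mul_of_nonneg_right h4 ha0
    have h9 := mul_le_mul_of_nonneg_right h5 ha0
    linarith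
  rw [e1, e2, e3, mul_add]
  linarith

theorem q3_imp {α : Type*} [Fintype α] {e e' : ℕ} {T : ℝ} (hT : Big T) {μ : V → α → ℝ}
    {G G' : (V → α) → Prop} (h : LocOK e T μ G) (he : e ≤ e') (hG : ∀ ω, G ω → G' ω) :
    LocOK e' T μ G' := by
  obtain ⟨κ, hκ, E, S, hd, hp, hs, hi, hg⟩ := LocOK.mono hT h he
  exact ⟨κ, hκ, E, S, hd, hp, hs, hi, fun ω hω => hG ω (hg ω hω)⟩

theorem q3_supp {B : Type*} [Fintype B] {w s : B → V → V → ℝ}
    (h : ∀ b z z', w b z z' ≠ 0 → s b z z' ≠ 0) {x : ℝ} (b : B)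
    (hx : ((univ.filter fun z => ∃ z', s b z z' ≠ 0 ∨ s b z' z ≠ 0).card : ℝ) ≤ x) :
    ((qsupp (w b)).card : ℝ) ≤ x := by
  refine le_trans ?_ hx
  have h1 : (qsupp (w b)).card ≤
      (univ.filter fun z => ∃ z', s b z z' ≠ 0 ∨ s b z' z ≠ 0).card := by
    refine card_le_card fun z hz => ?_
    simp only [qsupp, mem_filter, mem_univ, true_and] at hz ⊢
    obtain ⟨z', hz'⟩ := hz
    exact ⟨z', hz'.imp (h b z z') (h b z' z)⟩
  exact_mod_cast h1

theorem q3_deg {B : Type*} [Fintype B] {w s : B → V → V → ℝ}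
    (h : ∀ b z z', w b z z' ≠ 0 → s b z z' ≠ 0) {x : ℝ} (z : V)
    (hx : ((univ.filter fun b => ∃ z', s b z z' ≠ 0 ∨ s b z' z ≠ 0).card : ℝ) ≤ x) :
    ((univ.filter fun b => z ∈ qsupp (w b)).card : ℝ) ≤ x := by
  refine le_trans ?_ hx
  have h1 : (univ.filter fun b => z ∈ qsupp (w b)).card ≤
      (univ.filter fun b => ∃ z', s b z z' ≠ 0 ∨ s b z' z ≠ 0).card := by
    refine card_le_card fun b hb => ?_
    simp only [qsupp, mem_filter, mem_univ, true_and] at hb ⊢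
    obtain ⟨z', hz'⟩ := hb
    exact ⟨z', hz'.imp (h b z z') (h b z' z)⟩
  exact_mod_cast h1

/-- A family of symmetric nonnegative quadratic tests, one-sided. -/
theorem q3_up {T : ℝ} (hT : Big T) {R : ℝ} (hR : 1 ≤ R) (e : ℕ) {B : Type u} [Fintype B]
    (w s : B → V → V → ℝ) (wm dd tot : B → ℝ) (hw0 : ∀ b z z', 0 ≤ w b z z')
    (hwm : ∀ b, 0 ≤ wm b) (hdd : ∀ b, 0 ≤ dd b)
    (hdiag : ∀ b z, w b z z = 0) (hw : ∀ b z z', w b z z' ≤ wm b)
    (hsym : ∀ b z z', w b z z' = w b z' z)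
    (hd : ∀ b z, ∑ z', w b z z' ≤ dd b) (htot : ∀ b, ∑ z, ∑ z', w b z z' ≤ tot b)
    (hs : ∀ b z z', w b z z' ≠ 0 → s b z z' ≠ 0)
    (hsupp : ∀ b, ((univ.filter fun z => ∃ z', s b z z' ≠ 0 ∨ s b z' z ≠ 0).card : ℝ) ≤ T ^ e)
    (hdeg : ∀ z, ((univ.filter fun b => ∃ z', s b z z' ≠ 0 ∨ s b z' z ≠ 0).card : ℝ) ≤ T ^ e)
    (he : e ≤ 60000) :
    LocOK e T (sampLaw V R) (fun ω => ∀ b, ∑ z ∈ sampSet ω, ∑ z' ∈ sampSet ω, w b z z' ≤
      2 * tot b / R ^ 2 + T ^ 8 * (dd b / R + wm b)) := by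
  have habs : ∀ b z z', |w b z z'| = w b z z' := fun b z z' => abs_of_nonneg (hw0 b z z')
  have hR0 : 0 < R := by linarith
  have h1 := samp_quad_loc hT hR e w wm dd tot hwm hdd hdiag
    (fun b z z' => by rw [habs]; exact hw b z z')
    (fun b z => by simp only [habs]; exact hd b z)
    (fun b z' => by simp only [habs, fun z => hsym b z z']; exact hd b z')
    (fun b => by simp only [habs]; exact htot b)
    (fun b => q3_supp hs b (hsupp b)) (fun z => q3_deg hs z (hdeg z)) he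
  refine q3_imp hT h1 le_rfl fun ω hω b => ?_
  have h2 := (abs_le.1 (hω b)).2
  have h3 : (1 / R) ^ 2 * ∑ z, ∑ z', w b z z' ≤ (1 / R) ^ 2 * tot b :=
    mul_le_mul_of_nonneg_left (htot b) (by positivity)
  have ht : 0 ≤ tot b := (sum_nonneg fun z _ => sum_nonneg fun z' _ => hw0 b z z').trans (htot b)
  have h4 := q3_num hT hR ht (hdd b) (hwm b)
  linarith

namespace GSt

variable {Lb : Type u} [Fintype Lb] {E : GSt V Lb AL}

theorem q3_R_one (hE : E.Ok) : 1 ≤ E.R :=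
  (one_le_pow₀ hE.dat.big.one_le).trans hE.dat.R_lo

theorem q3_iSup_ne {f : Lb → ℝ} (hf : ∀ l, 0 ≤ f l) (h : ∃ l, f l ≠ 0) : (⨆ l, f l) ≠ 0 := by
  obtain ⟨l, hl⟩ := h
  have h1 : 0 < f l := lt_of_le_of_ne (hf l) (Ne.symm hl)
  exact (lt_of_lt_of_le h1 (le_ciSup (Set.finite_range f).bddAbove l)).ne'

/-- Average of a bounded function. -/
theorem q3_avg (hE : E.Ok) (z z' : V) {f : Lb → ℝ} {m : ℝ} (h : ∀ l, f l ≤ m) :
    ∑ l, E.μ z z' l * f l ≤ m := by
  calc ∑ l, E.μ z z' l * f l ≤ ∑ l, E.μ z z' l * m :=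
        sum_le_sum fun l _ => mul_le_mul_of_nonneg_left (h l) (hE.cols.mu_nonneg z z' l)
    _ = m := by rw [← sum_mul, hE.cols.mu_sum, one_mul]

theorem q3_avg_nonneg (hE : E.Ok) (z z' : V) {f : Lb → ℝ} (h : ∀ l, 0 ≤ f l) :
    0 ≤ ∑ l, E.μ z z' l * f l :=
  sum_nonneg fun l _ => mul_nonneg (hE.cols.mu_nonneg z z' l) (h l)

theorem q3_avg_ne {z z' : V} {f : Lb → ℝ} (h : ∑ l, E.μ z z' l * f l ≠ 0) : ∃ l, f l ≠ 0 := by
  obtain ⟨l, -, hl⟩ := exists_ne_zero_of_sum_ne_zero h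
  exact ⟨l, right_ne_zero_of_mul hl⟩

theorem q3_mn_abs (hE : E.Ok) (w : V → V → Lb → ℝ) (z z' : V) :
    |E.mn w z z'| ≤ ∑ l, E.μ z z' l * |w z z' l| := by
  unfold mn
  refine (abs_sum_le_sum_abs _ _).trans (sum_le_sum fun l _ => ?_)
  rw [abs_mul, abs_of_nonneg (hE.cols.mu_nonneg z z' l)]

/-! ### Effects -/

theorem q3_gu_le (hE : E.Ok) (l : Lb) (z z' x y : V) : |E.gu l z z' x y| ≤ E.T := by
  have hK := GData.os_Kc_T hE.dat
  have hB1 := hE.Bx_one
  have hB : E.Bx ≤ E.Kc := by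
    have h1 : 1 ≤ E.Cx := by
      unfold Cx
      have a1 := hE.dat.H_one
      have a2 := hE.tau_pos
      have a3 := hE.q0_pos
      have a4 : 0 ≤ E.B0 * (1 + E.H / E.tau) := by positivity
      have a5 : 0 ≤ E.q0 * (E.H * (1 + E.H / E.tau)) := by positivity
      linarith
    exact (le_mul_of_one_le_right (by linarith) h1).trans hE.Bx_le
  unfold gu
  split_ifs with h
  · by_cases h1 : (E.sd E.s).lnk z z' x y
    · rw [hE.cols.kill l z z' x y h1, abs_neg, abs_one]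
      linarith
    · rcases hE.cols.vals l z z' x y h1 with h2 | ⟨h2, h3⟩
      · rw [h2, abs_zero]
        linarith
      · rw [abs_of_nonneg (by linarith)]
        linarith
  · rw [abs_zero]
    linarith

theorem q3_gu_zero (hE : E.Ok) (l : Lb) {z z' : V} (h : E.chi E.s z z' = 0) (x y : V) :
    E.gu l z z' x y = 0 := by
  unfold gu
  split_ifs with h1
  · by_contra h2
    by_cases h3 : (E.sd E.s).lnk z z' x y
    · exact h3.1 h
    · exact (hE.cols.supp l z z' x y h3 h2).2.2.1 h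
  · rfl

theorem q3_chi_diag (z : V) : E.chi E.s z z = 0 := by
  by_contra h
  exact GData.os_chi_ne h rfl

theorem q3_gu_symm (hE : E.Ok) (l : Lb) (z z' x y : V) : E.gu l z z' x y = E.gu l z' z x y := by
  unfold gu
  rw [hE.cols.symm1]

theorem q3_dB_nonneg (hE : E.Ok) (b : Krn V AL) : 0 ≤ E.dB b := by
  have h0 := GData.os_T_pos hE.dat
  rcases b with b | b | α
  · exact pow_nonneg h0.le _
  · exact pow_nonneg h0.le _
  · have h1 : 0 ≤ E.La α :=
      (mul_nonneg (pow_nonneg h0.le _) (hE.dat.s0_pos α).le).trans (hE.dat.num0 α)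
    exact mul_nonneg (pow_nonneg h0.le _) h1

/-! ### Numbers of the kernels -/

theorem q3_div (hE : E.Ok) {x y : ℝ} (hy : 0 ≤ y) (h : x ≤ y * E.T ^ 799) : x / E.R ≤ y := by
  rw [div_le_iff₀ (GData.os_R_pos hE.dat)]
  exact h.trans (mul_le_mul_of_nonneg_left hE.dat.R_lo hy)

theorem q3_kR (hE : E.Ok) : E.k / E.R ≤ E.T ^ 3201 := by
  refine q3_div hE (pow_nonneg (GData.os_T_pos hE.dat).le _) ?_
  rw [← pow_add]
  exact hE.dat.k_hi

theorem q3_af_num (hE : E.Ok) :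
    2 * (E.T * E.n1) / E.R ^ 2 + E.T ^ 8 * (E.T ^ 2402 / E.R + E.T) ≤ E.T ^ 3210 := by
  have hT := hE.dat.big
  have hT6 := big_six hT
  have hT0 := hT.pos
  have hR := GData.os_R_pos hE.dat
  have h1 : 2 * (E.T * E.n1) / E.R ^ 2 ≤ E.T ^ 3203 := by
    have e1 : 2 * (E.T * E.n1) / E.R ^ 2 = 2 * E.T * (E.k / E.R) := by
      unfold GData.n1
      field_simp
    rw [e1]
    calc 2 * E.T * (E.k / E.R) ≤ 2 * E.T * E.T ^ 3201 :=
          mul_le_mul_of_nonneg_left (q3_kR hE) (by positivity)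
      _ ≤ E.T * E.T * E.T ^ 3201 :=
          mul_le_mul_of_nonneg_right (mul_le_mul_of_nonneg_right (by linarith) hT0.le)
            (by positivity)
      _ = E.T ^ 3203 := by ring
  have h2 : E.T ^ 2402 / E.R ≤ E.T ^ 1603 :=
    q3_div hE (by positivity) (by rw [← pow_add])
  have h3 : E.T ≤ E.T ^ 1603 := by
    have := hT.pw (show 1 ≤ 1603 by norm_num)
    rwa [pow_one] at this
  have h4 : E.T ^ 8 * (E.T ^ 2402 / E.R + E.T) ≤ E.T ^ 3203 := by
    calc E.T ^ 8 * (E.T ^ 2402 / E.R + E.T) ≤ E.T ^ 8 * (E.T * E.T ^ 1603) :=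
          mul_le_mul_of_nonneg_left (by nlinarith [pow_pos hT0 1603]) (by positivity)
      _ = E.T ^ 1612 := by ring
      _ ≤ E.T ^ 3203 := hT.pw (by norm_num)
  have h5 : E.T ^ 3210 = E.T ^ 7 * E.T ^ 3203 := by rw [← pow_add]
  have h6 : 2 ≤ E.T ^ 7 := by
    have := hT.pw (show 1 ≤ 7 by norm_num)
    rw [pow_one] at this
    linarith
  have h7 := mul_le_mul_of_nonneg_right h6 (pow_nonneg hT0.le 3203)
  rw [h5]
  linarith

theorem q3_tb (hE : E.Ok) (b : Krn V AL) :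
    2 * E.tB b / E.R ^ 2 + E.T ^ 8 * (E.dB b / E.R + E.wb b) ≤ E.tb b := by
  have hT := hE.dat.big
  have hT6 := big_six hT
  have hT0 := hT.pos
  have hR := GData.os_R_pos hE.dat
  have hk0 := (GData.os_k_pos hE.dat).le
  have main : 2 * (E.T * E.n1 ^ 2) / E.R ^ 2 + E.T ^ 8 * (E.T ^ 7220 / E.R + E.T ^ 2403) ≤
      E.T ^ 8031 := by
    have h1 : 2 * (E.T * E.n1 ^ 2) / E.R ^ 2 ≤ E.T ^ 8002 := by
      have e1 : 2 * (E.T * E.n1 ^ 2) / E.R ^ 2 = 2 * E.T * (E.k * E.k) := by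
        unfold GData.n1
        field_simp
      rw [e1]
      calc 2 * E.T * (E.k * E.k) ≤ 2 * E.T * (E.T ^ 4000 * E.T ^ 4000) :=
            mul_le_mul_of_nonneg_left (mul_le_mul hE.dat.k_hi hE.dat.k_hi hk0 (by positivity))
              (by positivity)
        _ ≤ E.T * E.T * (E.T ^ 4000 * E.T ^ 4000) :=
            mul_le_mul_of_nonneg_right (mul_le_mul_of_nonneg_right (by linarith) hT0.le)
              (by positivity)
        _ = E.T ^ 8002 := by ring
    have h2 : E.T ^ 7220 / E.R ≤ E.T ^ 6421 :=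
      q3_div hE (by positivity) (by rw [← pow_add])
    have h3 : E.T ^ 2403 ≤ E.T ^ 6421 := hT.pw (by norm_num)
    have h4 : E.T ^ 8 * (E.T ^ 7220 / E.R + E.T ^ 2403) ≤ E.T ^ 8002 := by
      calc E.T ^ 8 * (E.T ^ 7220 / E.R + E.T ^ 2403) ≤ E.T ^ 8 * (E.T * E.T ^ 6421) :=
            mul_le_mul_of_nonneg_left (by nlinarith [pow_pos hT0 6421]) (by positivity)
        _ = E.T ^ 6430 := by ring
        _ ≤ E.T ^ 8002 := hT.pw (by norm_num)
    have h5 : E.T ^ 8031 = E.T ^ 29 * E.T ^ 8002 := by rw [← pow_add]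
    have h6 : 2 ≤ E.T ^ 29 := by
      have := hT.pw (show 1 ≤ 29 by norm_num)
      rw [pow_one] at this
      linarith
    have h7 := mul_le_mul_of_nonneg_right h6 (pow_nonneg hT0.le 8002)
    rw [h5]
    linarith
  rcases b with b | b | α
  · exact main
  · exact main
  · have hL : 0 ≤ E.La α :=
      (mul_nonneg (pow_nonneg hT0.le _) (hE.dat.s0_pos α).le).trans (hE.dat.num0 α)
    have hs := hE.dat.s1_pos α
    show 2 * (E.T * E.n1 * E.La α) / E.R ^ 2 + E.T ^ 8 * (E.T ^ 2404 * E.La α / E.R +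
      E.T ^ 2 * E.s1 α) ≤ E.T ^ 3213 * E.La α
    have h1 : 2 * (E.T * E.n1 * E.La α) / E.R ^ 2 ≤ E.T ^ 3203 * E.La α := by
      have e1 : 2 * (E.T * E.n1 * E.La α) / E.R ^ 2 = 2 * E.T * (E.k / E.R) * E.La α := by
        unfold GData.n1
        field_simp
      rw [e1]
      refine mul_le_mul_of_nonneg_right ?_ hL
      calc 2 * E.T * (E.k / E.R) ≤ 2 * E.T * E.T ^ 3201 :=
            mul_le_mul_of_nonneg_left (q3_kR hE) (by positivity)
        _ ≤ E.T * E.T * E.T ^ 3201 :=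
            mul_le_mul_of_nonneg_right (mul_le_mul_of_nonneg_right (by linarith) hT0.le)
              (by positivity)
        _ = E.T ^ 3203 := by ring
    have h2 : E.T ^ 2404 * E.La α / E.R ≤ E.T ^ 1605 * E.La α := by
      refine q3_div hE (mul_nonneg (pow_nonneg hT0.le _) hL) (le_of_eq ?_)
      rw [show (2404 : ℕ) = 1605 + 799 from rfl, pow_add]
      ring
    have h3 : E.T ^ 2 * E.s1 α ≤ E.T ^ 1605 * E.La α := by
      calc E.T ^ 2 * E.s1 α ≤ E.T ^ 1500 * E.s1 α :=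
            mul_le_mul_of_nonneg_right (hT.pw (by norm_num)) hs.le
        _ ≤ E.La α := hE.dat.num1 α
        _ ≤ E.T ^ 1605 * E.La α := le_mul_of_one_le_left hL (one_le_pow₀ hT.one_le)
    have h4 : E.T ^ 8 * (E.T ^ 2404 * E.La α / E.R + E.T ^ 2 * E.s1 α) ≤
        E.T ^ 3203 * E.La α := by
      calc E.T ^ 8 * (E.T ^ 2404 * E.La α / E.R + E.T ^ 2 * E.s1 α) ≤
            E.T ^ 8 * (E.T * (E.T ^ 1605 * E.La α)) := by
            refine mul_le_mul_of_nonneg_left ?_ (by positivity)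
            have : 0 ≤ E.T ^ 1605 * E.La α := mul_nonneg (pow_nonneg hT0.le _) hL
            nlinarith
        _ = E.T ^ 1614 * E.La α := by ring
        _ ≤ E.T ^ 3203 * E.La α := mul_le_mul_of_nonneg_right (hT.pw (by norm_num)) hL
    have h5 : E.T ^ 3213 * E.La α = E.T ^ 10 * (E.T ^ 3203 * E.La α) := by
      rw [show (3213 : ℕ) = 10 + 3203 from rfl, pow_add]
      ring
    have h6 : 2 ≤ E.T ^ 10 := by
      have := hT.pw (show 1 ≤ 10 by norm_num)
      rw [pow_one] at this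
      linarith
    have h7 := mul_le_mul_of_nonneg_right h6 (mul_nonneg (pow_nonneg hT0.le 3203) hL)
    rw [h5]
    linarith

/-! ### The four families -/

theorem q3_tot_loc (hE : E.Ok) : LocOK 36990 E.T (sampLaw V E.R) (fun ω => ∀ i,
    ∑ z ∈ sampSet ω, ∑ z' ∈ sampSet ω, (∑ l, E.μ z z' l * |E.W i z z' l|) ≤ E.tot i) := by
  have hT := hE.dat.big
  have h := q3_up hT (q3_R_one hE) 36990
    (fun i z z' => ∑ l, E.μ z z' l * |E.W i z z' l|) E.ws E.wm E.dV E.tV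
    (fun i z z' => q3_avg_nonneg hE z z' fun l => abs_nonneg _)
    (fun i => (wm_pos hE i).le) (fun i => dV_nonneg hE i)
    (fun i z => by
      by_contra h1
      obtain ⟨l, hl⟩ := q3_avg_ne h1
      exact (W_ne hE (abs_ne_zero.1 hl)).1 (q3_chi_diag z))
    (fun i z z' => q3_avg hE z z' fun l => W_le hE i z z' l)
    (fun i z z' => sum_congr rfl fun l _ => by rw [hE.cols.mu_symm, W_symm hE i z z' l])
    (fun i z => W_row hE i z) (fun i => W_tot hE i)
    (fun i z z' h1 => q3_iSup_ne (fun l => abs_nonneg _) (q3_avg_ne h1))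
    (fun i => (ws_supp hE i).trans (hT.pw (by norm_num)))
    (fun z => (ws_deg hE z).trans (hT.pw (by norm_num))) (by norm_num)
  exact h

theorem q3_quad_loc (hE : E.Ok) : LocOK 36990 E.T (sampLaw V E.R) (fun ω => ∀ i,
    |∑ z ∈ sampSet ω, ∑ z' ∈ sampSet ω, E.chi E.s z z' * E.mn (E.W i) z z' -
    (1 / E.R) ^ 2 * ∑ z, ∑ z', E.chi E.s z z' * E.mn (E.W i) z z'| ≤
    E.T ^ 4 * ((E.dV i / E.R + E.wm i) +
      Real.sqrt ((E.dV i / E.R + E.wm i) * (E.tV i / E.R + E.dV i) / E.R))) := by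
  have hT := hE.dat.big
  have hT0 := hT.pos
  have hR := GData.os_R_pos hE.dat
  have hK1 := GData.os_Kc_one hE.dat
  have hKT := GData.os_Kc_T hE.dat
  have hI := hE.inv.toSInv
  have hwm : ∀ i, 0 ≤ E.wm i := fun i => (wm_pos hE i).le
  have hdd : ∀ i, 0 ≤ E.dV i := fun i => dV_nonneg hE i
  have key : ∀ i z z', |E.chi E.s z z' * E.mn (E.W i) z z'| ≤
      E.Kc * ∑ l, E.μ z z' l * |E.W i z z' l| := by
    intro i z z'
    rw [abs_mul, abs_of_nonneg (GData.os_chi_nonneg hI z z')]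
    exact mul_le_mul (GData.os_chi_le hE.dat hI z z') (q3_mn_abs hE _ z z') (abs_nonneg _)
      (by linarith)
  have hrow : ∀ i z, ∑ z', |E.chi E.s z z' * E.mn (E.W i) z z'| ≤ E.Kc * E.dV i := by
    intro i z
    calc ∑ z', |E.chi E.s z z' * E.mn (E.W i) z z'| ≤
          ∑ z', E.Kc * ∑ l, E.μ z z' l * |E.W i z z' l| := sum_le_sum fun z' _ => key i z z'
      _ = E.Kc * ∑ z', ∑ l, E.μ z z' l * |E.W i z z' l| := by rw [mul_sum]
      _ ≤ E.Kc * E.dV i := mul_le_mul_of_nonneg_left (W_row hE i z) (by linarith)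
  have hsym : ∀ i z z', E.chi E.s z z' * E.mn (E.W i) z z' =
      E.chi E.s z' z * E.mn (E.W i) z' z := by
    intro i z z'
    have e1 : E.mn (E.W i) z z' = E.mn (E.W i) z' z := by
      unfold mn
      exact sum_congr rfl fun l _ => by rw [hE.cols.mu_symm, W_symm hE i z z' l]
    rw [e1, GData.os_chi_symm hE.dat hI z z']
  have hne : ∀ i z z', E.chi E.s z z' * E.mn (E.W i) z z' ≠ 0 → E.ws i z z' ≠ 0 := by
    intro i z z' h1
    obtain ⟨l, hl⟩ := q3_avg_ne (right_ne_zero_of_mul h1)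
    exact q3_iSup_ne (f := fun l => |E.W i z z' l|) (fun l => abs_nonneg _)
      ⟨l, abs_ne_zero.2 hl⟩
  have h := samp_quad_loc hT (q3_R_one hE) 36990
    (fun i z z' => E.chi E.s z z' * E.mn (E.W i) z z')
    (fun i => E.Kc * E.wm i) (fun i => E.Kc * E.dV i) (fun i => E.Kc * E.tV i)
    (fun i => mul_nonneg (by linarith) (hwm i)) (fun i => mul_nonneg (by linarith) (hdd i))
    (fun i z => by rw [q3_chi_diag, zero_mul])
    (fun i z z' => (key i z z').trans (mul_le_mul_of_nonneg_left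
      (q3_avg hE z z' fun l => W_le hE i z z' l) (by linarith)))
    hrow
    (fun i z' => by
      rw [sum_congr rfl fun z _ => by rw [hsym i z z']]
      exact hrow i z')
    (fun i => by
      calc ∑ z, ∑ z', |E.chi E.s z z' * E.mn (E.W i) z z'| ≤
            ∑ z, ∑ z', E.Kc * ∑ l, E.μ z z' l * |E.W i z z' l| :=
            sum_le_sum fun z _ => sum_le_sum fun z' _ => key i z z'
        _ = E.Kc * ∑ z, ∑ z', ∑ l, E.μ z z' l * |E.W i z z' l| := by
            simp only [mul_sum]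
        _ ≤ E.Kc * E.tV i := mul_le_mul_of_nonneg_left (W_tot hE i) (by linarith))
    (fun i => q3_supp hne i ((ws_supp hE i).trans (hT.pw (by norm_num))))
    (fun z => q3_deg hne z ((ws_deg hE z).trans (hT.pw (by norm_num)))) (by norm_num)
  refine q3_imp hT h le_rfl fun ω hω i => (hω i).trans ?_
  have e1 : E.Kc * E.dV i / E.R + E.Kc * E.wm i = E.Kc * (E.dV i / E.R + E.wm i) := by ring
  have e2 : E.Kc * (E.dV i / E.R + E.wm i) * (E.Kc * E.tV i / E.R + E.Kc * E.dV i) / E.R =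
      E.Kc ^ 2 * ((E.dV i / E.R + E.wm i) * (E.tV i / E.R + E.dV i) / E.R) := by ring
  rw [e1, e2, Real.sqrt_mul (sq_nonneg _), Real.sqrt_sq (by linarith), ← mul_add, ← mul_assoc]
  refine mul_le_mul_of_nonneg_right ?_ ?_
  · calc E.T ^ 3 * E.Kc ≤ E.T ^ 3 * E.T := mul_le_mul_of_nonneg_left hKT (by positivity)
      _ = E.T ^ 4 := by ring
  · exact add_nonneg (add_nonneg (div_nonneg (hdd i) hR.le) (hwm i)) (Real.sqrt_nonneg _)

theorem q3_af_loc (hE : E.Ok) : LocOK 36990 E.T (sampLaw V E.R) (fun ω => ∀ P,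
    ∑ z ∈ sampSet ω, ∑ z' ∈ sampSet ω, (∑ l, E.μ z z' l * E.af z z' l P) ≤ E.T ^ 3210) := by
  have hT := hE.dat.big
  have hT0 := hT.pos
  have haf : ∀ (P : V × V) (z z' : V) (l : Lb), 0 ≤ E.af z z' l P := fun P z z' l => abs_nonneg _
  have h := q3_up hT (q3_R_one hE) 36990
    (fun (P : V × V) z z' => ∑ l, E.μ z z' l * E.af z z' l P)
    (fun P z z' => ⨆ l, E.af z z' l P) (fun _ => E.T) (fun _ => E.T ^ 2402)
    (fun _ => E.T * E.n1)
    (fun P z z' => q3_avg_nonneg hE z z' fun l => haf P z z' l)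
    (fun P => hT0.le) (fun P => pow_nonneg hT0.le _)
    (fun P z => by
      by_contra h1
      obtain ⟨l, hl⟩ := q3_avg_ne h1
      exact (abs_ne_zero.1 hl) (q3_gu_zero hE l (q3_chi_diag z) P.1 P.2))
    (fun P z z' => q3_avg hE z z' fun l => q3_gu_le hE l z z' P.1 P.2)
    (fun P z z' => sum_congr rfl fun l _ => by
      unfold af
      rw [hE.cols.mu_symm, q3_gu_symm hE l z z'])
    (fun P z => af_row hE z P) (fun P => af_tot hE P)
    (fun P z z' h1 => q3_iSup_ne (fun l => haf P z z' l) (q3_avg_ne h1))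
    (fun P => (afs_supp hE P).trans (hT.pw (by norm_num)))
    (fun z => (afs_deg hE z).trans (hT.pw (by norm_num))) (by norm_num)
  exact q3_imp hT h le_rfl fun ω hω P => (hω P).trans (q3_af_num hE)

theorem q3_b_loc (hE : E.Ok) : LocOK 36990 E.T (sampLaw V E.R) (fun ω => ∀ b,
    ∑ z ∈ sampSet ω, ∑ z' ∈ sampSet ω, (∑ l, E.μ z z' l * E.wK b z z' l) ≤ E.tb b) := by
  have hT := hE.dat.big
  have h := q3_up hT (q3_R_one hE) 36990
    (fun b z z' => ∑ l, E.μ z z' l * E.wK b z z' l)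
    (fun b z z' => ⨆ l, E.wK b z z' l) E.wb E.dB E.tB
    (fun b z z' => q3_avg_nonneg hE z z' fun l => wK_nonneg hE b z z' l)
    (fun b => (wb_pos hE b).le) (fun b => q3_dB_nonneg hE b)
    (fun b z => by
      by_contra h1
      obtain ⟨l, hl⟩ := q3_avg_ne h1
      exact (wK_ne hE hl).1 (q3_chi_diag z))
    (fun b z z' => q3_avg hE z z' fun l => wK_le hE b z z' l)
    (fun b z z' => sum_congr rfl fun l _ => by rw [hE.cols.mu_symm, wK_symm hE b z z' l])
    (fun b z => wK_row hE b z) (fun b => wK_tot hE b)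
    (fun b z z' h1 => q3_iSup_ne (fun l => wK_nonneg hE b z z' l) (q3_avg_ne h1))
    (fun b => (wKs_supp hE b).trans (hT.pw (by norm_num)))
    (fun z => (wKs_deg hE z).trans (hT.pw (by norm_num))) (by norm_num)
  exact q3_imp hT h le_rfl fun ω hω b => (hω b).trans (q3_tb hE b)

end GSt

/-- Fields `tot`, `quad`, `aftot`, `btot`. -/
structure GSm.GoodQ {Lb : Type u} [Fintype Lb] (E : GSm V Lb AL) : Prop where
  tot : ∀ i, ∑ z ∈ E.U, ∑ z' ∈ E.U, (∑ l, E.μ z z' l * |E.W i z z' l|) ≤ E.tot i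
  quad : ∀ i, |∑ z ∈ E.U, ∑ z' ∈ E.U, E.chi E.s z z' * E.mn (E.W i) z z' -
    (1 / E.R) ^ 2 * ∑ z, ∑ z', E.chi E.s z z' * E.mn (E.W i) z z'| ≤
    E.T ^ 4 * ((E.dV i / E.R + E.wm i) +
      Real.sqrt ((E.dV i / E.R + E.wm i) * (E.tV i / E.R + E.dV i) / E.R))
  aftot : ∀ P, ∑ z ∈ E.U, ∑ z' ∈ E.U, (∑ l, E.μ z z' l * E.af z z' l P) ≤ E.T ^ 3210
  btot : ∀ b, ∑ z ∈ E.U, ∑ z' ∈ E.U, (∑ l, E.μ z z' l * E.wK b z z' l) ≤ E.tb b

theorem goodQ_loc {Lb : Type u} [Fintype Lb] {E : GSt V Lb AL} (hE : E.Ok) :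
    LocOK 37000 E.T (sampLaw V E.R) (fun ω => (E.smp (sampSet ω)).GoodQ) := by
  have hT := hE.dat.big
  have h1 := LocOK.and hT (GSt.q3_tot_loc hE) (GSt.q3_quad_loc hE)
  have h2 := LocOK.and hT (GSt.q3_af_loc hE) (GSt.q3_b_loc hE)
  refine q3_imp hT (LocOK.and hT h1 h2) (by norm_num) fun ω hω => ?_
  exact ⟨hω.1.1, hω.1.2, hω.2.1, hω.2.2⟩

/-- The sample is typical. -/
theorem goodAll_loc {Lb : Type u} [Fintype Lb] {E : GSt V Lb AL} (hE : E.Ok) :
    LocOK 37010 E.T (sampLaw V E.R) (fun ω => (E.smp (sampSet ω)).Good) := by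
  have hT := hE.dat.big
  have h1 := LocOK.mono hT (goodS_loc hE) (show 30010 ≤ 37000 by norm_num)
  have h2 := LocOK.and hT h1 (goodR_loc hE)
  have h3 := LocOK.and hT h2 (LocOK.mono hT (goodQ_loc hE) (show 37000 ≤ 37001 by norm_num))
  refine q3_imp hT h3 (by norm_num) fun ω hω => ?_
  obtain ⟨⟨hs, hr⟩, hq⟩ := hω
  exact
    { nbr := hs.nbr
      cod := hs.cod
      far := hs.far
      spe := hs.spe
      neg := hs.neg
      ex := hs.ex
      frz := hs.frz
      gram := hs.gram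
      unc := hs.unc
      row := hr.row
      rowS := hr.rowS
      tot := hq.tot
      quad := hq.quad
      afrow := hr.afrow
      aftot := hq.aftot
      asrow := hr.asrow
      bsrow := hr.bsrow
      brow := hr.brow
      btot := hq.btot
      cwrow := hr.cwrow }

end

end Pool.Agent.AcyG
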