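import Pool.Agent.AcyG.OTabK
import Pool.Agent.AcyG.OSampS
import Pool.Agent.AcyK.DBase

/-! # The sample of a stage: the rows (project MP_af9dfb_G, row OS2) -/

set_option autoImplicit false
set_option linter.unusedSectionVars false

namespace Pool.Agent.AcyG

open Finset
open Pool.Agent.Acy (IsPM wt Ex Pr mean)
open Pool.Agent.AcyK (Big StepOK LocOK prodLaw Un Sel updCol HasC cN)
open scoped Classical

universe u v

section

variable {V AL : Type u} [Fintype V] [DecidableEq V] [Fintype AL]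

/-- Fields `row`, `rowS`, `afrow`, `asrow`, `bsrow`, `brow`, `cwrow`. -/
structure GSm.GoodR {Lb : Type u} [Fintype Lb] (E : GSm V Lb AL) : Prop where
  row : ∀ i z, ∑ z' ∈ E.U, (∑ l, E.μ z z' l * |E.W i z z' l|) ≤ E.d1 i
  rowS : ∀ i z, ∑ z' ∈ E.U, E.ws i z z' ≤ E.T ^ 4100 * E.wm i
  afrow : ∀ z P, ∑ z' ∈ E.U, (∑ l, E.μ z z' l * E.af z z' l P) ≤ E.T ^ 1604
  asrow : ∀ z P, ∑ z' ∈ E.U, (⨆ l, E.af z z' l P) ≤ E.T ^ 4100 * E.T
  bsrow : ∀ b z, ∑ z' ∈ E.U, (⨆ l, E.wK b z z' l) ≤ E.T ^ 4100 * E.wb b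
  brow : ∀ b z, ∑ z' ∈ E.U, (∑ l, E.μ z z' l * E.wK b z z' l) ≤ E.db b
  cwrow : ∀ x z, ∑ z' ∈ E.U, (E.cw x z z' + E.cw x z' z) ≤ E.T ^ 5206

/-- The rows of a family of kernels. -/
theorem osr_rows {T : ℝ} (hT : Big T) {R : ℝ} (hR : 1 ≤ R) {ι : Type u} [Fintype ι]
    (f : ι → V → V → ℝ) (gm gs bd : ι → ℝ) (h0 : ∀ i z z', 0 ≤ f i z z')
    (hgm : ∀ i, 0 ≤ gm i) (hm : ∀ i z z', f i z z' ≤ gm i) (hs : ∀ i z, ∑ z', f i z z' ≤ gs i)
    (hsupp : ∀ i, ((univ.filter fun z => ∃ z', f i z z' ≠ 0 ∨ f i z' z ≠ 0).card : ℝ) ≤ T ^ 15000)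
    (hdeg : ∀ z, ((univ.filter fun i => ∃ z', f i z z' ≠ 0 ∨ f i z' z ≠ 0).card : ℝ) ≤ T ^ 21000)
    (hbd : ∀ i, 2 * gs i / R + T ^ 4 * gm i ≤ bd i) :
    LocOK 36000 T (sampLaw V R) (fun ω => ∀ i z, ∑ z' ∈ sampSet ω, f i z z' ≤ bd i) := by
  have hT6 := big_six hT
  have hT0 := hT.pos
  have hR0 : 0 < R := by linarith
  have h1 := samp_lin_loc hT hR 36000 (A := ι × V) (fun a z' => f a.1 a.2 z')
    (fun a => gm a.1) (fun a => gs a.1) (fun a => hgm a.1)
    (fun a z => by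
      show |f a.1 a.2 z| ≤ gm a.1
      rw [abs_of_nonneg (h0 _ _ _)]; exact hm _ _ _)
    (fun a => by
      show ∑ z, |f a.1 a.2 z| ≤ gs a.1
      refine le_trans (le_of_eq (sum_congr rfl fun z _ => abs_of_nonneg (h0 _ _ _))) (hs _ _))
    (fun a => by
      refine le_trans ?_ ((hsupp a.1).trans (hT.pw (by norm_num)))
      have : (univ.filter fun z => f a.1 a.2 z ≠ 0) ⊆
          univ.filter fun z => ∃ z', f a.1 z z' ≠ 0 ∨ f a.1 z' z ≠ 0 := by
        intro z hz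
        simp only [mem_filter, mem_univ, true_and] at hz ⊢
        exact ⟨a.2, Or.inr hz⟩
      exact_mod_cast card_le_card this)
    (fun z => by
      have h2 : (univ.filter fun a : ι × V => f a.1 a.2 z ≠ 0) ⊆
          (univ.filter fun i => ∃ z', f i z z' ≠ 0 ∨ f i z' z ≠ 0).biUnion fun i =>
            ({i} : Finset ι) ×ˢ (univ.filter fun z₁ => ∃ z', f i z₁ z' ≠ 0 ∨ f i z' z₁ ≠ 0) := by
        intro a ha
        simp only [mem_filter, mem_univ, true_and, mem_biUnion, mem_product, mem_singleton] at ha ⊢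
        exact ⟨a.1, ⟨a.2, Or.inr ha⟩, rfl, ⟨z, Or.inl ha⟩⟩
      have h3 : ((univ.filter fun a : ι × V => f a.1 a.2 z ≠ 0).card : ℝ) ≤
          ∑ i ∈ (univ.filter fun i => ∃ z', f i z z' ≠ 0 ∨ f i z' z ≠ 0), T ^ 15000 := by
        have h4 := (card_le_card h2).trans card_biUnion_le
        have h5 : ((univ.filter fun a : ι × V => f a.1 a.2 z ≠ 0).card : ℝ) ≤
            ((∑ i ∈ (univ.filter fun i => ∃ z', f i z z' ≠ 0 ∨ f i z' z ≠ 0),
              (({i} : Finset ι) ×ˢ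
                (univ.filter fun z₁ => ∃ z', f i z₁ z' ≠ 0 ∨ f i z' z₁ ≠ 0)).card : ℕ) : ℝ) := by
          exact_mod_cast h4
        refine h5.trans ?_
        push_cast
        refine sum_le_sum fun i _ => ?_
        rw [card_product, card_singleton, one_mul]
        exact hsupp i
      rw [sum_const, nsmul_eq_mul] at h3
      refine h3.trans ?_
      calc ((univ.filter fun i => ∃ z', f i z z' ≠ 0 ∨ f i z' z ≠ 0).card : ℝ) * T ^ 15000
          ≤ T ^ 21000 * T ^ 15000 := mul_le_mul_of_nonneg_right (hdeg z) (by positivity)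
        _ = T ^ 36000 := by rw [← pow_add])
  refine Pool.Agent.AcyK.LocOK.imp h1 fun ω hω i z => ?_
  have h2 := (abs_le.1 (hω (i, z))).2
  have h3 : ∑ z', f i z z' ≤ gs i := hs i z
  have h4 : 0 ≤ gs i := (sum_nonneg fun z' _ => h0 i z z').trans h3
  have h5 : T ^ 2 * Real.sqrt (gm i * gs i / R) ≤ gs i / R + T ^ 4 * gm i / 4 := by
    have h6 : Real.sqrt (gm i * gs i / R) = Real.sqrt (gm i) * Real.sqrt (gs i / R) := by
      rw [← Real.sqrt_mul (hgm i)]
      congr 1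
      ring
    rw [h6]
    have h7 : Real.sqrt (gm i) ^ 2 = gm i := Real.sq_sqrt (hgm i)
    have h8 : Real.sqrt (gs i / R) ^ 2 = gs i / R := Real.sq_sqrt (by positivity)
    have h9 := sq_nonneg (Real.sqrt (gs i / R) - T ^ 2 * Real.sqrt (gm i) / 2)
    have e : (Real.sqrt (gs i / R) - T ^ 2 * Real.sqrt (gm i) / 2) ^ 2 =
        Real.sqrt (gs i / R) ^ 2 - T ^ 2 * (Real.sqrt (gm i) * Real.sqrt (gs i / R)) +
          T ^ 4 * Real.sqrt (gm i) ^ 2 / 4 := by ring
    rw [e, h7, h8] at h9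
    linarith
  have h6 : 1 / R * ∑ z', f i z z' ≤ gs i / R := by
    rw [one_div, inv_mul_eq_div]
    exact div_le_div_of_nonneg_right h3 hR0.le
  have h7 : T ^ 2 * gm i ≤ T ^ 4 * gm i / 4 := by
    have e : T ^ 4 = T ^ 2 * T ^ 2 := by ring
    have h8 : 4 ≤ T ^ 2 := by nlinarith
    have h9 : 4 * T ^ 2 ≤ T ^ 4 := by rw [e]; exact mul_le_mul_of_nonneg_right h8 (sq_nonneg T)
    have h10 : 4 * T ^ 2 * gm i ≤ T ^ 4 * gm i := mul_le_mul_of_nonneg_right h9 (hgm i)
    linarith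
  have h8 : 0 ≤ T ^ 4 * gm i := mul_nonneg (by positivity) (hgm i)
  refine le_trans ?_ (hbd i)
  have e3 : 2 * gs i / R = gs i / R + gs i / R := by ring
  rw [e3]
  have h9 : ∑ z' ∈ sampSet ω, f i z z' - 1 / R * ∑ z', f i z z' ≤
    T ^ 2 * gm i + T ^ 2 * Real.sqrt (gm i * gs i / R) := h2
  linarith

/-- The same for a family dominated by another one. -/
theorem osr_rows' {T : ℝ} (hT : Big T) {R : ℝ} (hR : 1 ≤ R) {ι : Type u} [Fintype ι]
    (f F : ι → V → V → ℝ) (gm gs bd : ι → ℝ) (h0 : ∀ i z z', 0 ≤ f i z z')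
    (hgm : ∀ i, 0 ≤ gm i) (hm : ∀ i z z', f i z z' ≤ gm i) (hs : ∀ i z, ∑ z', f i z z' ≤ gs i)
    (hF : ∀ i z z', f i z z' ≠ 0 → F i z z' ≠ 0)
    (hsupp : ∀ i, ((univ.filter fun z => ∃ z', F i z z' ≠ 0 ∨ F i z' z ≠ 0).card : ℝ) ≤ T ^ 15000)
    (hdeg : ∀ z, ((univ.filter fun i => ∃ z', F i z z' ≠ 0 ∨ F i z' z ≠ 0).card : ℝ) ≤ T ^ 21000)
    (hbd : ∀ i, 2 * gs i / R + T ^ 4 * gm i ≤ bd i) :
    LocOK 36000 T (sampLaw V R) (fun ω => ∀ i z, ∑ z' ∈ sampSet ω, f i z z' ≤ bd i) := by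
  refine osr_rows hT hR f gm gs bd h0 hgm hm hs (fun i => ?_) (fun z => ?_) hbd
  · refine le_trans ?_ (hsupp i)
    have : (univ.filter fun z => ∃ z', f i z z' ≠ 0 ∨ f i z' z ≠ 0) ⊆
        univ.filter fun z => ∃ z', F i z z' ≠ 0 ∨ F i z' z ≠ 0 := by
      intro z hz
      simp only [mem_filter, mem_univ, true_and] at hz ⊢
      obtain ⟨z', hz'⟩ := hz
      exact ⟨z', hz'.imp (hF _ _ _) (hF _ _ _)⟩
    exact_mod_cast card_le_card this
  · refine le_trans ?_ (hdeg z)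
    have : (univ.filter fun i => ∃ z', f i z z' ≠ 0 ∨ f i z' z ≠ 0) ⊆
        univ.filter fun i => ∃ z', F i z z' ≠ 0 ∨ F i z' z ≠ 0 := by
      intro i hi
      simp only [mem_filter, mem_univ, true_and] at hi ⊢
      obtain ⟨z', hz'⟩ := hi
      exact ⟨z', hz'.imp (hF _ _ _) (hF _ _ _)⟩
    exact_mod_cast card_le_card this

/-- A convex combination is at most the maximum. -/
theorem osr_avg {L : Type*} [Fintype L] {μ f : L → ℝ} {a : ℝ} (hμ : ∀ l, 0 ≤ μ l)
    (h1 : ∑ l, μ l = 1) (hf : ∀ l, f l ≤ a) : ∑ l, μ l * f l ≤ a := by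
  calc ∑ l, μ l * f l ≤ ∑ l, μ l * a :=
        sum_le_sum fun l _ => mul_le_mul_of_nonneg_left (hf l) (hμ l)
    _ = a := by rw [← sum_mul, h1, one_mul]

/-- If the mean of a nonnegative function does not vanish, its supremum does not vanish. -/
theorem osr_sup_ne {L : Type*} [Fintype L] {μ f : L → ℝ} (hf : ∀ l, 0 ≤ f l)
    (h : ∑ l, μ l * f l ≠ 0) : (⨆ l, f l) ≠ 0 := by
  obtain ⟨l, -, hl⟩ := exists_ne_zero_of_sum_ne_zero h
  have h1 : 0 < f l := lt_of_le_of_ne (hf l) fun h2 => hl (by rw [← h2, mul_zero])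
  exact (h1.trans_le (le_ciSup (Finite.bddAbove_range f) l)).ne'

namespace GSt

variable {Lb : Type u} [Fintype Lb] {E : GSt V Lb AL}

theorem osr_Bx (hE : E.Ok) : E.Bx ≤ E.T := by
  have hD := hE.dat
  have h1 : 1 ≤ E.Cx := by
    unfold Cx
    have a1 := hE.tau_pos
    have a2 := hE.q0_pos
    have a3 := hD.H_one
    have a4 : 0 ≤ (E.B0 : ℝ) * (1 + E.H / E.tau) := by positivity
    have a5 : 0 ≤ E.q0 * (E.H * (1 + E.H / E.tau)) := by positivity
    linarith
  have h2 := hE.Bx_le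
  have h3 := hE.Bx_one
  have h4 : E.Bx * 1 ≤ E.Bx * E.Cx := mul_le_mul_of_nonneg_left h1 (by linarith)
  have h5 := GData.os_Kc_T hD
  linarith

theorem osr_u (hE : E.Ok) (l : Lb) (z z' x y : V) : |E.u l z z' x y| ≤ E.T := by
  have hD := hE.dat
  have h1 := GData.os_T_ge hD
  by_cases h : (E.toGData.sd E.s).lnk z z' x y
  · rw [hE.cols.kill l z z' x y h, abs_neg, abs_one]
    linarith
  · rcases hE.cols.vals l z z' x y h with h2 | ⟨h2, h3⟩
    · rw [h2, abs_zero]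
      linarith
    · rw [abs_of_nonneg (by linarith)]
      exact h3.trans (osr_Bx hE)

theorem osr_af (hE : E.Ok) (z z' : V) (l : Lb) (P : V × V) : E.af z z' l P ≤ E.T := by
  unfold af gu
  split_ifs
  · exact osr_u hE _ _ _ _ _
  · rw [abs_zero]
    exact (GData.os_T_pos hE.dat).le

theorem osr_cw_ne {x z z' : V} (h : E.cw x z z' ≠ 0) : z ∈ E.N x ∧ z' ∈ E.N x := by
  unfold cw at h
  split_ifs at h with h1
  · exact absurd rfl h
  · have h2 : (univ.filter fun u => E.far u x ∧ z ∈ cN E.N u x ∧ z' ∈ cN E.N u x).card ≠ 0 := by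
      intro h3
      exact h (by rw [h3, Nat.cast_zero])
    obtain ⟨u, hu⟩ := card_ne_zero.1 h2
    simp only [mem_filter, mem_univ, true_and] at hu
    exact ⟨(mem_inter.1 hu.2.1).2, (mem_inter.1 hu.2.2).2⟩

theorem osr_cw_nonneg (x z z' : V) : 0 ≤ E.cw x z z' := by
  unfold cw
  split_ifs
  · exact le_rfl
  · exact Nat.cast_nonneg _

theorem osr_cw_le (hE : E.Ok) (x z z' : V) : E.cw x z z' ≤ E.T ^ 3600 := by
  unfold cw
  split_ifs
  · exact (pow_pos (GData.os_T_pos hE.dat) _).le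
  · refine le_trans ?_ (hE.dat.deg z)
    have : (univ.filter fun u => E.far u x ∧ z ∈ cN E.N u x ∧ z' ∈ cN E.N u x) ⊆ E.N z := by
      intro u hu
      simp only [mem_filter, mem_univ, true_and] at hu
      exact hE.dat.N_symm _ _ (mem_inter.1 hu.2.1).1
    exact_mod_cast card_le_card this

end GSt

theorem goodR_loc {Lb : Type u} [Fintype Lb] {E : GSt V Lb AL} (hE : E.Ok) :
    LocOK 37000 E.T (sampLaw V E.R) (fun ω => (E.smp (sampSet ω)).GoodR) := by
  have hD := hE.dat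
  have hT := hD.big
  have hT0 := hT.pos
  have hT6 := GData.os_T_ge hD
  have hT1 := hT.one_le
  have hRlo := hD.R_lo
  have hR : 1 ≤ E.R := (one_le_pow₀ hT1).trans hRlo
  have hR0 : 0 < E.R := by linarith
  have hμ0 := hE.cols.mu_nonneg
  have hμ1 := hE.cols.mu_sum
  -- division by `R`
  have hdiv : ∀ (a b : ℕ) (x : ℝ), 0 ≤ x → a = b + 799 → 2 * (E.T ^ a * x) / E.R ≤
      2 * (E.T ^ b * x) := by
    intro a b x hx hab
    rw [div_le_iff₀ hR0, hab, pow_add]
    have h1 : E.T ^ b * x * E.T ^ 799 ≤ E.T ^ b * x * E.R :=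
      mul_le_mul_of_nonneg_left hRlo (by positivity)
    nlinarith
  have hpw : ∀ (a b c : ℕ) (x : ℝ), 0 ≤ x → a + 1 ≤ c → b + 1 ≤ c →
      2 * (E.T ^ a * x) + E.T ^ b * x ≤ E.T ^ c * x := by
    intro a b c x hx ha hb
    have h1 : E.T ^ (a + 1) ≤ E.T ^ c := hT.pw ha
    have h2 : E.T ^ (b + 1) ≤ E.T ^ c := hT.pw hb
    rw [pow_succ] at h1 h2
    have h3 : 0 < E.T ^ a := pow_pos hT0 _
    have h4 : 0 < E.T ^ b := pow_pos hT0 _
    have h5 : 4 * E.T ^ a ≤ E.T ^ c := by nlinarith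
    have h6 : 4 * E.T ^ b ≤ E.T ^ c := by nlinarith
    have h7 : 2 * E.T ^ a + E.T ^ b ≤ E.T ^ c := by linarith
    nlinarith [mul_le_mul_of_nonneg_right h7 hx]
  have row : LocOK 36000 E.T (sampLaw V E.R) (fun ω => ∀ i z,
      ∑ z' ∈ sampSet ω, (∑ l, E.μ z z' l * |E.W i z z' l|) ≤ E.d1 i) := by
    refine osr_rows' hT hR (fun i z z' => ∑ l, E.μ z z' l * |E.W i z z' l|) E.ws E.wm E.dV E.d1
      (fun i z z' => sum_nonneg fun l _ => mul_nonneg (hμ0 _ _ _) (abs_nonneg _))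
      (fun i => (GSt.wm_pos hE i).le)
      (fun i z z' => osr_avg (hμ0 z z') (hμ1 z z') fun l => GSt.W_le hE i z z' l)
      (fun i z => GSt.W_row hE i z)
      (fun i z z' h => osr_sup_ne (fun l => abs_nonneg _) h)
      (fun i => GSt.ws_supp hE i) (fun z => GSt.ws_deg hE z) (fun i => ?_)
    unfold GSt.d1
    have h1 : E.T ^ 4 * E.wm i ≤ E.T ^ 5 * E.wm i :=
      mul_le_mul_of_nonneg_right (hT.pw (by norm_num)) (GSt.wm_pos hE i).le
    linarith
  have rowS : LocOK 36000 E.T (sampLaw V E.R) (fun ω => ∀ i z,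
      ∑ z' ∈ sampSet ω, E.ws i z z' ≤ E.T ^ 4100 * E.wm i) := by
    refine osr_rows hT hR E.ws E.wm (fun i => E.T ^ 4870 * E.wm i) _
      (fun i z z' => Real.iSup_nonneg fun l => abs_nonneg _)
      (fun i => (GSt.wm_pos hE i).le)
      (fun i z z' => Real.iSup_le (fun l => GSt.W_le hE i z z' l) (GSt.wm_pos hE i).le)
      (fun i z => GSt.ws_row hE i z)
      (fun i => GSt.ws_supp hE i) (fun z => GSt.ws_deg hE z) (fun i => ?_)
    have h1 := (GSt.wm_pos hE i).le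
    have h2 := hdiv 4870 4071 _ h1 (by norm_num)
    have h3 := hpw 4071 4 4100 _ h1 (by norm_num) (by norm_num)
    linarith
  have afrow : LocOK 36000 E.T (sampLaw V E.R) (fun ω => ∀ P z,
      ∑ z' ∈ sampSet ω, (∑ l, E.μ z z' l * E.af z z' l P) ≤ E.T ^ 1604) := by
    refine osr_rows' hT hR (ι := V × V) (fun P z z' => ∑ l, E.μ z z' l * E.af z z' l P)
      (fun P z z' => ⨆ l, E.af z z' l P) (fun _ => E.T) (fun _ => E.T ^ 2402)
      (fun _ => E.T ^ 1604)
      (fun i z z' => sum_nonneg fun l _ => mul_nonneg (hμ0 _ _ _) (abs_nonneg _))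
      (fun i => hT0.le)
      (fun i z z' => osr_avg (hμ0 z z') (hμ1 z z') fun l => GSt.osr_af hE _ _ _ _)
      (fun i z => GSt.af_row hE z i)
      (fun i z z' h => osr_sup_ne (fun l => abs_nonneg _) h)
      (fun i => GSt.afs_supp hE i) (fun z => GSt.afs_deg hE z) (fun i => ?_)
    have h2 := hdiv 2402 1603 1 zero_le_one (by norm_num)
    have h3 := hpw 1603 5 1604 1 zero_le_one (by norm_num) (by norm_num)
    have e : E.T ^ 5 = E.T ^ 4 * E.T := by rw [← pow_succ]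
    rw [mul_one] at h2 h3
    rw [mul_one, mul_one] at h3
    rw [mul_one] at h2
    rw [e] at h3
    linarith
  have asrow : LocOK 36000 E.T (sampLaw V E.R) (fun ω => ∀ P z,
      ∑ z' ∈ sampSet ω, (⨆ l, E.af z z' l P) ≤ E.T ^ 4100 * E.T) := by
    refine osr_rows hT hR (ι := V × V) (fun P z z' => ⨆ l, E.af z z' l P)
      (fun _ => E.T) (fun _ => E.T ^ 4816) (fun _ => E.T ^ 4100 * E.T)
      (fun i z z' => Real.iSup_nonneg fun l => abs_nonneg _)
      (fun i => hT0.le)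
      (fun i z z' => Real.iSup_le (fun l => GSt.osr_af hE _ _ _ _) hT0.le)
      (fun i z => GSt.afs_row hE z i)
      (fun i => GSt.afs_supp hE i) (fun z => GSt.afs_deg hE z) (fun i => ?_)
    have h2 := hdiv 4816 4017 1 zero_le_one (by norm_num)
    have h3 := hpw 4017 5 4101 1 zero_le_one (by norm_num) (by norm_num)
    have e : E.T ^ 5 = E.T ^ 4 * E.T := by rw [← pow_succ]
    have e' : E.T ^ 4101 = E.T ^ 4100 * E.T := by rw [← pow_succ]
    rw [mul_one, mul_one] at h2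
    rw [mul_one, mul_one, mul_one, e, e'] at h3
    linarith
  have bsrow : LocOK 36000 E.T (sampLaw V E.R) (fun ω => ∀ b z,
      ∑ z' ∈ sampSet ω, (⨆ l, E.wK b z z' l) ≤ E.T ^ 4100 * E.wb b) := by
    refine osr_rows hT hR (fun b z z' => ⨆ l, E.wK b z z' l) E.wb
      (fun i => E.T ^ 4870 * E.wb i) _
      (fun i z z' => Real.iSup_nonneg fun l => GSt.wK_nonneg hE _ _ _ _)
      (fun i => (GSt.wb_pos hE i).le)
      (fun i z z' => Real.iSup_le (fun l => GSt.wK_le hE i z z' l) (GSt.wb_pos hE i).le)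
      (fun i z => GSt.wKs_row hE i z)
      (fun i => GSt.wKs_supp hE i) (fun z => GSt.wKs_deg hE z) (fun i => ?_)
    have h1 := (GSt.wb_pos hE i).le
    have h2 := hdiv 4870 4071 _ h1 (by norm_num)
    have h3 := hpw 4071 4 4100 _ h1 (by norm_num) (by norm_num)
    linarith
  have brow : LocOK 36000 E.T (sampLaw V E.R) (fun ω => ∀ b z,
      ∑ z' ∈ sampSet ω, (∑ l, E.μ z z' l * E.wK b z z' l) ≤ E.db b) := by
    refine osr_rows' hT hR (fun b z z' => ∑ l, E.μ z z' l * E.wK b z z' l)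
      (fun b z z' => ⨆ l, E.wK b z z' l) E.wb E.dB E.db
      (fun i z z' => sum_nonneg fun l _ => mul_nonneg (hμ0 _ _ _) (GSt.wK_nonneg hE _ _ _ _))
      (fun i => (GSt.wb_pos hE i).le)
      (fun i z z' => osr_avg (hμ0 z z') (hμ1 z z') fun l => GSt.wK_le hE i z z' l)
      (fun i z => GSt.wK_row hE i z)
      (fun i z z' h => osr_sup_ne (fun l => GSt.wK_nonneg hE _ _ _ _) h)
      (fun i => GSt.wKs_supp hE i) (fun z => GSt.wKs_deg hE z) (fun i => ?_)
    have key : 2 * E.T ^ 7220 / E.R + E.T ^ 4 * E.T ^ 2403 ≤ E.T ^ 6440 := by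
      have h2 := hdiv 7220 6421 1 zero_le_one (by norm_num)
      have h3 := hpw 6421 2407 6440 1 zero_le_one (by norm_num) (by norm_num)
      have e : E.T ^ 2407 = E.T ^ 4 * E.T ^ 2403 := by rw [← pow_add]
      rw [mul_one, mul_one] at h2
      rw [mul_one, mul_one, mul_one, e] at h3
      linarith
    rcases i with i | i | i
    · exact key
    · exact key
    · show 2 * (E.T ^ 2404 * E.La i) / E.R + E.T ^ 4 * (E.T ^ 2 * E.s1 i) ≤
        E.T ^ 1610 * E.La i
      have h0 := hD.s1_pos i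
      have h1 := hD.num1 i
      have h2 : 0 ≤ E.La i := le_trans (by positivity) h1
      have h3 := hdiv 2404 1605 _ h2 (by norm_num)
      have h4 := hpw 1605 0 1610 _ h2 (by norm_num) (by norm_num)
      have h5 : E.T ^ 4 * (E.T ^ 2 * E.s1 i) ≤ E.La i := by
        refine le_trans ?_ h1
        have e : E.T ^ 4 * (E.T ^ 2 * E.s1 i) = E.T ^ 6 * E.s1 i := by
          rw [← mul_assoc, ← pow_add]
        rw [e]
        exact mul_le_mul_of_nonneg_right (hT.pw (by norm_num)) h0.le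
      rw [pow_zero, one_mul] at h4
      linarith
  have cwrow : LocOK 36000 E.T (sampLaw V E.R) (fun ω => ∀ x z,
      ∑ z' ∈ sampSet ω, (E.cw x z z' + E.cw x z' z) ≤ E.T ^ 5206) := by
    refine osr_rows hT hR (fun x z z' => E.cw x z z' + E.cw x z' z)
      (fun _ => E.T ^ 3601) (fun _ => E.T ^ 6002) (fun _ => E.T ^ 5206)
      (fun i z z' => add_nonneg (GSt.osr_cw_nonneg _ _ _) (GSt.osr_cw_nonneg _ _ _))
      (fun i => (pow_pos hT0 _).le)
      (fun i z z' => ?_)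
      (fun i z => GSt.cw_row hE i z) (fun i => ?_) (fun z => ?_) (fun i => ?_)
    · have h1 := GSt.osr_cw_le hE i z z'
      have h2 := GSt.osr_cw_le hE i z' z
      have e : E.T ^ 3601 = E.T ^ 3600 * E.T := by rw [← pow_succ]
      have h3 : 0 < E.T ^ 3600 := pow_pos hT0 _
      show E.cw i z z' + E.cw i z' z ≤ E.T ^ 3601
      rw [e]
      nlinarith
    · refine le_trans ?_ ((hD.deg i).trans (hT.pw (show 3600 ≤ 15000 by norm_num)))
      have : (univ.filter fun z => ∃ z', E.cw i z z' + E.cw i z' z ≠ 0 ∨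
          E.cw i z' z + E.cw i z z' ≠ 0) ⊆ E.N i := by
        intro z hz
        simp only [mem_filter, mem_univ, true_and] at hz
        obtain ⟨z', hz'⟩ := hz
        by_cases h1 : E.cw i z z' = 0
        · by_cases h2 : E.cw i z' z = 0
          · rw [h1, h2, add_zero] at hz'
            tauto
          · exact (GSt.osr_cw_ne h2).2
        · exact (GSt.osr_cw_ne h1).1
      exact_mod_cast card_le_card this
    · refine le_trans ?_ ((hD.deg z).trans (hT.pw (show 3600 ≤ 21000 by norm_num)))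
      have : (univ.filter fun i => ∃ z', E.cw i z z' + E.cw i z' z ≠ 0 ∨
          E.cw i z' z + E.cw i z z' ≠ 0) ⊆ E.N z := by
        intro i hi
        simp only [mem_filter, mem_univ, true_and] at hi
        obtain ⟨z', hz'⟩ := hi
        apply hD.N_symm
        by_cases h1 : E.cw i z z' = 0
        · by_cases h2 : E.cw i z' z = 0
          · rw [h1, h2, add_zero] at hz'
            tauto
          · exact (GSt.osr_cw_ne h2).2
        · exact (GSt.osr_cw_ne h1).1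
      exact_mod_cast card_le_card this
    · have h2 := hdiv 6002 5203 1 zero_le_one (by norm_num)
      have h3 := hpw 5203 3605 5206 1 zero_le_one (by norm_num) (by norm_num)
      have e : E.T ^ 3605 = E.T ^ 4 * E.T ^ 3601 := by rw [← pow_add]
      rw [mul_one, mul_one] at h2
      rw [mul_one, mul_one, mul_one, e] at h3
      show 2 * E.T ^ 6002 / E.R + E.T ^ 4 * E.T ^ 3601 ≤ E.T ^ 5206
      linarith
  have h1 := LocOK.and hT row rowS
  have h2 := LocOK.and hT afrow asrow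
  have h3 := LocOK.and hT bsrow brow
  have h4 := LocOK.and hT (LocOK.mono hT cwrow (show 36000 ≤ 36001 by norm_num)) h1
  have h5 := LocOK.and hT h2 h3
  have h6 := LocOK.and hT h4 h5
  refine LocOK.mono hT (Pool.Agent.AcyK.LocOK.imp h6 fun ω hω => ?_)
    (show 36000 + 1 + 1 + 1 ≤ 37000 by norm_num)
  obtain ⟨⟨a1, a2, a3⟩, ⟨a4, a5⟩, a6, a7⟩ := hω
  exact ⟨a2, a3, fun z P => a4 P z, fun z P => a5 P z, a6, a7, a1⟩

end

end Pool.Agent.AcyG
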