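import Pool.Agent.AcyG.OSite
import Pool.Agent.AcyGD.Base

/-! # Outer process: separation of the real colouring (project MP_af9dfb_G, row OSep, helper30) -/

set_option autoImplicit false
set_option linter.unusedSectionVars false

namespace Pool.Agent.AcyG

open Finset
open Pool.Agent.Acy (IsPM wt Ex Pr mean)
open Pool.Agent.AcyK (Big StepOK LocOK prodLaw Un Sel updCol HasC cN)
open scoped Classical

universe u v

section

variable {V AL : Type u} [Fintype V] [DecidableEq V] [Fintype AL]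

namespace GData

variable (D : GData V AL)

/-- Separation of the real colouring. -/
def Sep (C : V → Option (ℕ × Fin D.k × ℕ)) : Prop :=
  ∀ u x i c r r', C u = some (i, c, r) → C x = some (i, c, r') → r ≠ r' → ¬ D.spe u x ∧
    (D.far u x → ∀ z ∈ cN D.N u x, ∀ z' ∈ cN D.N u x, z ≠ z' → ∀ i' c' t t',
      C z = some (i', c', t) → C z' = some (i', c', t') → i ≤ i')

/-- Colours without the stage. -/
def dC (C : V → Option (ℕ × Fin D.k × ℕ)) (v : V) : Option (Fin D.k × ℕ) :=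
  (C v).map fun e => (e.2.1, e.2.2)

/-- Stages; the uncoloured vertices get the value `l`. -/
def dl (C : V → Option (ℕ × Fin D.k × ℕ)) (l : V → ℕ) (v : V) : ℕ :=
  match C v with
  | some e => e.1
  | none => l v

/-- Data of the D-part. -/
def dd (R : ℕ) (lv : V → ℕ) : AcyGD.DD V where
  T := D.T
  k := D.k
  M := D.M
  R := R
  NS := D.NS
  am := D.am
  N := D.N
  lv := lv

/-- The state between the stages. -/
structure Full (R : ℕ) (W0 W1 : ℝ) (j : ℕ) (s : GState V)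
    (C : V → Option (ℕ × Fin D.k × ℕ)) : Prop where
  inv : D.SInv W0 W1 j s C
  sep : D.Sep C
  old : (D.dd R (D.dl C fun _ => j)).Old (D.dC C) j

variable {D}

theorem full_zero (hD : D.Ok) {R : ℕ} {W0 W1 : ℝ} (h0 : 1 ≤ W0) (s0 : GState V)
    (hs : D.SInv W0 W1 0 s0 fun _ => none) : D.Full R W0 W1 0 s0 (fun _ => none) where
  inv := hs
  sep := fun _ _ _ _ _ _ h => absurd h (by simp)
  old := ⟨fun i hi => absurd hi (Nat.not_lt_zero i), fun i hi => absurd hi (Nat.not_lt_zero i),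
    fun i hi => absurd hi (Nat.not_lt_zero i)⟩

theorem osep_dl {C : V → Option (ℕ × Fin D.k × ℕ)} (l : V → ℕ) {v : V}
    {e : ℕ × Fin D.k × ℕ} (h : C v = some e) : D.dl C l v = e.1 := by
  unfold dl
  rw [h]

theorem osep_dC {C : V → Option (ℕ × Fin D.k × ℕ)} {v : V} {c : Fin D.k} {r : ℕ}
    (h : D.dC C v = some (c, r)) : ∃ i, C v = some (i, c, r) := by
  unfold dC at h
  cases hv : C v with
  | none =>
    rw [hv] at h
    simp at h
  | some e =>
    rw [hv] at h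
    simp only [Option.map_some, Option.some.injEq, Prod.mk.injEq] at h
    exact ⟨e.1, by rw [← h.1, ← h.2]⟩

/-- Vertices with the same colour in the form of the D-part. -/
theorem osep_same {C : V → Option (ℕ × Fin D.k × ℕ)} {R : ℕ} {l : V → ℕ} {u x : V}
    (h : (D.dd R (D.dl C l)).Same (D.dC C) u x) : u ≠ x ∧ ∃ i c r r', C u = some (i, c, r) ∧
      C x = some (i, c, r') ∧ D.dl C l u = i ∧ D.dl C l x = i ∧
      (D.dd R (D.dl C l)).rd (D.dC C) u = r ∧ (D.dd R (D.dl C l)).rd (D.dC C) x = r' := by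
  obtain ⟨h1, h2, c, ⟨r, h3⟩, r', h4⟩ := h
  obtain ⟨i, h5⟩ := osep_dC h3
  obtain ⟨i', h6⟩ := osep_dC h4
  have e1 := osep_dl l h5
  have e2 := osep_dl l h6
  have h7 : D.dl C l u = D.dl C l x := h2
  rw [e1, e2] at h7
  simp only at h7
  subst h7
  exact ⟨h1, i, c, r, r', h5, h6, e1, e2, AcyGD.DD.rd_some h3, AcyGD.DD.rd_some h4⟩

/-- The end: separation in the form of the D-part. -/
theorem sep_end {C : V → Option (ℕ × Fin D.k × ℕ)} (h : D.Sep C) (R : ℕ) (l : V → ℕ)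
    (hN : ∀ u v, u ∈ D.N v → v ∈ D.N u) : (D.dd R (D.dl C l)).Sep (D.dC C) := by
  intro u x hs hr
  obtain ⟨hne, i, c, r, r', h1, h2, h3, h4, h5, h6⟩ := osep_same hs
  rw [h5, h6] at hr
  obtain ⟨h7, h8⟩ := h u x i c r r' h1 h2 hr
  refine ⟨fun h9 => h7 ⟨hne, h9⟩, fun h9 z hz z' hz' hlt hs' => ?_⟩
  have hfar : D.far u x := by
    have h10 : u ∉ D.N x := fun h10 => h7 ⟨hne, .inl h10⟩
    have h11 : D.cod u x ≤ D.am := not_lt.1 fun h11 => h7 ⟨hne, .inr h11⟩
    exact ⟨hne, h10, h9.2.resolve_left h10, h11⟩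
  obtain ⟨hne', i', c', t, t', g1, g2, g3, -, -, -⟩ := osep_same hs'
  have h10 := h8 hfar z hz z' hz' hne' i' c' t t' g1 g2
  have h11 : D.dl C l z < D.dl C l u := hlt
  rw [g3, h3] at h11
  omega

end GData

namespace GRn

variable {Lb : Type u} [Fintype Lb] {E : GRn V Lb AL}

/-- The new colours are old colours or colours of the stage. -/
theorem osep_nC (hE : E.Ok) {v : V} {i : ℕ} {c : Fin E.k} {r : ℕ}
    (h : E.nC v = some (i, c, r)) :
    (i < E.j ∧ E.C v = some (i, c, r)) ∨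
      (i = E.j ∧ E.C v = none ∧ v ∈ E.U ∧ E.ok v ∧ E.col v = some (c, r)) := by
  unfold nC at h
  split_ifs at h with h1
  · cases hv : E.col v with
    | none =>
      rw [hv] at h
      simp at h
    | some e =>
      rw [hv] at h
      simp only [Option.map_some, Option.some.injEq, Prod.mk.injEq] at h
      exact .inr ⟨h.1.symm, h1.1, h1.2.1, h1.2.2, by rw [← h.2.1, ← h.2.2]⟩
  · exact .inl ⟨(hE.sm.inv.toSInv.C_lt v i c r h).1, h⟩

/-- New vertices of the same colour and different rounds. -/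
theorem osep_new (hE : E.Ok) {u x : V} {c : Fin E.k} {r r' : ℕ} (hu : u ∈ E.U) (hx : x ∈ E.U)
    (ou : E.ok u) (ox : E.ok x) (cu : E.col u = some (c, r)) (cx : E.col x = some (c, r'))
    (hr : r ≠ r') : ¬ E.spe u x ∧ (E.far u x → E.nf E.s u x) := by
  have key : ∀ {a b : V} {t t' : ℕ}, a ∈ E.U → b ∈ E.U → E.ok a → E.col a = some (c, t) →
      E.col b = some (c, t') → t' < t → ¬ E.spe a b ∧ (E.far a b → E.nf E.s a b) := by
    intro a b t t' ha hb oa ca cb ht
    obtain ⟨h1, h2⟩ := hE.sep a b c t t' ha hb cb ca ht oa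
    refine ⟨fun h3 => h2 ⟨ha, hb, .inl h3⟩, fun h3 => ?_⟩
    by_contra h4
    refine h2 ⟨ha, hb, .inr (.inl ⟨h3, fun h5 => h1 ?_, h4⟩)⟩
    unfold GData.K
    rw [if_pos h3, h5]
    norm_num
  rcases lt_or_gt_of_ne hr with h | h
  · obtain ⟨h1, h2⟩ := key hx hu ox cx cu h
    exact ⟨fun h3 => h1 (GData.os_spe_symm hE.sm.dat h3), fun h3 =>
      (GData.os_nf_comm hE.sm.dat hE.sm.inv.toSInv x u).1
        (h2 (GData.os_far_symm hE.sm.dat h3))⟩
  · exact key hu hx ou cu cx h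

end GRn

theorem GRn.sep_next {Lb : Type u} [Fintype Lb] {E : GRn V Lb AL} (hE : E.Ok)
    (h : E.toGData.Sep E.C) : E.toGData.Sep E.nC := by
  intro u x i c r r' hu hx hr
  rcases osep_nC hE hu with ⟨hi, hu1⟩ | ⟨hi, hu1, hu2, hu3, hu4⟩
  · rcases osep_nC hE hx with ⟨-, hx1⟩ | ⟨hi', -⟩
    · obtain ⟨h1, h2⟩ := h u x i c r r' hu1 hx1 hr
      refine ⟨h1, fun hf z hz z' hz' hne i' c' t t' gz gz' => ?_⟩
      rcases osep_nC hE gz with ⟨hz1, hz2⟩ | ⟨hz1, -⟩
      · rcases osep_nC hE gz' with ⟨-, hz3⟩ | ⟨hz3, -⟩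
        · exact h2 hf z hz z' hz' hne i' c' t t' hz2 hz3
        · omega
      · omega
    · omega
  · rcases osep_nC hE hx with ⟨hi', -⟩ | ⟨-, hx1, hx2, hx3, hx4⟩
    · omega
    · obtain ⟨h1, h2⟩ := osep_new hE hu2 hx2 hu3 hx3 hu4 hx4 hr
      refine ⟨h1, fun hf z hz z' hz' hne i' c' t t' gz gz' => ?_⟩
      rcases osep_nC hE gz with ⟨hz1, hz2⟩ | ⟨hz1, -⟩
      · rcases osep_nC hE gz' with ⟨-, hz3⟩ | ⟨hz3, -⟩
        · exact absurd ⟨i', c', t, t', hz2, hz3⟩
            (hE.sm.inv.toSInv.inj u x (h2 hf) z hz z' hz' hne)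
        · omega
      · omega

end

end Pool.Agent.AcyG
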