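import Pool.Agent.AcyG.ODefs

/-! # Static facts for the outer process, and the columns of a stage (project MP_af9dfb_G, row
OSite) -/

set_option autoImplicit false
set_option linter.unusedSectionVars false

namespace Pool.Agent.AcyG

open Finset
open Pool.Agent.Acy (IsPM wt Ex Pr mean)
open Pool.Agent.AcyK (Big StepOK LocOK prodLaw Un Sel updCol HasC cN)
open scoped Classical

universe u v

section

variable {V AL : Type u} [Fintype V] [DecidableEq V] [Fintype AL]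

namespace GData

variable {D : GData V AL}

/-! ### Numbers -/

theorem os_Kc_ge (hD : D.Ok) : (10 : ℝ) ^ 6 ≤ D.Kc := by
  have h1 : (1 : ℝ) ≤ D.kap * D.H * D.C0 := by
    have a1 := hD.kap_one
    have a2 := hD.H_one
    have a3 := hD.C0_one
    have a4 : (1 : ℝ) ≤ D.kap * D.H := one_le_mul_of_one_le_of_one_le a1 a2
    exact one_le_mul_of_one_le_of_one_le a4 a3
  have h2 : (1 : ℝ) ≤ (D.kap * D.H * D.C0) ^ 10 := one_le_pow₀ h1
  have h3 := hD.Kc_ge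
  nlinarith

theorem os_Kc_one (hD : D.Ok) : 1 ≤ D.Kc := by
  have h := os_Kc_ge hD
  norm_num at h
  linarith

theorem os_T_pos (hD : D.Ok) : 0 < D.T := hD.big.pos

theorem os_T_ge (hD : D.Ok) : (1000000 : ℝ) ≤ D.T := by
  have h := hD.big.big
  norm_num at h
  exact h

theorem os_log_le (hD : D.Ok) : Real.log D.T ≤ D.T :=
  (Real.log_le_sub_one_of_pos (os_T_pos hD)).trans (by linarith)

theorem os_Kc_pow (hD : D.Ok) {n : ℕ} (hn : n ≤ 1000) : D.Kc ^ n ≤ Real.log D.T :=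
  (pow_le_pow_right₀ (os_Kc_one hD) hn).trans hD.Kc_le

theorem os_Kc_T (hD : D.Ok) : D.Kc ≤ D.T := by
  have h := os_Kc_pow hD (n := 1) (by norm_num)
  rw [pow_one] at h
  exact h.trans (os_log_le hD)

theorem os_Kc_pow_T (hD : D.Ok) {n : ℕ} (hn : n ≤ 1000) : D.Kc ^ n ≤ D.T :=
  (os_Kc_pow hD hn).trans (os_log_le hD)

theorem os_H_Kc (hD : D.Ok) : D.H ≤ D.Kc := by
  have a1 := hD.kap_one
  have a2 := hD.H_one
  have a3 := hD.C0_one
  have a4 : D.H ≤ D.kap * D.H * D.C0 := by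
    have a5 : D.H ≤ D.kap * D.H := le_mul_of_one_le_left (by linarith) a1
    have a6 : D.kap * D.H ≤ D.kap * D.H * D.C0 := le_mul_of_one_le_right (by nlinarith) a3
    exact a5.trans a6
  have a7 : (1 : ℝ) ≤ D.kap * D.H * D.C0 := a2.trans a4
  have a8 : D.kap * D.H * D.C0 ≤ (D.kap * D.H * D.C0) ^ 10 := by
    have := pow_le_pow_right₀ a7 (show 1 ≤ 10 by norm_num)
    rwa [pow_one] at this
  have a9 := hD.Kc_ge
  have a10 : 0 ≤ (D.kap * D.H * D.C0) ^ 10 := by positivity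
  nlinarith

theorem os_R_pos (hD : D.Ok) : 0 < D.R :=
  lt_of_lt_of_le (pow_pos (os_T_pos hD) _) hD.R_lo

theorem os_k_pos (hD : D.Ok) : (0 : ℝ) < D.k :=
  lt_of_lt_of_le (pow_pos (os_T_pos hD) _) hD.k_lo

theorem os_n1_pos (hD : D.Ok) : 0 < D.n1 := mul_pos (os_R_pos hD) (os_k_pos hD)

theorem os_n1_lo (hD : D.Ok) : D.T ^ 4798 ≤ D.n1 := by
  have h : D.T ^ 4798 = D.T ^ 799 * D.T ^ 3999 := by rw [← pow_add]
  rw [h]
  exact mul_le_mul hD.R_lo hD.k_lo (pow_nonneg (os_T_pos hD).le _) (os_R_pos hD).le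

theorem os_n1_hi (hD : D.Ok) : D.n1 ≤ D.T ^ 4801 := by
  have h : D.T ^ 4801 = D.T ^ 801 * D.T ^ 4000 := by rw [← pow_add]
  rw [h]
  exact mul_le_mul hD.R_hi hD.k_hi (os_k_pos hD).le (pow_nonneg (os_T_pos hD).le _)

theorem os_am_lo (hD : D.Ok) : D.T ^ 2399 ≤ D.am := by
  have h1 := hD.par1
  have h0 := os_T_pos hD
  have h2 : 0 < D.T ^ 4801 := pow_pos h0 _
  by_contra h3
  push Not at h3
  have h4 : D.n1 * D.am < D.T ^ 7200 := by
    rcases le_or_gt D.am 0 with h5 | h5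
    · have : D.n1 * D.am ≤ 0 := mul_nonpos_of_nonneg_of_nonpos (os_n1_pos hD).le h5
      have h6 : 0 < D.T ^ 7200 := pow_pos h0 _
      linarith
    · calc D.n1 * D.am ≤ D.T ^ 4801 * D.am := mul_le_mul_of_nonneg_right (os_n1_hi hD) h5.le
        _ < D.T ^ 4801 * D.T ^ 2399 := mul_lt_mul_of_pos_left h3 h2
        _ = D.T ^ 7200 := by rw [← pow_add]
  have h6 : 0 < D.T ^ 7200 := pow_pos h0 _
  linarith

theorem os_am_pos (hD : D.Ok) : 0 < D.am :=
  lt_of_lt_of_le (pow_pos (os_T_pos hD) _) (os_am_lo hD)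

theorem os_am_2385 (hD : D.Ok) : D.T ^ 2385 ≤ D.am :=
  (hD.big.pw (by norm_num)).trans (os_am_lo hD)

theorem os_gr_pos (j : ℕ) : 0 < D.gr j := Real.exp_pos _

theorem os_dec_pos (j : ℕ) : 0 < D.dec j := Real.exp_pos _

theorem os_jR (hD : D.Ok) {j : ℕ} (hj : j ≤ D.NS) : (j : ℝ) / D.R ≤ D.kap := by
  rw [div_le_iff₀ (os_R_pos hD)]
  have h1 : (j : ℝ) ≤ D.NS := by exact_mod_cast hj
  exact h1.trans hD.NS_le

theorem os_gr_le (hD : D.Ok) {j : ℕ} (hj : j ≤ D.NS) : D.gr j ≤ Real.exp (2 * D.H * D.kap) := by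
  unfold gr
  apply Real.exp_le_exp.2
  have h2 := hD.H_one
  exact mul_le_mul_of_nonneg_left (os_jR hD hj) (by linarith)

theorem os_gr_one (hD : D.Ok) (j : ℕ) : 1 ≤ D.gr j := by
  unfold gr
  apply Real.one_le_exp
  have h1 := hD.H_one
  have h2 := (os_R_pos hD).le
  positivity

/-! ### Kinds of pairs -/

theorem os_cod_symm (u x : V) : D.cod u x = D.cod x u := by
  unfold cod cN
  rw [inter_comm]

theorem os_cod_nonneg (u x : V) : 0 ≤ D.cod u x := Nat.cast_nonneg _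

theorem os_far_symm (hD : D.Ok) {u x : V} (h : D.far u x) : D.far x u :=
  ⟨h.1.symm, fun h' => h.2.1 (hD.N_symm _ _ h'), by rw [os_cod_symm]; exact h.2.2.1,
    by rw [os_cod_symm]; exact h.2.2.2⟩

theorem os_far_comm (hD : D.Ok) (u x : V) : D.far u x ↔ D.far x u :=
  ⟨os_far_symm hD, os_far_symm hD⟩

theorem os_lig_symm (hD : D.Ok) {u x : V} (h : D.lig u x) : D.lig x u :=
  ⟨h.1.symm, fun h' => h.2.1 (hD.N_symm _ _ h'), by rw [os_cod_symm]; exact h.2.2⟩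

theorem os_lig_comm (hD : D.Ok) (u x : V) : D.lig u x ↔ D.lig x u :=
  ⟨os_lig_symm hD, os_lig_symm hD⟩

theorem os_spe_symm (hD : D.Ok) {u x : V} (h : D.spe u x) : D.spe x u :=
  ⟨h.1.symm, h.2.imp (fun h' => hD.N_symm _ _ h') fun h' => by rw [os_cod_symm]; exact h'⟩

theorem os_cod_le_of_lig (hD : D.Ok) {u x : V} (h : D.lig u x) : D.cod u x ≤ D.am :=
  h.2.2.le.trans (os_am_2385 hD)

section inv

variable {W0 W1 : ℝ} {j : ℕ} {s : GState V} {C : V → Option (ℕ × Fin D.k × ℕ)}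

theorem os_twn_comm (h : D.SInv W0 W1 j s C) (u x : V) : D.twn s u x ↔ D.twn s x u := by
  unfold twn
  rw [h.GB_symm]

theorem os_nf_comm (hD : D.Ok) (h : D.SInv W0 W1 j s C) (u x : V) :
    D.nf s u x ↔ D.nf s x u := by
  unfold nf
  rw [os_far_comm hD u x, h.st_symm u x, h.X_symm u x]

theorem os_aw_comm (hD : D.Ok) (h : D.SInv W0 W1 j s C) (u x : V) :
    D.aw s u x ↔ D.aw s x u := by
  unfold aw
  rw [os_far_comm hD u x, h.st_symm u x, h.X_symm u x]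

theorem os_as_comm (hD : D.Ok) (h : D.SInv W0 W1 j s C) (u x : V) :
    D.as s u x ↔ D.as s x u := by
  unfold as
  rw [os_far_comm hD u x, h.st_symm u x, h.X_symm u x]

theorem os_nf_of_aw {u x : V} (h : D.aw s u x) : D.nf s u x := ⟨h.1, Or.inl h.2.1, h.2.2⟩

theorem os_nf_of_as {u x : V} (h : D.as s u x) : D.nf s u x := ⟨h.1, Or.inr h.2.1, h.2.2⟩

theorem os_nf_iff (u x : V) : D.nf s u x ↔ D.aw s u x ∨ D.as s u x := by
  unfold nf aw as
  tauto

theorem os_chi_symm (hD : D.Ok) (h : D.SInv W0 W1 j s C) (u x : V) :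
    D.chi s u x = D.chi s x u := by
  unfold chi
  have h1 : (D.lig u x ∧ ¬ D.twn s u x) ↔ (D.lig x u ∧ ¬ D.twn s x u) := by
    rw [os_lig_comm hD u x, os_twn_comm h u x]
  rw [if_congr (os_nf_comm hD h u x) (h.X_symm u x) (if_congr h1 rfl rfl)]

theorem os_X_nonneg (h : D.SInv W0 W1 j s C) (u x : V) : 0 ≤ s.X u x := by
  rcases h.X_lo u x with h1 | h1
  · rw [h1]
  · exact (os_dec_pos j).le.trans h1

theorem os_chi_nonneg (h : D.SInv W0 W1 j s C) (u x : V) : 0 ≤ D.chi s u x := by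
  unfold chi
  split_ifs
  exacts [os_X_nonneg h u x, zero_le_one, le_rfl]

theorem os_chi_le (hD : D.Ok) (h : D.SInv W0 W1 j s C) (u x : V) : D.chi s u x ≤ D.Kc := by
  unfold chi
  split_ifs
  · exact h.X_hi u x
  · exact os_Kc_one hD
  · linarith [os_Kc_one hD]

theorem os_chi_nf {u x : V} (h : D.nf s u x) : D.chi s u x = s.X u x := by
  unfold chi
  rw [if_pos h]

theorem os_chi_cases {u x : V} (h : D.chi s u x ≠ 0) :
    D.nf s u x ∨ (D.lig u x ∧ ¬ D.twn s u x) := by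
  unfold chi at h
  by_contra h1
  push Not at h1
  rw [if_neg h1.1, if_neg (fun h2 => h2.2 (h1.2 h2.1))] at h
  exact h rfl

theorem os_chi_ne {u x : V} (h : D.chi s u x ≠ 0) : u ≠ x := by
  rcases os_chi_cases h with h1 | h1
  · exact h1.1.1
  · exact h1.1.1

theorem os_chi_adj {u x : V} (h : D.chi s u x ≠ 0) : u ∉ D.N x := by
  rcases os_chi_cases h with h1 | h1
  · exact h1.1.2.1
  · exact h1.1.2.1

theorem os_chi_cod (hD : D.Ok) {u x : V} (h : D.chi s u x ≠ 0) : D.cod u x ≤ D.am := by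
  rcases os_chi_cases h with h1 | h1
  · exact h1.1.2.2.2
  · exact os_cod_le_of_lig hD h1.1

theorem os_Y_eq (u x : V) : D.Y s u x =
    1 / (2 * D.n1) * ∑ z ∈ cN D.N u x, ∑ z' ∈ cN D.N u x, D.chi s z z' := rfl

theorem os_Y_nonneg (hD : D.Ok) (h : D.SInv W0 W1 j s C) (u x : V) : 0 ≤ D.Y s u x := by
  rw [os_Y_eq]
  have := os_n1_pos hD
  exact mul_nonneg (by positivity)
    (sum_nonneg fun z _ => sum_nonneg fun z' _ => os_chi_nonneg h z z')

theorem os_Y_symm (u x : V) : D.Y s u x = D.Y s x u := by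
  rw [os_Y_eq, os_Y_eq]
  unfold cN
  rw [inter_comm]

/-- The rate in terms of the codegree. -/
theorem os_Y_le (hD : D.Ok) (h : D.SInv W0 W1 j s C) (u x : V) :
    D.Y s u x ≤ D.Kc * D.cod u x ^ 2 / (2 * D.n1) := by
  rw [os_Y_eq]
  have hn := os_n1_pos hD
  have h1 : ∑ z ∈ cN D.N u x, ∑ z' ∈ cN D.N u x, D.chi s z z' ≤ D.Kc * D.cod u x ^ 2 := by
    calc ∑ z ∈ cN D.N u x, ∑ z' ∈ cN D.N u x, D.chi s z z'
        ≤ ∑ z ∈ cN D.N u x, ∑ z' ∈ cN D.N u x, D.Kc :=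
          sum_le_sum fun z _ => sum_le_sum fun z' _ => os_chi_le hD h z z'
      _ = D.Kc * D.cod u x ^ 2 := by
          rw [sum_const, sum_const, nsmul_eq_mul, nsmul_eq_mul]
          unfold cod
          ring
  calc 1 / (2 * D.n1) * ∑ z ∈ cN D.N u x, ∑ z' ∈ cN D.N u x, D.chi s z z'
      ≤ 1 / (2 * D.n1) * (D.Kc * D.cod u x ^ 2) :=
        mul_le_mul_of_nonneg_left h1 (by positivity)
    _ = _ := by ring

theorem os_Y_lig (hD : D.Ok) (h : D.SInv W0 W1 j s C) {u x : V} (hl : D.lig u x) :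
    D.Y s u x ≤ 1 := by
  refine (os_Y_le hD h u x).trans ?_
  have hn := os_n1_pos hD
  have h0 := os_T_pos hD
  rw [div_le_one (by positivity)]
  have h1 : D.cod u x ^ 2 ≤ (D.T ^ 2385) ^ 2 :=
    pow_le_pow_left₀ (os_cod_nonneg u x) hl.2.2.le 2
  have h2 := os_Kc_T hD
  have h3 := os_Kc_one hD
  calc D.Kc * D.cod u x ^ 2 ≤ D.T * (D.T ^ 2385) ^ 2 :=
        mul_le_mul h2 h1 (sq_nonneg _) h0.le
    _ = D.T ^ 4771 := by rw [← pow_mul, ← pow_succ']
    _ ≤ D.T ^ 4798 := hD.big.pw (by norm_num)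
    _ ≤ D.n1 := os_n1_lo hD
    _ ≤ 2 * D.n1 := by linarith

/-- The hypotheses of the static theorem. -/
theorem sd_ok (hD : D.Ok) (h : D.SInvF W0 W1 j s C) {Kn : ℝ} (hK : W0 * D.gr j ≤ Kn) :
    (D.sd s).Ok D.H Kn D.am where
  N_symm := hD.N_symm
  n1_pos := os_n1_pos hD
  H_one := hD.H_one
  chi_symm := os_chi_symm hD h.toSInv
  chi_nonneg := os_chi_nonneg h.toSInv
  chi_diag x := by
    by_contra h1
    exact os_chi_ne h1 rfl
  chi_adj x y hxy := by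
    by_contra h1
    exact os_chi_adj h1 hxy
  chi_le x y hxy := by
    show D.chi s x y ≤ Kn
    rw [os_chi_nf (os_nf_of_aw hxy)]
    exact (h.X_act x y hxy).trans hK
  cod_le x y hxy := os_chi_cod hD hxy
  Y_le x y hxy := by
    rcases os_chi_cases hxy with h1 | h1
    · exact h.nf_Y x y h1
    · exact (os_Y_lig hD h.toSInv h1.1).trans hD.H_one
  aw_symm x y hxy := (os_aw_comm hD h.toSInv x y).1 hxy

end inv

end GData

/-- The rate constant may be enlarged. -/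
theorem SData.Cols.mono_C {D : SData V} {H η C C' q0 B τ u0 : ℝ} {B0 : ℕ} {L : Type*}
    [Fintype L] {μ : V → V → L → ℝ} {u : L → V → V → V → V → ℝ}
    (h : D.Cols H η C q0 B τ u0 B0 μ u) (hY : ∀ x y, 0 ≤ D.Y x y) (hC : C ≤ C') :
    D.Cols H η C' q0 B τ u0 B0 μ u :=
  { h with rate := fun x y => (h.rate x y).trans (mul_le_mul_of_nonneg_right hC (hY x y)) }

end

/-- **The columns of a stage.** `C0`, `q0` depend on `H`, `e1` only; `Bx`, `tau`, `B0` depend also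
on the bound `W0` for the weights of the active pairs and on `kap`. -/
theorem exists_cols_stage : ∀ (H e1 : ℝ), 1 ≤ H → 0 < e1 → e1 ≤ 1 →
    ∃ (C0 q0 : ℝ), 1 ≤ C0 ∧ 0 < q0 ∧
    ∀ (kap W0 : ℝ), ∃ (Bx tau : ℝ) (B0 : ℕ), 1 ≤ Bx ∧ 0 < tau ∧
    ∀ (V AL : Type u) [Fintype V] [DecidableEq V] [Fintype AL] (D : GData V AL), D.Ok →
      D.H = H → D.e1 = e1 → D.kap = kap → C0 ≤ D.C0 →
      0 ≤ W0 → q0 * (W0 * Real.exp (2 * H * kap)) ≤ D.n1 →
    ∀ (W1 : ℝ) (j : ℕ) (s : GState V) (C : V → Option (ℕ × Fin D.k × ℕ)), j ≤ D.NS →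
      D.SInvF W0 W1 j s C →
    ∃ (Lb : Type u) (_ : Fintype Lb) (μ : V → V → Lb → ℝ) (u : Lb → V → V → V → V → ℝ),
      (D.sd s).Cols D.H D.e1 D.C0 q0 Bx tau 1 B0 μ u := by
  intro H e1 hH he he1
  obtain ⟨C, q0, hC, hq0, h1⟩ := exists_cols.{u} H e1 hH he he1
  refine ⟨max C 1, q0, le_max_right _ _, hq0, fun kap W0 => ?_⟩
  obtain ⟨B, tau, B0, hB, htau, h2⟩ := h1 (W0 * Real.exp (2 * H * kap) * H)
  refine ⟨max (max B 1) 1, tau, B0, le_max_right _ _, htau, ?_⟩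
  intro V AL _ _ _ D hD hDH hDe hDk hC0 hW0 hq W1 j s Cc hj hI
  subst hDH hDe hDk
  have hK : W0 * D.gr j ≤ W0 * Real.exp (2 * D.H * D.kap) :=
    mul_le_mul_of_nonneg_left (GData.os_gr_le hD hj) hW0
  have hok := GData.sd_ok hD hI hK
  obtain ⟨Lb, hLb, μ, u, h3⟩ := h2 V (D.sd s) (W0 * Real.exp (2 * D.H * D.kap)) D.am 1 hok (by
    show W0 * Real.exp (2 * D.H * D.kap) * D.am ^ 2 ≤
      W0 * Real.exp (2 * D.H * D.kap) * D.H * D.n1
    have h4 : 0 ≤ W0 * Real.exp (2 * D.H * D.kap) := mul_nonneg hW0 (Real.exp_pos _).le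
    have h5 := mul_le_mul_of_nonneg_left hD.par2 h4
    linarith) hq one_pos
  refine ⟨Lb, hLb, μ, u, SData.Cols.mono_C h3 (fun x y => hok.Y_nonneg x y)
    ((le_max_left _ _).trans hC0)⟩

end Pool.Agent.AcyG
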