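import Pool.Agent.AcyG.OSampQ
import Pool.Agent.AcyG.ONib
import Pool.Agent.AcyG.ORun
import Pool.Agent.AcyG.OInvN
import Pool.Agent.AcyG.OSep
import Pool.Agent.AcyGD.DropAux
import Pool.Agent.AcyGD.Samp

/-! # One whole stage (project MP_af9dfb_G, row OStg) -/

set_option autoImplicit false
set_option linter.unusedSectionVars false

namespace Pool.Agent.AcyG

open Finset
open Pool.Agent.Acy (IsPM wt Ex Pr mean)
open Pool.Agent.AcyK (Big StepOK LocOK prodLaw Un Sel updCol HasC cN hasCol sameCol)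
open scoped Classical

universe u v

section

variable {V AL : Type u} [Fintype V] [DecidableEq V] [Fintype AL]

/-! ### The tests do not look at the stages of the uncoloured vertices -/

section lv

variable {D : AcyGD.DD V} {l : V → ℕ} {C : V → Option (Fin D.k × ℕ)}
  (hl : ∀ v, C v ≠ none → l v = D.lv v)
include hl

theorem ogs_hasCol {z : V} {c : Fin D.k} (h : hasCol C z c) : C z ≠ none := by
  obtain ⟨r, hr⟩ := h
  rw [hr]
  exact Option.some_ne_none _

theorem ogs_same (z z' : V) : (D.withLv l).Same C z z' ↔ D.Same C z z' := by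
  unfold AcyGD.DD.Same
  constructor
  · rintro ⟨h1, h2, c, h3, h4⟩
    refine ⟨h1, ?_, c, h3, h4⟩
    have h5 : l z = l z' := h2
    rwa [hl z (ogs_hasCol hl h3), hl z' (ogs_hasCol hl h4)] at h5
  · rintro ⟨h1, h2, c, h3, h4⟩
    refine ⟨h1, ?_, c, h3, h4⟩
    show l z = l z'
    rwa [hl z (ogs_hasCol hl h3), hl z' (ogs_hasCol hl h4)]

theorem ogs_tg (j : ℕ) (i : D.TI) (z : V) : (D.withLv l).tg C j i z = D.tg C j i z := by
  rcases i with v | ⟨u, x⟩ | x | ⟨a, i, c⟩ | v
  · rfl
  · rfl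
  · rfl
  · rw [AcyGD.DD.tg_d]
    refine Eq.trans (AcyGD.DD.tg_d (D := D.withLv l) C j a i c z) ?_
    refine if_congr Iff.rfl ?_ rfl
    congr 2
    ext y
    rw [mem_filter, mem_filter]
    refine and_congr Iff.rfl (and_congr Iff.rfl ?_)
    constructor
    · rintro ⟨h1, h2, h3⟩
      refine ⟨?_, h2, h3⟩
      rw [← hl y (ogs_hasCol hl h2)]
      exact h1
    · rintro ⟨h1, h2, h3⟩
      refine ⟨?_, h2, h3⟩
      show l y = i
      rw [hl y (ogs_hasCol hl h2)]
      exact h1
  · rw [AcyGD.DD.tg_e]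
    refine Eq.trans (AcyGD.DD.tg_e (D := D.withLv l) C j v z) ?_
    refine if_congr (and_congr Iff.rfl (and_congr Iff.rfl ?_)) rfl rfl
    refine exists_congr fun y => exists_congr fun y' => ?_
    constructor
    · rintro ⟨h1, h2, h3, h4⟩
      have h5 := (ogs_same hl y y').1 h1
      obtain ⟨c, h6, -⟩ := h5.2.2
      refine ⟨h5, h2, ?_, h4⟩
      rw [← hl y (ogs_hasCol hl h6)]
      exact h3
    · rintro ⟨h1, h2, h3, h4⟩
      obtain ⟨c, h6, -⟩ := h1.2.2
      refine ⟨(ogs_same hl y y').2 h1, h2, ?_, h4⟩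
      show l y < j
      rw [hl y (ogs_hasCol hl h6)]
      exact h3

end lv

theorem ogs_tgm {D : AcyGD.DD V} (l : V → ℕ) (i : D.TI) : (D.withLv l).tgm i = D.tgm i := by
  rcases i with v | ⟨u, x⟩ | x | ⟨a, i, c⟩ | v <;> rfl

theorem ogs_tgs {D : AcyGD.DD V} (l : V → ℕ) (i : D.TI) : (D.withLv l).tgs i = D.tgs i := by
  rcases i with v | ⟨u, x⟩ | x | ⟨a, i, c⟩ | v <;> rfl

theorem ogs_tgm_nonneg {D : AcyGD.DD V} (hD : D.Ok) (i : D.TI) : 0 ≤ D.tgm i := by
  rcases i with v | ⟨u, x⟩ | x | ⟨a, i, c⟩ | v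
  · rw [AcyGD.DD.tgm_a]; exact zero_le_one
  · rw [AcyGD.DD.tgm_b]; exact zero_le_one
  · rw [AcyGD.DD.tgm_c]; exact zero_le_one
  · rw [AcyGD.DD.tgm_d]; exact pow_nonneg hD.big.pos.le _
  · rw [AcyGD.DD.tgm_e]; exact zero_le_one

theorem ogs_dl {D : GData V AL} {C : V → Option (ℕ × Fin D.k × ℕ)} {l : V → ℕ} {v : V}
    {e : ℕ × Fin D.k × ℕ} (h : C v = some e) : D.dl C l v = e.1 := by
  unfold GData.dl
  rw [h]

theorem ogs_dl_none {D : GData V AL} {C : V → Option (ℕ × Fin D.k × ℕ)} {l : V → ℕ} {v : V}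
    (h : C v = none) : D.dl C l v = l v := by
  unfold GData.dl
  rw [h]

theorem ogs_dC_none {D : GData V AL} {C : V → Option (ℕ × Fin D.k × ℕ)} {v : V} :
    D.dC C v = none ↔ C v = none := by
  unfold GData.dC
  rw [Option.map_eq_none_iff]

theorem GSt.stage {Lb : Type u} [Fintype Lb] [Nonempty Lb] {E : GSt V Lb AL} (hE : E.Ok) {R : ℕ}
    (hR : E.R = R) (hDD : ∀ l, (E.toGData.dd R l).Ok) (hsep : E.toGData.Sep E.C)
    (hold : (E.toGData.dd R (E.toGData.dl E.C fun _ => E.j)).Old (E.toGData.dC E.C) E.j) :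
    ∃ (s' : GState V) (C' : V → Option (ℕ × Fin E.k × ℕ)),
      E.toGData.Full R E.W0 E.W1 (E.j + 1) s' C' := by
  have hD := hE.dat
  have hT := hD.big
  have hT1 : 1 ≤ E.T := hT.one_le
  have hR1 : (1 : ℝ) ≤ E.R := (one_le_pow₀ hT1).trans hD.R_lo
  obtain ⟨t1, t2, t3, t4, t5⟩ := AcyGD.DD.tg_ok (hDD _) hE.j_lt.le hold
  -- the sample
  have hS := samp_lin (V := V) hT hR1
    ((E.toGData.dd R (E.toGData.dl E.C fun _ => E.j)).tg (E.toGData.dC E.C) E.j)
    (E.toGData.dd R (E.toGData.dl E.C fun _ => E.j)).tgm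
    (E.toGData.dd R (E.toGData.dl E.C fun _ => E.j)).tgs
    (fun a => ogs_tgm_nonneg (hDD _) a)
    (fun a z => by rw [abs_of_nonneg (t1 a z)]; exact t2 a z)
    (fun a => by
      refine le_trans (le_of_eq (sum_congr rfl fun z _ => abs_of_nonneg (t1 a z))) (t3 a))
    (fun a => (t4 a).trans (hT.pw (by norm_num)))
    (fun z => (t5 z).trans (hT.pw (by norm_num)))
  obtain ⟨ω, -, hG, hτ⟩ := Pool.Agent.AcyK.StepOK.and_exists hT (sampLaw_isPM hR1)
    (LocOK.stepOK hT (goodAll_loc hE) (by norm_num)) hS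
  have hl1 : ∀ v, E.toGData.dC E.C v ≠ none →
      E.toGData.dl E.C (fun v => if v ∈ sampSet ω then E.j else E.j + 1) v =
        E.toGData.dl E.C (fun _ => E.j) v := by
    intro v hv
    obtain ⟨e, he⟩ := Option.ne_none_iff_exists'.1 fun h => hv (ogs_dC_none.2 h)
    rw [ogs_dl he, ogs_dl he]
  have hl2 : ∀ v, E.toGData.dC E.C v = none →
      E.j ≤ E.toGData.dl E.C (fun v => if v ∈ sampSet ω then E.j else E.j + 1) v := by
    intro v hv
    rw [ogs_dl_none (ogs_dC_none.1 hv)]
    split_ifs <;> omega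
  have hlj : ∀ v, E.toGData.dl E.C (fun v => if v ∈ sampSet ω then E.j else E.j + 1) v = E.j →
      E.C v = none ∧ v ∈ sampSet ω := by
    intro v hv
    rcases hc : E.C v with _ | ⟨i, c, r⟩
    · rw [ogs_dl_none hc] at hv
      refine ⟨rfl, ?_⟩
      by_contra h
      rw [if_neg h] at hv
      omega
    · rw [ogs_dl hc] at hv
      have := (hE.inv.C_lt v i c r hc).1
      simp only at hv
      omega
  have hlC : ∀ v, E.j ≤ E.toGData.dl E.C (fun v => if v ∈ sampSet ω then E.j else E.j + 1) v →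
      E.toGData.dC E.C v = none := by
    intro v hv
    rw [ogs_dC_none]
    rcases hc : E.C v with _ | ⟨i, c, r⟩
    · rfl
    · rw [ogs_dl hc] at hv
      have := (hE.inv.C_lt v i c r hc).1
      simp only at hv
      omega
  generalize hl : E.toGData.dl E.C (fun v => if v ∈ sampSet ω then E.j else E.j + 1) = l at *
  have hold2 : (E.toGData.dd R l).Old (E.toGData.dC E.C) E.j :=
    AcyGD.DD.old_withLv hold hl1 hl2
  have htg : ∀ i z, (E.toGData.dd R l).tg (E.toGData.dC E.C) E.j i z =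
      (E.toGData.dd R (E.toGData.dl E.C fun _ => E.j)).tg (E.toGData.dC E.C) E.j i z :=
    fun i z => ogs_tg (D := E.toGData.dd R (E.toGData.dl E.C fun _ => E.j)) hl1 E.j i z
  have hpast : (E.toGData.dd R l).Past (E.toGData.dC E.C) E.j := by
    refine AcyGD.DD.past_of (hDD l) hE.j_lt hold2 hlC (U := sampSet ω)
      (fun v hv => (hlj v hv).2) fun i => ?_
    have h1 := hτ i
    have e1 : (E.toGData.dd R l).tgm i =
        (E.toGData.dd R (E.toGData.dl E.C fun _ => E.j)).tgm i :=
      ogs_tgm (D := E.toGData.dd R (E.toGData.dl E.C fun _ => E.j)) l i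
    have e2 : (E.toGData.dd R l).tgs i =
        (E.toGData.dd R (E.toGData.dl E.C fun _ => E.j)).tgs i :=
      ogs_tgs (D := E.toGData.dd R (E.toGData.dl E.C fun _ => E.j)) l i
    simp only [htg]
    rw [hR] at h1
    rw [e1, e2]
    exact h1
  have hnib : (E.smp (sampSet ω)).nib.Ok := GSm.nib_ok (E := E.smp (sampSet ω)) hE hG
  have haux := NibData.AuxLoc.mono (D := (E.smp (sampSet ω)).nib) hT
    (show 40010 ≤ 42010 by norm_num)
    (AcyGD.DD.aux_drop.{u, 0} hnib (R := R) (NS := E.NS) (am := E.am) (N := E.N) (lv := l)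
      (hDD l) hpast)
  obtain ⟨col, ok, Y, s, lab, ra, hX, hF⟩ := run (E := E.smp (sampSet ω)) hE hG _ haux PUnit.unit
    (AcyGD.DD.prog_init (hDD l) hpast)
  refine ⟨_, _, ⟨GRn.inv_next hF, GRn.sep_next hF hsep, ?_⟩⟩
  refine AcyGD.DD.old_next (hDD l) hpast hX ?_ ?_
  · intro v hv
    have hv' := fun h => hv (ogs_dC_none.2 h)
    by_cases h1 : E.C v = none ∧ v ∈ sampSet ω ∧ ok v
    · have e0 : GRn.nC { E.smp (sampSet ω) with col := col, ok := ok, lab := lab, ra := ra } v =
          (col v).map fun e => (E.j, e.1, e.2) := if_pos h1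
      have e1 : l v = E.j := by
        rw [← hl, ogs_dl_none h1.1, if_pos h1.2.1]
      rcases hc : col v with _ | ⟨c, r⟩
      · rw [hc] at e0
        exact absurd e0 hv'
      · rw [hc, Option.map_some] at e0
        constructor
        · have e2 : (E.toGData.dd R l).addCol (E.toGData.dC E.C) E.j col v = col v :=
            if_pos e1
          rw [e2, hc]
          show Option.map _ _ = _
          rw [e0]
          rfl
        · refine (ogs_dl e0).trans ?_
          exact e1.symm
    · have e0 : GRn.nC { E.smp (sampSet ω) with col := col, ok := ok, lab := lab, ra := ra } v =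
          E.C v := if_neg h1
      rcases hc : E.C v with _ | ⟨i, c, r⟩
      · rw [hc] at e0
        exact absurd e0 hv'
      · rw [hc] at e0
        have e1 : l v = i := by
          rw [← hl, ogs_dl hc]
        have e3 := (hE.inv.C_lt v i c r hc).1
        constructor
        · have e2 : (E.toGData.dd R l).addCol (E.toGData.dC E.C) E.j col v =
              E.toGData.dC E.C v := by
            refine if_neg fun h => ?_
            have h' : l v = E.j := h
            omega
          rw [e2]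
          show Option.map _ _ = Option.map _ _
          rw [e0, hc]
        · refine (ogs_dl e0).trans ?_
          exact e1.symm
  · intro v hv
    have hv' := ogs_dC_none.1 hv
    have e1 := ogs_dl_none (l := fun _ => E.j + 1) hv'
    have e2 : E.j < E.j + 1 := Nat.lt_succ_self _
    exact lt_of_lt_of_eq e2 e1.symm

end

end Pool.Agent.AcyG
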