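import Pool.Agent.AcyG.OSite

/-! # The start of a stage; the initial state (project MP_af9dfb_G, row OB) -/

set_option autoImplicit false
set_option linter.unusedSectionVars false

namespace Pool.Agent.AcyG

open Finset
open Pool.Agent.Acy (IsPM wt Ex Pr mean)
open Pool.Agent.AcyK (Big StepOK LocOK prodLaw Un Sel updCol HasC cN)
open scoped Classical

universe u v

section

variable {V AL : Type u} [Fintype V] [DecidableEq V] [Fintype AL]

namespace GData

variable {D : GData V AL}

section mono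

variable {s t : GState V}

theorem ob_chi_le (hX : t.X = s.X) (hG : t.GB = s.GB) (hs : ∀ u x, 0 ≤ s.X u x)
    (hnf : ∀ u x, D.nf t u x → D.nf s u x) (u x : V) : D.chi t u x ≤ D.chi s u x := by
  unfold chi
  have htw : D.twn t u x ↔ D.twn s u x := by unfold twn; rw [hG]
  by_cases h1 : D.nf t u x
  · rw [if_pos h1, if_pos (hnf u x h1), hX]
  · rw [if_neg h1]
    by_cases h2 : D.nf s u x
    · rw [if_pos h2]
      have h3 : ¬ (D.lig u x ∧ ¬ D.twn t u x) := by
        rintro ⟨h4, -⟩
        exact absurd h4.2.2 (not_lt.2 h2.1.2.2.1)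
      rw [if_neg h3]
      exact hs u x
    · rw [if_neg h2]
      by_cases h3 : D.lig u x ∧ ¬ D.twn t u x
      · rw [if_pos h3, if_pos ⟨h3.1, fun h => h3.2 (htw.2 h)⟩]
      · rw [if_neg h3, if_neg fun h => h3 ⟨h.1, fun h' => h.2 (htw.1 h')⟩]

theorem ob_Y_le (hn : 0 < D.n1) (hX : t.X = s.X) (hG : t.GB = s.GB) (hs : ∀ u x, 0 ≤ s.X u x)
    (hnf : ∀ u x, D.nf t u x → D.nf s u x) (u x : V) : D.Y t u x ≤ D.Y s u x := by
  rw [os_Y_eq, os_Y_eq]
  exact mul_le_mul_of_nonneg_left
    (sum_le_sum fun z _ => sum_le_sum fun z' _ => ob_chi_le hX hG hs hnf z z') (by positivity)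

theorem ob_AS_le (hX : t.X = s.X) (hs : ∀ u x, 0 ≤ s.X u x)
    (has : ∀ u x, D.as t u x → D.as s u x) (x : V) : D.AS t x ≤ D.AS s x := by
  unfold AS
  refine sum_le_sum fun u _ => ?_
  by_cases h1 : D.as t u x
  · rw [if_pos h1, if_pos (has u x h1), hX]
  · rw [if_neg h1]
    split_ifs
    exacts [hs u x, le_rfl]

theorem ob_AY_le (hn : 0 < D.n1) (hX : t.X = s.X) (hs : ∀ u x, 0 ≤ s.X u x)
    (hnf : ∀ u x, D.nf t u x → D.nf s u x)
    (has : ∀ u x, D.as t u x → D.as s u x) (x : V) : D.AY t x ≤ D.AY s x := by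
  unfold AY
  have key : ∀ u, ∑ a ∈ cN D.N u x, ∑ b ∈ cN D.N u x, (if D.as t a b then t.X a b else 0) ≤
      ∑ a ∈ cN D.N u x, ∑ b ∈ cN D.N u x, (if D.as s a b then s.X a b else 0) := by
    intro u
    refine sum_le_sum fun a _ => sum_le_sum fun b _ => ?_
    by_cases h1 : D.as t a b
    · rw [if_pos h1, if_pos (has a b h1), hX]
    · rw [if_neg h1]
      split_ifs
      exacts [hs a b, le_rfl]
  have nn : ∀ u, 0 ≤ ∑ a ∈ cN D.N u x, ∑ b ∈ cN D.N u x, (if D.as s a b then s.X a b else 0) := by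
    intro u
    refine sum_nonneg fun a _ => sum_nonneg fun b _ => ?_
    split_ifs
    exacts [hs a b, le_rfl]
  refine sum_le_sum fun u _ => ?_
  by_cases h1 : D.nf t u x
  · rw [if_pos h1, if_pos (hnf u x h1), hX]
    refine mul_le_mul_of_nonneg_left ?_ (hs u x)
    have h2 := key u
    rw [hX] at h2
    exact mul_le_mul_of_nonneg_left h2 (by positivity)
  · rw [if_neg h1]
    split_ifs
    · exact mul_nonneg (hs u x) (mul_nonneg (by positivity) (nn u))
    · exact le_rfl

end mono

section step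

variable {s : GState V} {j : ℕ}

/-! ### Waking -/

theorem ob_wake_nf (u x : V) : D.nf (D.wake j s) u x ↔ D.nf s u x := by
  unfold nf wake
  simp only
  by_cases h : D.LI ∣ j ∧ s.st u x = .asl
  · rw [if_pos h]
    simp [h.2]
  · rw [if_neg h]

theorem ob_wake_frY (u x : V) : (D.wake j s).st u x = .frY ↔ s.st u x = .frY := by
  unfold wake
  simp only
  by_cases h : D.LI ∣ j ∧ s.st u x = .asl
  · rw [if_pos h]
    simp [h.2]
  · rw [if_neg h]

theorem ob_wake_frO (u x : V) : (D.wake j s).st u x = .frO ↔ s.st u x = .frO := by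
  unfold wake
  simp only
  by_cases h : D.LI ∣ j ∧ s.st u x = .asl
  · rw [if_pos h]
    simp [h.2]
  · rw [if_neg h]

theorem ob_wake_as (u x : V) (h : D.as (D.wake j s) u x) : D.as s u x ∧ ¬ D.LI ∣ j := by
  unfold as wake at h
  simp only at h
  by_cases h1 : D.LI ∣ j ∧ s.st u x = .asl
  · rw [if_pos h1] at h
    exact absurd h.2.1 (by simp)
  · rw [if_neg h1] at h
    exact ⟨h, fun h2 => h1 ⟨h2, h.2.1⟩⟩

theorem ob_wake_aw (u x : V) (h : D.aw (D.wake j s) u x) :
    D.aw s u x ∨ (D.LI ∣ j ∧ D.as s u x) := by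
  unfold aw wake at h
  simp only at h
  by_cases h1 : D.LI ∣ j ∧ s.st u x = .asl
  · exact Or.inr ⟨h1.1, h.1, h1.2, h.2.2⟩
  · rw [if_neg h1] at h
    exact Or.inl h

/-! ### Freezing -/

theorem ob_T_nf (u x : V) : D.nf (D.frzT s) u x ↔ D.nf s u x ∧ ¬ D.twn s u x := by
  unfold nf frzT
  simp only
  by_cases h : D.nf s u x ∧ D.twn s u x
  · rw [if_pos h]
    simp [h.2]
  · rw [if_neg h]
    constructor
    · intro h1
      exact ⟨h1, fun h2 => h ⟨h1, h2⟩⟩
    · exact fun h1 => h1.1

theorem ob_T_frY (u x : V) : (D.frzT s).st u x = .frY ↔ s.st u x = .frY := by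
  unfold frzT
  simp only
  by_cases h : D.nf s u x ∧ D.twn s u x
  · rw [if_pos h]
    rcases h.1.2.1 with h1 | h1 <;> simp [h1]
  · rw [if_neg h]

theorem ob_T_frO (u x : V) : (D.frzT s).st u x = .frO ↔ s.st u x = .frO ∨
    (D.nf s u x ∧ D.twn s u x) := by
  unfold frzT
  simp only
  by_cases h : D.nf s u x ∧ D.twn s u x
  · rw [if_pos h]
    simp [h]
  · rw [if_neg h]
    simp [h]

theorem ob_T_as (u x : V) (h : D.as (D.frzT s) u x) : D.as s u x := by
  unfold as frzT at h
  simp only at h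
  by_cases h1 : D.nf s u x ∧ D.twn s u x
  · rw [if_pos h1] at h
    exact absurd h.2.1 (by simp)
  · rw [if_neg h1] at h
    exact h

theorem ob_T_aw (u x : V) (h : D.aw (D.frzT s) u x) : D.aw s u x := by
  unfold aw frzT at h
  simp only at h
  by_cases h1 : D.nf s u x ∧ D.twn s u x
  · rw [if_pos h1] at h
    exact absurd h.2.1 (by simp)
  · rw [if_neg h1] at h
    exact h

theorem ob_Y_st (u x : V) : (D.frzY s).st u x =
    if D.nf s u x ∧ D.H < D.Y s u x then .frY else s.st u x := rfl

theorem ob_Y_nf (u x : V) : D.nf (D.frzY s) u x ↔ D.nf s u x ∧ D.Y s u x ≤ D.H := by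
  have e : D.nf (D.frzY s) u x ↔ D.far u x ∧ ((D.frzY s).st u x = .act ∨
    (D.frzY s).st u x = .asl) ∧ s.X u x ≠ 0 := Iff.rfl
  rw [e, ob_Y_st]
  by_cases h : D.nf s u x ∧ D.H < D.Y s u x
  · rw [if_pos h]
    constructor
    · rintro ⟨-, h1 | h1, -⟩ <;> simp at h1
    · rintro ⟨-, h1⟩
      exact absurd h.2 (not_lt.2 h1)
  · rw [if_neg h]
    constructor
    · intro h1
      have h2 : D.nf s u x := h1
      exact ⟨h2, not_lt.1 fun h3 => h ⟨h2, h3⟩⟩
    · exact fun h1 => h1.1

theorem ob_Y_frY (u x : V) : (D.frzY s).st u x = .frY ↔ s.st u x = .frY ∨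
    (D.nf s u x ∧ D.H < D.Y s u x) := by
  unfold frzY
  simp only
  by_cases h : D.nf s u x ∧ D.H < D.Y s u x
  · rw [if_pos h]
    simp [h]
  · rw [if_neg h]
    simp [h]

theorem ob_Y_frO (u x : V) : (D.frzY s).st u x = .frO ↔ s.st u x = .frO := by
  unfold frzY
  simp only
  by_cases h : D.nf s u x ∧ D.H < D.Y s u x
  · rw [if_pos h]
    rcases h.1.2.1 with h1 | h1 <;> simp [h1]
  · rw [if_neg h]

theorem ob_Y_as (u x : V) (h : D.as (D.frzY s) u x) : D.as s u x := by
  unfold as frzY at h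
  simp only at h
  by_cases h1 : D.nf s u x ∧ D.H < D.Y s u x
  · rw [if_pos h1] at h
    exact absurd h.2.1 (by simp)
  · rw [if_neg h1] at h
    exact h

theorem ob_Y_aw (u x : V) (h : D.aw (D.frzY s) u x) : D.aw s u x := by
  unfold aw frzY at h
  simp only at h
  by_cases h1 : D.nf s u x ∧ D.H < D.Y s u x
  · rw [if_pos h1] at h
    exact absurd h.2.1 (by simp)
  · rw [if_neg h1] at h
    exact h

/-- Freezing of the pairs of large rate does not increase `om`. -/
theorem ob_om_frzY (hn : 0 < D.n1) (hs : ∀ u x, 0 ≤ s.X u x) (x : V) :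
    D.om (D.frzY s) x ≤ D.om s x := by
  have hY : ∀ u x, D.Y (D.frzY s) u x ≤ D.Y s u x := fun u x =>
    ob_Y_le (s := s) (t := D.frzY s) hn rfl rfl hs (fun u x h => ((ob_Y_nf u x).1 h).1) u x
  have e1 : D.om (D.frzY s) x = ∑ u, ((if D.nf (D.frzY s) u x then s.X u x *
      D.Y (D.frzY s) u x else 0) + D.H * (if D.far u x ∧ (D.frzY s).st u x = .frY then
        s.X u x else 0)) := by
    rw [sum_add_distrib, ← mul_sum]
    rfl
  have e2 : D.om s x = ∑ u, ((if D.nf s u x then s.X u x * D.Y s u x else 0) +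
      D.H * (if D.far u x ∧ s.st u x = .frY then s.X u x else 0)) := by
    rw [sum_add_distrib, ← mul_sum]
    rfl
  rw [e1, e2]
  refine sum_le_sum fun u _ => ?_
  have hX := hs u x
  by_cases h1 : D.nf s u x
  · have h3 : ¬ (D.far u x ∧ s.st u x = .frY) := by
      rintro ⟨-, h4⟩
      rcases h1.2.1 with h5 | h5 <;> rw [h4] at h5 <;> simp at h5
    by_cases h2 : D.H < D.Y s u x
    · rw [if_neg (fun h => absurd h2 (not_lt.2 ((ob_Y_nf u x).1 h).2)),
        if_pos ⟨h1.1, (ob_Y_frY u x).2 (Or.inr ⟨h1, h2⟩)⟩, if_pos h1, if_neg h3]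
      nlinarith
    · have h4 : ¬ (D.far u x ∧ (D.frzY s).st u x = .frY) := by
        rintro ⟨h5, h6⟩
        rcases (ob_Y_frY u x).1 h6 with h7 | h7
        · exact h3 ⟨h5, h7⟩
        · exact h2 h7.2
      rw [if_pos ((ob_Y_nf u x).2 ⟨h1, not_lt.1 h2⟩), if_neg h4, if_pos h1, if_neg h3]
      have := mul_le_mul_of_nonneg_left (hY u x) hX
      linarith
  · have h2 : ¬ D.nf (D.frzY s) u x := fun h => h1 ((ob_Y_nf u x).1 h).1
    have h3 : (D.far u x ∧ (D.frzY s).st u x = .frY) ↔ (D.far u x ∧ s.st u x = .frY) := by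
      rw [ob_Y_frY]
      constructor
      · rintro ⟨h4, h5 | h5⟩
        · exact ⟨h4, h5⟩
        · exact absurd h5.1 h1
      · rintro ⟨h4, h5⟩
        exact ⟨h4, Or.inl h5⟩
    rw [if_neg h1, if_neg h2, if_congr h3 rfl rfl]

/-- Freezing without rates. -/
theorem ob_om_le {t : GState V} (hn : 0 < D.n1) (hX : t.X = s.X) (hG : t.GB = s.GB)
    (hs : ∀ u x, 0 ≤ s.X u x) (hnf : ∀ u x, D.nf t u x → D.nf s u x)
    (hfr : ∀ u x, t.st u x = .frY ↔ s.st u x = .frY) (hY0 : ∀ u x, 0 ≤ D.Y s u x) (x : V) :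
    D.om t x ≤ D.om s x := by
  have hY : ∀ u x, D.Y t u x ≤ D.Y s u x := fun u x => ob_Y_le hn hX hG hs hnf u x
  unfold om
  have e2 : (∑ u, if D.far u x ∧ t.st u x = .frY then t.X u x else 0) =
      ∑ u, if D.far u x ∧ s.st u x = .frY then s.X u x else 0 := by
    refine sum_congr rfl fun u _ => ?_
    rw [hX]
    exact if_congr (and_congr Iff.rfl (hfr u x)) rfl rfl
  rw [e2]
  refine add_le_add (sum_le_sum fun u _ => ?_) le_rfl
  by_cases h1 : D.nf t u x
  · rw [if_pos h1, if_pos (hnf u x h1), hX]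
    exact mul_le_mul_of_nonneg_left (hY u x) (hs u x)
  · rw [if_neg h1]
    split_ifs
    · exact mul_nonneg (hs u x) (hY0 u x)
    · exact le_rfl

end step

variable (hD : D.Ok)
include hD

variable {W0 W1 : ℝ} {j : ℕ} {s : GState V} {C : V → Option (ℕ × Fin D.k × ℕ)}

theorem start_inv (hs : D.SInv W0 W1 j s C) {W0' W1' : ℝ} (h0 : W0 ≤ W0') (h1 : W1 ≤ W1')
    (h2 : D.LI ∣ j → W1 ≤ W0') (h3 : 0 ≤ W0') : D.SInvF W0' W1' j (D.start j s) C := by
  have hn := os_n1_pos hD
  have hX0 := os_X_nonneg hs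
  have hR := os_R_pos hD
  set t := D.start j s with ht
  have hX : t.X = s.X := rfl
  have hG : t.GB = s.GB := rfl
  have hch : t.ch = s.ch := rfl
  -- kinds
  have hnf : ∀ u x, D.nf t u x → D.nf s u x ∧ ¬ D.twn s u x ∧ D.Y t u x ≤ D.H := by
    intro u x h
    have a1 := (ob_Y_nf u x).1 h
    have a2 := (ob_T_nf u x).1 a1.1
    have a3 := (ob_wake_nf u x).1 a2.1
    refine ⟨a3, a2.2, ?_⟩
    exact (ob_Y_le (s := D.frzT (D.wake j s)) (t := t) hn rfl rfl hX0
      (fun u x h => ((ob_Y_nf u x).1 h).1) u x).trans a1.2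
  have hnf1 : ∀ u x, D.nf t u x → D.nf s u x := fun u x h => (hnf u x h).1
  have has : ∀ u x, D.as t u x → D.as s u x ∧ ¬ D.LI ∣ j := fun u x h =>
    ob_wake_as u x (ob_T_as u x (ob_Y_as u x h))
  have has1 : ∀ u x, D.as t u x → D.as s u x := fun u x h => (has u x h).1
  have haw : ∀ u x, D.aw t u x → D.aw s u x ∨ (D.LI ∣ j ∧ D.as s u x) := fun u x h =>
    ob_wake_aw u x (ob_T_aw u x (ob_Y_aw u x h))
  have hfrO : ∀ u x, t.st u x = .frO → s.st u x = .frO ∨ (D.nf s u x ∧ D.twn s u x) := by
    intro u x h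
    have a1 := (ob_Y_frO u x).1 h
    rcases (ob_T_frO u x).1 a1 with a2 | a2
    · exact Or.inl ((ob_wake_frO u x).1 a2)
    · exact Or.inr ⟨(ob_wake_nf u x).1 a2.1, a2.2⟩
  have hfrY : ∀ u x, t.st u x = .frY → s.st u x = .frY ∨ D.nf s u x := by
    intro u x h
    rcases (ob_Y_frY u x).1 h with a2 | a2
    · exact Or.inl ((ob_wake_frY u x).1 ((ob_T_frY u x).1 a2))
    · exact Or.inr ((ob_wake_nf u x).1 ((ob_T_nf u x).1 a2.1).1)
  -- symmetry of the statuses
  have hw_st : ∀ u x, (D.wake j s).st u x = (D.wake j s).st x u := by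
    intro u x
    unfold wake
    simp only
    rw [hs.st_symm u x]
  have hw_nf : ∀ u x, D.nf (D.wake j s) u x ↔ D.nf (D.wake j s) x u := by
    intro u x
    rw [ob_wake_nf, ob_wake_nf, os_nf_comm hD hs]
  have hT_st : ∀ u x, (D.frzT (D.wake j s)).st u x = (D.frzT (D.wake j s)).st x u := by
    intro u x
    unfold frzT
    simp only
    have a1 : (D.nf (D.wake j s) u x ∧ D.twn (D.wake j s) u x) ↔
        (D.nf (D.wake j s) x u ∧ D.twn (D.wake j s) x u) :=
      and_congr (hw_nf u x) (os_twn_comm hs u x)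
    rw [hw_st u x]
    exact if_congr a1 rfl rfl
  have hT_nf : ∀ u x, D.nf (D.frzT (D.wake j s)) u x ↔ D.nf (D.frzT (D.wake j s)) x u := by
    intro u x
    rw [ob_T_nf, ob_T_nf]
    exact and_congr (hw_nf u x) (not_congr (os_twn_comm hs u x))
  have ht_st : ∀ u x, t.st u x = t.st x u := by
    intro u x
    rw [ht]
    unfold start frzY
    simp only
    have a1 : (D.nf (D.frzT (D.wake j s)) u x ∧ D.H < D.Y (D.frzT (D.wake j s)) u x) ↔
        (D.nf (D.frzT (D.wake j s)) x u ∧ D.H < D.Y (D.frzT (D.wake j s)) x u) := by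
      rw [os_Y_symm u x]
      exact and_congr (hT_nf u x) Iff.rfl
    rw [hT_st u x]
    exact if_congr a1 rfl rfl
  -- the main statistic
  have hY0 := os_Y_nonneg hD hs
  have hYw : ∀ u x, 0 ≤ D.Y (D.wake j s) u x := by
    intro u x
    rw [os_Y_eq]
    refine mul_nonneg (by positivity) (sum_nonneg fun z _ => sum_nonneg fun z' _ => ?_)
    unfold chi
    split_ifs
    exacts [hX0 _ _, zero_le_one, le_rfl]
  have hom : ∀ x, D.om t x ≤ D.om s x := by
    intro x
    have a1 : D.om t x ≤ D.om (D.frzT (D.wake j s)) x :=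
      ob_om_frzY (s := D.frzT (D.wake j s)) hn hX0 x
    have a2 : D.om (D.frzT (D.wake j s)) x ≤ D.om (D.wake j s) x :=
      ob_om_le (s := D.wake j s) (t := D.frzT (D.wake j s)) hn rfl rfl hX0
        (fun u x h => ((ob_T_nf u x).1 h).1) (fun u x => ob_T_frY u x) hYw x
    have a3 : D.om (D.wake j s) x ≤ D.om s x :=
      ob_om_le (s := s) (t := D.wake j s) hn rfl rfl hX0 (fun u x h => (ob_wake_nf u x).1 h)
        (fun u x => ob_wake_frY u x) hY0 x
    exact a1.trans (a2.trans a3)
  have hASle := ob_AS_le (D := D) hX hX0 has1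
  have hAYle := ob_AY_le (D := D) hn hX hX0 hnf1 has1
  have hOB : 0 ≤ D.OB := by unfold OB; positivity
  have hC0 := hD.C0_one
  have hH := hD.H_one
  have hk := os_k_pos hD
  have hT := os_T_pos hD
  have hAS0 : D.LI ∣ j → ∀ x, D.AS t x = 0 := by
    intro hj x
    unfold AS
    exact sum_eq_zero fun u _ => if_neg fun h => (has u x h).2 hj
  have hAY0 : D.LI ∣ j → ∀ x, D.AY t x = 0 := by
    intro hj x
    unfold AY
    refine sum_eq_zero fun u _ => ?_
    have a1 : ∑ a ∈ cN D.N u x, ∑ b ∈ cN D.N u x, (if D.as t a b then t.X a b else 0) = 0 :=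
      sum_eq_zero fun a _ => sum_eq_zero fun b _ => if_neg fun h => (has a b h).2 hj
    rw [a1, mul_zero, mul_zero, ite_self]
  have hAS' : ∀ x, D.AS t x ≤ ((j % D.LI : ℕ) / D.R) * (6 * D.C0 * D.OB) +
      (j % D.LI : ℕ) * (D.k / D.T ^ 2) := by
    intro x
    rcases hs.AS x with a1 | a1
    · exact (hASle x).trans a1
    · rw [hAS0 (Nat.dvd_of_mod_eq_zero a1.1) x]
      positivity
  have hAY' : ∀ x, D.AY t x ≤ ((j % D.LI : ℕ) / D.R) * (30 * D.C0 * D.H * D.OB) +
      (j % D.LI : ℕ) * (D.k / D.T ^ 2) := by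
    intro x
    rcases hs.AY x with a1 | a1
    · exact (hAYle x).trans a1
    · rw [hAY0 (Nat.dvd_of_mod_eq_zero a1.1) x]
      positivity
  have hgr := (os_gr_pos (D := D) j).le
  exact
  { X_symm := hs.X_symm
    st_symm := ht_st
    GB_symm := hs.GB_symm
    ch_symm := hs.ch_symm
    X_lo := hs.X_lo
    X_hi := hs.X_hi
    X_act := by
      intro u x h
      rcases haw u x h with a1 | a1
      · exact (hs.X_act u x a1).trans (mul_le_mul_of_nonneg_right h0 hgr)
      · exact (hs.X_asl u x a1.2).trans (mul_le_mul_of_nonneg_right (h2 a1.1) hgr)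
    X_asl := fun u x h => (hs.X_asl u x (has1 u x h)).trans (mul_le_mul_of_nonneg_right h1 hgr)
    GB_nonneg := hs.GB_nonneg
    ch_nonneg := hs.ch_nonneg
    ch_dead := hs.ch_dead
    ch_log := hs.ch_log
    fr_ne := by
      intro u x h
      rcases h with h | h
      · rcases hfrY u x h with a1 | a1
        · exact hs.fr_ne u x (Or.inl a1)
        · exact a1.2.2
      · rcases hfrO u x h with a1 | a1
        · exact hs.fr_ne u x (Or.inr a1)
        · exact a1.1.2.2
    inj := fun u x h => hs.inj u x (hnf1 u x h)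
    C_lt := hs.C_lt
    om := fun x => (hom x).trans (hs.om x)
    AS := fun x => Or.inl (hAS' x)
    AY := fun x => Or.inl (hAY' x)
    FO := by
      intro x
      refine le_trans ?_ (hs.FO x)
      unfold FO
      refine sum_le_sum fun u _ => ?_
      by_cases a1 : D.far u x ∧ t.st u x = .frO ∧ ¬ D.twn t u x
      · have a2 : ¬ D.twn s u x := a1.2.2
        rw [if_pos a1]
        rcases hfrO u x a1.2.1 with a3 | a3
        · rw [if_pos ⟨a1.1, a3, a2⟩]
          exact le_rfl
        · exact absurd a3.2 a2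
      · rw [if_neg a1]
        split_ifs
        exacts [hX0 u x, le_rfl]
    CH := hs.CH
    gram := hs.gram
    gbrow := hs.gbrow
    lin := by
      intro i
      refine le_trans ?_ (hs.lin i)
      unfold Lin
      refine mul_le_mul_of_nonneg_left (sum_le_sum fun z _ => sum_le_sum fun z' _ => ?_)
        (by norm_num)
      exact mul_le_mul_of_nonneg_left (ob_chi_le hX hG hX0 hnf1 z z') (hD.a_nonneg i z z')
    mon := hs.mon
    un := hs.un
    nf_Y := fun u x h => (hnf u x h).2.2
    nf_tw := fun u x h => (hnf u x h).2.1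
    AS' := hAS'
    AY' := hAY' }

omit hD in
/-- The initial state. -/
noncomputable def init (D : GData V AL) : GState V where
  X := fun _ _ => 1
  st := fun _ _ => .act
  GB := fun _ _ => 0
  ch := fun _ _ => 0

omit hD in
theorem ob_chi_init (u x : V) : D.chi D.init u x ≤ 1 := by
  unfold chi
  split_ifs
  exacts [le_rfl, le_rfl, zero_le_one]

theorem ob_sum_cod (x : V) : ∑ u, D.cod u x ≤ D.T ^ 7200 := by
  have h1 : ∀ u, D.cod u x = ∑ z ∈ D.N x, if u ∈ D.N z then (1 : ℝ) else 0 := by
    intro u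
    unfold cod cN
    rw [sum_ite, sum_const_zero, add_zero, sum_const, nsmul_eq_mul, mul_one]
    congr 2
    ext z
    rw [mem_inter, mem_filter, and_comm]
    exact and_congr Iff.rfl ⟨fun h => hD.N_symm _ _ h, fun h => hD.N_symm _ _ h⟩
  have h2 : ∑ u, D.cod u x = ∑ z ∈ D.N x, ((D.N z).card : ℝ) := by
    simp only [h1]
    rw [sum_comm]
    refine sum_congr rfl fun z _ => ?_
    rw [sum_ite, sum_const_zero, add_zero, sum_const, nsmul_eq_mul, mul_one]
    congr 2
    ext u
    simp
  rw [h2]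
  calc ∑ z ∈ D.N x, ((D.N z).card : ℝ) ≤ ∑ _z ∈ D.N x, D.T ^ 3600 :=
        sum_le_sum fun z _ => hD.deg z
    _ = ((D.N x).card : ℝ) * D.T ^ 3600 := by rw [sum_const, nsmul_eq_mul]
    _ ≤ D.T ^ 3600 * D.T ^ 3600 :=
        mul_le_mul_of_nonneg_right (hD.deg x) (pow_nonneg (os_T_pos hD).le _)
    _ = D.T ^ 7200 := by rw [← pow_add]

theorem init_inv (h0 : 1 ≤ W0) : D.SInv W0 W1 0 (D.init) fun _ => none := by
  have hn := os_n1_pos hD
  have ham := os_am_pos hD
  have hYle : ∀ u x, D.far u x → D.Y D.init u x ≤ 1 / (2 * D.n1) * (D.am * D.cod u x) := by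
    intro u x h
    rw [os_Y_eq]
    refine mul_le_mul_of_nonneg_left ?_ (by positivity)
    calc ∑ z ∈ cN D.N u x, ∑ z' ∈ cN D.N u x, D.chi D.init z z'
        ≤ ∑ z ∈ cN D.N u x, ∑ z' ∈ cN D.N u x, (1 : ℝ) :=
          sum_le_sum fun z _ => sum_le_sum fun z' _ => ob_chi_init z z'
      _ = D.cod u x * D.cod u x := by
          rw [sum_const, sum_const, nsmul_eq_mul, nsmul_eq_mul, mul_one]
          rfl
      _ ≤ D.am * D.cod u x := mul_le_mul_of_nonneg_right h.2.2.2 (os_cod_nonneg u x)
  have hom : ∀ x, D.om D.init x ≤ D.OB / 2 := by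
    intro x
    have e1 : (∑ u, if D.far u x ∧ D.init.st u x = .frY then D.init.X u x else 0) = 0 := by
      refine sum_eq_zero fun u _ => if_neg ?_
      rintro ⟨-, h⟩
      have h' : GStat.act = GStat.frY := h
      simp at h'
    unfold om
    rw [e1, mul_zero, add_zero]
    calc (∑ u, if D.nf D.init u x then D.init.X u x * D.Y D.init u x else 0)
        ≤ ∑ u, 1 / (2 * D.n1) * (D.am * D.cod u x) := by
          refine sum_le_sum fun u _ => ?_
          by_cases h1 : D.nf D.init u x
          · rw [if_pos h1]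
            have h2 : D.init.X u x = 1 := rfl
            rw [h2, one_mul]
            exact hYle u x h1.1
          · rw [if_neg h1]
            have := os_cod_nonneg (D := D) u x
            positivity
      _ = 1 / (2 * D.n1) * (D.am * ∑ u, D.cod u x) := by rw [mul_sum, mul_sum]
      _ ≤ 1 / (2 * D.n1) * (D.am * (D.n1 * D.am / 2000)) := by
          refine mul_le_mul_of_nonneg_left (mul_le_mul_of_nonneg_left ?_ ham.le) (by positivity)
          have h1 := ob_sum_cod hD x
          have h2 := hD.par1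
          linarith
      _ = D.OB / 2 := by
          unfold OB
          field_simp
  have hnas : ∀ u x, ¬ D.as D.init u x := by
    rintro u x ⟨-, h, -⟩
    have h' : GStat.act = GStat.asl := h
    simp at h'
  have hT := os_T_pos hD
  exact
  { X_symm := fun _ _ => rfl
    st_symm := fun _ _ => rfl
    GB_symm := fun _ _ => rfl
    ch_symm := fun _ _ => rfl
    X_lo := by
      intro u x
      right
      show D.dec 0 ≤ 1
      unfold dec
      simp
    X_hi := fun _ _ => os_Kc_one hD
    X_act := by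
      intro u x _
      show 1 ≤ W0 * D.gr 0
      have : D.gr 0 = 1 := by unfold gr; simp
      rw [this, mul_one]
      exact h0
    X_asl := fun u x h => absurd h (hnas u x)
    GB_nonneg := fun _ _ => le_rfl
    ch_nonneg := fun _ _ => le_rfl
    ch_dead := by
      intro u x h
      have h' : (1 : ℝ) = 0 := h
      norm_num at h'
    ch_log := by
      intro u x _
      show |Real.log 1| ≤ D.Kc * 0
      simp
    fr_ne := by
      intro u x _
      show (1 : ℝ) ≠ 0
      norm_num
    inj := by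
      intro u x _ z _ z' _ _ h
      obtain ⟨i, c, r, r', h1, -⟩ := h
      simp at h1
    C_lt := by
      intro v i c r h
      simp at h
    om := by
      intro x
      have := hom x
      simpa using this
    AS := by
      intro x
      left
      have h1 : D.AS D.init x = 0 := by
        unfold AS
        exact sum_eq_zero fun u _ => if_neg (hnas u x)
      rw [h1, Nat.zero_mod]
      simp
    AY := by
      intro x
      left
      have h1 : D.AY D.init x = 0 := by
        unfold AY
        refine sum_eq_zero fun u _ => ?_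
        have a1 : ∑ a ∈ cN D.N u x, ∑ b ∈ cN D.N u x,
            (if D.as D.init a b then D.init.X a b else 0) = 0 :=
          sum_eq_zero fun a _ => sum_eq_zero fun b _ => if_neg (hnas a b)
        rw [a1, mul_zero, mul_zero, ite_self]
      rw [h1, Nat.zero_mod]
      simp
    FO := by
      intro x
      have h1 : D.FO D.init x = 0 := by
        unfold FO
        refine sum_eq_zero fun u _ => if_neg ?_
        rintro ⟨-, h, -⟩
        have h' : GStat.act = GStat.frO := h
        simp at h'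
      rw [h1]
      simp
    CH := by
      intro x
      have h1 : D.CH D.init x = 0 := by
        unfold CH
        exact sum_eq_zero fun u _ => by
          split_ifs
          · rfl
          · rfl
      rw [h1]
      simp
    gram := by
      intro y y' _
      have h1 : D.Gr D.init y y' = 0 := by
        unfold Gr
        refine sum_eq_zero fun u _ => ?_
        have h2 : D.K D.init u y = 0 := by
          unfold K
          have : D.init.X u y = 1 := rfl
          rw [this, sub_self, ite_self]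
        rw [h2, zero_mul]
      rw [h1]
      show |(0 : ℝ)| ≤ 2 * 0 + ((0 : ℕ) : ℝ) * D.T ^ 3420
      simp
    gbrow := by
      intro y
      have h1 : ∑ y', D.init.GB y y' = 0 := sum_eq_zero fun _ _ => rfl
      rw [h1]
      simp
    lin := by
      intro i
      have h1 : D.Lin D.init i ≤ D.La i := by
        unfold Lin
        refine le_trans (mul_le_mul_of_nonneg_left (sum_le_sum fun z _ =>
          sum_le_sum fun z' _ => ?_) (by norm_num)) (hD.a_tot i)
        exact mul_le_of_le_one_right (hD.a_nonneg i z z') (ob_chi_init z z')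
      simpa using h1
    mon := by
      intro i
      have h1 : D.Mon (fun _ => none) i = 0 := by
        unfold Mon
        refine sum_eq_zero fun z _ => sum_eq_zero fun z' _ => if_neg ?_
        rintro ⟨j, c, r, r', h, -⟩
        simp at h
      rw [h1]
      simp
    un := by
      intro v
      have h1 : D.un (fun _ => none) v ≤ D.T ^ 3600 := by
        unfold un
        refine le_trans ?_ (hD.deg v)
        exact_mod_cast card_le_card (filter_subset _ _)
      simpa using h1 }

end GData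

end

end Pool.Agent.AcyG
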