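import Pool.Agent.AcyG.OPair
import Pool.Agent.AcyG.OPtw
import Pool.Agent.AcyG.OStatA

/-! # The statistics of a vertex after one stage (project MP_af9dfb_G, part O) -/

set_option autoImplicit false
set_option linter.unusedSectionVars false

namespace Pool.Agent.AcyG

open Finset
open Pool.Agent.AcyK (cN)
open scoped Classical

universe u v

section

variable {V AL Lb : Type u} [Fintype V] [DecidableEq V] [Fintype AL] [Fintype Lb]

/-! ### Linear functionals -/

namespace GSt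

variable {E : GSt V Lb AL}

theorem oq_mn_lin {ι : Type*} [Fintype ι] (c : ι → ℝ) (w : ι → V → V → Lb → ℝ) (z z' : V) :
    E.mn (fun z z' l => ∑ i, c i * w i z z' l) z z' = ∑ i, c i * E.mn (w i) z z' := by
  unfold mn
  simp only [mul_sum]
  rw [sum_comm]
  exact sum_congr rfl fun i _ => sum_congr rfl fun l _ => by ring

theorem oq_prd_lin {ι : Type*} [Fintype ι] (c : ι → ℝ) (w : ι → V → V → Lb → ℝ) :
    E.prd (fun z z' l => ∑ i, c i * w i z z' l) = ∑ i, c i * E.prd (w i) := by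
  unfold prd
  simp only [oq_mn_lin]
  have h1 : ∀ i, c i * (1 / (2 * E.n1) * ∑ z, ∑ z', E.chi E.s z z' * E.mn (w i) z z') =
      1 / (2 * E.n1) * ∑ z, ∑ z', E.chi E.s z z' * (c i * E.mn (w i) z z') := by
    intro i
    rw [mul_left_comm]
    congr 1
    rw [mul_sum]
    refine sum_congr rfl fun z _ => ?_
    rw [mul_sum]
    exact sum_congr rfl fun z' _ => by ring
  simp only [h1]
  rw [← mul_sum]
  congr 1
  have h2 : ∑ i, ∑ z, ∑ z', E.chi E.s z z' * (c i * E.mn (w i) z z') =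
      ∑ z, ∑ z', ∑ i, E.chi E.s z z' * (c i * E.mn (w i) z z') := by
    rw [sum_comm]
    refine sum_congr rfl fun z _ => ?_
    rw [sum_comm]
  rw [h2]
  refine sum_congr rfl fun z _ => sum_congr rfl fun z' _ => ?_
  rw [mul_sum]

variable (E) in
/-- Coefficients of `S3`. -/
noncomputable def kp (x : V) (t : V × V × V) : ℝ :=
  if E.nf E.s t.1 x ∧ t.2.1 ∈ cN E.N t.1 x ∧ t.2.2 ∈ cN E.N t.1 x then
    1 / (2 * E.n1) * E.s.X t.1 x else 0

theorem S3_eq (x : V) (f : V → V → V → ℝ) :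
    E.S3 x f = ∑ t : V × V × V, E.kp x t * f t.1 t.2.1 t.2.2 := by
  unfold S3
  rw [Fintype.sum_prod_type, mul_sum]
  refine sum_congr rfl fun u _ => ?_
  rw [Fintype.sum_prod_type]
  unfold kp
  by_cases h : E.nf E.s u x
  · rw [if_pos h, ← Finset.sum_filter_add_sum_filter_not univ (fun a => a ∈ cN E.N u x)]
    have e1 : ∑ a ∈ univ.filter (fun a => ¬ a ∈ cN E.N u x), ∑ b, (if E.nf E.s u x ∧
        a ∈ cN E.N u x ∧ b ∈ cN E.N u x then 1 / (2 * E.n1) * E.s.X u x else 0) * f u a b = 0 := by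
      refine sum_eq_zero fun a ha => sum_eq_zero fun b _ => ?_
      rw [if_neg (fun h' => (mem_filter.1 ha).2 h'.2.1), zero_mul]
    rw [e1, add_zero, Finset.filter_mem_eq_inter, Finset.univ_inter, mul_sum]
    refine sum_congr rfl fun a ha => ?_
    rw [← Finset.sum_filter_add_sum_filter_not univ (fun b => b ∈ cN E.N u x)]
    have e2 : ∑ b ∈ univ.filter (fun b => ¬ b ∈ cN E.N u x), (if E.nf E.s u x ∧
        a ∈ cN E.N u x ∧ b ∈ cN E.N u x then 1 / (2 * E.n1) * E.s.X u x else 0) * f u a b = 0 := by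
      refine sum_eq_zero fun b hb => ?_
      rw [if_neg (fun h' => (mem_filter.1 hb).2 h'.2.2), zero_mul]
    rw [e2, add_zero, Finset.filter_mem_eq_inter, Finset.univ_inter, mul_sum]
    refine sum_congr rfl fun b hb => ?_
    rw [if_pos ⟨h, ha, hb⟩]
    ring
  · rw [if_neg h, mul_zero]
    symm
    refine sum_eq_zero fun a _ => sum_eq_zero fun b _ => ?_
    rw [if_neg (fun h' => h h'.1), zero_mul]

theorem kp_nonneg (hE : E.Ok) (x : V) (t : V × V × V) : 0 ≤ E.kp x t := by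
  unfold kp
  split_ifs
  · have := GData.os_n1_pos hE.dat
    exact mul_nonneg (by positivity) (GData.os_X_nonneg hE.inv.toSInv _ _)
  · exact le_rfl

theorem S3_mono (hE : E.Ok) (x : V) {f g : V → V → V → ℝ} (h : ∀ u a b, E.nf E.s u x →
    a ∈ cN E.N u x → b ∈ cN E.N u x → f u a b ≤ g u a b) : E.S3 x f ≤ E.S3 x g := by
  rw [S3_eq, S3_eq]
  refine sum_le_sum fun t _ => ?_
  by_cases ht : E.nf E.s t.1 x ∧ t.2.1 ∈ cN E.N t.1 x ∧ t.2.2 ∈ cN E.N t.1 x
  · exact mul_le_mul_of_nonneg_left (h _ _ _ ht.1 ht.2.1 ht.2.2) (kp_nonneg hE x t)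
  · unfold kp
    rw [if_neg ht, zero_mul, zero_mul]

theorem S3_nonneg (hE : E.Ok) (x : V) {f : V → V → V → ℝ} (h : ∀ u a b, 0 ≤ f u a b) :
    0 ≤ E.S3 x f := by
  rw [S3_eq]
  exact sum_nonneg fun t _ => mul_nonneg (kp_nonneg hE x t) (h _ _ _)

theorem S3_add (x : V) (f g : V → V → V → ℝ) :
    E.S3 x (fun u a b => f u a b + g u a b) = E.S3 x f + E.S3 x g := by
  rw [S3_eq, S3_eq, S3_eq, ← sum_add_distrib]
  exact sum_congr rfl fun t _ => by ring

theorem S3_sub (x : V) (f g : V → V → V → ℝ) :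
    E.S3 x (fun u a b => f u a b - g u a b) = E.S3 x f - E.S3 x g := by
  rw [S3_eq, S3_eq, S3_eq, ← sum_sub_distrib]
  exact sum_congr rfl fun t _ => by ring

theorem S3_smul (x : V) (c : ℝ) (f : V → V → V → ℝ) :
    E.S3 x (fun u a b => c * f u a b) = c * E.S3 x f := by
  rw [S3_eq, S3_eq, mul_sum]
  exact sum_congr rfl fun t _ => by ring

/-- Predicted values of sums `S3`. -/
theorem prd_S3 (x : V) (f : V → V → V → V → V → Lb → ℝ) :
    E.prd (fun z z' l => E.S3 x fun u a b => f u a b z z' l) =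
      E.S3 x fun u a b => E.prd (f u a b) := by
  have h : (fun (z z' : V) (l : Lb) => E.S3 x fun u a b => f u a b z z' l) =
      fun z z' l => ∑ t : V × V × V, E.kp x t * f t.1 t.2.1 t.2.2 z z' l := by
    funext z z' l
    exact S3_eq x _
  rw [h, oq_prd_lin (E.kp x) fun t => f t.1 t.2.1 t.2.2, S3_eq]

theorem oq_prd_mul (c : ℝ) (w : V → V → Lb → ℝ) :
    E.prd (fun z z' l => c * w z z' l) = c * E.prd w := by
  have h := oq_prd_lin (E := E) (fun _ : Unit => c) (fun _ => w)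
  simpa using h

theorem oq_prd_add (w w' : V → V → Lb → ℝ) :
    E.prd (fun z z' l => w z z' l + w' z z' l) = E.prd w + E.prd w' := by
  have h := oq_prd_lin (E := E) (fun _ : Bool => (1 : ℝ)) (fun b => if b then w else w')
  simpa using h

end GSt

namespace GRn

variable {E : GRn V Lb AL}

theorem G1_lin {ι : Type*} [Fintype ι] (c : ι → ℝ) (w : ι → V → V → Lb → ℝ) :
    E.G1 (fun z z' l => ∑ i, c i * w i z z' l) = ∑ i, c i * E.G1 (w i) := by
  simp only [G1_eq, mul_sum]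
  rw [sum_comm]
  refine sum_congr rfl fun e _ => ?_
  split_ifs
  · rfl
  · simp

theorem Cr_lin {ι : Type*} [Fintype ι] (c : ι → ℝ) (w : ι → V → V → Lb → ℝ) :
    E.Cr (fun z z' l => ∑ i, c i * w i z z' l) = ∑ i, c i * E.Cr (w i) := by
  unfold Cr
  simp only [GSt.oq_mn_lin, mul_sum]
  have h2 : ∑ i, ∑ z, ∑ z', c i * E.rs z z' (E.ra z z' * E.mn (w i) z z') =
      ∑ z, ∑ z', ∑ i, c i * E.rs z z' (E.ra z z' * E.mn (w i) z z') := by
    rw [sum_comm]
    refine sum_congr rfl fun z _ => ?_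
    rw [sum_comm]
  rw [h2]
  refine sum_congr rfl fun z _ => sum_congr rfl fun z' _ => ?_
  unfold GSm.rs
  split_ifs
  · exact sum_congr rfl fun i _ => by ring
  · simp

theorem G1_S3 (x : V) (f : V → V → V → V → V → Lb → ℝ) :
    E.G1 (fun z z' l => E.S3 x fun u a b => f u a b z z' l) =
      E.S3 x fun u a b => E.G1 (f u a b) := by
  have h : (fun (z z' : V) (l : Lb) => E.S3 x fun u a b => f u a b z z' l) =
      fun z z' l => ∑ t : V × V × V, E.kp x t * f t.1 t.2.1 t.2.2 z z' l := by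
    funext z z' l
    exact GSt.S3_eq x _
  rw [h, G1_lin (E.kp x) fun t => f t.1 t.2.1 t.2.2, GSt.S3_eq]

theorem Cr_S3 (x : V) (f : V → V → V → V → V → Lb → ℝ) :
    E.Cr (fun z z' l => E.S3 x fun u a b => f u a b z z' l) =
      E.S3 x fun u a b => E.Cr (f u a b) := by
  have h : (fun (z z' : V) (l : Lb) => E.S3 x fun u a b => f u a b z z' l) =
      fun z z' l => ∑ t : V × V × V, E.kp x t * f t.1 t.2.1 t.2.2 z z' l := by
    funext z z' l
    exact GSt.S3_eq x _
  rw [h, Cr_lin (E.kp x) fun t => f t.1 t.2.1 t.2.2, GSt.S3_eq]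

theorem G1_mul (c : ℝ) (w : V → V → Lb → ℝ) :
    E.G1 (fun z z' l => c * w z z' l) = c * E.G1 w := by
  have h := G1_lin (E := E) (fun _ : Unit => c) (fun _ => w)
  simpa using h

theorem G1_add (w w' : V → V → Lb → ℝ) :
    E.G1 (fun z z' l => w z z' l + w' z z' l) = E.G1 w + E.G1 w' := by
  have h := G1_lin (E := E) (fun _ : Bool => (1 : ℝ)) (fun b => if b then w else w')
  simpa using h

theorem Cr_mul (c : ℝ) (w : V → V → Lb → ℝ) :
    E.Cr (fun z z' l => c * w z z' l) = c * E.Cr w := by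
  have h := Cr_lin (E := E) (fun _ : Unit => c) (fun _ => w)
  simpa using h

theorem Cr_add (w w' : V → V → Lb → ℝ) :
    E.Cr (fun z z' l => w z z' l + w' z z' l) = E.Cr w + E.Cr w' := by
  have h := Cr_lin (E := E) (fun _ : Bool => (1 : ℝ)) (fun b => if b then w else w')
  simpa using h

theorem G1_mono {w w' : V → V → Lb → ℝ} (h : ∀ z z' l, w z z' l ≤ w' z z' l) :
    E.G1 w ≤ E.G1 w' := by
  rw [G1_eq, G1_eq]
  refine sum_le_sum fun e _ => ?_
  split_ifs
  · exact h _ _ _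
  · exact le_rfl

end GRn

/-! ### The main statistic -/

namespace GSt

variable {E : GSt V Lb AL}

theorem Wx0_eq (x : V) : E.Wx 0 x = fun z z' l =>
    E.S3 x fun u a b => E.chi E.s a b * (E.ga l z z' u x + E.ga l z z' a b) := by
  funext z z' l
  unfold Wx
  rw [if_pos rfl]

theorem Wx1_eq (x : V) : E.Wx 1 x = fun z z' l =>
    E.S3 x fun u a b => E.chi E.s a b * (E.ga l z z' u x * E.ga l z z' a b) := by
  funext z z' l
  unfold Wx
  rw [if_neg (by decide), if_pos rfl]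

theorem Wx2_eq (x : V) : E.Wx 2 x = fun z z' l =>
    E.S3 x fun u a b => E.chi E.s a b * (|E.ga l z z' u x| + |E.ga l z z' a b|) := by
  funext z z' l
  unfold Wx
  rw [if_neg (by decide), if_neg (by decide), if_pos rfl]

theorem Wx3_eq (x : V) : E.Wx 3 x = fun z z' l =>
    ∑ u, E.s.X u x * max (E.ga l z z' u x) 0 := by
  funext z z' l
  unfold Wx
  rw [if_neg (by decide), if_neg (by decide), if_neg (by decide), if_pos rfl]

theorem Wx4_eq (x : V) : E.Wx 4 x = fun z z' l => E.S3 x fun u a b => E.chi E.s a b *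
    (max (E.ga l z z' a b) 0 * (1 + max (E.ga l z z' u x) 0)) := by
  funext z z' l
  unfold Wx
  rw [if_neg (by decide), if_neg (by decide), if_neg (by decide), if_neg (by decide), if_pos rfl]

theorem Wx5_eq (x : V) : E.Wx 5 x = fun z z' l => E.S3 x fun u a b =>
    if E.as E.s a b then E.s.X a b * E.ga l z z' u x else 0 := by
  funext z z' l
  unfold Wx
  rw [if_neg (by decide), if_neg (by decide), if_neg (by decide), if_neg (by decide),
    if_neg (by decide), if_pos rfl]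

theorem Wx6_eq (x : V) : E.Wx 6 x = fun z z' l =>
    ∑ u, (if E.as E.s u x then E.s.X u x * |E.gu l z z' u x| else 0) := by
  funext z z' l
  unfold Wx
  rw [if_neg (by decide), if_neg (by decide), if_neg (by decide), if_neg (by decide),
    if_neg (by decide), if_neg (by decide), if_pos rfl]

theorem Wx7_eq (x : V) : E.Wx 7 x = fun z z' l => ∑ u, |E.ga l z z' u x| := by
  funext z z' l
  unfold Wx
  rw [if_neg (by decide), if_neg (by decide), if_neg (by decide), if_neg (by decide),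
    if_neg (by decide), if_neg (by decide), if_neg (by decide)]

/-- The sum `S3` of the weights. -/
theorem S3_chi (x : V) : E.S3 x (fun _ a b => E.chi E.s a b) =
    ∑ u, if E.nf E.s u x then E.s.X u x * E.Y E.s u x else 0 := by
  unfold S3
  rw [mul_sum]
  refine sum_congr rfl fun u _ => ?_
  split_ifs with h
  · rw [GData.os_Y_eq]
    simp only [← mul_sum]
    ring
  · rw [mul_zero]

theorem S3_chi_le (hE : E.Ok) (x : V) : E.S3 x (fun _ a b => E.chi E.s a b) ≤ E.OB := by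
  rw [S3_chi]
  exact GData.sum_XY hE.dat hE.inv.toSInv hE.j_lt.le x

theorem oq_abs_split (x y z z' : V) (l : Lb) :
    |E.ga l z z' x y| = E.Wp 0 x y z z' l + E.Wp 1 x y z z' l := by
  unfold Wp
  rw [if_pos rfl, if_neg (by decide)]
  rcases le_total 0 (E.ga l z z' x y) with h | h
  · rw [abs_of_nonneg h, max_eq_right (by linarith), max_eq_left h, zero_add]
  · rw [abs_of_nonpos h, max_eq_left (by linarith), max_eq_right h, add_zero]

theorem oq_prd_abs (hE : E.Ok) (x y : V) :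
    E.prd (fun z z' l => |E.ga l z z' x y|) ≤ (1 + E.C0) * E.Y E.s x y := by
  have h : (fun (z z' : V) (l : Lb) => |E.ga l z z' x y|) =
      fun z z' l => E.Wp 0 x y z z' l + E.Wp 1 x y z z' l := by
    funext z z' l
    exact oq_abs_split x y z z' l
  rw [h, oq_prd_add (E.Wp 0 x y) (E.Wp 1 x y)]
  have h1 := op_prd_kill hE x y
  have h2 := op_prd_gain hE x y
  linarith

theorem oq_prd_absH (hE : E.Ok) (x y : V) :
    E.prd (fun z z' l => |E.ga l z z' x y|) ≤ 2 * E.C0 * E.H := by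
  have hC := hE.dat.C0_one
  have hH := hE.dat.H_one
  by_cases h : E.aw E.s x y
  · refine (oq_prd_abs hE x y).trans ?_
    have h1 := hE.inv.nf_Y x y (GData.os_nf_of_aw h)
    have h2 := GData.os_Y_nonneg hE.dat hE.inv.toSInv x y
    calc (1 + E.C0) * E.Y E.s x y ≤ (1 + E.C0) * E.H :=
          mul_le_mul_of_nonneg_left h1 (by linarith)
      _ ≤ 2 * E.C0 * E.H := mul_le_mul_of_nonneg_right (by linarith) (by linarith)
  · have e : (fun (z z' : V) (l : Lb) => |E.ga l z z' x y|) = fun _ _ _ => (0 : ℝ) * 0 := by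
      funext z z' l
      rw [op_ga_not h, abs_zero, mul_zero]
    rw [e, oq_prd_mul (E := E) 0 (fun _ _ _ => 0), zero_mul]
    positivity

theorem oq_prd_x2 (hE : E.Ok) (x : V) : E.prd (E.Wx 2 x) ≤ 4 * E.C0 * E.H * E.OB := by
  have hC := hE.dat.C0_one
  have hH := hE.dat.H_one
  rw [Wx2_eq, prd_S3 x fun u a b z z' l => E.chi E.s a b * (|E.ga l z z' u x| + |E.ga l z z' a b|)]
  have h1 : ∀ u a b, E.prd (fun z z' l => E.chi E.s a b * (|E.ga l z z' u x| +
      |E.ga l z z' a b|)) ≤ 4 * E.C0 * E.H * E.chi E.s a b := by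
    intro u a b
    rw [oq_prd_mul (E.chi E.s a b) fun z z' l => |E.ga l z z' u x| + |E.ga l z z' a b|,
      oq_prd_add (fun z z' l => |E.ga l z z' u x|) fun z z' l => |E.ga l z z' a b|, mul_comm]
    refine mul_le_mul_of_nonneg_right ?_ (GData.os_chi_nonneg hE.inv.toSInv a b)
    have := oq_prd_absH hE u x
    have := oq_prd_absH hE a b
    linarith
  refine (S3_mono hE x fun u a b _ _ _ => h1 u a b).trans ?_
  rw [S3_smul x (4 * E.C0 * E.H) fun _ a b => E.chi E.s a b]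
  exact mul_le_mul_of_nonneg_left (S3_chi_le hE x) (by positivity)

end GSt

namespace GRn

variable {E : GRn V Lb AL}

theorem G1_Wx0 (x : V) : E.G1 (E.Wx 0 x) =
    E.S3 x fun u a b => E.chi E.s a b * (E.gg u x + E.gg a b) := by
  rw [GSt.Wx0_eq, G1_S3 x fun u a b z z' l => E.chi E.s a b * (E.ga l z z' u x + E.ga l z z' a b)]
  congr 1
  funext u a b
  rw [G1_mul (E.chi E.s a b) fun z z' l => E.ga l z z' u x + E.ga l z z' a b,
    G1_add (fun z z' l => E.ga l z z' u x) fun z z' l => E.ga l z z' a b]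
  rfl

theorem Cr_Wx0 (x : V) : E.Cr (E.Wx 0 x) =
    -E.S3 x fun u a b => E.chi E.s a b * (E.cc u x + E.cc a b) := by
  rw [GSt.Wx0_eq, Cr_S3 x fun u a b z z' l => E.chi E.s a b * (E.ga l z z' u x + E.ga l z z' a b)]
  have h : ∀ u a b, E.Cr (fun z z' l => E.chi E.s a b * (E.ga l z z' u x + E.ga l z z' a b)) =
      (-1) * (E.chi E.s a b * (E.cc u x + E.cc a b)) := by
    intro u a b
    rw [Cr_mul (E.chi E.s a b) fun z z' l => E.ga l z z' u x + E.ga l z z' a b,
      Cr_add (fun z z' l => E.ga l z z' u x) fun z z' l => E.ga l z z' a b]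
    unfold cc
    ring
  simp only [h]
  rw [GSt.S3_smul x (-1) fun u a b => E.chi E.s a b * (E.cc u x + E.cc a b)]
  ring

theorem G1_Wx1 (x : V) : E.G1 (E.Wx 1 x) =
    E.S3 x fun u a b => E.chi E.s a b * E.dg u x a b := by
  rw [GSt.Wx1_eq, G1_S3 x fun u a b z z' l => E.chi E.s a b * (E.ga l z z' u x * E.ga l z z' a b)]
  congr 1
  funext u a b
  rw [G1_mul (E.chi E.s a b) fun z z' l => E.ga l z z' u x * E.ga l z z' a b, dg_eq]

theorem G1_Wx2 (x : V) : E.G1 (E.Wx 2 x) =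
    E.S3 x fun u a b => E.chi E.s a b * (E.ab u x + E.ab a b) := by
  rw [GSt.Wx2_eq, G1_S3 x fun u a b z z' l =>
    E.chi E.s a b * (|E.ga l z z' u x| + |E.ga l z z' a b|)]
  congr 1
  funext u a b
  rw [G1_mul (E.chi E.s a b) fun z z' l => |E.ga l z z' u x| + |E.ga l z z' a b|,
    G1_add (fun z z' l => |E.ga l z z' u x|) fun z z' l => |E.ga l z z' a b|, ab_eq, ab_eq]

/-- The terms of first order cancel. -/
theorem first_order (hE : E.Ok) (x : V) : E.S3 x (fun u a b => E.chi E.s a b *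
    (E.cc u x + E.gg u x + E.cc a b + E.gg a b)) ≤ E.k / E.T ^ 4 := by
  have h1 := (abs_le.1 (hE.rx 0 x)).2
  rw [G1_Wx0, Cr_Wx0, sub_neg_eq_add, ← GSt.S3_add] at h1
  have e : (fun u a b => E.chi E.s a b * (E.cc u x + E.gg u x + E.cc a b + E.gg a b)) =
      fun u a b => E.chi E.s a b * (E.gg u x + E.gg a b) +
        E.chi E.s a b * (E.cc u x + E.cc a b) := by
    funext u a b
    ring
  rw [e]
  exact h1

theorem G1_le_prd (hE : E.Ok) (i : Fin 8) (x : V) :
    E.G1 (E.Wx i x) ≤ E.prd (E.Wx i x) / E.R + 2 * (E.k / E.T ^ 4) := by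
  have h1 := (abs_le.1 (hE.rx i x)).2
  have h2 := (abs_le.1 (hE.rxp i x)).2
  linarith

theorem S3_NN1 (hE : E.Ok) (x : V) :
    E.S3 x (fun u _ _ => E.NN u x u x) ≤ E.Kc * (E.H * E.T ^ 3300) := by
  have hK := GData.os_Kc_one hE.sm.dat
  have hn := GData.os_n1_pos hE.sm.dat
  have hH := hE.sm.dat.H_one
  have ham := GData.os_am_pos hE.sm.dat
  have h1 : ∀ u, 1 / (2 * E.n1) * (if E.nf E.s u x then ∑ _a ∈ cN E.N u x, ∑ _b ∈ cN E.N u x,
      E.s.X u x * E.NN u x u x else 0) ≤ E.Kc * (E.H * E.NN u x u x) := by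
    intro u
    have h0 := NN_nonneg (E := E) u x u x
    split_ifs with h
    · rw [sum_const, sum_const, nsmul_eq_mul, nsmul_eq_mul]
      have h2 : E.cod u x ≤ E.am := h.1.2.2.2
      have h3 : ((cN E.N u x).card : ℝ) = E.cod u x := rfl
      rw [h3]
      have h4 := hE.sm.inv.X_hi u x
      have h5 := GData.os_X_nonneg hE.sm.inv.toSInv u x
      have h6 : E.cod u x * E.cod u x ≤ E.H * E.n1 := by
        have h7 : E.cod u x * E.cod u x ≤ E.am * E.am :=
          mul_le_mul h2 h2 (GData.os_cod_nonneg _ _) ham.le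
        have h8 := hE.sm.dat.par2
        rw [pow_two] at h8
        linarith
      calc 1 / (2 * E.n1) * (E.cod u x * (E.cod u x * (E.s.X u x * E.NN u x u x)))
          = 1 / (2 * E.n1) * (E.cod u x * E.cod u x) * (E.s.X u x * E.NN u x u x) := by ring
        _ ≤ 1 / (2 * E.n1) * (E.H * E.n1) * (E.Kc * E.NN u x u x) := by
            refine mul_le_mul (mul_le_mul_of_nonneg_left h6 (by positivity))
              (mul_le_mul_of_nonneg_right h4 h0) (mul_nonneg h5 h0) (by positivity)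
        _ = 1 / 2 * (E.Kc * (E.H * E.NN u x u x)) := by
            field_simp
        _ ≤ E.Kc * (E.H * E.NN u x u x) := by
            have : 0 ≤ E.Kc * (E.H * E.NN u x u x) := by positivity
            linarith
    · rw [mul_zero]
      positivity
  unfold GSt.S3
  rw [mul_sum]
  refine (sum_le_sum fun u _ => h1 u).trans ?_
  rw [← mul_sum, ← mul_sum]
  exact mul_le_mul_of_nonneg_left (mul_le_mul_of_nonneg_left (hE.d0 x) (by linarith))
    (by linarith)

theorem S3_le_Kc (hE : E.Ok) (x : V) {F : V → V → V → ℝ} (hF : ∀ u a b, 0 ≤ F u a b) {B : ℝ}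
    (h : 1 / E.n1 * ∑ u, (if E.nf E.s u x then ∑ a ∈ cN E.N u x, ∑ b ∈ cN E.N u x,
      F u a b else 0) ≤ B) : E.S3 x F ≤ E.Kc * B := by
  have hK := GData.os_Kc_one hE.sm.dat
  have hn := GData.os_n1_pos hE.sm.dat
  have h0 : 0 ≤ 1 / E.n1 * ∑ u, (if E.nf E.s u x then ∑ a ∈ cN E.N u x, ∑ b ∈ cN E.N u x,
      F u a b else 0) := by
    refine mul_nonneg (by positivity) (sum_nonneg fun u _ => ?_)
    split_ifs
    · exact sum_nonneg fun a _ => sum_nonneg fun b _ => hF _ _ _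
    · exact le_rfl
  have h1 : E.S3 x F ≤ E.Kc * (1 / E.n1 * ∑ u, (if E.nf E.s u x then ∑ a ∈ cN E.N u x,
      ∑ b ∈ cN E.N u x, F u a b else 0)) := by
    unfold GSt.S3
    have e : E.Kc * (1 / E.n1 * ∑ u, (if E.nf E.s u x then ∑ a ∈ cN E.N u x,
        ∑ b ∈ cN E.N u x, F u a b else 0)) = 1 / E.n1 * ∑ u, E.Kc * (if E.nf E.s u x then
          ∑ a ∈ cN E.N u x, ∑ b ∈ cN E.N u x, F u a b else 0) := by
      rw [← mul_sum]
      ring
    rw [e]
    refine mul_le_mul ?_ (sum_le_sum fun u _ => ?_) (sum_nonneg fun u _ => ?_) (by positivity)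
    · exact one_div_le_one_div_of_le hn (by linarith)
    · split_ifs
      · rw [mul_sum]
        refine sum_le_sum fun a _ => ?_
        rw [mul_sum]
        exact sum_le_sum fun b _ => mul_le_mul_of_nonneg_right (hE.sm.inv.X_hi u x) (hF _ _ _)
      · rw [mul_zero]
    · split_ifs
      · exact sum_nonneg fun a _ => sum_nonneg fun b _ =>
          mul_nonneg (GData.os_X_nonneg hE.sm.inv.toSInv u x) (hF _ _ _)
      · exact le_rfl
  exact h1.trans (mul_le_mul_of_nonneg_left h (by linarith))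

theorem S3_NN2 (hE : E.Ok) (x : V) : E.S3 x (fun _ a b => E.NN a b a b) ≤ E.Kc * E.T ^ 3300 :=
  S3_le_Kc hE x (fun _ _ _ => NN_nonneg _ _ _ _) (hE.d1 x)

theorem S3_NN3 (hE : E.Ok) (x : V) : E.S3 x (fun u a b => E.NN u x a b) ≤ E.Kc * E.T ^ 3300 :=
  S3_le_Kc hE x (fun _ _ _ => NN_nonneg _ _ _ _) (hE.d2 x)

/-- The errors of second order. -/
theorem second_order (hE : E.Ok) (x : V) : E.S3 x (fun u a b => E.chi E.s a b *
    ((E.Bx + 2) ^ 2 * (2 * E.C0 * E.H / E.R * (E.ab u x + E.ab a b) +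
      (2 * E.C0 * E.H / E.R) ^ 2 + E.NN u x u x + E.NN a b a b + E.NN u x a b))) ≤
    E.k / E.T ^ 4 := by
  have hD := hE.sm.dat
  have hK := GData.os_Kc_one hD
  have hn := GData.os_n1_pos hD
  have hR := GData.os_R_pos hD
  have hk := GData.os_k_pos hD
  have hT := GData.os_T_pos hD
  have hT6 := GData.os_T_ge hD
  have hH := hD.H_one
  have hC := hD.C0_one
  have hHK := GData.os_H_Kc hD
  have hCH := GData.op_C0H hD
  have hBK := op_Bx_Kc hE
  have hB1 := hE.sm.Bx_one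
  set η := 2 * E.C0 * E.H / E.R with hη
  have hη0 : 0 ≤ η := by positivity
  have hηK : η ≤ 2 * E.Kc / E.R := by
    rw [hη]
    refine div_le_div_of_nonneg_right ?_ hR.le
    linarith
  have hB2 : (E.Bx + 2) ^ 2 ≤ E.Kc ^ 2 := by
    refine pow_le_pow_left₀ (by linarith) ?_ 2
    linarith
  -- the sums
  have s1 : E.S3 x (fun u a b => E.chi E.s a b * (E.ab u x + E.ab a b)) ≤
      4 * E.C0 * E.H * E.OB / E.R + 2 * (E.k / E.T ^ 4) := by
    rw [← G1_Wx2]
    refine (G1_le_prd hE 2 x).trans ?_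
    have := div_le_div_of_nonneg_right (GSt.oq_prd_x2 hE.sm x) hR.le
    linarith
  have s2 := GSt.S3_chi_le hE.sm x
  have s3 := S3_NN1 hE x
  have s4 := S3_NN2 hE x
  have s5 := S3_NN3 hE x
  have hOB := GData.OB_le hD
  have hOR : E.OB / E.R ≤ E.Kc * E.k := by
    rw [div_le_iff₀ hR]
    have e : E.Kc * E.k * E.R = E.Kc * E.n1 := by
      unfold GData.n1
      ring
    rw [e]
    have : E.H * E.n1 / 2000 ≤ E.Kc * E.n1 := by
      have := mul_le_mul_of_nonneg_right hHK hn.le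
      have h0 : 0 ≤ E.H * E.n1 := by positivity
      linarith
    exact hOB.trans this
  have s1' : E.S3 x (fun u a b => E.chi E.s a b * (E.ab u x + E.ab a b)) ≤
      5 * (E.Kc ^ 2 * E.k) := by
    refine s1.trans ?_
    have a1 : 4 * E.C0 * E.H * E.OB / E.R = 4 * (E.C0 * E.H) * (E.OB / E.R) := by ring
    have a2 : 4 * (E.C0 * E.H) * (E.OB / E.R) ≤ 4 * E.Kc * (E.Kc * E.k) := by
      refine mul_le_mul (by linarith) hOR ?_ (by positivity)
      have := GData.OB_ge hD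
      have : 0 ≤ E.OB := by linarith
      positivity
    have a3 : 2 * (E.k / E.T ^ 4) ≤ E.Kc ^ 2 * E.k := by
      have b1 : E.k / E.T ^ 4 ≤ E.k / 2 := by
        refine div_le_div_of_nonneg_left hk.le (by norm_num) ?_
        have : E.T ≤ E.T ^ 4 := le_self_pow₀ (by linarith) (by norm_num)
        linarith
      have b2 : (1 : ℝ) ≤ E.Kc ^ 2 := one_le_pow₀ hK
      have b3 : 1 * (E.k : ℝ) ≤ E.Kc ^ 2 * E.k := mul_le_mul_of_nonneg_right b2 hk.le
      linarith
    rw [a1]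
    have a4 : 4 * E.Kc * (E.Kc * E.k) = 4 * (E.Kc ^ 2 * E.k) := by ring
    linarith
  -- decomposition
  have hchi := fun a b => GData.os_chi_le hD hE.sm.inv.toSInv a b
  have hchi0 := fun a b => GData.os_chi_nonneg hE.sm.inv.toSInv (D := E.toGData) a b
  have h1 : E.S3 x (fun u a b => E.chi E.s a b * ((E.Bx + 2) ^ 2 * (η * (E.ab u x + E.ab a b) +
      η ^ 2 + E.NN u x u x + E.NN a b a b + E.NN u x a b))) ≤
      E.S3 x (fun u a b => E.Kc ^ 2 * η * (E.chi E.s a b * (E.ab u x + E.ab a b)) +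
        E.Kc ^ 2 * η ^ 2 * E.chi E.s a b + E.Kc ^ 3 * E.NN u x u x + E.Kc ^ 3 * E.NN a b a b +
          E.Kc ^ 3 * E.NN u x a b) := by
    refine GSt.S3_mono hE.sm x fun u a b _ _ _ => ?_
    have c0 := hchi0 a b
    have c1 := hchi a b
    have n1 := NN_nonneg (E := E) u x u x
    have n2 := NN_nonneg (E := E) a b a b
    have n3 := NN_nonneg (E := E) u x a b
    have q1 : 0 ≤ E.ab u x + E.ab a b := add_nonneg (sum_nonneg fun e _ => abs_nonneg _)
      (sum_nonneg fun e _ => abs_nonneg _)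
    have e1 : E.chi E.s a b * ((E.Bx + 2) ^ 2 * (η * (E.ab u x + E.ab a b) +
      η ^ 2 + E.NN u x u x + E.NN a b a b + E.NN u x a b)) ≤ E.chi E.s a b * (E.Kc ^ 2 *
        (η * (E.ab u x + E.ab a b) + η ^ 2 + E.NN u x u x + E.NN a b a b + E.NN u x a b)) := by
      refine mul_le_mul_of_nonneg_left (mul_le_mul_of_nonneg_right hB2 ?_) c0
      positivity
    refine e1.trans ?_
    have e2 : E.chi E.s a b * (E.Kc ^ 2 * (E.NN u x u x + E.NN a b a b + E.NN u x a b)) ≤
        E.Kc * (E.Kc ^ 2 * (E.NN u x u x + E.NN a b a b + E.NN u x a b)) :=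
      mul_le_mul_of_nonneg_right c1 (by positivity)
    have e3 : E.chi E.s a b * (E.Kc ^ 2 *
        (η * (E.ab u x + E.ab a b) + η ^ 2 + E.NN u x u x + E.NN a b a b + E.NN u x a b)) =
        E.Kc ^ 2 * η * (E.chi E.s a b * (E.ab u x + E.ab a b)) +
        E.Kc ^ 2 * η ^ 2 * E.chi E.s a b +
        E.chi E.s a b * (E.Kc ^ 2 * (E.NN u x u x + E.NN a b a b + E.NN u x a b)) := by ring
    have e4 : E.Kc * (E.Kc ^ 2 * (E.NN u x u x + E.NN a b a b + E.NN u x a b)) =
        E.Kc ^ 3 * E.NN u x u x + E.Kc ^ 3 * E.NN a b a b + E.Kc ^ 3 * E.NN u x a b := by ring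
    rw [e3]
    linarith
  refine h1.trans ?_
  rw [GSt.S3_add x (fun u a b => E.Kc ^ 2 * η * (E.chi E.s a b * (E.ab u x + E.ab a b)) +
        E.Kc ^ 2 * η ^ 2 * E.chi E.s a b + E.Kc ^ 3 * E.NN u x u x + E.Kc ^ 3 * E.NN a b a b)
        fun u a b => E.Kc ^ 3 * E.NN u x a b,
    GSt.S3_add x (fun u a b => E.Kc ^ 2 * η * (E.chi E.s a b * (E.ab u x + E.ab a b)) +
        E.Kc ^ 2 * η ^ 2 * E.chi E.s a b + E.Kc ^ 3 * E.NN u x u x)
        fun u a b => E.Kc ^ 3 * E.NN a b a b,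
    GSt.S3_add x (fun u a b => E.Kc ^ 2 * η * (E.chi E.s a b * (E.ab u x + E.ab a b)) +
        E.Kc ^ 2 * η ^ 2 * E.chi E.s a b)
        fun u a b => E.Kc ^ 3 * E.NN u x u x,
    GSt.S3_add x (fun u a b => E.Kc ^ 2 * η * (E.chi E.s a b * (E.ab u x + E.ab a b)))
        fun u a b => E.Kc ^ 2 * η ^ 2 * E.chi E.s a b,
    GSt.S3_smul x (E.Kc ^ 2 * η) fun u a b => E.chi E.s a b * (E.ab u x + E.ab a b),
    GSt.S3_smul x (E.Kc ^ 2 * η ^ 2) fun u a b => E.chi E.s a b,
    GSt.S3_smul x (E.Kc ^ 3) fun u a b => E.NN u x u x,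
    GSt.S3_smul x (E.Kc ^ 3) fun u a b => E.NN a b a b,
    GSt.S3_smul x (E.Kc ^ 3) fun u a b => E.NN u x a b]
  have hK2 : (0 : ℝ) ≤ E.Kc ^ 2 := by positivity
  have hK3 : (0 : ℝ) ≤ E.Kc ^ 3 := by positivity
  have hTR : E.T ^ 799 ≤ E.R := hD.R_lo
  -- numbers
  have t1 : E.Kc ^ 2 * η * (5 * (E.Kc ^ 2 * E.k)) ≤ E.k / E.T ^ 5 := by
    have b1 : E.Kc ^ 2 * η * (5 * (E.Kc ^ 2 * E.k)) ≤
        E.Kc ^ 2 * (2 * E.Kc / E.R) * (5 * (E.Kc ^ 2 * E.k)) :=
      mul_le_mul_of_nonneg_right (mul_le_mul_of_nonneg_left hηK hK2) (by positivity)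
    have b2 : E.Kc ^ 2 * (2 * E.Kc / E.R) * (5 * (E.Kc ^ 2 * E.k)) =
        10 * E.Kc ^ 5 * E.k / E.R := by ring
    rw [b2] at b1
    refine b1.trans ?_
    rw [div_le_div_iff₀ hR (by positivity)]
    have b3 := GData.os_Kc_pow_T hD (n := 5) (by norm_num)
    have b4 : 10 * E.Kc ^ 5 * E.k * E.T ^ 5 ≤ E.k * (E.T ^ 7) := by
      have : 10 * E.Kc ^ 5 ≤ E.T ^ 2 := by nlinarith
      calc 10 * E.Kc ^ 5 * E.k * E.T ^ 5 = (10 * E.Kc ^ 5) * (E.k * E.T ^ 5) := by ring
        _ ≤ E.T ^ 2 * (E.k * E.T ^ 5) := mul_le_mul_of_nonneg_right this (by positivity)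
        _ = E.k * E.T ^ 7 := by ring
    refine b4.trans (mul_le_mul_of_nonneg_left ?_ hk.le)
    exact (hD.big.pw (by norm_num)).trans hTR
  have t2 : E.Kc ^ 2 * η ^ 2 * E.OB ≤ E.k / E.T ^ 5 := by
    have b0 : η ^ 2 ≤ (2 * E.Kc / E.R) ^ 2 := pow_le_pow_left₀ hη0 hηK 2
    have hOB0 : 0 ≤ E.OB := by
      have := GData.OB_ge hD
      linarith
    have b1 : E.Kc ^ 2 * η ^ 2 * E.OB ≤ E.Kc ^ 2 * (2 * E.Kc / E.R) ^ 2 * E.OB :=
      mul_le_mul_of_nonneg_right (mul_le_mul_of_nonneg_left b0 hK2) hOB0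
    have b2 : E.Kc ^ 2 * (2 * E.Kc / E.R) ^ 2 * E.OB = 4 * E.Kc ^ 4 / E.R * (E.OB / E.R) := by
      field_simp
      ring
    have b3 : 4 * E.Kc ^ 4 / E.R * (E.OB / E.R) ≤ 4 * E.Kc ^ 4 / E.R * (E.Kc * E.k) :=
      mul_le_mul_of_nonneg_left hOR (by positivity)
    have b4 : 4 * E.Kc ^ 4 / E.R * (E.Kc * E.k) = 4 * E.Kc ^ 5 * E.k / E.R := by ring
    rw [b2] at b1
    rw [b4] at b3
    refine (b1.trans b3).trans ?_
    rw [div_le_div_iff₀ hR (by positivity)]
    have b5 := GData.os_Kc_pow_T hD (n := 5) (by norm_num)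
    have b6 : 4 * E.Kc ^ 5 * E.k * E.T ^ 5 ≤ E.k * (E.T ^ 7) := by
      have : 4 * E.Kc ^ 5 ≤ E.T ^ 2 := by nlinarith
      calc 4 * E.Kc ^ 5 * E.k * E.T ^ 5 = (4 * E.Kc ^ 5) * (E.k * E.T ^ 5) := by ring
        _ ≤ E.T ^ 2 * (E.k * E.T ^ 5) := mul_le_mul_of_nonneg_right this (by positivity)
        _ = E.k * E.T ^ 7 := by ring
    refine b6.trans (mul_le_mul_of_nonneg_left ?_ hk.le)
    exact (hD.big.pw (by norm_num)).trans hTR
  have t3 : E.Kc ^ 3 * (E.Kc * (E.H * E.T ^ 3300)) + E.Kc ^ 3 * (E.Kc * E.T ^ 3300) +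
      E.Kc ^ 3 * (E.Kc * E.T ^ 3300) ≤ E.k / E.T ^ 5 := by
    have b1 := GData.os_Kc_pow_T hD (n := 5) (by norm_num)
    have b2 : E.Kc ^ 4 ≤ E.Kc ^ 5 := pow_le_pow_right₀ hK (by norm_num)
    have b3 : E.Kc ^ 4 * E.H ≤ E.Kc ^ 5 := by
      calc E.Kc ^ 4 * E.H ≤ E.Kc ^ 4 * E.Kc := mul_le_mul_of_nonneg_left hHK (by positivity)
        _ = E.Kc ^ 5 := by ring
    have b4 : E.Kc ^ 3 * (E.Kc * (E.H * E.T ^ 3300)) + E.Kc ^ 3 * (E.Kc * E.T ^ 3300) +
      E.Kc ^ 3 * (E.Kc * E.T ^ 3300) = (E.Kc ^ 4 * E.H + 2 * E.Kc ^ 4) * E.T ^ 3300 := by ring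
    have b5 : (E.Kc ^ 4 * E.H + 2 * E.Kc ^ 4) * E.T ^ 3300 ≤ E.T ^ 2 * E.T ^ 3300 := by
      refine mul_le_mul_of_nonneg_right ?_ (by positivity)
      nlinarith
    rw [b4]
    refine b5.trans ?_
    rw [le_div_iff₀ (by positivity), ← pow_add, ← pow_add]
    exact (hD.big.pw (by norm_num)).trans hD.k_lo
  have u1 := mul_le_mul_of_nonneg_left s1' (show 0 ≤ E.Kc ^ 2 * η by positivity)
  have u2 := mul_le_mul_of_nonneg_left s2 (show 0 ≤ E.Kc ^ 2 * η ^ 2 by positivity)
  have u3 := mul_le_mul_of_nonneg_left s3 hK3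
  have u4 := mul_le_mul_of_nonneg_left s4 hK3
  have u5 := mul_le_mul_of_nonneg_left s5 hK3
  have fin : 3 * (E.k / E.T ^ 5) ≤ E.k / E.T ^ 4 := by
    have e : 3 * ((E.k : ℝ) / E.T ^ 5) = 3 / E.T * (E.k / E.T ^ 4) := by
      field_simp
    rw [e]
    refine mul_le_of_le_one_left (by positivity) ?_
    rw [div_le_one hT]
    linarith
  linarith

/-- The frozen part of the main statistic. -/
theorem frY_next (x : V) : (∑ u, if E.far u x ∧ E.next.st u x = .frY then E.next.X u x else 0) =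
    ∑ u, if E.far u x ∧ E.s.st u x = .frY then E.s.X u x else 0 := by
  refine sum_congr rfl fun u _ => ?_
  by_cases ha : E.aw E.s u x
  · rw [if_neg, if_neg]
    · rintro ⟨-, h⟩
      rw [ha.2.1] at h
      exact absurd h (by simp)
    · rintro ⟨-, h⟩
      rw [op_st_aw ha] at h
      split_ifs at h
  · by_cases hs : E.as E.s u x
    · rw [if_neg, if_neg]
      · rintro ⟨-, h⟩
        rw [hs.2.1] at h
        exact absurd h (by simp)
      · rintro ⟨-, h⟩
        rw [op_st_as ha hs] at h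
        split_ifs at h
    · rw [op_st_not ha hs]
      show (if _ then E.nX u x else 0) = _
      rw [op_nX_not ha]

/-- **The main statistic after one stage.** -/
theorem oq_om_next (hE : E.Ok) (x : V) : E.om E.next x ≤
    E.om E.s x + E.prd (E.Wx 1 x) / E.R + E.k / E.T ^ 3 := by
  have hD := hE.sm.dat
  have hn := GData.os_n1_pos hD
  have hk := GData.os_k_pos hD
  have hT := GData.os_T_pos hD
  have hT6 := GData.os_T_ge hD
  have hR := GData.os_R_pos hD
  have hH := hD.H_one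
  have hC := hD.C0_one
  have hcc : ∀ x y, |E.cc x y| ≤ 1 / 4 := op_cc_half hE
  have hη0 : 0 ≤ 2 * E.C0 * E.H / E.R := by positivity
  have h1 : (∑ u, if E.nf E.next u x then E.next.X u x * E.Y E.next u x else 0) ≤
      E.S3 x (fun _ a b => E.chi E.s a b) + E.S3 x (fun u a b => E.chi E.s a b *
        (E.cc u x + E.gg u x + E.cc a b + E.gg a b)) +
      E.S3 x (fun u a b => E.chi E.s a b * E.dg u x a b) +
      E.S3 x (fun u a b => E.chi E.s a b *
        ((E.Bx + 2) ^ 2 * (2 * E.C0 * E.H / E.R * (E.ab u x + E.ab a b) +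
        (2 * E.C0 * E.H / E.R) ^ 2 + E.NN u x u x + E.NN a b a b + E.NN u x a b))) := by
    rw [← GSt.S3_add, ← GSt.S3_add, ← GSt.S3_add]
    unfold GSt.S3
    rw [mul_sum]
    refine sum_le_sum fun u _ => ?_
    by_cases hnf : E.nf E.s u x
    · rw [if_pos hnf]
      have e1 : (if E.nf E.next u x then E.next.X u x * E.Y E.next u x else 0) =
          1 / (2 * E.n1) * ∑ a ∈ cN E.N u x, ∑ b ∈ cN E.N u x,
            E.chi E.next u x * E.chi E.next a b := by
        have e2 : E.chi E.next u x = if E.nf E.next u x then E.next.X u x else 0 := by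
          unfold GData.chi
          have hnl : ¬ (E.lig u x ∧ ¬ E.twn E.next u x) :=
            fun h => absurd h.1.2.2 (not_lt.2 hnf.1.2.2.1)
          rw [if_neg hnl]
        simp only [← mul_sum]
        rw [e2, GData.os_Y_eq]
        split_ifs
        · ring
        · rw [zero_mul, mul_zero]
      rw [e1]
      refine mul_le_mul_of_nonneg_left (sum_le_sum fun a _ => sum_le_sum fun b _ => ?_)
        (by positivity)
      have h2 := chi_pair hE.sm hcc (op_gbI_nonneg hE) hη0 (GData.op_C0H_R hD)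
        (op_cc_abs hE) u x a b
      rw [GData.os_chi_nf hnf] at h2
      refine h2.trans (le_of_eq ?_)
      ring
    · rw [if_neg hnf, mul_zero, if_neg (fun h => hnf (op_nf_next h).1)]
  have h2 := first_order hE x
  have h3 := second_order hE x
  have h4 := G1_le_prd hE 1 x
  rw [G1_Wx1] at h4
  have e5 : E.om E.s x = E.S3 x (fun _ a b => E.chi E.s a b) +
      E.H * ∑ u, if E.far u x ∧ E.s.st u x = .frY then E.s.X u x else 0 := by
    rw [GSt.S3_chi]
    rfl
  have e6 : E.om E.next x = (∑ u, if E.nf E.next u x then E.next.X u x * E.Y E.next u x else 0) +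
      E.H * ∑ u, if E.far u x ∧ E.s.st u x = .frY then E.s.X u x else 0 := by
    rw [← frY_next]
    rfl
  have fin : 4 * (E.k / E.T ^ 4) ≤ E.k / E.T ^ 3 := by
    have e : 4 * ((E.k : ℝ) / E.T ^ 4) = 4 / E.T * (E.k / E.T ^ 3) := by
      field_simp
    rw [e]
    refine mul_le_of_le_one_left (by positivity) ?_
    rw [div_le_one hT]
    linarith
  rw [e5, e6]
  linarith

end GRn

end

end Pool.Agent.AcyG
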