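import Pool.Agent.AcyG.OStatX

/-! # The other statistics of a vertex after one stage (project MP_af9dfb_G, part O) -/

set_option autoImplicit false
set_option linter.unusedSectionVars false

namespace Pool.Agent.AcyG

open Finset
open Pool.Agent.AcyK (cN)
open scoped Classical

universe u v

/-- The change of a product of a weight and a weight asleep. -/
theorem asl_bound {p p' a a' s c g A n N P g' A' n' d M B η : ℝ}
    (hp : 0 ≤ p) (ha : 0 ≤ a) (has : a ≤ s) (ha' : 0 ≤ a')
    (hB : 1 ≤ B) (hη : 0 ≤ η) (hη1 : η ≤ 1 / 4)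
    (hc : |c| ≤ η) (hg : |g| ≤ A) (hgP : g ≤ P) (hg'0 : 0 ≤ g') (hg' : g' ≤ A')
    (hA : A ≤ B * n)
    (h1 : n ≤ 1 → p' ≤ p * (1 + c + g + |c| * A) ∧ 0 ≤ 1 + c + g + |c| * A)
    (h2 : 1 < n → p' = 0 ∧ n ≤ N)
    (h1' : n' ≤ 1 → a' ≤ a + 5 / 2 * (s * g')) (h2' : 1 < n' → a' = 0)
    (hN : 0 ≤ N) (hd0 : 0 ≤ d) (hd : P * g' ≤ d + M) (hM : 0 ≤ M) :
    p' * a' ≤ p * a * (1 + c + g) + 5 / 2 * (p * (s * (g' + d))) +
      p * (s * ((B + 2) ^ 2 * (η * (A + A') + N + M))) := by
  have hA0 : 0 ≤ A := (abs_nonneg _).trans hg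
  have hA0' : 0 ≤ A' := hg'0.trans hg'
  have hB0 : 0 ≤ B := by linarith
  have hs : 0 ≤ s := ha.trans has
  obtain ⟨hc1, hc2⟩ := abs_le.1 hc
  have hg1 := (abs_le.1 hg).1
  have x0 : 0 ≤ |c| * A := mul_nonneg (abs_nonneg _) hA0
  have x1 : |c| * A ≤ η * A := mul_le_mul_of_nonneg_right hc hA0
  have hB2 : (9 : ℝ) ≤ (B + 2) ^ 2 := by nlinarith
  have hK : 0 ≤ 5 / 2 * (p * (s * (g' + d))) := by positivity
  have hps : 0 ≤ p * s := mul_nonneg hp hs
  -- a bound for the first term in the bad cases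
  have bad : ∀ t : ℝ, 0 ≤ t → -t ≤ 1 + c + g → t ≤ (B + 2) ^ 2 * (η * (A + A') + N + M) →
      p' * a' = 0 → p' * a' ≤ p * a * (1 + c + g) + 5 / 2 * (p * (s * (g' + d))) +
      p * (s * ((B + 2) ^ 2 * (η * (A + A') + N + M))) := by
    intro t ht0 ht1 ht2 e
    rw [e]
    have e1 : -(p * a * t) ≤ p * a * (1 + c + g) := by
      have := mul_le_mul_of_nonneg_left ht1 (mul_nonneg hp ha)
      linarith
    have e2 : p * a * t ≤ p * s * t :=
      mul_le_mul_of_nonneg_right (mul_le_mul_of_nonneg_left has hp) ht0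
    have e3 := mul_le_mul_of_nonneg_left ht2 hps
    have e4 : p * (s * ((B + 2) ^ 2 * (η * (A + A') + N + M))) =
      p * s * ((B + 2) ^ 2 * (η * (A + A') + N + M)) := by ring
    rw [e4]
    linarith
  by_cases hn : n ≤ 1
  · obtain ⟨a1, a2⟩ := h1 hn
    have hAB : A ≤ B := hA.trans ((mul_le_mul_of_nonneg_left hn hB0).trans (mul_one _).le)
    by_cases hn' : n' ≤ 1
    · have e1 : p' * a' ≤ (p * (1 + c + g + |c| * A)) * (a + 5 / 2 * (s * g')) :=
        mul_le_mul a1 (h1' hn') ha' (mul_nonneg hp a2)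
      refine e1.trans ?_
      have e2 : (p * (1 + c + g + |c| * A)) * (a + 5 / 2 * (s * g')) =
          p * a * (1 + c + g) + p * a * (|c| * A) +
            5 / 2 * (p * (s * ((1 + c + g + |c| * A) * g'))) := by ring
      have e3 : (1 + c + g + |c| * A) * g' ≤ (g' + d) + (η * A' + M + η * B * A') := by
        have b1 : c * g' ≤ η * A' := by
          calc c * g' ≤ η * g' := mul_le_mul_of_nonneg_right hc2 hg'0
            _ ≤ η * A' := mul_le_mul_of_nonneg_left hg' hη
        have b2 : g * g' ≤ P * g' := mul_le_mul_of_nonneg_right hgP hg'0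
        have b3 : |c| * A * g' ≤ η * B * A' := by
          refine mul_le_mul (x1.trans (mul_le_mul_of_nonneg_left hAB hη)) hg' hg'0 ?_
          positivity
        have b4 : (1 + c + g + |c| * A) * g' = g' + c * g' + g * g' + |c| * A * g' := by ring
        rw [b4]
        linarith
      have e4 : p * a * (|c| * A) ≤ p * s * (η * A) :=
        mul_le_mul (mul_le_mul_of_nonneg_left has hp) x1 x0 hps
      have e5 : 5 / 2 * (p * (s * ((1 + c + g + |c| * A) * g'))) ≤
          5 / 2 * (p * (s * ((g' + d) + (η * A' + M + η * B * A')))) := by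
        have := mul_le_mul_of_nonneg_left (mul_le_mul_of_nonneg_left e3 hs) hp
        linarith
      have e6 : p * s * (η * A + 5 / 2 * (η * A' + M + η * B * A')) ≤
          p * s * ((B + 2) ^ 2 * (η * (A + A') + N + M)) := by
        refine mul_le_mul_of_nonneg_left ?_ hps
        have q1 : 0 ≤ η * A := by positivity
        have q2 : 0 ≤ η * A' := by positivity
        have q3 : 1 * (η * A) ≤ (B + 2) ^ 2 * (η * A) :=
          mul_le_mul_of_nonneg_right (by linarith) q1
        have q4 : (5 / 2 * (1 + B)) * (η * A') ≤ (B + 2) ^ 2 * (η * A') :=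
          mul_le_mul_of_nonneg_right (by nlinarith) q2
        have q5 : 5 / 2 * M ≤ (B + 2) ^ 2 * M := mul_le_mul_of_nonneg_right (by linarith) hM
        have q6 : 0 ≤ (B + 2) ^ 2 * N := by positivity
        have q7 : (B + 2) ^ 2 * (η * (A + A') + N + M) = (B + 2) ^ 2 * (η * A) +
          (B + 2) ^ 2 * (η * A') + (B + 2) ^ 2 * N + (B + 2) ^ 2 * M := by ring
        rw [q7]
        linarith
      have e7 : 5 / 2 * (p * (s * ((g' + d) + (η * A' + M + η * B * A')))) =
          5 / 2 * (p * (s * (g' + d))) + p * s * (5 / 2 * (η * A' + M + η * B * A')) := by ring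
      have e8 : p * (s * ((B + 2) ^ 2 * (η * (A + A') + N + M))) =
        p * s * ((B + 2) ^ 2 * (η * (A + A') + N + M)) := by ring
      have e9 : p * s * (η * A + 5 / 2 * (η * A' + M + η * B * A')) =
        p * s * (η * A) + p * s * (5 / 2 * (η * A' + M + η * B * A')) := by ring
      rw [e2, e8]
      rw [e7] at e5
      rw [e9] at e6
      linarith
    · push Not at hn'
      refine bad (η * A) (by positivity) (by linarith) ?_ (by rw [h2' hn', mul_zero])
      have q1 : 0 ≤ η * A := by positivity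
      have q2 : 0 ≤ η * A' := by positivity
      have q3 : 1 * (η * A) ≤ (B + 2) ^ 2 * (η * A) :=
        mul_le_mul_of_nonneg_right (by linarith) q1
      have q6 : 0 ≤ (B + 2) ^ 2 * (η * A' + N + M) := by positivity
      have q7 : (B + 2) ^ 2 * (η * (A + A') + N + M) = (B + 2) ^ 2 * (η * A) +
        (B + 2) ^ 2 * (η * A' + N + M) := by ring
      rw [q7]
      linarith
  · push Not at hn
    obtain ⟨a1, a2⟩ := h2 hn
    refine bad (B * N) (by positivity) ?_ ?_ (by rw [a1, zero_mul])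
    · have b1 : B * n ≤ B * N := mul_le_mul_of_nonneg_left a2 hB0
      linarith
    · have q1 : B * N ≤ (B + 2) ^ 2 * N := mul_le_mul_of_nonneg_right (by nlinarith) hN
      have q6 : 0 ≤ (B + 2) ^ 2 * (η * (A + A') + M) := by positivity
      have q7 : (B + 2) ^ 2 * (η * (A + A') + N + M) = (B + 2) ^ 2 * N +
        (B + 2) ^ 2 * (η * (A + A') + M) := by ring
      rw [q7]
      linarith

section

variable {V AL Lb : Type u} [Fintype V] [DecidableEq V] [Fintype AL] [Fintype Lb]

namespace GRn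

variable {E : GRn V Lb AL}

variable (E) in
/-- Sum of the positive effects. -/
noncomputable def gp (x y : V) : ℝ := ∑ e, max (E.pa x y e) 0

variable (E) in
/-- Sum of the common positive effects. -/
noncomputable def dp (x y a b : V) : ℝ := ∑ e, max (E.pa x y e) 0 * max (E.pa a b e) 0

variable (E) in
/-- Weight of a pair, if it is asleep. -/
noncomputable def asw (s : GState V) (a b : V) : ℝ := if E.as s a b then s.X a b else 0

theorem gp_eq (x y : V) : E.gp x y = E.G1 fun z z' l => max (E.ga l z z' x y) 0 := by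
  rw [G1_eq]
  unfold gp pa
  refine sum_congr rfl fun e _ => ?_
  split_ifs
  · rfl
  · exact max_self _

theorem dp_eq (x y a b : V) : E.dp x y a b =
    E.G1 fun z z' l => max (E.ga l z z' x y) 0 * max (E.ga l z z' a b) 0 := by
  rw [G1_eq]
  unfold dp pa
  refine sum_congr rfl fun e _ => ?_
  split_ifs
  · rfl
  · rw [max_self, mul_zero]

theorem gp_nonneg (x y : V) : 0 ≤ E.gp x y := sum_nonneg fun _ _ => le_max_right _ _

theorem dp_nonneg (x y a b : V) : 0 ≤ E.dp x y a b :=
  sum_nonneg fun _ _ => mul_nonneg (le_max_right _ _) (le_max_right _ _)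

theorem gg_le_gp (x y : V) : E.gg x y ≤ E.gp x y := by
  rw [gg_eq]
  exact sum_le_sum fun e _ => le_max_left _ _

theorem gp_le_ab (x y : V) : E.gp x y ≤ E.ab x y :=
  sum_le_sum fun _ _ => max_le (le_abs_self _) (abs_nonneg _)

theorem gp_mul_le (hE : E.toGSt.Ok) (x y a b : V) :
    E.gp x y * E.gp a b ≤ E.dp x y a b + E.NN x y a b := by
  have h1 := (abs_le.1 (prod_sub_diag (fun e => max (E.pa x y e) 0)
    fun e => max (E.pa a b e) 0)).2
  have h2 : offs (fun e => max (E.pa x y e) 0) (fun e => max (E.pa a b e) 0) ≤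
      E.NN x y a b := by
    rw [NN_eq]
    unfold offs
    refine sum_le_sum fun e _ => sum_le_sum fun e' _ => ?_
    have h3 : ∀ (x y : V) (e : V × V), |max (E.pa x y e) 0| ≤ |E.pg x y e| := by
      intro x y e
      rw [abs_of_nonneg (le_max_right _ _)]
      exact (max_le (le_abs_self _) (abs_nonneg _)).trans (pa_le hE x y e)
    split_ifs
    · exact mul_le_mul (h3 _ _ _) (h3 _ _ _) (abs_nonneg _) (abs_nonneg _)
    · exact le_rfl
  unfold gp dp
  linarith

theorem asw_nonneg (hE : E.Ok) (a b : V) : 0 ≤ E.asw E.s a b := by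
  unfold asw
  split_ifs
  · exact GData.os_X_nonneg hE.sm.inv.toSInv a b
  · exact le_rfl

theorem asw_le_chi (hE : E.Ok) (a b : V) : E.asw E.s a b ≤ E.chi E.s a b := by
  unfold asw
  split_ifs with h
  · rw [GData.os_chi_nf (GData.os_nf_of_as h)]
  · exact GData.os_chi_nonneg hE.sm.inv.toSInv a b

/-- A pair asleep after the stage. -/
theorem asw_step (hE : E.Ok) (x y : V) : 0 ≤ E.asw E.next x y ∧
    (E.nev x y ≤ 1 → E.asw E.next x y ≤ E.asw E.s x y +
      5 / 2 * (E.chi E.s x y * E.gp x y)) ∧ (1 < E.nev x y → E.asw E.next x y = 0) := by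
  have hx := nX_nonneg hE.sm (op_cc_half hE) x y
  have h0 := asw_nonneg hE x y
  have h1 := gp_nonneg (E := E) x y
  have h2 := GData.os_chi_nonneg hE.sm.inv.toSInv x y
  refine ⟨?_, fun _ => ?_, fun hn => ?_⟩
  · unfold asw
    split_ifs
    · exact hx
    · exact le_rfl
  · by_cases h : E.as E.next x y
    · have e : E.asw E.next x y = E.nX x y := if_pos h
      rw [e]
      rcases op_as_next h with ⟨h3, h4, -, h5⟩ | ⟨h3, h4, -⟩
      · rcases op_nX1 hE h3 h4 with h6 | ⟨h6, h7, h8⟩
        · exact absurd h6.2 h5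
        · rw [h8, GData.os_chi_nf (GData.os_nf_of_aw h3)]
          have h9 := gg_le_gp (E := E) x y
          have h10 := (abs_le.1 (op_cc_half hE x y)).2
          have h11 := GData.os_X_nonneg hE.sm.inv.toSInv x y
          have h12 : 1 + E.cc x y + E.gg x y ≤ 5 / 2 * E.gp x y := by linarith
          have h13 := mul_le_mul_of_nonneg_left h12 h11
          linarith
      · have e2 : E.asw E.s x y = E.s.X x y := if_pos h3
        rw [e2, op_nX_not (op_as_not_aw h3)]
        have : 0 ≤ 5 / 2 * (E.chi E.s x y * E.gp x y) := by positivity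
        linarith
    · have e : E.asw E.next x y = 0 := if_neg h
      rw [e]
      positivity
  · unfold asw
    rw [if_neg]
    intro h
    rcases op_as_next h with h3 | h3 <;> omega

theorem AS_eq (s : GState V) (x : V) : E.AS s x = ∑ u, E.asw s u x := rfl

theorem AY_eq (x : V) : E.AY E.s x = E.S3 x fun _ a b => E.asw E.s a b := by
  unfold GData.AY GSt.S3
  rw [mul_sum]
  refine sum_congr rfl fun u _ => ?_
  split_ifs
  · simp only [← mul_sum]
    unfold asw
    ring
  · rw [mul_zero]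

/-- **Pairs asleep at a vertex.** -/
theorem oq_AS_next (hE : E.Ok) (x : V) : E.AS E.next x ≤
    E.AS E.s x + 5 / 2 * (E.prd (E.Wx 3 x) / E.R + 2 * (E.k / E.T ^ 4)) := by
  have h1 : E.G1 (E.Wx 3 x) = ∑ u, E.s.X u x * E.gp u x := by
    rw [GSt.Wx3_eq, G1_lin (fun u => E.s.X u x) fun u z z' l => max (E.ga l z z' u x) 0]
    exact sum_congr rfl fun u _ => by rw [gp_eq]
  have h2 := G1_le_prd hE 3 x
  rw [h1] at h2
  have h3 : E.AS E.next x ≤ E.AS E.s x + 5 / 2 * ∑ u, E.s.X u x * E.gp u x := by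
    rw [AS_eq, AS_eq, mul_sum, ← sum_add_distrib]
    refine sum_le_sum fun u _ => ?_
    obtain ⟨a1, a2, a3⟩ := asw_step hE u x
    have b0 := gp_nonneg (E := E) u x
    have b1 := GData.os_X_nonneg hE.sm.inv.toSInv u x
    have b2 := asw_nonneg hE u x
    by_cases hn : E.nev u x ≤ 1
    · refine (a2 hn).trans ?_
      have b3 : E.chi E.s u x * E.gp u x ≤ E.s.X u x * E.gp u x := by
        by_cases haw : E.aw E.s u x
        · rw [GData.os_chi_nf (GData.os_nf_of_aw haw)]
        · have b4 : E.gp u x = 0 := by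
            unfold gp
            exact sum_eq_zero fun e _ => by rw [pa_not haw, max_self]
          rw [b4, mul_zero, mul_zero]
      linarith
    · rw [a3 (by omega)]
      positivity
  linarith

/-- **Rates caused by the pairs asleep.** -/
theorem oq_AY_next (hE : E.Ok) (x : V) : E.AY E.next x ≤
    E.AY E.s x + 5 / 2 * (E.prd (E.Wx 4 x) / E.R + 2 * (E.k / E.T ^ 4)) +
      2 * (E.k / E.T ^ 4) := by
  have hD := hE.sm.dat
  have hn := GData.os_n1_pos hD
  have hR := GData.os_R_pos hD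
  have hH := hD.H_one
  have hC := hD.C0_one
  have hcc : ∀ x y, |E.cc x y| ≤ 1 / 4 := op_cc_half hE
  have hη0 : 0 ≤ 2 * E.C0 * E.H / E.R := by positivity
  -- the tests
  have g4 : E.G1 (E.Wx 4 x) = E.S3 x fun u a b => E.chi E.s a b * (E.gp a b + E.dp u x a b) := by
    rw [GSt.Wx4_eq, G1_S3 x fun u a b z z' l => E.chi E.s a b *
      (max (E.ga l z z' a b) 0 * (1 + max (E.ga l z z' u x) 0))]
    congr 1
    funext u a b
    have e : (fun (z z' : V) (l : Lb) => E.chi E.s a b *
        (max (E.ga l z z' a b) 0 * (1 + max (E.ga l z z' u x) 0))) =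
        fun z z' l => E.chi E.s a b * (max (E.ga l z z' a b) 0 +
          max (E.ga l z z' u x) 0 * max (E.ga l z z' a b) 0) := by
      funext z z' l
      ring
    rw [e, G1_mul (E.chi E.s a b) fun z z' l => max (E.ga l z z' a b) 0 +
          max (E.ga l z z' u x) 0 * max (E.ga l z z' a b) 0,
      G1_add (fun z z' l => max (E.ga l z z' a b) 0) fun z z' l =>
          max (E.ga l z z' u x) 0 * max (E.ga l z z' a b) 0, ← gp_eq, ← dp_eq]
  have g5 : E.G1 (E.Wx 5 x) - E.Cr (E.Wx 5 x) =
      E.S3 x fun u a b => E.asw E.s a b * (E.cc u x + E.gg u x) := by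
    have e : E.Wx 5 x = fun z z' l => E.S3 x fun u a b => E.asw E.s a b * E.ga l z z' u x := by
      rw [GSt.Wx5_eq]
      funext z z' l
      congr 1
      funext u a b
      unfold asw
      split_ifs
      · rfl
      · rw [zero_mul]
    rw [e, G1_S3 x fun u a b z z' l => E.asw E.s a b * E.ga l z z' u x,
      Cr_S3 x fun u a b z z' l => E.asw E.s a b * E.ga l z z' u x, ← GSt.S3_sub]
    congr 1
    funext u a b
    rw [G1_mul (E.asw E.s a b) fun z z' l => E.ga l z z' u x,
      Cr_mul (E.asw E.s a b) fun z z' l => E.ga l z z' u x]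
    unfold cc gg
    ring
  have h5 : E.S3 x (fun u a b => E.asw E.s a b * (E.cc u x + E.gg u x)) ≤ E.k / E.T ^ 4 := by
    rw [← g5]
    exact (abs_le.1 (hE.rx 5 x)).2
  have h4 := G1_le_prd hE 4 x
  rw [g4] at h4
  have h3 := second_order hE x
  have h1 : E.AY E.next x ≤ E.S3 x (fun _ a b => E.asw E.s a b) +
      E.S3 x (fun u a b => E.asw E.s a b * (E.cc u x + E.gg u x)) +
      5 / 2 * E.S3 x (fun u a b => E.chi E.s a b * (E.gp a b + E.dp u x a b)) +
      E.S3 x (fun u a b => E.chi E.s a b *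
        ((E.Bx + 2) ^ 2 * (2 * E.C0 * E.H / E.R * (E.ab u x + E.ab a b) +
        (2 * E.C0 * E.H / E.R) ^ 2 + E.NN u x u x + E.NN a b a b + E.NN u x a b))) := by
    rw [← GSt.S3_smul, ← GSt.S3_add, ← GSt.S3_add, ← GSt.S3_add]
    unfold GSt.S3
    rw [mul_sum]
    unfold GData.AY
    refine sum_le_sum fun u _ => ?_
    by_cases hnf : E.nf E.s u x
    · rw [if_pos hnf]
      have e1 : (if E.nf E.next u x then E.next.X u x * (1 / (2 * E.n1) *
          ∑ a ∈ cN E.N u x, ∑ b ∈ cN E.N u x, if E.as E.next a b then E.next.X a b else 0)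
            else 0) =
          1 / (2 * E.n1) * ∑ a ∈ cN E.N u x, ∑ b ∈ cN E.N u x,
            E.chi E.next u x * E.asw E.next a b := by
        have e2 : E.chi E.next u x = if E.nf E.next u x then E.next.X u x else 0 := by
          unfold GData.chi
          have hnl : ¬ (E.lig u x ∧ ¬ E.twn E.next u x) :=
            fun h => absurd h.1.2.2 (not_lt.2 hnf.1.2.2.1)
          rw [if_neg hnl]
        simp only [← mul_sum]
        rw [e2]
        unfold asw
        split_ifs
        · ring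
        · rw [zero_mul, mul_zero]
      rw [e1]
      refine mul_le_mul_of_nonneg_left (sum_le_sum fun a _ => sum_le_sum fun b _ => ?_)
        (by positivity)
      obtain ⟨a1, a2, a3, a4⟩ := chi_step hE.sm hcc (op_gbI_nonneg hE) u x
      obtain ⟨b1, b2, b3⟩ := asw_step hE a b
      have hcast : ∀ {n : ℕ}, (n : ℝ) ≤ 1 → n ≤ 1 := fun h => by exact_mod_cast h
      have hcast' : ∀ {n : ℕ}, 1 < (n : ℝ) → 1 < n := fun h => by exact_mod_cast h
      have h2 := asl_bound (GData.os_chi_nonneg hE.sm.inv.toSInv u x) (asw_nonneg hE a b)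
        (asw_le_chi hE a b) b1 hE.sm.Bx_one hη0 (GData.op_C0H_R hD) (op_cc_abs hE u x)
        (gg_abs hE.sm u x) (gg_le_gp u x) (gp_nonneg a b) (gp_le_ab a b)
        (ab_le hE.sm u x) (fun h => a3 (hcast h))
        (fun h => ⟨a4 (hcast' h), nev_le_NN hE.sm (hcast' h)⟩)
        (n' := (E.nev a b : ℝ)) (fun h => b2 (hcast h)) (fun h => b3 (hcast' h))
        (NN_nonneg _ _ _ _) (dp_nonneg u x a b) (gp_mul_le hE.sm u x a b) (NN_nonneg _ _ _ _)
      rw [GData.os_chi_nf hnf] at h2
      refine h2.trans ?_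
      have c0 := GData.os_chi_nonneg hE.sm.inv.toSInv (D := E.toGData) a b
      have c1 := GData.os_X_nonneg hE.sm.inv.toSInv (D := E.toGData) u x
      have c2 := NN_nonneg (E := E) a b a b
      have c3 : 0 ≤ E.s.X u x * (E.chi E.s a b * ((E.Bx + 2) ^ 2 *
        ((2 * E.C0 * E.H / E.R) ^ 2 + E.NN a b a b))) := by positivity
      have c4 : E.s.X u x * (E.asw E.s a b + E.asw E.s a b * (E.cc u x + E.gg u x) +
          5 / 2 * (E.chi E.s a b * (E.gp a b + E.dp u x a b)) +
          E.chi E.s a b * ((E.Bx + 2) ^ 2 * (2 * E.C0 * E.H / E.R * (E.ab u x + E.ab a b) +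
          (2 * E.C0 * E.H / E.R) ^ 2 + E.NN u x u x + E.NN a b a b + E.NN u x a b))) =
          (E.s.X u x * E.asw E.s a b * (1 + E.cc u x + E.gg u x) +
          5 / 2 * (E.s.X u x * (E.chi E.s a b * (E.gp a b + E.dp u x a b))) +
          E.s.X u x * (E.chi E.s a b * ((E.Bx + 2) ^ 2 *
            (2 * E.C0 * E.H / E.R * (E.ab u x + E.ab a b) + E.NN u x u x + E.NN u x a b)))) +
          E.s.X u x * (E.chi E.s a b * ((E.Bx + 2) ^ 2 *
            ((2 * E.C0 * E.H / E.R) ^ 2 + E.NN a b a b))) := by ring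
      rw [c4]
      linarith
    · rw [if_neg hnf, mul_zero, if_neg (fun h => hnf (op_nf_next h).1)]
  rw [AY_eq]
  linarith

/-- Number of pairs at `x` with equal picks in their common neighbourhood. -/
theorem cls_card (hE : E.Ok) (x : V) :
    (∑ u, if E.far u x ∧ E.cls u x then (1 : ℝ) else 0) ≤ E.T ^ 3910 := by
  refine le_trans ?_ (hE.cl x)
  have h1 : ∀ z z', E.rs z z' (if Fire.clash E.col z z' then E.cw x z z' else 0) =
      ∑ u, if E.far u x ∧ z ∈ cN E.N u x ∧ z' ∈ cN E.N u x ∧ z ∈ E.U ∧ z' ∈ E.U ∧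
        Fire.clash E.col z z' then (1 : ℝ) else 0 := by
    intro z z'
    unfold GSm.rs
    by_cases hU : z ∈ E.U ∧ z' ∈ E.U
    · rw [if_pos hU]
      by_cases hc : Fire.clash E.col z z'
      · rw [if_pos hc]
        unfold GSt.cw
        rw [if_neg hc.1, ← sum_boole]
        refine sum_congr rfl fun u _ => if_congr ?_ rfl rfl
        exact ⟨fun h => ⟨h.1, h.2.1, h.2.2, hU.1, hU.2, hc⟩,
          fun h => ⟨h.1, h.2.1, h.2.2.1⟩⟩
      · rw [if_neg hc]
        symm
        exact sum_eq_zero fun u _ => if_neg fun h => hc h.2.2.2.2.2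
    · rw [if_neg hU]
      symm
      exact sum_eq_zero fun u _ => if_neg fun h => hU ⟨h.2.2.2.1, h.2.2.2.2.1⟩
  simp only [h1]
  have h2 : ∑ z, ∑ z', ∑ u, (if E.far u x ∧ z ∈ cN E.N u x ∧ z' ∈ cN E.N u x ∧ z ∈ E.U ∧
      z' ∈ E.U ∧ Fire.clash E.col z z' then (1 : ℝ) else 0) =
      ∑ u, ∑ z, ∑ z', (if E.far u x ∧ z ∈ cN E.N u x ∧ z' ∈ cN E.N u x ∧ z ∈ E.U ∧
      z' ∈ E.U ∧ Fire.clash E.col z z' then (1 : ℝ) else 0) := by
    symm
    rw [sum_comm]
    refine sum_congr rfl fun z _ => ?_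
    rw [sum_comm]
  rw [h2]
  refine sum_le_sum fun u _ => ?_
  split_ifs with h
  · obtain ⟨hf, z, hz, z', hz', hU, hU', hc⟩ := h
    have h3 : (1 : ℝ) = if E.far u x ∧ z ∈ cN E.N u x ∧ z' ∈ cN E.N u x ∧ z ∈ E.U ∧
      z' ∈ E.U ∧ Fire.clash E.col z z' then (1 : ℝ) else 0 :=
      (if_pos ⟨hf, hz, hz', hU, hU', hc⟩).symm
    refine h3.le.trans ?_
    refine le_trans ?_ (Finset.single_le_sum (f := fun z => ∑ z', (if E.far u x ∧
      z ∈ cN E.N u x ∧ z' ∈ cN E.N u x ∧ z ∈ E.U ∧
      z' ∈ E.U ∧ Fire.clash E.col z z' then (1 : ℝ) else 0)) (fun i _ => ?_) (mem_univ z))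
    · refine Finset.single_le_sum (f := fun z' => if E.far u x ∧
        z ∈ cN E.N u x ∧ z' ∈ cN E.N u x ∧ z ∈ E.U ∧
        z' ∈ E.U ∧ Fire.clash E.col z z' then (1 : ℝ) else 0) (fun i _ => ?_) (mem_univ z')
      split_ifs <;> norm_num
    · exact sum_nonneg fun z' _ => by split_ifs <;> norm_num
  · exact sum_nonneg fun z _ => sum_nonneg fun z' _ => by split_ifs <;> norm_num

/-- **Frozen pairs.** -/
theorem oq_FO_next (hE : E.Ok) (x : V) : E.FO E.next x ≤
    E.FO E.s x + (E.prd (E.Wx 6 x) / E.R + 2 * (E.k / E.T ^ 4)) + 2 * (E.k / E.T ^ 4) := by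
  have hD := hE.sm.dat
  have hK := GData.os_Kc_one hD
  have hk := GData.os_k_pos hD
  have hT := GData.os_T_pos hD
  have hT6 := GData.os_T_ge hD
  have h1 : E.G1 (E.Wx 6 x) = ∑ u, if E.as E.s u x then
      E.s.X u x * ∑ e, |E.pg u x e| else 0 := by
    have e : E.Wx 6 x = fun z z' l => ∑ u, (if E.as E.s u x then E.s.X u x else 0) *
        |E.gu l z z' u x| := by
      rw [GSt.Wx6_eq]
      funext z z' l
      refine sum_congr rfl fun u _ => ?_
      split_ifs
      · rfl
      · rw [zero_mul]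
    rw [e, G1_lin (fun u => if E.as E.s u x then E.s.X u x else 0)
      fun u z z' l => |E.gu l z z' u x|]
    refine sum_congr rfl fun u _ => ?_
    have e2 : E.G1 (fun z z' l => |E.gu l z z' u x|) = ∑ e, |E.pg u x e| := by
      rw [G1_eq]
      unfold pg
      refine sum_congr rfl fun e _ => ?_
      split_ifs
      · rfl
      · exact abs_zero.symm
    rw [e2]
    split_ifs
    · rfl
    · rw [zero_mul]
  have h2 := G1_le_prd hE 6 x
  rw [h1] at h2
  have hXK : ∀ u x, E.nX u x ≤ E.Kc := (op_next hE).X_hi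
  have h3 : E.FO E.next x ≤ E.FO E.s x + (∑ u, if E.as E.s u x then
      E.s.X u x * ∑ e, |E.pg u x e| else 0) + E.Kc * ∑ u, E.NN u x u x +
      E.Kc * ∑ u, if E.far u x ∧ E.cls u x then (1 : ℝ) else 0 := by
    unfold GData.FO
    rw [mul_sum, mul_sum, ← sum_add_distrib, ← sum_add_distrib, ← sum_add_distrib]
    refine sum_le_sum fun u _ => ?_
    have n0 := NN_nonneg (E := E) u x u x
    have x0 := GData.os_X_nonneg hE.sm.inv.toSInv u x
    have t1 : 0 ≤ (if E.far u x ∧ E.s.st u x = .frO ∧ ¬ E.twn E.s u x then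
        E.s.X u x else 0) := by
      split_ifs
      · exact x0
      · exact le_rfl
    have t2 : 0 ≤ (if E.as E.s u x then E.s.X u x * ∑ e, |E.pg u x e| else 0) := by
      split_ifs
      · exact mul_nonneg x0 (sum_nonneg fun e _ => abs_nonneg _)
      · exact le_rfl
    have t3 : 0 ≤ E.Kc * E.NN u x u x := by positivity
    have t4 : 0 ≤ E.Kc * (if E.far u x ∧ E.cls u x then (1 : ℝ) else 0) := by
      split_ifs
      · linarith
      · rw [mul_zero]
    by_cases hF : E.far u x ∧ E.next.st u x = .frO ∧ ¬ E.twn E.next u x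
    · rw [if_pos hF]
      obtain ⟨f1, f2, f3⟩ := hF
      have hX : E.next.X u x = E.nX u x := rfl
      rw [hX]
      by_cases haw : E.aw E.s u x
      · rw [op_st_aw haw] at f2
        split_ifs at f2 with g1 g2
        rcases g2 with g2 | g2
        · have n1 := nev_le_NN hE.sm g2
          have n2 : (2 : ℝ) ≤ E.nev u x := by exact_mod_cast g2
          have n3 : E.Kc * 1 ≤ E.Kc * E.NN u x u x :=
            mul_le_mul_of_nonneg_left (by linarith) (by linarith)
          linarith [hXK u x]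
        · have n4 : E.Kc * (if E.far u x ∧ E.cls u x then (1 : ℝ) else 0) = E.Kc := by
            rw [if_pos ⟨f1, g2⟩, mul_one]
          linarith [hXK u x]
      · by_cases has : E.as E.s u x
        · rw [op_st_as haw has] at f2
          split_ifs at f2 with g1
          rw [op_nX_not haw]
          by_cases hc : E.cls u x
          · have n4 : E.Kc * (if E.far u x ∧ E.cls u x then (1 : ℝ) else 0) = E.Kc := by
              rw [if_pos ⟨f1, hc⟩, mul_one]
            linarith [hE.sm.inv.X_hi u x]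
          · have n5 : E.nev u x ≠ 0 := fun h => g1 ⟨h, hc⟩
            have n6 : (1 : ℝ) ≤ ∑ e, |E.pg u x e| := by
              refine le_trans ?_ (card_le_sum (pg_one hE.sm u x))
              rw [← nev_eq]
              exact_mod_cast Nat.one_le_iff_ne_zero.2 n5
            rw [if_pos has]
            have n7 : E.s.X u x * 1 ≤ E.s.X u x * ∑ e, |E.pg u x e| :=
              mul_le_mul_of_nonneg_left n6 x0
            rw [if_pos has] at t2
            linarith
        · rw [op_st_not haw has] at f2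
          rw [op_nX_not haw]
          have f4 : ¬ E.twn E.s u x := fun h => f3 (twn_mono hE.sm (op_cc_half hE)
            (op_gbI_nonneg hE) h)
          rw [if_pos ⟨f1, f2, f4⟩]
          linarith
    · rw [if_neg hF]
      linarith
  have h4 := hE.d0 x
  have h5 := cls_card hE x
  have h6 : E.Kc * (∑ u, E.NN u x u x) + E.Kc *
      (∑ u, if E.far u x ∧ E.cls u x then (1 : ℝ) else 0) ≤ 2 * (E.k / E.T ^ 4) := by
    have a1 := mul_le_mul_of_nonneg_left h4 (show 0 ≤ E.Kc by linarith)
    have a2 := mul_le_mul_of_nonneg_left h5 (show 0 ≤ E.Kc by linarith)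
    have a3 := GData.os_Kc_T hD
    have a4 : E.Kc * E.T ^ 3300 ≤ E.k / E.T ^ 4 := by
      calc E.Kc * E.T ^ 3300 ≤ E.T * E.T ^ 3300 := mul_le_mul_of_nonneg_right a3 (by positivity)
        _ = E.T ^ 3301 := by rw [← pow_succ']
        _ ≤ E.k / E.T ^ 4 := by
          rw [le_div_iff₀ (by positivity), ← pow_add]
          exact (hD.big.pw (by norm_num)).trans hD.k_lo
    have a5 : E.Kc * E.T ^ 3910 ≤ E.k / E.T ^ 4 := by
      calc E.Kc * E.T ^ 3910 ≤ E.T * E.T ^ 3910 := mul_le_mul_of_nonneg_right a3 (by positivity)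
        _ = E.T ^ 3911 := by rw [← pow_succ']
        _ ≤ E.k / E.T ^ 4 := by
          rw [le_div_iff₀ (by positivity), ← pow_add]
          exact (hD.big.pw (by norm_num)).trans hD.k_lo
    linarith
  linarith

theorem oq_cc_le (hE : E.Ok) (x y : V) :
    |E.cc x y| ≤ E.Cr fun z z' l => |E.ga l z z' x y| := by
  unfold cc Cr
  rw [abs_neg]
  refine (abs_sum_le_sum_abs _ _).trans (sum_le_sum fun z _ => ?_)
  refine (abs_sum_le_sum_abs _ _).trans (sum_le_sum fun z' _ => ?_)
  unfold GSm.rs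
  split_ifs
  · rw [abs_mul, abs_of_nonneg (hE.ra_nonneg z z')]
    refine mul_le_mul_of_nonneg_left ?_ (hE.ra_nonneg z z')
    unfold GSt.mn
    refine (abs_sum_le_sum_abs _ _).trans (sum_le_sum fun l _ => ?_)
    rw [abs_mul, abs_of_nonneg (hE.sm.cols.mu_nonneg z z' l)]
  · rw [abs_zero]

/-- **Accumulated changes.** -/
theorem oq_CH_next (hE : E.Ok) (x : V) : E.CH E.next x ≤
    E.CH E.s x + (2 * (E.prd (E.Wx 7 x) / E.R) + 3 * (E.k / E.T ^ 4)) := by
  have h1 : E.G1 (E.Wx 7 x) = ∑ u, E.ab u x := by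
    have e : E.Wx 7 x = fun z z' l => ∑ u, (1 : ℝ) * |E.ga l z z' u x| := by
      rw [GSt.Wx7_eq]
      simp only [one_mul]
    rw [e, G1_lin (fun _ => (1 : ℝ)) fun u z z' l => |E.ga l z z' u x|]
    exact sum_congr rfl fun u _ => by rw [one_mul, ab_eq]
  have h2 : E.Cr (E.Wx 7 x) = ∑ u, E.Cr fun z z' l => |E.ga l z z' u x| := by
    have e : E.Wx 7 x = fun z z' l => ∑ u, (1 : ℝ) * |E.ga l z z' u x| := by
      rw [GSt.Wx7_eq]
      simp only [one_mul]
    rw [e, Cr_lin (fun _ => (1 : ℝ)) fun u z z' l => |E.ga l z z' u x|]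
    exact sum_congr rfl fun u _ => by rw [one_mul]
  have h3 := G1_le_prd hE 7 x
  have h4 := (abs_le.1 (hE.rxp 7 x)).2
  have h5 : E.CH E.next x ≤ E.CH E.s x + ∑ u, (E.Cr fun z z' l => |E.ga l z z' u x|) +
      ∑ u, E.ab u x := by
    unfold GData.CH
    rw [← sum_add_distrib, ← sum_add_distrib]
    refine sum_le_sum fun u _ => ?_
    have a1 := oq_cc_le hE u x
    have a2 : 0 ≤ E.ab u x := sum_nonneg fun e _ => abs_nonneg _
    have a3 := abs_nonneg (E.cc u x)
    split_ifs
    · rw [op_ch]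
      split_ifs with haw
      · have a4 : (E.nev u x : ℝ) ≤ E.ab u x := by
          rw [nev_eq]
          unfold ab
          rw [pa_aw haw]
          exact card_le_sum (pg_one hE.sm u x)
        linarith
      · linarith
    · linarith
  rw [h1] at h3
  rw [h2] at h4
  linarith

end GRn

end

end Pool.Agent.AcyG
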