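import Pool.Agent.AcyG.OSite

/-! # Bounds for the tests of the outer process, on the whole vertex set (project MP_af9dfb_G)

Everything follows from `SData.Ok` and `SData.Cols`. -/

set_option autoImplicit false
set_option linter.unusedSectionVars false

namespace Pool.Agent.AcyG

open Finset
open Pool.Agent.AcyK (cN)
open scoped Classical

universe u v

section

variable {V : Type u} [Fintype V] [DecidableEq V]

namespace SData

variable {D : SData V} {H Kn am : ℝ} {η C q0 B τ u0 : ℝ} {B0 : ℕ} {L : Type v} [Fintype L]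
  {μ : V → V → L → ℝ} {u : L → V → V → V → V → ℝ}

namespace Cols

variable (hD : D.Ok H Kn am) (hC : D.Cols H η C q0 B τ u0 B0 μ u) (hu0 : 0 ≤ u0)

include hC in
/-- No effect on a site without weight. -/
theorem eq_zero_right {l : L} {z z' x y : V} (h : D.chi x y = 0) : u l z z' x y = 0 := by
  have h1 : ¬ D.lnk z z' x y := fun h2 => h2.2.1 h
  by_contra h2
  exact (hC.supp l z z' x y h1 h2).1 h

include hC in
/-- No effect of a pair without weight. -/
theorem eq_zero_left {l : L} {z z' x y : V} (h : D.chi z z' = 0) : u l z z' x y = 0 := by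
  have h1 : ¬ D.lnk z z' x y := fun h2 => h2.1 h
  by_contra h2
  exact (hC.supp l z z' x y h1 h2).2.2.1 h

include hC hu0 in
theorem abs_split (l : L) (z z' x y : V) :
    |u l z z' x y| = max (u l z z' x y) 0 + (if D.lnk z z' x y then 1 else 0) := by
  by_cases h : D.lnk z z' x y
  · rw [if_pos h, hC.kill l z z' x y h]
    norm_num
  · rw [if_neg h, add_zero]
    rcases hC.vals l z z' x y h with h1 | h1
    · rw [h1]; simp
    · rw [abs_of_nonneg (hu0.trans h1.1), max_eq_left (hu0.trans h1.1)]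

include hC hu0 in
theorem abs_le (l : L) (z z' x y : V) : |u l z z' x y| ≤ max B 1 := by
  by_cases h : D.lnk z z' x y
  · rw [hC.kill l z z' x y h, abs_neg, abs_one]
    exact le_max_right _ _
  · rcases hC.vals l z z' x y h with h1 | h1
    · rw [h1, abs_zero]
      exact le_trans zero_le_one (le_max_right _ _)
    · rw [abs_of_nonneg (hu0.trans h1.1)]
      exact h1.2.trans (le_max_left _ _)

include hC hu0 in
theorem neg_one_le (l : L) (z z' x y : V) : -1 ≤ u l z z' x y := by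
  by_cases h : D.lnk z z' x y
  · rw [hC.kill l z z' x y h]
  · rcases hC.vals l z z' x y h with h1 | h1
    · rw [h1]; norm_num
    · linarith [h1.1]

include hD in
/-- Mass of the pairs linked to a site. -/
theorem lnk_sum (x y : V) : 1 / (2 * D.n1) * ∑ z, ∑ z', D.chi z z' *
    (if D.lnk z z' x y then 1 else 0) ≤ D.Y x y := by
  unfold SData.Y
  refine mul_le_mul_of_nonneg_left ?_ (by have := hD.n1_pos; positivity)
  have h1 : ∀ z, ∑ z', D.chi z z' * (if D.lnk z z' x y then 1 else 0) ≤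
      if z ∈ cN D.N x y then ∑ z' ∈ cN D.N x y, D.chi z z' else 0 := by
    intro z
    by_cases h : z ∈ cN D.N x y
    · rw [if_pos h, ← sum_subset (subset_univ (cN D.N x y)) fun z' _ hz' => ?_]
      · refine sum_le_sum fun z' _ => ?_
        split_ifs
        · rw [mul_one]
        · rw [mul_zero]; exact hD.chi_nonneg z z'
      · rw [if_neg fun h2 => hz' h2.2.2.2, mul_zero]
    · rw [if_neg h]
      refine (sum_eq_zero fun z' _ => ?_).le
      rw [if_neg fun h2 => h h2.2.2.1, mul_zero]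
  calc ∑ z, ∑ z', D.chi z z' * (if D.lnk z z' x y then 1 else 0) ≤
        ∑ z, if z ∈ cN D.N x y then ∑ z' ∈ cN D.N x y, D.chi z z' else 0 :=
        sum_le_sum fun z _ => h1 z
    _ = _ := by rw [sum_ite_mem, univ_inter]

include hD hC hu0 in
/-- Mean absolute effect on a site. -/
theorem abs_rate (x y : V) : 1 / (2 * D.n1) * ∑ z, ∑ z', D.chi z z' *
    ∑ l, μ z z' l * |u l z z' x y| ≤ (C + 1) * D.Y x y := by
  have h1 : ∀ z z', D.chi z z' * ∑ l, μ z z' l * |u l z z' x y| =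
      D.chi z z' * ∑ l, μ z z' l * max (u l z z' x y) 0 +
        D.chi z z' * (if D.lnk z z' x y then 1 else 0) := by
    intro z z'
    rw [← mul_add]
    congr 1
    simp only [hC.abs_split hu0, mul_add, sum_add_distrib, ← sum_mul, hC.mu_sum, one_mul]
  simp only [h1, sum_add_distrib, mul_add]
  have h2 := hC.rate x y
  have h3 := lnk_sum hD x y
  linarith

include hD hC hu0 in
/-- Total of a weighted sum of effects over a family of sites. -/
theorem tot_gen {J : Type*} (A : Finset J) (s t : J → V) (w : J → ℝ) (hw : ∀ j ∈ A, 0 ≤ w j) :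
    1 / (2 * D.n1) * ∑ z, ∑ z', D.chi z z' *
      ∑ l, μ z z' l * ∑ j ∈ A, w j * |u l z z' (s j) (t j)| ≤
      (C + 1) * ∑ j ∈ A, w j * D.Y (s j) (t j) := by
  have e1 : ∀ z z', D.chi z z' * ∑ l, μ z z' l * ∑ j ∈ A, w j * |u l z z' (s j) (t j)| =
      ∑ j ∈ A, w j * (D.chi z z' * ∑ l, μ z z' l * |u l z z' (s j) (t j)|) := by
    intro z z'
    have e0 : ∑ l, μ z z' l * ∑ j ∈ A, w j * |u l z z' (s j) (t j)| =
        ∑ j ∈ A, w j * ∑ l, μ z z' l * |u l z z' (s j) (t j)| := by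
      simp only [mul_sum]
      rw [sum_comm]
      exact sum_congr rfl fun j _ => sum_congr rfl fun l _ => by ring
    rw [e0, mul_sum]
    exact sum_congr rfl fun j _ => by ring
  have e2 : ∑ z, ∑ z', D.chi z z' * ∑ l, μ z z' l * ∑ j ∈ A, w j * |u l z z' (s j) (t j)| =
      ∑ j ∈ A, w j * ∑ z, ∑ z', D.chi z z' * ∑ l, μ z z' l * |u l z z' (s j) (t j)| := by
    simp only [e1]
    rw [sum_congr rfl fun z _ => sum_comm, sum_comm]
    exact sum_congr rfl fun j _ => by simp only [mul_sum]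
  rw [e2, mul_sum, mul_sum]
  refine sum_le_sum fun j hj => ?_
  have h2 := mul_le_mul_of_nonneg_left (hC.abs_rate hD hu0 (s j) (t j)) (hw j hj)
  linarith

/-- Removing the weights `chi`. -/
theorem unweight {c0 : ℝ} (hc0 : 0 < c0) (hchi : ∀ z z', D.chi z z' ≠ 0 → c0 ≤ D.chi z z')
    (hn : 0 < D.n1) {F : V → V → ℝ} (hF : ∀ z z', 0 ≤ F z z') (hF0 : ∀ z z', D.chi z z' = 0 → F z z' = 0)
    {a : ℝ} (h : 1 / (2 * D.n1) * ∑ z, ∑ z', D.chi z z' * F z z' ≤ a) :
    ∑ z, ∑ z', F z z' ≤ 2 * D.n1 / c0 * a := by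
  have h1 : ∑ z, ∑ z', F z z' ≤ 1 / c0 * ∑ z, ∑ z', D.chi z z' * F z z' := by
    rw [mul_sum]
    refine sum_le_sum fun z _ => ?_
    rw [mul_sum]
    refine sum_le_sum fun z' _ => ?_
    by_cases h0 : D.chi z z' = 0
    · rw [hF0 z z' h0, mul_zero, mul_zero]
    · have h2 := mul_le_mul_of_nonneg_right (hchi z z' h0) (hF z z')
      rw [one_div, ← mul_assoc, mul_comm _ (F z z'), ← mul_assoc]
      rw [mul_comm (F z z'), mul_assoc, mul_comm (F z z')]
      rw [le_inv_mul_iff₀ hc0]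
      exact h2
  have h2 : ∑ z, ∑ z', D.chi z z' * F z z' ≤ 2 * D.n1 * a := by
    have h3 := mul_le_mul_of_nonneg_left h (show (0 : ℝ) ≤ 2 * D.n1 by positivity)
    rw [← mul_assoc, mul_one_div_cancel (by positivity), one_mul] at h3
    exact h3
  refine h1.trans ?_
  have h3 := mul_le_mul_of_nonneg_left h2 (show (0 : ℝ) ≤ 1 / c0 by positivity)
  refine h3.trans (le_of_eq ?_)
  ring

include hD hC hu0 in
/-- Total of a weighted sum of effects, not weighted by `chi`. -/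
theorem tot_un {c0 : ℝ} (hc0 : 0 < c0) (hchi : ∀ z z', D.chi z z' ≠ 0 → c0 ≤ D.chi z z')
    {J : Type*} (A : Finset J) (s t : J → V) (w : J → ℝ) (hw : ∀ j ∈ A, 0 ≤ w j) :
    ∑ z, ∑ z', ∑ l, μ z z' l * ∑ j ∈ A, w j * |u l z z' (s j) (t j)| ≤
      2 * D.n1 / c0 * ((C + 1) * ∑ j ∈ A, w j * D.Y (s j) (t j)) := by
  refine unweight hc0 hchi hD.n1_pos (fun z z' => sum_nonneg fun l _ =>
    mul_nonneg (hC.mu_nonneg z z' l) (sum_nonneg fun j hj => mul_nonneg (hw j hj) (abs_nonneg _)))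
    (fun z z' h => ?_) (hC.tot_gen hD hu0 A s t w hw)
  refine sum_eq_zero fun l _ => ?_
  rw [sum_eq_zero fun j _ => by rw [hC.eq_zero_left h, abs_zero, mul_zero], mul_zero]

include hD hC hu0 in
/-- First order tests at `x`: maximum. -/
theorem w1_abs (ham : 0 ≤ am) {Φ : ℝ} (φ : V → ℝ) (hφ : ∀ y, |φ y| ≤ Φ) (l : L) (z z' x : V) :
    ∑ y, |φ y| * |u l z z' x y| ≤ Φ * max B 1 * ((1 + B0 * (1 + H / τ)) * am) := by
  have hΦ : 0 ≤ Φ := (abs_nonneg _).trans (hφ x)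
  have h1 := hC.row_card l z z' x am ham hD.cod_le
  have h2 : ∑ y, |φ y| * |u l z z' x y| ≤
      ∑ y ∈ univ.filter (fun y => u l z z' x y ≠ 0), Φ * max B 1 := by
    rw [sum_filter]
    refine sum_le_sum fun y _ => ?_
    split_ifs with h
    · exact mul_le_mul (hφ y) (hC.abs_le hu0 l z z' x y) (abs_nonneg _) hΦ
    · rw [not_not.1 h, abs_zero, mul_zero]
  refine h2.trans ?_
  rw [sum_const, nsmul_eq_mul, mul_comm]
  exact mul_le_mul_of_nonneg_left h1 (mul_nonneg hΦ (le_trans zero_le_one (le_max_right _ _)))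

include hD hC in
/-- Second order tests: maximum. -/
theorem w2_abs {Ψ : ℝ} (ψ : V → V → ℝ) (hψ : ∀ a b, |ψ a b| ≤ Ψ * D.chi a b) (hΨ : 0 ≤ Ψ)
    (l : L) (z z' : V) :
    ∑ a, ∑ b, |ψ a b| * |u l z z' a b| ≤
      Ψ * (2 * D.n1) * (B * ((1 + B0 * (1 + H / τ)) * H)) := by
  have h1 := hC.row_abs l z z'
  have h2 : ∑ a, ∑ b, |ψ a b| * |u l z z' a b| ≤ Ψ * ∑ a, ∑ b, D.chi a b * |u l z z' a b| := by
    rw [mul_sum]
    refine sum_le_sum fun a _ => ?_
    rw [mul_sum]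
    refine sum_le_sum fun b _ => ?_
    rw [← mul_assoc]
    exact mul_le_mul_of_nonneg_right (hψ a b) (abs_nonneg _)
  have hn := hD.n1_pos
  have h3 : ∑ a, ∑ b, D.chi a b * |u l z z' a b| ≤
      2 * D.n1 * (B * ((1 + B0 * (1 + H / τ)) * H)) := by
    have h4 := mul_le_mul_of_nonneg_left h1 (show (0 : ℝ) ≤ 2 * D.n1 by positivity)
    rw [← mul_assoc, mul_one_div_cancel (by positivity), one_mul] at h4
    exact h4
  calc _ ≤ _ := h2
    _ ≤ _ := mul_le_mul_of_nonneg_left h3 hΨ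
    _ = _ := by ring

include hD hC in
/-- Mean number of the partners of `z` in `U` that have an effect on a site. -/
theorem col_row (U : Finset V) {a : ℝ} (ha : 0 ≤ a)
    (hU : ∀ v w, D.chi v w ≠ 0 → ((cN D.N v w ∩ U).card : ℝ) ≤ a) (z x y : V) :
    ∑ z' ∈ U, ∑ l, μ z z' l * (if u l z z' x y ≠ 0 then 1 else 0) ≤
      (1 + q0 * (H * (1 + H / τ))) * a := by
  let φ : V → V → ℝ := fun z1 z2 => (if z1 = z ∧ z2 ∈ U ∧ z2 ≠ z then 1 else 0) +
    (if z2 = z ∧ z1 ∈ U ∧ z1 ≠ z then 1 else 0)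
  have hφ0 : ∀ z1 z2, 0 ≤ φ z1 z2 := fun z1 z2 => by
    show (0 : ℝ) ≤ (if _ then _ else _) + (if _ then _ else _)
    split_ifs <;> norm_num
  have h1 := hC.col_ext x y φ a (fun z1 z2 => add_comm _ _) hφ0 ha (fun v w hvw => by
    have e1 : ∀ z1, ∑ z2 ∈ cN D.N v w, φ z1 z2 ≤
        (if z1 = z then ((cN D.N v w ∩ U).card : ℝ) else 0) + (if z1 ∈ U then 1 else 0) := by
      intro z1
      show ∑ z2 ∈ cN D.N v w, ((if z1 = z ∧ z2 ∈ U ∧ z2 ≠ z then (1 : ℝ) else 0) +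
        (if z2 = z ∧ z1 ∈ U ∧ z1 ≠ z then 1 else 0)) ≤ _
      rw [sum_add_distrib]
      refine add_le_add ?_ ?_
      · by_cases h : z1 = z
        · rw [if_pos h]
          have : ∑ z2 ∈ cN D.N v w, (if z1 = z ∧ z2 ∈ U ∧ z2 ≠ z then (1 : ℝ) else 0) ≤
              ∑ z2 ∈ cN D.N v w, (if z2 ∈ U then (1 : ℝ) else 0) := by
            refine sum_le_sum fun z2 _ => ?_
            by_cases h2 : z2 ∈ U
            · rw [if_pos h2]; split_ifs <;> norm_num
            · rw [if_neg h2, if_neg fun h3 => h2 h3.2.1]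
          refine this.trans (le_of_eq ?_)
          rw [sum_ite_mem, sum_const, nsmul_eq_mul, mul_one]
        · rw [if_neg h]
          exact (sum_eq_zero fun z2 _ => if_neg fun h2 => h h2.1).le
      · by_cases h : z1 ∈ U
        · rw [if_pos h]
          calc ∑ z2 ∈ cN D.N v w, (if z2 = z ∧ z1 ∈ U ∧ z1 ≠ z then (1 : ℝ) else 0) ≤
                ∑ z2 ∈ cN D.N v w, (if z2 = z then (1 : ℝ) else 0) := by
                refine sum_le_sum fun z2 _ => ?_
                by_cases h2 : z2 = z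
                · rw [if_pos h2]; split_ifs <;> norm_num
                · rw [if_neg h2, if_neg fun h3 => h2 h3.1]
            _ ≤ 1 := by
                rw [sum_ite_eq' (cN D.N v w) z]
                split_ifs <;> norm_num
        · rw [if_neg h]
          exact (sum_eq_zero fun z2 _ => if_neg fun h2 => h h2.2.1).le
    have e2 : ∑ z1 ∈ cN D.N v w, ∑ z2 ∈ cN D.N v w, φ z1 z2 ≤
        2 * ((cN D.N v w ∩ U).card : ℝ) := by
      refine (sum_le_sum fun z1 _ => e1 z1).trans ?_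
      rw [sum_add_distrib, sum_ite_mem, sum_const, nsmul_eq_mul, mul_one,
        sum_ite_eq' (cN D.N v w) z]
      have : (0 : ℝ) ≤ ((cN D.N v w ∩ U).card : ℝ) := Nat.cast_nonneg _
      split_ifs <;> linarith
    have := hU v w hvw
    linarith)
  refine le_trans (le_of_eq ?_) h1
  set F : V → V → ℝ := fun z1 z2 => ∑ l, μ z1 z2 l * (if u l z1 z2 x y ≠ 0 then 1 else 0)
    with hF
  have hFs : ∀ z1 z2, F z1 z2 = F z2 z1 := fun z1 z2 => by
    simp only [hF]
    exact sum_congr rfl fun l _ => by rw [hC.mu_symm z1 z2, hC.symm1 l z1 z2]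
  have hFd : F z z = 0 := by
    simp only [hF]
    refine sum_eq_zero fun l _ => ?_
    rw [if_neg (not_not.2 (hC.eq_zero_left (hD.chi_diag z))), mul_zero]
  have e3 : ∀ z1, ∑ z2, φ z1 z2 * F z1 z2 =
      (if z1 = z then ∑ z2 ∈ U, F z z2 else 0) + (if z1 ∈ U then F z z1 else 0) := by
    intro z1
    show ∑ z2, ((if z1 = z ∧ z2 ∈ U ∧ z2 ≠ z then (1 : ℝ) else 0) +
        (if z2 = z ∧ z1 ∈ U ∧ z1 ≠ z then 1 else 0)) * F z1 z2 = _
    simp only [add_mul, sum_add_distrib]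
    congr 1
    · by_cases h : z1 = z
      · rw [if_pos h, ← sum_subset (subset_univ U) fun z2 _ h2 => ?_]
        · refine sum_congr rfl fun z2 hz2 => ?_
          by_cases h3 : z2 = z
          · rw [h3, hFd, h, hFd, mul_zero]
          · rw [if_pos ⟨h, hz2, h3⟩, one_mul, h]
        · rw [if_neg fun h3 => h2 h3.2.1, zero_mul]
      · rw [if_neg h]
        exact sum_eq_zero fun z2 _ => by rw [if_neg fun h2 => h h2.1, zero_mul]
    · rw [sum_eq_single z]
      · by_cases h : z1 ∈ U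
        · rw [if_pos h]
          by_cases h3 : z1 = z
          · rw [h3, hFd, mul_zero]
          · rw [if_pos ⟨rfl, h, h3⟩, one_mul, hFs]
        · rw [if_neg h, if_neg fun h2 => h h2.2.1, zero_mul]
      · intro z2 _ h2
        rw [if_neg fun h3 => h2 h3.1, zero_mul]
      · intro h2
        exact absurd (mem_univ z) h2
  have e4 : ∑ z1, ∑ z2, φ z1 z2 * F z1 z2 = 2 * ∑ z2 ∈ U, F z z2 := by
    rw [sum_congr rfl fun z1 _ => e3 z1, sum_add_distrib, sum_ite_mem, univ_inter,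
      sum_ite_eq' univ z, if_pos (mem_univ z)]
    ring
  show ∑ z' ∈ U, F z z' = 1 / 2 * ∑ z1, ∑ z2, φ z1 z2 * F z1 z2
  rw [e4]
  ring

include hC in
/-- Mean number of the pairs in `U` that have an effect on a site. -/
theorem col_tot (U : Finset V) {a : ℝ} (ha : 0 ≤ a)
    (hU : ∀ v w, D.chi v w ≠ 0 → ((cN D.N v w ∩ U).card : ℝ) ^ 2 ≤ a) (x y : V) :
    ∑ z ∈ U, ∑ z' ∈ U, ∑ l, μ z z' l * (if u l z z' x y ≠ 0 then 1 else 0) ≤
      (1 + q0 * (H * (1 + H / τ))) * a := by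
  let φ : V → V → ℝ := fun z1 z2 => if z1 ∈ U ∧ z2 ∈ U then 1 else 0
  have hφ0 : ∀ z1 z2, 0 ≤ φ z1 z2 := fun z1 z2 => by
    show (0 : ℝ) ≤ (if _ then _ else _)
    split_ifs <;> norm_num
  have h1 := hC.col_ext x y φ (a / 2) (fun z1 z2 => if_congr and_comm rfl rfl) hφ0
    (by positivity) (fun v w hvw => by
    have e1 : ∑ z1 ∈ cN D.N v w, ∑ z2 ∈ cN D.N v w, φ z1 z2 =
        ((cN D.N v w ∩ U).card : ℝ) ^ 2 := by
      show ∑ z1 ∈ cN D.N v w, ∑ z2 ∈ cN D.N v w, (if z1 ∈ U ∧ z2 ∈ U then (1 : ℝ) else 0) = _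
      have e2 : ∀ z1, ∑ z2 ∈ cN D.N v w, (if z1 ∈ U ∧ z2 ∈ U then (1 : ℝ) else 0) =
          if z1 ∈ U then ((cN D.N v w ∩ U).card : ℝ) else 0 := by
        intro z1
        by_cases h : z1 ∈ U
        · rw [if_pos h]
          simp only [h, true_and]
          rw [sum_ite_mem, sum_const, nsmul_eq_mul, mul_one]
        · rw [if_neg h]
          exact sum_eq_zero fun z2 _ => if_neg fun h2 => h h2.1
      rw [sum_congr rfl fun z1 _ => e2 z1, sum_ite_mem, sum_const, nsmul_eq_mul]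
      ring
    rw [e1]
    have := hU v w hvw
    linarith)
  have e3 : ∑ z1, ∑ z2, φ z1 z2 * ∑ l, μ z1 z2 l * (if u l z1 z2 x y ≠ 0 then 1 else 0) =
      ∑ z ∈ U, ∑ z' ∈ U, ∑ l, μ z z' l * (if u l z z' x y ≠ 0 then 1 else 0) := by
    rw [← sum_subset (subset_univ U) fun z1 _ h => ?_]
    · refine sum_congr rfl fun z1 hz1 => ?_
      rw [← sum_subset (subset_univ U) fun z2 _ h => ?_]
      · refine sum_congr rfl fun z2 hz2 => ?_
        show (if z1 ∈ U ∧ z2 ∈ U then (1 : ℝ) else 0) * _ = _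
        rw [if_pos ⟨hz1, hz2⟩, one_mul]
      · show (if z1 ∈ U ∧ z2 ∈ U then (1 : ℝ) else 0) * _ = _
        rw [if_neg fun h2 => h h2.2, zero_mul]
    · refine sum_eq_zero fun z2 _ => ?_
      show (if z1 ∈ U ∧ z2 ∈ U then (1 : ℝ) else 0) * _ = _
      rw [if_neg fun h2 => h h2.1, zero_mul]
  rw [e3] at h1
  linarith

end Cols

namespace Ok

variable {Δ : ℝ} (hD : D.Ok H Kn am)

include hD in
theorem cN_sum_le (hΔ : ∀ v, ((D.N v).card : ℝ) ≤ Δ) (x : V) :
    ∑ y, ((cN D.N x y).card : ℝ) ≤ Δ * Δ := by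
  have h0 : 0 ≤ Δ := (Nat.cast_nonneg _).trans (hΔ x)
  have h1 : ∑ y, ((cN D.N x y).card : ℝ) = ∑ z ∈ D.N x, ((D.N z).card : ℝ) := by
    have h2 : ∀ y, ((cN D.N x y).card : ℝ) = ∑ z ∈ D.N x, if y ∈ D.N z then (1 : ℝ) else 0 := by
      intro y
      rw [← sum_filter, sum_const, nsmul_eq_mul, mul_one]
      congr 2
      unfold cN
      ext z
      simp only [mem_inter, mem_filter]
      exact and_congr_right fun _ => ⟨hD.N_symm z y, hD.N_symm y z⟩
    simp only [h2]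
    rw [sum_comm]
    refine sum_congr rfl fun z _ => ?_
    rw [sum_ite_mem, univ_inter, sum_const, nsmul_eq_mul, mul_one]
  rw [h1]
  calc ∑ z ∈ D.N x, ((D.N z).card : ℝ) ≤ ∑ z ∈ D.N x, Δ := sum_le_sum fun z _ => hΔ z
    _ = ((D.N x).card : ℝ) * Δ := by rw [sum_const, nsmul_eq_mul]
    _ ≤ _ := mul_le_mul_of_nonneg_right (hΔ x) h0

end Ok

/-! ### Supports and degrees -/

/-- Vertices at the end of a walk of length two. -/
noncomputable def S2 (D : SData V) (v : V) : Finset V := (D.N v).biUnion D.N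

/-- Vertices at the end of a walk of length three. -/
noncomputable def S3 (D : SData V) (v : V) : Finset V := (D.S2 v).biUnion D.N

/-- Vertices at the end of a walk of length one, two or three. -/
noncomputable def ball3 (D : SData V) (v : V) : Finset V := D.N v ∪ (D.S2 v ∪ D.S3 v)

/-- Pairs with a common neighbour at the end of a walk of length zero, one or two. -/
noncomputable def prs (D : SData V) (v : V) : Finset (V × V) :=
  D.N v ×ˢ D.N v ∪ ((D.N v).biUnion (fun a => D.N a ×ˢ D.N a) ∪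
    (D.S2 v).biUnion fun a => D.N a ×ˢ D.N a)

theorem card_S2 {Δ : ℝ} (hΔ : ∀ v, ((D.N v).card : ℝ) ≤ Δ) (v : V) :
    ((D.S2 v).card : ℝ) ≤ Δ ^ 2 := by
  have h0 : 0 ≤ Δ := (Nat.cast_nonneg _).trans (hΔ v)
  have h1 : ((D.S2 v).card : ℝ) ≤ ∑ a ∈ D.N v, ((D.N a).card : ℝ) := by
    exact_mod_cast card_biUnion_le
  refine h1.trans ?_
  calc ∑ a ∈ D.N v, ((D.N a).card : ℝ) ≤ ∑ a ∈ D.N v, Δ := sum_le_sum fun a _ => hΔ a
    _ = ((D.N v).card : ℝ) * Δ := by rw [sum_const, nsmul_eq_mul]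
    _ ≤ Δ * Δ := mul_le_mul_of_nonneg_right (hΔ v) h0
    _ = _ := by ring

theorem card_S3 {Δ : ℝ} (hΔ : ∀ v, ((D.N v).card : ℝ) ≤ Δ) (v : V) :
    ((D.S3 v).card : ℝ) ≤ Δ ^ 3 := by
  have h0 : 0 ≤ Δ := (Nat.cast_nonneg _).trans (hΔ v)
  have h1 : ((D.S3 v).card : ℝ) ≤ ∑ a ∈ D.S2 v, ((D.N a).card : ℝ) := by
    exact_mod_cast card_biUnion_le
  refine h1.trans ?_
  calc ∑ a ∈ D.S2 v, ((D.N a).card : ℝ) ≤ ∑ a ∈ D.S2 v, Δ := sum_le_sum fun a _ => hΔ a
    _ = ((D.S2 v).card : ℝ) * Δ := by rw [sum_const, nsmul_eq_mul]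
    _ ≤ Δ ^ 2 * Δ := mul_le_mul_of_nonneg_right (card_S2 hΔ v) h0
    _ = _ := by ring

theorem card_ball3 {Δ : ℝ} (h1 : 1 ≤ Δ) (hΔ : ∀ v, ((D.N v).card : ℝ) ≤ Δ) (v : V) :
    ((D.ball3 v).card : ℝ) ≤ 3 * Δ ^ 3 := by
  have e1 : ((D.ball3 v).card : ℝ) ≤ (D.N v).card + ((D.S2 v).card + (D.S3 v).card) := by
    have := (card_union_le (D.N v) (D.S2 v ∪ D.S3 v)).trans
      (Nat.add_le_add_left (card_union_le (D.S2 v) (D.S3 v)) _)
    exact_mod_cast this
  have e2 := card_S2 hΔ v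
  have e3 := card_S3 hΔ v
  have e4 := hΔ v
  have e5 : Δ ≤ Δ ^ 3 := le_self_pow₀ h1 (by norm_num)
  have e6 : Δ ^ 2 ≤ Δ ^ 3 := pow_le_pow_right₀ h1 (by norm_num)
  linarith

theorem card_prs {Δ : ℝ} (h1 : 1 ≤ Δ) (hΔ : ∀ v, ((D.N v).card : ℝ) ≤ Δ) (v : V) :
    ((D.prs v).card : ℝ) ≤ 3 * Δ ^ 4 := by
  have h0 : (0 : ℝ) ≤ Δ := by linarith
  have hb : ∀ S : Finset V, (((S.biUnion fun a => D.N a ×ˢ D.N a).card : ℕ) : ℝ) ≤
      S.card * Δ ^ 2 := by
    intro S
    have h2 : (((S.biUnion fun a => D.N a ×ˢ D.N a).card : ℕ) : ℝ) ≤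
        ∑ a ∈ S, ((D.N a).card : ℝ) * (D.N a).card := by
      have h3 := card_biUnion_le (s := S) (t := fun a => D.N a ×ˢ D.N a)
      simp only [card_product] at h3
      exact_mod_cast h3
    refine h2.trans ?_
    calc ∑ a ∈ S, ((D.N a).card : ℝ) * (D.N a).card ≤ ∑ a ∈ S, Δ ^ 2 := by
          refine sum_le_sum fun a _ => ?_
          rw [pow_two]
          exact mul_le_mul (hΔ a) (hΔ a) (Nat.cast_nonneg _) h0
      _ = _ := by rw [sum_const, nsmul_eq_mul]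
  have e1 : ((D.prs v).card : ℝ) ≤ (D.N v).card * (D.N v).card +
      ((((D.N v).biUnion fun a => D.N a ×ˢ D.N a).card : ℕ) +
        (((D.S2 v).biUnion fun a => D.N a ×ˢ D.N a).card : ℕ)) := by
    have := (card_union_le (D.N v ×ˢ D.N v) ((D.N v).biUnion (fun a => D.N a ×ˢ D.N a) ∪
      (D.S2 v).biUnion fun a => D.N a ×ˢ D.N a)).trans
      (Nat.add_le_add_left (card_union_le _ _) _)
    rw [card_product] at this
    exact_mod_cast this
  have e2 := hb (D.N v)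
  have e3 := hb (D.S2 v)
  have e4 : ((D.N v).card : ℝ) * (D.N v).card ≤ Δ ^ 4 := by
    calc _ ≤ Δ * Δ := mul_le_mul (hΔ v) (hΔ v) (Nat.cast_nonneg _) h0
      _ = Δ ^ 2 := by ring
      _ ≤ Δ ^ 4 := pow_le_pow_right₀ h1 (by norm_num)
  have e5 : ((D.N v).card : ℝ) * Δ ^ 2 ≤ Δ ^ 4 := by
    calc _ ≤ Δ * Δ ^ 2 := mul_le_mul_of_nonneg_right (hΔ v) (by positivity)
      _ = Δ ^ 3 := by ring
      _ ≤ Δ ^ 4 := pow_le_pow_right₀ h1 (by norm_num)
  have e6 : ((D.S2 v).card : ℝ) * Δ ^ 2 ≤ Δ ^ 4 := by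
    calc _ ≤ Δ ^ 2 * Δ ^ 2 := mul_le_mul_of_nonneg_right (card_S2 hΔ v) (by positivity)
      _ = _ := by ring
  linarith

theorem Ok.mem_ball3_symm (hD : D.Ok H Kn am) {x z : V} (h : x ∈ D.ball3 z) :
    z ∈ D.ball3 x := by
  unfold ball3 S3 S2 at h ⊢
  simp only [mem_union, mem_biUnion] at h ⊢
  rcases h with h | ⟨a, h1, h2⟩ | ⟨q, ⟨a, h1, h2⟩, h3⟩
  · exact Or.inl (hD.N_symm x z h)
  · exact Or.inr (Or.inl ⟨a, hD.N_symm x a h2, hD.N_symm a z h1⟩)
  · exact Or.inr (Or.inr ⟨a, ⟨q, hD.N_symm x q h3, hD.N_symm q a h2⟩, hD.N_symm a z h1⟩)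

/-- The pairs on which a pair with first vertex `z` can have an effect. -/
theorem Cols.mem_prs (hD : D.Ok H Kn am) (hC : D.Cols H η C q0 B τ u0 B0 μ u) {l : L}
    {z z' x y : V} (h : u l z z' x y ≠ 0) : (x, y) ∈ D.prs z := by
  unfold prs S2
  simp only [mem_union, mem_biUnion, mem_product]
  rcases hC.near l z z' x y h with h1 | ⟨a, b, -, h1, -, h2⟩
  · have h3 := h1.2.2.1
    unfold cN at h3
    rw [mem_inter] at h3
    exact Or.inl ⟨hD.N_symm _ _ h3.1, hD.N_symm _ _ h3.2⟩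
  · have h3 : a ∈ D.N z := by
      unfold cN at h1
      rw [mem_inter] at h1
      exact hD.N_symm _ _ h1.1
    rcases h2 with ⟨h4, h5⟩ | ⟨q, q', h4, -, h5, -⟩
    · unfold cN at h4 h5
      rw [mem_inter] at h4 h5
      exact Or.inr (Or.inl ⟨a, h3, h4.1, h5.1⟩)
    · unfold cN at h4 h5
      rw [mem_inter] at h4 h5
      exact Or.inr (Or.inr ⟨q, ⟨a, h3, h4.1⟩, hD.N_symm _ _ h5.1, hD.N_symm _ _ h5.2⟩)

theorem prs_left {x y z : V} (h : (x, y) ∈ D.prs z) : x ∈ D.ball3 z := by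
  unfold prs S2 at h
  unfold ball3 S3 S2
  simp only [mem_union, mem_biUnion, mem_product] at h ⊢
  rcases h with h | ⟨a, h1, h2⟩ | ⟨q, ⟨a, h1, h2⟩, h3⟩
  · exact Or.inl h.1
  · exact Or.inr (Or.inl ⟨a, h1, h2.1⟩)
  · exact Or.inr (Or.inr ⟨q, ⟨a, h1, h2⟩, h3.1⟩)

theorem prs_right {x y z : V} (h : (x, y) ∈ D.prs z) : y ∈ D.ball3 z := by
  unfold prs S2 at h
  unfold ball3 S3 S2
  simp only [mem_union, mem_biUnion, mem_product] at h ⊢
  rcases h with h | ⟨a, h1, h2⟩ | ⟨q, ⟨a, h1, h2⟩, h3⟩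
  · exact Or.inl h.2
  · exact Or.inr (Or.inl ⟨a, h1, h2.2⟩)
  · exact Or.inr (Or.inr ⟨q, ⟨a, h1, h2⟩, h3.2⟩)

theorem Cols.mem_prs' (hD : D.Ok H Kn am) (hC : D.Cols H η C q0 B τ u0 B0 μ u) {l : L}
    {z z' x y : V} (h : u l z z' x y ≠ 0) : (x, y) ∈ D.prs z' :=
  hC.mem_prs hD (z := z') (z' := z) (by rwa [← hC.symm1 l z z'])

end SData

end

end Pool.Agent.AcyG
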