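import Pool.Agent.AcyG.OTabW

/-! # Final bounds for the tests, on the whole vertex set and on a sample (project MP_af9dfb_G,
row OTab) -/

set_option autoImplicit false
set_option linter.unusedSectionVars false

namespace Pool.Agent.AcyG

open Finset
open Pool.Agent.AcyK (Big cN)
open scoped Classical

universe u

variable {V AL : Type u} [Fintype V] [DecidableEq V] [Fintype AL]

namespace GData

variable {D : GData V AL}

theorem ot_C0_Kc (hD : D.Ok) : D.C0 ≤ D.Kc := by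
  have a1 := hD.kap_one
  have a2 := hD.H_one
  have a3 := hD.C0_one
  have a4 : D.C0 ≤ D.kap * D.H * D.C0 :=
    le_mul_of_one_le_left (by linarith) (one_le_mul_of_one_le_of_one_le a1 a2)
  have a7 : (1 : ℝ) ≤ D.kap * D.H * D.C0 := a3.trans a4
  have a8 : D.kap * D.H * D.C0 ≤ (D.kap * D.H * D.C0) ^ 10 := by
    have := pow_le_pow_right₀ a7 (show 1 ≤ 10 by norm_num)
    rwa [pow_one] at this
  have a9 := hD.Kc_ge
  have a10 : 0 ≤ (D.kap * D.H * D.C0) ^ 10 := by positivity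
  nlinarith

theorem ot_num (hD : D.Ok) {c : ℝ} {n : ℕ} (hc : c ≤ 10 ^ 6) (hn : n ≤ 999) :
    c * D.Kc ^ n ≤ D.T := by
  have h1 := os_Kc_ge hD
  have h2 : 0 ≤ D.Kc ^ n := pow_nonneg (by linarith [os_Kc_one hD]) _
  calc c * D.Kc ^ n ≤ D.Kc * D.Kc ^ n := mul_le_mul_of_nonneg_right (hc.trans h1) h2
    _ = D.Kc ^ (n + 1) := by rw [pow_succ]; ring
    _ ≤ D.T := os_Kc_pow_T hD (by omega)

theorem ot_T_mul (hD : D.Ok) {a b : ℝ} {m n p : ℕ} (ha : a ≤ D.T ^ m) (hb : b ≤ D.T ^ n)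
    (hb0 : 0 ≤ b) (hp : m + n ≤ p) : a * b ≤ D.T ^ p := by
  have h0 := os_T_pos hD
  calc a * b ≤ D.T ^ m * D.T ^ n := mul_le_mul ha hb hb0 (pow_nonneg h0.le _)
    _ = D.T ^ (m + n) := by rw [pow_add]
    _ ≤ D.T ^ p := hD.big.pw hp

end GData

namespace GSt

variable {Lb : Type u} [Fintype Lb] {E : GSt V Lb AL}

open GData

/-! ### General lemmas -/

section gen

variable {w : V → V → Lb → ℝ} {c : ℝ} {ω : V → V → ℝ}

theorem gen_row (hE : E.Ok) (hc : 0 ≤ c) (hω : ∀ a b, 0 ≤ ω a b)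
    (hw : ∀ z z' l, |w z z' l| ≤ c * E.Mf ω z z' l) (U : Finset V) {a : ℝ} (ha : 0 ≤ a)
    (hU : ∀ v w, E.cod v w ≤ E.am → ((cN E.N v w ∩ U).card : ℝ) ≤ a) {r : ℝ}
    (hr : ∑ x, ∑ y, ω x y ≤ r) (z : V) :
    ∑ z' ∈ U, ∑ l, E.μ z z' l * |w z z' l| ≤ c * (E.Kc * a * r) := by
  have hK := os_Kc_one hE.dat
  calc _ ≤ ∑ z' ∈ U, ∑ l, E.μ z z' l * (c * E.Mf ω z z' l) :=
        sum_le_sum fun z' _ => sum_le_sum fun l _ =>
          mul_le_mul_of_nonneg_left (hw z z' l) (hE.cols.mu_nonneg z z' l)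
    _ = c * ∑ z' ∈ U, ∑ l, E.μ z z' l * E.Mf ω z z' l := by
        rw [mul_sum]
        refine sum_congr rfl fun z' _ => ?_
        rw [mul_sum]
        exact sum_congr rfl fun l _ => by ring
    _ ≤ c * (E.Kc * a * ∑ x, ∑ y, ω x y) :=
        mul_le_mul_of_nonneg_left (Mf_row_U hE U ha hU hω z) hc
    _ ≤ _ := mul_le_mul_of_nonneg_left (mul_le_mul_of_nonneg_left hr
        (mul_nonneg (by linarith) ha)) hc

theorem gen_tot_U (hE : E.Ok) (hc : 0 ≤ c) (hω : ∀ a b, 0 ≤ ω a b)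
    (hw : ∀ z z' l, |w z z' l| ≤ c * E.Mf ω z z' l) (U : Finset V) {a : ℝ} (ha : 0 ≤ a)
    (hU : ∀ v w, E.cod v w ≤ E.am → ((cN E.N v w ∩ U).card : ℝ) ≤ a) {r : ℝ}
    (hr : ∑ x, ∑ y, ω x y ≤ r) :
    ∑ z ∈ U, ∑ z' ∈ U, ∑ l, E.μ z z' l * |w z z' l| ≤ c * (E.Kc * a ^ 2 * r) := by
  have hK := os_Kc_one hE.dat
  calc _ ≤ ∑ z ∈ U, ∑ z' ∈ U, ∑ l, E.μ z z' l * (c * E.Mf ω z z' l) :=
        sum_le_sum fun z _ => sum_le_sum fun z' _ => sum_le_sum fun l _ =>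
          mul_le_mul_of_nonneg_left (hw z z' l) (hE.cols.mu_nonneg z z' l)
    _ = c * ∑ z ∈ U, ∑ z' ∈ U, ∑ l, E.μ z z' l * E.Mf ω z z' l := by
        rw [mul_sum]
        refine sum_congr rfl fun z _ => ?_
        rw [mul_sum]
        refine sum_congr rfl fun z' _ => ?_
        rw [mul_sum]
        exact sum_congr rfl fun l _ => by ring
    _ ≤ c * (E.Kc * a ^ 2 * ∑ x, ∑ y, ω x y) :=
        mul_le_mul_of_nonneg_left (Mf_tot_U hE U ha hU hω) hc
    _ ≤ _ := mul_le_mul_of_nonneg_left (mul_le_mul_of_nonneg_left hr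
        (mul_nonneg (by linarith) (by positivity))) hc

theorem gen_tot (hE : E.Ok) (hc : 0 ≤ c) (hω : ∀ a b, 0 ≤ ω a b)
    (hw : ∀ z z' l, |w z z' l| ≤ c * E.Mf ω z z' l) {y0 : ℝ}
    (hy : ∑ x, ∑ y, ω x y * E.Y E.s x y ≤ y0) :
    ∑ z, ∑ z', ∑ l, E.μ z z' l * |w z z' l| ≤ c * (4 * E.n1 * E.Kc ^ 2 * y0) := by
  have hK := os_Kc_one hE.dat
  have hn := os_n1_pos hE.dat
  have hC := ot_C0_Kc hE.dat
  have hC1 := hE.dat.C0_one
  have hy0 : 0 ≤ y0 := le_trans (sum_nonneg fun x _ => sum_nonneg fun y _ =>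
    mul_nonneg (hω x y) (os_Y_nonneg hE.dat hE.inv.toSInv x y)) hy
  calc _ ≤ ∑ z, ∑ z', ∑ l, E.μ z z' l * (c * E.Mf ω z z' l) :=
        sum_le_sum fun z _ => sum_le_sum fun z' _ => sum_le_sum fun l _ =>
          mul_le_mul_of_nonneg_left (hw z z' l) (hE.cols.mu_nonneg z z' l)
    _ = c * ∑ z, ∑ z', ∑ l, E.μ z z' l * E.Mf ω z z' l := by
        rw [mul_sum]
        refine sum_congr rfl fun z _ => ?_
        rw [mul_sum]
        refine sum_congr rfl fun z' _ => ?_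
        rw [mul_sum]
        exact sum_congr rfl fun l _ => by ring
    _ ≤ c * (2 * E.n1 * E.Kc * ((E.C0 + 1) * ∑ x, ∑ y, ω x y * E.Y E.s x y)) :=
        mul_le_mul_of_nonneg_left (Mf_tot hE hω) hc
    _ ≤ c * (2 * E.n1 * E.Kc * ((2 * E.Kc) * y0)) := by
        refine mul_le_mul_of_nonneg_left (mul_le_mul_of_nonneg_left ?_ ?_) hc
        · exact mul_le_mul (by linarith) hy (sum_nonneg fun x _ => sum_nonneg fun y _ =>
            mul_nonneg (hω x y) (os_Y_nonneg hE.dat hE.inv.toSInv x y)) (by linarith)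
        · have : 0 ≤ E.Kc := by linarith
          positivity
    _ = _ := by ring

theorem gen_ws (hE : E.Ok) (hc : 0 ≤ c) (hω : ∀ a b, 0 ≤ ω a b)
    (hw : ∀ z z' l, |w z z' l| ≤ c * E.Mf ω z z' l) (U : Finset V) {a f1 : ℝ} (ha : 0 ≤ a)
    (hU : ∀ v w, E.cod v w ≤ E.am → ((cN E.N v w ∩ U).card : ℝ) ≤ a)
    (hF : ∀ x, ((U.filter fun u => E.far x u).card : ℝ) ≤ f1) {m : ℝ} (hm : 0 ≤ m)
    (hM : ∀ z z' l, E.Mf ω z z' l ≤ m) {b0 : ℝ} (z : V)
    (hz : ∑ x ∈ E.N z, ∑ y ∈ E.N z, ω x y ≤ b0) :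
    ∑ z' ∈ U, (⨆ l, |w z z' l|) ≤ c * (a * b0 + f1 * m) := by
  calc _ ≤ ∑ z' ∈ U, c * (E.Kl ω z z' + (if E.far z z' then m else 0)) := by
        refine sum_le_sum fun z' _ => Real.iSup_le (fun l => ?_) ?_
        · exact (hw z z' l).trans (mul_le_mul_of_nonneg_left (Mf_le_Kl hE hω hm hM z z' l) hc)
        · refine mul_nonneg hc (add_nonneg (Kl_nonneg hω z z') ?_)
          split_ifs
          exacts [hm, le_rfl]
    _ = c * ∑ z' ∈ U, (E.Kl ω z z' + (if E.far z z' then m else 0)) := by rw [mul_sum]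
    _ ≤ _ := mul_le_mul_of_nonneg_left (maj_row_U hE U ha hU hF hω hm z hz) hc

end gen

/-! ### One pair -/

variable (E) in
/-- Indicator of one pair. -/
noncomputable def ω1 (x y a b : V) : ℝ := if a = x ∧ b = y ∧ E.nf E.s a b then 1 else 0

theorem ω1_nonneg (x y a b : V) : 0 ≤ E.ω1 x y a b := by
  unfold ω1
  split_ifs <;> norm_num

theorem Mf_ω1 (x y z z' : V) (l : Lb) : E.Mf (E.ω1 x y) z z' l = |E.gu l z z' x y| := by
  unfold Mf ω1
  rw [sum_eq_single x, sum_eq_single y]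
  · by_cases h : E.nf E.s x y
    · rw [if_pos ⟨rfl, rfl, h⟩, one_mul]
    · have h3 : E.gu l z z' x y = 0 := by
        by_contra h4
        exact h (ot_gu_nf h4)
      rw [h3, abs_zero, mul_zero]
  · intro b _ hb
    rw [if_neg fun h => hb h.2.1, zero_mul]
  · intro h
    exact absurd (mem_univ y) h
  · intro a _ ha
    exact sum_eq_zero fun b _ => by rw [if_neg fun h => ha h.1, zero_mul]
  · intro h
    exact absurd (mem_univ x) h

theorem ω1_sum (x y : V) (A B : Finset V) : ∑ a ∈ A, ∑ b ∈ B, E.ω1 x y a b ≤ 1 := by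
  calc _ ≤ ∑ a ∈ A, ∑ b ∈ B, (if a = x then (if b = y then (1 : ℝ) else 0) else 0) := by
        refine sum_le_sum fun a _ => sum_le_sum fun b _ => ?_
        unfold ω1
        by_cases h1 : a = x
        · by_cases h2 : b = y
          · rw [if_pos h1, if_pos h2]
            split_ifs <;> norm_num
          · rw [if_pos h1, if_neg h2, if_neg fun h => h2 h.2.1]
        · rw [if_neg h1, if_neg fun h => h1 h.1]
    _ ≤ ∑ a ∈ A, (if a = x then (1 : ℝ) else 0) := by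
        refine sum_le_sum fun a _ => ?_
        by_cases h1 : a = x
        · simp only [if_pos h1]
          rw [sum_ite_eq' B y]
          split_ifs <;> norm_num
        · simp only [if_neg h1, sum_const_zero]
          exact le_rfl
    _ ≤ 1 := by
        rw [sum_ite_eq' A x]
        split_ifs <;> norm_num

theorem ω1_Y (hE : E.Ok) (x y : V) : ∑ a, ∑ b, E.ω1 x y a b * E.Y E.s a b ≤ E.H := by
  have hH := hE.dat.H_one
  calc _ ≤ ∑ a, ∑ b, E.H * E.ω1 x y a b := by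
        refine sum_le_sum fun a _ => sum_le_sum fun b _ => ?_
        unfold ω1
        by_cases h : a = x ∧ b = y ∧ E.nf E.s a b
        · rw [if_pos h, one_mul, mul_one]
          exact hE.inv.nf_Y a b h.2.2
        · rw [if_neg h, zero_mul, mul_zero]
    _ = E.H * ∑ a, ∑ b, E.ω1 x y a b := by simp only [mul_sum]
    _ ≤ E.H * 1 := mul_le_mul_of_nonneg_left (ω1_sum x y univ univ) (by linarith)
    _ = _ := mul_one _

/-! ### Profiles of the weights -/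

theorem ωX_tot (hE : E.Ok) (x : V) : ∑ a, ∑ b, E.ωX x a b ≤ 2 * E.T ^ 4815 := by
  have h1 := ωx_tot hE x
  have h2 := ω2_tot hE x
  have ha := os_am_pos hE.dat
  have h3 : E.am ^ 2 / 4000 ≤ E.T ^ 4815 := by
    calc E.am ^ 2 / 4000 ≤ E.am ^ 2 := by have := sq_nonneg E.am; linarith
      _ ≤ (E.T ^ 2401) ^ 2 := pow_le_pow_left₀ ha.le hE.dat.am_hi 2
      _ = E.T ^ 4802 := by rw [← pow_mul]
      _ ≤ _ := hE.dat.big.pw (by norm_num)
  unfold ωX
  simp only [sum_add_distrib]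
  linarith

theorem ωX_Y (hE : E.Ok) (x : V) :
    ∑ a, ∑ b, E.ωX x a b * E.Y E.s a b ≤ E.Kc ^ 2 * E.n1 := by
  have h1 := ωx_Y hE x
  have h2 := ω2_Y hE x
  have hK := os_Kc_one hE.dat
  have hn := os_n1_pos hE.dat
  have h3 : E.am ^ 2 / 4000 ≤ E.Kc * E.n1 / 2 := by
    have h4 := hE.dat.par2
    have h5 := mul_le_mul_of_nonneg_right (os_H_Kc hE.dat) hn.le
    have h6 : 0 ≤ E.Kc * E.n1 := mul_nonneg (by linarith) hn.le
    linarith
  have h4 := mul_le_mul_of_nonneg_left h3 (show 0 ≤ E.Kc by linarith)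
  unfold ωX
  simp only [add_mul, sum_add_distrib]
  nlinarith

variable (E) in
/-- The weights of a Gram test. -/
noncomputable def ωg (y y' a b : V) : ℝ := E.ωx y a b + E.ωx y' a b

theorem ωg_nonneg (y y' a b : V) : 0 ≤ E.ωg y y' a b := add_nonneg (ωx_nonneg _ _ _) (ωx_nonneg _ _ _)

theorem ωg_symm (hE : E.Ok) (y y' a b : V) : E.ωg y y' a b = E.ωg y y' b a := by
  unfold ωg
  rw [ωx_symm hE y, ωx_symm hE y']

theorem ωg_loc (y y' v w : V) (h : E.cod v w ≤ E.am) :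
    1 / 2 * ∑ a ∈ cN E.N v w, ∑ b ∈ cN E.N v w, E.ωg y y' a b ≤ E.am := by
  have h1 := ωx_sum_le (E := E) y (cN E.N v w)
  have h2 := ωx_sum_le (E := E) y' (cN E.N v w)
  have h3 : ((cN E.N v w).card : ℝ) ≤ E.am := h
  unfold ωg
  simp only [sum_add_distrib]
  linarith

theorem ωg_tot (hE : E.Ok) (y y' : V) : ∑ a, ∑ b, E.ωg y y' a b ≤ 2 * E.T ^ 4815 := by
  have h1 := ωx_tot hE y
  have h2 := ωx_tot hE y'
  unfold ωg
  simp only [sum_add_distrib]
  linarith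

theorem ωg_Y (hE : E.Ok) (y y' : V) :
    ∑ a, ∑ b, E.ωg y y' a b * E.Y E.s a b ≤ E.Kc ^ 2 * E.n1 := by
  have h1 := ωx_Y hE y
  have h2 := ωx_Y hE y'
  have hK := os_Kc_one hE.dat
  have hn := os_n1_pos hE.dat
  have h3 : E.am ^ 2 / 4000 ≤ E.Kc * E.n1 / 2 := by
    have h4 := hE.dat.par2
    have h5 := mul_le_mul_of_nonneg_right (os_H_Kc hE.dat) hn.le
    have h6 : 0 ≤ E.Kc * E.n1 := mul_nonneg (by linarith) hn.le
    linarith
  have h4 := mul_le_mul_of_nonneg_left h3 (show 0 ≤ E.Kc by linarith)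
  unfold ωg
  simp only [add_mul, sum_add_distrib]
  nlinarith

theorem ωg_nb (hE : E.Ok) (y y' z : V) :
    ∑ a ∈ E.N z, ∑ b ∈ E.N z, E.ωg y y' a b ≤ E.T ^ 4803 := by
  have h1 := ωx_sum_le (E := E) y (E.N z)
  have h2 := ωx_sum_le (E := E) y' (E.N z)
  have h3 : ((E.N z).card : ℝ) ≤ E.T ^ 3600 := hE.dat.deg z
  have h4 : 2 * E.T ^ 3600 ≤ E.T ^ 4803 := by
    have h5 : E.T ^ 3601 ≤ E.T ^ 4803 := hE.dat.big.pw (by norm_num)
    rw [pow_succ E.T 3600, mul_comm] at h5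
    have h6 := mul_le_mul_of_nonneg_right (show (2 : ℝ) ≤ E.T by
      have := os_T_ge hE.dat; linarith) (pow_nonneg (os_T_pos hE.dat).le 3600)
    linarith
  unfold ωg
  simp only [sum_add_distrib]
  linarith

theorem ωa_loc (hE : E.Ok) (α : AL) (v w : V) (h : E.cod v w ≤ E.am) :
    1 / 2 * ∑ a ∈ cN E.N v w, ∑ b ∈ cN E.N v w, E.ωa α a b ≤ E.s1 α := by
  have h0 : (0 : ℝ) ≤ ∑ a ∈ cN E.N v w, ∑ b ∈ cN E.N v w, E.a α a b :=
    sum_nonneg fun a _ => sum_nonneg fun b _ => hE.dat.a_nonneg α a b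
  have h1 : ∑ a ∈ cN E.N v w, ∑ b ∈ cN E.N v w, E.ωa α a b ≤
      ∑ a ∈ cN E.N v w, ∑ b ∈ cN E.N v w, E.a α a b := by
    refine sum_le_sum fun a _ => sum_le_sum fun b _ => ?_
    have := hE.dat.a_nonneg α a b
    unfold ωa
    split_ifs
    · linarith
    · exact this
  have := hE.dat.a_ext α v w h
  linarith

theorem ωa_tot (hE : E.Ok) (α : AL) : ∑ a, ∑ b, E.ωa α a b ≤ E.La α := by
  refine le_trans ?_ (hE.dat.a_tot α)
  rw [mul_sum]
  refine sum_le_sum fun a _ => ?_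
  rw [mul_sum]
  refine sum_le_sum fun b _ => ?_
  have := hE.dat.a_nonneg α a b
  unfold ωa
  split_ifs
  · exact le_rfl
  · linarith

theorem ot_La_nonneg (hE : E.Ok) (α : AL) : 0 ≤ E.La α := by
  refine le_trans ?_ (hE.dat.a_tot α)
  exact mul_nonneg (by norm_num) (sum_nonneg fun a _ => sum_nonneg fun b _ =>
    hE.dat.a_nonneg α a b)

theorem ωa_Y (hE : E.Ok) (α : AL) :
    ∑ a, ∑ b, E.ωa α a b * E.Y E.s a b ≤ E.Kc * E.La α := by
  have hH := hE.dat.H_one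
  have hK := os_H_Kc hE.dat
  calc _ ≤ ∑ a, ∑ b, E.H * E.ωa α a b := by
        refine sum_le_sum fun a _ => sum_le_sum fun b _ => ?_
        by_cases h : E.nf E.s a b
        · rw [mul_comm]
          exact mul_le_mul_of_nonneg_right (hE.inv.nf_Y a b h) (ωa_nonneg hE α a b)
        · have : E.ωa α a b = 0 := if_neg h
          rw [this, zero_mul, mul_zero]
    _ = E.H * ∑ a, ∑ b, E.ωa α a b := by simp only [mul_sum]
    _ ≤ E.H * E.La α := mul_le_mul_of_nonneg_left (ωa_tot hE α) (by linarith)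
    _ ≤ _ := mul_le_mul_of_nonneg_right hK (ot_La_nonneg hE α)

theorem ωa_nb (hE : E.Ok) (α : AL) (z : V) :
    ∑ a ∈ E.N z, ∑ b ∈ E.N z, E.ωa α a b ≤ E.T ^ 2420 * E.s1 α := by
  have h0 := hE.dat.s0_pos α
  have hT := os_T_pos hE.dat
  have hdeg : ((E.N z).card : ℝ) ≤ E.T ^ 3600 := hE.dat.deg z
  have h1 : ∀ a b, E.ωa α a b ≤ E.s0 α := by
    intro a b
    have := hE.dat.a_nonneg α a b
    have := hE.dat.a_le α a b
    unfold ωa
    split_ifs <;> linarith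
  calc _ ≤ ∑ a ∈ E.N z, ∑ b ∈ E.N z, E.s0 α :=
        sum_le_sum fun a _ => sum_le_sum fun b _ => h1 a b
    _ = ((E.N z).card : ℝ) * ((E.N z).card : ℝ) * E.s0 α := by
        rw [sum_const, sum_const, nsmul_eq_mul, nsmul_eq_mul]
        ring
    _ ≤ E.T ^ 3600 * E.T ^ 3600 * E.s0 α :=
        mul_le_mul_of_nonneg_right (mul_le_mul hdeg hdeg
          (Nat.cast_nonneg _) (pow_nonneg hT.le _)) h0.le
    _ = E.T ^ 2420 * (E.T ^ 4780 * E.s0 α) := by
        rw [← pow_add, ← mul_assoc, ← pow_add]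
    _ ≤ E.T ^ 2420 * E.s1 α := mul_le_mul_of_nonneg_left (hE.dat.num5 α) (pow_nonneg hT.le _)

/-! ### Maxima -/

theorem ωX_max (hE : E.Ok) (x z z' : V) (l : Lb) :
    E.Mf (E.ωX x) z z' l ≤ 2 * E.Kc ^ 2 * E.am := by
  have ha := os_am_pos hE.dat
  have hH := hE.dat.H_one
  have hK := os_Kc_one hE.dat
  have h1 := Mf_max hE (ωX_symm hE x) (ωX_nonneg hE x) (a := E.am * E.H) (by positivity)
    (fun v w h => ωX_loc hE x v w h) z z' l
  refine h1.trans ?_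
  calc 2 * E.Kc * (E.am * E.H) ≤ 2 * E.Kc * (E.am * E.Kc) := by
        refine mul_le_mul_of_nonneg_left ?_ (by linarith)
        exact mul_le_mul_of_nonneg_left (os_H_Kc hE.dat) ha.le
    _ = _ := by ring

theorem ωg_max (hE : E.Ok) (y y' z z' : V) (l : Lb) :
    E.Mf (E.ωg y y') z z' l ≤ 2 * E.Kc ^ 2 * E.am := by
  have ha := os_am_pos hE.dat
  have hK := os_Kc_one hE.dat
  have h1 := Mf_max hE (ωg_symm hE y y') (ωg_nonneg y y') (a := E.am) ha.le
    (fun v w h => ωg_loc y y' v w h) z z' l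
  refine h1.trans ?_
  have h2 : E.Kc ≤ E.Kc ^ 2 := le_self_pow₀ hK (by norm_num)
  have := mul_le_mul_of_nonneg_right h2 ha.le
  linarith

theorem ωa_max (hE : E.Ok) (α : AL) (z z' : V) (l : Lb) :
    E.Mf (E.ωa α) z z' l ≤ 2 * E.Kc * E.s1 α :=
  Mf_max hE (ωa_symm hE α) (ωa_nonneg hE α) (hE.dat.s1_pos α).le
    (fun v w h => ωa_loc hE α v w h) z z' l

theorem ω1_max (hE : E.Ok) (x y z z' : V) (l : Lb) : E.Mf (E.ω1 x y) z z' l ≤ E.Kc := by
  rw [Mf_ω1]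
  exact (ot_gu_Bx hE l z z' x y).trans (ot_Bx_Kc hE)

/-! ### Symmetry and support of the tests -/

theorem W_symm (hE : E.Ok) (i : Tst V AL) (z z' : V) (l : Lb) :
    E.W i z z' l = E.W i z' z l := by
  have h1 := ot_ga_symm1 hE l z z'
  have h2 := ot_gu_symm1 hE l z z'
  have h3 := os_chi_symm hE.dat hE.inv.toSInv z z'
  rcases i with ⟨i, x⟩ | ⟨i, x, y⟩ | ⟨i, y, y'⟩ | ⟨i, α⟩
  · show E.Wx i.down x z z' l = E.Wx i.down x z' z l
    unfold Wx
    simp only [h1, h2]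
  · show E.Wp i.down x y z z' l = E.Wp i.down x y z' z l
    unfold Wp
    simp only [h1]
  · show E.Wg i.down y y' z z' l = E.Wg i.down y y' z' z l
    unfold Wg
    simp only [h1]
  · show E.Wl i.down α z z' l = E.Wl i.down α z' z l
    unfold Wl
    simp only [h1]
    have h4 : E.chi E.s z z' = E.chi E.s z' z := h3
    rw [h4, hE.dat.a_symm α z z']

end GSt

end Pool.Agent.AcyG
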