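import Pool.Agent.AcyG.OTabF

/-! # The table of the tests (project MP_af9dfb_G, row OTab) -/

set_option autoImplicit false
set_option linter.unusedSectionVars false

namespace Pool.Agent.AcyG

open Finset
open Pool.Agent.AcyK (Big cN)
open scoped Classical

universe u

variable {V AL : Type u} [Fintype V] [DecidableEq V] [Fintype AL]

namespace GSt

variable {Lb : Type u} [Fintype Lb] {E : GSt V Lb AL}

open GData

/-! ### Masses of the labels -/

theorem ot_mu_sum (hE : E.Ok) (z z' : V) : ∑ l, E.μ z z' l ≤ 1 :=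
  (hE.cols.mu_sum z z').le

theorem Wl2_le (hE : E.Ok) (α : AL) (z z' : V) (l : Lb) : |E.Wl 2 α z z' l| ≤ E.a α z z' := by
  have h := hE.dat.a_nonneg α z z'
  have e : E.Wl 2 α z z' l = if E.chi E.s z z' ≠ 0 then E.a α z z' else 0 := by
    unfold Wl
    rw [if_neg (by decide), if_neg (by decide)]
  rw [e]
  split_ifs
  · rw [abs_of_nonneg h]
  · rw [abs_zero]; exact h

theorem Wl2_mean (hE : E.Ok) (α : AL) (z z' : V) :
    ∑ l, E.μ z z' l * |E.Wl 2 α z z' l| ≤ E.a α z z' := by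
  have h := hE.dat.a_nonneg α z z'
  calc _ ≤ ∑ l, E.μ z z' l * E.a α z z' := sum_le_sum fun l _ =>
        mul_le_mul_of_nonneg_left (Wl2_le hE α z z' l) (hE.cols.mu_nonneg z z' l)
    _ = (∑ l, E.μ z z' l) * E.a α z z' := by rw [sum_mul]
    _ ≤ 1 * E.a α z z' := mul_le_mul_of_nonneg_right (ot_mu_sum hE z z') h
    _ = _ := one_mul _

theorem fin3_cases (i : Fin 3) (h : i ≠ 2) : i = 0 ∨ i = 1 := by
  fin_cases i
  · exact Or.inl rfl
  · exact Or.inr rfl
  · exact absurd rfl h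

/-! ### Majorants in the uniform shape -/

theorem Wx_mj (hE : E.Ok) (i : Fin 8) (x z z' : V) (l : Lb) :
    |E.Wx i x z z' l| ≤ (2 * E.Kc ^ 3) * E.Mf (E.ωX x) z z' l := Wx_maj hE i x z z' l

theorem Wp_mj (i : Fin 2) (x y z z' : V) (l : Lb) :
    |E.Wp i x y z z' l| ≤ 1 * E.Mf (E.ω1 x y) z z' l := by
  rw [Mf_ω1, one_mul]
  exact Wp_maj i x y z z' l

theorem Wg_mj (hE : E.Ok) (i : Fin 2) (y y' z z' : V) (l : Lb) :
    |E.Wg i y y' z z' l| ≤ E.Kc ^ 3 * E.Mf (E.ωg y y') z z' l := Wg_maj hE i y y' z z' l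

theorem W_chi (hE : E.Ok) {i : Tst V AL} {z z' : V} {l : Lb} (h : E.W i z z' l ≠ 0) :
    E.chi E.s z z' ≠ 0 := by
  have key : ∀ {ω : V → V → ℝ} {c : ℝ} {w : ℝ}, w ≠ 0 → |w| ≤ c * E.Mf ω z z' l →
      E.chi E.s z z' ≠ 0 := by
    intro ω c w hw h1
    have h2 : E.Mf ω z z' l ≠ 0 := by
      intro h3
      rw [h3, mul_zero] at h1
      exact hw (abs_eq_zero.1 (le_antisymm h1 (abs_nonneg _)))
    obtain ⟨a, b, -, h3, -⟩ := Mf_supp hE h2
    exact ot_gu_chi hE h3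
  rcases i with ⟨i, x⟩ | ⟨i, x, y⟩ | ⟨i, y, y'⟩ | ⟨i, α⟩
  · exact key h (Wx_mj hE i.down x z z' l)
  · exact key h (Wp_mj i.down x y z z' l)
  · exact key h (Wg_mj hE i.down y y' z z' l)
  · by_cases hi : i.down = 2
    · have h1 : E.Wl i.down α z z' l ≠ 0 := h
      rw [hi] at h1
      unfold Wl at h1
      rw [if_neg (by decide), if_neg (by decide)] at h1
      by_contra h2
      exact h1 (if_neg (not_not.2 h2))
    · exact key h (Wl_maj hE i.down hi α z z' l)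

/-! ### Maxima -/

theorem Wx_le (hE : E.Ok) (i : Fin 8) (x z z' : V) (l : Lb) :
    |E.Wx i x z z' l| ≤ E.T ^ 2403 := by
  have ha := os_am_pos hE.dat
  have hK := os_Kc_one hE.dat
  have h1 := (Wx_mj hE i x z z' l).trans
    (mul_le_mul_of_nonneg_left (ωX_max hE x z z' l) (by positivity))
  refine h1.trans ?_
  calc 2 * E.Kc ^ 3 * (2 * E.Kc ^ 2 * E.am) = (4 * E.Kc ^ 5) * E.am := by ring
    _ ≤ E.T ^ 2403 := ot_T_mul hE.dat (m := 1) (n := 2401)
        (by rw [pow_one]; exact ot_num hE.dat (by norm_num) (by norm_num)) hE.dat.am_hi ha.le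
        (by norm_num)

theorem Wp_le (hE : E.Ok) (i : Fin 2) (x y z z' : V) (l : Lb) :
    |E.Wp i x y z z' l| ≤ E.T :=
  (Wp_maj i x y z z' l).trans ((ot_gu_Bx hE l z z' x y).trans
    ((ot_Bx_Kc hE).trans (os_Kc_T hE.dat)))

theorem Wg_le (hE : E.Ok) (i : Fin 2) (y y' z z' : V) (l : Lb) :
    |E.Wg i y y' z z' l| ≤ E.T ^ 2403 := by
  have ha := os_am_pos hE.dat
  have hK := os_Kc_one hE.dat
  have h1 := (Wg_mj hE i y y' z z' l).trans
    (mul_le_mul_of_nonneg_left (ωg_max hE y y' z z' l) (by positivity))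
  refine h1.trans ?_
  calc E.Kc ^ 3 * (2 * E.Kc ^ 2 * E.am) = (2 * E.Kc ^ 5) * E.am := by ring
    _ ≤ E.T ^ 2403 := ot_T_mul hE.dat (m := 1) (n := 2401)
        (by rw [pow_one]; exact ot_num hE.dat (by norm_num) (by norm_num)) hE.dat.am_hi ha.le
        (by norm_num)

theorem Wl_le (hE : E.Ok) (i : Fin 3) (hi : i ≠ 2) (α : AL) (z z' : V) (l : Lb) :
    |E.Wl i α z z' l| ≤ E.T * E.s1 α := by
  have hK := os_Kc_one hE.dat
  have hs := hE.dat.s1_pos α
  have h1 := (Wl_maj hE i hi α z z' l).trans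
    (mul_le_mul_of_nonneg_left (ωa_max hE α z z' l) (by linarith))
  refine h1.trans ?_
  calc E.Kc * (2 * E.Kc * E.s1 α) = (2 * E.Kc ^ 2) * E.s1 α := by ring
    _ ≤ E.T * E.s1 α :=
        mul_le_mul_of_nonneg_right (ot_num hE.dat (by norm_num) (by norm_num)) hs.le

theorem W_le (hE : E.Ok) (i : Tst V AL) (z z' : V) (l : Lb) : |E.W i z z' l| ≤ E.wm i := by
  rcases i with ⟨i, x⟩ | ⟨i, x, y⟩ | ⟨i, y, y'⟩ | ⟨i, α⟩
  · exact Wx_le hE i.down x z z' l
  · exact Wp_le hE i.down x y z z' l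
  · exact Wg_le hE i.down y y' z z' l
  · show |E.Wl i.down α z z' l| ≤ if i.down = 2 then E.s0 α else E.T * E.s1 α
    by_cases hi : i.down = 2
    · rw [if_pos hi, hi]
      exact (Wl2_le hE α z z' l).trans (hE.dat.a_le α z z')
    · rw [if_neg hi]
      exact Wl_le hE i.down hi α z z' l

theorem wm_pos (hE : E.Ok) (i : Tst V AL) : 0 < E.wm i := by
  have hT := os_T_pos hE.dat
  rcases i with ⟨i, x⟩ | ⟨i, x, y⟩ | ⟨i, y, y'⟩ | ⟨i, α⟩
  · exact pow_pos hT _
  · exact hT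
  · exact pow_pos hT _
  · show 0 < if i.down = 2 then E.s0 α else E.T * E.s1 α
    split_ifs
    · exact hE.dat.s0_pos α
    · exact mul_pos hT (hE.dat.s1_pos α)

/-! ### Rows -/

section rows

variable (hE : E.Ok)
include hE

theorem ot_univ_card (v w : V) (h : E.cod v w ≤ E.am) :
    ((cN E.N v w ∩ univ).card : ℝ) ≤ E.am := by
  rw [inter_univ]
  exact h

theorem Wx_row (i : Fin 8) (x z : V) :
    ∑ z', ∑ l, E.μ z z' l * |E.Wx i x z z' l| ≤ E.T ^ 7220 := by
  have ha := os_am_pos hE.dat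
  have hK := os_Kc_one hE.dat
  have hT := os_T_pos hE.dat
  refine (gen_row hE (by positivity) (ωX_nonneg hE x) (fun z z' l => Wx_mj hE i x z z' l) univ
    ha.le (ot_univ_card hE) (ωX_tot hE x) z).trans ?_
  calc 2 * E.Kc ^ 3 * (E.Kc * E.am * (2 * E.T ^ 4815)) = (4 * E.Kc ^ 4) * (E.am * E.T ^ 4815) := by
        ring
    _ ≤ E.T ^ 7220 := ot_T_mul hE.dat (m := 1) (n := 7216)
        (by rw [pow_one]; exact ot_num hE.dat (by norm_num) (by norm_num))
        (ot_T_mul hE.dat hE.dat.am_hi le_rfl (by positivity) (by norm_num)) (by positivity)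
        (by norm_num)

theorem Wp_row (i : Fin 2) (x y z : V) :
    ∑ z', ∑ l, E.μ z z' l * |E.Wp i x y z z' l| ≤ E.T ^ 2403 := by
  have ha := os_am_pos hE.dat
  have hK := os_Kc_one hE.dat
  refine (gen_row hE zero_le_one (ω1_nonneg x y) (fun z z' l => Wp_mj i x y z z' l) univ
    ha.le (ot_univ_card hE) (ω1_sum x y univ univ) z).trans ?_
  rw [one_mul, mul_one]
  exact ot_T_mul hE.dat (m := 1) (n := 2401) (by rw [pow_one]; exact os_Kc_T hE.dat)
    hE.dat.am_hi ha.le (by norm_num)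

theorem Wg_row (i : Fin 2) (y y' z : V) :
    ∑ z', ∑ l, E.μ z z' l * |E.Wg i y y' z z' l| ≤ E.T ^ 7220 := by
  have ha := os_am_pos hE.dat
  have hK := os_Kc_one hE.dat
  have hT := os_T_pos hE.dat
  refine (gen_row hE (by positivity) (ωg_nonneg y y') (fun z z' l => Wg_mj hE i y y' z z' l) univ
    ha.le (ot_univ_card hE) (ωg_tot hE y y') z).trans ?_
  calc E.Kc ^ 3 * (E.Kc * E.am * (2 * E.T ^ 4815)) = (2 * E.Kc ^ 4) * (E.am * E.T ^ 4815) := by
        ring
    _ ≤ E.T ^ 7220 := ot_T_mul hE.dat (m := 1) (n := 7216)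
        (by rw [pow_one]; exact ot_num hE.dat (by norm_num) (by norm_num))
        (ot_T_mul hE.dat hE.dat.am_hi le_rfl (by positivity) (by norm_num)) (by positivity)
        (by norm_num)

theorem Wl_row (i : Fin 3) (hi : i ≠ 2) (α : AL) (z : V) :
    ∑ z', ∑ l, E.μ z z' l * |E.Wl i α z z' l| ≤ E.T ^ 2404 * E.La α := by
  have ha := os_am_pos hE.dat
  have hK := os_Kc_one hE.dat
  have hT := os_T_pos hE.dat
  refine (gen_row hE (by linarith) (ωa_nonneg hE α) (fun z z' l => Wl_maj hE i hi α z z' l) univ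
    ha.le (ot_univ_card hE) (ωa_tot hE α) z).trans ?_
  calc E.Kc * (E.Kc * E.am * E.La α) = (1 * E.Kc ^ 2) * E.am * E.La α := by ring
    _ ≤ E.T ^ 2404 * E.La α := by
        refine mul_le_mul_of_nonneg_right ?_ (ot_La_nonneg hE α)
        exact ot_T_mul hE.dat (m := 1) (n := 2401)
          (by rw [pow_one]; exact ot_num hE.dat (by norm_num) (by norm_num)) hE.dat.am_hi ha.le
          (by norm_num)

theorem W_row (i : Tst V AL) (z : V) :
    ∑ z', ∑ l, E.μ z z' l * |E.W i z z' l| ≤ E.dV i := by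
  rcases i with ⟨i, x⟩ | ⟨i, x, y⟩ | ⟨i, y, y'⟩ | ⟨i, α⟩
  · exact Wx_row hE i.down x z
  · exact Wp_row hE i.down x y z
  · exact Wg_row hE i.down y y' z
  · show ∑ z', ∑ l, E.μ z z' l * |E.Wl i.down α z z' l| ≤
      if i.down = 2 then E.ar α else E.T ^ 2404 * E.La α
    by_cases hi : i.down = 2
    · rw [if_pos hi, hi]
      exact (sum_le_sum fun z' _ => Wl2_mean hE α z z').trans (hE.dat.a_row α z)
    · rw [if_neg hi]
      exact Wl_row hE i.down hi α z

/-! ### Totals -/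

theorem Wx_tot (i : Fin 8) (x : V) :
    ∑ z, ∑ z', ∑ l, E.μ z z' l * |E.Wx i x z z' l| ≤ E.T * E.n1 ^ 2 := by
  have hK := os_Kc_one hE.dat
  have hn := os_n1_pos hE.dat
  refine (gen_tot hE (by positivity) (ωX_nonneg hE x) (fun z z' l => Wx_mj hE i x z z' l)
    (ωX_Y hE x)).trans ?_
  calc 2 * E.Kc ^ 3 * (4 * E.n1 * E.Kc ^ 2 * (E.Kc ^ 2 * E.n1)) =
        (8 * E.Kc ^ 7) * E.n1 ^ 2 := by ring
    _ ≤ E.T * E.n1 ^ 2 := mul_le_mul_of_nonneg_right
        (ot_num hE.dat (by norm_num) (by norm_num)) (by positivity)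

theorem Wp_tot (i : Fin 2) (x y : V) :
    ∑ z, ∑ z', ∑ l, E.μ z z' l * |E.Wp i x y z z' l| ≤ E.T * E.n1 := by
  have hK := os_Kc_one hE.dat
  have hn := os_n1_pos hE.dat
  refine (gen_tot hE zero_le_one (ω1_nonneg x y) (fun z z' l => Wp_mj i x y z z' l)
    ((ω1_Y hE x y).trans (os_H_Kc hE.dat))).trans ?_
  calc 1 * (4 * E.n1 * E.Kc ^ 2 * E.Kc) = (4 * E.Kc ^ 3) * E.n1 := by ring
    _ ≤ E.T * E.n1 := mul_le_mul_of_nonneg_right
        (ot_num hE.dat (by norm_num) (by norm_num)) hn.le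

theorem Wg_tot (i : Fin 2) (y y' : V) :
    ∑ z, ∑ z', ∑ l, E.μ z z' l * |E.Wg i y y' z z' l| ≤ E.T * E.n1 ^ 2 := by
  have hK := os_Kc_one hE.dat
  have hn := os_n1_pos hE.dat
  refine (gen_tot hE (by positivity) (ωg_nonneg y y') (fun z z' l => Wg_mj hE i y y' z z' l)
    (ωg_Y hE y y')).trans ?_
  calc E.Kc ^ 3 * (4 * E.n1 * E.Kc ^ 2 * (E.Kc ^ 2 * E.n1)) =
        (4 * E.Kc ^ 7) * E.n1 ^ 2 := by ring
    _ ≤ E.T * E.n1 ^ 2 := mul_le_mul_of_nonneg_right
        (ot_num hE.dat (by norm_num) (by norm_num)) (by positivity)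

theorem Wg1_nonneg (y y' z z' : V) (l : Lb) : 0 ≤ E.Wg 1 y y' z z' l := by
  have hI := hE.inv.toSInv
  unfold Wg
  rw [if_neg (by decide)]
  exact sum_nonneg fun u _ => mul_nonneg (mul_nonneg (os_X_nonneg hI u y) (os_X_nonneg hI u y'))
    (abs_nonneg _)

/-- The mean of the second Gram test, through `gbI`. -/
theorem Wg1_tot (y y' : V) :
    ∑ z, ∑ z', ∑ l, E.μ z z' l * |E.Wg 1 y y' z z' l| ≤
      E.T * (E.n1 * E.R) * E.gbI y y' := by
  have hK := os_Kc_one hE.dat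
  have hn := os_n1_pos hE.dat
  have hR := os_R_pos hE.dat
  have hI := hE.inv.toSInv
  have hm0 : ∀ z z', 0 ≤ E.mn (E.Wg 1 y y') z z' := fun z z' =>
    sum_nonneg fun l _ => mul_nonneg (hE.cols.mu_nonneg z z' l) (Wg1_nonneg hE y y' z z' l)
  have h1 : ∀ z z', ∑ l, E.μ z z' l * |E.Wg 1 y y' z z' l| ≤
      E.Kc * (E.chi E.s z z' * E.mn (E.Wg 1 y y') z z') := by
    intro z z'
    have e1 : ∑ l, E.μ z z' l * |E.Wg 1 y y' z z' l| = E.mn (E.Wg 1 y y') z z' := by
      unfold mn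
      exact sum_congr rfl fun l _ => by rw [abs_of_nonneg (Wg1_nonneg hE y y' z z' l)]
    rw [e1]
    by_cases hz : E.chi E.s z z' = 0
    · have e2 : E.mn (E.Wg 1 y y') z z' = 0 := by
        unfold mn
        refine sum_eq_zero fun l _ => ?_
        have : E.Wg 1 y y' z z' l = 0 := by
          by_contra h
          exact W_chi hE (i := Sum.inr (Sum.inr (Sum.inl (⟨1⟩, y, y')))) h hz
        rw [this, mul_zero]
      rw [e2, mul_zero, mul_zero]
    · have h2 := ot_chi_lo hE.dat hI hE.j_lt.le hz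
      have h3 := mul_le_mul_of_nonneg_right h2 (hm0 z z')
      have h4 := mul_le_mul_of_nonneg_left h3 (show 0 ≤ E.Kc by linarith)
      rw [← mul_assoc, mul_one_div_cancel (by linarith), one_mul] at h4
      exact h4
  calc _ ≤ ∑ z, ∑ z', E.Kc * (E.chi E.s z z' * E.mn (E.Wg 1 y y') z z') :=
        sum_le_sum fun z _ => sum_le_sum fun z' _ => h1 z z'
    _ = E.Kc * ∑ z, ∑ z', E.chi E.s z z' * E.mn (E.Wg 1 y y') z z' := by simp only [mul_sum]
    _ = (2 * E.Kc ^ 1) * ((E.n1 * E.R) * E.gbI y y') := by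
        unfold gbI prd
        field_simp
    _ ≤ E.T * ((E.n1 * E.R) * E.gbI y y') := by
        refine mul_le_mul_of_nonneg_right (ot_num hE.dat (by norm_num) (by norm_num)) ?_
        refine mul_nonneg (by positivity) ?_
        unfold gbI prd
        refine div_nonneg (mul_nonneg (by positivity) ?_) hR.le
        exact sum_nonneg fun z _ => sum_nonneg fun z' _ => mul_nonneg (os_chi_nonneg hI z z')
          (hm0 z z')
    _ = _ := by ring

theorem Wl_tot (i : Fin 3) (hi : i ≠ 2) (α : AL) :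
    ∑ z, ∑ z', ∑ l, E.μ z z' l * |E.Wl i α z z' l| ≤ E.T * E.n1 * E.La α := by
  have hK := os_Kc_one hE.dat
  have hn := os_n1_pos hE.dat
  refine (gen_tot hE (by linarith) (ωa_nonneg hE α) (fun z z' l => Wl_maj hE i hi α z z' l)
    (ωa_Y hE α)).trans ?_
  calc E.Kc * (4 * E.n1 * E.Kc ^ 2 * (E.Kc * E.La α)) =
        (4 * E.Kc ^ 4) * (E.n1 * E.La α) := by ring
    _ ≤ E.T * (E.n1 * E.La α) := mul_le_mul_of_nonneg_right
        (ot_num hE.dat (by norm_num) (by norm_num)) (mul_nonneg hn.le (ot_La_nonneg hE α))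
    _ = _ := by ring

theorem W_tot (i : Tst V AL) :
    ∑ z, ∑ z', ∑ l, E.μ z z' l * |E.W i z z' l| ≤ E.tV i := by
  rcases i with ⟨i, x⟩ | ⟨i, x, y⟩ | ⟨i, y, y'⟩ | ⟨i, α⟩
  · exact Wx_tot hE i.down x
  · exact Wp_tot hE i.down x y
  · show ∑ z, ∑ z', ∑ l, E.μ z z' l * |E.Wg i.down y y' z z' l| ≤
      if i.down = 0 then E.T * E.n1 ^ 2 else E.T * (E.n1 * E.R) * E.gbI y y'
    by_cases hi : i.down = 0
    · rw [if_pos hi]
      exact Wg_tot hE i.down y y'
    · rw [if_neg hi]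
      have h1 : i.down = 1 := by
        have := i.down.isLt
        ext
        have h2 : i.down.val ≠ 0 := fun h => hi (Fin.ext h)
        have h3 : (1 : Fin 2).val = 1 := rfl
        omega
      rw [h1]
      exact Wg1_tot hE y y'
  · show ∑ z, ∑ z', ∑ l, E.μ z z' l * |E.Wl i.down α z z' l| ≤
      if i.down = 2 then 4 * E.T * E.La α else E.T * E.n1 * E.La α
    by_cases hi : i.down = 2
    · rw [if_pos hi, hi]
      have h1 := (sum_le_sum fun z (_ : z ∈ univ) => sum_le_sum fun z' (_ : z' ∈ univ) =>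
        Wl2_mean hE α z z')
      have h2 := hE.dat.a_tot α
      have h3 := ot_La_nonneg hE α
      have h4 : E.La α ≤ E.T * E.La α := le_mul_of_one_le_left h3 (by
        have := os_T_ge hE.dat; linarith)
      linarith
    · rw [if_neg hi]
      exact Wl_tot hE i.down hi α

end rows

end GSt

end Pool.Agent.AcyG
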