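import Pool.Agent.AcyG.OTabG

/-! # Label-independent majorants, supports and degrees of the tests (project MP_af9dfb_G, row
OTab) -/

set_option autoImplicit false
set_option linter.unusedSectionVars false

namespace Pool.Agent.AcyG

open Finset
open Pool.Agent.AcyK (Big cN)
open scoped Classical

universe u

variable {V AL : Type u} [Fintype V] [DecidableEq V] [Fintype AL]

namespace GData

variable {D : GData V AL}

theorem ot_two (hD : D.Ok) (n : ℕ) : 2 * D.T ^ n ≤ D.T ^ (n + 1) := by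
  rw [pow_succ, mul_comm]
  have h1 := os_T_ge hD
  exact mul_le_mul_of_nonneg_left (by linarith) (pow_nonneg (os_T_pos hD).le _)

end GData

namespace GSt

variable {Lb : Type u} [Fintype Lb] {E : GSt V Lb AL}

open GData

section ws

variable (hE : E.Ok)
include hE

theorem Wx_ws (i : Fin 8) (x z : V) :
    ∑ z', (⨆ l, |E.Wx i x z z' l|) ≤ E.T ^ 4870 * E.T ^ 2403 := by
  have ha := os_am_pos hE.dat
  have hK := os_Kc_one hE.dat
  have hT := os_T_pos hE.dat
  refine (gen_ws hE (by positivity) (ωX_nonneg hE x) (fun z z' l => Wx_mj hE i x z z' l) univ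
    ha.le (ot_univ_card hE) (ot_far_card hE.dat) (by positivity) (ωX_max hE x) z
    (ωX_nb hE x z)).trans ?_
  have h1 : E.am * E.T ^ 4803 ≤ E.T ^ 7217 :=
    ot_T_mul hE.dat hE.dat.am_hi le_rfl (by positivity) (by norm_num)
  have h2 : 2 * E.Kc ^ 2 * E.am ≤ E.T ^ 2402 :=
    ot_T_mul hE.dat (m := 1) (n := 2401)
      (by rw [pow_one]; exact ot_num hE.dat (by norm_num) (by norm_num)) hE.dat.am_hi ha.le
      (by norm_num)
  have h3 : E.T ^ 4815 * (2 * E.Kc ^ 2 * E.am) ≤ E.T ^ 7217 :=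
    ot_T_mul hE.dat le_rfl h2 (by positivity) (by norm_num)
  have h4 : 2 * E.T ^ 7217 ≤ E.T ^ 7218 := ot_two hE.dat 7217
  rw [← pow_add]
  exact ot_T_mul hE.dat (m := 1) (n := 7218)
    (by rw [pow_one]; exact ot_num hE.dat (by norm_num) (by norm_num)) (by linarith)
    (by positivity) (by norm_num)

theorem Wg_ws (i : Fin 2) (y y' z : V) :
    ∑ z', (⨆ l, |E.Wg i y y' z z' l|) ≤ E.T ^ 4870 * E.T ^ 2403 := by
  have ha := os_am_pos hE.dat
  have hK := os_Kc_one hE.dat
  have hT := os_T_pos hE.dat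
  refine (gen_ws hE (by positivity) (ωg_nonneg y y') (fun z z' l => Wg_mj hE i y y' z z' l) univ
    ha.le (ot_univ_card hE) (ot_far_card hE.dat) (by positivity) (ωg_max hE y y') z
    (ωg_nb hE y y' z)).trans ?_
  have h1 : E.am * E.T ^ 4803 ≤ E.T ^ 7217 :=
    ot_T_mul hE.dat hE.dat.am_hi le_rfl (by positivity) (by norm_num)
  have h2 : 2 * E.Kc ^ 2 * E.am ≤ E.T ^ 2402 :=
    ot_T_mul hE.dat (m := 1) (n := 2401)
      (by rw [pow_one]; exact ot_num hE.dat (by norm_num) (by norm_num)) hE.dat.am_hi ha.le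
      (by norm_num)
  have h3 : E.T ^ 4815 * (2 * E.Kc ^ 2 * E.am) ≤ E.T ^ 7217 :=
    ot_T_mul hE.dat le_rfl h2 (by positivity) (by norm_num)
  have h4 : 2 * E.T ^ 7217 ≤ E.T ^ 7218 := ot_two hE.dat 7217
  rw [← pow_add]
  refine ot_T_mul hE.dat (m := 1) (n := 7218) ?_ (by linarith) (by positivity) (by norm_num)
  rw [pow_one]
  have := ot_num hE.dat (c := 1) (n := 3) (by norm_num) (by norm_num)
  rwa [one_mul] at this

theorem Wp_ws (i : Fin 2) (x y z : V) :
    ∑ z', (⨆ l, |E.Wp i x y z z' l|) ≤ E.T ^ 4870 * E.T := by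
  have ha := os_am_pos hE.dat
  have hK := os_Kc_one hE.dat
  have hT := os_T_pos hE.dat
  refine (gen_ws hE zero_le_one (ω1_nonneg x y) (fun z z' l => Wp_mj i x y z z' l) univ
    ha.le (ot_univ_card hE) (ot_far_card hE.dat) (by linarith) (ω1_max hE x y) z
    (ω1_sum x y _ _)).trans ?_
  have h1 : E.am ≤ E.T ^ 4816 := hE.dat.am_hi.trans (hE.dat.big.pw (by norm_num))
  have h2 : E.T ^ 4815 * E.Kc ≤ E.T ^ 4816 := by
    rw [pow_succ E.T 4815]
    exact mul_le_mul_of_nonneg_left (os_Kc_T hE.dat) (by positivity)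
  have h3 := ot_two hE.dat 4816
  have h4 : E.T ^ (4816 + 1) ≤ E.T ^ 4871 := hE.dat.big.pw (by norm_num)
  have h5 : E.T ^ 4870 * E.T = E.T ^ 4871 := (pow_succ E.T 4870).symm
  rw [one_mul, mul_one, h5]
  linarith

theorem Wl_ws (i : Fin 3) (hi : i ≠ 2) (α : AL) (z : V) :
    ∑ z', (⨆ l, |E.Wl i α z z' l|) ≤ E.T ^ 4870 * (E.T * E.s1 α) := by
  have ha := os_am_pos hE.dat
  have hK := os_Kc_one hE.dat
  have hT := os_T_pos hE.dat
  have hs := hE.dat.s1_pos α
  refine (gen_ws hE (by linarith) (ωa_nonneg hE α) (fun z z' l => Wl_maj hE i hi α z z' l) univ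
    ha.le (ot_univ_card hE) (ot_far_card hE.dat) (by positivity) (ωa_max hE α) z
    (ωa_nb hE α z)).trans ?_
  have h1 : E.am * E.T ^ 2420 ≤ E.T ^ 4821 :=
    ot_T_mul hE.dat hE.dat.am_hi le_rfl (by positivity) (by norm_num)
  have h2 : E.T ^ 4815 * (2 * E.Kc ^ 1) ≤ E.T ^ 4821 :=
    ot_T_mul hE.dat (m := 4815) (n := 1) le_rfl
      (by rw [pow_one E.T]; exact ot_num hE.dat (by norm_num) (by norm_num)) (by positivity)
      (by norm_num)
  have h3 : 2 * E.T ^ 4821 ≤ E.T ^ 4822 := ot_two hE.dat 4821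
  have h4 : E.Kc * (E.am * E.T ^ 2420 + E.T ^ 4815 * (2 * E.Kc ^ 1)) ≤ E.T ^ 4871 :=
    ot_T_mul hE.dat (m := 1) (n := 4822) (by rw [pow_one]; exact os_Kc_T hE.dat) (by linarith)
      (by positivity) (by norm_num)
  have h5 : E.T ^ 4871 = E.T ^ 4870 * E.T := pow_succ E.T 4870
  rw [h5] at h4
  have h6 := mul_le_mul_of_nonneg_right h4 hs.le
  calc _ = E.Kc * (E.am * E.T ^ 2420 + E.T ^ 4815 * (2 * E.Kc ^ 1)) * E.s1 α := by ring
    _ ≤ _ := h6
    _ = _ := by ring

/-- Rows of the label-independent majorants. -/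
theorem ws_row (i : Tst V AL) (z : V) : ∑ z', E.ws i z z' ≤ E.T ^ 4870 * E.wm i := by
  rcases i with ⟨i, x⟩ | ⟨i, x, y⟩ | ⟨i, y, y'⟩ | ⟨i, α⟩
  · exact Wx_ws hE i.down x z
  · exact Wp_ws hE i.down x y z
  · exact Wg_ws hE i.down y y' z
  · show ∑ z', (⨆ l, |E.Wl i.down α z z' l|) ≤
      E.T ^ 4870 * (if i.down = 2 then E.s0 α else E.T * E.s1 α)
    by_cases hi : i.down = 2
    · rw [if_pos hi, hi]
      have h0 := hE.dat.s0_pos α
      calc _ ≤ ∑ z', E.a α z z' := sum_le_sum fun z' _ =>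
            Real.iSup_le (fun l => Wl2_le hE α z z' l) (hE.dat.a_nonneg α z z')
        _ ≤ E.ar α := hE.dat.a_row α z
        _ ≤ E.T ^ 4800 * E.s0 α := hE.dat.num3 α
        _ ≤ _ := mul_le_mul_of_nonneg_right (hE.dat.big.pw (by norm_num)) h0.le
    · rw [if_neg hi]
      exact Wl_ws hE i.down hi α z

theorem ws_nonneg (i : Tst V AL) (z z' : V) : 0 ≤ E.ws i z z' := Real.iSup_nonneg fun _ => abs_nonneg _

theorem ws_le (i : Tst V AL) (z z' : V) : E.ws i z z' ≤ E.wm i :=
  Real.iSup_le (fun l => W_le hE i z z' l) (wm_pos hE i).le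

theorem le_ws (i : Tst V AL) (z z' : V) (l : Lb) : |E.W i z z' l| ≤ E.ws i z z' :=
  le_ciSup (f := fun l => |E.W i z z' l|) ⟨E.wm i, by
    rintro _ ⟨l, rfl⟩
    exact W_le hE i z z' l⟩ l

end ws

/-! ### Supports -/

variable (E) in
/-- The pairs of the test `i` are contained in this set. -/
noncomputable def spt (i : Tst V AL) : Finset V := univ.filter fun z => ∃ z' l, E.W i z z' l ≠ 0

theorem spt_left {i : Tst V AL} {z z' : V} {l : Lb} (h : E.W i z z' l ≠ 0) : z ∈ E.spt i :=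
  mem_filter.2 ⟨mem_univ _, z', l, h⟩

theorem spt_right (hE : E.Ok) {i : Tst V AL} {z z' : V} {l : Lb} (h : E.W i z z' l ≠ 0) :
    z' ∈ E.spt i :=
  mem_filter.2 ⟨mem_univ _, z, l, by rwa [W_symm hE i z' z l]⟩

variable (E) in
/-- `x` is near `z`. -/
def near3 (z x : V) : Prop := x ∈ (E.toGData.sd E.s).ball3 z ∨
  ∃ a ∈ E.N x, a ∈ (E.toGData.sd E.s).ball3 z

variable (E) in
/-- The centre is near `z`. -/
def near4 (z v : V) : Prop := ∃ a ∈ E.N v, a ∈ (E.toGData.sd E.s).ball3 z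

variable (E) in
/-- For the Gram tests. -/
def nearg (z y y' : V) : Prop :=
  (∃ u, (u, y) ∈ (E.toGData.sd E.s).prs z ∧ E.far u y') ∨
    ∃ u, (u, y') ∈ (E.toGData.sd E.s).prs z ∧ E.far u y

section spt

variable (hE : E.Ok)
include hE

theorem maj_supp {c w : ℝ} {ω : V → V → ℝ} {z z' : V} {l : Lb} (hw : w ≠ 0)
    (h : |w| ≤ c * E.Mf ω z z' l) :
    ∃ a b, ω a b ≠ 0 ∧ E.gu l z z' a b ≠ 0 ∧ (a, b) ∈ (E.toGData.sd E.s).prs z := by
  refine Mf_supp hE (ω := ω) fun h3 => ?_
  rw [h3, mul_zero] at h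
  exact hw (abs_eq_zero.1 (le_antisymm h (abs_nonneg _)))

theorem near_of_ωX {x a b z : V} (h : E.ωX x a b ≠ 0)
    (hp : (a, b) ∈ (E.toGData.sd E.s).prs z) : E.near3 z x := by
  by_cases h1 : E.ωx x a b = 0
  · have h2 : E.ω2 x a b ≠ 0 := by
      intro h3
      apply h
      unfold ωX
      rw [h1, h3, add_zero]
    exact Or.inr ⟨a, (ω2_zero h2).1, SData.prs_left hp⟩
  · rcases (ωx_zero h1).1 with h2 | h2
    · rw [h2] at hp
      exact Or.inl (SData.prs_right hp)
    · rw [h2] at hp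
      exact Or.inl (SData.prs_left hp)

theorem spt_Wx {i : Fin 8} {x z z' : V} {l : Lb} (h : E.Wx i x z z' l ≠ 0) : E.near3 z x := by
  obtain ⟨a, b, h1, -, h3⟩ := maj_supp hE h (Wx_mj hE i x z z' l)
  exact near_of_ωX hE h1 h3

theorem spt_Wp {i : Fin 2} {x y z z' : V} {l : Lb} (h : E.Wp i x y z z' l ≠ 0) :
    (x, y) ∈ (E.toGData.sd E.s).prs z := by
  obtain ⟨a, b, h1, -, h3⟩ := maj_supp hE h (Wp_mj i x y z z' l)
  unfold ω1 at h1
  by_cases h4 : a = x ∧ b = y ∧ E.nf E.s a b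
  · rw [h4.1, h4.2.1] at h3
    exact h3
  · exact absurd (if_neg h4) h1

theorem spt_Wg {i : Fin 2} {y y' z z' : V} {l : Lb} (h : E.Wg i y y' z z' l ≠ 0) :
    E.nearg z y y' := by
  have hK : ∀ u x, E.K E.s u x ≠ 0 → E.far u x := by
    intro u x h1
    unfold GData.K at h1
    by_contra h2
    exact h1 (if_neg h2)
  have hga : ∀ u x, E.ga l z z' u x ≠ 0 → E.gu l z z' u x ≠ 0 := by
    intro u x h1 h2
    have := ot_ga_le (E := E) l z z' u x
    rw [h2, abs_zero] at this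
    exact h1 (abs_eq_zero.1 (le_antisymm this (abs_nonneg _)))
  unfold Wg at h
  split_ifs at h with hi
  · obtain ⟨u, -, hu⟩ := exists_ne_zero_of_sum_ne_zero h
    by_cases h1 : E.s.X u y * E.ga l z z' u y * E.K E.s u y' = 0
    · rw [h1, zero_add] at hu
      have h2 : E.ga l z z' u y' ≠ 0 := fun h3 => hu (by rw [h3, mul_zero, zero_mul])
      have h4 : E.K E.s u y ≠ 0 := fun h3 => hu (by rw [h3, mul_zero])
      exact Or.inr ⟨u, ot_gu_prs hE (hga _ _ h2), hK _ _ h4⟩
    · have h2 : E.ga l z z' u y ≠ 0 := fun h3 => h1 (by rw [h3, mul_zero, zero_mul])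
      have h4 : E.K E.s u y' ≠ 0 := fun h3 => h1 (by rw [h3, mul_zero])
      exact Or.inl ⟨u, ot_gu_prs hE (hga _ _ h2), hK _ _ h4⟩
  · obtain ⟨u, -, hu⟩ := exists_ne_zero_of_sum_ne_zero h
    have h2 : E.ga l z z' u y ≠ 0 := fun h3 => hu (by rw [h3, zero_mul, abs_zero, mul_zero])
    have h4 : E.ga l z z' u y' ≠ 0 := fun h3 => hu (by rw [h3, mul_zero, abs_zero, mul_zero])
    exact Or.inl ⟨u, ot_gu_prs hE (hga _ _ h2), (ot_gu_nf (hga _ _ h4)).1⟩

theorem near4_of_a {α : AL} {a b z : V} (h : E.a α a b ≠ 0)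
    (hp : (a, b) ∈ (E.toGData.sd E.s).prs z) : E.near4 z (E.ctr α) := by
  rcases hE.dat.a_ctr α a b h with h1 | h1
  · exact ⟨a, h1, SData.prs_left hp⟩
  · exact ⟨b, h1, SData.prs_right hp⟩

theorem spt_Wl {i : Fin 3} {α : AL} {z z' : V} {l : Lb} (h : E.Wl i α z z' l ≠ 0) :
    E.near4 z (E.ctr α) := by
  by_cases hi : i = 2
  · rw [hi] at h
    have h1 : E.a α z z' ≠ 0 := by
      intro h2
      have h3 := Wl2_le hE α z z' l
      rw [h2] at h3
      exact h (abs_eq_zero.1 (le_antisymm h3 (abs_nonneg _)))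
    obtain ⟨q, hq⟩ := hE.dat.a_cod α z z' h1
    unfold cN at hq
    rw [mem_inter] at hq
    have hb : ∀ w, q ∈ E.N w → w ∈ (E.toGData.sd E.s).ball3 z := by
      intro w hw
      unfold SData.ball3 SData.S2
      refine mem_union_right _ (mem_union_left _ (mem_biUnion.2 ⟨q, hq.1, ?_⟩))
      exact hE.dat.N_symm _ _ hw
    rcases hE.dat.a_ctr α z z' h1 with h4 | h4
    · exact ⟨z, h4, hb z hq.1⟩
    · exact ⟨z', h4, hb z' hq.2⟩
  · obtain ⟨a, b, h1, -, h3⟩ := maj_supp hE h (Wl_maj hE i hi α z z' l)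
    refine near4_of_a hE (a := a) (b := b) (fun h4 => h1 ?_) h3
    unfold ωa
    rw [h4, mul_zero]
    split_ifs <;> rfl

/-! ### Cardinalities -/

theorem ot_Δ_one : (1 : ℝ) ≤ E.T ^ 3600 := one_le_pow₀ (by have := os_T_ge hE.dat; linarith)

theorem ot_ball3 (x : V) : (((E.toGData.sd E.s).ball3 x).card : ℝ) ≤ 3 * E.T ^ 10800 := by
  have h1 := SData.card_ball3 (D := E.toGData.sd E.s) (ot_Δ_one hE) hE.dat.deg x
  rwa [← pow_mul] at h1

theorem ot_prs (x : V) : (((E.toGData.sd E.s).prs x).card : ℝ) ≤ 3 * E.T ^ 14400 := by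
  have h1 := SData.card_prs (D := E.toGData.sd E.s) (ot_Δ_one hE) hE.dat.deg x
  rwa [← pow_mul] at h1

theorem near4_card (v : V) : ((univ.filter fun z => E.near4 z v).card : ℝ) ≤ 3 * E.T ^ 14400 := by
  have h1 : (univ.filter fun z => E.near4 z v) ⊆ (E.N v).biUnion (E.toGData.sd E.s).ball3 := by
    intro z hz
    obtain ⟨a, h2, h3⟩ := (mem_filter.1 hz).2
    exact mem_biUnion.2 ⟨a, h2, SData.Ok.mem_ball3_symm (ot_sd hE) h3⟩
  have h0 := pow_nonneg (os_T_pos hE.dat).le 10800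
  have hdeg : ((E.N v).card : ℝ) ≤ E.T ^ 3600 := hE.dat.deg v
  calc ((univ.filter fun z => E.near4 z v).card : ℝ) ≤
        (((E.N v).biUnion (E.toGData.sd E.s).ball3).card : ℝ) := by
        exact_mod_cast card_le_card h1
    _ ≤ ∑ a ∈ E.N v, (((E.toGData.sd E.s).ball3 a).card : ℝ) := by
        exact_mod_cast card_biUnion_le
    _ ≤ ∑ a ∈ E.N v, 3 * E.T ^ 10800 := sum_le_sum fun a _ => ot_ball3 hE a
    _ = ((E.N v).card : ℝ) * (3 * E.T ^ 10800) := by rw [sum_const, nsmul_eq_mul]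
    _ ≤ E.T ^ 3600 * (3 * E.T ^ 10800) := mul_le_mul_of_nonneg_right hdeg
        (mul_nonneg (by norm_num) h0)
    _ = 3 * (E.T ^ 3600 * E.T ^ 10800) := by ring
    _ = 3 * E.T ^ 14400 := by rw [← pow_add]

theorem near3_card (x : V) : ((univ.filter fun z => E.near3 z x).card : ℝ) ≤ 6 * E.T ^ 14400 := by
  have h1 : (univ.filter fun z => E.near3 z x) ⊆
      (E.toGData.sd E.s).ball3 x ∪ univ.filter fun z => E.near4 z x := by
    intro z hz
    rcases (mem_filter.1 hz).2 with h2 | h2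
    · exact mem_union_left _ (SData.Ok.mem_ball3_symm (ot_sd hE) h2)
    · exact mem_union_right _ (mem_filter.2 ⟨mem_univ _, h2⟩)
  have h2 : ((univ.filter fun z => E.near3 z x).card : ℝ) ≤
      ((E.toGData.sd E.s).ball3 x).card + (univ.filter fun z => E.near4 z x).card := by
    exact_mod_cast (card_le_card h1).trans (card_union_le _ _)
  have h3 := ot_ball3 hE x
  have h4 := near4_card hE x
  have h5 : E.T ^ 10800 ≤ E.T ^ 14400 := hE.dat.big.pw (by norm_num)
  linarith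

theorem nearg_card (y y' : V) :
    ((univ.filter fun z => E.nearg z y y').card : ℝ) ≤ 6 * E.T ^ 14400 := by
  have h1 : (univ.filter fun z => E.nearg z y y') ⊆
      (E.toGData.sd E.s).ball3 y ∪ (E.toGData.sd E.s).ball3 y' := by
    intro z hz
    rcases (mem_filter.1 hz).2 with ⟨u, h2, -⟩ | ⟨u, h2, -⟩
    · exact mem_union_left _ (SData.Ok.mem_ball3_symm (ot_sd hE) (SData.prs_right h2))
    · exact mem_union_right _ (SData.Ok.mem_ball3_symm (ot_sd hE) (SData.prs_right h2))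
  have h2 : ((univ.filter fun z => E.nearg z y y').card : ℝ) ≤
      ((E.toGData.sd E.s).ball3 y).card + ((E.toGData.sd E.s).ball3 y').card := by
    exact_mod_cast (card_le_card h1).trans (card_union_le _ _)
  have h3 := ot_ball3 hE y
  have h4 := ot_ball3 hE y'
  have h5 : E.T ^ 10800 ≤ E.T ^ 14400 := hE.dat.big.pw (by norm_num)
  linarith

/-- Size of the supports. -/
theorem spt_card (i : Tst V AL) : ((E.spt i).card : ℝ) ≤ E.T ^ 14900 := by
  have hT := os_T_ge hE.dat
  have hT0 : 0 ≤ E.T ^ 14400 := pow_nonneg (os_T_pos hE.dat).le _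
  have h6 : 6 * E.T ^ 14400 ≤ E.T ^ 14900 := by
    have h7 : E.T ^ 14401 ≤ E.T ^ 14900 := hE.dat.big.pw (by norm_num)
    rw [pow_succ E.T 14400, mul_comm] at h7
    have h8 := mul_le_mul_of_nonneg_right (show (6 : ℝ) ≤ E.T by linarith) hT0
    linarith
  have key : ∀ S : Finset V, E.spt i ⊆ S → (S.card : ℝ) ≤ 6 * E.T ^ 14400 →
      ((E.spt i).card : ℝ) ≤ E.T ^ 14900 := by
    intro S h1 h2
    have h3 : ((E.spt i).card : ℝ) ≤ S.card := by exact_mod_cast card_le_card h1
    linarith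
  rcases i with ⟨i, x⟩ | ⟨i, x, y⟩ | ⟨i, y, y'⟩ | ⟨i, α⟩
  · refine key (univ.filter fun z => E.near3 z x) ?_ (near3_card hE x)
    intro z hz
    obtain ⟨z', l, h⟩ := (mem_filter.1 hz).2
    exact mem_filter.2 ⟨mem_univ _, spt_Wx hE h⟩
  · refine key ((E.toGData.sd E.s).ball3 x) ?_ ?_
    · intro z hz
      obtain ⟨z', l, h⟩ := (mem_filter.1 hz).2
      exact SData.Ok.mem_ball3_symm (ot_sd hE) (SData.prs_left (spt_Wp hE h))
    · have h3 := ot_ball3 hE x
      have h5 : E.T ^ 10800 ≤ E.T ^ 14400 := hE.dat.big.pw (by norm_num)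
      linarith
  · refine key (univ.filter fun z => E.nearg z y y') ?_ (nearg_card hE y y')
    intro z hz
    obtain ⟨z', l, h⟩ := (mem_filter.1 hz).2
    exact mem_filter.2 ⟨mem_univ _, spt_Wg hE h⟩
  · refine key (univ.filter fun z => E.near4 z (E.ctr α)) ?_ ?_
    · intro z hz
      obtain ⟨z', l, h⟩ := (mem_filter.1 hz).2
      exact mem_filter.2 ⟨mem_univ _, spt_Wl hE h⟩
    · have := near4_card hE (E.ctr α)
      linarith

/-! ### Degrees -/

theorem near4_deg_V (z : V) :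
    ((univ.filter fun v => E.near4 z v).card : ℝ) ≤ 3 * E.T ^ 14400 := by
  have h1 : (univ.filter fun v => E.near4 z v) ⊆
      ((E.toGData.sd E.s).ball3 z).biUnion E.N := by
    intro v hv
    obtain ⟨a, h2, h3⟩ := (mem_filter.1 hv).2
    exact mem_biUnion.2 ⟨a, h3, hE.dat.N_symm _ _ h2⟩
  have h0 := pow_nonneg (os_T_pos hE.dat).le 3600
  calc ((univ.filter fun v => E.near4 z v).card : ℝ) ≤
        ((((E.toGData.sd E.s).ball3 z).biUnion E.N).card : ℝ) := by
        exact_mod_cast card_le_card h1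
    _ ≤ ∑ a ∈ (E.toGData.sd E.s).ball3 z, ((E.N a).card : ℝ) := by
        exact_mod_cast card_biUnion_le
    _ ≤ ∑ a ∈ (E.toGData.sd E.s).ball3 z, E.T ^ 3600 := sum_le_sum fun a _ => hE.dat.deg a
    _ = (((E.toGData.sd E.s).ball3 z).card : ℝ) * E.T ^ 3600 := by rw [sum_const, nsmul_eq_mul]
    _ ≤ (3 * E.T ^ 10800) * E.T ^ 3600 := mul_le_mul_of_nonneg_right (ot_ball3 hE z) h0
    _ = 3 * (E.T ^ 10800 * E.T ^ 3600) := by ring
    _ = 3 * E.T ^ 14400 := by rw [← pow_add]

theorem near3_deg (z : V) :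
    ((univ.filter fun x => E.near3 z x).card : ℝ) ≤ 6 * E.T ^ 14400 := by
  have h1 : (univ.filter fun x => E.near3 z x) ⊆
      (E.toGData.sd E.s).ball3 z ∪ univ.filter fun v => E.near4 z v := by
    intro x hx
    rcases (mem_filter.1 hx).2 with h2 | h2
    · exact mem_union_left _ h2
    · exact mem_union_right _ (mem_filter.2 ⟨mem_univ _, h2⟩)
  have h2 : ((univ.filter fun x => E.near3 z x).card : ℝ) ≤
      ((E.toGData.sd E.s).ball3 z).card + (univ.filter fun v => E.near4 z v).card := by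
    exact_mod_cast (card_le_card h1).trans (card_union_le _ _)
  have h3 := ot_ball3 hE z
  have h4 := near4_deg_V hE z
  have h5 : E.T ^ 10800 ≤ E.T ^ 14400 := hE.dat.big.pw (by norm_num)
  linarith

theorem nearg_deg (z : V) :
    ((univ.filter fun e : V × V => E.nearg z e.1 e.2).card : ℝ) ≤ 6 * E.T ^ 19215 := by
  have hg : ∀ f : V → V → V × V, (((((E.toGData.sd E.s).prs z).biUnion fun p =>
      (univ.filter fun y' => E.far p.1 y').image (f p.2)).card : ℕ) : ℝ) ≤
      3 * E.T ^ 19215 := by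
    intro f
    have h0 := pow_nonneg (os_T_pos hE.dat).le 4815
    calc (((((E.toGData.sd E.s).prs z).biUnion fun p =>
        (univ.filter fun y' => E.far p.1 y').image (f p.2)).card : ℕ) : ℝ) ≤
          ∑ p ∈ (E.toGData.sd E.s).prs z,
            (((univ.filter fun y' => E.far p.1 y').image (f p.2)).card : ℝ) := by
          exact_mod_cast card_biUnion_le
      _ ≤ ∑ p ∈ (E.toGData.sd E.s).prs z, E.T ^ 4815 := by
          refine sum_le_sum fun p _ => le_trans ?_ (ot_far_card hE.dat p.1)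
          exact_mod_cast card_image_le
      _ = (((E.toGData.sd E.s).prs z).card : ℝ) * E.T ^ 4815 := by rw [sum_const, nsmul_eq_mul]
      _ ≤ (3 * E.T ^ 14400) * E.T ^ 4815 := mul_le_mul_of_nonneg_right (ot_prs hE z) h0
      _ = 3 * (E.T ^ 14400 * E.T ^ 4815) := by ring
      _ = 3 * E.T ^ 19215 := by rw [← pow_add]
  have h1 : (univ.filter fun e : V × V => E.nearg z e.1 e.2) ⊆
      (((E.toGData.sd E.s).prs z).biUnion fun p =>
        (univ.filter fun y' => E.far p.1 y').image (fun y' => (p.2, y'))) ∪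
      (((E.toGData.sd E.s).prs z).biUnion fun p =>
        (univ.filter fun y' => E.far p.1 y').image (fun y' => (y', p.2))) := by
    rintro ⟨y, y'⟩ he
    rcases (mem_filter.1 he).2 with ⟨u, h2, h3⟩ | ⟨u, h2, h3⟩
    · refine mem_union_left _ (mem_biUnion.2 ⟨(u, y), h2, mem_image.2 ⟨y', ?_, rfl⟩⟩)
      exact mem_filter.2 ⟨mem_univ _, h3⟩
    · refine mem_union_right _ (mem_biUnion.2 ⟨(u, y'), h2, mem_image.2 ⟨y, ?_, rfl⟩⟩)
      exact mem_filter.2 ⟨mem_univ _, h3⟩
  have h2 := (card_le_card h1).trans (card_union_le _ _)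
  have h3 := hg fun y y' => (y, y')
  have h4 := hg fun y y' => (y', y)
  have h5 : ((univ.filter fun e : V × V => E.nearg z e.1 e.2).card : ℝ) ≤
      ((((E.toGData.sd E.s).prs z).biUnion fun p =>
        (univ.filter fun y' => E.far p.1 y').image (fun y' => (p.2, y'))).card : ℝ) +
      ((((E.toGData.sd E.s).prs z).biUnion fun p =>
        (univ.filter fun y' => E.far p.1 y').image (fun y' => (y', p.2))).card : ℝ) := by
    exact_mod_cast h2
  linarith

theorem near4_deg (z : V) :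
    ((univ.filter fun α : AL => E.near4 z (E.ctr α)).card : ℝ) ≤ 3 * E.T ^ 14500 := by
  have h1 : (univ.filter fun α : AL => E.near4 z (E.ctr α)) ⊆
      (univ.filter fun v => E.near4 z v).biUnion fun v => univ.filter fun α => E.ctr α = v := by
    intro α hα
    refine mem_biUnion.2 ⟨E.ctr α, mem_filter.2 ⟨mem_univ _, (mem_filter.1 hα).2⟩, ?_⟩
    exact mem_filter.2 ⟨mem_univ _, rfl⟩
  have h0 := pow_nonneg (os_T_pos hE.dat).le 100
  calc ((univ.filter fun α : AL => E.near4 z (E.ctr α)).card : ℝ) ≤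
        (((univ.filter fun v => E.near4 z v).biUnion fun v =>
          univ.filter fun α => E.ctr α = v).card : ℝ) := by
        exact_mod_cast card_le_card h1
    _ ≤ ∑ v ∈ univ.filter (fun v => E.near4 z v),
          ((univ.filter fun α => E.ctr α = v).card : ℝ) := by
        exact_mod_cast card_biUnion_le
    _ ≤ ∑ v ∈ univ.filter (fun v => E.near4 z v), E.T ^ 100 :=
        sum_le_sum fun v _ => hE.dat.ctr_card v
    _ = ((univ.filter fun v => E.near4 z v).card : ℝ) * E.T ^ 100 := by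
        rw [sum_const, nsmul_eq_mul]
    _ ≤ (3 * E.T ^ 14400) * E.T ^ 100 := mul_le_mul_of_nonneg_right (near4_deg_V hE z) h0
    _ = 3 * (E.T ^ 14400 * E.T ^ 100) := by ring
    _ = 3 * E.T ^ 14500 := by rw [← pow_add]

end spt

/-- Counting in a product. -/
theorem ot_prod_card {ι β : Type*} [Fintype ι] [Fintype β] (Q : β → Prop) [DecidablePred Q] :
    ∑ e : ι × β, (if Q e.2 then (1 : ℝ) else 0) =
      (Fintype.card ι : ℝ) * ((univ.filter Q).card : ℝ) := by
  rw [Fintype.sum_prod_type]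
  have h : ∀ x : ι, ∑ y : β, (if Q (x, y).2 then (1 : ℝ) else 0) =
      ((univ.filter Q).card : ℝ) := fun x => by
    rw [← sum_filter, sum_const, nsmul_eq_mul, mul_one]
  rw [sum_congr rfl fun x _ => h x, sum_const, nsmul_eq_mul, card_univ]

/-- Number of tests at a vertex. -/
theorem spt_deg (hE : E.Ok) (z : V) :
    ((univ.filter fun i : Tst V AL => z ∈ E.spt i).card : ℝ) ≤ E.T ^ 20000 := by
  have hT := os_T_ge hE.dat
  have hT0 : 0 ≤ E.T ^ 19215 := pow_nonneg (os_T_pos hE.dat).le _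
  have e1 : ((univ.filter fun i : Tst V AL => z ∈ E.spt i).card : ℝ) =
      ∑ i : Tst V AL, (if z ∈ E.spt i then (1 : ℝ) else 0) := by
    rw [← sum_filter, sum_const, nsmul_eq_mul, mul_one]
  rw [e1, Fintype.sum_sum_type, Fintype.sum_sum_type, Fintype.sum_sum_type]
  have b1 : ∑ e : (ULift.{u} (Fin 8)) × V,
      (if z ∈ E.spt (Sum.inl e) then (1 : ℝ) else 0) ≤ 8 * (6 * E.T ^ 14400) := by
    calc _ ≤ ∑ e : (ULift.{u} (Fin 8)) × V, (if E.near3 z e.2 then (1 : ℝ) else 0) := by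
          refine sum_le_sum fun e _ => ?_
          by_cases h : z ∈ E.spt (Sum.inl e)
          · obtain ⟨z', l, h1⟩ := (mem_filter.1 h).2
            rw [if_pos h, if_pos (spt_Wx hE h1)]
          · rw [if_neg h]
            split_ifs <;> norm_num
      _ = 8 * ((univ.filter fun x => E.near3 z x).card : ℝ) := by
          rw [ot_prod_card, Fintype.card_ulift, Fintype.card_fin]
          norm_num
      _ ≤ _ := mul_le_mul_of_nonneg_left (near3_deg hE z) (by norm_num)
  have b2 : ∑ e : (ULift.{u} (Fin 2)) × V × V,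
      (if z ∈ E.spt (Sum.inr (Sum.inl e)) then (1 : ℝ) else 0) ≤ 2 * (3 * E.T ^ 14400) := by
    calc _ ≤ ∑ e : (ULift.{u} (Fin 2)) × V × V,
          (if e.2 ∈ (E.toGData.sd E.s).prs z then (1 : ℝ) else 0) := by
          refine sum_le_sum fun e _ => ?_
          by_cases h : z ∈ E.spt (Sum.inr (Sum.inl e))
          · obtain ⟨z', l, h1⟩ := (mem_filter.1 h).2
            rw [if_pos h, if_pos (show e.2 ∈ (E.toGData.sd E.s).prs z from spt_Wp hE h1)]
          · rw [if_neg h]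
            split_ifs <;> norm_num
      _ = 2 * (((E.toGData.sd E.s).prs z).card : ℝ) := by
          rw [ot_prod_card (ι := ULift.{u} (Fin 2)) (fun e : V × V =>
            e ∈ (E.toGData.sd E.s).prs z), Fintype.card_ulift, Fintype.card_fin,
            filter_mem_eq_inter, univ_inter]
          norm_num
      _ ≤ _ := mul_le_mul_of_nonneg_left (ot_prs hE z) (by norm_num)
  have b3 : ∑ e : (ULift.{u} (Fin 2)) × V × V,
      (if z ∈ E.spt (Sum.inr (Sum.inr (Sum.inl e))) then (1 : ℝ) else 0) ≤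
        2 * (6 * E.T ^ 19215) := by
    calc _ ≤ ∑ e : (ULift.{u} (Fin 2)) × V × V,
          (if E.nearg z e.2.1 e.2.2 then (1 : ℝ) else 0) := by
          refine sum_le_sum fun e _ => ?_
          by_cases h : z ∈ E.spt (Sum.inr (Sum.inr (Sum.inl e)))
          · obtain ⟨z', l, h1⟩ := (mem_filter.1 h).2
            rw [if_pos h, if_pos (spt_Wg hE h1)]
          · rw [if_neg h]
            split_ifs <;> norm_num
      _ = 2 * ((univ.filter fun e : V × V => E.nearg z e.1 e.2).card : ℝ) := by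
          rw [ot_prod_card (ι := ULift.{u} (Fin 2)) (fun e : V × V => E.nearg z e.1 e.2),
            Fintype.card_ulift, Fintype.card_fin]
          norm_num
      _ ≤ _ := mul_le_mul_of_nonneg_left (nearg_deg hE z) (by norm_num)
  have b4 : ∑ e : (ULift.{u} (Fin 3)) × AL,
      (if z ∈ E.spt (Sum.inr (Sum.inr (Sum.inr e))) then (1 : ℝ) else 0) ≤
        3 * (3 * E.T ^ 14500) := by
    calc _ ≤ ∑ e : (ULift.{u} (Fin 3)) × AL,
          (if E.near4 z (E.ctr e.2) then (1 : ℝ) else 0) := by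
          refine sum_le_sum fun e _ => ?_
          by_cases h : z ∈ E.spt (Sum.inr (Sum.inr (Sum.inr e)))
          · obtain ⟨z', l, h1⟩ := (mem_filter.1 h).2
            rw [if_pos h, if_pos (spt_Wl hE h1)]
          · rw [if_neg h]
            split_ifs <;> norm_num
      _ = 3 * ((univ.filter fun α : AL => E.near4 z (E.ctr α)).card : ℝ) := by
          rw [ot_prod_card (ι := ULift.{u} (Fin 3)) (fun α : AL => E.near4 z (E.ctr α)),
            Fintype.card_ulift, Fintype.card_fin]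
          norm_num
      _ ≤ _ := mul_le_mul_of_nonneg_left (near4_deg hE z) (by norm_num)
  have p1 : E.T ^ 14400 ≤ E.T ^ 19215 := hE.dat.big.pw (by norm_num)
  have p2 : E.T ^ 14500 ≤ E.T ^ 19215 := hE.dat.big.pw (by norm_num)
  have p3 : E.T ^ 19216 ≤ E.T ^ 20000 := hE.dat.big.pw (by norm_num)
  rw [pow_succ E.T 19215, mul_comm] at p3
  have p4 := mul_le_mul_of_nonneg_right (show (100 : ℝ) ≤ E.T by linarith) hT0
  linarith

end GSt

end Pool.Agent.AcyG
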