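import Pool.Agent.AcyG.OTabH

/-! # The table of the tests and kernels (project MP_af9dfb_G, row OTab) -/

set_option autoImplicit false
set_option linter.unusedSectionVars false

namespace Pool.Agent.AcyG

open Finset
open Pool.Agent.AcyK (Big cN)
open scoped Classical

universe u

variable {V AL : Type u} [Fintype V] [DecidableEq V] [Fintype AL]

namespace GSt

variable {Lb : Type u} [Fintype Lb] {E : GSt V Lb AL}

open GData

theorem ot_iSup_ne {ι : Type*} {f : ι → ℝ} (h : (⨆ l, f l) ≠ 0) : ∃ l, f l ≠ 0 := by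
  by_contra h1
  push Not at h1
  apply h
  have : f = fun _ => (0 : ℝ) := funext h1
  rw [this]
  exact Real.iSup_const_zero

section tests

variable (hE : E.Ok)
include hE

theorem ot_gu_cod {l : Lb} {z z' x y : V} (h : E.gu l z z' x y ≠ 0) : 0 < E.cod z z' := by
  by_cases h3 : (E.toGData.sd E.s).lnk z z' x y
  · have h1 : z ∈ cN E.N x y := h3.2.2.1
    have h2 : z' ∈ cN E.N x y := h3.2.2.2
    unfold cN at h1 h2
    rw [mem_inter] at h1 h2
    have h4 : x ∈ cN E.N z z' :=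
      mem_inter.2 ⟨hE.dat.N_symm _ _ h1.1, hE.dat.N_symm _ _ h2.1⟩
    have h5 : 0 < (cN E.N z z').card := card_pos.2 ⟨x, h4⟩
    unfold GData.cod
    exact_mod_cast h5
  · have h4 : E.far z z' := (hE.cols.supp l z z' x y h3 (ot_gu_u h)).2.2.2.1
    exact lt_of_lt_of_le (pow_pos (os_T_pos hE.dat) _) h4.2.2.1

theorem W_ne {i : Tst V AL} {z z' : V} {l : Lb} (h : E.W i z z' l ≠ 0) :
    E.chi E.s z z' ≠ 0 ∧ 0 < E.cod z z' := by
  refine ⟨W_chi hE h, ?_⟩
  have key : ∀ {ω : V → V → ℝ} {c : ℝ} {w : ℝ}, w ≠ 0 → |w| ≤ c * E.Mf ω z z' l →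
      0 < E.cod z z' := by
    intro ω c w hw h1
    obtain ⟨a, b, -, h3, -⟩ := maj_supp hE hw h1
    exact ot_gu_cod hE h3
  rcases i with ⟨i, x⟩ | ⟨i, x, y⟩ | ⟨i, y, y'⟩ | ⟨i, α⟩
  · exact key h (Wx_mj hE i.down x z z' l)
  · exact key h (Wp_mj i.down x y z z' l)
  · exact key h (Wg_mj hE i.down y y' z z' l)
  · by_cases hi : i.down = 2
    · have h1 : E.Wl i.down α z z' l ≠ 0 := h
      rw [hi] at h1
      have h2 : E.a α z z' ≠ 0 := by
        intro h2
        have h3 := Wl2_le hE α z z' l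
        rw [h2] at h3
        exact h1 (abs_eq_zero.1 (le_antisymm h3 (abs_nonneg _)))
      have h5 : 0 < (cN E.N z z').card := card_pos.2 (hE.dat.a_cod α z z' h2)
      unfold GData.cod
      exact_mod_cast h5
    · exact key h (Wl_maj hE i.down hi α z z' l)

theorem dV_nonneg (i : Tst V AL) : 0 ≤ E.dV i := by
  have hT := os_T_pos hE.dat
  have h0 : ∀ α, 0 ≤ E.ar α := by
    intro α
    by_cases hV : Nonempty V
    · obtain ⟨z⟩ := hV
      exact le_trans (sum_nonneg fun z' _ => hE.dat.a_nonneg α z z') (hE.dat.a_row α z)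
    · exact absurd ⟨E.ctr α⟩ hV
  rcases i with ⟨i, x⟩ | ⟨i, x, y⟩ | ⟨i, y, y'⟩ | ⟨i, α⟩
  · exact pow_nonneg hT.le _
  · exact pow_nonneg hT.le _
  · exact pow_nonneg hT.le _
  · show 0 ≤ if i.down = 2 then E.ar α else E.T ^ 2404 * E.La α
    split_ifs
    · exact h0 α
    · exact mul_nonneg (pow_nonneg hT.le _) (ot_La_nonneg hE α)

theorem ws_ne {i : Tst V AL} {z z' : V} (h : E.ws i z z' ≠ 0) : ∃ l, E.W i z z' l ≠ 0 := by
  obtain ⟨l, hl⟩ := ot_iSup_ne h
  exact ⟨l, fun h1 => hl (by rw [h1, abs_zero])⟩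

theorem ws_spt {i : Tst V AL} {z z' : V} (h : E.ws i z z' ≠ 0 ∨ E.ws i z' z ≠ 0) :
    z ∈ E.spt i := by
  rcases h with h | h
  · obtain ⟨l, hl⟩ := ws_ne hE h
    exact spt_left hl
  · obtain ⟨l, hl⟩ := ws_ne hE h
    exact spt_right hE hl

theorem ws_supp (i : Tst V AL) : ((univ.filter fun z => ∃ z', E.ws i z z' ≠ 0 ∨
    E.ws i z' z ≠ 0).card : ℝ) ≤ E.T ^ 15000 := by
  refine le_trans ?_ ((spt_card hE i).trans (hE.dat.big.pw (by norm_num)))
  have h : (univ.filter fun z => ∃ z', E.ws i z z' ≠ 0 ∨ E.ws i z' z ≠ 0) ⊆ E.spt i := by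
    intro z hz
    obtain ⟨z', h1⟩ := (mem_filter.1 hz).2
    exact ws_spt hE h1
  exact_mod_cast card_le_card h

theorem ws_deg (z : V) : ((univ.filter fun i => ∃ z', E.ws i z z' ≠ 0 ∨
    E.ws i z' z ≠ 0).card : ℝ) ≤ E.T ^ 21000 := by
  refine le_trans ?_ ((spt_deg hE z).trans (hE.dat.big.pw (by norm_num)))
  have h : (univ.filter fun i => ∃ z', E.ws i z z' ≠ 0 ∨ E.ws i z' z ≠ 0) ⊆
      univ.filter fun i : Tst V AL => z ∈ E.spt i := by
    intro i hi
    obtain ⟨z', h1⟩ := (mem_filter.1 hi).2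
    exact mem_filter.2 ⟨mem_univ _, ws_spt hE h1⟩
  exact_mod_cast card_le_card h

/-! ### Effects on one pair -/

theorem af_mj (P : V × V) (z z' : V) (l : Lb) :
    |E.af z z' l P| ≤ 1 * E.Mf (E.ω1 P.1 P.2) z z' l := by
  rw [Mf_ω1, one_mul]
  unfold af
  rw [abs_abs]

theorem af_abs (P : V × V) (z z' : V) (l : Lb) : |E.af z z' l P| = E.af z z' l P := by
  unfold af
  rw [abs_abs]

theorem af_row_U (U : Finset V) {a : ℝ} (ha : 0 ≤ a)
    (hU : ∀ v w, E.cod v w ≤ E.am → ((cN E.N v w ∩ U).card : ℝ) ≤ a) (z : V) (P : V × V) :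
    ∑ z' ∈ U, ∑ l, E.μ z z' l * E.af z z' l P ≤ E.Kc * a := by
  have h := gen_row hE zero_le_one (ω1_nonneg P.1 P.2) (fun z z' l => af_mj hE P z z' l) U ha hU
    (ω1_sum P.1 P.2 univ univ) z
  simp only [af_abs hE, one_mul, mul_one] at h
  exact h

theorem af_row (z : V) (P : V × V) : ∑ z', ∑ l, E.μ z z' l * E.af z z' l P ≤ E.T ^ 2402 := by
  have ha := os_am_pos hE.dat
  refine (af_row_U hE univ ha.le (ot_univ_card hE) z P).trans ?_
  exact ot_T_mul hE.dat (m := 1) (n := 2401) (by rw [pow_one]; exact os_Kc_T hE.dat)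
    hE.dat.am_hi ha.le (by norm_num)

theorem af_tot (P : V × V) : ∑ z, ∑ z', ∑ l, E.μ z z' l * E.af z z' l P ≤ E.T * E.n1 := by
  have hn := os_n1_pos hE.dat
  have h := gen_tot hE zero_le_one (ω1_nonneg P.1 P.2) (fun z z' l => af_mj hE P z z' l)
    ((ω1_Y hE P.1 P.2).trans (os_H_Kc hE.dat))
  simp only [af_abs hE] at h
  refine h.trans ?_
  calc 1 * (4 * E.n1 * E.Kc ^ 2 * E.Kc) = (4 * E.Kc ^ 3) * E.n1 := by ring
    _ ≤ E.T * E.n1 := mul_le_mul_of_nonneg_right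
        (ot_num hE.dat (by norm_num) (by norm_num)) hn.le

theorem afs_row_U (U : Finset V) {a f1 : ℝ} (ha : 0 ≤ a)
    (hU : ∀ v w, E.cod v w ≤ E.am → ((cN E.N v w ∩ U).card : ℝ) ≤ a)
    (hF : ∀ x, ((U.filter fun u => E.far x u).card : ℝ) ≤ f1) (z : V) (P : V × V) :
    ∑ z' ∈ U, (⨆ l, E.af z z' l P) ≤ a + f1 * E.Kc := by
  have hK := os_Kc_one hE.dat
  have h := gen_ws hE zero_le_one (ω1_nonneg P.1 P.2) (fun z z' l => af_mj hE P z z' l) U ha hU
    hF (by linarith) (ω1_max hE P.1 P.2) z (ω1_sum P.1 P.2 _ _)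
  simp only [af_abs hE, one_mul, mul_one] at h
  exact h

theorem afs_row (z : V) (P : V × V) : ∑ z', (⨆ l, E.af z z' l P) ≤ E.T ^ 4816 := by
  have ha := os_am_pos hE.dat
  have hK := os_Kc_one hE.dat
  have hT := os_T_pos hE.dat
  refine (afs_row_U hE univ ha.le (ot_univ_card hE) (ot_far_card hE.dat) z P).trans ?_
  have h1 : E.am ≤ E.T ^ 4815 := hE.dat.am_hi.trans (hE.dat.big.pw (by norm_num))
  have h2 : E.T ^ 4815 * (2 * E.Kc ^ 1) ≤ E.T ^ 4816 := by
    rw [pow_succ E.T 4815]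
    exact mul_le_mul_of_nonneg_left (ot_num hE.dat (by norm_num) (by norm_num)) (by positivity)
  have h3 : E.T ^ 4815 * 1 ≤ E.T ^ 4815 * E.Kc := mul_le_mul_of_nonneg_left hK (by positivity)
  rw [pow_one] at h2
  linarith

theorem afs_ne {P : V × V} {z z' : V} (h : (⨆ l, E.af z z' l P) ≠ 0 ∨
    (⨆ l, E.af z' z l P) ≠ 0) : P ∈ (E.toGData.sd E.s).prs z := by
  have key : ∀ {l : Lb} {z z' : V}, E.af z z' l P ≠ 0 → E.gu l z z' P.1 P.2 ≠ 0 := by
    intro l z z' h1 h2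
    apply h1
    unfold af
    rw [h2, abs_zero]
  rcases h with h | h
  · obtain ⟨l, hl⟩ := ot_iSup_ne h
    exact ot_gu_prs hE (key hl)
  · obtain ⟨l, hl⟩ := ot_iSup_ne h
    have := key hl
    rw [ot_gu_symm1 hE] at this
    exact ot_gu_prs hE this

theorem afs_supp (P : V × V) : ((univ.filter fun z => ∃ z', (⨆ l, E.af z z' l P) ≠ 0 ∨
    (⨆ l, E.af z' z l P) ≠ 0).card : ℝ) ≤ E.T ^ 15000 := by
  have h : (univ.filter fun z => ∃ z', (⨆ l, E.af z z' l P) ≠ 0 ∨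
      (⨆ l, E.af z' z l P) ≠ 0) ⊆ (E.toGData.sd E.s).ball3 P.1 := by
    intro z hz
    obtain ⟨z', h1⟩ := (mem_filter.1 hz).2
    exact SData.Ok.mem_ball3_symm (ot_sd hE) (SData.prs_left (x := P.1) (y := P.2) (afs_ne hE h1))
  have h1 := ot_ball3 hE P.1
  have h2 : 3 * E.T ^ 10800 ≤ E.T ^ 15000 := by
    have h7 : E.T ^ 10801 ≤ E.T ^ 15000 := hE.dat.big.pw (by norm_num)
    rw [pow_succ E.T 10800, mul_comm] at h7
    have h8 := mul_le_mul_of_nonneg_right (show (3 : ℝ) ≤ E.T by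
      have := os_T_ge hE.dat; linarith) (pow_nonneg (os_T_pos hE.dat).le 10800)
    linarith
  refine le_trans ?_ (h1.trans h2)
  exact_mod_cast card_le_card h

theorem afs_deg (z : V) : ((univ.filter fun P => ∃ z', (⨆ l, E.af z z' l P) ≠ 0 ∨
    (⨆ l, E.af z' z l P) ≠ 0).card : ℝ) ≤ E.T ^ 21000 := by
  have h : (univ.filter fun P => ∃ z', (⨆ l, E.af z z' l P) ≠ 0 ∨
      (⨆ l, E.af z' z l P) ≠ 0) ⊆ (E.toGData.sd E.s).prs z := by
    intro P hP
    obtain ⟨z', h1⟩ := (mem_filter.1 hP).2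
    exact afs_ne hE h1
  have h1 := ot_prs hE z
  have h2 : 3 * E.T ^ 14400 ≤ E.T ^ 21000 := by
    have h7 : E.T ^ 14401 ≤ E.T ^ 21000 := hE.dat.big.pw (by norm_num)
    rw [pow_succ E.T 14400, mul_comm] at h7
    have h8 := mul_le_mul_of_nonneg_right (show (3 : ℝ) ≤ E.T by
      have := os_T_ge hE.dat; linarith) (pow_nonneg (os_T_pos hE.dat).le 14400)
    linarith
  refine le_trans ?_ (h1.trans h2)
  exact_mod_cast card_le_card h

/-! ### Equal picks -/

theorem cw_row_U (U : Finset V) {a : ℝ} (ha : 0 ≤ a)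
    (hU : ∀ v w, E.cod v w ≤ E.am → ((cN E.N v w ∩ U).card : ℝ) ≤ a) (x z : V) :
    ∑ z' ∈ U, (E.cw x z z' + E.cw x z' z) ≤ 2 * (E.T ^ 3600 * a) := by
  have e0 : ∀ z', E.cw x z z' + E.cw x z' z ≤
      2 * ∑ u, (if E.far u x ∧ z ∈ cN E.N u x ∧ z' ∈ cN E.N u x then (1 : ℝ) else 0) := by
    intro z'
    have e1 : ∀ w w', E.cw x w w' ≤
        ∑ u, (if E.far u x ∧ w ∈ cN E.N u x ∧ w' ∈ cN E.N u x then (1 : ℝ) else 0) := by
      intro w w'
      unfold cw
      rw [← sum_filter, sum_const, nsmul_eq_mul, mul_one]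
      split_ifs
      · exact Nat.cast_nonneg _
      · exact le_rfl
    have e2 := e1 z z'
    have e3 := e1 z' z
    have e4 : ∑ u, (if E.far u x ∧ z' ∈ cN E.N u x ∧ z ∈ cN E.N u x then (1 : ℝ) else 0) =
        ∑ u, (if E.far u x ∧ z ∈ cN E.N u x ∧ z' ∈ cN E.N u x then (1 : ℝ) else 0) :=
      sum_congr rfl fun u _ => if_congr (by tauto) rfl rfl
    linarith
  have e5 : ∀ u, ∑ z' ∈ U, (if E.far u x ∧ z ∈ cN E.N u x ∧ z' ∈ cN E.N u x then (1 : ℝ)
      else 0) ≤ if u ∈ E.N z then a else 0 := by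
    intro u
    by_cases h : E.far u x ∧ z ∈ cN E.N u x
    · have h1 := h.2
      unfold cN at h1
      rw [mem_inter] at h1
      rw [if_pos (hE.dat.N_symm _ _ h1.1)]
      calc _ = ∑ z' ∈ U, (if z' ∈ cN E.N u x then (1 : ℝ) else 0) :=
            sum_congr rfl fun z' _ => if_congr ⟨fun h2 => h2.2.2, fun h2 => ⟨h.1, h.2, h2⟩⟩ rfl
              rfl
        _ = ((cN E.N u x ∩ U).card : ℝ) := by
            rw [sum_ite_mem, sum_const, nsmul_eq_mul, mul_one, inter_comm]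
        _ ≤ a := hU u x h.1.2.2.2
    · rw [sum_eq_zero fun z' _ => if_neg fun h2 => h ⟨h2.1, h2.2.1⟩]
      split_ifs
      exacts [ha, le_rfl]
  have hdeg : ((E.N z).card : ℝ) ≤ E.T ^ 3600 := hE.dat.deg z
  calc _ ≤ ∑ z' ∈ U, 2 * ∑ u, (if E.far u x ∧ z ∈ cN E.N u x ∧ z' ∈ cN E.N u x then (1 : ℝ)
        else 0) := sum_le_sum fun z' _ => e0 z'
    _ = 2 * ∑ u, ∑ z' ∈ U, (if E.far u x ∧ z ∈ cN E.N u x ∧ z' ∈ cN E.N u x then (1 : ℝ)
        else 0) := by
        rw [← mul_sum, sum_comm]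
    _ ≤ 2 * ∑ u, (if u ∈ E.N z then a else 0) :=
        mul_le_mul_of_nonneg_left (sum_le_sum fun u _ => e5 u) (by norm_num)
    _ = 2 * (((E.N z).card : ℝ) * a) := by
        rw [sum_ite_mem, univ_inter, sum_const, nsmul_eq_mul]
    _ ≤ _ := mul_le_mul_of_nonneg_left (mul_le_mul_of_nonneg_right hdeg ha) (by norm_num)

theorem cw_row (x z : V) : ∑ z', (E.cw x z z' + E.cw x z' z) ≤ E.T ^ 6002 := by
  have ha := os_am_pos hE.dat
  refine (cw_row_U hE univ ha.le (ot_univ_card hE) x z).trans ?_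
  have h1 : E.T ^ 3600 * E.am ≤ E.T ^ 6001 :=
    ot_T_mul hE.dat le_rfl hE.dat.am_hi ha.le (by norm_num)
  have h2 : 2 * E.T ^ 6001 ≤ E.T ^ 6002 := ot_two hE.dat 6001
  linarith

end tests

/-! ### Kernels -/

theorem omk_nonneg (hE : E.Ok) (b : Krn V AL) (P S : V × V) : 0 ≤ E.omk b P S := by
  have hn := os_n1_pos hE.dat
  rcases b with ⟨i, x⟩ | ⟨y, y'⟩ | α
  · show 0 ≤ (if i.down = 0 then (if P = S ∧ P.2 = x then (1 : ℝ) else 0) else
      if i.down = 1 then (if P = S then 1 / E.n1 *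
        ((univ.filter fun u => E.nf E.s u x ∧ P.1 ∈ cN E.N u x ∧
          P.2 ∈ cN E.N u x).card : ℝ) else 0) else
      1 / E.n1 * ((if P.2 = x ∧ E.nf E.s P.1 P.2 ∧ S.1 ∈ cN E.N P.1 P.2 ∧
          S.2 ∈ cN E.N P.1 P.2 then 1 else 0) +
        (if S.2 = x ∧ E.nf E.s S.1 S.2 ∧ P.1 ∈ cN E.N S.1 S.2 ∧ P.2 ∈ cN E.N S.1 S.2 then 1
          else 0)))
    split_ifs <;> positivity
  · show (0 : ℝ) ≤ if E.far P.1 P.2 ∧ E.far S.1 S.2 then
        (if P.1 = S.1 ∧ P.2 = y ∧ S.2 = y' then 1 else 0) +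
        (if P.1 = S.1 ∧ S.2 = y ∧ P.2 = y' then 1 else 0) else 0
    split_ifs <;> norm_num
  · show 0 ≤ if P = S then E.a α P.1 P.2 else 0
    split_ifs
    exacts [hE.dat.a_nonneg α P.1 P.2, le_rfl]

theorem omk_symm (hE : E.Ok) (b : Krn V AL) (P S : V × V) : E.omk b P S = E.omk b S P := by
  rcases b with ⟨i, x⟩ | ⟨y, y'⟩ | α
  · show (if i.down = 0 then (if P = S ∧ P.2 = x then (1 : ℝ) else 0) else
      if i.down = 1 then (if P = S then 1 / E.n1 *
        ((univ.filter fun u => E.nf E.s u x ∧ P.1 ∈ cN E.N u x ∧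
          P.2 ∈ cN E.N u x).card : ℝ) else 0) else
      1 / E.n1 * ((if P.2 = x ∧ E.nf E.s P.1 P.2 ∧ S.1 ∈ cN E.N P.1 P.2 ∧
          S.2 ∈ cN E.N P.1 P.2 then 1 else 0) +
        (if S.2 = x ∧ E.nf E.s S.1 S.2 ∧ P.1 ∈ cN E.N S.1 S.2 ∧ P.2 ∈ cN E.N S.1 S.2 then 1
          else 0))) =
      (if i.down = 0 then (if S = P ∧ S.2 = x then (1 : ℝ) else 0) else
      if i.down = 1 then (if S = P then 1 / E.n1 *
        ((univ.filter fun u => E.nf E.s u x ∧ S.1 ∈ cN E.N u x ∧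
          S.2 ∈ cN E.N u x).card : ℝ) else 0) else
      1 / E.n1 * ((if S.2 = x ∧ E.nf E.s S.1 S.2 ∧ P.1 ∈ cN E.N S.1 S.2 ∧
          P.2 ∈ cN E.N S.1 S.2 then 1 else 0) +
        (if P.2 = x ∧ E.nf E.s P.1 P.2 ∧ S.1 ∈ cN E.N P.1 P.2 ∧ S.2 ∈ cN E.N P.1 P.2 then 1
          else 0)))
    by_cases h : P = S
    · rw [h]
    · have h' : ¬ S = P := fun h1 => h h1.symm
      split_ifs <;> first | rfl | simp_all
  · show (if E.far P.1 P.2 ∧ E.far S.1 S.2 then
        (if P.1 = S.1 ∧ P.2 = y ∧ S.2 = y' then (1 : ℝ) else 0) +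
        (if P.1 = S.1 ∧ S.2 = y ∧ P.2 = y' then 1 else 0) else 0) =
      if E.far S.1 S.2 ∧ E.far P.1 P.2 then
        (if S.1 = P.1 ∧ S.2 = y ∧ P.2 = y' then (1 : ℝ) else 0) +
        (if S.1 = P.1 ∧ P.2 = y ∧ S.2 = y' then 1 else 0) else 0
    rw [add_comm (if S.1 = P.1 ∧ S.2 = y ∧ P.2 = y' then (1 : ℝ) else 0)]
    refine if_congr and_comm ?_ rfl
    congr 1
    · exact if_congr ⟨fun h => ⟨h.1.symm, h.2⟩, fun h => ⟨h.1.symm, h.2⟩⟩ rfl rfl
    · exact if_congr ⟨fun h => ⟨h.1.symm, h.2⟩, fun h => ⟨h.1.symm, h.2⟩⟩ rfl rfl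
  · show (if P = S then E.a α P.1 P.2 else 0) = if S = P then E.a α S.1 S.2 else 0
    by_cases h : P = S
    · rw [h]
    · rw [if_neg h, if_neg fun h1 => h h1.symm]

theorem wK_nonneg (hE : E.Ok) (b : Krn V AL) (z z' : V) (l : Lb) : 0 ≤ E.wK b z z' l :=
  sum_nonneg fun P _ => sum_nonneg fun S _ => mul_nonneg (omk_nonneg hE b P S) (abs_nonneg _)

theorem wK_symm (hE : E.Ok) (b : Krn V AL) (z z' : V) (l : Lb) :
    E.wK b z z' l = E.wK b z' z l := by
  unfold wK af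
  exact sum_congr rfl fun P _ => sum_congr rfl fun S _ => by rw [ot_gu_symm1 hE l z z']

/-- Kernels and functionals. -/
theorem wK_gen {b : Krn V AL} {c : ℝ} {ω : V → V → ℝ}
    (h : ∀ a a', E.nf E.s a a' → ∑ S, E.omk b (a, a') S ≤ c * ω a a') (z z' : V) (l : Lb) :
    E.wK b z z' l ≤ c * E.Mf ω z z' l := by
  have e1 : E.wK b z z' l = ∑ a, ∑ a', (∑ S, E.omk b (a, a') S) * |E.gu l z z' a a'| := by
    unfold wK af
    rw [Fintype.sum_prod_type]
    refine sum_congr rfl fun a _ => sum_congr rfl fun a' _ => ?_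
    rw [sum_mul]
  rw [e1]
  unfold Mf
  rw [mul_sum]
  refine sum_le_sum fun a _ => ?_
  rw [mul_sum]
  refine sum_le_sum fun a' _ => ?_
  by_cases h1 : E.gu l z z' a a' = 0
  · rw [h1, abs_zero, mul_zero, mul_zero, mul_zero]
  · rw [← mul_assoc]
    exact mul_le_mul_of_nonneg_right (h a a' (ot_gu_nf h1)) (abs_nonneg _)

theorem ot_half_x {x a b : V} (h : E.nf E.s a b) :
    (if b = x then (1 : ℝ) else 0) ≤ 2 * E.ωx x a b := by
  unfold ωx
  by_cases h1 : b = x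
  · rw [if_pos h1, if_pos ⟨h1, h⟩]
    split_ifs <;> norm_num
  · rw [if_neg h1, if_neg fun h2 => h1 h2.1]
    split_ifs <;> norm_num

/-- First kind of kernels. -/
theorem wK_X (hE : E.Ok) (i : ULift.{u} (Fin 3)) (x : V) (z z' : V) (l : Lb) :
    E.wK (Sum.inl (i, x)) z z' l ≤ (2 * E.Kc) * E.Mf (E.ωX x) z z' l := by
  have hn := os_n1_pos hE.dat
  have hK := os_Kc_one hE.dat
  have hH := hE.dat.H_one
  have hHK := os_H_Kc hE.dat
  refine wK_gen (fun a b hab => ?_) z z' l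
  have h1 := ot_half_x (x := x) hab
  have hx0 := ωx_nonneg (E := E) x a b
  have h20 := ω2_nonneg hE x a b
  have e2 : 1 / E.n1 * ((univ.filter fun u => E.nf E.s u x ∧ a ∈ cN E.N u x ∧
      b ∈ cN E.N u x).card : ℝ) = 2 * E.ω2 x a b := by
    unfold ω2
    rw [if_pos hab]
    field_simp
  have goal1 : 2 * E.ωx x a b ≤ (2 * E.Kc) * E.ωX x a b := by
    unfold ωX
    nlinarith
  have goal2 : 2 * E.ω2 x a b ≤ (2 * E.Kc) * E.ωX x a b := by
    unfold ωX
    nlinarith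
  show ∑ S : V × V, (if i.down = 0 then (if (a, b) = S ∧ b = x then (1 : ℝ) else 0) else
      if i.down = 1 then (if (a, b) = S then 1 / E.n1 *
        ((univ.filter fun u => E.nf E.s u x ∧ a ∈ cN E.N u x ∧
          b ∈ cN E.N u x).card : ℝ) else 0) else
      1 / E.n1 * ((if b = x ∧ E.nf E.s a b ∧ S.1 ∈ cN E.N a b ∧
          S.2 ∈ cN E.N a b then 1 else 0) +
        (if S.2 = x ∧ E.nf E.s S.1 S.2 ∧ a ∈ cN E.N S.1 S.2 ∧ b ∈ cN E.N S.1 S.2 then 1
          else 0))) ≤ _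
  by_cases hi0 : i.down = 0
  · simp only [if_pos hi0]
    refine le_trans ?_ goal1
    refine le_trans (le_of_eq ?_) h1
    rw [sum_eq_single (a, b)]
    · by_cases hb : b = x
      · rw [if_pos ⟨rfl, hb⟩, if_pos hb]
      · rw [if_neg fun h => hb h.2, if_neg hb]
    · intro S _ hS
      exact if_neg fun h => hS h.1.symm
    · intro h
      exact absurd (mem_univ _) h
  · simp only [if_neg hi0]
    by_cases hi1 : i.down = 1
    · simp only [if_pos hi1]
      refine le_trans (le_of_eq ?_) goal2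
      rw [sum_ite_eq univ (a, b), if_pos (mem_univ _), e2]
    · simp only [if_neg hi1]
      rw [← mul_sum, sum_add_distrib]
      have e3 : ∑ S : V × V, (if b = x ∧ E.nf E.s a b ∧ S.1 ∈ cN E.N a b ∧
          S.2 ∈ cN E.N a b then (1 : ℝ) else 0) ≤
          E.cod a b ^ 2 * (if b = x then 1 else 0) := by
        by_cases hb : b = x
        · rw [if_pos hb, mul_one]
          have : ∑ S : V × V, (if b = x ∧ E.nf E.s a b ∧ S.1 ∈ cN E.N a b ∧
              S.2 ∈ cN E.N a b then (1 : ℝ) else 0) =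
              ∑ S : V × V, (if S ∈ (cN E.N a b) ×ˢ (cN E.N a b) then (1 : ℝ) else 0) := by
            refine sum_congr rfl fun S _ => if_congr ?_ rfl rfl
            rw [mem_product]
            exact ⟨fun h => h.2.2, fun h => ⟨hb, hab, h⟩⟩
          rw [this, sum_ite_mem, univ_inter, sum_const, nsmul_eq_mul, mul_one, card_product]
          unfold GData.cod
          push_cast
          rw [pow_two]
        · rw [if_neg hb, mul_zero]
          exact (sum_eq_zero fun S _ => if_neg fun h => hb h.1).le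
      have e4 : ∑ S : V × V, (if S.2 = x ∧ E.nf E.s S.1 S.2 ∧ a ∈ cN E.N S.1 S.2 ∧
          b ∈ cN E.N S.1 S.2 then (1 : ℝ) else 0) =
          ((univ.filter fun u => E.nf E.s u x ∧ a ∈ cN E.N u x ∧ b ∈ cN E.N u x).card : ℝ) := by
        rw [Fintype.sum_prod_type]
        have : ∀ u : V, ∑ v : V, (if (u, v).2 = x ∧ E.nf E.s (u, v).1 (u, v).2 ∧
            a ∈ cN E.N (u, v).1 (u, v).2 ∧ b ∈ cN E.N (u, v).1 (u, v).2 then (1 : ℝ) else 0) =
            if E.nf E.s u x ∧ a ∈ cN E.N u x ∧ b ∈ cN E.N u x then 1 else 0 := by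
          intro u
          rw [sum_eq_single x]
          · exact if_congr ⟨fun h => h.2, fun h => ⟨rfl, h⟩⟩ rfl rfl
          · intro v _ hv
            exact if_neg fun h => hv h.1
          · intro h
            exact absurd (mem_univ x) h
        rw [sum_congr rfl fun u _ => this u, ← sum_filter, sum_const, nsmul_eq_mul, mul_one]
      rw [e4, mul_add, e2]
      have h5 : 1 / E.n1 * E.cod a b ^ 2 ≤ E.H := by
        rw [one_div, inv_mul_le_iff₀ hn]
        have h6 : E.cod a b ^ 2 ≤ E.am ^ 2 :=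
          pow_le_pow_left₀ (Nat.cast_nonneg _) hab.1.2.2.2 2
        have h7 := hE.dat.par2
        linarith
      have h6 := mul_le_mul_of_nonneg_left e3 (show 0 ≤ 1 / E.n1 by positivity)
      have h7 : 1 / E.n1 * (E.cod a b ^ 2 * (if b = x then (1 : ℝ) else 0)) ≤
          E.Kc * (2 * E.ωx x a b) := by
        rw [← mul_assoc]
        refine mul_le_mul (h5.trans hHK) h1 ?_ (by linarith)
        split_ifs <;> norm_num
      unfold ωX
      nlinarith

/-- Second kind of kernels. -/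
theorem wK_g (y y' : V) (z z' : V) (l : Lb) :
    E.wK (Sum.inr (Sum.inl (y, y'))) z z' l ≤ 2 * E.Mf (E.ωg y y') z z' l := by
  refine wK_gen (fun a b hab => ?_) z z' l
  have h1 := ot_half_x (x := y) hab
  have h2 := ot_half_x (x := y') hab
  show ∑ S : V × V, (if E.far a b ∧ E.far S.1 S.2 then
        (if a = S.1 ∧ b = y ∧ S.2 = y' then (1 : ℝ) else 0) +
        (if a = S.1 ∧ S.2 = y ∧ b = y' then 1 else 0) else 0) ≤ _
  have e1 : ∑ S : V × V, (if E.far a b ∧ E.far S.1 S.2 then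
        (if a = S.1 ∧ b = y ∧ S.2 = y' then (1 : ℝ) else 0) +
        (if a = S.1 ∧ S.2 = y ∧ b = y' then 1 else 0) else 0) ≤
      ∑ S : V × V, ((if S = (a, y') then (if b = y then (1 : ℝ) else 0) else 0) +
        (if S = (a, y) then (if b = y' then (1 : ℝ) else 0) else 0)) := by
    refine sum_le_sum fun S _ => ?_
    have p1 : (if a = S.1 ∧ b = y ∧ S.2 = y' then (1 : ℝ) else 0) ≤
        if S = (a, y') then (if b = y then (1 : ℝ) else 0) else 0 := by
      by_cases h : a = S.1 ∧ b = y ∧ S.2 = y'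
      · rw [if_pos h, if_pos (Prod.ext h.1.symm h.2.2), if_pos h.2.1]
      · rw [if_neg h]
        split_ifs <;> norm_num
    have p2 : (if a = S.1 ∧ S.2 = y ∧ b = y' then (1 : ℝ) else 0) ≤
        if S = (a, y) then (if b = y' then (1 : ℝ) else 0) else 0 := by
      by_cases h : a = S.1 ∧ S.2 = y ∧ b = y'
      · rw [if_pos h, if_pos (Prod.ext h.1.symm h.2.1), if_pos h.2.2]
      · rw [if_neg h]
        split_ifs <;> norm_num
    have q1 : (0 : ℝ) ≤ (if a = S.1 ∧ b = y ∧ S.2 = y' then (1 : ℝ) else 0) := by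
      split_ifs <;> norm_num
    have q2 : (0 : ℝ) ≤ (if a = S.1 ∧ S.2 = y ∧ b = y' then (1 : ℝ) else 0) := by
      split_ifs <;> norm_num
    by_cases hf : E.far a b ∧ E.far S.1 S.2
    · rw [if_pos hf]
      linarith
    · rw [if_neg hf]
      linarith
  refine e1.trans ?_
  rw [sum_add_distrib, sum_ite_eq' univ (a, y'), sum_ite_eq' univ (a, y), if_pos (mem_univ _),
    if_pos (mem_univ _)]
  unfold ωg
  linarith

/-- Third kind of kernels. -/
theorem wK_a (α : AL) (z z' : V) (l : Lb) :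
    E.wK (Sum.inr (Sum.inr α)) z z' l ≤ 2 * E.Mf (E.ωa α) z z' l := by
  refine wK_gen (fun a b hab => ?_) z z' l
  show ∑ S : V × V, (if (a, b) = S then E.a α a b else 0) ≤ _
  rw [sum_ite_eq univ (a, b), if_pos (mem_univ _)]
  unfold ωa
  rw [if_pos hab]
  linarith

theorem wK_abs (hE : E.Ok) (b : Krn V AL) (z z' : V) (l : Lb) :
    |E.wK b z z' l| = E.wK b z z' l := abs_of_nonneg (wK_nonneg hE b z z' l)

theorem wK_X' (hE : E.Ok) (i : ULift.{u} (Fin 3)) (x : V) (z z' : V) (l : Lb) :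
    |E.wK (Sum.inl (i, x)) z z' l| ≤ (2 * E.Kc) * E.Mf (E.ωX x) z z' l := by
  rw [wK_abs hE]
  exact wK_X hE i x z z' l

theorem wK_g' (hE : E.Ok) (y y' : V) (z z' : V) (l : Lb) :
    |E.wK (Sum.inr (Sum.inl (y, y'))) z z' l| ≤ 2 * E.Mf (E.ωg y y') z z' l := by
  rw [wK_abs hE]
  exact wK_g y y' z z' l

theorem wK_a' (hE : E.Ok) (α : AL) (z z' : V) (l : Lb) :
    |E.wK (Sum.inr (Sum.inr α)) z z' l| ≤ 2 * E.Mf (E.ωa α) z z' l := by
  rw [wK_abs hE]
  exact wK_a α z z' l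

section kernels

variable (hE : E.Ok)
include hE

theorem wK_ne {b : Krn V AL} {z z' : V} {l : Lb} (h : E.wK b z z' l ≠ 0) :
    E.chi E.s z z' ≠ 0 ∧ 0 < E.cod z z' := by
  unfold wK at h
  obtain ⟨P, -, hP⟩ := exists_ne_zero_of_sum_ne_zero h
  obtain ⟨S, -, hS⟩ := exists_ne_zero_of_sum_ne_zero hP
  have h1 : E.gu l z z' P.1 P.2 ≠ 0 := by
    intro h2
    apply hS
    unfold af
    rw [h2, abs_zero, mul_zero]
  exact ⟨ot_gu_chi hE h1, ot_gu_cod hE h1⟩

theorem wb_pos (b : Krn V AL) : 0 < E.wb b := by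
  have hT := os_T_pos hE.dat
  rcases b with ⟨i, x⟩ | ⟨y, y'⟩ | α
  · exact pow_pos hT _
  · exact pow_pos hT _
  · exact mul_pos (pow_pos hT 2) (hE.dat.s1_pos α)

theorem wK_le (b : Krn V AL) (z z' : V) (l : Lb) : E.wK b z z' l ≤ E.wb b := by
  have ha := os_am_pos hE.dat
  have hK := os_Kc_one hE.dat
  have hT := os_T_pos hE.dat
  have hT1 := os_T_ge hE.dat
  rcases b with ⟨i, x⟩ | ⟨y, y'⟩ | α
  · refine (wK_X hE i x z z' l).trans ((mul_le_mul_of_nonneg_left (ωX_max hE x z z' l)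
      (by linarith)).trans ?_)
    calc 2 * E.Kc * (2 * E.Kc ^ 2 * E.am) = (4 * E.Kc ^ 3) * E.am := by ring
      _ ≤ E.T ^ 2403 := ot_T_mul hE.dat (m := 1) (n := 2401)
          (by rw [pow_one]; exact ot_num hE.dat (by norm_num) (by norm_num)) hE.dat.am_hi ha.le
          (by norm_num)
  · refine (wK_g y y' z z' l).trans ((mul_le_mul_of_nonneg_left (ωg_max hE y y' z z' l)
      (by linarith)).trans ?_)
    calc 2 * (2 * E.Kc ^ 2 * E.am) = (4 * E.Kc ^ 2) * E.am := by ring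
      _ ≤ E.T ^ 2403 := ot_T_mul hE.dat (m := 1) (n := 2401)
          (by rw [pow_one]; exact ot_num hE.dat (by norm_num) (by norm_num)) hE.dat.am_hi ha.le
          (by norm_num)
  · refine (wK_a α z z' l).trans ((mul_le_mul_of_nonneg_left (ωa_max hE α z z' l)
      (by linarith)).trans ?_)
    have hs := hE.dat.s1_pos α
    calc 2 * (2 * E.Kc * E.s1 α) = (4 * E.Kc ^ 1) * E.s1 α := by ring
      _ ≤ E.T * E.s1 α := mul_le_mul_of_nonneg_right
          (ot_num hE.dat (by norm_num) (by norm_num)) hs.le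
      _ ≤ E.T ^ 2 * E.s1 α := mul_le_mul_of_nonneg_right (by nlinarith) hs.le

/-- Rows of the kernels in a set of vertices. -/
theorem wK_row_U (U : Finset V) {a : ℝ} (ha : 0 ≤ a)
    (hU : ∀ v w, E.cod v w ≤ E.am → ((cN E.N v w ∩ U).card : ℝ) ≤ a) (z : V) :
    (∀ i x, ∑ z' ∈ U, ∑ l, E.μ z z' l * E.wK (Sum.inl (i, x)) z z' l ≤ E.T ^ 4816 * a) ∧
    (∀ y y', ∑ z' ∈ U, ∑ l, E.μ z z' l * E.wK (Sum.inr (Sum.inl (y, y'))) z z' l ≤
      E.T ^ 4816 * a) ∧
    ∀ α, ∑ z' ∈ U, ∑ l, E.μ z z' l * E.wK (Sum.inr (Sum.inr α)) z z' l ≤ E.T * a * E.La α := by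
  have hK := os_Kc_one hE.dat
  have hT := os_T_pos hE.dat
  refine ⟨fun i x => ?_, fun y y' => ?_, fun α => ?_⟩
  · have h := gen_row hE (by linarith) (ωX_nonneg hE x) (fun z z' l => wK_X' hE i x z z' l) U ha
      hU (ωX_tot hE x) z
    simp only [wK_abs hE] at h
    refine h.trans ?_
    calc 2 * E.Kc * (E.Kc * a * (2 * E.T ^ 4815)) = (4 * E.Kc ^ 2) * (E.T ^ 4815 * a) := by ring
      _ ≤ E.T * (E.T ^ 4815 * a) := mul_le_mul_of_nonneg_right
          (ot_num hE.dat (by norm_num) (by norm_num)) (mul_nonneg (by positivity) ha)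
      _ = _ := by rw [pow_succ E.T 4815]; ring
  · have h := gen_row hE (by norm_num) (ωg_nonneg y y') (fun z z' l => wK_g' hE y y' z z' l) U ha
      hU (ωg_tot hE y y') z
    simp only [wK_abs hE] at h
    refine h.trans ?_
    calc 2 * (E.Kc * a * (2 * E.T ^ 4815)) = (4 * E.Kc ^ 1) * (E.T ^ 4815 * a) := by ring
      _ ≤ E.T * (E.T ^ 4815 * a) := mul_le_mul_of_nonneg_right
          (ot_num hE.dat (by norm_num) (by norm_num)) (mul_nonneg (by positivity) ha)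
      _ = _ := by rw [pow_succ E.T 4815]; ring
  · have h := gen_row hE (by norm_num) (ωa_nonneg hE α) (fun z z' l => wK_a' hE α z z' l) U ha
      hU (ωa_tot hE α) z
    simp only [wK_abs hE] at h
    refine h.trans ?_
    calc 2 * (E.Kc * a * E.La α) = (2 * E.Kc ^ 1) * (a * E.La α) := by ring
      _ ≤ E.T * (a * E.La α) := mul_le_mul_of_nonneg_right
          (ot_num hE.dat (by norm_num) (by norm_num)) (mul_nonneg ha (ot_La_nonneg hE α))
      _ = _ := by ring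

theorem wK_row (b : Krn V AL) (z : V) :
    ∑ z', ∑ l, E.μ z z' l * E.wK b z z' l ≤ E.dB b := by
  have ha := os_am_pos hE.dat
  have hT := os_T_pos hE.dat
  obtain ⟨h1, h2, h3⟩ := wK_row_U hE univ ha.le (ot_univ_card hE) z
  have h4 : E.T ^ 4816 * E.am ≤ E.T ^ 7220 :=
    ot_T_mul hE.dat le_rfl hE.dat.am_hi ha.le (by norm_num)
  rcases b with ⟨i, x⟩ | ⟨y, y'⟩ | α
  · exact (h1 i x).trans h4
  · exact (h2 y y').trans h4
  · refine (h3 α).trans ?_
    show E.T * E.am * E.La α ≤ E.T ^ 2404 * E.La α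
    refine mul_le_mul_of_nonneg_right ?_ (ot_La_nonneg hE α)
    exact ot_T_mul hE.dat (m := 1) (n := 2401) (by rw [pow_one]) hE.dat.am_hi ha.le
      (by norm_num)

theorem wK_tot (b : Krn V AL) :
    ∑ z, ∑ z', ∑ l, E.μ z z' l * E.wK b z z' l ≤ E.tB b := by
  have hn := os_n1_pos hE.dat
  have hK := os_Kc_one hE.dat
  have hT := os_T_pos hE.dat
  rcases b with ⟨i, x⟩ | ⟨y, y'⟩ | α
  · have h := gen_tot hE (by linarith) (ωX_nonneg hE x) (fun z z' l => wK_X' hE i x z z' l)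
      (ωX_Y hE x)
    simp only [wK_abs hE] at h
    refine h.trans ?_
    calc 2 * E.Kc * (4 * E.n1 * E.Kc ^ 2 * (E.Kc ^ 2 * E.n1)) =
          (8 * E.Kc ^ 5) * E.n1 ^ 2 := by ring
      _ ≤ E.T * E.n1 ^ 2 := mul_le_mul_of_nonneg_right
          (ot_num hE.dat (by norm_num) (by norm_num)) (by positivity)
  · have h := gen_tot hE (by norm_num) (ωg_nonneg y y') (fun z z' l => wK_g' hE y y' z z' l)
      (ωg_Y hE y y')
    simp only [wK_abs hE] at h
    refine h.trans ?_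
    calc 2 * (4 * E.n1 * E.Kc ^ 2 * (E.Kc ^ 2 * E.n1)) =
          (8 * E.Kc ^ 4) * E.n1 ^ 2 := by ring
      _ ≤ E.T * E.n1 ^ 2 := mul_le_mul_of_nonneg_right
          (ot_num hE.dat (by norm_num) (by norm_num)) (by positivity)
  · have h := gen_tot hE (by norm_num) (ωa_nonneg hE α) (fun z z' l => wK_a' hE α z z' l)
      (ωa_Y hE α)
    simp only [wK_abs hE] at h
    refine h.trans ?_
    calc 2 * (4 * E.n1 * E.Kc ^ 2 * (E.Kc * E.La α)) =
          (8 * E.Kc ^ 3) * (E.n1 * E.La α) := by ring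
      _ ≤ E.T * (E.n1 * E.La α) := mul_le_mul_of_nonneg_right
          (ot_num hE.dat (by norm_num) (by norm_num)) (mul_nonneg hn.le (ot_La_nonneg hE α))
      _ = E.T * E.n1 * E.La α := by ring

/-- Rows of the label-independent majorants of the kernels in a set of vertices. -/
theorem wKs_row_U (U : Finset V) {a f1 : ℝ} (ha : 0 ≤ a)
    (hU : ∀ v w, E.cod v w ≤ E.am → ((cN E.N v w ∩ U).card : ℝ) ≤ a)
    (hF : ∀ x, ((U.filter fun u => E.far x u).card : ℝ) ≤ f1) (z : V) :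
    (∀ i x, ∑ z' ∈ U, (⨆ l, E.wK (Sum.inl (i, x)) z z' l) ≤
      E.T * (a * E.T ^ 4803 + f1 * E.T ^ 2402)) ∧
    (∀ y y', ∑ z' ∈ U, (⨆ l, E.wK (Sum.inr (Sum.inl (y, y'))) z z' l) ≤
      E.T * (a * E.T ^ 4803 + f1 * E.T ^ 2402)) ∧
    ∀ α, ∑ z' ∈ U, (⨆ l, E.wK (Sum.inr (Sum.inr α)) z z' l) ≤
      2 * (a * E.T ^ 2420 + f1 * E.T) * E.s1 α := by
  have hK := os_Kc_one hE.dat
  have hT := os_T_pos hE.dat
  have ham := os_am_pos hE.dat
  have hf1 : 0 ≤ f1 := le_trans (Nat.cast_nonneg _) (hF z)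
  have h2 : 2 * E.Kc ^ 2 * E.am ≤ E.T ^ 2402 :=
    ot_T_mul hE.dat (m := 1) (n := 2401)
      (by rw [pow_one]; exact ot_num hE.dat (by norm_num) (by norm_num)) hE.dat.am_hi ham.le
      (by norm_num)
  have h3 : a * E.T ^ 4803 + f1 * (2 * E.Kc ^ 2 * E.am) ≤
      a * E.T ^ 4803 + f1 * E.T ^ 2402 :=
    add_le_add le_rfl (mul_le_mul_of_nonneg_left h2 hf1)
  have h0 : 0 ≤ a * E.T ^ 4803 + f1 * (2 * E.Kc ^ 2 * E.am) := by
    have : 0 ≤ E.Kc := by linarith
    positivity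
  refine ⟨fun i x => ?_, fun y y' => ?_, fun α => ?_⟩
  · have h := gen_ws hE (by linarith) (ωX_nonneg hE x) (fun z z' l => wK_X' hE i x z z' l) U ha
      hU hF (by positivity) (ωX_max hE x) z (ωX_nb hE x z)
    simp only [wK_abs hE] at h
    refine h.trans (mul_le_mul ?_ h3 h0 hT.le)
    have := ot_num hE.dat (c := 2) (n := 1) (by norm_num) (by norm_num)
    rwa [pow_one] at this
  · have h := gen_ws hE (by norm_num) (ωg_nonneg y y') (fun z z' l => wK_g' hE y y' z z' l) U ha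
      hU hF (by positivity) (ωg_max hE y y') z (ωg_nb hE y y' z)
    simp only [wK_abs hE] at h
    refine h.trans (mul_le_mul ?_ h3 h0 hT.le)
    have := os_T_ge hE.dat
    linarith
  · have hs := hE.dat.s1_pos α
    have h := gen_ws hE (by norm_num) (ωa_nonneg hE α) (fun z z' l => wK_a' hE α z z' l) U ha
      hU hF (by positivity) (ωa_max hE α) z (ωa_nb hE α z)
    simp only [wK_abs hE] at h
    refine h.trans ?_
    have h5 : 2 * E.Kc ≤ E.T := by
      have := ot_num hE.dat (c := 2) (n := 1) (by norm_num) (by norm_num)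
      rwa [pow_one] at this
    have h6 : f1 * (2 * E.Kc * E.s1 α) ≤ f1 * (E.T * E.s1 α) :=
      mul_le_mul_of_nonneg_left (mul_le_mul_of_nonneg_right h5 hs.le) hf1
    have h7 : 2 * (a * E.T ^ 2420 + f1 * E.T) * E.s1 α =
        2 * (a * (E.T ^ 2420 * E.s1 α) + f1 * (E.T * E.s1 α)) := by ring
    rw [h7]
    linarith

theorem wKs_row (b : Krn V AL) (z : V) :
    ∑ z', (⨆ l, E.wK b z z' l) ≤ E.T ^ 4870 * E.wb b := by
  have ha := os_am_pos hE.dat
  have hT := os_T_pos hE.dat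
  obtain ⟨h1, h2, h3⟩ := wKs_row_U hE univ ha.le (ot_univ_card hE) (ot_far_card hE.dat) z
  have h4 : E.T * (E.am * E.T ^ 4803 + E.T ^ 4815 * E.T ^ 2402) ≤ E.T ^ 4870 * E.T ^ 2403 := by
    have p1 : E.am * E.T ^ 4803 ≤ E.T ^ 7217 :=
      ot_T_mul hE.dat hE.dat.am_hi le_rfl (by positivity) (by norm_num)
    have p2 : E.T ^ 4815 * E.T ^ 2402 ≤ E.T ^ 7217 :=
      ot_T_mul hE.dat le_rfl le_rfl (by positivity) (by norm_num)
    have p3 : 2 * E.T ^ 7217 ≤ E.T ^ 7218 := ot_two hE.dat 7217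
    have p4 : E.T ^ 4870 * E.T ^ 2403 = E.T ^ 7273 := by rw [← pow_add]
    rw [p4]
    exact ot_T_mul hE.dat (m := 1) (n := 7218) (by rw [pow_one]) (by linarith) (by positivity)
      (by norm_num)
  rcases b with ⟨i, x⟩ | ⟨y, y'⟩ | α
  · exact (h1 i x).trans h4
  · exact (h2 y y').trans h4
  · refine (h3 α).trans ?_
    have hs := hE.dat.s1_pos α
    show 2 * (E.am * E.T ^ 2420 + E.T ^ 4815 * E.T) * E.s1 α ≤ E.T ^ 4870 * (E.T ^ 2 * E.s1 α)
    rw [← mul_assoc]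
    refine mul_le_mul_of_nonneg_right ?_ hs.le
    have p1 : E.am * E.T ^ 2420 ≤ E.T ^ 4821 :=
      ot_T_mul hE.dat hE.dat.am_hi le_rfl (by positivity) (by norm_num)
    have p2 : E.T ^ 4815 * E.T ≤ E.T ^ 4821 := by
      rw [← pow_succ]
      exact hE.dat.big.pw (by norm_num)
    have p3 : 2 * E.T ^ 4821 ≤ E.T ^ 4822 := ot_two hE.dat 4821
    have p4 : 2 * E.T ^ 4822 ≤ E.T ^ 4823 := ot_two hE.dat 4822
    have p5 : E.T ^ 4823 ≤ E.T ^ 4872 := hE.dat.big.pw (by norm_num)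
    rw [← pow_add]
    show 2 * (E.am * E.T ^ 2420 + E.T ^ 4815 * E.T) ≤ E.T ^ 4872
    linarith

/-! ### Supports and degrees of the kernels -/

theorem wK_supp {b : Krn V AL} {z z' : V} {l : Lb} (h : E.wK b z z' l ≠ 0) :
    ∃ P S, E.omk b P S ≠ 0 ∧ P ∈ (E.toGData.sd E.s).prs z := by
  unfold wK at h
  obtain ⟨P, -, hP⟩ := exists_ne_zero_of_sum_ne_zero h
  obtain ⟨S, -, hS⟩ := exists_ne_zero_of_sum_ne_zero hP
  refine ⟨P, S, fun h2 => hS (by rw [h2, zero_mul]), ot_gu_prs hE (l := l) (z' := z') ?_⟩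
  intro h2
  apply hS
  unfold af
  rw [h2, abs_zero, mul_zero]

theorem wK_near_X {i : ULift.{u} (Fin 3)} {x z z' : V} {l : Lb}
    (h : E.wK (Sum.inl (i, x)) z z' l ≠ 0) : E.near3 z x := by
  have h1 : E.wK (Sum.inl (i, x)) z z' l ≠ 0 := h
  obtain ⟨a, b, h2, -, h3⟩ := maj_supp hE h1 (wK_X' hE i x z z' l)
  exact near_of_ωX hE h2 h3

theorem wK_near_g {y y' z z' : V} {l : Lb}
    (h : E.wK (Sum.inr (Sum.inl (y, y'))) z z' l ≠ 0) : E.nearg z y y' := by
  obtain ⟨P, S, h1, h2⟩ := wK_supp hE h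
  have h3 : (if E.far P.1 P.2 ∧ E.far S.1 S.2 then
        (if P.1 = S.1 ∧ P.2 = y ∧ S.2 = y' then (1 : ℝ) else 0) +
        (if P.1 = S.1 ∧ S.2 = y ∧ P.2 = y' then 1 else 0) else 0) ≠ 0 := h1
  have hf : E.far P.1 P.2 ∧ E.far S.1 S.2 := by
    by_contra hf
    exact h3 (if_neg hf)
  rw [if_pos hf] at h3
  by_cases h4 : P.1 = S.1 ∧ P.2 = y ∧ S.2 = y'
  · refine Or.inl ⟨P.1, ?_, ?_⟩
    · have : P = (P.1, y) := Prod.ext rfl h4.2.1
      rw [← this]
      exact h2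
    · rw [h4.1, ← h4.2.2]
      exact hf.2
  · rw [if_neg h4, zero_add] at h3
    have h5 : P.1 = S.1 ∧ S.2 = y ∧ P.2 = y' := by
      by_contra h6
      exact h3 (if_neg h6)
    refine Or.inr ⟨P.1, ?_, ?_⟩
    · have : P = (P.1, y') := Prod.ext rfl h5.2.2
      rw [← this]
      exact h2
    · rw [h5.1, ← h5.2.1]
      exact hf.2

theorem wK_near_a {α : AL} {z z' : V} {l : Lb}
    (h : E.wK (Sum.inr (Sum.inr α)) z z' l ≠ 0) : E.near4 z (E.ctr α) := by
  obtain ⟨P, S, h1, h2⟩ := wK_supp hE h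
  have h3 : (if P = S then E.a α P.1 P.2 else 0) ≠ 0 := h1
  have h4 : E.a α P.1 P.2 ≠ 0 := by
    intro h5
    rw [h5] at h3
    exact h3 (by split_ifs <;> rfl)
  exact near4_of_a hE h4 h2

variable (E) in
/-- Support of a kernel. -/
noncomputable def sptK (b : Krn V AL) : Finset V := univ.filter fun z => ∃ z' l, E.wK b z z' l ≠ 0

theorem wKs_spt {b : Krn V AL} {z z' : V} (h : (⨆ l, E.wK b z z' l) ≠ 0 ∨
    (⨆ l, E.wK b z' z l) ≠ 0) : z ∈ E.sptK b := by
  rcases h with h | h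
  · obtain ⟨l, hl⟩ := ot_iSup_ne h
    exact mem_filter.2 ⟨mem_univ _, z', l, hl⟩
  · obtain ⟨l, hl⟩ := ot_iSup_ne h
    rw [wK_symm hE] at hl
    exact mem_filter.2 ⟨mem_univ _, z', l, hl⟩

theorem sptK_card (b : Krn V AL) : ((E.sptK b).card : ℝ) ≤ E.T ^ 14900 := by
  have hT := os_T_ge hE.dat
  have hT0 : 0 ≤ E.T ^ 14400 := pow_nonneg (os_T_pos hE.dat).le _
  have h6 : 6 * E.T ^ 14400 ≤ E.T ^ 14900 := by
    have h7 : E.T ^ 14401 ≤ E.T ^ 14900 := hE.dat.big.pw (by norm_num)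
    rw [pow_succ E.T 14400, mul_comm] at h7
    have h8 := mul_le_mul_of_nonneg_right (show (6 : ℝ) ≤ E.T by linarith) hT0
    linarith
  have key : ∀ S : Finset V, E.sptK b ⊆ S → (S.card : ℝ) ≤ 6 * E.T ^ 14400 →
      ((E.sptK b).card : ℝ) ≤ E.T ^ 14900 := by
    intro S h1 h2
    have h3 : ((E.sptK b).card : ℝ) ≤ S.card := by exact_mod_cast card_le_card h1
    linarith
  rcases b with ⟨i, x⟩ | ⟨y, y'⟩ | α
  · refine key (univ.filter fun z => E.near3 z x) ?_ (near3_card hE x)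
    intro z hz
    obtain ⟨z', l, h⟩ := (mem_filter.1 hz).2
    exact mem_filter.2 ⟨mem_univ _, wK_near_X hE h⟩
  · refine key (univ.filter fun z => E.nearg z y y') ?_ (nearg_card hE y y')
    intro z hz
    obtain ⟨z', l, h⟩ := (mem_filter.1 hz).2
    exact mem_filter.2 ⟨mem_univ _, wK_near_g hE h⟩
  · refine key (univ.filter fun z => E.near4 z (E.ctr α)) ?_ ?_
    · intro z hz
      obtain ⟨z', l, h⟩ := (mem_filter.1 hz).2
      exact mem_filter.2 ⟨mem_univ _, wK_near_a hE h⟩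
    · have := near4_card hE (E.ctr α)
      linarith

theorem sptK_deg (z : V) :
    ((univ.filter fun b : Krn V AL => z ∈ E.sptK b).card : ℝ) ≤ E.T ^ 20000 := by
  have hT := os_T_ge hE.dat
  have hT0 : 0 ≤ E.T ^ 19215 := pow_nonneg (os_T_pos hE.dat).le _
  have e1 : ((univ.filter fun b : Krn V AL => z ∈ E.sptK b).card : ℝ) =
      ∑ b : Krn V AL, (if z ∈ E.sptK b then (1 : ℝ) else 0) := by
    rw [← sum_filter, sum_const, nsmul_eq_mul, mul_one]
  rw [e1, Fintype.sum_sum_type, Fintype.sum_sum_type]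
  have b1 : ∑ e : (ULift.{u} (Fin 3)) × V,
      (if z ∈ E.sptK (Sum.inl e) then (1 : ℝ) else 0) ≤ 3 * (6 * E.T ^ 14400) := by
    calc _ ≤ ∑ e : (ULift.{u} (Fin 3)) × V, (if E.near3 z e.2 then (1 : ℝ) else 0) := by
          refine sum_le_sum fun e _ => ?_
          by_cases h : z ∈ E.sptK (Sum.inl e)
          · obtain ⟨z', l, h1⟩ := (mem_filter.1 h).2
            rw [if_pos h, if_pos (wK_near_X hE (i := e.1) (x := e.2) h1)]
          · rw [if_neg h]
            split_ifs <;> norm_num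
      _ = 3 * ((univ.filter fun x => E.near3 z x).card : ℝ) := by
          rw [ot_prod_card, Fintype.card_ulift, Fintype.card_fin]
          norm_num
      _ ≤ _ := mul_le_mul_of_nonneg_left (near3_deg hE z) (by norm_num)
  have b2 : ∑ e : V × V, (if z ∈ E.sptK (Sum.inr (Sum.inl e)) then (1 : ℝ) else 0) ≤
      6 * E.T ^ 19215 := by
    calc _ ≤ ∑ e : V × V, (if E.nearg z e.1 e.2 then (1 : ℝ) else 0) := by
          refine sum_le_sum fun e _ => ?_
          by_cases h : z ∈ E.sptK (Sum.inr (Sum.inl e))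
          · obtain ⟨z', l, h1⟩ := (mem_filter.1 h).2
            rw [if_pos h, if_pos (wK_near_g hE (y := e.1) (y' := e.2) h1)]
          · rw [if_neg h]
            split_ifs <;> norm_num
      _ = ((univ.filter fun e : V × V => E.nearg z e.1 e.2).card : ℝ) := by
          rw [← sum_filter, sum_const, nsmul_eq_mul, mul_one]
      _ ≤ _ := nearg_deg hE z
  have b3 : ∑ α : AL, (if z ∈ E.sptK (Sum.inr (Sum.inr α)) then (1 : ℝ) else 0) ≤
      3 * E.T ^ 14500 := by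
    calc _ ≤ ∑ α : AL, (if E.near4 z (E.ctr α) then (1 : ℝ) else 0) := by
          refine sum_le_sum fun α _ => ?_
          by_cases h : z ∈ E.sptK (Sum.inr (Sum.inr α))
          · obtain ⟨z', l, h1⟩ := (mem_filter.1 h).2
            rw [if_pos h, if_pos (wK_near_a hE h1)]
          · rw [if_neg h]
            split_ifs <;> norm_num
      _ = ((univ.filter fun α : AL => E.near4 z (E.ctr α)).card : ℝ) := by
          rw [← sum_filter, sum_const, nsmul_eq_mul, mul_one]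
      _ ≤ _ := near4_deg hE z
  have p1 : E.T ^ 14400 ≤ E.T ^ 19215 := hE.dat.big.pw (by norm_num)
  have p2 : E.T ^ 14500 ≤ E.T ^ 19215 := hE.dat.big.pw (by norm_num)
  have p3 : E.T ^ 19216 ≤ E.T ^ 20000 := hE.dat.big.pw (by norm_num)
  rw [pow_succ E.T 19215, mul_comm] at p3
  have p4 := mul_le_mul_of_nonneg_right (show (100 : ℝ) ≤ E.T by linarith) hT0
  linarith

theorem wKs_supp (b : Krn V AL) : ((univ.filter fun z => ∃ z', (⨆ l, E.wK b z z' l) ≠ 0 ∨
    (⨆ l, E.wK b z' z l) ≠ 0).card : ℝ) ≤ E.T ^ 15000 := by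
  refine le_trans ?_ ((sptK_card hE b).trans (hE.dat.big.pw (by norm_num)))
  have h : (univ.filter fun z => ∃ z', (⨆ l, E.wK b z z' l) ≠ 0 ∨
      (⨆ l, E.wK b z' z l) ≠ 0) ⊆ E.sptK b := by
    intro z hz
    obtain ⟨z', h1⟩ := (mem_filter.1 hz).2
    exact wKs_spt hE h1
  exact_mod_cast card_le_card h

theorem wKs_deg (z : V) : ((univ.filter fun b => ∃ z', (⨆ l, E.wK b z z' l) ≠ 0 ∨
    (⨆ l, E.wK b z' z l) ≠ 0).card : ℝ) ≤ E.T ^ 21000 := by
  refine le_trans ?_ ((sptK_deg hE z).trans (hE.dat.big.pw (by norm_num)))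
  have h : (univ.filter fun b => ∃ z', (⨆ l, E.wK b z z' l) ≠ 0 ∨
      (⨆ l, E.wK b z' z l) ≠ 0) ⊆ univ.filter fun b : Krn V AL => z ∈ E.sptK b := by
    intro b hb
    obtain ⟨z', h1⟩ := (mem_filter.1 hb).2
    exact mem_filter.2 ⟨mem_univ _, wKs_spt hE h1⟩
  exact_mod_cast card_le_card h

end kernels

end GSt

end Pool.Agent.AcyG
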