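import Pool.Agent.AcyG.OTab

/-! # The general linear functional of the effects of a firing (project MP_af9dfb_G, row OTab) -/

set_option autoImplicit false
set_option linter.unusedSectionVars false

namespace Pool.Agent.AcyG

open Finset
open Pool.Agent.AcyK (Big cN)
open scoped Classical

universe u

variable {V AL : Type u} [Fintype V] [DecidableEq V] [Fintype AL]

namespace GData

variable {D : GData V AL}

theorem ot_cod_sum (hD : D.Ok) (x : V) : ∑ y, D.cod x y ≤ D.T ^ 7200 := by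
  have h1 : ∀ v, ((D.N v).card : ℝ) ≤ D.T ^ 3600 := hD.deg
  have h0 : (0 : ℝ) ≤ D.T ^ 3600 := pow_nonneg (os_T_pos hD).le _
  have h2 : ∑ y, D.cod x y = ∑ z ∈ D.N x, ((D.N z).card : ℝ) := by
    have h2 : ∀ y, D.cod x y = ∑ z ∈ D.N x, if y ∈ D.N z then (1 : ℝ) else 0 := by
      intro y
      rw [← sum_filter, sum_const, nsmul_eq_mul, mul_one]
      unfold cod cN
      congr 2
      ext z
      simp only [mem_inter, mem_filter]
      exact and_congr_right fun _ => ⟨hD.N_symm z y, hD.N_symm y z⟩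
    simp only [h2]
    rw [sum_comm]
    refine sum_congr rfl fun z _ => ?_
    rw [sum_ite_mem, univ_inter, sum_const, nsmul_eq_mul, mul_one]
  rw [h2]
  calc ∑ z ∈ D.N x, ((D.N z).card : ℝ) ≤ ∑ z ∈ D.N x, D.T ^ 3600 := sum_le_sum fun z _ => h1 z
    _ = ((D.N x).card : ℝ) * D.T ^ 3600 := by rw [sum_const, nsmul_eq_mul]
    _ ≤ D.T ^ 3600 * D.T ^ 3600 := mul_le_mul_of_nonneg_right (h1 x) h0
    _ = _ := by rw [← pow_add]

/-- Number of far pairs at a vertex. -/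
theorem ot_far_card (hD : D.Ok) (x : V) :
    ((univ.filter fun u => D.far x u).card : ℝ) ≤ D.T ^ 4815 := by
  have h0 := os_T_pos hD
  have h1 : D.T ^ 2385 * ((univ.filter fun u => D.far x u).card : ℝ) ≤ D.T ^ 7200 := by
    refine le_trans ?_ (ot_cod_sum hD x)
    calc _ = ∑ u ∈ univ.filter (fun u => D.far x u), D.T ^ 2385 := by
          rw [sum_const, nsmul_eq_mul, mul_comm]
      _ ≤ ∑ u ∈ univ.filter (fun u => D.far x u), D.cod x u :=
          sum_le_sum fun u hu => (mem_filter.1 hu).2.2.2.1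
      _ ≤ _ := sum_le_sum_of_subset_of_nonneg (subset_univ _) fun _ _ _ => Nat.cast_nonneg _
  have h2 : D.T ^ 7200 = D.T ^ 2385 * D.T ^ 4815 := by rw [← pow_add]
  rw [h2] at h1
  exact le_of_mul_le_mul_left h1 (pow_pos h0 _)

variable {W0 W1 : ℝ} {j : ℕ} {s : GState V} {C : V → Option (ℕ × Fin D.k × ℕ)}

/-- Sum of the rates of the far pairs at a vertex. -/
theorem ot_Y_sum (hD : D.Ok) (h : D.SInv W0 W1 j s C) (x : V) :
    ∑ u, (if D.far u x then D.Y s u x else 0) ≤ D.Kc * (D.am ^ 2 / 4000) := by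
  have hn := os_n1_pos hD
  have hK := os_Kc_one hD
  have ha := os_am_pos hD
  have h1 : ∀ u, (if D.far u x then D.Y s u x else 0) ≤
      D.Kc * D.am / (2 * D.n1) * D.cod x u := by
    intro u
    split_ifs with hf
    · refine (os_Y_le hD h u x).trans ?_
      rw [mul_div_assoc, mul_div_assoc, mul_assoc, div_mul_eq_mul_div, os_cod_symm x u, pow_two]
      refine mul_le_mul_of_nonneg_left ?_ (by linarith)
      exact div_le_div_of_nonneg_right (mul_le_mul_of_nonneg_right hf.2.2.2 (Nat.cast_nonneg _))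
        (by positivity)
    · have : 0 ≤ D.cod x u := Nat.cast_nonneg _
      positivity
  calc _ ≤ ∑ u, D.Kc * D.am / (2 * D.n1) * D.cod x u := sum_le_sum fun u _ => h1 u
    _ = D.Kc * D.am / (2 * D.n1) * ∑ u, D.cod x u := by rw [mul_sum]
    _ ≤ D.Kc * D.am / (2 * D.n1) * D.T ^ 7200 :=
        mul_le_mul_of_nonneg_left (ot_cod_sum hD x) (by positivity)
    _ ≤ D.Kc * D.am / (2 * D.n1) * (D.n1 * D.am / 2000) := by
        refine mul_le_mul_of_nonneg_left ?_ (by positivity)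
        have := hD.par1
        linarith
    _ = _ := by field_simp; ring

/-- The weights of the sites are bounded from below. -/
theorem ot_chi_lo (hD : D.Ok) (h : D.SInv W0 W1 j s C) (hj : j ≤ D.NS) {u x : V}
    (hc : D.chi s u x ≠ 0) : 1 / D.Kc ≤ D.chi s u x := by
  have hK := os_Kc_one hD
  rcases os_chi_cases hc with h1 | h1
  · rw [os_chi_nf h1]
    have h2 : D.dec j ≤ s.X u x := by
      rcases h.X_lo u x with h3 | h3
      · exact absurd h3 h1.2.2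
      · exact h3
    refine le_trans ?_ h2
    unfold dec
    rw [Real.exp_neg, ← one_div]
    refine one_div_le_one_div_of_le (Real.exp_pos _) (le_trans ?_ hD.Kc_exp)
    refine Real.exp_le_exp.2 ?_
    have h4 := os_jR hD hj
    have h5 := hD.H_one
    have h6 := hD.C0_one
    have h7 := hD.kap_one
    have h8 : 0 ≤ D.C0 * D.H := by positivity
    calc 4 * D.C0 * D.H * (j / D.R) = 4 * (D.C0 * D.H * (j / D.R)) := by ring
      _ ≤ 4 * (D.C0 * D.H * D.kap) := by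
          have := mul_le_mul_of_nonneg_left h4 h8
          linarith
      _ ≤ 10 * D.C0 * D.H * D.kap := by
          have : 0 ≤ D.C0 * D.H * D.kap := by positivity
          linarith
  · have h2 : D.chi s u x = 1 := by
      unfold chi
      rw [if_neg fun h3 => ?_, if_pos h1]
      have h4 := h3.1.2.2.1
      have h5 := h1.1.2.2
      linarith
    rw [h2, div_le_one (by linarith)]
    exact hK

end GData

namespace GSt

variable {Lb : Type u} [Fintype Lb] {E : GSt V Lb AL}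

open GData

theorem ot_sd (hE : E.Ok) : (E.toGData.sd E.s).Ok E.H (E.W0 * E.gr E.j) E.am :=
  sd_ok hE.dat hE.inv le_rfl

theorem ot_k1 (hE : E.Ok) : 0 ≤ 1 + (E.B0 : ℝ) * (1 + E.H / E.tau) := by
  have h1 := hE.tau_pos
  have h2 := hE.dat.H_one
  positivity

theorem ot_k2 (hE : E.Ok) : 0 ≤ 1 + E.q0 * (E.H * (1 + E.H / E.tau)) := by
  have h1 := hE.tau_pos
  have h2 := hE.dat.H_one
  have h3 := hE.q0_pos
  positivity

theorem ot_Bk1 (hE : E.Ok) : E.Bx * (1 + (E.B0 : ℝ) * (1 + E.H / E.tau)) ≤ E.Kc := by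
  refine le_trans ?_ hE.Bx_le
  refine mul_le_mul_of_nonneg_left ?_ (by have := hE.Bx_one; linarith)
  unfold GSt.Cx
  linarith [ot_k2 hE]

theorem ot_Bk2 (hE : E.Ok) : E.Bx * (1 + E.q0 * (E.H * (1 + E.H / E.tau))) ≤ E.Kc := by
  refine le_trans ?_ hE.Bx_le
  refine mul_le_mul_of_nonneg_left ?_ (by have := hE.Bx_one; linarith)
  unfold GSt.Cx
  linarith [ot_k1 hE]

theorem ot_Bx_Kc (hE : E.Ok) : E.Bx ≤ E.Kc := by
  refine le_trans ?_ (ot_Bk1 hE)
  have h1 := hE.tau_pos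
  have h2 := hE.dat.H_one
  have h3 : (1 : ℝ) ≤ 1 + (E.B0 : ℝ) * (1 + E.H / E.tau) := by
    have : 0 ≤ (E.B0 : ℝ) * (1 + E.H / E.tau) := by positivity
    linarith
  have h4 := hE.Bx_one
  nlinarith

theorem ot_u_le (hE : E.Ok) (l : Lb) (z z' x y : V) : |E.u l z z' x y| ≤ E.Bx := by
  refine (SData.Cols.abs_le hE.cols zero_le_one l z z' x y).trans ?_
  exact max_le le_rfl hE.Bx_one

theorem ot_gu_le (l : Lb) (z z' x y : V) : |E.gu l z z' x y| ≤ |E.u l z z' x y| := by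
  unfold GSt.gu
  split_ifs
  · exact le_rfl
  · rw [abs_zero]; exact abs_nonneg _

theorem ot_ga_le (l : Lb) (z z' x y : V) : |E.ga l z z' x y| ≤ |E.gu l z z' x y| := by
  unfold GSt.ga GSt.gu
  by_cases h : E.aw E.s x y
  · rw [if_pos h, if_pos (os_nf_of_aw h)]
  · rw [if_neg h, abs_zero]; exact abs_nonneg _

theorem ot_gu_Bx (hE : E.Ok) (l : Lb) (z z' x y : V) : |E.gu l z z' x y| ≤ E.Bx :=
  (ot_gu_le l z z' x y).trans (ot_u_le hE l z z' x y)

theorem ot_ga_Bx (hE : E.Ok) (l : Lb) (z z' x y : V) : |E.ga l z z' x y| ≤ E.Bx :=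
  (ot_ga_le l z z' x y).trans (ot_gu_Bx hE l z z' x y)

theorem ot_gu_nf {l : Lb} {z z' x y : V} (h : E.gu l z z' x y ≠ 0) : E.nf E.s x y := by
  unfold GSt.gu at h
  by_contra h1
  exact h (if_neg h1)

theorem ot_gu_u {l : Lb} {z z' x y : V} (h : E.gu l z z' x y ≠ 0) : E.u l z z' x y ≠ 0 := by
  unfold GSt.gu at h
  intro h1
  rw [h1] at h
  exact h (by split_ifs <;> rfl)

theorem ot_gu_chi (hE : E.Ok) {l : Lb} {z z' x y : V} (h : E.gu l z z' x y ≠ 0) :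
    E.chi E.s z z' ≠ 0 := by
  intro h1
  exact ot_gu_u h (SData.Cols.eq_zero_left hE.cols (D := E.toGData.sd E.s) h1)

theorem ot_gu_symm1 (hE : E.Ok) (l : Lb) (z z' x y : V) :
    E.gu l z z' x y = E.gu l z' z x y := by
  unfold GSt.gu
  rw [hE.cols.symm1 l z z' x y]

theorem ot_ga_symm1 (hE : E.Ok) (l : Lb) (z z' x y : V) :
    E.ga l z z' x y = E.ga l z' z x y := by
  unfold GSt.ga
  rw [hE.cols.symm1 l z z' x y]

theorem ot_gu_symm2 (hE : E.Ok) (l : Lb) (z z' x y : V) :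
    E.gu l z z' x y = E.gu l z z' y x := by
  unfold GSt.gu
  rw [hE.cols.symm2 l z z' x y]
  simp only [os_nf_comm hE.dat hE.inv.toSInv x y]

theorem ot_ga_symm2 (hE : E.Ok) (l : Lb) (z z' x y : V) :
    E.ga l z z' x y = E.ga l z z' y x := by
  unfold GSt.ga
  rw [hE.cols.symm2 l z z' x y]
  simp only [os_aw_comm hE.dat hE.inv.toSInv x y]

/-- Pairs on which there is an effect. -/
theorem ot_gu_prs (hE : E.Ok) {l : Lb} {z z' x y : V} (h : E.gu l z z' x y ≠ 0) :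
    (x, y) ∈ (E.toGData.sd E.s).prs z :=
  SData.Cols.mem_prs (ot_sd hE) hE.cols (ot_gu_u h)

variable (E) in
/-- General linear functional of the effects. -/
noncomputable def Mf (ω : V → V → ℝ) (z z' : V) (l : Lb) : ℝ :=
  ∑ a, ∑ b, ω a b * |E.gu l z z' a b|

theorem Mf_nonneg {ω : V → V → ℝ} (hω : ∀ a b, 0 ≤ ω a b) (z z' : V) (l : Lb) :
    0 ≤ E.Mf ω z z' l :=
  sum_nonneg fun a _ => sum_nonneg fun b _ => mul_nonneg (hω a b) (abs_nonneg _)

theorem Mf_symm (hE : E.Ok) (ω : V → V → ℝ) (z z' : V) (l : Lb) :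
    E.Mf ω z z' l = E.Mf ω z' z l := by
  unfold Mf
  exact sum_congr rfl fun a _ => sum_congr rfl fun b _ => by rw [ot_gu_symm1 hE]

/-- Maximum. -/
theorem Mf_max (hE : E.Ok) {ω : V → V → ℝ} (hs : ∀ a b, ω a b = ω b a) (hω : ∀ a b, 0 ≤ ω a b)
    {a : ℝ} (ha : 0 ≤ a) (hc : ∀ v w, E.cod v w ≤ E.am →
      1 / 2 * ∑ x ∈ cN E.N v w, ∑ y ∈ cN E.N v w, ω x y ≤ a) (z z' : V) (l : Lb) :
    E.Mf ω z z' l ≤ 2 * E.Kc * a := by
  have h1 := hE.cols.row_ext l z z' ω a hs hω ha (fun v w hvw =>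
    hc v w (os_chi_cod hE.dat hvw))
  have h2 : E.Mf ω z z' l ≤ E.Bx * ∑ x, ∑ y, (if E.u l z z' x y ≠ 0 then ω x y else 0) := by
    unfold Mf
    rw [mul_sum]
    refine sum_le_sum fun x _ => ?_
    rw [mul_sum]
    refine sum_le_sum fun y _ => ?_
    by_cases h : E.gu l z z' x y = 0
    · rw [h, abs_zero, mul_zero]
      refine mul_nonneg (by linarith [hE.Bx_one]) ?_
      split_ifs
      exacts [hω x y, le_rfl]
    · rw [if_pos (ot_gu_u h), mul_comm]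
      exact mul_le_mul_of_nonneg_right (ot_gu_Bx hE l z z' x y) (hω x y)
  have h3 : ∑ x, ∑ y, (if E.u l z z' x y ≠ 0 then ω x y else 0) ≤
      2 * ((1 + (E.B0 : ℝ) * (1 + E.H / E.tau)) * a) := by linarith
  calc _ ≤ _ := h2
    _ ≤ E.Bx * (2 * ((1 + (E.B0 : ℝ) * (1 + E.H / E.tau)) * a)) :=
        mul_le_mul_of_nonneg_left h3 (by linarith [hE.Bx_one])
    _ = 2 * (E.Bx * (1 + (E.B0 : ℝ) * (1 + E.H / E.tau))) * a := by ring
    _ ≤ 2 * E.Kc * a := by
        refine mul_le_mul_of_nonneg_right ?_ ha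
        linarith [ot_Bk1 hE]

/-- Mean effect of the partners of `z` in `U` on a site. -/
theorem ot_row_U (hE : E.Ok) (U : Finset V) {a : ℝ} (ha : 0 ≤ a)
    (hU : ∀ v w, E.cod v w ≤ E.am → ((cN E.N v w ∩ U).card : ℝ) ≤ a) (z x y : V) :
    ∑ z' ∈ U, ∑ l, E.μ z z' l * |E.gu l z z' x y| ≤ E.Kc * a := by
  have h1 := SData.Cols.col_row (ot_sd hE) hE.cols U ha (fun v w hvw =>
    hU v w (os_chi_cod hE.dat hvw)) z x y
  have hB := hE.Bx_one
  calc ∑ z' ∈ U, ∑ l, E.μ z z' l * |E.gu l z z' x y| ≤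
        ∑ z' ∈ U, ∑ l, E.μ z z' l * (E.Bx * (if E.u l z z' x y ≠ 0 then 1 else 0)) := by
        refine sum_le_sum fun z' _ => sum_le_sum fun l _ => ?_
        refine mul_le_mul_of_nonneg_left ?_ (hE.cols.mu_nonneg z z' l)
        by_cases h : E.gu l z z' x y = 0
        · rw [h, abs_zero]
          split_ifs <;> linarith
        · rw [if_pos (ot_gu_u h), mul_one]
          exact ot_gu_Bx hE l z z' x y
    _ = E.Bx * ∑ z' ∈ U, ∑ l, E.μ z z' l * (if E.u l z z' x y ≠ 0 then 1 else 0) := by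
        rw [mul_sum]
        refine sum_congr rfl fun z' _ => ?_
        rw [mul_sum]
        exact sum_congr rfl fun l _ => by ring
    _ ≤ E.Bx * ((1 + E.q0 * (E.H * (1 + E.H / E.tau))) * a) :=
        mul_le_mul_of_nonneg_left h1 (by linarith)
    _ = E.Bx * (1 + E.q0 * (E.H * (1 + E.H / E.tau))) * a := by ring
    _ ≤ E.Kc * a := mul_le_mul_of_nonneg_right (ot_Bk2 hE) ha

/-- Mean effect of the pairs in `U` on a site. -/
theorem ot_tot_U (hE : E.Ok) (U : Finset V) {a : ℝ} (ha : 0 ≤ a)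
    (hU : ∀ v w, E.cod v w ≤ E.am → ((cN E.N v w ∩ U).card : ℝ) ≤ a) (x y : V) :
    ∑ z ∈ U, ∑ z' ∈ U, ∑ l, E.μ z z' l * |E.gu l z z' x y| ≤ E.Kc * a ^ 2 := by
  have h1 := SData.Cols.col_tot hE.cols U (pow_nonneg ha 2) (fun v w hvw =>
    pow_le_pow_left₀ (Nat.cast_nonneg _) (hU v w (os_chi_cod hE.dat hvw)) 2) x y
  have hB := hE.Bx_one
  calc ∑ z ∈ U, ∑ z' ∈ U, ∑ l, E.μ z z' l * |E.gu l z z' x y| ≤
        ∑ z ∈ U, ∑ z' ∈ U, ∑ l, E.μ z z' l * (E.Bx * (if E.u l z z' x y ≠ 0 then 1 else 0)) := by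
        refine sum_le_sum fun z _ => sum_le_sum fun z' _ => sum_le_sum fun l _ => ?_
        refine mul_le_mul_of_nonneg_left ?_ (hE.cols.mu_nonneg z z' l)
        by_cases h : E.gu l z z' x y = 0
        · rw [h, abs_zero]
          split_ifs <;> linarith
        · rw [if_pos (ot_gu_u h), mul_one]
          exact ot_gu_Bx hE l z z' x y
    _ = E.Bx * ∑ z ∈ U, ∑ z' ∈ U, ∑ l, E.μ z z' l * (if E.u l z z' x y ≠ 0 then 1 else 0) := by
        rw [mul_sum]
        refine sum_congr rfl fun z _ => ?_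
        rw [mul_sum]
        refine sum_congr rfl fun z' _ => ?_
        rw [mul_sum]
        exact sum_congr rfl fun l _ => by ring
    _ ≤ E.Bx * ((1 + E.q0 * (E.H * (1 + E.H / E.tau))) * a ^ 2) :=
        mul_le_mul_of_nonneg_left h1 (by linarith)
    _ = E.Bx * (1 + E.q0 * (E.H * (1 + E.H / E.tau))) * a ^ 2 := by ring
    _ ≤ E.Kc * a ^ 2 := mul_le_mul_of_nonneg_right (ot_Bk2 hE) (by positivity)

/-- Exchange of sums. -/
theorem Mf_mean (ω : V → V → ℝ) (z : V) (U : Finset V) :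
    ∑ z' ∈ U, ∑ l, E.μ z z' l * E.Mf ω z z' l =
      ∑ a, ∑ b, ω a b * ∑ z' ∈ U, ∑ l, E.μ z z' l * |E.gu l z z' a b| := by
  have e1 : ∀ z', ∑ l, E.μ z z' l * E.Mf ω z z' l =
      ∑ a, ∑ b, ω a b * ∑ l, E.μ z z' l * |E.gu l z z' a b| := by
    intro z'
    unfold Mf
    simp only [mul_sum]
    rw [sum_comm]
    refine sum_congr rfl fun a _ => ?_
    rw [sum_comm]
    exact sum_congr rfl fun b _ => sum_congr rfl fun l _ => by ring
  simp only [e1]
  rw [sum_comm]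
  refine sum_congr rfl fun a _ => ?_
  rw [sum_comm]
  exact sum_congr rfl fun b _ => by rw [mul_sum]

/-- Row sums in `U`. -/
theorem Mf_row_U (hE : E.Ok) (U : Finset V) {a : ℝ} (ha : 0 ≤ a)
    (hU : ∀ v w, E.cod v w ≤ E.am → ((cN E.N v w ∩ U).card : ℝ) ≤ a)
    {ω : V → V → ℝ} (hω : ∀ a b, 0 ≤ ω a b) (z : V) :
    ∑ z' ∈ U, ∑ l, E.μ z z' l * E.Mf ω z z' l ≤ E.Kc * a * ∑ x, ∑ y, ω x y := by
  rw [Mf_mean, mul_sum]
  refine sum_le_sum fun x _ => ?_
  rw [mul_sum]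
  refine sum_le_sum fun y _ => ?_
  rw [mul_comm (E.Kc * a)]
  exact mul_le_mul_of_nonneg_left (ot_row_U hE U ha hU z x y) (hω x y)

/-- Row sums. -/
theorem Mf_row (hE : E.Ok) {ω : V → V → ℝ} (hω : ∀ a b, 0 ≤ ω a b) (z : V) :
    ∑ z', ∑ l, E.μ z z' l * E.Mf ω z z' l ≤ E.Kc * E.am * ∑ x, ∑ y, ω x y :=
  Mf_row_U hE univ (os_am_pos hE.dat).le (fun v w hvw => by rw [inter_univ]; exact hvw) hω z

/-- Totals in `U`. -/
theorem Mf_tot_U (hE : E.Ok) (U : Finset V) {a : ℝ} (ha : 0 ≤ a)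
    (hU : ∀ v w, E.cod v w ≤ E.am → ((cN E.N v w ∩ U).card : ℝ) ≤ a)
    {ω : V → V → ℝ} (hω : ∀ a b, 0 ≤ ω a b) :
    ∑ z ∈ U, ∑ z' ∈ U, ∑ l, E.μ z z' l * E.Mf ω z z' l ≤ E.Kc * a ^ 2 * ∑ x, ∑ y, ω x y := by
  simp only [Mf_mean]
  rw [sum_comm, mul_sum]
  refine sum_le_sum fun x _ => ?_
  rw [sum_comm, mul_sum]
  refine sum_le_sum fun y _ => ?_
  rw [← mul_sum, mul_comm (E.Kc * a ^ 2)]
  exact mul_le_mul_of_nonneg_left (ot_tot_U hE U ha hU x y) (hω x y)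

/-- Totals. -/
theorem Mf_tot (hE : E.Ok) {ω : V → V → ℝ} (hω : ∀ a b, 0 ≤ ω a b) :
    ∑ z, ∑ z', ∑ l, E.μ z z' l * E.Mf ω z z' l ≤
      2 * E.n1 * E.Kc * ((E.C0 + 1) * ∑ x, ∑ y, ω x y * E.Y E.s x y) := by
  have hj : E.j ≤ E.NS := hE.j_lt.le
  have hK := os_Kc_one hE.dat
  have hn := os_n1_pos hE.dat
  have h1 : ∀ x y, ∑ z, ∑ z', ∑ l, E.μ z z' l * |E.gu l z z' x y| ≤
      2 * E.n1 * E.Kc * ((E.C0 + 1) * E.Y E.s x y) := by
    intro x y
    have h2 := SData.Cols.abs_rate (ot_sd hE) hE.cols zero_le_one x y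
    have h3 := SData.Cols.unweight (D := E.toGData.sd E.s) (c0 := 1 / E.Kc) (by positivity)
      (fun z z' hz => ot_chi_lo hE.dat hE.inv.toSInv hj hz) hn
      (F := fun z z' => ∑ l, E.μ z z' l * |E.u l z z' x y|)
      (fun z z' => sum_nonneg fun l _ => mul_nonneg (hE.cols.mu_nonneg z z' l) (abs_nonneg _))
      (fun z z' hz => sum_eq_zero fun l _ => by
        rw [SData.Cols.eq_zero_left hE.cols hz, abs_zero, mul_zero]) h2
    refine le_trans (sum_le_sum fun z _ => sum_le_sum fun z' _ => sum_le_sum fun l _ =>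
      mul_le_mul_of_nonneg_left (ot_gu_le l z z' x y) (hE.cols.mu_nonneg z z' l)) (h3.trans ?_)
    refine le_of_eq ?_
    show 2 * E.n1 / (1 / E.Kc) * _ = _
    rw [div_div_eq_mul_div, div_one]
    rfl
  simp only [Mf_mean]
  rw [sum_comm, mul_sum, mul_sum]
  refine sum_le_sum fun x _ => ?_
  rw [sum_comm, mul_sum, mul_sum]
  refine sum_le_sum fun y _ => ?_
  rw [← mul_sum]
  calc _ ≤ ω x y * (2 * E.n1 * E.Kc * ((E.C0 + 1) * E.Y E.s x y)) :=
        mul_le_mul_of_nonneg_left (h1 x y) (hω x y)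
    _ = _ := by ring

/-- Kills of the sites with weights `ω`, by the pair `z z'`. -/
noncomputable def Kl (E : GSt V Lb AL) (ω : V → V → ℝ) (z z' : V) : ℝ :=
  ∑ a, ∑ b, if z ∈ cN E.N a b ∧ z' ∈ cN E.N a b ∧ E.cod a b ≤ E.am then ω a b else 0

theorem Kl_nonneg {ω : V → V → ℝ} (hω : ∀ a b, 0 ≤ ω a b) (z z' : V) : 0 ≤ E.Kl ω z z' := by
  refine sum_nonneg fun a _ => sum_nonneg fun b _ => ?_
  split_ifs
  exacts [hω a b, le_rfl]

/-- Label-independent majorant. -/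
theorem Mf_le_Kl (hE : E.Ok) {ω : V → V → ℝ} (hω : ∀ a b, 0 ≤ ω a b) {m : ℝ} (hm : 0 ≤ m)
    (hM : ∀ z z' l, E.Mf ω z z' l ≤ m) (z z' : V) (l : Lb) :
    E.Mf ω z z' l ≤ E.Kl ω z z' + (if E.far z z' then m else 0) := by
  by_cases h : E.far z z'
  · rw [if_pos h]
    linarith [hM z z' l, Kl_nonneg (E := E) hω z z']
  · rw [if_neg h, add_zero]
    unfold Mf Kl
    refine sum_le_sum fun a _ => sum_le_sum fun b _ => ?_
    by_cases h1 : E.gu l z z' a b = 0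
    · rw [h1, abs_zero, mul_zero]
      split_ifs
      exacts [hω a b, le_rfl]
    · have h2 : (E.toGData.sd E.s).lnk z z' a b := by
        by_contra h3
        exact h (hE.cols.supp l z z' a b h3 (ot_gu_u h1)).2.2.2.1
      rw [if_pos ⟨h2.2.2.1, h2.2.2.2, os_chi_cod hE.dat h2.2.1⟩]
      have h4 : E.gu l z z' a b = -1 := by
        unfold GSt.gu
        rw [if_pos (ot_gu_nf h1)]
        exact hE.cols.kill l z z' a b h2
      rw [h4, abs_neg, abs_one, mul_one]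

/-- Rows of the majorant in `U`. -/
theorem Kl_row_U (hE : E.Ok) (U : Finset V) {a : ℝ} (ha : 0 ≤ a)
    (hU : ∀ v w, E.cod v w ≤ E.am → ((cN E.N v w ∩ U).card : ℝ) ≤ a)
    {ω : V → V → ℝ} (hω : ∀ a b, 0 ≤ ω a b) {b0 : ℝ} (z : V)
    (hz : ∑ x ∈ E.N z, ∑ y ∈ E.N z, ω x y ≤ b0) :
    ∑ z' ∈ U, E.Kl ω z z' ≤ a * b0 := by
  have e1 : ∑ z' ∈ U, E.Kl ω z z' = ∑ x, ∑ y, ∑ z' ∈ U,
      (if z ∈ cN E.N x y ∧ z' ∈ cN E.N x y ∧ E.cod x y ≤ E.am then ω x y else 0) := by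
    unfold Kl
    rw [sum_comm]
    exact sum_congr rfl fun x _ => sum_comm
  have e2 : ∀ x y, ∑ z' ∈ U,
      (if z ∈ cN E.N x y ∧ z' ∈ cN E.N x y ∧ E.cod x y ≤ E.am then ω x y else 0) ≤
      if x ∈ E.N z ∧ y ∈ E.N z then a * ω x y else 0 := by
    intro x y
    by_cases h : z ∈ cN E.N x y ∧ E.cod x y ≤ E.am
    · have h1 := h.1
      unfold cN at h1
      rw [mem_inter] at h1
      rw [if_pos ⟨hE.dat.N_symm _ _ h1.1, hE.dat.N_symm _ _ h1.2⟩]
      calc _ = ∑ z' ∈ U, (if z' ∈ cN E.N x y then ω x y else 0) :=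
            sum_congr rfl fun z' _ => if_congr ⟨fun h2 => h2.2.1, fun h2 => ⟨h.1, h2, h.2⟩⟩ rfl rfl
        _ = ((cN E.N x y ∩ U).card : ℝ) * ω x y := by
            rw [sum_ite_mem, sum_const, nsmul_eq_mul, inter_comm]
        _ ≤ _ := mul_le_mul_of_nonneg_right (hU x y h.2) (hω x y)
    · rw [sum_eq_zero fun z' _ => if_neg fun h2 => h ⟨h2.1, h2.2.2⟩]
      split_ifs
      exacts [mul_nonneg ha (hω x y), le_rfl]
  rw [e1]
  calc _ ≤ ∑ x, ∑ y, (if x ∈ E.N z ∧ y ∈ E.N z then a * ω x y else 0) :=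
        sum_le_sum fun x _ => sum_le_sum fun y _ => e2 x y
    _ = a * ∑ x ∈ E.N z, ∑ y ∈ E.N z, ω x y := by
        have e3 : ∀ x, ∑ y, (if x ∈ E.N z ∧ y ∈ E.N z then a * ω x y else 0) =
            if x ∈ E.N z then a * ∑ y ∈ E.N z, ω x y else 0 := by
          intro x
          by_cases hx : x ∈ E.N z
          · rw [if_pos hx]
            simp only [hx, true_and]
            rw [sum_ite_mem, univ_inter, mul_sum]
          · rw [if_neg hx]
            exact sum_eq_zero fun y _ => if_neg fun h => hx h.1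
        simp only [e3]
        rw [sum_ite_mem, univ_inter, mul_sum]
    _ ≤ a * b0 := mul_le_mul_of_nonneg_left hz ha

/-- Rows of a label-independent majorant in `U`. -/
theorem maj_row_U (hE : E.Ok) (U : Finset V) {a f1 : ℝ} (ha : 0 ≤ a)
    (hU : ∀ v w, E.cod v w ≤ E.am → ((cN E.N v w ∩ U).card : ℝ) ≤ a)
    (hF : ∀ x, ((U.filter fun u => E.far x u).card : ℝ) ≤ f1)
    {ω : V → V → ℝ} (hω : ∀ a b, 0 ≤ ω a b) {m : ℝ} (hm : 0 ≤ m) {b0 : ℝ} (z : V)
    (hz : ∑ x ∈ E.N z, ∑ y ∈ E.N z, ω x y ≤ b0) :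
    ∑ z' ∈ U, (E.Kl ω z z' + (if E.far z z' then m else 0)) ≤ a * b0 + f1 * m := by
  rw [sum_add_distrib]
  refine add_le_add (Kl_row_U hE U ha hU hω z hz) ?_
  rw [← sum_filter, sum_const, nsmul_eq_mul]
  exact mul_le_mul_of_nonneg_right (hF z) hm

/-- Support of the majorant. -/
theorem Mf_supp (hE : E.Ok) {ω : V → V → ℝ} {z z' : V} {l : Lb} (h : E.Mf ω z z' l ≠ 0) :
    ∃ a b, ω a b ≠ 0 ∧ E.gu l z z' a b ≠ 0 ∧ (a, b) ∈ (E.toGData.sd E.s).prs z := by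
  unfold Mf at h
  obtain ⟨a, -, ha⟩ := exists_ne_zero_of_sum_ne_zero h
  obtain ⟨b, -, hb⟩ := exists_ne_zero_of_sum_ne_zero ha
  have h1 : E.gu l z z' a b ≠ 0 := fun h2 => hb (by rw [h2, abs_zero, mul_zero])
  exact ⟨a, b, fun h2 => hb (by rw [h2, zero_mul]), h1, ot_gu_prs hE h1⟩

end GSt

end Pool.Agent.AcyG
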