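import Pool.Agent.AcyG.OTabM

/-! # Bounds for the tests (project MP_af9dfb_G, row OTab) -/

set_option autoImplicit false
set_option linter.unusedSectionVars false

namespace Pool.Agent.AcyG

open Finset
open Pool.Agent.AcyK (Big cN)
open scoped Classical

universe u

variable {V AL : Type u} [Fintype V] [DecidableEq V] [Fintype AL]

namespace GSt

variable {Lb : Type u} [Fintype Lb] {E : GSt V Lb AL}

open GData

/-! ### The weights -/

variable (E) in
/-- The pairs at `x`. -/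
noncomputable def ωx (x a b : V) : ℝ :=
  1 / 2 * ((if b = x ∧ E.nf E.s a b then 1 else 0) + (if a = x ∧ E.nf E.s a b then 1 else 0))

variable (E) in
/-- The pairs in the common neighbourhoods of the pairs at `x`. -/
noncomputable def ω2 (x a b : V) : ℝ := if E.nf E.s a b then 1 / (2 * E.n1) *
  ((univ.filter fun u => E.nf E.s u x ∧ a ∈ cN E.N u x ∧ b ∈ cN E.N u x).card : ℝ) else 0

variable (E) in
/-- Both. -/
noncomputable def ωX (x a b : V) : ℝ := E.ωx x a b + E.ω2 x a b

variable (E) in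
/-- The weights of an accurate statistic. -/
noncomputable def ωa (α : AL) (a b : V) : ℝ := if E.nf E.s a b then 1 / 2 * E.a α a b else 0

theorem ωx_nonneg (x a b : V) : 0 ≤ E.ωx x a b := by
  unfold ωx
  have h1 : (0 : ℝ) ≤ (if b = x ∧ E.nf E.s a b then 1 else 0) := by split_ifs <;> norm_num
  have h2 : (0 : ℝ) ≤ (if a = x ∧ E.nf E.s a b then 1 else 0) := by split_ifs <;> norm_num
  linarith

theorem ω2_nonneg (hE : E.Ok) (x a b : V) : 0 ≤ E.ω2 x a b := by
  unfold ω2
  have := os_n1_pos hE.dat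
  split_ifs
  · positivity
  · exact le_rfl

theorem ωX_nonneg (hE : E.Ok) (x a b : V) : 0 ≤ E.ωX x a b :=
  add_nonneg (ωx_nonneg x a b) (ω2_nonneg hE x a b)

theorem ωa_nonneg (hE : E.Ok) (α : AL) (a b : V) : 0 ≤ E.ωa α a b := by
  unfold ωa
  split_ifs
  · exact mul_nonneg (by norm_num) (hE.dat.a_nonneg α a b)
  · exact le_rfl

theorem ωx_symm (hE : E.Ok) (x a b : V) : E.ωx x a b = E.ωx x b a := by
  unfold ωx
  have h := os_nf_comm hE.dat hE.inv.toSInv a b
  simp only [h]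
  ring

theorem ω2_symm (hE : E.Ok) (x a b : V) : E.ω2 x a b = E.ω2 x b a := by
  unfold ω2
  have h := os_nf_comm hE.dat hE.inv.toSInv a b
  simp only [h]
  refine if_congr Iff.rfl ?_ rfl
  congr 3
  ext u
  simp only [mem_filter, mem_univ, true_and]
  tauto

theorem ωX_symm (hE : E.Ok) (x a b : V) : E.ωX x a b = E.ωX x b a := by
  unfold ωX
  rw [ωx_symm hE, ω2_symm hE]

theorem ωa_symm (hE : E.Ok) (α : AL) (a b : V) : E.ωa α a b = E.ωa α b a := by
  unfold ωa
  have h := os_nf_comm hE.dat hE.inv.toSInv a b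
  simp only [h, hE.dat.a_symm α a b]

/-- The number of pairs at `x` that contain a given pair in their neighbourhood. -/
theorem ot_cnt_le (hE : E.Ok) (x a b : V) :
    ((univ.filter fun u => E.nf E.s u x ∧ a ∈ cN E.N u x ∧ b ∈ cN E.N u x).card : ℝ) ≤
      E.cod a b := by
  unfold GData.cod
  have h : (univ.filter fun u => E.nf E.s u x ∧ a ∈ cN E.N u x ∧ b ∈ cN E.N u x) ⊆
      cN E.N a b := by
    intro u hu
    have h1 := (mem_filter.1 hu).2.2
    unfold cN at h1 ⊢
    simp only [mem_inter] at h1 ⊢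
    exact ⟨hE.dat.N_symm _ _ h1.1.1, hE.dat.N_symm _ _ h1.2.1⟩
  exact_mod_cast card_le_card h

theorem ω2_le (hE : E.Ok) (x a b : V) : E.ω2 x a b ≤ E.am / (2 * E.n1) := by
  have hn := os_n1_pos hE.dat
  have ha := os_am_pos hE.dat
  unfold ω2
  split_ifs with h
  · rw [one_div, inv_mul_eq_div]
    exact div_le_div_of_nonneg_right ((ot_cnt_le hE x a b).trans h.1.2.2.2) (by positivity)
  · positivity

theorem ω2_zero {x a b : V} (h : E.ω2 x a b ≠ 0) : a ∈ E.N x ∧ b ∈ E.N x := by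
  unfold ω2 at h
  split_ifs at h with h1
  · have h2 : ((univ.filter fun u => E.nf E.s u x ∧ a ∈ cN E.N u x ∧ b ∈ cN E.N u x).card : ℝ) ≠
        0 := fun h3 => h (by rw [h3, mul_zero])
    have h3 : (univ.filter fun u => E.nf E.s u x ∧ a ∈ cN E.N u x ∧ b ∈ cN E.N u x).card ≠ 0 := by
      exact_mod_cast h2
    obtain ⟨u, hu⟩ := card_ne_zero.1 h3
    have h4 := (mem_filter.1 hu).2.2
    unfold cN at h4
    simp only [mem_inter] at h4
    exact ⟨h4.1.2, h4.2.2⟩
  · exact absurd rfl h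

theorem ωx_zero {x a b : V} (h : E.ωx x a b ≠ 0) : (b = x ∨ a = x) ∧ E.nf E.s a b := by
  unfold ωx at h
  by_contra h1
  refine h ?_
  rw [if_neg fun h2 => h1 ⟨Or.inl h2.1, h2.2⟩, if_neg fun h2 => h1 ⟨Or.inr h2.1, h2.2⟩]
  norm_num

/-- Sum over the pairs at `x`. -/
theorem Mf_ωx (hE : E.Ok) (x z z' : V) (l : Lb) :
    E.Mf (E.ωx x) z z' l = ∑ u, |E.gu l z z' u x| := by
  unfold Mf ωx
  have e1 : ∀ a b, 1 / 2 * ((if b = x ∧ E.nf E.s a b then (1 : ℝ) else 0) +
      (if a = x ∧ E.nf E.s a b then 1 else 0)) * |E.gu l z z' a b| =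
      1 / 2 * (if b = x then |E.gu l z z' a b| else 0) +
        1 / 2 * (if a = x then |E.gu l z z' a b| else 0) := by
    intro a b
    by_cases h : E.nf E.s a b
    · simp only [and_iff_left h]
      split_ifs <;> ring
    · have h3 : E.gu l z z' a b = 0 := by
        by_contra h4
        exact h (ot_gu_nf h4)
      rw [h3, abs_zero, mul_zero]
      split_ifs <;> ring
  simp only [e1, sum_add_distrib, ← mul_sum]
  have e2 : ∀ a, ∑ b, (if b = x then |E.gu l z z' a b| else 0) = |E.gu l z z' a x| := by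
    intro a
    rw [sum_ite_eq' univ x, if_pos (mem_univ x)]
  have e3 : ∑ a, ∑ b, (if a = x then |E.gu l z z' a b| else 0) = ∑ u, |E.gu l z z' u x| := by
    rw [sum_eq_single x]
    · simp only [if_true]
      exact sum_congr rfl fun b _ => by rw [ot_gu_symm2 hE]
    · intro a _ ha
      exact sum_eq_zero fun b _ => if_neg ha
    · intro h
      exact absurd (mem_univ x) h
  simp only [e2]
  rw [e3]
  ring

theorem Mf_add (ω ω' : V → V → ℝ) (z z' : V) (l : Lb) :
    E.Mf (fun a b => ω a b + ω' a b) z z' l = E.Mf ω z z' l + E.Mf ω' z z' l := by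
  unfold Mf
  rw [← sum_add_distrib]
  refine sum_congr rfl fun a _ => ?_
  rw [← sum_add_distrib]
  exact sum_congr rfl fun b _ => by ring

/-- Sum over the pairs in the common neighbourhoods. -/
theorem Mf_ω2 (x z z' : V) (l : Lb) : E.Mf (E.ω2 x) z z' l =
    1 / (2 * E.n1) * ∑ u, if E.nf E.s u x then
      ∑ a ∈ cN E.N u x, ∑ b ∈ cN E.N u x, |E.gu l z z' a b| else 0 := by
  have e1 : ∀ u, (if E.nf E.s u x then
      ∑ a ∈ cN E.N u x, ∑ b ∈ cN E.N u x, |E.gu l z z' a b| else 0) =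
      ∑ a, ∑ b, if E.nf E.s u x ∧ a ∈ cN E.N u x ∧ b ∈ cN E.N u x then
        |E.gu l z z' a b| else 0 := by
    intro u
    by_cases h : E.nf E.s u x
    · rw [if_pos h]
      simp only [h, true_and]
      rw [← sum_subset (subset_univ (cN E.N u x)) fun a _ ha =>
        sum_eq_zero fun b _ => if_neg fun h2 => ha h2.1]
      refine sum_congr rfl fun a ha => ?_
      simp only [ha, true_and]
      rw [sum_ite_mem, univ_inter]
    · rw [if_neg h]
      symm
      exact sum_eq_zero fun a _ => sum_eq_zero fun b _ => if_neg fun h2 => h h2.1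
  simp only [e1]
  rw [sum_comm, mul_sum]
  unfold Mf ω2
  refine sum_congr rfl fun a _ => ?_
  rw [sum_comm, mul_sum]
  refine sum_congr rfl fun b _ => ?_
  rw [← sum_filter, sum_const, nsmul_eq_mul]
  by_cases h : E.nf E.s a b
  · rw [if_pos h]
    ring
  · have h3 : E.gu l z z' a b = 0 := by
      by_contra h4
      exact h (ot_gu_nf h4)
    rw [h3, abs_zero, mul_zero, mul_zero, mul_zero]

/-- Bound for the sums over triples. -/
theorem S3_le (hE : E.Ok) (x z z' : V) (l : Lb) (f : V → V → V → ℝ)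
    (hf : ∀ u a b, |f u a b| ≤ 2 * E.Kc * E.chi E.s a b * |E.gu l z z' u x| +
      2 * E.Kc * E.chi E.s a b * |E.gu l z z' a b|) :
    |E.S3 x f| ≤ 2 * E.Kc ^ 3 * E.Mf (E.ωX x) z z' l := by
  have hn := os_n1_pos hE.dat
  have hK := os_Kc_one hE.dat
  have hK0 : 0 ≤ E.Kc := by linarith
  have hI := hE.inv.toSInv
  have hX := fun u v => os_X_nonneg hI u v
  have hchi := fun u v => os_chi_nonneg hI u v
  have h1 : ∀ u, |if E.nf E.s u x then ∑ a ∈ cN E.N u x, ∑ b ∈ cN E.N u x,
      E.s.X u x * f u a b else 0| ≤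
      2 * E.Kc ^ 2 * (2 * E.n1 * (E.H * |E.gu l z z' u x|)) +
      2 * E.Kc ^ 3 * (if E.nf E.s u x then
        ∑ a ∈ cN E.N u x, ∑ b ∈ cN E.N u x, |E.gu l z z' a b| else 0) := by
    intro u
    by_cases h : E.nf E.s u x
    · rw [if_pos h, if_pos h]
      have e1 : |∑ a ∈ cN E.N u x, ∑ b ∈ cN E.N u x, E.s.X u x * f u a b| ≤
          ∑ a ∈ cN E.N u x, ∑ b ∈ cN E.N u x, (2 * E.Kc ^ 2 * |E.gu l z z' u x| * E.chi E.s a b +
            2 * E.Kc ^ 3 * |E.gu l z z' a b|) := by
        refine (abs_sum_le_sum_abs _ _).trans (sum_le_sum fun a _ => ?_)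
        refine (abs_sum_le_sum_abs _ _).trans (sum_le_sum fun b _ => ?_)
        rw [abs_mul, abs_of_nonneg (hX u x)]
        have e2 := hf u a b
        have e3 : E.s.X u x ≤ E.Kc := hI.X_hi u x
        have e4 : E.chi E.s a b ≤ E.Kc := os_chi_le hE.dat hI a b
        have e5 : 0 ≤ |E.gu l z z' a b| := abs_nonneg _
        have e6 : 0 ≤ |E.gu l z z' u x| := abs_nonneg _
        calc E.s.X u x * |f u a b| ≤ E.Kc * (2 * E.Kc * E.chi E.s a b * |E.gu l z z' u x| +
              2 * E.Kc * E.chi E.s a b * |E.gu l z z' a b|) :=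
              mul_le_mul e3 e2 (abs_nonneg _) hK0
          _ = 2 * E.Kc ^ 2 * |E.gu l z z' u x| * E.chi E.s a b +
              2 * E.Kc ^ 2 * (E.chi E.s a b * |E.gu l z z' a b|) := by ring
          _ ≤ 2 * E.Kc ^ 2 * |E.gu l z z' u x| * E.chi E.s a b +
              2 * E.Kc ^ 2 * (E.Kc * |E.gu l z z' a b|) := by
              have := mul_le_mul_of_nonneg_right e4 e5
              have h3 : (0 : ℝ) ≤ 2 * E.Kc ^ 2 := by positivity
              have := mul_le_mul_of_nonneg_left this h3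
              linarith
          _ = _ := by ring
      refine e1.trans ?_
      simp only [sum_add_distrib, ← mul_sum]
      refine add_le_add ?_ le_rfl
      have e7 : ∑ a ∈ cN E.N u x, ∑ b ∈ cN E.N u x, E.chi E.s a b = 2 * E.n1 * E.Y E.s u x := by
        rw [os_Y_eq, ← mul_assoc, mul_one_div_cancel (by positivity), one_mul]
      rw [e7]
      have e8 : E.Y E.s u x ≤ E.H := hE.inv.nf_Y u x h
      have e9 : 0 ≤ |E.gu l z z' u x| := abs_nonneg _
      calc 2 * E.Kc ^ 2 * |E.gu l z z' u x| * (2 * E.n1 * E.Y E.s u x) =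
            2 * E.Kc ^ 2 * (2 * E.n1 * (E.Y E.s u x * |E.gu l z z' u x|)) := by ring
        _ ≤ 2 * E.Kc ^ 2 * (2 * E.n1 * (E.H * |E.gu l z z' u x|)) := by
            refine mul_le_mul_of_nonneg_left ?_ (by positivity)
            refine mul_le_mul_of_nonneg_left ?_ (by positivity)
            exact mul_le_mul_of_nonneg_right e8 e9
    · rw [if_neg h, if_neg h, abs_zero, mul_zero, add_zero]
      have := hE.dat.H_one
      positivity
  unfold S3
  rw [abs_mul, abs_of_nonneg (show 0 ≤ 1 / (2 * E.n1) by positivity)]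
  have h2 := (abs_sum_le_sum_abs _ _).trans (sum_le_sum fun u (_ : u ∈ univ) => h1 u)
  have h3 := mul_le_mul_of_nonneg_left h2 (show 0 ≤ 1 / (2 * E.n1) by positivity)
  refine h3.trans ?_
  unfold ωX
  rw [Mf_add, Mf_ωx hE, Mf_ω2, sum_add_distrib, ← mul_sum, ← mul_sum, ← mul_sum, ← mul_sum]
  have h4 : E.H ≤ E.Kc := os_H_Kc hE.dat
  have h5 : 0 ≤ ∑ u, |E.gu l z z' u x| := sum_nonneg fun u _ => abs_nonneg _
  have h6 : 1 / (2 * E.n1) * (2 * E.Kc ^ 2 * (2 * E.n1 * (E.H * ∑ u, |E.gu l z z' u x|))) ≤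
      2 * E.Kc ^ 3 * ∑ u, |E.gu l z z' u x| := by
    calc _ = 2 * E.Kc ^ 2 * (E.H * ∑ u, |E.gu l z z' u x|) := by field_simp
      _ ≤ 2 * E.Kc ^ 2 * (E.Kc * ∑ u, |E.gu l z z' u x|) := by
          refine mul_le_mul_of_nonneg_left ?_ (by positivity)
          exact mul_le_mul_of_nonneg_right h4 h5
      _ = _ := by ring
  rw [mul_add]
  linarith

/-! ### Sums of the weights -/

theorem ωx_sum_le (x : V) (A : Finset V) : ∑ a ∈ A, ∑ b ∈ A, E.ωx x a b ≤ A.card := by
  have h1 : ∀ a ∈ A, ∑ b ∈ A, E.ωx x a b ≤ 1 / 2 + (if a = x then 1 / 2 * (A.card : ℝ) else 0) := by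
    intro a _
    unfold ωx
    rw [← mul_sum, sum_add_distrib]
    have e1 : ∑ b ∈ A, (if b = x ∧ E.nf E.s a b then (1 : ℝ) else 0) ≤ 1 := by
      calc _ ≤ ∑ b ∈ A, (if b = x then (1 : ℝ) else 0) := by
            refine sum_le_sum fun b _ => ?_
            by_cases h : b = x
            · rw [if_pos h]; split_ifs <;> norm_num
            · rw [if_neg h, if_neg fun h2 => h h2.1]
        _ ≤ 1 := by
            rw [sum_ite_eq' A x]
            split_ifs <;> norm_num
    have e2 : ∑ b ∈ A, (if a = x ∧ E.nf E.s a b then (1 : ℝ) else 0) ≤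
        if a = x then (A.card : ℝ) else 0 := by
      by_cases h : a = x
      · rw [if_pos h]
        calc _ ≤ ∑ b ∈ A, (1 : ℝ) := sum_le_sum fun b _ => by split_ifs <;> norm_num
          _ = _ := by rw [sum_const, nsmul_eq_mul, mul_one]
      · rw [if_neg h]
        exact (sum_eq_zero fun b _ => if_neg fun h2 => h h2.1).le
    by_cases h : a = x
    · rw [if_pos h] at e2 ⊢
      linarith
    · rw [if_neg h] at e2 ⊢
      linarith
  refine (sum_le_sum h1).trans ?_
  rw [sum_add_distrib, sum_const, nsmul_eq_mul, sum_ite_eq' A x]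
  have : (0 : ℝ) ≤ A.card := Nat.cast_nonneg _
  split_ifs <;> linarith

theorem ω2_sum_le (hE : E.Ok) (x : V) (A : Finset V) : ∑ a ∈ A, ∑ b ∈ A, E.ω2 x a b ≤
    (A.card : ℝ) ^ 2 * (E.am / (2 * E.n1)) := by
  calc _ ≤ ∑ a ∈ A, ∑ b ∈ A, E.am / (2 * E.n1) :=
        sum_le_sum fun a _ => sum_le_sum fun b _ => ω2_le hE x a b
    _ = _ := by
        rw [sum_const, sum_const, nsmul_eq_mul, nsmul_eq_mul]
        ring

theorem am_n1 (hE : E.Ok) : E.am * (E.am / (2 * E.n1)) ≤ E.H / 2 := by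
  have hn := os_n1_pos hE.dat
  have h := hE.dat.par2
  rw [← mul_div_assoc, div_le_div_iff₀ (by positivity) (by norm_num)]
  nlinarith

theorem ωX_loc (hE : E.Ok) (x v w : V) (h : E.cod v w ≤ E.am) :
    1 / 2 * ∑ a ∈ cN E.N v w, ∑ b ∈ cN E.N v w, E.ωX x a b ≤ E.am * E.H := by
  have ha := os_am_pos hE.dat
  have hn := os_n1_pos hE.dat
  have hH := hE.dat.H_one
  have h1 := ωx_sum_le (E := E) x (cN E.N v w)
  have h2 := ω2_sum_le hE x (cN E.N v w)
  have h3 : ((cN E.N v w).card : ℝ) ≤ E.am := h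
  have h0 : (0 : ℝ) ≤ ((cN E.N v w).card : ℝ) := Nat.cast_nonneg _
  have h4 : ((cN E.N v w).card : ℝ) ^ 2 * (E.am / (2 * E.n1)) ≤ E.am * (E.H / 2) := by
    calc _ ≤ E.am ^ 2 * (E.am / (2 * E.n1)) :=
          mul_le_mul_of_nonneg_right (pow_le_pow_left₀ h0 h3 2) (by positivity)
      _ = E.am * (E.am * (E.am / (2 * E.n1))) := by ring
      _ ≤ _ := mul_le_mul_of_nonneg_left (am_n1 hE) ha.le
  have h5 : ∑ a ∈ cN E.N v w, ∑ b ∈ cN E.N v w, E.ωX x a b =
      ∑ a ∈ cN E.N v w, ∑ b ∈ cN E.N v w, E.ωx x a b +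
        ∑ a ∈ cN E.N v w, ∑ b ∈ cN E.N v w, E.ω2 x a b := by
    unfold ωX
    simp only [sum_add_distrib]
  rw [h5]
  nlinarith

theorem ωx_tot (hE : E.Ok) (x : V) : ∑ a, ∑ b, E.ωx x a b ≤ E.T ^ 4815 := by
  have e1 : ∑ a, ∑ b, E.ωx x a b = ((univ.filter fun u => E.nf E.s u x).card : ℝ) := by
    unfold ωx
    simp only [← mul_sum, sum_add_distrib]
    have e2 : ∀ a, ∑ b, (if b = x ∧ E.nf E.s a b then (1 : ℝ) else 0) =
        if E.nf E.s a x then 1 else 0 := by
      intro a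
      rw [sum_eq_single x]
      · simp
      · intro b _ hb
        exact if_neg fun h => hb h.1
      · intro h
        exact absurd (mem_univ x) h
    have e3 : ∑ a, ∑ b, (if a = x ∧ E.nf E.s a b then (1 : ℝ) else 0) =
        ∑ u, if E.nf E.s u x then 1 else 0 := by
      rw [sum_eq_single x]
      · simp only [true_and]
        exact sum_congr rfl fun b _ => if_congr (os_nf_comm hE.dat hE.inv.toSInv x b) rfl rfl
      · intro a _ ha
        exact sum_eq_zero fun b _ => if_neg fun h => ha h.1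
      · intro h
        exact absurd (mem_univ x) h
    simp only [e2]
    rw [e3, ← sum_filter, sum_const, nsmul_eq_mul, mul_one]
    ring
  rw [e1]
  refine le_trans ?_ (ot_far_card hE.dat x)
  have h1 : (univ.filter fun u => E.nf E.s u x) ⊆ univ.filter fun u => E.far x u := by
    intro u hu
    have hu' := (mem_filter.1 hu).2
    exact mem_filter.2 ⟨mem_univ _, os_far_symm hE.dat hu'.1⟩
  exact_mod_cast card_le_card h1

theorem ωx_Y (hE : E.Ok) (x : V) :
    ∑ a, ∑ b, E.ωx x a b * E.Y E.s a b ≤ E.Kc * (E.am ^ 2 / 4000) := by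
  have hI := hE.inv.toSInv
  have e1 : ∑ a, ∑ b, E.ωx x a b * E.Y E.s a b =
      ∑ u, if E.nf E.s u x then E.Y E.s u x else 0 := by
    unfold ωx
    have e0 : ∀ a b, 1 / 2 * ((if b = x ∧ E.nf E.s a b then (1 : ℝ) else 0) +
        (if a = x ∧ E.nf E.s a b then 1 else 0)) * E.Y E.s a b =
        1 / 2 * (if b = x ∧ E.nf E.s a b then E.Y E.s a b else 0) +
          1 / 2 * (if a = x ∧ E.nf E.s a b then E.Y E.s a b else 0) := by
      intro a b
      split_ifs <;> ring
    simp only [e0, sum_add_distrib, ← mul_sum]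
    have e2 : ∀ a, ∑ b, (if b = x ∧ E.nf E.s a b then E.Y E.s a b else 0) =
        if E.nf E.s a x then E.Y E.s a x else 0 := by
      intro a
      rw [sum_eq_single x]
      · simp
      · intro b _ hb
        exact if_neg fun h => hb h.1
      · intro h
        exact absurd (mem_univ x) h
    have e3 : ∑ a, ∑ b, (if a = x ∧ E.nf E.s a b then E.Y E.s a b else 0) =
        ∑ u, if E.nf E.s u x then E.Y E.s u x else 0 := by
      rw [sum_eq_single x]
      · simp only [true_and]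
        exact sum_congr rfl fun b _ => if_congr (os_nf_comm hE.dat hI x b)
          (os_Y_symm (s := E.s) x b) rfl
      · intro a _ ha
        exact sum_eq_zero fun b _ => if_neg fun h => ha h.1
      · intro h
        exact absurd (mem_univ x) h
    simp only [e2]
    rw [e3]
    ring
  rw [e1]
  refine le_trans (sum_le_sum fun u _ => ?_) (ot_Y_sum hE.dat hI x)
  by_cases h : E.nf E.s u x
  · rw [if_pos h, if_pos h.1]
  · rw [if_neg h]
    split_ifs
    exacts [os_Y_nonneg hE.dat hI u x, le_rfl]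

theorem ω2_tot (hE : E.Ok) (x : V) : ∑ a, ∑ b, E.ω2 x a b ≤ E.am ^ 2 / 4000 := by
  have hn := os_n1_pos hE.dat
  have ha := os_am_pos hE.dat
  have e1 : ∀ a b, E.ω2 x a b ≤ ∑ u, 1 / (2 * E.n1) *
      (if E.nf E.s u x ∧ a ∈ cN E.N u x ∧ b ∈ cN E.N u x then 1 else 0) := by
    intro a b
    unfold ω2
    rw [← mul_sum, ← sum_filter, sum_const, nsmul_eq_mul, mul_one]
    split_ifs
    · exact le_rfl
    · positivity
  have e2 : ∀ u, ∑ a, ∑ b, 1 / (2 * E.n1) *
      (if E.nf E.s u x ∧ a ∈ cN E.N u x ∧ b ∈ cN E.N u x then (1 : ℝ) else 0) ≤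
      E.am / (2 * E.n1) * E.cod x u := by
    intro u
    have hc : 0 ≤ E.cod x u := Nat.cast_nonneg _
    by_cases h : E.nf E.s u x
    · simp only [h, true_and, ← mul_sum]
      have e3 : ∑ a, ∑ b, (if a ∈ cN E.N u x ∧ b ∈ cN E.N u x then (1 : ℝ) else 0) =
          E.cod u x * E.cod u x := by
        rw [← sum_subset (subset_univ (cN E.N u x)) fun a _ ha' =>
          sum_eq_zero fun b _ => if_neg fun h2 => ha' h2.1]
        have : ∀ a ∈ cN E.N u x, ∑ b, (if a ∈ cN E.N u x ∧ b ∈ cN E.N u x then (1 : ℝ) else 0) =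
            E.cod u x := by
          intro a ha'
          simp only [ha', true_and]
          rw [sum_ite_mem, univ_inter, sum_const, nsmul_eq_mul, mul_one]
          rfl
        rw [sum_congr rfl this, sum_const, nsmul_eq_mul]
        rfl
      rw [e3, os_cod_symm x u]
      have h2 : E.cod u x ≤ E.am := h.1.2.2.2
      have h3 : 0 ≤ E.cod u x := Nat.cast_nonneg _
      calc 1 / (2 * E.n1) * (E.cod u x * E.cod u x) ≤ 1 / (2 * E.n1) * (E.am * E.cod u x) :=
            mul_le_mul_of_nonneg_left (mul_le_mul_of_nonneg_right h2 h3) (by positivity)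
        _ = _ := by ring
    · simp only [h, false_and, if_false, mul_zero, sum_const_zero]
      positivity
  calc ∑ a, ∑ b, E.ω2 x a b ≤ ∑ a, ∑ b, ∑ u, 1 / (2 * E.n1) *
        (if E.nf E.s u x ∧ a ∈ cN E.N u x ∧ b ∈ cN E.N u x then 1 else 0) :=
        sum_le_sum fun a _ => sum_le_sum fun b _ => e1 a b
    _ = ∑ u, ∑ a, ∑ b, 1 / (2 * E.n1) *
        (if E.nf E.s u x ∧ a ∈ cN E.N u x ∧ b ∈ cN E.N u x then 1 else 0) := by
        rw [sum_congr rfl fun a _ => sum_comm, sum_comm]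
    _ ≤ ∑ u, E.am / (2 * E.n1) * E.cod x u := sum_le_sum fun u _ => e2 u
    _ = E.am / (2 * E.n1) * ∑ u, E.cod x u := by rw [mul_sum]
    _ ≤ E.am / (2 * E.n1) * (E.n1 * E.am / 2000) := by
        refine mul_le_mul_of_nonneg_left ((ot_cod_sum hE.dat x).trans ?_) (by positivity)
        have := hE.dat.par1
        linarith
    _ = _ := by field_simp; ring

theorem ω2_Y (hE : E.Ok) (x : V) :
    ∑ a, ∑ b, E.ω2 x a b * E.Y E.s a b ≤ E.Kc * (E.am ^ 2 / 4000) := by
  have hK := os_H_Kc hE.dat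
  have hH := hE.dat.H_one
  have h1 : ∀ a b, E.ω2 x a b * E.Y E.s a b ≤ E.H * E.ω2 x a b := by
    intro a b
    by_cases h : E.nf E.s a b
    · rw [mul_comm]
      exact mul_le_mul_of_nonneg_right (hE.inv.nf_Y a b h) (ω2_nonneg hE x a b)
    · have : E.ω2 x a b = 0 := if_neg h
      rw [this, zero_mul, mul_zero]
  calc _ ≤ ∑ a, ∑ b, E.H * E.ω2 x a b := sum_le_sum fun a _ => sum_le_sum fun b _ => h1 a b
    _ = E.H * ∑ a, ∑ b, E.ω2 x a b := by simp only [mul_sum]
    _ ≤ E.H * (E.am ^ 2 / 4000) := mul_le_mul_of_nonneg_left (ω2_tot hE x) (by linarith)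
    _ ≤ _ := mul_le_mul_of_nonneg_right hK (by positivity)

theorem ωX_nb (hE : E.Ok) (x z : V) :
    ∑ a ∈ E.N z, ∑ b ∈ E.N z, E.ωX x a b ≤ E.T ^ 4803 := by
  have hn := os_n1_pos hE.dat
  have ha := os_am_pos hE.dat
  have hT := hE.dat.big
  have hT0 := hT.pos
  have h1 := ωx_sum_le (E := E) x (E.N z)
  have h2 := ω2_sum_le hE x (E.N z)
  have h3 : ((E.N z).card : ℝ) ≤ E.T ^ 3600 := hE.dat.deg z
  have h4 : ((E.N z).card : ℝ) ^ 2 * (E.am / (2 * E.n1)) ≤ E.T ^ 4802 := by
    calc _ ≤ (E.T ^ 3600) ^ 2 * (E.am / (2 * E.n1)) :=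
          mul_le_mul_of_nonneg_right (pow_le_pow_left₀ (Nat.cast_nonneg _) h3 2) (by positivity)
      _ = E.T ^ 7200 * (E.am / (2 * E.n1)) := by rw [← pow_mul]
      _ ≤ (E.n1 * E.am / 2000) * (E.am / (2 * E.n1)) := by
          refine mul_le_mul_of_nonneg_right ?_ (by positivity)
          have := hE.dat.par1
          linarith
      _ = E.am ^ 2 / 4000 := by field_simp; ring
      _ ≤ E.am ^ 2 := by have := sq_nonneg E.am; linarith
      _ ≤ (E.T ^ 2401) ^ 2 := pow_le_pow_left₀ ha.le hE.dat.am_hi 2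
      _ = E.T ^ 4802 := by rw [← pow_mul]
  have h5 : E.T ^ 3600 ≤ E.T ^ 4802 := hT.pw (by norm_num)
  have h6 : 2 * E.T ^ 4802 ≤ E.T ^ 4803 := by
    rw [pow_succ E.T 4802, mul_comm]
    have := os_T_ge hE.dat
    exact mul_le_mul_of_nonneg_left (by linarith) (by positivity)
  unfold ωX
  simp only [sum_add_distrib]
  linarith

/-! ### Majorants of the tests -/

theorem ot_chi_as {a b : V} (h : E.as E.s a b) : E.s.X a b = E.chi E.s a b :=
  (os_chi_nf (os_nf_of_as h)).symm

theorem Wx_maj (hE : E.Ok) (i : Fin 8) (x z z' : V) (l : Lb) :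
    |E.Wx i x z z' l| ≤ 2 * E.Kc ^ 3 * E.Mf (E.ωX x) z z' l := by
  have hK := os_Kc_one hE.dat
  have hI := hE.inv.toSInv
  have hchi := fun u v => os_chi_nonneg hI u v
  have hga := fun x y => ot_ga_le (E := E) l z z' x y
  have hBx := ot_Bx_Kc hE
  have hBx1 := hE.Bx_one
  have hgB := fun x y => ot_ga_Bx hE l z z' x y
  have hm : ∑ u, |E.gu l z z' u x| ≤ E.Mf (E.ωX x) z z' l := by
    rw [← Mf_ωx hE x z z' l]
    unfold ωX
    rw [Mf_add]
    have := Mf_nonneg (E := E) (ω2_nonneg hE x) z z' l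
    linarith
  have hm0 : 0 ≤ ∑ u, |E.gu l z z' u x| := sum_nonneg fun u _ => abs_nonneg _
  have hK3 : 1 ≤ E.Kc ^ 3 := one_le_pow₀ hK
  have hKK : E.Kc ≤ 2 * E.Kc ^ 3 := by nlinarith [pow_le_pow_right₀ hK (show 1 ≤ 3 by norm_num)]
  have hsimple : ∀ f : V → ℝ, (∀ u, |f u| ≤ E.Kc * |E.gu l z z' u x|) →
      |∑ u, f u| ≤ 2 * E.Kc ^ 3 * E.Mf (E.ωX x) z z' l := by
    intro f hf
    calc |∑ u, f u| ≤ ∑ u, E.Kc * |E.gu l z z' u x| :=
          (abs_sum_le_sum_abs _ _).trans (sum_le_sum fun u _ => hf u)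
      _ = E.Kc * ∑ u, |E.gu l z z' u x| := by rw [mul_sum]
      _ ≤ (2 * E.Kc ^ 3) * E.Mf (E.ωX x) z z' l :=
          mul_le_mul hKK hm hm0 (by linarith)
  unfold Wx
  have hmax : ∀ t : ℝ, |max t 0| ≤ |t| := fun t => by
    rw [abs_of_nonneg (le_max_right _ _)]
    exact max_le (le_abs_self t) (abs_nonneg t)
  split_ifs
  · refine S3_le hE x z z' l _ fun u a b => ?_
    rw [abs_mul, abs_of_nonneg (hchi a b)]
    have h1 := abs_add_le (E.ga l z z' u x) (E.ga l z z' a b)
    have h2 := mul_le_mul_of_nonneg_left (h1.trans (add_le_add (hga u x) (hga a b))) (hchi a b)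
    have h3 : 0 ≤ E.chi E.s a b * (|E.gu l z z' u x| + |E.gu l z z' a b|) :=
      mul_nonneg (hchi a b) (add_nonneg (abs_nonneg _) (abs_nonneg _))
    nlinarith
  · refine S3_le hE x z z' l _ fun u a b => ?_
    rw [abs_mul, abs_of_nonneg (hchi a b), abs_mul]
    have h1 := mul_le_mul ((hgB u x).trans hBx) (hga a b) (abs_nonneg _) (by linarith)
    have h2 := mul_le_mul_of_nonneg_left h1 (hchi a b)
    have h3 : 0 ≤ E.Kc * E.chi E.s a b * |E.gu l z z' u x| :=
      mul_nonneg (mul_nonneg (by linarith) (hchi a b)) (abs_nonneg _)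
    have h4 : 0 ≤ E.Kc * E.chi E.s a b * |E.gu l z z' a b| :=
      mul_nonneg (mul_nonneg (by linarith) (hchi a b)) (abs_nonneg _)
    nlinarith
  · refine S3_le hE x z z' l _ fun u a b => ?_
    rw [abs_mul, abs_of_nonneg (hchi a b),
      abs_of_nonneg (add_nonneg (abs_nonneg _) (abs_nonneg _))]
    have h2 := mul_le_mul_of_nonneg_left (add_le_add (hga u x) (hga a b)) (hchi a b)
    have h3 : 0 ≤ E.chi E.s a b * (|E.gu l z z' u x| + |E.gu l z z' a b|) :=
      mul_nonneg (hchi a b) (add_nonneg (abs_nonneg _) (abs_nonneg _))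
    nlinarith
  · refine hsimple _ fun u => ?_
    rw [abs_mul, abs_of_nonneg (os_X_nonneg hI u x)]
    exact mul_le_mul (hI.X_hi u x) ((hmax _).trans (hga u x)) (abs_nonneg _) (by linarith)
  · refine S3_le hE x z z' l _ fun u a b => ?_
    rw [abs_mul, abs_of_nonneg (hchi a b), abs_mul]
    have h0 : |1 + max (E.ga l z z' u x) 0| ≤ 2 * E.Kc := by
      rw [abs_of_nonneg (by have := le_max_right (E.ga l z z' u x) 0; linarith)]
      have h5 := (le_abs_self _).trans ((hmax (E.ga l z z' u x)).trans ((hgB u x).trans hBx))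
      linarith
    have h1 := mul_le_mul ((hmax _).trans (hga a b)) h0 (abs_nonneg _) (abs_nonneg _)
    have h2 := mul_le_mul_of_nonneg_left h1 (hchi a b)
    have h3 : 0 ≤ E.Kc * E.chi E.s a b * |E.gu l z z' u x| :=
      mul_nonneg (mul_nonneg (by linarith) (hchi a b)) (abs_nonneg _)
    nlinarith
  · refine S3_le hE x z z' l _ fun u a b => ?_
    have h3 : 0 ≤ E.Kc * E.chi E.s a b * |E.gu l z z' u x| :=
      mul_nonneg (mul_nonneg (by linarith) (hchi a b)) (abs_nonneg _)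
    have h4 : 0 ≤ E.Kc * E.chi E.s a b * |E.gu l z z' a b| :=
      mul_nonneg (mul_nonneg (by linarith) (hchi a b)) (abs_nonneg _)
    have h5 : 0 ≤ E.chi E.s a b * |E.gu l z z' u x| := mul_nonneg (hchi a b) (abs_nonneg _)
    by_cases h : E.as E.s a b
    · rw [if_pos h, ot_chi_as h, abs_mul, abs_of_nonneg (hchi a b)]
      have h2 := mul_le_mul_of_nonneg_left (hga u x) (hchi a b)
      nlinarith
    · rw [if_neg h, abs_zero]
      nlinarith
  · refine hsimple _ fun u => ?_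
    by_cases h : E.as E.s u x
    · rw [if_pos h, abs_mul, abs_of_nonneg (os_X_nonneg hI u x), abs_abs]
      exact mul_le_mul_of_nonneg_right (hI.X_hi u x) (abs_nonneg _)
    · rw [if_neg h, abs_zero]
      exact mul_nonneg (by linarith) (abs_nonneg _)
  · refine hsimple _ fun u => ?_
    rw [abs_abs]
    have h1 := hga u x
    have h2 : 0 ≤ |E.gu l z z' u x| := abs_nonneg _
    nlinarith

theorem Wp_maj (i : Fin 2) (x y z z' : V) (l : Lb) :
    |E.Wp i x y z z' l| ≤ |E.gu l z z' x y| := by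
  refine le_trans ?_ (ot_ga_le (E := E) l z z' x y)
  unfold Wp
  split_ifs
  · rw [abs_of_nonneg (le_max_right _ _)]
    exact max_le (neg_le_abs _) (abs_nonneg _)
  · rw [abs_of_nonneg (le_max_right _ _)]
    exact max_le (le_abs_self _) (abs_nonneg _)

theorem ot_K_abs (hE : E.Ok) (u x : V) : |E.K E.s u x| ≤ E.Kc := by
  have hK := os_Kc_one hE.dat
  have hI := hE.inv.toSInv
  have h1 := os_X_nonneg hI u x
  have h2 := hI.X_hi u x
  have h2' : E.s.X u x ≤ E.Kc := h2
  unfold GData.K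
  split_ifs
  · rw [abs_le]
    constructor <;> linarith
  · rw [abs_zero]
    linarith

theorem Wg_maj (hE : E.Ok) (i : Fin 2) (y y' z z' : V) (l : Lb) :
    |E.Wg i y y' z z' l| ≤ E.Kc ^ 3 * E.Mf (fun a b => E.ωx y a b + E.ωx y' a b) z z' l := by
  have hK := os_Kc_one hE.dat
  have hI := hE.inv.toSInv
  have hga := fun x y => ot_ga_le (E := E) l z z' x y
  have hBx := ot_Bx_Kc hE
  have hgB := fun x y => ot_ga_Bx hE l z z' x y
  have hX := fun u x => os_X_nonneg hI u x
  have hXK : ∀ u x, E.s.X u x ≤ E.Kc := hI.X_hi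
  have hK2 : E.Kc ^ 2 ≤ E.Kc ^ 3 := pow_le_pow_right₀ hK (by norm_num)
  have hg0 := fun x y => abs_nonneg (E.gu l z z' x y)
  rw [Mf_add, Mf_ωx hE, Mf_ωx hE, ← sum_add_distrib, mul_sum]
  unfold Wg
  have key : ∀ u a, E.s.X u a * |E.ga l z z' u a| ≤ E.Kc * |E.gu l z z' u a| := fun u a =>
    mul_le_mul (hXK u a) (hga u a) (abs_nonneg _) (by linarith)
  split_ifs
  · refine (abs_sum_le_sum_abs _ _).trans (sum_le_sum fun u _ => ?_)
    refine (abs_add_le _ _).trans ?_
    rw [abs_mul, abs_mul, abs_mul, abs_mul, abs_of_nonneg (hX u y), abs_of_nonneg (hX u y')]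
    have h1 : E.s.X u y * |E.ga l z z' u y| * |E.K E.s u y'| ≤
        E.Kc * |E.gu l z z' u y| * E.Kc :=
      mul_le_mul (key u y) (ot_K_abs hE u y') (abs_nonneg _)
        (mul_nonneg (by linarith) (hg0 u y))
    have h2 : E.s.X u y' * |E.ga l z z' u y'| * |E.K E.s u y| ≤
        E.Kc * |E.gu l z z' u y'| * E.Kc :=
      mul_le_mul (key u y') (ot_K_abs hE u y) (abs_nonneg _)
        (mul_nonneg (by linarith) (hg0 u y'))
    have h3 := mul_le_mul_of_nonneg_right hK2
      (add_nonneg (hg0 u y) (hg0 u y'))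
    nlinarith
  · refine (abs_sum_le_sum_abs _ _).trans (sum_le_sum fun u _ => ?_)
    rw [abs_mul, abs_mul, abs_of_nonneg (hX u y), abs_of_nonneg (hX u y'), abs_abs, abs_mul]
    have h1 : |E.ga l z z' u y| * |E.ga l z z' u y'| ≤ |E.gu l z z' u y| * E.Kc :=
      mul_le_mul (hga u y) ((hgB u y').trans hBx) (abs_nonneg _) (hg0 u y)
    have h2 : E.s.X u y * E.s.X u y' ≤ E.Kc * E.Kc :=
      mul_le_mul (hXK u y) (hXK u y') (hX u y') (by linarith)
    calc E.s.X u y * E.s.X u y' * (|E.ga l z z' u y| * |E.ga l z z' u y'|) ≤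
          E.Kc * E.Kc * (|E.gu l z z' u y| * E.Kc) :=
          mul_le_mul h2 h1 (mul_nonneg (abs_nonneg _) (abs_nonneg _))
            (mul_nonneg (by linarith) (by linarith))
      _ = E.Kc ^ 3 * |E.gu l z z' u y| := by ring
      _ ≤ _ := mul_le_mul_of_nonneg_left (by linarith [hg0 u y']) (by positivity)

theorem Wl_maj (hE : E.Ok) (i : Fin 3) (hi : i ≠ 2) (α : AL) (z z' : V) (l : Lb) :
    |E.Wl i α z z' l| ≤ E.Kc * E.Mf (E.ωa α) z z' l := by
  have hK := os_Kc_one hE.dat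
  have hI := hE.inv.toSInv
  have hchi := fun u v => os_chi_nonneg hI u v
  have hchK := fun u v => os_chi_le hE.dat hI u v
  have h0 := fun a b => hE.dat.a_nonneg α a b
  have hga := fun x y => ot_ga_le (E := E) l z z' x y
  have key : ∀ a b, E.a α a b * E.chi E.s a b * |E.ga l z z' a b| ≤
      2 * (E.Kc * (E.ωa α a b * |E.gu l z z' a b|)) := by
    intro a b
    unfold ωa
    by_cases h : E.nf E.s a b
    · rw [if_pos h]
      have h1 : E.chi E.s a b * |E.ga l z z' a b| ≤ E.Kc * |E.gu l z z' a b| :=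
        mul_le_mul (hchK a b) (hga a b) (abs_nonneg _) (by linarith)
      have h2 := mul_le_mul_of_nonneg_left h1 (h0 a b)
      calc _ = E.a α a b * (E.chi E.s a b * |E.ga l z z' a b|) := by ring
        _ ≤ _ := h2
        _ = _ := by ring
    · have h3 : E.ga l z z' a b = 0 := by
        unfold GSt.ga
        exact if_neg fun h4 => h (os_nf_of_aw h4)
      rw [h3, abs_zero, mul_zero, if_neg h]
      simp
  have hsum : 1 / 2 * ∑ a, ∑ b, E.a α a b * E.chi E.s a b * |E.ga l z z' a b| ≤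
      E.Kc * E.Mf (E.ωa α) z z' l := by
    unfold Mf
    rw [mul_sum, mul_sum]
    refine sum_le_sum fun a _ => ?_
    rw [mul_sum, mul_sum]
    refine sum_le_sum fun b _ => ?_
    have := key a b
    linarith
  unfold Wl
  by_cases h1 : i = 0
  · rw [if_pos h1]
    refine le_trans ?_ hsum
    rw [abs_mul, abs_of_nonneg (by norm_num : (0 : ℝ) ≤ 1 / 2)]
    refine mul_le_mul_of_nonneg_left ?_ (by norm_num)
    refine (abs_sum_le_sum_abs _ _).trans (sum_le_sum fun a _ => ?_)
    refine (abs_sum_le_sum_abs _ _).trans (sum_le_sum fun b _ => ?_)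
    rw [abs_mul, abs_mul, abs_of_nonneg (h0 a b), abs_of_nonneg (hchi a b)]
  · rw [if_neg h1]
    by_cases h2 : i = 1
    · rw [if_pos h2, abs_of_nonneg]
      · exact hsum
      · refine mul_nonneg (by norm_num) (sum_nonneg fun a _ => sum_nonneg fun b _ => ?_)
        exact mul_nonneg (mul_nonneg (h0 a b) (hchi a b)) (abs_nonneg _)
    · exfalso
      fin_cases i <;> simp_all

end GSt

end Pool.Agent.AcyG
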