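import Pool.Agent.AcyK.Classes

/-! # From the engine to `f(d) = o(d^(4/3))` (project MP_af9dfb_G)

`Engine` is what the outer process gives: for every `ε > 0` and all large `T`, every graph with all
degrees at most `T ^ 3600` has an acyclic colouring with at most `ε T ^ 4800` colours. -/

set_option autoImplicit false
set_option linter.unusedSectionVars false

namespace Pool.Agent.AcyG

open Finset Filter Asymptotics
open Pool.Agent.AcyK (nb)
open Pool.Agent.AcyK.Classes
open scoped Classical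

universe u

/-- The result of the outer process. -/
def Engine : Prop := ∀ ε : ℝ, 0 < ε → ∃ T₀ : ℝ, ∀ T : ℝ, T₀ ≤ T →
  ∀ (V : Type) [Fintype V] [DecidableEq V] (G : SimpleGraph V),
    (∀ v, ((nb G v).card : ℝ) ≤ T ^ 3600) →
    (Pool.Agent.AcyK.acyclicNumber G : ℝ) ≤ ε * T ^ 4800

/-- All graphs. -/
def allGraphs : GraphClass := fun _ _ => True

/-- **All graphs of bounded degree.** -/
theorem small_all (hE : Engine) (ε : ℝ) (hε : 0 < ε) : ∀ᶠ d : ℕ in atTop,
    ∀ (V : Type) [Fintype V] (G : SimpleGraph V) [DecidableRel G.Adj], G.maxDegree ≤ d →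
      (acyclicNumber G : ℝ) ≤ ε * (d : ℝ) ^ ((4 : ℝ) / 3) := by
  obtain ⟨T₀, h₀⟩ := hE ε hε
  have h1 : Tendsto (fun d : ℕ => (d : ℝ) ^ ((1 : ℝ) / 3600)) atTop atTop :=
    (tendsto_rpow_atTop (by norm_num)).comp tendsto_natCast_atTop_atTop
  filter_upwards [h1.eventually_ge_atTop T₀] with d hd
  intro V _ G _ hG
  have hd0 : (0 : ℝ) ≤ d := Nat.cast_nonneg d
  have e1 : ((d : ℝ) ^ ((1 : ℝ) / 3600)) ^ 3600 = d := by
    rw [← Real.rpow_natCast, ← Real.rpow_mul hd0]
    norm_num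
  have e2 : ((d : ℝ) ^ ((1 : ℝ) / 3600)) ^ 4800 = (d : ℝ) ^ ((4 : ℝ) / 3) := by
    rw [← Real.rpow_natCast, ← Real.rpow_mul hd0]
    norm_num
  have h2 := h₀ _ hd V G (fun v => by
    rw [e1]
    exact_mod_cast nb_card G hG v)
  rw [e2] at h2
  exact h2

/-- **The order of growth.** -/
theorem isLittleO_all (hE : Engine) :
    (fun d : ℕ => (fmax allGraphs d : ℝ)) =o[atTop] fun d : ℕ => (d : ℝ) ^ ((4 : ℝ) / 3) := by
  rw [isLittleO_iff]
  intro c hc
  filter_upwards [small_all hE c hc] with d hd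
  have h0 : (0 : ℝ) ≤ (d : ℝ) ^ ((4 : ℝ) / 3) := Real.rpow_nonneg (Nat.cast_nonneg d) _
  rw [Real.norm_of_nonneg (Nat.cast_nonneg _), Real.norm_of_nonneg h0]
  exact fmax_le (mul_nonneg hc.le h0) fun V _ G _ hG _ => hd V G hG

/-- The maximum is attained. -/
theorem isGreatest_all (d : ℕ) : IsGreatest (values allGraphs d) (fmax allGraphs d) :=
  isGreatest (fun _ _ _ _ => trivial) d

end Pool.Agent.AcyG
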