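import Pool.Agent.AcyG.OPar
import Pool.Agent.AcyG.OAL
import Pool.Agent.AcyG.OStart
import Pool.Agent.AcyG.OStage
import Pool.Agent.AcyG.TopG
import Pool.Agent.AcyGD.Final

/-! # The induction over the stages and the end of the proof (project MP_af9dfb_G, row OTop) -/

set_option autoImplicit false
set_option linter.unusedSectionVars false

namespace Pool.Agent.AcyG

open Finset
open Pool.Agent.AcyK (Big cN nb acyclicNumber)
open Pool.Agent.AcyGD (DD)
open scoped Classical

universe u v

section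

variable {V : Type u} [Fintype V] [DecidableEq V]

/-! ## The data -/

/-- Data of the D-part. -/
noncomputable def mkB (c : OCst) (T : ℝ) (k M NS R : ℕ) (N : V → Finset V) (lv : V → ℕ) :
    DD V where
  T := T
  k := k
  M := M
  R := R
  NS := NS
  am := c.amc * T ^ 2400
  N := N
  lv := lv

/-- Data of the outer process. -/
noncomputable def mkD (c : OCst) (T : ℝ) (k q M NS LI R : ℕ) (N : V → Finset V) :
    GData V (ULift.{u} (Fin 3) × V) where
  T := T
  k := k
  q := q
  M := M
  NS := NS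
  LI := LI
  R := R
  kap := c.kap
  am := c.amc * T ^ 2400
  H := c.H
  e1 := c.e1
  C0 := c.C0
  Kc := c.Kc
  N := N
  a := oaW (mkB c T k M NS R N fun _ => 0) (c.al * T ^ 2400)
  ctr := fun i => i.2
  La := oaL T (c.al * T ^ 2400)
  s0 := oaS T
  s1 := fun i => T ^ 4803 * oaS T i
  ar := oaR T

theorem card_filter_snd (v : V) :
    ((univ.filter fun i : ULift.{u} (Fin 3) × V => i.2 = v).card : ℝ) ≤ 3 := by
  have h1 : (univ.filter fun i : ULift.{u} (Fin 3) × V => i.2 = v) ⊆
      (univ : Finset (ULift.{u} (Fin 3))) ×ˢ {v} := by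
    intro i hi
    rw [mem_filter] at hi
    rw [mem_product, mem_singleton]
    exact ⟨mem_univ _, hi.2⟩
  have h2 := card_le_card h1
  rw [card_product, card_singleton, mul_one, card_univ, Fintype.card_ulift, Fintype.card_fin] at h2
  exact_mod_cast h2

section ok

variable {c : OCst} {ε T : ℝ} {k q M NS LI R : ℕ} (hc : c.Ok ε)
  (hn : ONum c ε T k q M NS LI R) {N : V → Finset V}
  (hs : ∀ u v, u ∈ N v → v ∈ N u) (hi : ∀ v, v ∉ N v) (hd : ∀ v, ((N v).card : ℝ) ≤ T ^ 3600)
include hc hn

theorem ot_amc : 1 ≤ c.amc := by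
  have h1 := hc.amc_nu
  have h2 := hc.nu_le
  have h3 := hc.nu_pos
  have h4 := hc.al_pos
  have h5 := hc.al_le
  nlinarith

include hs hi hd

theorem mkB_ok (lv : V → ℕ) : (mkB c T k M NS R N lv).Ok := by
  have hT := hn.big
  have hT0 := hT.pos
  have hT1 := hT.one_le
  have ha := ot_amc hc hn
  have hp : ∀ a : ℕ, 0 < T ^ a := fun a => pow_pos hT0 a
  refine ⟨hT, hn.k_lo, hn.k_hi, ?_, hn.R_lo, hn.R_hi, ?_, ?_, ?_, ?_, hs, hi, hd⟩
  · show (M : ℝ) ≤ T ^ 150
    have h1 := hn.M_le
    have h2 := hn.q_hi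
    have h3 := hp 133
    linarith
  · show T ^ 4799 ≤ k * R
    have h1 := hn.n1_lo
    have h2 : 2 * T ^ 4799 ≤ c.nu * T ^ 4800 := by
      have h3 : 2 ≤ c.nu * T := by
        have h4 := hn.am
        have h5 := hc.amc_nu
        have h6 := hc.nu_pos
        nlinarith
      calc 2 * T ^ 4799 ≤ c.nu * T * T ^ 4799 := mul_le_mul_of_nonneg_right h3 (hp _).le
        _ = _ := by rw [mul_assoc, ← pow_succ']
    rw [mul_comm]
    linarith
  · show (NS : ℝ) ≤ T * R
    exact hn.NS_le.trans (mul_le_mul_of_nonneg_right hn.kap (Nat.cast_nonneg _))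
  · show T ^ 2385 ≤ c.amc * T ^ 2400
    calc T ^ 2385 ≤ T ^ 2400 := hT.pw (by norm_num)
      _ ≤ c.amc * T ^ 2400 := le_mul_of_one_le_left (hp _).le ha
  · show c.amc * T ^ 2400 ≤ T ^ 2401
    calc c.amc * T ^ 2400 ≤ T * T ^ 2400 := mul_le_mul_of_nonneg_right hn.am (hp _).le
      _ = T ^ 2401 := by rw [← pow_succ']

theorem mkD_ok : (mkD c T k q M NS LI R N).Ok := by
  have hB := mkB_ok hc hn hs hi hd fun _ => 0
  have hT := hn.big
  have hT0 := hT.pos
  have hT1 := hT.one_le
  have hTb : (1000000 : ℝ) ≤ T := by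
    have := hT.big
    norm_num at this
    exact this
  have ha := ot_amc hc hn
  have hp : ∀ a : ℕ, 0 < T ^ a := fun a => pow_pos hT0 a
  have hR0 : (0 : ℝ) < R := lt_of_lt_of_le (hp 799) hn.R_lo
  have hk0 : (0 : ℝ) < k := lt_of_lt_of_le (hp 3999) hn.k_lo
  have hb0 : 0 < c.al * T ^ 2400 := mul_pos hc.al_pos (hp _)
  have hb1 : T ^ 2399 ≤ c.al * T ^ 2400 := by
    calc T ^ 2399 ≤ c.al * T * T ^ 2399 := le_mul_of_one_le_left (hp _).le hn.al
      _ = _ := by rw [mul_assoc, ← pow_succ']
  have h2p : ∀ a b : ℕ, a < b → 2 * T ^ a ≤ T ^ b := by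
    intro a b hab
    calc 2 * T ^ a ≤ T * T ^ a := mul_le_mul_of_nonneg_right (by linarith) (hp a).le
      _ = T ^ (a + 1) := by rw [← pow_succ']
      _ ≤ T ^ b := hT.pw hab
  have hLI : (LI : ℝ) / R ≤ c.lam := by
    rw [div_le_iff₀ hR0]
    exact hn.LI_le
  have hH0 : 0 < c.H := by linarith [hc.H_one]
  have hC0 : 0 < c.C0 := by linarith [hc.C0_one]
  have hk1 : 0 < c.kap := by linarith [hc.kap_one]
  have hnu := hc.nu_pos
  have hbT : c.al * T ^ 2400 ≤ T ^ 2401 := by
    calc c.al * T ^ 2400 ≤ T * T ^ 2400 :=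
          mul_le_mul_of_nonneg_right (hc.al_le.trans hn.am) (hp _).le
      _ = T ^ 2401 := by rw [← pow_succ']
  have hF : T ^ 9599 ≤ c.al * T ^ 2400 * T ^ 7200 := by
    calc T ^ 9599 = T ^ 2399 * T ^ 7200 := by rw [← pow_add]
      _ ≤ _ := mul_le_mul_of_nonneg_right hb1 (hp _).le
  exact
    { big := hT
      k_lo := hn.k_lo
      k_hi := hn.k_hi
      q_hi := hn.q_hi
      M_le := hn.M_le
      M_ge := hn.M_ge
      R_lo := hn.R_lo
      R_hi := hn.R_hi.trans (hT.pw (by norm_num))
      NS_le := hn.NS_le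
      LI_pos := hn.LI_pos
      am_hi := hB.am_hi
      par1 := by
        show 2000 * T ^ 7200 ≤ (R : ℝ) * k * (c.amc * T ^ 2400)
        have h1 : c.nu / 2 * T ^ 4800 * (c.amc * T ^ 2400) ≤ (R : ℝ) * k * (c.amc * T ^ 2400) :=
          mul_le_mul_of_nonneg_right hn.n1_lo (by positivity)
        refine le_trans (le_of_eq ?_) h1
        have h2 : T ^ 7200 = T ^ 4800 * T ^ 2400 := by rw [← pow_add]
        rw [h2]
        have h3 := hc.amc_nu
        calc 2000 * (T ^ 4800 * T ^ 2400) = 4000 / 2 * (T ^ 4800 * T ^ 2400) := by norm_num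
          _ = c.amc * c.nu / 2 * (T ^ 4800 * T ^ 2400) := by rw [h3]
          _ = _ := by ring
      par2 := by
        show (c.amc * T ^ 2400) ^ 2 ≤ c.H * (R * k)
        have h1 : c.H * (c.nu / 2 * T ^ 4800) ≤ c.H * (R * k) :=
          mul_le_mul_of_nonneg_left hn.n1_lo hH0.le
        refine le_trans ?_ h1
        have h2 : (c.amc * T ^ 2400) ^ 2 = c.amc ^ 2 * T ^ 4800 := by
          rw [mul_pow, ← pow_mul]
        rw [h2]
        calc c.amc ^ 2 * T ^ 4800 ≤ c.H * c.nu / 2 * T ^ 4800 := by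
              refine mul_le_mul_of_nonneg_right ?_ (hp _).le
              have := hc.H_amc
              linarith
          _ = _ := by ring
      par3 := by
        show (R : ℝ) * k ≤ (c.amc * T ^ 2400) ^ 2
        have h2 : (c.amc * T ^ 2400) ^ 2 = c.amc ^ 2 * T ^ 4800 := by
          rw [mul_pow, ← pow_mul]
        rw [h2]
        refine hn.n1_hi.trans (mul_le_mul_of_nonneg_right ?_ (hp _).le)
        exact hc.nu_le.trans (one_le_pow₀ ha)
      kap_one := hc.kap_one
      H_one := hc.H_one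
      e1_pos := hc.e1_pos
      e1_le := hc.e1_le
      e1_lo := hc.e1_Kc
      C0_one := hc.C0_one
      Kc_ge := hc.Kc_ge
      Kc_le := hn.Kc_log
      Kc_exp := hc.Kc_exp
      drift := by
        show 16 * c.kap * (c.e1 + c.H * (40 * c.C0 * c.H) * (LI / R)) ≤ 1
        refine le_trans ?_ hc.drift
        refine mul_le_mul_of_nonneg_left ?_ (by positivity)
        have := mul_le_mul_of_nonneg_left hLI
          (show 0 ≤ c.H * (40 * c.C0 * c.H) by positivity)
        linarith
      frz := by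
        show 10 ^ 5 * c.kap * c.C0 * c.H ^ 3 * (LI / R) ≤ 1
        refine le_trans ?_ hc.frz
        exact mul_le_mul_of_nonneg_left hLI (by positivity)
      N_symm := hs
      N_irrefl := hi
      deg := hd
      a_symm := fun i z z' => oaW_symm hB i z z'
      a_nonneg := fun i z z' => oaW_nonneg i z z'
      a_cod := fun i z z' h => oaW_cod hB h
      a_le := fun i z z' => oaW_le hB i z z'
      a_row := fun i z => oaW_row hB i z
      a_tot := fun i => oaW_tot hB hb0.le i
      a_ext := fun i v w h => oaW_ext hB i h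
      a_ctr := fun i z z' h => oaW_ctr h
      ctr_card := fun v => by
        show ((univ.filter fun i : ULift.{u} (Fin 3) × V => i.2 = v).card : ℝ) ≤ T ^ 100
        refine (card_filter_snd v).trans ?_
        have h1 : 2 * T ^ 0 ≤ T ^ 99 := h2p 0 99 (by norm_num)
        have h2 : 2 * T ^ 99 ≤ T ^ 100 := h2p 99 100 (by norm_num)
        rw [pow_zero] at h1
        linarith
      s0_pos := fun i => oaS_pos hT0 i
      s1_pos := fun i => mul_pos (hp _) (oaS_pos hT0 i)
      num0 := fun i => by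
        show T ^ 5970 * oaS T i ≤ oaL T (c.al * T ^ 2400) i
        unfold oaS oaL
        split_ifs with h1 h2
        · have := h2p 5970 7200 (by norm_num)
          linarith
        · rw [← pow_add]
          exact hT.pw (by norm_num)
        · have e : T ^ 5970 * T ^ 2402 = T ^ 8372 := by rw [← pow_add]
          rw [e]
          have h3 : 2 * T ^ 8372 ≤ T ^ 9599 := h2p _ _ (by norm_num)
          linarith
      num1 := fun i => by
        show T ^ 1500 * (T ^ 4803 * oaS T i) ≤ oaL T (c.al * T ^ 2400) i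
        unfold oaS oaL
        split_ifs with h1 h2
        · have e : T ^ 1500 * (T ^ 4803 * 1) = T ^ 6303 := by rw [mul_one, ← pow_add]
          rw [e]
          have : 2 * T ^ 6303 ≤ T ^ 7200 := h2p _ _ (by norm_num)
          linarith
        · rw [← pow_add, ← pow_add]
          exact hT.pw (by norm_num)
        · have e : T ^ 1500 * (T ^ 4803 * T ^ 2402) = T ^ 8705 := by rw [← pow_add, ← pow_add]
          rw [e]
          have h3 : 2 * T ^ 8705 ≤ T ^ 9599 := h2p _ _ (by norm_num)
          linarith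
      num2 := fun i => by
        show T ^ 470 * (oaR T i * R) ≤ oaL T (c.al * T ^ 2400) i
        have hR : T ^ 470 * (oaR T i * R) ≤ T ^ 470 * (oaR T i * T ^ 800) := by
          refine mul_le_mul_of_nonneg_left ?_ (hp _).le
          refine mul_le_mul_of_nonneg_left hn.R_hi ?_
          unfold oaR
          split_ifs
          · exact (hp _).le
          · exact (hp _).le
        refine hR.trans ?_
        unfold oaR oaL
        split_ifs with h1 h2
        · have e : T ^ 470 * (T ^ 3600 * T ^ 800) = T ^ 4870 := by rw [← pow_add, ← pow_add]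
          rw [e]
          have : 2 * T ^ 4870 ≤ T ^ 7200 := h2p _ _ (by norm_num)
          linarith
        · rw [← pow_add, ← pow_add]
          exact hT.pw (by norm_num)
        · have e : T ^ 470 * (T ^ 7201 * T ^ 800) = T ^ 8471 := by rw [← pow_add, ← pow_add]
          rw [e]
          have h3 : 2 * T ^ 8471 ≤ T ^ 9599 := h2p _ _ (by norm_num)
          linarith
      num3 := fun i => by
        show oaR T i ≤ T ^ 4800 * oaS T i
        unfold oaR oaS
        split_ifs with h1
        · rw [mul_one]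
          exact hT.pw (by norm_num)
        · rw [← pow_add]
          exact hT.pw (by norm_num)
      num4 := fun i => by
        show oaL T (c.al * T ^ 2400) i ≤ T ^ 15000
        unfold oaL
        split_ifs with h1 h2
        · have h3 : T ^ 7200 ≤ T ^ 15000 := hT.pw (by norm_num)
          have := hp 7200
          linarith
        · exact hT.pw (by norm_num)
        · have h3 : c.al * T ^ 2400 * T ^ 7200 ≤ T ^ 2401 * T ^ 7200 :=
            mul_le_mul_of_nonneg_right hbT (hp _).le
          have e : T ^ 2401 * T ^ 7200 = T ^ 9601 := by rw [← pow_add]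
          rw [e] at h3
          have h4 : T ^ 9601 ≤ T ^ 15000 := hT.pw (by norm_num)
          have := mul_pos hb0 (hp 7200)
          linarith
      num5 := fun i => by
        show T ^ 4780 * oaS T i ≤ T ^ 4803 * oaS T i
        exact mul_le_mul_of_nonneg_right (hT.pw (by norm_num)) (oaS_pos hT0 i).le }

end ok

/-! ## The induction over the stages -/

section induct

variable {c : OCst} {ε T : ℝ} {k q M NS LI R : ℕ} (hc : c.Ok ε) (hcol : c.ColsOK.{u})
  (hn : ONum c ε T k q M NS LI R) {N : V → Finset V} [Nonempty V]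
  (hs : ∀ u v, u ∈ N v → v ∈ N u) (hi : ∀ v, v ∉ N v) (hd : ∀ v, ((N v).card : ℝ) ≤ T ^ 3600)
include hc hcol hn hs hi hd

theorem ot_W_mono (n : ℕ) : c.W n ≤ c.W (n + 1) := by
  rw [hc.W_succ]
  have h1 := hc.W_one n
  have h2 := hc.Bx_one n
  nlinarith

/-- One stage. -/
theorem stage_step {j : ℕ} (hj : j < NS) {s : GState V} {C : V → Option (ℕ × Fin k × ℕ)}
    {W0 W1 : ℝ} (hF : (mkD c T k q M NS LI R N).Full R W0 W1 j s C) (h0 : W0 ≤ c.W (j / LI))
    (h1 : W1 ≤ c.W (j / LI + 1)) (h2 : LI ∣ j → W1 ≤ c.W (j / LI)) :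
    ∃ (s' : GState V) (C' : V → Option (ℕ × Fin k × ℕ)),
      (mkD c T k q M NS LI R N).Full R (c.W (j / LI)) (c.W (j / LI + 1)) (j + 1) s' C' := by
  have hD := mkD_ok hc hn hs hi hd
  have hB := mkB_ok hc hn hs hi hd
  obtain ⟨n, hndef⟩ : ∃ n : ℕ, n = j / LI := ⟨_, rfl⟩
  rw [← hndef] at h0 h1 h2 ⊢
  have hnM : n ≤ c.Mi := by
    rw [hndef]
    have h3 := hn.Mi_ge
    have h4 : j / LI < c.Mi := by
      rw [Nat.div_lt_iff_lt_mul hn.LI_pos]
      omega
    exact h4.le
  have hW0 := hc.W_one n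
  have hI := GData.start_inv hD hF.inv h0 h1 h2 (by linarith)
  have hq := hn.q0 n hnM
  obtain ⟨Lb, hLb, μ, u, hcols⟩ := hcol n V (ULift.{u} (Fin 3) × V) (mkD c T k q M NS LI R N) hD
    rfl rfl rfl le_rfl (by linarith) hq (c.W (n + 1)) j _ C hj.le hI
  have hLbn : Nonempty Lb := by
    by_contra h3
    rw [not_nonempty_iff] at h3
    obtain ⟨v⟩ := ‹Nonempty V›
    have h4 := hcols.mu_sum v v
    rw [Finset.univ_eq_empty, sum_empty] at h4
    exact zero_ne_one h4
  let E : GSt V Lb (ULift.{u} (Fin 3) × V) :=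
    { toGData := mkD c T k q M NS LI R N
      j := j
      W0 := c.W n
      W1 := c.W (n + 1)
      q0 := c.q0
      Bx := c.Bx n
      tau := c.tau n
      B0 := c.B0 n
      s := (mkD c T k q M NS LI R N).start j s
      C := C
      μ := μ
      u := u }
  have hE : E.Ok :=
    { dat := hD
      j_lt := hj
      inv := hI
      W0_one := hW0
      W1_one := hc.W_one (n + 1)
      tau_pos := hc.tau_pos n
      q0_pos := hc.q0_pos
      Bx_one := hc.Bx_one n
      Bx_le := hc.Bx_le n hnM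
      W01 := by
        show c.W n * (1 + c.Bx n) ≤ c.W (n + 1)
        rw [hc.W_succ]
      W_le := by
        show (c.W n + c.W (n + 1)) * (2 + c.Bx n) * (mkD c T k q M NS LI R N).gr NS ≤ c.Kc
        refine le_trans ?_ (hc.W_le n hnM)
        refine mul_le_mul_of_nonneg_left ?_ ?_
        · exact GData.os_gr_le hD (j := NS) le_rfl
        · have h3 := hc.W_one (n + 1)
          have h4 := hc.Bx_one n
          exact mul_nonneg (by linarith) (by linarith)
      cols := hcols }
  exact GSt.stage (E := E) hE (R := R) rfl hB hF.sep hF.old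

/-- All stages. -/
theorem all_stages (j : ℕ) (hj : j ≤ NS) : ∃ (s : GState V) (C : V → Option (ℕ × Fin k × ℕ))
    (W0 W1 : ℝ), (mkD c T k q M NS LI R N).Full R W0 W1 j s C ∧ W0 ≤ c.W (j / LI) ∧
      W1 ≤ c.W (j / LI + 1) ∧ (LI ∣ j → W1 ≤ c.W (j / LI)) := by
  have hD := mkD_ok hc hn hs hi hd
  have hL := hn.LI_pos
  induction j with
  | zero =>
    refine ⟨_, _, 1, 1, GData.full_zero hD le_rfl _ (GData.init_inv hD le_rfl), ?_, ?_, ?_⟩
    · exact hc.W_one _
    · exact hc.W_one _
    · intro _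
      exact hc.W_one _
  | succ j ih =>
    obtain ⟨s, C, W0, W1, hF, h0, h1, h2⟩ := ih (by omega)
    obtain ⟨s', C', hF'⟩ := stage_step hc hcol hn hs hi hd (by omega) hF h0 h1 h2
    refine ⟨s', C', _, _, hF', ?_, ?_, ?_⟩
    · have h3 : (j + 1) / LI = j / LI ∨ (j + 1) / LI = j / LI + 1 := by
        rw [Nat.succ_div]
        split_ifs
        · right; rfl
        · left; rfl
      rcases h3 with h3 | h3
      · rw [h3]
      · rw [h3]
        exact ot_W_mono hc hcol hn hs hi hd _
    · have h3 : (j + 1) / LI = j / LI ∨ (j + 1) / LI = j / LI + 1 := by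
        rw [Nat.succ_div]
        split_ifs
        · right; rfl
        · left; rfl
      rcases h3 with h3 | h3
      · rw [h3]
      · rw [h3]
        exact ot_W_mono hc hcol hn hs hi hd _
    · intro h3
      rw [Nat.succ_div, if_pos h3]

end induct

/-! ## The end -/

section fin

variable {AL : Type u} [Fintype AL] {D : GData V AL}

/-- The monochromatic pairs of different rounds. -/
theorem ot_S2d {C : V → Option (ℕ × Fin D.k × ℕ)} (R : ℕ) (l : V → ℕ) (w : V → V → ℝ)
    (hw : ∀ z z', 0 ≤ w z z') : (D.dd R (D.dl C l)).S2d (D.dC C) w ≤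
      ∑ z, ∑ z', if D.monoR C z z' then w z z' + w z' z else 0 := by
  have h1 : (D.dd R (D.dl C l)).S2d (D.dC C) w ≤
      ∑ z, ∑ z', ((if D.monoR C z z' then w z z' else 0) +
        (if D.monoR C z' z then w z z' else 0)) := by
    unfold AcyGD.DD.S2d
    refine sum_le_sum fun z _ => sum_le_sum fun z' _ => ?_
    have h0 := hw z z'
    have h00 : 0 ≤ (if D.monoR C z z' then w z z' else 0) +
        (if D.monoR C z' z then w z z' else 0) := by
      split_ifs <;> linarith
    by_cases h2 : (D.dd R (D.dl C l)).Same (D.dC C) z z' ∧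
        (D.dd R (D.dl C l)).rd (D.dC C) z ≠ (D.dd R (D.dl C l)).rd (D.dC C) z'
    · rw [if_pos h2]
      obtain ⟨hne, i, e, r, r', a1, a2, a3, a4, a5, a6⟩ := GData.osep_same h2.1
      have hr : r ≠ r' := by
        intro h3
        apply h2.2
        rw [a5, a6, h3]
      rcases lt_or_gt_of_ne hr with h3 | h3
      · have h4 : D.monoR C z' z := ⟨i, e, r', r, a2, a1, h3⟩
        rw [if_pos h4]
        have : 0 ≤ (if D.monoR C z z' then w z z' else 0) := by split_ifs <;> linarith
        linarith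
      · have h4 : D.monoR C z z' := ⟨i, e, r, r', a1, a2, h3⟩
        rw [if_pos h4]
        have : 0 ≤ (if D.monoR C z' z then w z z' else 0) := by split_ifs <;> linarith
        linarith
    · rw [if_neg h2]
      exact h00
  refine h1.trans (le_of_eq ?_)
  have h2 : ∑ z, ∑ z', (if D.monoR C z z' then w z z' + w z' z else 0) =
      ∑ z, ∑ z', (if D.monoR C z z' then w z z' else 0) +
      ∑ z, ∑ z', (if D.monoR C z z' then w z' z else 0) := by
    rw [← sum_add_distrib]
    refine sum_congr rfl fun z _ => ?_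
    rw [← sum_add_distrib]
    refine sum_congr rfl fun z' _ => ?_
    split_ifs <;> ring
  have h3 : ∑ z, ∑ z', ((if D.monoR C z z' then w z z' else 0) +
        (if D.monoR C z' z then w z z' else 0)) =
      ∑ z, ∑ z', (if D.monoR C z z' then w z z' else 0) +
      ∑ z, ∑ z', (if D.monoR C z' z then w z z' else 0) := by
    rw [← sum_add_distrib]
    refine sum_congr rfl fun z _ => ?_
    rw [← sum_add_distrib]
  rw [h2, h3]
  congr 1
  exact sum_comm

end fin

section fin2

variable {c : OCst} {ε T : ℝ} {k q M NS LI R : ℕ} (hc : c.Ok ε)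
  (hn : ONum c ε T k q M NS LI R) {N : V → Finset V}
  (hs : ∀ u v, u ∈ N v → v ∈ N u) (hi : ∀ v, v ∉ N v) (hd : ∀ v, ((N v).card : ℝ) ≤ T ^ 3600)
include hc hn hs hi hd

/-- The number of monochromatic pairs, in terms of `nu`. -/
theorem ot_mon {La P B : ℝ} (hLa : 0 ≤ La)
    (h : P ≤ (NS : ℝ) / R * (101 / 100 * La / ((R : ℝ) * k))) (hB : 2 * La ≤ B * T ^ 4800)
    (hB0 : 0 ≤ B) : 2 * P ≤ 21 / 10 * c.kap * B / c.nu := by
  have hT0 := hn.big.pos
  have hp : ∀ a : ℕ, 0 < T ^ a := fun a => pow_pos hT0 a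
  have hR0 : (0 : ℝ) < R := lt_of_lt_of_le (hp 799) hn.R_lo
  have hk0 : (0 : ℝ) < k := lt_of_lt_of_le (hp 3999) hn.k_lo
  have hnu := hc.nu_pos
  have hkap := hc.kap_one
  have h1 : (NS : ℝ) / R ≤ c.kap := by
    rw [div_le_iff₀ hR0]
    exact hn.NS_le
  have h2 : 101 / 100 * La / ((R : ℝ) * k) ≤ 101 / 100 * (B / c.nu) := by
    rw [div_le_iff₀ (mul_pos hR0 hk0)]
    have h3 : B / c.nu * (c.nu / 2 * T ^ 4800) ≤ B / c.nu * ((R : ℝ) * k) :=
      mul_le_mul_of_nonneg_left hn.n1_lo (div_nonneg hB0 hnu.le)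
    have h4 : B / c.nu * (c.nu / 2 * T ^ 4800) = B * T ^ 4800 / 2 := by
      field_simp
    rw [h4] at h3
    linarith
  have h5 : 0 ≤ 101 / 100 * La / ((R : ℝ) * k) := by positivity
  have h6 : P ≤ c.kap * (101 / 100 * (B / c.nu)) := by
    refine h.trans ?_
    calc (NS : ℝ) / R * (101 / 100 * La / ((R : ℝ) * k)) ≤
        c.kap * (101 / 100 * La / ((R : ℝ) * k)) := mul_le_mul_of_nonneg_right h1 h5
      _ ≤ _ := mul_le_mul_of_nonneg_left h2 (by linarith)
  have h7 : 0 ≤ c.kap * B / c.nu := by positivity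
  have h8 : c.kap * (101 / 100 * (B / c.nu)) = 101 / 100 * (c.kap * B / c.nu) := by ring
  have h9 : 21 / 10 * c.kap * B / c.nu = 21 / 10 * (c.kap * B / c.nu) := by ring
  rw [h9]
  rw [h8] at h6
  linarith

/-- The uncoloured vertices. -/
theorem ot_un {x : ℝ} (h : x ≤ T ^ 3600 * (1 - 94 / 100 / (R : ℝ)) ^ NS + NS * T ^ 1600) :
    x ≤ c.del * T ^ 3600 := by
  have hT := hn.big
  have hT0 := hT.pos
  have hp : ∀ a : ℕ, 0 < T ^ a := fun a => pow_pos hT0 a
  have hR0 : (0 : ℝ) < R := lt_of_lt_of_le (hp 799) hn.R_lo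
  have hR1 : (1 : ℝ) ≤ R := (one_le_pow₀ hT.one_le).trans hn.R_lo
  have hkap := hc.kap_one
  have h1 : (1 - 94 / 100 / (R : ℝ)) ^ NS ≤ c.del / 2 := by
    have h2 : 0 ≤ 1 - 94 / 100 / (R : ℝ) := by
      rw [sub_nonneg, div_le_one hR0]
      linarith
    have h3 : 1 - 94 / 100 / (R : ℝ) ≤ Real.exp (-(94 / 100 / (R : ℝ))) := by
      have := Real.add_one_le_exp (-(94 / 100 / (R : ℝ)))
      linarith
    calc (1 - 94 / 100 / (R : ℝ)) ^ NS ≤ Real.exp (-(94 / 100 / (R : ℝ))) ^ NS :=
          pow_le_pow_left₀ h2 h3 _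
      _ = Real.exp (NS * (-(94 / 100 / (R : ℝ)))) := by rw [← Real.exp_nat_mul]
      _ ≤ Real.exp (1 + -(94 / 100 * c.kap)) := by
          apply Real.exp_le_exp.2
          have h4 := hn.NS_ge
          have h5 : (c.kap * R - 1) * (94 / 100 / (R : ℝ)) ≤ NS * (94 / 100 / (R : ℝ)) :=
            mul_le_mul_of_nonneg_right h4 (by positivity)
          have h6 : (c.kap * R - 1) * (94 / 100 / (R : ℝ)) =
              94 / 100 * c.kap - 94 / 100 / R := by
            field_simp
          have h7 : 94 / 100 / (R : ℝ) ≤ 1 := by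
            rw [div_le_one hR0]
            linarith
          linarith
      _ = Real.exp 1 * Real.exp (-(94 / 100 * c.kap)) := Real.exp_add _ _
      _ ≤ 3 * Real.exp (-(94 / 100 * c.kap)) := by
          refine mul_le_mul_of_nonneg_right ?_ (Real.exp_pos _).le
          have := Real.exp_one_lt_d9
          linarith
      _ ≤ c.del / 2 := hc.exp_kap
  have h2 : (NS : ℝ) * T ^ 1600 ≤ c.del / 2 * T ^ 3600 := by
    have h3 : (NS : ℝ) ≤ c.kap * T ^ 800 :=
      hn.NS_le.trans (mul_le_mul_of_nonneg_left hn.R_hi (by linarith))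
    have h4 : c.kap ≤ c.del / 2 * T := by
      have := hn.del
      linarith
    have h5 : 0 ≤ c.del / 2 * T := by linarith
    calc (NS : ℝ) * T ^ 1600 ≤ c.kap * T ^ 800 * T ^ 1600 :=
          mul_le_mul_of_nonneg_right h3 (hp _).le
      _ ≤ c.del / 2 * T * T ^ 800 * T ^ 1600 := by
          refine mul_le_mul_of_nonneg_right ?_ (hp _).le
          exact mul_le_mul_of_nonneg_right h4 (hp _).le
      _ = c.del / 2 * T ^ 2401 := by
          rw [mul_assoc, mul_assoc, ← pow_add, ← pow_succ']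
      _ ≤ c.del / 2 * T ^ 3600 := by
          refine mul_le_mul_of_nonneg_left (hT.pw (by norm_num)) ?_
          have := hc.del_pos
          linarith
  have h3 : T ^ 3600 * (1 - 94 / 100 / (R : ℝ)) ^ NS ≤ T ^ 3600 * (c.del / 2) :=
    mul_le_mul_of_nonneg_left h1 (hp _).le
  linarith

/-- The final colouring is admissible for the recolouring. -/
theorem ot_fin {s : GState V} {C : V → Option (ℕ × Fin k × ℕ)} {W0 W1 : ℝ}
    (hF : (mkD c T k q M NS LI R N).Full R W0 W1 NS s C) :
    ((mkD c T k q M NS LI R N).dd R ((mkD c T k q M NS LI R N).dl C fun _ => NS)).Fin'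
      ((mkD c T k q M NS LI R N).dC C) c.del (c.al * T ^ 2400) (21 / 10 * c.kap / c.nu)
      (21 / 10 * c.kap / c.nu) (21 / 10 * c.kap * c.al / c.nu) := by
  have hD := mkD_ok hc hn hs hi hd
  have hT := hn.big
  have hT0 := hT.pos
  have hp : ∀ a : ℕ, 0 < T ^ a := fun a => pow_pos hT0 a
  have hB := mkB_ok hc hn hs hi hd
  have hR0 : (0 : ℝ) < R := lt_of_lt_of_le (hp 799) hn.R_lo
  have hk0 : (0 : ℝ) < k := lt_of_lt_of_le (hp 3999) hn.k_lo
  have hnu := hc.nu_pos
  have hkap := hc.kap_one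
  have hI := hF.inv
  set D := mkD c T k q M NS LI R N with hDdef
  have e1 : ∀ (w : V → V → ℝ) (i : ULift.{u} (Fin 3) × V),
      (∀ z z', 0 ≤ w z z') → (∀ z z', w z z' + w z' z ≤ 2 * D.a i z z') →
      (D.dd R (D.dl C fun _ => NS)).S2d (D.dC C) w ≤ 2 * D.Mon C i := by
    intro w i h1 h2
    refine (ot_S2d R _ w h1).trans ?_
    unfold GData.Mon
    rw [mul_sum]
    refine sum_le_sum fun z _ => ?_
    rw [mul_sum]
    refine sum_le_sum fun z' _ => ?_
    split_ifs
    · exact h2 z z'
    · rw [mul_zero]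
  have e1' : ∀ (w : V → V → ℝ) (i : ULift.{u} (Fin 3) × V),
      (∀ z z', 0 ≤ w z z') → (∀ z z', w z z' + w z' z ≤ D.a i z z') →
      (D.dd R (D.dl C fun _ => NS)).S2d (D.dC C) w ≤ D.Mon C i := by
    intro w i h1 h2
    refine (ot_S2d R _ w h1).trans ?_
    unfold GData.Mon
    refine sum_le_sum fun z _ => sum_le_sum fun z' _ => ?_
    split_ifs
    · exact h2 z z'
    · exact le_rfl
  have e2 : ∀ i, D.Mon C i ≤ (NS : ℝ) / R * (101 / 100 * D.La i / ((R : ℝ) * k)) :=
    fun i => hI.mon i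
  refine ⟨hB _, ?_, ?_, ?_, ?_, hF.old, GData.sep_end hF.sep R _ hs, ?_, ?_, ?_, ?_⟩
  · show T ^ 2385 ≤ c.al * T ^ 2400
    calc T ^ 2385 ≤ T ^ 2399 := hT.pw (by norm_num)
      _ ≤ c.al * T * T ^ 2399 := le_mul_of_one_le_left (hp _).le hn.al
      _ = _ := by rw [mul_assoc, ← pow_succ']
  · show c.al * T ^ 2400 ≤ c.amc * T ^ 2400
    exact mul_le_mul_of_nonneg_right hc.al_le (hp _).le
  · show 1 / T ≤ c.del
    rw [div_le_iff₀ hT0]
    have := hn.del
    have h0 := hc.kap_one
    linarith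
  · intro v hv
    show D.dl C (fun _ => NS) v < NS
    obtain ⟨⟨e, r⟩, h1⟩ := Option.ne_none_iff_exists'.1 hv
    obtain ⟨i, h2⟩ := GData.osep_dC h1
    rw [GData.osep_dl _ h2]
    exact (hI.C_lt v i e r h2).1
  · intro w
    have h1 : (((N w).filter fun v => D.dC C v = none).card : ℝ) ≤
        T ^ 3600 * (1 - 94 / 100 / (R : ℝ)) ^ NS + NS * T ^ 1600 := by
      refine le_trans (le_of_eq ?_) (hI.un w)
      show _ = (((N w).filter fun v => C v = none).card : ℝ)
      congr 2
      refine filter_congr fun v _ => ?_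
      unfold GData.dC
      rw [Option.map_eq_none_iff]
      exact Iff.rfl
    exact ot_un hc hn hs hi hd h1
  · intro v
    refine (e1 _ (⟨0⟩, v) (fun z z' => AcyGD.DD.wM_nonneg _ _ _ _) fun z z' => ?_).trans ?_
    · show (D.dd R (D.dl C fun _ => NS)).wM v v z z' +
        (D.dd R (D.dl C fun _ => NS)).wM v v z' z ≤
        2 * oaW (mkB c T k M NS R N fun _ => 0) (c.al * T ^ 2400) (⟨0⟩, v) z z'
      have h1 := oaW_symm (b := c.al * T ^ 2400) (hB fun _ => 0) (⟨0⟩, v) z z'
      unfold oaW at h1 ⊢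
      rw [if_pos rfl, if_pos rfl] at h1
      rw [if_pos rfl, two_mul]
      exact add_le_add le_rfl h1.symm.le
    · have h1 := ot_mon hc hn hs hi hd (La := D.La (⟨0⟩, v)) (P := D.Mon C (⟨0⟩, v))
        (B := T ^ 2400) (by
          show 0 ≤ oaL T (c.al * T ^ 2400) (⟨0⟩, v)
          unfold oaL
          rw [if_pos rfl]
          positivity) (e2 _) (by
          show 2 * oaL T (c.al * T ^ 2400) (⟨0⟩, v) ≤ T ^ 2400 * T ^ 4800
          unfold oaL
          rw [if_pos rfl, ← pow_add]
          linarith) (hp _).le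
      refine h1.trans (le_of_eq ?_)
      show _ = 21 / 10 * c.kap / c.nu * T ^ 2400
      ring
  · intro v
    refine (e1' _ (⟨1⟩, v) (fun z z' => AcyGD.DD.wP_nonneg _ _ _) fun z z' => ?_).trans ?_
    · show (D.dd R (D.dl C fun _ => NS)).wP v z z' +
        (D.dd R (D.dl C fun _ => NS)).wP v z' z ≤
        oaW (mkB c T k M NS R N fun _ => 0) (c.al * T ^ 2400) (⟨1⟩, v) z z'
      unfold oaW
      rw [if_neg (by simp), if_pos rfl]
      exact le_rfl
    · have h1 := ot_mon hc hn hs hi hd (La := D.La (⟨1⟩, v)) (P := D.Mon C (⟨1⟩, v))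
        (B := 2 * T ^ 6000) (by
          show 0 ≤ oaL T (c.al * T ^ 2400) (⟨1⟩, v)
          unfold oaL
          rw [if_neg (by simp), if_pos rfl]
          positivity) (e2 _) (by
          show 2 * oaL T (c.al * T ^ 2400) (⟨1⟩, v) ≤ 2 * T ^ 6000 * T ^ 4800
          unfold oaL
          rw [if_neg (by simp), if_pos rfl, mul_assoc, ← pow_add]) (by positivity)
      show _ ≤ 21 / 10 * c.kap / c.nu * T ^ 6000
      have h2 : 21 / 10 * c.kap * (2 * T ^ 6000) / c.nu =
          2 * (21 / 10 * c.kap / c.nu * T ^ 6000) := by ring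
      rw [h2] at h1
      linarith
  · intro v
    refine (e1 _ (⟨2⟩, v) (fun z z' => AcyGD.DD.wF_nonneg' _ _ _ _) fun z z' => ?_).trans ?_
    · show (D.dd R (D.dl C fun _ => NS)).wF (c.al * T ^ 2400) v z z' +
        (D.dd R (D.dl C fun _ => NS)).wF (c.al * T ^ 2400) v z' z ≤
        2 * oaW (mkB c T k M NS R N fun _ => 0) (c.al * T ^ 2400) (⟨2⟩, v) z z'
      have h1 := oaW_symm (b := c.al * T ^ 2400) (hB fun _ => 0) (⟨2⟩, v) z z'
      unfold oaW at h1 ⊢
      rw [if_neg (by simp), if_neg (by simp), if_neg (by simp),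
        if_neg (by simp)] at h1
      rw [if_neg (by simp), if_neg (by simp), two_mul]
      exact add_le_add le_rfl h1.symm.le
    · have h1 := ot_mon hc hn hs hi hd (La := D.La (⟨2⟩, v)) (P := D.Mon C (⟨2⟩, v))
        (B := c.al * T ^ 4800) (by
          show 0 ≤ oaL T (c.al * T ^ 2400) (⟨2⟩, v)
          unfold oaL
          rw [if_neg (by simp), if_neg (by simp)]
          have := hc.al_pos
          positivity) (e2 _) (by
          show 2 * oaL T (c.al * T ^ 2400) (⟨2⟩, v) ≤ c.al * T ^ 4800 * T ^ 4800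
          unfold oaL
          rw [if_neg (by simp), if_neg (by simp)]
          have h2 : T ^ 2400 * T ^ 7200 = T ^ 4800 * T ^ 4800 := by rw [← pow_add, ← pow_add]
          have h3 : 2 * (c.al * T ^ 2400 * T ^ 7200 / 2) = c.al * (T ^ 2400 * T ^ 7200) := by
            ring
          rw [h3, h2, mul_assoc]) (by
          have := hc.al_pos
          positivity)
      refine h1.trans (le_of_eq ?_)
      show _ = 21 / 10 * c.kap * c.al / c.nu * T ^ 4800
      ring

end fin2

end

/-- **The engine for all graphs.** -/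
theorem engine : Engine := by
  intro ε hε
  obtain ⟨c, hc, hcol⟩ := exists_cst.{0} (min ε 1) (lt_min hε one_pos) (min_le_right _ _)
  obtain ⟨T₀, hT₀⟩ := exists_num hc
  refine ⟨T₀, fun T hT V _ _ G hdeg => ?_⟩
  obtain ⟨k, q, M, NS, LI, R, hn⟩ := hT₀ T hT
  have hbig := hn.big
  have hT0 := hbig.pos
  have hp : ∀ a : ℕ, 0 < T ^ a := fun a => pow_pos hT0 a
  rcases isEmpty_or_nonempty V with hV | hV
  · have h1 : acyclicNumber G = 0 := by
      have h2 : AcyK.IsAcyclicColouring G (fun v : V => (isEmptyElim v : Fin 0)) :=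
        ⟨fun u => isEmptyElim u, fun a b v => isEmptyElim v.1⟩
      have h3 := AcyK.acyclicNumber_le h2
      rw [Fintype.card_fin] at h3
      omega
    rw [h1, Nat.cast_zero]
    positivity
  · have hs : ∀ u v, u ∈ nb G v → v ∈ nb G u := by
      intro u v huv
      rw [AcyK.mem_nb] at huv ⊢
      exact huv.symm
    have hi : ∀ v, v ∉ nb G v := by
      intro v hv
      rw [AcyK.mem_nb] at hv
      exact G.irrefl hv
    obtain ⟨s, C, W0, W1, hF, -⟩ := all_stages hc hcol hn hs hi hdeg NS le_rfl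
    have hfin := ot_fin hc hn hs hi hdeg hF
    obtain ⟨n, hndef⟩ : ∃ n : ℕ, n = ⌈min ε 1 / 4 * T ^ 4800⌉₊ := ⟨_, rfl⟩
    have hε' : 0 < min ε 1 := lt_min hε one_pos
    have hn1 : min ε 1 / 4 * T ^ 4800 ≤ n := by rw [hndef]; exact Nat.le_ceil _
    have hn2 : (n : ℝ) ≤ min ε 1 / 4 * T ^ 4800 + 1 := by
      rw [hndef]
      exact (Nat.ceil_lt_add_one (by have := hp 4800; positivity)).le
    have hx0 : 0 ≤ 1 / T := by positivity
    have hnum := hc.num (1 / T) hx0 hn.x1
    have hnu := hc.nu_pos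
    have hkap := hc.kap_one
    have hal := hc.al_pos
    have hdel := hc.del_pos
    obtain ⟨F, hFc⟩ := AcyGD.DD.final_colouring hfin (G := G) (fun v => rfl)
      (ε := min ε 1 / 4) (b := 1) (by positivity) one_pos (by positivity) (by positivity)
      (by positivity) hn1 (by
        show 2 * (2 * c.del / T ^ 1200 + (2 * c.del / (c.al * T ^ 2400 / T ^ 2400) +
          21 / 10 * c.kap * c.al / c.nu + 1 / T) + (2 * c.del) ^ 2 / 1) +
          2 * (4 * 1 * (2 * c.del) ^ 2 + (21 / 10 * c.kap / c.nu + 1 / T) * (2 * c.del) ^ 2 +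
            2 * (21 / 10 * c.kap / c.nu + 1 / T) * (2 * c.del)) / (min ε 1 / 4) +
          20 * (2 * c.del) ^ 4 / (min ε 1 / 4) ^ 2 ≤ min ε 1 / 4 / 2
        have h1 : c.al * T ^ 2400 / T ^ 2400 = c.al := by
          rw [mul_div_assoc, div_self (hp 2400).ne', mul_one]
        have h2 : 2 * c.del / T ^ 1200 ≤ 2 * c.del * (1 / T) := by
          rw [div_eq_mul_one_div]
          refine mul_le_mul_of_nonneg_left ?_ (by positivity)
          refine one_div_le_one_div_of_le hT0 ?_
          calc T = T ^ 1 := (pow_one T).symm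
            _ ≤ T ^ 1200 := hbig.pw (by norm_num)
        rw [h1]
        linarith)
    have h1 := AcyK.acyclicNumber_le hFc
    have h2 : Fintype.card ((Fin (NS + 1) × Option (Fin k)) ⊕ Fin n) =
        (NS + 1) * (k + 1) + n := by
      simp
    have h3 : (acyclicNumber G : ℝ) ≤ ((NS : ℝ) + 1) * (k + 1) + n := by
      have h4 : acyclicNumber G ≤ (NS + 1) * (k + 1) + n := by
        rw [← h2]
        exact h1
      exact_mod_cast h4
    have h4 := hn.fin
    have h5 : min ε 1 * T ^ 4800 ≤ ε * T ^ 4800 :=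
      mul_le_mul_of_nonneg_right (min_le_left _ _) (hp _).le
    linarith

end Pool.Agent.AcyG
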